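import Pool.Agent.Gen.F5.X12DC3Dm6.S000
import Pool.Agent.Gen.F5.X12DC3Dm6.S001
import Pool.Agent.Gen.F5.X12DC3Dm6.S002
import Pool.Agent.Gen.F5.X12DC3Dm6.S003
import Pool.Agent.Gen.F5.X12DC3Dm6.S004
import Pool.Agent.Gen.F5.X12DC3Dm6.S005
import Pool.Agent.Gen.F5.X12DC3Dm6.S006
import Pool.Agent.Gen.F5.X12DC3Dm6.S007
import Pool.Agent.Gen.F5.X12DC3Dm6.S008
import Pool.Agent.Gen.F5.X12DC3Dm6.S009
import Pool.Agent.Gen.F5.X12DC3Dm6.S010
import Pool.Agent.Gen.F5.X12DC3Dm6.S011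
import Pool.Agent.Gen.F5.X12DC3Dm6.S012

set_option autoImplicit false
set_option maxRecDepth 100000

namespace Pool.Agent.Gen.F5.X12DC3Dm6

open Pool.Agent.Helper72.F5

def n0 : Cl (O (nat_lit 6)) (R (nat_lit 143633))
    (p (nat_lit 0x380c2) (nat_lit 0) (p (nat_lit 0x34caa) (nat_lit 7) (p (nat_lit 0x228012680d0000011910f8f0a) (nat_lit 0) (p (nat_lit 0x228012680d000000f908f0e8a) (nat_lit 0) (p (nat_lit 0x4000c) (nat_lit 1) (p (nat_lit 0x119) (nat_lit 0) (p (nat_lit 0xc1) (nat_lit 1) (p (nat_lit 0x22801228010000010900e8e0a) (nat_lit 0) (p (nat_lit 0x2280122801000000e8f8e0d8a) (nat_lit 0) (p (nat_lit 0x8000c) (nat_lit 0) (p (nat_lit 0xdc004) (nat_lit 0) (p (nat_lit 0x108004) (nat_lit 0) (p (nat_lit 0xc9) (nat_lit 0) (p (nat_lit 0x10f8e8f0d8d1a) (nat_lit 0) (p (nat_lit 0x8f0e0e8d0c9a) (nat_lit 0) (p (nat_lit 0x10d0d8e0c8c1a) (nat_lit 0) (p (nat_lit 0x8c8d0d8c0b9a) (nat_lit 0) (p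 (nat_lit 0x228012680d000000d8d0b8b0a) (nat_lit 0) (p (nat_lit 0x228012680d000000b8c8b0a8a) (nat_lit 0) (p (nat_lit 0x40014) (nat_lit 0) (p (nat_lit 0x80014) (nat_lit 0) (p (nat_lit 0x100014) (nat_lit 0) (p (nat_lit 0x10000c) (nat_lit 0) (p (nat_lit 0x1fc014) (nat_lit 0) (p (nat_lit 0x1fc00c) (nat_lit 0) (p (nat_lit 0xb0004) (nat_lit 1) (p (nat_lit 0x380c2) (nat_lit 0) (p (nat_lit 0x3c4aa) (nat_lit 7) (p (nat_lit 0xd1) (nat_lit 1) (p (nat_lit 0x111) (nat_lit 1) (p (nat_lit 0x109) (nat_lit 0) (p (nat_lit 0x101) (nat_lit 0) (p (nat_lit 0x119) (nat_lit 0) (p (nat_lit 0xc1) (nat_lit 0) (p (nat_lit 0x81) (nat_lit 1) (p (nat_lit 0x41) (nat_lit 1) (p (nat_lit 0x10a898a08881a) (nat_lit 0) (p (nat_lit 0x8a090988079a) (nat_lit 0) (p (nat_lit 0x108088907871a) (nat_lit 0) (p (nat_lit 0x87880887069a) (nat_lit 0) (p (nat_lit 0x8000080000000088806860a) (nat_lit 0) (p (nat_lit 0x8000080000000068786058a)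 (nat_lit 0) (p (nat_lit 0x10687058502) (nat_lit 0) (p (nat_lit 0x8606850482) (nat_lit 0) (p (nat_lit 0x160004) (nat_lit 0) (p (nat_lit 0x68612) (nat_lit 0) (p (nat_lit 0x50592) (nat_lit 0) (p (nat_lit 0x40512) (nat_lit 0) (p (nat_lit 0x50312) (nat_lit 0) (p (nat_lit 0x38292) (nat_lit 0) (p (nat_lit 0x28212) (nat_lit 0) (p (nat_lit 0x38112) (nat_lit 0) (p (nat_lit 0x20092) (nat_lit 0) (p (nat_lit 0x10012) (nat_lit 0) pn)))))))))))))))))))))))))))))))))))))))))))))))))))))) :=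
  Cl.node (nat_lit 0x43caa) (nat_lit 12) (by decide +kernel) (ClAll.succ (ClAll.succ (ClAll.succ (ClAll.succ (ClAll.succ (ClAll.succ (ClAll.succ (ClAll.succ (ClAll.succ (ClAll.succ (ClAll.succ (ClAll.succ ClAll.zero s1507) s1508) s1509) s1510) s1511) s1512) s1513) s1514) s1515) s1516) s1517) s1518)

def n1 : Cl (O (nat_lit 6)) (R (nat_lit 143633))
    (p (nat_lit 0x34caa) (nat_lit 7) (p (nat_lit 0x228012680d0000011910f8f0a) (nat_lit 0) (p (nat_lit 0x228012680d000000f908f0e8a) (nat_lit 0) (p (nat_lit 0x4000c) (nat_lit 1) (p (nat_lit 0x119) (nat_lit 0) (p (nat_lit 0xc1) (nat_lit 1) (p (nat_lit 0x22801228010000010900e8e0a) (nat_lit 0) (p (nat_lit 0x2280122801000000e8f8e0d8a) (nat_lit 0) (p (nat_lit 0x8000c) (nat_lit 0) (p (nat_lit 0xdc004) (nat_lit 0) (p (nat_lit 0x108004) (nat_lit 0) (p (nat_lit 0xc9) (nat_lit 0) (p (nat_lit 0x10f8e8f0d8d1a) (nat_lit 0) (p (nat_lit 0x8f0e0e8d0c9a)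 (nat_lit 0) (p (nat_lit 0x10d0d8e0c8c1a) (nat_lit 0) (p (nat_lit 0x8c8d0d8c0b9a) (nat_lit 0) (p (nat_lit 0x228012680d000000d8d0b8b0a) (nat_lit 0) (p (nat_lit 0x228012680d000000b8c8b0a8a) (nat_lit 0) (p (nat_lit 0x40014) (nat_lit 0) (p (nat_lit 0x80014) (nat_lit 0) (p (nat_lit 0x100014) (nat_lit 0) (p (nat_lit 0x10000c) (nat_lit 0) (p (nat_lit 0x1fc014) (nat_lit 0) (p (nat_lit 0x1fc00c) (nat_lit 0) (p (nat_lit 0xb0004) (nat_lit 1) (p (nat_lit 0x380c2) (nat_lit 0) (p (nat_lit 0x3c4aa) (nat_lit 7) (p (nat_lit 0xd1) (nat_lit 1) (p (nat_lit 0x111) (nat_lit 1) (p (nat_lit 0x109) (nat_lit 0) (p (nat_lit 0x101) (nat_lit 0) (p (nat_lit 0x119) (nat_lit 0) (p (nat_lit 0xc1) (nat_lit 0) (p (nat_lit 0x81) (nat_lit 1) (p (nat_lit 0x41) (nat_lit 1) (p (nat_lit 0x10a898a08881a) (nat_lit 0) (p (nat_lit 0x8a090988079a) (nat_lit 0) (p (nat_lit 0x108088907871a) (nat_lit 0) (p (nat_lit 0x87880887069a)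 (nat_lit 0) (p (nat_lit 0x8000080000000088806860a) (nat_lit 0) (p (nat_lit 0x8000080000000068786058a) (nat_lit 0) (p (nat_lit 0x10687058502) (nat_lit 0) (p (nat_lit 0x8606850482) (nat_lit 0) (p (nat_lit 0x160004) (nat_lit 0) (p (nat_lit 0x68612) (nat_lit 0) (p (nat_lit 0x50592) (nat_lit 0) (p (nat_lit 0x40512) (nat_lit 0) (p (nat_lit 0x50312) (nat_lit 0) (p (nat_lit 0x38292) (nat_lit 0) (p (nat_lit 0x28212) (nat_lit 0) (p (nat_lit 0x38112) (nat_lit 0) (p (nat_lit 0x20092) (nat_lit 0) (p (nat_lit 0x10012) (nat_lit 0) pn))))))))))))))))))))))))))))))))))))))))))))))))))))) :=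
  Cl.node (nat_lit 0x380c2) (nat_lit 2) (by decide +kernel) (ClAll.succ (ClAll.succ ClAll.zero n0) s1519)

def n2 : Cl (O (nat_lit 6)) (R (nat_lit 143633))
    (p (nat_lit 0x228012680d0000011910f8f0a) (nat_lit 0) (p (nat_lit 0x228012680d000000f908f0e8a) (nat_lit 0) (p (nat_lit 0x4000c) (nat_lit 1) (p (nat_lit 0x119) (nat_lit 0) (p (nat_lit 0xc1) (nat_lit 1) (p (nat_lit 0x22801228010000010900e8e0a) (nat_lit 0) (p (nat_lit 0x2280122801000000e8f8e0d8a) (nat_lit 0) (p (nat_lit 0x8000c) (nat_lit 0) (p (nat_lit 0xdc004) (nat_lit 0) (p (nat_lit 0x108004) (nat_lit 0) (p (nat_lit 0xc9) (nat_lit 0) (p (nat_lit 0x10f8e8f0d8d1a) (nat_lit 0) (p (nat_lit 0x8f0e0e8d0c9a) (nat_lit 0) (p (nat_lit 0x10d0d8e0c8c1a) (nat_lit 0) (p (nat_lit 0x8c8d0d8c0b9a) (nat_lit 0) (p (nat_lit 0x228012680d000000d8d0b8b0a) (nat_lit 0) (p (nat_lit 0x228012680d000000b8c8b0a8a) (nat_lit 0) (p (nat_lit 0x40014) (nat_lit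 0) (p (nat_lit 0x80014) (nat_lit 0) (p (nat_lit 0x100014) (nat_lit 0) (p (nat_lit 0x10000c) (nat_lit 0) (p (nat_lit 0x1fc014) (nat_lit 0) (p (nat_lit 0x1fc00c) (nat_lit 0) (p (nat_lit 0xb0004) (nat_lit 1) (p (nat_lit 0x380c2) (nat_lit 0) (p (nat_lit 0x3c4aa) (nat_lit 7) (p (nat_lit 0xd1) (nat_lit 1) (p (nat_lit 0x111) (nat_lit 1) (p (nat_lit 0x109) (nat_lit 0) (p (nat_lit 0x101) (nat_lit 0) (p (nat_lit 0x119) (nat_lit 0) (p (nat_lit 0xc1) (nat_lit 0) (p (nat_lit 0x81) (nat_lit 1) (p (nat_lit 0x41) (nat_lit 1) (p (nat_lit 0x10a898a08881a) (nat_lit 0) (p (nat_lit 0x8a090988079a) (nat_lit 0) (p (nat_lit 0x108088907871a) (nat_lit 0) (p (nat_lit 0x87880887069a) (nat_lit 0) (p (nat_lit 0x8000080000000088806860a) (nat_lit 0) (p (nat_lit 0x8000080000000068786058a) (nat_lit 0) (p (nat_lit 0x10687058502) (nat_lit 0) (p (nat_lit 0x8606850482) (nat_lit 0) (p (nat_lit 0x160004) (nat_lit 0)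 (p (nat_lit 0x68612) (nat_lit 0) (p (nat_lit 0x50592) (nat_lit 0) (p (nat_lit 0x40512) (nat_lit 0) (p (nat_lit 0x50312) (nat_lit 0) (p (nat_lit 0x38292) (nat_lit 0) (p (nat_lit 0x28212) (nat_lit 0) (p (nat_lit 0x38112) (nat_lit 0) (p (nat_lit 0x20092) (nat_lit 0) (p (nat_lit 0x10012) (nat_lit 0) pn)))))))))))))))))))))))))))))))))))))))))))))))))))) :=
  Cl.node (nat_lit 0x34caa) (nat_lit 12) (by decide +kernel) (ClAll.succ (ClAll.succ (ClAll.succ (ClAll.succ (ClAll.succ (ClAll.succ (ClAll.succ (ClAll.succ (ClAll.succ (ClAll.succ (ClAll.succ (ClAll.succ ClAll.zero s1500) s1501) s1502) s1503) s1504) s1505) s1506) n1) s1520) s1521) s1522) s1523)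

def n3 : Cl (O (nat_lit 6)) (R (nat_lit 143633))
    (p (nat_lit 0x228012680d000000f908f0e8a) (nat_lit 0) (p (nat_lit 0x4000c) (nat_lit 1) (p (nat_lit 0x119) (nat_lit 0) (p (nat_lit 0xc1) (nat_lit 1) (p (nat_lit 0x22801228010000010900e8e0a) (nat_lit 0) (p (nat_lit 0x2280122801000000e8f8e0d8a) (nat_lit 0) (p (nat_lit 0x8000c) (nat_lit 0) (p (nat_lit 0xdc004) (nat_lit 0) (p (nat_lit 0x108004) (nat_lit 0) (p (nat_lit 0xc9) (nat_lit 0) (p (nat_lit 0x10f8e8f0d8d1a) (nat_lit 0) (p (nat_lit 0x8f0e0e8d0c9a) (nat_lit 0) (p (nat_lit 0x10d0d8e0c8c1a) (nat_lit 0) (p (nat_lit 0x8c8d0d8c0b9a) (nat_lit 0) (p (nat_lit 0x228012680d000000d8d0b8b0a) (nat_lit 0) (p (nat_lit 0x228012680d000000b8c8b0a8a) (nat_lit 0) (p (nat_lit 0x40014) (nat_lit 0) (p (nat_lit 0x80014) (nat_lit 0) (p (nat_lit 0x100014) (nat_lit 0) (p (nat_lit 0x10000c) (nat_lit 0) (p (nat_lit 0x1fc014) (nat_lit 0) (p (nat_lit 0x1fc00c)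 (nat_lit 0) (p (nat_lit 0xb0004) (nat_lit 1) (p (nat_lit 0x380c2) (nat_lit 0) (p (nat_lit 0x3c4aa) (nat_lit 7) (p (nat_lit 0xd1) (nat_lit 1) (p (nat_lit 0x111) (nat_lit 1) (p (nat_lit 0x109) (nat_lit 0) (p (nat_lit 0x101) (nat_lit 0) (p (nat_lit 0x119) (nat_lit 0) (p (nat_lit 0xc1) (nat_lit 0) (p (nat_lit 0x81) (nat_lit 1) (p (nat_lit 0x41) (nat_lit 1) (p (nat_lit 0x10a898a08881a) (nat_lit 0) (p (nat_lit 0x8a090988079a) (nat_lit 0) (p (nat_lit 0x108088907871a) (nat_lit 0) (p (nat_lit 0x87880887069a) (nat_lit 0) (p (nat_lit 0x8000080000000088806860a) (nat_lit 0) (p (nat_lit 0x8000080000000068786058a) (nat_lit 0) (p (nat_lit 0x10687058502) (nat_lit 0) (p (nat_lit 0x8606850482) (nat_lit 0) (p (nat_lit 0x160004) (nat_lit 0) (p (nat_lit 0x68612) (nat_lit 0) (p (nat_lit 0x50592) (nat_lit 0) (p (nat_lit 0x40512) (nat_lit 0) (p (nat_lit 0x50312) (nat_lit 0) (p (nat_lit 0x38292) (nat_lit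 0) (p (nat_lit 0x28212) (nat_lit 0) (p (nat_lit 0x38112) (nat_lit 0) (p (nat_lit 0x20092) (nat_lit 0) (p (nat_lit 0x10012) (nat_lit 0) pn))))))))))))))))))))))))))))))))))))))))))))))))))) :=
  Cl.node (nat_lit 0x228012680d0000011910f8f0a) (nat_lit 1) (by decide +kernel) (ClAll.succ ClAll.zero n2)

def n4 : Cl (O (nat_lit 6)) (R (nat_lit 143633))
    (p (nat_lit 0x4000c) (nat_lit 1) (p (nat_lit 0x119) (nat_lit 0) (p (nat_lit 0xc1) (nat_lit 1) (p (nat_lit 0x22801228010000010900e8e0a) (nat_lit 0) (p (nat_lit 0x2280122801000000e8f8e0d8a) (nat_lit 0) (p (nat_lit 0x8000c) (nat_lit 0) (p (nat_lit 0xdc004) (nat_lit 0) (p (nat_lit 0x108004) (nat_lit 0) (p (nat_lit 0xc9) (nat_lit 0) (p (nat_lit 0x10f8e8f0d8d1a) (nat_lit 0) (p (nat_lit 0x8f0e0e8d0c9a) (nat_lit 0) (p (nat_lit 0x10d0d8e0c8c1a) (nat_lit 0) (p (nat_lit 0x8c8d0d8c0b9a) (nat_lit 0) (p (nat_lit 0x228012680d000000d8d0b8b0a) (nat_lit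 0) (p (nat_lit 0x228012680d000000b8c8b0a8a) (nat_lit 0) (p (nat_lit 0x40014) (nat_lit 0) (p (nat_lit 0x80014) (nat_lit 0) (p (nat_lit 0x100014) (nat_lit 0) (p (nat_lit 0x10000c) (nat_lit 0) (p (nat_lit 0x1fc014) (nat_lit 0) (p (nat_lit 0x1fc00c) (nat_lit 0) (p (nat_lit 0xb0004) (nat_lit 1) (p (nat_lit 0x380c2) (nat_lit 0) (p (nat_lit 0x3c4aa) (nat_lit 7) (p (nat_lit 0xd1) (nat_lit 1) (p (nat_lit 0x111) (nat_lit 1) (p (nat_lit 0x109) (nat_lit 0) (p (nat_lit 0x101) (nat_lit 0) (p (nat_lit 0x119) (nat_lit 0) (p (nat_lit 0xc1) (nat_lit 0) (p (nat_lit 0x81) (nat_lit 1) (p (nat_lit 0x41) (nat_lit 1) (p (nat_lit 0x10a898a08881a) (nat_lit 0) (p (nat_lit 0x8a090988079a) (nat_lit 0) (p (nat_lit 0x108088907871a) (nat_lit 0) (p (nat_lit 0x87880887069a) (nat_lit 0) (p (nat_lit 0x8000080000000088806860a) (nat_lit 0) (p (nat_lit 0x8000080000000068786058a) (nat_lit 0) (p (nat_lit 0x10687058502)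 (nat_lit 0) (p (nat_lit 0x8606850482) (nat_lit 0) (p (nat_lit 0x160004) (nat_lit 0) (p (nat_lit 0x68612) (nat_lit 0) (p (nat_lit 0x50592) (nat_lit 0) (p (nat_lit 0x40512) (nat_lit 0) (p (nat_lit 0x50312) (nat_lit 0) (p (nat_lit 0x38292) (nat_lit 0) (p (nat_lit 0x28212) (nat_lit 0) (p (nat_lit 0x38112) (nat_lit 0) (p (nat_lit 0x20092) (nat_lit 0) (p (nat_lit 0x10012) (nat_lit 0) pn)))))))))))))))))))))))))))))))))))))))))))))))))) :=
  Cl.node (nat_lit 0x228012680d000000f908f0e8a) (nat_lit 1) (by decide +kernel) (ClAll.succ ClAll.zero n3)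

def n5 : Cl (O (nat_lit 6)) (R (nat_lit 143633))
    (p (nat_lit 0x119) (nat_lit 0) (p (nat_lit 0xc1) (nat_lit 1) (p (nat_lit 0x22801228010000010900e8e0a) (nat_lit 0) (p (nat_lit 0x2280122801000000e8f8e0d8a) (nat_lit 0) (p (nat_lit 0x8000c) (nat_lit 0) (p (nat_lit 0xdc004) (nat_lit 0) (p (nat_lit 0x108004) (nat_lit 0) (p (nat_lit 0xc9) (nat_lit 0) (p (nat_lit 0x10f8e8f0d8d1a) (nat_lit 0) (p (nat_lit 0x8f0e0e8d0c9a) (nat_lit 0) (p (nat_lit 0x10d0d8e0c8c1a) (nat_lit 0) (p (nat_lit 0x8c8d0d8c0b9a) (nat_lit 0) (p (nat_lit 0x228012680d000000d8d0b8b0a) (nat_lit 0) (p (nat_lit 0x228012680d000000b8c8b0a8a) (nat_lit 0) (p (nat_lit 0x40014) (nat_lit 0) (p (nat_lit 0x80014) (nat_lit 0) (p (nat_lit 0x100014) (nat_lit 0) (p (nat_lit 0x10000c) (nat_lit 0) (p (nat_lit 0x1fc014) (nat_lit 0) (p (nat_lit 0x1fc00c) (nat_lit 0) (p (nat_lit 0xb0004) (nat_lit 1) (p (nat_lit 0x380c2) (nat_lit 0) (p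 (nat_lit 0x3c4aa) (nat_lit 7) (p (nat_lit 0xd1) (nat_lit 1) (p (nat_lit 0x111) (nat_lit 1) (p (nat_lit 0x109) (nat_lit 0) (p (nat_lit 0x101) (nat_lit 0) (p (nat_lit 0x119) (nat_lit 0) (p (nat_lit 0xc1) (nat_lit 0) (p (nat_lit 0x81) (nat_lit 1) (p (nat_lit 0x41) (nat_lit 1) (p (nat_lit 0x10a898a08881a) (nat_lit 0) (p (nat_lit 0x8a090988079a) (nat_lit 0) (p (nat_lit 0x108088907871a) (nat_lit 0) (p (nat_lit 0x87880887069a) (nat_lit 0) (p (nat_lit 0x8000080000000088806860a) (nat_lit 0) (p (nat_lit 0x8000080000000068786058a) (nat_lit 0) (p (nat_lit 0x10687058502) (nat_lit 0) (p (nat_lit 0x8606850482) (nat_lit 0) (p (nat_lit 0x160004) (nat_lit 0) (p (nat_lit 0x68612) (nat_lit 0) (p (nat_lit 0x50592) (nat_lit 0) (p (nat_lit 0x40512) (nat_lit 0) (p (nat_lit 0x50312) (nat_lit 0) (p (nat_lit 0x38292) (nat_lit 0) (p (nat_lit 0x28212) (nat_lit 0) (p (nat_lit 0x38112) (nat_lit 0) (p (nat_lit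 0x20092) (nat_lit 0) (p (nat_lit 0x10012) (nat_lit 0) pn))))))))))))))))))))))))))))))))))))))))))))))))) :=
  Cl.node (nat_lit 0x4000c) (nat_lit 2) (by decide +kernel) (ClAll.succ (ClAll.succ ClAll.zero s1499) n4)

def n6 : Cl (O (nat_lit 6)) (R (nat_lit 143633))
    (p (nat_lit 0xc1) (nat_lit 1) (p (nat_lit 0x22801228010000010900e8e0a) (nat_lit 0) (p (nat_lit 0x2280122801000000e8f8e0d8a) (nat_lit 0) (p (nat_lit 0x8000c) (nat_lit 0) (p (nat_lit 0xdc004) (nat_lit 0) (p (nat_lit 0x108004) (nat_lit 0) (p (nat_lit 0xc9) (nat_lit 0) (p (nat_lit 0x10f8e8f0d8d1a) (nat_lit 0) (p (nat_lit 0x8f0e0e8d0c9a) (nat_lit 0) (p (nat_lit 0x10d0d8e0c8c1a) (nat_lit 0) (p (nat_lit 0x8c8d0d8c0b9a) (nat_lit 0) (p (nat_lit 0x228012680d000000d8d0b8b0a) (nat_lit 0) (p (nat_lit 0x228012680d000000b8c8b0a8a) (nat_lit 0) (p (nat_lit 0x40014) (nat_lit 0) (p (nat_lit 0x80014) (nat_lit 0) (p (nat_lit 0x100014)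 (nat_lit 0) (p (nat_lit 0x10000c) (nat_lit 0) (p (nat_lit 0x1fc014) (nat_lit 0) (p (nat_lit 0x1fc00c) (nat_lit 0) (p (nat_lit 0xb0004) (nat_lit 1) (p (nat_lit 0x380c2) (nat_lit 0) (p (nat_lit 0x3c4aa) (nat_lit 7) (p (nat_lit 0xd1) (nat_lit 1) (p (nat_lit 0x111) (nat_lit 1) (p (nat_lit 0x109) (nat_lit 0) (p (nat_lit 0x101) (nat_lit 0) (p (nat_lit 0x119) (nat_lit 0) (p (nat_lit 0xc1) (nat_lit 0) (p (nat_lit 0x81) (nat_lit 1) (p (nat_lit 0x41) (nat_lit 1) (p (nat_lit 0x10a898a08881a) (nat_lit 0) (p (nat_lit 0x8a090988079a) (nat_lit 0) (p (nat_lit 0x108088907871a) (nat_lit 0) (p (nat_lit 0x87880887069a) (nat_lit 0) (p (nat_lit 0x8000080000000088806860a) (nat_lit 0) (p (nat_lit 0x8000080000000068786058a) (nat_lit 0) (p (nat_lit 0x10687058502) (nat_lit 0) (p (nat_lit 0x8606850482) (nat_lit 0) (p (nat_lit 0x160004) (nat_lit 0) (p (nat_lit 0x68612) (nat_lit 0) (p (nat_lit 0x50592) (nat_lit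 0) (p (nat_lit 0x40512) (nat_lit 0) (p (nat_lit 0x50312) (nat_lit 0) (p (nat_lit 0x38292) (nat_lit 0) (p (nat_lit 0x28212) (nat_lit 0) (p (nat_lit 0x38112) (nat_lit 0) (p (nat_lit 0x20092) (nat_lit 0) (p (nat_lit 0x10012) (nat_lit 0) pn)))))))))))))))))))))))))))))))))))))))))))))))) :=
  Cl.node (nat_lit 0x119) (nat_lit 2) (by decide +kernel) (ClAll.succ (ClAll.succ ClAll.zero n5) s1524)

def n7 : Cl (O (nat_lit 6)) (R (nat_lit 143633))
    (p (nat_lit 0x22801228010000010900e8e0a) (nat_lit 0) (p (nat_lit 0x2280122801000000e8f8e0d8a) (nat_lit 0) (p (nat_lit 0x8000c) (nat_lit 0) (p (nat_lit 0xdc004) (nat_lit 0) (p (nat_lit 0x108004) (nat_lit 0) (p (nat_lit 0xc9) (nat_lit 0) (p (nat_lit 0x10f8e8f0d8d1a) (nat_lit 0) (p (nat_lit 0x8f0e0e8d0c9a) (nat_lit 0) (p (nat_lit 0x10d0d8e0c8c1a) (nat_lit 0) (p (nat_lit 0x8c8d0d8c0b9a) (nat_lit 0) (p (nat_lit 0x228012680d000000d8d0b8b0a) (nat_lit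 0) (p (nat_lit 0x228012680d000000b8c8b0a8a) (nat_lit 0) (p (nat_lit 0x40014) (nat_lit 0) (p (nat_lit 0x80014) (nat_lit 0) (p (nat_lit 0x100014) (nat_lit 0) (p (nat_lit 0x10000c) (nat_lit 0) (p (nat_lit 0x1fc014) (nat_lit 0) (p (nat_lit 0x1fc00c) (nat_lit 0) (p (nat_lit 0xb0004) (nat_lit 1) (p (nat_lit 0x380c2) (nat_lit 0) (p (nat_lit 0x3c4aa) (nat_lit 7) (p (nat_lit 0xd1) (nat_lit 1) (p (nat_lit 0x111) (nat_lit 1) (p (nat_lit 0x109) (nat_lit 0) (p (nat_lit 0x101) (nat_lit 0) (p (nat_lit 0x119) (nat_lit 0) (p (nat_lit 0xc1) (nat_lit 0) (p (nat_lit 0x81) (nat_lit 1) (p (nat_lit 0x41) (nat_lit 1) (p (nat_lit 0x10a898a08881a) (nat_lit 0) (p (nat_lit 0x8a090988079a) (nat_lit 0) (p (nat_lit 0x108088907871a) (nat_lit 0) (p (nat_lit 0x87880887069a) (nat_lit 0) (p (nat_lit 0x8000080000000088806860a) (nat_lit 0) (p (nat_lit 0x8000080000000068786058a) (nat_lit 0) (p (nat_lit 0x10687058502)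 (nat_lit 0) (p (nat_lit 0x8606850482) (nat_lit 0) (p (nat_lit 0x160004) (nat_lit 0) (p (nat_lit 0x68612) (nat_lit 0) (p (nat_lit 0x50592) (nat_lit 0) (p (nat_lit 0x40512) (nat_lit 0) (p (nat_lit 0x50312) (nat_lit 0) (p (nat_lit 0x38292) (nat_lit 0) (p (nat_lit 0x28212) (nat_lit 0) (p (nat_lit 0x38112) (nat_lit 0) (p (nat_lit 0x20092) (nat_lit 0) (p (nat_lit 0x10012) (nat_lit 0) pn))))))))))))))))))))))))))))))))))))))))))))))) :=
  Cl.node (nat_lit 0xc1) (nat_lit 2) (by decide +kernel) (ClAll.succ (ClAll.succ ClAll.zero s1498) n6)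

def n8 : Cl (O (nat_lit 6)) (R (nat_lit 143633))
    (p (nat_lit 0x2280122801000000e8f8e0d8a) (nat_lit 0) (p (nat_lit 0x8000c) (nat_lit 0) (p (nat_lit 0xdc004) (nat_lit 0) (p (nat_lit 0x108004) (nat_lit 0) (p (nat_lit 0xc9) (nat_lit 0) (p (nat_lit 0x10f8e8f0d8d1a) (nat_lit 0) (p (nat_lit 0x8f0e0e8d0c9a) (nat_lit 0) (p (nat_lit 0x10d0d8e0c8c1a) (nat_lit 0) (p (nat_lit 0x8c8d0d8c0b9a) (nat_lit 0) (p (nat_lit 0x228012680d000000d8d0b8b0a) (nat_lit 0) (p (nat_lit 0x228012680d000000b8c8b0a8a) (nat_lit 0) (p (nat_lit 0x40014) (nat_lit 0) (p (nat_lit 0x80014) (nat_lit 0) (p (nat_lit 0x100014) (nat_lit 0) (p (nat_lit 0x10000c) (nat_lit 0) (p (nat_lit 0x1fc014) (nat_lit 0) (p (nat_lit 0x1fc00c) (nat_lit 0) (p (nat_lit 0xb0004) (nat_lit 1) (p (nat_lit 0x380c2) (nat_lit 0) (p (nat_lit 0x3c4aa) (nat_lit 7) (p (nat_lit 0xd1) (nat_lit 1) (p (nat_lit 0x111) (nat_lit 1) (p (nat_lit 0x109) (nat_lit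 0) (p (nat_lit 0x101) (nat_lit 0) (p (nat_lit 0x119) (nat_lit 0) (p (nat_lit 0xc1) (nat_lit 0) (p (nat_lit 0x81) (nat_lit 1) (p (nat_lit 0x41) (nat_lit 1) (p (nat_lit 0x10a898a08881a) (nat_lit 0) (p (nat_lit 0x8a090988079a) (nat_lit 0) (p (nat_lit 0x108088907871a) (nat_lit 0) (p (nat_lit 0x87880887069a) (nat_lit 0) (p (nat_lit 0x8000080000000088806860a) (nat_lit 0) (p (nat_lit 0x8000080000000068786058a) (nat_lit 0) (p (nat_lit 0x10687058502) (nat_lit 0) (p (nat_lit 0x8606850482) (nat_lit 0) (p (nat_lit 0x160004) (nat_lit 0) (p (nat_lit 0x68612) (nat_lit 0) (p (nat_lit 0x50592) (nat_lit 0) (p (nat_lit 0x40512) (nat_lit 0) (p (nat_lit 0x50312) (nat_lit 0) (p (nat_lit 0x38292) (nat_lit 0) (p (nat_lit 0x28212) (nat_lit 0) (p (nat_lit 0x38112) (nat_lit 0) (p (nat_lit 0x20092) (nat_lit 0) (p (nat_lit 0x10012) (nat_lit 0) pn)))))))))))))))))))))))))))))))))))))))))))))) :=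
  Cl.node (nat_lit 0x22801228010000010900e8e0a) (nat_lit 1) (by decide +kernel) (ClAll.succ ClAll.zero n7)

def n9 : Cl (O (nat_lit 6)) (R (nat_lit 143633))
    (p (nat_lit 0x80014) (nat_lit 0) (p (nat_lit 0x134004) (nat_lit 0) (p (nat_lit 0x8000c) (nat_lit 1) (p (nat_lit 0x119) (nat_lit 0) (p (nat_lit 0xc9) (nat_lit 1) (p (nat_lit 0xc1) (nat_lit 0) (p (nat_lit 0x10f8e8f0d8d1a) (nat_lit 0) (p (nat_lit 0x8f0e0e8d0c9a) (nat_lit 0) (p (nat_lit 0x10d0d8e0c8c1a) (nat_lit 0) (p (nat_lit 0x8c8d0d8c0b9a) (nat_lit 0) (p (nat_lit 0x2680d2680d000000d8d0b8b0a) (nat_lit 0) (p (nat_lit 0x2680d2680d000000b8c8b0a8a) (nat_lit 0) (p (nat_lit 0xb0004) (nat_lit 1) (p (nat_lit 0x100014) (nat_lit 0) (p (nat_lit 0x200014) (nat_lit 0) (p (nat_lit 0x10000c) (nat_lit 0) (p (nat_lit 0x20000c) (nat_lit 0) (p (nat_lit 0x380c2) (nat_lit 0) (p (nat_lit 0x444aa) (nat_lit 7) (p (nat_lit 0xd1) (nat_lit 1) (p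 (nat_lit 0x111) (nat_lit 1) (p (nat_lit 0x109) (nat_lit 0) (p (nat_lit 0x101) (nat_lit 0) (p (nat_lit 0x119) (nat_lit 0) (p (nat_lit 0xc9) (nat_lit 0) (p (nat_lit 0x89) (nat_lit 1) (p (nat_lit 0x41) (nat_lit 0) (p (nat_lit 0x10a898a08881a) (nat_lit 0) (p (nat_lit 0x8a090988079a) (nat_lit 0) (p (nat_lit 0x108088907871a) (nat_lit 0) (p (nat_lit 0x87880887069a) (nat_lit 0) (p (nat_lit 0x8000080000000088806860a) (nat_lit 0) (p (nat_lit 0x8000080000000068786058a) (nat_lit 0) (p (nat_lit 0x10687058502) (nat_lit 0) (p (nat_lit 0x8606850482) (nat_lit 0) (p (nat_lit 0x160004) (nat_lit 0) (p (nat_lit 0x68612) (nat_lit 0) (p (nat_lit 0x50592) (nat_lit 0) (p (nat_lit 0x40512) (nat_lit 0) (p (nat_lit 0x50312) (nat_lit 0) (p (nat_lit 0x38292) (nat_lit 0) (p (nat_lit 0x28212) (nat_lit 0) (p (nat_lit 0x38112) (nat_lit 0) (p (nat_lit 0x20092) (nat_lit 0) (p (nat_lit 0x10012) (nat_lit 0) pn)))))))))))))))))))))))))))))))))))))))))))))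 :=
  Cl.node (nat_lit 0xc000c) (nat_lit 2) (by decide +kernel) (ClAll.succ (ClAll.succ ClAll.zero s651) s652)

def n10 : Cl (O (nat_lit 6)) (R (nat_lit 143633))
    (p (nat_lit 0x8000c) (nat_lit 0) (p (nat_lit 0xdc004) (nat_lit 0) (p (nat_lit 0x108004) (nat_lit 0) (p (nat_lit 0xc9) (nat_lit 0) (p (nat_lit 0x10f8e8f0d8d1a) (nat_lit 0) (p (nat_lit 0x8f0e0e8d0c9a) (nat_lit 0) (p (nat_lit 0x10d0d8e0c8c1a) (nat_lit 0) (p (nat_lit 0x8c8d0d8c0b9a) (nat_lit 0) (p (nat_lit 0x228012680d000000d8d0b8b0a) (nat_lit 0) (p (nat_lit 0x228012680d000000b8c8b0a8a) (nat_lit 0) (p (nat_lit 0x40014) (nat_lit 0) (p (nat_lit 0x80014) (nat_lit 0) (p (nat_lit 0x100014) (nat_lit 0) (p (nat_lit 0x10000c) (nat_lit 0) (p (nat_lit 0x1fc014) (nat_lit 0) (p (nat_lit 0x1fc00c) (nat_lit 0) (p (nat_lit 0xb0004) (nat_lit 1) (p (nat_lit 0x380c2) (nat_lit 0) (p (nat_lit 0x3c4aa) (nat_lit 7) (p (nat_lit 0xd1) (nat_lit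 1) (p (nat_lit 0x111) (nat_lit 1) (p (nat_lit 0x109) (nat_lit 0) (p (nat_lit 0x101) (nat_lit 0) (p (nat_lit 0x119) (nat_lit 0) (p (nat_lit 0xc1) (nat_lit 0) (p (nat_lit 0x81) (nat_lit 1) (p (nat_lit 0x41) (nat_lit 1) (p (nat_lit 0x10a898a08881a) (nat_lit 0) (p (nat_lit 0x8a090988079a) (nat_lit 0) (p (nat_lit 0x108088907871a) (nat_lit 0) (p (nat_lit 0x87880887069a) (nat_lit 0) (p (nat_lit 0x8000080000000088806860a) (nat_lit 0) (p (nat_lit 0x8000080000000068786058a) (nat_lit 0) (p (nat_lit 0x10687058502) (nat_lit 0) (p (nat_lit 0x8606850482) (nat_lit 0) (p (nat_lit 0x160004) (nat_lit 0) (p (nat_lit 0x68612) (nat_lit 0) (p (nat_lit 0x50592) (nat_lit 0) (p (nat_lit 0x40512) (nat_lit 0) (p (nat_lit 0x50312) (nat_lit 0) (p (nat_lit 0x38292) (nat_lit 0) (p (nat_lit 0x28212) (nat_lit 0) (p (nat_lit 0x38112) (nat_lit 0) (p (nat_lit 0x20092) (nat_lit 0) (p (nat_lit 0x10012) (nat_lit 0)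 pn))))))))))))))))))))))))))))))))))))))))))))) :=
  Cl.node (nat_lit 0x2280122801000000e8f8e0d8a) (nat_lit 1) (by decide +kernel) (ClAll.succ ClAll.zero n8)

def n11 : Cl (O (nat_lit 6)) (R (nat_lit 143633))
    (p (nat_lit 0x134004) (nat_lit 0) (p (nat_lit 0x8000c) (nat_lit 1) (p (nat_lit 0x119) (nat_lit 0) (p (nat_lit 0xc9) (nat_lit 1) (p (nat_lit 0xc1) (nat_lit 0) (p (nat_lit 0x10f8e8f0d8d1a) (nat_lit 0) (p (nat_lit 0x8f0e0e8d0c9a) (nat_lit 0) (p (nat_lit 0x10d0d8e0c8c1a) (nat_lit 0) (p (nat_lit 0x8c8d0d8c0b9a) (nat_lit 0) (p (nat_lit 0x2680d2680d000000d8d0b8b0a) (nat_lit 0) (p (nat_lit 0x2680d2680d000000b8c8b0a8a) (nat_lit 0) (p (nat_lit 0xb0004) (nat_lit 1) (p (nat_lit 0x100014) (nat_lit 0) (p (nat_lit 0x200014) (nat_lit 0) (p (nat_lit 0x10000c) (nat_lit 0) (p (nat_lit 0x20000c) (nat_lit 0) (p (nat_lit 0x380c2) (nat_lit 0) (p (nat_lit 0x444aa) (nat_lit 7) (p (nat_lit 0xd1)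 (nat_lit 1) (p (nat_lit 0x111) (nat_lit 1) (p (nat_lit 0x109) (nat_lit 0) (p (nat_lit 0x101) (nat_lit 0) (p (nat_lit 0x119) (nat_lit 0) (p (nat_lit 0xc9) (nat_lit 0) (p (nat_lit 0x89) (nat_lit 1) (p (nat_lit 0x41) (nat_lit 0) (p (nat_lit 0x10a898a08881a) (nat_lit 0) (p (nat_lit 0x8a090988079a) (nat_lit 0) (p (nat_lit 0x108088907871a) (nat_lit 0) (p (nat_lit 0x87880887069a) (nat_lit 0) (p (nat_lit 0x8000080000000088806860a) (nat_lit 0) (p (nat_lit 0x8000080000000068786058a) (nat_lit 0) (p (nat_lit 0x10687058502) (nat_lit 0) (p (nat_lit 0x8606850482) (nat_lit 0) (p (nat_lit 0x160004) (nat_lit 0) (p (nat_lit 0x68612) (nat_lit 0) (p (nat_lit 0x50592) (nat_lit 0) (p (nat_lit 0x40512) (nat_lit 0) (p (nat_lit 0x50312) (nat_lit 0) (p (nat_lit 0x38292) (nat_lit 0) (p (nat_lit 0x28212) (nat_lit 0) (p (nat_lit 0x38112) (nat_lit 0) (p (nat_lit 0x20092) (nat_lit 0) (p (nat_lit 0x10012) (nat_lit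 0) pn)))))))))))))))))))))))))))))))))))))))))))) :=
  Cl.node (nat_lit 0x80014) (nat_lit 2) (by decide +kernel) (ClAll.succ (ClAll.succ ClAll.zero n9) s653)

def n12 : Cl (O (nat_lit 6)) (R (nat_lit 143633))
    (p (nat_lit 0xdc004) (nat_lit 0) (p (nat_lit 0x108004) (nat_lit 0) (p (nat_lit 0xc9) (nat_lit 0) (p (nat_lit 0x10f8e8f0d8d1a) (nat_lit 0) (p (nat_lit 0x8f0e0e8d0c9a) (nat_lit 0) (p (nat_lit 0x10d0d8e0c8c1a) (nat_lit 0) (p (nat_lit 0x8c8d0d8c0b9a) (nat_lit 0) (p (nat_lit 0x228012680d000000d8d0b8b0a) (nat_lit 0) (p (nat_lit 0x228012680d000000b8c8b0a8a) (nat_lit 0) (p (nat_lit 0x40014) (nat_lit 0) (p (nat_lit 0x80014) (nat_lit 0) (p (nat_lit 0x100014) (nat_lit 0) (p (nat_lit 0x10000c) (nat_lit 0) (p (nat_lit 0x1fc014) (nat_lit 0) (p (nat_lit 0x1fc00c) (nat_lit 0) (p (nat_lit 0xb0004) (nat_lit 1) (p (nat_lit 0x380c2) (nat_lit 0) (p (nat_lit 0x3c4aa) (nat_lit 7) (p (nat_lit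 0xd1) (nat_lit 1) (p (nat_lit 0x111) (nat_lit 1) (p (nat_lit 0x109) (nat_lit 0) (p (nat_lit 0x101) (nat_lit 0) (p (nat_lit 0x119) (nat_lit 0) (p (nat_lit 0xc1) (nat_lit 0) (p (nat_lit 0x81) (nat_lit 1) (p (nat_lit 0x41) (nat_lit 1) (p (nat_lit 0x10a898a08881a) (nat_lit 0) (p (nat_lit 0x8a090988079a) (nat_lit 0) (p (nat_lit 0x108088907871a) (nat_lit 0) (p (nat_lit 0x87880887069a) (nat_lit 0) (p (nat_lit 0x8000080000000088806860a) (nat_lit 0) (p (nat_lit 0x8000080000000068786058a) (nat_lit 0) (p (nat_lit 0x10687058502) (nat_lit 0) (p (nat_lit 0x8606850482) (nat_lit 0) (p (nat_lit 0x160004) (nat_lit 0) (p (nat_lit 0x68612) (nat_lit 0) (p (nat_lit 0x50592) (nat_lit 0) (p (nat_lit 0x40512) (nat_lit 0) (p (nat_lit 0x50312) (nat_lit 0) (p (nat_lit 0x38292) (nat_lit 0) (p (nat_lit 0x28212) (nat_lit 0) (p (nat_lit 0x38112) (nat_lit 0) (p (nat_lit 0x20092) (nat_lit 0) (p (nat_lit 0x10012)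 (nat_lit 0) pn)))))))))))))))))))))))))))))))))))))))))))) :=
  Cl.node (nat_lit 0x8000c) (nat_lit 2) (by decide +kernel) (ClAll.succ (ClAll.succ ClAll.zero n10) s1525)

def n13 : Cl (O (nat_lit 6)) (R (nat_lit 143633))
    (p (nat_lit 0x10f8e8f0d8d1a) (nat_lit 0) (p (nat_lit 0x8f0e0e8d0c9a) (nat_lit 0) (p (nat_lit 0x10d0d8e0c8c1a) (nat_lit 0) (p (nat_lit 0x8c8d0d8c0b9a) (nat_lit 0) (p (nat_lit 0xa8000c802000000d8d0b8b0a) (nat_lit 0) (p (nat_lit 0xa8000c802000000b8c8b0a8a) (nat_lit 0) (p (nat_lit 0x58004) (nat_lit 1) (p (nat_lit 0x40014) (nat_lit 0) (p (nat_lit 0x109) (nat_lit 1) (p (nat_lit 0x80014) (nat_lit 0) (p (nat_lit 0xb0004) (nat_lit 0) (p (nat_lit 0x100014) (nat_lit 0) (p (nat_lit 0x10000c) (nat_lit 0) (p (nat_lit 0x380c2) (nat_lit 0) (p (nat_lit 0x4c42a) (nat_lit 2) (p (nat_lit 0x109) (nat_lit 0) (p (nat_lit 0x200014) (nat_lit 0) (p (nat_lit 0x20000c) (nat_lit 0) (p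 (nat_lit 0x119) (nat_lit 0) (p (nat_lit 0x81) (nat_lit 0) (p (nat_lit 0x101) (nat_lit 1) (p (nat_lit 0x111) (nat_lit 0) (p (nat_lit 0xd1) (nat_lit 1) (p (nat_lit 0x89) (nat_lit 0) (p (nat_lit 0x41) (nat_lit 0) (p (nat_lit 0x10a898a08881a) (nat_lit 0) (p (nat_lit 0x8a090988079a) (nat_lit 0) (p (nat_lit 0x108088907871a) (nat_lit 0) (p (nat_lit 0x87880887069a) (nat_lit 0) (p (nat_lit 0x8000080000000088806860a) (nat_lit 0) (p (nat_lit 0x8000080000000068786058a) (nat_lit 0) (p (nat_lit 0x10687058502) (nat_lit 0) (p (nat_lit 0x8606850482) (nat_lit 0) (p (nat_lit 0x160004) (nat_lit 0) (p (nat_lit 0x68612) (nat_lit 0) (p (nat_lit 0x50592) (nat_lit 0) (p (nat_lit 0x40512) (nat_lit 0) (p (nat_lit 0x50312) (nat_lit 0) (p (nat_lit 0x38292) (nat_lit 0) (p (nat_lit 0x28212) (nat_lit 0) (p (nat_lit 0x38112) (nat_lit 0) (p (nat_lit 0x20092) (nat_lit 0) (p (nat_lit 0x10012) (nat_lit 0) pn)))))))))))))))))))))))))))))))))))))))))))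 :=
  Cl.node (nat_lit 0x3cc2a) (nat_lit 12) (by decide +kernel) (ClAll.succ (ClAll.succ (ClAll.succ (ClAll.succ (ClAll.succ (ClAll.succ (ClAll.succ (ClAll.succ (ClAll.succ (ClAll.succ (ClAll.succ (ClAll.succ ClAll.zero s482) s483) s484) s485) s486) s487) s488) s489) s490) s491) s492) s493)

def n14 : Cl (O (nat_lit 6)) (R (nat_lit 143633))
    (p (nat_lit 0x8000c) (nat_lit 1) (p (nat_lit 0x119) (nat_lit 0) (p (nat_lit 0xc9) (nat_lit 1) (p (nat_lit 0xc1) (nat_lit 0) (p (nat_lit 0x10f8e8f0d8d1a) (nat_lit 0) (p (nat_lit 0x8f0e0e8d0c9a) (nat_lit 0) (p (nat_lit 0x10d0d8e0c8c1a) (nat_lit 0) (p (nat_lit 0x8c8d0d8c0b9a) (nat_lit 0) (p (nat_lit 0x2680d2680d000000d8d0b8b0a) (nat_lit 0) (p (nat_lit 0x2680d2680d000000b8c8b0a8a) (nat_lit 0) (p (nat_lit 0xb0004) (nat_lit 1) (p (nat_lit 0x100014) (nat_lit 0) (p (nat_lit 0x200014) (nat_lit 0) (p (nat_lit 0x10000c) (nat_lit 0) (p (nat_lit 0x20000c)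 (nat_lit 0) (p (nat_lit 0x380c2) (nat_lit 0) (p (nat_lit 0x444aa) (nat_lit 7) (p (nat_lit 0xd1) (nat_lit 1) (p (nat_lit 0x111) (nat_lit 1) (p (nat_lit 0x109) (nat_lit 0) (p (nat_lit 0x101) (nat_lit 0) (p (nat_lit 0x119) (nat_lit 0) (p (nat_lit 0xc9) (nat_lit 0) (p (nat_lit 0x89) (nat_lit 1) (p (nat_lit 0x41) (nat_lit 0) (p (nat_lit 0x10a898a08881a) (nat_lit 0) (p (nat_lit 0x8a090988079a) (nat_lit 0) (p (nat_lit 0x108088907871a) (nat_lit 0) (p (nat_lit 0x87880887069a) (nat_lit 0) (p (nat_lit 0x8000080000000088806860a) (nat_lit 0) (p (nat_lit 0x8000080000000068786058a) (nat_lit 0) (p (nat_lit 0x10687058502) (nat_lit 0) (p (nat_lit 0x8606850482) (nat_lit 0) (p (nat_lit 0x160004) (nat_lit 0) (p (nat_lit 0x68612) (nat_lit 0) (p (nat_lit 0x50592) (nat_lit 0) (p (nat_lit 0x40512) (nat_lit 0) (p (nat_lit 0x50312) (nat_lit 0) (p (nat_lit 0x38292) (nat_lit 0) (p (nat_lit 0x28212) (nat_lit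 0) (p (nat_lit 0x38112) (nat_lit 0) (p (nat_lit 0x20092) (nat_lit 0) (p (nat_lit 0x10012) (nat_lit 0) pn))))))))))))))))))))))))))))))))))))))))))) :=
  Cl.node (nat_lit 0x134004) (nat_lit 2) (by decide +kernel) (ClAll.succ (ClAll.succ ClAll.zero n11) s654)

def n15 : Cl (O (nat_lit 6)) (R (nat_lit 143633))
    (p (nat_lit 0x108004) (nat_lit 0) (p (nat_lit 0xc9) (nat_lit 0) (p (nat_lit 0x10f8e8f0d8d1a) (nat_lit 0) (p (nat_lit 0x8f0e0e8d0c9a) (nat_lit 0) (p (nat_lit 0x10d0d8e0c8c1a) (nat_lit 0) (p (nat_lit 0x8c8d0d8c0b9a) (nat_lit 0) (p (nat_lit 0x228012680d000000d8d0b8b0a) (nat_lit 0) (p (nat_lit 0x228012680d000000b8c8b0a8a) (nat_lit 0) (p (nat_lit 0x40014) (nat_lit 0) (p (nat_lit 0x80014) (nat_lit 0) (p (nat_lit 0x100014) (nat_lit 0) (p (nat_lit 0x10000c) (nat_lit 0) (p (nat_lit 0x1fc014) (nat_lit 0) (p (nat_lit 0x1fc00c) (nat_lit 0) (p (nat_lit 0xb0004) (nat_lit 1) (p (nat_lit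 0x380c2) (nat_lit 0) (p (nat_lit 0x3c4aa) (nat_lit 7) (p (nat_lit 0xd1) (nat_lit 1) (p (nat_lit 0x111) (nat_lit 1) (p (nat_lit 0x109) (nat_lit 0) (p (nat_lit 0x101) (nat_lit 0) (p (nat_lit 0x119) (nat_lit 0) (p (nat_lit 0xc1) (nat_lit 0) (p (nat_lit 0x81) (nat_lit 1) (p (nat_lit 0x41) (nat_lit 1) (p (nat_lit 0x10a898a08881a) (nat_lit 0) (p (nat_lit 0x8a090988079a) (nat_lit 0) (p (nat_lit 0x108088907871a) (nat_lit 0) (p (nat_lit 0x87880887069a) (nat_lit 0) (p (nat_lit 0x8000080000000088806860a) (nat_lit 0) (p (nat_lit 0x8000080000000068786058a) (nat_lit 0) (p (nat_lit 0x10687058502) (nat_lit 0) (p (nat_lit 0x8606850482) (nat_lit 0) (p (nat_lit 0x160004) (nat_lit 0) (p (nat_lit 0x68612) (nat_lit 0) (p (nat_lit 0x50592) (nat_lit 0) (p (nat_lit 0x40512) (nat_lit 0) (p (nat_lit 0x50312) (nat_lit 0) (p (nat_lit 0x38292) (nat_lit 0) (p (nat_lit 0x28212) (nat_lit 0) (p (nat_lit 0x38112)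 (nat_lit 0) (p (nat_lit 0x20092) (nat_lit 0) (p (nat_lit 0x10012) (nat_lit 0) pn))))))))))))))))))))))))))))))))))))))))))) :=
  Cl.node (nat_lit 0xdc004) (nat_lit 2) (by decide +kernel) (ClAll.succ (ClAll.succ ClAll.zero n12) s1526)

def n16 : Cl (O (nat_lit 6)) (R (nat_lit 143633))
    (p (nat_lit 0x108004) (nat_lit 1) (p (nat_lit 0xc9) (nat_lit 0) (p (nat_lit 0x10f8e8f0d8d1a) (nat_lit 0) (p (nat_lit 0x8f0e0e8d0c9a) (nat_lit 0) (p (nat_lit 0x10d0d8e0c8c1a) (nat_lit 0) (p (nat_lit 0x8c8d0d8c0b9a) (nat_lit 0) (p (nat_lit 0x228012680d000000d8d0b8b0a) (nat_lit 0) (p (nat_lit 0x228012680d000000b8c8b0a8a) (nat_lit 0) (p (nat_lit 0x40014) (nat_lit 0) (p (nat_lit 0x80014) (nat_lit 0) (p (nat_lit 0x100014) (nat_lit 0) (p (nat_lit 0x10000c) (nat_lit 0) (p (nat_lit 0x1fc014) (nat_lit 0) (p (nat_lit 0x1fc00c) (nat_lit 0) (p (nat_lit 0xb0004) (nat_lit 1) (p (nat_lit 0x380c2) (nat_lit 0)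 (p (nat_lit 0x3c4aa) (nat_lit 7) (p (nat_lit 0xd1) (nat_lit 1) (p (nat_lit 0x111) (nat_lit 1) (p (nat_lit 0x109) (nat_lit 0) (p (nat_lit 0x101) (nat_lit 0) (p (nat_lit 0x119) (nat_lit 0) (p (nat_lit 0xc1) (nat_lit 0) (p (nat_lit 0x81) (nat_lit 1) (p (nat_lit 0x41) (nat_lit 1) (p (nat_lit 0x10a898a08881a) (nat_lit 0) (p (nat_lit 0x8a090988079a) (nat_lit 0) (p (nat_lit 0x108088907871a) (nat_lit 0) (p (nat_lit 0x87880887069a) (nat_lit 0) (p (nat_lit 0x8000080000000088806860a) (nat_lit 0) (p (nat_lit 0x8000080000000068786058a) (nat_lit 0) (p (nat_lit 0x10687058502) (nat_lit 0) (p (nat_lit 0x8606850482) (nat_lit 0) (p (nat_lit 0x160004) (nat_lit 0) (p (nat_lit 0x68612) (nat_lit 0) (p (nat_lit 0x50592) (nat_lit 0) (p (nat_lit 0x40512) (nat_lit 0) (p (nat_lit 0x50312) (nat_lit 0) (p (nat_lit 0x38292) (nat_lit 0) (p (nat_lit 0x28212) (nat_lit 0) (p (nat_lit 0x38112) (nat_lit 0) (p (nat_lit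 0x20092) (nat_lit 0) (p (nat_lit 0x10012) (nat_lit 0) pn))))))))))))))))))))))))))))))))))))))))))) :=
  Cl.node (nat_lit 0x8000c) (nat_lit 2) (by decide +kernel) (ClAll.succ (ClAll.succ ClAll.zero s1527) s1528)

def n17 : Cl (O (nat_lit 6)) (R (nat_lit 143633))
    (p (nat_lit 0x10f8e8f0d8d1a) (nat_lit 0) (p (nat_lit 0x8f0e0e8d0c9a) (nat_lit 0) (p (nat_lit 0x10d0d8e0c8c1a) (nat_lit 0) (p (nat_lit 0x8c8d0d8c0b9a) (nat_lit 0) (p (nat_lit 0x24800a6803800000d8d0b8b0a) (nat_lit 0) (p (nat_lit 0x24800a6803800000b8c8b0a8a) (nat_lit 0) (p (nat_lit 0x20014) (nat_lit 0) (p (nat_lit 0x8000c) (nat_lit 0) (p (nat_lit 0x40014) (nat_lit 0) (p (nat_lit 0x80014) (nat_lit 0) (p (nat_lit 0x100014) (nat_lit 0) (p (nat_lit 0x10000c) (nat_lit 0) (p (nat_lit 0x1fc014) (nat_lit 0) (p (nat_lit 0x1fc00c) (nat_lit 0) (p (nat_lit 0xb0004) (nat_lit 1) (p (nat_lit 0x380c2) (nat_lit 1) (p (nat_lit 0x3c4aa)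 (nat_lit 7) (p (nat_lit 0xd1) (nat_lit 1) (p (nat_lit 0x111) (nat_lit 1) (p (nat_lit 0x109) (nat_lit 0) (p (nat_lit 0x101) (nat_lit 0) (p (nat_lit 0x119) (nat_lit 0) (p (nat_lit 0xc1) (nat_lit 0) (p (nat_lit 0x81) (nat_lit 1) (p (nat_lit 0x41) (nat_lit 1) (p (nat_lit 0x10a898a08881a) (nat_lit 0) (p (nat_lit 0x8a090988079a) (nat_lit 0) (p (nat_lit 0x108088907871a) (nat_lit 0) (p (nat_lit 0x87880887069a) (nat_lit 0) (p (nat_lit 0x8000080000000088806860a) (nat_lit 0) (p (nat_lit 0x8000080000000068786058a) (nat_lit 0) (p (nat_lit 0x10687058502) (nat_lit 0) (p (nat_lit 0x8606850482) (nat_lit 0) (p (nat_lit 0x160004) (nat_lit 0) (p (nat_lit 0x68612) (nat_lit 0) (p (nat_lit 0x50592) (nat_lit 0) (p (nat_lit 0x40512) (nat_lit 0) (p (nat_lit 0x50312) (nat_lit 0) (p (nat_lit 0x38292) (nat_lit 0) (p (nat_lit 0x28212) (nat_lit 0) (p (nat_lit 0x38112) (nat_lit 0) (p (nat_lit 0x20092) (nat_lit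 0) (p (nat_lit 0x10012) (nat_lit 0) pn))))))))))))))))))))))))))))))))))))))))))) :=
  Cl.node (nat_lit 0xc9) (nat_lit 2) (by decide +kernel) (ClAll.succ (ClAll.succ ClAll.zero s1552) s1553)

def n18 : Cl (O (nat_lit 6)) (R (nat_lit 143633))
    (p (nat_lit 0x81) (nat_lit 0) (p (nat_lit 0x111) (nat_lit 1) (p (nat_lit 0xd1) (nat_lit 1) (p (nat_lit 0x10f8e8f0d8d1a) (nat_lit 0) (p (nat_lit 0x8f0e0e8d0c9a) (nat_lit 0) (p (nat_lit 0x10d0d8e0c8c1a) (nat_lit 0) (p (nat_lit 0x8c8d0d8c0b9a) (nat_lit 0) (p (nat_lit 0x2680d2680d000000d8d0b8b0a) (nat_lit 0) (p (nat_lit 0x2680d2680d000000b8c8b0a8a) (nat_lit 0) (p (nat_lit 0x100014) (nat_lit 0) (p (nat_lit 0x10000c) (nat_lit 0) (p (nat_lit 0x1fc014) (nat_lit 0) (p (nat_lit 0x1fc00c) (nat_lit 0) (p (nat_lit 0xb0004) (nat_lit 1) (p (nat_lit 0x380c2) (nat_lit 0) (p (nat_lit 0x4c42a) (nat_lit 2) (p (nat_lit 0xc9) (nat_lit 0) (p (nat_lit 0xc1)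 (nat_lit 0) (p (nat_lit 0x81) (nat_lit 1) (p (nat_lit 0x101) (nat_lit 1) (p (nat_lit 0x119) (nat_lit 0) (p (nat_lit 0xd1) (nat_lit 0) (p (nat_lit 0x89) (nat_lit 0) (p (nat_lit 0x41) (nat_lit 0) (p (nat_lit 0x10a898a08881a) (nat_lit 0) (p (nat_lit 0x8a090988079a) (nat_lit 0) (p (nat_lit 0x108088907871a) (nat_lit 0) (p (nat_lit 0x87880887069a) (nat_lit 0) (p (nat_lit 0x8000080000000088806860a) (nat_lit 0) (p (nat_lit 0x8000080000000068786058a) (nat_lit 0) (p (nat_lit 0x10687058502) (nat_lit 0) (p (nat_lit 0x8606850482) (nat_lit 0) (p (nat_lit 0x160004) (nat_lit 0) (p (nat_lit 0x68612) (nat_lit 0) (p (nat_lit 0x50592) (nat_lit 0) (p (nat_lit 0x40512) (nat_lit 0) (p (nat_lit 0x50312) (nat_lit 0) (p (nat_lit 0x38292) (nat_lit 0) (p (nat_lit 0x28212) (nat_lit 0) (p (nat_lit 0x38112) (nat_lit 0) (p (nat_lit 0x20092) (nat_lit 0) (p (nat_lit 0x10012) (nat_lit 0) pn))))))))))))))))))))))))))))))))))))))))))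 :=
  Cl.node (nat_lit 0x3cc2a) (nat_lit 12) (by decide +kernel) (ClAll.succ (ClAll.succ (ClAll.succ (ClAll.succ (ClAll.succ (ClAll.succ (ClAll.succ (ClAll.succ (ClAll.succ (ClAll.succ (ClAll.succ (ClAll.succ ClAll.zero s179) s180) s181) s182) s183) s184) s185) s186) s187) s188) s189) s190)

def n19 : Cl (O (nat_lit 6)) (R (nat_lit 143633))
    (p (nat_lit 0x8f0e0e8d0c9a) (nat_lit 0) (p (nat_lit 0x10d0d8e0c8c1a) (nat_lit 0) (p (nat_lit 0x8c8d0d8c0b9a) (nat_lit 0) (p (nat_lit 0xa8000c802000000d8d0b8b0a) (nat_lit 0) (p (nat_lit 0xa8000c802000000b8c8b0a8a) (nat_lit 0) (p (nat_lit 0x58004) (nat_lit 1) (p (nat_lit 0x40014) (nat_lit 0) (p (nat_lit 0x109) (nat_lit 1) (p (nat_lit 0x80014) (nat_lit 0) (p (nat_lit 0xb0004) (nat_lit 0) (p (nat_lit 0x100014) (nat_lit 0) (p (nat_lit 0x10000c) (nat_lit 0) (p (nat_lit 0x380c2) (nat_lit 0) (p (nat_lit 0x4c42a) (nat_lit 2) (p (nat_lit 0x109) (nat_lit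 0) (p (nat_lit 0x200014) (nat_lit 0) (p (nat_lit 0x20000c) (nat_lit 0) (p (nat_lit 0x119) (nat_lit 0) (p (nat_lit 0x81) (nat_lit 0) (p (nat_lit 0x101) (nat_lit 1) (p (nat_lit 0x111) (nat_lit 0) (p (nat_lit 0xd1) (nat_lit 1) (p (nat_lit 0x89) (nat_lit 0) (p (nat_lit 0x41) (nat_lit 0) (p (nat_lit 0x10a898a08881a) (nat_lit 0) (p (nat_lit 0x8a090988079a) (nat_lit 0) (p (nat_lit 0x108088907871a) (nat_lit 0) (p (nat_lit 0x87880887069a) (nat_lit 0) (p (nat_lit 0x8000080000000088806860a) (nat_lit 0) (p (nat_lit 0x8000080000000068786058a) (nat_lit 0) (p (nat_lit 0x10687058502) (nat_lit 0) (p (nat_lit 0x8606850482) (nat_lit 0) (p (nat_lit 0x160004) (nat_lit 0) (p (nat_lit 0x68612) (nat_lit 0) (p (nat_lit 0x50592) (nat_lit 0) (p (nat_lit 0x40512) (nat_lit 0) (p (nat_lit 0x50312) (nat_lit 0) (p (nat_lit 0x38292) (nat_lit 0) (p (nat_lit 0x28212) (nat_lit 0) (p (nat_lit 0x38112) (nat_lit 0)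 (p (nat_lit 0x20092) (nat_lit 0) (p (nat_lit 0x10012) (nat_lit 0) pn)))))))))))))))))))))))))))))))))))))))))) :=
  Cl.node (nat_lit 0x10f8e8f0d8d1a) (nat_lit 1) (by decide +kernel) (ClAll.succ ClAll.zero n13)

def n20 : Cl (O (nat_lit 6)) (R (nat_lit 143633))
    (p (nat_lit 0x119) (nat_lit 0) (p (nat_lit 0xc9) (nat_lit 1) (p (nat_lit 0xc1) (nat_lit 0) (p (nat_lit 0x10f8e8f0d8d1a) (nat_lit 0) (p (nat_lit 0x8f0e0e8d0c9a) (nat_lit 0) (p (nat_lit 0x10d0d8e0c8c1a) (nat_lit 0) (p (nat_lit 0x8c8d0d8c0b9a) (nat_lit 0) (p (nat_lit 0x2680d2680d000000d8d0b8b0a) (nat_lit 0) (p (nat_lit 0x2680d2680d000000b8c8b0a8a) (nat_lit 0) (p (nat_lit 0xb0004) (nat_lit 1) (p (nat_lit 0x100014) (nat_lit 0) (p (nat_lit 0x200014) (nat_lit 0) (p (nat_lit 0x10000c) (nat_lit 0) (p (nat_lit 0x20000c) (nat_lit 0) (p (nat_lit 0x380c2) (nat_lit 0) (p (nat_lit 0x444aa) (nat_lit 7) (p (nat_lit 0xd1) (nat_lit 1)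 (p (nat_lit 0x111) (nat_lit 1) (p (nat_lit 0x109) (nat_lit 0) (p (nat_lit 0x101) (nat_lit 0) (p (nat_lit 0x119) (nat_lit 0) (p (nat_lit 0xc9) (nat_lit 0) (p (nat_lit 0x89) (nat_lit 1) (p (nat_lit 0x41) (nat_lit 0) (p (nat_lit 0x10a898a08881a) (nat_lit 0) (p (nat_lit 0x8a090988079a) (nat_lit 0) (p (nat_lit 0x108088907871a) (nat_lit 0) (p (nat_lit 0x87880887069a) (nat_lit 0) (p (nat_lit 0x8000080000000088806860a) (nat_lit 0) (p (nat_lit 0x8000080000000068786058a) (nat_lit 0) (p (nat_lit 0x10687058502) (nat_lit 0) (p (nat_lit 0x8606850482) (nat_lit 0) (p (nat_lit 0x160004) (nat_lit 0) (p (nat_lit 0x68612) (nat_lit 0) (p (nat_lit 0x50592) (nat_lit 0) (p (nat_lit 0x40512) (nat_lit 0) (p (nat_lit 0x50312) (nat_lit 0) (p (nat_lit 0x38292) (nat_lit 0) (p (nat_lit 0x28212) (nat_lit 0) (p (nat_lit 0x38112) (nat_lit 0) (p (nat_lit 0x20092) (nat_lit 0) (p (nat_lit 0x10012) (nat_lit 0) pn))))))))))))))))))))))))))))))))))))))))))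 :=
  Cl.node (nat_lit 0x8000c) (nat_lit 2) (by decide +kernel) (ClAll.succ (ClAll.succ ClAll.zero s650) n14)

def n21 : Cl (O (nat_lit 6)) (R (nat_lit 143633))
    (p (nat_lit 0xc9) (nat_lit 0) (p (nat_lit 0x10f8e8f0d8d1a) (nat_lit 0) (p (nat_lit 0x8f0e0e8d0c9a) (nat_lit 0) (p (nat_lit 0x10d0d8e0c8c1a) (nat_lit 0) (p (nat_lit 0x8c8d0d8c0b9a) (nat_lit 0) (p (nat_lit 0x228012680d000000d8d0b8b0a) (nat_lit 0) (p (nat_lit 0x228012680d000000b8c8b0a8a) (nat_lit 0) (p (nat_lit 0x40014) (nat_lit 0) (p (nat_lit 0x80014) (nat_lit 0) (p (nat_lit 0x100014) (nat_lit 0) (p (nat_lit 0x10000c) (nat_lit 0) (p (nat_lit 0x1fc014) (nat_lit 0) (p (nat_lit 0x1fc00c) (nat_lit 0) (p (nat_lit 0xb0004) (nat_lit 1) (p (nat_lit 0x380c2) (nat_lit 0) (p (nat_lit 0x3c4aa) (nat_lit 7) (p (nat_lit 0xd1) (nat_lit 1) (p (nat_lit 0x111) (nat_lit 1) (p (nat_lit 0x109) (nat_lit 0) (p (nat_lit 0x101) (nat_lit 0) (p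 (nat_lit 0x119) (nat_lit 0) (p (nat_lit 0xc1) (nat_lit 0) (p (nat_lit 0x81) (nat_lit 1) (p (nat_lit 0x41) (nat_lit 1) (p (nat_lit 0x10a898a08881a) (nat_lit 0) (p (nat_lit 0x8a090988079a) (nat_lit 0) (p (nat_lit 0x108088907871a) (nat_lit 0) (p (nat_lit 0x87880887069a) (nat_lit 0) (p (nat_lit 0x8000080000000088806860a) (nat_lit 0) (p (nat_lit 0x8000080000000068786058a) (nat_lit 0) (p (nat_lit 0x10687058502) (nat_lit 0) (p (nat_lit 0x8606850482) (nat_lit 0) (p (nat_lit 0x160004) (nat_lit 0) (p (nat_lit 0x68612) (nat_lit 0) (p (nat_lit 0x50592) (nat_lit 0) (p (nat_lit 0x40512) (nat_lit 0) (p (nat_lit 0x50312) (nat_lit 0) (p (nat_lit 0x38292) (nat_lit 0) (p (nat_lit 0x28212) (nat_lit 0) (p (nat_lit 0x38112) (nat_lit 0) (p (nat_lit 0x20092) (nat_lit 0) (p (nat_lit 0x10012) (nat_lit 0) pn)))))))))))))))))))))))))))))))))))))))))) :=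
  Cl.node (nat_lit 0x108004) (nat_lit 2) (by decide +kernel) (ClAll.succ (ClAll.succ ClAll.zero n15) n16)

def n22 : Cl (O (nat_lit 6)) (R (nat_lit 143633))
    (p (nat_lit 0x8f0e0e8d0c9a) (nat_lit 0) (p (nat_lit 0x10d0d8e0c8c1a) (nat_lit 0) (p (nat_lit 0x8c8d0d8c0b9a) (nat_lit 0) (p (nat_lit 0x24800a6803800000d8d0b8b0a) (nat_lit 0) (p (nat_lit 0x24800a6803800000b8c8b0a8a) (nat_lit 0) (p (nat_lit 0x20014) (nat_lit 0) (p (nat_lit 0x8000c) (nat_lit 0) (p (nat_lit 0x40014) (nat_lit 0) (p (nat_lit 0x80014) (nat_lit 0) (p (nat_lit 0x100014) (nat_lit 0) (p (nat_lit 0x10000c) (nat_lit 0) (p (nat_lit 0x1fc014) (nat_lit 0) (p (nat_lit 0x1fc00c) (nat_lit 0) (p (nat_lit 0xb0004) (nat_lit 1) (p (nat_lit 0x380c2) (nat_lit 1) (p (nat_lit 0x3c4aa) (nat_lit 7) (p (nat_lit 0xd1) (nat_lit 1) (p (nat_lit 0x111) (nat_lit 1) (p (nat_lit 0x109) (nat_lit 0) (p (nat_lit 0x101) (nat_lit 0) (p (nat_lit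 0x119) (nat_lit 0) (p (nat_lit 0xc1) (nat_lit 0) (p (nat_lit 0x81) (nat_lit 1) (p (nat_lit 0x41) (nat_lit 1) (p (nat_lit 0x10a898a08881a) (nat_lit 0) (p (nat_lit 0x8a090988079a) (nat_lit 0) (p (nat_lit 0x108088907871a) (nat_lit 0) (p (nat_lit 0x87880887069a) (nat_lit 0) (p (nat_lit 0x8000080000000088806860a) (nat_lit 0) (p (nat_lit 0x8000080000000068786058a) (nat_lit 0) (p (nat_lit 0x10687058502) (nat_lit 0) (p (nat_lit 0x8606850482) (nat_lit 0) (p (nat_lit 0x160004) (nat_lit 0) (p (nat_lit 0x68612) (nat_lit 0) (p (nat_lit 0x50592) (nat_lit 0) (p (nat_lit 0x40512) (nat_lit 0) (p (nat_lit 0x50312) (nat_lit 0) (p (nat_lit 0x38292) (nat_lit 0) (p (nat_lit 0x28212) (nat_lit 0) (p (nat_lit 0x38112) (nat_lit 0) (p (nat_lit 0x20092) (nat_lit 0) (p (nat_lit 0x10012) (nat_lit 0) pn)))))))))))))))))))))))))))))))))))))))))) :=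
  Cl.node (nat_lit 0x10f8e8f0d8d1a) (nat_lit 1) (by decide +kernel) (ClAll.succ ClAll.zero n17)

def n23 : Cl (O (nat_lit 6)) (R (nat_lit 143633))
    (p (nat_lit 0x108004) (nat_lit 0) (p (nat_lit 0xc1) (nat_lit 0) (p (nat_lit 0x10f8e8f0d8d1a) (nat_lit 0) (p (nat_lit 0x8f0e0e8d0c9a) (nat_lit 0) (p (nat_lit 0x10d0d8e0c8c1a) (nat_lit 0) (p (nat_lit 0x8c8d0d8c0b9a) (nat_lit 0) (p (nat_lit 0x228012680d000000d8d0b8b0a) (nat_lit 0) (p (nat_lit 0x228012680d000000b8c8b0a8a) (nat_lit 0) (p (nat_lit 0x40014) (nat_lit 0) (p (nat_lit 0x80014) (nat_lit 0) (p (nat_lit 0x100014) (nat_lit 0) (p (nat_lit 0x10000c) (nat_lit 0) (p (nat_lit 0x1fc014) (nat_lit 0) (p (nat_lit 0x1fc00c) (nat_lit 0) (p (nat_lit 0xb0004) (nat_lit 1) (p (nat_lit 0x380c2) (nat_lit 0) (p (nat_lit 0x3c4aa) (nat_lit 7) (p (nat_lit 0xd1) (nat_lit 1) (p (nat_lit 0xc9) (nat_lit 0) (p (nat_lit 0x101) (nat_lit 1) (p (nat_lit 0x119)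 (nat_lit 0) (p (nat_lit 0xc1) (nat_lit 0) (p (nat_lit 0x81) (nat_lit 1) (p (nat_lit 0x41) (nat_lit 1) (p (nat_lit 0x10a898a08881a) (nat_lit 0) (p (nat_lit 0x8a090988079a) (nat_lit 0) (p (nat_lit 0x108088907871a) (nat_lit 0) (p (nat_lit 0x87880887069a) (nat_lit 0) (p (nat_lit 0x8000080000000088806860a) (nat_lit 0) (p (nat_lit 0x8000080000000068786058a) (nat_lit 0) (p (nat_lit 0x10687058502) (nat_lit 0) (p (nat_lit 0x8606850482) (nat_lit 0) (p (nat_lit 0x160004) (nat_lit 0) (p (nat_lit 0x68612) (nat_lit 0) (p (nat_lit 0x50592) (nat_lit 0) (p (nat_lit 0x40512) (nat_lit 0) (p (nat_lit 0x50312) (nat_lit 0) (p (nat_lit 0x38292) (nat_lit 0) (p (nat_lit 0x28212) (nat_lit 0) (p (nat_lit 0x38112) (nat_lit 0) (p (nat_lit 0x20092) (nat_lit 0) (p (nat_lit 0x10012) (nat_lit 0) pn)))))))))))))))))))))))))))))))))))))))))) :=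
  Cl.node (nat_lit 0x8000c) (nat_lit 2) (by decide +kernel) (ClAll.succ (ClAll.succ ClAll.zero s1653) s1654)

def n24 : Cl (O (nat_lit 6)) (R (nat_lit 143633))
    (p (nat_lit 0x101) (nat_lit 1) (p (nat_lit 0xc1) (nat_lit 1) (p (nat_lit 0x10f8e8f0d8d1a) (nat_lit 0) (p (nat_lit 0x8f0e0e8d0c9a) (nat_lit 0) (p (nat_lit 0x10d0d8e0c8c1a) (nat_lit 0) (p (nat_lit 0x8c8d0d8c0b9a) (nat_lit 0) (p (nat_lit 0x2680d2680d000000d8d0b8b0a) (nat_lit 0) (p (nat_lit 0x2680d2680d000000b8c8b0a8a) (nat_lit 0) (p (nat_lit 0x100014) (nat_lit 0) (p (nat_lit 0x10000c) (nat_lit 0) (p (nat_lit 0x1fc014) (nat_lit 0) (p (nat_lit 0x1fc00c) (nat_lit 0) (p (nat_lit 0xb0004) (nat_lit 1) (p (nat_lit 0x380c2) (nat_lit 0) (p (nat_lit 0x4c42a) (nat_lit 2) (p (nat_lit 0x111) (nat_lit 0) (p (nat_lit 0xc9) (nat_lit 0) (p (nat_lit 0x81) (nat_lit 0) (p (nat_lit 0x101) (nat_lit 1) (p (nat_lit 0x119) (nat_lit 0) (p (nat_lit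 0xd1) (nat_lit 0) (p (nat_lit 0x89) (nat_lit 0) (p (nat_lit 0x41) (nat_lit 0) (p (nat_lit 0x10a898a08881a) (nat_lit 0) (p (nat_lit 0x8a090988079a) (nat_lit 0) (p (nat_lit 0x108088907871a) (nat_lit 0) (p (nat_lit 0x87880887069a) (nat_lit 0) (p (nat_lit 0x8000080000000088806860a) (nat_lit 0) (p (nat_lit 0x8000080000000068786058a) (nat_lit 0) (p (nat_lit 0x10687058502) (nat_lit 0) (p (nat_lit 0x8606850482) (nat_lit 0) (p (nat_lit 0x160004) (nat_lit 0) (p (nat_lit 0x68612) (nat_lit 0) (p (nat_lit 0x50592) (nat_lit 0) (p (nat_lit 0x40512) (nat_lit 0) (p (nat_lit 0x50312) (nat_lit 0) (p (nat_lit 0x38292) (nat_lit 0) (p (nat_lit 0x28212) (nat_lit 0) (p (nat_lit 0x38112) (nat_lit 0) (p (nat_lit 0x20092) (nat_lit 0) (p (nat_lit 0x10012) (nat_lit 0) pn))))))))))))))))))))))))))))))))))))))))) :=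
  Cl.node (nat_lit 0x3cc2a) (nat_lit 12) (by decide +kernel) (ClAll.succ (ClAll.succ (ClAll.succ (ClAll.succ (ClAll.succ (ClAll.succ (ClAll.succ (ClAll.succ (ClAll.succ (ClAll.succ (ClAll.succ (ClAll.succ ClAll.zero s56) s57) s58) s59) s60) s61) s62) s63) s64) s65) s66) s67)

def n25 : Cl (O (nat_lit 6)) (R (nat_lit 143633))
    (p (nat_lit 0x111) (nat_lit 1) (p (nat_lit 0xd1) (nat_lit 1) (p (nat_lit 0x10f8e8f0d8d1a) (nat_lit 0) (p (nat_lit 0x8f0e0e8d0c9a) (nat_lit 0) (p (nat_lit 0x10d0d8e0c8c1a) (nat_lit 0) (p (nat_lit 0x8c8d0d8c0b9a) (nat_lit 0) (p (nat_lit 0x2680d2680d000000d8d0b8b0a) (nat_lit 0) (p (nat_lit 0x2680d2680d000000b8c8b0a8a) (nat_lit 0) (p (nat_lit 0x100014) (nat_lit 0) (p (nat_lit 0x10000c) (nat_lit 0) (p (nat_lit 0x1fc014) (nat_lit 0) (p (nat_lit 0x1fc00c) (nat_lit 0) (p (nat_lit 0xb0004) (nat_lit 1) (p (nat_lit 0x380c2) (nat_lit 0) (p (nat_lit 0x4c42a) (nat_lit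 2) (p (nat_lit 0xc9) (nat_lit 0) (p (nat_lit 0xc1) (nat_lit 0) (p (nat_lit 0x81) (nat_lit 1) (p (nat_lit 0x101) (nat_lit 1) (p (nat_lit 0x119) (nat_lit 0) (p (nat_lit 0xd1) (nat_lit 0) (p (nat_lit 0x89) (nat_lit 0) (p (nat_lit 0x41) (nat_lit 0) (p (nat_lit 0x10a898a08881a) (nat_lit 0) (p (nat_lit 0x8a090988079a) (nat_lit 0) (p (nat_lit 0x108088907871a) (nat_lit 0) (p (nat_lit 0x87880887069a) (nat_lit 0) (p (nat_lit 0x8000080000000088806860a) (nat_lit 0) (p (nat_lit 0x8000080000000068786058a) (nat_lit 0) (p (nat_lit 0x10687058502) (nat_lit 0) (p (nat_lit 0x8606850482) (nat_lit 0) (p (nat_lit 0x160004) (nat_lit 0) (p (nat_lit 0x68612) (nat_lit 0) (p (nat_lit 0x50592) (nat_lit 0) (p (nat_lit 0x40512) (nat_lit 0) (p (nat_lit 0x50312) (nat_lit 0) (p (nat_lit 0x38292) (nat_lit 0) (p (nat_lit 0x28212) (nat_lit 0) (p (nat_lit 0x38112) (nat_lit 0) (p (nat_lit 0x20092) (nat_lit 0) (p (nat_lit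 0x10012) (nat_lit 0) pn))))))))))))))))))))))))))))))))))))))))) :=
  Cl.node (nat_lit 0x81) (nat_lit 2) (by decide +kernel) (ClAll.succ (ClAll.succ ClAll.zero n18) s191)

def n26 : Cl (O (nat_lit 6)) (R (nat_lit 143633))
    (p (nat_lit 0x10d0d8e0c8c1a) (nat_lit 0) (p (nat_lit 0x8c8d0d8c0b9a) (nat_lit 0) (p (nat_lit 0xa8000c802000000d8d0b8b0a) (nat_lit 0) (p (nat_lit 0xa8000c802000000b8c8b0a8a) (nat_lit 0) (p (nat_lit 0x58004) (nat_lit 1) (p (nat_lit 0x40014) (nat_lit 0) (p (nat_lit 0x109) (nat_lit 1) (p (nat_lit 0x80014) (nat_lit 0) (p (nat_lit 0xb0004) (nat_lit 0) (p (nat_lit 0x100014) (nat_lit 0) (p (nat_lit 0x10000c) (nat_lit 0) (p (nat_lit 0x380c2) (nat_lit 0) (p (nat_lit 0x4c42a) (nat_lit 2) (p (nat_lit 0x109) (nat_lit 0) (p (nat_lit 0x200014) (nat_lit 0) (p (nat_lit 0x20000c) (nat_lit 0) (p (nat_lit 0x119) (nat_lit 0) (p (nat_lit 0x81) (nat_lit 0) (p (nat_lit 0x101) (nat_lit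 1) (p (nat_lit 0x111) (nat_lit 0) (p (nat_lit 0xd1) (nat_lit 1) (p (nat_lit 0x89) (nat_lit 0) (p (nat_lit 0x41) (nat_lit 0) (p (nat_lit 0x10a898a08881a) (nat_lit 0) (p (nat_lit 0x8a090988079a) (nat_lit 0) (p (nat_lit 0x108088907871a) (nat_lit 0) (p (nat_lit 0x87880887069a) (nat_lit 0) (p (nat_lit 0x8000080000000088806860a) (nat_lit 0) (p (nat_lit 0x8000080000000068786058a) (nat_lit 0) (p (nat_lit 0x10687058502) (nat_lit 0) (p (nat_lit 0x8606850482) (nat_lit 0) (p (nat_lit 0x160004) (nat_lit 0) (p (nat_lit 0x68612) (nat_lit 0) (p (nat_lit 0x50592) (nat_lit 0) (p (nat_lit 0x40512) (nat_lit 0) (p (nat_lit 0x50312) (nat_lit 0) (p (nat_lit 0x38292) (nat_lit 0) (p (nat_lit 0x28212) (nat_lit 0) (p (nat_lit 0x38112) (nat_lit 0) (p (nat_lit 0x20092) (nat_lit 0) (p (nat_lit 0x10012) (nat_lit 0) pn))))))))))))))))))))))))))))))))))))))))) :=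
  Cl.node (nat_lit 0x8f0e0e8d0c9a) (nat_lit 1) (by decide +kernel) (ClAll.succ ClAll.zero n19)

def n27 : Cl (O (nat_lit 6)) (R (nat_lit 143633))
    (p (nat_lit 0xc9) (nat_lit 1) (p (nat_lit 0xc1) (nat_lit 0) (p (nat_lit 0x10f8e8f0d8d1a) (nat_lit 0) (p (nat_lit 0x8f0e0e8d0c9a) (nat_lit 0) (p (nat_lit 0x10d0d8e0c8c1a) (nat_lit 0) (p (nat_lit 0x8c8d0d8c0b9a) (nat_lit 0) (p (nat_lit 0x2680d2680d000000d8d0b8b0a) (nat_lit 0) (p (nat_lit 0x2680d2680d000000b8c8b0a8a) (nat_lit 0) (p (nat_lit 0xb0004) (nat_lit 1) (p (nat_lit 0x100014) (nat_lit 0) (p (nat_lit 0x200014) (nat_lit 0) (p (nat_lit 0x10000c) (nat_lit 0) (p (nat_lit 0x20000c) (nat_lit 0) (p (nat_lit 0x380c2) (nat_lit 0) (p (nat_lit 0x444aa) (nat_lit 7) (p (nat_lit 0xd1) (nat_lit 1) (p (nat_lit 0x111) (nat_lit 1) (p (nat_lit 0x109) (nat_lit 0) (p (nat_lit 0x101) (nat_lit 0) (p (nat_lit 0x119) (nat_lit 0) (p (nat_lit 0xc9) (nat_lit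 0) (p (nat_lit 0x89) (nat_lit 1) (p (nat_lit 0x41) (nat_lit 0) (p (nat_lit 0x10a898a08881a) (nat_lit 0) (p (nat_lit 0x8a090988079a) (nat_lit 0) (p (nat_lit 0x108088907871a) (nat_lit 0) (p (nat_lit 0x87880887069a) (nat_lit 0) (p (nat_lit 0x8000080000000088806860a) (nat_lit 0) (p (nat_lit 0x8000080000000068786058a) (nat_lit 0) (p (nat_lit 0x10687058502) (nat_lit 0) (p (nat_lit 0x8606850482) (nat_lit 0) (p (nat_lit 0x160004) (nat_lit 0) (p (nat_lit 0x68612) (nat_lit 0) (p (nat_lit 0x50592) (nat_lit 0) (p (nat_lit 0x40512) (nat_lit 0) (p (nat_lit 0x50312) (nat_lit 0) (p (nat_lit 0x38292) (nat_lit 0) (p (nat_lit 0x28212) (nat_lit 0) (p (nat_lit 0x38112) (nat_lit 0) (p (nat_lit 0x20092) (nat_lit 0) (p (nat_lit 0x10012) (nat_lit 0) pn))))))))))))))))))))))))))))))))))))))))) :=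
  Cl.node (nat_lit 0x119) (nat_lit 2) (by decide +kernel) (ClAll.succ (ClAll.succ ClAll.zero n20) s655)

def n28 : Cl (O (nat_lit 6)) (R (nat_lit 143633))
    (p (nat_lit 0x44c2a) (nat_lit 0) (p (nat_lit 0x111) (nat_lit 0) (p (nat_lit 0xc1) (nat_lit 0) (p (nat_lit 0x10f8e8f0d8d1a) (nat_lit 0) (p (nat_lit 0x8f0e0e8d0c9a) (nat_lit 0) (p (nat_lit 0x10d0d8e0c8c1a) (nat_lit 0) (p (nat_lit 0x8c8d0d8c0b9a) (nat_lit 0) (p (nat_lit 0x2680d2680d000000d8d0b8b0a) (nat_lit 0) (p (nat_lit 0x2680d2680d000000b8c8b0a8a) (nat_lit 0) (p (nat_lit 0x10000c) (nat_lit 0) (p (nat_lit 0x100014) (nat_lit 0) (p (nat_lit 0x1fc014) (nat_lit 0) (p (nat_lit 0x1fc00c) (nat_lit 0) (p (nat_lit 0xb0004) (nat_lit 1) (p (nat_lit 0x380c2) (nat_lit 0) (p (nat_lit 0x444aa) (nat_lit 7) (p (nat_lit 0xd1) (nat_lit 1) (p (nat_lit 0x109) (nat_lit 1) (p (nat_lit 0x101) (nat_lit 0) (p (nat_lit 0x119) (nat_lit 0) (p (nat_lit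 0xc9) (nat_lit 0) (p (nat_lit 0x89) (nat_lit 1) (p (nat_lit 0x41) (nat_lit 0) (p (nat_lit 0x10a898a08881a) (nat_lit 0) (p (nat_lit 0x8a090988079a) (nat_lit 0) (p (nat_lit 0x108088907871a) (nat_lit 0) (p (nat_lit 0x87880887069a) (nat_lit 0) (p (nat_lit 0x8000080000000088806860a) (nat_lit 0) (p (nat_lit 0x8000080000000068786058a) (nat_lit 0) (p (nat_lit 0x10687058502) (nat_lit 0) (p (nat_lit 0x8606850482) (nat_lit 0) (p (nat_lit 0x160004) (nat_lit 0) (p (nat_lit 0x68612) (nat_lit 0) (p (nat_lit 0x50592) (nat_lit 0) (p (nat_lit 0x40512) (nat_lit 0) (p (nat_lit 0x50312) (nat_lit 0) (p (nat_lit 0x38292) (nat_lit 0) (p (nat_lit 0x28212) (nat_lit 0) (p (nat_lit 0x38112) (nat_lit 0) (p (nat_lit 0x20092) (nat_lit 0) (p (nat_lit 0x10012) (nat_lit 0) pn))))))))))))))))))))))))))))))))))))))))) :=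
  Cl.node (nat_lit 0x380c2) (nat_lit 2) (by decide +kernel) (ClAll.succ (ClAll.succ ClAll.zero s745) s746)

def n29 : Cl (O (nat_lit 6)) (R (nat_lit 143633))
    (p (nat_lit 0x10f8e8f0d8d1a) (nat_lit 0) (p (nat_lit 0x8f0e0e8d0c9a) (nat_lit 0) (p (nat_lit 0x10d0d8e0c8c1a) (nat_lit 0) (p (nat_lit 0x8c8d0d8c0b9a) (nat_lit 0) (p (nat_lit 0x228012680d000000d8d0b8b0a) (nat_lit 0) (p (nat_lit 0x228012680d000000b8c8b0a8a) (nat_lit 0) (p (nat_lit 0x40014) (nat_lit 0) (p (nat_lit 0x80014) (nat_lit 0) (p (nat_lit 0x100014) (nat_lit 0) (p (nat_lit 0x10000c) (nat_lit 0) (p (nat_lit 0x1fc014) (nat_lit 0) (p (nat_lit 0x1fc00c) (nat_lit 0) (p (nat_lit 0xb0004) (nat_lit 1) (p (nat_lit 0x380c2) (nat_lit 0) (p (nat_lit 0x3c4aa) (nat_lit 7) (p (nat_lit 0xd1) (nat_lit 1) (p (nat_lit 0x111) (nat_lit 1) (p (nat_lit 0x109) (nat_lit 0) (p (nat_lit 0x101) (nat_lit 0) (p (nat_lit 0x119) (nat_lit 0) (p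 (nat_lit 0xc1) (nat_lit 0) (p (nat_lit 0x81) (nat_lit 1) (p (nat_lit 0x41) (nat_lit 1) (p (nat_lit 0x10a898a08881a) (nat_lit 0) (p (nat_lit 0x8a090988079a) (nat_lit 0) (p (nat_lit 0x108088907871a) (nat_lit 0) (p (nat_lit 0x87880887069a) (nat_lit 0) (p (nat_lit 0x8000080000000088806860a) (nat_lit 0) (p (nat_lit 0x8000080000000068786058a) (nat_lit 0) (p (nat_lit 0x10687058502) (nat_lit 0) (p (nat_lit 0x8606850482) (nat_lit 0) (p (nat_lit 0x160004) (nat_lit 0) (p (nat_lit 0x68612) (nat_lit 0) (p (nat_lit 0x50592) (nat_lit 0) (p (nat_lit 0x40512) (nat_lit 0) (p (nat_lit 0x50312) (nat_lit 0) (p (nat_lit 0x38292) (nat_lit 0) (p (nat_lit 0x28212) (nat_lit 0) (p (nat_lit 0x38112) (nat_lit 0) (p (nat_lit 0x20092) (nat_lit 0) (p (nat_lit 0x10012) (nat_lit 0) pn))))))))))))))))))))))))))))))))))))))))) :=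
  Cl.node (nat_lit 0xc9) (nat_lit 2) (by decide +kernel) (ClAll.succ (ClAll.succ ClAll.zero n21) s1529)

def n30 : Cl (O (nat_lit 6)) (R (nat_lit 143633))
    (p (nat_lit 0x10d0d8e0c8c1a) (nat_lit 0) (p (nat_lit 0x8c8d0d8c0b9a) (nat_lit 0) (p (nat_lit 0x24800a6803800000d8d0b8b0a) (nat_lit 0) (p (nat_lit 0x24800a6803800000b8c8b0a8a) (nat_lit 0) (p (nat_lit 0x20014) (nat_lit 0) (p (nat_lit 0x8000c) (nat_lit 0) (p (nat_lit 0x40014) (nat_lit 0) (p (nat_lit 0x80014) (nat_lit 0) (p (nat_lit 0x100014) (nat_lit 0) (p (nat_lit 0x10000c) (nat_lit 0) (p (nat_lit 0x1fc014) (nat_lit 0) (p (nat_lit 0x1fc00c) (nat_lit 0) (p (nat_lit 0xb0004) (nat_lit 1) (p (nat_lit 0x380c2) (nat_lit 1) (p (nat_lit 0x3c4aa) (nat_lit 7) (p (nat_lit 0xd1) (nat_lit 1) (p (nat_lit 0x111) (nat_lit 1) (p (nat_lit 0x109) (nat_lit 0) (p (nat_lit 0x101) (nat_lit 0) (p (nat_lit 0x119) (nat_lit 0) (p (nat_lit 0xc1) (nat_lit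 0) (p (nat_lit 0x81) (nat_lit 1) (p (nat_lit 0x41) (nat_lit 1) (p (nat_lit 0x10a898a08881a) (nat_lit 0) (p (nat_lit 0x8a090988079a) (nat_lit 0) (p (nat_lit 0x108088907871a) (nat_lit 0) (p (nat_lit 0x87880887069a) (nat_lit 0) (p (nat_lit 0x8000080000000088806860a) (nat_lit 0) (p (nat_lit 0x8000080000000068786058a) (nat_lit 0) (p (nat_lit 0x10687058502) (nat_lit 0) (p (nat_lit 0x8606850482) (nat_lit 0) (p (nat_lit 0x160004) (nat_lit 0) (p (nat_lit 0x68612) (nat_lit 0) (p (nat_lit 0x50592) (nat_lit 0) (p (nat_lit 0x40512) (nat_lit 0) (p (nat_lit 0x50312) (nat_lit 0) (p (nat_lit 0x38292) (nat_lit 0) (p (nat_lit 0x28212) (nat_lit 0) (p (nat_lit 0x38112) (nat_lit 0) (p (nat_lit 0x20092) (nat_lit 0) (p (nat_lit 0x10012) (nat_lit 0) pn))))))))))))))))))))))))))))))))))))))))) :=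
  Cl.node (nat_lit 0x8f0e0e8d0c9a) (nat_lit 1) (by decide +kernel) (ClAll.succ ClAll.zero n22)

def n31 : Cl (O (nat_lit 6)) (R (nat_lit 143633))
    (p (nat_lit 0xc1) (nat_lit 0) (p (nat_lit 0x10f8e8f0d8d1a) (nat_lit 0) (p (nat_lit 0x8f0e0e8d0c9a) (nat_lit 0) (p (nat_lit 0x10d0d8e0c8c1a) (nat_lit 0) (p (nat_lit 0x8c8d0d8c0b9a) (nat_lit 0) (p (nat_lit 0x228012680d000000d8d0b8b0a) (nat_lit 0) (p (nat_lit 0x228012680d000000b8c8b0a8a) (nat_lit 0) (p (nat_lit 0x40014) (nat_lit 0) (p (nat_lit 0x80014) (nat_lit 0) (p (nat_lit 0x100014) (nat_lit 0) (p (nat_lit 0x10000c) (nat_lit 0) (p (nat_lit 0x1fc014) (nat_lit 0) (p (nat_lit 0x1fc00c) (nat_lit 0) (p (nat_lit 0xb0004) (nat_lit 1) (p (nat_lit 0x380c2) (nat_lit 0) (p (nat_lit 0x3c4aa) (nat_lit 7) (p (nat_lit 0xd1) (nat_lit 1) (p (nat_lit 0xc9) (nat_lit 0) (p (nat_lit 0x101) (nat_lit 1) (p (nat_lit 0x119) (nat_lit 0) (p (nat_lit 0xc1)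 (nat_lit 0) (p (nat_lit 0x81) (nat_lit 1) (p (nat_lit 0x41) (nat_lit 1) (p (nat_lit 0x10a898a08881a) (nat_lit 0) (p (nat_lit 0x8a090988079a) (nat_lit 0) (p (nat_lit 0x108088907871a) (nat_lit 0) (p (nat_lit 0x87880887069a) (nat_lit 0) (p (nat_lit 0x8000080000000088806860a) (nat_lit 0) (p (nat_lit 0x8000080000000068786058a) (nat_lit 0) (p (nat_lit 0x10687058502) (nat_lit 0) (p (nat_lit 0x8606850482) (nat_lit 0) (p (nat_lit 0x160004) (nat_lit 0) (p (nat_lit 0x68612) (nat_lit 0) (p (nat_lit 0x50592) (nat_lit 0) (p (nat_lit 0x40512) (nat_lit 0) (p (nat_lit 0x50312) (nat_lit 0) (p (nat_lit 0x38292) (nat_lit 0) (p (nat_lit 0x28212) (nat_lit 0) (p (nat_lit 0x38112) (nat_lit 0) (p (nat_lit 0x20092) (nat_lit 0) (p (nat_lit 0x10012) (nat_lit 0) pn))))))))))))))))))))))))))))))))))))))))) :=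
  Cl.node (nat_lit 0x108004) (nat_lit 2) (by decide +kernel) (ClAll.succ (ClAll.succ ClAll.zero n23) s1655)

def n32 : Cl (O (nat_lit 6)) (R (nat_lit 143633))
    (p (nat_lit 0x81) (nat_lit 1) (p (nat_lit 0x10f8e8f0d8d1a) (nat_lit 0) (p (nat_lit 0x8f0e0e8d0c9a) (nat_lit 0) (p (nat_lit 0x10d0d8e0c8c1a) (nat_lit 0) (p (nat_lit 0x8c8d0d8c0b9a) (nat_lit 0) (p (nat_lit 0x2680d2680d000000d8d0b8b0a) (nat_lit 0) (p (nat_lit 0x2680d2680d000000b8c8b0a8a) (nat_lit 0) (p (nat_lit 0x10000c) (nat_lit 0) (p (nat_lit 0x100014) (nat_lit 0) (p (nat_lit 0x1fc014) (nat_lit 0) (p (nat_lit 0x1fc00c) (nat_lit 0) (p (nat_lit 0xb0004) (nat_lit 1) (p (nat_lit 0x380c2) (nat_lit 1) (p (nat_lit 0x444aa) (nat_lit 7) (p (nat_lit 0x81) (nat_lit 1) (p (nat_lit 0xc9) (nat_lit 1) (p (nat_lit 0x109) (nat_lit 1) (p (nat_lit 0x101) (nat_lit 0) (p (nat_lit 0x119) (nat_lit 0) (p (nat_lit 0xd1) (nat_lit 0) (p (nat_lit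 0x89) (nat_lit 0) (p (nat_lit 0x41) (nat_lit 0) (p (nat_lit 0x10a898a08881a) (nat_lit 0) (p (nat_lit 0x8a090988079a) (nat_lit 0) (p (nat_lit 0x108088907871a) (nat_lit 0) (p (nat_lit 0x87880887069a) (nat_lit 0) (p (nat_lit 0x8000080000000088806860a) (nat_lit 0) (p (nat_lit 0x8000080000000068786058a) (nat_lit 0) (p (nat_lit 0x10687058502) (nat_lit 0) (p (nat_lit 0x8606850482) (nat_lit 0) (p (nat_lit 0x160004) (nat_lit 0) (p (nat_lit 0x68612) (nat_lit 0) (p (nat_lit 0x50592) (nat_lit 0) (p (nat_lit 0x40512) (nat_lit 0) (p (nat_lit 0x50312) (nat_lit 0) (p (nat_lit 0x38292) (nat_lit 0) (p (nat_lit 0x28212) (nat_lit 0) (p (nat_lit 0x38112) (nat_lit 0) (p (nat_lit 0x20092) (nat_lit 0) (p (nat_lit 0x10012) (nat_lit 0) pn)))))))))))))))))))))))))))))))))))))))) :=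
  Cl.node (nat_lit 0xc9) (nat_lit 2) (by decide +kernel) (ClAll.succ (ClAll.succ ClAll.zero s23) s24)

def n33 : Cl (O (nat_lit 6)) (R (nat_lit 143633))
    (p (nat_lit 0xc1) (nat_lit 1) (p (nat_lit 0x10f8e8f0d8d1a) (nat_lit 0) (p (nat_lit 0x8f0e0e8d0c9a) (nat_lit 0) (p (nat_lit 0x10d0d8e0c8c1a) (nat_lit 0) (p (nat_lit 0x8c8d0d8c0b9a) (nat_lit 0) (p (nat_lit 0x2680d2680d000000d8d0b8b0a) (nat_lit 0) (p (nat_lit 0x2680d2680d000000b8c8b0a8a) (nat_lit 0) (p (nat_lit 0x100014) (nat_lit 0) (p (nat_lit 0x10000c) (nat_lit 0) (p (nat_lit 0x1fc014) (nat_lit 0) (p (nat_lit 0x1fc00c) (nat_lit 0) (p (nat_lit 0xb0004) (nat_lit 1) (p (nat_lit 0x380c2) (nat_lit 0) (p (nat_lit 0x4c42a) (nat_lit 2) (p (nat_lit 0x111) (nat_lit 0) (p (nat_lit 0xc9) (nat_lit 0) (p (nat_lit 0x81) (nat_lit 0) (p (nat_lit 0x101) (nat_lit 1) (p (nat_lit 0x119) (nat_lit 0) (p (nat_lit 0xd1) (nat_lit 0) (p (nat_lit 0x89)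 (nat_lit 0) (p (nat_lit 0x41) (nat_lit 0) (p (nat_lit 0x10a898a08881a) (nat_lit 0) (p (nat_lit 0x8a090988079a) (nat_lit 0) (p (nat_lit 0x108088907871a) (nat_lit 0) (p (nat_lit 0x87880887069a) (nat_lit 0) (p (nat_lit 0x8000080000000088806860a) (nat_lit 0) (p (nat_lit 0x8000080000000068786058a) (nat_lit 0) (p (nat_lit 0x10687058502) (nat_lit 0) (p (nat_lit 0x8606850482) (nat_lit 0) (p (nat_lit 0x160004) (nat_lit 0) (p (nat_lit 0x68612) (nat_lit 0) (p (nat_lit 0x50592) (nat_lit 0) (p (nat_lit 0x40512) (nat_lit 0) (p (nat_lit 0x50312) (nat_lit 0) (p (nat_lit 0x38292) (nat_lit 0) (p (nat_lit 0x28212) (nat_lit 0) (p (nat_lit 0x38112) (nat_lit 0) (p (nat_lit 0x20092) (nat_lit 0) (p (nat_lit 0x10012) (nat_lit 0) pn)))))))))))))))))))))))))))))))))))))))) :=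
  Cl.node (nat_lit 0x101) (nat_lit 2) (by decide +kernel) (ClAll.succ (ClAll.succ ClAll.zero s55) n24)

def n34 : Cl (O (nat_lit 6)) (R (nat_lit 143633))
    (p (nat_lit 0xd1) (nat_lit 1) (p (nat_lit 0x10f8e8f0d8d1a) (nat_lit 0) (p (nat_lit 0x8f0e0e8d0c9a) (nat_lit 0) (p (nat_lit 0x10d0d8e0c8c1a) (nat_lit 0) (p (nat_lit 0x8c8d0d8c0b9a) (nat_lit 0) (p (nat_lit 0x2680d2680d000000d8d0b8b0a) (nat_lit 0) (p (nat_lit 0x2680d2680d000000b8c8b0a8a) (nat_lit 0) (p (nat_lit 0x100014) (nat_lit 0) (p (nat_lit 0x10000c) (nat_lit 0) (p (nat_lit 0x1fc014) (nat_lit 0) (p (nat_lit 0x1fc00c) (nat_lit 0) (p (nat_lit 0xb0004) (nat_lit 1) (p (nat_lit 0x380c2) (nat_lit 0) (p (nat_lit 0x4c42a) (nat_lit 2) (p (nat_lit 0xc9) (nat_lit 0) (p (nat_lit 0xc1) (nat_lit 0) (p (nat_lit 0x81) (nat_lit 1) (p (nat_lit 0x101) (nat_lit 1) (p (nat_lit 0x119) (nat_lit 0) (p (nat_lit 0xd1) (nat_lit 0) (p (nat_lit 0x89)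 (nat_lit 0) (p (nat_lit 0x41) (nat_lit 0) (p (nat_lit 0x10a898a08881a) (nat_lit 0) (p (nat_lit 0x8a090988079a) (nat_lit 0) (p (nat_lit 0x108088907871a) (nat_lit 0) (p (nat_lit 0x87880887069a) (nat_lit 0) (p (nat_lit 0x8000080000000088806860a) (nat_lit 0) (p (nat_lit 0x8000080000000068786058a) (nat_lit 0) (p (nat_lit 0x10687058502) (nat_lit 0) (p (nat_lit 0x8606850482) (nat_lit 0) (p (nat_lit 0x160004) (nat_lit 0) (p (nat_lit 0x68612) (nat_lit 0) (p (nat_lit 0x50592) (nat_lit 0) (p (nat_lit 0x40512) (nat_lit 0) (p (nat_lit 0x50312) (nat_lit 0) (p (nat_lit 0x38292) (nat_lit 0) (p (nat_lit 0x28212) (nat_lit 0) (p (nat_lit 0x38112) (nat_lit 0) (p (nat_lit 0x20092) (nat_lit 0) (p (nat_lit 0x10012) (nat_lit 0) pn)))))))))))))))))))))))))))))))))))))))) :=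
  Cl.node (nat_lit 0x111) (nat_lit 2) (by decide +kernel) (ClAll.succ (ClAll.succ ClAll.zero s178) n25)

def n35 : Cl (O (nat_lit 6)) (R (nat_lit 143633))
    (p (nat_lit 0x8c8d0d8c0b9a) (nat_lit 0) (p (nat_lit 0xa8000c802000000d8d0b8b0a) (nat_lit 0) (p (nat_lit 0xa8000c802000000b8c8b0a8a) (nat_lit 0) (p (nat_lit 0x58004) (nat_lit 1) (p (nat_lit 0x40014) (nat_lit 0) (p (nat_lit 0x109) (nat_lit 1) (p (nat_lit 0x80014) (nat_lit 0) (p (nat_lit 0xb0004) (nat_lit 0) (p (nat_lit 0x100014) (nat_lit 0) (p (nat_lit 0x10000c) (nat_lit 0) (p (nat_lit 0x380c2) (nat_lit 0) (p (nat_lit 0x4c42a) (nat_lit 2) (p (nat_lit 0x109) (nat_lit 0) (p (nat_lit 0x200014) (nat_lit 0) (p (nat_lit 0x20000c) (nat_lit 0) (p (nat_lit 0x119) (nat_lit 0) (p (nat_lit 0x81) (nat_lit 0) (p (nat_lit 0x101) (nat_lit 1) (p (nat_lit 0x111) (nat_lit 0) (p (nat_lit 0xd1) (nat_lit 1) (p (nat_lit 0x89) (nat_lit 0) (p (nat_lit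 0x41) (nat_lit 0) (p (nat_lit 0x10a898a08881a) (nat_lit 0) (p (nat_lit 0x8a090988079a) (nat_lit 0) (p (nat_lit 0x108088907871a) (nat_lit 0) (p (nat_lit 0x87880887069a) (nat_lit 0) (p (nat_lit 0x8000080000000088806860a) (nat_lit 0) (p (nat_lit 0x8000080000000068786058a) (nat_lit 0) (p (nat_lit 0x10687058502) (nat_lit 0) (p (nat_lit 0x8606850482) (nat_lit 0) (p (nat_lit 0x160004) (nat_lit 0) (p (nat_lit 0x68612) (nat_lit 0) (p (nat_lit 0x50592) (nat_lit 0) (p (nat_lit 0x40512) (nat_lit 0) (p (nat_lit 0x50312) (nat_lit 0) (p (nat_lit 0x38292) (nat_lit 0) (p (nat_lit 0x28212) (nat_lit 0) (p (nat_lit 0x38112) (nat_lit 0) (p (nat_lit 0x20092) (nat_lit 0) (p (nat_lit 0x10012) (nat_lit 0) pn)))))))))))))))))))))))))))))))))))))))) :=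
  Cl.node (nat_lit 0x10d0d8e0c8c1a) (nat_lit 1) (by decide +kernel) (ClAll.succ ClAll.zero n26)

def n36 : Cl (O (nat_lit 6)) (R (nat_lit 143633))
    (p (nat_lit 0xc1) (nat_lit 0) (p (nat_lit 0x10f8e8f0d8d1a) (nat_lit 0) (p (nat_lit 0x8f0e0e8d0c9a) (nat_lit 0) (p (nat_lit 0x10d0d8e0c8c1a) (nat_lit 0) (p (nat_lit 0x8c8d0d8c0b9a) (nat_lit 0) (p (nat_lit 0x2680d2680d000000d8d0b8b0a) (nat_lit 0) (p (nat_lit 0x2680d2680d000000b8c8b0a8a) (nat_lit 0) (p (nat_lit 0xb0004) (nat_lit 1) (p (nat_lit 0x100014) (nat_lit 0) (p (nat_lit 0x200014) (nat_lit 0) (p (nat_lit 0x10000c) (nat_lit 0) (p (nat_lit 0x20000c) (nat_lit 0) (p (nat_lit 0x380c2) (nat_lit 0) (p (nat_lit 0x444aa) (nat_lit 7) (p (nat_lit 0xd1) (nat_lit 1) (p (nat_lit 0x111) (nat_lit 1) (p (nat_lit 0x109) (nat_lit 0) (p (nat_lit 0x101) (nat_lit 0) (p (nat_lit 0x119) (nat_lit 0) (p (nat_lit 0xc9) (nat_lit 0) (p (nat_lit 0x89) (nat_lit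 1) (p (nat_lit 0x41) (nat_lit 0) (p (nat_lit 0x10a898a08881a) (nat_lit 0) (p (nat_lit 0x8a090988079a) (nat_lit 0) (p (nat_lit 0x108088907871a) (nat_lit 0) (p (nat_lit 0x87880887069a) (nat_lit 0) (p (nat_lit 0x8000080000000088806860a) (nat_lit 0) (p (nat_lit 0x8000080000000068786058a) (nat_lit 0) (p (nat_lit 0x10687058502) (nat_lit 0) (p (nat_lit 0x8606850482) (nat_lit 0) (p (nat_lit 0x160004) (nat_lit 0) (p (nat_lit 0x68612) (nat_lit 0) (p (nat_lit 0x50592) (nat_lit 0) (p (nat_lit 0x40512) (nat_lit 0) (p (nat_lit 0x50312) (nat_lit 0) (p (nat_lit 0x38292) (nat_lit 0) (p (nat_lit 0x28212) (nat_lit 0) (p (nat_lit 0x38112) (nat_lit 0) (p (nat_lit 0x20092) (nat_lit 0) (p (nat_lit 0x10012) (nat_lit 0) pn)))))))))))))))))))))))))))))))))))))))) :=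
  Cl.node (nat_lit 0xc9) (nat_lit 2) (by decide +kernel) (ClAll.succ (ClAll.succ ClAll.zero s649) n27)

def n37 : Cl (O (nat_lit 6)) (R (nat_lit 143633))
    (p (nat_lit 0x111) (nat_lit 0) (p (nat_lit 0xc1) (nat_lit 0) (p (nat_lit 0x10f8e8f0d8d1a) (nat_lit 0) (p (nat_lit 0x8f0e0e8d0c9a) (nat_lit 0) (p (nat_lit 0x10d0d8e0c8c1a) (nat_lit 0) (p (nat_lit 0x8c8d0d8c0b9a) (nat_lit 0) (p (nat_lit 0x2680d2680d000000d8d0b8b0a) (nat_lit 0) (p (nat_lit 0x2680d2680d000000b8c8b0a8a) (nat_lit 0) (p (nat_lit 0x10000c) (nat_lit 0) (p (nat_lit 0x100014) (nat_lit 0) (p (nat_lit 0x1fc014) (nat_lit 0) (p (nat_lit 0x1fc00c) (nat_lit 0) (p (nat_lit 0xb0004) (nat_lit 1) (p (nat_lit 0x380c2) (nat_lit 0) (p (nat_lit 0x444aa) (nat_lit 7) (p (nat_lit 0xd1) (nat_lit 1) (p (nat_lit 0x109) (nat_lit 1) (p (nat_lit 0x101) (nat_lit 0) (p (nat_lit 0x119) (nat_lit 0) (p (nat_lit 0xc9) (nat_lit 0) (p (nat_lit 0x89)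 (nat_lit 1) (p (nat_lit 0x41) (nat_lit 0) (p (nat_lit 0x10a898a08881a) (nat_lit 0) (p (nat_lit 0x8a090988079a) (nat_lit 0) (p (nat_lit 0x108088907871a) (nat_lit 0) (p (nat_lit 0x87880887069a) (nat_lit 0) (p (nat_lit 0x8000080000000088806860a) (nat_lit 0) (p (nat_lit 0x8000080000000068786058a) (nat_lit 0) (p (nat_lit 0x10687058502) (nat_lit 0) (p (nat_lit 0x8606850482) (nat_lit 0) (p (nat_lit 0x160004) (nat_lit 0) (p (nat_lit 0x68612) (nat_lit 0) (p (nat_lit 0x50592) (nat_lit 0) (p (nat_lit 0x40512) (nat_lit 0) (p (nat_lit 0x50312) (nat_lit 0) (p (nat_lit 0x38292) (nat_lit 0) (p (nat_lit 0x28212) (nat_lit 0) (p (nat_lit 0x38112) (nat_lit 0) (p (nat_lit 0x20092) (nat_lit 0) (p (nat_lit 0x10012) (nat_lit 0) pn)))))))))))))))))))))))))))))))))))))))) :=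
  Cl.node (nat_lit 0x44c2a) (nat_lit 12) (by decide +kernel) (ClAll.succ (ClAll.succ (ClAll.succ (ClAll.succ (ClAll.succ (ClAll.succ (ClAll.succ (ClAll.succ (ClAll.succ (ClAll.succ (ClAll.succ (ClAll.succ ClAll.zero n28) s747) s748) s749) s750) s751) s752) s753) s754) s755) s756) s757)

def n38 : Cl (O (nat_lit 6)) (R (nat_lit 143633))
    (p (nat_lit 0x10f8e8f0d8d1a) (nat_lit 0) (p (nat_lit 0x8f0e0e8d0c9a) (nat_lit 0) (p (nat_lit 0x10d0d8e0c8c1a) (nat_lit 0) (p (nat_lit 0x8c8d0d8c0b9a) (nat_lit 0) (p (nat_lit 0x2680d2a825800000d8d0b8b0a) (nat_lit 0) (p (nat_lit 0x2680d2a825800000b8c8b0a8a) (nat_lit 0) (p (nat_lit 0x100014) (nat_lit 0) (p (nat_lit 0x108004) (nat_lit 0) (p (nat_lit 0xb0004) (nat_lit 1) (p (nat_lit 0x41) (nat_lit 1) (p (nat_lit 0x380c2) (nat_lit 0) (p (nat_lit 0x44c2a) (nat_lit 0) (p (nat_lit 0x109) (nat_lit 1) (p (nat_lit 0x200014) (nat_lit 0) (p (nat_lit 0x20000c)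 (nat_lit 0) (p (nat_lit 0xd1) (nat_lit 0) (p (nat_lit 0xc1) (nat_lit 0) (p (nat_lit 0x101) (nat_lit 1) (p (nat_lit 0x119) (nat_lit 0) (p (nat_lit 0xc9) (nat_lit 0) (p (nat_lit 0x89) (nat_lit 1) (p (nat_lit 0x41) (nat_lit 0) (p (nat_lit 0x10a898a08881a) (nat_lit 0) (p (nat_lit 0x8a090988079a) (nat_lit 0) (p (nat_lit 0x108088907871a) (nat_lit 0) (p (nat_lit 0x87880887069a) (nat_lit 0) (p (nat_lit 0x8000080000000088806860a) (nat_lit 0) (p (nat_lit 0x8000080000000068786058a) (nat_lit 0) (p (nat_lit 0x10687058502) (nat_lit 0) (p (nat_lit 0x8606850482) (nat_lit 0) (p (nat_lit 0x160004) (nat_lit 0) (p (nat_lit 0x68612) (nat_lit 0) (p (nat_lit 0x50592) (nat_lit 0) (p (nat_lit 0x40512) (nat_lit 0) (p (nat_lit 0x50312) (nat_lit 0) (p (nat_lit 0x38292) (nat_lit 0) (p (nat_lit 0x28212) (nat_lit 0) (p (nat_lit 0x38112) (nat_lit 0) (p (nat_lit 0x20092) (nat_lit 0) (p (nat_lit 0x10012) (nat_lit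 0) pn)))))))))))))))))))))))))))))))))))))))) :=
  Cl.node (nat_lit 0xd1) (nat_lit 2) (by decide +kernel) (ClAll.succ (ClAll.succ ClAll.zero s835) s836)

def n39 : Cl (O (nat_lit 6)) (R (nat_lit 143633))
    (p (nat_lit 0x8f0e0e8d0c9a) (nat_lit 0) (p (nat_lit 0x10d0d8e0c8c1a) (nat_lit 0) (p (nat_lit 0x8c8d0d8c0b9a) (nat_lit 0) (p (nat_lit 0x228012680d000000d8d0b8b0a) (nat_lit 0) (p (nat_lit 0x228012680d000000b8c8b0a8a) (nat_lit 0) (p (nat_lit 0x40014) (nat_lit 0) (p (nat_lit 0x80014) (nat_lit 0) (p (nat_lit 0x100014) (nat_lit 0) (p (nat_lit 0x10000c) (nat_lit 0) (p (nat_lit 0x1fc014) (nat_lit 0) (p (nat_lit 0x1fc00c) (nat_lit 0) (p (nat_lit 0xb0004) (nat_lit 1) (p (nat_lit 0x380c2) (nat_lit 0) (p (nat_lit 0x3c4aa) (nat_lit 7) (p (nat_lit 0xd1) (nat_lit 1) (p (nat_lit 0x111) (nat_lit 1) (p (nat_lit 0x109) (nat_lit 0) (p (nat_lit 0x101) (nat_lit 0) (p (nat_lit 0x119) (nat_lit 0)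 (p (nat_lit 0xc1) (nat_lit 0) (p (nat_lit 0x81) (nat_lit 1) (p (nat_lit 0x41) (nat_lit 1) (p (nat_lit 0x10a898a08881a) (nat_lit 0) (p (nat_lit 0x8a090988079a) (nat_lit 0) (p (nat_lit 0x108088907871a) (nat_lit 0) (p (nat_lit 0x87880887069a) (nat_lit 0) (p (nat_lit 0x8000080000000088806860a) (nat_lit 0) (p (nat_lit 0x8000080000000068786058a) (nat_lit 0) (p (nat_lit 0x10687058502) (nat_lit 0) (p (nat_lit 0x8606850482) (nat_lit 0) (p (nat_lit 0x160004) (nat_lit 0) (p (nat_lit 0x68612) (nat_lit 0) (p (nat_lit 0x50592) (nat_lit 0) (p (nat_lit 0x40512) (nat_lit 0) (p (nat_lit 0x50312) (nat_lit 0) (p (nat_lit 0x38292) (nat_lit 0) (p (nat_lit 0x28212) (nat_lit 0) (p (nat_lit 0x38112) (nat_lit 0) (p (nat_lit 0x20092) (nat_lit 0) (p (nat_lit 0x10012) (nat_lit 0) pn)))))))))))))))))))))))))))))))))))))))) :=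
  Cl.node (nat_lit 0x10f8e8f0d8d1a) (nat_lit 1) (by decide +kernel) (ClAll.succ ClAll.zero n29)

def n40 : Cl (O (nat_lit 6)) (R (nat_lit 143633))
    (p (nat_lit 0x8c8d0d8c0b9a) (nat_lit 0) (p (nat_lit 0x24800a6803800000d8d0b8b0a) (nat_lit 0) (p (nat_lit 0x24800a6803800000b8c8b0a8a) (nat_lit 0) (p (nat_lit 0x20014) (nat_lit 0) (p (nat_lit 0x8000c) (nat_lit 0) (p (nat_lit 0x40014) (nat_lit 0) (p (nat_lit 0x80014) (nat_lit 0) (p (nat_lit 0x100014) (nat_lit 0) (p (nat_lit 0x10000c) (nat_lit 0) (p (nat_lit 0x1fc014) (nat_lit 0) (p (nat_lit 0x1fc00c) (nat_lit 0) (p (nat_lit 0xb0004) (nat_lit 1) (p (nat_lit 0x380c2) (nat_lit 1) (p (nat_lit 0x3c4aa) (nat_lit 7) (p (nat_lit 0xd1) (nat_lit 1) (p (nat_lit 0x111) (nat_lit 1) (p (nat_lit 0x109) (nat_lit 0) (p (nat_lit 0x101) (nat_lit 0) (p (nat_lit 0x119) (nat_lit 0) (p (nat_lit 0xc1) (nat_lit 0) (p (nat_lit 0x81) (nat_lit 1) (p (nat_lit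 0x41) (nat_lit 1) (p (nat_lit 0x10a898a08881a) (nat_lit 0) (p (nat_lit 0x8a090988079a) (nat_lit 0) (p (nat_lit 0x108088907871a) (nat_lit 0) (p (nat_lit 0x87880887069a) (nat_lit 0) (p (nat_lit 0x8000080000000088806860a) (nat_lit 0) (p (nat_lit 0x8000080000000068786058a) (nat_lit 0) (p (nat_lit 0x10687058502) (nat_lit 0) (p (nat_lit 0x8606850482) (nat_lit 0) (p (nat_lit 0x160004) (nat_lit 0) (p (nat_lit 0x68612) (nat_lit 0) (p (nat_lit 0x50592) (nat_lit 0) (p (nat_lit 0x40512) (nat_lit 0) (p (nat_lit 0x50312) (nat_lit 0) (p (nat_lit 0x38292) (nat_lit 0) (p (nat_lit 0x28212) (nat_lit 0) (p (nat_lit 0x38112) (nat_lit 0) (p (nat_lit 0x20092) (nat_lit 0) (p (nat_lit 0x10012) (nat_lit 0) pn)))))))))))))))))))))))))))))))))))))))) :=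
  Cl.node (nat_lit 0x10d0d8e0c8c1a) (nat_lit 1) (by decide +kernel) (ClAll.succ ClAll.zero n30)

def n41 : Cl (O (nat_lit 6)) (R (nat_lit 143633))
    (p (nat_lit 0x10f8e8f0d8d1a) (nat_lit 0) (p (nat_lit 0x8f0e0e8d0c9a) (nat_lit 0) (p (nat_lit 0x10d0d8e0c8c1a) (nat_lit 0) (p (nat_lit 0x8c8d0d8c0b9a) (nat_lit 0) (p (nat_lit 0x228012680d000000d8d0b8b0a) (nat_lit 0) (p (nat_lit 0x228012680d000000b8c8b0a8a) (nat_lit 0) (p (nat_lit 0x40014) (nat_lit 0) (p (nat_lit 0x80014) (nat_lit 0) (p (nat_lit 0x100014) (nat_lit 0) (p (nat_lit 0x10000c) (nat_lit 0) (p (nat_lit 0x1fc014) (nat_lit 0) (p (nat_lit 0x1fc00c) (nat_lit 0) (p (nat_lit 0xb0004) (nat_lit 1) (p (nat_lit 0x380c2) (nat_lit 0) (p (nat_lit 0x3c4aa) (nat_lit 7) (p (nat_lit 0xd1) (nat_lit 1) (p (nat_lit 0xc9) (nat_lit 0) (p (nat_lit 0x101) (nat_lit 1) (p (nat_lit 0x119) (nat_lit 0) (p (nat_lit 0xc1) (nat_lit 0) (p (nat_lit 0x81)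 (nat_lit 1) (p (nat_lit 0x41) (nat_lit 1) (p (nat_lit 0x10a898a08881a) (nat_lit 0) (p (nat_lit 0x8a090988079a) (nat_lit 0) (p (nat_lit 0x108088907871a) (nat_lit 0) (p (nat_lit 0x87880887069a) (nat_lit 0) (p (nat_lit 0x8000080000000088806860a) (nat_lit 0) (p (nat_lit 0x8000080000000068786058a) (nat_lit 0) (p (nat_lit 0x10687058502) (nat_lit 0) (p (nat_lit 0x8606850482) (nat_lit 0) (p (nat_lit 0x160004) (nat_lit 0) (p (nat_lit 0x68612) (nat_lit 0) (p (nat_lit 0x50592) (nat_lit 0) (p (nat_lit 0x40512) (nat_lit 0) (p (nat_lit 0x50312) (nat_lit 0) (p (nat_lit 0x38292) (nat_lit 0) (p (nat_lit 0x28212) (nat_lit 0) (p (nat_lit 0x38112) (nat_lit 0) (p (nat_lit 0x20092) (nat_lit 0) (p (nat_lit 0x10012) (nat_lit 0) pn)))))))))))))))))))))))))))))))))))))))) :=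
  Cl.node (nat_lit 0xc1) (nat_lit 2) (by decide +kernel) (ClAll.succ (ClAll.succ ClAll.zero n31) s1656)

def n42 : Cl (O (nat_lit 6)) (R (nat_lit 143633))
    (p (nat_lit 0x10f8e8f0d8d1a) (nat_lit 0) (p (nat_lit 0x8f0e0e8d0c9a) (nat_lit 0) (p (nat_lit 0x10d0d8e0c8c1a) (nat_lit 0) (p (nat_lit 0x8c8d0d8c0b9a) (nat_lit 0) (p (nat_lit 0x2680d2680d000000d8d0b8b0a) (nat_lit 0) (p (nat_lit 0x2680d2680d000000b8c8b0a8a) (nat_lit 0) (p (nat_lit 0x10000c) (nat_lit 0) (p (nat_lit 0x100014) (nat_lit 0) (p (nat_lit 0x1fc014) (nat_lit 0) (p (nat_lit 0x1fc00c) (nat_lit 0) (p (nat_lit 0xb0004) (nat_lit 1) (p (nat_lit 0x380c2) (nat_lit 1) (p (nat_lit 0x444aa) (nat_lit 7) (p (nat_lit 0x81) (nat_lit 1) (p (nat_lit 0xc9) (nat_lit 1) (p (nat_lit 0x109) (nat_lit 1) (p (nat_lit 0x101) (nat_lit 0) (p (nat_lit 0x119) (nat_lit 0) (p (nat_lit 0xd1) (nat_lit 0) (p (nat_lit 0x89) (nat_lit 0) (p (nat_lit 0x41)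 (nat_lit 0) (p (nat_lit 0x10a898a08881a) (nat_lit 0) (p (nat_lit 0x8a090988079a) (nat_lit 0) (p (nat_lit 0x108088907871a) (nat_lit 0) (p (nat_lit 0x87880887069a) (nat_lit 0) (p (nat_lit 0x8000080000000088806860a) (nat_lit 0) (p (nat_lit 0x8000080000000068786058a) (nat_lit 0) (p (nat_lit 0x10687058502) (nat_lit 0) (p (nat_lit 0x8606850482) (nat_lit 0) (p (nat_lit 0x160004) (nat_lit 0) (p (nat_lit 0x68612) (nat_lit 0) (p (nat_lit 0x50592) (nat_lit 0) (p (nat_lit 0x40512) (nat_lit 0) (p (nat_lit 0x50312) (nat_lit 0) (p (nat_lit 0x38292) (nat_lit 0) (p (nat_lit 0x28212) (nat_lit 0) (p (nat_lit 0x38112) (nat_lit 0) (p (nat_lit 0x20092) (nat_lit 0) (p (nat_lit 0x10012) (nat_lit 0) pn))))))))))))))))))))))))))))))))))))))) :=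
  Cl.node (nat_lit 0x81) (nat_lit 2) (by decide +kernel) (ClAll.succ (ClAll.succ ClAll.zero s22) n32)

def n43 : Cl (O (nat_lit 6)) (R (nat_lit 143633))
    (p (nat_lit 0x10f8e8f0d8d1a) (nat_lit 0) (p (nat_lit 0x8f0e0e8d0c9a) (nat_lit 0) (p (nat_lit 0x10d0d8e0c8c1a) (nat_lit 0) (p (nat_lit 0x8c8d0d8c0b9a) (nat_lit 0) (p (nat_lit 0x2680d2680d000000d8d0b8b0a) (nat_lit 0) (p (nat_lit 0x2680d2680d000000b8c8b0a8a) (nat_lit 0) (p (nat_lit 0x100014) (nat_lit 0) (p (nat_lit 0x10000c) (nat_lit 0) (p (nat_lit 0x1fc014) (nat_lit 0) (p (nat_lit 0x1fc00c) (nat_lit 0) (p (nat_lit 0xb0004) (nat_lit 1) (p (nat_lit 0x380c2) (nat_lit 0) (p (nat_lit 0x4c42a) (nat_lit 2) (p (nat_lit 0x111) (nat_lit 0) (p (nat_lit 0xc9) (nat_lit 0) (p (nat_lit 0x81) (nat_lit 0) (p (nat_lit 0x101) (nat_lit 1) (p (nat_lit 0x119) (nat_lit 0) (p (nat_lit 0xd1) (nat_lit 0) (p (nat_lit 0x89) (nat_lit 0) (p (nat_lit 0x41)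 (nat_lit 0) (p (nat_lit 0x10a898a08881a) (nat_lit 0) (p (nat_lit 0x8a090988079a) (nat_lit 0) (p (nat_lit 0x108088907871a) (nat_lit 0) (p (nat_lit 0x87880887069a) (nat_lit 0) (p (nat_lit 0x8000080000000088806860a) (nat_lit 0) (p (nat_lit 0x8000080000000068786058a) (nat_lit 0) (p (nat_lit 0x10687058502) (nat_lit 0) (p (nat_lit 0x8606850482) (nat_lit 0) (p (nat_lit 0x160004) (nat_lit 0) (p (nat_lit 0x68612) (nat_lit 0) (p (nat_lit 0x50592) (nat_lit 0) (p (nat_lit 0x40512) (nat_lit 0) (p (nat_lit 0x50312) (nat_lit 0) (p (nat_lit 0x38292) (nat_lit 0) (p (nat_lit 0x28212) (nat_lit 0) (p (nat_lit 0x38112) (nat_lit 0) (p (nat_lit 0x20092) (nat_lit 0) (p (nat_lit 0x10012) (nat_lit 0) pn))))))))))))))))))))))))))))))))))))))) :=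
  Cl.node (nat_lit 0xc1) (nat_lit 2) (by decide +kernel) (ClAll.succ (ClAll.succ ClAll.zero s54) n33)

def n44 : Cl (O (nat_lit 6)) (R (nat_lit 143633))
    (p (nat_lit 0x10f8e8f0d8d1a) (nat_lit 0) (p (nat_lit 0x8f0e0e8d0c9a) (nat_lit 0) (p (nat_lit 0x10d0d8e0c8c1a) (nat_lit 0) (p (nat_lit 0x8c8d0d8c0b9a) (nat_lit 0) (p (nat_lit 0x2680d2680d000000d8d0b8b0a) (nat_lit 0) (p (nat_lit 0x2680d2680d000000b8c8b0a8a) (nat_lit 0) (p (nat_lit 0x10000c) (nat_lit 0) (p (nat_lit 0x100014) (nat_lit 0) (p (nat_lit 0x1fc014) (nat_lit 0) (p (nat_lit 0x1fc00c) (nat_lit 0) (p (nat_lit 0xb0004) (nat_lit 1) (p (nat_lit 0x380c2) (nat_lit 1) (p (nat_lit 0x444aa) (nat_lit 7) (p (nat_lit 0x111) (nat_lit 0) (p (nat_lit 0xc9) (nat_lit 1) (p (nat_lit 0x81) (nat_lit 0) (p (nat_lit 0x101) (nat_lit 1) (p (nat_lit 0x119) (nat_lit 0) (p (nat_lit 0xd1) (nat_lit 0) (p (nat_lit 0x89) (nat_lit 0) (p (nat_lit 0x41)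 (nat_lit 0) (p (nat_lit 0x10a898a08881a) (nat_lit 0) (p (nat_lit 0x8a090988079a) (nat_lit 0) (p (nat_lit 0x108088907871a) (nat_lit 0) (p (nat_lit 0x87880887069a) (nat_lit 0) (p (nat_lit 0x8000080000000088806860a) (nat_lit 0) (p (nat_lit 0x8000080000000068786058a) (nat_lit 0) (p (nat_lit 0x10687058502) (nat_lit 0) (p (nat_lit 0x8606850482) (nat_lit 0) (p (nat_lit 0x160004) (nat_lit 0) (p (nat_lit 0x68612) (nat_lit 0) (p (nat_lit 0x50592) (nat_lit 0) (p (nat_lit 0x40512) (nat_lit 0) (p (nat_lit 0x50312) (nat_lit 0) (p (nat_lit 0x38292) (nat_lit 0) (p (nat_lit 0x28212) (nat_lit 0) (p (nat_lit 0x38112) (nat_lit 0) (p (nat_lit 0x20092) (nat_lit 0) (p (nat_lit 0x10012) (nat_lit 0) pn))))))))))))))))))))))))))))))))))))))) :=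
  Cl.node (nat_lit 0x89) (nat_lit 2) (by decide +kernel) (ClAll.succ (ClAll.succ ClAll.zero s139) s140)

def n45 : Cl (O (nat_lit 6)) (R (nat_lit 143633))
    (p (nat_lit 0x10f8e8f0d8d1a) (nat_lit 0) (p (nat_lit 0x8f0e0e8d0c9a) (nat_lit 0) (p (nat_lit 0x10d0d8e0c8c1a) (nat_lit 0) (p (nat_lit 0x8c8d0d8c0b9a) (nat_lit 0) (p (nat_lit 0x2680d2680d000000d8d0b8b0a) (nat_lit 0) (p (nat_lit 0x2680d2680d000000b8c8b0a8a) (nat_lit 0) (p (nat_lit 0x100014) (nat_lit 0) (p (nat_lit 0x10000c) (nat_lit 0) (p (nat_lit 0x1fc014) (nat_lit 0) (p (nat_lit 0x1fc00c) (nat_lit 0) (p (nat_lit 0xb0004) (nat_lit 1) (p (nat_lit 0x380c2) (nat_lit 0) (p (nat_lit 0x4c42a) (nat_lit 2) (p (nat_lit 0xc9) (nat_lit 0) (p (nat_lit 0xc1) (nat_lit 0) (p (nat_lit 0x81) (nat_lit 1) (p (nat_lit 0x101) (nat_lit 1) (p (nat_lit 0x119) (nat_lit 0) (p (nat_lit 0xd1) (nat_lit 0) (p (nat_lit 0x89) (nat_lit 0) (p (nat_lit 0x41)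 (nat_lit 0) (p (nat_lit 0x10a898a08881a) (nat_lit 0) (p (nat_lit 0x8a090988079a) (nat_lit 0) (p (nat_lit 0x108088907871a) (nat_lit 0) (p (nat_lit 0x87880887069a) (nat_lit 0) (p (nat_lit 0x8000080000000088806860a) (nat_lit 0) (p (nat_lit 0x8000080000000068786058a) (nat_lit 0) (p (nat_lit 0x10687058502) (nat_lit 0) (p (nat_lit 0x8606850482) (nat_lit 0) (p (nat_lit 0x160004) (nat_lit 0) (p (nat_lit 0x68612) (nat_lit 0) (p (nat_lit 0x50592) (nat_lit 0) (p (nat_lit 0x40512) (nat_lit 0) (p (nat_lit 0x50312) (nat_lit 0) (p (nat_lit 0x38292) (nat_lit 0) (p (nat_lit 0x28212) (nat_lit 0) (p (nat_lit 0x38112) (nat_lit 0) (p (nat_lit 0x20092) (nat_lit 0) (p (nat_lit 0x10012) (nat_lit 0) pn))))))))))))))))))))))))))))))))))))))) :=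
  Cl.node (nat_lit 0xd1) (nat_lit 2) (by decide +kernel) (ClAll.succ (ClAll.succ ClAll.zero s177) n34)

def n46 : Cl (O (nat_lit 6)) (R (nat_lit 143633))
    (p (nat_lit 0x10f8e8f0d8d1a) (nat_lit 0) (p (nat_lit 0x8f0e0e8d0c9a) (nat_lit 0) (p (nat_lit 0x10d0d8e0c8c1a) (nat_lit 0) (p (nat_lit 0x8c8d0d8c0b9a) (nat_lit 0) (p (nat_lit 0x2680d2680d000000d8d0b8b0a) (nat_lit 0) (p (nat_lit 0x2680d2680d000000b8c8b0a8a) (nat_lit 0) (p (nat_lit 0x100014) (nat_lit 0) (p (nat_lit 0x10000c) (nat_lit 0) (p (nat_lit 0x1fc014) (nat_lit 0) (p (nat_lit 0x1fc00c) (nat_lit 0) (p (nat_lit 0xb0004) (nat_lit 1) (p (nat_lit 0x380c2) (nat_lit 1) (p (nat_lit 0x444aa) (nat_lit 7) (p (nat_lit 0x109) (nat_lit 1) (p (nat_lit 0x101) (nat_lit 0) (p (nat_lit 0x81) (nat_lit 1) (p (nat_lit 0xc1) (nat_lit 1) (p (nat_lit 0x119) (nat_lit 1) (p (nat_lit 0xd1) (nat_lit 0) (p (nat_lit 0x89) (nat_lit 0) (p (nat_lit 0x41)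 (nat_lit 0) (p (nat_lit 0x10a898a08881a) (nat_lit 0) (p (nat_lit 0x8a090988079a) (nat_lit 0) (p (nat_lit 0x108088907871a) (nat_lit 0) (p (nat_lit 0x87880887069a) (nat_lit 0) (p (nat_lit 0x8000080000000088806860a) (nat_lit 0) (p (nat_lit 0x8000080000000068786058a) (nat_lit 0) (p (nat_lit 0x10687058502) (nat_lit 0) (p (nat_lit 0x8606850482) (nat_lit 0) (p (nat_lit 0x160004) (nat_lit 0) (p (nat_lit 0x68612) (nat_lit 0) (p (nat_lit 0x50592) (nat_lit 0) (p (nat_lit 0x40512) (nat_lit 0) (p (nat_lit 0x50312) (nat_lit 0) (p (nat_lit 0x38292) (nat_lit 0) (p (nat_lit 0x28212) (nat_lit 0) (p (nat_lit 0x38112) (nat_lit 0) (p (nat_lit 0x20092) (nat_lit 0) (p (nat_lit 0x10012) (nat_lit 0) pn))))))))))))))))))))))))))))))))))))))) :=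
  Cl.node (nat_lit 0x119) (nat_lit 2) (by decide +kernel) (ClAll.succ (ClAll.succ ClAll.zero s419) s420)

def n47 : Cl (O (nat_lit 6)) (R (nat_lit 143633))
    (p (nat_lit 0xa8000c802000000d8d0b8b0a) (nat_lit 0) (p (nat_lit 0xa8000c802000000b8c8b0a8a) (nat_lit 0) (p (nat_lit 0x58004) (nat_lit 1) (p (nat_lit 0x40014) (nat_lit 0) (p (nat_lit 0x109) (nat_lit 1) (p (nat_lit 0x80014) (nat_lit 0) (p (nat_lit 0xb0004) (nat_lit 0) (p (nat_lit 0x100014) (nat_lit 0) (p (nat_lit 0x10000c) (nat_lit 0) (p (nat_lit 0x380c2) (nat_lit 0) (p (nat_lit 0x4c42a) (nat_lit 2) (p (nat_lit 0x109) (nat_lit 0) (p (nat_lit 0x200014) (nat_lit 0) (p (nat_lit 0x20000c) (nat_lit 0) (p (nat_lit 0x119) (nat_lit 0) (p (nat_lit 0x81) (nat_lit 0) (p (nat_lit 0x101) (nat_lit 1) (p (nat_lit 0x111) (nat_lit 0) (p (nat_lit 0xd1) (nat_lit 1) (p (nat_lit 0x89) (nat_lit 0) (p (nat_lit 0x41) (nat_lit 0) (p (nat_lit 0x10a898a08881a)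 (nat_lit 0) (p (nat_lit 0x8a090988079a) (nat_lit 0) (p (nat_lit 0x108088907871a) (nat_lit 0) (p (nat_lit 0x87880887069a) (nat_lit 0) (p (nat_lit 0x8000080000000088806860a) (nat_lit 0) (p (nat_lit 0x8000080000000068786058a) (nat_lit 0) (p (nat_lit 0x10687058502) (nat_lit 0) (p (nat_lit 0x8606850482) (nat_lit 0) (p (nat_lit 0x160004) (nat_lit 0) (p (nat_lit 0x68612) (nat_lit 0) (p (nat_lit 0x50592) (nat_lit 0) (p (nat_lit 0x40512) (nat_lit 0) (p (nat_lit 0x50312) (nat_lit 0) (p (nat_lit 0x38292) (nat_lit 0) (p (nat_lit 0x28212) (nat_lit 0) (p (nat_lit 0x38112) (nat_lit 0) (p (nat_lit 0x20092) (nat_lit 0) (p (nat_lit 0x10012) (nat_lit 0) pn))))))))))))))))))))))))))))))))))))))) :=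
  Cl.node (nat_lit 0x8c8d0d8c0b9a) (nat_lit 1) (by decide +kernel) (ClAll.succ ClAll.zero n35)

def n48 : Cl (O (nat_lit 6)) (R (nat_lit 143633))
    (p (nat_lit 0x10f8e8f0d8d1a) (nat_lit 0) (p (nat_lit 0x8f0e0e8d0c9a) (nat_lit 0) (p (nat_lit 0x10d0d8e0c8c1a) (nat_lit 0) (p (nat_lit 0x8c8d0d8c0b9a) (nat_lit 0) (p (nat_lit 0x2680d2680d000000d8d0b8b0a) (nat_lit 0) (p (nat_lit 0x2680d2680d000000b8c8b0a8a) (nat_lit 0) (p (nat_lit 0xb0004) (nat_lit 1) (p (nat_lit 0x100014) (nat_lit 0) (p (nat_lit 0x200014) (nat_lit 0) (p (nat_lit 0x10000c) (nat_lit 0) (p (nat_lit 0x20000c) (nat_lit 0) (p (nat_lit 0x380c2) (nat_lit 0) (p (nat_lit 0x444aa) (nat_lit 7) (p (nat_lit 0xd1) (nat_lit 1) (p (nat_lit 0x111) (nat_lit 1) (p (nat_lit 0x109) (nat_lit 0) (p (nat_lit 0x101) (nat_lit 0) (p (nat_lit 0x119) (nat_lit 0) (p (nat_lit 0xc9) (nat_lit 0) (p (nat_lit 0x89) (nat_lit 1) (p (nat_lit 0x41) (nat_lit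 0) (p (nat_lit 0x10a898a08881a) (nat_lit 0) (p (nat_lit 0x8a090988079a) (nat_lit 0) (p (nat_lit 0x108088907871a) (nat_lit 0) (p (nat_lit 0x87880887069a) (nat_lit 0) (p (nat_lit 0x8000080000000088806860a) (nat_lit 0) (p (nat_lit 0x8000080000000068786058a) (nat_lit 0) (p (nat_lit 0x10687058502) (nat_lit 0) (p (nat_lit 0x8606850482) (nat_lit 0) (p (nat_lit 0x160004) (nat_lit 0) (p (nat_lit 0x68612) (nat_lit 0) (p (nat_lit 0x50592) (nat_lit 0) (p (nat_lit 0x40512) (nat_lit 0) (p (nat_lit 0x50312) (nat_lit 0) (p (nat_lit 0x38292) (nat_lit 0) (p (nat_lit 0x28212) (nat_lit 0) (p (nat_lit 0x38112) (nat_lit 0) (p (nat_lit 0x20092) (nat_lit 0) (p (nat_lit 0x10012) (nat_lit 0) pn))))))))))))))))))))))))))))))))))))))) :=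
  Cl.node (nat_lit 0xc1) (nat_lit 2) (by decide +kernel) (ClAll.succ (ClAll.succ ClAll.zero n36) s656)

def n49 : Cl (O (nat_lit 6)) (R (nat_lit 143633))
    (p (nat_lit 0xc1) (nat_lit 0) (p (nat_lit 0x10f8e8f0d8d1a) (nat_lit 0) (p (nat_lit 0x8f0e0e8d0c9a) (nat_lit 0) (p (nat_lit 0x10d0d8e0c8c1a) (nat_lit 0) (p (nat_lit 0x8c8d0d8c0b9a) (nat_lit 0) (p (nat_lit 0x2680d2680d000000d8d0b8b0a) (nat_lit 0) (p (nat_lit 0x2680d2680d000000b8c8b0a8a) (nat_lit 0) (p (nat_lit 0x10000c) (nat_lit 0) (p (nat_lit 0x100014) (nat_lit 0) (p (nat_lit 0x1fc014) (nat_lit 0) (p (nat_lit 0x1fc00c) (nat_lit 0) (p (nat_lit 0xb0004) (nat_lit 1) (p (nat_lit 0x380c2) (nat_lit 0) (p (nat_lit 0x444aa) (nat_lit 7) (p (nat_lit 0xd1) (nat_lit 1) (p (nat_lit 0x109) (nat_lit 1) (p (nat_lit 0x101) (nat_lit 0) (p (nat_lit 0x119) (nat_lit 0) (p (nat_lit 0xc9) (nat_lit 0) (p (nat_lit 0x89) (nat_lit 1) (p (nat_lit 0x41)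 (nat_lit 0) (p (nat_lit 0x10a898a08881a) (nat_lit 0) (p (nat_lit 0x8a090988079a) (nat_lit 0) (p (nat_lit 0x108088907871a) (nat_lit 0) (p (nat_lit 0x87880887069a) (nat_lit 0) (p (nat_lit 0x8000080000000088806860a) (nat_lit 0) (p (nat_lit 0x8000080000000068786058a) (nat_lit 0) (p (nat_lit 0x10687058502) (nat_lit 0) (p (nat_lit 0x8606850482) (nat_lit 0) (p (nat_lit 0x160004) (nat_lit 0) (p (nat_lit 0x68612) (nat_lit 0) (p (nat_lit 0x50592) (nat_lit 0) (p (nat_lit 0x40512) (nat_lit 0) (p (nat_lit 0x50312) (nat_lit 0) (p (nat_lit 0x38292) (nat_lit 0) (p (nat_lit 0x28212) (nat_lit 0) (p (nat_lit 0x38112) (nat_lit 0) (p (nat_lit 0x20092) (nat_lit 0) (p (nat_lit 0x10012) (nat_lit 0) pn))))))))))))))))))))))))))))))))))))))) :=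
  Cl.node (nat_lit 0x111) (nat_lit 2) (by decide +kernel) (ClAll.succ (ClAll.succ ClAll.zero n37) s758)

def n50 : Cl (O (nat_lit 6)) (R (nat_lit 143633))
    (p (nat_lit 0x8f0e0e8d0c9a) (nat_lit 0) (p (nat_lit 0x10d0d8e0c8c1a) (nat_lit 0) (p (nat_lit 0x8c8d0d8c0b9a) (nat_lit 0) (p (nat_lit 0x2680d2a825800000d8d0b8b0a) (nat_lit 0) (p (nat_lit 0x2680d2a825800000b8c8b0a8a) (nat_lit 0) (p (nat_lit 0x100014) (nat_lit 0) (p (nat_lit 0x108004) (nat_lit 0) (p (nat_lit 0xb0004) (nat_lit 1) (p (nat_lit 0x41) (nat_lit 1) (p (nat_lit 0x380c2) (nat_lit 0) (p (nat_lit 0x44c2a) (nat_lit 0) (p (nat_lit 0x109) (nat_lit 1) (p (nat_lit 0x200014) (nat_lit 0) (p (nat_lit 0x20000c) (nat_lit 0) (p (nat_lit 0xd1) (nat_lit 0) (p (nat_lit 0xc1) (nat_lit 0) (p (nat_lit 0x101) (nat_lit 1) (p (nat_lit 0x119) (nat_lit 0) (p (nat_lit 0xc9) (nat_lit 0) (p (nat_lit 0x89) (nat_lit 1) (p (nat_lit 0x41) (nat_lit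 0) (p (nat_lit 0x10a898a08881a) (nat_lit 0) (p (nat_lit 0x8a090988079a) (nat_lit 0) (p (nat_lit 0x108088907871a) (nat_lit 0) (p (nat_lit 0x87880887069a) (nat_lit 0) (p (nat_lit 0x8000080000000088806860a) (nat_lit 0) (p (nat_lit 0x8000080000000068786058a) (nat_lit 0) (p (nat_lit 0x10687058502) (nat_lit 0) (p (nat_lit 0x8606850482) (nat_lit 0) (p (nat_lit 0x160004) (nat_lit 0) (p (nat_lit 0x68612) (nat_lit 0) (p (nat_lit 0x50592) (nat_lit 0) (p (nat_lit 0x40512) (nat_lit 0) (p (nat_lit 0x50312) (nat_lit 0) (p (nat_lit 0x38292) (nat_lit 0) (p (nat_lit 0x28212) (nat_lit 0) (p (nat_lit 0x38112) (nat_lit 0) (p (nat_lit 0x20092) (nat_lit 0) (p (nat_lit 0x10012) (nat_lit 0) pn))))))))))))))))))))))))))))))))))))))) :=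
  Cl.node (nat_lit 0x10f8e8f0d8d1a) (nat_lit 1) (by decide +kernel) (ClAll.succ ClAll.zero n38)

def n51 : Cl (O (nat_lit 6)) (R (nat_lit 143633))
    (p (nat_lit 0x10d0d8e0c8c1a) (nat_lit 0) (p (nat_lit 0x8c8d0d8c0b9a) (nat_lit 0) (p (nat_lit 0x228012680d000000d8d0b8b0a) (nat_lit 0) (p (nat_lit 0x228012680d000000b8c8b0a8a) (nat_lit 0) (p (nat_lit 0x40014) (nat_lit 0) (p (nat_lit 0x80014) (nat_lit 0) (p (nat_lit 0x100014) (nat_lit 0) (p (nat_lit 0x10000c) (nat_lit 0) (p (nat_lit 0x1fc014) (nat_lit 0) (p (nat_lit 0x1fc00c) (nat_lit 0) (p (nat_lit 0xb0004) (nat_lit 1) (p (nat_lit 0x380c2) (nat_lit 0) (p (nat_lit 0x3c4aa) (nat_lit 7) (p (nat_lit 0xd1) (nat_lit 1) (p (nat_lit 0x111) (nat_lit 1) (p (nat_lit 0x109) (nat_lit 0) (p (nat_lit 0x101) (nat_lit 0) (p (nat_lit 0x119) (nat_lit 0) (p (nat_lit 0xc1) (nat_lit 0) (p (nat_lit 0x81) (nat_lit 1) (p (nat_lit 0x41) (nat_lit 1) (p (nat_lit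 0x10a898a08881a) (nat_lit 0) (p (nat_lit 0x8a090988079a) (nat_lit 0) (p (nat_lit 0x108088907871a) (nat_lit 0) (p (nat_lit 0x87880887069a) (nat_lit 0) (p (nat_lit 0x8000080000000088806860a) (nat_lit 0) (p (nat_lit 0x8000080000000068786058a) (nat_lit 0) (p (nat_lit 0x10687058502) (nat_lit 0) (p (nat_lit 0x8606850482) (nat_lit 0) (p (nat_lit 0x160004) (nat_lit 0) (p (nat_lit 0x68612) (nat_lit 0) (p (nat_lit 0x50592) (nat_lit 0) (p (nat_lit 0x40512) (nat_lit 0) (p (nat_lit 0x50312) (nat_lit 0) (p (nat_lit 0x38292) (nat_lit 0) (p (nat_lit 0x28212) (nat_lit 0) (p (nat_lit 0x38112) (nat_lit 0) (p (nat_lit 0x20092) (nat_lit 0) (p (nat_lit 0x10012) (nat_lit 0) pn))))))))))))))))))))))))))))))))))))))) :=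
  Cl.node (nat_lit 0x8f0e0e8d0c9a) (nat_lit 1) (by decide +kernel) (ClAll.succ ClAll.zero n39)

def n52 : Cl (O (nat_lit 6)) (R (nat_lit 143633))
    (p (nat_lit 0x24800a6803800000d8d0b8b0a) (nat_lit 0) (p (nat_lit 0x24800a6803800000b8c8b0a8a) (nat_lit 0) (p (nat_lit 0x20014) (nat_lit 0) (p (nat_lit 0x8000c) (nat_lit 0) (p (nat_lit 0x40014) (nat_lit 0) (p (nat_lit 0x80014) (nat_lit 0) (p (nat_lit 0x100014) (nat_lit 0) (p (nat_lit 0x10000c) (nat_lit 0) (p (nat_lit 0x1fc014) (nat_lit 0) (p (nat_lit 0x1fc00c) (nat_lit 0) (p (nat_lit 0xb0004) (nat_lit 1) (p (nat_lit 0x380c2) (nat_lit 1) (p (nat_lit 0x3c4aa) (nat_lit 7) (p (nat_lit 0xd1) (nat_lit 1) (p (nat_lit 0x111) (nat_lit 1) (p (nat_lit 0x109) (nat_lit 0) (p (nat_lit 0x101) (nat_lit 0) (p (nat_lit 0x119) (nat_lit 0) (p (nat_lit 0xc1) (nat_lit 0) (p (nat_lit 0x81) (nat_lit 1) (p (nat_lit 0x41) (nat_lit 1) (p (nat_lit 0x10a898a08881a)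 (nat_lit 0) (p (nat_lit 0x8a090988079a) (nat_lit 0) (p (nat_lit 0x108088907871a) (nat_lit 0) (p (nat_lit 0x87880887069a) (nat_lit 0) (p (nat_lit 0x8000080000000088806860a) (nat_lit 0) (p (nat_lit 0x8000080000000068786058a) (nat_lit 0) (p (nat_lit 0x10687058502) (nat_lit 0) (p (nat_lit 0x8606850482) (nat_lit 0) (p (nat_lit 0x160004) (nat_lit 0) (p (nat_lit 0x68612) (nat_lit 0) (p (nat_lit 0x50592) (nat_lit 0) (p (nat_lit 0x40512) (nat_lit 0) (p (nat_lit 0x50312) (nat_lit 0) (p (nat_lit 0x38292) (nat_lit 0) (p (nat_lit 0x28212) (nat_lit 0) (p (nat_lit 0x38112) (nat_lit 0) (p (nat_lit 0x20092) (nat_lit 0) (p (nat_lit 0x10012) (nat_lit 0) pn))))))))))))))))))))))))))))))))))))))) :=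
  Cl.node (nat_lit 0x8c8d0d8c0b9a) (nat_lit 1) (by decide +kernel) (ClAll.succ ClAll.zero n40)

def n53 : Cl (O (nat_lit 6)) (R (nat_lit 143633))
    (p (nat_lit 0x8f0e0e8d0c9a) (nat_lit 0) (p (nat_lit 0x10d0d8e0c8c1a) (nat_lit 0) (p (nat_lit 0x8c8d0d8c0b9a) (nat_lit 0) (p (nat_lit 0x228012680d000000d8d0b8b0a) (nat_lit 0) (p (nat_lit 0x228012680d000000b8c8b0a8a) (nat_lit 0) (p (nat_lit 0x40014) (nat_lit 0) (p (nat_lit 0x80014) (nat_lit 0) (p (nat_lit 0x100014) (nat_lit 0) (p (nat_lit 0x10000c) (nat_lit 0) (p (nat_lit 0x1fc014) (nat_lit 0) (p (nat_lit 0x1fc00c) (nat_lit 0) (p (nat_lit 0xb0004) (nat_lit 1) (p (nat_lit 0x380c2) (nat_lit 0) (p (nat_lit 0x3c4aa) (nat_lit 7) (p (nat_lit 0xd1) (nat_lit 1) (p (nat_lit 0xc9) (nat_lit 0) (p (nat_lit 0x101) (nat_lit 1) (p (nat_lit 0x119) (nat_lit 0) (p (nat_lit 0xc1) (nat_lit 0) (p (nat_lit 0x81) (nat_lit 1) (p (nat_lit 0x41) (nat_lit 1)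 (p (nat_lit 0x10a898a08881a) (nat_lit 0) (p (nat_lit 0x8a090988079a) (nat_lit 0) (p (nat_lit 0x108088907871a) (nat_lit 0) (p (nat_lit 0x87880887069a) (nat_lit 0) (p (nat_lit 0x8000080000000088806860a) (nat_lit 0) (p (nat_lit 0x8000080000000068786058a) (nat_lit 0) (p (nat_lit 0x10687058502) (nat_lit 0) (p (nat_lit 0x8606850482) (nat_lit 0) (p (nat_lit 0x160004) (nat_lit 0) (p (nat_lit 0x68612) (nat_lit 0) (p (nat_lit 0x50592) (nat_lit 0) (p (nat_lit 0x40512) (nat_lit 0) (p (nat_lit 0x50312) (nat_lit 0) (p (nat_lit 0x38292) (nat_lit 0) (p (nat_lit 0x28212) (nat_lit 0) (p (nat_lit 0x38112) (nat_lit 0) (p (nat_lit 0x20092) (nat_lit 0) (p (nat_lit 0x10012) (nat_lit 0) pn))))))))))))))))))))))))))))))))))))))) :=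
  Cl.node (nat_lit 0x10f8e8f0d8d1a) (nat_lit 1) (by decide +kernel) (ClAll.succ ClAll.zero n41)

def n54 : Cl (O (nat_lit 6)) (R (nat_lit 143633))
    (p (nat_lit 0x10f8e8f0d8d1a) (nat_lit 0) (p (nat_lit 0x8f0e0e8d0c9a) (nat_lit 0) (p (nat_lit 0x10d0d8e0c8c1a) (nat_lit 0) (p (nat_lit 0x8c8d0d8c0b9a) (nat_lit 0) (p (nat_lit 0x2680d2680d000000d8d0b8b0a) (nat_lit 0) (p (nat_lit 0x2680d2680d000000b8c8b0a8a) (nat_lit 0) (p (nat_lit 0x108004) (nat_lit 0) (p (nat_lit 0x100014) (nat_lit 0) (p (nat_lit 0x10000c) (nat_lit 0) (p (nat_lit 0x1fc014) (nat_lit 0) (p (nat_lit 0x1fc00c) (nat_lit 0) (p (nat_lit 0xb0004) (nat_lit 1) (p (nat_lit 0x380c2) (nat_lit 0) (p (nat_lit 0x3c4aa) (nat_lit 7) (p (nat_lit 0x111) (nat_lit 1) (p (nat_lit 0xd1) (nat_lit 1) (p (nat_lit 0xc9) (nat_lit 0) (p (nat_lit 0x119) (nat_lit 1) (p (nat_lit 0xc1) (nat_lit 0) (p (nat_lit 0x81) (nat_lit 1) (p (nat_lit 0x41)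 (nat_lit 1) (p (nat_lit 0x10a898a08881a) (nat_lit 0) (p (nat_lit 0x8a090988079a) (nat_lit 0) (p (nat_lit 0x108088907871a) (nat_lit 0) (p (nat_lit 0x87880887069a) (nat_lit 0) (p (nat_lit 0x8000080000000088806860a) (nat_lit 0) (p (nat_lit 0x8000080000000068786058a) (nat_lit 0) (p (nat_lit 0x10687058502) (nat_lit 0) (p (nat_lit 0x8606850482) (nat_lit 0) (p (nat_lit 0x160004) (nat_lit 0) (p (nat_lit 0x68612) (nat_lit 0) (p (nat_lit 0x50592) (nat_lit 0) (p (nat_lit 0x40512) (nat_lit 0) (p (nat_lit 0x50312) (nat_lit 0) (p (nat_lit 0x38292) (nat_lit 0) (p (nat_lit 0x28212) (nat_lit 0) (p (nat_lit 0x38112) (nat_lit 0) (p (nat_lit 0x20092) (nat_lit 0) (p (nat_lit 0x10012) (nat_lit 0) pn))))))))))))))))))))))))))))))))))))))) :=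
  Cl.node (nat_lit 0x101) (nat_lit 2) (by decide +kernel) (ClAll.succ (ClAll.succ ClAll.zero s1700) s1701)

def n55 : Cl (O (nat_lit 6)) (R (nat_lit 143633))
    (p (nat_lit 0x8f0e0e8d0c9a) (nat_lit 0) (p (nat_lit 0x10d0d8e0c8c1a) (nat_lit 0) (p (nat_lit 0x8c8d0d8c0b9a) (nat_lit 0) (p (nat_lit 0x2680d2680d000000d8d0b8b0a) (nat_lit 0) (p (nat_lit 0x2680d2680d000000b8c8b0a8a) (nat_lit 0) (p (nat_lit 0x10000c) (nat_lit 0) (p (nat_lit 0x100014) (nat_lit 0) (p (nat_lit 0x1fc014) (nat_lit 0) (p (nat_lit 0x1fc00c) (nat_lit 0) (p (nat_lit 0xb0004) (nat_lit 1) (p (nat_lit 0x380c2) (nat_lit 1) (p (nat_lit 0x444aa) (nat_lit 7) (p (nat_lit 0x81) (nat_lit 1) (p (nat_lit 0xc9) (nat_lit 1) (p (nat_lit 0x109) (nat_lit 1) (p (nat_lit 0x101) (nat_lit 0) (p (nat_lit 0x119) (nat_lit 0) (p (nat_lit 0xd1) (nat_lit 0) (p (nat_lit 0x89) (nat_lit 0) (p (nat_lit 0x41) (nat_lit 0) (p (nat_lit 0x10a898a08881a)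 (nat_lit 0) (p (nat_lit 0x8a090988079a) (nat_lit 0) (p (nat_lit 0x108088907871a) (nat_lit 0) (p (nat_lit 0x87880887069a) (nat_lit 0) (p (nat_lit 0x8000080000000088806860a) (nat_lit 0) (p (nat_lit 0x8000080000000068786058a) (nat_lit 0) (p (nat_lit 0x10687058502) (nat_lit 0) (p (nat_lit 0x8606850482) (nat_lit 0) (p (nat_lit 0x160004) (nat_lit 0) (p (nat_lit 0x68612) (nat_lit 0) (p (nat_lit 0x50592) (nat_lit 0) (p (nat_lit 0x40512) (nat_lit 0) (p (nat_lit 0x50312) (nat_lit 0) (p (nat_lit 0x38292) (nat_lit 0) (p (nat_lit 0x28212) (nat_lit 0) (p (nat_lit 0x38112) (nat_lit 0) (p (nat_lit 0x20092) (nat_lit 0) (p (nat_lit 0x10012) (nat_lit 0) pn)))))))))))))))))))))))))))))))))))))) :=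
  Cl.node (nat_lit 0x10f8e8f0d8d1a) (nat_lit 1) (by decide +kernel) (ClAll.succ ClAll.zero n42)

def n56 : Cl (O (nat_lit 6)) (R (nat_lit 143633))
    (p (nat_lit 0x8f0e0e8d0c9a) (nat_lit 0) (p (nat_lit 0x10d0d8e0c8c1a) (nat_lit 0) (p (nat_lit 0x8c8d0d8c0b9a) (nat_lit 0) (p (nat_lit 0x2680d2680d000000d8d0b8b0a) (nat_lit 0) (p (nat_lit 0x2680d2680d000000b8c8b0a8a) (nat_lit 0) (p (nat_lit 0x100014) (nat_lit 0) (p (nat_lit 0x10000c) (nat_lit 0) (p (nat_lit 0x1fc014) (nat_lit 0) (p (nat_lit 0x1fc00c) (nat_lit 0) (p (nat_lit 0xb0004) (nat_lit 1) (p (nat_lit 0x380c2) (nat_lit 0) (p (nat_lit 0x4c42a) (nat_lit 2) (p (nat_lit 0x111) (nat_lit 0) (p (nat_lit 0xc9) (nat_lit 0) (p (nat_lit 0x81) (nat_lit 0) (p (nat_lit 0x101) (nat_lit 1) (p (nat_lit 0x119) (nat_lit 0) (p (nat_lit 0xd1) (nat_lit 0) (p (nat_lit 0x89) (nat_lit 0) (p (nat_lit 0x41) (nat_lit 0) (p (nat_lit 0x10a898a08881a) (nat_lit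 0) (p (nat_lit 0x8a090988079a) (nat_lit 0) (p (nat_lit 0x108088907871a) (nat_lit 0) (p (nat_lit 0x87880887069a) (nat_lit 0) (p (nat_lit 0x8000080000000088806860a) (nat_lit 0) (p (nat_lit 0x8000080000000068786058a) (nat_lit 0) (p (nat_lit 0x10687058502) (nat_lit 0) (p (nat_lit 0x8606850482) (nat_lit 0) (p (nat_lit 0x160004) (nat_lit 0) (p (nat_lit 0x68612) (nat_lit 0) (p (nat_lit 0x50592) (nat_lit 0) (p (nat_lit 0x40512) (nat_lit 0) (p (nat_lit 0x50312) (nat_lit 0) (p (nat_lit 0x38292) (nat_lit 0) (p (nat_lit 0x28212) (nat_lit 0) (p (nat_lit 0x38112) (nat_lit 0) (p (nat_lit 0x20092) (nat_lit 0) (p (nat_lit 0x10012) (nat_lit 0) pn)))))))))))))))))))))))))))))))))))))) :=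
  Cl.node (nat_lit 0x10f8e8f0d8d1a) (nat_lit 1) (by decide +kernel) (ClAll.succ ClAll.zero n43)

def n57 : Cl (O (nat_lit 6)) (R (nat_lit 143633))
    (p (nat_lit 0x8f0e0e8d0c9a) (nat_lit 0) (p (nat_lit 0x10d0d8e0c8c1a) (nat_lit 0) (p (nat_lit 0x8c8d0d8c0b9a) (nat_lit 0) (p (nat_lit 0x2680d2680d000000d8d0b8b0a) (nat_lit 0) (p (nat_lit 0x2680d2680d000000b8c8b0a8a) (nat_lit 0) (p (nat_lit 0x10000c) (nat_lit 0) (p (nat_lit 0x100014) (nat_lit 0) (p (nat_lit 0x1fc014) (nat_lit 0) (p (nat_lit 0x1fc00c) (nat_lit 0) (p (nat_lit 0xb0004) (nat_lit 1) (p (nat_lit 0x380c2) (nat_lit 1) (p (nat_lit 0x444aa) (nat_lit 7) (p (nat_lit 0x111) (nat_lit 0) (p (nat_lit 0xc9) (nat_lit 1) (p (nat_lit 0x81) (nat_lit 0) (p (nat_lit 0x101) (nat_lit 1) (p (nat_lit 0x119) (nat_lit 0) (p (nat_lit 0xd1) (nat_lit 0) (p (nat_lit 0x89) (nat_lit 0) (p (nat_lit 0x41) (nat_lit 0) (p (nat_lit 0x10a898a08881a) (nat_lit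 0) (p (nat_lit 0x8a090988079a) (nat_lit 0) (p (nat_lit 0x108088907871a) (nat_lit 0) (p (nat_lit 0x87880887069a) (nat_lit 0) (p (nat_lit 0x8000080000000088806860a) (nat_lit 0) (p (nat_lit 0x8000080000000068786058a) (nat_lit 0) (p (nat_lit 0x10687058502) (nat_lit 0) (p (nat_lit 0x8606850482) (nat_lit 0) (p (nat_lit 0x160004) (nat_lit 0) (p (nat_lit 0x68612) (nat_lit 0) (p (nat_lit 0x50592) (nat_lit 0) (p (nat_lit 0x40512) (nat_lit 0) (p (nat_lit 0x50312) (nat_lit 0) (p (nat_lit 0x38292) (nat_lit 0) (p (nat_lit 0x28212) (nat_lit 0) (p (nat_lit 0x38112) (nat_lit 0) (p (nat_lit 0x20092) (nat_lit 0) (p (nat_lit 0x10012) (nat_lit 0) pn)))))))))))))))))))))))))))))))))))))) :=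
  Cl.node (nat_lit 0x10f8e8f0d8d1a) (nat_lit 1) (by decide +kernel) (ClAll.succ ClAll.zero n44)

def n58 : Cl (O (nat_lit 6)) (R (nat_lit 143633))
    (p (nat_lit 0x8f0e0e8d0c9a) (nat_lit 0) (p (nat_lit 0x10d0d8e0c8c1a) (nat_lit 0) (p (nat_lit 0x8c8d0d8c0b9a) (nat_lit 0) (p (nat_lit 0x2680d2680d000000d8d0b8b0a) (nat_lit 0) (p (nat_lit 0x2680d2680d000000b8c8b0a8a) (nat_lit 0) (p (nat_lit 0x100014) (nat_lit 0) (p (nat_lit 0x10000c) (nat_lit 0) (p (nat_lit 0x1fc014) (nat_lit 0) (p (nat_lit 0x1fc00c) (nat_lit 0) (p (nat_lit 0xb0004) (nat_lit 1) (p (nat_lit 0x380c2) (nat_lit 0) (p (nat_lit 0x4c42a) (nat_lit 2) (p (nat_lit 0xc9) (nat_lit 0) (p (nat_lit 0xc1) (nat_lit 0) (p (nat_lit 0x81) (nat_lit 1) (p (nat_lit 0x101) (nat_lit 1) (p (nat_lit 0x119) (nat_lit 0) (p (nat_lit 0xd1) (nat_lit 0) (p (nat_lit 0x89) (nat_lit 0) (p (nat_lit 0x41) (nat_lit 0) (p (nat_lit 0x10a898a08881a) (nat_lit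 0) (p (nat_lit 0x8a090988079a) (nat_lit 0) (p (nat_lit 0x108088907871a) (nat_lit 0) (p (nat_lit 0x87880887069a) (nat_lit 0) (p (nat_lit 0x8000080000000088806860a) (nat_lit 0) (p (nat_lit 0x8000080000000068786058a) (nat_lit 0) (p (nat_lit 0x10687058502) (nat_lit 0) (p (nat_lit 0x8606850482) (nat_lit 0) (p (nat_lit 0x160004) (nat_lit 0) (p (nat_lit 0x68612) (nat_lit 0) (p (nat_lit 0x50592) (nat_lit 0) (p (nat_lit 0x40512) (nat_lit 0) (p (nat_lit 0x50312) (nat_lit 0) (p (nat_lit 0x38292) (nat_lit 0) (p (nat_lit 0x28212) (nat_lit 0) (p (nat_lit 0x38112) (nat_lit 0) (p (nat_lit 0x20092) (nat_lit 0) (p (nat_lit 0x10012) (nat_lit 0) pn)))))))))))))))))))))))))))))))))))))) :=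
  Cl.node (nat_lit 0x10f8e8f0d8d1a) (nat_lit 1) (by decide +kernel) (ClAll.succ ClAll.zero n45)

def n59 : Cl (O (nat_lit 6)) (R (nat_lit 143633))
    (p (nat_lit 0x8f0e0e8d0c9a) (nat_lit 0) (p (nat_lit 0x10d0d8e0c8c1a) (nat_lit 0) (p (nat_lit 0x8c8d0d8c0b9a) (nat_lit 0) (p (nat_lit 0x2680d2680d000000d8d0b8b0a) (nat_lit 0) (p (nat_lit 0x2680d2680d000000b8c8b0a8a) (nat_lit 0) (p (nat_lit 0x100014) (nat_lit 0) (p (nat_lit 0x10000c) (nat_lit 0) (p (nat_lit 0x1fc014) (nat_lit 0) (p (nat_lit 0x1fc00c) (nat_lit 0) (p (nat_lit 0xb0004) (nat_lit 1) (p (nat_lit 0x380c2) (nat_lit 1) (p (nat_lit 0x444aa) (nat_lit 7) (p (nat_lit 0x109) (nat_lit 1) (p (nat_lit 0x101) (nat_lit 0) (p (nat_lit 0x81) (nat_lit 1) (p (nat_lit 0xc1) (nat_lit 1) (p (nat_lit 0x119) (nat_lit 1) (p (nat_lit 0xd1) (nat_lit 0) (p (nat_lit 0x89) (nat_lit 0) (p (nat_lit 0x41) (nat_lit 0) (p (nat_lit 0x10a898a08881a) (nat_lit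 0) (p (nat_lit 0x8a090988079a) (nat_lit 0) (p (nat_lit 0x108088907871a) (nat_lit 0) (p (nat_lit 0x87880887069a) (nat_lit 0) (p (nat_lit 0x8000080000000088806860a) (nat_lit 0) (p (nat_lit 0x8000080000000068786058a) (nat_lit 0) (p (nat_lit 0x10687058502) (nat_lit 0) (p (nat_lit 0x8606850482) (nat_lit 0) (p (nat_lit 0x160004) (nat_lit 0) (p (nat_lit 0x68612) (nat_lit 0) (p (nat_lit 0x50592) (nat_lit 0) (p (nat_lit 0x40512) (nat_lit 0) (p (nat_lit 0x50312) (nat_lit 0) (p (nat_lit 0x38292) (nat_lit 0) (p (nat_lit 0x28212) (nat_lit 0) (p (nat_lit 0x38112) (nat_lit 0) (p (nat_lit 0x20092) (nat_lit 0) (p (nat_lit 0x10012) (nat_lit 0) pn)))))))))))))))))))))))))))))))))))))) :=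
  Cl.node (nat_lit 0x10f8e8f0d8d1a) (nat_lit 1) (by decide +kernel) (ClAll.succ ClAll.zero n46)

def n60 : Cl (O (nat_lit 6)) (R (nat_lit 143633))
    (p (nat_lit 0xa8000c802000000b8c8b0a8a) (nat_lit 0) (p (nat_lit 0x58004) (nat_lit 1) (p (nat_lit 0x40014) (nat_lit 0) (p (nat_lit 0x109) (nat_lit 1) (p (nat_lit 0x80014) (nat_lit 0) (p (nat_lit 0xb0004) (nat_lit 0) (p (nat_lit 0x100014) (nat_lit 0) (p (nat_lit 0x10000c) (nat_lit 0) (p (nat_lit 0x380c2) (nat_lit 0) (p (nat_lit 0x4c42a) (nat_lit 2) (p (nat_lit 0x109) (nat_lit 0) (p (nat_lit 0x200014) (nat_lit 0) (p (nat_lit 0x20000c) (nat_lit 0) (p (nat_lit 0x119) (nat_lit 0) (p (nat_lit 0x81) (nat_lit 0) (p (nat_lit 0x101) (nat_lit 1) (p (nat_lit 0x111) (nat_lit 0) (p (nat_lit 0xd1) (nat_lit 1) (p (nat_lit 0x89) (nat_lit 0) (p (nat_lit 0x41) (nat_lit 0) (p (nat_lit 0x10a898a08881a) (nat_lit 0) (p (nat_lit 0x8a090988079a) (nat_lit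 0) (p (nat_lit 0x108088907871a) (nat_lit 0) (p (nat_lit 0x87880887069a) (nat_lit 0) (p (nat_lit 0x8000080000000088806860a) (nat_lit 0) (p (nat_lit 0x8000080000000068786058a) (nat_lit 0) (p (nat_lit 0x10687058502) (nat_lit 0) (p (nat_lit 0x8606850482) (nat_lit 0) (p (nat_lit 0x160004) (nat_lit 0) (p (nat_lit 0x68612) (nat_lit 0) (p (nat_lit 0x50592) (nat_lit 0) (p (nat_lit 0x40512) (nat_lit 0) (p (nat_lit 0x50312) (nat_lit 0) (p (nat_lit 0x38292) (nat_lit 0) (p (nat_lit 0x28212) (nat_lit 0) (p (nat_lit 0x38112) (nat_lit 0) (p (nat_lit 0x20092) (nat_lit 0) (p (nat_lit 0x10012) (nat_lit 0) pn)))))))))))))))))))))))))))))))))))))) :=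
  Cl.node (nat_lit 0xa8000c802000000d8d0b8b0a) (nat_lit 1) (by decide +kernel) (ClAll.succ ClAll.zero n47)

def n61 : Cl (O (nat_lit 6)) (R (nat_lit 143633))
    (p (nat_lit 0x8f0e0e8d0c9a) (nat_lit 0) (p (nat_lit 0x10d0d8e0c8c1a) (nat_lit 0) (p (nat_lit 0x8c8d0d8c0b9a) (nat_lit 0) (p (nat_lit 0x2680d2680d000000d8d0b8b0a) (nat_lit 0) (p (nat_lit 0x2680d2680d000000b8c8b0a8a) (nat_lit 0) (p (nat_lit 0xb0004) (nat_lit 1) (p (nat_lit 0x100014) (nat_lit 0) (p (nat_lit 0x200014) (nat_lit 0) (p (nat_lit 0x10000c) (nat_lit 0) (p (nat_lit 0x20000c) (nat_lit 0) (p (nat_lit 0x380c2) (nat_lit 0) (p (nat_lit 0x444aa) (nat_lit 7) (p (nat_lit 0xd1) (nat_lit 1) (p (nat_lit 0x111) (nat_lit 1) (p (nat_lit 0x109) (nat_lit 0) (p (nat_lit 0x101) (nat_lit 0) (p (nat_lit 0x119) (nat_lit 0) (p (nat_lit 0xc9) (nat_lit 0) (p (nat_lit 0x89) (nat_lit 1) (p (nat_lit 0x41) (nat_lit 0) (p (nat_lit 0x10a898a08881a)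 (nat_lit 0) (p (nat_lit 0x8a090988079a) (nat_lit 0) (p (nat_lit 0x108088907871a) (nat_lit 0) (p (nat_lit 0x87880887069a) (nat_lit 0) (p (nat_lit 0x8000080000000088806860a) (nat_lit 0) (p (nat_lit 0x8000080000000068786058a) (nat_lit 0) (p (nat_lit 0x10687058502) (nat_lit 0) (p (nat_lit 0x8606850482) (nat_lit 0) (p (nat_lit 0x160004) (nat_lit 0) (p (nat_lit 0x68612) (nat_lit 0) (p (nat_lit 0x50592) (nat_lit 0) (p (nat_lit 0x40512) (nat_lit 0) (p (nat_lit 0x50312) (nat_lit 0) (p (nat_lit 0x38292) (nat_lit 0) (p (nat_lit 0x28212) (nat_lit 0) (p (nat_lit 0x38112) (nat_lit 0) (p (nat_lit 0x20092) (nat_lit 0) (p (nat_lit 0x10012) (nat_lit 0) pn)))))))))))))))))))))))))))))))))))))) :=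
  Cl.node (nat_lit 0x10f8e8f0d8d1a) (nat_lit 1) (by decide +kernel) (ClAll.succ ClAll.zero n48)

def n62 : Cl (O (nat_lit 6)) (R (nat_lit 143633))
    (p (nat_lit 0x10f8e8f0d8d1a) (nat_lit 0) (p (nat_lit 0x8f0e0e8d0c9a) (nat_lit 0) (p (nat_lit 0x10d0d8e0c8c1a) (nat_lit 0) (p (nat_lit 0x8c8d0d8c0b9a) (nat_lit 0) (p (nat_lit 0x2680d2680d000000d8d0b8b0a) (nat_lit 0) (p (nat_lit 0x2680d2680d000000b8c8b0a8a) (nat_lit 0) (p (nat_lit 0x10000c) (nat_lit 0) (p (nat_lit 0x100014) (nat_lit 0) (p (nat_lit 0x1fc014) (nat_lit 0) (p (nat_lit 0x1fc00c) (nat_lit 0) (p (nat_lit 0xb0004) (nat_lit 1) (p (nat_lit 0x380c2) (nat_lit 0) (p (nat_lit 0x444aa) (nat_lit 7) (p (nat_lit 0xd1) (nat_lit 1) (p (nat_lit 0x109) (nat_lit 1) (p (nat_lit 0x101) (nat_lit 0) (p (nat_lit 0x119) (nat_lit 0) (p (nat_lit 0xc9) (nat_lit 0) (p (nat_lit 0x89) (nat_lit 1) (p (nat_lit 0x41) (nat_lit 0) (p (nat_lit 0x10a898a08881a)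 (nat_lit 0) (p (nat_lit 0x8a090988079a) (nat_lit 0) (p (nat_lit 0x108088907871a) (nat_lit 0) (p (nat_lit 0x87880887069a) (nat_lit 0) (p (nat_lit 0x8000080000000088806860a) (nat_lit 0) (p (nat_lit 0x8000080000000068786058a) (nat_lit 0) (p (nat_lit 0x10687058502) (nat_lit 0) (p (nat_lit 0x8606850482) (nat_lit 0) (p (nat_lit 0x160004) (nat_lit 0) (p (nat_lit 0x68612) (nat_lit 0) (p (nat_lit 0x50592) (nat_lit 0) (p (nat_lit 0x40512) (nat_lit 0) (p (nat_lit 0x50312) (nat_lit 0) (p (nat_lit 0x38292) (nat_lit 0) (p (nat_lit 0x28212) (nat_lit 0) (p (nat_lit 0x38112) (nat_lit 0) (p (nat_lit 0x20092) (nat_lit 0) (p (nat_lit 0x10012) (nat_lit 0) pn)))))))))))))))))))))))))))))))))))))) :=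
  Cl.node (nat_lit 0xc1) (nat_lit 2) (by decide +kernel) (ClAll.succ (ClAll.succ ClAll.zero n49) s759)

def n63 : Cl (O (nat_lit 6)) (R (nat_lit 143633))
    (p (nat_lit 0x10d0d8e0c8c1a) (nat_lit 0) (p (nat_lit 0x8c8d0d8c0b9a) (nat_lit 0) (p (nat_lit 0x2680d2a825800000d8d0b8b0a) (nat_lit 0) (p (nat_lit 0x2680d2a825800000b8c8b0a8a) (nat_lit 0) (p (nat_lit 0x100014) (nat_lit 0) (p (nat_lit 0x108004) (nat_lit 0) (p (nat_lit 0xb0004) (nat_lit 1) (p (nat_lit 0x41) (nat_lit 1) (p (nat_lit 0x380c2) (nat_lit 0) (p (nat_lit 0x44c2a) (nat_lit 0) (p (nat_lit 0x109) (nat_lit 1) (p (nat_lit 0x200014) (nat_lit 0) (p (nat_lit 0x20000c) (nat_lit 0) (p (nat_lit 0xd1) (nat_lit 0) (p (nat_lit 0xc1) (nat_lit 0) (p (nat_lit 0x101) (nat_lit 1) (p (nat_lit 0x119) (nat_lit 0) (p (nat_lit 0xc9) (nat_lit 0) (p (nat_lit 0x89) (nat_lit 1) (p (nat_lit 0x41) (nat_lit 0) (p (nat_lit 0x10a898a08881a) (nat_lit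 0) (p (nat_lit 0x8a090988079a) (nat_lit 0) (p (nat_lit 0x108088907871a) (nat_lit 0) (p (nat_lit 0x87880887069a) (nat_lit 0) (p (nat_lit 0x8000080000000088806860a) (nat_lit 0) (p (nat_lit 0x8000080000000068786058a) (nat_lit 0) (p (nat_lit 0x10687058502) (nat_lit 0) (p (nat_lit 0x8606850482) (nat_lit 0) (p (nat_lit 0x160004) (nat_lit 0) (p (nat_lit 0x68612) (nat_lit 0) (p (nat_lit 0x50592) (nat_lit 0) (p (nat_lit 0x40512) (nat_lit 0) (p (nat_lit 0x50312) (nat_lit 0) (p (nat_lit 0x38292) (nat_lit 0) (p (nat_lit 0x28212) (nat_lit 0) (p (nat_lit 0x38112) (nat_lit 0) (p (nat_lit 0x20092) (nat_lit 0) (p (nat_lit 0x10012) (nat_lit 0) pn)))))))))))))))))))))))))))))))))))))) :=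
  Cl.node (nat_lit 0x8f0e0e8d0c9a) (nat_lit 1) (by decide +kernel) (ClAll.succ ClAll.zero n50)

def n64 : Cl (O (nat_lit 6)) (R (nat_lit 143633))
    (p (nat_lit 0x8c8d0d8c0b9a) (nat_lit 0) (p (nat_lit 0x228012680d000000d8d0b8b0a) (nat_lit 0) (p (nat_lit 0x228012680d000000b8c8b0a8a) (nat_lit 0) (p (nat_lit 0x40014) (nat_lit 0) (p (nat_lit 0x80014) (nat_lit 0) (p (nat_lit 0x100014) (nat_lit 0) (p (nat_lit 0x10000c) (nat_lit 0) (p (nat_lit 0x1fc014) (nat_lit 0) (p (nat_lit 0x1fc00c) (nat_lit 0) (p (nat_lit 0xb0004) (nat_lit 1) (p (nat_lit 0x380c2) (nat_lit 0) (p (nat_lit 0x3c4aa) (nat_lit 7) (p (nat_lit 0xd1) (nat_lit 1) (p (nat_lit 0x111) (nat_lit 1) (p (nat_lit 0x109) (nat_lit 0) (p (nat_lit 0x101) (nat_lit 0) (p (nat_lit 0x119) (nat_lit 0) (p (nat_lit 0xc1) (nat_lit 0) (p (nat_lit 0x81) (nat_lit 1) (p (nat_lit 0x41) (nat_lit 1) (p (nat_lit 0x10a898a08881a) (nat_lit 0) (p (nat_lit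 0x8a090988079a) (nat_lit 0) (p (nat_lit 0x108088907871a) (nat_lit 0) (p (nat_lit 0x87880887069a) (nat_lit 0) (p (nat_lit 0x8000080000000088806860a) (nat_lit 0) (p (nat_lit 0x8000080000000068786058a) (nat_lit 0) (p (nat_lit 0x10687058502) (nat_lit 0) (p (nat_lit 0x8606850482) (nat_lit 0) (p (nat_lit 0x160004) (nat_lit 0) (p (nat_lit 0x68612) (nat_lit 0) (p (nat_lit 0x50592) (nat_lit 0) (p (nat_lit 0x40512) (nat_lit 0) (p (nat_lit 0x50312) (nat_lit 0) (p (nat_lit 0x38292) (nat_lit 0) (p (nat_lit 0x28212) (nat_lit 0) (p (nat_lit 0x38112) (nat_lit 0) (p (nat_lit 0x20092) (nat_lit 0) (p (nat_lit 0x10012) (nat_lit 0) pn)))))))))))))))))))))))))))))))))))))) :=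
  Cl.node (nat_lit 0x10d0d8e0c8c1a) (nat_lit 1) (by decide +kernel) (ClAll.succ ClAll.zero n51)

def n65 : Cl (O (nat_lit 6)) (R (nat_lit 143633))
    (p (nat_lit 0x24800a6803800000b8c8b0a8a) (nat_lit 0) (p (nat_lit 0x20014) (nat_lit 0) (p (nat_lit 0x8000c) (nat_lit 0) (p (nat_lit 0x40014) (nat_lit 0) (p (nat_lit 0x80014) (nat_lit 0) (p (nat_lit 0x100014) (nat_lit 0) (p (nat_lit 0x10000c) (nat_lit 0) (p (nat_lit 0x1fc014) (nat_lit 0) (p (nat_lit 0x1fc00c) (nat_lit 0) (p (nat_lit 0xb0004) (nat_lit 1) (p (nat_lit 0x380c2) (nat_lit 1) (p (nat_lit 0x3c4aa) (nat_lit 7) (p (nat_lit 0xd1) (nat_lit 1) (p (nat_lit 0x111) (nat_lit 1) (p (nat_lit 0x109) (nat_lit 0) (p (nat_lit 0x101) (nat_lit 0) (p (nat_lit 0x119) (nat_lit 0) (p (nat_lit 0xc1) (nat_lit 0) (p (nat_lit 0x81) (nat_lit 1) (p (nat_lit 0x41) (nat_lit 1) (p (nat_lit 0x10a898a08881a) (nat_lit 0) (p (nat_lit 0x8a090988079a) (nat_lit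 0) (p (nat_lit 0x108088907871a) (nat_lit 0) (p (nat_lit 0x87880887069a) (nat_lit 0) (p (nat_lit 0x8000080000000088806860a) (nat_lit 0) (p (nat_lit 0x8000080000000068786058a) (nat_lit 0) (p (nat_lit 0x10687058502) (nat_lit 0) (p (nat_lit 0x8606850482) (nat_lit 0) (p (nat_lit 0x160004) (nat_lit 0) (p (nat_lit 0x68612) (nat_lit 0) (p (nat_lit 0x50592) (nat_lit 0) (p (nat_lit 0x40512) (nat_lit 0) (p (nat_lit 0x50312) (nat_lit 0) (p (nat_lit 0x38292) (nat_lit 0) (p (nat_lit 0x28212) (nat_lit 0) (p (nat_lit 0x38112) (nat_lit 0) (p (nat_lit 0x20092) (nat_lit 0) (p (nat_lit 0x10012) (nat_lit 0) pn)))))))))))))))))))))))))))))))))))))) :=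
  Cl.node (nat_lit 0x24800a6803800000d8d0b8b0a) (nat_lit 1) (by decide +kernel) (ClAll.succ ClAll.zero n52)

def n66 : Cl (O (nat_lit 6)) (R (nat_lit 143633))
    (p (nat_lit 0x10d0d8e0c8c1a) (nat_lit 0) (p (nat_lit 0x8c8d0d8c0b9a) (nat_lit 0) (p (nat_lit 0x228012680d000000d8d0b8b0a) (nat_lit 0) (p (nat_lit 0x228012680d000000b8c8b0a8a) (nat_lit 0) (p (nat_lit 0x40014) (nat_lit 0) (p (nat_lit 0x80014) (nat_lit 0) (p (nat_lit 0x100014) (nat_lit 0) (p (nat_lit 0x10000c) (nat_lit 0) (p (nat_lit 0x1fc014) (nat_lit 0) (p (nat_lit 0x1fc00c) (nat_lit 0) (p (nat_lit 0xb0004) (nat_lit 1) (p (nat_lit 0x380c2) (nat_lit 0) (p (nat_lit 0x3c4aa) (nat_lit 7) (p (nat_lit 0xd1) (nat_lit 1) (p (nat_lit 0xc9) (nat_lit 0) (p (nat_lit 0x101) (nat_lit 1) (p (nat_lit 0x119) (nat_lit 0) (p (nat_lit 0xc1) (nat_lit 0) (p (nat_lit 0x81) (nat_lit 1) (p (nat_lit 0x41) (nat_lit 1) (p (nat_lit 0x10a898a08881a)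 (nat_lit 0) (p (nat_lit 0x8a090988079a) (nat_lit 0) (p (nat_lit 0x108088907871a) (nat_lit 0) (p (nat_lit 0x87880887069a) (nat_lit 0) (p (nat_lit 0x8000080000000088806860a) (nat_lit 0) (p (nat_lit 0x8000080000000068786058a) (nat_lit 0) (p (nat_lit 0x10687058502) (nat_lit 0) (p (nat_lit 0x8606850482) (nat_lit 0) (p (nat_lit 0x160004) (nat_lit 0) (p (nat_lit 0x68612) (nat_lit 0) (p (nat_lit 0x50592) (nat_lit 0) (p (nat_lit 0x40512) (nat_lit 0) (p (nat_lit 0x50312) (nat_lit 0) (p (nat_lit 0x38292) (nat_lit 0) (p (nat_lit 0x28212) (nat_lit 0) (p (nat_lit 0x38112) (nat_lit 0) (p (nat_lit 0x20092) (nat_lit 0) (p (nat_lit 0x10012) (nat_lit 0) pn)))))))))))))))))))))))))))))))))))))) :=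
  Cl.node (nat_lit 0x8f0e0e8d0c9a) (nat_lit 1) (by decide +kernel) (ClAll.succ ClAll.zero n53)

def n67 : Cl (O (nat_lit 6)) (R (nat_lit 143633))
    (p (nat_lit 0x8f0e0e8d0c9a) (nat_lit 0) (p (nat_lit 0x10d0d8e0c8c1a) (nat_lit 0) (p (nat_lit 0x8c8d0d8c0b9a) (nat_lit 0) (p (nat_lit 0x2680d2680d000000d8d0b8b0a) (nat_lit 0) (p (nat_lit 0x2680d2680d000000b8c8b0a8a) (nat_lit 0) (p (nat_lit 0x108004) (nat_lit 0) (p (nat_lit 0x100014) (nat_lit 0) (p (nat_lit 0x10000c) (nat_lit 0) (p (nat_lit 0x1fc014) (nat_lit 0) (p (nat_lit 0x1fc00c) (nat_lit 0) (p (nat_lit 0xb0004) (nat_lit 1) (p (nat_lit 0x380c2) (nat_lit 0) (p (nat_lit 0x3c4aa) (nat_lit 7) (p (nat_lit 0x111) (nat_lit 1) (p (nat_lit 0xd1) (nat_lit 1) (p (nat_lit 0xc9) (nat_lit 0) (p (nat_lit 0x119) (nat_lit 1) (p (nat_lit 0xc1) (nat_lit 0) (p (nat_lit 0x81) (nat_lit 1) (p (nat_lit 0x41) (nat_lit 1) (p (nat_lit 0x10a898a08881a) (nat_lit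 0) (p (nat_lit 0x8a090988079a) (nat_lit 0) (p (nat_lit 0x108088907871a) (nat_lit 0) (p (nat_lit 0x87880887069a) (nat_lit 0) (p (nat_lit 0x8000080000000088806860a) (nat_lit 0) (p (nat_lit 0x8000080000000068786058a) (nat_lit 0) (p (nat_lit 0x10687058502) (nat_lit 0) (p (nat_lit 0x8606850482) (nat_lit 0) (p (nat_lit 0x160004) (nat_lit 0) (p (nat_lit 0x68612) (nat_lit 0) (p (nat_lit 0x50592) (nat_lit 0) (p (nat_lit 0x40512) (nat_lit 0) (p (nat_lit 0x50312) (nat_lit 0) (p (nat_lit 0x38292) (nat_lit 0) (p (nat_lit 0x28212) (nat_lit 0) (p (nat_lit 0x38112) (nat_lit 0) (p (nat_lit 0x20092) (nat_lit 0) (p (nat_lit 0x10012) (nat_lit 0) pn)))))))))))))))))))))))))))))))))))))) :=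
  Cl.node (nat_lit 0x10f8e8f0d8d1a) (nat_lit 1) (by decide +kernel) (ClAll.succ ClAll.zero n54)

def n68 : Cl (O (nat_lit 6)) (R (nat_lit 143633))
    (p (nat_lit 0x10d0d8e0c8c1a) (nat_lit 0) (p (nat_lit 0x8c8d0d8c0b9a) (nat_lit 0) (p (nat_lit 0x2680d2680d000000d8d0b8b0a) (nat_lit 0) (p (nat_lit 0x2680d2680d000000b8c8b0a8a) (nat_lit 0) (p (nat_lit 0x10000c) (nat_lit 0) (p (nat_lit 0x100014) (nat_lit 0) (p (nat_lit 0x1fc014) (nat_lit 0) (p (nat_lit 0x1fc00c) (nat_lit 0) (p (nat_lit 0xb0004) (nat_lit 1) (p (nat_lit 0x380c2) (nat_lit 1) (p (nat_lit 0x444aa) (nat_lit 7) (p (nat_lit 0x81) (nat_lit 1) (p (nat_lit 0xc9) (nat_lit 1) (p (nat_lit 0x109) (nat_lit 1) (p (nat_lit 0x101) (nat_lit 0) (p (nat_lit 0x119) (nat_lit 0) (p (nat_lit 0xd1) (nat_lit 0) (p (nat_lit 0x89) (nat_lit 0) (p (nat_lit 0x41) (nat_lit 0) (p (nat_lit 0x10a898a08881a) (nat_lit 0) (p (nat_lit 0x8a090988079a) (nat_lit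 0) (p (nat_lit 0x108088907871a) (nat_lit 0) (p (nat_lit 0x87880887069a) (nat_lit 0) (p (nat_lit 0x8000080000000088806860a) (nat_lit 0) (p (nat_lit 0x8000080000000068786058a) (nat_lit 0) (p (nat_lit 0x10687058502) (nat_lit 0) (p (nat_lit 0x8606850482) (nat_lit 0) (p (nat_lit 0x160004) (nat_lit 0) (p (nat_lit 0x68612) (nat_lit 0) (p (nat_lit 0x50592) (nat_lit 0) (p (nat_lit 0x40512) (nat_lit 0) (p (nat_lit 0x50312) (nat_lit 0) (p (nat_lit 0x38292) (nat_lit 0) (p (nat_lit 0x28212) (nat_lit 0) (p (nat_lit 0x38112) (nat_lit 0) (p (nat_lit 0x20092) (nat_lit 0) (p (nat_lit 0x10012) (nat_lit 0) pn))))))))))))))))))))))))))))))))))))) :=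
  Cl.node (nat_lit 0x8f0e0e8d0c9a) (nat_lit 1) (by decide +kernel) (ClAll.succ ClAll.zero n55)

def n69 : Cl (O (nat_lit 6)) (R (nat_lit 143633))
    (p (nat_lit 0x10d0d8e0c8c1a) (nat_lit 0) (p (nat_lit 0x8c8d0d8c0b9a) (nat_lit 0) (p (nat_lit 0x2680d2680d000000d8d0b8b0a) (nat_lit 0) (p (nat_lit 0x2680d2680d000000b8c8b0a8a) (nat_lit 0) (p (nat_lit 0x100014) (nat_lit 0) (p (nat_lit 0x10000c) (nat_lit 0) (p (nat_lit 0x1fc014) (nat_lit 0) (p (nat_lit 0x1fc00c) (nat_lit 0) (p (nat_lit 0xb0004) (nat_lit 1) (p (nat_lit 0x380c2) (nat_lit 0) (p (nat_lit 0x4c42a) (nat_lit 2) (p (nat_lit 0x111) (nat_lit 0) (p (nat_lit 0xc9) (nat_lit 0) (p (nat_lit 0x81) (nat_lit 0) (p (nat_lit 0x101) (nat_lit 1) (p (nat_lit 0x119) (nat_lit 0) (p (nat_lit 0xd1) (nat_lit 0) (p (nat_lit 0x89) (nat_lit 0) (p (nat_lit 0x41) (nat_lit 0) (p (nat_lit 0x10a898a08881a) (nat_lit 0) (p (nat_lit 0x8a090988079a) (nat_lit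 0) (p (nat_lit 0x108088907871a) (nat_lit 0) (p (nat_lit 0x87880887069a) (nat_lit 0) (p (nat_lit 0x8000080000000088806860a) (nat_lit 0) (p (nat_lit 0x8000080000000068786058a) (nat_lit 0) (p (nat_lit 0x10687058502) (nat_lit 0) (p (nat_lit 0x8606850482) (nat_lit 0) (p (nat_lit 0x160004) (nat_lit 0) (p (nat_lit 0x68612) (nat_lit 0) (p (nat_lit 0x50592) (nat_lit 0) (p (nat_lit 0x40512) (nat_lit 0) (p (nat_lit 0x50312) (nat_lit 0) (p (nat_lit 0x38292) (nat_lit 0) (p (nat_lit 0x28212) (nat_lit 0) (p (nat_lit 0x38112) (nat_lit 0) (p (nat_lit 0x20092) (nat_lit 0) (p (nat_lit 0x10012) (nat_lit 0) pn))))))))))))))))))))))))))))))))))))) :=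
  Cl.node (nat_lit 0x8f0e0e8d0c9a) (nat_lit 1) (by decide +kernel) (ClAll.succ ClAll.zero n56)

def n70 : Cl (O (nat_lit 6)) (R (nat_lit 143633))
    (p (nat_lit 0x10d0d8e0c8c1a) (nat_lit 0) (p (nat_lit 0x8c8d0d8c0b9a) (nat_lit 0) (p (nat_lit 0x2680d2680d000000d8d0b8b0a) (nat_lit 0) (p (nat_lit 0x2680d2680d000000b8c8b0a8a) (nat_lit 0) (p (nat_lit 0x10000c) (nat_lit 0) (p (nat_lit 0x100014) (nat_lit 0) (p (nat_lit 0x1fc014) (nat_lit 0) (p (nat_lit 0x1fc00c) (nat_lit 0) (p (nat_lit 0xb0004) (nat_lit 1) (p (nat_lit 0x380c2) (nat_lit 1) (p (nat_lit 0x444aa) (nat_lit 7) (p (nat_lit 0x111) (nat_lit 0) (p (nat_lit 0xc9) (nat_lit 1) (p (nat_lit 0x81) (nat_lit 0) (p (nat_lit 0x101) (nat_lit 1) (p (nat_lit 0x119) (nat_lit 0) (p (nat_lit 0xd1) (nat_lit 0) (p (nat_lit 0x89) (nat_lit 0) (p (nat_lit 0x41) (nat_lit 0) (p (nat_lit 0x10a898a08881a) (nat_lit 0) (p (nat_lit 0x8a090988079a) (nat_lit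 0) (p (nat_lit 0x108088907871a) (nat_lit 0) (p (nat_lit 0x87880887069a) (nat_lit 0) (p (nat_lit 0x8000080000000088806860a) (nat_lit 0) (p (nat_lit 0x8000080000000068786058a) (nat_lit 0) (p (nat_lit 0x10687058502) (nat_lit 0) (p (nat_lit 0x8606850482) (nat_lit 0) (p (nat_lit 0x160004) (nat_lit 0) (p (nat_lit 0x68612) (nat_lit 0) (p (nat_lit 0x50592) (nat_lit 0) (p (nat_lit 0x40512) (nat_lit 0) (p (nat_lit 0x50312) (nat_lit 0) (p (nat_lit 0x38292) (nat_lit 0) (p (nat_lit 0x28212) (nat_lit 0) (p (nat_lit 0x38112) (nat_lit 0) (p (nat_lit 0x20092) (nat_lit 0) (p (nat_lit 0x10012) (nat_lit 0) pn))))))))))))))))))))))))))))))))))))) :=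
  Cl.node (nat_lit 0x8f0e0e8d0c9a) (nat_lit 1) (by decide +kernel) (ClAll.succ ClAll.zero n57)

def n71 : Cl (O (nat_lit 6)) (R (nat_lit 143633))
    (p (nat_lit 0x10d0d8e0c8c1a) (nat_lit 0) (p (nat_lit 0x8c8d0d8c0b9a) (nat_lit 0) (p (nat_lit 0x2680d2680d000000d8d0b8b0a) (nat_lit 0) (p (nat_lit 0x2680d2680d000000b8c8b0a8a) (nat_lit 0) (p (nat_lit 0x100014) (nat_lit 0) (p (nat_lit 0x10000c) (nat_lit 0) (p (nat_lit 0x1fc014) (nat_lit 0) (p (nat_lit 0x1fc00c) (nat_lit 0) (p (nat_lit 0xb0004) (nat_lit 1) (p (nat_lit 0x380c2) (nat_lit 0) (p (nat_lit 0x4c42a) (nat_lit 2) (p (nat_lit 0xc9) (nat_lit 0) (p (nat_lit 0xc1) (nat_lit 0) (p (nat_lit 0x81) (nat_lit 1) (p (nat_lit 0x101) (nat_lit 1) (p (nat_lit 0x119) (nat_lit 0) (p (nat_lit 0xd1) (nat_lit 0) (p (nat_lit 0x89) (nat_lit 0) (p (nat_lit 0x41) (nat_lit 0) (p (nat_lit 0x10a898a08881a) (nat_lit 0) (p (nat_lit 0x8a090988079a) (nat_lit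 0) (p (nat_lit 0x108088907871a) (nat_lit 0) (p (nat_lit 0x87880887069a) (nat_lit 0) (p (nat_lit 0x8000080000000088806860a) (nat_lit 0) (p (nat_lit 0x8000080000000068786058a) (nat_lit 0) (p (nat_lit 0x10687058502) (nat_lit 0) (p (nat_lit 0x8606850482) (nat_lit 0) (p (nat_lit 0x160004) (nat_lit 0) (p (nat_lit 0x68612) (nat_lit 0) (p (nat_lit 0x50592) (nat_lit 0) (p (nat_lit 0x40512) (nat_lit 0) (p (nat_lit 0x50312) (nat_lit 0) (p (nat_lit 0x38292) (nat_lit 0) (p (nat_lit 0x28212) (nat_lit 0) (p (nat_lit 0x38112) (nat_lit 0) (p (nat_lit 0x20092) (nat_lit 0) (p (nat_lit 0x10012) (nat_lit 0) pn))))))))))))))))))))))))))))))))))))) :=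
  Cl.node (nat_lit 0x8f0e0e8d0c9a) (nat_lit 1) (by decide +kernel) (ClAll.succ ClAll.zero n58)

def n72 : Cl (O (nat_lit 6)) (R (nat_lit 143633))
    (p (nat_lit 0x10d0d8e0c8c1a) (nat_lit 0) (p (nat_lit 0x8c8d0d8c0b9a) (nat_lit 0) (p (nat_lit 0x2680d2680d000000d8d0b8b0a) (nat_lit 0) (p (nat_lit 0x2680d2680d000000b8c8b0a8a) (nat_lit 0) (p (nat_lit 0x100014) (nat_lit 0) (p (nat_lit 0x10000c) (nat_lit 0) (p (nat_lit 0x1fc014) (nat_lit 0) (p (nat_lit 0x1fc00c) (nat_lit 0) (p (nat_lit 0xb0004) (nat_lit 1) (p (nat_lit 0x380c2) (nat_lit 1) (p (nat_lit 0x444aa) (nat_lit 7) (p (nat_lit 0x109) (nat_lit 1) (p (nat_lit 0x101) (nat_lit 0) (p (nat_lit 0x81) (nat_lit 1) (p (nat_lit 0xc1) (nat_lit 1) (p (nat_lit 0x119) (nat_lit 1) (p (nat_lit 0xd1) (nat_lit 0) (p (nat_lit 0x89) (nat_lit 0) (p (nat_lit 0x41) (nat_lit 0) (p (nat_lit 0x10a898a08881a) (nat_lit 0) (p (nat_lit 0x8a090988079a) (nat_lit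 0) (p (nat_lit 0x108088907871a) (nat_lit 0) (p (nat_lit 0x87880887069a) (nat_lit 0) (p (nat_lit 0x8000080000000088806860a) (nat_lit 0) (p (nat_lit 0x8000080000000068786058a) (nat_lit 0) (p (nat_lit 0x10687058502) (nat_lit 0) (p (nat_lit 0x8606850482) (nat_lit 0) (p (nat_lit 0x160004) (nat_lit 0) (p (nat_lit 0x68612) (nat_lit 0) (p (nat_lit 0x50592) (nat_lit 0) (p (nat_lit 0x40512) (nat_lit 0) (p (nat_lit 0x50312) (nat_lit 0) (p (nat_lit 0x38292) (nat_lit 0) (p (nat_lit 0x28212) (nat_lit 0) (p (nat_lit 0x38112) (nat_lit 0) (p (nat_lit 0x20092) (nat_lit 0) (p (nat_lit 0x10012) (nat_lit 0) pn))))))))))))))))))))))))))))))))))))) :=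
  Cl.node (nat_lit 0x8f0e0e8d0c9a) (nat_lit 1) (by decide +kernel) (ClAll.succ ClAll.zero n59)

def n73 : Cl (O (nat_lit 6)) (R (nat_lit 143633))
    (p (nat_lit 0x58004) (nat_lit 1) (p (nat_lit 0x40014) (nat_lit 0) (p (nat_lit 0x109) (nat_lit 1) (p (nat_lit 0x80014) (nat_lit 0) (p (nat_lit 0xb0004) (nat_lit 0) (p (nat_lit 0x100014) (nat_lit 0) (p (nat_lit 0x10000c) (nat_lit 0) (p (nat_lit 0x380c2) (nat_lit 0) (p (nat_lit 0x4c42a) (nat_lit 2) (p (nat_lit 0x109) (nat_lit 0) (p (nat_lit 0x200014) (nat_lit 0) (p (nat_lit 0x20000c) (nat_lit 0) (p (nat_lit 0x119) (nat_lit 0) (p (nat_lit 0x81) (nat_lit 0) (p (nat_lit 0x101) (nat_lit 1) (p (nat_lit 0x111) (nat_lit 0) (p (nat_lit 0xd1) (nat_lit 1) (p (nat_lit 0x89) (nat_lit 0) (p (nat_lit 0x41) (nat_lit 0) (p (nat_lit 0x10a898a08881a) (nat_lit 0) (p (nat_lit 0x8a090988079a) (nat_lit 0) (p (nat_lit 0x108088907871a) (nat_lit 0) (p (nat_lit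 0x87880887069a) (nat_lit 0) (p (nat_lit 0x8000080000000088806860a) (nat_lit 0) (p (nat_lit 0x8000080000000068786058a) (nat_lit 0) (p (nat_lit 0x10687058502) (nat_lit 0) (p (nat_lit 0x8606850482) (nat_lit 0) (p (nat_lit 0x160004) (nat_lit 0) (p (nat_lit 0x68612) (nat_lit 0) (p (nat_lit 0x50592) (nat_lit 0) (p (nat_lit 0x40512) (nat_lit 0) (p (nat_lit 0x50312) (nat_lit 0) (p (nat_lit 0x38292) (nat_lit 0) (p (nat_lit 0x28212) (nat_lit 0) (p (nat_lit 0x38112) (nat_lit 0) (p (nat_lit 0x20092) (nat_lit 0) (p (nat_lit 0x10012) (nat_lit 0) pn))))))))))))))))))))))))))))))))))))) :=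
  Cl.node (nat_lit 0xa8000c802000000b8c8b0a8a) (nat_lit 1) (by decide +kernel) (ClAll.succ ClAll.zero n60)

def n74 : Cl (O (nat_lit 6)) (R (nat_lit 143633))
    (p (nat_lit 0x10d0d8e0c8c1a) (nat_lit 0) (p (nat_lit 0x8c8d0d8c0b9a) (nat_lit 0) (p (nat_lit 0x2680d2680d000000d8d0b8b0a) (nat_lit 0) (p (nat_lit 0x2680d2680d000000b8c8b0a8a) (nat_lit 0) (p (nat_lit 0xb0004) (nat_lit 1) (p (nat_lit 0x100014) (nat_lit 0) (p (nat_lit 0x200014) (nat_lit 0) (p (nat_lit 0x10000c) (nat_lit 0) (p (nat_lit 0x20000c) (nat_lit 0) (p (nat_lit 0x380c2) (nat_lit 0) (p (nat_lit 0x444aa) (nat_lit 7) (p (nat_lit 0xd1) (nat_lit 1) (p (nat_lit 0x111) (nat_lit 1) (p (nat_lit 0x109) (nat_lit 0) (p (nat_lit 0x101) (nat_lit 0) (p (nat_lit 0x119) (nat_lit 0) (p (nat_lit 0xc9) (nat_lit 0) (p (nat_lit 0x89) (nat_lit 1) (p (nat_lit 0x41) (nat_lit 0) (p (nat_lit 0x10a898a08881a) (nat_lit 0) (p (nat_lit 0x8a090988079a)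 (nat_lit 0) (p (nat_lit 0x108088907871a) (nat_lit 0) (p (nat_lit 0x87880887069a) (nat_lit 0) (p (nat_lit 0x8000080000000088806860a) (nat_lit 0) (p (nat_lit 0x8000080000000068786058a) (nat_lit 0) (p (nat_lit 0x10687058502) (nat_lit 0) (p (nat_lit 0x8606850482) (nat_lit 0) (p (nat_lit 0x160004) (nat_lit 0) (p (nat_lit 0x68612) (nat_lit 0) (p (nat_lit 0x50592) (nat_lit 0) (p (nat_lit 0x40512) (nat_lit 0) (p (nat_lit 0x50312) (nat_lit 0) (p (nat_lit 0x38292) (nat_lit 0) (p (nat_lit 0x28212) (nat_lit 0) (p (nat_lit 0x38112) (nat_lit 0) (p (nat_lit 0x20092) (nat_lit 0) (p (nat_lit 0x10012) (nat_lit 0) pn))))))))))))))))))))))))))))))))))))) :=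
  Cl.node (nat_lit 0x8f0e0e8d0c9a) (nat_lit 1) (by decide +kernel) (ClAll.succ ClAll.zero n61)

def n75 : Cl (O (nat_lit 6)) (R (nat_lit 143633))
    (p (nat_lit 0x8f0e0e8d0c9a) (nat_lit 0) (p (nat_lit 0x10d0d8e0c8c1a) (nat_lit 0) (p (nat_lit 0x8c8d0d8c0b9a) (nat_lit 0) (p (nat_lit 0x2680d2680d000000d8d0b8b0a) (nat_lit 0) (p (nat_lit 0x2680d2680d000000b8c8b0a8a) (nat_lit 0) (p (nat_lit 0x10000c) (nat_lit 0) (p (nat_lit 0x100014) (nat_lit 0) (p (nat_lit 0x1fc014) (nat_lit 0) (p (nat_lit 0x1fc00c) (nat_lit 0) (p (nat_lit 0xb0004) (nat_lit 1) (p (nat_lit 0x380c2) (nat_lit 0) (p (nat_lit 0x444aa) (nat_lit 7) (p (nat_lit 0xd1) (nat_lit 1) (p (nat_lit 0x109) (nat_lit 1) (p (nat_lit 0x101) (nat_lit 0) (p (nat_lit 0x119) (nat_lit 0) (p (nat_lit 0xc9) (nat_lit 0) (p (nat_lit 0x89) (nat_lit 1) (p (nat_lit 0x41) (nat_lit 0) (p (nat_lit 0x10a898a08881a) (nat_lit 0) (p (nat_lit 0x8a090988079a)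 (nat_lit 0) (p (nat_lit 0x108088907871a) (nat_lit 0) (p (nat_lit 0x87880887069a) (nat_lit 0) (p (nat_lit 0x8000080000000088806860a) (nat_lit 0) (p (nat_lit 0x8000080000000068786058a) (nat_lit 0) (p (nat_lit 0x10687058502) (nat_lit 0) (p (nat_lit 0x8606850482) (nat_lit 0) (p (nat_lit 0x160004) (nat_lit 0) (p (nat_lit 0x68612) (nat_lit 0) (p (nat_lit 0x50592) (nat_lit 0) (p (nat_lit 0x40512) (nat_lit 0) (p (nat_lit 0x50312) (nat_lit 0) (p (nat_lit 0x38292) (nat_lit 0) (p (nat_lit 0x28212) (nat_lit 0) (p (nat_lit 0x38112) (nat_lit 0) (p (nat_lit 0x20092) (nat_lit 0) (p (nat_lit 0x10012) (nat_lit 0) pn))))))))))))))))))))))))))))))))))))) :=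
  Cl.node (nat_lit 0x10f8e8f0d8d1a) (nat_lit 1) (by decide +kernel) (ClAll.succ ClAll.zero n62)

def n76 : Cl (O (nat_lit 6)) (R (nat_lit 143633))
    (p (nat_lit 0x8c8d0d8c0b9a) (nat_lit 0) (p (nat_lit 0x2680d2a825800000d8d0b8b0a) (nat_lit 0) (p (nat_lit 0x2680d2a825800000b8c8b0a8a) (nat_lit 0) (p (nat_lit 0x100014) (nat_lit 0) (p (nat_lit 0x108004) (nat_lit 0) (p (nat_lit 0xb0004) (nat_lit 1) (p (nat_lit 0x41) (nat_lit 1) (p (nat_lit 0x380c2) (nat_lit 0) (p (nat_lit 0x44c2a) (nat_lit 0) (p (nat_lit 0x109) (nat_lit 1) (p (nat_lit 0x200014) (nat_lit 0) (p (nat_lit 0x20000c) (nat_lit 0) (p (nat_lit 0xd1) (nat_lit 0) (p (nat_lit 0xc1) (nat_lit 0) (p (nat_lit 0x101) (nat_lit 1) (p (nat_lit 0x119) (nat_lit 0) (p (nat_lit 0xc9) (nat_lit 0) (p (nat_lit 0x89) (nat_lit 1) (p (nat_lit 0x41) (nat_lit 0) (p (nat_lit 0x10a898a08881a) (nat_lit 0) (p (nat_lit 0x8a090988079a) (nat_lit 0) (p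 (nat_lit 0x108088907871a) (nat_lit 0) (p (nat_lit 0x87880887069a) (nat_lit 0) (p (nat_lit 0x8000080000000088806860a) (nat_lit 0) (p (nat_lit 0x8000080000000068786058a) (nat_lit 0) (p (nat_lit 0x10687058502) (nat_lit 0) (p (nat_lit 0x8606850482) (nat_lit 0) (p (nat_lit 0x160004) (nat_lit 0) (p (nat_lit 0x68612) (nat_lit 0) (p (nat_lit 0x50592) (nat_lit 0) (p (nat_lit 0x40512) (nat_lit 0) (p (nat_lit 0x50312) (nat_lit 0) (p (nat_lit 0x38292) (nat_lit 0) (p (nat_lit 0x28212) (nat_lit 0) (p (nat_lit 0x38112) (nat_lit 0) (p (nat_lit 0x20092) (nat_lit 0) (p (nat_lit 0x10012) (nat_lit 0) pn))))))))))))))))))))))))))))))))))))) :=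
  Cl.node (nat_lit 0x10d0d8e0c8c1a) (nat_lit 1) (by decide +kernel) (ClAll.succ ClAll.zero n63)

def n77 : Cl (O (nat_lit 6)) (R (nat_lit 143633))
    (p (nat_lit 0x228012680d000000d8d0b8b0a) (nat_lit 0) (p (nat_lit 0x228012680d000000b8c8b0a8a) (nat_lit 0) (p (nat_lit 0x40014) (nat_lit 0) (p (nat_lit 0x80014) (nat_lit 0) (p (nat_lit 0x100014) (nat_lit 0) (p (nat_lit 0x10000c) (nat_lit 0) (p (nat_lit 0x1fc014) (nat_lit 0) (p (nat_lit 0x1fc00c) (nat_lit 0) (p (nat_lit 0xb0004) (nat_lit 1) (p (nat_lit 0x380c2) (nat_lit 0) (p (nat_lit 0x3c4aa) (nat_lit 7) (p (nat_lit 0xd1) (nat_lit 1) (p (nat_lit 0x111) (nat_lit 1) (p (nat_lit 0x109) (nat_lit 0) (p (nat_lit 0x101) (nat_lit 0) (p (nat_lit 0x119) (nat_lit 0) (p (nat_lit 0xc1) (nat_lit 0) (p (nat_lit 0x81) (nat_lit 1) (p (nat_lit 0x41) (nat_lit 1) (p (nat_lit 0x10a898a08881a) (nat_lit 0) (p (nat_lit 0x8a090988079a) (nat_lit 0) (p (nat_lit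 0x108088907871a) (nat_lit 0) (p (nat_lit 0x87880887069a) (nat_lit 0) (p (nat_lit 0x8000080000000088806860a) (nat_lit 0) (p (nat_lit 0x8000080000000068786058a) (nat_lit 0) (p (nat_lit 0x10687058502) (nat_lit 0) (p (nat_lit 0x8606850482) (nat_lit 0) (p (nat_lit 0x160004) (nat_lit 0) (p (nat_lit 0x68612) (nat_lit 0) (p (nat_lit 0x50592) (nat_lit 0) (p (nat_lit 0x40512) (nat_lit 0) (p (nat_lit 0x50312) (nat_lit 0) (p (nat_lit 0x38292) (nat_lit 0) (p (nat_lit 0x28212) (nat_lit 0) (p (nat_lit 0x38112) (nat_lit 0) (p (nat_lit 0x20092) (nat_lit 0) (p (nat_lit 0x10012) (nat_lit 0) pn))))))))))))))))))))))))))))))))))))) :=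
  Cl.node (nat_lit 0x8c8d0d8c0b9a) (nat_lit 1) (by decide +kernel) (ClAll.succ ClAll.zero n64)

def n78 : Cl (O (nat_lit 6)) (R (nat_lit 143633))
    (p (nat_lit 0x20014) (nat_lit 0) (p (nat_lit 0x8000c) (nat_lit 0) (p (nat_lit 0x40014) (nat_lit 0) (p (nat_lit 0x80014) (nat_lit 0) (p (nat_lit 0x100014) (nat_lit 0) (p (nat_lit 0x10000c) (nat_lit 0) (p (nat_lit 0x1fc014) (nat_lit 0) (p (nat_lit 0x1fc00c) (nat_lit 0) (p (nat_lit 0xb0004) (nat_lit 1) (p (nat_lit 0x380c2) (nat_lit 1) (p (nat_lit 0x3c4aa) (nat_lit 7) (p (nat_lit 0xd1) (nat_lit 1) (p (nat_lit 0x111) (nat_lit 1) (p (nat_lit 0x109) (nat_lit 0) (p (nat_lit 0x101) (nat_lit 0) (p (nat_lit 0x119) (nat_lit 0) (p (nat_lit 0xc1) (nat_lit 0) (p (nat_lit 0x81) (nat_lit 1) (p (nat_lit 0x41) (nat_lit 1) (p (nat_lit 0x10a898a08881a) (nat_lit 0) (p (nat_lit 0x8a090988079a) (nat_lit 0) (p (nat_lit 0x108088907871a) (nat_lit 0) (p (nat_lit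 0x87880887069a) (nat_lit 0) (p (nat_lit 0x8000080000000088806860a) (nat_lit 0) (p (nat_lit 0x8000080000000068786058a) (nat_lit 0) (p (nat_lit 0x10687058502) (nat_lit 0) (p (nat_lit 0x8606850482) (nat_lit 0) (p (nat_lit 0x160004) (nat_lit 0) (p (nat_lit 0x68612) (nat_lit 0) (p (nat_lit 0x50592) (nat_lit 0) (p (nat_lit 0x40512) (nat_lit 0) (p (nat_lit 0x50312) (nat_lit 0) (p (nat_lit 0x38292) (nat_lit 0) (p (nat_lit 0x28212) (nat_lit 0) (p (nat_lit 0x38112) (nat_lit 0) (p (nat_lit 0x20092) (nat_lit 0) (p (nat_lit 0x10012) (nat_lit 0) pn))))))))))))))))))))))))))))))))))))) :=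
  Cl.node (nat_lit 0x24800a6803800000b8c8b0a8a) (nat_lit 1) (by decide +kernel) (ClAll.succ ClAll.zero n65)

def n79 : Cl (O (nat_lit 6)) (R (nat_lit 143633))
    (p (nat_lit 0x8c8d0d8c0b9a) (nat_lit 0) (p (nat_lit 0x228012680d000000d8d0b8b0a) (nat_lit 0) (p (nat_lit 0x228012680d000000b8c8b0a8a) (nat_lit 0) (p (nat_lit 0x40014) (nat_lit 0) (p (nat_lit 0x80014) (nat_lit 0) (p (nat_lit 0x100014) (nat_lit 0) (p (nat_lit 0x10000c) (nat_lit 0) (p (nat_lit 0x1fc014) (nat_lit 0) (p (nat_lit 0x1fc00c) (nat_lit 0) (p (nat_lit 0xb0004) (nat_lit 1) (p (nat_lit 0x380c2) (nat_lit 0) (p (nat_lit 0x3c4aa) (nat_lit 7) (p (nat_lit 0xd1) (nat_lit 1) (p (nat_lit 0xc9) (nat_lit 0) (p (nat_lit 0x101) (nat_lit 1) (p (nat_lit 0x119) (nat_lit 0) (p (nat_lit 0xc1) (nat_lit 0) (p (nat_lit 0x81) (nat_lit 1) (p (nat_lit 0x41) (nat_lit 1) (p (nat_lit 0x10a898a08881a) (nat_lit 0) (p (nat_lit 0x8a090988079a)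 (nat_lit 0) (p (nat_lit 0x108088907871a) (nat_lit 0) (p (nat_lit 0x87880887069a) (nat_lit 0) (p (nat_lit 0x8000080000000088806860a) (nat_lit 0) (p (nat_lit 0x8000080000000068786058a) (nat_lit 0) (p (nat_lit 0x10687058502) (nat_lit 0) (p (nat_lit 0x8606850482) (nat_lit 0) (p (nat_lit 0x160004) (nat_lit 0) (p (nat_lit 0x68612) (nat_lit 0) (p (nat_lit 0x50592) (nat_lit 0) (p (nat_lit 0x40512) (nat_lit 0) (p (nat_lit 0x50312) (nat_lit 0) (p (nat_lit 0x38292) (nat_lit 0) (p (nat_lit 0x28212) (nat_lit 0) (p (nat_lit 0x38112) (nat_lit 0) (p (nat_lit 0x20092) (nat_lit 0) (p (nat_lit 0x10012) (nat_lit 0) pn))))))))))))))))))))))))))))))))))))) :=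
  Cl.node (nat_lit 0x10d0d8e0c8c1a) (nat_lit 1) (by decide +kernel) (ClAll.succ ClAll.zero n66)

def n80 : Cl (O (nat_lit 6)) (R (nat_lit 143633))
    (p (nat_lit 0x10d0d8e0c8c1a) (nat_lit 0) (p (nat_lit 0x8c8d0d8c0b9a) (nat_lit 0) (p (nat_lit 0x2680d2680d000000d8d0b8b0a) (nat_lit 0) (p (nat_lit 0x2680d2680d000000b8c8b0a8a) (nat_lit 0) (p (nat_lit 0x108004) (nat_lit 0) (p (nat_lit 0x100014) (nat_lit 0) (p (nat_lit 0x10000c) (nat_lit 0) (p (nat_lit 0x1fc014) (nat_lit 0) (p (nat_lit 0x1fc00c) (nat_lit 0) (p (nat_lit 0xb0004) (nat_lit 1) (p (nat_lit 0x380c2) (nat_lit 0) (p (nat_lit 0x3c4aa) (nat_lit 7) (p (nat_lit 0x111) (nat_lit 1) (p (nat_lit 0xd1) (nat_lit 1) (p (nat_lit 0xc9) (nat_lit 0) (p (nat_lit 0x119) (nat_lit 1) (p (nat_lit 0xc1) (nat_lit 0) (p (nat_lit 0x81) (nat_lit 1) (p (nat_lit 0x41) (nat_lit 1) (p (nat_lit 0x10a898a08881a) (nat_lit 0) (p (nat_lit 0x8a090988079a)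 (nat_lit 0) (p (nat_lit 0x108088907871a) (nat_lit 0) (p (nat_lit 0x87880887069a) (nat_lit 0) (p (nat_lit 0x8000080000000088806860a) (nat_lit 0) (p (nat_lit 0x8000080000000068786058a) (nat_lit 0) (p (nat_lit 0x10687058502) (nat_lit 0) (p (nat_lit 0x8606850482) (nat_lit 0) (p (nat_lit 0x160004) (nat_lit 0) (p (nat_lit 0x68612) (nat_lit 0) (p (nat_lit 0x50592) (nat_lit 0) (p (nat_lit 0x40512) (nat_lit 0) (p (nat_lit 0x50312) (nat_lit 0) (p (nat_lit 0x38292) (nat_lit 0) (p (nat_lit 0x28212) (nat_lit 0) (p (nat_lit 0x38112) (nat_lit 0) (p (nat_lit 0x20092) (nat_lit 0) (p (nat_lit 0x10012) (nat_lit 0) pn))))))))))))))))))))))))))))))))))))) :=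
  Cl.node (nat_lit 0x8f0e0e8d0c9a) (nat_lit 1) (by decide +kernel) (ClAll.succ ClAll.zero n67)

def n81 : Cl (O (nat_lit 6)) (R (nat_lit 143633))
    (p (nat_lit 0x8c8d0d8c0b9a) (nat_lit 0) (p (nat_lit 0x2680d2680d000000d8d0b8b0a) (nat_lit 0) (p (nat_lit 0x2680d2680d000000b8c8b0a8a) (nat_lit 0) (p (nat_lit 0x10000c) (nat_lit 0) (p (nat_lit 0x100014) (nat_lit 0) (p (nat_lit 0x1fc014) (nat_lit 0) (p (nat_lit 0x1fc00c) (nat_lit 0) (p (nat_lit 0xb0004) (nat_lit 1) (p (nat_lit 0x380c2) (nat_lit 1) (p (nat_lit 0x444aa) (nat_lit 7) (p (nat_lit 0x81) (nat_lit 1) (p (nat_lit 0xc9) (nat_lit 1) (p (nat_lit 0x109) (nat_lit 1) (p (nat_lit 0x101) (nat_lit 0) (p (nat_lit 0x119) (nat_lit 0) (p (nat_lit 0xd1) (nat_lit 0) (p (nat_lit 0x89) (nat_lit 0) (p (nat_lit 0x41) (nat_lit 0) (p (nat_lit 0x10a898a08881a) (nat_lit 0) (p (nat_lit 0x8a090988079a) (nat_lit 0) (p (nat_lit 0x108088907871a) (nat_lit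 0) (p (nat_lit 0x87880887069a) (nat_lit 0) (p (nat_lit 0x8000080000000088806860a) (nat_lit 0) (p (nat_lit 0x8000080000000068786058a) (nat_lit 0) (p (nat_lit 0x10687058502) (nat_lit 0) (p (nat_lit 0x8606850482) (nat_lit 0) (p (nat_lit 0x160004) (nat_lit 0) (p (nat_lit 0x68612) (nat_lit 0) (p (nat_lit 0x50592) (nat_lit 0) (p (nat_lit 0x40512) (nat_lit 0) (p (nat_lit 0x50312) (nat_lit 0) (p (nat_lit 0x38292) (nat_lit 0) (p (nat_lit 0x28212) (nat_lit 0) (p (nat_lit 0x38112) (nat_lit 0) (p (nat_lit 0x20092) (nat_lit 0) (p (nat_lit 0x10012) (nat_lit 0) pn)))))))))))))))))))))))))))))))))))) :=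
  Cl.node (nat_lit 0x10d0d8e0c8c1a) (nat_lit 1) (by decide +kernel) (ClAll.succ ClAll.zero n68)

def n82 : Cl (O (nat_lit 6)) (R (nat_lit 143633))
    (p (nat_lit 0x8c8d0d8c0b9a) (nat_lit 0) (p (nat_lit 0x2680d2680d000000d8d0b8b0a) (nat_lit 0) (p (nat_lit 0x2680d2680d000000b8c8b0a8a) (nat_lit 0) (p (nat_lit 0x100014) (nat_lit 0) (p (nat_lit 0x10000c) (nat_lit 0) (p (nat_lit 0x1fc014) (nat_lit 0) (p (nat_lit 0x1fc00c) (nat_lit 0) (p (nat_lit 0xb0004) (nat_lit 1) (p (nat_lit 0x380c2) (nat_lit 0) (p (nat_lit 0x4c42a) (nat_lit 2) (p (nat_lit 0x111) (nat_lit 0) (p (nat_lit 0xc9) (nat_lit 0) (p (nat_lit 0x81) (nat_lit 0) (p (nat_lit 0x101) (nat_lit 1) (p (nat_lit 0x119) (nat_lit 0) (p (nat_lit 0xd1) (nat_lit 0) (p (nat_lit 0x89) (nat_lit 0) (p (nat_lit 0x41) (nat_lit 0) (p (nat_lit 0x10a898a08881a) (nat_lit 0) (p (nat_lit 0x8a090988079a) (nat_lit 0) (p (nat_lit 0x108088907871a) (nat_lit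 0) (p (nat_lit 0x87880887069a) (nat_lit 0) (p (nat_lit 0x8000080000000088806860a) (nat_lit 0) (p (nat_lit 0x8000080000000068786058a) (nat_lit 0) (p (nat_lit 0x10687058502) (nat_lit 0) (p (nat_lit 0x8606850482) (nat_lit 0) (p (nat_lit 0x160004) (nat_lit 0) (p (nat_lit 0x68612) (nat_lit 0) (p (nat_lit 0x50592) (nat_lit 0) (p (nat_lit 0x40512) (nat_lit 0) (p (nat_lit 0x50312) (nat_lit 0) (p (nat_lit 0x38292) (nat_lit 0) (p (nat_lit 0x28212) (nat_lit 0) (p (nat_lit 0x38112) (nat_lit 0) (p (nat_lit 0x20092) (nat_lit 0) (p (nat_lit 0x10012) (nat_lit 0) pn)))))))))))))))))))))))))))))))))))) :=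
  Cl.node (nat_lit 0x10d0d8e0c8c1a) (nat_lit 1) (by decide +kernel) (ClAll.succ ClAll.zero n69)

def n83 : Cl (O (nat_lit 6)) (R (nat_lit 143633))
    (p (nat_lit 0x8c8d0d8c0b9a) (nat_lit 0) (p (nat_lit 0x2680d2680d000000d8d0b8b0a) (nat_lit 0) (p (nat_lit 0x2680d2680d000000b8c8b0a8a) (nat_lit 0) (p (nat_lit 0x10000c) (nat_lit 0) (p (nat_lit 0x100014) (nat_lit 0) (p (nat_lit 0x1fc014) (nat_lit 0) (p (nat_lit 0x1fc00c) (nat_lit 0) (p (nat_lit 0xb0004) (nat_lit 1) (p (nat_lit 0x380c2) (nat_lit 1) (p (nat_lit 0x444aa) (nat_lit 7) (p (nat_lit 0x111) (nat_lit 0) (p (nat_lit 0xc9) (nat_lit 1) (p (nat_lit 0x81) (nat_lit 0) (p (nat_lit 0x101) (nat_lit 1) (p (nat_lit 0x119) (nat_lit 0) (p (nat_lit 0xd1) (nat_lit 0) (p (nat_lit 0x89) (nat_lit 0) (p (nat_lit 0x41) (nat_lit 0) (p (nat_lit 0x10a898a08881a) (nat_lit 0) (p (nat_lit 0x8a090988079a) (nat_lit 0) (p (nat_lit 0x108088907871a) (nat_lit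 0) (p (nat_lit 0x87880887069a) (nat_lit 0) (p (nat_lit 0x8000080000000088806860a) (nat_lit 0) (p (nat_lit 0x8000080000000068786058a) (nat_lit 0) (p (nat_lit 0x10687058502) (nat_lit 0) (p (nat_lit 0x8606850482) (nat_lit 0) (p (nat_lit 0x160004) (nat_lit 0) (p (nat_lit 0x68612) (nat_lit 0) (p (nat_lit 0x50592) (nat_lit 0) (p (nat_lit 0x40512) (nat_lit 0) (p (nat_lit 0x50312) (nat_lit 0) (p (nat_lit 0x38292) (nat_lit 0) (p (nat_lit 0x28212) (nat_lit 0) (p (nat_lit 0x38112) (nat_lit 0) (p (nat_lit 0x20092) (nat_lit 0) (p (nat_lit 0x10012) (nat_lit 0) pn)))))))))))))))))))))))))))))))))))) :=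
  Cl.node (nat_lit 0x10d0d8e0c8c1a) (nat_lit 1) (by decide +kernel) (ClAll.succ ClAll.zero n70)

def n84 : Cl (O (nat_lit 6)) (R (nat_lit 143633))
    (p (nat_lit 0x8c8d0d8c0b9a) (nat_lit 0) (p (nat_lit 0x2680d2680d000000d8d0b8b0a) (nat_lit 0) (p (nat_lit 0x2680d2680d000000b8c8b0a8a) (nat_lit 0) (p (nat_lit 0x100014) (nat_lit 0) (p (nat_lit 0x10000c) (nat_lit 0) (p (nat_lit 0x1fc014) (nat_lit 0) (p (nat_lit 0x1fc00c) (nat_lit 0) (p (nat_lit 0xb0004) (nat_lit 1) (p (nat_lit 0x380c2) (nat_lit 0) (p (nat_lit 0x4c42a) (nat_lit 2) (p (nat_lit 0xc9) (nat_lit 0) (p (nat_lit 0xc1) (nat_lit 0) (p (nat_lit 0x81) (nat_lit 1) (p (nat_lit 0x101) (nat_lit 1) (p (nat_lit 0x119) (nat_lit 0) (p (nat_lit 0xd1) (nat_lit 0) (p (nat_lit 0x89) (nat_lit 0) (p (nat_lit 0x41) (nat_lit 0) (p (nat_lit 0x10a898a08881a) (nat_lit 0) (p (nat_lit 0x8a090988079a) (nat_lit 0) (p (nat_lit 0x108088907871a) (nat_lit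 0) (p (nat_lit 0x87880887069a) (nat_lit 0) (p (nat_lit 0x8000080000000088806860a) (nat_lit 0) (p (nat_lit 0x8000080000000068786058a) (nat_lit 0) (p (nat_lit 0x10687058502) (nat_lit 0) (p (nat_lit 0x8606850482) (nat_lit 0) (p (nat_lit 0x160004) (nat_lit 0) (p (nat_lit 0x68612) (nat_lit 0) (p (nat_lit 0x50592) (nat_lit 0) (p (nat_lit 0x40512) (nat_lit 0) (p (nat_lit 0x50312) (nat_lit 0) (p (nat_lit 0x38292) (nat_lit 0) (p (nat_lit 0x28212) (nat_lit 0) (p (nat_lit 0x38112) (nat_lit 0) (p (nat_lit 0x20092) (nat_lit 0) (p (nat_lit 0x10012) (nat_lit 0) pn)))))))))))))))))))))))))))))))))))) :=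
  Cl.node (nat_lit 0x10d0d8e0c8c1a) (nat_lit 1) (by decide +kernel) (ClAll.succ ClAll.zero n71)

def n85 : Cl (O (nat_lit 6)) (R (nat_lit 143633))
    (p (nat_lit 0x8c8d0d8c0b9a) (nat_lit 0) (p (nat_lit 0x2680d2680d000000d8d0b8b0a) (nat_lit 0) (p (nat_lit 0x2680d2680d000000b8c8b0a8a) (nat_lit 0) (p (nat_lit 0x100014) (nat_lit 0) (p (nat_lit 0x10000c) (nat_lit 0) (p (nat_lit 0x1fc014) (nat_lit 0) (p (nat_lit 0x1fc00c) (nat_lit 0) (p (nat_lit 0xb0004) (nat_lit 1) (p (nat_lit 0x380c2) (nat_lit 1) (p (nat_lit 0x444aa) (nat_lit 7) (p (nat_lit 0x109) (nat_lit 1) (p (nat_lit 0x101) (nat_lit 0) (p (nat_lit 0x81) (nat_lit 1) (p (nat_lit 0xc1) (nat_lit 1) (p (nat_lit 0x119) (nat_lit 1) (p (nat_lit 0xd1) (nat_lit 0) (p (nat_lit 0x89) (nat_lit 0) (p (nat_lit 0x41) (nat_lit 0) (p (nat_lit 0x10a898a08881a) (nat_lit 0) (p (nat_lit 0x8a090988079a) (nat_lit 0) (p (nat_lit 0x108088907871a) (nat_lit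 0) (p (nat_lit 0x87880887069a) (nat_lit 0) (p (nat_lit 0x8000080000000088806860a) (nat_lit 0) (p (nat_lit 0x8000080000000068786058a) (nat_lit 0) (p (nat_lit 0x10687058502) (nat_lit 0) (p (nat_lit 0x8606850482) (nat_lit 0) (p (nat_lit 0x160004) (nat_lit 0) (p (nat_lit 0x68612) (nat_lit 0) (p (nat_lit 0x50592) (nat_lit 0) (p (nat_lit 0x40512) (nat_lit 0) (p (nat_lit 0x50312) (nat_lit 0) (p (nat_lit 0x38292) (nat_lit 0) (p (nat_lit 0x28212) (nat_lit 0) (p (nat_lit 0x38112) (nat_lit 0) (p (nat_lit 0x20092) (nat_lit 0) (p (nat_lit 0x10012) (nat_lit 0) pn)))))))))))))))))))))))))))))))))))) :=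
  Cl.node (nat_lit 0x10d0d8e0c8c1a) (nat_lit 1) (by decide +kernel) (ClAll.succ ClAll.zero n72)

def n86 : Cl (O (nat_lit 6)) (R (nat_lit 143633))
    (p (nat_lit 0x40014) (nat_lit 0) (p (nat_lit 0x109) (nat_lit 1) (p (nat_lit 0x80014) (nat_lit 0) (p (nat_lit 0xb0004) (nat_lit 0) (p (nat_lit 0x100014) (nat_lit 0) (p (nat_lit 0x10000c) (nat_lit 0) (p (nat_lit 0x380c2) (nat_lit 0) (p (nat_lit 0x4c42a) (nat_lit 2) (p (nat_lit 0x109) (nat_lit 0) (p (nat_lit 0x200014) (nat_lit 0) (p (nat_lit 0x20000c) (nat_lit 0) (p (nat_lit 0x119) (nat_lit 0) (p (nat_lit 0x81) (nat_lit 0) (p (nat_lit 0x101) (nat_lit 1) (p (nat_lit 0x111) (nat_lit 0) (p (nat_lit 0xd1) (nat_lit 1) (p (nat_lit 0x89) (nat_lit 0) (p (nat_lit 0x41) (nat_lit 0) (p (nat_lit 0x10a898a08881a) (nat_lit 0) (p (nat_lit 0x8a090988079a) (nat_lit 0) (p (nat_lit 0x108088907871a) (nat_lit 0) (p (nat_lit 0x87880887069a) (nat_lit 0)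 (p (nat_lit 0x8000080000000088806860a) (nat_lit 0) (p (nat_lit 0x8000080000000068786058a) (nat_lit 0) (p (nat_lit 0x10687058502) (nat_lit 0) (p (nat_lit 0x8606850482) (nat_lit 0) (p (nat_lit 0x160004) (nat_lit 0) (p (nat_lit 0x68612) (nat_lit 0) (p (nat_lit 0x50592) (nat_lit 0) (p (nat_lit 0x40512) (nat_lit 0) (p (nat_lit 0x50312) (nat_lit 0) (p (nat_lit 0x38292) (nat_lit 0) (p (nat_lit 0x28212) (nat_lit 0) (p (nat_lit 0x38112) (nat_lit 0) (p (nat_lit 0x20092) (nat_lit 0) (p (nat_lit 0x10012) (nat_lit 0) pn)))))))))))))))))))))))))))))))))))) :=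
  Cl.node (nat_lit 0x58004) (nat_lit 2) (by decide +kernel) (ClAll.succ (ClAll.succ ClAll.zero s481) n73)

def n87 : Cl (O (nat_lit 6)) (R (nat_lit 143633))
    (p (nat_lit 0x8c8d0d8c0b9a) (nat_lit 0) (p (nat_lit 0x2680d2680d000000d8d0b8b0a) (nat_lit 0) (p (nat_lit 0x2680d2680d000000b8c8b0a8a) (nat_lit 0) (p (nat_lit 0xb0004) (nat_lit 1) (p (nat_lit 0x100014) (nat_lit 0) (p (nat_lit 0x200014) (nat_lit 0) (p (nat_lit 0x10000c) (nat_lit 0) (p (nat_lit 0x20000c) (nat_lit 0) (p (nat_lit 0x380c2) (nat_lit 0) (p (nat_lit 0x444aa) (nat_lit 7) (p (nat_lit 0xd1) (nat_lit 1) (p (nat_lit 0x111) (nat_lit 1) (p (nat_lit 0x109) (nat_lit 0) (p (nat_lit 0x101) (nat_lit 0) (p (nat_lit 0x119) (nat_lit 0) (p (nat_lit 0xc9) (nat_lit 0) (p (nat_lit 0x89) (nat_lit 1) (p (nat_lit 0x41) (nat_lit 0) (p (nat_lit 0x10a898a08881a) (nat_lit 0) (p (nat_lit 0x8a090988079a) (nat_lit 0) (p (nat_lit 0x108088907871a)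 (nat_lit 0) (p (nat_lit 0x87880887069a) (nat_lit 0) (p (nat_lit 0x8000080000000088806860a) (nat_lit 0) (p (nat_lit 0x8000080000000068786058a) (nat_lit 0) (p (nat_lit 0x10687058502) (nat_lit 0) (p (nat_lit 0x8606850482) (nat_lit 0) (p (nat_lit 0x160004) (nat_lit 0) (p (nat_lit 0x68612) (nat_lit 0) (p (nat_lit 0x50592) (nat_lit 0) (p (nat_lit 0x40512) (nat_lit 0) (p (nat_lit 0x50312) (nat_lit 0) (p (nat_lit 0x38292) (nat_lit 0) (p (nat_lit 0x28212) (nat_lit 0) (p (nat_lit 0x38112) (nat_lit 0) (p (nat_lit 0x20092) (nat_lit 0) (p (nat_lit 0x10012) (nat_lit 0) pn)))))))))))))))))))))))))))))))))))) :=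
  Cl.node (nat_lit 0x10d0d8e0c8c1a) (nat_lit 1) (by decide +kernel) (ClAll.succ ClAll.zero n74)

def n88 : Cl (O (nat_lit 6)) (R (nat_lit 143633))
    (p (nat_lit 0xc1) (nat_lit 0) (p (nat_lit 0x80014) (nat_lit 0) (p (nat_lit 0x108004) (nat_lit 1) (p (nat_lit 0x10000c) (nat_lit 0) (p (nat_lit 0x100014) (nat_lit 0) (p (nat_lit 0x1fc014) (nat_lit 0) (p (nat_lit 0x1fc00c) (nat_lit 0) (p (nat_lit 0xb0004) (nat_lit 1) (p (nat_lit 0x380c2) (nat_lit 1) (p (nat_lit 0x444aa) (nat_lit 7) (p (nat_lit 0xd1) (nat_lit 1) (p (nat_lit 0x111) (nat_lit 1) (p (nat_lit 0x109) (nat_lit 0) (p (nat_lit 0x101) (nat_lit 0) (p (nat_lit 0x119) (nat_lit 0) (p (nat_lit 0xc9) (nat_lit 0) (p (nat_lit 0x89) (nat_lit 1) (p (nat_lit 0x41) (nat_lit 0) (p (nat_lit 0x10a898a08881a) (nat_lit 0) (p (nat_lit 0x8a090988079a) (nat_lit 0) (p (nat_lit 0x108088907871a) (nat_lit 0) (p (nat_lit 0x87880887069a) (nat_lit 0)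 (p (nat_lit 0x8000080000000088806860a) (nat_lit 0) (p (nat_lit 0x8000080000000068786058a) (nat_lit 0) (p (nat_lit 0x10687058502) (nat_lit 0) (p (nat_lit 0x8606850482) (nat_lit 0) (p (nat_lit 0x160004) (nat_lit 0) (p (nat_lit 0x68612) (nat_lit 0) (p (nat_lit 0x50592) (nat_lit 0) (p (nat_lit 0x40512) (nat_lit 0) (p (nat_lit 0x50312) (nat_lit 0) (p (nat_lit 0x38292) (nat_lit 0) (p (nat_lit 0x28212) (nat_lit 0) (p (nat_lit 0x38112) (nat_lit 0) (p (nat_lit 0x20092) (nat_lit 0) (p (nat_lit 0x10012) (nat_lit 0) pn)))))))))))))))))))))))))))))))))))) :=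
  Cl.node (nat_lit 0x8000c) (nat_lit 2) (by decide +kernel) (ClAll.succ (ClAll.succ ClAll.zero s686) s687)

def n89 : Cl (O (nat_lit 6)) (R (nat_lit 143633))
    (p (nat_lit 0x10d0d8e0c8c1a) (nat_lit 0) (p (nat_lit 0x8c8d0d8c0b9a) (nat_lit 0) (p (nat_lit 0x2680d2680d000000d8d0b8b0a) (nat_lit 0) (p (nat_lit 0x2680d2680d000000b8c8b0a8a) (nat_lit 0) (p (nat_lit 0x10000c) (nat_lit 0) (p (nat_lit 0x100014) (nat_lit 0) (p (nat_lit 0x1fc014) (nat_lit 0) (p (nat_lit 0x1fc00c) (nat_lit 0) (p (nat_lit 0xb0004) (nat_lit 1) (p (nat_lit 0x380c2) (nat_lit 0) (p (nat_lit 0x444aa) (nat_lit 7) (p (nat_lit 0xd1) (nat_lit 1) (p (nat_lit 0x109) (nat_lit 1) (p (nat_lit 0x101) (nat_lit 0) (p (nat_lit 0x119) (nat_lit 0) (p (nat_lit 0xc9) (nat_lit 0) (p (nat_lit 0x89) (nat_lit 1) (p (nat_lit 0x41) (nat_lit 0) (p (nat_lit 0x10a898a08881a) (nat_lit 0) (p (nat_lit 0x8a090988079a) (nat_lit 0) (p (nat_lit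 0x108088907871a) (nat_lit 0) (p (nat_lit 0x87880887069a) (nat_lit 0) (p (nat_lit 0x8000080000000088806860a) (nat_lit 0) (p (nat_lit 0x8000080000000068786058a) (nat_lit 0) (p (nat_lit 0x10687058502) (nat_lit 0) (p (nat_lit 0x8606850482) (nat_lit 0) (p (nat_lit 0x160004) (nat_lit 0) (p (nat_lit 0x68612) (nat_lit 0) (p (nat_lit 0x50592) (nat_lit 0) (p (nat_lit 0x40512) (nat_lit 0) (p (nat_lit 0x50312) (nat_lit 0) (p (nat_lit 0x38292) (nat_lit 0) (p (nat_lit 0x28212) (nat_lit 0) (p (nat_lit 0x38112) (nat_lit 0) (p (nat_lit 0x20092) (nat_lit 0) (p (nat_lit 0x10012) (nat_lit 0) pn)))))))))))))))))))))))))))))))))))) :=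
  Cl.node (nat_lit 0x8f0e0e8d0c9a) (nat_lit 1) (by decide +kernel) (ClAll.succ ClAll.zero n75)

def n90 : Cl (O (nat_lit 6)) (R (nat_lit 143633))
    (p (nat_lit 0x380c2) (nat_lit 0) (p (nat_lit 0x4c42a) (nat_lit 2) (p (nat_lit 0xd1) (nat_lit 0) (p (nat_lit 0x200014) (nat_lit 0) (p (nat_lit 0x10000c) (nat_lit 0) (p (nat_lit 0x20000c) (nat_lit 0) (p (nat_lit 0xc9) (nat_lit 0) (p (nat_lit 0xc1) (nat_lit 0) (p (nat_lit 0xb0004) (nat_lit 0) (p (nat_lit 0x380c2) (nat_lit 1) (p (nat_lit 0x444aa) (nat_lit 7) (p (nat_lit 0xd1) (nat_lit 1) (p (nat_lit 0x109) (nat_lit 1) (p (nat_lit 0x101) (nat_lit 0) (p (nat_lit 0x119) (nat_lit 0) (p (nat_lit 0xc9) (nat_lit 0) (p (nat_lit 0x89) (nat_lit 1) (p (nat_lit 0x41) (nat_lit 0) (p (nat_lit 0x10a898a08881a) (nat_lit 0) (p (nat_lit 0x8a090988079a) (nat_lit 0) (p (nat_lit 0x108088907871a) (nat_lit 0) (p (nat_lit 0x87880887069a) (nat_lit 0) (p (nat_lit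 0x8000080000000088806860a) (nat_lit 0) (p (nat_lit 0x8000080000000068786058a) (nat_lit 0) (p (nat_lit 0x10687058502) (nat_lit 0) (p (nat_lit 0x8606850482) (nat_lit 0) (p (nat_lit 0x160004) (nat_lit 0) (p (nat_lit 0x68612) (nat_lit 0) (p (nat_lit 0x50592) (nat_lit 0) (p (nat_lit 0x40512) (nat_lit 0) (p (nat_lit 0x50312) (nat_lit 0) (p (nat_lit 0x38292) (nat_lit 0) (p (nat_lit 0x28212) (nat_lit 0) (p (nat_lit 0x38112) (nat_lit 0) (p (nat_lit 0x20092) (nat_lit 0) (p (nat_lit 0x10012) (nat_lit 0) pn)))))))))))))))))))))))))))))))))))) :=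
  Cl.node (nat_lit 0x3cc2a) (nat_lit 12) (by decide +kernel) (ClAll.succ (ClAll.succ (ClAll.succ (ClAll.succ (ClAll.succ (ClAll.succ (ClAll.succ (ClAll.succ (ClAll.succ (ClAll.succ (ClAll.succ (ClAll.succ ClAll.zero s766) s767) s768) s769) s770) s771) s772) s773) s774) s775) s776) s777)

def n91 : Cl (O (nat_lit 6)) (R (nat_lit 143633))
    (p (nat_lit 0x2680d2a825800000d8d0b8b0a) (nat_lit 0) (p (nat_lit 0x2680d2a825800000b8c8b0a8a) (nat_lit 0) (p (nat_lit 0x100014) (nat_lit 0) (p (nat_lit 0x108004) (nat_lit 0) (p (nat_lit 0xb0004) (nat_lit 1) (p (nat_lit 0x41) (nat_lit 1) (p (nat_lit 0x380c2) (nat_lit 0) (p (nat_lit 0x44c2a) (nat_lit 0) (p (nat_lit 0x109) (nat_lit 1) (p (nat_lit 0x200014) (nat_lit 0) (p (nat_lit 0x20000c) (nat_lit 0) (p (nat_lit 0xd1) (nat_lit 0) (p (nat_lit 0xc1) (nat_lit 0) (p (nat_lit 0x101) (nat_lit 1) (p (nat_lit 0x119) (nat_lit 0) (p (nat_lit 0xc9) (nat_lit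 0) (p (nat_lit 0x89) (nat_lit 1) (p (nat_lit 0x41) (nat_lit 0) (p (nat_lit 0x10a898a08881a) (nat_lit 0) (p (nat_lit 0x8a090988079a) (nat_lit 0) (p (nat_lit 0x108088907871a) (nat_lit 0) (p (nat_lit 0x87880887069a) (nat_lit 0) (p (nat_lit 0x8000080000000088806860a) (nat_lit 0) (p (nat_lit 0x8000080000000068786058a) (nat_lit 0) (p (nat_lit 0x10687058502) (nat_lit 0) (p (nat_lit 0x8606850482) (nat_lit 0) (p (nat_lit 0x160004) (nat_lit 0) (p (nat_lit 0x68612) (nat_lit 0) (p (nat_lit 0x50592) (nat_lit 0) (p (nat_lit 0x40512) (nat_lit 0) (p (nat_lit 0x50312) (nat_lit 0) (p (nat_lit 0x38292) (nat_lit 0) (p (nat_lit 0x28212) (nat_lit 0) (p (nat_lit 0x38112) (nat_lit 0) (p (nat_lit 0x20092) (nat_lit 0) (p (nat_lit 0x10012) (nat_lit 0) pn)))))))))))))))))))))))))))))))))))) :=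
  Cl.node (nat_lit 0x8c8d0d8c0b9a) (nat_lit 1) (by decide +kernel) (ClAll.succ ClAll.zero n76)

def n92 : Cl (O (nat_lit 6)) (R (nat_lit 143633))
    (p (nat_lit 0x228012680d000000b8c8b0a8a) (nat_lit 0) (p (nat_lit 0x40014) (nat_lit 0) (p (nat_lit 0x80014) (nat_lit 0) (p (nat_lit 0x100014) (nat_lit 0) (p (nat_lit 0x10000c) (nat_lit 0) (p (nat_lit 0x1fc014) (nat_lit 0) (p (nat_lit 0x1fc00c) (nat_lit 0) (p (nat_lit 0xb0004) (nat_lit 1) (p (nat_lit 0x380c2) (nat_lit 0) (p (nat_lit 0x3c4aa) (nat_lit 7) (p (nat_lit 0xd1) (nat_lit 1) (p (nat_lit 0x111) (nat_lit 1) (p (nat_lit 0x109) (nat_lit 0) (p (nat_lit 0x101) (nat_lit 0) (p (nat_lit 0x119) (nat_lit 0) (p (nat_lit 0xc1) (nat_lit 0) (p (nat_lit 0x81) (nat_lit 1) (p (nat_lit 0x41) (nat_lit 1) (p (nat_lit 0x10a898a08881a) (nat_lit 0) (p (nat_lit 0x8a090988079a) (nat_lit 0) (p (nat_lit 0x108088907871a) (nat_lit 0) (p (nat_lit 0x87880887069a)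 (nat_lit 0) (p (nat_lit 0x8000080000000088806860a) (nat_lit 0) (p (nat_lit 0x8000080000000068786058a) (nat_lit 0) (p (nat_lit 0x10687058502) (nat_lit 0) (p (nat_lit 0x8606850482) (nat_lit 0) (p (nat_lit 0x160004) (nat_lit 0) (p (nat_lit 0x68612) (nat_lit 0) (p (nat_lit 0x50592) (nat_lit 0) (p (nat_lit 0x40512) (nat_lit 0) (p (nat_lit 0x50312) (nat_lit 0) (p (nat_lit 0x38292) (nat_lit 0) (p (nat_lit 0x28212) (nat_lit 0) (p (nat_lit 0x38112) (nat_lit 0) (p (nat_lit 0x20092) (nat_lit 0) (p (nat_lit 0x10012) (nat_lit 0) pn)))))))))))))))))))))))))))))))))))) :=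
  Cl.node (nat_lit 0x228012680d000000d8d0b8b0a) (nat_lit 1) (by decide +kernel) (ClAll.succ ClAll.zero n77)

def n93 : Cl (O (nat_lit 6)) (R (nat_lit 143633))
    (p (nat_lit 0x8000c) (nat_lit 0) (p (nat_lit 0x40014) (nat_lit 0) (p (nat_lit 0x80014) (nat_lit 0) (p (nat_lit 0x100014) (nat_lit 0) (p (nat_lit 0x10000c) (nat_lit 0) (p (nat_lit 0x1fc014) (nat_lit 0) (p (nat_lit 0x1fc00c) (nat_lit 0) (p (nat_lit 0xb0004) (nat_lit 1) (p (nat_lit 0x380c2) (nat_lit 1) (p (nat_lit 0x3c4aa) (nat_lit 7) (p (nat_lit 0xd1) (nat_lit 1) (p (nat_lit 0x111) (nat_lit 1) (p (nat_lit 0x109) (nat_lit 0) (p (nat_lit 0x101) (nat_lit 0) (p (nat_lit 0x119) (nat_lit 0) (p (nat_lit 0xc1) (nat_lit 0) (p (nat_lit 0x81) (nat_lit 1) (p (nat_lit 0x41) (nat_lit 1) (p (nat_lit 0x10a898a08881a) (nat_lit 0) (p (nat_lit 0x8a090988079a) (nat_lit 0) (p (nat_lit 0x108088907871a) (nat_lit 0) (p (nat_lit 0x87880887069a)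 (nat_lit 0) (p (nat_lit 0x8000080000000088806860a) (nat_lit 0) (p (nat_lit 0x8000080000000068786058a) (nat_lit 0) (p (nat_lit 0x10687058502) (nat_lit 0) (p (nat_lit 0x8606850482) (nat_lit 0) (p (nat_lit 0x160004) (nat_lit 0) (p (nat_lit 0x68612) (nat_lit 0) (p (nat_lit 0x50592) (nat_lit 0) (p (nat_lit 0x40512) (nat_lit 0) (p (nat_lit 0x50312) (nat_lit 0) (p (nat_lit 0x38292) (nat_lit 0) (p (nat_lit 0x28212) (nat_lit 0) (p (nat_lit 0x38112) (nat_lit 0) (p (nat_lit 0x20092) (nat_lit 0) (p (nat_lit 0x10012) (nat_lit 0) pn)))))))))))))))))))))))))))))))))))) :=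
  Cl.node (nat_lit 0x20014) (nat_lit 2) (by decide +kernel) (ClAll.succ (ClAll.succ ClAll.zero n78) s1554)

def n94 : Cl (O (nat_lit 6)) (R (nat_lit 143633))
    (p (nat_lit 0x228012680d000000d8d0b8b0a) (nat_lit 0) (p (nat_lit 0x228012680d000000b8c8b0a8a) (nat_lit 0) (p (nat_lit 0x40014) (nat_lit 0) (p (nat_lit 0x80014) (nat_lit 0) (p (nat_lit 0x100014) (nat_lit 0) (p (nat_lit 0x10000c) (nat_lit 0) (p (nat_lit 0x1fc014) (nat_lit 0) (p (nat_lit 0x1fc00c) (nat_lit 0) (p (nat_lit 0xb0004) (nat_lit 1) (p (nat_lit 0x380c2) (nat_lit 0) (p (nat_lit 0x3c4aa) (nat_lit 7) (p (nat_lit 0xd1) (nat_lit 1) (p (nat_lit 0xc9) (nat_lit 0) (p (nat_lit 0x101) (nat_lit 1) (p (nat_lit 0x119) (nat_lit 0) (p (nat_lit 0xc1) (nat_lit 0) (p (nat_lit 0x81) (nat_lit 1) (p (nat_lit 0x41) (nat_lit 1) (p (nat_lit 0x10a898a08881a) (nat_lit 0) (p (nat_lit 0x8a090988079a) (nat_lit 0) (p (nat_lit 0x108088907871a)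 (nat_lit 0) (p (nat_lit 0x87880887069a) (nat_lit 0) (p (nat_lit 0x8000080000000088806860a) (nat_lit 0) (p (nat_lit 0x8000080000000068786058a) (nat_lit 0) (p (nat_lit 0x10687058502) (nat_lit 0) (p (nat_lit 0x8606850482) (nat_lit 0) (p (nat_lit 0x160004) (nat_lit 0) (p (nat_lit 0x68612) (nat_lit 0) (p (nat_lit 0x50592) (nat_lit 0) (p (nat_lit 0x40512) (nat_lit 0) (p (nat_lit 0x50312) (nat_lit 0) (p (nat_lit 0x38292) (nat_lit 0) (p (nat_lit 0x28212) (nat_lit 0) (p (nat_lit 0x38112) (nat_lit 0) (p (nat_lit 0x20092) (nat_lit 0) (p (nat_lit 0x10012) (nat_lit 0) pn)))))))))))))))))))))))))))))))))))) :=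
  Cl.node (nat_lit 0x8c8d0d8c0b9a) (nat_lit 1) (by decide +kernel) (ClAll.succ ClAll.zero n79)

def n95 : Cl (O (nat_lit 6)) (R (nat_lit 143633))
    (p (nat_lit 0x111) (nat_lit 0) (p (nat_lit 0x89) (nat_lit 0) (p (nat_lit 0x41) (nat_lit 1) (p (nat_lit 0x89) (nat_lit 0) (p (nat_lit 0x10000c) (nat_lit 0) (p (nat_lit 0x100014) (nat_lit 0) (p (nat_lit 0xb0004) (nat_lit 0) (p (nat_lit 0x200014) (nat_lit 0) (p (nat_lit 0x20000c) (nat_lit 0) (p (nat_lit 0x380c2) (nat_lit 1) (p (nat_lit 0x3c4aa) (nat_lit 7) (p (nat_lit 0xd1) (nat_lit 1) (p (nat_lit 0xc9) (nat_lit 0) (p (nat_lit 0x101) (nat_lit 1) (p (nat_lit 0x119) (nat_lit 0) (p (nat_lit 0xc1) (nat_lit 0) (p (nat_lit 0x81) (nat_lit 1) (p (nat_lit 0x41) (nat_lit 1) (p (nat_lit 0x10a898a08881a) (nat_lit 0) (p (nat_lit 0x8a090988079a) (nat_lit 0) (p (nat_lit 0x108088907871a) (nat_lit 0) (p (nat_lit 0x87880887069a) (nat_lit 0) (p (nat_lit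 0x8000080000000088806860a) (nat_lit 0) (p (nat_lit 0x8000080000000068786058a) (nat_lit 0) (p (nat_lit 0x10687058502) (nat_lit 0) (p (nat_lit 0x8606850482) (nat_lit 0) (p (nat_lit 0x160004) (nat_lit 0) (p (nat_lit 0x68612) (nat_lit 0) (p (nat_lit 0x50592) (nat_lit 0) (p (nat_lit 0x40512) (nat_lit 0) (p (nat_lit 0x50312) (nat_lit 0) (p (nat_lit 0x38292) (nat_lit 0) (p (nat_lit 0x28212) (nat_lit 0) (p (nat_lit 0x38112) (nat_lit 0) (p (nat_lit 0x20092) (nat_lit 0) (p (nat_lit 0x10012) (nat_lit 0) pn)))))))))))))))))))))))))))))))))))) :=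
  Cl.node (nat_lit 0x44c2a) (nat_lit 12) (by decide +kernel) (ClAll.succ (ClAll.succ (ClAll.succ (ClAll.succ (ClAll.succ (ClAll.succ (ClAll.succ (ClAll.succ (ClAll.succ (ClAll.succ (ClAll.succ (ClAll.succ ClAll.zero s1665) s1666) s1667) s1668) s1669) s1670) s1671) s1672) s1673) s1674) s1675) s1676)

def n96 : Cl (O (nat_lit 6)) (R (nat_lit 143633))
    (p (nat_lit 0x8c8d0d8c0b9a) (nat_lit 0) (p (nat_lit 0x2680d2680d000000d8d0b8b0a) (nat_lit 0) (p (nat_lit 0x2680d2680d000000b8c8b0a8a) (nat_lit 0) (p (nat_lit 0x108004) (nat_lit 0) (p (nat_lit 0x100014) (nat_lit 0) (p (nat_lit 0x10000c) (nat_lit 0) (p (nat_lit 0x1fc014) (nat_lit 0) (p (nat_lit 0x1fc00c) (nat_lit 0) (p (nat_lit 0xb0004) (nat_lit 1) (p (nat_lit 0x380c2) (nat_lit 0) (p (nat_lit 0x3c4aa) (nat_lit 7) (p (nat_lit 0x111) (nat_lit 1) (p (nat_lit 0xd1) (nat_lit 1) (p (nat_lit 0xc9) (nat_lit 0) (p (nat_lit 0x119) (nat_lit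 1) (p (nat_lit 0xc1) (nat_lit 0) (p (nat_lit 0x81) (nat_lit 1) (p (nat_lit 0x41) (nat_lit 1) (p (nat_lit 0x10a898a08881a) (nat_lit 0) (p (nat_lit 0x8a090988079a) (nat_lit 0) (p (nat_lit 0x108088907871a) (nat_lit 0) (p (nat_lit 0x87880887069a) (nat_lit 0) (p (nat_lit 0x8000080000000088806860a) (nat_lit 0) (p (nat_lit 0x8000080000000068786058a) (nat_lit 0) (p (nat_lit 0x10687058502) (nat_lit 0) (p (nat_lit 0x8606850482) (nat_lit 0) (p (nat_lit 0x160004) (nat_lit 0) (p (nat_lit 0x68612) (nat_lit 0) (p (nat_lit 0x50592) (nat_lit 0) (p (nat_lit 0x40512) (nat_lit 0) (p (nat_lit 0x50312) (nat_lit 0) (p (nat_lit 0x38292) (nat_lit 0) (p (nat_lit 0x28212) (nat_lit 0) (p (nat_lit 0x38112) (nat_lit 0) (p (nat_lit 0x20092) (nat_lit 0) (p (nat_lit 0x10012) (nat_lit 0) pn)))))))))))))))))))))))))))))))))))) :=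
  Cl.node (nat_lit 0x10d0d8e0c8c1a) (nat_lit 1) (by decide +kernel) (ClAll.succ ClAll.zero n80)

def n97 : Cl (O (nat_lit 6)) (R (nat_lit 143633))
    (p (nat_lit 0x2680d2680d000000d8d0b8b0a) (nat_lit 0) (p (nat_lit 0x2680d2680d000000b8c8b0a8a) (nat_lit 0) (p (nat_lit 0x10000c) (nat_lit 0) (p (nat_lit 0x100014) (nat_lit 0) (p (nat_lit 0x1fc014) (nat_lit 0) (p (nat_lit 0x1fc00c) (nat_lit 0) (p (nat_lit 0xb0004) (nat_lit 1) (p (nat_lit 0x380c2) (nat_lit 1) (p (nat_lit 0x444aa) (nat_lit 7) (p (nat_lit 0x81) (nat_lit 1) (p (nat_lit 0xc9) (nat_lit 1) (p (nat_lit 0x109) (nat_lit 1) (p (nat_lit 0x101) (nat_lit 0) (p (nat_lit 0x119) (nat_lit 0) (p (nat_lit 0xd1) (nat_lit 0) (p (nat_lit 0x89) (nat_lit 0) (p (nat_lit 0x41) (nat_lit 0) (p (nat_lit 0x10a898a08881a) (nat_lit 0) (p (nat_lit 0x8a090988079a) (nat_lit 0) (p (nat_lit 0x108088907871a) (nat_lit 0) (p (nat_lit 0x87880887069a) (nat_lit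 0) (p (nat_lit 0x8000080000000088806860a) (nat_lit 0) (p (nat_lit 0x8000080000000068786058a) (nat_lit 0) (p (nat_lit 0x10687058502) (nat_lit 0) (p (nat_lit 0x8606850482) (nat_lit 0) (p (nat_lit 0x160004) (nat_lit 0) (p (nat_lit 0x68612) (nat_lit 0) (p (nat_lit 0x50592) (nat_lit 0) (p (nat_lit 0x40512) (nat_lit 0) (p (nat_lit 0x50312) (nat_lit 0) (p (nat_lit 0x38292) (nat_lit 0) (p (nat_lit 0x28212) (nat_lit 0) (p (nat_lit 0x38112) (nat_lit 0) (p (nat_lit 0x20092) (nat_lit 0) (p (nat_lit 0x10012) (nat_lit 0) pn))))))))))))))))))))))))))))))))))) :=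
  Cl.node (nat_lit 0x8c8d0d8c0b9a) (nat_lit 1) (by decide +kernel) (ClAll.succ ClAll.zero n81)

def n98 : Cl (O (nat_lit 6)) (R (nat_lit 143633))
    (p (nat_lit 0x2680d2680d000000d8d0b8b0a) (nat_lit 0) (p (nat_lit 0x2680d2680d000000b8c8b0a8a) (nat_lit 0) (p (nat_lit 0x100014) (nat_lit 0) (p (nat_lit 0x10000c) (nat_lit 0) (p (nat_lit 0x1fc014) (nat_lit 0) (p (nat_lit 0x1fc00c) (nat_lit 0) (p (nat_lit 0xb0004) (nat_lit 1) (p (nat_lit 0x380c2) (nat_lit 0) (p (nat_lit 0x4c42a) (nat_lit 2) (p (nat_lit 0x111) (nat_lit 0) (p (nat_lit 0xc9) (nat_lit 0) (p (nat_lit 0x81) (nat_lit 0) (p (nat_lit 0x101) (nat_lit 1) (p (nat_lit 0x119) (nat_lit 0) (p (nat_lit 0xd1) (nat_lit 0) (p (nat_lit 0x89) (nat_lit 0) (p (nat_lit 0x41) (nat_lit 0) (p (nat_lit 0x10a898a08881a) (nat_lit 0) (p (nat_lit 0x8a090988079a) (nat_lit 0) (p (nat_lit 0x108088907871a) (nat_lit 0) (p (nat_lit 0x87880887069a) (nat_lit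 0) (p (nat_lit 0x8000080000000088806860a) (nat_lit 0) (p (nat_lit 0x8000080000000068786058a) (nat_lit 0) (p (nat_lit 0x10687058502) (nat_lit 0) (p (nat_lit 0x8606850482) (nat_lit 0) (p (nat_lit 0x160004) (nat_lit 0) (p (nat_lit 0x68612) (nat_lit 0) (p (nat_lit 0x50592) (nat_lit 0) (p (nat_lit 0x40512) (nat_lit 0) (p (nat_lit 0x50312) (nat_lit 0) (p (nat_lit 0x38292) (nat_lit 0) (p (nat_lit 0x28212) (nat_lit 0) (p (nat_lit 0x38112) (nat_lit 0) (p (nat_lit 0x20092) (nat_lit 0) (p (nat_lit 0x10012) (nat_lit 0) pn))))))))))))))))))))))))))))))))))) :=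
  Cl.node (nat_lit 0x8c8d0d8c0b9a) (nat_lit 1) (by decide +kernel) (ClAll.succ ClAll.zero n82)

def n99 : Cl (O (nat_lit 6)) (R (nat_lit 143633))
    (p (nat_lit 0x200014) (nat_lit 0) (p (nat_lit 0x380c2) (nat_lit 0) (p (nat_lit 0x4c42a) (nat_lit 2) (p (nat_lit 0x89) (nat_lit 0) (p (nat_lit 0x10000c) (nat_lit 0) (p (nat_lit 0x20000c) (nat_lit 0) (p (nat_lit 0xb0004) (nat_lit 0) (p (nat_lit 0x380c2) (nat_lit 1) (p (nat_lit 0x444aa) (nat_lit 7) (p (nat_lit 0x111) (nat_lit 0) (p (nat_lit 0xc9) (nat_lit 1) (p (nat_lit 0x81) (nat_lit 0) (p (nat_lit 0x101) (nat_lit 1) (p (nat_lit 0x119) (nat_lit 0) (p (nat_lit 0xd1) (nat_lit 0) (p (nat_lit 0x89) (nat_lit 0) (p (nat_lit 0x41) (nat_lit 0) (p (nat_lit 0x10a898a08881a) (nat_lit 0) (p (nat_lit 0x8a090988079a) (nat_lit 0) (p (nat_lit 0x108088907871a) (nat_lit 0) (p (nat_lit 0x87880887069a) (nat_lit 0) (p (nat_lit 0x8000080000000088806860a)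 (nat_lit 0) (p (nat_lit 0x8000080000000068786058a) (nat_lit 0) (p (nat_lit 0x10687058502) (nat_lit 0) (p (nat_lit 0x8606850482) (nat_lit 0) (p (nat_lit 0x160004) (nat_lit 0) (p (nat_lit 0x68612) (nat_lit 0) (p (nat_lit 0x50592) (nat_lit 0) (p (nat_lit 0x40512) (nat_lit 0) (p (nat_lit 0x50312) (nat_lit 0) (p (nat_lit 0x38292) (nat_lit 0) (p (nat_lit 0x28212) (nat_lit 0) (p (nat_lit 0x38112) (nat_lit 0) (p (nat_lit 0x20092) (nat_lit 0) (p (nat_lit 0x10012) (nat_lit 0) pn))))))))))))))))))))))))))))))))))) :=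
  Cl.node (nat_lit 0x8000c) (nat_lit 2) (by decide +kernel) (ClAll.succ (ClAll.succ ClAll.zero s122) s123)

def n100 : Cl (O (nat_lit 6)) (R (nat_lit 143633))
    (p (nat_lit 0x2680d2680d000000d8d0b8b0a) (nat_lit 0) (p (nat_lit 0x2680d2680d000000b8c8b0a8a) (nat_lit 0) (p (nat_lit 0x10000c) (nat_lit 0) (p (nat_lit 0x100014) (nat_lit 0) (p (nat_lit 0x1fc014) (nat_lit 0) (p (nat_lit 0x1fc00c) (nat_lit 0) (p (nat_lit 0xb0004) (nat_lit 1) (p (nat_lit 0x380c2) (nat_lit 1) (p (nat_lit 0x444aa) (nat_lit 7) (p (nat_lit 0x111) (nat_lit 0) (p (nat_lit 0xc9) (nat_lit 1) (p (nat_lit 0x81) (nat_lit 0) (p (nat_lit 0x101) (nat_lit 1) (p (nat_lit 0x119) (nat_lit 0) (p (nat_lit 0xd1) (nat_lit 0) (p (nat_lit 0x89) (nat_lit 0) (p (nat_lit 0x41) (nat_lit 0) (p (nat_lit 0x10a898a08881a) (nat_lit 0) (p (nat_lit 0x8a090988079a) (nat_lit 0) (p (nat_lit 0x108088907871a) (nat_lit 0) (p (nat_lit 0x87880887069a)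 (nat_lit 0) (p (nat_lit 0x8000080000000088806860a) (nat_lit 0) (p (nat_lit 0x8000080000000068786058a) (nat_lit 0) (p (nat_lit 0x10687058502) (nat_lit 0) (p (nat_lit 0x8606850482) (nat_lit 0) (p (nat_lit 0x160004) (nat_lit 0) (p (nat_lit 0x68612) (nat_lit 0) (p (nat_lit 0x50592) (nat_lit 0) (p (nat_lit 0x40512) (nat_lit 0) (p (nat_lit 0x50312) (nat_lit 0) (p (nat_lit 0x38292) (nat_lit 0) (p (nat_lit 0x28212) (nat_lit 0) (p (nat_lit 0x38112) (nat_lit 0) (p (nat_lit 0x20092) (nat_lit 0) (p (nat_lit 0x10012) (nat_lit 0) pn))))))))))))))))))))))))))))))))))) :=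
  Cl.node (nat_lit 0x8c8d0d8c0b9a) (nat_lit 1) (by decide +kernel) (ClAll.succ ClAll.zero n83)

def n101 : Cl (O (nat_lit 6)) (R (nat_lit 143633))
    (p (nat_lit 0x2680d2680d000000d8d0b8b0a) (nat_lit 0) (p (nat_lit 0x2680d2680d000000b8c8b0a8a) (nat_lit 0) (p (nat_lit 0x100014) (nat_lit 0) (p (nat_lit 0x10000c) (nat_lit 0) (p (nat_lit 0x1fc014) (nat_lit 0) (p (nat_lit 0x1fc00c) (nat_lit 0) (p (nat_lit 0xb0004) (nat_lit 1) (p (nat_lit 0x380c2) (nat_lit 0) (p (nat_lit 0x4c42a) (nat_lit 2) (p (nat_lit 0xc9) (nat_lit 0) (p (nat_lit 0xc1) (nat_lit 0) (p (nat_lit 0x81) (nat_lit 1) (p (nat_lit 0x101) (nat_lit 1) (p (nat_lit 0x119) (nat_lit 0) (p (nat_lit 0xd1) (nat_lit 0) (p (nat_lit 0x89) (nat_lit 0) (p (nat_lit 0x41) (nat_lit 0) (p (nat_lit 0x10a898a08881a) (nat_lit 0) (p (nat_lit 0x8a090988079a) (nat_lit 0) (p (nat_lit 0x108088907871a) (nat_lit 0) (p (nat_lit 0x87880887069a) (nat_lit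 0) (p (nat_lit 0x8000080000000088806860a) (nat_lit 0) (p (nat_lit 0x8000080000000068786058a) (nat_lit 0) (p (nat_lit 0x10687058502) (nat_lit 0) (p (nat_lit 0x8606850482) (nat_lit 0) (p (nat_lit 0x160004) (nat_lit 0) (p (nat_lit 0x68612) (nat_lit 0) (p (nat_lit 0x50592) (nat_lit 0) (p (nat_lit 0x40512) (nat_lit 0) (p (nat_lit 0x50312) (nat_lit 0) (p (nat_lit 0x38292) (nat_lit 0) (p (nat_lit 0x28212) (nat_lit 0) (p (nat_lit 0x38112) (nat_lit 0) (p (nat_lit 0x20092) (nat_lit 0) (p (nat_lit 0x10012) (nat_lit 0) pn))))))))))))))))))))))))))))))))))) :=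
  Cl.node (nat_lit 0x8c8d0d8c0b9a) (nat_lit 1) (by decide +kernel) (ClAll.succ ClAll.zero n84)

def n102 : Cl (O (nat_lit 6)) (R (nat_lit 143633))
    (p (nat_lit 0x2680d2680d000000d8d0b8b0a) (nat_lit 0) (p (nat_lit 0x2680d2680d000000b8c8b0a8a) (nat_lit 0) (p (nat_lit 0x100014) (nat_lit 0) (p (nat_lit 0x10000c) (nat_lit 0) (p (nat_lit 0x1fc014) (nat_lit 0) (p (nat_lit 0x1fc00c) (nat_lit 0) (p (nat_lit 0xb0004) (nat_lit 1) (p (nat_lit 0x380c2) (nat_lit 1) (p (nat_lit 0x444aa) (nat_lit 7) (p (nat_lit 0x109) (nat_lit 1) (p (nat_lit 0x101) (nat_lit 0) (p (nat_lit 0x81) (nat_lit 1) (p (nat_lit 0xc1) (nat_lit 1) (p (nat_lit 0x119) (nat_lit 1) (p (nat_lit 0xd1) (nat_lit 0) (p (nat_lit 0x89) (nat_lit 0) (p (nat_lit 0x41) (nat_lit 0) (p (nat_lit 0x10a898a08881a) (nat_lit 0) (p (nat_lit 0x8a090988079a) (nat_lit 0) (p (nat_lit 0x108088907871a) (nat_lit 0) (p (nat_lit 0x87880887069a) (nat_lit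 0) (p (nat_lit 0x8000080000000088806860a) (nat_lit 0) (p (nat_lit 0x8000080000000068786058a) (nat_lit 0) (p (nat_lit 0x10687058502) (nat_lit 0) (p (nat_lit 0x8606850482) (nat_lit 0) (p (nat_lit 0x160004) (nat_lit 0) (p (nat_lit 0x68612) (nat_lit 0) (p (nat_lit 0x50592) (nat_lit 0) (p (nat_lit 0x40512) (nat_lit 0) (p (nat_lit 0x50312) (nat_lit 0) (p (nat_lit 0x38292) (nat_lit 0) (p (nat_lit 0x28212) (nat_lit 0) (p (nat_lit 0x38112) (nat_lit 0) (p (nat_lit 0x20092) (nat_lit 0) (p (nat_lit 0x10012) (nat_lit 0) pn))))))))))))))))))))))))))))))))))) :=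
  Cl.node (nat_lit 0x8c8d0d8c0b9a) (nat_lit 1) (by decide +kernel) (ClAll.succ ClAll.zero n85)

def n103 : Cl (O (nat_lit 6)) (R (nat_lit 143633))
    (p (nat_lit 0x109) (nat_lit 1) (p (nat_lit 0x80014) (nat_lit 0) (p (nat_lit 0xb0004) (nat_lit 0) (p (nat_lit 0x100014) (nat_lit 0) (p (nat_lit 0x10000c) (nat_lit 0) (p (nat_lit 0x380c2) (nat_lit 0) (p (nat_lit 0x4c42a) (nat_lit 2) (p (nat_lit 0x109) (nat_lit 0) (p (nat_lit 0x200014) (nat_lit 0) (p (nat_lit 0x20000c) (nat_lit 0) (p (nat_lit 0x119) (nat_lit 0) (p (nat_lit 0x81) (nat_lit 0) (p (nat_lit 0x101) (nat_lit 1) (p (nat_lit 0x111) (nat_lit 0) (p (nat_lit 0xd1) (nat_lit 1) (p (nat_lit 0x89) (nat_lit 0) (p (nat_lit 0x41) (nat_lit 0) (p (nat_lit 0x10a898a08881a) (nat_lit 0) (p (nat_lit 0x8a090988079a) (nat_lit 0) (p (nat_lit 0x108088907871a) (nat_lit 0) (p (nat_lit 0x87880887069a) (nat_lit 0) (p (nat_lit 0x8000080000000088806860a)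 (nat_lit 0) (p (nat_lit 0x8000080000000068786058a) (nat_lit 0) (p (nat_lit 0x10687058502) (nat_lit 0) (p (nat_lit 0x8606850482) (nat_lit 0) (p (nat_lit 0x160004) (nat_lit 0) (p (nat_lit 0x68612) (nat_lit 0) (p (nat_lit 0x50592) (nat_lit 0) (p (nat_lit 0x40512) (nat_lit 0) (p (nat_lit 0x50312) (nat_lit 0) (p (nat_lit 0x38292) (nat_lit 0) (p (nat_lit 0x28212) (nat_lit 0) (p (nat_lit 0x38112) (nat_lit 0) (p (nat_lit 0x20092) (nat_lit 0) (p (nat_lit 0x10012) (nat_lit 0) pn))))))))))))))))))))))))))))))))))) :=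
  Cl.node (nat_lit 0x40014) (nat_lit 2) (by decide +kernel) (ClAll.succ (ClAll.succ ClAll.zero n86) s494)

def n104 : Cl (O (nat_lit 6)) (R (nat_lit 143633))
    (p (nat_lit 0x58004) (nat_lit 0) (p (nat_lit 0xc1) (nat_lit 0) (p (nat_lit 0xb0004) (nat_lit 0) (p (nat_lit 0x100014) (nat_lit 0) (p (nat_lit 0x200014) (nat_lit 0) (p (nat_lit 0x10000c) (nat_lit 0) (p (nat_lit 0x20000c) (nat_lit 0) (p (nat_lit 0x380c2) (nat_lit 0) (p (nat_lit 0x444aa) (nat_lit 7) (p (nat_lit 0xd1) (nat_lit 1) (p (nat_lit 0x111) (nat_lit 1) (p (nat_lit 0x109) (nat_lit 0) (p (nat_lit 0x101) (nat_lit 0) (p (nat_lit 0x119) (nat_lit 0) (p (nat_lit 0xc9) (nat_lit 0) (p (nat_lit 0x89) (nat_lit 1) (p (nat_lit 0x41) (nat_lit 0) (p (nat_lit 0x10a898a08881a) (nat_lit 0) (p (nat_lit 0x8a090988079a) (nat_lit 0) (p (nat_lit 0x108088907871a) (nat_lit 0) (p (nat_lit 0x87880887069a) (nat_lit 0) (p (nat_lit 0x8000080000000088806860a)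 (nat_lit 0) (p (nat_lit 0x8000080000000068786058a) (nat_lit 0) (p (nat_lit 0x10687058502) (nat_lit 0) (p (nat_lit 0x8606850482) (nat_lit 0) (p (nat_lit 0x160004) (nat_lit 0) (p (nat_lit 0x68612) (nat_lit 0) (p (nat_lit 0x50592) (nat_lit 0) (p (nat_lit 0x40512) (nat_lit 0) (p (nat_lit 0x50312) (nat_lit 0) (p (nat_lit 0x38292) (nat_lit 0) (p (nat_lit 0x28212) (nat_lit 0) (p (nat_lit 0x38112) (nat_lit 0) (p (nat_lit 0x20092) (nat_lit 0) (p (nat_lit 0x10012) (nat_lit 0) pn))))))))))))))))))))))))))))))))))) :=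
  Cl.node (nat_lit 0xc9) (nat_lit 2) (by decide +kernel) (ClAll.succ (ClAll.succ ClAll.zero s644) s645)

def n105 : Cl (O (nat_lit 6)) (R (nat_lit 143633))
    (p (nat_lit 0x58004) (nat_lit 1) (p (nat_lit 0xc1) (nat_lit 0) (p (nat_lit 0xb0004) (nat_lit 0) (p (nat_lit 0x100014) (nat_lit 0) (p (nat_lit 0x200014) (nat_lit 0) (p (nat_lit 0x10000c) (nat_lit 0) (p (nat_lit 0x20000c) (nat_lit 0) (p (nat_lit 0x380c2) (nat_lit 0) (p (nat_lit 0x444aa) (nat_lit 7) (p (nat_lit 0xd1) (nat_lit 1) (p (nat_lit 0x111) (nat_lit 1) (p (nat_lit 0x109) (nat_lit 0) (p (nat_lit 0x101) (nat_lit 0) (p (nat_lit 0x119) (nat_lit 0) (p (nat_lit 0xc9) (nat_lit 0) (p (nat_lit 0x89) (nat_lit 1) (p (nat_lit 0x41) (nat_lit 0) (p (nat_lit 0x10a898a08881a) (nat_lit 0) (p (nat_lit 0x8a090988079a) (nat_lit 0) (p (nat_lit 0x108088907871a) (nat_lit 0) (p (nat_lit 0x87880887069a) (nat_lit 0) (p (nat_lit 0x8000080000000088806860a)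 (nat_lit 0) (p (nat_lit 0x8000080000000068786058a) (nat_lit 0) (p (nat_lit 0x10687058502) (nat_lit 0) (p (nat_lit 0x8606850482) (nat_lit 0) (p (nat_lit 0x160004) (nat_lit 0) (p (nat_lit 0x68612) (nat_lit 0) (p (nat_lit 0x50592) (nat_lit 0) (p (nat_lit 0x40512) (nat_lit 0) (p (nat_lit 0x50312) (nat_lit 0) (p (nat_lit 0x38292) (nat_lit 0) (p (nat_lit 0x28212) (nat_lit 0) (p (nat_lit 0x38112) (nat_lit 0) (p (nat_lit 0x20092) (nat_lit 0) (p (nat_lit 0x10012) (nat_lit 0) pn))))))))))))))))))))))))))))))))))) :=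
  Cl.node (nat_lit 0x8000c) (nat_lit 2) (by decide +kernel) (ClAll.succ (ClAll.succ ClAll.zero s646) s647)

def n106 : Cl (O (nat_lit 6)) (R (nat_lit 143633))
    (p (nat_lit 0x2680d2680d000000d8d0b8b0a) (nat_lit 0) (p (nat_lit 0x2680d2680d000000b8c8b0a8a) (nat_lit 0) (p (nat_lit 0xb0004) (nat_lit 1) (p (nat_lit 0x100014) (nat_lit 0) (p (nat_lit 0x200014) (nat_lit 0) (p (nat_lit 0x10000c) (nat_lit 0) (p (nat_lit 0x20000c) (nat_lit 0) (p (nat_lit 0x380c2) (nat_lit 0) (p (nat_lit 0x444aa) (nat_lit 7) (p (nat_lit 0xd1) (nat_lit 1) (p (nat_lit 0x111) (nat_lit 1) (p (nat_lit 0x109) (nat_lit 0) (p (nat_lit 0x101) (nat_lit 0) (p (nat_lit 0x119) (nat_lit 0) (p (nat_lit 0xc9) (nat_lit 0) (p (nat_lit 0x89) (nat_lit 1) (p (nat_lit 0x41) (nat_lit 0) (p (nat_lit 0x10a898a08881a) (nat_lit 0) (p (nat_lit 0x8a090988079a) (nat_lit 0) (p (nat_lit 0x108088907871a) (nat_lit 0) (p (nat_lit 0x87880887069a)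 (nat_lit 0) (p (nat_lit 0x8000080000000088806860a) (nat_lit 0) (p (nat_lit 0x8000080000000068786058a) (nat_lit 0) (p (nat_lit 0x10687058502) (nat_lit 0) (p (nat_lit 0x8606850482) (nat_lit 0) (p (nat_lit 0x160004) (nat_lit 0) (p (nat_lit 0x68612) (nat_lit 0) (p (nat_lit 0x50592) (nat_lit 0) (p (nat_lit 0x40512) (nat_lit 0) (p (nat_lit 0x50312) (nat_lit 0) (p (nat_lit 0x38292) (nat_lit 0) (p (nat_lit 0x28212) (nat_lit 0) (p (nat_lit 0x38112) (nat_lit 0) (p (nat_lit 0x20092) (nat_lit 0) (p (nat_lit 0x10012) (nat_lit 0) pn))))))))))))))))))))))))))))))))))) :=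
  Cl.node (nat_lit 0x8c8d0d8c0b9a) (nat_lit 1) (by decide +kernel) (ClAll.succ ClAll.zero n87)

def n107 : Cl (O (nat_lit 6)) (R (nat_lit 143633))
    (p (nat_lit 0x84004) (nat_lit 0) (p (nat_lit 0xc1) (nat_lit 0) (p (nat_lit 0x108004) (nat_lit 0) (p (nat_lit 0x100014) (nat_lit 1) (p (nat_lit 0x200014) (nat_lit 0) (p (nat_lit 0x10000c) (nat_lit 0) (p (nat_lit 0x20000c) (nat_lit 0) (p (nat_lit 0x380c2) (nat_lit 0) (p (nat_lit 0x444aa) (nat_lit 7) (p (nat_lit 0xd1) (nat_lit 1) (p (nat_lit 0x111) (nat_lit 1) (p (nat_lit 0x109) (nat_lit 0) (p (nat_lit 0x101) (nat_lit 0) (p (nat_lit 0x119) (nat_lit 0) (p (nat_lit 0xc9) (nat_lit 0) (p (nat_lit 0x89) (nat_lit 1) (p (nat_lit 0x41) (nat_lit 0) (p (nat_lit 0x10a898a08881a) (nat_lit 0) (p (nat_lit 0x8a090988079a) (nat_lit 0) (p (nat_lit 0x108088907871a) (nat_lit 0) (p (nat_lit 0x87880887069a) (nat_lit 0) (p (nat_lit 0x8000080000000088806860a)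 (nat_lit 0) (p (nat_lit 0x8000080000000068786058a) (nat_lit 0) (p (nat_lit 0x10687058502) (nat_lit 0) (p (nat_lit 0x8606850482) (nat_lit 0) (p (nat_lit 0x160004) (nat_lit 0) (p (nat_lit 0x68612) (nat_lit 0) (p (nat_lit 0x50592) (nat_lit 0) (p (nat_lit 0x40512) (nat_lit 0) (p (nat_lit 0x50312) (nat_lit 0) (p (nat_lit 0x38292) (nat_lit 0) (p (nat_lit 0x28212) (nat_lit 0) (p (nat_lit 0x38112) (nat_lit 0) (p (nat_lit 0x20092) (nat_lit 0) (p (nat_lit 0x10012) (nat_lit 0) pn))))))))))))))))))))))))))))))))))) :=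
  Cl.node (nat_lit 0x3cc2a) (nat_lit 12) (by decide +kernel) (ClAll.succ (ClAll.succ (ClAll.succ (ClAll.succ (ClAll.succ (ClAll.succ (ClAll.succ (ClAll.succ (ClAll.succ (ClAll.succ (ClAll.succ (ClAll.succ ClAll.zero s657) s658) s659) s660) s661) s662) s663) s664) s665) s666) s667) s668)

def n108 : Cl (O (nat_lit 6)) (R (nat_lit 143633))
    (p (nat_lit 0x8000c) (nat_lit 0) (p (nat_lit 0xc9) (nat_lit 1) (p (nat_lit 0x200014) (nat_lit 0) (p (nat_lit 0x10000c) (nat_lit 0) (p (nat_lit 0xc1) (nat_lit 0) (p (nat_lit 0x20000c) (nat_lit 0) (p (nat_lit 0xb0004) (nat_lit 0) (p (nat_lit 0x380c2) (nat_lit 1) (p (nat_lit 0x444aa) (nat_lit 7) (p (nat_lit 0xd1) (nat_lit 1) (p (nat_lit 0x111) (nat_lit 1) (p (nat_lit 0x109) (nat_lit 0) (p (nat_lit 0x101) (nat_lit 0) (p (nat_lit 0x119) (nat_lit 0) (p (nat_lit 0xc9) (nat_lit 0) (p (nat_lit 0x89) (nat_lit 1) (p (nat_lit 0x41) (nat_lit 0) (p (nat_lit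 0x10a898a08881a) (nat_lit 0) (p (nat_lit 0x8a090988079a) (nat_lit 0) (p (nat_lit 0x108088907871a) (nat_lit 0) (p (nat_lit 0x87880887069a) (nat_lit 0) (p (nat_lit 0x8000080000000088806860a) (nat_lit 0) (p (nat_lit 0x8000080000000068786058a) (nat_lit 0) (p (nat_lit 0x10687058502) (nat_lit 0) (p (nat_lit 0x8606850482) (nat_lit 0) (p (nat_lit 0x160004) (nat_lit 0) (p (nat_lit 0x68612) (nat_lit 0) (p (nat_lit 0x50592) (nat_lit 0) (p (nat_lit 0x40512) (nat_lit 0) (p (nat_lit 0x50312) (nat_lit 0) (p (nat_lit 0x38292) (nat_lit 0) (p (nat_lit 0x28212) (nat_lit 0) (p (nat_lit 0x38112) (nat_lit 0) (p (nat_lit 0x20092) (nat_lit 0) (p (nat_lit 0x10012) (nat_lit 0) pn))))))))))))))))))))))))))))))))))) :=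
  Cl.node (nat_lit 0x119) (nat_lit 2) (by decide +kernel) (ClAll.succ (ClAll.succ ClAll.zero s676) s677)

def n109 : Cl (O (nat_lit 6)) (R (nat_lit 143633))
    (p (nat_lit 0x80014) (nat_lit 0) (p (nat_lit 0x108004) (nat_lit 1) (p (nat_lit 0x10000c) (nat_lit 0) (p (nat_lit 0x100014) (nat_lit 0) (p (nat_lit 0x1fc014) (nat_lit 0) (p (nat_lit 0x1fc00c) (nat_lit 0) (p (nat_lit 0xb0004) (nat_lit 1) (p (nat_lit 0x380c2) (nat_lit 1) (p (nat_lit 0x444aa) (nat_lit 7) (p (nat_lit 0xd1) (nat_lit 1) (p (nat_lit 0x111) (nat_lit 1) (p (nat_lit 0x109) (nat_lit 0) (p (nat_lit 0x101) (nat_lit 0) (p (nat_lit 0x119) (nat_lit 0) (p (nat_lit 0xc9) (nat_lit 0) (p (nat_lit 0x89) (nat_lit 1) (p (nat_lit 0x41) (nat_lit 0) (p (nat_lit 0x10a898a08881a) (nat_lit 0) (p (nat_lit 0x8a090988079a) (nat_lit 0) (p (nat_lit 0x108088907871a) (nat_lit 0) (p (nat_lit 0x87880887069a) (nat_lit 0) (p (nat_lit 0x8000080000000088806860a)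 (nat_lit 0) (p (nat_lit 0x8000080000000068786058a) (nat_lit 0) (p (nat_lit 0x10687058502) (nat_lit 0) (p (nat_lit 0x8606850482) (nat_lit 0) (p (nat_lit 0x160004) (nat_lit 0) (p (nat_lit 0x68612) (nat_lit 0) (p (nat_lit 0x50592) (nat_lit 0) (p (nat_lit 0x40512) (nat_lit 0) (p (nat_lit 0x50312) (nat_lit 0) (p (nat_lit 0x38292) (nat_lit 0) (p (nat_lit 0x28212) (nat_lit 0) (p (nat_lit 0x38112) (nat_lit 0) (p (nat_lit 0x20092) (nat_lit 0) (p (nat_lit 0x10012) (nat_lit 0) pn))))))))))))))))))))))))))))))))))) :=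
  Cl.node (nat_lit 0xc1) (nat_lit 2) (by decide +kernel) (ClAll.succ (ClAll.succ ClAll.zero n88) s688)

def n110 : Cl (O (nat_lit 6)) (R (nat_lit 143633))
    (p (nat_lit 0x8c8d0d8c0b9a) (nat_lit 0) (p (nat_lit 0x2680d2680d000000d8d0b8b0a) (nat_lit 0) (p (nat_lit 0x2680d2680d000000b8c8b0a8a) (nat_lit 0) (p (nat_lit 0x10000c) (nat_lit 0) (p (nat_lit 0x100014) (nat_lit 0) (p (nat_lit 0x1fc014) (nat_lit 0) (p (nat_lit 0x1fc00c) (nat_lit 0) (p (nat_lit 0xb0004) (nat_lit 1) (p (nat_lit 0x380c2) (nat_lit 0) (p (nat_lit 0x444aa) (nat_lit 7) (p (nat_lit 0xd1) (nat_lit 1) (p (nat_lit 0x109) (nat_lit 1) (p (nat_lit 0x101) (nat_lit 0) (p (nat_lit 0x119) (nat_lit 0) (p (nat_lit 0xc9) (nat_lit 0) (p (nat_lit 0x89) (nat_lit 1) (p (nat_lit 0x41) (nat_lit 0) (p (nat_lit 0x10a898a08881a) (nat_lit 0) (p (nat_lit 0x8a090988079a) (nat_lit 0) (p (nat_lit 0x108088907871a) (nat_lit 0) (p (nat_lit 0x87880887069a)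 (nat_lit 0) (p (nat_lit 0x8000080000000088806860a) (nat_lit 0) (p (nat_lit 0x8000080000000068786058a) (nat_lit 0) (p (nat_lit 0x10687058502) (nat_lit 0) (p (nat_lit 0x8606850482) (nat_lit 0) (p (nat_lit 0x160004) (nat_lit 0) (p (nat_lit 0x68612) (nat_lit 0) (p (nat_lit 0x50592) (nat_lit 0) (p (nat_lit 0x40512) (nat_lit 0) (p (nat_lit 0x50312) (nat_lit 0) (p (nat_lit 0x38292) (nat_lit 0) (p (nat_lit 0x28212) (nat_lit 0) (p (nat_lit 0x38112) (nat_lit 0) (p (nat_lit 0x20092) (nat_lit 0) (p (nat_lit 0x10012) (nat_lit 0) pn))))))))))))))))))))))))))))))))))) :=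
  Cl.node (nat_lit 0x10d0d8e0c8c1a) (nat_lit 1) (by decide +kernel) (ClAll.succ ClAll.zero n89)

def n111 : Cl (O (nat_lit 6)) (R (nat_lit 143633))
    (p (nat_lit 0x4c42a) (nat_lit 2) (p (nat_lit 0xd1) (nat_lit 0) (p (nat_lit 0x200014) (nat_lit 0) (p (nat_lit 0x10000c) (nat_lit 0) (p (nat_lit 0x20000c) (nat_lit 0) (p (nat_lit 0xc9) (nat_lit 0) (p (nat_lit 0xc1) (nat_lit 0) (p (nat_lit 0xb0004) (nat_lit 0) (p (nat_lit 0x380c2) (nat_lit 1) (p (nat_lit 0x444aa) (nat_lit 7) (p (nat_lit 0xd1) (nat_lit 1) (p (nat_lit 0x109) (nat_lit 1) (p (nat_lit 0x101) (nat_lit 0) (p (nat_lit 0x119) (nat_lit 0) (p (nat_lit 0xc9) (nat_lit 0) (p (nat_lit 0x89) (nat_lit 1) (p (nat_lit 0x41) (nat_lit 0) (p (nat_lit 0x10a898a08881a) (nat_lit 0) (p (nat_lit 0x8a090988079a) (nat_lit 0) (p (nat_lit 0x108088907871a) (nat_lit 0) (p (nat_lit 0x87880887069a) (nat_lit 0) (p (nat_lit 0x8000080000000088806860a)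 (nat_lit 0) (p (nat_lit 0x8000080000000068786058a) (nat_lit 0) (p (nat_lit 0x10687058502) (nat_lit 0) (p (nat_lit 0x8606850482) (nat_lit 0) (p (nat_lit 0x160004) (nat_lit 0) (p (nat_lit 0x68612) (nat_lit 0) (p (nat_lit 0x50592) (nat_lit 0) (p (nat_lit 0x40512) (nat_lit 0) (p (nat_lit 0x50312) (nat_lit 0) (p (nat_lit 0x38292) (nat_lit 0) (p (nat_lit 0x28212) (nat_lit 0) (p (nat_lit 0x38112) (nat_lit 0) (p (nat_lit 0x20092) (nat_lit 0) (p (nat_lit 0x10012) (nat_lit 0) pn))))))))))))))))))))))))))))))))))) :=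
  Cl.node (nat_lit 0x380c2) (nat_lit 1) (by decide +kernel) (ClAll.succ ClAll.zero n90)

def n112 : Cl (O (nat_lit 6)) (R (nat_lit 143633))
    (p (nat_lit 0x111) (nat_lit 0) (p (nat_lit 0xd1) (nat_lit 1) (p (nat_lit 0x200014) (nat_lit 0) (p (nat_lit 0x10000c) (nat_lit 0) (p (nat_lit 0x20000c) (nat_lit 0) (p (nat_lit 0xc9) (nat_lit 0) (p (nat_lit 0xc1) (nat_lit 0) (p (nat_lit 0xb0004) (nat_lit 0) (p (nat_lit 0x380c2) (nat_lit 1) (p (nat_lit 0x444aa) (nat_lit 7) (p (nat_lit 0xd1) (nat_lit 1) (p (nat_lit 0x109) (nat_lit 1) (p (nat_lit 0x101) (nat_lit 0) (p (nat_lit 0x119) (nat_lit 0) (p (nat_lit 0xc9) (nat_lit 0) (p (nat_lit 0x89) (nat_lit 1) (p (nat_lit 0x41) (nat_lit 0) (p (nat_lit 0x10a898a08881a) (nat_lit 0) (p (nat_lit 0x8a090988079a) (nat_lit 0) (p (nat_lit 0x108088907871a) (nat_lit 0) (p (nat_lit 0x87880887069a) (nat_lit 0) (p (nat_lit 0x8000080000000088806860a) (nat_lit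 0) (p (nat_lit 0x8000080000000068786058a) (nat_lit 0) (p (nat_lit 0x10687058502) (nat_lit 0) (p (nat_lit 0x8606850482) (nat_lit 0) (p (nat_lit 0x160004) (nat_lit 0) (p (nat_lit 0x68612) (nat_lit 0) (p (nat_lit 0x50592) (nat_lit 0) (p (nat_lit 0x40512) (nat_lit 0) (p (nat_lit 0x50312) (nat_lit 0) (p (nat_lit 0x38292) (nat_lit 0) (p (nat_lit 0x28212) (nat_lit 0) (p (nat_lit 0x38112) (nat_lit 0) (p (nat_lit 0x20092) (nat_lit 0) (p (nat_lit 0x10012) (nat_lit 0) pn))))))))))))))))))))))))))))))))))) :=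
  Cl.node (nat_lit 0x119) (nat_lit 2) (by decide +kernel) (ClAll.succ (ClAll.succ ClAll.zero s787) s788)

def n113 : Cl (O (nat_lit 6)) (R (nat_lit 143633))
    (p (nat_lit 0x2680d2a825800000b8c8b0a8a) (nat_lit 0) (p (nat_lit 0x100014) (nat_lit 0) (p (nat_lit 0x108004) (nat_lit 0) (p (nat_lit 0xb0004) (nat_lit 1) (p (nat_lit 0x41) (nat_lit 1) (p (nat_lit 0x380c2) (nat_lit 0) (p (nat_lit 0x44c2a) (nat_lit 0) (p (nat_lit 0x109) (nat_lit 1) (p (nat_lit 0x200014) (nat_lit 0) (p (nat_lit 0x20000c) (nat_lit 0) (p (nat_lit 0xd1) (nat_lit 0) (p (nat_lit 0xc1) (nat_lit 0) (p (nat_lit 0x101) (nat_lit 1) (p (nat_lit 0x119) (nat_lit 0) (p (nat_lit 0xc9) (nat_lit 0) (p (nat_lit 0x89) (nat_lit 1) (p (nat_lit 0x41) (nat_lit 0) (p (nat_lit 0x10a898a08881a) (nat_lit 0) (p (nat_lit 0x8a090988079a) (nat_lit 0) (p (nat_lit 0x108088907871a) (nat_lit 0) (p (nat_lit 0x87880887069a) (nat_lit 0) (p (nat_lit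 0x8000080000000088806860a) (nat_lit 0) (p (nat_lit 0x8000080000000068786058a) (nat_lit 0) (p (nat_lit 0x10687058502) (nat_lit 0) (p (nat_lit 0x8606850482) (nat_lit 0) (p (nat_lit 0x160004) (nat_lit 0) (p (nat_lit 0x68612) (nat_lit 0) (p (nat_lit 0x50592) (nat_lit 0) (p (nat_lit 0x40512) (nat_lit 0) (p (nat_lit 0x50312) (nat_lit 0) (p (nat_lit 0x38292) (nat_lit 0) (p (nat_lit 0x28212) (nat_lit 0) (p (nat_lit 0x38112) (nat_lit 0) (p (nat_lit 0x20092) (nat_lit 0) (p (nat_lit 0x10012) (nat_lit 0) pn))))))))))))))))))))))))))))))))))) :=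
  Cl.node (nat_lit 0x2680d2a825800000d8d0b8b0a) (nat_lit 1) (by decide +kernel) (ClAll.succ ClAll.zero n91)

def n114 : Cl (O (nat_lit 6)) (R (nat_lit 143633))
    (p (nat_lit 0x8000c) (nat_lit 0) (p (nat_lit 0x100014) (nat_lit 0) (p (nat_lit 0xc9) (nat_lit 0) (p (nat_lit 0x10000c) (nat_lit 0) (p (nat_lit 0x200014) (nat_lit 0) (p (nat_lit 0x20000c) (nat_lit 0) (p (nat_lit 0xb0004) (nat_lit 0) (p (nat_lit 0x380c2) (nat_lit 0) (p (nat_lit 0x3c4aa) (nat_lit 7) (p (nat_lit 0xd1) (nat_lit 1) (p (nat_lit 0x111) (nat_lit 1) (p (nat_lit 0x109) (nat_lit 0) (p (nat_lit 0x101) (nat_lit 0) (p (nat_lit 0x119) (nat_lit 0) (p (nat_lit 0xc1) (nat_lit 0) (p (nat_lit 0x81) (nat_lit 1) (p (nat_lit 0x41) (nat_lit 1) (p (nat_lit 0x10a898a08881a) (nat_lit 0) (p (nat_lit 0x8a090988079a) (nat_lit 0) (p (nat_lit 0x108088907871a) (nat_lit 0) (p (nat_lit 0x87880887069a) (nat_lit 0) (p (nat_lit 0x8000080000000088806860a)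 (nat_lit 0) (p (nat_lit 0x8000080000000068786058a) (nat_lit 0) (p (nat_lit 0x10687058502) (nat_lit 0) (p (nat_lit 0x8606850482) (nat_lit 0) (p (nat_lit 0x160004) (nat_lit 0) (p (nat_lit 0x68612) (nat_lit 0) (p (nat_lit 0x50592) (nat_lit 0) (p (nat_lit 0x40512) (nat_lit 0) (p (nat_lit 0x50312) (nat_lit 0) (p (nat_lit 0x38292) (nat_lit 0) (p (nat_lit 0x28212) (nat_lit 0) (p (nat_lit 0x38112) (nat_lit 0) (p (nat_lit 0x20092) (nat_lit 0) (p (nat_lit 0x10012) (nat_lit 0) pn))))))))))))))))))))))))))))))))))) :=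
  Cl.node (nat_lit 0xc1) (nat_lit 2) (by decide +kernel) (ClAll.succ (ClAll.succ ClAll.zero s1489) s1490)

def n115 : Cl (O (nat_lit 6)) (R (nat_lit 143633))
    (p (nat_lit 0x8000c) (nat_lit 1) (p (nat_lit 0x100014) (nat_lit 0) (p (nat_lit 0xc9) (nat_lit 0) (p (nat_lit 0x10000c) (nat_lit 0) (p (nat_lit 0x200014) (nat_lit 0) (p (nat_lit 0x20000c) (nat_lit 0) (p (nat_lit 0xb0004) (nat_lit 0) (p (nat_lit 0x380c2) (nat_lit 0) (p (nat_lit 0x3c4aa) (nat_lit 7) (p (nat_lit 0xd1) (nat_lit 1) (p (nat_lit 0x111) (nat_lit 1) (p (nat_lit 0x109) (nat_lit 0) (p (nat_lit 0x101) (nat_lit 0) (p (nat_lit 0x119) (nat_lit 0) (p (nat_lit 0xc1) (nat_lit 0) (p (nat_lit 0x81) (nat_lit 1) (p (nat_lit 0x41) (nat_lit 1) (p (nat_lit 0x10a898a08881a) (nat_lit 0) (p (nat_lit 0x8a090988079a) (nat_lit 0) (p (nat_lit 0x108088907871a) (nat_lit 0) (p (nat_lit 0x87880887069a) (nat_lit 0) (p (nat_lit 0x8000080000000088806860a)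 (nat_lit 0) (p (nat_lit 0x8000080000000068786058a) (nat_lit 0) (p (nat_lit 0x10687058502) (nat_lit 0) (p (nat_lit 0x8606850482) (nat_lit 0) (p (nat_lit 0x160004) (nat_lit 0) (p (nat_lit 0x68612) (nat_lit 0) (p (nat_lit 0x50592) (nat_lit 0) (p (nat_lit 0x40512) (nat_lit 0) (p (nat_lit 0x50312) (nat_lit 0) (p (nat_lit 0x38292) (nat_lit 0) (p (nat_lit 0x28212) (nat_lit 0) (p (nat_lit 0x38112) (nat_lit 0) (p (nat_lit 0x20092) (nat_lit 0) (p (nat_lit 0x10012) (nat_lit 0) pn))))))))))))))))))))))))))))))))))) :=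
  Cl.node (nat_lit 0xc1) (nat_lit 2) (by decide +kernel) (ClAll.succ (ClAll.succ ClAll.zero s1491) s1492)

def n116 : Cl (O (nat_lit 6)) (R (nat_lit 143633))
    (p (nat_lit 0x40014) (nat_lit 0) (p (nat_lit 0x80014) (nat_lit 0) (p (nat_lit 0x100014) (nat_lit 0) (p (nat_lit 0x10000c) (nat_lit 0) (p (nat_lit 0x1fc014) (nat_lit 0) (p (nat_lit 0x1fc00c) (nat_lit 0) (p (nat_lit 0xb0004) (nat_lit 1) (p (nat_lit 0x380c2) (nat_lit 0) (p (nat_lit 0x3c4aa) (nat_lit 7) (p (nat_lit 0xd1) (nat_lit 1) (p (nat_lit 0x111) (nat_lit 1) (p (nat_lit 0x109) (nat_lit 0) (p (nat_lit 0x101) (nat_lit 0) (p (nat_lit 0x119) (nat_lit 0) (p (nat_lit 0xc1) (nat_lit 0) (p (nat_lit 0x81) (nat_lit 1) (p (nat_lit 0x41) (nat_lit 1) (p (nat_lit 0x10a898a08881a) (nat_lit 0) (p (nat_lit 0x8a090988079a) (nat_lit 0) (p (nat_lit 0x108088907871a) (nat_lit 0) (p (nat_lit 0x87880887069a) (nat_lit 0) (p (nat_lit 0x8000080000000088806860a)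 (nat_lit 0) (p (nat_lit 0x8000080000000068786058a) (nat_lit 0) (p (nat_lit 0x10687058502) (nat_lit 0) (p (nat_lit 0x8606850482) (nat_lit 0) (p (nat_lit 0x160004) (nat_lit 0) (p (nat_lit 0x68612) (nat_lit 0) (p (nat_lit 0x50592) (nat_lit 0) (p (nat_lit 0x40512) (nat_lit 0) (p (nat_lit 0x50312) (nat_lit 0) (p (nat_lit 0x38292) (nat_lit 0) (p (nat_lit 0x28212) (nat_lit 0) (p (nat_lit 0x38112) (nat_lit 0) (p (nat_lit 0x20092) (nat_lit 0) (p (nat_lit 0x10012) (nat_lit 0) pn))))))))))))))))))))))))))))))))))) :=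
  Cl.node (nat_lit 0x228012680d000000b8c8b0a8a) (nat_lit 1) (by decide +kernel) (ClAll.succ ClAll.zero n92)

def n117 : Cl (O (nat_lit 6)) (R (nat_lit 143633))
    (p (nat_lit 0x40014) (nat_lit 0) (p (nat_lit 0x80014) (nat_lit 0) (p (nat_lit 0x100014) (nat_lit 0) (p (nat_lit 0x10000c) (nat_lit 0) (p (nat_lit 0x1fc014) (nat_lit 0) (p (nat_lit 0x1fc00c) (nat_lit 0) (p (nat_lit 0xb0004) (nat_lit 1) (p (nat_lit 0x380c2) (nat_lit 1) (p (nat_lit 0x3c4aa) (nat_lit 7) (p (nat_lit 0xd1) (nat_lit 1) (p (nat_lit 0x111) (nat_lit 1) (p (nat_lit 0x109) (nat_lit 0) (p (nat_lit 0x101) (nat_lit 0) (p (nat_lit 0x119) (nat_lit 0) (p (nat_lit 0xc1) (nat_lit 0) (p (nat_lit 0x81) (nat_lit 1) (p (nat_lit 0x41) (nat_lit 1) (p (nat_lit 0x10a898a08881a) (nat_lit 0) (p (nat_lit 0x8a090988079a) (nat_lit 0) (p (nat_lit 0x108088907871a) (nat_lit 0) (p (nat_lit 0x87880887069a) (nat_lit 0) (p (nat_lit 0x8000080000000088806860a)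 (nat_lit 0) (p (nat_lit 0x8000080000000068786058a) (nat_lit 0) (p (nat_lit 0x10687058502) (nat_lit 0) (p (nat_lit 0x8606850482) (nat_lit 0) (p (nat_lit 0x160004) (nat_lit 0) (p (nat_lit 0x68612) (nat_lit 0) (p (nat_lit 0x50592) (nat_lit 0) (p (nat_lit 0x40512) (nat_lit 0) (p (nat_lit 0x50312) (nat_lit 0) (p (nat_lit 0x38292) (nat_lit 0) (p (nat_lit 0x28212) (nat_lit 0) (p (nat_lit 0x38112) (nat_lit 0) (p (nat_lit 0x20092) (nat_lit 0) (p (nat_lit 0x10012) (nat_lit 0) pn))))))))))))))))))))))))))))))))))) :=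
  Cl.node (nat_lit 0x8000c) (nat_lit 2) (by decide +kernel) (ClAll.succ (ClAll.succ ClAll.zero n93) s1555)

def n118 : Cl (O (nat_lit 6)) (R (nat_lit 143633))
    (p (nat_lit 0x228012680d000000b8c8b0a8a) (nat_lit 0) (p (nat_lit 0x40014) (nat_lit 0) (p (nat_lit 0x80014) (nat_lit 0) (p (nat_lit 0x100014) (nat_lit 0) (p (nat_lit 0x10000c) (nat_lit 0) (p (nat_lit 0x1fc014) (nat_lit 0) (p (nat_lit 0x1fc00c) (nat_lit 0) (p (nat_lit 0xb0004) (nat_lit 1) (p (nat_lit 0x380c2) (nat_lit 0) (p (nat_lit 0x3c4aa) (nat_lit 7) (p (nat_lit 0xd1) (nat_lit 1) (p (nat_lit 0xc9) (nat_lit 0) (p (nat_lit 0x101) (nat_lit 1) (p (nat_lit 0x119) (nat_lit 0) (p (nat_lit 0xc1) (nat_lit 0) (p (nat_lit 0x81) (nat_lit 1) (p (nat_lit 0x41) (nat_lit 1) (p (nat_lit 0x10a898a08881a) (nat_lit 0) (p (nat_lit 0x8a090988079a) (nat_lit 0) (p (nat_lit 0x108088907871a) (nat_lit 0) (p (nat_lit 0x87880887069a) (nat_lit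 0) (p (nat_lit 0x8000080000000088806860a) (nat_lit 0) (p (nat_lit 0x8000080000000068786058a) (nat_lit 0) (p (nat_lit 0x10687058502) (nat_lit 0) (p (nat_lit 0x8606850482) (nat_lit 0) (p (nat_lit 0x160004) (nat_lit 0) (p (nat_lit 0x68612) (nat_lit 0) (p (nat_lit 0x50592) (nat_lit 0) (p (nat_lit 0x40512) (nat_lit 0) (p (nat_lit 0x50312) (nat_lit 0) (p (nat_lit 0x38292) (nat_lit 0) (p (nat_lit 0x28212) (nat_lit 0) (p (nat_lit 0x38112) (nat_lit 0) (p (nat_lit 0x20092) (nat_lit 0) (p (nat_lit 0x10012) (nat_lit 0) pn))))))))))))))))))))))))))))))))))) :=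
  Cl.node (nat_lit 0x228012680d000000d8d0b8b0a) (nat_lit 1) (by decide +kernel) (ClAll.succ ClAll.zero n94)

def n119 : Cl (O (nat_lit 6)) (R (nat_lit 143633))
    (p (nat_lit 0x89) (nat_lit 0) (p (nat_lit 0x41) (nat_lit 1) (p (nat_lit 0x89) (nat_lit 0) (p (nat_lit 0x10000c) (nat_lit 0) (p (nat_lit 0x100014) (nat_lit 0) (p (nat_lit 0xb0004) (nat_lit 0) (p (nat_lit 0x200014) (nat_lit 0) (p (nat_lit 0x20000c) (nat_lit 0) (p (nat_lit 0x380c2) (nat_lit 1) (p (nat_lit 0x3c4aa) (nat_lit 7) (p (nat_lit 0xd1) (nat_lit 1) (p (nat_lit 0xc9) (nat_lit 0) (p (nat_lit 0x101) (nat_lit 1) (p (nat_lit 0x119) (nat_lit 0) (p (nat_lit 0xc1) (nat_lit 0) (p (nat_lit 0x81) (nat_lit 1) (p (nat_lit 0x41) (nat_lit 1) (p (nat_lit 0x10a898a08881a) (nat_lit 0) (p (nat_lit 0x8a090988079a) (nat_lit 0) (p (nat_lit 0x108088907871a) (nat_lit 0) (p (nat_lit 0x87880887069a) (nat_lit 0) (p (nat_lit 0x8000080000000088806860a)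 (nat_lit 0) (p (nat_lit 0x8000080000000068786058a) (nat_lit 0) (p (nat_lit 0x10687058502) (nat_lit 0) (p (nat_lit 0x8606850482) (nat_lit 0) (p (nat_lit 0x160004) (nat_lit 0) (p (nat_lit 0x68612) (nat_lit 0) (p (nat_lit 0x50592) (nat_lit 0) (p (nat_lit 0x40512) (nat_lit 0) (p (nat_lit 0x50312) (nat_lit 0) (p (nat_lit 0x38292) (nat_lit 0) (p (nat_lit 0x28212) (nat_lit 0) (p (nat_lit 0x38112) (nat_lit 0) (p (nat_lit 0x20092) (nat_lit 0) (p (nat_lit 0x10012) (nat_lit 0) pn))))))))))))))))))))))))))))))))))) :=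
  Cl.node (nat_lit 0x111) (nat_lit 2) (by decide +kernel) (ClAll.succ (ClAll.succ ClAll.zero n95) s1677)

def n120 : Cl (O (nat_lit 6)) (R (nat_lit 143633))
    (p (nat_lit 0x2680d2680d000000d8d0b8b0a) (nat_lit 0) (p (nat_lit 0x2680d2680d000000b8c8b0a8a) (nat_lit 0) (p (nat_lit 0x108004) (nat_lit 0) (p (nat_lit 0x100014) (nat_lit 0) (p (nat_lit 0x10000c) (nat_lit 0) (p (nat_lit 0x1fc014) (nat_lit 0) (p (nat_lit 0x1fc00c) (nat_lit 0) (p (nat_lit 0xb0004) (nat_lit 1) (p (nat_lit 0x380c2) (nat_lit 0) (p (nat_lit 0x3c4aa) (nat_lit 7) (p (nat_lit 0x111) (nat_lit 1) (p (nat_lit 0xd1) (nat_lit 1) (p (nat_lit 0xc9) (nat_lit 0) (p (nat_lit 0x119) (nat_lit 1) (p (nat_lit 0xc1) (nat_lit 0) (p (nat_lit 0x81) (nat_lit 1) (p (nat_lit 0x41) (nat_lit 1) (p (nat_lit 0x10a898a08881a) (nat_lit 0) (p (nat_lit 0x8a090988079a) (nat_lit 0) (p (nat_lit 0x108088907871a) (nat_lit 0) (p (nat_lit 0x87880887069a)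 (nat_lit 0) (p (nat_lit 0x8000080000000088806860a) (nat_lit 0) (p (nat_lit 0x8000080000000068786058a) (nat_lit 0) (p (nat_lit 0x10687058502) (nat_lit 0) (p (nat_lit 0x8606850482) (nat_lit 0) (p (nat_lit 0x160004) (nat_lit 0) (p (nat_lit 0x68612) (nat_lit 0) (p (nat_lit 0x50592) (nat_lit 0) (p (nat_lit 0x40512) (nat_lit 0) (p (nat_lit 0x50312) (nat_lit 0) (p (nat_lit 0x38292) (nat_lit 0) (p (nat_lit 0x28212) (nat_lit 0) (p (nat_lit 0x38112) (nat_lit 0) (p (nat_lit 0x20092) (nat_lit 0) (p (nat_lit 0x10012) (nat_lit 0) pn))))))))))))))))))))))))))))))))))) :=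
  Cl.node (nat_lit 0x8c8d0d8c0b9a) (nat_lit 1) (by decide +kernel) (ClAll.succ ClAll.zero n96)

def n121 : Cl (O (nat_lit 6)) (R (nat_lit 143633))
    (p (nat_lit 0x2680d2680d000000b8c8b0a8a) (nat_lit 0) (p (nat_lit 0x10000c) (nat_lit 0) (p (nat_lit 0x100014) (nat_lit 0) (p (nat_lit 0x1fc014) (nat_lit 0) (p (nat_lit 0x1fc00c) (nat_lit 0) (p (nat_lit 0xb0004) (nat_lit 1) (p (nat_lit 0x380c2) (nat_lit 1) (p (nat_lit 0x444aa) (nat_lit 7) (p (nat_lit 0x81) (nat_lit 1) (p (nat_lit 0xc9) (nat_lit 1) (p (nat_lit 0x109) (nat_lit 1) (p (nat_lit 0x101) (nat_lit 0) (p (nat_lit 0x119) (nat_lit 0) (p (nat_lit 0xd1) (nat_lit 0) (p (nat_lit 0x89) (nat_lit 0) (p (nat_lit 0x41) (nat_lit 0) (p (nat_lit 0x10a898a08881a) (nat_lit 0) (p (nat_lit 0x8a090988079a) (nat_lit 0) (p (nat_lit 0x108088907871a) (nat_lit 0) (p (nat_lit 0x87880887069a) (nat_lit 0) (p (nat_lit 0x8000080000000088806860a) (nat_lit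 0) (p (nat_lit 0x8000080000000068786058a) (nat_lit 0) (p (nat_lit 0x10687058502) (nat_lit 0) (p (nat_lit 0x8606850482) (nat_lit 0) (p (nat_lit 0x160004) (nat_lit 0) (p (nat_lit 0x68612) (nat_lit 0) (p (nat_lit 0x50592) (nat_lit 0) (p (nat_lit 0x40512) (nat_lit 0) (p (nat_lit 0x50312) (nat_lit 0) (p (nat_lit 0x38292) (nat_lit 0) (p (nat_lit 0x28212) (nat_lit 0) (p (nat_lit 0x38112) (nat_lit 0) (p (nat_lit 0x20092) (nat_lit 0) (p (nat_lit 0x10012) (nat_lit 0) pn)))))))))))))))))))))))))))))))))) :=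
  Cl.node (nat_lit 0x2680d2680d000000d8d0b8b0a) (nat_lit 1) (by decide +kernel) (ClAll.succ ClAll.zero n97)

def n122 : Cl (O (nat_lit 6)) (R (nat_lit 143633))
    (p (nat_lit 0x20000c) (nat_lit 0) (p (nat_lit 0x200014) (nat_lit 0) (p (nat_lit 0x380c2) (nat_lit 1) (p (nat_lit 0x444aa) (nat_lit 7) (p (nat_lit 0xc1) (nat_lit 1) (p (nat_lit 0xb0004) (nat_lit 0) (p (nat_lit 0x380c2) (nat_lit 0) (p (nat_lit 0x4c42a) (nat_lit 2) (p (nat_lit 0x111) (nat_lit 0) (p (nat_lit 0xc9) (nat_lit 0) (p (nat_lit 0x81) (nat_lit 0) (p (nat_lit 0x101) (nat_lit 1) (p (nat_lit 0x119) (nat_lit 0) (p (nat_lit 0xd1) (nat_lit 0) (p (nat_lit 0x89) (nat_lit 0) (p (nat_lit 0x41) (nat_lit 0) (p (nat_lit 0x10a898a08881a) (nat_lit 0) (p (nat_lit 0x8a090988079a) (nat_lit 0) (p (nat_lit 0x108088907871a) (nat_lit 0) (p (nat_lit 0x87880887069a) (nat_lit 0) (p (nat_lit 0x8000080000000088806860a) (nat_lit 0) (p (nat_lit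 0x8000080000000068786058a) (nat_lit 0) (p (nat_lit 0x10687058502) (nat_lit 0) (p (nat_lit 0x8606850482) (nat_lit 0) (p (nat_lit 0x160004) (nat_lit 0) (p (nat_lit 0x68612) (nat_lit 0) (p (nat_lit 0x50592) (nat_lit 0) (p (nat_lit 0x40512) (nat_lit 0) (p (nat_lit 0x50312) (nat_lit 0) (p (nat_lit 0x38292) (nat_lit 0) (p (nat_lit 0x28212) (nat_lit 0) (p (nat_lit 0x38112) (nat_lit 0) (p (nat_lit 0x20092) (nat_lit 0) (p (nat_lit 0x10012) (nat_lit 0) pn)))))))))))))))))))))))))))))))))) :=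
  Cl.node (nat_lit 0x101) (nat_lit 2) (by decide +kernel) (ClAll.succ (ClAll.succ ClAll.zero s45) s46)

def n123 : Cl (O (nat_lit 6)) (R (nat_lit 143633))
    (p (nat_lit 0x2680d2680d000000b8c8b0a8a) (nat_lit 0) (p (nat_lit 0x100014) (nat_lit 0) (p (nat_lit 0x10000c) (nat_lit 0) (p (nat_lit 0x1fc014) (nat_lit 0) (p (nat_lit 0x1fc00c) (nat_lit 0) (p (nat_lit 0xb0004) (nat_lit 1) (p (nat_lit 0x380c2) (nat_lit 0) (p (nat_lit 0x4c42a) (nat_lit 2) (p (nat_lit 0x111) (nat_lit 0) (p (nat_lit 0xc9) (nat_lit 0) (p (nat_lit 0x81) (nat_lit 0) (p (nat_lit 0x101) (nat_lit 1) (p (nat_lit 0x119) (nat_lit 0) (p (nat_lit 0xd1) (nat_lit 0) (p (nat_lit 0x89) (nat_lit 0) (p (nat_lit 0x41) (nat_lit 0) (p (nat_lit 0x10a898a08881a) (nat_lit 0) (p (nat_lit 0x8a090988079a) (nat_lit 0) (p (nat_lit 0x108088907871a) (nat_lit 0) (p (nat_lit 0x87880887069a) (nat_lit 0) (p (nat_lit 0x8000080000000088806860a)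 (nat_lit 0) (p (nat_lit 0x8000080000000068786058a) (nat_lit 0) (p (nat_lit 0x10687058502) (nat_lit 0) (p (nat_lit 0x8606850482) (nat_lit 0) (p (nat_lit 0x160004) (nat_lit 0) (p (nat_lit 0x68612) (nat_lit 0) (p (nat_lit 0x50592) (nat_lit 0) (p (nat_lit 0x40512) (nat_lit 0) (p (nat_lit 0x50312) (nat_lit 0) (p (nat_lit 0x38292) (nat_lit 0) (p (nat_lit 0x28212) (nat_lit 0) (p (nat_lit 0x38112) (nat_lit 0) (p (nat_lit 0x20092) (nat_lit 0) (p (nat_lit 0x10012) (nat_lit 0) pn)))))))))))))))))))))))))))))))))) :=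
  Cl.node (nat_lit 0x2680d2680d000000d8d0b8b0a) (nat_lit 1) (by decide +kernel) (ClAll.succ ClAll.zero n98)

def n124 : Cl (O (nat_lit 6)) (R (nat_lit 143633))
    (p (nat_lit 0x380c2) (nat_lit 0) (p (nat_lit 0x4c42a) (nat_lit 2) (p (nat_lit 0x89) (nat_lit 0) (p (nat_lit 0x10000c) (nat_lit 0) (p (nat_lit 0x20000c) (nat_lit 0) (p (nat_lit 0xb0004) (nat_lit 0) (p (nat_lit 0x380c2) (nat_lit 1) (p (nat_lit 0x444aa) (nat_lit 7) (p (nat_lit 0x111) (nat_lit 0) (p (nat_lit 0xc9) (nat_lit 1) (p (nat_lit 0x81) (nat_lit 0) (p (nat_lit 0x101) (nat_lit 1) (p (nat_lit 0x119) (nat_lit 0) (p (nat_lit 0xd1) (nat_lit 0) (p (nat_lit 0x89) (nat_lit 0) (p (nat_lit 0x41) (nat_lit 0) (p (nat_lit 0x10a898a08881a) (nat_lit 0) (p (nat_lit 0x8a090988079a) (nat_lit 0) (p (nat_lit 0x108088907871a) (nat_lit 0) (p (nat_lit 0x87880887069a) (nat_lit 0) (p (nat_lit 0x8000080000000088806860a) (nat_lit 0) (p (nat_lit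 0x8000080000000068786058a) (nat_lit 0) (p (nat_lit 0x10687058502) (nat_lit 0) (p (nat_lit 0x8606850482) (nat_lit 0) (p (nat_lit 0x160004) (nat_lit 0) (p (nat_lit 0x68612) (nat_lit 0) (p (nat_lit 0x50592) (nat_lit 0) (p (nat_lit 0x40512) (nat_lit 0) (p (nat_lit 0x50312) (nat_lit 0) (p (nat_lit 0x38292) (nat_lit 0) (p (nat_lit 0x28212) (nat_lit 0) (p (nat_lit 0x38112) (nat_lit 0) (p (nat_lit 0x20092) (nat_lit 0) (p (nat_lit 0x10012) (nat_lit 0) pn)))))))))))))))))))))))))))))))))) :=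
  Cl.node (nat_lit 0x200014) (nat_lit 2) (by decide +kernel) (ClAll.succ (ClAll.succ ClAll.zero n99) s124)

def n125 : Cl (O (nat_lit 6)) (R (nat_lit 143633))
    (p (nat_lit 0x2680d2680d000000b8c8b0a8a) (nat_lit 0) (p (nat_lit 0x10000c) (nat_lit 0) (p (nat_lit 0x100014) (nat_lit 0) (p (nat_lit 0x1fc014) (nat_lit 0) (p (nat_lit 0x1fc00c) (nat_lit 0) (p (nat_lit 0xb0004) (nat_lit 1) (p (nat_lit 0x380c2) (nat_lit 1) (p (nat_lit 0x444aa) (nat_lit 7) (p (nat_lit 0x111) (nat_lit 0) (p (nat_lit 0xc9) (nat_lit 1) (p (nat_lit 0x81) (nat_lit 0) (p (nat_lit 0x101) (nat_lit 1) (p (nat_lit 0x119) (nat_lit 0) (p (nat_lit 0xd1) (nat_lit 0) (p (nat_lit 0x89) (nat_lit 0) (p (nat_lit 0x41) (nat_lit 0) (p (nat_lit 0x10a898a08881a) (nat_lit 0) (p (nat_lit 0x8a090988079a) (nat_lit 0) (p (nat_lit 0x108088907871a) (nat_lit 0) (p (nat_lit 0x87880887069a) (nat_lit 0) (p (nat_lit 0x8000080000000088806860a)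 (nat_lit 0) (p (nat_lit 0x8000080000000068786058a) (nat_lit 0) (p (nat_lit 0x10687058502) (nat_lit 0) (p (nat_lit 0x8606850482) (nat_lit 0) (p (nat_lit 0x160004) (nat_lit 0) (p (nat_lit 0x68612) (nat_lit 0) (p (nat_lit 0x50592) (nat_lit 0) (p (nat_lit 0x40512) (nat_lit 0) (p (nat_lit 0x50312) (nat_lit 0) (p (nat_lit 0x38292) (nat_lit 0) (p (nat_lit 0x28212) (nat_lit 0) (p (nat_lit 0x38112) (nat_lit 0) (p (nat_lit 0x20092) (nat_lit 0) (p (nat_lit 0x10012) (nat_lit 0) pn)))))))))))))))))))))))))))))))))) :=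
  Cl.node (nat_lit 0x2680d2680d000000d8d0b8b0a) (nat_lit 1) (by decide +kernel) (ClAll.succ ClAll.zero n100)

def n126 : Cl (O (nat_lit 6)) (R (nat_lit 143633))
    (p (nat_lit 0x2680d2680d000000b8c8b0a8a) (nat_lit 0) (p (nat_lit 0x100014) (nat_lit 0) (p (nat_lit 0x10000c) (nat_lit 0) (p (nat_lit 0x1fc014) (nat_lit 0) (p (nat_lit 0x1fc00c) (nat_lit 0) (p (nat_lit 0xb0004) (nat_lit 1) (p (nat_lit 0x380c2) (nat_lit 0) (p (nat_lit 0x4c42a) (nat_lit 2) (p (nat_lit 0xc9) (nat_lit 0) (p (nat_lit 0xc1) (nat_lit 0) (p (nat_lit 0x81) (nat_lit 1) (p (nat_lit 0x101) (nat_lit 1) (p (nat_lit 0x119) (nat_lit 0) (p (nat_lit 0xd1) (nat_lit 0) (p (nat_lit 0x89) (nat_lit 0) (p (nat_lit 0x41) (nat_lit 0) (p (nat_lit 0x10a898a08881a) (nat_lit 0) (p (nat_lit 0x8a090988079a) (nat_lit 0) (p (nat_lit 0x108088907871a) (nat_lit 0) (p (nat_lit 0x87880887069a) (nat_lit 0) (p (nat_lit 0x8000080000000088806860a)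 (nat_lit 0) (p (nat_lit 0x8000080000000068786058a) (nat_lit 0) (p (nat_lit 0x10687058502) (nat_lit 0) (p (nat_lit 0x8606850482) (nat_lit 0) (p (nat_lit 0x160004) (nat_lit 0) (p (nat_lit 0x68612) (nat_lit 0) (p (nat_lit 0x50592) (nat_lit 0) (p (nat_lit 0x40512) (nat_lit 0) (p (nat_lit 0x50312) (nat_lit 0) (p (nat_lit 0x38292) (nat_lit 0) (p (nat_lit 0x28212) (nat_lit 0) (p (nat_lit 0x38112) (nat_lit 0) (p (nat_lit 0x20092) (nat_lit 0) (p (nat_lit 0x10012) (nat_lit 0) pn)))))))))))))))))))))))))))))))))) :=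
  Cl.node (nat_lit 0x2680d2680d000000d8d0b8b0a) (nat_lit 1) (by decide +kernel) (ClAll.succ ClAll.zero n101)

def n127 : Cl (O (nat_lit 6)) (R (nat_lit 143633))
    (p (nat_lit 0x2680d2680d000000b8c8b0a8a) (nat_lit 0) (p (nat_lit 0x100014) (nat_lit 0) (p (nat_lit 0x10000c) (nat_lit 0) (p (nat_lit 0x1fc014) (nat_lit 0) (p (nat_lit 0x1fc00c) (nat_lit 0) (p (nat_lit 0xb0004) (nat_lit 1) (p (nat_lit 0x380c2) (nat_lit 1) (p (nat_lit 0x444aa) (nat_lit 7) (p (nat_lit 0x109) (nat_lit 1) (p (nat_lit 0x101) (nat_lit 0) (p (nat_lit 0x81) (nat_lit 1) (p (nat_lit 0xc1) (nat_lit 1) (p (nat_lit 0x119) (nat_lit 1) (p (nat_lit 0xd1) (nat_lit 0) (p (nat_lit 0x89) (nat_lit 0) (p (nat_lit 0x41) (nat_lit 0) (p (nat_lit 0x10a898a08881a) (nat_lit 0) (p (nat_lit 0x8a090988079a) (nat_lit 0) (p (nat_lit 0x108088907871a) (nat_lit 0) (p (nat_lit 0x87880887069a) (nat_lit 0) (p (nat_lit 0x8000080000000088806860a)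 (nat_lit 0) (p (nat_lit 0x8000080000000068786058a) (nat_lit 0) (p (nat_lit 0x10687058502) (nat_lit 0) (p (nat_lit 0x8606850482) (nat_lit 0) (p (nat_lit 0x160004) (nat_lit 0) (p (nat_lit 0x68612) (nat_lit 0) (p (nat_lit 0x50592) (nat_lit 0) (p (nat_lit 0x40512) (nat_lit 0) (p (nat_lit 0x50312) (nat_lit 0) (p (nat_lit 0x38292) (nat_lit 0) (p (nat_lit 0x28212) (nat_lit 0) (p (nat_lit 0x38112) (nat_lit 0) (p (nat_lit 0x20092) (nat_lit 0) (p (nat_lit 0x10012) (nat_lit 0) pn)))))))))))))))))))))))))))))))))) :=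
  Cl.node (nat_lit 0x2680d2680d000000d8d0b8b0a) (nat_lit 1) (by decide +kernel) (ClAll.succ ClAll.zero n102)

def n128 : Cl (O (nat_lit 6)) (R (nat_lit 143633))
    (p (nat_lit 0x80014) (nat_lit 0) (p (nat_lit 0xb0004) (nat_lit 0) (p (nat_lit 0x100014) (nat_lit 0) (p (nat_lit 0x10000c) (nat_lit 0) (p (nat_lit 0x380c2) (nat_lit 0) (p (nat_lit 0x4c42a) (nat_lit 2) (p (nat_lit 0x109) (nat_lit 0) (p (nat_lit 0x200014) (nat_lit 0) (p (nat_lit 0x20000c) (nat_lit 0) (p (nat_lit 0x119) (nat_lit 0) (p (nat_lit 0x81) (nat_lit 0) (p (nat_lit 0x101) (nat_lit 1) (p (nat_lit 0x111) (nat_lit 0) (p (nat_lit 0xd1) (nat_lit 1) (p (nat_lit 0x89) (nat_lit 0) (p (nat_lit 0x41) (nat_lit 0) (p (nat_lit 0x10a898a08881a) (nat_lit 0) (p (nat_lit 0x8a090988079a) (nat_lit 0) (p (nat_lit 0x108088907871a) (nat_lit 0) (p (nat_lit 0x87880887069a) (nat_lit 0) (p (nat_lit 0x8000080000000088806860a) (nat_lit 0)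 (p (nat_lit 0x8000080000000068786058a) (nat_lit 0) (p (nat_lit 0x10687058502) (nat_lit 0) (p (nat_lit 0x8606850482) (nat_lit 0) (p (nat_lit 0x160004) (nat_lit 0) (p (nat_lit 0x68612) (nat_lit 0) (p (nat_lit 0x50592) (nat_lit 0) (p (nat_lit 0x40512) (nat_lit 0) (p (nat_lit 0x50312) (nat_lit 0) (p (nat_lit 0x38292) (nat_lit 0) (p (nat_lit 0x28212) (nat_lit 0) (p (nat_lit 0x38112) (nat_lit 0) (p (nat_lit 0x20092) (nat_lit 0) (p (nat_lit 0x10012) (nat_lit 0) pn)))))))))))))))))))))))))))))))))) :=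
  Cl.node (nat_lit 0x109) (nat_lit 2) (by decide +kernel) (ClAll.succ (ClAll.succ ClAll.zero s480) n103)

def n129 : Cl (O (nat_lit 6)) (R (nat_lit 143633))
    (p (nat_lit 0x100014) (nat_lit 0) (p (nat_lit 0x200014) (nat_lit 0) (p (nat_lit 0x380c2) (nat_lit 0) (p (nat_lit 0x4c42a) (nat_lit 2) (p (nat_lit 0xc9) (nat_lit 0) (p (nat_lit 0xb0004) (nat_lit 0) (p (nat_lit 0x380c2) (nat_lit 1) (p (nat_lit 0x444aa) (nat_lit 7) (p (nat_lit 0x119) (nat_lit 0) (p (nat_lit 0xc1) (nat_lit 0) (p (nat_lit 0x81) (nat_lit 1) (p (nat_lit 0x101) (nat_lit 1) (p (nat_lit 0x111) (nat_lit 0) (p (nat_lit 0xd1) (nat_lit 1) (p (nat_lit 0x89) (nat_lit 0) (p (nat_lit 0x41) (nat_lit 0) (p (nat_lit 0x10a898a08881a) (nat_lit 0) (p (nat_lit 0x8a090988079a) (nat_lit 0) (p (nat_lit 0x108088907871a) (nat_lit 0) (p (nat_lit 0x87880887069a) (nat_lit 0) (p (nat_lit 0x8000080000000088806860a) (nat_lit 0) (p (nat_lit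 0x8000080000000068786058a) (nat_lit 0) (p (nat_lit 0x10687058502) (nat_lit 0) (p (nat_lit 0x8606850482) (nat_lit 0) (p (nat_lit 0x160004) (nat_lit 0) (p (nat_lit 0x68612) (nat_lit 0) (p (nat_lit 0x50592) (nat_lit 0) (p (nat_lit 0x40512) (nat_lit 0) (p (nat_lit 0x50312) (nat_lit 0) (p (nat_lit 0x38292) (nat_lit 0) (p (nat_lit 0x28212) (nat_lit 0) (p (nat_lit 0x38112) (nat_lit 0) (p (nat_lit 0x20092) (nat_lit 0) (p (nat_lit 0x10012) (nat_lit 0) pn)))))))))))))))))))))))))))))))))) :=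
  Cl.node (nat_lit 0x3c4aa) (nat_lit 12) (by decide +kernel) (ClAll.succ (ClAll.succ (ClAll.succ (ClAll.succ (ClAll.succ (ClAll.succ (ClAll.succ (ClAll.succ (ClAll.succ (ClAll.succ (ClAll.succ (ClAll.succ ClAll.zero s560) s561) s562) s563) s564) s565) s566) s567) s568) s569) s570) s571)

def n130 : Cl (O (nat_lit 6)) (R (nat_lit 143633))
    (p (nat_lit 0xc1) (nat_lit 0) (p (nat_lit 0xb0004) (nat_lit 0) (p (nat_lit 0x100014) (nat_lit 0) (p (nat_lit 0x200014) (nat_lit 0) (p (nat_lit 0x10000c) (nat_lit 0) (p (nat_lit 0x20000c) (nat_lit 0) (p (nat_lit 0x380c2) (nat_lit 0) (p (nat_lit 0x444aa) (nat_lit 7) (p (nat_lit 0xd1) (nat_lit 1) (p (nat_lit 0x111) (nat_lit 1) (p (nat_lit 0x109) (nat_lit 0) (p (nat_lit 0x101) (nat_lit 0) (p (nat_lit 0x119) (nat_lit 0) (p (nat_lit 0xc9) (nat_lit 0) (p (nat_lit 0x89) (nat_lit 1) (p (nat_lit 0x41) (nat_lit 0) (p (nat_lit 0x10a898a08881a) (nat_lit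 0) (p (nat_lit 0x8a090988079a) (nat_lit 0) (p (nat_lit 0x108088907871a) (nat_lit 0) (p (nat_lit 0x87880887069a) (nat_lit 0) (p (nat_lit 0x8000080000000088806860a) (nat_lit 0) (p (nat_lit 0x8000080000000068786058a) (nat_lit 0) (p (nat_lit 0x10687058502) (nat_lit 0) (p (nat_lit 0x8606850482) (nat_lit 0) (p (nat_lit 0x160004) (nat_lit 0) (p (nat_lit 0x68612) (nat_lit 0) (p (nat_lit 0x50592) (nat_lit 0) (p (nat_lit 0x40512) (nat_lit 0) (p (nat_lit 0x50312) (nat_lit 0) (p (nat_lit 0x38292) (nat_lit 0) (p (nat_lit 0x28212) (nat_lit 0) (p (nat_lit 0x38112) (nat_lit 0) (p (nat_lit 0x20092) (nat_lit 0) (p (nat_lit 0x10012) (nat_lit 0) pn)))))))))))))))))))))))))))))))))) :=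
  Cl.node (nat_lit 0x58004) (nat_lit 2) (by decide +kernel) (ClAll.succ (ClAll.succ ClAll.zero n104) n105)

def n131 : Cl (O (nat_lit 6)) (R (nat_lit 143633))
    (p (nat_lit 0x2680d2680d000000b8c8b0a8a) (nat_lit 0) (p (nat_lit 0xb0004) (nat_lit 1) (p (nat_lit 0x100014) (nat_lit 0) (p (nat_lit 0x200014) (nat_lit 0) (p (nat_lit 0x10000c) (nat_lit 0) (p (nat_lit 0x20000c) (nat_lit 0) (p (nat_lit 0x380c2) (nat_lit 0) (p (nat_lit 0x444aa) (nat_lit 7) (p (nat_lit 0xd1) (nat_lit 1) (p (nat_lit 0x111) (nat_lit 1) (p (nat_lit 0x109) (nat_lit 0) (p (nat_lit 0x101) (nat_lit 0) (p (nat_lit 0x119) (nat_lit 0) (p (nat_lit 0xc9) (nat_lit 0) (p (nat_lit 0x89) (nat_lit 1) (p (nat_lit 0x41) (nat_lit 0) (p (nat_lit 0x10a898a08881a) (nat_lit 0) (p (nat_lit 0x8a090988079a) (nat_lit 0) (p (nat_lit 0x108088907871a) (nat_lit 0) (p (nat_lit 0x87880887069a) (nat_lit 0) (p (nat_lit 0x8000080000000088806860a)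 (nat_lit 0) (p (nat_lit 0x8000080000000068786058a) (nat_lit 0) (p (nat_lit 0x10687058502) (nat_lit 0) (p (nat_lit 0x8606850482) (nat_lit 0) (p (nat_lit 0x160004) (nat_lit 0) (p (nat_lit 0x68612) (nat_lit 0) (p (nat_lit 0x50592) (nat_lit 0) (p (nat_lit 0x40512) (nat_lit 0) (p (nat_lit 0x50312) (nat_lit 0) (p (nat_lit 0x38292) (nat_lit 0) (p (nat_lit 0x28212) (nat_lit 0) (p (nat_lit 0x38112) (nat_lit 0) (p (nat_lit 0x20092) (nat_lit 0) (p (nat_lit 0x10012) (nat_lit 0) pn)))))))))))))))))))))))))))))))))) :=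
  Cl.node (nat_lit 0x2680d2680d000000d8d0b8b0a) (nat_lit 1) (by decide +kernel) (ClAll.succ ClAll.zero n106)

def n132 : Cl (O (nat_lit 6)) (R (nat_lit 143633))
    (p (nat_lit 0xc1) (nat_lit 0) (p (nat_lit 0x108004) (nat_lit 0) (p (nat_lit 0x100014) (nat_lit 1) (p (nat_lit 0x200014) (nat_lit 0) (p (nat_lit 0x10000c) (nat_lit 0) (p (nat_lit 0x20000c) (nat_lit 0) (p (nat_lit 0x380c2) (nat_lit 0) (p (nat_lit 0x444aa) (nat_lit 7) (p (nat_lit 0xd1) (nat_lit 1) (p (nat_lit 0x111) (nat_lit 1) (p (nat_lit 0x109) (nat_lit 0) (p (nat_lit 0x101) (nat_lit 0) (p (nat_lit 0x119) (nat_lit 0) (p (nat_lit 0xc9) (nat_lit 0) (p (nat_lit 0x89) (nat_lit 1) (p (nat_lit 0x41) (nat_lit 0) (p (nat_lit 0x10a898a08881a) (nat_lit 0) (p (nat_lit 0x8a090988079a) (nat_lit 0) (p (nat_lit 0x108088907871a) (nat_lit 0) (p (nat_lit 0x87880887069a) (nat_lit 0) (p (nat_lit 0x8000080000000088806860a) (nat_lit 0)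 (p (nat_lit 0x8000080000000068786058a) (nat_lit 0) (p (nat_lit 0x10687058502) (nat_lit 0) (p (nat_lit 0x8606850482) (nat_lit 0) (p (nat_lit 0x160004) (nat_lit 0) (p (nat_lit 0x68612) (nat_lit 0) (p (nat_lit 0x50592) (nat_lit 0) (p (nat_lit 0x40512) (nat_lit 0) (p (nat_lit 0x50312) (nat_lit 0) (p (nat_lit 0x38292) (nat_lit 0) (p (nat_lit 0x28212) (nat_lit 0) (p (nat_lit 0x38112) (nat_lit 0) (p (nat_lit 0x20092) (nat_lit 0) (p (nat_lit 0x10012) (nat_lit 0) pn)))))))))))))))))))))))))))))))))) :=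
  Cl.node (nat_lit 0x84004) (nat_lit 2) (by decide +kernel) (ClAll.succ (ClAll.succ ClAll.zero n107) s669)

def n133 : Cl (O (nat_lit 6)) (R (nat_lit 143633))
    (p (nat_lit 0xc9) (nat_lit 1) (p (nat_lit 0x200014) (nat_lit 0) (p (nat_lit 0x10000c) (nat_lit 0) (p (nat_lit 0xc1) (nat_lit 0) (p (nat_lit 0x20000c) (nat_lit 0) (p (nat_lit 0xb0004) (nat_lit 0) (p (nat_lit 0x380c2) (nat_lit 1) (p (nat_lit 0x444aa) (nat_lit 7) (p (nat_lit 0xd1) (nat_lit 1) (p (nat_lit 0x111) (nat_lit 1) (p (nat_lit 0x109) (nat_lit 0) (p (nat_lit 0x101) (nat_lit 0) (p (nat_lit 0x119) (nat_lit 0) (p (nat_lit 0xc9) (nat_lit 0) (p (nat_lit 0x89) (nat_lit 1) (p (nat_lit 0x41) (nat_lit 0) (p (nat_lit 0x10a898a08881a) (nat_lit 0) (p (nat_lit 0x8a090988079a) (nat_lit 0) (p (nat_lit 0x108088907871a) (nat_lit 0) (p (nat_lit 0x87880887069a) (nat_lit 0) (p (nat_lit 0x8000080000000088806860a) (nat_lit 0) (p (nat_lit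 0x8000080000000068786058a) (nat_lit 0) (p (nat_lit 0x10687058502) (nat_lit 0) (p (nat_lit 0x8606850482) (nat_lit 0) (p (nat_lit 0x160004) (nat_lit 0) (p (nat_lit 0x68612) (nat_lit 0) (p (nat_lit 0x50592) (nat_lit 0) (p (nat_lit 0x40512) (nat_lit 0) (p (nat_lit 0x50312) (nat_lit 0) (p (nat_lit 0x38292) (nat_lit 0) (p (nat_lit 0x28212) (nat_lit 0) (p (nat_lit 0x38112) (nat_lit 0) (p (nat_lit 0x20092) (nat_lit 0) (p (nat_lit 0x10012) (nat_lit 0) pn)))))))))))))))))))))))))))))))))) :=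
  Cl.node (nat_lit 0x8000c) (nat_lit 2) (by decide +kernel) (ClAll.succ (ClAll.succ ClAll.zero n108) s678)

def n134 : Cl (O (nat_lit 6)) (R (nat_lit 143633))
    (p (nat_lit 0x108004) (nat_lit 0) (p (nat_lit 0x10000c) (nat_lit 0) (p (nat_lit 0x100014) (nat_lit 0) (p (nat_lit 0x1fc014) (nat_lit 0) (p (nat_lit 0x1fc00c) (nat_lit 0) (p (nat_lit 0xb0004) (nat_lit 1) (p (nat_lit 0x380c2) (nat_lit 1) (p (nat_lit 0x444aa) (nat_lit 7) (p (nat_lit 0xd1) (nat_lit 1) (p (nat_lit 0x111) (nat_lit 1) (p (nat_lit 0x109) (nat_lit 0) (p (nat_lit 0x101) (nat_lit 0) (p (nat_lit 0x119) (nat_lit 0) (p (nat_lit 0xc9) (nat_lit 0) (p (nat_lit 0x89) (nat_lit 1) (p (nat_lit 0x41) (nat_lit 0) (p (nat_lit 0x10a898a08881a) (nat_lit 0) (p (nat_lit 0x8a090988079a) (nat_lit 0) (p (nat_lit 0x108088907871a) (nat_lit 0) (p (nat_lit 0x87880887069a) (nat_lit 0) (p (nat_lit 0x8000080000000088806860a) (nat_lit 0)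 (p (nat_lit 0x8000080000000068786058a) (nat_lit 0) (p (nat_lit 0x10687058502) (nat_lit 0) (p (nat_lit 0x8606850482) (nat_lit 0) (p (nat_lit 0x160004) (nat_lit 0) (p (nat_lit 0x68612) (nat_lit 0) (p (nat_lit 0x50592) (nat_lit 0) (p (nat_lit 0x40512) (nat_lit 0) (p (nat_lit 0x50312) (nat_lit 0) (p (nat_lit 0x38292) (nat_lit 0) (p (nat_lit 0x28212) (nat_lit 0) (p (nat_lit 0x38112) (nat_lit 0) (p (nat_lit 0x20092) (nat_lit 0) (p (nat_lit 0x10012) (nat_lit 0) pn)))))))))))))))))))))))))))))))))) :=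
  Cl.node (nat_lit 0x80014) (nat_lit 2) (by decide +kernel) (ClAll.succ (ClAll.succ ClAll.zero s684) s685)

def n135 : Cl (O (nat_lit 6)) (R (nat_lit 143633))
    (p (nat_lit 0x108004) (nat_lit 1) (p (nat_lit 0x10000c) (nat_lit 0) (p (nat_lit 0x100014) (nat_lit 0) (p (nat_lit 0x1fc014) (nat_lit 0) (p (nat_lit 0x1fc00c) (nat_lit 0) (p (nat_lit 0xb0004) (nat_lit 1) (p (nat_lit 0x380c2) (nat_lit 1) (p (nat_lit 0x444aa) (nat_lit 7) (p (nat_lit 0xd1) (nat_lit 1) (p (nat_lit 0x111) (nat_lit 1) (p (nat_lit 0x109) (nat_lit 0) (p (nat_lit 0x101) (nat_lit 0) (p (nat_lit 0x119) (nat_lit 0) (p (nat_lit 0xc9) (nat_lit 0) (p (nat_lit 0x89) (nat_lit 1) (p (nat_lit 0x41) (nat_lit 0) (p (nat_lit 0x10a898a08881a) (nat_lit 0) (p (nat_lit 0x8a090988079a) (nat_lit 0) (p (nat_lit 0x108088907871a) (nat_lit 0) (p (nat_lit 0x87880887069a) (nat_lit 0) (p (nat_lit 0x8000080000000088806860a) (nat_lit 0)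 (p (nat_lit 0x8000080000000068786058a) (nat_lit 0) (p (nat_lit 0x10687058502) (nat_lit 0) (p (nat_lit 0x8606850482) (nat_lit 0) (p (nat_lit 0x160004) (nat_lit 0) (p (nat_lit 0x68612) (nat_lit 0) (p (nat_lit 0x50592) (nat_lit 0) (p (nat_lit 0x40512) (nat_lit 0) (p (nat_lit 0x50312) (nat_lit 0) (p (nat_lit 0x38292) (nat_lit 0) (p (nat_lit 0x28212) (nat_lit 0) (p (nat_lit 0x38112) (nat_lit 0) (p (nat_lit 0x20092) (nat_lit 0) (p (nat_lit 0x10012) (nat_lit 0) pn)))))))))))))))))))))))))))))))))) :=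
  Cl.node (nat_lit 0x80014) (nat_lit 2) (by decide +kernel) (ClAll.succ (ClAll.succ ClAll.zero n109) s689)

def n136 : Cl (O (nat_lit 6)) (R (nat_lit 143633))
    (p (nat_lit 0xd1) (nat_lit 0) (p (nat_lit 0xc9) (nat_lit 0) (p (nat_lit 0x200014) (nat_lit 0) (p (nat_lit 0x10000c) (nat_lit 0) (p (nat_lit 0x20000c) (nat_lit 0) (p (nat_lit 0xc1) (nat_lit 0) (p (nat_lit 0xb0004) (nat_lit 0) (p (nat_lit 0x380c2) (nat_lit 0) (p (nat_lit 0x444aa) (nat_lit 7) (p (nat_lit 0xd1) (nat_lit 1) (p (nat_lit 0x109) (nat_lit 1) (p (nat_lit 0x101) (nat_lit 0) (p (nat_lit 0x119) (nat_lit 0) (p (nat_lit 0xc9) (nat_lit 0) (p (nat_lit 0x89) (nat_lit 1) (p (nat_lit 0x41) (nat_lit 0) (p (nat_lit 0x10a898a08881a) (nat_lit 0) (p (nat_lit 0x8a090988079a) (nat_lit 0) (p (nat_lit 0x108088907871a) (nat_lit 0) (p (nat_lit 0x87880887069a) (nat_lit 0) (p (nat_lit 0x8000080000000088806860a) (nat_lit 0) (p (nat_lit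 0x8000080000000068786058a) (nat_lit 0) (p (nat_lit 0x10687058502) (nat_lit 0) (p (nat_lit 0x8606850482) (nat_lit 0) (p (nat_lit 0x160004) (nat_lit 0) (p (nat_lit 0x68612) (nat_lit 0) (p (nat_lit 0x50592) (nat_lit 0) (p (nat_lit 0x40512) (nat_lit 0) (p (nat_lit 0x50312) (nat_lit 0) (p (nat_lit 0x38292) (nat_lit 0) (p (nat_lit 0x28212) (nat_lit 0) (p (nat_lit 0x38112) (nat_lit 0) (p (nat_lit 0x20092) (nat_lit 0) (p (nat_lit 0x10012) (nat_lit 0) pn)))))))))))))))))))))))))))))))))) :=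
  Cl.node (nat_lit 0x4c42a) (nat_lit 12) (by decide +kernel) (ClAll.succ (ClAll.succ (ClAll.succ (ClAll.succ (ClAll.succ (ClAll.succ (ClAll.succ (ClAll.succ (ClAll.succ (ClAll.succ (ClAll.succ (ClAll.succ ClAll.zero s727) s728) s729) s730) s731) s732) s733) s734) s735) s736) s737) s738)

def n137 : Cl (O (nat_lit 6)) (R (nat_lit 143633))
    (p (nat_lit 0x2680d2680d000000d8d0b8b0a) (nat_lit 0) (p (nat_lit 0x2680d2680d000000b8c8b0a8a) (nat_lit 0) (p (nat_lit 0x10000c) (nat_lit 0) (p (nat_lit 0x100014) (nat_lit 0) (p (nat_lit 0x1fc014) (nat_lit 0) (p (nat_lit 0x1fc00c) (nat_lit 0) (p (nat_lit 0xb0004) (nat_lit 1) (p (nat_lit 0x380c2) (nat_lit 0) (p (nat_lit 0x444aa) (nat_lit 7) (p (nat_lit 0xd1) (nat_lit 1) (p (nat_lit 0x109) (nat_lit 1) (p (nat_lit 0x101) (nat_lit 0) (p (nat_lit 0x119) (nat_lit 0) (p (nat_lit 0xc9) (nat_lit 0) (p (nat_lit 0x89) (nat_lit 1) (p (nat_lit 0x41) (nat_lit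 0) (p (nat_lit 0x10a898a08881a) (nat_lit 0) (p (nat_lit 0x8a090988079a) (nat_lit 0) (p (nat_lit 0x108088907871a) (nat_lit 0) (p (nat_lit 0x87880887069a) (nat_lit 0) (p (nat_lit 0x8000080000000088806860a) (nat_lit 0) (p (nat_lit 0x8000080000000068786058a) (nat_lit 0) (p (nat_lit 0x10687058502) (nat_lit 0) (p (nat_lit 0x8606850482) (nat_lit 0) (p (nat_lit 0x160004) (nat_lit 0) (p (nat_lit 0x68612) (nat_lit 0) (p (nat_lit 0x50592) (nat_lit 0) (p (nat_lit 0x40512) (nat_lit 0) (p (nat_lit 0x50312) (nat_lit 0) (p (nat_lit 0x38292) (nat_lit 0) (p (nat_lit 0x28212) (nat_lit 0) (p (nat_lit 0x38112) (nat_lit 0) (p (nat_lit 0x20092) (nat_lit 0) (p (nat_lit 0x10012) (nat_lit 0) pn)))))))))))))))))))))))))))))))))) :=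
  Cl.node (nat_lit 0x8c8d0d8c0b9a) (nat_lit 1) (by decide +kernel) (ClAll.succ ClAll.zero n110)

def n138 : Cl (O (nat_lit 6)) (R (nat_lit 143633))
    (p (nat_lit 0xd1) (nat_lit 0) (p (nat_lit 0x200014) (nat_lit 0) (p (nat_lit 0x10000c) (nat_lit 0) (p (nat_lit 0x20000c) (nat_lit 0) (p (nat_lit 0xc9) (nat_lit 0) (p (nat_lit 0xc1) (nat_lit 0) (p (nat_lit 0xb0004) (nat_lit 0) (p (nat_lit 0x380c2) (nat_lit 1) (p (nat_lit 0x444aa) (nat_lit 7) (p (nat_lit 0xd1) (nat_lit 1) (p (nat_lit 0x109) (nat_lit 1) (p (nat_lit 0x101) (nat_lit 0) (p (nat_lit 0x119) (nat_lit 0) (p (nat_lit 0xc9) (nat_lit 0) (p (nat_lit 0x89) (nat_lit 1) (p (nat_lit 0x41) (nat_lit 0) (p (nat_lit 0x10a898a08881a) (nat_lit 0) (p (nat_lit 0x8a090988079a) (nat_lit 0) (p (nat_lit 0x108088907871a) (nat_lit 0) (p (nat_lit 0x87880887069a) (nat_lit 0) (p (nat_lit 0x8000080000000088806860a) (nat_lit 0) (p (nat_lit 0x8000080000000068786058a)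 (nat_lit 0) (p (nat_lit 0x10687058502) (nat_lit 0) (p (nat_lit 0x8606850482) (nat_lit 0) (p (nat_lit 0x160004) (nat_lit 0) (p (nat_lit 0x68612) (nat_lit 0) (p (nat_lit 0x50592) (nat_lit 0) (p (nat_lit 0x40512) (nat_lit 0) (p (nat_lit 0x50312) (nat_lit 0) (p (nat_lit 0x38292) (nat_lit 0) (p (nat_lit 0x28212) (nat_lit 0) (p (nat_lit 0x38112) (nat_lit 0) (p (nat_lit 0x20092) (nat_lit 0) (p (nat_lit 0x10012) (nat_lit 0) pn)))))))))))))))))))))))))))))))))) :=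
  Cl.node (nat_lit 0x4c42a) (nat_lit 12) (by decide +kernel) (ClAll.succ (ClAll.succ (ClAll.succ (ClAll.succ (ClAll.succ (ClAll.succ (ClAll.succ (ClAll.succ (ClAll.succ (ClAll.succ (ClAll.succ (ClAll.succ ClAll.zero s764) s765) n111) s778) s779) s780) s781) s782) s783) s784) s785) s786)

def n139 : Cl (O (nat_lit 6)) (R (nat_lit 143633))
    (p (nat_lit 0xd1) (nat_lit 1) (p (nat_lit 0x200014) (nat_lit 0) (p (nat_lit 0x10000c) (nat_lit 0) (p (nat_lit 0x20000c) (nat_lit 0) (p (nat_lit 0xc9) (nat_lit 0) (p (nat_lit 0xc1) (nat_lit 0) (p (nat_lit 0xb0004) (nat_lit 0) (p (nat_lit 0x380c2) (nat_lit 1) (p (nat_lit 0x444aa) (nat_lit 7) (p (nat_lit 0xd1) (nat_lit 1) (p (nat_lit 0x109) (nat_lit 1) (p (nat_lit 0x101) (nat_lit 0) (p (nat_lit 0x119) (nat_lit 0) (p (nat_lit 0xc9) (nat_lit 0) (p (nat_lit 0x89) (nat_lit 1) (p (nat_lit 0x41) (nat_lit 0) (p (nat_lit 0x10a898a08881a) (nat_lit 0)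 (p (nat_lit 0x8a090988079a) (nat_lit 0) (p (nat_lit 0x108088907871a) (nat_lit 0) (p (nat_lit 0x87880887069a) (nat_lit 0) (p (nat_lit 0x8000080000000088806860a) (nat_lit 0) (p (nat_lit 0x8000080000000068786058a) (nat_lit 0) (p (nat_lit 0x10687058502) (nat_lit 0) (p (nat_lit 0x8606850482) (nat_lit 0) (p (nat_lit 0x160004) (nat_lit 0) (p (nat_lit 0x68612) (nat_lit 0) (p (nat_lit 0x50592) (nat_lit 0) (p (nat_lit 0x40512) (nat_lit 0) (p (nat_lit 0x50312) (nat_lit 0) (p (nat_lit 0x38292) (nat_lit 0) (p (nat_lit 0x28212) (nat_lit 0) (p (nat_lit 0x38112) (nat_lit 0) (p (nat_lit 0x20092) (nat_lit 0) (p (nat_lit 0x10012) (nat_lit 0) pn)))))))))))))))))))))))))))))))))) :=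
  Cl.node (nat_lit 0x111) (nat_lit 2) (by decide +kernel) (ClAll.succ (ClAll.succ ClAll.zero n112) s789)

def n140 : Cl (O (nat_lit 6)) (R (nat_lit 143633))
    (p (nat_lit 0x100014) (nat_lit 0) (p (nat_lit 0x108004) (nat_lit 0) (p (nat_lit 0xb0004) (nat_lit 1) (p (nat_lit 0x41) (nat_lit 1) (p (nat_lit 0x380c2) (nat_lit 0) (p (nat_lit 0x44c2a) (nat_lit 0) (p (nat_lit 0x109) (nat_lit 1) (p (nat_lit 0x200014) (nat_lit 0) (p (nat_lit 0x20000c) (nat_lit 0) (p (nat_lit 0xd1) (nat_lit 0) (p (nat_lit 0xc1) (nat_lit 0) (p (nat_lit 0x101) (nat_lit 1) (p (nat_lit 0x119) (nat_lit 0) (p (nat_lit 0xc9) (nat_lit 0) (p (nat_lit 0x89) (nat_lit 1) (p (nat_lit 0x41) (nat_lit 0) (p (nat_lit 0x10a898a08881a) (nat_lit 0) (p (nat_lit 0x8a090988079a) (nat_lit 0) (p (nat_lit 0x108088907871a) (nat_lit 0) (p (nat_lit 0x87880887069a) (nat_lit 0) (p (nat_lit 0x8000080000000088806860a) (nat_lit 0) (p (nat_lit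 0x8000080000000068786058a) (nat_lit 0) (p (nat_lit 0x10687058502) (nat_lit 0) (p (nat_lit 0x8606850482) (nat_lit 0) (p (nat_lit 0x160004) (nat_lit 0) (p (nat_lit 0x68612) (nat_lit 0) (p (nat_lit 0x50592) (nat_lit 0) (p (nat_lit 0x40512) (nat_lit 0) (p (nat_lit 0x50312) (nat_lit 0) (p (nat_lit 0x38292) (nat_lit 0) (p (nat_lit 0x28212) (nat_lit 0) (p (nat_lit 0x38112) (nat_lit 0) (p (nat_lit 0x20092) (nat_lit 0) (p (nat_lit 0x10012) (nat_lit 0) pn)))))))))))))))))))))))))))))))))) :=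
  Cl.node (nat_lit 0x2680d2a825800000b8c8b0a8a) (nat_lit 1) (by decide +kernel) (ClAll.succ ClAll.zero n113)

def n141 : Cl (O (nat_lit 6)) (R (nat_lit 143633))
    (p (nat_lit 0x100014) (nat_lit 0) (p (nat_lit 0xc9) (nat_lit 0) (p (nat_lit 0x10000c) (nat_lit 0) (p (nat_lit 0x200014) (nat_lit 0) (p (nat_lit 0x20000c) (nat_lit 0) (p (nat_lit 0xb0004) (nat_lit 0) (p (nat_lit 0x380c2) (nat_lit 0) (p (nat_lit 0x3c4aa) (nat_lit 7) (p (nat_lit 0xd1) (nat_lit 1) (p (nat_lit 0x111) (nat_lit 1) (p (nat_lit 0x109) (nat_lit 0) (p (nat_lit 0x101) (nat_lit 0) (p (nat_lit 0x119) (nat_lit 0) (p (nat_lit 0xc1) (nat_lit 0) (p (nat_lit 0x81) (nat_lit 1) (p (nat_lit 0x41) (nat_lit 1) (p (nat_lit 0x10a898a08881a) (nat_lit 0) (p (nat_lit 0x8a090988079a) (nat_lit 0) (p (nat_lit 0x108088907871a) (nat_lit 0) (p (nat_lit 0x87880887069a) (nat_lit 0) (p (nat_lit 0x8000080000000088806860a) (nat_lit 0) (p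 (nat_lit 0x8000080000000068786058a) (nat_lit 0) (p (nat_lit 0x10687058502) (nat_lit 0) (p (nat_lit 0x8606850482) (nat_lit 0) (p (nat_lit 0x160004) (nat_lit 0) (p (nat_lit 0x68612) (nat_lit 0) (p (nat_lit 0x50592) (nat_lit 0) (p (nat_lit 0x40512) (nat_lit 0) (p (nat_lit 0x50312) (nat_lit 0) (p (nat_lit 0x38292) (nat_lit 0) (p (nat_lit 0x28212) (nat_lit 0) (p (nat_lit 0x38112) (nat_lit 0) (p (nat_lit 0x20092) (nat_lit 0) (p (nat_lit 0x10012) (nat_lit 0) pn)))))))))))))))))))))))))))))))))) :=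
  Cl.node (nat_lit 0x8000c) (nat_lit 2) (by decide +kernel) (ClAll.succ (ClAll.succ ClAll.zero n114) n115)

def n142 : Cl (O (nat_lit 6)) (R (nat_lit 143633))
    (p (nat_lit 0x80014) (nat_lit 0) (p (nat_lit 0x100014) (nat_lit 0) (p (nat_lit 0x10000c) (nat_lit 0) (p (nat_lit 0x1fc014) (nat_lit 0) (p (nat_lit 0x1fc00c) (nat_lit 0) (p (nat_lit 0xb0004) (nat_lit 1) (p (nat_lit 0x380c2) (nat_lit 0) (p (nat_lit 0x3c4aa) (nat_lit 7) (p (nat_lit 0xd1) (nat_lit 1) (p (nat_lit 0x111) (nat_lit 1) (p (nat_lit 0x109) (nat_lit 0) (p (nat_lit 0x101) (nat_lit 0) (p (nat_lit 0x119) (nat_lit 0) (p (nat_lit 0xc1) (nat_lit 0) (p (nat_lit 0x81) (nat_lit 1) (p (nat_lit 0x41) (nat_lit 1) (p (nat_lit 0x10a898a08881a) (nat_lit 0) (p (nat_lit 0x8a090988079a) (nat_lit 0) (p (nat_lit 0x108088907871a) (nat_lit 0) (p (nat_lit 0x87880887069a) (nat_lit 0) (p (nat_lit 0x8000080000000088806860a) (nat_lit 0)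 (p (nat_lit 0x8000080000000068786058a) (nat_lit 0) (p (nat_lit 0x10687058502) (nat_lit 0) (p (nat_lit 0x8606850482) (nat_lit 0) (p (nat_lit 0x160004) (nat_lit 0) (p (nat_lit 0x68612) (nat_lit 0) (p (nat_lit 0x50592) (nat_lit 0) (p (nat_lit 0x40512) (nat_lit 0) (p (nat_lit 0x50312) (nat_lit 0) (p (nat_lit 0x38292) (nat_lit 0) (p (nat_lit 0x28212) (nat_lit 0) (p (nat_lit 0x38112) (nat_lit 0) (p (nat_lit 0x20092) (nat_lit 0) (p (nat_lit 0x10012) (nat_lit 0) pn)))))))))))))))))))))))))))))))))) :=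
  Cl.node (nat_lit 0x40014) (nat_lit 2) (by decide +kernel) (ClAll.succ (ClAll.succ ClAll.zero n116) s1530)

def n143 : Cl (O (nat_lit 6)) (R (nat_lit 143633))
    (p (nat_lit 0x80014) (nat_lit 0) (p (nat_lit 0x100014) (nat_lit 0) (p (nat_lit 0x10000c) (nat_lit 0) (p (nat_lit 0x1fc014) (nat_lit 0) (p (nat_lit 0x1fc00c) (nat_lit 0) (p (nat_lit 0xb0004) (nat_lit 1) (p (nat_lit 0x380c2) (nat_lit 1) (p (nat_lit 0x3c4aa) (nat_lit 7) (p (nat_lit 0xd1) (nat_lit 1) (p (nat_lit 0x111) (nat_lit 1) (p (nat_lit 0x109) (nat_lit 0) (p (nat_lit 0x101) (nat_lit 0) (p (nat_lit 0x119) (nat_lit 0) (p (nat_lit 0xc1) (nat_lit 0) (p (nat_lit 0x81) (nat_lit 1) (p (nat_lit 0x41) (nat_lit 1) (p (nat_lit 0x10a898a08881a) (nat_lit 0) (p (nat_lit 0x8a090988079a) (nat_lit 0) (p (nat_lit 0x108088907871a) (nat_lit 0) (p (nat_lit 0x87880887069a) (nat_lit 0) (p (nat_lit 0x8000080000000088806860a) (nat_lit 0)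 (p (nat_lit 0x8000080000000068786058a) (nat_lit 0) (p (nat_lit 0x10687058502) (nat_lit 0) (p (nat_lit 0x8606850482) (nat_lit 0) (p (nat_lit 0x160004) (nat_lit 0) (p (nat_lit 0x68612) (nat_lit 0) (p (nat_lit 0x50592) (nat_lit 0) (p (nat_lit 0x40512) (nat_lit 0) (p (nat_lit 0x50312) (nat_lit 0) (p (nat_lit 0x38292) (nat_lit 0) (p (nat_lit 0x28212) (nat_lit 0) (p (nat_lit 0x38112) (nat_lit 0) (p (nat_lit 0x20092) (nat_lit 0) (p (nat_lit 0x10012) (nat_lit 0) pn)))))))))))))))))))))))))))))))))) :=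
  Cl.node (nat_lit 0x40014) (nat_lit 2) (by decide +kernel) (ClAll.succ (ClAll.succ ClAll.zero n117) s1556)

def n144 : Cl (O (nat_lit 6)) (R (nat_lit 143633))
    (p (nat_lit 0x380c2) (nat_lit 0) (p (nat_lit 0x4c42a) (nat_lit 2) (p (nat_lit 0xd1) (nat_lit 0) (p (nat_lit 0xc1) (nat_lit 0) (p (nat_lit 0x200014) (nat_lit 0) (p (nat_lit 0x20000c) (nat_lit 0) (p (nat_lit 0xb0004) (nat_lit 0) (p (nat_lit 0x380c2) (nat_lit 0) (p (nat_lit 0x3c4aa) (nat_lit 7) (p (nat_lit 0xd1) (nat_lit 1) (p (nat_lit 0xc9) (nat_lit 0) (p (nat_lit 0x101) (nat_lit 1) (p (nat_lit 0x119) (nat_lit 0) (p (nat_lit 0xc1) (nat_lit 0) (p (nat_lit 0x81) (nat_lit 1) (p (nat_lit 0x41) (nat_lit 1) (p (nat_lit 0x10a898a08881a) (nat_lit 0) (p (nat_lit 0x8a090988079a) (nat_lit 0) (p (nat_lit 0x108088907871a) (nat_lit 0) (p (nat_lit 0x87880887069a) (nat_lit 0) (p (nat_lit 0x8000080000000088806860a) (nat_lit 0) (p (nat_lit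 0x8000080000000068786058a) (nat_lit 0) (p (nat_lit 0x10687058502) (nat_lit 0) (p (nat_lit 0x8606850482) (nat_lit 0) (p (nat_lit 0x160004) (nat_lit 0) (p (nat_lit 0x68612) (nat_lit 0) (p (nat_lit 0x50592) (nat_lit 0) (p (nat_lit 0x40512) (nat_lit 0) (p (nat_lit 0x50312) (nat_lit 0) (p (nat_lit 0x38292) (nat_lit 0) (p (nat_lit 0x28212) (nat_lit 0) (p (nat_lit 0x38112) (nat_lit 0) (p (nat_lit 0x20092) (nat_lit 0) (p (nat_lit 0x10012) (nat_lit 0) pn)))))))))))))))))))))))))))))))))) :=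
  Cl.node (nat_lit 0x10000c) (nat_lit 2) (by decide +kernel) (ClAll.succ (ClAll.succ ClAll.zero s1638) s1639)

def n145 : Cl (O (nat_lit 6)) (R (nat_lit 143633))
    (p (nat_lit 0x40014) (nat_lit 0) (p (nat_lit 0x80014) (nat_lit 0) (p (nat_lit 0x100014) (nat_lit 0) (p (nat_lit 0x10000c) (nat_lit 0) (p (nat_lit 0x1fc014) (nat_lit 0) (p (nat_lit 0x1fc00c) (nat_lit 0) (p (nat_lit 0xb0004) (nat_lit 1) (p (nat_lit 0x380c2) (nat_lit 0) (p (nat_lit 0x3c4aa) (nat_lit 7) (p (nat_lit 0xd1) (nat_lit 1) (p (nat_lit 0xc9) (nat_lit 0) (p (nat_lit 0x101) (nat_lit 1) (p (nat_lit 0x119) (nat_lit 0) (p (nat_lit 0xc1) (nat_lit 0) (p (nat_lit 0x81) (nat_lit 1) (p (nat_lit 0x41) (nat_lit 1) (p (nat_lit 0x10a898a08881a) (nat_lit 0) (p (nat_lit 0x8a090988079a) (nat_lit 0) (p (nat_lit 0x108088907871a) (nat_lit 0) (p (nat_lit 0x87880887069a) (nat_lit 0) (p (nat_lit 0x8000080000000088806860a) (nat_lit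 0) (p (nat_lit 0x8000080000000068786058a) (nat_lit 0) (p (nat_lit 0x10687058502) (nat_lit 0) (p (nat_lit 0x8606850482) (nat_lit 0) (p (nat_lit 0x160004) (nat_lit 0) (p (nat_lit 0x68612) (nat_lit 0) (p (nat_lit 0x50592) (nat_lit 0) (p (nat_lit 0x40512) (nat_lit 0) (p (nat_lit 0x50312) (nat_lit 0) (p (nat_lit 0x38292) (nat_lit 0) (p (nat_lit 0x28212) (nat_lit 0) (p (nat_lit 0x38112) (nat_lit 0) (p (nat_lit 0x20092) (nat_lit 0) (p (nat_lit 0x10012) (nat_lit 0) pn)))))))))))))))))))))))))))))))))) :=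
  Cl.node (nat_lit 0x228012680d000000b8c8b0a8a) (nat_lit 1) (by decide +kernel) (ClAll.succ ClAll.zero n118)

def n146 : Cl (O (nat_lit 6)) (R (nat_lit 143633))
    (p (nat_lit 0x41) (nat_lit 0) (p (nat_lit 0x89) (nat_lit 0) (p (nat_lit 0x10000c) (nat_lit 0) (p (nat_lit 0x100014) (nat_lit 0) (p (nat_lit 0xb0004) (nat_lit 0) (p (nat_lit 0x200014) (nat_lit 0) (p (nat_lit 0x20000c) (nat_lit 0) (p (nat_lit 0x380c2) (nat_lit 1) (p (nat_lit 0x3c4aa) (nat_lit 7) (p (nat_lit 0xd1) (nat_lit 1) (p (nat_lit 0xc9) (nat_lit 0) (p (nat_lit 0x101) (nat_lit 1) (p (nat_lit 0x119) (nat_lit 0) (p (nat_lit 0xc1) (nat_lit 0) (p (nat_lit 0x81) (nat_lit 1) (p (nat_lit 0x41) (nat_lit 1) (p (nat_lit 0x10a898a08881a) (nat_lit 0) (p (nat_lit 0x8a090988079a) (nat_lit 0) (p (nat_lit 0x108088907871a) (nat_lit 0) (p (nat_lit 0x87880887069a) (nat_lit 0) (p (nat_lit 0x8000080000000088806860a) (nat_lit 0) (p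 (nat_lit 0x8000080000000068786058a) (nat_lit 0) (p (nat_lit 0x10687058502) (nat_lit 0) (p (nat_lit 0x8606850482) (nat_lit 0) (p (nat_lit 0x160004) (nat_lit 0) (p (nat_lit 0x68612) (nat_lit 0) (p (nat_lit 0x50592) (nat_lit 0) (p (nat_lit 0x40512) (nat_lit 0) (p (nat_lit 0x50312) (nat_lit 0) (p (nat_lit 0x38292) (nat_lit 0) (p (nat_lit 0x28212) (nat_lit 0) (p (nat_lit 0x38112) (nat_lit 0) (p (nat_lit 0x20092) (nat_lit 0) (p (nat_lit 0x10012) (nat_lit 0) pn)))))))))))))))))))))))))))))))))) :=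
  Cl.node (nat_lit 0x89) (nat_lit 2) (by decide +kernel) (ClAll.succ (ClAll.succ ClAll.zero s1663) s1664)

def n147 : Cl (O (nat_lit 6)) (R (nat_lit 143633))
    (p (nat_lit 0x41) (nat_lit 1) (p (nat_lit 0x89) (nat_lit 0) (p (nat_lit 0x10000c) (nat_lit 0) (p (nat_lit 0x100014) (nat_lit 0) (p (nat_lit 0xb0004) (nat_lit 0) (p (nat_lit 0x200014) (nat_lit 0) (p (nat_lit 0x20000c) (nat_lit 0) (p (nat_lit 0x380c2) (nat_lit 1) (p (nat_lit 0x3c4aa) (nat_lit 7) (p (nat_lit 0xd1) (nat_lit 1) (p (nat_lit 0xc9) (nat_lit 0) (p (nat_lit 0x101) (nat_lit 1) (p (nat_lit 0x119) (nat_lit 0) (p (nat_lit 0xc1) (nat_lit 0) (p (nat_lit 0x81) (nat_lit 1) (p (nat_lit 0x41) (nat_lit 1) (p (nat_lit 0x10a898a08881a) (nat_lit 0) (p (nat_lit 0x8a090988079a) (nat_lit 0) (p (nat_lit 0x108088907871a) (nat_lit 0) (p (nat_lit 0x87880887069a) (nat_lit 0) (p (nat_lit 0x8000080000000088806860a) (nat_lit 0) (p (nat_lit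 0x8000080000000068786058a) (nat_lit 0) (p (nat_lit 0x10687058502) (nat_lit 0) (p (nat_lit 0x8606850482) (nat_lit 0) (p (nat_lit 0x160004) (nat_lit 0) (p (nat_lit 0x68612) (nat_lit 0) (p (nat_lit 0x50592) (nat_lit 0) (p (nat_lit 0x40512) (nat_lit 0) (p (nat_lit 0x50312) (nat_lit 0) (p (nat_lit 0x38292) (nat_lit 0) (p (nat_lit 0x28212) (nat_lit 0) (p (nat_lit 0x38112) (nat_lit 0) (p (nat_lit 0x20092) (nat_lit 0) (p (nat_lit 0x10012) (nat_lit 0) pn)))))))))))))))))))))))))))))))))) :=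
  Cl.node (nat_lit 0x89) (nat_lit 2) (by decide +kernel) (ClAll.succ (ClAll.succ ClAll.zero n119) s1678)

def n148 : Cl (O (nat_lit 6)) (R (nat_lit 143633))
    (p (nat_lit 0x2680d2680d000000b8c8b0a8a) (nat_lit 0) (p (nat_lit 0x108004) (nat_lit 0) (p (nat_lit 0x100014) (nat_lit 0) (p (nat_lit 0x10000c) (nat_lit 0) (p (nat_lit 0x1fc014) (nat_lit 0) (p (nat_lit 0x1fc00c) (nat_lit 0) (p (nat_lit 0xb0004) (nat_lit 1) (p (nat_lit 0x380c2) (nat_lit 0) (p (nat_lit 0x3c4aa) (nat_lit 7) (p (nat_lit 0x111) (nat_lit 1) (p (nat_lit 0xd1) (nat_lit 1) (p (nat_lit 0xc9) (nat_lit 0) (p (nat_lit 0x119) (nat_lit 1) (p (nat_lit 0xc1) (nat_lit 0) (p (nat_lit 0x81) (nat_lit 1) (p (nat_lit 0x41) (nat_lit 1) (p (nat_lit 0x10a898a08881a) (nat_lit 0) (p (nat_lit 0x8a090988079a) (nat_lit 0) (p (nat_lit 0x108088907871a) (nat_lit 0) (p (nat_lit 0x87880887069a) (nat_lit 0) (p (nat_lit 0x8000080000000088806860a)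 (nat_lit 0) (p (nat_lit 0x8000080000000068786058a) (nat_lit 0) (p (nat_lit 0x10687058502) (nat_lit 0) (p (nat_lit 0x8606850482) (nat_lit 0) (p (nat_lit 0x160004) (nat_lit 0) (p (nat_lit 0x68612) (nat_lit 0) (p (nat_lit 0x50592) (nat_lit 0) (p (nat_lit 0x40512) (nat_lit 0) (p (nat_lit 0x50312) (nat_lit 0) (p (nat_lit 0x38292) (nat_lit 0) (p (nat_lit 0x28212) (nat_lit 0) (p (nat_lit 0x38112) (nat_lit 0) (p (nat_lit 0x20092) (nat_lit 0) (p (nat_lit 0x10012) (nat_lit 0) pn)))))))))))))))))))))))))))))))))) :=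
  Cl.node (nat_lit 0x2680d2680d000000d8d0b8b0a) (nat_lit 1) (by decide +kernel) (ClAll.succ ClAll.zero n120)

def n149 : Cl (O (nat_lit 6)) (R (nat_lit 143633))
    (p (nat_lit 0x10000c) (nat_lit 0) (p (nat_lit 0xc1) (nat_lit 0) (p (nat_lit 0x20000c) (nat_lit 0) (p (nat_lit 0x81) (nat_lit 1) (p (nat_lit 0xb0004) (nat_lit 0) (p (nat_lit 0x380c2) (nat_lit 1) (p (nat_lit 0x444aa) (nat_lit 7) (p (nat_lit 0x81) (nat_lit 1) (p (nat_lit 0xc9) (nat_lit 1) (p (nat_lit 0x109) (nat_lit 1) (p (nat_lit 0x101) (nat_lit 0) (p (nat_lit 0x119) (nat_lit 0) (p (nat_lit 0xd1) (nat_lit 0) (p (nat_lit 0x89) (nat_lit 0) (p (nat_lit 0x41) (nat_lit 0) (p (nat_lit 0x10a898a08881a) (nat_lit 0) (p (nat_lit 0x8a090988079a) (nat_lit 0) (p (nat_lit 0x108088907871a) (nat_lit 0) (p (nat_lit 0x87880887069a) (nat_lit 0) (p (nat_lit 0x8000080000000088806860a) (nat_lit 0) (p (nat_lit 0x8000080000000068786058a) (nat_lit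 0) (p (nat_lit 0x10687058502) (nat_lit 0) (p (nat_lit 0x8606850482) (nat_lit 0) (p (nat_lit 0x160004) (nat_lit 0) (p (nat_lit 0x68612) (nat_lit 0) (p (nat_lit 0x50592) (nat_lit 0) (p (nat_lit 0x40512) (nat_lit 0) (p (nat_lit 0x50312) (nat_lit 0) (p (nat_lit 0x38292) (nat_lit 0) (p (nat_lit 0x28212) (nat_lit 0) (p (nat_lit 0x38112) (nat_lit 0) (p (nat_lit 0x20092) (nat_lit 0) (p (nat_lit 0x10012) (nat_lit 0) pn))))))))))))))))))))))))))))))))) :=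
  Cl.node (nat_lit 0xd1) (nat_lit 2) (by decide +kernel) (ClAll.succ (ClAll.succ ClAll.zero s17) s18)

def n150 : Cl (O (nat_lit 6)) (R (nat_lit 143633))
    (p (nat_lit 0x10000c) (nat_lit 0) (p (nat_lit 0x100014) (nat_lit 0) (p (nat_lit 0x1fc014) (nat_lit 0) (p (nat_lit 0x1fc00c) (nat_lit 0) (p (nat_lit 0xb0004) (nat_lit 1) (p (nat_lit 0x380c2) (nat_lit 1) (p (nat_lit 0x444aa) (nat_lit 7) (p (nat_lit 0x81) (nat_lit 1) (p (nat_lit 0xc9) (nat_lit 1) (p (nat_lit 0x109) (nat_lit 1) (p (nat_lit 0x101) (nat_lit 0) (p (nat_lit 0x119) (nat_lit 0) (p (nat_lit 0xd1) (nat_lit 0) (p (nat_lit 0x89) (nat_lit 0) (p (nat_lit 0x41) (nat_lit 0) (p (nat_lit 0x10a898a08881a) (nat_lit 0) (p (nat_lit 0x8a090988079a) (nat_lit 0) (p (nat_lit 0x108088907871a) (nat_lit 0) (p (nat_lit 0x87880887069a) (nat_lit 0) (p (nat_lit 0x8000080000000088806860a) (nat_lit 0) (p (nat_lit 0x8000080000000068786058a)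 (nat_lit 0) (p (nat_lit 0x10687058502) (nat_lit 0) (p (nat_lit 0x8606850482) (nat_lit 0) (p (nat_lit 0x160004) (nat_lit 0) (p (nat_lit 0x68612) (nat_lit 0) (p (nat_lit 0x50592) (nat_lit 0) (p (nat_lit 0x40512) (nat_lit 0) (p (nat_lit 0x50312) (nat_lit 0) (p (nat_lit 0x38292) (nat_lit 0) (p (nat_lit 0x28212) (nat_lit 0) (p (nat_lit 0x38112) (nat_lit 0) (p (nat_lit 0x20092) (nat_lit 0) (p (nat_lit 0x10012) (nat_lit 0) pn))))))))))))))))))))))))))))))))) :=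
  Cl.node (nat_lit 0x2680d2680d000000b8c8b0a8a) (nat_lit 1) (by decide +kernel) (ClAll.succ ClAll.zero n121)

def n151 : Cl (O (nat_lit 6)) (R (nat_lit 143633))
    (p (nat_lit 0x200014) (nat_lit 0) (p (nat_lit 0x380c2) (nat_lit 1) (p (nat_lit 0x444aa) (nat_lit 7) (p (nat_lit 0xc1) (nat_lit 1) (p (nat_lit 0xb0004) (nat_lit 0) (p (nat_lit 0x380c2) (nat_lit 0) (p (nat_lit 0x4c42a) (nat_lit 2) (p (nat_lit 0x111) (nat_lit 0) (p (nat_lit 0xc9) (nat_lit 0) (p (nat_lit 0x81) (nat_lit 0) (p (nat_lit 0x101) (nat_lit 1) (p (nat_lit 0x119) (nat_lit 0) (p (nat_lit 0xd1) (nat_lit 0) (p (nat_lit 0x89) (nat_lit 0) (p (nat_lit 0x41) (nat_lit 0) (p (nat_lit 0x10a898a08881a) (nat_lit 0) (p (nat_lit 0x8a090988079a) (nat_lit 0) (p (nat_lit 0x108088907871a) (nat_lit 0) (p (nat_lit 0x87880887069a) (nat_lit 0) (p (nat_lit 0x8000080000000088806860a) (nat_lit 0) (p (nat_lit 0x8000080000000068786058a)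 (nat_lit 0) (p (nat_lit 0x10687058502) (nat_lit 0) (p (nat_lit 0x8606850482) (nat_lit 0) (p (nat_lit 0x160004) (nat_lit 0) (p (nat_lit 0x68612) (nat_lit 0) (p (nat_lit 0x50592) (nat_lit 0) (p (nat_lit 0x40512) (nat_lit 0) (p (nat_lit 0x50312) (nat_lit 0) (p (nat_lit 0x38292) (nat_lit 0) (p (nat_lit 0x28212) (nat_lit 0) (p (nat_lit 0x38112) (nat_lit 0) (p (nat_lit 0x20092) (nat_lit 0) (p (nat_lit 0x10012) (nat_lit 0) pn))))))))))))))))))))))))))))))))) :=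
  Cl.node (nat_lit 0x20000c) (nat_lit 2) (by decide +kernel) (ClAll.succ (ClAll.succ ClAll.zero n122) s47)

def n152 : Cl (O (nat_lit 6)) (R (nat_lit 143633))
    (p (nat_lit 0x100014) (nat_lit 0) (p (nat_lit 0x10000c) (nat_lit 0) (p (nat_lit 0x1fc014) (nat_lit 0) (p (nat_lit 0x1fc00c) (nat_lit 0) (p (nat_lit 0xb0004) (nat_lit 1) (p (nat_lit 0x380c2) (nat_lit 0) (p (nat_lit 0x4c42a) (nat_lit 2) (p (nat_lit 0x111) (nat_lit 0) (p (nat_lit 0xc9) (nat_lit 0) (p (nat_lit 0x81) (nat_lit 0) (p (nat_lit 0x101) (nat_lit 1) (p (nat_lit 0x119) (nat_lit 0) (p (nat_lit 0xd1) (nat_lit 0) (p (nat_lit 0x89) (nat_lit 0) (p (nat_lit 0x41) (nat_lit 0) (p (nat_lit 0x10a898a08881a) (nat_lit 0) (p (nat_lit 0x8a090988079a) (nat_lit 0) (p (nat_lit 0x108088907871a) (nat_lit 0) (p (nat_lit 0x87880887069a) (nat_lit 0) (p (nat_lit 0x8000080000000088806860a) (nat_lit 0) (p (nat_lit 0x8000080000000068786058a)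 (nat_lit 0) (p (nat_lit 0x10687058502) (nat_lit 0) (p (nat_lit 0x8606850482) (nat_lit 0) (p (nat_lit 0x160004) (nat_lit 0) (p (nat_lit 0x68612) (nat_lit 0) (p (nat_lit 0x50592) (nat_lit 0) (p (nat_lit 0x40512) (nat_lit 0) (p (nat_lit 0x50312) (nat_lit 0) (p (nat_lit 0x38292) (nat_lit 0) (p (nat_lit 0x28212) (nat_lit 0) (p (nat_lit 0x38112) (nat_lit 0) (p (nat_lit 0x20092) (nat_lit 0) (p (nat_lit 0x10012) (nat_lit 0) pn))))))))))))))))))))))))))))))))) :=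
  Cl.node (nat_lit 0x2680d2680d000000b8c8b0a8a) (nat_lit 1) (by decide +kernel) (ClAll.succ ClAll.zero n123)

def n153 : Cl (O (nat_lit 6)) (R (nat_lit 143633))
    (p (nat_lit 0x4c42a) (nat_lit 2) (p (nat_lit 0x89) (nat_lit 0) (p (nat_lit 0x10000c) (nat_lit 0) (p (nat_lit 0x20000c) (nat_lit 0) (p (nat_lit 0xb0004) (nat_lit 0) (p (nat_lit 0x380c2) (nat_lit 1) (p (nat_lit 0x444aa) (nat_lit 7) (p (nat_lit 0x111) (nat_lit 0) (p (nat_lit 0xc9) (nat_lit 1) (p (nat_lit 0x81) (nat_lit 0) (p (nat_lit 0x101) (nat_lit 1) (p (nat_lit 0x119) (nat_lit 0) (p (nat_lit 0xd1) (nat_lit 0) (p (nat_lit 0x89) (nat_lit 0) (p (nat_lit 0x41) (nat_lit 0) (p (nat_lit 0x10a898a08881a) (nat_lit 0) (p (nat_lit 0x8a090988079a) (nat_lit 0) (p (nat_lit 0x108088907871a) (nat_lit 0) (p (nat_lit 0x87880887069a) (nat_lit 0) (p (nat_lit 0x8000080000000088806860a) (nat_lit 0) (p (nat_lit 0x8000080000000068786058a)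 (nat_lit 0) (p (nat_lit 0x10687058502) (nat_lit 0) (p (nat_lit 0x8606850482) (nat_lit 0) (p (nat_lit 0x160004) (nat_lit 0) (p (nat_lit 0x68612) (nat_lit 0) (p (nat_lit 0x50592) (nat_lit 0) (p (nat_lit 0x40512) (nat_lit 0) (p (nat_lit 0x50312) (nat_lit 0) (p (nat_lit 0x38292) (nat_lit 0) (p (nat_lit 0x28212) (nat_lit 0) (p (nat_lit 0x38112) (nat_lit 0) (p (nat_lit 0x20092) (nat_lit 0) (p (nat_lit 0x10012) (nat_lit 0) pn))))))))))))))))))))))))))))))))) :=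
  Cl.node (nat_lit 0x380c2) (nat_lit 1) (by decide +kernel) (ClAll.succ ClAll.zero n124)

def n154 : Cl (O (nat_lit 6)) (R (nat_lit 143633))
    (p (nat_lit 0xc9) (nat_lit 0) (p (nat_lit 0x89) (nat_lit 1) (p (nat_lit 0x10000c) (nat_lit 0) (p (nat_lit 0x20000c) (nat_lit 0) (p (nat_lit 0xb0004) (nat_lit 0) (p (nat_lit 0x380c2) (nat_lit 1) (p (nat_lit 0x444aa) (nat_lit 7) (p (nat_lit 0x111) (nat_lit 0) (p (nat_lit 0xc9) (nat_lit 1) (p (nat_lit 0x81) (nat_lit 0) (p (nat_lit 0x101) (nat_lit 1) (p (nat_lit 0x119) (nat_lit 0) (p (nat_lit 0xd1) (nat_lit 0) (p (nat_lit 0x89) (nat_lit 0) (p (nat_lit 0x41) (nat_lit 0) (p (nat_lit 0x10a898a08881a) (nat_lit 0) (p (nat_lit 0x8a090988079a) (nat_lit 0) (p (nat_lit 0x108088907871a) (nat_lit 0) (p (nat_lit 0x87880887069a) (nat_lit 0) (p (nat_lit 0x8000080000000088806860a) (nat_lit 0) (p (nat_lit 0x8000080000000068786058a) (nat_lit 0) (p (nat_lit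 0x10687058502) (nat_lit 0) (p (nat_lit 0x8606850482) (nat_lit 0) (p (nat_lit 0x160004) (nat_lit 0) (p (nat_lit 0x68612) (nat_lit 0) (p (nat_lit 0x50592) (nat_lit 0) (p (nat_lit 0x40512) (nat_lit 0) (p (nat_lit 0x50312) (nat_lit 0) (p (nat_lit 0x38292) (nat_lit 0) (p (nat_lit 0x28212) (nat_lit 0) (p (nat_lit 0x38112) (nat_lit 0) (p (nat_lit 0x20092) (nat_lit 0) (p (nat_lit 0x10012) (nat_lit 0) pn))))))))))))))))))))))))))))))))) :=
  Cl.node (nat_lit 0x119) (nat_lit 2) (by decide +kernel) (ClAll.succ (ClAll.succ ClAll.zero s134) s135)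

def n155 : Cl (O (nat_lit 6)) (R (nat_lit 143633))
    (p (nat_lit 0x10000c) (nat_lit 0) (p (nat_lit 0x100014) (nat_lit 0) (p (nat_lit 0x1fc014) (nat_lit 0) (p (nat_lit 0x1fc00c) (nat_lit 0) (p (nat_lit 0xb0004) (nat_lit 1) (p (nat_lit 0x380c2) (nat_lit 1) (p (nat_lit 0x444aa) (nat_lit 7) (p (nat_lit 0x111) (nat_lit 0) (p (nat_lit 0xc9) (nat_lit 1) (p (nat_lit 0x81) (nat_lit 0) (p (nat_lit 0x101) (nat_lit 1) (p (nat_lit 0x119) (nat_lit 0) (p (nat_lit 0xd1) (nat_lit 0) (p (nat_lit 0x89) (nat_lit 0) (p (nat_lit 0x41) (nat_lit 0) (p (nat_lit 0x10a898a08881a) (nat_lit 0) (p (nat_lit 0x8a090988079a) (nat_lit 0) (p (nat_lit 0x108088907871a) (nat_lit 0) (p (nat_lit 0x87880887069a) (nat_lit 0) (p (nat_lit 0x8000080000000088806860a) (nat_lit 0) (p (nat_lit 0x8000080000000068786058a) (nat_lit 0) (p (nat_lit 0x10687058502) (nat_lit 0) (p (nat_lit 0x8606850482) (nat_lit 0) (p (nat_lit 0x160004)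 (nat_lit 0) (p (nat_lit 0x68612) (nat_lit 0) (p (nat_lit 0x50592) (nat_lit 0) (p (nat_lit 0x40512) (nat_lit 0) (p (nat_lit 0x50312) (nat_lit 0) (p (nat_lit 0x38292) (nat_lit 0) (p (nat_lit 0x28212) (nat_lit 0) (p (nat_lit 0x38112) (nat_lit 0) (p (nat_lit 0x20092) (nat_lit 0) (p (nat_lit 0x10012) (nat_lit 0) pn))))))))))))))))))))))))))))))))) :=
  Cl.node (nat_lit 0x2680d2680d000000b8c8b0a8a) (nat_lit 1) (by decide +kernel) (ClAll.succ ClAll.zero n125)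

def n156 : Cl (O (nat_lit 6)) (R (nat_lit 143633))
    (p (nat_lit 0x100014) (nat_lit 0) (p (nat_lit 0x10000c) (nat_lit 0) (p (nat_lit 0x1fc014) (nat_lit 0) (p (nat_lit 0x1fc00c) (nat_lit 0) (p (nat_lit 0xb0004) (nat_lit 1) (p (nat_lit 0x380c2) (nat_lit 0) (p (nat_lit 0x4c42a) (nat_lit 2) (p (nat_lit 0xc9) (nat_lit 0) (p (nat_lit 0xc1) (nat_lit 0) (p (nat_lit 0x81) (nat_lit 1) (p (nat_lit 0x101) (nat_lit 1) (p (nat_lit 0x119) (nat_lit 0) (p (nat_lit 0xd1) (nat_lit 0) (p (nat_lit 0x89) (nat_lit 0) (p (nat_lit 0x41) (nat_lit 0) (p (nat_lit 0x10a898a08881a) (nat_lit 0) (p (nat_lit 0x8a090988079a) (nat_lit 0) (p (nat_lit 0x108088907871a) (nat_lit 0) (p (nat_lit 0x87880887069a) (nat_lit 0) (p (nat_lit 0x8000080000000088806860a) (nat_lit 0) (p (nat_lit 0x8000080000000068786058a) (nat_lit 0) (p (nat_lit 0x10687058502) (nat_lit 0) (p (nat_lit 0x8606850482) (nat_lit 0) (p (nat_lit 0x160004)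 (nat_lit 0) (p (nat_lit 0x68612) (nat_lit 0) (p (nat_lit 0x50592) (nat_lit 0) (p (nat_lit 0x40512) (nat_lit 0) (p (nat_lit 0x50312) (nat_lit 0) (p (nat_lit 0x38292) (nat_lit 0) (p (nat_lit 0x28212) (nat_lit 0) (p (nat_lit 0x38112) (nat_lit 0) (p (nat_lit 0x20092) (nat_lit 0) (p (nat_lit 0x10012) (nat_lit 0) pn))))))))))))))))))))))))))))))))) :=
  Cl.node (nat_lit 0x2680d2680d000000b8c8b0a8a) (nat_lit 1) (by decide +kernel) (ClAll.succ ClAll.zero n126)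

def n157 : Cl (O (nat_lit 6)) (R (nat_lit 143633))
    (p (nat_lit 0x100014) (nat_lit 0) (p (nat_lit 0x10000c) (nat_lit 0) (p (nat_lit 0x1fc014) (nat_lit 0) (p (nat_lit 0x1fc00c) (nat_lit 0) (p (nat_lit 0xb0004) (nat_lit 1) (p (nat_lit 0x380c2) (nat_lit 1) (p (nat_lit 0x444aa) (nat_lit 7) (p (nat_lit 0x109) (nat_lit 1) (p (nat_lit 0x101) (nat_lit 0) (p (nat_lit 0x81) (nat_lit 1) (p (nat_lit 0xc1) (nat_lit 1) (p (nat_lit 0x119) (nat_lit 1) (p (nat_lit 0xd1) (nat_lit 0) (p (nat_lit 0x89) (nat_lit 0) (p (nat_lit 0x41) (nat_lit 0) (p (nat_lit 0x10a898a08881a) (nat_lit 0) (p (nat_lit 0x8a090988079a) (nat_lit 0) (p (nat_lit 0x108088907871a) (nat_lit 0) (p (nat_lit 0x87880887069a) (nat_lit 0) (p (nat_lit 0x8000080000000088806860a) (nat_lit 0) (p (nat_lit 0x8000080000000068786058a) (nat_lit 0) (p (nat_lit 0x10687058502) (nat_lit 0) (p (nat_lit 0x8606850482) (nat_lit 0) (p (nat_lit 0x160004)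 (nat_lit 0) (p (nat_lit 0x68612) (nat_lit 0) (p (nat_lit 0x50592) (nat_lit 0) (p (nat_lit 0x40512) (nat_lit 0) (p (nat_lit 0x50312) (nat_lit 0) (p (nat_lit 0x38292) (nat_lit 0) (p (nat_lit 0x28212) (nat_lit 0) (p (nat_lit 0x38112) (nat_lit 0) (p (nat_lit 0x20092) (nat_lit 0) (p (nat_lit 0x10012) (nat_lit 0) pn))))))))))))))))))))))))))))))))) :=
  Cl.node (nat_lit 0x2680d2680d000000b8c8b0a8a) (nat_lit 1) (by decide +kernel) (ClAll.succ ClAll.zero n127)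

def n158 : Cl (O (nat_lit 6)) (R (nat_lit 143633))
    (p (nat_lit 0xb0004) (nat_lit 0) (p (nat_lit 0x100014) (nat_lit 0) (p (nat_lit 0x10000c) (nat_lit 0) (p (nat_lit 0x380c2) (nat_lit 0) (p (nat_lit 0x4c42a) (nat_lit 2) (p (nat_lit 0x109) (nat_lit 0) (p (nat_lit 0x200014) (nat_lit 0) (p (nat_lit 0x20000c) (nat_lit 0) (p (nat_lit 0x119) (nat_lit 0) (p (nat_lit 0x81) (nat_lit 0) (p (nat_lit 0x101) (nat_lit 1) (p (nat_lit 0x111) (nat_lit 0) (p (nat_lit 0xd1) (nat_lit 1) (p (nat_lit 0x89) (nat_lit 0) (p (nat_lit 0x41) (nat_lit 0) (p (nat_lit 0x10a898a08881a) (nat_lit 0) (p (nat_lit 0x8a090988079a) (nat_lit 0) (p (nat_lit 0x108088907871a) (nat_lit 0) (p (nat_lit 0x87880887069a) (nat_lit 0) (p (nat_lit 0x8000080000000088806860a) (nat_lit 0) (p (nat_lit 0x8000080000000068786058a) (nat_lit 0) (p (nat_lit 0x10687058502) (nat_lit 0) (p (nat_lit 0x8606850482) (nat_lit 0) (p (nat_lit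 0x160004) (nat_lit 0) (p (nat_lit 0x68612) (nat_lit 0) (p (nat_lit 0x50592) (nat_lit 0) (p (nat_lit 0x40512) (nat_lit 0) (p (nat_lit 0x50312) (nat_lit 0) (p (nat_lit 0x38292) (nat_lit 0) (p (nat_lit 0x28212) (nat_lit 0) (p (nat_lit 0x38112) (nat_lit 0) (p (nat_lit 0x20092) (nat_lit 0) (p (nat_lit 0x10012) (nat_lit 0) pn))))))))))))))))))))))))))))))))) :=
  Cl.node (nat_lit 0x80014) (nat_lit 2) (by decide +kernel) (ClAll.succ (ClAll.succ ClAll.zero n128) s495)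

def n159 : Cl (O (nat_lit 6)) (R (nat_lit 143633))
    (p (nat_lit 0xb0004) (nat_lit 1) (p (nat_lit 0x100014) (nat_lit 0) (p (nat_lit 0x10000c) (nat_lit 0) (p (nat_lit 0x380c2) (nat_lit 0) (p (nat_lit 0x4c42a) (nat_lit 2) (p (nat_lit 0x109) (nat_lit 0) (p (nat_lit 0x200014) (nat_lit 0) (p (nat_lit 0x20000c) (nat_lit 0) (p (nat_lit 0x119) (nat_lit 0) (p (nat_lit 0x81) (nat_lit 0) (p (nat_lit 0x101) (nat_lit 1) (p (nat_lit 0x111) (nat_lit 0) (p (nat_lit 0xd1) (nat_lit 1) (p (nat_lit 0x89) (nat_lit 0) (p (nat_lit 0x41) (nat_lit 0) (p (nat_lit 0x10a898a08881a) (nat_lit 0) (p (nat_lit 0x8a090988079a) (nat_lit 0) (p (nat_lit 0x108088907871a) (nat_lit 0) (p (nat_lit 0x87880887069a) (nat_lit 0) (p (nat_lit 0x8000080000000088806860a) (nat_lit 0) (p (nat_lit 0x8000080000000068786058a) (nat_lit 0) (p (nat_lit 0x10687058502) (nat_lit 0) (p (nat_lit 0x8606850482) (nat_lit 0) (p (nat_lit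 0x160004) (nat_lit 0) (p (nat_lit 0x68612) (nat_lit 0) (p (nat_lit 0x50592) (nat_lit 0) (p (nat_lit 0x40512) (nat_lit 0) (p (nat_lit 0x50312) (nat_lit 0) (p (nat_lit 0x38292) (nat_lit 0) (p (nat_lit 0x28212) (nat_lit 0) (p (nat_lit 0x38112) (nat_lit 0) (p (nat_lit 0x20092) (nat_lit 0) (p (nat_lit 0x10012) (nat_lit 0) pn))))))))))))))))))))))))))))))))) :=
  Cl.node (nat_lit 0x109) (nat_lit 2) (by decide +kernel) (ClAll.succ (ClAll.succ ClAll.zero s496) s497)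

def n160 : Cl (O (nat_lit 6)) (R (nat_lit 143633))
    (p (nat_lit 0x200014) (nat_lit 0) (p (nat_lit 0x380c2) (nat_lit 0) (p (nat_lit 0x4c42a) (nat_lit 2) (p (nat_lit 0xc9) (nat_lit 0) (p (nat_lit 0xb0004) (nat_lit 0) (p (nat_lit 0x380c2) (nat_lit 1) (p (nat_lit 0x444aa) (nat_lit 7) (p (nat_lit 0x119) (nat_lit 0) (p (nat_lit 0xc1) (nat_lit 0) (p (nat_lit 0x81) (nat_lit 1) (p (nat_lit 0x101) (nat_lit 1) (p (nat_lit 0x111) (nat_lit 0) (p (nat_lit 0xd1) (nat_lit 1) (p (nat_lit 0x89) (nat_lit 0) (p (nat_lit 0x41) (nat_lit 0) (p (nat_lit 0x10a898a08881a) (nat_lit 0) (p (nat_lit 0x8a090988079a) (nat_lit 0) (p (nat_lit 0x108088907871a) (nat_lit 0) (p (nat_lit 0x87880887069a) (nat_lit 0) (p (nat_lit 0x8000080000000088806860a) (nat_lit 0) (p (nat_lit 0x8000080000000068786058a) (nat_lit 0) (p (nat_lit 0x10687058502) (nat_lit 0) (p (nat_lit 0x8606850482) (nat_lit 0) (p (nat_lit 0x160004)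 (nat_lit 0) (p (nat_lit 0x68612) (nat_lit 0) (p (nat_lit 0x50592) (nat_lit 0) (p (nat_lit 0x40512) (nat_lit 0) (p (nat_lit 0x50312) (nat_lit 0) (p (nat_lit 0x38292) (nat_lit 0) (p (nat_lit 0x28212) (nat_lit 0) (p (nat_lit 0x38112) (nat_lit 0) (p (nat_lit 0x20092) (nat_lit 0) (p (nat_lit 0x10012) (nat_lit 0) pn))))))))))))))))))))))))))))))))) :=
  Cl.node (nat_lit 0x100014) (nat_lit 2) (by decide +kernel) (ClAll.succ (ClAll.succ ClAll.zero n129) s572)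

def n161 : Cl (O (nat_lit 6)) (R (nat_lit 143633))
    (p (nat_lit 0xc9) (nat_lit 0) (p (nat_lit 0x10000c) (nat_lit 0) (p (nat_lit 0x100014) (nat_lit 0) (p (nat_lit 0x200014) (nat_lit 0) (p (nat_lit 0x20000c) (nat_lit 0) (p (nat_lit 0x380c2) (nat_lit 1) (p (nat_lit 0x444aa) (nat_lit 8) (p (nat_lit 0x119) (nat_lit 0) (p (nat_lit 0xc1) (nat_lit 0) (p (nat_lit 0x81) (nat_lit 1) (p (nat_lit 0x101) (nat_lit 1) (p (nat_lit 0x111) (nat_lit 0) (p (nat_lit 0xd1) (nat_lit 1) (p (nat_lit 0x89) (nat_lit 0) (p (nat_lit 0x41) (nat_lit 0) (p (nat_lit 0x10a898a08881a) (nat_lit 0) (p (nat_lit 0x8a090988079a) (nat_lit 0) (p (nat_lit 0x108088907871a) (nat_lit 0) (p (nat_lit 0x87880887069a) (nat_lit 0) (p (nat_lit 0x8000080000000088806860a) (nat_lit 0) (p (nat_lit 0x8000080000000068786058a) (nat_lit 0) (p (nat_lit 0x10687058502) (nat_lit 0) (p (nat_lit 0x8606850482) (nat_lit 0) (p (nat_lit 0x160004)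 (nat_lit 0) (p (nat_lit 0x68612) (nat_lit 0) (p (nat_lit 0x50592) (nat_lit 0) (p (nat_lit 0x40512) (nat_lit 0) (p (nat_lit 0x50312) (nat_lit 0) (p (nat_lit 0x38292) (nat_lit 0) (p (nat_lit 0x28212) (nat_lit 0) (p (nat_lit 0x38112) (nat_lit 0) (p (nat_lit 0x20092) (nat_lit 0) (p (nat_lit 0x10012) (nat_lit 0) pn))))))))))))))))))))))))))))))))) :=
  Cl.node (nat_lit 0xc1) (nat_lit 2) (by decide +kernel) (ClAll.succ (ClAll.succ ClAll.zero s586) s587)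

def n162 : Cl (O (nat_lit 6)) (R (nat_lit 143633))
    (p (nat_lit 0xb0004) (nat_lit 0) (p (nat_lit 0x100014) (nat_lit 0) (p (nat_lit 0x200014) (nat_lit 0) (p (nat_lit 0x10000c) (nat_lit 0) (p (nat_lit 0x20000c) (nat_lit 0) (p (nat_lit 0x380c2) (nat_lit 0) (p (nat_lit 0x444aa) (nat_lit 7) (p (nat_lit 0xd1) (nat_lit 1) (p (nat_lit 0x111) (nat_lit 1) (p (nat_lit 0x109) (nat_lit 0) (p (nat_lit 0x101) (nat_lit 0) (p (nat_lit 0x119) (nat_lit 0) (p (nat_lit 0xc9) (nat_lit 0) (p (nat_lit 0x89) (nat_lit 1) (p (nat_lit 0x41) (nat_lit 0) (p (nat_lit 0x10a898a08881a) (nat_lit 0) (p (nat_lit 0x8a090988079a) (nat_lit 0) (p (nat_lit 0x108088907871a) (nat_lit 0) (p (nat_lit 0x87880887069a) (nat_lit 0) (p (nat_lit 0x8000080000000088806860a) (nat_lit 0) (p (nat_lit 0x8000080000000068786058a) (nat_lit 0) (p (nat_lit 0x10687058502) (nat_lit 0) (p (nat_lit 0x8606850482) (nat_lit 0) (p (nat_lit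 0x160004) (nat_lit 0) (p (nat_lit 0x68612) (nat_lit 0) (p (nat_lit 0x50592) (nat_lit 0) (p (nat_lit 0x40512) (nat_lit 0) (p (nat_lit 0x50312) (nat_lit 0) (p (nat_lit 0x38292) (nat_lit 0) (p (nat_lit 0x28212) (nat_lit 0) (p (nat_lit 0x38112) (nat_lit 0) (p (nat_lit 0x20092) (nat_lit 0) (p (nat_lit 0x10012) (nat_lit 0) pn))))))))))))))))))))))))))))))))) :=
  Cl.node (nat_lit 0xc1) (nat_lit 2) (by decide +kernel) (ClAll.succ (ClAll.succ ClAll.zero n130) s648)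

def n163 : Cl (O (nat_lit 6)) (R (nat_lit 143633))
    (p (nat_lit 0xb0004) (nat_lit 1) (p (nat_lit 0x100014) (nat_lit 0) (p (nat_lit 0x200014) (nat_lit 0) (p (nat_lit 0x10000c) (nat_lit 0) (p (nat_lit 0x20000c) (nat_lit 0) (p (nat_lit 0x380c2) (nat_lit 0) (p (nat_lit 0x444aa) (nat_lit 7) (p (nat_lit 0xd1) (nat_lit 1) (p (nat_lit 0x111) (nat_lit 1) (p (nat_lit 0x109) (nat_lit 0) (p (nat_lit 0x101) (nat_lit 0) (p (nat_lit 0x119) (nat_lit 0) (p (nat_lit 0xc9) (nat_lit 0) (p (nat_lit 0x89) (nat_lit 1) (p (nat_lit 0x41) (nat_lit 0) (p (nat_lit 0x10a898a08881a) (nat_lit 0) (p (nat_lit 0x8a090988079a) (nat_lit 0) (p (nat_lit 0x108088907871a) (nat_lit 0) (p (nat_lit 0x87880887069a) (nat_lit 0) (p (nat_lit 0x8000080000000088806860a) (nat_lit 0) (p (nat_lit 0x8000080000000068786058a) (nat_lit 0) (p (nat_lit 0x10687058502) (nat_lit 0) (p (nat_lit 0x8606850482) (nat_lit 0) (p (nat_lit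 0x160004) (nat_lit 0) (p (nat_lit 0x68612) (nat_lit 0) (p (nat_lit 0x50592) (nat_lit 0) (p (nat_lit 0x40512) (nat_lit 0) (p (nat_lit 0x50312) (nat_lit 0) (p (nat_lit 0x38292) (nat_lit 0) (p (nat_lit 0x28212) (nat_lit 0) (p (nat_lit 0x38112) (nat_lit 0) (p (nat_lit 0x20092) (nat_lit 0) (p (nat_lit 0x10012) (nat_lit 0) pn))))))))))))))))))))))))))))))))) :=
  Cl.node (nat_lit 0x2680d2680d000000b8c8b0a8a) (nat_lit 1) (by decide +kernel) (ClAll.succ ClAll.zero n131)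

def n164 : Cl (O (nat_lit 6)) (R (nat_lit 143633))
    (p (nat_lit 0x108004) (nat_lit 0) (p (nat_lit 0x100014) (nat_lit 1) (p (nat_lit 0x200014) (nat_lit 0) (p (nat_lit 0x10000c) (nat_lit 0) (p (nat_lit 0x20000c) (nat_lit 0) (p (nat_lit 0x380c2) (nat_lit 0) (p (nat_lit 0x444aa) (nat_lit 7) (p (nat_lit 0xd1) (nat_lit 1) (p (nat_lit 0x111) (nat_lit 1) (p (nat_lit 0x109) (nat_lit 0) (p (nat_lit 0x101) (nat_lit 0) (p (nat_lit 0x119) (nat_lit 0) (p (nat_lit 0xc9) (nat_lit 0) (p (nat_lit 0x89) (nat_lit 1) (p (nat_lit 0x41) (nat_lit 0) (p (nat_lit 0x10a898a08881a) (nat_lit 0) (p (nat_lit 0x8a090988079a) (nat_lit 0) (p (nat_lit 0x108088907871a) (nat_lit 0) (p (nat_lit 0x87880887069a) (nat_lit 0) (p (nat_lit 0x8000080000000088806860a) (nat_lit 0) (p (nat_lit 0x8000080000000068786058a) (nat_lit 0) (p (nat_lit 0x10687058502) (nat_lit 0) (p (nat_lit 0x8606850482) (nat_lit 0) (p (nat_lit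 0x160004) (nat_lit 0) (p (nat_lit 0x68612) (nat_lit 0) (p (nat_lit 0x50592) (nat_lit 0) (p (nat_lit 0x40512) (nat_lit 0) (p (nat_lit 0x50312) (nat_lit 0) (p (nat_lit 0x38292) (nat_lit 0) (p (nat_lit 0x28212) (nat_lit 0) (p (nat_lit 0x38112) (nat_lit 0) (p (nat_lit 0x20092) (nat_lit 0) (p (nat_lit 0x10012) (nat_lit 0) pn))))))))))))))))))))))))))))))))) :=
  Cl.node (nat_lit 0xc1) (nat_lit 2) (by decide +kernel) (ClAll.succ (ClAll.succ ClAll.zero n132) s670)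

def n165 : Cl (O (nat_lit 6)) (R (nat_lit 143633))
    (p (nat_lit 0x200014) (nat_lit 0) (p (nat_lit 0x10000c) (nat_lit 0) (p (nat_lit 0xc1) (nat_lit 0) (p (nat_lit 0x20000c) (nat_lit 0) (p (nat_lit 0xb0004) (nat_lit 0) (p (nat_lit 0x380c2) (nat_lit 1) (p (nat_lit 0x444aa) (nat_lit 7) (p (nat_lit 0xd1) (nat_lit 1) (p (nat_lit 0x111) (nat_lit 1) (p (nat_lit 0x109) (nat_lit 0) (p (nat_lit 0x101) (nat_lit 0) (p (nat_lit 0x119) (nat_lit 0) (p (nat_lit 0xc9) (nat_lit 0) (p (nat_lit 0x89) (nat_lit 1) (p (nat_lit 0x41) (nat_lit 0) (p (nat_lit 0x10a898a08881a) (nat_lit 0) (p (nat_lit 0x8a090988079a) (nat_lit 0) (p (nat_lit 0x108088907871a) (nat_lit 0) (p (nat_lit 0x87880887069a) (nat_lit 0) (p (nat_lit 0x8000080000000088806860a) (nat_lit 0) (p (nat_lit 0x8000080000000068786058a) (nat_lit 0) (p (nat_lit 0x10687058502) (nat_lit 0) (p (nat_lit 0x8606850482) (nat_lit 0) (p (nat_lit 0x160004)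 (nat_lit 0) (p (nat_lit 0x68612) (nat_lit 0) (p (nat_lit 0x50592) (nat_lit 0) (p (nat_lit 0x40512) (nat_lit 0) (p (nat_lit 0x50312) (nat_lit 0) (p (nat_lit 0x38292) (nat_lit 0) (p (nat_lit 0x28212) (nat_lit 0) (p (nat_lit 0x38112) (nat_lit 0) (p (nat_lit 0x20092) (nat_lit 0) (p (nat_lit 0x10012) (nat_lit 0) pn))))))))))))))))))))))))))))))))) :=
  Cl.node (nat_lit 0xc9) (nat_lit 2) (by decide +kernel) (ClAll.succ (ClAll.succ ClAll.zero s675) n133)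

def n166 : Cl (O (nat_lit 6)) (R (nat_lit 143633))
    (p (nat_lit 0x10000c) (nat_lit 0) (p (nat_lit 0x100014) (nat_lit 0) (p (nat_lit 0x1fc014) (nat_lit 0) (p (nat_lit 0x1fc00c) (nat_lit 0) (p (nat_lit 0xb0004) (nat_lit 1) (p (nat_lit 0x380c2) (nat_lit 1) (p (nat_lit 0x444aa) (nat_lit 7) (p (nat_lit 0xd1) (nat_lit 1) (p (nat_lit 0x111) (nat_lit 1) (p (nat_lit 0x109) (nat_lit 0) (p (nat_lit 0x101) (nat_lit 0) (p (nat_lit 0x119) (nat_lit 0) (p (nat_lit 0xc9) (nat_lit 0) (p (nat_lit 0x89) (nat_lit 1) (p (nat_lit 0x41) (nat_lit 0) (p (nat_lit 0x10a898a08881a) (nat_lit 0) (p (nat_lit 0x8a090988079a) (nat_lit 0) (p (nat_lit 0x108088907871a) (nat_lit 0) (p (nat_lit 0x87880887069a) (nat_lit 0) (p (nat_lit 0x8000080000000088806860a) (nat_lit 0) (p (nat_lit 0x8000080000000068786058a) (nat_lit 0) (p (nat_lit 0x10687058502) (nat_lit 0) (p (nat_lit 0x8606850482) (nat_lit 0) (p (nat_lit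 0x160004) (nat_lit 0) (p (nat_lit 0x68612) (nat_lit 0) (p (nat_lit 0x50592) (nat_lit 0) (p (nat_lit 0x40512) (nat_lit 0) (p (nat_lit 0x50312) (nat_lit 0) (p (nat_lit 0x38292) (nat_lit 0) (p (nat_lit 0x28212) (nat_lit 0) (p (nat_lit 0x38112) (nat_lit 0) (p (nat_lit 0x20092) (nat_lit 0) (p (nat_lit 0x10012) (nat_lit 0) pn))))))))))))))))))))))))))))))))) :=
  Cl.node (nat_lit 0x108004) (nat_lit 2) (by decide +kernel) (ClAll.succ (ClAll.succ ClAll.zero n134) n135)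

def n167 : Cl (O (nat_lit 6)) (R (nat_lit 143633))
    (p (nat_lit 0xc9) (nat_lit 0) (p (nat_lit 0x200014) (nat_lit 0) (p (nat_lit 0x10000c) (nat_lit 0) (p (nat_lit 0x20000c) (nat_lit 0) (p (nat_lit 0xc1) (nat_lit 0) (p (nat_lit 0xb0004) (nat_lit 0) (p (nat_lit 0x380c2) (nat_lit 0) (p (nat_lit 0x444aa) (nat_lit 7) (p (nat_lit 0xd1) (nat_lit 1) (p (nat_lit 0x109) (nat_lit 1) (p (nat_lit 0x101) (nat_lit 0) (p (nat_lit 0x119) (nat_lit 0) (p (nat_lit 0xc9) (nat_lit 0) (p (nat_lit 0x89) (nat_lit 1) (p (nat_lit 0x41) (nat_lit 0) (p (nat_lit 0x10a898a08881a) (nat_lit 0) (p (nat_lit 0x8a090988079a) (nat_lit 0) (p (nat_lit 0x108088907871a) (nat_lit 0) (p (nat_lit 0x87880887069a) (nat_lit 0) (p (nat_lit 0x8000080000000088806860a) (nat_lit 0) (p (nat_lit 0x8000080000000068786058a) (nat_lit 0) (p (nat_lit 0x10687058502) (nat_lit 0) (p (nat_lit 0x8606850482) (nat_lit 0) (p (nat_lit 0x160004)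 (nat_lit 0) (p (nat_lit 0x68612) (nat_lit 0) (p (nat_lit 0x50592) (nat_lit 0) (p (nat_lit 0x40512) (nat_lit 0) (p (nat_lit 0x50312) (nat_lit 0) (p (nat_lit 0x38292) (nat_lit 0) (p (nat_lit 0x28212) (nat_lit 0) (p (nat_lit 0x38112) (nat_lit 0) (p (nat_lit 0x20092) (nat_lit 0) (p (nat_lit 0x10012) (nat_lit 0) pn))))))))))))))))))))))))))))))))) :=
  Cl.node (nat_lit 0xd1) (nat_lit 2) (by decide +kernel) (ClAll.succ (ClAll.succ ClAll.zero n136) s739)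

def n168 : Cl (O (nat_lit 6)) (R (nat_lit 143633))
    (p (nat_lit 0x2680d2680d000000b8c8b0a8a) (nat_lit 0) (p (nat_lit 0x10000c) (nat_lit 0) (p (nat_lit 0x100014) (nat_lit 0) (p (nat_lit 0x1fc014) (nat_lit 0) (p (nat_lit 0x1fc00c) (nat_lit 0) (p (nat_lit 0xb0004) (nat_lit 1) (p (nat_lit 0x380c2) (nat_lit 0) (p (nat_lit 0x444aa) (nat_lit 7) (p (nat_lit 0xd1) (nat_lit 1) (p (nat_lit 0x109) (nat_lit 1) (p (nat_lit 0x101) (nat_lit 0) (p (nat_lit 0x119) (nat_lit 0) (p (nat_lit 0xc9) (nat_lit 0) (p (nat_lit 0x89) (nat_lit 1) (p (nat_lit 0x41) (nat_lit 0) (p (nat_lit 0x10a898a08881a) (nat_lit 0) (p (nat_lit 0x8a090988079a) (nat_lit 0) (p (nat_lit 0x108088907871a) (nat_lit 0) (p (nat_lit 0x87880887069a) (nat_lit 0) (p (nat_lit 0x8000080000000088806860a) (nat_lit 0) (p (nat_lit 0x8000080000000068786058a) (nat_lit 0) (p (nat_lit 0x10687058502) (nat_lit 0) (p (nat_lit 0x8606850482) (nat_lit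 0) (p (nat_lit 0x160004) (nat_lit 0) (p (nat_lit 0x68612) (nat_lit 0) (p (nat_lit 0x50592) (nat_lit 0) (p (nat_lit 0x40512) (nat_lit 0) (p (nat_lit 0x50312) (nat_lit 0) (p (nat_lit 0x38292) (nat_lit 0) (p (nat_lit 0x28212) (nat_lit 0) (p (nat_lit 0x38112) (nat_lit 0) (p (nat_lit 0x20092) (nat_lit 0) (p (nat_lit 0x10012) (nat_lit 0) pn))))))))))))))))))))))))))))))))) :=
  Cl.node (nat_lit 0x2680d2680d000000d8d0b8b0a) (nat_lit 1) (by decide +kernel) (ClAll.succ ClAll.zero n137)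

def n169 : Cl (O (nat_lit 6)) (R (nat_lit 143633))
    (p (nat_lit 0x200014) (nat_lit 0) (p (nat_lit 0x10000c) (nat_lit 0) (p (nat_lit 0x20000c) (nat_lit 0) (p (nat_lit 0xc9) (nat_lit 0) (p (nat_lit 0xc1) (nat_lit 0) (p (nat_lit 0xb0004) (nat_lit 0) (p (nat_lit 0x380c2) (nat_lit 1) (p (nat_lit 0x444aa) (nat_lit 7) (p (nat_lit 0xd1) (nat_lit 1) (p (nat_lit 0x109) (nat_lit 1) (p (nat_lit 0x101) (nat_lit 0) (p (nat_lit 0x119) (nat_lit 0) (p (nat_lit 0xc9) (nat_lit 0) (p (nat_lit 0x89) (nat_lit 1) (p (nat_lit 0x41) (nat_lit 0) (p (nat_lit 0x10a898a08881a) (nat_lit 0) (p (nat_lit 0x8a090988079a) (nat_lit 0) (p (nat_lit 0x108088907871a) (nat_lit 0) (p (nat_lit 0x87880887069a) (nat_lit 0) (p (nat_lit 0x8000080000000088806860a) (nat_lit 0) (p (nat_lit 0x8000080000000068786058a) (nat_lit 0) (p (nat_lit 0x10687058502) (nat_lit 0) (p (nat_lit 0x8606850482) (nat_lit 0) (p (nat_lit 0x160004)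 (nat_lit 0) (p (nat_lit 0x68612) (nat_lit 0) (p (nat_lit 0x50592) (nat_lit 0) (p (nat_lit 0x40512) (nat_lit 0) (p (nat_lit 0x50312) (nat_lit 0) (p (nat_lit 0x38292) (nat_lit 0) (p (nat_lit 0x28212) (nat_lit 0) (p (nat_lit 0x38112) (nat_lit 0) (p (nat_lit 0x20092) (nat_lit 0) (p (nat_lit 0x10012) (nat_lit 0) pn))))))))))))))))))))))))))))))))) :=
  Cl.node (nat_lit 0xd1) (nat_lit 2) (by decide +kernel) (ClAll.succ (ClAll.succ ClAll.zero n138) n139)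

def n170 : Cl (O (nat_lit 6)) (R (nat_lit 143633))
    (p (nat_lit 0x109) (nat_lit 0) (p (nat_lit 0x119) (nat_lit 0) (p (nat_lit 0x41) (nat_lit 0) (p (nat_lit 0x380c2) (nat_lit 0) (p (nat_lit 0x44c2a) (nat_lit 0) (p (nat_lit 0x109) (nat_lit 1) (p (nat_lit 0x200014) (nat_lit 0) (p (nat_lit 0x20000c) (nat_lit 0) (p (nat_lit 0xd1) (nat_lit 0) (p (nat_lit 0xc1) (nat_lit 0) (p (nat_lit 0x101) (nat_lit 1) (p (nat_lit 0x119) (nat_lit 0) (p (nat_lit 0xc9) (nat_lit 0) (p (nat_lit 0x89) (nat_lit 1) (p (nat_lit 0x41) (nat_lit 0) (p (nat_lit 0x10a898a08881a) (nat_lit 0) (p (nat_lit 0x8a090988079a) (nat_lit 0) (p (nat_lit 0x108088907871a) (nat_lit 0) (p (nat_lit 0x87880887069a) (nat_lit 0) (p (nat_lit 0x8000080000000088806860a) (nat_lit 0) (p (nat_lit 0x8000080000000068786058a) (nat_lit 0) (p (nat_lit 0x10687058502) (nat_lit 0) (p (nat_lit 0x8606850482) (nat_lit 0) (p (nat_lit 0x160004)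 (nat_lit 0) (p (nat_lit 0x68612) (nat_lit 0) (p (nat_lit 0x50592) (nat_lit 0) (p (nat_lit 0x40512) (nat_lit 0) (p (nat_lit 0x50312) (nat_lit 0) (p (nat_lit 0x38292) (nat_lit 0) (p (nat_lit 0x28212) (nat_lit 0) (p (nat_lit 0x38112) (nat_lit 0) (p (nat_lit 0x20092) (nat_lit 0) (p (nat_lit 0x10012) (nat_lit 0) pn))))))))))))))))))))))))))))))))) :=
  Cl.node (nat_lit 0x3c4aa) (nat_lit 12) (by decide +kernel) (ClAll.succ (ClAll.succ (ClAll.succ (ClAll.succ (ClAll.succ (ClAll.succ (ClAll.succ (ClAll.succ (ClAll.succ (ClAll.succ (ClAll.succ (ClAll.succ ClAll.zero s820) s821) s822) s823) s824) s825) s826) s827) s828) s829) s830) s831)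

def n171 : Cl (O (nat_lit 6)) (R (nat_lit 143633))
    (p (nat_lit 0x108004) (nat_lit 0) (p (nat_lit 0xb0004) (nat_lit 1) (p (nat_lit 0x41) (nat_lit 1) (p (nat_lit 0x380c2) (nat_lit 0) (p (nat_lit 0x44c2a) (nat_lit 0) (p (nat_lit 0x109) (nat_lit 1) (p (nat_lit 0x200014) (nat_lit 0) (p (nat_lit 0x20000c) (nat_lit 0) (p (nat_lit 0xd1) (nat_lit 0) (p (nat_lit 0xc1) (nat_lit 0) (p (nat_lit 0x101) (nat_lit 1) (p (nat_lit 0x119) (nat_lit 0) (p (nat_lit 0xc9) (nat_lit 0) (p (nat_lit 0x89) (nat_lit 1) (p (nat_lit 0x41) (nat_lit 0) (p (nat_lit 0x10a898a08881a) (nat_lit 0) (p (nat_lit 0x8a090988079a) (nat_lit 0) (p (nat_lit 0x108088907871a) (nat_lit 0) (p (nat_lit 0x87880887069a) (nat_lit 0) (p (nat_lit 0x8000080000000088806860a) (nat_lit 0) (p (nat_lit 0x8000080000000068786058a) (nat_lit 0) (p (nat_lit 0x10687058502) (nat_lit 0) (p (nat_lit 0x8606850482) (nat_lit 0) (p (nat_lit 0x160004)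 (nat_lit 0) (p (nat_lit 0x68612) (nat_lit 0) (p (nat_lit 0x50592) (nat_lit 0) (p (nat_lit 0x40512) (nat_lit 0) (p (nat_lit 0x50312) (nat_lit 0) (p (nat_lit 0x38292) (nat_lit 0) (p (nat_lit 0x28212) (nat_lit 0) (p (nat_lit 0x38112) (nat_lit 0) (p (nat_lit 0x20092) (nat_lit 0) (p (nat_lit 0x10012) (nat_lit 0) pn))))))))))))))))))))))))))))))))) :=
  Cl.node (nat_lit 0x100014) (nat_lit 2) (by decide +kernel) (ClAll.succ (ClAll.succ ClAll.zero n140) s837)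

def n172 : Cl (O (nat_lit 6)) (R (nat_lit 143633))
    (p (nat_lit 0x10000c) (nat_lit 0) (p (nat_lit 0x20000c) (nat_lit 0) (p (nat_lit 0x101) (nat_lit 0) (p (nat_lit 0x111) (nat_lit 0) (p (nat_lit 0x109) (nat_lit 0) (p (nat_lit 0xb0004) (nat_lit 0) (p (nat_lit 0x380c2) (nat_lit 1) (p (nat_lit 0x444aa) (nat_lit 7) (p (nat_lit 0x111) (nat_lit 1) (p (nat_lit 0x101) (nat_lit 0) (p (nat_lit 0xc1) (nat_lit 1) (p (nat_lit 0x119) (nat_lit 1) (p (nat_lit 0xc9) (nat_lit 0) (p (nat_lit 0x89) (nat_lit 1) (p (nat_lit 0x41) (nat_lit 0) (p (nat_lit 0x10a898a08881a) (nat_lit 0) (p (nat_lit 0x8a090988079a) (nat_lit 0) (p (nat_lit 0x108088907871a) (nat_lit 0) (p (nat_lit 0x87880887069a) (nat_lit 0) (p (nat_lit 0x8000080000000088806860a) (nat_lit 0) (p (nat_lit 0x8000080000000068786058a) (nat_lit 0) (p (nat_lit 0x10687058502) (nat_lit 0) (p (nat_lit 0x8606850482) (nat_lit 0) (p (nat_lit 0x160004)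 (nat_lit 0) (p (nat_lit 0x68612) (nat_lit 0) (p (nat_lit 0x50592) (nat_lit 0) (p (nat_lit 0x40512) (nat_lit 0) (p (nat_lit 0x50312) (nat_lit 0) (p (nat_lit 0x38292) (nat_lit 0) (p (nat_lit 0x28212) (nat_lit 0) (p (nat_lit 0x38112) (nat_lit 0) (p (nat_lit 0x20092) (nat_lit 0) (p (nat_lit 0x10012) (nat_lit 0) pn))))))))))))))))))))))))))))))))) :=
  Cl.node (nat_lit 0x4c42a) (nat_lit 12) (by decide +kernel) (ClAll.succ (ClAll.succ (ClAll.succ (ClAll.succ (ClAll.succ (ClAll.succ (ClAll.succ (ClAll.succ (ClAll.succ (ClAll.succ (ClAll.succ (ClAll.succ ClAll.zero s983) s984) s985) s986) s987) s988) s989) s990) s991) s992) s993) s994)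

def n173 : Cl (O (nat_lit 6)) (R (nat_lit 143633))
    (p (nat_lit 0x119) (nat_lit 1) (p (nat_lit 0x10000c) (nat_lit 0) (p (nat_lit 0x200014) (nat_lit 0) (p (nat_lit 0x20000c) (nat_lit 0) (p (nat_lit 0xb0004) (nat_lit 0) (p (nat_lit 0x380c2) (nat_lit 1) (p (nat_lit 0x3c4aa) (nat_lit 7) (p (nat_lit 0x109) (nat_lit 1) (p (nat_lit 0x89) (nat_lit 1) (p (nat_lit 0x101) (nat_lit 0) (p (nat_lit 0xc1) (nat_lit 1) (p (nat_lit 0x119) (nat_lit 1) (p (nat_lit 0xd1) (nat_lit 0) (p (nat_lit 0x81) (nat_lit 0) (p (nat_lit 0x41) (nat_lit 1) (p (nat_lit 0x10a898a08881a) (nat_lit 0) (p (nat_lit 0x8a090988079a) (nat_lit 0) (p (nat_lit 0x108088907871a) (nat_lit 0) (p (nat_lit 0x87880887069a) (nat_lit 0) (p (nat_lit 0x8000080000000088806860a) (nat_lit 0) (p (nat_lit 0x8000080000000068786058a) (nat_lit 0) (p (nat_lit 0x10687058502) (nat_lit 0) (p (nat_lit 0x8606850482) (nat_lit 0) (p (nat_lit 0x160004)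 (nat_lit 0) (p (nat_lit 0x68612) (nat_lit 0) (p (nat_lit 0x50592) (nat_lit 0) (p (nat_lit 0x40512) (nat_lit 0) (p (nat_lit 0x50312) (nat_lit 0) (p (nat_lit 0x38292) (nat_lit 0) (p (nat_lit 0x28212) (nat_lit 0) (p (nat_lit 0x38112) (nat_lit 0) (p (nat_lit 0x20092) (nat_lit 0) (p (nat_lit 0x10012) (nat_lit 0) pn))))))))))))))))))))))))))))))))) :=
  Cl.node (nat_lit 0xc1) (nat_lit 2) (by decide +kernel) (ClAll.succ (ClAll.succ ClAll.zero s1287) s1288)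

def n174 : Cl (O (nat_lit 6)) (R (nat_lit 143633))
    (p (nat_lit 0xc9) (nat_lit 0) (p (nat_lit 0x10000c) (nat_lit 0) (p (nat_lit 0x200014) (nat_lit 0) (p (nat_lit 0x20000c) (nat_lit 0) (p (nat_lit 0xb0004) (nat_lit 0) (p (nat_lit 0x380c2) (nat_lit 0) (p (nat_lit 0x3c4aa) (nat_lit 7) (p (nat_lit 0xd1) (nat_lit 1) (p (nat_lit 0x111) (nat_lit 1) (p (nat_lit 0x109) (nat_lit 0) (p (nat_lit 0x101) (nat_lit 0) (p (nat_lit 0x119) (nat_lit 0) (p (nat_lit 0xc1) (nat_lit 0) (p (nat_lit 0x81) (nat_lit 1) (p (nat_lit 0x41) (nat_lit 1) (p (nat_lit 0x10a898a08881a) (nat_lit 0) (p (nat_lit 0x8a090988079a) (nat_lit 0) (p (nat_lit 0x108088907871a) (nat_lit 0) (p (nat_lit 0x87880887069a) (nat_lit 0) (p (nat_lit 0x8000080000000088806860a) (nat_lit 0) (p (nat_lit 0x8000080000000068786058a) (nat_lit 0) (p (nat_lit 0x10687058502) (nat_lit 0) (p (nat_lit 0x8606850482) (nat_lit 0) (p (nat_lit 0x160004)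 (nat_lit 0) (p (nat_lit 0x68612) (nat_lit 0) (p (nat_lit 0x50592) (nat_lit 0) (p (nat_lit 0x40512) (nat_lit 0) (p (nat_lit 0x50312) (nat_lit 0) (p (nat_lit 0x38292) (nat_lit 0) (p (nat_lit 0x28212) (nat_lit 0) (p (nat_lit 0x38112) (nat_lit 0) (p (nat_lit 0x20092) (nat_lit 0) (p (nat_lit 0x10012) (nat_lit 0) pn))))))))))))))))))))))))))))))))) :=
  Cl.node (nat_lit 0x100014) (nat_lit 2) (by decide +kernel) (ClAll.succ (ClAll.succ ClAll.zero n141) s1493)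

def n175 : Cl (O (nat_lit 6)) (R (nat_lit 143633))
    (p (nat_lit 0x100014) (nat_lit 0) (p (nat_lit 0x10000c) (nat_lit 0) (p (nat_lit 0x1fc014) (nat_lit 0) (p (nat_lit 0x1fc00c) (nat_lit 0) (p (nat_lit 0xb0004) (nat_lit 1) (p (nat_lit 0x380c2) (nat_lit 0) (p (nat_lit 0x3c4aa) (nat_lit 7) (p (nat_lit 0xd1) (nat_lit 1) (p (nat_lit 0x111) (nat_lit 1) (p (nat_lit 0x109) (nat_lit 0) (p (nat_lit 0x101) (nat_lit 0) (p (nat_lit 0x119) (nat_lit 0) (p (nat_lit 0xc1) (nat_lit 0) (p (nat_lit 0x81) (nat_lit 1) (p (nat_lit 0x41) (nat_lit 1) (p (nat_lit 0x10a898a08881a) (nat_lit 0) (p (nat_lit 0x8a090988079a) (nat_lit 0) (p (nat_lit 0x108088907871a) (nat_lit 0) (p (nat_lit 0x87880887069a) (nat_lit 0) (p (nat_lit 0x8000080000000088806860a) (nat_lit 0) (p (nat_lit 0x8000080000000068786058a) (nat_lit 0) (p (nat_lit 0x10687058502) (nat_lit 0) (p (nat_lit 0x8606850482) (nat_lit 0) (p (nat_lit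 0x160004) (nat_lit 0) (p (nat_lit 0x68612) (nat_lit 0) (p (nat_lit 0x50592) (nat_lit 0) (p (nat_lit 0x40512) (nat_lit 0) (p (nat_lit 0x50312) (nat_lit 0) (p (nat_lit 0x38292) (nat_lit 0) (p (nat_lit 0x28212) (nat_lit 0) (p (nat_lit 0x38112) (nat_lit 0) (p (nat_lit 0x20092) (nat_lit 0) (p (nat_lit 0x10012) (nat_lit 0) pn))))))))))))))))))))))))))))))))) :=
  Cl.node (nat_lit 0x80014) (nat_lit 2) (by decide +kernel) (ClAll.succ (ClAll.succ ClAll.zero n142) s1531)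

def n176 : Cl (O (nat_lit 6)) (R (nat_lit 143633))
    (p (nat_lit 0xc9) (nat_lit 0) (p (nat_lit 0x100014) (nat_lit 0) (p (nat_lit 0x200014) (nat_lit 0) (p (nat_lit 0x20000c) (nat_lit 0) (p (nat_lit 0xb0004) (nat_lit 0) (p (nat_lit 0x380c2) (nat_lit 1) (p (nat_lit 0x3c4aa) (nat_lit 7) (p (nat_lit 0xd1) (nat_lit 1) (p (nat_lit 0x111) (nat_lit 1) (p (nat_lit 0x109) (nat_lit 0) (p (nat_lit 0x101) (nat_lit 0) (p (nat_lit 0x119) (nat_lit 0) (p (nat_lit 0xc1) (nat_lit 0) (p (nat_lit 0x81) (nat_lit 1) (p (nat_lit 0x41) (nat_lit 1) (p (nat_lit 0x10a898a08881a) (nat_lit 0) (p (nat_lit 0x8a090988079a) (nat_lit 0) (p (nat_lit 0x108088907871a) (nat_lit 0) (p (nat_lit 0x87880887069a) (nat_lit 0) (p (nat_lit 0x8000080000000088806860a) (nat_lit 0) (p (nat_lit 0x8000080000000068786058a) (nat_lit 0) (p (nat_lit 0x10687058502) (nat_lit 0) (p (nat_lit 0x8606850482) (nat_lit 0) (p (nat_lit 0x160004)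 (nat_lit 0) (p (nat_lit 0x68612) (nat_lit 0) (p (nat_lit 0x50592) (nat_lit 0) (p (nat_lit 0x40512) (nat_lit 0) (p (nat_lit 0x50312) (nat_lit 0) (p (nat_lit 0x38292) (nat_lit 0) (p (nat_lit 0x28212) (nat_lit 0) (p (nat_lit 0x38112) (nat_lit 0) (p (nat_lit 0x20092) (nat_lit 0) (p (nat_lit 0x10012) (nat_lit 0) pn))))))))))))))))))))))))))))))))) :=
  Cl.node (nat_lit 0x3cc2a) (nat_lit 12) (by decide +kernel) (ClAll.succ (ClAll.succ (ClAll.succ (ClAll.succ (ClAll.succ (ClAll.succ (ClAll.succ (ClAll.succ (ClAll.succ (ClAll.succ (ClAll.succ (ClAll.succ ClAll.zero s1536) s1537) s1538) s1539) s1540) s1541) s1542) s1543) s1544) s1545) s1546) s1547)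

def n177 : Cl (O (nat_lit 6)) (R (nat_lit 143633))
    (p (nat_lit 0x100014) (nat_lit 0) (p (nat_lit 0x10000c) (nat_lit 0) (p (nat_lit 0x1fc014) (nat_lit 0) (p (nat_lit 0x1fc00c) (nat_lit 0) (p (nat_lit 0xb0004) (nat_lit 1) (p (nat_lit 0x380c2) (nat_lit 1) (p (nat_lit 0x3c4aa) (nat_lit 7) (p (nat_lit 0xd1) (nat_lit 1) (p (nat_lit 0x111) (nat_lit 1) (p (nat_lit 0x109) (nat_lit 0) (p (nat_lit 0x101) (nat_lit 0) (p (nat_lit 0x119) (nat_lit 0) (p (nat_lit 0xc1) (nat_lit 0) (p (nat_lit 0x81) (nat_lit 1) (p (nat_lit 0x41) (nat_lit 1) (p (nat_lit 0x10a898a08881a) (nat_lit 0) (p (nat_lit 0x8a090988079a) (nat_lit 0) (p (nat_lit 0x108088907871a) (nat_lit 0) (p (nat_lit 0x87880887069a) (nat_lit 0) (p (nat_lit 0x8000080000000088806860a) (nat_lit 0) (p (nat_lit 0x8000080000000068786058a) (nat_lit 0) (p (nat_lit 0x10687058502) (nat_lit 0) (p (nat_lit 0x8606850482) (nat_lit 0) (p (nat_lit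 0x160004) (nat_lit 0) (p (nat_lit 0x68612) (nat_lit 0) (p (nat_lit 0x50592) (nat_lit 0) (p (nat_lit 0x40512) (nat_lit 0) (p (nat_lit 0x50312) (nat_lit 0) (p (nat_lit 0x38292) (nat_lit 0) (p (nat_lit 0x28212) (nat_lit 0) (p (nat_lit 0x38112) (nat_lit 0) (p (nat_lit 0x20092) (nat_lit 0) (p (nat_lit 0x10012) (nat_lit 0) pn))))))))))))))))))))))))))))))))) :=
  Cl.node (nat_lit 0x80014) (nat_lit 2) (by decide +kernel) (ClAll.succ (ClAll.succ ClAll.zero n143) s1557)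

def n178 : Cl (O (nat_lit 6)) (R (nat_lit 143633))
    (p (nat_lit 0x4c42a) (nat_lit 2) (p (nat_lit 0xd1) (nat_lit 0) (p (nat_lit 0xc1) (nat_lit 0) (p (nat_lit 0x200014) (nat_lit 0) (p (nat_lit 0x20000c) (nat_lit 0) (p (nat_lit 0xb0004) (nat_lit 0) (p (nat_lit 0x380c2) (nat_lit 0) (p (nat_lit 0x3c4aa) (nat_lit 7) (p (nat_lit 0xd1) (nat_lit 1) (p (nat_lit 0xc9) (nat_lit 0) (p (nat_lit 0x101) (nat_lit 1) (p (nat_lit 0x119) (nat_lit 0) (p (nat_lit 0xc1) (nat_lit 0) (p (nat_lit 0x81) (nat_lit 1) (p (nat_lit 0x41) (nat_lit 1) (p (nat_lit 0x10a898a08881a) (nat_lit 0) (p (nat_lit 0x8a090988079a) (nat_lit 0) (p (nat_lit 0x108088907871a) (nat_lit 0) (p (nat_lit 0x87880887069a) (nat_lit 0) (p (nat_lit 0x8000080000000088806860a) (nat_lit 0) (p (nat_lit 0x8000080000000068786058a) (nat_lit 0) (p (nat_lit 0x10687058502) (nat_lit 0) (p (nat_lit 0x8606850482) (nat_lit 0) (p (nat_lit 0x160004)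 (nat_lit 0) (p (nat_lit 0x68612) (nat_lit 0) (p (nat_lit 0x50592) (nat_lit 0) (p (nat_lit 0x40512) (nat_lit 0) (p (nat_lit 0x50312) (nat_lit 0) (p (nat_lit 0x38292) (nat_lit 0) (p (nat_lit 0x28212) (nat_lit 0) (p (nat_lit 0x38112) (nat_lit 0) (p (nat_lit 0x20092) (nat_lit 0) (p (nat_lit 0x10012) (nat_lit 0) pn))))))))))))))))))))))))))))))))) :=
  Cl.node (nat_lit 0x380c2) (nat_lit 1) (by decide +kernel) (ClAll.succ ClAll.zero n144)

def n179 : Cl (O (nat_lit 6)) (R (nat_lit 143633))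
    (p (nat_lit 0x80014) (nat_lit 0) (p (nat_lit 0x100014) (nat_lit 0) (p (nat_lit 0x10000c) (nat_lit 0) (p (nat_lit 0x1fc014) (nat_lit 0) (p (nat_lit 0x1fc00c) (nat_lit 0) (p (nat_lit 0xb0004) (nat_lit 1) (p (nat_lit 0x380c2) (nat_lit 0) (p (nat_lit 0x3c4aa) (nat_lit 7) (p (nat_lit 0xd1) (nat_lit 1) (p (nat_lit 0xc9) (nat_lit 0) (p (nat_lit 0x101) (nat_lit 1) (p (nat_lit 0x119) (nat_lit 0) (p (nat_lit 0xc1) (nat_lit 0) (p (nat_lit 0x81) (nat_lit 1) (p (nat_lit 0x41) (nat_lit 1) (p (nat_lit 0x10a898a08881a) (nat_lit 0) (p (nat_lit 0x8a090988079a) (nat_lit 0) (p (nat_lit 0x108088907871a) (nat_lit 0) (p (nat_lit 0x87880887069a) (nat_lit 0) (p (nat_lit 0x8000080000000088806860a) (nat_lit 0) (p (nat_lit 0x8000080000000068786058a) (nat_lit 0) (p (nat_lit 0x10687058502) (nat_lit 0) (p (nat_lit 0x8606850482) (nat_lit 0) (p (nat_lit 0x160004) (nat_lit 0) (p (nat_lit 0x68612) (nat_lit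 0) (p (nat_lit 0x50592) (nat_lit 0) (p (nat_lit 0x40512) (nat_lit 0) (p (nat_lit 0x50312) (nat_lit 0) (p (nat_lit 0x38292) (nat_lit 0) (p (nat_lit 0x28212) (nat_lit 0) (p (nat_lit 0x38112) (nat_lit 0) (p (nat_lit 0x20092) (nat_lit 0) (p (nat_lit 0x10012) (nat_lit 0) pn))))))))))))))))))))))))))))))))) :=
  Cl.node (nat_lit 0x40014) (nat_lit 2) (by decide +kernel) (ClAll.succ (ClAll.succ ClAll.zero n145) s1657)

def n180 : Cl (O (nat_lit 6)) (R (nat_lit 143633))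
    (p (nat_lit 0x89) (nat_lit 0) (p (nat_lit 0x10000c) (nat_lit 0) (p (nat_lit 0x100014) (nat_lit 0) (p (nat_lit 0xb0004) (nat_lit 0) (p (nat_lit 0x200014) (nat_lit 0) (p (nat_lit 0x20000c) (nat_lit 0) (p (nat_lit 0x380c2) (nat_lit 1) (p (nat_lit 0x3c4aa) (nat_lit 7) (p (nat_lit 0xd1) (nat_lit 1) (p (nat_lit 0xc9) (nat_lit 0) (p (nat_lit 0x101) (nat_lit 1) (p (nat_lit 0x119) (nat_lit 0) (p (nat_lit 0xc1) (nat_lit 0) (p (nat_lit 0x81) (nat_lit 1) (p (nat_lit 0x41) (nat_lit 1) (p (nat_lit 0x10a898a08881a) (nat_lit 0) (p (nat_lit 0x8a090988079a) (nat_lit 0) (p (nat_lit 0x108088907871a) (nat_lit 0) (p (nat_lit 0x87880887069a) (nat_lit 0) (p (nat_lit 0x8000080000000088806860a) (nat_lit 0) (p (nat_lit 0x8000080000000068786058a) (nat_lit 0) (p (nat_lit 0x10687058502) (nat_lit 0) (p (nat_lit 0x8606850482) (nat_lit 0) (p (nat_lit 0x160004) (nat_lit 0) (p (nat_lit 0x68612) (nat_lit 0)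 (p (nat_lit 0x50592) (nat_lit 0) (p (nat_lit 0x40512) (nat_lit 0) (p (nat_lit 0x50312) (nat_lit 0) (p (nat_lit 0x38292) (nat_lit 0) (p (nat_lit 0x28212) (nat_lit 0) (p (nat_lit 0x38112) (nat_lit 0) (p (nat_lit 0x20092) (nat_lit 0) (p (nat_lit 0x10012) (nat_lit 0) pn))))))))))))))))))))))))))))))))) :=
  Cl.node (nat_lit 0x41) (nat_lit 2) (by decide +kernel) (ClAll.succ (ClAll.succ ClAll.zero n146) n147)

def n181 : Cl (O (nat_lit 6)) (R (nat_lit 143633))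
    (p (nat_lit 0x108004) (nat_lit 0) (p (nat_lit 0x100014) (nat_lit 0) (p (nat_lit 0x10000c) (nat_lit 0) (p (nat_lit 0x1fc014) (nat_lit 0) (p (nat_lit 0x1fc00c) (nat_lit 0) (p (nat_lit 0xb0004) (nat_lit 1) (p (nat_lit 0x380c2) (nat_lit 0) (p (nat_lit 0x3c4aa) (nat_lit 7) (p (nat_lit 0x111) (nat_lit 1) (p (nat_lit 0xd1) (nat_lit 1) (p (nat_lit 0xc9) (nat_lit 0) (p (nat_lit 0x119) (nat_lit 1) (p (nat_lit 0xc1) (nat_lit 0) (p (nat_lit 0x81) (nat_lit 1) (p (nat_lit 0x41) (nat_lit 1) (p (nat_lit 0x10a898a08881a) (nat_lit 0) (p (nat_lit 0x8a090988079a) (nat_lit 0) (p (nat_lit 0x108088907871a) (nat_lit 0) (p (nat_lit 0x87880887069a) (nat_lit 0) (p (nat_lit 0x8000080000000088806860a) (nat_lit 0) (p (nat_lit 0x8000080000000068786058a) (nat_lit 0) (p (nat_lit 0x10687058502) (nat_lit 0) (p (nat_lit 0x8606850482) (nat_lit 0) (p (nat_lit 0x160004) (nat_lit 0) (p (nat_lit 0x68612) (nat_lit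 0) (p (nat_lit 0x50592) (nat_lit 0) (p (nat_lit 0x40512) (nat_lit 0) (p (nat_lit 0x50312) (nat_lit 0) (p (nat_lit 0x38292) (nat_lit 0) (p (nat_lit 0x28212) (nat_lit 0) (p (nat_lit 0x38112) (nat_lit 0) (p (nat_lit 0x20092) (nat_lit 0) (p (nat_lit 0x10012) (nat_lit 0) pn))))))))))))))))))))))))))))))))) :=
  Cl.node (nat_lit 0x2680d2680d000000b8c8b0a8a) (nat_lit 1) (by decide +kernel) (ClAll.succ ClAll.zero n148)

def n182 : Cl (O (nat_lit 6)) (R (nat_lit 143633))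
    (p (nat_lit 0x119) (nat_lit 0) (p (nat_lit 0x101) (nat_lit 0) (p (nat_lit 0x10000c) (nat_lit 0) (p (nat_lit 0x200014) (nat_lit 0) (p (nat_lit 0x20000c) (nat_lit 0) (p (nat_lit 0xb0004) (nat_lit 0) (p (nat_lit 0x380c2) (nat_lit 0) (p (nat_lit 0x3c4aa) (nat_lit 7) (p (nat_lit 0x111) (nat_lit 1) (p (nat_lit 0x109) (nat_lit 0) (p (nat_lit 0xc9) (nat_lit 1) (p (nat_lit 0x119) (nat_lit 1) (p (nat_lit 0xc1) (nat_lit 0) (p (nat_lit 0x81) (nat_lit 1) (p (nat_lit 0x41) (nat_lit 1) (p (nat_lit 0x10a898a08881a) (nat_lit 0) (p (nat_lit 0x8a090988079a) (nat_lit 0) (p (nat_lit 0x108088907871a) (nat_lit 0) (p (nat_lit 0x87880887069a) (nat_lit 0) (p (nat_lit 0x8000080000000088806860a) (nat_lit 0) (p (nat_lit 0x8000080000000068786058a) (nat_lit 0) (p (nat_lit 0x10687058502) (nat_lit 0) (p (nat_lit 0x8606850482) (nat_lit 0) (p (nat_lit 0x160004) (nat_lit 0) (p (nat_lit 0x68612) (nat_lit 0)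 (p (nat_lit 0x50592) (nat_lit 0) (p (nat_lit 0x40512) (nat_lit 0) (p (nat_lit 0x50312) (nat_lit 0) (p (nat_lit 0x38292) (nat_lit 0) (p (nat_lit 0x28212) (nat_lit 0) (p (nat_lit 0x38112) (nat_lit 0) (p (nat_lit 0x20092) (nat_lit 0) (p (nat_lit 0x10012) (nat_lit 0) pn))))))))))))))))))))))))))))))))) :=
  Cl.node (nat_lit 0x109) (nat_lit 2) (by decide +kernel) (ClAll.succ (ClAll.succ ClAll.zero s1737) s1738)

def n183 : Cl (O (nat_lit 6)) (R (nat_lit 143633))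
    (p (nat_lit 0xb0004) (nat_lit 0) (p (nat_lit 0x81) (nat_lit 1) (p (nat_lit 0x10000c) (nat_lit 0) (p (nat_lit 0x20000c) (nat_lit 0) (p (nat_lit 0x380c2) (nat_lit 0) (p (nat_lit 0x444aa) (nat_lit 7) (p (nat_lit 0x81) (nat_lit 1) (p (nat_lit 0xc9) (nat_lit 1) (p (nat_lit 0x109) (nat_lit 1) (p (nat_lit 0x101) (nat_lit 0) (p (nat_lit 0x119) (nat_lit 0) (p (nat_lit 0xd1) (nat_lit 0) (p (nat_lit 0x89) (nat_lit 0) (p (nat_lit 0x41) (nat_lit 0) (p (nat_lit 0x10a898a08881a) (nat_lit 0) (p (nat_lit 0x8a090988079a) (nat_lit 0) (p (nat_lit 0x108088907871a) (nat_lit 0) (p (nat_lit 0x87880887069a) (nat_lit 0) (p (nat_lit 0x8000080000000088806860a) (nat_lit 0) (p (nat_lit 0x8000080000000068786058a) (nat_lit 0) (p (nat_lit 0x10687058502) (nat_lit 0) (p (nat_lit 0x8606850482) (nat_lit 0) (p (nat_lit 0x160004) (nat_lit 0) (p (nat_lit 0x68612) (nat_lit 0) (p (nat_lit 0x50592) (nat_lit 0) (p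 (nat_lit 0x40512) (nat_lit 0) (p (nat_lit 0x50312) (nat_lit 0) (p (nat_lit 0x38292) (nat_lit 0) (p (nat_lit 0x28212) (nat_lit 0) (p (nat_lit 0x38112) (nat_lit 0) (p (nat_lit 0x20092) (nat_lit 0) (p (nat_lit 0x10012) (nat_lit 0) pn)))))))))))))))))))))))))))))))) :=
  Cl.node (nat_lit 0xc1) (nat_lit 2) (by decide +kernel) (ClAll.succ (ClAll.succ ClAll.zero s11) s12)

def n184 : Cl (O (nat_lit 6)) (R (nat_lit 143633))
    (p (nat_lit 0xc1) (nat_lit 0) (p (nat_lit 0x20000c) (nat_lit 0) (p (nat_lit 0x81) (nat_lit 1) (p (nat_lit 0xb0004) (nat_lit 0) (p (nat_lit 0x380c2) (nat_lit 1) (p (nat_lit 0x444aa) (nat_lit 7) (p (nat_lit 0x81) (nat_lit 1) (p (nat_lit 0xc9) (nat_lit 1) (p (nat_lit 0x109) (nat_lit 1) (p (nat_lit 0x101) (nat_lit 0) (p (nat_lit 0x119) (nat_lit 0) (p (nat_lit 0xd1) (nat_lit 0) (p (nat_lit 0x89) (nat_lit 0) (p (nat_lit 0x41) (nat_lit 0) (p (nat_lit 0x10a898a08881a)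 (nat_lit 0) (p (nat_lit 0x8a090988079a) (nat_lit 0) (p (nat_lit 0x108088907871a) (nat_lit 0) (p (nat_lit 0x87880887069a) (nat_lit 0) (p (nat_lit 0x8000080000000088806860a) (nat_lit 0) (p (nat_lit 0x8000080000000068786058a) (nat_lit 0) (p (nat_lit 0x10687058502) (nat_lit 0) (p (nat_lit 0x8606850482) (nat_lit 0) (p (nat_lit 0x160004) (nat_lit 0) (p (nat_lit 0x68612) (nat_lit 0) (p (nat_lit 0x50592) (nat_lit 0) (p (nat_lit 0x40512) (nat_lit 0) (p (nat_lit 0x50312) (nat_lit 0) (p (nat_lit 0x38292) (nat_lit 0) (p (nat_lit 0x28212) (nat_lit 0) (p (nat_lit 0x38112) (nat_lit 0) (p (nat_lit 0x20092) (nat_lit 0) (p (nat_lit 0x10012) (nat_lit 0) pn)))))))))))))))))))))))))))))))) :=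
  Cl.node (nat_lit 0x10000c) (nat_lit 2) (by decide +kernel) (ClAll.succ (ClAll.succ ClAll.zero n149) s19)

def n185 : Cl (O (nat_lit 6)) (R (nat_lit 143633))
    (p (nat_lit 0x100014) (nat_lit 0) (p (nat_lit 0x1fc014) (nat_lit 0) (p (nat_lit 0x1fc00c) (nat_lit 0) (p (nat_lit 0xb0004) (nat_lit 1) (p (nat_lit 0x380c2) (nat_lit 1) (p (nat_lit 0x444aa) (nat_lit 7) (p (nat_lit 0x81) (nat_lit 1) (p (nat_lit 0xc9) (nat_lit 1) (p (nat_lit 0x109) (nat_lit 1) (p (nat_lit 0x101) (nat_lit 0) (p (nat_lit 0x119) (nat_lit 0) (p (nat_lit 0xd1) (nat_lit 0) (p (nat_lit 0x89) (nat_lit 0) (p (nat_lit 0x41) (nat_lit 0) (p (nat_lit 0x10a898a08881a) (nat_lit 0) (p (nat_lit 0x8a090988079a) (nat_lit 0) (p (nat_lit 0x108088907871a) (nat_lit 0) (p (nat_lit 0x87880887069a) (nat_lit 0) (p (nat_lit 0x8000080000000088806860a) (nat_lit 0) (p (nat_lit 0x8000080000000068786058a) (nat_lit 0) (p (nat_lit 0x10687058502)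 (nat_lit 0) (p (nat_lit 0x8606850482) (nat_lit 0) (p (nat_lit 0x160004) (nat_lit 0) (p (nat_lit 0x68612) (nat_lit 0) (p (nat_lit 0x50592) (nat_lit 0) (p (nat_lit 0x40512) (nat_lit 0) (p (nat_lit 0x50312) (nat_lit 0) (p (nat_lit 0x38292) (nat_lit 0) (p (nat_lit 0x28212) (nat_lit 0) (p (nat_lit 0x38112) (nat_lit 0) (p (nat_lit 0x20092) (nat_lit 0) (p (nat_lit 0x10012) (nat_lit 0) pn)))))))))))))))))))))))))))))))) :=
  Cl.node (nat_lit 0x10000c) (nat_lit 2) (by decide +kernel) (ClAll.succ (ClAll.succ ClAll.zero n150) s25)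

def n186 : Cl (O (nat_lit 6)) (R (nat_lit 143633))
    (p (nat_lit 0x380c2) (nat_lit 1) (p (nat_lit 0x444aa) (nat_lit 7) (p (nat_lit 0xc1) (nat_lit 1) (p (nat_lit 0xb0004) (nat_lit 0) (p (nat_lit 0x380c2) (nat_lit 0) (p (nat_lit 0x4c42a) (nat_lit 2) (p (nat_lit 0x111) (nat_lit 0) (p (nat_lit 0xc9) (nat_lit 0) (p (nat_lit 0x81) (nat_lit 0) (p (nat_lit 0x101) (nat_lit 1) (p (nat_lit 0x119) (nat_lit 0) (p (nat_lit 0xd1) (nat_lit 0) (p (nat_lit 0x89) (nat_lit 0) (p (nat_lit 0x41) (nat_lit 0) (p (nat_lit 0x10a898a08881a) (nat_lit 0) (p (nat_lit 0x8a090988079a) (nat_lit 0) (p (nat_lit 0x108088907871a) (nat_lit 0) (p (nat_lit 0x87880887069a) (nat_lit 0) (p (nat_lit 0x8000080000000088806860a) (nat_lit 0) (p (nat_lit 0x8000080000000068786058a) (nat_lit 0) (p (nat_lit 0x10687058502) (nat_lit 0) (p (nat_lit 0x8606850482) (nat_lit 0) (p (nat_lit 0x160004) (nat_lit 0) (p (nat_lit 0x68612)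 (nat_lit 0) (p (nat_lit 0x50592) (nat_lit 0) (p (nat_lit 0x40512) (nat_lit 0) (p (nat_lit 0x50312) (nat_lit 0) (p (nat_lit 0x38292) (nat_lit 0) (p (nat_lit 0x28212) (nat_lit 0) (p (nat_lit 0x38112) (nat_lit 0) (p (nat_lit 0x20092) (nat_lit 0) (p (nat_lit 0x10012) (nat_lit 0) pn)))))))))))))))))))))))))))))))) :=
  Cl.node (nat_lit 0x200014) (nat_lit 2) (by decide +kernel) (ClAll.succ (ClAll.succ ClAll.zero n151) s48)

def n187 : Cl (O (nat_lit 6)) (R (nat_lit 143633))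
    (p (nat_lit 0x10000c) (nat_lit 0) (p (nat_lit 0x1fc014) (nat_lit 0) (p (nat_lit 0x1fc00c) (nat_lit 0) (p (nat_lit 0xb0004) (nat_lit 1) (p (nat_lit 0x380c2) (nat_lit 0) (p (nat_lit 0x4c42a) (nat_lit 2) (p (nat_lit 0x111) (nat_lit 0) (p (nat_lit 0xc9) (nat_lit 0) (p (nat_lit 0x81) (nat_lit 0) (p (nat_lit 0x101) (nat_lit 1) (p (nat_lit 0x119) (nat_lit 0) (p (nat_lit 0xd1) (nat_lit 0) (p (nat_lit 0x89) (nat_lit 0) (p (nat_lit 0x41) (nat_lit 0) (p (nat_lit 0x10a898a08881a) (nat_lit 0) (p (nat_lit 0x8a090988079a) (nat_lit 0) (p (nat_lit 0x108088907871a) (nat_lit 0) (p (nat_lit 0x87880887069a) (nat_lit 0) (p (nat_lit 0x8000080000000088806860a) (nat_lit 0) (p (nat_lit 0x8000080000000068786058a) (nat_lit 0) (p (nat_lit 0x10687058502) (nat_lit 0) (p (nat_lit 0x8606850482) (nat_lit 0) (p (nat_lit 0x160004) (nat_lit 0) (p (nat_lit 0x68612) (nat_lit 0) (p (nat_lit 0x50592) (nat_lit 0)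 (p (nat_lit 0x40512) (nat_lit 0) (p (nat_lit 0x50312) (nat_lit 0) (p (nat_lit 0x38292) (nat_lit 0) (p (nat_lit 0x28212) (nat_lit 0) (p (nat_lit 0x38112) (nat_lit 0) (p (nat_lit 0x20092) (nat_lit 0) (p (nat_lit 0x10012) (nat_lit 0) pn)))))))))))))))))))))))))))))))) :=
  Cl.node (nat_lit 0x100014) (nat_lit 2) (by decide +kernel) (ClAll.succ (ClAll.succ ClAll.zero n152) s68)

def n188 : Cl (O (nat_lit 6)) (R (nat_lit 143633))
    (p (nat_lit 0x89) (nat_lit 0) (p (nat_lit 0x10000c) (nat_lit 0) (p (nat_lit 0x20000c) (nat_lit 0) (p (nat_lit 0xb0004) (nat_lit 0) (p (nat_lit 0x380c2) (nat_lit 1) (p (nat_lit 0x444aa) (nat_lit 7) (p (nat_lit 0x111) (nat_lit 0) (p (nat_lit 0xc9) (nat_lit 1) (p (nat_lit 0x81) (nat_lit 0) (p (nat_lit 0x101) (nat_lit 1) (p (nat_lit 0x119) (nat_lit 0) (p (nat_lit 0xd1) (nat_lit 0) (p (nat_lit 0x89) (nat_lit 0) (p (nat_lit 0x41) (nat_lit 0) (p (nat_lit 0x10a898a08881a)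 (nat_lit 0) (p (nat_lit 0x8a090988079a) (nat_lit 0) (p (nat_lit 0x108088907871a) (nat_lit 0) (p (nat_lit 0x87880887069a) (nat_lit 0) (p (nat_lit 0x8000080000000088806860a) (nat_lit 0) (p (nat_lit 0x8000080000000068786058a) (nat_lit 0) (p (nat_lit 0x10687058502) (nat_lit 0) (p (nat_lit 0x8606850482) (nat_lit 0) (p (nat_lit 0x160004) (nat_lit 0) (p (nat_lit 0x68612) (nat_lit 0) (p (nat_lit 0x50592) (nat_lit 0) (p (nat_lit 0x40512) (nat_lit 0) (p (nat_lit 0x50312) (nat_lit 0) (p (nat_lit 0x38292) (nat_lit 0) (p (nat_lit 0x28212) (nat_lit 0) (p (nat_lit 0x38112) (nat_lit 0) (p (nat_lit 0x20092) (nat_lit 0) (p (nat_lit 0x10012) (nat_lit 0) pn)))))))))))))))))))))))))))))))) :=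
  Cl.node (nat_lit 0x4c42a) (nat_lit 12) (by decide +kernel) (ClAll.succ (ClAll.succ (ClAll.succ (ClAll.succ (ClAll.succ (ClAll.succ (ClAll.succ (ClAll.succ (ClAll.succ (ClAll.succ (ClAll.succ (ClAll.succ ClAll.zero s120) s121) n153) s125) s126) s127) s128) s129) s130) s131) s132) s133)

def n189 : Cl (O (nat_lit 6)) (R (nat_lit 143633))
    (p (nat_lit 0x89) (nat_lit 1) (p (nat_lit 0x10000c) (nat_lit 0) (p (nat_lit 0x20000c) (nat_lit 0) (p (nat_lit 0xb0004) (nat_lit 0) (p (nat_lit 0x380c2) (nat_lit 1) (p (nat_lit 0x444aa) (nat_lit 7) (p (nat_lit 0x111) (nat_lit 0) (p (nat_lit 0xc9) (nat_lit 1) (p (nat_lit 0x81) (nat_lit 0) (p (nat_lit 0x101) (nat_lit 1) (p (nat_lit 0x119) (nat_lit 0) (p (nat_lit 0xd1) (nat_lit 0) (p (nat_lit 0x89) (nat_lit 0) (p (nat_lit 0x41) (nat_lit 0) (p (nat_lit 0x10a898a08881a) (nat_lit 0) (p (nat_lit 0x8a090988079a) (nat_lit 0) (p (nat_lit 0x108088907871a)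 (nat_lit 0) (p (nat_lit 0x87880887069a) (nat_lit 0) (p (nat_lit 0x8000080000000088806860a) (nat_lit 0) (p (nat_lit 0x8000080000000068786058a) (nat_lit 0) (p (nat_lit 0x10687058502) (nat_lit 0) (p (nat_lit 0x8606850482) (nat_lit 0) (p (nat_lit 0x160004) (nat_lit 0) (p (nat_lit 0x68612) (nat_lit 0) (p (nat_lit 0x50592) (nat_lit 0) (p (nat_lit 0x40512) (nat_lit 0) (p (nat_lit 0x50312) (nat_lit 0) (p (nat_lit 0x38292) (nat_lit 0) (p (nat_lit 0x28212) (nat_lit 0) (p (nat_lit 0x38112) (nat_lit 0) (p (nat_lit 0x20092) (nat_lit 0) (p (nat_lit 0x10012) (nat_lit 0) pn)))))))))))))))))))))))))))))))) :=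
  Cl.node (nat_lit 0xc9) (nat_lit 2) (by decide +kernel) (ClAll.succ (ClAll.succ ClAll.zero n154) s136)

def n190 : Cl (O (nat_lit 6)) (R (nat_lit 143633))
    (p (nat_lit 0x100014) (nat_lit 0) (p (nat_lit 0x1fc014) (nat_lit 0) (p (nat_lit 0x1fc00c) (nat_lit 0) (p (nat_lit 0xb0004) (nat_lit 1) (p (nat_lit 0x380c2) (nat_lit 1) (p (nat_lit 0x444aa) (nat_lit 7) (p (nat_lit 0x111) (nat_lit 0) (p (nat_lit 0xc9) (nat_lit 1) (p (nat_lit 0x81) (nat_lit 0) (p (nat_lit 0x101) (nat_lit 1) (p (nat_lit 0x119) (nat_lit 0) (p (nat_lit 0xd1) (nat_lit 0) (p (nat_lit 0x89) (nat_lit 0) (p (nat_lit 0x41) (nat_lit 0) (p (nat_lit 0x10a898a08881a) (nat_lit 0) (p (nat_lit 0x8a090988079a) (nat_lit 0) (p (nat_lit 0x108088907871a) (nat_lit 0) (p (nat_lit 0x87880887069a) (nat_lit 0) (p (nat_lit 0x8000080000000088806860a) (nat_lit 0) (p (nat_lit 0x8000080000000068786058a) (nat_lit 0) (p (nat_lit 0x10687058502)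 (nat_lit 0) (p (nat_lit 0x8606850482) (nat_lit 0) (p (nat_lit 0x160004) (nat_lit 0) (p (nat_lit 0x68612) (nat_lit 0) (p (nat_lit 0x50592) (nat_lit 0) (p (nat_lit 0x40512) (nat_lit 0) (p (nat_lit 0x50312) (nat_lit 0) (p (nat_lit 0x38292) (nat_lit 0) (p (nat_lit 0x28212) (nat_lit 0) (p (nat_lit 0x38112) (nat_lit 0) (p (nat_lit 0x20092) (nat_lit 0) (p (nat_lit 0x10012) (nat_lit 0) pn)))))))))))))))))))))))))))))))) :=
  Cl.node (nat_lit 0x10000c) (nat_lit 2) (by decide +kernel) (ClAll.succ (ClAll.succ ClAll.zero n155) s141)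

def n191 : Cl (O (nat_lit 6)) (R (nat_lit 143633))
    (p (nat_lit 0x10000c) (nat_lit 0) (p (nat_lit 0x100014) (nat_lit 0) (p (nat_lit 0x20000c) (nat_lit 0) (p (nat_lit 0x200014) (nat_lit 0) (p (nat_lit 0x380c2) (nat_lit 0) (p (nat_lit 0x444aa) (nat_lit 8) (p (nat_lit 0x111) (nat_lit 0) (p (nat_lit 0xc9) (nat_lit 1) (p (nat_lit 0x81) (nat_lit 0) (p (nat_lit 0x101) (nat_lit 1) (p (nat_lit 0x119) (nat_lit 0) (p (nat_lit 0xd1) (nat_lit 0) (p (nat_lit 0x89) (nat_lit 0) (p (nat_lit 0x41) (nat_lit 0) (p (nat_lit 0x10a898a08881a) (nat_lit 0) (p (nat_lit 0x8a090988079a) (nat_lit 0) (p (nat_lit 0x108088907871a) (nat_lit 0) (p (nat_lit 0x87880887069a) (nat_lit 0) (p (nat_lit 0x8000080000000088806860a) (nat_lit 0) (p (nat_lit 0x8000080000000068786058a) (nat_lit 0) (p (nat_lit 0x10687058502) (nat_lit 0) (p (nat_lit 0x8606850482) (nat_lit 0) (p (nat_lit 0x160004) (nat_lit 0) (p (nat_lit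 0x68612) (nat_lit 0) (p (nat_lit 0x50592) (nat_lit 0) (p (nat_lit 0x40512) (nat_lit 0) (p (nat_lit 0x50312) (nat_lit 0) (p (nat_lit 0x38292) (nat_lit 0) (p (nat_lit 0x28212) (nat_lit 0) (p (nat_lit 0x38112) (nat_lit 0) (p (nat_lit 0x20092) (nat_lit 0) (p (nat_lit 0x10012) (nat_lit 0) pn)))))))))))))))))))))))))))))))) :=
  Cl.node (nat_lit 0x89) (nat_lit 2) (by decide +kernel) (ClAll.succ (ClAll.succ ClAll.zero s145) s146)

def n192 : Cl (O (nat_lit 6)) (R (nat_lit 143633))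
    (p (nat_lit 0x100014) (nat_lit 0) (p (nat_lit 0x10000c) (nat_lit 0) (p (nat_lit 0x20000c) (nat_lit 0) (p (nat_lit 0x200014) (nat_lit 0) (p (nat_lit 0x380c2) (nat_lit 1) (p (nat_lit 0x444aa) (nat_lit 8) (p (nat_lit 0x111) (nat_lit 0) (p (nat_lit 0xc9) (nat_lit 1) (p (nat_lit 0x81) (nat_lit 0) (p (nat_lit 0x101) (nat_lit 1) (p (nat_lit 0x119) (nat_lit 0) (p (nat_lit 0xd1) (nat_lit 0) (p (nat_lit 0x89) (nat_lit 0) (p (nat_lit 0x41) (nat_lit 0) (p (nat_lit 0x10a898a08881a) (nat_lit 0) (p (nat_lit 0x8a090988079a) (nat_lit 0) (p (nat_lit 0x108088907871a) (nat_lit 0) (p (nat_lit 0x87880887069a) (nat_lit 0) (p (nat_lit 0x8000080000000088806860a) (nat_lit 0) (p (nat_lit 0x8000080000000068786058a) (nat_lit 0) (p (nat_lit 0x10687058502) (nat_lit 0) (p (nat_lit 0x8606850482) (nat_lit 0) (p (nat_lit 0x160004) (nat_lit 0) (p (nat_lit 0x68612) (nat_lit 0) (p (nat_lit 0x50592) (nat_lit 0)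 (p (nat_lit 0x40512) (nat_lit 0) (p (nat_lit 0x50312) (nat_lit 0) (p (nat_lit 0x38292) (nat_lit 0) (p (nat_lit 0x28212) (nat_lit 0) (p (nat_lit 0x38112) (nat_lit 0) (p (nat_lit 0x20092) (nat_lit 0) (p (nat_lit 0x10012) (nat_lit 0) pn)))))))))))))))))))))))))))))))) :=
  Cl.node (nat_lit 0x89) (nat_lit 2) (by decide +kernel) (ClAll.succ (ClAll.succ ClAll.zero s151) s152)

def n193 : Cl (O (nat_lit 6)) (R (nat_lit 143633))
    (p (nat_lit 0x10000c) (nat_lit 0) (p (nat_lit 0x1fc014) (nat_lit 0) (p (nat_lit 0x1fc00c) (nat_lit 0) (p (nat_lit 0xb0004) (nat_lit 1) (p (nat_lit 0x380c2) (nat_lit 0) (p (nat_lit 0x4c42a) (nat_lit 2) (p (nat_lit 0xc9) (nat_lit 0) (p (nat_lit 0xc1) (nat_lit 0) (p (nat_lit 0x81) (nat_lit 1) (p (nat_lit 0x101) (nat_lit 1) (p (nat_lit 0x119) (nat_lit 0) (p (nat_lit 0xd1) (nat_lit 0) (p (nat_lit 0x89) (nat_lit 0) (p (nat_lit 0x41) (nat_lit 0) (p (nat_lit 0x10a898a08881a)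 (nat_lit 0) (p (nat_lit 0x8a090988079a) (nat_lit 0) (p (nat_lit 0x108088907871a) (nat_lit 0) (p (nat_lit 0x87880887069a) (nat_lit 0) (p (nat_lit 0x8000080000000088806860a) (nat_lit 0) (p (nat_lit 0x8000080000000068786058a) (nat_lit 0) (p (nat_lit 0x10687058502) (nat_lit 0) (p (nat_lit 0x8606850482) (nat_lit 0) (p (nat_lit 0x160004) (nat_lit 0) (p (nat_lit 0x68612) (nat_lit 0) (p (nat_lit 0x50592) (nat_lit 0) (p (nat_lit 0x40512) (nat_lit 0) (p (nat_lit 0x50312) (nat_lit 0) (p (nat_lit 0x38292) (nat_lit 0) (p (nat_lit 0x28212) (nat_lit 0) (p (nat_lit 0x38112) (nat_lit 0) (p (nat_lit 0x20092) (nat_lit 0) (p (nat_lit 0x10012) (nat_lit 0) pn)))))))))))))))))))))))))))))))) :=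
  Cl.node (nat_lit 0x100014) (nat_lit 2) (by decide +kernel) (ClAll.succ (ClAll.succ ClAll.zero n156) s192)

def n194 : Cl (O (nat_lit 6)) (R (nat_lit 143633))
    (p (nat_lit 0x10000c) (nat_lit 0) (p (nat_lit 0x1fc014) (nat_lit 0) (p (nat_lit 0x1fc00c) (nat_lit 0) (p (nat_lit 0xb0004) (nat_lit 1) (p (nat_lit 0x380c2) (nat_lit 1) (p (nat_lit 0x444aa) (nat_lit 7) (p (nat_lit 0x109) (nat_lit 1) (p (nat_lit 0x101) (nat_lit 0) (p (nat_lit 0x81) (nat_lit 1) (p (nat_lit 0xc1) (nat_lit 1) (p (nat_lit 0x119) (nat_lit 1) (p (nat_lit 0xd1) (nat_lit 0) (p (nat_lit 0x89) (nat_lit 0) (p (nat_lit 0x41) (nat_lit 0) (p (nat_lit 0x10a898a08881a) (nat_lit 0) (p (nat_lit 0x8a090988079a) (nat_lit 0) (p (nat_lit 0x108088907871a) (nat_lit 0) (p (nat_lit 0x87880887069a) (nat_lit 0) (p (nat_lit 0x8000080000000088806860a) (nat_lit 0) (p (nat_lit 0x8000080000000068786058a) (nat_lit 0) (p (nat_lit 0x10687058502)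 (nat_lit 0) (p (nat_lit 0x8606850482) (nat_lit 0) (p (nat_lit 0x160004) (nat_lit 0) (p (nat_lit 0x68612) (nat_lit 0) (p (nat_lit 0x50592) (nat_lit 0) (p (nat_lit 0x40512) (nat_lit 0) (p (nat_lit 0x50312) (nat_lit 0) (p (nat_lit 0x38292) (nat_lit 0) (p (nat_lit 0x28212) (nat_lit 0) (p (nat_lit 0x38112) (nat_lit 0) (p (nat_lit 0x20092) (nat_lit 0) (p (nat_lit 0x10012) (nat_lit 0) pn)))))))))))))))))))))))))))))))) :=
  Cl.node (nat_lit 0x100014) (nat_lit 2) (by decide +kernel) (ClAll.succ (ClAll.succ ClAll.zero n157) s421)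

def n195 : Cl (O (nat_lit 6)) (R (nat_lit 143633))
    (p (nat_lit 0x100014) (nat_lit 0) (p (nat_lit 0x10000c) (nat_lit 0) (p (nat_lit 0x380c2) (nat_lit 0) (p (nat_lit 0x4c42a) (nat_lit 2) (p (nat_lit 0x109) (nat_lit 0) (p (nat_lit 0x200014) (nat_lit 0) (p (nat_lit 0x20000c) (nat_lit 0) (p (nat_lit 0x119) (nat_lit 0) (p (nat_lit 0x81) (nat_lit 0) (p (nat_lit 0x101) (nat_lit 1) (p (nat_lit 0x111) (nat_lit 0) (p (nat_lit 0xd1) (nat_lit 1) (p (nat_lit 0x89) (nat_lit 0) (p (nat_lit 0x41) (nat_lit 0) (p (nat_lit 0x10a898a08881a) (nat_lit 0) (p (nat_lit 0x8a090988079a) (nat_lit 0) (p (nat_lit 0x108088907871a) (nat_lit 0) (p (nat_lit 0x87880887069a) (nat_lit 0) (p (nat_lit 0x8000080000000088806860a) (nat_lit 0) (p (nat_lit 0x8000080000000068786058a) (nat_lit 0) (p (nat_lit 0x10687058502) (nat_lit 0) (p (nat_lit 0x8606850482) (nat_lit 0) (p (nat_lit 0x160004) (nat_lit 0) (p (nat_lit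 0x68612) (nat_lit 0) (p (nat_lit 0x50592) (nat_lit 0) (p (nat_lit 0x40512) (nat_lit 0) (p (nat_lit 0x50312) (nat_lit 0) (p (nat_lit 0x38292) (nat_lit 0) (p (nat_lit 0x28212) (nat_lit 0) (p (nat_lit 0x38112) (nat_lit 0) (p (nat_lit 0x20092) (nat_lit 0) (p (nat_lit 0x10012) (nat_lit 0) pn)))))))))))))))))))))))))))))))) :=
  Cl.node (nat_lit 0xb0004) (nat_lit 2) (by decide +kernel) (ClAll.succ (ClAll.succ ClAll.zero n158) n159)

def n196 : Cl (O (nat_lit 6)) (R (nat_lit 143633))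
    (p (nat_lit 0x380c2) (nat_lit 0) (p (nat_lit 0x4c42a) (nat_lit 2) (p (nat_lit 0xc9) (nat_lit 0) (p (nat_lit 0xb0004) (nat_lit 0) (p (nat_lit 0x380c2) (nat_lit 1) (p (nat_lit 0x444aa) (nat_lit 7) (p (nat_lit 0x119) (nat_lit 0) (p (nat_lit 0xc1) (nat_lit 0) (p (nat_lit 0x81) (nat_lit 1) (p (nat_lit 0x101) (nat_lit 1) (p (nat_lit 0x111) (nat_lit 0) (p (nat_lit 0xd1) (nat_lit 1) (p (nat_lit 0x89) (nat_lit 0) (p (nat_lit 0x41) (nat_lit 0) (p (nat_lit 0x10a898a08881a) (nat_lit 0) (p (nat_lit 0x8a090988079a) (nat_lit 0) (p (nat_lit 0x108088907871a) (nat_lit 0) (p (nat_lit 0x87880887069a) (nat_lit 0) (p (nat_lit 0x8000080000000088806860a) (nat_lit 0) (p (nat_lit 0x8000080000000068786058a) (nat_lit 0) (p (nat_lit 0x10687058502) (nat_lit 0) (p (nat_lit 0x8606850482) (nat_lit 0) (p (nat_lit 0x160004) (nat_lit 0) (p (nat_lit 0x68612) (nat_lit 0) (p (nat_lit 0x50592) (nat_lit 0) (p (nat_lit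 0x40512) (nat_lit 0) (p (nat_lit 0x50312) (nat_lit 0) (p (nat_lit 0x38292) (nat_lit 0) (p (nat_lit 0x28212) (nat_lit 0) (p (nat_lit 0x38112) (nat_lit 0) (p (nat_lit 0x20092) (nat_lit 0) (p (nat_lit 0x10012) (nat_lit 0) pn)))))))))))))))))))))))))))))))) :=
  Cl.node (nat_lit 0x200014) (nat_lit 2) (by decide +kernel) (ClAll.succ (ClAll.succ ClAll.zero n160) s573)

def n197 : Cl (O (nat_lit 6)) (R (nat_lit 143633))
    (p (nat_lit 0x10000c) (nat_lit 0) (p (nat_lit 0x100014) (nat_lit 0) (p (nat_lit 0x200014) (nat_lit 0) (p (nat_lit 0x20000c) (nat_lit 0) (p (nat_lit 0x380c2) (nat_lit 1) (p (nat_lit 0x444aa) (nat_lit 8) (p (nat_lit 0x119) (nat_lit 0) (p (nat_lit 0xc1) (nat_lit 0) (p (nat_lit 0x81) (nat_lit 1) (p (nat_lit 0x101) (nat_lit 1) (p (nat_lit 0x111) (nat_lit 0) (p (nat_lit 0xd1) (nat_lit 1) (p (nat_lit 0x89) (nat_lit 0) (p (nat_lit 0x41) (nat_lit 0) (p (nat_lit 0x10a898a08881a)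 (nat_lit 0) (p (nat_lit 0x8a090988079a) (nat_lit 0) (p (nat_lit 0x108088907871a) (nat_lit 0) (p (nat_lit 0x87880887069a) (nat_lit 0) (p (nat_lit 0x8000080000000088806860a) (nat_lit 0) (p (nat_lit 0x8000080000000068786058a) (nat_lit 0) (p (nat_lit 0x10687058502) (nat_lit 0) (p (nat_lit 0x8606850482) (nat_lit 0) (p (nat_lit 0x160004) (nat_lit 0) (p (nat_lit 0x68612) (nat_lit 0) (p (nat_lit 0x50592) (nat_lit 0) (p (nat_lit 0x40512) (nat_lit 0) (p (nat_lit 0x50312) (nat_lit 0) (p (nat_lit 0x38292) (nat_lit 0) (p (nat_lit 0x28212) (nat_lit 0) (p (nat_lit 0x38112) (nat_lit 0) (p (nat_lit 0x20092) (nat_lit 0) (p (nat_lit 0x10012) (nat_lit 0) pn)))))))))))))))))))))))))))))))) :=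
  Cl.node (nat_lit 0xc9) (nat_lit 2) (by decide +kernel) (ClAll.succ (ClAll.succ ClAll.zero n161) s588)

def n198 : Cl (O (nat_lit 6)) (R (nat_lit 143633))
    (p (nat_lit 0x100014) (nat_lit 0) (p (nat_lit 0x200014) (nat_lit 0) (p (nat_lit 0x10000c) (nat_lit 0) (p (nat_lit 0x20000c) (nat_lit 0) (p (nat_lit 0x380c2) (nat_lit 0) (p (nat_lit 0x444aa) (nat_lit 7) (p (nat_lit 0xd1) (nat_lit 1) (p (nat_lit 0x111) (nat_lit 1) (p (nat_lit 0x109) (nat_lit 0) (p (nat_lit 0x101) (nat_lit 0) (p (nat_lit 0x119) (nat_lit 0) (p (nat_lit 0xc9) (nat_lit 0) (p (nat_lit 0x89) (nat_lit 1) (p (nat_lit 0x41) (nat_lit 0) (p (nat_lit 0x10a898a08881a) (nat_lit 0) (p (nat_lit 0x8a090988079a) (nat_lit 0) (p (nat_lit 0x108088907871a) (nat_lit 0) (p (nat_lit 0x87880887069a) (nat_lit 0) (p (nat_lit 0x8000080000000088806860a) (nat_lit 0) (p (nat_lit 0x8000080000000068786058a) (nat_lit 0) (p (nat_lit 0x10687058502)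 (nat_lit 0) (p (nat_lit 0x8606850482) (nat_lit 0) (p (nat_lit 0x160004) (nat_lit 0) (p (nat_lit 0x68612) (nat_lit 0) (p (nat_lit 0x50592) (nat_lit 0) (p (nat_lit 0x40512) (nat_lit 0) (p (nat_lit 0x50312) (nat_lit 0) (p (nat_lit 0x38292) (nat_lit 0) (p (nat_lit 0x28212) (nat_lit 0) (p (nat_lit 0x38112) (nat_lit 0) (p (nat_lit 0x20092) (nat_lit 0) (p (nat_lit 0x10012) (nat_lit 0) pn)))))))))))))))))))))))))))))))) :=
  Cl.node (nat_lit 0xb0004) (nat_lit 2) (by decide +kernel) (ClAll.succ (ClAll.succ ClAll.zero n162) n163)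

def n199 : Cl (O (nat_lit 6)) (R (nat_lit 143633))
    (p (nat_lit 0x100014) (nat_lit 1) (p (nat_lit 0x200014) (nat_lit 0) (p (nat_lit 0x10000c) (nat_lit 0) (p (nat_lit 0x20000c) (nat_lit 0) (p (nat_lit 0x380c2) (nat_lit 0) (p (nat_lit 0x444aa) (nat_lit 7) (p (nat_lit 0xd1) (nat_lit 1) (p (nat_lit 0x111) (nat_lit 1) (p (nat_lit 0x109) (nat_lit 0) (p (nat_lit 0x101) (nat_lit 0) (p (nat_lit 0x119) (nat_lit 0) (p (nat_lit 0xc9) (nat_lit 0) (p (nat_lit 0x89) (nat_lit 1) (p (nat_lit 0x41) (nat_lit 0) (p (nat_lit 0x10a898a08881a) (nat_lit 0) (p (nat_lit 0x8a090988079a) (nat_lit 0) (p (nat_lit 0x108088907871a) (nat_lit 0) (p (nat_lit 0x87880887069a) (nat_lit 0) (p (nat_lit 0x8000080000000088806860a) (nat_lit 0) (p (nat_lit 0x8000080000000068786058a) (nat_lit 0) (p (nat_lit 0x10687058502) (nat_lit 0) (p (nat_lit 0x8606850482) (nat_lit 0) (p (nat_lit 0x160004) (nat_lit 0) (p (nat_lit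 0x68612) (nat_lit 0) (p (nat_lit 0x50592) (nat_lit 0) (p (nat_lit 0x40512) (nat_lit 0) (p (nat_lit 0x50312) (nat_lit 0) (p (nat_lit 0x38292) (nat_lit 0) (p (nat_lit 0x28212) (nat_lit 0) (p (nat_lit 0x38112) (nat_lit 0) (p (nat_lit 0x20092) (nat_lit 0) (p (nat_lit 0x10012) (nat_lit 0) pn)))))))))))))))))))))))))))))))) :=
  Cl.node (nat_lit 0x108004) (nat_lit 2) (by decide +kernel) (ClAll.succ (ClAll.succ ClAll.zero n164) s671)

def n200 : Cl (O (nat_lit 6)) (R (nat_lit 143633))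
    (p (nat_lit 0x10000c) (nat_lit 0) (p (nat_lit 0xc1) (nat_lit 0) (p (nat_lit 0x20000c) (nat_lit 0) (p (nat_lit 0xb0004) (nat_lit 0) (p (nat_lit 0x380c2) (nat_lit 1) (p (nat_lit 0x444aa) (nat_lit 7) (p (nat_lit 0xd1) (nat_lit 1) (p (nat_lit 0x111) (nat_lit 1) (p (nat_lit 0x109) (nat_lit 0) (p (nat_lit 0x101) (nat_lit 0) (p (nat_lit 0x119) (nat_lit 0) (p (nat_lit 0xc9) (nat_lit 0) (p (nat_lit 0x89) (nat_lit 1) (p (nat_lit 0x41) (nat_lit 0) (p (nat_lit 0x10a898a08881a) (nat_lit 0) (p (nat_lit 0x8a090988079a) (nat_lit 0) (p (nat_lit 0x108088907871a) (nat_lit 0) (p (nat_lit 0x87880887069a) (nat_lit 0) (p (nat_lit 0x8000080000000088806860a) (nat_lit 0) (p (nat_lit 0x8000080000000068786058a) (nat_lit 0) (p (nat_lit 0x10687058502) (nat_lit 0) (p (nat_lit 0x8606850482) (nat_lit 0) (p (nat_lit 0x160004) (nat_lit 0) (p (nat_lit 0x68612) (nat_lit 0) (p (nat_lit 0x50592) (nat_lit 0) (p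 (nat_lit 0x40512) (nat_lit 0) (p (nat_lit 0x50312) (nat_lit 0) (p (nat_lit 0x38292) (nat_lit 0) (p (nat_lit 0x28212) (nat_lit 0) (p (nat_lit 0x38112) (nat_lit 0) (p (nat_lit 0x20092) (nat_lit 0) (p (nat_lit 0x10012) (nat_lit 0) pn)))))))))))))))))))))))))))))))) :=
  Cl.node (nat_lit 0x200014) (nat_lit 2) (by decide +kernel) (ClAll.succ (ClAll.succ ClAll.zero n165) s679)

def n201 : Cl (O (nat_lit 6)) (R (nat_lit 143633))
    (p (nat_lit 0x100014) (nat_lit 0) (p (nat_lit 0x1fc014) (nat_lit 0) (p (nat_lit 0x1fc00c) (nat_lit 0) (p (nat_lit 0xb0004) (nat_lit 1) (p (nat_lit 0x380c2) (nat_lit 1) (p (nat_lit 0x444aa) (nat_lit 7) (p (nat_lit 0xd1) (nat_lit 1) (p (nat_lit 0x111) (nat_lit 1) (p (nat_lit 0x109) (nat_lit 0) (p (nat_lit 0x101) (nat_lit 0) (p (nat_lit 0x119) (nat_lit 0) (p (nat_lit 0xc9) (nat_lit 0) (p (nat_lit 0x89) (nat_lit 1) (p (nat_lit 0x41) (nat_lit 0) (p (nat_lit 0x10a898a08881a)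 (nat_lit 0) (p (nat_lit 0x8a090988079a) (nat_lit 0) (p (nat_lit 0x108088907871a) (nat_lit 0) (p (nat_lit 0x87880887069a) (nat_lit 0) (p (nat_lit 0x8000080000000088806860a) (nat_lit 0) (p (nat_lit 0x8000080000000068786058a) (nat_lit 0) (p (nat_lit 0x10687058502) (nat_lit 0) (p (nat_lit 0x8606850482) (nat_lit 0) (p (nat_lit 0x160004) (nat_lit 0) (p (nat_lit 0x68612) (nat_lit 0) (p (nat_lit 0x50592) (nat_lit 0) (p (nat_lit 0x40512) (nat_lit 0) (p (nat_lit 0x50312) (nat_lit 0) (p (nat_lit 0x38292) (nat_lit 0) (p (nat_lit 0x28212) (nat_lit 0) (p (nat_lit 0x38112) (nat_lit 0) (p (nat_lit 0x20092) (nat_lit 0) (p (nat_lit 0x10012) (nat_lit 0) pn)))))))))))))))))))))))))))))))) :=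
  Cl.node (nat_lit 0x10000c) (nat_lit 2) (by decide +kernel) (ClAll.succ (ClAll.succ ClAll.zero n166) s690)

def n202 : Cl (O (nat_lit 6)) (R (nat_lit 143633))
    (p (nat_lit 0x200014) (nat_lit 0) (p (nat_lit 0x10000c) (nat_lit 0) (p (nat_lit 0x20000c) (nat_lit 0) (p (nat_lit 0xc1) (nat_lit 0) (p (nat_lit 0xb0004) (nat_lit 0) (p (nat_lit 0x380c2) (nat_lit 0) (p (nat_lit 0x444aa) (nat_lit 7) (p (nat_lit 0xd1) (nat_lit 1) (p (nat_lit 0x109) (nat_lit 1) (p (nat_lit 0x101) (nat_lit 0) (p (nat_lit 0x119) (nat_lit 0) (p (nat_lit 0xc9) (nat_lit 0) (p (nat_lit 0x89) (nat_lit 1) (p (nat_lit 0x41) (nat_lit 0) (p (nat_lit 0x10a898a08881a) (nat_lit 0) (p (nat_lit 0x8a090988079a) (nat_lit 0) (p (nat_lit 0x108088907871a) (nat_lit 0) (p (nat_lit 0x87880887069a) (nat_lit 0) (p (nat_lit 0x8000080000000088806860a) (nat_lit 0) (p (nat_lit 0x8000080000000068786058a) (nat_lit 0) (p (nat_lit 0x10687058502)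 (nat_lit 0) (p (nat_lit 0x8606850482) (nat_lit 0) (p (nat_lit 0x160004) (nat_lit 0) (p (nat_lit 0x68612) (nat_lit 0) (p (nat_lit 0x50592) (nat_lit 0) (p (nat_lit 0x40512) (nat_lit 0) (p (nat_lit 0x50312) (nat_lit 0) (p (nat_lit 0x38292) (nat_lit 0) (p (nat_lit 0x28212) (nat_lit 0) (p (nat_lit 0x38112) (nat_lit 0) (p (nat_lit 0x20092) (nat_lit 0) (p (nat_lit 0x10012) (nat_lit 0) pn)))))))))))))))))))))))))))))))) :=
  Cl.node (nat_lit 0xc9) (nat_lit 2) (by decide +kernel) (ClAll.succ (ClAll.succ ClAll.zero n167) s740)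

def n203 : Cl (O (nat_lit 6)) (R (nat_lit 143633))
    (p (nat_lit 0x10000c) (nat_lit 0) (p (nat_lit 0x100014) (nat_lit 0) (p (nat_lit 0x1fc014) (nat_lit 0) (p (nat_lit 0x1fc00c) (nat_lit 0) (p (nat_lit 0xb0004) (nat_lit 1) (p (nat_lit 0x380c2) (nat_lit 0) (p (nat_lit 0x444aa) (nat_lit 7) (p (nat_lit 0xd1) (nat_lit 1) (p (nat_lit 0x109) (nat_lit 1) (p (nat_lit 0x101) (nat_lit 0) (p (nat_lit 0x119) (nat_lit 0) (p (nat_lit 0xc9) (nat_lit 0) (p (nat_lit 0x89) (nat_lit 1) (p (nat_lit 0x41) (nat_lit 0) (p (nat_lit 0x10a898a08881a) (nat_lit 0) (p (nat_lit 0x8a090988079a) (nat_lit 0) (p (nat_lit 0x108088907871a) (nat_lit 0) (p (nat_lit 0x87880887069a) (nat_lit 0) (p (nat_lit 0x8000080000000088806860a) (nat_lit 0) (p (nat_lit 0x8000080000000068786058a) (nat_lit 0) (p (nat_lit 0x10687058502) (nat_lit 0) (p (nat_lit 0x8606850482) (nat_lit 0) (p (nat_lit 0x160004) (nat_lit 0) (p (nat_lit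 0x68612) (nat_lit 0) (p (nat_lit 0x50592) (nat_lit 0) (p (nat_lit 0x40512) (nat_lit 0) (p (nat_lit 0x50312) (nat_lit 0) (p (nat_lit 0x38292) (nat_lit 0) (p (nat_lit 0x28212) (nat_lit 0) (p (nat_lit 0x38112) (nat_lit 0) (p (nat_lit 0x20092) (nat_lit 0) (p (nat_lit 0x10012) (nat_lit 0) pn)))))))))))))))))))))))))))))))) :=
  Cl.node (nat_lit 0x2680d2680d000000b8c8b0a8a) (nat_lit 1) (by decide +kernel) (ClAll.succ ClAll.zero n168)

def n204 : Cl (O (nat_lit 6)) (R (nat_lit 143633))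
    (p (nat_lit 0x10000c) (nat_lit 0) (p (nat_lit 0x20000c) (nat_lit 0) (p (nat_lit 0xc9) (nat_lit 0) (p (nat_lit 0xc1) (nat_lit 0) (p (nat_lit 0xb0004) (nat_lit 0) (p (nat_lit 0x380c2) (nat_lit 1) (p (nat_lit 0x444aa) (nat_lit 7) (p (nat_lit 0xd1) (nat_lit 1) (p (nat_lit 0x109) (nat_lit 1) (p (nat_lit 0x101) (nat_lit 0) (p (nat_lit 0x119) (nat_lit 0) (p (nat_lit 0xc9) (nat_lit 0) (p (nat_lit 0x89) (nat_lit 1) (p (nat_lit 0x41) (nat_lit 0) (p (nat_lit 0x10a898a08881a) (nat_lit 0) (p (nat_lit 0x8a090988079a) (nat_lit 0) (p (nat_lit 0x108088907871a) (nat_lit 0) (p (nat_lit 0x87880887069a) (nat_lit 0) (p (nat_lit 0x8000080000000088806860a) (nat_lit 0) (p (nat_lit 0x8000080000000068786058a) (nat_lit 0) (p (nat_lit 0x10687058502) (nat_lit 0) (p (nat_lit 0x8606850482) (nat_lit 0) (p (nat_lit 0x160004) (nat_lit 0) (p (nat_lit 0x68612) (nat_lit 0) (p (nat_lit 0x50592) (nat_lit 0) (p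 (nat_lit 0x40512) (nat_lit 0) (p (nat_lit 0x50312) (nat_lit 0) (p (nat_lit 0x38292) (nat_lit 0) (p (nat_lit 0x28212) (nat_lit 0) (p (nat_lit 0x38112) (nat_lit 0) (p (nat_lit 0x20092) (nat_lit 0) (p (nat_lit 0x10012) (nat_lit 0) pn)))))))))))))))))))))))))))))))) :=
  Cl.node (nat_lit 0x200014) (nat_lit 2) (by decide +kernel) (ClAll.succ (ClAll.succ ClAll.zero n169) s790)

def n205 : Cl (O (nat_lit 6)) (R (nat_lit 143633))
    (p (nat_lit 0x200014) (nat_lit 0) (p (nat_lit 0x20000c) (nat_lit 0) (p (nat_lit 0xc9) (nat_lit 1) (p (nat_lit 0xc1) (nat_lit 0) (p (nat_lit 0xb0004) (nat_lit 0) (p (nat_lit 0x380c2) (nat_lit 1) (p (nat_lit 0x444aa) (nat_lit 7) (p (nat_lit 0xd1) (nat_lit 1) (p (nat_lit 0x109) (nat_lit 1) (p (nat_lit 0x101) (nat_lit 0) (p (nat_lit 0x119) (nat_lit 0) (p (nat_lit 0xc9) (nat_lit 0) (p (nat_lit 0x89) (nat_lit 1) (p (nat_lit 0x41) (nat_lit 0) (p (nat_lit 0x10a898a08881a)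 (nat_lit 0) (p (nat_lit 0x8a090988079a) (nat_lit 0) (p (nat_lit 0x108088907871a) (nat_lit 0) (p (nat_lit 0x87880887069a) (nat_lit 0) (p (nat_lit 0x8000080000000088806860a) (nat_lit 0) (p (nat_lit 0x8000080000000068786058a) (nat_lit 0) (p (nat_lit 0x10687058502) (nat_lit 0) (p (nat_lit 0x8606850482) (nat_lit 0) (p (nat_lit 0x160004) (nat_lit 0) (p (nat_lit 0x68612) (nat_lit 0) (p (nat_lit 0x50592) (nat_lit 0) (p (nat_lit 0x40512) (nat_lit 0) (p (nat_lit 0x50312) (nat_lit 0) (p (nat_lit 0x38292) (nat_lit 0) (p (nat_lit 0x28212) (nat_lit 0) (p (nat_lit 0x38112) (nat_lit 0) (p (nat_lit 0x20092) (nat_lit 0) (p (nat_lit 0x10012) (nat_lit 0) pn)))))))))))))))))))))))))))))))) :=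
  Cl.node (nat_lit 0x111) (nat_lit 2) (by decide +kernel) (ClAll.succ (ClAll.succ ClAll.zero s793) s794)

def n206 : Cl (O (nat_lit 6)) (R (nat_lit 143633))
    (p (nat_lit 0x80014) (nat_lit 0) (p (nat_lit 0x100014) (nat_lit 0) (p (nat_lit 0x1fc014) (nat_lit 0) (p (nat_lit 0x1fc00c) (nat_lit 0) (p (nat_lit 0xb0004) (nat_lit 1) (p (nat_lit 0x380c2) (nat_lit 1) (p (nat_lit 0x444aa) (nat_lit 7) (p (nat_lit 0xd1) (nat_lit 1) (p (nat_lit 0x109) (nat_lit 1) (p (nat_lit 0x101) (nat_lit 0) (p (nat_lit 0x119) (nat_lit 0) (p (nat_lit 0xc9) (nat_lit 0) (p (nat_lit 0x89) (nat_lit 1) (p (nat_lit 0x41) (nat_lit 0) (p (nat_lit 0x10a898a08881a) (nat_lit 0) (p (nat_lit 0x8a090988079a) (nat_lit 0) (p (nat_lit 0x108088907871a) (nat_lit 0) (p (nat_lit 0x87880887069a) (nat_lit 0) (p (nat_lit 0x8000080000000088806860a) (nat_lit 0) (p (nat_lit 0x8000080000000068786058a) (nat_lit 0) (p (nat_lit 0x10687058502)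 (nat_lit 0) (p (nat_lit 0x8606850482) (nat_lit 0) (p (nat_lit 0x160004) (nat_lit 0) (p (nat_lit 0x68612) (nat_lit 0) (p (nat_lit 0x50592) (nat_lit 0) (p (nat_lit 0x40512) (nat_lit 0) (p (nat_lit 0x50312) (nat_lit 0) (p (nat_lit 0x38292) (nat_lit 0) (p (nat_lit 0x28212) (nat_lit 0) (p (nat_lit 0x38112) (nat_lit 0) (p (nat_lit 0x20092) (nat_lit 0) (p (nat_lit 0x10012) (nat_lit 0) pn)))))))))))))))))))))))))))))))) :=
  Cl.node (nat_lit 0x10000c) (nat_lit 2) (by decide +kernel) (ClAll.succ (ClAll.succ ClAll.zero s798) s799)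

def n207 : Cl (O (nat_lit 6)) (R (nat_lit 143633))
    (p (nat_lit 0x119) (nat_lit 0) (p (nat_lit 0x41) (nat_lit 0) (p (nat_lit 0x380c2) (nat_lit 0) (p (nat_lit 0x44c2a) (nat_lit 0) (p (nat_lit 0x109) (nat_lit 1) (p (nat_lit 0x200014) (nat_lit 0) (p (nat_lit 0x20000c) (nat_lit 0) (p (nat_lit 0xd1) (nat_lit 0) (p (nat_lit 0xc1) (nat_lit 0) (p (nat_lit 0x101) (nat_lit 1) (p (nat_lit 0x119) (nat_lit 0) (p (nat_lit 0xc9) (nat_lit 0) (p (nat_lit 0x89) (nat_lit 1) (p (nat_lit 0x41) (nat_lit 0) (p (nat_lit 0x10a898a08881a) (nat_lit 0) (p (nat_lit 0x8a090988079a) (nat_lit 0) (p (nat_lit 0x108088907871a) (nat_lit 0) (p (nat_lit 0x87880887069a) (nat_lit 0) (p (nat_lit 0x8000080000000088806860a) (nat_lit 0) (p (nat_lit 0x8000080000000068786058a) (nat_lit 0) (p (nat_lit 0x10687058502) (nat_lit 0) (p (nat_lit 0x8606850482) (nat_lit 0) (p (nat_lit 0x160004) (nat_lit 0) (p (nat_lit 0x68612)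 (nat_lit 0) (p (nat_lit 0x50592) (nat_lit 0) (p (nat_lit 0x40512) (nat_lit 0) (p (nat_lit 0x50312) (nat_lit 0) (p (nat_lit 0x38292) (nat_lit 0) (p (nat_lit 0x28212) (nat_lit 0) (p (nat_lit 0x38112) (nat_lit 0) (p (nat_lit 0x20092) (nat_lit 0) (p (nat_lit 0x10012) (nat_lit 0) pn)))))))))))))))))))))))))))))))) :=
  Cl.node (nat_lit 0x109) (nat_lit 2) (by decide +kernel) (ClAll.succ (ClAll.succ ClAll.zero n170) s832)

def n208 : Cl (O (nat_lit 6)) (R (nat_lit 143633))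
    (p (nat_lit 0xb0004) (nat_lit 1) (p (nat_lit 0x41) (nat_lit 1) (p (nat_lit 0x380c2) (nat_lit 0) (p (nat_lit 0x44c2a) (nat_lit 0) (p (nat_lit 0x109) (nat_lit 1) (p (nat_lit 0x200014) (nat_lit 0) (p (nat_lit 0x20000c) (nat_lit 0) (p (nat_lit 0xd1) (nat_lit 0) (p (nat_lit 0xc1) (nat_lit 0) (p (nat_lit 0x101) (nat_lit 1) (p (nat_lit 0x119) (nat_lit 0) (p (nat_lit 0xc9) (nat_lit 0) (p (nat_lit 0x89) (nat_lit 1) (p (nat_lit 0x41) (nat_lit 0) (p (nat_lit 0x10a898a08881a) (nat_lit 0) (p (nat_lit 0x8a090988079a) (nat_lit 0) (p (nat_lit 0x108088907871a) (nat_lit 0) (p (nat_lit 0x87880887069a) (nat_lit 0) (p (nat_lit 0x8000080000000088806860a) (nat_lit 0) (p (nat_lit 0x8000080000000068786058a) (nat_lit 0) (p (nat_lit 0x10687058502) (nat_lit 0) (p (nat_lit 0x8606850482) (nat_lit 0) (p (nat_lit 0x160004) (nat_lit 0) (p (nat_lit 0x68612) (nat_lit 0) (p (nat_lit 0x50592) (nat_lit 0) (p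 (nat_lit 0x40512) (nat_lit 0) (p (nat_lit 0x50312) (nat_lit 0) (p (nat_lit 0x38292) (nat_lit 0) (p (nat_lit 0x28212) (nat_lit 0) (p (nat_lit 0x38112) (nat_lit 0) (p (nat_lit 0x20092) (nat_lit 0) (p (nat_lit 0x10012) (nat_lit 0) pn)))))))))))))))))))))))))))))))) :=
  Cl.node (nat_lit 0x108004) (nat_lit 2) (by decide +kernel) (ClAll.succ (ClAll.succ ClAll.zero n171) s838)

def n209 : Cl (O (nat_lit 6)) (R (nat_lit 143633))
    (p (nat_lit 0x20000c) (nat_lit 0) (p (nat_lit 0x101) (nat_lit 0) (p (nat_lit 0x111) (nat_lit 0) (p (nat_lit 0x109) (nat_lit 0) (p (nat_lit 0xb0004) (nat_lit 0) (p (nat_lit 0x380c2) (nat_lit 1) (p (nat_lit 0x444aa) (nat_lit 7) (p (nat_lit 0x111) (nat_lit 1) (p (nat_lit 0x101) (nat_lit 0) (p (nat_lit 0xc1) (nat_lit 1) (p (nat_lit 0x119) (nat_lit 1) (p (nat_lit 0xc9) (nat_lit 0) (p (nat_lit 0x89) (nat_lit 1) (p (nat_lit 0x41) (nat_lit 0) (p (nat_lit 0x10a898a08881a)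 (nat_lit 0) (p (nat_lit 0x8a090988079a) (nat_lit 0) (p (nat_lit 0x108088907871a) (nat_lit 0) (p (nat_lit 0x87880887069a) (nat_lit 0) (p (nat_lit 0x8000080000000088806860a) (nat_lit 0) (p (nat_lit 0x8000080000000068786058a) (nat_lit 0) (p (nat_lit 0x10687058502) (nat_lit 0) (p (nat_lit 0x8606850482) (nat_lit 0) (p (nat_lit 0x160004) (nat_lit 0) (p (nat_lit 0x68612) (nat_lit 0) (p (nat_lit 0x50592) (nat_lit 0) (p (nat_lit 0x40512) (nat_lit 0) (p (nat_lit 0x50312) (nat_lit 0) (p (nat_lit 0x38292) (nat_lit 0) (p (nat_lit 0x28212) (nat_lit 0) (p (nat_lit 0x38112) (nat_lit 0) (p (nat_lit 0x20092) (nat_lit 0) (p (nat_lit 0x10012) (nat_lit 0) pn)))))))))))))))))))))))))))))))) :=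
  Cl.node (nat_lit 0x10000c) (nat_lit 2) (by decide +kernel) (ClAll.succ (ClAll.succ ClAll.zero n172) s995)

def n210 : Cl (O (nat_lit 6)) (R (nat_lit 143633))
    (p (nat_lit 0x380c2) (nat_lit 0) (p (nat_lit 0x3c4aa) (nat_lit 7) (p (nat_lit 0xd1) (nat_lit 1) (p (nat_lit 0x200014) (nat_lit 0) (p (nat_lit 0x380c2) (nat_lit 0) (p (nat_lit 0x4c42a) (nat_lit 2) (p (nat_lit 0xc9) (nat_lit 0) (p (nat_lit 0x89) (nat_lit 1) (p (nat_lit 0xc1) (nat_lit 0) (p (nat_lit 0x101) (nat_lit 1) (p (nat_lit 0x119) (nat_lit 0) (p (nat_lit 0xd1) (nat_lit 0) (p (nat_lit 0x81) (nat_lit 0) (p (nat_lit 0x41) (nat_lit 1) (p (nat_lit 0x10a898a08881a) (nat_lit 0) (p (nat_lit 0x8a090988079a) (nat_lit 0) (p (nat_lit 0x108088907871a) (nat_lit 0) (p (nat_lit 0x87880887069a) (nat_lit 0) (p (nat_lit 0x8000080000000088806860a) (nat_lit 0) (p (nat_lit 0x8000080000000068786058a) (nat_lit 0) (p (nat_lit 0x10687058502)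 (nat_lit 0) (p (nat_lit 0x8606850482) (nat_lit 0) (p (nat_lit 0x160004) (nat_lit 0) (p (nat_lit 0x68612) (nat_lit 0) (p (nat_lit 0x50592) (nat_lit 0) (p (nat_lit 0x40512) (nat_lit 0) (p (nat_lit 0x50312) (nat_lit 0) (p (nat_lit 0x38292) (nat_lit 0) (p (nat_lit 0x28212) (nat_lit 0) (p (nat_lit 0x38112) (nat_lit 0) (p (nat_lit 0x20092) (nat_lit 0) (p (nat_lit 0x10012) (nat_lit 0) pn)))))))))))))))))))))))))))))))) :=
  Cl.node (nat_lit 0xb0004) (nat_lit 2) (by decide +kernel) (ClAll.succ (ClAll.succ ClAll.zero s1151) s1152)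

def n211 : Cl (O (nat_lit 6)) (R (nat_lit 143633))
    (p (nat_lit 0x10000c) (nat_lit 0) (p (nat_lit 0x200014) (nat_lit 0) (p (nat_lit 0x20000c) (nat_lit 0) (p (nat_lit 0xb0004) (nat_lit 0) (p (nat_lit 0x380c2) (nat_lit 1) (p (nat_lit 0x3c4aa) (nat_lit 7) (p (nat_lit 0x109) (nat_lit 1) (p (nat_lit 0x89) (nat_lit 1) (p (nat_lit 0x101) (nat_lit 0) (p (nat_lit 0xc1) (nat_lit 1) (p (nat_lit 0x119) (nat_lit 1) (p (nat_lit 0xd1) (nat_lit 0) (p (nat_lit 0x81) (nat_lit 0) (p (nat_lit 0x41) (nat_lit 1) (p (nat_lit 0x10a898a08881a) (nat_lit 0) (p (nat_lit 0x8a090988079a) (nat_lit 0) (p (nat_lit 0x108088907871a) (nat_lit 0) (p (nat_lit 0x87880887069a) (nat_lit 0) (p (nat_lit 0x8000080000000088806860a) (nat_lit 0) (p (nat_lit 0x8000080000000068786058a) (nat_lit 0) (p (nat_lit 0x10687058502) (nat_lit 0) (p (nat_lit 0x8606850482) (nat_lit 0) (p (nat_lit 0x160004) (nat_lit 0) (p (nat_lit 0x68612)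 (nat_lit 0) (p (nat_lit 0x50592) (nat_lit 0) (p (nat_lit 0x40512) (nat_lit 0) (p (nat_lit 0x50312) (nat_lit 0) (p (nat_lit 0x38292) (nat_lit 0) (p (nat_lit 0x28212) (nat_lit 0) (p (nat_lit 0x38112) (nat_lit 0) (p (nat_lit 0x20092) (nat_lit 0) (p (nat_lit 0x10012) (nat_lit 0) pn)))))))))))))))))))))))))))))))) :=
  Cl.node (nat_lit 0x119) (nat_lit 2) (by decide +kernel) (ClAll.succ (ClAll.succ ClAll.zero s1286) n173)

def n212 : Cl (O (nat_lit 6)) (R (nat_lit 143633))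
    (p (nat_lit 0x101) (nat_lit 0) (p (nat_lit 0x10000c) (nat_lit 0) (p (nat_lit 0x200014) (nat_lit 0) (p (nat_lit 0x20000c) (nat_lit 0) (p (nat_lit 0xb0004) (nat_lit 0) (p (nat_lit 0x380c2) (nat_lit 0) (p (nat_lit 0x3c4aa) (nat_lit 7) (p (nat_lit 0x89) (nat_lit 1) (p (nat_lit 0x101) (nat_lit 1) (p (nat_lit 0xc1) (nat_lit 1) (p (nat_lit 0x119) (nat_lit 1) (p (nat_lit 0xd1) (nat_lit 0) (p (nat_lit 0x81) (nat_lit 0) (p (nat_lit 0x41) (nat_lit 1) (p (nat_lit 0x10a898a08881a) (nat_lit 0) (p (nat_lit 0x8a090988079a) (nat_lit 0) (p (nat_lit 0x108088907871a) (nat_lit 0) (p (nat_lit 0x87880887069a) (nat_lit 0) (p (nat_lit 0x8000080000000088806860a) (nat_lit 0) (p (nat_lit 0x8000080000000068786058a) (nat_lit 0) (p (nat_lit 0x10687058502) (nat_lit 0) (p (nat_lit 0x8606850482) (nat_lit 0) (p (nat_lit 0x160004) (nat_lit 0) (p (nat_lit 0x68612) (nat_lit 0) (p (nat_lit 0x50592) (nat_lit 0)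 (p (nat_lit 0x40512) (nat_lit 0) (p (nat_lit 0x50312) (nat_lit 0) (p (nat_lit 0x38292) (nat_lit 0) (p (nat_lit 0x28212) (nat_lit 0) (p (nat_lit 0x38112) (nat_lit 0) (p (nat_lit 0x20092) (nat_lit 0) (p (nat_lit 0x10012) (nat_lit 0) pn)))))))))))))))))))))))))))))))) :=
  Cl.node (nat_lit 0x4c42a) (nat_lit 12) (by decide +kernel) (ClAll.succ (ClAll.succ (ClAll.succ (ClAll.succ (ClAll.succ (ClAll.succ (ClAll.succ (ClAll.succ (ClAll.succ (ClAll.succ (ClAll.succ (ClAll.succ ClAll.zero s1323) s1324) s1325) s1326) s1327) s1328) s1329) s1330) s1331) s1332) s1333) s1334)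

def n213 : Cl (O (nat_lit 6)) (R (nat_lit 143633))
    (p (nat_lit 0x100014) (nat_lit 0) (p (nat_lit 0x10000c) (nat_lit 0) (p (nat_lit 0x1fc014) (nat_lit 0) (p (nat_lit 0x1fc00c) (nat_lit 0) (p (nat_lit 0xb0004) (nat_lit 1) (p (nat_lit 0x380c2) (nat_lit 0) (p (nat_lit 0x3c4aa) (nat_lit 7) (p (nat_lit 0x89) (nat_lit 1) (p (nat_lit 0x101) (nat_lit 1) (p (nat_lit 0xc1) (nat_lit 1) (p (nat_lit 0x119) (nat_lit 1) (p (nat_lit 0xd1) (nat_lit 0) (p (nat_lit 0x81) (nat_lit 0) (p (nat_lit 0x41) (nat_lit 1) (p (nat_lit 0x10a898a08881a) (nat_lit 0) (p (nat_lit 0x8a090988079a) (nat_lit 0) (p (nat_lit 0x108088907871a) (nat_lit 0) (p (nat_lit 0x87880887069a) (nat_lit 0) (p (nat_lit 0x8000080000000088806860a) (nat_lit 0) (p (nat_lit 0x8000080000000068786058a) (nat_lit 0) (p (nat_lit 0x10687058502) (nat_lit 0) (p (nat_lit 0x8606850482) (nat_lit 0) (p (nat_lit 0x160004) (nat_lit 0) (p (nat_lit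 0x68612) (nat_lit 0) (p (nat_lit 0x50592) (nat_lit 0) (p (nat_lit 0x40512) (nat_lit 0) (p (nat_lit 0x50312) (nat_lit 0) (p (nat_lit 0x38292) (nat_lit 0) (p (nat_lit 0x28212) (nat_lit 0) (p (nat_lit 0x38112) (nat_lit 0) (p (nat_lit 0x20092) (nat_lit 0) (p (nat_lit 0x10012) (nat_lit 0) pn)))))))))))))))))))))))))))))))) :=
  Cl.node (nat_lit 0x108004) (nat_lit 2) (by decide +kernel) (ClAll.succ (ClAll.succ ClAll.zero s1339) s1340)

def n214 : Cl (O (nat_lit 6)) (R (nat_lit 143633))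
    (p (nat_lit 0x10000c) (nat_lit 0) (p (nat_lit 0x200014) (nat_lit 0) (p (nat_lit 0x20000c) (nat_lit 0) (p (nat_lit 0xb0004) (nat_lit 0) (p (nat_lit 0x380c2) (nat_lit 0) (p (nat_lit 0x3c4aa) (nat_lit 7) (p (nat_lit 0xd1) (nat_lit 1) (p (nat_lit 0x111) (nat_lit 1) (p (nat_lit 0x109) (nat_lit 0) (p (nat_lit 0x101) (nat_lit 0) (p (nat_lit 0x119) (nat_lit 0) (p (nat_lit 0xc1) (nat_lit 0) (p (nat_lit 0x81) (nat_lit 1) (p (nat_lit 0x41) (nat_lit 1) (p (nat_lit 0x10a898a08881a) (nat_lit 0) (p (nat_lit 0x8a090988079a) (nat_lit 0) (p (nat_lit 0x108088907871a) (nat_lit 0) (p (nat_lit 0x87880887069a) (nat_lit 0) (p (nat_lit 0x8000080000000088806860a) (nat_lit 0) (p (nat_lit 0x8000080000000068786058a) (nat_lit 0) (p (nat_lit 0x10687058502) (nat_lit 0) (p (nat_lit 0x8606850482) (nat_lit 0) (p (nat_lit 0x160004) (nat_lit 0) (p (nat_lit 0x68612) (nat_lit 0) (p (nat_lit 0x50592) (nat_lit 0)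 (p (nat_lit 0x40512) (nat_lit 0) (p (nat_lit 0x50312) (nat_lit 0) (p (nat_lit 0x38292) (nat_lit 0) (p (nat_lit 0x28212) (nat_lit 0) (p (nat_lit 0x38112) (nat_lit 0) (p (nat_lit 0x20092) (nat_lit 0) (p (nat_lit 0x10012) (nat_lit 0) pn)))))))))))))))))))))))))))))))) :=
  Cl.node (nat_lit 0xc9) (nat_lit 2) (by decide +kernel) (ClAll.succ (ClAll.succ ClAll.zero n174) s1494)

def n215 : Cl (O (nat_lit 6)) (R (nat_lit 143633))
    (p (nat_lit 0x10000c) (nat_lit 0) (p (nat_lit 0x1fc014) (nat_lit 0) (p (nat_lit 0x1fc00c) (nat_lit 0) (p (nat_lit 0xb0004) (nat_lit 1) (p (nat_lit 0x380c2) (nat_lit 0) (p (nat_lit 0x3c4aa) (nat_lit 7) (p (nat_lit 0xd1) (nat_lit 1) (p (nat_lit 0x111) (nat_lit 1) (p (nat_lit 0x109) (nat_lit 0) (p (nat_lit 0x101) (nat_lit 0) (p (nat_lit 0x119) (nat_lit 0) (p (nat_lit 0xc1) (nat_lit 0) (p (nat_lit 0x81) (nat_lit 1) (p (nat_lit 0x41) (nat_lit 1) (p (nat_lit 0x10a898a08881a)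 (nat_lit 0) (p (nat_lit 0x8a090988079a) (nat_lit 0) (p (nat_lit 0x108088907871a) (nat_lit 0) (p (nat_lit 0x87880887069a) (nat_lit 0) (p (nat_lit 0x8000080000000088806860a) (nat_lit 0) (p (nat_lit 0x8000080000000068786058a) (nat_lit 0) (p (nat_lit 0x10687058502) (nat_lit 0) (p (nat_lit 0x8606850482) (nat_lit 0) (p (nat_lit 0x160004) (nat_lit 0) (p (nat_lit 0x68612) (nat_lit 0) (p (nat_lit 0x50592) (nat_lit 0) (p (nat_lit 0x40512) (nat_lit 0) (p (nat_lit 0x50312) (nat_lit 0) (p (nat_lit 0x38292) (nat_lit 0) (p (nat_lit 0x28212) (nat_lit 0) (p (nat_lit 0x38112) (nat_lit 0) (p (nat_lit 0x20092) (nat_lit 0) (p (nat_lit 0x10012) (nat_lit 0) pn)))))))))))))))))))))))))))))))) :=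
  Cl.node (nat_lit 0x100014) (nat_lit 2) (by decide +kernel) (ClAll.succ (ClAll.succ ClAll.zero n175) s1532)

def n216 : Cl (O (nat_lit 6)) (R (nat_lit 143633))
    (p (nat_lit 0x100014) (nat_lit 0) (p (nat_lit 0x200014) (nat_lit 0) (p (nat_lit 0x20000c) (nat_lit 0) (p (nat_lit 0xb0004) (nat_lit 0) (p (nat_lit 0x380c2) (nat_lit 1) (p (nat_lit 0x3c4aa) (nat_lit 7) (p (nat_lit 0xd1) (nat_lit 1) (p (nat_lit 0x111) (nat_lit 1) (p (nat_lit 0x109) (nat_lit 0) (p (nat_lit 0x101) (nat_lit 0) (p (nat_lit 0x119) (nat_lit 0) (p (nat_lit 0xc1) (nat_lit 0) (p (nat_lit 0x81) (nat_lit 1) (p (nat_lit 0x41) (nat_lit 1) (p (nat_lit 0x10a898a08881a) (nat_lit 0) (p (nat_lit 0x8a090988079a) (nat_lit 0) (p (nat_lit 0x108088907871a) (nat_lit 0) (p (nat_lit 0x87880887069a) (nat_lit 0) (p (nat_lit 0x8000080000000088806860a) (nat_lit 0) (p (nat_lit 0x8000080000000068786058a) (nat_lit 0) (p (nat_lit 0x10687058502)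 (nat_lit 0) (p (nat_lit 0x8606850482) (nat_lit 0) (p (nat_lit 0x160004) (nat_lit 0) (p (nat_lit 0x68612) (nat_lit 0) (p (nat_lit 0x50592) (nat_lit 0) (p (nat_lit 0x40512) (nat_lit 0) (p (nat_lit 0x50312) (nat_lit 0) (p (nat_lit 0x38292) (nat_lit 0) (p (nat_lit 0x28212) (nat_lit 0) (p (nat_lit 0x38112) (nat_lit 0) (p (nat_lit 0x20092) (nat_lit 0) (p (nat_lit 0x10012) (nat_lit 0) pn)))))))))))))))))))))))))))))))) :=
  Cl.node (nat_lit 0xc9) (nat_lit 2) (by decide +kernel) (ClAll.succ (ClAll.succ ClAll.zero n176) s1548)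

def n217 : Cl (O (nat_lit 6)) (R (nat_lit 143633))
    (p (nat_lit 0x10000c) (nat_lit 0) (p (nat_lit 0x1fc014) (nat_lit 0) (p (nat_lit 0x1fc00c) (nat_lit 0) (p (nat_lit 0xb0004) (nat_lit 1) (p (nat_lit 0x380c2) (nat_lit 1) (p (nat_lit 0x3c4aa) (nat_lit 7) (p (nat_lit 0xd1) (nat_lit 1) (p (nat_lit 0x111) (nat_lit 1) (p (nat_lit 0x109) (nat_lit 0) (p (nat_lit 0x101) (nat_lit 0) (p (nat_lit 0x119) (nat_lit 0) (p (nat_lit 0xc1) (nat_lit 0) (p (nat_lit 0x81) (nat_lit 1) (p (nat_lit 0x41) (nat_lit 1) (p (nat_lit 0x10a898a08881a) (nat_lit 0) (p (nat_lit 0x8a090988079a) (nat_lit 0) (p (nat_lit 0x108088907871a) (nat_lit 0) (p (nat_lit 0x87880887069a) (nat_lit 0) (p (nat_lit 0x8000080000000088806860a) (nat_lit 0) (p (nat_lit 0x8000080000000068786058a) (nat_lit 0) (p (nat_lit 0x10687058502) (nat_lit 0) (p (nat_lit 0x8606850482) (nat_lit 0) (p (nat_lit 0x160004) (nat_lit 0) (p (nat_lit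 0x68612) (nat_lit 0) (p (nat_lit 0x50592) (nat_lit 0) (p (nat_lit 0x40512) (nat_lit 0) (p (nat_lit 0x50312) (nat_lit 0) (p (nat_lit 0x38292) (nat_lit 0) (p (nat_lit 0x28212) (nat_lit 0) (p (nat_lit 0x38112) (nat_lit 0) (p (nat_lit 0x20092) (nat_lit 0) (p (nat_lit 0x10012) (nat_lit 0) pn)))))))))))))))))))))))))))))))) :=
  Cl.node (nat_lit 0x100014) (nat_lit 2) (by decide +kernel) (ClAll.succ (ClAll.succ ClAll.zero n177) s1558)

def n218 : Cl (O (nat_lit 6)) (R (nat_lit 143633))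
    (p (nat_lit 0x119) (nat_lit 1) (p (nat_lit 0x200014) (nat_lit 0) (p (nat_lit 0x20000c) (nat_lit 0) (p (nat_lit 0xb0004) (nat_lit 0) (p (nat_lit 0x380c2) (nat_lit 0) (p (nat_lit 0x3c4aa) (nat_lit 7) (p (nat_lit 0xd1) (nat_lit 1) (p (nat_lit 0xc9) (nat_lit 0) (p (nat_lit 0x109) (nat_lit 1) (p (nat_lit 0x101) (nat_lit 0) (p (nat_lit 0x119) (nat_lit 0) (p (nat_lit 0xc1) (nat_lit 0) (p (nat_lit 0x81) (nat_lit 1) (p (nat_lit 0x41) (nat_lit 1) (p (nat_lit 0x10a898a08881a) (nat_lit 0) (p (nat_lit 0x8a090988079a) (nat_lit 0) (p (nat_lit 0x108088907871a) (nat_lit 0) (p (nat_lit 0x87880887069a) (nat_lit 0) (p (nat_lit 0x8000080000000088806860a) (nat_lit 0) (p (nat_lit 0x8000080000000068786058a) (nat_lit 0) (p (nat_lit 0x10687058502) (nat_lit 0) (p (nat_lit 0x8606850482) (nat_lit 0) (p (nat_lit 0x160004) (nat_lit 0) (p (nat_lit 0x68612) (nat_lit 0) (p (nat_lit 0x50592) (nat_lit 0) (p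 (nat_lit 0x40512) (nat_lit 0) (p (nat_lit 0x50312) (nat_lit 0) (p (nat_lit 0x38292) (nat_lit 0) (p (nat_lit 0x28212) (nat_lit 0) (p (nat_lit 0x38112) (nat_lit 0) (p (nat_lit 0x20092) (nat_lit 0) (p (nat_lit 0x10012) (nat_lit 0) pn)))))))))))))))))))))))))))))))) :=
  Cl.node (nat_lit 0x3cc2a) (nat_lit 12) (by decide +kernel) (ClAll.succ (ClAll.succ (ClAll.succ (ClAll.succ (ClAll.succ (ClAll.succ (ClAll.succ (ClAll.succ (ClAll.succ (ClAll.succ (ClAll.succ (ClAll.succ ClAll.zero s1575) s1576) s1577) s1578) s1579) s1580) s1581) s1582) s1583) s1584) s1585) s1586)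

def n219 : Cl (O (nat_lit 6)) (R (nat_lit 143633))
    (p (nat_lit 0x119) (nat_lit 1) (p (nat_lit 0x200014) (nat_lit 0) (p (nat_lit 0x20000c) (nat_lit 0) (p (nat_lit 0xb0004) (nat_lit 0) (p (nat_lit 0x380c2) (nat_lit 1) (p (nat_lit 0x3c4aa) (nat_lit 7) (p (nat_lit 0xd1) (nat_lit 1) (p (nat_lit 0xc9) (nat_lit 0) (p (nat_lit 0x109) (nat_lit 1) (p (nat_lit 0x101) (nat_lit 0) (p (nat_lit 0x119) (nat_lit 0) (p (nat_lit 0xc1) (nat_lit 0) (p (nat_lit 0x81) (nat_lit 1) (p (nat_lit 0x41) (nat_lit 1) (p (nat_lit 0x10a898a08881a) (nat_lit 0) (p (nat_lit 0x8a090988079a) (nat_lit 0) (p (nat_lit 0x108088907871a) (nat_lit 0) (p (nat_lit 0x87880887069a) (nat_lit 0) (p (nat_lit 0x8000080000000088806860a) (nat_lit 0) (p (nat_lit 0x8000080000000068786058a) (nat_lit 0) (p (nat_lit 0x10687058502) (nat_lit 0) (p (nat_lit 0x8606850482) (nat_lit 0) (p (nat_lit 0x160004) (nat_lit 0) (p (nat_lit 0x68612)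 (nat_lit 0) (p (nat_lit 0x50592) (nat_lit 0) (p (nat_lit 0x40512) (nat_lit 0) (p (nat_lit 0x50312) (nat_lit 0) (p (nat_lit 0x38292) (nat_lit 0) (p (nat_lit 0x28212) (nat_lit 0) (p (nat_lit 0x38112) (nat_lit 0) (p (nat_lit 0x20092) (nat_lit 0) (p (nat_lit 0x10012) (nat_lit 0) pn)))))))))))))))))))))))))))))))) :=
  Cl.node (nat_lit 0x3cc2a) (nat_lit 12) (by decide +kernel) (ClAll.succ (ClAll.succ (ClAll.succ (ClAll.succ (ClAll.succ (ClAll.succ (ClAll.succ (ClAll.succ (ClAll.succ (ClAll.succ (ClAll.succ (ClAll.succ ClAll.zero s1591) s1592) s1593) s1594) s1595) s1596) s1597) s1598) s1599) s1600) s1601) s1602)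

def n220 : Cl (O (nat_lit 6)) (R (nat_lit 143633))
    (p (nat_lit 0xd1) (nat_lit 0) (p (nat_lit 0xc1) (nat_lit 0) (p (nat_lit 0x200014) (nat_lit 0) (p (nat_lit 0x20000c) (nat_lit 0) (p (nat_lit 0xb0004) (nat_lit 0) (p (nat_lit 0x380c2) (nat_lit 0) (p (nat_lit 0x3c4aa) (nat_lit 7) (p (nat_lit 0xd1) (nat_lit 1) (p (nat_lit 0xc9) (nat_lit 0) (p (nat_lit 0x101) (nat_lit 1) (p (nat_lit 0x119) (nat_lit 0) (p (nat_lit 0xc1) (nat_lit 0) (p (nat_lit 0x81) (nat_lit 1) (p (nat_lit 0x41) (nat_lit 1) (p (nat_lit 0x10a898a08881a) (nat_lit 0) (p (nat_lit 0x8a090988079a) (nat_lit 0) (p (nat_lit 0x108088907871a) (nat_lit 0) (p (nat_lit 0x87880887069a) (nat_lit 0) (p (nat_lit 0x8000080000000088806860a) (nat_lit 0) (p (nat_lit 0x8000080000000068786058a) (nat_lit 0) (p (nat_lit 0x10687058502) (nat_lit 0) (p (nat_lit 0x8606850482) (nat_lit 0) (p (nat_lit 0x160004) (nat_lit 0) (p (nat_lit 0x68612)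 (nat_lit 0) (p (nat_lit 0x50592) (nat_lit 0) (p (nat_lit 0x40512) (nat_lit 0) (p (nat_lit 0x50312) (nat_lit 0) (p (nat_lit 0x38292) (nat_lit 0) (p (nat_lit 0x28212) (nat_lit 0) (p (nat_lit 0x38112) (nat_lit 0) (p (nat_lit 0x20092) (nat_lit 0) (p (nat_lit 0x10012) (nat_lit 0) pn)))))))))))))))))))))))))))))))) :=
  Cl.node (nat_lit 0x4c42a) (nat_lit 12) (by decide +kernel) (ClAll.succ (ClAll.succ (ClAll.succ (ClAll.succ (ClAll.succ (ClAll.succ (ClAll.succ (ClAll.succ (ClAll.succ (ClAll.succ (ClAll.succ (ClAll.succ ClAll.zero s1636) s1637) n178) s1640) s1641) s1642) s1643) s1644) s1645) s1646) s1647) s1648)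

def n221 : Cl (O (nat_lit 6)) (R (nat_lit 143633))
    (p (nat_lit 0x100014) (nat_lit 0) (p (nat_lit 0x10000c) (nat_lit 0) (p (nat_lit 0x1fc014) (nat_lit 0) (p (nat_lit 0x1fc00c) (nat_lit 0) (p (nat_lit 0xb0004) (nat_lit 1) (p (nat_lit 0x380c2) (nat_lit 0) (p (nat_lit 0x3c4aa) (nat_lit 7) (p (nat_lit 0xd1) (nat_lit 1) (p (nat_lit 0xc9) (nat_lit 0) (p (nat_lit 0x101) (nat_lit 1) (p (nat_lit 0x119) (nat_lit 0) (p (nat_lit 0xc1) (nat_lit 0) (p (nat_lit 0x81) (nat_lit 1) (p (nat_lit 0x41) (nat_lit 1) (p (nat_lit 0x10a898a08881a) (nat_lit 0) (p (nat_lit 0x8a090988079a) (nat_lit 0) (p (nat_lit 0x108088907871a) (nat_lit 0) (p (nat_lit 0x87880887069a) (nat_lit 0) (p (nat_lit 0x8000080000000088806860a) (nat_lit 0) (p (nat_lit 0x8000080000000068786058a) (nat_lit 0) (p (nat_lit 0x10687058502) (nat_lit 0) (p (nat_lit 0x8606850482) (nat_lit 0) (p (nat_lit 0x160004) (nat_lit 0) (p (nat_lit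 0x68612) (nat_lit 0) (p (nat_lit 0x50592) (nat_lit 0) (p (nat_lit 0x40512) (nat_lit 0) (p (nat_lit 0x50312) (nat_lit 0) (p (nat_lit 0x38292) (nat_lit 0) (p (nat_lit 0x28212) (nat_lit 0) (p (nat_lit 0x38112) (nat_lit 0) (p (nat_lit 0x20092) (nat_lit 0) (p (nat_lit 0x10012) (nat_lit 0) pn)))))))))))))))))))))))))))))))) :=
  Cl.node (nat_lit 0x80014) (nat_lit 2) (by decide +kernel) (ClAll.succ (ClAll.succ ClAll.zero n179) s1658)

def n222 : Cl (O (nat_lit 6)) (R (nat_lit 143633))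
    (p (nat_lit 0x10000c) (nat_lit 0) (p (nat_lit 0x100014) (nat_lit 0) (p (nat_lit 0xb0004) (nat_lit 0) (p (nat_lit 0x200014) (nat_lit 0) (p (nat_lit 0x20000c) (nat_lit 0) (p (nat_lit 0x380c2) (nat_lit 1) (p (nat_lit 0x3c4aa) (nat_lit 7) (p (nat_lit 0xd1) (nat_lit 1) (p (nat_lit 0xc9) (nat_lit 0) (p (nat_lit 0x101) (nat_lit 1) (p (nat_lit 0x119) (nat_lit 0) (p (nat_lit 0xc1) (nat_lit 0) (p (nat_lit 0x81) (nat_lit 1) (p (nat_lit 0x41) (nat_lit 1) (p (nat_lit 0x10a898a08881a) (nat_lit 0) (p (nat_lit 0x8a090988079a) (nat_lit 0) (p (nat_lit 0x108088907871a) (nat_lit 0) (p (nat_lit 0x87880887069a) (nat_lit 0) (p (nat_lit 0x8000080000000088806860a) (nat_lit 0) (p (nat_lit 0x8000080000000068786058a) (nat_lit 0) (p (nat_lit 0x10687058502) (nat_lit 0) (p (nat_lit 0x8606850482) (nat_lit 0) (p (nat_lit 0x160004) (nat_lit 0) (p (nat_lit 0x68612) (nat_lit 0) (p (nat_lit 0x50592) (nat_lit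 0) (p (nat_lit 0x40512) (nat_lit 0) (p (nat_lit 0x50312) (nat_lit 0) (p (nat_lit 0x38292) (nat_lit 0) (p (nat_lit 0x28212) (nat_lit 0) (p (nat_lit 0x38112) (nat_lit 0) (p (nat_lit 0x20092) (nat_lit 0) (p (nat_lit 0x10012) (nat_lit 0) pn)))))))))))))))))))))))))))))))) :=
  Cl.node (nat_lit 0x89) (nat_lit 2) (by decide +kernel) (ClAll.succ (ClAll.succ ClAll.zero n180) s1679)

def n223 : Cl (O (nat_lit 6)) (R (nat_lit 143633))
    (p (nat_lit 0x100014) (nat_lit 0) (p (nat_lit 0x10000c) (nat_lit 0) (p (nat_lit 0x1fc014) (nat_lit 0) (p (nat_lit 0x1fc00c) (nat_lit 0) (p (nat_lit 0xb0004) (nat_lit 1) (p (nat_lit 0x380c2) (nat_lit 0) (p (nat_lit 0x3c4aa) (nat_lit 7) (p (nat_lit 0x111) (nat_lit 1) (p (nat_lit 0xd1) (nat_lit 1) (p (nat_lit 0xc9) (nat_lit 0) (p (nat_lit 0x119) (nat_lit 1) (p (nat_lit 0xc1) (nat_lit 0) (p (nat_lit 0x81) (nat_lit 1) (p (nat_lit 0x41) (nat_lit 1) (p (nat_lit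 0x10a898a08881a) (nat_lit 0) (p (nat_lit 0x8a090988079a) (nat_lit 0) (p (nat_lit 0x108088907871a) (nat_lit 0) (p (nat_lit 0x87880887069a) (nat_lit 0) (p (nat_lit 0x8000080000000088806860a) (nat_lit 0) (p (nat_lit 0x8000080000000068786058a) (nat_lit 0) (p (nat_lit 0x10687058502) (nat_lit 0) (p (nat_lit 0x8606850482) (nat_lit 0) (p (nat_lit 0x160004) (nat_lit 0) (p (nat_lit 0x68612) (nat_lit 0) (p (nat_lit 0x50592) (nat_lit 0) (p (nat_lit 0x40512) (nat_lit 0) (p (nat_lit 0x50312) (nat_lit 0) (p (nat_lit 0x38292) (nat_lit 0) (p (nat_lit 0x28212) (nat_lit 0) (p (nat_lit 0x38112) (nat_lit 0) (p (nat_lit 0x20092) (nat_lit 0) (p (nat_lit 0x10012) (nat_lit 0) pn)))))))))))))))))))))))))))))))) :=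
  Cl.node (nat_lit 0x108004) (nat_lit 2) (by decide +kernel) (ClAll.succ (ClAll.succ ClAll.zero n181) s1702)

def n224 : Cl (O (nat_lit 6)) (R (nat_lit 143633))
    (p (nat_lit 0x101) (nat_lit 0) (p (nat_lit 0x10000c) (nat_lit 0) (p (nat_lit 0x200014) (nat_lit 0) (p (nat_lit 0x20000c) (nat_lit 0) (p (nat_lit 0xb0004) (nat_lit 0) (p (nat_lit 0x380c2) (nat_lit 0) (p (nat_lit 0x3c4aa) (nat_lit 7) (p (nat_lit 0x111) (nat_lit 1) (p (nat_lit 0x109) (nat_lit 0) (p (nat_lit 0xc9) (nat_lit 1) (p (nat_lit 0x119) (nat_lit 1) (p (nat_lit 0xc1) (nat_lit 0) (p (nat_lit 0x81) (nat_lit 1) (p (nat_lit 0x41) (nat_lit 1) (p (nat_lit 0x10a898a08881a) (nat_lit 0) (p (nat_lit 0x8a090988079a) (nat_lit 0) (p (nat_lit 0x108088907871a) (nat_lit 0) (p (nat_lit 0x87880887069a) (nat_lit 0) (p (nat_lit 0x8000080000000088806860a) (nat_lit 0) (p (nat_lit 0x8000080000000068786058a) (nat_lit 0) (p (nat_lit 0x10687058502)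 (nat_lit 0) (p (nat_lit 0x8606850482) (nat_lit 0) (p (nat_lit 0x160004) (nat_lit 0) (p (nat_lit 0x68612) (nat_lit 0) (p (nat_lit 0x50592) (nat_lit 0) (p (nat_lit 0x40512) (nat_lit 0) (p (nat_lit 0x50312) (nat_lit 0) (p (nat_lit 0x38292) (nat_lit 0) (p (nat_lit 0x28212) (nat_lit 0) (p (nat_lit 0x38112) (nat_lit 0) (p (nat_lit 0x20092) (nat_lit 0) (p (nat_lit 0x10012) (nat_lit 0) pn)))))))))))))))))))))))))))))))) :=
  Cl.node (nat_lit 0x119) (nat_lit 2) (by decide +kernel) (ClAll.succ (ClAll.succ ClAll.zero n182) s1739)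

def n225 : Cl (O (nat_lit 6)) (R (nat_lit 143633))
    (p (nat_lit 0x101) (nat_lit 0) (p (nat_lit 0x10000c) (nat_lit 0) (p (nat_lit 0x200014) (nat_lit 0) (p (nat_lit 0x20000c) (nat_lit 0) (p (nat_lit 0xb0004) (nat_lit 0) (p (nat_lit 0x380c2) (nat_lit 1) (p (nat_lit 0x3c4aa) (nat_lit 7) (p (nat_lit 0x111) (nat_lit 1) (p (nat_lit 0x109) (nat_lit 0) (p (nat_lit 0xc9) (nat_lit 1) (p (nat_lit 0x119) (nat_lit 1) (p (nat_lit 0xc1) (nat_lit 0) (p (nat_lit 0x81) (nat_lit 1) (p (nat_lit 0x41) (nat_lit 1) (p (nat_lit 0x10a898a08881a) (nat_lit 0) (p (nat_lit 0x8a090988079a) (nat_lit 0) (p (nat_lit 0x108088907871a) (nat_lit 0) (p (nat_lit 0x87880887069a) (nat_lit 0) (p (nat_lit 0x8000080000000088806860a) (nat_lit 0) (p (nat_lit 0x8000080000000068786058a) (nat_lit 0) (p (nat_lit 0x10687058502) (nat_lit 0) (p (nat_lit 0x8606850482) (nat_lit 0) (p (nat_lit 0x160004) (nat_lit 0) (p (nat_lit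 0x68612) (nat_lit 0) (p (nat_lit 0x50592) (nat_lit 0) (p (nat_lit 0x40512) (nat_lit 0) (p (nat_lit 0x50312) (nat_lit 0) (p (nat_lit 0x38292) (nat_lit 0) (p (nat_lit 0x28212) (nat_lit 0) (p (nat_lit 0x38112) (nat_lit 0) (p (nat_lit 0x20092) (nat_lit 0) (p (nat_lit 0x10012) (nat_lit 0) pn)))))))))))))))))))))))))))))))) :=
  Cl.node (nat_lit 0x58004) (nat_lit 2) (by decide +kernel) (ClAll.succ (ClAll.succ ClAll.zero s1745) s1746)

def n226 : Cl (O (nat_lit 6)) (R (nat_lit 143633))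
    (p (nat_lit 0x81) (nat_lit 1) (p (nat_lit 0x10000c) (nat_lit 0) (p (nat_lit 0x20000c) (nat_lit 0) (p (nat_lit 0x380c2) (nat_lit 0) (p (nat_lit 0x444aa) (nat_lit 7) (p (nat_lit 0x81) (nat_lit 1) (p (nat_lit 0xc9) (nat_lit 1) (p (nat_lit 0x109) (nat_lit 1) (p (nat_lit 0x101) (nat_lit 0) (p (nat_lit 0x119) (nat_lit 0) (p (nat_lit 0xd1) (nat_lit 0) (p (nat_lit 0x89) (nat_lit 0) (p (nat_lit 0x41) (nat_lit 0) (p (nat_lit 0x10a898a08881a) (nat_lit 0) (p (nat_lit 0x8a090988079a) (nat_lit 0) (p (nat_lit 0x108088907871a) (nat_lit 0) (p (nat_lit 0x87880887069a) (nat_lit 0) (p (nat_lit 0x8000080000000088806860a) (nat_lit 0) (p (nat_lit 0x8000080000000068786058a) (nat_lit 0) (p (nat_lit 0x10687058502) (nat_lit 0) (p (nat_lit 0x8606850482) (nat_lit 0) (p (nat_lit 0x160004) (nat_lit 0) (p (nat_lit 0x68612) (nat_lit 0) (p (nat_lit 0x50592) (nat_lit 0) (p (nat_lit 0x40512) (nat_lit 0) (p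 (nat_lit 0x50312) (nat_lit 0) (p (nat_lit 0x38292) (nat_lit 0) (p (nat_lit 0x28212) (nat_lit 0) (p (nat_lit 0x38112) (nat_lit 0) (p (nat_lit 0x20092) (nat_lit 0) (p (nat_lit 0x10012) (nat_lit 0) pn))))))))))))))))))))))))))))))) :=
  Cl.node (nat_lit 0xb0004) (nat_lit 2) (by decide +kernel) (ClAll.succ (ClAll.succ ClAll.zero n183) s13)

def n227 : Cl (O (nat_lit 6)) (R (nat_lit 143633))
    (p (nat_lit 0x20000c) (nat_lit 0) (p (nat_lit 0x81) (nat_lit 1) (p (nat_lit 0xb0004) (nat_lit 0) (p (nat_lit 0x380c2) (nat_lit 1) (p (nat_lit 0x444aa) (nat_lit 7) (p (nat_lit 0x81) (nat_lit 1) (p (nat_lit 0xc9) (nat_lit 1) (p (nat_lit 0x109) (nat_lit 1) (p (nat_lit 0x101) (nat_lit 0) (p (nat_lit 0x119) (nat_lit 0) (p (nat_lit 0xd1) (nat_lit 0) (p (nat_lit 0x89) (nat_lit 0) (p (nat_lit 0x41) (nat_lit 0) (p (nat_lit 0x10a898a08881a) (nat_lit 0) (p (nat_lit 0x8a090988079a) (nat_lit 0) (p (nat_lit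 0x108088907871a) (nat_lit 0) (p (nat_lit 0x87880887069a) (nat_lit 0) (p (nat_lit 0x8000080000000088806860a) (nat_lit 0) (p (nat_lit 0x8000080000000068786058a) (nat_lit 0) (p (nat_lit 0x10687058502) (nat_lit 0) (p (nat_lit 0x8606850482) (nat_lit 0) (p (nat_lit 0x160004) (nat_lit 0) (p (nat_lit 0x68612) (nat_lit 0) (p (nat_lit 0x50592) (nat_lit 0) (p (nat_lit 0x40512) (nat_lit 0) (p (nat_lit 0x50312) (nat_lit 0) (p (nat_lit 0x38292) (nat_lit 0) (p (nat_lit 0x28212) (nat_lit 0) (p (nat_lit 0x38112) (nat_lit 0) (p (nat_lit 0x20092) (nat_lit 0) (p (nat_lit 0x10012) (nat_lit 0) pn))))))))))))))))))))))))))))))) :=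
  Cl.node (nat_lit 0xc1) (nat_lit 2) (by decide +kernel) (ClAll.succ (ClAll.succ ClAll.zero n184) s20)

def n228 : Cl (O (nat_lit 6)) (R (nat_lit 143633))
    (p (nat_lit 0x1fc014) (nat_lit 0) (p (nat_lit 0x1fc00c) (nat_lit 0) (p (nat_lit 0xb0004) (nat_lit 1) (p (nat_lit 0x380c2) (nat_lit 1) (p (nat_lit 0x444aa) (nat_lit 7) (p (nat_lit 0x81) (nat_lit 1) (p (nat_lit 0xc9) (nat_lit 1) (p (nat_lit 0x109) (nat_lit 1) (p (nat_lit 0x101) (nat_lit 0) (p (nat_lit 0x119) (nat_lit 0) (p (nat_lit 0xd1) (nat_lit 0) (p (nat_lit 0x89) (nat_lit 0) (p (nat_lit 0x41) (nat_lit 0) (p (nat_lit 0x10a898a08881a) (nat_lit 0) (p (nat_lit 0x8a090988079a) (nat_lit 0) (p (nat_lit 0x108088907871a) (nat_lit 0) (p (nat_lit 0x87880887069a) (nat_lit 0) (p (nat_lit 0x8000080000000088806860a) (nat_lit 0) (p (nat_lit 0x8000080000000068786058a) (nat_lit 0) (p (nat_lit 0x10687058502) (nat_lit 0) (p (nat_lit 0x8606850482)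 (nat_lit 0) (p (nat_lit 0x160004) (nat_lit 0) (p (nat_lit 0x68612) (nat_lit 0) (p (nat_lit 0x50592) (nat_lit 0) (p (nat_lit 0x40512) (nat_lit 0) (p (nat_lit 0x50312) (nat_lit 0) (p (nat_lit 0x38292) (nat_lit 0) (p (nat_lit 0x28212) (nat_lit 0) (p (nat_lit 0x38112) (nat_lit 0) (p (nat_lit 0x20092) (nat_lit 0) (p (nat_lit 0x10012) (nat_lit 0) pn))))))))))))))))))))))))))))))) :=
  Cl.node (nat_lit 0x100014) (nat_lit 2) (by decide +kernel) (ClAll.succ (ClAll.succ ClAll.zero n185) s26)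

def n229 : Cl (O (nat_lit 6)) (R (nat_lit 143633))
    (p (nat_lit 0x444aa) (nat_lit 7) (p (nat_lit 0xc1) (nat_lit 1) (p (nat_lit 0xb0004) (nat_lit 0) (p (nat_lit 0x380c2) (nat_lit 0) (p (nat_lit 0x4c42a) (nat_lit 2) (p (nat_lit 0x111) (nat_lit 0) (p (nat_lit 0xc9) (nat_lit 0) (p (nat_lit 0x81) (nat_lit 0) (p (nat_lit 0x101) (nat_lit 1) (p (nat_lit 0x119) (nat_lit 0) (p (nat_lit 0xd1) (nat_lit 0) (p (nat_lit 0x89) (nat_lit 0) (p (nat_lit 0x41) (nat_lit 0) (p (nat_lit 0x10a898a08881a) (nat_lit 0) (p (nat_lit 0x8a090988079a) (nat_lit 0) (p (nat_lit 0x108088907871a) (nat_lit 0) (p (nat_lit 0x87880887069a) (nat_lit 0) (p (nat_lit 0x8000080000000088806860a) (nat_lit 0) (p (nat_lit 0x8000080000000068786058a) (nat_lit 0) (p (nat_lit 0x10687058502) (nat_lit 0) (p (nat_lit 0x8606850482) (nat_lit 0) (p (nat_lit 0x160004) (nat_lit 0) (p (nat_lit 0x68612) (nat_lit 0) (p (nat_lit 0x50592)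 (nat_lit 0) (p (nat_lit 0x40512) (nat_lit 0) (p (nat_lit 0x50312) (nat_lit 0) (p (nat_lit 0x38292) (nat_lit 0) (p (nat_lit 0x28212) (nat_lit 0) (p (nat_lit 0x38112) (nat_lit 0) (p (nat_lit 0x20092) (nat_lit 0) (p (nat_lit 0x10012) (nat_lit 0) pn))))))))))))))))))))))))))))))) :=
  Cl.node (nat_lit 0x380c2) (nat_lit 2) (by decide +kernel) (ClAll.succ (ClAll.succ ClAll.zero s44) n186)

def n230 : Cl (O (nat_lit 6)) (R (nat_lit 143633))
    (p (nat_lit 0x444aa) (nat_lit 8) (p (nat_lit 0xc1) (nat_lit 1) (p (nat_lit 0xb0004) (nat_lit 0) (p (nat_lit 0x380c2) (nat_lit 0) (p (nat_lit 0x4c42a) (nat_lit 2) (p (nat_lit 0x111) (nat_lit 0) (p (nat_lit 0xc9) (nat_lit 0) (p (nat_lit 0x81) (nat_lit 0) (p (nat_lit 0x101) (nat_lit 1) (p (nat_lit 0x119) (nat_lit 0) (p (nat_lit 0xd1) (nat_lit 0) (p (nat_lit 0x89) (nat_lit 0) (p (nat_lit 0x41) (nat_lit 0) (p (nat_lit 0x10a898a08881a) (nat_lit 0)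 (p (nat_lit 0x8a090988079a) (nat_lit 0) (p (nat_lit 0x108088907871a) (nat_lit 0) (p (nat_lit 0x87880887069a) (nat_lit 0) (p (nat_lit 0x8000080000000088806860a) (nat_lit 0) (p (nat_lit 0x8000080000000068786058a) (nat_lit 0) (p (nat_lit 0x10687058502) (nat_lit 0) (p (nat_lit 0x8606850482) (nat_lit 0) (p (nat_lit 0x160004) (nat_lit 0) (p (nat_lit 0x68612) (nat_lit 0) (p (nat_lit 0x50592) (nat_lit 0) (p (nat_lit 0x40512) (nat_lit 0) (p (nat_lit 0x50312) (nat_lit 0) (p (nat_lit 0x38292) (nat_lit 0) (p (nat_lit 0x28212) (nat_lit 0) (p (nat_lit 0x38112) (nat_lit 0) (p (nat_lit 0x20092) (nat_lit 0) (p (nat_lit 0x10012) (nat_lit 0) pn))))))))))))))))))))))))))))))) :=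
  Cl.node (nat_lit 0x380c2) (nat_lit 2) (by decide +kernel) (ClAll.succ (ClAll.succ ClAll.zero s49) s50)

def n231 : Cl (O (nat_lit 6)) (R (nat_lit 143633))
    (p (nat_lit 0x1fc014) (nat_lit 0) (p (nat_lit 0x1fc00c) (nat_lit 0) (p (nat_lit 0xb0004) (nat_lit 1) (p (nat_lit 0x380c2) (nat_lit 0) (p (nat_lit 0x4c42a) (nat_lit 2) (p (nat_lit 0x111) (nat_lit 0) (p (nat_lit 0xc9) (nat_lit 0) (p (nat_lit 0x81) (nat_lit 0) (p (nat_lit 0x101) (nat_lit 1) (p (nat_lit 0x119) (nat_lit 0) (p (nat_lit 0xd1) (nat_lit 0) (p (nat_lit 0x89) (nat_lit 0) (p (nat_lit 0x41) (nat_lit 0) (p (nat_lit 0x10a898a08881a) (nat_lit 0) (p (nat_lit 0x8a090988079a) (nat_lit 0) (p (nat_lit 0x108088907871a) (nat_lit 0) (p (nat_lit 0x87880887069a) (nat_lit 0) (p (nat_lit 0x8000080000000088806860a) (nat_lit 0) (p (nat_lit 0x8000080000000068786058a) (nat_lit 0) (p (nat_lit 0x10687058502) (nat_lit 0) (p (nat_lit 0x8606850482)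 (nat_lit 0) (p (nat_lit 0x160004) (nat_lit 0) (p (nat_lit 0x68612) (nat_lit 0) (p (nat_lit 0x50592) (nat_lit 0) (p (nat_lit 0x40512) (nat_lit 0) (p (nat_lit 0x50312) (nat_lit 0) (p (nat_lit 0x38292) (nat_lit 0) (p (nat_lit 0x28212) (nat_lit 0) (p (nat_lit 0x38112) (nat_lit 0) (p (nat_lit 0x20092) (nat_lit 0) (p (nat_lit 0x10012) (nat_lit 0) pn))))))))))))))))))))))))))))))) :=
  Cl.node (nat_lit 0x10000c) (nat_lit 2) (by decide +kernel) (ClAll.succ (ClAll.succ ClAll.zero n187) s69)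

def n232 : Cl (O (nat_lit 6)) (R (nat_lit 143633))
    (p (nat_lit 0x1fc014) (nat_lit 0) (p (nat_lit 0x1fc00c) (nat_lit 0) (p (nat_lit 0xb0004) (nat_lit 1) (p (nat_lit 0x380c2) (nat_lit 0) (p (nat_lit 0x444aa) (nat_lit 7) (p (nat_lit 0x111) (nat_lit 0) (p (nat_lit 0xc9) (nat_lit 1) (p (nat_lit 0x81) (nat_lit 0) (p (nat_lit 0x101) (nat_lit 1) (p (nat_lit 0x119) (nat_lit 0) (p (nat_lit 0xd1) (nat_lit 0) (p (nat_lit 0x89) (nat_lit 0) (p (nat_lit 0x41) (nat_lit 0) (p (nat_lit 0x10a898a08881a) (nat_lit 0) (p (nat_lit 0x8a090988079a) (nat_lit 0) (p (nat_lit 0x108088907871a) (nat_lit 0) (p (nat_lit 0x87880887069a) (nat_lit 0) (p (nat_lit 0x8000080000000088806860a) (nat_lit 0) (p (nat_lit 0x8000080000000068786058a) (nat_lit 0) (p (nat_lit 0x10687058502) (nat_lit 0) (p (nat_lit 0x8606850482) (nat_lit 0) (p (nat_lit 0x160004) (nat_lit 0) (p (nat_lit 0x68612) (nat_lit 0) (p (nat_lit 0x50592)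 (nat_lit 0) (p (nat_lit 0x40512) (nat_lit 0) (p (nat_lit 0x50312) (nat_lit 0) (p (nat_lit 0x38292) (nat_lit 0) (p (nat_lit 0x28212) (nat_lit 0) (p (nat_lit 0x38112) (nat_lit 0) (p (nat_lit 0x20092) (nat_lit 0) (p (nat_lit 0x10012) (nat_lit 0) pn))))))))))))))))))))))))))))))) :=
  Cl.node (nat_lit 0x108004) (nat_lit 2) (by decide +kernel) (ClAll.succ (ClAll.succ ClAll.zero s116) s117)

def n233 : Cl (O (nat_lit 6)) (R (nat_lit 143633))
    (p (nat_lit 0x10000c) (nat_lit 0) (p (nat_lit 0x20000c) (nat_lit 0) (p (nat_lit 0xb0004) (nat_lit 0) (p (nat_lit 0x380c2) (nat_lit 1) (p (nat_lit 0x444aa) (nat_lit 7) (p (nat_lit 0x111) (nat_lit 0) (p (nat_lit 0xc9) (nat_lit 1) (p (nat_lit 0x81) (nat_lit 0) (p (nat_lit 0x101) (nat_lit 1) (p (nat_lit 0x119) (nat_lit 0) (p (nat_lit 0xd1) (nat_lit 0) (p (nat_lit 0x89) (nat_lit 0) (p (nat_lit 0x41) (nat_lit 0) (p (nat_lit 0x10a898a08881a) (nat_lit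 0) (p (nat_lit 0x8a090988079a) (nat_lit 0) (p (nat_lit 0x108088907871a) (nat_lit 0) (p (nat_lit 0x87880887069a) (nat_lit 0) (p (nat_lit 0x8000080000000088806860a) (nat_lit 0) (p (nat_lit 0x8000080000000068786058a) (nat_lit 0) (p (nat_lit 0x10687058502) (nat_lit 0) (p (nat_lit 0x8606850482) (nat_lit 0) (p (nat_lit 0x160004) (nat_lit 0) (p (nat_lit 0x68612) (nat_lit 0) (p (nat_lit 0x50592) (nat_lit 0) (p (nat_lit 0x40512) (nat_lit 0) (p (nat_lit 0x50312) (nat_lit 0) (p (nat_lit 0x38292) (nat_lit 0) (p (nat_lit 0x28212) (nat_lit 0) (p (nat_lit 0x38112) (nat_lit 0) (p (nat_lit 0x20092) (nat_lit 0) (p (nat_lit 0x10012) (nat_lit 0) pn))))))))))))))))))))))))))))))) :=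
  Cl.node (nat_lit 0x89) (nat_lit 2) (by decide +kernel) (ClAll.succ (ClAll.succ ClAll.zero n188) n189)

def n234 : Cl (O (nat_lit 6)) (R (nat_lit 143633))
    (p (nat_lit 0x1fc014) (nat_lit 0) (p (nat_lit 0x1fc00c) (nat_lit 0) (p (nat_lit 0xb0004) (nat_lit 1) (p (nat_lit 0x380c2) (nat_lit 1) (p (nat_lit 0x444aa) (nat_lit 7) (p (nat_lit 0x111) (nat_lit 0) (p (nat_lit 0xc9) (nat_lit 1) (p (nat_lit 0x81) (nat_lit 0) (p (nat_lit 0x101) (nat_lit 1) (p (nat_lit 0x119) (nat_lit 0) (p (nat_lit 0xd1) (nat_lit 0) (p (nat_lit 0x89) (nat_lit 0) (p (nat_lit 0x41) (nat_lit 0) (p (nat_lit 0x10a898a08881a) (nat_lit 0) (p (nat_lit 0x8a090988079a) (nat_lit 0) (p (nat_lit 0x108088907871a) (nat_lit 0) (p (nat_lit 0x87880887069a) (nat_lit 0) (p (nat_lit 0x8000080000000088806860a) (nat_lit 0) (p (nat_lit 0x8000080000000068786058a) (nat_lit 0) (p (nat_lit 0x10687058502) (nat_lit 0) (p (nat_lit 0x8606850482)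 (nat_lit 0) (p (nat_lit 0x160004) (nat_lit 0) (p (nat_lit 0x68612) (nat_lit 0) (p (nat_lit 0x50592) (nat_lit 0) (p (nat_lit 0x40512) (nat_lit 0) (p (nat_lit 0x50312) (nat_lit 0) (p (nat_lit 0x38292) (nat_lit 0) (p (nat_lit 0x28212) (nat_lit 0) (p (nat_lit 0x38112) (nat_lit 0) (p (nat_lit 0x20092) (nat_lit 0) (p (nat_lit 0x10012) (nat_lit 0) pn))))))))))))))))))))))))))))))) :=
  Cl.node (nat_lit 0x100014) (nat_lit 2) (by decide +kernel) (ClAll.succ (ClAll.succ ClAll.zero n190) s142)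

def n235 : Cl (O (nat_lit 6)) (R (nat_lit 143633))
    (p (nat_lit 0x100014) (nat_lit 0) (p (nat_lit 0x20000c) (nat_lit 0) (p (nat_lit 0x200014) (nat_lit 0) (p (nat_lit 0x380c2) (nat_lit 0) (p (nat_lit 0x444aa) (nat_lit 8) (p (nat_lit 0x111) (nat_lit 0) (p (nat_lit 0xc9) (nat_lit 1) (p (nat_lit 0x81) (nat_lit 0) (p (nat_lit 0x101) (nat_lit 1) (p (nat_lit 0x119) (nat_lit 0) (p (nat_lit 0xd1) (nat_lit 0) (p (nat_lit 0x89) (nat_lit 0) (p (nat_lit 0x41) (nat_lit 0) (p (nat_lit 0x10a898a08881a) (nat_lit 0) (p (nat_lit 0x8a090988079a) (nat_lit 0) (p (nat_lit 0x108088907871a) (nat_lit 0) (p (nat_lit 0x87880887069a) (nat_lit 0) (p (nat_lit 0x8000080000000088806860a) (nat_lit 0) (p (nat_lit 0x8000080000000068786058a) (nat_lit 0) (p (nat_lit 0x10687058502) (nat_lit 0) (p (nat_lit 0x8606850482) (nat_lit 0) (p (nat_lit 0x160004) (nat_lit 0) (p (nat_lit 0x68612) (nat_lit 0) (p (nat_lit 0x50592)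 (nat_lit 0) (p (nat_lit 0x40512) (nat_lit 0) (p (nat_lit 0x50312) (nat_lit 0) (p (nat_lit 0x38292) (nat_lit 0) (p (nat_lit 0x28212) (nat_lit 0) (p (nat_lit 0x38112) (nat_lit 0) (p (nat_lit 0x20092) (nat_lit 0) (p (nat_lit 0x10012) (nat_lit 0) pn))))))))))))))))))))))))))))))) :=
  Cl.node (nat_lit 0x10000c) (nat_lit 2) (by decide +kernel) (ClAll.succ (ClAll.succ ClAll.zero n191) s147)

def n236 : Cl (O (nat_lit 6)) (R (nat_lit 143633))
    (p (nat_lit 0x10000c) (nat_lit 0) (p (nat_lit 0x20000c) (nat_lit 0) (p (nat_lit 0x200014) (nat_lit 0) (p (nat_lit 0x380c2) (nat_lit 1) (p (nat_lit 0x444aa) (nat_lit 8) (p (nat_lit 0x111) (nat_lit 0) (p (nat_lit 0xc9) (nat_lit 1) (p (nat_lit 0x81) (nat_lit 0) (p (nat_lit 0x101) (nat_lit 1) (p (nat_lit 0x119) (nat_lit 0) (p (nat_lit 0xd1) (nat_lit 0) (p (nat_lit 0x89) (nat_lit 0) (p (nat_lit 0x41) (nat_lit 0) (p (nat_lit 0x10a898a08881a) (nat_lit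 0) (p (nat_lit 0x8a090988079a) (nat_lit 0) (p (nat_lit 0x108088907871a) (nat_lit 0) (p (nat_lit 0x87880887069a) (nat_lit 0) (p (nat_lit 0x8000080000000088806860a) (nat_lit 0) (p (nat_lit 0x8000080000000068786058a) (nat_lit 0) (p (nat_lit 0x10687058502) (nat_lit 0) (p (nat_lit 0x8606850482) (nat_lit 0) (p (nat_lit 0x160004) (nat_lit 0) (p (nat_lit 0x68612) (nat_lit 0) (p (nat_lit 0x50592) (nat_lit 0) (p (nat_lit 0x40512) (nat_lit 0) (p (nat_lit 0x50312) (nat_lit 0) (p (nat_lit 0x38292) (nat_lit 0) (p (nat_lit 0x28212) (nat_lit 0) (p (nat_lit 0x38112) (nat_lit 0) (p (nat_lit 0x20092) (nat_lit 0) (p (nat_lit 0x10012) (nat_lit 0) pn))))))))))))))))))))))))))))))) :=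
  Cl.node (nat_lit 0x100014) (nat_lit 2) (by decide +kernel) (ClAll.succ (ClAll.succ ClAll.zero n192) s153)

def n237 : Cl (O (nat_lit 6)) (R (nat_lit 143633))
    (p (nat_lit 0x44c2a) (nat_lit 0) (p (nat_lit 0x111) (nat_lit 1) (p (nat_lit 0xb0004) (nat_lit 0) (p (nat_lit 0x380c2) (nat_lit 0) (p (nat_lit 0x4c42a) (nat_lit 2) (p (nat_lit 0xc9) (nat_lit 0) (p (nat_lit 0xc1) (nat_lit 0) (p (nat_lit 0x81) (nat_lit 1) (p (nat_lit 0x101) (nat_lit 1) (p (nat_lit 0x119) (nat_lit 0) (p (nat_lit 0xd1) (nat_lit 0) (p (nat_lit 0x89) (nat_lit 0) (p (nat_lit 0x41) (nat_lit 0) (p (nat_lit 0x10a898a08881a) (nat_lit 0) (p (nat_lit 0x8a090988079a) (nat_lit 0) (p (nat_lit 0x108088907871a) (nat_lit 0) (p (nat_lit 0x87880887069a) (nat_lit 0) (p (nat_lit 0x8000080000000088806860a) (nat_lit 0) (p (nat_lit 0x8000080000000068786058a) (nat_lit 0) (p (nat_lit 0x10687058502) (nat_lit 0) (p (nat_lit 0x8606850482)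 (nat_lit 0) (p (nat_lit 0x160004) (nat_lit 0) (p (nat_lit 0x68612) (nat_lit 0) (p (nat_lit 0x50592) (nat_lit 0) (p (nat_lit 0x40512) (nat_lit 0) (p (nat_lit 0x50312) (nat_lit 0) (p (nat_lit 0x38292) (nat_lit 0) (p (nat_lit 0x28212) (nat_lit 0) (p (nat_lit 0x38112) (nat_lit 0) (p (nat_lit 0x20092) (nat_lit 0) (p (nat_lit 0x10012) (nat_lit 0) pn))))))))))))))))))))))))))))))) :=
  Cl.node (nat_lit 0x380c2) (nat_lit 2) (by decide +kernel) (ClAll.succ (ClAll.succ ClAll.zero s164) s165)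

def n238 : Cl (O (nat_lit 6)) (R (nat_lit 143633))
    (p (nat_lit 0x1fc014) (nat_lit 0) (p (nat_lit 0x1fc00c) (nat_lit 0) (p (nat_lit 0xb0004) (nat_lit 1) (p (nat_lit 0x380c2) (nat_lit 0) (p (nat_lit 0x4c42a) (nat_lit 2) (p (nat_lit 0xc9) (nat_lit 0) (p (nat_lit 0xc1) (nat_lit 0) (p (nat_lit 0x81) (nat_lit 1) (p (nat_lit 0x101) (nat_lit 1) (p (nat_lit 0x119) (nat_lit 0) (p (nat_lit 0xd1) (nat_lit 0) (p (nat_lit 0x89) (nat_lit 0) (p (nat_lit 0x41) (nat_lit 0) (p (nat_lit 0x10a898a08881a) (nat_lit 0) (p (nat_lit 0x8a090988079a) (nat_lit 0) (p (nat_lit 0x108088907871a) (nat_lit 0) (p (nat_lit 0x87880887069a) (nat_lit 0) (p (nat_lit 0x8000080000000088806860a) (nat_lit 0) (p (nat_lit 0x8000080000000068786058a) (nat_lit 0) (p (nat_lit 0x10687058502) (nat_lit 0) (p (nat_lit 0x8606850482) (nat_lit 0) (p (nat_lit 0x160004) (nat_lit 0) (p (nat_lit 0x68612) (nat_lit 0) (p (nat_lit 0x50592)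 (nat_lit 0) (p (nat_lit 0x40512) (nat_lit 0) (p (nat_lit 0x50312) (nat_lit 0) (p (nat_lit 0x38292) (nat_lit 0) (p (nat_lit 0x28212) (nat_lit 0) (p (nat_lit 0x38112) (nat_lit 0) (p (nat_lit 0x20092) (nat_lit 0) (p (nat_lit 0x10012) (nat_lit 0) pn))))))))))))))))))))))))))))))) :=
  Cl.node (nat_lit 0x10000c) (nat_lit 2) (by decide +kernel) (ClAll.succ (ClAll.succ ClAll.zero n193) s193)

def n239 : Cl (O (nat_lit 6)) (R (nat_lit 143633))
    (p (nat_lit 0x119) (nat_lit 1) (p (nat_lit 0xc9) (nat_lit 0) (p (nat_lit 0xb0004) (nat_lit 0) (p (nat_lit 0x380c2) (nat_lit 0) (p (nat_lit 0x444aa) (nat_lit 7) (p (nat_lit 0xc9) (nat_lit 1) (p (nat_lit 0xc1) (nat_lit 0) (p (nat_lit 0x81) (nat_lit 1) (p (nat_lit 0x101) (nat_lit 1) (p (nat_lit 0x119) (nat_lit 0) (p (nat_lit 0xd1) (nat_lit 0) (p (nat_lit 0x89) (nat_lit 0) (p (nat_lit 0x41) (nat_lit 0) (p (nat_lit 0x10a898a08881a) (nat_lit 0) (p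 (nat_lit 0x8a090988079a) (nat_lit 0) (p (nat_lit 0x108088907871a) (nat_lit 0) (p (nat_lit 0x87880887069a) (nat_lit 0) (p (nat_lit 0x8000080000000088806860a) (nat_lit 0) (p (nat_lit 0x8000080000000068786058a) (nat_lit 0) (p (nat_lit 0x10687058502) (nat_lit 0) (p (nat_lit 0x8606850482) (nat_lit 0) (p (nat_lit 0x160004) (nat_lit 0) (p (nat_lit 0x68612) (nat_lit 0) (p (nat_lit 0x50592) (nat_lit 0) (p (nat_lit 0x40512) (nat_lit 0) (p (nat_lit 0x50312) (nat_lit 0) (p (nat_lit 0x38292) (nat_lit 0) (p (nat_lit 0x28212) (nat_lit 0) (p (nat_lit 0x38112) (nat_lit 0) (p (nat_lit 0x20092) (nat_lit 0) (p (nat_lit 0x10012) (nat_lit 0) pn))))))))))))))))))))))))))))))) :=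
  Cl.node (nat_lit 0x44c2a) (nat_lit 12) (by decide +kernel) (ClAll.succ (ClAll.succ (ClAll.succ (ClAll.succ (ClAll.succ (ClAll.succ (ClAll.succ (ClAll.succ (ClAll.succ (ClAll.succ (ClAll.succ (ClAll.succ ClAll.zero s217) s218) s219) s220) s221) s222) s223) s224) s225) s226) s227) s228)

def n240 : Cl (O (nat_lit 6)) (R (nat_lit 143633))
    (p (nat_lit 0x119) (nat_lit 1) (p (nat_lit 0xc9) (nat_lit 0) (p (nat_lit 0xb0004) (nat_lit 0) (p (nat_lit 0x380c2) (nat_lit 1) (p (nat_lit 0x444aa) (nat_lit 7) (p (nat_lit 0xc9) (nat_lit 1) (p (nat_lit 0xc1) (nat_lit 0) (p (nat_lit 0x81) (nat_lit 1) (p (nat_lit 0x101) (nat_lit 1) (p (nat_lit 0x119) (nat_lit 0) (p (nat_lit 0xd1) (nat_lit 0) (p (nat_lit 0x89) (nat_lit 0) (p (nat_lit 0x41) (nat_lit 0) (p (nat_lit 0x10a898a08881a) (nat_lit 0) (p (nat_lit 0x8a090988079a) (nat_lit 0) (p (nat_lit 0x108088907871a) (nat_lit 0) (p (nat_lit 0x87880887069a)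 (nat_lit 0) (p (nat_lit 0x8000080000000088806860a) (nat_lit 0) (p (nat_lit 0x8000080000000068786058a) (nat_lit 0) (p (nat_lit 0x10687058502) (nat_lit 0) (p (nat_lit 0x8606850482) (nat_lit 0) (p (nat_lit 0x160004) (nat_lit 0) (p (nat_lit 0x68612) (nat_lit 0) (p (nat_lit 0x50592) (nat_lit 0) (p (nat_lit 0x40512) (nat_lit 0) (p (nat_lit 0x50312) (nat_lit 0) (p (nat_lit 0x38292) (nat_lit 0) (p (nat_lit 0x28212) (nat_lit 0) (p (nat_lit 0x38112) (nat_lit 0) (p (nat_lit 0x20092) (nat_lit 0) (p (nat_lit 0x10012) (nat_lit 0) pn))))))))))))))))))))))))))))))) :=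
  Cl.node (nat_lit 0xc1) (nat_lit 2) (by decide +kernel) (ClAll.succ (ClAll.succ ClAll.zero s232) s233)

def n241 : Cl (O (nat_lit 6)) (R (nat_lit 143633))
    (p (nat_lit 0x444aa) (nat_lit 7) (p (nat_lit 0x81) (nat_lit 1) (p (nat_lit 0x101) (nat_lit 1) (p (nat_lit 0xb0004) (nat_lit 0) (p (nat_lit 0x380c2) (nat_lit 1) (p (nat_lit 0x3cc2a) (nat_lit 11) (p (nat_lit 0x109) (nat_lit 1) (p (nat_lit 0xc9) (nat_lit 1) (p (nat_lit 0xc1) (nat_lit 0) (p (nat_lit 0x119) (nat_lit 1) (p (nat_lit 0xd1) (nat_lit 0) (p (nat_lit 0x89) (nat_lit 0) (p (nat_lit 0x41) (nat_lit 0) (p (nat_lit 0x10a898a08881a) (nat_lit 0) (p (nat_lit 0x8a090988079a) (nat_lit 0) (p (nat_lit 0x108088907871a) (nat_lit 0) (p (nat_lit 0x87880887069a) (nat_lit 0) (p (nat_lit 0x8000080000000088806860a) (nat_lit 0) (p (nat_lit 0x8000080000000068786058a) (nat_lit 0) (p (nat_lit 0x10687058502) (nat_lit 0) (p (nat_lit 0x8606850482)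 (nat_lit 0) (p (nat_lit 0x160004) (nat_lit 0) (p (nat_lit 0x68612) (nat_lit 0) (p (nat_lit 0x50592) (nat_lit 0) (p (nat_lit 0x40512) (nat_lit 0) (p (nat_lit 0x50312) (nat_lit 0) (p (nat_lit 0x38292) (nat_lit 0) (p (nat_lit 0x28212) (nat_lit 0) (p (nat_lit 0x38112) (nat_lit 0) (p (nat_lit 0x20092) (nat_lit 0) (p (nat_lit 0x10012) (nat_lit 0) pn))))))))))))))))))))))))))))))) :=
  Cl.node (nat_lit 0x380c2) (nat_lit 2) (by decide +kernel) (ClAll.succ (ClAll.succ ClAll.zero s285) s286)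

def n242 : Cl (O (nat_lit 6)) (R (nat_lit 143633))
    (p (nat_lit 0x101) (nat_lit 0) (p (nat_lit 0x109) (nat_lit 0) (p (nat_lit 0xb0004) (nat_lit 0) (p (nat_lit 0x380c2) (nat_lit 0) (p (nat_lit 0x444aa) (nat_lit 7) (p (nat_lit 0x109) (nat_lit 1) (p (nat_lit 0x101) (nat_lit 0) (p (nat_lit 0x81) (nat_lit 1) (p (nat_lit 0xc1) (nat_lit 1) (p (nat_lit 0x119) (nat_lit 1) (p (nat_lit 0xd1) (nat_lit 0) (p (nat_lit 0x89) (nat_lit 0) (p (nat_lit 0x41) (nat_lit 0) (p (nat_lit 0x10a898a08881a) (nat_lit 0) (p (nat_lit 0x8a090988079a) (nat_lit 0) (p (nat_lit 0x108088907871a) (nat_lit 0) (p (nat_lit 0x87880887069a) (nat_lit 0) (p (nat_lit 0x8000080000000088806860a) (nat_lit 0) (p (nat_lit 0x8000080000000068786058a) (nat_lit 0) (p (nat_lit 0x10687058502) (nat_lit 0) (p (nat_lit 0x8606850482) (nat_lit 0) (p (nat_lit 0x160004) (nat_lit 0) (p (nat_lit 0x68612) (nat_lit 0) (p (nat_lit 0x50592)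 (nat_lit 0) (p (nat_lit 0x40512) (nat_lit 0) (p (nat_lit 0x50312) (nat_lit 0) (p (nat_lit 0x38292) (nat_lit 0) (p (nat_lit 0x28212) (nat_lit 0) (p (nat_lit 0x38112) (nat_lit 0) (p (nat_lit 0x20092) (nat_lit 0) (p (nat_lit 0x10012) (nat_lit 0) pn))))))))))))))))))))))))))))))) :=
  Cl.node (nat_lit 0x4c42a) (nat_lit 12) (by decide +kernel) (ClAll.succ (ClAll.succ (ClAll.succ (ClAll.succ (ClAll.succ (ClAll.succ (ClAll.succ (ClAll.succ (ClAll.succ (ClAll.succ (ClAll.succ (ClAll.succ ClAll.zero s391) s392) s393) s394) s395) s396) s397) s398) s399) s400) s401) s402)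

def n243 : Cl (O (nat_lit 6)) (R (nat_lit 143633))
    (p (nat_lit 0x1fc014) (nat_lit 0) (p (nat_lit 0x1fc00c) (nat_lit 0) (p (nat_lit 0xb0004) (nat_lit 1) (p (nat_lit 0x380c2) (nat_lit 1) (p (nat_lit 0x444aa) (nat_lit 7) (p (nat_lit 0x109) (nat_lit 1) (p (nat_lit 0x101) (nat_lit 0) (p (nat_lit 0x81) (nat_lit 1) (p (nat_lit 0xc1) (nat_lit 1) (p (nat_lit 0x119) (nat_lit 1) (p (nat_lit 0xd1) (nat_lit 0) (p (nat_lit 0x89) (nat_lit 0) (p (nat_lit 0x41) (nat_lit 0) (p (nat_lit 0x10a898a08881a) (nat_lit 0) (p (nat_lit 0x8a090988079a) (nat_lit 0) (p (nat_lit 0x108088907871a) (nat_lit 0) (p (nat_lit 0x87880887069a) (nat_lit 0) (p (nat_lit 0x8000080000000088806860a) (nat_lit 0) (p (nat_lit 0x8000080000000068786058a) (nat_lit 0) (p (nat_lit 0x10687058502) (nat_lit 0) (p (nat_lit 0x8606850482) (nat_lit 0) (p (nat_lit 0x160004) (nat_lit 0) (p (nat_lit 0x68612) (nat_lit 0) (p (nat_lit 0x50592)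 (nat_lit 0) (p (nat_lit 0x40512) (nat_lit 0) (p (nat_lit 0x50312) (nat_lit 0) (p (nat_lit 0x38292) (nat_lit 0) (p (nat_lit 0x28212) (nat_lit 0) (p (nat_lit 0x38112) (nat_lit 0) (p (nat_lit 0x20092) (nat_lit 0) (p (nat_lit 0x10012) (nat_lit 0) pn))))))))))))))))))))))))))))))) :=
  Cl.node (nat_lit 0x10000c) (nat_lit 2) (by decide +kernel) (ClAll.succ (ClAll.succ ClAll.zero n194) s422)

def n244 : Cl (O (nat_lit 6)) (R (nat_lit 143633))
    (p (nat_lit 0x10000c) (nat_lit 0) (p (nat_lit 0x380c2) (nat_lit 0) (p (nat_lit 0x4c42a) (nat_lit 2) (p (nat_lit 0x109) (nat_lit 0) (p (nat_lit 0x200014) (nat_lit 0) (p (nat_lit 0x20000c) (nat_lit 0) (p (nat_lit 0x119) (nat_lit 0) (p (nat_lit 0x81) (nat_lit 0) (p (nat_lit 0x101) (nat_lit 1) (p (nat_lit 0x111) (nat_lit 0) (p (nat_lit 0xd1) (nat_lit 1) (p (nat_lit 0x89) (nat_lit 0) (p (nat_lit 0x41) (nat_lit 0) (p (nat_lit 0x10a898a08881a) (nat_lit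 0) (p (nat_lit 0x8a090988079a) (nat_lit 0) (p (nat_lit 0x108088907871a) (nat_lit 0) (p (nat_lit 0x87880887069a) (nat_lit 0) (p (nat_lit 0x8000080000000088806860a) (nat_lit 0) (p (nat_lit 0x8000080000000068786058a) (nat_lit 0) (p (nat_lit 0x10687058502) (nat_lit 0) (p (nat_lit 0x8606850482) (nat_lit 0) (p (nat_lit 0x160004) (nat_lit 0) (p (nat_lit 0x68612) (nat_lit 0) (p (nat_lit 0x50592) (nat_lit 0) (p (nat_lit 0x40512) (nat_lit 0) (p (nat_lit 0x50312) (nat_lit 0) (p (nat_lit 0x38292) (nat_lit 0) (p (nat_lit 0x28212) (nat_lit 0) (p (nat_lit 0x38112) (nat_lit 0) (p (nat_lit 0x20092) (nat_lit 0) (p (nat_lit 0x10012) (nat_lit 0) pn))))))))))))))))))))))))))))))) :=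
  Cl.node (nat_lit 0x100014) (nat_lit 2) (by decide +kernel) (ClAll.succ (ClAll.succ ClAll.zero n195) s498)

def n245 : Cl (O (nat_lit 6)) (R (nat_lit 143633))
    (p (nat_lit 0x4c42a) (nat_lit 2) (p (nat_lit 0xc9) (nat_lit 0) (p (nat_lit 0xb0004) (nat_lit 0) (p (nat_lit 0x380c2) (nat_lit 1) (p (nat_lit 0x444aa) (nat_lit 7) (p (nat_lit 0x119) (nat_lit 0) (p (nat_lit 0xc1) (nat_lit 0) (p (nat_lit 0x81) (nat_lit 1) (p (nat_lit 0x101) (nat_lit 1) (p (nat_lit 0x111) (nat_lit 0) (p (nat_lit 0xd1) (nat_lit 1) (p (nat_lit 0x89) (nat_lit 0) (p (nat_lit 0x41) (nat_lit 0) (p (nat_lit 0x10a898a08881a) (nat_lit 0) (p (nat_lit 0x8a090988079a) (nat_lit 0) (p (nat_lit 0x108088907871a) (nat_lit 0) (p (nat_lit 0x87880887069a) (nat_lit 0) (p (nat_lit 0x8000080000000088806860a) (nat_lit 0) (p (nat_lit 0x8000080000000068786058a) (nat_lit 0) (p (nat_lit 0x10687058502) (nat_lit 0) (p (nat_lit 0x8606850482)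 (nat_lit 0) (p (nat_lit 0x160004) (nat_lit 0) (p (nat_lit 0x68612) (nat_lit 0) (p (nat_lit 0x50592) (nat_lit 0) (p (nat_lit 0x40512) (nat_lit 0) (p (nat_lit 0x50312) (nat_lit 0) (p (nat_lit 0x38292) (nat_lit 0) (p (nat_lit 0x28212) (nat_lit 0) (p (nat_lit 0x38112) (nat_lit 0) (p (nat_lit 0x20092) (nat_lit 0) (p (nat_lit 0x10012) (nat_lit 0) pn))))))))))))))))))))))))))))))) :=
  Cl.node (nat_lit 0x380c2) (nat_lit 1) (by decide +kernel) (ClAll.succ ClAll.zero n196)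

def n246 : Cl (O (nat_lit 6)) (R (nat_lit 143633))
    (p (nat_lit 0x100014) (nat_lit 0) (p (nat_lit 0x200014) (nat_lit 0) (p (nat_lit 0x20000c) (nat_lit 0) (p (nat_lit 0x380c2) (nat_lit 1) (p (nat_lit 0x444aa) (nat_lit 8) (p (nat_lit 0x119) (nat_lit 0) (p (nat_lit 0xc1) (nat_lit 0) (p (nat_lit 0x81) (nat_lit 1) (p (nat_lit 0x101) (nat_lit 1) (p (nat_lit 0x111) (nat_lit 0) (p (nat_lit 0xd1) (nat_lit 1) (p (nat_lit 0x89) (nat_lit 0) (p (nat_lit 0x41) (nat_lit 0) (p (nat_lit 0x10a898a08881a) (nat_lit 0) (p (nat_lit 0x8a090988079a) (nat_lit 0) (p (nat_lit 0x108088907871a) (nat_lit 0) (p (nat_lit 0x87880887069a) (nat_lit 0) (p (nat_lit 0x8000080000000088806860a) (nat_lit 0) (p (nat_lit 0x8000080000000068786058a) (nat_lit 0) (p (nat_lit 0x10687058502) (nat_lit 0) (p (nat_lit 0x8606850482) (nat_lit 0) (p (nat_lit 0x160004) (nat_lit 0) (p (nat_lit 0x68612) (nat_lit 0) (p (nat_lit 0x50592)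 (nat_lit 0) (p (nat_lit 0x40512) (nat_lit 0) (p (nat_lit 0x50312) (nat_lit 0) (p (nat_lit 0x38292) (nat_lit 0) (p (nat_lit 0x28212) (nat_lit 0) (p (nat_lit 0x38112) (nat_lit 0) (p (nat_lit 0x20092) (nat_lit 0) (p (nat_lit 0x10012) (nat_lit 0) pn))))))))))))))))))))))))))))))) :=
  Cl.node (nat_lit 0x10000c) (nat_lit 2) (by decide +kernel) (ClAll.succ (ClAll.succ ClAll.zero n197) s589)

def n247 : Cl (O (nat_lit 6)) (R (nat_lit 143633))
    (p (nat_lit 0x200014) (nat_lit 0) (p (nat_lit 0x10000c) (nat_lit 0) (p (nat_lit 0x20000c) (nat_lit 0) (p (nat_lit 0x380c2) (nat_lit 0) (p (nat_lit 0x444aa) (nat_lit 7) (p (nat_lit 0xd1) (nat_lit 1) (p (nat_lit 0x111) (nat_lit 1) (p (nat_lit 0x109) (nat_lit 0) (p (nat_lit 0x101) (nat_lit 0) (p (nat_lit 0x119) (nat_lit 0) (p (nat_lit 0xc9) (nat_lit 0) (p (nat_lit 0x89) (nat_lit 1) (p (nat_lit 0x41) (nat_lit 0) (p (nat_lit 0x10a898a08881a) (nat_lit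 0) (p (nat_lit 0x8a090988079a) (nat_lit 0) (p (nat_lit 0x108088907871a) (nat_lit 0) (p (nat_lit 0x87880887069a) (nat_lit 0) (p (nat_lit 0x8000080000000088806860a) (nat_lit 0) (p (nat_lit 0x8000080000000068786058a) (nat_lit 0) (p (nat_lit 0x10687058502) (nat_lit 0) (p (nat_lit 0x8606850482) (nat_lit 0) (p (nat_lit 0x160004) (nat_lit 0) (p (nat_lit 0x68612) (nat_lit 0) (p (nat_lit 0x50592) (nat_lit 0) (p (nat_lit 0x40512) (nat_lit 0) (p (nat_lit 0x50312) (nat_lit 0) (p (nat_lit 0x38292) (nat_lit 0) (p (nat_lit 0x28212) (nat_lit 0) (p (nat_lit 0x38112) (nat_lit 0) (p (nat_lit 0x20092) (nat_lit 0) (p (nat_lit 0x10012) (nat_lit 0) pn))))))))))))))))))))))))))))))) :=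
  Cl.node (nat_lit 0x100014) (nat_lit 2) (by decide +kernel) (ClAll.succ (ClAll.succ ClAll.zero n198) n199)

def n248 : Cl (O (nat_lit 6)) (R (nat_lit 143633))
    (p (nat_lit 0xc1) (nat_lit 0) (p (nat_lit 0x20000c) (nat_lit 0) (p (nat_lit 0xb0004) (nat_lit 0) (p (nat_lit 0x380c2) (nat_lit 1) (p (nat_lit 0x444aa) (nat_lit 7) (p (nat_lit 0xd1) (nat_lit 1) (p (nat_lit 0x111) (nat_lit 1) (p (nat_lit 0x109) (nat_lit 0) (p (nat_lit 0x101) (nat_lit 0) (p (nat_lit 0x119) (nat_lit 0) (p (nat_lit 0xc9) (nat_lit 0) (p (nat_lit 0x89) (nat_lit 1) (p (nat_lit 0x41) (nat_lit 0) (p (nat_lit 0x10a898a08881a) (nat_lit 0) (p (nat_lit 0x8a090988079a) (nat_lit 0) (p (nat_lit 0x108088907871a) (nat_lit 0) (p (nat_lit 0x87880887069a) (nat_lit 0) (p (nat_lit 0x8000080000000088806860a) (nat_lit 0) (p (nat_lit 0x8000080000000068786058a) (nat_lit 0) (p (nat_lit 0x10687058502) (nat_lit 0) (p (nat_lit 0x8606850482)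 (nat_lit 0) (p (nat_lit 0x160004) (nat_lit 0) (p (nat_lit 0x68612) (nat_lit 0) (p (nat_lit 0x50592) (nat_lit 0) (p (nat_lit 0x40512) (nat_lit 0) (p (nat_lit 0x50312) (nat_lit 0) (p (nat_lit 0x38292) (nat_lit 0) (p (nat_lit 0x28212) (nat_lit 0) (p (nat_lit 0x38112) (nat_lit 0) (p (nat_lit 0x20092) (nat_lit 0) (p (nat_lit 0x10012) (nat_lit 0) pn))))))))))))))))))))))))))))))) :=
  Cl.node (nat_lit 0x10000c) (nat_lit 2) (by decide +kernel) (ClAll.succ (ClAll.succ ClAll.zero n200) s680)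

def n249 : Cl (O (nat_lit 6)) (R (nat_lit 143633))
    (p (nat_lit 0xc1) (nat_lit 1) (p (nat_lit 0x20000c) (nat_lit 0) (p (nat_lit 0xb0004) (nat_lit 0) (p (nat_lit 0x380c2) (nat_lit 1) (p (nat_lit 0x444aa) (nat_lit 7) (p (nat_lit 0xd1) (nat_lit 1) (p (nat_lit 0x111) (nat_lit 1) (p (nat_lit 0x109) (nat_lit 0) (p (nat_lit 0x101) (nat_lit 0) (p (nat_lit 0x119) (nat_lit 0) (p (nat_lit 0xc9) (nat_lit 0) (p (nat_lit 0x89) (nat_lit 1) (p (nat_lit 0x41) (nat_lit 0) (p (nat_lit 0x10a898a08881a) (nat_lit 0) (p (nat_lit 0x8a090988079a) (nat_lit 0) (p (nat_lit 0x108088907871a) (nat_lit 0) (p (nat_lit 0x87880887069a) (nat_lit 0) (p (nat_lit 0x8000080000000088806860a) (nat_lit 0) (p (nat_lit 0x8000080000000068786058a) (nat_lit 0) (p (nat_lit 0x10687058502) (nat_lit 0) (p (nat_lit 0x8606850482) (nat_lit 0) (p (nat_lit 0x160004) (nat_lit 0) (p (nat_lit 0x68612) (nat_lit 0) (p (nat_lit 0x50592)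 (nat_lit 0) (p (nat_lit 0x40512) (nat_lit 0) (p (nat_lit 0x50312) (nat_lit 0) (p (nat_lit 0x38292) (nat_lit 0) (p (nat_lit 0x28212) (nat_lit 0) (p (nat_lit 0x38112) (nat_lit 0) (p (nat_lit 0x20092) (nat_lit 0) (p (nat_lit 0x10012) (nat_lit 0) pn))))))))))))))))))))))))))))))) :=
  Cl.node (nat_lit 0x10000c) (nat_lit 2) (by decide +kernel) (ClAll.succ (ClAll.succ ClAll.zero s681) s682)

def n250 : Cl (O (nat_lit 6)) (R (nat_lit 143633))
    (p (nat_lit 0x1fc014) (nat_lit 0) (p (nat_lit 0x1fc00c) (nat_lit 0) (p (nat_lit 0xb0004) (nat_lit 1) (p (nat_lit 0x380c2) (nat_lit 1) (p (nat_lit 0x444aa) (nat_lit 7) (p (nat_lit 0xd1) (nat_lit 1) (p (nat_lit 0x111) (nat_lit 1) (p (nat_lit 0x109) (nat_lit 0) (p (nat_lit 0x101) (nat_lit 0) (p (nat_lit 0x119) (nat_lit 0) (p (nat_lit 0xc9) (nat_lit 0) (p (nat_lit 0x89) (nat_lit 1) (p (nat_lit 0x41) (nat_lit 0) (p (nat_lit 0x10a898a08881a) (nat_lit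 0) (p (nat_lit 0x8a090988079a) (nat_lit 0) (p (nat_lit 0x108088907871a) (nat_lit 0) (p (nat_lit 0x87880887069a) (nat_lit 0) (p (nat_lit 0x8000080000000088806860a) (nat_lit 0) (p (nat_lit 0x8000080000000068786058a) (nat_lit 0) (p (nat_lit 0x10687058502) (nat_lit 0) (p (nat_lit 0x8606850482) (nat_lit 0) (p (nat_lit 0x160004) (nat_lit 0) (p (nat_lit 0x68612) (nat_lit 0) (p (nat_lit 0x50592) (nat_lit 0) (p (nat_lit 0x40512) (nat_lit 0) (p (nat_lit 0x50312) (nat_lit 0) (p (nat_lit 0x38292) (nat_lit 0) (p (nat_lit 0x28212) (nat_lit 0) (p (nat_lit 0x38112) (nat_lit 0) (p (nat_lit 0x20092) (nat_lit 0) (p (nat_lit 0x10012) (nat_lit 0) pn))))))))))))))))))))))))))))))) :=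
  Cl.node (nat_lit 0x100014) (nat_lit 2) (by decide +kernel) (ClAll.succ (ClAll.succ ClAll.zero n201) s691)

def n251 : Cl (O (nat_lit 6)) (R (nat_lit 143633))
    (p (nat_lit 0xb0004) (nat_lit 0) (p (nat_lit 0x380c2) (nat_lit 0) (p (nat_lit 0x44c2a) (nat_lit 1) (p (nat_lit 0x41) (nat_lit 0) (p (nat_lit 0x200014) (nat_lit 0) (p (nat_lit 0x20000c) (nat_lit 0) (p (nat_lit 0xd1) (nat_lit 0) (p (nat_lit 0x109) (nat_lit 1) (p (nat_lit 0x101) (nat_lit 0) (p (nat_lit 0x119) (nat_lit 0) (p (nat_lit 0xc9) (nat_lit 0) (p (nat_lit 0x89) (nat_lit 1) (p (nat_lit 0x41) (nat_lit 0) (p (nat_lit 0x10a898a08881a) (nat_lit 0) (p (nat_lit 0x8a090988079a) (nat_lit 0) (p (nat_lit 0x108088907871a) (nat_lit 0) (p (nat_lit 0x87880887069a) (nat_lit 0) (p (nat_lit 0x8000080000000088806860a) (nat_lit 0) (p (nat_lit 0x8000080000000068786058a) (nat_lit 0) (p (nat_lit 0x10687058502) (nat_lit 0) (p (nat_lit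 0x8606850482) (nat_lit 0) (p (nat_lit 0x160004) (nat_lit 0) (p (nat_lit 0x68612) (nat_lit 0) (p (nat_lit 0x50592) (nat_lit 0) (p (nat_lit 0x40512) (nat_lit 0) (p (nat_lit 0x50312) (nat_lit 0) (p (nat_lit 0x38292) (nat_lit 0) (p (nat_lit 0x28212) (nat_lit 0) (p (nat_lit 0x38112) (nat_lit 0) (p (nat_lit 0x20092) (nat_lit 0) (p (nat_lit 0x10012) (nat_lit 0) pn))))))))))))))))))))))))))))))) :=
  Cl.node (nat_lit 0xc1) (nat_lit 2) (by decide +kernel) (ClAll.succ (ClAll.succ ClAll.zero s702) s703)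

def n252 : Cl (O (nat_lit 6)) (R (nat_lit 143633))
    (p (nat_lit 0x10000c) (nat_lit 0) (p (nat_lit 0x20000c) (nat_lit 0) (p (nat_lit 0xc1) (nat_lit 0) (p (nat_lit 0xb0004) (nat_lit 0) (p (nat_lit 0x380c2) (nat_lit 0) (p (nat_lit 0x444aa) (nat_lit 7) (p (nat_lit 0xd1) (nat_lit 1) (p (nat_lit 0x109) (nat_lit 1) (p (nat_lit 0x101) (nat_lit 0) (p (nat_lit 0x119) (nat_lit 0) (p (nat_lit 0xc9) (nat_lit 0) (p (nat_lit 0x89) (nat_lit 1) (p (nat_lit 0x41) (nat_lit 0) (p (nat_lit 0x10a898a08881a) (nat_lit 0) (p (nat_lit 0x8a090988079a) (nat_lit 0) (p (nat_lit 0x108088907871a) (nat_lit 0) (p (nat_lit 0x87880887069a) (nat_lit 0) (p (nat_lit 0x8000080000000088806860a) (nat_lit 0) (p (nat_lit 0x8000080000000068786058a) (nat_lit 0) (p (nat_lit 0x10687058502) (nat_lit 0) (p (nat_lit 0x8606850482) (nat_lit 0) (p (nat_lit 0x160004) (nat_lit 0) (p (nat_lit 0x68612) (nat_lit 0) (p (nat_lit 0x50592)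 (nat_lit 0) (p (nat_lit 0x40512) (nat_lit 0) (p (nat_lit 0x50312) (nat_lit 0) (p (nat_lit 0x38292) (nat_lit 0) (p (nat_lit 0x28212) (nat_lit 0) (p (nat_lit 0x38112) (nat_lit 0) (p (nat_lit 0x20092) (nat_lit 0) (p (nat_lit 0x10012) (nat_lit 0) pn))))))))))))))))))))))))))))))) :=
  Cl.node (nat_lit 0x200014) (nat_lit 2) (by decide +kernel) (ClAll.succ (ClAll.succ ClAll.zero n202) s741)

def n253 : Cl (O (nat_lit 6)) (R (nat_lit 143633))
    (p (nat_lit 0x100014) (nat_lit 0) (p (nat_lit 0x1fc014) (nat_lit 0) (p (nat_lit 0x1fc00c) (nat_lit 0) (p (nat_lit 0xb0004) (nat_lit 1) (p (nat_lit 0x380c2) (nat_lit 0) (p (nat_lit 0x444aa) (nat_lit 7) (p (nat_lit 0xd1) (nat_lit 1) (p (nat_lit 0x109) (nat_lit 1) (p (nat_lit 0x101) (nat_lit 0) (p (nat_lit 0x119) (nat_lit 0) (p (nat_lit 0xc9) (nat_lit 0) (p (nat_lit 0x89) (nat_lit 1) (p (nat_lit 0x41) (nat_lit 0) (p (nat_lit 0x10a898a08881a) (nat_lit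 0) (p (nat_lit 0x8a090988079a) (nat_lit 0) (p (nat_lit 0x108088907871a) (nat_lit 0) (p (nat_lit 0x87880887069a) (nat_lit 0) (p (nat_lit 0x8000080000000088806860a) (nat_lit 0) (p (nat_lit 0x8000080000000068786058a) (nat_lit 0) (p (nat_lit 0x10687058502) (nat_lit 0) (p (nat_lit 0x8606850482) (nat_lit 0) (p (nat_lit 0x160004) (nat_lit 0) (p (nat_lit 0x68612) (nat_lit 0) (p (nat_lit 0x50592) (nat_lit 0) (p (nat_lit 0x40512) (nat_lit 0) (p (nat_lit 0x50312) (nat_lit 0) (p (nat_lit 0x38292) (nat_lit 0) (p (nat_lit 0x28212) (nat_lit 0) (p (nat_lit 0x38112) (nat_lit 0) (p (nat_lit 0x20092) (nat_lit 0) (p (nat_lit 0x10012) (nat_lit 0) pn))))))))))))))))))))))))))))))) :=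
  Cl.node (nat_lit 0x10000c) (nat_lit 2) (by decide +kernel) (ClAll.succ (ClAll.succ ClAll.zero n203) s760)

def n254 : Cl (O (nat_lit 6)) (R (nat_lit 143633))
    (p (nat_lit 0x20000c) (nat_lit 0) (p (nat_lit 0xc9) (nat_lit 0) (p (nat_lit 0xc1) (nat_lit 0) (p (nat_lit 0xb0004) (nat_lit 0) (p (nat_lit 0x380c2) (nat_lit 1) (p (nat_lit 0x444aa) (nat_lit 7) (p (nat_lit 0xd1) (nat_lit 1) (p (nat_lit 0x109) (nat_lit 1) (p (nat_lit 0x101) (nat_lit 0) (p (nat_lit 0x119) (nat_lit 0) (p (nat_lit 0xc9) (nat_lit 0) (p (nat_lit 0x89) (nat_lit 1) (p (nat_lit 0x41) (nat_lit 0) (p (nat_lit 0x10a898a08881a) (nat_lit 0) (p (nat_lit 0x8a090988079a) (nat_lit 0) (p (nat_lit 0x108088907871a) (nat_lit 0) (p (nat_lit 0x87880887069a) (nat_lit 0) (p (nat_lit 0x8000080000000088806860a) (nat_lit 0) (p (nat_lit 0x8000080000000068786058a) (nat_lit 0) (p (nat_lit 0x10687058502) (nat_lit 0) (p (nat_lit 0x8606850482)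 (nat_lit 0) (p (nat_lit 0x160004) (nat_lit 0) (p (nat_lit 0x68612) (nat_lit 0) (p (nat_lit 0x50592) (nat_lit 0) (p (nat_lit 0x40512) (nat_lit 0) (p (nat_lit 0x50312) (nat_lit 0) (p (nat_lit 0x38292) (nat_lit 0) (p (nat_lit 0x28212) (nat_lit 0) (p (nat_lit 0x38112) (nat_lit 0) (p (nat_lit 0x20092) (nat_lit 0) (p (nat_lit 0x10012) (nat_lit 0) pn))))))))))))))))))))))))))))))) :=
  Cl.node (nat_lit 0x10000c) (nat_lit 2) (by decide +kernel) (ClAll.succ (ClAll.succ ClAll.zero n204) s791)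

def n255 : Cl (O (nat_lit 6)) (R (nat_lit 143633))
    (p (nat_lit 0x20000c) (nat_lit 0) (p (nat_lit 0xc9) (nat_lit 1) (p (nat_lit 0xc1) (nat_lit 0) (p (nat_lit 0xb0004) (nat_lit 0) (p (nat_lit 0x380c2) (nat_lit 1) (p (nat_lit 0x444aa) (nat_lit 7) (p (nat_lit 0xd1) (nat_lit 1) (p (nat_lit 0x109) (nat_lit 1) (p (nat_lit 0x101) (nat_lit 0) (p (nat_lit 0x119) (nat_lit 0) (p (nat_lit 0xc9) (nat_lit 0) (p (nat_lit 0x89) (nat_lit 1) (p (nat_lit 0x41) (nat_lit 0) (p (nat_lit 0x10a898a08881a) (nat_lit 0) (p (nat_lit 0x8a090988079a) (nat_lit 0) (p (nat_lit 0x108088907871a) (nat_lit 0) (p (nat_lit 0x87880887069a) (nat_lit 0) (p (nat_lit 0x8000080000000088806860a) (nat_lit 0) (p (nat_lit 0x8000080000000068786058a) (nat_lit 0) (p (nat_lit 0x10687058502) (nat_lit 0) (p (nat_lit 0x8606850482) (nat_lit 0) (p (nat_lit 0x160004) (nat_lit 0) (p (nat_lit 0x68612) (nat_lit 0) (p (nat_lit 0x50592)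 (nat_lit 0) (p (nat_lit 0x40512) (nat_lit 0) (p (nat_lit 0x50312) (nat_lit 0) (p (nat_lit 0x38292) (nat_lit 0) (p (nat_lit 0x28212) (nat_lit 0) (p (nat_lit 0x38112) (nat_lit 0) (p (nat_lit 0x20092) (nat_lit 0) (p (nat_lit 0x10012) (nat_lit 0) pn))))))))))))))))))))))))))))))) :=
  Cl.node (nat_lit 0x200014) (nat_lit 2) (by decide +kernel) (ClAll.succ (ClAll.succ ClAll.zero n205) s795)

def n256 : Cl (O (nat_lit 6)) (R (nat_lit 143633))
    (p (nat_lit 0x100014) (nat_lit 0) (p (nat_lit 0x1fc014) (nat_lit 0) (p (nat_lit 0x1fc00c) (nat_lit 0) (p (nat_lit 0xb0004) (nat_lit 1) (p (nat_lit 0x380c2) (nat_lit 1) (p (nat_lit 0x444aa) (nat_lit 7) (p (nat_lit 0xd1) (nat_lit 1) (p (nat_lit 0x109) (nat_lit 1) (p (nat_lit 0x101) (nat_lit 0) (p (nat_lit 0x119) (nat_lit 0) (p (nat_lit 0xc9) (nat_lit 0) (p (nat_lit 0x89) (nat_lit 1) (p (nat_lit 0x41) (nat_lit 0) (p (nat_lit 0x10a898a08881a) (nat_lit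 0) (p (nat_lit 0x8a090988079a) (nat_lit 0) (p (nat_lit 0x108088907871a) (nat_lit 0) (p (nat_lit 0x87880887069a) (nat_lit 0) (p (nat_lit 0x8000080000000088806860a) (nat_lit 0) (p (nat_lit 0x8000080000000068786058a) (nat_lit 0) (p (nat_lit 0x10687058502) (nat_lit 0) (p (nat_lit 0x8606850482) (nat_lit 0) (p (nat_lit 0x160004) (nat_lit 0) (p (nat_lit 0x68612) (nat_lit 0) (p (nat_lit 0x50592) (nat_lit 0) (p (nat_lit 0x40512) (nat_lit 0) (p (nat_lit 0x50312) (nat_lit 0) (p (nat_lit 0x38292) (nat_lit 0) (p (nat_lit 0x28212) (nat_lit 0) (p (nat_lit 0x38112) (nat_lit 0) (p (nat_lit 0x20092) (nat_lit 0) (p (nat_lit 0x10012) (nat_lit 0) pn))))))))))))))))))))))))))))))) :=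
  Cl.node (nat_lit 0x80014) (nat_lit 2) (by decide +kernel) (ClAll.succ (ClAll.succ ClAll.zero n206) s800)

def n257 : Cl (O (nat_lit 6)) (R (nat_lit 143633))
    (p (nat_lit 0x41) (nat_lit 0) (p (nat_lit 0x380c2) (nat_lit 0) (p (nat_lit 0x44c2a) (nat_lit 0) (p (nat_lit 0x109) (nat_lit 1) (p (nat_lit 0x200014) (nat_lit 0) (p (nat_lit 0x20000c) (nat_lit 0) (p (nat_lit 0xd1) (nat_lit 0) (p (nat_lit 0xc1) (nat_lit 0) (p (nat_lit 0x101) (nat_lit 1) (p (nat_lit 0x119) (nat_lit 0) (p (nat_lit 0xc9) (nat_lit 0) (p (nat_lit 0x89) (nat_lit 1) (p (nat_lit 0x41) (nat_lit 0) (p (nat_lit 0x10a898a08881a) (nat_lit 0) (p (nat_lit 0x8a090988079a) (nat_lit 0) (p (nat_lit 0x108088907871a) (nat_lit 0) (p (nat_lit 0x87880887069a) (nat_lit 0) (p (nat_lit 0x8000080000000088806860a) (nat_lit 0) (p (nat_lit 0x8000080000000068786058a) (nat_lit 0) (p (nat_lit 0x10687058502) (nat_lit 0) (p (nat_lit 0x8606850482)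 (nat_lit 0) (p (nat_lit 0x160004) (nat_lit 0) (p (nat_lit 0x68612) (nat_lit 0) (p (nat_lit 0x50592) (nat_lit 0) (p (nat_lit 0x40512) (nat_lit 0) (p (nat_lit 0x50312) (nat_lit 0) (p (nat_lit 0x38292) (nat_lit 0) (p (nat_lit 0x28212) (nat_lit 0) (p (nat_lit 0x38112) (nat_lit 0) (p (nat_lit 0x20092) (nat_lit 0) (p (nat_lit 0x10012) (nat_lit 0) pn))))))))))))))))))))))))))))))) :=
  Cl.node (nat_lit 0x119) (nat_lit 2) (by decide +kernel) (ClAll.succ (ClAll.succ ClAll.zero n207) s833)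

def n258 : Cl (O (nat_lit 6)) (R (nat_lit 143633))
    (p (nat_lit 0x41) (nat_lit 1) (p (nat_lit 0x380c2) (nat_lit 0) (p (nat_lit 0x44c2a) (nat_lit 0) (p (nat_lit 0x109) (nat_lit 1) (p (nat_lit 0x200014) (nat_lit 0) (p (nat_lit 0x20000c) (nat_lit 0) (p (nat_lit 0xd1) (nat_lit 0) (p (nat_lit 0xc1) (nat_lit 0) (p (nat_lit 0x101) (nat_lit 1) (p (nat_lit 0x119) (nat_lit 0) (p (nat_lit 0xc9) (nat_lit 0) (p (nat_lit 0x89) (nat_lit 1) (p (nat_lit 0x41) (nat_lit 0) (p (nat_lit 0x10a898a08881a) (nat_lit 0) (p (nat_lit 0x8a090988079a) (nat_lit 0) (p (nat_lit 0x108088907871a) (nat_lit 0) (p (nat_lit 0x87880887069a) (nat_lit 0) (p (nat_lit 0x8000080000000088806860a) (nat_lit 0) (p (nat_lit 0x8000080000000068786058a) (nat_lit 0) (p (nat_lit 0x10687058502) (nat_lit 0) (p (nat_lit 0x8606850482) (nat_lit 0) (p (nat_lit 0x160004) (nat_lit 0) (p (nat_lit 0x68612) (nat_lit 0) (p (nat_lit 0x50592)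 (nat_lit 0) (p (nat_lit 0x40512) (nat_lit 0) (p (nat_lit 0x50312) (nat_lit 0) (p (nat_lit 0x38292) (nat_lit 0) (p (nat_lit 0x28212) (nat_lit 0) (p (nat_lit 0x38112) (nat_lit 0) (p (nat_lit 0x20092) (nat_lit 0) (p (nat_lit 0x10012) (nat_lit 0) pn))))))))))))))))))))))))))))))) :=
  Cl.node (nat_lit 0xb0004) (nat_lit 2) (by decide +kernel) (ClAll.succ (ClAll.succ ClAll.zero s834) n208)

def n259 : Cl (O (nat_lit 6)) (R (nat_lit 143633))
    (p (nat_lit 0xc1) (nat_lit 1) (p (nat_lit 0x380c2) (nat_lit 1) (p (nat_lit 0x44c2a) (nat_lit 0) (p (nat_lit 0x109) (nat_lit 1) (p (nat_lit 0x200014) (nat_lit 0) (p (nat_lit 0x20000c) (nat_lit 0) (p (nat_lit 0xd1) (nat_lit 0) (p (nat_lit 0xc1) (nat_lit 0) (p (nat_lit 0x101) (nat_lit 1) (p (nat_lit 0x119) (nat_lit 0) (p (nat_lit 0xc9) (nat_lit 0) (p (nat_lit 0x89) (nat_lit 1) (p (nat_lit 0x41) (nat_lit 0) (p (nat_lit 0x10a898a08881a) (nat_lit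 0) (p (nat_lit 0x8a090988079a) (nat_lit 0) (p (nat_lit 0x108088907871a) (nat_lit 0) (p (nat_lit 0x87880887069a) (nat_lit 0) (p (nat_lit 0x8000080000000088806860a) (nat_lit 0) (p (nat_lit 0x8000080000000068786058a) (nat_lit 0) (p (nat_lit 0x10687058502) (nat_lit 0) (p (nat_lit 0x8606850482) (nat_lit 0) (p (nat_lit 0x160004) (nat_lit 0) (p (nat_lit 0x68612) (nat_lit 0) (p (nat_lit 0x50592) (nat_lit 0) (p (nat_lit 0x40512) (nat_lit 0) (p (nat_lit 0x50312) (nat_lit 0) (p (nat_lit 0x38292) (nat_lit 0) (p (nat_lit 0x28212) (nat_lit 0) (p (nat_lit 0x38112) (nat_lit 0) (p (nat_lit 0x20092) (nat_lit 0) (p (nat_lit 0x10012) (nat_lit 0) pn))))))))))))))))))))))))))))))) :=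
  Cl.node (nat_lit 0x41) (nat_lit 2) (by decide +kernel) (ClAll.succ (ClAll.succ ClAll.zero s840) s841)

def n260 : Cl (O (nat_lit 6)) (R (nat_lit 143633))
    (p (nat_lit 0xb0004) (nat_lit 0) (p (nat_lit 0x380c2) (nat_lit 0) (p (nat_lit 0x44c2a) (nat_lit 1) (p (nat_lit 0x109) (nat_lit 1) (p (nat_lit 0x200014) (nat_lit 0) (p (nat_lit 0x20000c) (nat_lit 0) (p (nat_lit 0xd1) (nat_lit 0) (p (nat_lit 0xc1) (nat_lit 0) (p (nat_lit 0x101) (nat_lit 1) (p (nat_lit 0x119) (nat_lit 0) (p (nat_lit 0xc9) (nat_lit 0) (p (nat_lit 0x89) (nat_lit 1) (p (nat_lit 0x41) (nat_lit 0) (p (nat_lit 0x10a898a08881a) (nat_lit 0) (p (nat_lit 0x8a090988079a) (nat_lit 0) (p (nat_lit 0x108088907871a) (nat_lit 0) (p (nat_lit 0x87880887069a) (nat_lit 0) (p (nat_lit 0x8000080000000088806860a) (nat_lit 0) (p (nat_lit 0x8000080000000068786058a) (nat_lit 0) (p (nat_lit 0x10687058502) (nat_lit 0) (p (nat_lit 0x8606850482)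 (nat_lit 0) (p (nat_lit 0x160004) (nat_lit 0) (p (nat_lit 0x68612) (nat_lit 0) (p (nat_lit 0x50592) (nat_lit 0) (p (nat_lit 0x40512) (nat_lit 0) (p (nat_lit 0x50312) (nat_lit 0) (p (nat_lit 0x38292) (nat_lit 0) (p (nat_lit 0x28212) (nat_lit 0) (p (nat_lit 0x38112) (nat_lit 0) (p (nat_lit 0x20092) (nat_lit 0) (p (nat_lit 0x10012) (nat_lit 0) pn))))))))))))))))))))))))))))))) :=
  Cl.node (nat_lit 0xc1) (nat_lit 2) (by decide +kernel) (ClAll.succ (ClAll.succ ClAll.zero s842) s843)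

def n261 : Cl (O (nat_lit 6)) (R (nat_lit 143633))
    (p (nat_lit 0xb0004) (nat_lit 1) (p (nat_lit 0x380c2) (nat_lit 0) (p (nat_lit 0x44c2a) (nat_lit 1) (p (nat_lit 0x109) (nat_lit 1) (p (nat_lit 0x200014) (nat_lit 0) (p (nat_lit 0x20000c) (nat_lit 0) (p (nat_lit 0xd1) (nat_lit 0) (p (nat_lit 0xc1) (nat_lit 0) (p (nat_lit 0x101) (nat_lit 1) (p (nat_lit 0x119) (nat_lit 0) (p (nat_lit 0xc9) (nat_lit 0) (p (nat_lit 0x89) (nat_lit 1) (p (nat_lit 0x41) (nat_lit 0) (p (nat_lit 0x10a898a08881a) (nat_lit 0) (p (nat_lit 0x8a090988079a) (nat_lit 0) (p (nat_lit 0x108088907871a) (nat_lit 0) (p (nat_lit 0x87880887069a) (nat_lit 0) (p (nat_lit 0x8000080000000088806860a) (nat_lit 0) (p (nat_lit 0x8000080000000068786058a) (nat_lit 0) (p (nat_lit 0x10687058502) (nat_lit 0) (p (nat_lit 0x8606850482) (nat_lit 0) (p (nat_lit 0x160004) (nat_lit 0) (p (nat_lit 0x68612) (nat_lit 0) (p (nat_lit 0x50592)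 (nat_lit 0) (p (nat_lit 0x40512) (nat_lit 0) (p (nat_lit 0x50312) (nat_lit 0) (p (nat_lit 0x38292) (nat_lit 0) (p (nat_lit 0x28212) (nat_lit 0) (p (nat_lit 0x38112) (nat_lit 0) (p (nat_lit 0x20092) (nat_lit 0) (p (nat_lit 0x10012) (nat_lit 0) pn))))))))))))))))))))))))))))))) :=
  Cl.node (nat_lit 0x108004) (nat_lit 2) (by decide +kernel) (ClAll.succ (ClAll.succ ClAll.zero s844) s845)

def n262 : Cl (O (nat_lit 6)) (R (nat_lit 143633))
    (p (nat_lit 0x119) (nat_lit 1) (p (nat_lit 0xd1) (nat_lit 0) (p (nat_lit 0xc9) (nat_lit 0) (p (nat_lit 0xb0004) (nat_lit 0) (p (nat_lit 0x380c2) (nat_lit 0) (p (nat_lit 0x444aa) (nat_lit 7) (p (nat_lit 0xd1) (nat_lit 1) (p (nat_lit 0xc1) (nat_lit 0) (p (nat_lit 0x101) (nat_lit 1) (p (nat_lit 0x119) (nat_lit 0) (p (nat_lit 0xc9) (nat_lit 0) (p (nat_lit 0x89) (nat_lit 1) (p (nat_lit 0x41) (nat_lit 0) (p (nat_lit 0x10a898a08881a) (nat_lit 0) (p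 (nat_lit 0x8a090988079a) (nat_lit 0) (p (nat_lit 0x108088907871a) (nat_lit 0) (p (nat_lit 0x87880887069a) (nat_lit 0) (p (nat_lit 0x8000080000000088806860a) (nat_lit 0) (p (nat_lit 0x8000080000000068786058a) (nat_lit 0) (p (nat_lit 0x10687058502) (nat_lit 0) (p (nat_lit 0x8606850482) (nat_lit 0) (p (nat_lit 0x160004) (nat_lit 0) (p (nat_lit 0x68612) (nat_lit 0) (p (nat_lit 0x50592) (nat_lit 0) (p (nat_lit 0x40512) (nat_lit 0) (p (nat_lit 0x50312) (nat_lit 0) (p (nat_lit 0x38292) (nat_lit 0) (p (nat_lit 0x28212) (nat_lit 0) (p (nat_lit 0x38112) (nat_lit 0) (p (nat_lit 0x20092) (nat_lit 0) (p (nat_lit 0x10012) (nat_lit 0) pn))))))))))))))))))))))))))))))) :=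
  Cl.node (nat_lit 0x44c2a) (nat_lit 12) (by decide +kernel) (ClAll.succ (ClAll.succ (ClAll.succ (ClAll.succ (ClAll.succ (ClAll.succ (ClAll.succ (ClAll.succ (ClAll.succ (ClAll.succ (ClAll.succ (ClAll.succ ClAll.zero s866) s867) s868) s869) s870) s871) s872) s873) s874) s875) s876) s877)

def n263 : Cl (O (nat_lit 6)) (R (nat_lit 143633))
    (p (nat_lit 0x119) (nat_lit 1) (p (nat_lit 0xd1) (nat_lit 0) (p (nat_lit 0xc9) (nat_lit 0) (p (nat_lit 0xb0004) (nat_lit 0) (p (nat_lit 0x380c2) (nat_lit 1) (p (nat_lit 0x444aa) (nat_lit 7) (p (nat_lit 0xd1) (nat_lit 1) (p (nat_lit 0xc1) (nat_lit 0) (p (nat_lit 0x101) (nat_lit 1) (p (nat_lit 0x119) (nat_lit 0) (p (nat_lit 0xc9) (nat_lit 0) (p (nat_lit 0x89) (nat_lit 1) (p (nat_lit 0x41) (nat_lit 0) (p (nat_lit 0x10a898a08881a) (nat_lit 0) (p (nat_lit 0x8a090988079a) (nat_lit 0) (p (nat_lit 0x108088907871a) (nat_lit 0) (p (nat_lit 0x87880887069a)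 (nat_lit 0) (p (nat_lit 0x8000080000000088806860a) (nat_lit 0) (p (nat_lit 0x8000080000000068786058a) (nat_lit 0) (p (nat_lit 0x10687058502) (nat_lit 0) (p (nat_lit 0x8606850482) (nat_lit 0) (p (nat_lit 0x160004) (nat_lit 0) (p (nat_lit 0x68612) (nat_lit 0) (p (nat_lit 0x50592) (nat_lit 0) (p (nat_lit 0x40512) (nat_lit 0) (p (nat_lit 0x50312) (nat_lit 0) (p (nat_lit 0x38292) (nat_lit 0) (p (nat_lit 0x28212) (nat_lit 0) (p (nat_lit 0x38112) (nat_lit 0) (p (nat_lit 0x20092) (nat_lit 0) (p (nat_lit 0x10012) (nat_lit 0) pn))))))))))))))))))))))))))))))) :=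
  Cl.node (nat_lit 0x44c2a) (nat_lit 12) (by decide +kernel) (ClAll.succ (ClAll.succ (ClAll.succ (ClAll.succ (ClAll.succ (ClAll.succ (ClAll.succ (ClAll.succ (ClAll.succ (ClAll.succ (ClAll.succ (ClAll.succ ClAll.zero s882) s883) s884) s885) s886) s887) s888) s889) s890) s891) s892) s893)

def n264 : Cl (O (nat_lit 6)) (R (nat_lit 143633))
    (p (nat_lit 0x81) (nat_lit 1) (p (nat_lit 0x101) (nat_lit 1) (p (nat_lit 0x20000c) (nat_lit 0) (p (nat_lit 0xb0004) (nat_lit 0) (p (nat_lit 0x380c2) (nat_lit 0) (p (nat_lit 0x44c2a) (nat_lit 1) (p (nat_lit 0x111) (nat_lit 0) (p (nat_lit 0x101) (nat_lit 0) (p (nat_lit 0xc1) (nat_lit 1) (p (nat_lit 0x119) (nat_lit 1) (p (nat_lit 0xc9) (nat_lit 0) (p (nat_lit 0x89) (nat_lit 1) (p (nat_lit 0x41) (nat_lit 0) (p (nat_lit 0x10a898a08881a) (nat_lit 0) (p (nat_lit 0x8a090988079a) (nat_lit 0) (p (nat_lit 0x108088907871a) (nat_lit 0) (p (nat_lit 0x87880887069a)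 (nat_lit 0) (p (nat_lit 0x8000080000000088806860a) (nat_lit 0) (p (nat_lit 0x8000080000000068786058a) (nat_lit 0) (p (nat_lit 0x10687058502) (nat_lit 0) (p (nat_lit 0x8606850482) (nat_lit 0) (p (nat_lit 0x160004) (nat_lit 0) (p (nat_lit 0x68612) (nat_lit 0) (p (nat_lit 0x50592) (nat_lit 0) (p (nat_lit 0x40512) (nat_lit 0) (p (nat_lit 0x50312) (nat_lit 0) (p (nat_lit 0x38292) (nat_lit 0) (p (nat_lit 0x28212) (nat_lit 0) (p (nat_lit 0x38112) (nat_lit 0) (p (nat_lit 0x20092) (nat_lit 0) (p (nat_lit 0x10012) (nat_lit 0) pn))))))))))))))))))))))))))))))) :=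
  Cl.node (nat_lit 0xc1) (nat_lit 2) (by decide +kernel) (ClAll.succ (ClAll.succ ClAll.zero s946) s947)

def n265 : Cl (O (nat_lit 6)) (R (nat_lit 143633))
    (p (nat_lit 0x101) (nat_lit 0) (p (nat_lit 0x111) (nat_lit 0) (p (nat_lit 0x109) (nat_lit 0) (p (nat_lit 0xb0004) (nat_lit 0) (p (nat_lit 0x380c2) (nat_lit 0) (p (nat_lit 0x444aa) (nat_lit 7) (p (nat_lit 0x111) (nat_lit 1) (p (nat_lit 0x101) (nat_lit 0) (p (nat_lit 0xc1) (nat_lit 1) (p (nat_lit 0x119) (nat_lit 1) (p (nat_lit 0xc9) (nat_lit 0) (p (nat_lit 0x89) (nat_lit 1) (p (nat_lit 0x41) (nat_lit 0) (p (nat_lit 0x10a898a08881a) (nat_lit 0) (p (nat_lit 0x8a090988079a) (nat_lit 0) (p (nat_lit 0x108088907871a) (nat_lit 0) (p (nat_lit 0x87880887069a) (nat_lit 0) (p (nat_lit 0x8000080000000088806860a) (nat_lit 0) (p (nat_lit 0x8000080000000068786058a) (nat_lit 0) (p (nat_lit 0x10687058502) (nat_lit 0) (p (nat_lit 0x8606850482)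 (nat_lit 0) (p (nat_lit 0x160004) (nat_lit 0) (p (nat_lit 0x68612) (nat_lit 0) (p (nat_lit 0x50592) (nat_lit 0) (p (nat_lit 0x40512) (nat_lit 0) (p (nat_lit 0x50312) (nat_lit 0) (p (nat_lit 0x38292) (nat_lit 0) (p (nat_lit 0x28212) (nat_lit 0) (p (nat_lit 0x38112) (nat_lit 0) (p (nat_lit 0x20092) (nat_lit 0) (p (nat_lit 0x10012) (nat_lit 0) pn))))))))))))))))))))))))))))))) :=
  Cl.node (nat_lit 0x4c42a) (nat_lit 12) (by decide +kernel) (ClAll.succ (ClAll.succ (ClAll.succ (ClAll.succ (ClAll.succ (ClAll.succ (ClAll.succ (ClAll.succ (ClAll.succ (ClAll.succ (ClAll.succ (ClAll.succ ClAll.zero s967) s968) s969) s970) s971) s972) s973) s974) s975) s976) s977) s978)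

def n266 : Cl (O (nat_lit 6)) (R (nat_lit 143633))
    (p (nat_lit 0x101) (nat_lit 0) (p (nat_lit 0x111) (nat_lit 0) (p (nat_lit 0x109) (nat_lit 0) (p (nat_lit 0xb0004) (nat_lit 0) (p (nat_lit 0x380c2) (nat_lit 1) (p (nat_lit 0x444aa) (nat_lit 7) (p (nat_lit 0x111) (nat_lit 1) (p (nat_lit 0x101) (nat_lit 0) (p (nat_lit 0xc1) (nat_lit 1) (p (nat_lit 0x119) (nat_lit 1) (p (nat_lit 0xc9) (nat_lit 0) (p (nat_lit 0x89) (nat_lit 1) (p (nat_lit 0x41) (nat_lit 0) (p (nat_lit 0x10a898a08881a) (nat_lit 0) (p (nat_lit 0x8a090988079a) (nat_lit 0) (p (nat_lit 0x108088907871a) (nat_lit 0) (p (nat_lit 0x87880887069a) (nat_lit 0) (p (nat_lit 0x8000080000000088806860a) (nat_lit 0) (p (nat_lit 0x8000080000000068786058a) (nat_lit 0) (p (nat_lit 0x10687058502) (nat_lit 0) (p (nat_lit 0x8606850482) (nat_lit 0) (p (nat_lit 0x160004) (nat_lit 0) (p (nat_lit 0x68612) (nat_lit 0) (p (nat_lit 0x50592)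 (nat_lit 0) (p (nat_lit 0x40512) (nat_lit 0) (p (nat_lit 0x50312) (nat_lit 0) (p (nat_lit 0x38292) (nat_lit 0) (p (nat_lit 0x28212) (nat_lit 0) (p (nat_lit 0x38112) (nat_lit 0) (p (nat_lit 0x20092) (nat_lit 0) (p (nat_lit 0x10012) (nat_lit 0) pn))))))))))))))))))))))))))))))) :=
  Cl.node (nat_lit 0x20000c) (nat_lit 2) (by decide +kernel) (ClAll.succ (ClAll.succ ClAll.zero n209) s996)

def n267 : Cl (O (nat_lit 6)) (R (nat_lit 143633))
    (p (nat_lit 0x3c4aa) (nat_lit 7) (p (nat_lit 0x200014) (nat_lit 0) (p (nat_lit 0xc9) (nat_lit 1) (p (nat_lit 0x380c2) (nat_lit 0) (p (nat_lit 0x4c42a) (nat_lit 2) (p (nat_lit 0x111) (nat_lit 0) (p (nat_lit 0x89) (nat_lit 0) (p (nat_lit 0x109) (nat_lit 1) (p (nat_lit 0x101) (nat_lit 0) (p (nat_lit 0x119) (nat_lit 0) (p (nat_lit 0xd1) (nat_lit 0) (p (nat_lit 0x81) (nat_lit 0) (p (nat_lit 0x41) (nat_lit 1) (p (nat_lit 0x10a898a08881a) (nat_lit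 0) (p (nat_lit 0x8a090988079a) (nat_lit 0) (p (nat_lit 0x108088907871a) (nat_lit 0) (p (nat_lit 0x87880887069a) (nat_lit 0) (p (nat_lit 0x8000080000000088806860a) (nat_lit 0) (p (nat_lit 0x8000080000000068786058a) (nat_lit 0) (p (nat_lit 0x10687058502) (nat_lit 0) (p (nat_lit 0x8606850482) (nat_lit 0) (p (nat_lit 0x160004) (nat_lit 0) (p (nat_lit 0x68612) (nat_lit 0) (p (nat_lit 0x50592) (nat_lit 0) (p (nat_lit 0x40512) (nat_lit 0) (p (nat_lit 0x50312) (nat_lit 0) (p (nat_lit 0x38292) (nat_lit 0) (p (nat_lit 0x28212) (nat_lit 0) (p (nat_lit 0x38112) (nat_lit 0) (p (nat_lit 0x20092) (nat_lit 0) (p (nat_lit 0x10012) (nat_lit 0) pn))))))))))))))))))))))))))))))) :=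
  Cl.node (nat_lit 0x380c2) (nat_lit 2) (by decide +kernel) (ClAll.succ (ClAll.succ ClAll.zero s1059) s1060)

def n268 : Cl (O (nat_lit 6)) (R (nat_lit 143633))
    (p (nat_lit 0x3c4aa) (nat_lit 10) (p (nat_lit 0x200014) (nat_lit 0) (p (nat_lit 0xc9) (nat_lit 1) (p (nat_lit 0x380c2) (nat_lit 0) (p (nat_lit 0x4c42a) (nat_lit 2) (p (nat_lit 0x111) (nat_lit 0) (p (nat_lit 0x89) (nat_lit 0) (p (nat_lit 0x109) (nat_lit 1) (p (nat_lit 0x101) (nat_lit 0) (p (nat_lit 0x119) (nat_lit 0) (p (nat_lit 0xd1) (nat_lit 0) (p (nat_lit 0x81) (nat_lit 0) (p (nat_lit 0x41) (nat_lit 1) (p (nat_lit 0x10a898a08881a) (nat_lit 0) (p (nat_lit 0x8a090988079a) (nat_lit 0) (p (nat_lit 0x108088907871a) (nat_lit 0) (p (nat_lit 0x87880887069a) (nat_lit 0) (p (nat_lit 0x8000080000000088806860a) (nat_lit 0) (p (nat_lit 0x8000080000000068786058a) (nat_lit 0) (p (nat_lit 0x10687058502) (nat_lit 0) (p (nat_lit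 0x8606850482) (nat_lit 0) (p (nat_lit 0x160004) (nat_lit 0) (p (nat_lit 0x68612) (nat_lit 0) (p (nat_lit 0x50592) (nat_lit 0) (p (nat_lit 0x40512) (nat_lit 0) (p (nat_lit 0x50312) (nat_lit 0) (p (nat_lit 0x38292) (nat_lit 0) (p (nat_lit 0x28212) (nat_lit 0) (p (nat_lit 0x38112) (nat_lit 0) (p (nat_lit 0x20092) (nat_lit 0) (p (nat_lit 0x10012) (nat_lit 0) pn))))))))))))))))))))))))))))))) :=
  Cl.node (nat_lit 0x380c2) (nat_lit 2) (by decide +kernel) (ClAll.succ (ClAll.succ ClAll.zero s1063) s1064)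

def n269 : Cl (O (nat_lit 6)) (R (nat_lit 143633))
    (p (nat_lit 0xd1) (nat_lit 1) (p (nat_lit 0xb0004) (nat_lit 0) (p (nat_lit 0x111) (nat_lit 1) (p (nat_lit 0x380c2) (nat_lit 0) (p (nat_lit 0x4c42a) (nat_lit 2) (p (nat_lit 0xc9) (nat_lit 0) (p (nat_lit 0x89) (nat_lit 1) (p (nat_lit 0x109) (nat_lit 1) (p (nat_lit 0x101) (nat_lit 0) (p (nat_lit 0x119) (nat_lit 0) (p (nat_lit 0xd1) (nat_lit 0) (p (nat_lit 0x81) (nat_lit 0) (p (nat_lit 0x41) (nat_lit 1) (p (nat_lit 0x10a898a08881a) (nat_lit 0) (p (nat_lit 0x8a090988079a) (nat_lit 0) (p (nat_lit 0x108088907871a) (nat_lit 0) (p (nat_lit 0x87880887069a) (nat_lit 0) (p (nat_lit 0x8000080000000088806860a) (nat_lit 0) (p (nat_lit 0x8000080000000068786058a) (nat_lit 0) (p (nat_lit 0x10687058502) (nat_lit 0) (p (nat_lit 0x8606850482) (nat_lit 0) (p (nat_lit 0x160004) (nat_lit 0) (p (nat_lit 0x68612) (nat_lit 0) (p (nat_lit 0x50592)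 (nat_lit 0) (p (nat_lit 0x40512) (nat_lit 0) (p (nat_lit 0x50312) (nat_lit 0) (p (nat_lit 0x38292) (nat_lit 0) (p (nat_lit 0x28212) (nat_lit 0) (p (nat_lit 0x38112) (nat_lit 0) (p (nat_lit 0x20092) (nat_lit 0) (p (nat_lit 0x10012) (nat_lit 0) pn))))))))))))))))))))))))))))))) :=
  Cl.node (nat_lit 0x3c4aa) (nat_lit 12) (by decide +kernel) (ClAll.succ (ClAll.succ (ClAll.succ (ClAll.succ (ClAll.succ (ClAll.succ (ClAll.succ (ClAll.succ (ClAll.succ (ClAll.succ (ClAll.succ (ClAll.succ ClAll.zero s1099) s1100) s1101) s1102) s1103) s1104) s1105) s1106) s1107) s1108) s1109) s1110)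

def n270 : Cl (O (nat_lit 6)) (R (nat_lit 143633))
    (p (nat_lit 0x3c4aa) (nat_lit 7) (p (nat_lit 0xd1) (nat_lit 1) (p (nat_lit 0x200014) (nat_lit 0) (p (nat_lit 0x380c2) (nat_lit 0) (p (nat_lit 0x4c42a) (nat_lit 2) (p (nat_lit 0xc9) (nat_lit 0) (p (nat_lit 0x89) (nat_lit 1) (p (nat_lit 0xc1) (nat_lit 0) (p (nat_lit 0x101) (nat_lit 1) (p (nat_lit 0x119) (nat_lit 0) (p (nat_lit 0xd1) (nat_lit 0) (p (nat_lit 0x81) (nat_lit 0) (p (nat_lit 0x41) (nat_lit 1) (p (nat_lit 0x10a898a08881a) (nat_lit 0) (p (nat_lit 0x8a090988079a) (nat_lit 0) (p (nat_lit 0x108088907871a) (nat_lit 0) (p (nat_lit 0x87880887069a) (nat_lit 0) (p (nat_lit 0x8000080000000088806860a) (nat_lit 0) (p (nat_lit 0x8000080000000068786058a) (nat_lit 0) (p (nat_lit 0x10687058502) (nat_lit 0) (p (nat_lit 0x8606850482) (nat_lit 0) (p (nat_lit 0x160004) (nat_lit 0) (p (nat_lit 0x68612) (nat_lit 0) (p (nat_lit 0x50592)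 (nat_lit 0) (p (nat_lit 0x40512) (nat_lit 0) (p (nat_lit 0x50312) (nat_lit 0) (p (nat_lit 0x38292) (nat_lit 0) (p (nat_lit 0x28212) (nat_lit 0) (p (nat_lit 0x38112) (nat_lit 0) (p (nat_lit 0x20092) (nat_lit 0) (p (nat_lit 0x10012) (nat_lit 0) pn))))))))))))))))))))))))))))))) :=
  Cl.node (nat_lit 0x380c2) (nat_lit 2) (by decide +kernel) (ClAll.succ (ClAll.succ ClAll.zero n210) s1153)

def n271 : Cl (O (nat_lit 6)) (R (nat_lit 143633))
    (p (nat_lit 0x200014) (nat_lit 0) (p (nat_lit 0x20000c) (nat_lit 0) (p (nat_lit 0xb0004) (nat_lit 0) (p (nat_lit 0x380c2) (nat_lit 1) (p (nat_lit 0x3c4aa) (nat_lit 7) (p (nat_lit 0x109) (nat_lit 1) (p (nat_lit 0x89) (nat_lit 1) (p (nat_lit 0x101) (nat_lit 0) (p (nat_lit 0xc1) (nat_lit 1) (p (nat_lit 0x119) (nat_lit 1) (p (nat_lit 0xd1) (nat_lit 0) (p (nat_lit 0x81) (nat_lit 0) (p (nat_lit 0x41) (nat_lit 1) (p (nat_lit 0x10a898a08881a) (nat_lit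 0) (p (nat_lit 0x8a090988079a) (nat_lit 0) (p (nat_lit 0x108088907871a) (nat_lit 0) (p (nat_lit 0x87880887069a) (nat_lit 0) (p (nat_lit 0x8000080000000088806860a) (nat_lit 0) (p (nat_lit 0x8000080000000068786058a) (nat_lit 0) (p (nat_lit 0x10687058502) (nat_lit 0) (p (nat_lit 0x8606850482) (nat_lit 0) (p (nat_lit 0x160004) (nat_lit 0) (p (nat_lit 0x68612) (nat_lit 0) (p (nat_lit 0x50592) (nat_lit 0) (p (nat_lit 0x40512) (nat_lit 0) (p (nat_lit 0x50312) (nat_lit 0) (p (nat_lit 0x38292) (nat_lit 0) (p (nat_lit 0x28212) (nat_lit 0) (p (nat_lit 0x38112) (nat_lit 0) (p (nat_lit 0x20092) (nat_lit 0) (p (nat_lit 0x10012) (nat_lit 0) pn))))))))))))))))))))))))))))))) :=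
  Cl.node (nat_lit 0x10000c) (nat_lit 2) (by decide +kernel) (ClAll.succ (ClAll.succ ClAll.zero n211) s1289)

def n272 : Cl (O (nat_lit 6)) (R (nat_lit 143633))
    (p (nat_lit 0x10000c) (nat_lit 0) (p (nat_lit 0x200014) (nat_lit 0) (p (nat_lit 0x20000c) (nat_lit 0) (p (nat_lit 0xb0004) (nat_lit 0) (p (nat_lit 0x380c2) (nat_lit 0) (p (nat_lit 0x3c4aa) (nat_lit 7) (p (nat_lit 0x89) (nat_lit 1) (p (nat_lit 0x101) (nat_lit 1) (p (nat_lit 0xc1) (nat_lit 1) (p (nat_lit 0x119) (nat_lit 1) (p (nat_lit 0xd1) (nat_lit 0) (p (nat_lit 0x81) (nat_lit 0) (p (nat_lit 0x41) (nat_lit 1) (p (nat_lit 0x10a898a08881a) (nat_lit 0) (p (nat_lit 0x8a090988079a) (nat_lit 0) (p (nat_lit 0x108088907871a) (nat_lit 0) (p (nat_lit 0x87880887069a) (nat_lit 0) (p (nat_lit 0x8000080000000088806860a) (nat_lit 0) (p (nat_lit 0x8000080000000068786058a) (nat_lit 0) (p (nat_lit 0x10687058502) (nat_lit 0) (p (nat_lit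 0x8606850482) (nat_lit 0) (p (nat_lit 0x160004) (nat_lit 0) (p (nat_lit 0x68612) (nat_lit 0) (p (nat_lit 0x50592) (nat_lit 0) (p (nat_lit 0x40512) (nat_lit 0) (p (nat_lit 0x50312) (nat_lit 0) (p (nat_lit 0x38292) (nat_lit 0) (p (nat_lit 0x28212) (nat_lit 0) (p (nat_lit 0x38112) (nat_lit 0) (p (nat_lit 0x20092) (nat_lit 0) (p (nat_lit 0x10012) (nat_lit 0) pn))))))))))))))))))))))))))))))) :=
  Cl.node (nat_lit 0x101) (nat_lit 2) (by decide +kernel) (ClAll.succ (ClAll.succ ClAll.zero n212) s1335)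

def n273 : Cl (O (nat_lit 6)) (R (nat_lit 143633))
    (p (nat_lit 0x10000c) (nat_lit 0) (p (nat_lit 0x1fc014) (nat_lit 0) (p (nat_lit 0x1fc00c) (nat_lit 0) (p (nat_lit 0xb0004) (nat_lit 1) (p (nat_lit 0x380c2) (nat_lit 0) (p (nat_lit 0x3c4aa) (nat_lit 7) (p (nat_lit 0x89) (nat_lit 1) (p (nat_lit 0x101) (nat_lit 1) (p (nat_lit 0xc1) (nat_lit 1) (p (nat_lit 0x119) (nat_lit 1) (p (nat_lit 0xd1) (nat_lit 0) (p (nat_lit 0x81) (nat_lit 0) (p (nat_lit 0x41) (nat_lit 1) (p (nat_lit 0x10a898a08881a) (nat_lit 0) (p (nat_lit 0x8a090988079a) (nat_lit 0) (p (nat_lit 0x108088907871a) (nat_lit 0) (p (nat_lit 0x87880887069a) (nat_lit 0) (p (nat_lit 0x8000080000000088806860a) (nat_lit 0) (p (nat_lit 0x8000080000000068786058a) (nat_lit 0) (p (nat_lit 0x10687058502) (nat_lit 0) (p (nat_lit 0x8606850482) (nat_lit 0) (p (nat_lit 0x160004) (nat_lit 0) (p (nat_lit 0x68612) (nat_lit 0) (p (nat_lit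 0x50592) (nat_lit 0) (p (nat_lit 0x40512) (nat_lit 0) (p (nat_lit 0x50312) (nat_lit 0) (p (nat_lit 0x38292) (nat_lit 0) (p (nat_lit 0x28212) (nat_lit 0) (p (nat_lit 0x38112) (nat_lit 0) (p (nat_lit 0x20092) (nat_lit 0) (p (nat_lit 0x10012) (nat_lit 0) pn))))))))))))))))))))))))))))))) :=
  Cl.node (nat_lit 0x100014) (nat_lit 2) (by decide +kernel) (ClAll.succ (ClAll.succ ClAll.zero n213) s1341)

def n274 : Cl (O (nat_lit 6)) (R (nat_lit 143633))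
    (p (nat_lit 0x10000c) (nat_lit 0) (p (nat_lit 0x200014) (nat_lit 0) (p (nat_lit 0x20000c) (nat_lit 0) (p (nat_lit 0xb0004) (nat_lit 0) (p (nat_lit 0x380c2) (nat_lit 1) (p (nat_lit 0x3c4aa) (nat_lit 7) (p (nat_lit 0x89) (nat_lit 1) (p (nat_lit 0x101) (nat_lit 1) (p (nat_lit 0xc1) (nat_lit 1) (p (nat_lit 0x119) (nat_lit 1) (p (nat_lit 0xd1) (nat_lit 0) (p (nat_lit 0x81) (nat_lit 0) (p (nat_lit 0x41) (nat_lit 1) (p (nat_lit 0x10a898a08881a) (nat_lit 0) (p (nat_lit 0x8a090988079a) (nat_lit 0) (p (nat_lit 0x108088907871a) (nat_lit 0) (p (nat_lit 0x87880887069a) (nat_lit 0) (p (nat_lit 0x8000080000000088806860a) (nat_lit 0) (p (nat_lit 0x8000080000000068786058a) (nat_lit 0) (p (nat_lit 0x10687058502) (nat_lit 0) (p (nat_lit 0x8606850482) (nat_lit 0) (p (nat_lit 0x160004) (nat_lit 0) (p (nat_lit 0x68612) (nat_lit 0) (p (nat_lit 0x50592) (nat_lit 0) (p (nat_lit 0x40512) (nat_lit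 0) (p (nat_lit 0x50312) (nat_lit 0) (p (nat_lit 0x38292) (nat_lit 0) (p (nat_lit 0x28212) (nat_lit 0) (p (nat_lit 0x38112) (nat_lit 0) (p (nat_lit 0x20092) (nat_lit 0) (p (nat_lit 0x10012) (nat_lit 0) pn))))))))))))))))))))))))))))))) :=
  Cl.node (nat_lit 0x101) (nat_lit 2) (by decide +kernel) (ClAll.succ (ClAll.succ ClAll.zero s1345) s1346)

def n275 : Cl (O (nat_lit 6)) (R (nat_lit 143633))
    (p (nat_lit 0x100014) (nat_lit 0) (p (nat_lit 0x10000c) (nat_lit 0) (p (nat_lit 0x20000c) (nat_lit 0) (p (nat_lit 0x200014) (nat_lit 0) (p (nat_lit 0x380c2) (nat_lit 0) (p (nat_lit 0x3cc2a) (nat_lit 11) (p (nat_lit 0xc9) (nat_lit 0) (p (nat_lit 0x89) (nat_lit 1) (p (nat_lit 0x101) (nat_lit 1) (p (nat_lit 0x111) (nat_lit 0) (p (nat_lit 0xd1) (nat_lit 1) (p (nat_lit 0x81) (nat_lit 0) (p (nat_lit 0x41) (nat_lit 1) (p (nat_lit 0x10a898a08881a) (nat_lit 0) (p (nat_lit 0x8a090988079a) (nat_lit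 0) (p (nat_lit 0x108088907871a) (nat_lit 0) (p (nat_lit 0x87880887069a) (nat_lit 0) (p (nat_lit 0x8000080000000088806860a) (nat_lit 0) (p (nat_lit 0x8000080000000068786058a) (nat_lit 0) (p (nat_lit 0x10687058502) (nat_lit 0) (p (nat_lit 0x8606850482) (nat_lit 0) (p (nat_lit 0x160004) (nat_lit 0) (p (nat_lit 0x68612) (nat_lit 0) (p (nat_lit 0x50592) (nat_lit 0) (p (nat_lit 0x40512) (nat_lit 0) (p (nat_lit 0x50312) (nat_lit 0) (p (nat_lit 0x38292) (nat_lit 0) (p (nat_lit 0x28212) (nat_lit 0) (p (nat_lit 0x38112) (nat_lit 0) (p (nat_lit 0x20092) (nat_lit 0) (p (nat_lit 0x10012) (nat_lit 0) pn))))))))))))))))))))))))))))))) :=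
  Cl.node (nat_lit 0x41) (nat_lit 2) (by decide +kernel) (ClAll.succ (ClAll.succ ClAll.zero s1446) s1447)

def n276 : Cl (O (nat_lit 6)) (R (nat_lit 143633))
    (p (nat_lit 0x200014) (nat_lit 0) (p (nat_lit 0x20000c) (nat_lit 0) (p (nat_lit 0xb0004) (nat_lit 0) (p (nat_lit 0x380c2) (nat_lit 0) (p (nat_lit 0x3c4aa) (nat_lit 7) (p (nat_lit 0xd1) (nat_lit 1) (p (nat_lit 0x111) (nat_lit 1) (p (nat_lit 0x109) (nat_lit 0) (p (nat_lit 0x101) (nat_lit 0) (p (nat_lit 0x119) (nat_lit 0) (p (nat_lit 0xc1) (nat_lit 0) (p (nat_lit 0x81) (nat_lit 1) (p (nat_lit 0x41) (nat_lit 1) (p (nat_lit 0x10a898a08881a) (nat_lit 0) (p (nat_lit 0x8a090988079a) (nat_lit 0) (p (nat_lit 0x108088907871a) (nat_lit 0) (p (nat_lit 0x87880887069a) (nat_lit 0) (p (nat_lit 0x8000080000000088806860a) (nat_lit 0) (p (nat_lit 0x8000080000000068786058a) (nat_lit 0) (p (nat_lit 0x10687058502) (nat_lit 0) (p (nat_lit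 0x8606850482) (nat_lit 0) (p (nat_lit 0x160004) (nat_lit 0) (p (nat_lit 0x68612) (nat_lit 0) (p (nat_lit 0x50592) (nat_lit 0) (p (nat_lit 0x40512) (nat_lit 0) (p (nat_lit 0x50312) (nat_lit 0) (p (nat_lit 0x38292) (nat_lit 0) (p (nat_lit 0x28212) (nat_lit 0) (p (nat_lit 0x38112) (nat_lit 0) (p (nat_lit 0x20092) (nat_lit 0) (p (nat_lit 0x10012) (nat_lit 0) pn))))))))))))))))))))))))))))))) :=
  Cl.node (nat_lit 0x10000c) (nat_lit 2) (by decide +kernel) (ClAll.succ (ClAll.succ ClAll.zero n214) s1495)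

def n277 : Cl (O (nat_lit 6)) (R (nat_lit 143633))
    (p (nat_lit 0x1fc014) (nat_lit 0) (p (nat_lit 0x1fc00c) (nat_lit 0) (p (nat_lit 0xb0004) (nat_lit 1) (p (nat_lit 0x380c2) (nat_lit 0) (p (nat_lit 0x3c4aa) (nat_lit 7) (p (nat_lit 0xd1) (nat_lit 1) (p (nat_lit 0x111) (nat_lit 1) (p (nat_lit 0x109) (nat_lit 0) (p (nat_lit 0x101) (nat_lit 0) (p (nat_lit 0x119) (nat_lit 0) (p (nat_lit 0xc1) (nat_lit 0) (p (nat_lit 0x81) (nat_lit 1) (p (nat_lit 0x41) (nat_lit 1) (p (nat_lit 0x10a898a08881a) (nat_lit 0) (p (nat_lit 0x8a090988079a) (nat_lit 0) (p (nat_lit 0x108088907871a) (nat_lit 0) (p (nat_lit 0x87880887069a) (nat_lit 0) (p (nat_lit 0x8000080000000088806860a) (nat_lit 0) (p (nat_lit 0x8000080000000068786058a) (nat_lit 0) (p (nat_lit 0x10687058502) (nat_lit 0) (p (nat_lit 0x8606850482) (nat_lit 0) (p (nat_lit 0x160004) (nat_lit 0) (p (nat_lit 0x68612) (nat_lit 0) (p (nat_lit 0x50592)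 (nat_lit 0) (p (nat_lit 0x40512) (nat_lit 0) (p (nat_lit 0x50312) (nat_lit 0) (p (nat_lit 0x38292) (nat_lit 0) (p (nat_lit 0x28212) (nat_lit 0) (p (nat_lit 0x38112) (nat_lit 0) (p (nat_lit 0x20092) (nat_lit 0) (p (nat_lit 0x10012) (nat_lit 0) pn))))))))))))))))))))))))))))))) :=
  Cl.node (nat_lit 0x10000c) (nat_lit 2) (by decide +kernel) (ClAll.succ (ClAll.succ ClAll.zero n215) s1533)

def n278 : Cl (O (nat_lit 6)) (R (nat_lit 143633))
    (p (nat_lit 0x200014) (nat_lit 0) (p (nat_lit 0x20000c) (nat_lit 0) (p (nat_lit 0xb0004) (nat_lit 0) (p (nat_lit 0x380c2) (nat_lit 1) (p (nat_lit 0x3c4aa) (nat_lit 7) (p (nat_lit 0xd1) (nat_lit 1) (p (nat_lit 0x111) (nat_lit 1) (p (nat_lit 0x109) (nat_lit 0) (p (nat_lit 0x101) (nat_lit 0) (p (nat_lit 0x119) (nat_lit 0) (p (nat_lit 0xc1) (nat_lit 0) (p (nat_lit 0x81) (nat_lit 1) (p (nat_lit 0x41) (nat_lit 1) (p (nat_lit 0x10a898a08881a) (nat_lit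 0) (p (nat_lit 0x8a090988079a) (nat_lit 0) (p (nat_lit 0x108088907871a) (nat_lit 0) (p (nat_lit 0x87880887069a) (nat_lit 0) (p (nat_lit 0x8000080000000088806860a) (nat_lit 0) (p (nat_lit 0x8000080000000068786058a) (nat_lit 0) (p (nat_lit 0x10687058502) (nat_lit 0) (p (nat_lit 0x8606850482) (nat_lit 0) (p (nat_lit 0x160004) (nat_lit 0) (p (nat_lit 0x68612) (nat_lit 0) (p (nat_lit 0x50592) (nat_lit 0) (p (nat_lit 0x40512) (nat_lit 0) (p (nat_lit 0x50312) (nat_lit 0) (p (nat_lit 0x38292) (nat_lit 0) (p (nat_lit 0x28212) (nat_lit 0) (p (nat_lit 0x38112) (nat_lit 0) (p (nat_lit 0x20092) (nat_lit 0) (p (nat_lit 0x10012) (nat_lit 0) pn))))))))))))))))))))))))))))))) :=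
  Cl.node (nat_lit 0x100014) (nat_lit 2) (by decide +kernel) (ClAll.succ (ClAll.succ ClAll.zero n216) s1549)

def n279 : Cl (O (nat_lit 6)) (R (nat_lit 143633))
    (p (nat_lit 0x1fc014) (nat_lit 0) (p (nat_lit 0x1fc00c) (nat_lit 0) (p (nat_lit 0xb0004) (nat_lit 1) (p (nat_lit 0x380c2) (nat_lit 1) (p (nat_lit 0x3c4aa) (nat_lit 7) (p (nat_lit 0xd1) (nat_lit 1) (p (nat_lit 0x111) (nat_lit 1) (p (nat_lit 0x109) (nat_lit 0) (p (nat_lit 0x101) (nat_lit 0) (p (nat_lit 0x119) (nat_lit 0) (p (nat_lit 0xc1) (nat_lit 0) (p (nat_lit 0x81) (nat_lit 1) (p (nat_lit 0x41) (nat_lit 1) (p (nat_lit 0x10a898a08881a) (nat_lit 0) (p (nat_lit 0x8a090988079a) (nat_lit 0) (p (nat_lit 0x108088907871a) (nat_lit 0) (p (nat_lit 0x87880887069a) (nat_lit 0) (p (nat_lit 0x8000080000000088806860a) (nat_lit 0) (p (nat_lit 0x8000080000000068786058a) (nat_lit 0) (p (nat_lit 0x10687058502) (nat_lit 0) (p (nat_lit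 0x8606850482) (nat_lit 0) (p (nat_lit 0x160004) (nat_lit 0) (p (nat_lit 0x68612) (nat_lit 0) (p (nat_lit 0x50592) (nat_lit 0) (p (nat_lit 0x40512) (nat_lit 0) (p (nat_lit 0x50312) (nat_lit 0) (p (nat_lit 0x38292) (nat_lit 0) (p (nat_lit 0x28212) (nat_lit 0) (p (nat_lit 0x38112) (nat_lit 0) (p (nat_lit 0x20092) (nat_lit 0) (p (nat_lit 0x10012) (nat_lit 0) pn))))))))))))))))))))))))))))))) :=
  Cl.node (nat_lit 0x10000c) (nat_lit 2) (by decide +kernel) (ClAll.succ (ClAll.succ ClAll.zero n217) s1559)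

def n280 : Cl (O (nat_lit 6)) (R (nat_lit 143633))
    (p (nat_lit 0x200014) (nat_lit 0) (p (nat_lit 0x20000c) (nat_lit 0) (p (nat_lit 0xb0004) (nat_lit 0) (p (nat_lit 0x380c2) (nat_lit 0) (p (nat_lit 0x3c4aa) (nat_lit 7) (p (nat_lit 0xd1) (nat_lit 1) (p (nat_lit 0xc9) (nat_lit 0) (p (nat_lit 0x109) (nat_lit 1) (p (nat_lit 0x101) (nat_lit 0) (p (nat_lit 0x119) (nat_lit 0) (p (nat_lit 0xc1) (nat_lit 0) (p (nat_lit 0x81) (nat_lit 1) (p (nat_lit 0x41) (nat_lit 1) (p (nat_lit 0x10a898a08881a) (nat_lit 0) (p (nat_lit 0x8a090988079a) (nat_lit 0) (p (nat_lit 0x108088907871a) (nat_lit 0) (p (nat_lit 0x87880887069a) (nat_lit 0) (p (nat_lit 0x8000080000000088806860a) (nat_lit 0) (p (nat_lit 0x8000080000000068786058a) (nat_lit 0) (p (nat_lit 0x10687058502) (nat_lit 0) (p (nat_lit 0x8606850482) (nat_lit 0) (p (nat_lit 0x160004) (nat_lit 0) (p (nat_lit 0x68612) (nat_lit 0) (p (nat_lit 0x50592)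 (nat_lit 0) (p (nat_lit 0x40512) (nat_lit 0) (p (nat_lit 0x50312) (nat_lit 0) (p (nat_lit 0x38292) (nat_lit 0) (p (nat_lit 0x28212) (nat_lit 0) (p (nat_lit 0x38112) (nat_lit 0) (p (nat_lit 0x20092) (nat_lit 0) (p (nat_lit 0x10012) (nat_lit 0) pn))))))))))))))))))))))))))))))) :=
  Cl.node (nat_lit 0x119) (nat_lit 2) (by decide +kernel) (ClAll.succ (ClAll.succ ClAll.zero s1574) n218)

def n281 : Cl (O (nat_lit 6)) (R (nat_lit 143633))
    (p (nat_lit 0x200014) (nat_lit 0) (p (nat_lit 0x20000c) (nat_lit 0) (p (nat_lit 0xb0004) (nat_lit 0) (p (nat_lit 0x380c2) (nat_lit 1) (p (nat_lit 0x3c4aa) (nat_lit 7) (p (nat_lit 0xd1) (nat_lit 1) (p (nat_lit 0xc9) (nat_lit 0) (p (nat_lit 0x109) (nat_lit 1) (p (nat_lit 0x101) (nat_lit 0) (p (nat_lit 0x119) (nat_lit 0) (p (nat_lit 0xc1) (nat_lit 0) (p (nat_lit 0x81) (nat_lit 1) (p (nat_lit 0x41) (nat_lit 1) (p (nat_lit 0x10a898a08881a) (nat_lit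 0) (p (nat_lit 0x8a090988079a) (nat_lit 0) (p (nat_lit 0x108088907871a) (nat_lit 0) (p (nat_lit 0x87880887069a) (nat_lit 0) (p (nat_lit 0x8000080000000088806860a) (nat_lit 0) (p (nat_lit 0x8000080000000068786058a) (nat_lit 0) (p (nat_lit 0x10687058502) (nat_lit 0) (p (nat_lit 0x8606850482) (nat_lit 0) (p (nat_lit 0x160004) (nat_lit 0) (p (nat_lit 0x68612) (nat_lit 0) (p (nat_lit 0x50592) (nat_lit 0) (p (nat_lit 0x40512) (nat_lit 0) (p (nat_lit 0x50312) (nat_lit 0) (p (nat_lit 0x38292) (nat_lit 0) (p (nat_lit 0x28212) (nat_lit 0) (p (nat_lit 0x38112) (nat_lit 0) (p (nat_lit 0x20092) (nat_lit 0) (p (nat_lit 0x10012) (nat_lit 0) pn))))))))))))))))))))))))))))))) :=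
  Cl.node (nat_lit 0x119) (nat_lit 2) (by decide +kernel) (ClAll.succ (ClAll.succ ClAll.zero s1590) n219)

def n282 : Cl (O (nat_lit 6)) (R (nat_lit 143633))
    (p (nat_lit 0xc1) (nat_lit 0) (p (nat_lit 0x200014) (nat_lit 0) (p (nat_lit 0x20000c) (nat_lit 0) (p (nat_lit 0xb0004) (nat_lit 0) (p (nat_lit 0x380c2) (nat_lit 0) (p (nat_lit 0x3c4aa) (nat_lit 7) (p (nat_lit 0xd1) (nat_lit 1) (p (nat_lit 0xc9) (nat_lit 0) (p (nat_lit 0x101) (nat_lit 1) (p (nat_lit 0x119) (nat_lit 0) (p (nat_lit 0xc1) (nat_lit 0) (p (nat_lit 0x81) (nat_lit 1) (p (nat_lit 0x41) (nat_lit 1) (p (nat_lit 0x10a898a08881a) (nat_lit 0) (p (nat_lit 0x8a090988079a) (nat_lit 0) (p (nat_lit 0x108088907871a) (nat_lit 0) (p (nat_lit 0x87880887069a) (nat_lit 0) (p (nat_lit 0x8000080000000088806860a) (nat_lit 0) (p (nat_lit 0x8000080000000068786058a) (nat_lit 0) (p (nat_lit 0x10687058502) (nat_lit 0) (p (nat_lit 0x8606850482)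 (nat_lit 0) (p (nat_lit 0x160004) (nat_lit 0) (p (nat_lit 0x68612) (nat_lit 0) (p (nat_lit 0x50592) (nat_lit 0) (p (nat_lit 0x40512) (nat_lit 0) (p (nat_lit 0x50312) (nat_lit 0) (p (nat_lit 0x38292) (nat_lit 0) (p (nat_lit 0x28212) (nat_lit 0) (p (nat_lit 0x38112) (nat_lit 0) (p (nat_lit 0x20092) (nat_lit 0) (p (nat_lit 0x10012) (nat_lit 0) pn))))))))))))))))))))))))))))))) :=
  Cl.node (nat_lit 0xd1) (nat_lit 2) (by decide +kernel) (ClAll.succ (ClAll.succ ClAll.zero n220) s1649)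

def n283 : Cl (O (nat_lit 6)) (R (nat_lit 143633))
    (p (nat_lit 0x10000c) (nat_lit 0) (p (nat_lit 0x1fc014) (nat_lit 0) (p (nat_lit 0x1fc00c) (nat_lit 0) (p (nat_lit 0xb0004) (nat_lit 1) (p (nat_lit 0x380c2) (nat_lit 0) (p (nat_lit 0x3c4aa) (nat_lit 7) (p (nat_lit 0xd1) (nat_lit 1) (p (nat_lit 0xc9) (nat_lit 0) (p (nat_lit 0x101) (nat_lit 1) (p (nat_lit 0x119) (nat_lit 0) (p (nat_lit 0xc1) (nat_lit 0) (p (nat_lit 0x81) (nat_lit 1) (p (nat_lit 0x41) (nat_lit 1) (p (nat_lit 0x10a898a08881a) (nat_lit 0) (p (nat_lit 0x8a090988079a) (nat_lit 0) (p (nat_lit 0x108088907871a) (nat_lit 0) (p (nat_lit 0x87880887069a) (nat_lit 0) (p (nat_lit 0x8000080000000088806860a) (nat_lit 0) (p (nat_lit 0x8000080000000068786058a) (nat_lit 0) (p (nat_lit 0x10687058502) (nat_lit 0) (p (nat_lit 0x8606850482) (nat_lit 0) (p (nat_lit 0x160004) (nat_lit 0) (p (nat_lit 0x68612) (nat_lit 0) (p (nat_lit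 0x50592) (nat_lit 0) (p (nat_lit 0x40512) (nat_lit 0) (p (nat_lit 0x50312) (nat_lit 0) (p (nat_lit 0x38292) (nat_lit 0) (p (nat_lit 0x28212) (nat_lit 0) (p (nat_lit 0x38112) (nat_lit 0) (p (nat_lit 0x20092) (nat_lit 0) (p (nat_lit 0x10012) (nat_lit 0) pn))))))))))))))))))))))))))))))) :=
  Cl.node (nat_lit 0x100014) (nat_lit 2) (by decide +kernel) (ClAll.succ (ClAll.succ ClAll.zero n221) s1659)

def n284 : Cl (O (nat_lit 6)) (R (nat_lit 143633))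
    (p (nat_lit 0x100014) (nat_lit 0) (p (nat_lit 0xb0004) (nat_lit 0) (p (nat_lit 0x200014) (nat_lit 0) (p (nat_lit 0x20000c) (nat_lit 0) (p (nat_lit 0x380c2) (nat_lit 1) (p (nat_lit 0x3c4aa) (nat_lit 7) (p (nat_lit 0xd1) (nat_lit 1) (p (nat_lit 0xc9) (nat_lit 0) (p (nat_lit 0x101) (nat_lit 1) (p (nat_lit 0x119) (nat_lit 0) (p (nat_lit 0xc1) (nat_lit 0) (p (nat_lit 0x81) (nat_lit 1) (p (nat_lit 0x41) (nat_lit 1) (p (nat_lit 0x10a898a08881a) (nat_lit 0) (p (nat_lit 0x8a090988079a) (nat_lit 0) (p (nat_lit 0x108088907871a) (nat_lit 0) (p (nat_lit 0x87880887069a) (nat_lit 0) (p (nat_lit 0x8000080000000088806860a) (nat_lit 0) (p (nat_lit 0x8000080000000068786058a) (nat_lit 0) (p (nat_lit 0x10687058502) (nat_lit 0) (p (nat_lit 0x8606850482) (nat_lit 0) (p (nat_lit 0x160004) (nat_lit 0) (p (nat_lit 0x68612) (nat_lit 0) (p (nat_lit 0x50592) (nat_lit 0) (p (nat_lit 0x40512) (nat_lit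 0) (p (nat_lit 0x50312) (nat_lit 0) (p (nat_lit 0x38292) (nat_lit 0) (p (nat_lit 0x28212) (nat_lit 0) (p (nat_lit 0x38112) (nat_lit 0) (p (nat_lit 0x20092) (nat_lit 0) (p (nat_lit 0x10012) (nat_lit 0) pn))))))))))))))))))))))))))))))) :=
  Cl.node (nat_lit 0x10000c) (nat_lit 2) (by decide +kernel) (ClAll.succ (ClAll.succ ClAll.zero n222) s1680)

def n285 : Cl (O (nat_lit 6)) (R (nat_lit 143633))
    (p (nat_lit 0x10000c) (nat_lit 0) (p (nat_lit 0x1fc014) (nat_lit 0) (p (nat_lit 0x1fc00c) (nat_lit 0) (p (nat_lit 0xb0004) (nat_lit 1) (p (nat_lit 0x380c2) (nat_lit 0) (p (nat_lit 0x3c4aa) (nat_lit 7) (p (nat_lit 0x111) (nat_lit 1) (p (nat_lit 0xd1) (nat_lit 1) (p (nat_lit 0xc9) (nat_lit 0) (p (nat_lit 0x119) (nat_lit 1) (p (nat_lit 0xc1) (nat_lit 0) (p (nat_lit 0x81) (nat_lit 1) (p (nat_lit 0x41) (nat_lit 1) (p (nat_lit 0x10a898a08881a) (nat_lit 0) (p (nat_lit 0x8a090988079a) (nat_lit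 0) (p (nat_lit 0x108088907871a) (nat_lit 0) (p (nat_lit 0x87880887069a) (nat_lit 0) (p (nat_lit 0x8000080000000088806860a) (nat_lit 0) (p (nat_lit 0x8000080000000068786058a) (nat_lit 0) (p (nat_lit 0x10687058502) (nat_lit 0) (p (nat_lit 0x8606850482) (nat_lit 0) (p (nat_lit 0x160004) (nat_lit 0) (p (nat_lit 0x68612) (nat_lit 0) (p (nat_lit 0x50592) (nat_lit 0) (p (nat_lit 0x40512) (nat_lit 0) (p (nat_lit 0x50312) (nat_lit 0) (p (nat_lit 0x38292) (nat_lit 0) (p (nat_lit 0x28212) (nat_lit 0) (p (nat_lit 0x38112) (nat_lit 0) (p (nat_lit 0x20092) (nat_lit 0) (p (nat_lit 0x10012) (nat_lit 0) pn))))))))))))))))))))))))))))))) :=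
  Cl.node (nat_lit 0x100014) (nat_lit 2) (by decide +kernel) (ClAll.succ (ClAll.succ ClAll.zero n223) s1703)

def n286 : Cl (O (nat_lit 6)) (R (nat_lit 143633))
    (p (nat_lit 0x101) (nat_lit 0) (p (nat_lit 0x200014) (nat_lit 0) (p (nat_lit 0xb0004) (nat_lit 0) (p (nat_lit 0x20000c) (nat_lit 0) (p (nat_lit 0x380c2) (nat_lit 1) (p (nat_lit 0x3c4aa) (nat_lit 7) (p (nat_lit 0x111) (nat_lit 1) (p (nat_lit 0xd1) (nat_lit 1) (p (nat_lit 0xc9) (nat_lit 0) (p (nat_lit 0x119) (nat_lit 1) (p (nat_lit 0xc1) (nat_lit 0) (p (nat_lit 0x81) (nat_lit 1) (p (nat_lit 0x41) (nat_lit 1) (p (nat_lit 0x10a898a08881a) (nat_lit 0) (p (nat_lit 0x8a090988079a) (nat_lit 0) (p (nat_lit 0x108088907871a) (nat_lit 0) (p (nat_lit 0x87880887069a) (nat_lit 0) (p (nat_lit 0x8000080000000088806860a) (nat_lit 0) (p (nat_lit 0x8000080000000068786058a) (nat_lit 0) (p (nat_lit 0x10687058502) (nat_lit 0) (p (nat_lit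 0x8606850482) (nat_lit 0) (p (nat_lit 0x160004) (nat_lit 0) (p (nat_lit 0x68612) (nat_lit 0) (p (nat_lit 0x50592) (nat_lit 0) (p (nat_lit 0x40512) (nat_lit 0) (p (nat_lit 0x50312) (nat_lit 0) (p (nat_lit 0x38292) (nat_lit 0) (p (nat_lit 0x28212) (nat_lit 0) (p (nat_lit 0x38112) (nat_lit 0) (p (nat_lit 0x20092) (nat_lit 0) (p (nat_lit 0x10012) (nat_lit 0) pn))))))))))))))))))))))))))))))) :=
  Cl.node (nat_lit 0x10000c) (nat_lit 2) (by decide +kernel) (ClAll.succ (ClAll.succ ClAll.zero s1707) s1708)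

def n287 : Cl (O (nat_lit 6)) (R (nat_lit 143633))
    (p (nat_lit 0x10000c) (nat_lit 0) (p (nat_lit 0x200014) (nat_lit 0) (p (nat_lit 0x20000c) (nat_lit 0) (p (nat_lit 0xb0004) (nat_lit 0) (p (nat_lit 0x380c2) (nat_lit 0) (p (nat_lit 0x3c4aa) (nat_lit 7) (p (nat_lit 0x111) (nat_lit 1) (p (nat_lit 0x109) (nat_lit 0) (p (nat_lit 0xc9) (nat_lit 1) (p (nat_lit 0x119) (nat_lit 1) (p (nat_lit 0xc1) (nat_lit 0) (p (nat_lit 0x81) (nat_lit 1) (p (nat_lit 0x41) (nat_lit 1) (p (nat_lit 0x10a898a08881a) (nat_lit 0) (p (nat_lit 0x8a090988079a) (nat_lit 0) (p (nat_lit 0x108088907871a) (nat_lit 0) (p (nat_lit 0x87880887069a) (nat_lit 0) (p (nat_lit 0x8000080000000088806860a) (nat_lit 0) (p (nat_lit 0x8000080000000068786058a) (nat_lit 0) (p (nat_lit 0x10687058502) (nat_lit 0) (p (nat_lit 0x8606850482) (nat_lit 0) (p (nat_lit 0x160004) (nat_lit 0) (p (nat_lit 0x68612) (nat_lit 0) (p (nat_lit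 0x50592) (nat_lit 0) (p (nat_lit 0x40512) (nat_lit 0) (p (nat_lit 0x50312) (nat_lit 0) (p (nat_lit 0x38292) (nat_lit 0) (p (nat_lit 0x28212) (nat_lit 0) (p (nat_lit 0x38112) (nat_lit 0) (p (nat_lit 0x20092) (nat_lit 0) (p (nat_lit 0x10012) (nat_lit 0) pn))))))))))))))))))))))))))))))) :=
  Cl.node (nat_lit 0x101) (nat_lit 2) (by decide +kernel) (ClAll.succ (ClAll.succ ClAll.zero n224) s1740)

def n288 : Cl (O (nat_lit 6)) (R (nat_lit 143633))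
    (p (nat_lit 0x10000c) (nat_lit 0) (p (nat_lit 0x200014) (nat_lit 0) (p (nat_lit 0x20000c) (nat_lit 0) (p (nat_lit 0xb0004) (nat_lit 0) (p (nat_lit 0x380c2) (nat_lit 1) (p (nat_lit 0x3c4aa) (nat_lit 7) (p (nat_lit 0x111) (nat_lit 1) (p (nat_lit 0x109) (nat_lit 0) (p (nat_lit 0xc9) (nat_lit 1) (p (nat_lit 0x119) (nat_lit 1) (p (nat_lit 0xc1) (nat_lit 0) (p (nat_lit 0x81) (nat_lit 1) (p (nat_lit 0x41) (nat_lit 1) (p (nat_lit 0x10a898a08881a) (nat_lit 0) (p (nat_lit 0x8a090988079a) (nat_lit 0) (p (nat_lit 0x108088907871a) (nat_lit 0) (p (nat_lit 0x87880887069a) (nat_lit 0) (p (nat_lit 0x8000080000000088806860a) (nat_lit 0) (p (nat_lit 0x8000080000000068786058a) (nat_lit 0) (p (nat_lit 0x10687058502) (nat_lit 0) (p (nat_lit 0x8606850482) (nat_lit 0) (p (nat_lit 0x160004) (nat_lit 0) (p (nat_lit 0x68612) (nat_lit 0) (p (nat_lit 0x50592) (nat_lit 0) (p (nat_lit 0x40512) (nat_lit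 0) (p (nat_lit 0x50312) (nat_lit 0) (p (nat_lit 0x38292) (nat_lit 0) (p (nat_lit 0x28212) (nat_lit 0) (p (nat_lit 0x38112) (nat_lit 0) (p (nat_lit 0x20092) (nat_lit 0) (p (nat_lit 0x10012) (nat_lit 0) pn))))))))))))))))))))))))))))))) :=
  Cl.node (nat_lit 0x101) (nat_lit 2) (by decide +kernel) (ClAll.succ (ClAll.succ ClAll.zero n225) s1747)

def n289 : Cl (O (nat_lit 6)) (R (nat_lit 143633))
    (p (nat_lit 0x10000c) (nat_lit 0) (p (nat_lit 0x20000c) (nat_lit 0) (p (nat_lit 0x380c2) (nat_lit 0) (p (nat_lit 0x444aa) (nat_lit 7) (p (nat_lit 0x81) (nat_lit 1) (p (nat_lit 0xc9) (nat_lit 1) (p (nat_lit 0x109) (nat_lit 1) (p (nat_lit 0x101) (nat_lit 0) (p (nat_lit 0x119) (nat_lit 0) (p (nat_lit 0xd1) (nat_lit 0) (p (nat_lit 0x89) (nat_lit 0) (p (nat_lit 0x41) (nat_lit 0) (p (nat_lit 0x10a898a08881a) (nat_lit 0) (p (nat_lit 0x8a090988079a) (nat_lit 0) (p (nat_lit 0x108088907871a) (nat_lit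 0) (p (nat_lit 0x87880887069a) (nat_lit 0) (p (nat_lit 0x8000080000000088806860a) (nat_lit 0) (p (nat_lit 0x8000080000000068786058a) (nat_lit 0) (p (nat_lit 0x10687058502) (nat_lit 0) (p (nat_lit 0x8606850482) (nat_lit 0) (p (nat_lit 0x160004) (nat_lit 0) (p (nat_lit 0x68612) (nat_lit 0) (p (nat_lit 0x50592) (nat_lit 0) (p (nat_lit 0x40512) (nat_lit 0) (p (nat_lit 0x50312) (nat_lit 0) (p (nat_lit 0x38292) (nat_lit 0) (p (nat_lit 0x28212) (nat_lit 0) (p (nat_lit 0x38112) (nat_lit 0) (p (nat_lit 0x20092) (nat_lit 0) (p (nat_lit 0x10012) (nat_lit 0) pn)))))))))))))))))))))))))))))) :=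
  Cl.node (nat_lit 0x81) (nat_lit 2) (by decide +kernel) (ClAll.succ (ClAll.succ ClAll.zero s10) n226)

def n290 : Cl (O (nat_lit 6)) (R (nat_lit 143633))
    (p (nat_lit 0x81) (nat_lit 1) (p (nat_lit 0xb0004) (nat_lit 0) (p (nat_lit 0x380c2) (nat_lit 1) (p (nat_lit 0x444aa) (nat_lit 7) (p (nat_lit 0x81) (nat_lit 1) (p (nat_lit 0xc9) (nat_lit 1) (p (nat_lit 0x109) (nat_lit 1) (p (nat_lit 0x101) (nat_lit 0) (p (nat_lit 0x119) (nat_lit 0) (p (nat_lit 0xd1) (nat_lit 0) (p (nat_lit 0x89) (nat_lit 0) (p (nat_lit 0x41) (nat_lit 0) (p (nat_lit 0x10a898a08881a) (nat_lit 0) (p (nat_lit 0x8a090988079a) (nat_lit 0) (p (nat_lit 0x108088907871a) (nat_lit 0) (p (nat_lit 0x87880887069a) (nat_lit 0) (p (nat_lit 0x8000080000000088806860a) (nat_lit 0) (p (nat_lit 0x8000080000000068786058a) (nat_lit 0) (p (nat_lit 0x10687058502) (nat_lit 0) (p (nat_lit 0x8606850482) (nat_lit 0) (p (nat_lit 0x160004)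 (nat_lit 0) (p (nat_lit 0x68612) (nat_lit 0) (p (nat_lit 0x50592) (nat_lit 0) (p (nat_lit 0x40512) (nat_lit 0) (p (nat_lit 0x50312) (nat_lit 0) (p (nat_lit 0x38292) (nat_lit 0) (p (nat_lit 0x28212) (nat_lit 0) (p (nat_lit 0x38112) (nat_lit 0) (p (nat_lit 0x20092) (nat_lit 0) (p (nat_lit 0x10012) (nat_lit 0) pn)))))))))))))))))))))))))))))) :=
  Cl.node (nat_lit 0x20000c) (nat_lit 2) (by decide +kernel) (ClAll.succ (ClAll.succ ClAll.zero n227) s21)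

def n291 : Cl (O (nat_lit 6)) (R (nat_lit 143633))
    (p (nat_lit 0x1fc00c) (nat_lit 0) (p (nat_lit 0xb0004) (nat_lit 1) (p (nat_lit 0x380c2) (nat_lit 1) (p (nat_lit 0x444aa) (nat_lit 7) (p (nat_lit 0x81) (nat_lit 1) (p (nat_lit 0xc9) (nat_lit 1) (p (nat_lit 0x109) (nat_lit 1) (p (nat_lit 0x101) (nat_lit 0) (p (nat_lit 0x119) (nat_lit 0) (p (nat_lit 0xd1) (nat_lit 0) (p (nat_lit 0x89) (nat_lit 0) (p (nat_lit 0x41) (nat_lit 0) (p (nat_lit 0x10a898a08881a) (nat_lit 0) (p (nat_lit 0x8a090988079a) (nat_lit 0) (p (nat_lit 0x108088907871a) (nat_lit 0) (p (nat_lit 0x87880887069a) (nat_lit 0) (p (nat_lit 0x8000080000000088806860a) (nat_lit 0) (p (nat_lit 0x8000080000000068786058a) (nat_lit 0) (p (nat_lit 0x10687058502) (nat_lit 0) (p (nat_lit 0x8606850482) (nat_lit 0) (p (nat_lit 0x160004) (nat_lit 0) (p (nat_lit 0x68612) (nat_lit 0) (p (nat_lit 0x50592) (nat_lit 0) (p (nat_lit 0x40512)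 (nat_lit 0) (p (nat_lit 0x50312) (nat_lit 0) (p (nat_lit 0x38292) (nat_lit 0) (p (nat_lit 0x28212) (nat_lit 0) (p (nat_lit 0x38112) (nat_lit 0) (p (nat_lit 0x20092) (nat_lit 0) (p (nat_lit 0x10012) (nat_lit 0) pn)))))))))))))))))))))))))))))) :=
  Cl.node (nat_lit 0x1fc014) (nat_lit 2) (by decide +kernel) (ClAll.succ (ClAll.succ ClAll.zero n228) s27)

def n292 : Cl (O (nat_lit 6)) (R (nat_lit 143633))
    (p (nat_lit 0xc1) (nat_lit 1) (p (nat_lit 0xb0004) (nat_lit 0) (p (nat_lit 0x380c2) (nat_lit 0) (p (nat_lit 0x4c42a) (nat_lit 2) (p (nat_lit 0x111) (nat_lit 0) (p (nat_lit 0xc9) (nat_lit 0) (p (nat_lit 0x81) (nat_lit 0) (p (nat_lit 0x101) (nat_lit 1) (p (nat_lit 0x119) (nat_lit 0) (p (nat_lit 0xd1) (nat_lit 0) (p (nat_lit 0x89) (nat_lit 0) (p (nat_lit 0x41) (nat_lit 0) (p (nat_lit 0x10a898a08881a) (nat_lit 0) (p (nat_lit 0x8a090988079a) (nat_lit 0) (p (nat_lit 0x108088907871a)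 (nat_lit 0) (p (nat_lit 0x87880887069a) (nat_lit 0) (p (nat_lit 0x8000080000000088806860a) (nat_lit 0) (p (nat_lit 0x8000080000000068786058a) (nat_lit 0) (p (nat_lit 0x10687058502) (nat_lit 0) (p (nat_lit 0x8606850482) (nat_lit 0) (p (nat_lit 0x160004) (nat_lit 0) (p (nat_lit 0x68612) (nat_lit 0) (p (nat_lit 0x50592) (nat_lit 0) (p (nat_lit 0x40512) (nat_lit 0) (p (nat_lit 0x50312) (nat_lit 0) (p (nat_lit 0x38292) (nat_lit 0) (p (nat_lit 0x28212) (nat_lit 0) (p (nat_lit 0x38112) (nat_lit 0) (p (nat_lit 0x20092) (nat_lit 0) (p (nat_lit 0x10012) (nat_lit 0) pn)))))))))))))))))))))))))))))) :=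
  Cl.node (nat_lit 0x444aa) (nat_lit 12) (by decide +kernel) (ClAll.succ (ClAll.succ (ClAll.succ (ClAll.succ (ClAll.succ (ClAll.succ (ClAll.succ (ClAll.succ (ClAll.succ (ClAll.succ (ClAll.succ (ClAll.succ ClAll.zero s37) s38) s39) s40) s41) s42) s43) n229) n230) s51) s52) s53)

def n293 : Cl (O (nat_lit 6)) (R (nat_lit 143633))
    (p (nat_lit 0x1fc00c) (nat_lit 0) (p (nat_lit 0xb0004) (nat_lit 1) (p (nat_lit 0x380c2) (nat_lit 0) (p (nat_lit 0x4c42a) (nat_lit 2) (p (nat_lit 0x111) (nat_lit 0) (p (nat_lit 0xc9) (nat_lit 0) (p (nat_lit 0x81) (nat_lit 0) (p (nat_lit 0x101) (nat_lit 1) (p (nat_lit 0x119) (nat_lit 0) (p (nat_lit 0xd1) (nat_lit 0) (p (nat_lit 0x89) (nat_lit 0) (p (nat_lit 0x41) (nat_lit 0) (p (nat_lit 0x10a898a08881a) (nat_lit 0) (p (nat_lit 0x8a090988079a) (nat_lit 0) (p (nat_lit 0x108088907871a) (nat_lit 0) (p (nat_lit 0x87880887069a) (nat_lit 0) (p (nat_lit 0x8000080000000088806860a)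 (nat_lit 0) (p (nat_lit 0x8000080000000068786058a) (nat_lit 0) (p (nat_lit 0x10687058502) (nat_lit 0) (p (nat_lit 0x8606850482) (nat_lit 0) (p (nat_lit 0x160004) (nat_lit 0) (p (nat_lit 0x68612) (nat_lit 0) (p (nat_lit 0x50592) (nat_lit 0) (p (nat_lit 0x40512) (nat_lit 0) (p (nat_lit 0x50312) (nat_lit 0) (p (nat_lit 0x38292) (nat_lit 0) (p (nat_lit 0x28212) (nat_lit 0) (p (nat_lit 0x38112) (nat_lit 0) (p (nat_lit 0x20092) (nat_lit 0) (p (nat_lit 0x10012) (nat_lit 0) pn)))))))))))))))))))))))))))))) :=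
  Cl.node (nat_lit 0x1fc014) (nat_lit 2) (by decide +kernel) (ClAll.succ (ClAll.succ ClAll.zero n231) s70)

def n294 : Cl (O (nat_lit 6)) (R (nat_lit 143633))
    (p (nat_lit 0x89) (nat_lit 0) (p (nat_lit 0xb0004) (nat_lit 0) (p (nat_lit 0x380c2) (nat_lit 0) (p (nat_lit 0x444aa) (nat_lit 7) (p (nat_lit 0x111) (nat_lit 0) (p (nat_lit 0xc9) (nat_lit 1) (p (nat_lit 0x81) (nat_lit 0) (p (nat_lit 0x101) (nat_lit 1) (p (nat_lit 0x119) (nat_lit 0) (p (nat_lit 0xd1) (nat_lit 0) (p (nat_lit 0x89) (nat_lit 0) (p (nat_lit 0x41) (nat_lit 0) (p (nat_lit 0x10a898a08881a) (nat_lit 0) (p (nat_lit 0x8a090988079a) (nat_lit 0) (p (nat_lit 0x108088907871a) (nat_lit 0) (p (nat_lit 0x87880887069a) (nat_lit 0) (p (nat_lit 0x8000080000000088806860a) (nat_lit 0) (p (nat_lit 0x8000080000000068786058a) (nat_lit 0) (p (nat_lit 0x10687058502) (nat_lit 0) (p (nat_lit 0x8606850482) (nat_lit 0) (p (nat_lit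 0x160004) (nat_lit 0) (p (nat_lit 0x68612) (nat_lit 0) (p (nat_lit 0x50592) (nat_lit 0) (p (nat_lit 0x40512) (nat_lit 0) (p (nat_lit 0x50312) (nat_lit 0) (p (nat_lit 0x38292) (nat_lit 0) (p (nat_lit 0x28212) (nat_lit 0) (p (nat_lit 0x38112) (nat_lit 0) (p (nat_lit 0x20092) (nat_lit 0) (p (nat_lit 0x10012) (nat_lit 0) pn)))))))))))))))))))))))))))))) :=
  Cl.node (nat_lit 0x4c42a) (nat_lit 12) (by decide +kernel) (ClAll.succ (ClAll.succ (ClAll.succ (ClAll.succ (ClAll.succ (ClAll.succ (ClAll.succ (ClAll.succ (ClAll.succ (ClAll.succ (ClAll.succ (ClAll.succ ClAll.zero s103) s104) s105) s106) s107) s108) s109) s110) s111) s112) s113) s114)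

def n295 : Cl (O (nat_lit 6)) (R (nat_lit 143633))
    (p (nat_lit 0x1fc00c) (nat_lit 0) (p (nat_lit 0xb0004) (nat_lit 1) (p (nat_lit 0x380c2) (nat_lit 0) (p (nat_lit 0x444aa) (nat_lit 7) (p (nat_lit 0x111) (nat_lit 0) (p (nat_lit 0xc9) (nat_lit 1) (p (nat_lit 0x81) (nat_lit 0) (p (nat_lit 0x101) (nat_lit 1) (p (nat_lit 0x119) (nat_lit 0) (p (nat_lit 0xd1) (nat_lit 0) (p (nat_lit 0x89) (nat_lit 0) (p (nat_lit 0x41) (nat_lit 0) (p (nat_lit 0x10a898a08881a) (nat_lit 0) (p (nat_lit 0x8a090988079a) (nat_lit 0) (p (nat_lit 0x108088907871a) (nat_lit 0) (p (nat_lit 0x87880887069a) (nat_lit 0) (p (nat_lit 0x8000080000000088806860a) (nat_lit 0) (p (nat_lit 0x8000080000000068786058a) (nat_lit 0) (p (nat_lit 0x10687058502) (nat_lit 0) (p (nat_lit 0x8606850482) (nat_lit 0) (p (nat_lit 0x160004) (nat_lit 0) (p (nat_lit 0x68612) (nat_lit 0) (p (nat_lit 0x50592) (nat_lit 0) (p (nat_lit 0x40512)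 (nat_lit 0) (p (nat_lit 0x50312) (nat_lit 0) (p (nat_lit 0x38292) (nat_lit 0) (p (nat_lit 0x28212) (nat_lit 0) (p (nat_lit 0x38112) (nat_lit 0) (p (nat_lit 0x20092) (nat_lit 0) (p (nat_lit 0x10012) (nat_lit 0) pn)))))))))))))))))))))))))))))) :=
  Cl.node (nat_lit 0x1fc014) (nat_lit 2) (by decide +kernel) (ClAll.succ (ClAll.succ ClAll.zero n232) s118)

def n296 : Cl (O (nat_lit 6)) (R (nat_lit 143633))
    (p (nat_lit 0x20000c) (nat_lit 0) (p (nat_lit 0xb0004) (nat_lit 0) (p (nat_lit 0x380c2) (nat_lit 1) (p (nat_lit 0x444aa) (nat_lit 7) (p (nat_lit 0x111) (nat_lit 0) (p (nat_lit 0xc9) (nat_lit 1) (p (nat_lit 0x81) (nat_lit 0) (p (nat_lit 0x101) (nat_lit 1) (p (nat_lit 0x119) (nat_lit 0) (p (nat_lit 0xd1) (nat_lit 0) (p (nat_lit 0x89) (nat_lit 0) (p (nat_lit 0x41) (nat_lit 0) (p (nat_lit 0x10a898a08881a) (nat_lit 0) (p (nat_lit 0x8a090988079a) (nat_lit 0) (p (nat_lit 0x108088907871a)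 (nat_lit 0) (p (nat_lit 0x87880887069a) (nat_lit 0) (p (nat_lit 0x8000080000000088806860a) (nat_lit 0) (p (nat_lit 0x8000080000000068786058a) (nat_lit 0) (p (nat_lit 0x10687058502) (nat_lit 0) (p (nat_lit 0x8606850482) (nat_lit 0) (p (nat_lit 0x160004) (nat_lit 0) (p (nat_lit 0x68612) (nat_lit 0) (p (nat_lit 0x50592) (nat_lit 0) (p (nat_lit 0x40512) (nat_lit 0) (p (nat_lit 0x50312) (nat_lit 0) (p (nat_lit 0x38292) (nat_lit 0) (p (nat_lit 0x28212) (nat_lit 0) (p (nat_lit 0x38112) (nat_lit 0) (p (nat_lit 0x20092) (nat_lit 0) (p (nat_lit 0x10012) (nat_lit 0) pn)))))))))))))))))))))))))))))) :=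
  Cl.node (nat_lit 0x10000c) (nat_lit 2) (by decide +kernel) (ClAll.succ (ClAll.succ ClAll.zero n233) s137)

def n297 : Cl (O (nat_lit 6)) (R (nat_lit 143633))
    (p (nat_lit 0x1fc00c) (nat_lit 0) (p (nat_lit 0xb0004) (nat_lit 1) (p (nat_lit 0x380c2) (nat_lit 1) (p (nat_lit 0x444aa) (nat_lit 7) (p (nat_lit 0x111) (nat_lit 0) (p (nat_lit 0xc9) (nat_lit 1) (p (nat_lit 0x81) (nat_lit 0) (p (nat_lit 0x101) (nat_lit 1) (p (nat_lit 0x119) (nat_lit 0) (p (nat_lit 0xd1) (nat_lit 0) (p (nat_lit 0x89) (nat_lit 0) (p (nat_lit 0x41) (nat_lit 0) (p (nat_lit 0x10a898a08881a) (nat_lit 0) (p (nat_lit 0x8a090988079a) (nat_lit 0) (p (nat_lit 0x108088907871a) (nat_lit 0) (p (nat_lit 0x87880887069a) (nat_lit 0) (p (nat_lit 0x8000080000000088806860a) (nat_lit 0) (p (nat_lit 0x8000080000000068786058a) (nat_lit 0) (p (nat_lit 0x10687058502) (nat_lit 0) (p (nat_lit 0x8606850482) (nat_lit 0) (p (nat_lit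 0x160004) (nat_lit 0) (p (nat_lit 0x68612) (nat_lit 0) (p (nat_lit 0x50592) (nat_lit 0) (p (nat_lit 0x40512) (nat_lit 0) (p (nat_lit 0x50312) (nat_lit 0) (p (nat_lit 0x38292) (nat_lit 0) (p (nat_lit 0x28212) (nat_lit 0) (p (nat_lit 0x38112) (nat_lit 0) (p (nat_lit 0x20092) (nat_lit 0) (p (nat_lit 0x10012) (nat_lit 0) pn)))))))))))))))))))))))))))))) :=
  Cl.node (nat_lit 0x1fc014) (nat_lit 2) (by decide +kernel) (ClAll.succ (ClAll.succ ClAll.zero n234) s143)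

def n298 : Cl (O (nat_lit 6)) (R (nat_lit 143633))
    (p (nat_lit 0x20000c) (nat_lit 0) (p (nat_lit 0x200014) (nat_lit 0) (p (nat_lit 0x380c2) (nat_lit 0) (p (nat_lit 0x444aa) (nat_lit 8) (p (nat_lit 0x111) (nat_lit 0) (p (nat_lit 0xc9) (nat_lit 1) (p (nat_lit 0x81) (nat_lit 0) (p (nat_lit 0x101) (nat_lit 1) (p (nat_lit 0x119) (nat_lit 0) (p (nat_lit 0xd1) (nat_lit 0) (p (nat_lit 0x89) (nat_lit 0) (p (nat_lit 0x41) (nat_lit 0) (p (nat_lit 0x10a898a08881a) (nat_lit 0) (p (nat_lit 0x8a090988079a) (nat_lit 0) (p (nat_lit 0x108088907871a) (nat_lit 0) (p (nat_lit 0x87880887069a) (nat_lit 0) (p (nat_lit 0x8000080000000088806860a) (nat_lit 0) (p (nat_lit 0x8000080000000068786058a) (nat_lit 0) (p (nat_lit 0x10687058502) (nat_lit 0) (p (nat_lit 0x8606850482) (nat_lit 0) (p (nat_lit 0x160004) (nat_lit 0) (p (nat_lit 0x68612) (nat_lit 0) (p (nat_lit 0x50592) (nat_lit 0) (p (nat_lit 0x40512)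 (nat_lit 0) (p (nat_lit 0x50312) (nat_lit 0) (p (nat_lit 0x38292) (nat_lit 0) (p (nat_lit 0x28212) (nat_lit 0) (p (nat_lit 0x38112) (nat_lit 0) (p (nat_lit 0x20092) (nat_lit 0) (p (nat_lit 0x10012) (nat_lit 0) pn)))))))))))))))))))))))))))))) :=
  Cl.node (nat_lit 0x100014) (nat_lit 2) (by decide +kernel) (ClAll.succ (ClAll.succ ClAll.zero n235) s148)

def n299 : Cl (O (nat_lit 6)) (R (nat_lit 143633))
    (p (nat_lit 0x20000c) (nat_lit 0) (p (nat_lit 0x200014) (nat_lit 0) (p (nat_lit 0x380c2) (nat_lit 1) (p (nat_lit 0x444aa) (nat_lit 8) (p (nat_lit 0x111) (nat_lit 0) (p (nat_lit 0xc9) (nat_lit 1) (p (nat_lit 0x81) (nat_lit 0) (p (nat_lit 0x101) (nat_lit 1) (p (nat_lit 0x119) (nat_lit 0) (p (nat_lit 0xd1) (nat_lit 0) (p (nat_lit 0x89) (nat_lit 0) (p (nat_lit 0x41) (nat_lit 0) (p (nat_lit 0x10a898a08881a) (nat_lit 0) (p (nat_lit 0x8a090988079a) (nat_lit 0) (p (nat_lit 0x108088907871a)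 (nat_lit 0) (p (nat_lit 0x87880887069a) (nat_lit 0) (p (nat_lit 0x8000080000000088806860a) (nat_lit 0) (p (nat_lit 0x8000080000000068786058a) (nat_lit 0) (p (nat_lit 0x10687058502) (nat_lit 0) (p (nat_lit 0x8606850482) (nat_lit 0) (p (nat_lit 0x160004) (nat_lit 0) (p (nat_lit 0x68612) (nat_lit 0) (p (nat_lit 0x50592) (nat_lit 0) (p (nat_lit 0x40512) (nat_lit 0) (p (nat_lit 0x50312) (nat_lit 0) (p (nat_lit 0x38292) (nat_lit 0) (p (nat_lit 0x28212) (nat_lit 0) (p (nat_lit 0x38112) (nat_lit 0) (p (nat_lit 0x20092) (nat_lit 0) (p (nat_lit 0x10012) (nat_lit 0) pn)))))))))))))))))))))))))))))) :=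
  Cl.node (nat_lit 0x10000c) (nat_lit 2) (by decide +kernel) (ClAll.succ (ClAll.succ ClAll.zero n236) s154)

def n300 : Cl (O (nat_lit 6)) (R (nat_lit 143633))
    (p (nat_lit 0x111) (nat_lit 1) (p (nat_lit 0xb0004) (nat_lit 0) (p (nat_lit 0x380c2) (nat_lit 0) (p (nat_lit 0x4c42a) (nat_lit 2) (p (nat_lit 0xc9) (nat_lit 0) (p (nat_lit 0xc1) (nat_lit 0) (p (nat_lit 0x81) (nat_lit 1) (p (nat_lit 0x101) (nat_lit 1) (p (nat_lit 0x119) (nat_lit 0) (p (nat_lit 0xd1) (nat_lit 0) (p (nat_lit 0x89) (nat_lit 0) (p (nat_lit 0x41) (nat_lit 0) (p (nat_lit 0x10a898a08881a) (nat_lit 0) (p (nat_lit 0x8a090988079a) (nat_lit 0) (p (nat_lit 0x108088907871a) (nat_lit 0) (p (nat_lit 0x87880887069a) (nat_lit 0) (p (nat_lit 0x8000080000000088806860a) (nat_lit 0) (p (nat_lit 0x8000080000000068786058a) (nat_lit 0) (p (nat_lit 0x10687058502) (nat_lit 0) (p (nat_lit 0x8606850482) (nat_lit 0) (p (nat_lit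 0x160004) (nat_lit 0) (p (nat_lit 0x68612) (nat_lit 0) (p (nat_lit 0x50592) (nat_lit 0) (p (nat_lit 0x40512) (nat_lit 0) (p (nat_lit 0x50312) (nat_lit 0) (p (nat_lit 0x38292) (nat_lit 0) (p (nat_lit 0x28212) (nat_lit 0) (p (nat_lit 0x38112) (nat_lit 0) (p (nat_lit 0x20092) (nat_lit 0) (p (nat_lit 0x10012) (nat_lit 0) pn)))))))))))))))))))))))))))))) :=
  Cl.node (nat_lit 0x44c2a) (nat_lit 12) (by decide +kernel) (ClAll.succ (ClAll.succ (ClAll.succ (ClAll.succ (ClAll.succ (ClAll.succ (ClAll.succ (ClAll.succ (ClAll.succ (ClAll.succ (ClAll.succ (ClAll.succ ClAll.zero n237) s166) s167) s168) s169) s170) s171) s172) s173) s174) s175) s176)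

def n301 : Cl (O (nat_lit 6)) (R (nat_lit 143633))
    (p (nat_lit 0x1fc00c) (nat_lit 0) (p (nat_lit 0xb0004) (nat_lit 1) (p (nat_lit 0x380c2) (nat_lit 0) (p (nat_lit 0x4c42a) (nat_lit 2) (p (nat_lit 0xc9) (nat_lit 0) (p (nat_lit 0xc1) (nat_lit 0) (p (nat_lit 0x81) (nat_lit 1) (p (nat_lit 0x101) (nat_lit 1) (p (nat_lit 0x119) (nat_lit 0) (p (nat_lit 0xd1) (nat_lit 0) (p (nat_lit 0x89) (nat_lit 0) (p (nat_lit 0x41) (nat_lit 0) (p (nat_lit 0x10a898a08881a) (nat_lit 0) (p (nat_lit 0x8a090988079a) (nat_lit 0) (p (nat_lit 0x108088907871a) (nat_lit 0) (p (nat_lit 0x87880887069a) (nat_lit 0) (p (nat_lit 0x8000080000000088806860a) (nat_lit 0) (p (nat_lit 0x8000080000000068786058a) (nat_lit 0) (p (nat_lit 0x10687058502) (nat_lit 0) (p (nat_lit 0x8606850482) (nat_lit 0) (p (nat_lit 0x160004) (nat_lit 0) (p (nat_lit 0x68612) (nat_lit 0) (p (nat_lit 0x50592) (nat_lit 0) (p (nat_lit 0x40512)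 (nat_lit 0) (p (nat_lit 0x50312) (nat_lit 0) (p (nat_lit 0x38292) (nat_lit 0) (p (nat_lit 0x28212) (nat_lit 0) (p (nat_lit 0x38112) (nat_lit 0) (p (nat_lit 0x20092) (nat_lit 0) (p (nat_lit 0x10012) (nat_lit 0) pn)))))))))))))))))))))))))))))) :=
  Cl.node (nat_lit 0x1fc014) (nat_lit 2) (by decide +kernel) (ClAll.succ (ClAll.succ ClAll.zero n238) s194)

def n302 : Cl (O (nat_lit 6)) (R (nat_lit 143633))
    (p (nat_lit 0xc9) (nat_lit 0) (p (nat_lit 0xb0004) (nat_lit 0) (p (nat_lit 0x380c2) (nat_lit 0) (p (nat_lit 0x444aa) (nat_lit 7) (p (nat_lit 0xc9) (nat_lit 1) (p (nat_lit 0xc1) (nat_lit 0) (p (nat_lit 0x81) (nat_lit 1) (p (nat_lit 0x101) (nat_lit 1) (p (nat_lit 0x119) (nat_lit 0) (p (nat_lit 0xd1) (nat_lit 0) (p (nat_lit 0x89) (nat_lit 0) (p (nat_lit 0x41) (nat_lit 0) (p (nat_lit 0x10a898a08881a) (nat_lit 0) (p (nat_lit 0x8a090988079a) (nat_lit 0) (p (nat_lit 0x108088907871a)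 (nat_lit 0) (p (nat_lit 0x87880887069a) (nat_lit 0) (p (nat_lit 0x8000080000000088806860a) (nat_lit 0) (p (nat_lit 0x8000080000000068786058a) (nat_lit 0) (p (nat_lit 0x10687058502) (nat_lit 0) (p (nat_lit 0x8606850482) (nat_lit 0) (p (nat_lit 0x160004) (nat_lit 0) (p (nat_lit 0x68612) (nat_lit 0) (p (nat_lit 0x50592) (nat_lit 0) (p (nat_lit 0x40512) (nat_lit 0) (p (nat_lit 0x50312) (nat_lit 0) (p (nat_lit 0x38292) (nat_lit 0) (p (nat_lit 0x28212) (nat_lit 0) (p (nat_lit 0x38112) (nat_lit 0) (p (nat_lit 0x20092) (nat_lit 0) (p (nat_lit 0x10012) (nat_lit 0) pn)))))))))))))))))))))))))))))) :=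
  Cl.node (nat_lit 0x119) (nat_lit 2) (by decide +kernel) (ClAll.succ (ClAll.succ ClAll.zero s216) n239)

def n303 : Cl (O (nat_lit 6)) (R (nat_lit 143633))
    (p (nat_lit 0xc9) (nat_lit 0) (p (nat_lit 0xb0004) (nat_lit 0) (p (nat_lit 0x380c2) (nat_lit 1) (p (nat_lit 0x444aa) (nat_lit 7) (p (nat_lit 0xc9) (nat_lit 1) (p (nat_lit 0xc1) (nat_lit 0) (p (nat_lit 0x81) (nat_lit 1) (p (nat_lit 0x101) (nat_lit 1) (p (nat_lit 0x119) (nat_lit 0) (p (nat_lit 0xd1) (nat_lit 0) (p (nat_lit 0x89) (nat_lit 0) (p (nat_lit 0x41) (nat_lit 0) (p (nat_lit 0x10a898a08881a) (nat_lit 0) (p (nat_lit 0x8a090988079a) (nat_lit 0) (p (nat_lit 0x108088907871a) (nat_lit 0) (p (nat_lit 0x87880887069a) (nat_lit 0) (p (nat_lit 0x8000080000000088806860a) (nat_lit 0) (p (nat_lit 0x8000080000000068786058a) (nat_lit 0) (p (nat_lit 0x10687058502) (nat_lit 0) (p (nat_lit 0x8606850482) (nat_lit 0) (p (nat_lit 0x160004)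 (nat_lit 0) (p (nat_lit 0x68612) (nat_lit 0) (p (nat_lit 0x50592) (nat_lit 0) (p (nat_lit 0x40512) (nat_lit 0) (p (nat_lit 0x50312) (nat_lit 0) (p (nat_lit 0x38292) (nat_lit 0) (p (nat_lit 0x28212) (nat_lit 0) (p (nat_lit 0x38112) (nat_lit 0) (p (nat_lit 0x20092) (nat_lit 0) (p (nat_lit 0x10012) (nat_lit 0) pn)))))))))))))))))))))))))))))) :=
  Cl.node (nat_lit 0x119) (nat_lit 2) (by decide +kernel) (ClAll.succ (ClAll.succ ClAll.zero s231) n240)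

def n304 : Cl (O (nat_lit 6)) (R (nat_lit 143633))
    (p (nat_lit 0x81) (nat_lit 1) (p (nat_lit 0x101) (nat_lit 1) (p (nat_lit 0xb0004) (nat_lit 0) (p (nat_lit 0x380c2) (nat_lit 1) (p (nat_lit 0x3cc2a) (nat_lit 11) (p (nat_lit 0x109) (nat_lit 1) (p (nat_lit 0xc9) (nat_lit 1) (p (nat_lit 0xc1) (nat_lit 0) (p (nat_lit 0x119) (nat_lit 1) (p (nat_lit 0xd1) (nat_lit 0) (p (nat_lit 0x89) (nat_lit 0) (p (nat_lit 0x41) (nat_lit 0) (p (nat_lit 0x10a898a08881a) (nat_lit 0) (p (nat_lit 0x8a090988079a) (nat_lit 0) (p (nat_lit 0x108088907871a) (nat_lit 0) (p (nat_lit 0x87880887069a) (nat_lit 0) (p (nat_lit 0x8000080000000088806860a) (nat_lit 0) (p (nat_lit 0x8000080000000068786058a) (nat_lit 0) (p (nat_lit 0x10687058502) (nat_lit 0) (p (nat_lit 0x8606850482) (nat_lit 0) (p (nat_lit 0x160004) (nat_lit 0) (p (nat_lit 0x68612) (nat_lit 0) (p (nat_lit 0x50592) (nat_lit 0) (p (nat_lit 0x40512)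 (nat_lit 0) (p (nat_lit 0x50312) (nat_lit 0) (p (nat_lit 0x38292) (nat_lit 0) (p (nat_lit 0x28212) (nat_lit 0) (p (nat_lit 0x38112) (nat_lit 0) (p (nat_lit 0x20092) (nat_lit 0) (p (nat_lit 0x10012) (nat_lit 0) pn)))))))))))))))))))))))))))))) :=
  Cl.node (nat_lit 0x444aa) (nat_lit 12) (by decide +kernel) (ClAll.succ (ClAll.succ (ClAll.succ (ClAll.succ (ClAll.succ (ClAll.succ (ClAll.succ (ClAll.succ (ClAll.succ (ClAll.succ (ClAll.succ (ClAll.succ ClAll.zero s278) s279) s280) s281) s282) s283) s284) n241) s287) s288) s289) s290)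

def n305 : Cl (O (nat_lit 6)) (R (nat_lit 143633))
    (p (nat_lit 0x109) (nat_lit 0) (p (nat_lit 0xb0004) (nat_lit 0) (p (nat_lit 0x380c2) (nat_lit 0) (p (nat_lit 0x444aa) (nat_lit 7) (p (nat_lit 0x109) (nat_lit 1) (p (nat_lit 0x101) (nat_lit 0) (p (nat_lit 0x81) (nat_lit 1) (p (nat_lit 0xc1) (nat_lit 1) (p (nat_lit 0x119) (nat_lit 1) (p (nat_lit 0xd1) (nat_lit 0) (p (nat_lit 0x89) (nat_lit 0) (p (nat_lit 0x41) (nat_lit 0) (p (nat_lit 0x10a898a08881a) (nat_lit 0) (p (nat_lit 0x8a090988079a) (nat_lit 0) (p (nat_lit 0x108088907871a) (nat_lit 0) (p (nat_lit 0x87880887069a) (nat_lit 0) (p (nat_lit 0x8000080000000088806860a) (nat_lit 0) (p (nat_lit 0x8000080000000068786058a) (nat_lit 0) (p (nat_lit 0x10687058502) (nat_lit 0) (p (nat_lit 0x8606850482) (nat_lit 0) (p (nat_lit 0x160004) (nat_lit 0) (p (nat_lit 0x68612) (nat_lit 0) (p (nat_lit 0x50592) (nat_lit 0) (p (nat_lit 0x40512)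 (nat_lit 0) (p (nat_lit 0x50312) (nat_lit 0) (p (nat_lit 0x38292) (nat_lit 0) (p (nat_lit 0x28212) (nat_lit 0) (p (nat_lit 0x38112) (nat_lit 0) (p (nat_lit 0x20092) (nat_lit 0) (p (nat_lit 0x10012) (nat_lit 0) pn)))))))))))))))))))))))))))))) :=
  Cl.node (nat_lit 0x101) (nat_lit 2) (by decide +kernel) (ClAll.succ (ClAll.succ ClAll.zero n242) s403)

def n306 : Cl (O (nat_lit 6)) (R (nat_lit 143633))
    (p (nat_lit 0x109) (nat_lit 0) (p (nat_lit 0xb0004) (nat_lit 0) (p (nat_lit 0x380c2) (nat_lit 1) (p (nat_lit 0x444aa) (nat_lit 7) (p (nat_lit 0x109) (nat_lit 1) (p (nat_lit 0x101) (nat_lit 0) (p (nat_lit 0x81) (nat_lit 1) (p (nat_lit 0xc1) (nat_lit 1) (p (nat_lit 0x119) (nat_lit 1) (p (nat_lit 0xd1) (nat_lit 0) (p (nat_lit 0x89) (nat_lit 0) (p (nat_lit 0x41) (nat_lit 0) (p (nat_lit 0x10a898a08881a) (nat_lit 0) (p (nat_lit 0x8a090988079a) (nat_lit 0) (p (nat_lit 0x108088907871a)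 (nat_lit 0) (p (nat_lit 0x87880887069a) (nat_lit 0) (p (nat_lit 0x8000080000000088806860a) (nat_lit 0) (p (nat_lit 0x8000080000000068786058a) (nat_lit 0) (p (nat_lit 0x10687058502) (nat_lit 0) (p (nat_lit 0x8606850482) (nat_lit 0) (p (nat_lit 0x160004) (nat_lit 0) (p (nat_lit 0x68612) (nat_lit 0) (p (nat_lit 0x50592) (nat_lit 0) (p (nat_lit 0x40512) (nat_lit 0) (p (nat_lit 0x50312) (nat_lit 0) (p (nat_lit 0x38292) (nat_lit 0) (p (nat_lit 0x28212) (nat_lit 0) (p (nat_lit 0x38112) (nat_lit 0) (p (nat_lit 0x20092) (nat_lit 0) (p (nat_lit 0x10012) (nat_lit 0) pn)))))))))))))))))))))))))))))) :=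
  Cl.node (nat_lit 0x44c2a) (nat_lit 12) (by decide +kernel) (ClAll.succ (ClAll.succ (ClAll.succ (ClAll.succ (ClAll.succ (ClAll.succ (ClAll.succ (ClAll.succ (ClAll.succ (ClAll.succ (ClAll.succ (ClAll.succ ClAll.zero s406) s407) s408) s409) s410) s411) s412) s413) s414) s415) s416) s417)

def n307 : Cl (O (nat_lit 6)) (R (nat_lit 143633))
    (p (nat_lit 0x1fc00c) (nat_lit 0) (p (nat_lit 0xb0004) (nat_lit 1) (p (nat_lit 0x380c2) (nat_lit 1) (p (nat_lit 0x444aa) (nat_lit 7) (p (nat_lit 0x109) (nat_lit 1) (p (nat_lit 0x101) (nat_lit 0) (p (nat_lit 0x81) (nat_lit 1) (p (nat_lit 0xc1) (nat_lit 1) (p (nat_lit 0x119) (nat_lit 1) (p (nat_lit 0xd1) (nat_lit 0) (p (nat_lit 0x89) (nat_lit 0) (p (nat_lit 0x41) (nat_lit 0) (p (nat_lit 0x10a898a08881a) (nat_lit 0) (p (nat_lit 0x8a090988079a) (nat_lit 0) (p (nat_lit 0x108088907871a) (nat_lit 0) (p (nat_lit 0x87880887069a) (nat_lit 0) (p (nat_lit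 0x8000080000000088806860a) (nat_lit 0) (p (nat_lit 0x8000080000000068786058a) (nat_lit 0) (p (nat_lit 0x10687058502) (nat_lit 0) (p (nat_lit 0x8606850482) (nat_lit 0) (p (nat_lit 0x160004) (nat_lit 0) (p (nat_lit 0x68612) (nat_lit 0) (p (nat_lit 0x50592) (nat_lit 0) (p (nat_lit 0x40512) (nat_lit 0) (p (nat_lit 0x50312) (nat_lit 0) (p (nat_lit 0x38292) (nat_lit 0) (p (nat_lit 0x28212) (nat_lit 0) (p (nat_lit 0x38112) (nat_lit 0) (p (nat_lit 0x20092) (nat_lit 0) (p (nat_lit 0x10012) (nat_lit 0) pn)))))))))))))))))))))))))))))) :=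
  Cl.node (nat_lit 0x1fc014) (nat_lit 2) (by decide +kernel) (ClAll.succ (ClAll.succ ClAll.zero n243) s423)

def n308 : Cl (O (nat_lit 6)) (R (nat_lit 143633))
    (p (nat_lit 0x20000c) (nat_lit 0) (p (nat_lit 0x200014) (nat_lit 0) (p (nat_lit 0x380c2) (nat_lit 0) (p (nat_lit 0x444aa) (nat_lit 8) (p (nat_lit 0x109) (nat_lit 1) (p (nat_lit 0x101) (nat_lit 0) (p (nat_lit 0x81) (nat_lit 1) (p (nat_lit 0xc1) (nat_lit 1) (p (nat_lit 0x119) (nat_lit 1) (p (nat_lit 0xd1) (nat_lit 0) (p (nat_lit 0x89) (nat_lit 0) (p (nat_lit 0x41) (nat_lit 0) (p (nat_lit 0x10a898a08881a) (nat_lit 0) (p (nat_lit 0x8a090988079a) (nat_lit 0) (p (nat_lit 0x108088907871a) (nat_lit 0) (p (nat_lit 0x87880887069a) (nat_lit 0) (p (nat_lit 0x8000080000000088806860a) (nat_lit 0) (p (nat_lit 0x8000080000000068786058a) (nat_lit 0) (p (nat_lit 0x10687058502) (nat_lit 0) (p (nat_lit 0x8606850482) (nat_lit 0) (p (nat_lit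 0x160004) (nat_lit 0) (p (nat_lit 0x68612) (nat_lit 0) (p (nat_lit 0x50592) (nat_lit 0) (p (nat_lit 0x40512) (nat_lit 0) (p (nat_lit 0x50312) (nat_lit 0) (p (nat_lit 0x38292) (nat_lit 0) (p (nat_lit 0x28212) (nat_lit 0) (p (nat_lit 0x38112) (nat_lit 0) (p (nat_lit 0x20092) (nat_lit 0) (p (nat_lit 0x10012) (nat_lit 0) pn)))))))))))))))))))))))))))))) :=
  Cl.node (nat_lit 0x10000c) (nat_lit 2) (by decide +kernel) (ClAll.succ (ClAll.succ ClAll.zero s425) s426)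

def n309 : Cl (O (nat_lit 6)) (R (nat_lit 143633))
    (p (nat_lit 0x380c2) (nat_lit 0) (p (nat_lit 0x4c42a) (nat_lit 2) (p (nat_lit 0x109) (nat_lit 0) (p (nat_lit 0x200014) (nat_lit 0) (p (nat_lit 0x20000c) (nat_lit 0) (p (nat_lit 0x119) (nat_lit 0) (p (nat_lit 0x81) (nat_lit 0) (p (nat_lit 0x101) (nat_lit 1) (p (nat_lit 0x111) (nat_lit 0) (p (nat_lit 0xd1) (nat_lit 1) (p (nat_lit 0x89) (nat_lit 0) (p (nat_lit 0x41) (nat_lit 0) (p (nat_lit 0x10a898a08881a) (nat_lit 0) (p (nat_lit 0x8a090988079a) (nat_lit 0) (p (nat_lit 0x108088907871a) (nat_lit 0) (p (nat_lit 0x87880887069a) (nat_lit 0) (p (nat_lit 0x8000080000000088806860a) (nat_lit 0) (p (nat_lit 0x8000080000000068786058a) (nat_lit 0) (p (nat_lit 0x10687058502) (nat_lit 0) (p (nat_lit 0x8606850482) (nat_lit 0) (p (nat_lit 0x160004) (nat_lit 0) (p (nat_lit 0x68612) (nat_lit 0) (p (nat_lit 0x50592) (nat_lit 0) (p (nat_lit 0x40512)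 (nat_lit 0) (p (nat_lit 0x50312) (nat_lit 0) (p (nat_lit 0x38292) (nat_lit 0) (p (nat_lit 0x28212) (nat_lit 0) (p (nat_lit 0x38112) (nat_lit 0) (p (nat_lit 0x20092) (nat_lit 0) (p (nat_lit 0x10012) (nat_lit 0) pn)))))))))))))))))))))))))))))) :=
  Cl.node (nat_lit 0x10000c) (nat_lit 2) (by decide +kernel) (ClAll.succ (ClAll.succ ClAll.zero n244) s499)

def n310 : Cl (O (nat_lit 6)) (R (nat_lit 143633))
    (p (nat_lit 0xc9) (nat_lit 0) (p (nat_lit 0xb0004) (nat_lit 0) (p (nat_lit 0x380c2) (nat_lit 1) (p (nat_lit 0x444aa) (nat_lit 7) (p (nat_lit 0x119) (nat_lit 0) (p (nat_lit 0xc1) (nat_lit 0) (p (nat_lit 0x81) (nat_lit 1) (p (nat_lit 0x101) (nat_lit 1) (p (nat_lit 0x111) (nat_lit 0) (p (nat_lit 0xd1) (nat_lit 1) (p (nat_lit 0x89) (nat_lit 0) (p (nat_lit 0x41) (nat_lit 0) (p (nat_lit 0x10a898a08881a) (nat_lit 0) (p (nat_lit 0x8a090988079a) (nat_lit 0) (p (nat_lit 0x108088907871a)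 (nat_lit 0) (p (nat_lit 0x87880887069a) (nat_lit 0) (p (nat_lit 0x8000080000000088806860a) (nat_lit 0) (p (nat_lit 0x8000080000000068786058a) (nat_lit 0) (p (nat_lit 0x10687058502) (nat_lit 0) (p (nat_lit 0x8606850482) (nat_lit 0) (p (nat_lit 0x160004) (nat_lit 0) (p (nat_lit 0x68612) (nat_lit 0) (p (nat_lit 0x50592) (nat_lit 0) (p (nat_lit 0x40512) (nat_lit 0) (p (nat_lit 0x50312) (nat_lit 0) (p (nat_lit 0x38292) (nat_lit 0) (p (nat_lit 0x28212) (nat_lit 0) (p (nat_lit 0x38112) (nat_lit 0) (p (nat_lit 0x20092) (nat_lit 0) (p (nat_lit 0x10012) (nat_lit 0) pn)))))))))))))))))))))))))))))) :=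
  Cl.node (nat_lit 0x4c42a) (nat_lit 12) (by decide +kernel) (ClAll.succ (ClAll.succ (ClAll.succ (ClAll.succ (ClAll.succ (ClAll.succ (ClAll.succ (ClAll.succ (ClAll.succ (ClAll.succ (ClAll.succ (ClAll.succ ClAll.zero s558) s559) n245) s574) s575) s576) s577) s578) s579) s580) s581) s582)

def n311 : Cl (O (nat_lit 6)) (R (nat_lit 143633))
    (p (nat_lit 0x200014) (nat_lit 0) (p (nat_lit 0x20000c) (nat_lit 0) (p (nat_lit 0x380c2) (nat_lit 1) (p (nat_lit 0x444aa) (nat_lit 8) (p (nat_lit 0x119) (nat_lit 0) (p (nat_lit 0xc1) (nat_lit 0) (p (nat_lit 0x81) (nat_lit 1) (p (nat_lit 0x101) (nat_lit 1) (p (nat_lit 0x111) (nat_lit 0) (p (nat_lit 0xd1) (nat_lit 1) (p (nat_lit 0x89) (nat_lit 0) (p (nat_lit 0x41) (nat_lit 0) (p (nat_lit 0x10a898a08881a) (nat_lit 0) (p (nat_lit 0x8a090988079a) (nat_lit 0) (p (nat_lit 0x108088907871a) (nat_lit 0) (p (nat_lit 0x87880887069a) (nat_lit 0) (p (nat_lit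 0x8000080000000088806860a) (nat_lit 0) (p (nat_lit 0x8000080000000068786058a) (nat_lit 0) (p (nat_lit 0x10687058502) (nat_lit 0) (p (nat_lit 0x8606850482) (nat_lit 0) (p (nat_lit 0x160004) (nat_lit 0) (p (nat_lit 0x68612) (nat_lit 0) (p (nat_lit 0x50592) (nat_lit 0) (p (nat_lit 0x40512) (nat_lit 0) (p (nat_lit 0x50312) (nat_lit 0) (p (nat_lit 0x38292) (nat_lit 0) (p (nat_lit 0x28212) (nat_lit 0) (p (nat_lit 0x38112) (nat_lit 0) (p (nat_lit 0x20092) (nat_lit 0) (p (nat_lit 0x10012) (nat_lit 0) pn)))))))))))))))))))))))))))))) :=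
  Cl.node (nat_lit 0x100014) (nat_lit 2) (by decide +kernel) (ClAll.succ (ClAll.succ ClAll.zero n246) s590)

def n312 : Cl (O (nat_lit 6)) (R (nat_lit 143633))
    (p (nat_lit 0x10000c) (nat_lit 0) (p (nat_lit 0x20000c) (nat_lit 0) (p (nat_lit 0x380c2) (nat_lit 0) (p (nat_lit 0x444aa) (nat_lit 7) (p (nat_lit 0xd1) (nat_lit 1) (p (nat_lit 0x111) (nat_lit 1) (p (nat_lit 0x109) (nat_lit 0) (p (nat_lit 0x101) (nat_lit 0) (p (nat_lit 0x119) (nat_lit 0) (p (nat_lit 0xc9) (nat_lit 0) (p (nat_lit 0x89) (nat_lit 1) (p (nat_lit 0x41) (nat_lit 0) (p (nat_lit 0x10a898a08881a) (nat_lit 0) (p (nat_lit 0x8a090988079a) (nat_lit 0) (p (nat_lit 0x108088907871a) (nat_lit 0) (p (nat_lit 0x87880887069a) (nat_lit 0) (p (nat_lit 0x8000080000000088806860a) (nat_lit 0) (p (nat_lit 0x8000080000000068786058a) (nat_lit 0) (p (nat_lit 0x10687058502) (nat_lit 0) (p (nat_lit 0x8606850482) (nat_lit 0) (p (nat_lit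 0x160004) (nat_lit 0) (p (nat_lit 0x68612) (nat_lit 0) (p (nat_lit 0x50592) (nat_lit 0) (p (nat_lit 0x40512) (nat_lit 0) (p (nat_lit 0x50312) (nat_lit 0) (p (nat_lit 0x38292) (nat_lit 0) (p (nat_lit 0x28212) (nat_lit 0) (p (nat_lit 0x38112) (nat_lit 0) (p (nat_lit 0x20092) (nat_lit 0) (p (nat_lit 0x10012) (nat_lit 0) pn)))))))))))))))))))))))))))))) :=
  Cl.node (nat_lit 0x200014) (nat_lit 2) (by decide +kernel) (ClAll.succ (ClAll.succ ClAll.zero n247) s672)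

def n313 : Cl (O (nat_lit 6)) (R (nat_lit 143633))
    (p (nat_lit 0x20000c) (nat_lit 0) (p (nat_lit 0xb0004) (nat_lit 0) (p (nat_lit 0x380c2) (nat_lit 1) (p (nat_lit 0x444aa) (nat_lit 7) (p (nat_lit 0xd1) (nat_lit 1) (p (nat_lit 0x111) (nat_lit 1) (p (nat_lit 0x109) (nat_lit 0) (p (nat_lit 0x101) (nat_lit 0) (p (nat_lit 0x119) (nat_lit 0) (p (nat_lit 0xc9) (nat_lit 0) (p (nat_lit 0x89) (nat_lit 1) (p (nat_lit 0x41) (nat_lit 0) (p (nat_lit 0x10a898a08881a) (nat_lit 0) (p (nat_lit 0x8a090988079a) (nat_lit 0) (p (nat_lit 0x108088907871a) (nat_lit 0) (p (nat_lit 0x87880887069a) (nat_lit 0) (p (nat_lit 0x8000080000000088806860a) (nat_lit 0) (p (nat_lit 0x8000080000000068786058a) (nat_lit 0) (p (nat_lit 0x10687058502) (nat_lit 0) (p (nat_lit 0x8606850482) (nat_lit 0) (p (nat_lit 0x160004) (nat_lit 0) (p (nat_lit 0x68612) (nat_lit 0) (p (nat_lit 0x50592) (nat_lit 0) (p (nat_lit 0x40512)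 (nat_lit 0) (p (nat_lit 0x50312) (nat_lit 0) (p (nat_lit 0x38292) (nat_lit 0) (p (nat_lit 0x28212) (nat_lit 0) (p (nat_lit 0x38112) (nat_lit 0) (p (nat_lit 0x20092) (nat_lit 0) (p (nat_lit 0x10012) (nat_lit 0) pn)))))))))))))))))))))))))))))) :=
  Cl.node (nat_lit 0xc1) (nat_lit 2) (by decide +kernel) (ClAll.succ (ClAll.succ ClAll.zero n248) n249)

def n314 : Cl (O (nat_lit 6)) (R (nat_lit 143633))
    (p (nat_lit 0x1fc00c) (nat_lit 0) (p (nat_lit 0xb0004) (nat_lit 1) (p (nat_lit 0x380c2) (nat_lit 1) (p (nat_lit 0x444aa) (nat_lit 7) (p (nat_lit 0xd1) (nat_lit 1) (p (nat_lit 0x111) (nat_lit 1) (p (nat_lit 0x109) (nat_lit 0) (p (nat_lit 0x101) (nat_lit 0) (p (nat_lit 0x119) (nat_lit 0) (p (nat_lit 0xc9) (nat_lit 0) (p (nat_lit 0x89) (nat_lit 1) (p (nat_lit 0x41) (nat_lit 0) (p (nat_lit 0x10a898a08881a) (nat_lit 0) (p (nat_lit 0x8a090988079a) (nat_lit 0) (p (nat_lit 0x108088907871a)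 (nat_lit 0) (p (nat_lit 0x87880887069a) (nat_lit 0) (p (nat_lit 0x8000080000000088806860a) (nat_lit 0) (p (nat_lit 0x8000080000000068786058a) (nat_lit 0) (p (nat_lit 0x10687058502) (nat_lit 0) (p (nat_lit 0x8606850482) (nat_lit 0) (p (nat_lit 0x160004) (nat_lit 0) (p (nat_lit 0x68612) (nat_lit 0) (p (nat_lit 0x50592) (nat_lit 0) (p (nat_lit 0x40512) (nat_lit 0) (p (nat_lit 0x50312) (nat_lit 0) (p (nat_lit 0x38292) (nat_lit 0) (p (nat_lit 0x28212) (nat_lit 0) (p (nat_lit 0x38112) (nat_lit 0) (p (nat_lit 0x20092) (nat_lit 0) (p (nat_lit 0x10012) (nat_lit 0) pn)))))))))))))))))))))))))))))) :=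
  Cl.node (nat_lit 0x1fc014) (nat_lit 2) (by decide +kernel) (ClAll.succ (ClAll.succ ClAll.zero n250) s692)

def n315 : Cl (O (nat_lit 6)) (R (nat_lit 143633))
    (p (nat_lit 0x380c2) (nat_lit 0) (p (nat_lit 0x44c2a) (nat_lit 0) (p (nat_lit 0x41) (nat_lit 0) (p (nat_lit 0x200014) (nat_lit 0) (p (nat_lit 0x20000c) (nat_lit 0) (p (nat_lit 0xd1) (nat_lit 0) (p (nat_lit 0x109) (nat_lit 1) (p (nat_lit 0x101) (nat_lit 0) (p (nat_lit 0x119) (nat_lit 0) (p (nat_lit 0xc9) (nat_lit 0) (p (nat_lit 0x89) (nat_lit 1) (p (nat_lit 0x41) (nat_lit 0) (p (nat_lit 0x10a898a08881a) (nat_lit 0) (p (nat_lit 0x8a090988079a) (nat_lit 0) (p (nat_lit 0x108088907871a) (nat_lit 0) (p (nat_lit 0x87880887069a) (nat_lit 0) (p (nat_lit 0x8000080000000088806860a) (nat_lit 0) (p (nat_lit 0x8000080000000068786058a) (nat_lit 0) (p (nat_lit 0x10687058502) (nat_lit 0) (p (nat_lit 0x8606850482) (nat_lit 0) (p (nat_lit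 0x160004) (nat_lit 0) (p (nat_lit 0x68612) (nat_lit 0) (p (nat_lit 0x50592) (nat_lit 0) (p (nat_lit 0x40512) (nat_lit 0) (p (nat_lit 0x50312) (nat_lit 0) (p (nat_lit 0x38292) (nat_lit 0) (p (nat_lit 0x28212) (nat_lit 0) (p (nat_lit 0x38112) (nat_lit 0) (p (nat_lit 0x20092) (nat_lit 0) (p (nat_lit 0x10012) (nat_lit 0) pn)))))))))))))))))))))))))))))) :=
  Cl.node (nat_lit 0xc1) (nat_lit 2) (by decide +kernel) (ClAll.succ (ClAll.succ ClAll.zero s698) s699)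

def n316 : Cl (O (nat_lit 6)) (R (nat_lit 143633))
    (p (nat_lit 0x380c2) (nat_lit 1) (p (nat_lit 0x44c2a) (nat_lit 0) (p (nat_lit 0x41) (nat_lit 0) (p (nat_lit 0x200014) (nat_lit 0) (p (nat_lit 0x20000c) (nat_lit 0) (p (nat_lit 0xd1) (nat_lit 0) (p (nat_lit 0x109) (nat_lit 1) (p (nat_lit 0x101) (nat_lit 0) (p (nat_lit 0x119) (nat_lit 0) (p (nat_lit 0xc9) (nat_lit 0) (p (nat_lit 0x89) (nat_lit 1) (p (nat_lit 0x41) (nat_lit 0) (p (nat_lit 0x10a898a08881a) (nat_lit 0) (p (nat_lit 0x8a090988079a) (nat_lit 0) (p (nat_lit 0x108088907871a) (nat_lit 0) (p (nat_lit 0x87880887069a) (nat_lit 0) (p (nat_lit 0x8000080000000088806860a) (nat_lit 0) (p (nat_lit 0x8000080000000068786058a) (nat_lit 0) (p (nat_lit 0x10687058502) (nat_lit 0) (p (nat_lit 0x8606850482) (nat_lit 0) (p (nat_lit 0x160004) (nat_lit 0) (p (nat_lit 0x68612) (nat_lit 0) (p (nat_lit 0x50592) (nat_lit 0) (p (nat_lit 0x40512)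 (nat_lit 0) (p (nat_lit 0x50312) (nat_lit 0) (p (nat_lit 0x38292) (nat_lit 0) (p (nat_lit 0x28212) (nat_lit 0) (p (nat_lit 0x38112) (nat_lit 0) (p (nat_lit 0x20092) (nat_lit 0) (p (nat_lit 0x10012) (nat_lit 0) pn)))))))))))))))))))))))))))))) :=
  Cl.node (nat_lit 0xc1) (nat_lit 2) (by decide +kernel) (ClAll.succ (ClAll.succ ClAll.zero s700) s701)

def n317 : Cl (O (nat_lit 6)) (R (nat_lit 143633))
    (p (nat_lit 0x380c2) (nat_lit 0) (p (nat_lit 0x44c2a) (nat_lit 1) (p (nat_lit 0x41) (nat_lit 0) (p (nat_lit 0x200014) (nat_lit 0) (p (nat_lit 0x20000c) (nat_lit 0) (p (nat_lit 0xd1) (nat_lit 0) (p (nat_lit 0x109) (nat_lit 1) (p (nat_lit 0x101) (nat_lit 0) (p (nat_lit 0x119) (nat_lit 0) (p (nat_lit 0xc9) (nat_lit 0) (p (nat_lit 0x89) (nat_lit 1) (p (nat_lit 0x41) (nat_lit 0) (p (nat_lit 0x10a898a08881a) (nat_lit 0) (p (nat_lit 0x8a090988079a) (nat_lit 0) (p (nat_lit 0x108088907871a)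 (nat_lit 0) (p (nat_lit 0x87880887069a) (nat_lit 0) (p (nat_lit 0x8000080000000088806860a) (nat_lit 0) (p (nat_lit 0x8000080000000068786058a) (nat_lit 0) (p (nat_lit 0x10687058502) (nat_lit 0) (p (nat_lit 0x8606850482) (nat_lit 0) (p (nat_lit 0x160004) (nat_lit 0) (p (nat_lit 0x68612) (nat_lit 0) (p (nat_lit 0x50592) (nat_lit 0) (p (nat_lit 0x40512) (nat_lit 0) (p (nat_lit 0x50312) (nat_lit 0) (p (nat_lit 0x38292) (nat_lit 0) (p (nat_lit 0x28212) (nat_lit 0) (p (nat_lit 0x38112) (nat_lit 0) (p (nat_lit 0x20092) (nat_lit 0) (p (nat_lit 0x10012) (nat_lit 0) pn)))))))))))))))))))))))))))))) :=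
  Cl.node (nat_lit 0xb0004) (nat_lit 2) (by decide +kernel) (ClAll.succ (ClAll.succ ClAll.zero n251) s704)

def n318 : Cl (O (nat_lit 6)) (R (nat_lit 143633))
    (p (nat_lit 0x20000c) (nat_lit 0) (p (nat_lit 0xc1) (nat_lit 0) (p (nat_lit 0xb0004) (nat_lit 0) (p (nat_lit 0x380c2) (nat_lit 0) (p (nat_lit 0x444aa) (nat_lit 7) (p (nat_lit 0xd1) (nat_lit 1) (p (nat_lit 0x109) (nat_lit 1) (p (nat_lit 0x101) (nat_lit 0) (p (nat_lit 0x119) (nat_lit 0) (p (nat_lit 0xc9) (nat_lit 0) (p (nat_lit 0x89) (nat_lit 1) (p (nat_lit 0x41) (nat_lit 0) (p (nat_lit 0x10a898a08881a) (nat_lit 0) (p (nat_lit 0x8a090988079a) (nat_lit 0) (p (nat_lit 0x108088907871a) (nat_lit 0) (p (nat_lit 0x87880887069a) (nat_lit 0) (p (nat_lit 0x8000080000000088806860a) (nat_lit 0) (p (nat_lit 0x8000080000000068786058a) (nat_lit 0) (p (nat_lit 0x10687058502) (nat_lit 0) (p (nat_lit 0x8606850482) (nat_lit 0) (p (nat_lit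 0x160004) (nat_lit 0) (p (nat_lit 0x68612) (nat_lit 0) (p (nat_lit 0x50592) (nat_lit 0) (p (nat_lit 0x40512) (nat_lit 0) (p (nat_lit 0x50312) (nat_lit 0) (p (nat_lit 0x38292) (nat_lit 0) (p (nat_lit 0x28212) (nat_lit 0) (p (nat_lit 0x38112) (nat_lit 0) (p (nat_lit 0x20092) (nat_lit 0) (p (nat_lit 0x10012) (nat_lit 0) pn)))))))))))))))))))))))))))))) :=
  Cl.node (nat_lit 0x10000c) (nat_lit 2) (by decide +kernel) (ClAll.succ (ClAll.succ ClAll.zero n252) s742)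

def n319 : Cl (O (nat_lit 6)) (R (nat_lit 143633))
    (p (nat_lit 0x1fc014) (nat_lit 0) (p (nat_lit 0x1fc00c) (nat_lit 0) (p (nat_lit 0xb0004) (nat_lit 1) (p (nat_lit 0x380c2) (nat_lit 0) (p (nat_lit 0x444aa) (nat_lit 7) (p (nat_lit 0xd1) (nat_lit 1) (p (nat_lit 0x109) (nat_lit 1) (p (nat_lit 0x101) (nat_lit 0) (p (nat_lit 0x119) (nat_lit 0) (p (nat_lit 0xc9) (nat_lit 0) (p (nat_lit 0x89) (nat_lit 1) (p (nat_lit 0x41) (nat_lit 0) (p (nat_lit 0x10a898a08881a) (nat_lit 0) (p (nat_lit 0x8a090988079a) (nat_lit 0) (p (nat_lit 0x108088907871a) (nat_lit 0) (p (nat_lit 0x87880887069a) (nat_lit 0) (p (nat_lit 0x8000080000000088806860a) (nat_lit 0) (p (nat_lit 0x8000080000000068786058a) (nat_lit 0) (p (nat_lit 0x10687058502) (nat_lit 0) (p (nat_lit 0x8606850482) (nat_lit 0) (p (nat_lit 0x160004) (nat_lit 0) (p (nat_lit 0x68612) (nat_lit 0) (p (nat_lit 0x50592) (nat_lit 0) (p (nat_lit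 0x40512) (nat_lit 0) (p (nat_lit 0x50312) (nat_lit 0) (p (nat_lit 0x38292) (nat_lit 0) (p (nat_lit 0x28212) (nat_lit 0) (p (nat_lit 0x38112) (nat_lit 0) (p (nat_lit 0x20092) (nat_lit 0) (p (nat_lit 0x10012) (nat_lit 0) pn)))))))))))))))))))))))))))))) :=
  Cl.node (nat_lit 0x100014) (nat_lit 2) (by decide +kernel) (ClAll.succ (ClAll.succ ClAll.zero n253) s761)

def n320 : Cl (O (nat_lit 6)) (R (nat_lit 143633))
    (p (nat_lit 0xc9) (nat_lit 0) (p (nat_lit 0xc1) (nat_lit 0) (p (nat_lit 0xb0004) (nat_lit 0) (p (nat_lit 0x380c2) (nat_lit 1) (p (nat_lit 0x444aa) (nat_lit 7) (p (nat_lit 0xd1) (nat_lit 1) (p (nat_lit 0x109) (nat_lit 1) (p (nat_lit 0x101) (nat_lit 0) (p (nat_lit 0x119) (nat_lit 0) (p (nat_lit 0xc9) (nat_lit 0) (p (nat_lit 0x89) (nat_lit 1) (p (nat_lit 0x41) (nat_lit 0) (p (nat_lit 0x10a898a08881a) (nat_lit 0) (p (nat_lit 0x8a090988079a) (nat_lit 0) (p (nat_lit 0x108088907871a)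 (nat_lit 0) (p (nat_lit 0x87880887069a) (nat_lit 0) (p (nat_lit 0x8000080000000088806860a) (nat_lit 0) (p (nat_lit 0x8000080000000068786058a) (nat_lit 0) (p (nat_lit 0x10687058502) (nat_lit 0) (p (nat_lit 0x8606850482) (nat_lit 0) (p (nat_lit 0x160004) (nat_lit 0) (p (nat_lit 0x68612) (nat_lit 0) (p (nat_lit 0x50592) (nat_lit 0) (p (nat_lit 0x40512) (nat_lit 0) (p (nat_lit 0x50312) (nat_lit 0) (p (nat_lit 0x38292) (nat_lit 0) (p (nat_lit 0x28212) (nat_lit 0) (p (nat_lit 0x38112) (nat_lit 0) (p (nat_lit 0x20092) (nat_lit 0) (p (nat_lit 0x10012) (nat_lit 0) pn)))))))))))))))))))))))))))))) :=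
  Cl.node (nat_lit 0x20000c) (nat_lit 2) (by decide +kernel) (ClAll.succ (ClAll.succ ClAll.zero n254) s792)

def n321 : Cl (O (nat_lit 6)) (R (nat_lit 143633))
    (p (nat_lit 0xc9) (nat_lit 1) (p (nat_lit 0xc1) (nat_lit 0) (p (nat_lit 0xb0004) (nat_lit 0) (p (nat_lit 0x380c2) (nat_lit 1) (p (nat_lit 0x444aa) (nat_lit 7) (p (nat_lit 0xd1) (nat_lit 1) (p (nat_lit 0x109) (nat_lit 1) (p (nat_lit 0x101) (nat_lit 0) (p (nat_lit 0x119) (nat_lit 0) (p (nat_lit 0xc9) (nat_lit 0) (p (nat_lit 0x89) (nat_lit 1) (p (nat_lit 0x41) (nat_lit 0) (p (nat_lit 0x10a898a08881a) (nat_lit 0) (p (nat_lit 0x8a090988079a) (nat_lit 0) (p (nat_lit 0x108088907871a) (nat_lit 0) (p (nat_lit 0x87880887069a) (nat_lit 0) (p (nat_lit 0x8000080000000088806860a) (nat_lit 0) (p (nat_lit 0x8000080000000068786058a) (nat_lit 0) (p (nat_lit 0x10687058502) (nat_lit 0) (p (nat_lit 0x8606850482) (nat_lit 0) (p (nat_lit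 0x160004) (nat_lit 0) (p (nat_lit 0x68612) (nat_lit 0) (p (nat_lit 0x50592) (nat_lit 0) (p (nat_lit 0x40512) (nat_lit 0) (p (nat_lit 0x50312) (nat_lit 0) (p (nat_lit 0x38292) (nat_lit 0) (p (nat_lit 0x28212) (nat_lit 0) (p (nat_lit 0x38112) (nat_lit 0) (p (nat_lit 0x20092) (nat_lit 0) (p (nat_lit 0x10012) (nat_lit 0) pn)))))))))))))))))))))))))))))) :=
  Cl.node (nat_lit 0x20000c) (nat_lit 2) (by decide +kernel) (ClAll.succ (ClAll.succ ClAll.zero n255) s796)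

def n322 : Cl (O (nat_lit 6)) (R (nat_lit 143633))
    (p (nat_lit 0x1fc014) (nat_lit 0) (p (nat_lit 0x1fc00c) (nat_lit 0) (p (nat_lit 0xb0004) (nat_lit 1) (p (nat_lit 0x380c2) (nat_lit 1) (p (nat_lit 0x444aa) (nat_lit 7) (p (nat_lit 0xd1) (nat_lit 1) (p (nat_lit 0x109) (nat_lit 1) (p (nat_lit 0x101) (nat_lit 0) (p (nat_lit 0x119) (nat_lit 0) (p (nat_lit 0xc9) (nat_lit 0) (p (nat_lit 0x89) (nat_lit 1) (p (nat_lit 0x41) (nat_lit 0) (p (nat_lit 0x10a898a08881a) (nat_lit 0) (p (nat_lit 0x8a090988079a) (nat_lit 0) (p (nat_lit 0x108088907871a) (nat_lit 0) (p (nat_lit 0x87880887069a) (nat_lit 0) (p (nat_lit 0x8000080000000088806860a) (nat_lit 0) (p (nat_lit 0x8000080000000068786058a) (nat_lit 0) (p (nat_lit 0x10687058502) (nat_lit 0) (p (nat_lit 0x8606850482) (nat_lit 0) (p (nat_lit 0x160004) (nat_lit 0) (p (nat_lit 0x68612) (nat_lit 0) (p (nat_lit 0x50592) (nat_lit 0) (p (nat_lit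 0x40512) (nat_lit 0) (p (nat_lit 0x50312) (nat_lit 0) (p (nat_lit 0x38292) (nat_lit 0) (p (nat_lit 0x28212) (nat_lit 0) (p (nat_lit 0x38112) (nat_lit 0) (p (nat_lit 0x20092) (nat_lit 0) (p (nat_lit 0x10012) (nat_lit 0) pn)))))))))))))))))))))))))))))) :=
  Cl.node (nat_lit 0x100014) (nat_lit 2) (by decide +kernel) (ClAll.succ (ClAll.succ ClAll.zero n256) s801)

def n323 : Cl (O (nat_lit 6)) (R (nat_lit 143633))
    (p (nat_lit 0x380c2) (nat_lit 0) (p (nat_lit 0x44c2a) (nat_lit 0) (p (nat_lit 0x109) (nat_lit 1) (p (nat_lit 0x200014) (nat_lit 0) (p (nat_lit 0x20000c) (nat_lit 0) (p (nat_lit 0xd1) (nat_lit 0) (p (nat_lit 0xc1) (nat_lit 0) (p (nat_lit 0x101) (nat_lit 1) (p (nat_lit 0x119) (nat_lit 0) (p (nat_lit 0xc9) (nat_lit 0) (p (nat_lit 0x89) (nat_lit 1) (p (nat_lit 0x41) (nat_lit 0) (p (nat_lit 0x10a898a08881a) (nat_lit 0) (p (nat_lit 0x8a090988079a) (nat_lit 0) (p (nat_lit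 0x108088907871a) (nat_lit 0) (p (nat_lit 0x87880887069a) (nat_lit 0) (p (nat_lit 0x8000080000000088806860a) (nat_lit 0) (p (nat_lit 0x8000080000000068786058a) (nat_lit 0) (p (nat_lit 0x10687058502) (nat_lit 0) (p (nat_lit 0x8606850482) (nat_lit 0) (p (nat_lit 0x160004) (nat_lit 0) (p (nat_lit 0x68612) (nat_lit 0) (p (nat_lit 0x50592) (nat_lit 0) (p (nat_lit 0x40512) (nat_lit 0) (p (nat_lit 0x50312) (nat_lit 0) (p (nat_lit 0x38292) (nat_lit 0) (p (nat_lit 0x28212) (nat_lit 0) (p (nat_lit 0x38112) (nat_lit 0) (p (nat_lit 0x20092) (nat_lit 0) (p (nat_lit 0x10012) (nat_lit 0) pn)))))))))))))))))))))))))))))) :=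
  Cl.node (nat_lit 0x41) (nat_lit 2) (by decide +kernel) (ClAll.succ (ClAll.succ ClAll.zero n257) n258)

def n324 : Cl (O (nat_lit 6)) (R (nat_lit 143633))
    (p (nat_lit 0x380c2) (nat_lit 1) (p (nat_lit 0x44c2a) (nat_lit 0) (p (nat_lit 0x109) (nat_lit 1) (p (nat_lit 0x200014) (nat_lit 0) (p (nat_lit 0x20000c) (nat_lit 0) (p (nat_lit 0xd1) (nat_lit 0) (p (nat_lit 0xc1) (nat_lit 0) (p (nat_lit 0x101) (nat_lit 1) (p (nat_lit 0x119) (nat_lit 0) (p (nat_lit 0xc9) (nat_lit 0) (p (nat_lit 0x89) (nat_lit 1) (p (nat_lit 0x41) (nat_lit 0) (p (nat_lit 0x10a898a08881a) (nat_lit 0) (p (nat_lit 0x8a090988079a) (nat_lit 0) (p (nat_lit 0x108088907871a) (nat_lit 0) (p (nat_lit 0x87880887069a) (nat_lit 0) (p (nat_lit 0x8000080000000088806860a) (nat_lit 0) (p (nat_lit 0x8000080000000068786058a) (nat_lit 0) (p (nat_lit 0x10687058502) (nat_lit 0) (p (nat_lit 0x8606850482) (nat_lit 0) (p (nat_lit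 0x160004) (nat_lit 0) (p (nat_lit 0x68612) (nat_lit 0) (p (nat_lit 0x50592) (nat_lit 0) (p (nat_lit 0x40512) (nat_lit 0) (p (nat_lit 0x50312) (nat_lit 0) (p (nat_lit 0x38292) (nat_lit 0) (p (nat_lit 0x28212) (nat_lit 0) (p (nat_lit 0x38112) (nat_lit 0) (p (nat_lit 0x20092) (nat_lit 0) (p (nat_lit 0x10012) (nat_lit 0) pn)))))))))))))))))))))))))))))) :=
  Cl.node (nat_lit 0xc1) (nat_lit 2) (by decide +kernel) (ClAll.succ (ClAll.succ ClAll.zero s839) n259)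

def n325 : Cl (O (nat_lit 6)) (R (nat_lit 143633))
    (p (nat_lit 0x380c2) (nat_lit 0) (p (nat_lit 0x44c2a) (nat_lit 1) (p (nat_lit 0x109) (nat_lit 1) (p (nat_lit 0x200014) (nat_lit 0) (p (nat_lit 0x20000c) (nat_lit 0) (p (nat_lit 0xd1) (nat_lit 0) (p (nat_lit 0xc1) (nat_lit 0) (p (nat_lit 0x101) (nat_lit 1) (p (nat_lit 0x119) (nat_lit 0) (p (nat_lit 0xc9) (nat_lit 0) (p (nat_lit 0x89) (nat_lit 1) (p (nat_lit 0x41) (nat_lit 0) (p (nat_lit 0x10a898a08881a) (nat_lit 0) (p (nat_lit 0x8a090988079a) (nat_lit 0) (p (nat_lit 0x108088907871a) (nat_lit 0) (p (nat_lit 0x87880887069a) (nat_lit 0) (p (nat_lit 0x8000080000000088806860a) (nat_lit 0) (p (nat_lit 0x8000080000000068786058a) (nat_lit 0) (p (nat_lit 0x10687058502) (nat_lit 0) (p (nat_lit 0x8606850482) (nat_lit 0) (p (nat_lit 0x160004) (nat_lit 0) (p (nat_lit 0x68612) (nat_lit 0) (p (nat_lit 0x50592) (nat_lit 0) (p (nat_lit 0x40512)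 (nat_lit 0) (p (nat_lit 0x50312) (nat_lit 0) (p (nat_lit 0x38292) (nat_lit 0) (p (nat_lit 0x28212) (nat_lit 0) (p (nat_lit 0x38112) (nat_lit 0) (p (nat_lit 0x20092) (nat_lit 0) (p (nat_lit 0x10012) (nat_lit 0) pn)))))))))))))))))))))))))))))) :=
  Cl.node (nat_lit 0xb0004) (nat_lit 2) (by decide +kernel) (ClAll.succ (ClAll.succ ClAll.zero n260) n261)

def n326 : Cl (O (nat_lit 6)) (R (nat_lit 143633))
    (p (nat_lit 0xd1) (nat_lit 0) (p (nat_lit 0xc9) (nat_lit 0) (p (nat_lit 0xb0004) (nat_lit 0) (p (nat_lit 0x380c2) (nat_lit 0) (p (nat_lit 0x444aa) (nat_lit 7) (p (nat_lit 0xd1) (nat_lit 1) (p (nat_lit 0xc1) (nat_lit 0) (p (nat_lit 0x101) (nat_lit 1) (p (nat_lit 0x119) (nat_lit 0) (p (nat_lit 0xc9) (nat_lit 0) (p (nat_lit 0x89) (nat_lit 1) (p (nat_lit 0x41) (nat_lit 0) (p (nat_lit 0x10a898a08881a) (nat_lit 0) (p (nat_lit 0x8a090988079a) (nat_lit 0) (p (nat_lit 0x108088907871a)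 (nat_lit 0) (p (nat_lit 0x87880887069a) (nat_lit 0) (p (nat_lit 0x8000080000000088806860a) (nat_lit 0) (p (nat_lit 0x8000080000000068786058a) (nat_lit 0) (p (nat_lit 0x10687058502) (nat_lit 0) (p (nat_lit 0x8606850482) (nat_lit 0) (p (nat_lit 0x160004) (nat_lit 0) (p (nat_lit 0x68612) (nat_lit 0) (p (nat_lit 0x50592) (nat_lit 0) (p (nat_lit 0x40512) (nat_lit 0) (p (nat_lit 0x50312) (nat_lit 0) (p (nat_lit 0x38292) (nat_lit 0) (p (nat_lit 0x28212) (nat_lit 0) (p (nat_lit 0x38112) (nat_lit 0) (p (nat_lit 0x20092) (nat_lit 0) (p (nat_lit 0x10012) (nat_lit 0) pn)))))))))))))))))))))))))))))) :=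
  Cl.node (nat_lit 0x119) (nat_lit 2) (by decide +kernel) (ClAll.succ (ClAll.succ ClAll.zero s865) n262)

def n327 : Cl (O (nat_lit 6)) (R (nat_lit 143633))
    (p (nat_lit 0xd1) (nat_lit 0) (p (nat_lit 0xc9) (nat_lit 0) (p (nat_lit 0xb0004) (nat_lit 0) (p (nat_lit 0x380c2) (nat_lit 1) (p (nat_lit 0x444aa) (nat_lit 7) (p (nat_lit 0xd1) (nat_lit 1) (p (nat_lit 0xc1) (nat_lit 0) (p (nat_lit 0x101) (nat_lit 1) (p (nat_lit 0x119) (nat_lit 0) (p (nat_lit 0xc9) (nat_lit 0) (p (nat_lit 0x89) (nat_lit 1) (p (nat_lit 0x41) (nat_lit 0) (p (nat_lit 0x10a898a08881a) (nat_lit 0) (p (nat_lit 0x8a090988079a) (nat_lit 0) (p (nat_lit 0x108088907871a) (nat_lit 0) (p (nat_lit 0x87880887069a) (nat_lit 0) (p (nat_lit 0x8000080000000088806860a) (nat_lit 0) (p (nat_lit 0x8000080000000068786058a) (nat_lit 0) (p (nat_lit 0x10687058502) (nat_lit 0) (p (nat_lit 0x8606850482) (nat_lit 0) (p (nat_lit 0x160004)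 (nat_lit 0) (p (nat_lit 0x68612) (nat_lit 0) (p (nat_lit 0x50592) (nat_lit 0) (p (nat_lit 0x40512) (nat_lit 0) (p (nat_lit 0x50312) (nat_lit 0) (p (nat_lit 0x38292) (nat_lit 0) (p (nat_lit 0x28212) (nat_lit 0) (p (nat_lit 0x38112) (nat_lit 0) (p (nat_lit 0x20092) (nat_lit 0) (p (nat_lit 0x10012) (nat_lit 0) pn)))))))))))))))))))))))))))))) :=
  Cl.node (nat_lit 0x119) (nat_lit 2) (by decide +kernel) (ClAll.succ (ClAll.succ ClAll.zero s881) n263)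

def n328 : Cl (O (nat_lit 6)) (R (nat_lit 143633))
    (p (nat_lit 0x111) (nat_lit 0) (p (nat_lit 0x109) (nat_lit 0) (p (nat_lit 0xb0004) (nat_lit 0) (p (nat_lit 0x380c2) (nat_lit 1) (p (nat_lit 0x444aa) (nat_lit 7) (p (nat_lit 0x111) (nat_lit 1) (p (nat_lit 0xd1) (nat_lit 1) (p (nat_lit 0xc1) (nat_lit 0) (p (nat_lit 0x119) (nat_lit 1) (p (nat_lit 0xc9) (nat_lit 0) (p (nat_lit 0x89) (nat_lit 1) (p (nat_lit 0x41) (nat_lit 0) (p (nat_lit 0x10a898a08881a) (nat_lit 0) (p (nat_lit 0x8a090988079a) (nat_lit 0) (p (nat_lit 0x108088907871a) (nat_lit 0) (p (nat_lit 0x87880887069a) (nat_lit 0) (p (nat_lit 0x8000080000000088806860a) (nat_lit 0) (p (nat_lit 0x8000080000000068786058a) (nat_lit 0) (p (nat_lit 0x10687058502) (nat_lit 0) (p (nat_lit 0x8606850482) (nat_lit 0) (p (nat_lit 0x160004) (nat_lit 0) (p (nat_lit 0x68612) (nat_lit 0) (p (nat_lit 0x50592) (nat_lit 0) (p (nat_lit 0x40512)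 (nat_lit 0) (p (nat_lit 0x50312) (nat_lit 0) (p (nat_lit 0x38292) (nat_lit 0) (p (nat_lit 0x28212) (nat_lit 0) (p (nat_lit 0x38112) (nat_lit 0) (p (nat_lit 0x20092) (nat_lit 0) (p (nat_lit 0x10012) (nat_lit 0) pn)))))))))))))))))))))))))))))) :=
  Cl.node (nat_lit 0x101) (nat_lit 2) (by decide +kernel) (ClAll.succ (ClAll.succ ClAll.zero s915) s916)

def n329 : Cl (O (nat_lit 6)) (R (nat_lit 143633))
    (p (nat_lit 0x111) (nat_lit 1) (p (nat_lit 0x109) (nat_lit 0) (p (nat_lit 0xb0004) (nat_lit 0) (p (nat_lit 0x380c2) (nat_lit 1) (p (nat_lit 0x444aa) (nat_lit 7) (p (nat_lit 0x111) (nat_lit 1) (p (nat_lit 0xd1) (nat_lit 1) (p (nat_lit 0xc1) (nat_lit 0) (p (nat_lit 0x119) (nat_lit 1) (p (nat_lit 0xc9) (nat_lit 0) (p (nat_lit 0x89) (nat_lit 1) (p (nat_lit 0x41) (nat_lit 0) (p (nat_lit 0x10a898a08881a) (nat_lit 0) (p (nat_lit 0x8a090988079a) (nat_lit 0) (p (nat_lit 0x108088907871a)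 (nat_lit 0) (p (nat_lit 0x87880887069a) (nat_lit 0) (p (nat_lit 0x8000080000000088806860a) (nat_lit 0) (p (nat_lit 0x8000080000000068786058a) (nat_lit 0) (p (nat_lit 0x10687058502) (nat_lit 0) (p (nat_lit 0x8606850482) (nat_lit 0) (p (nat_lit 0x160004) (nat_lit 0) (p (nat_lit 0x68612) (nat_lit 0) (p (nat_lit 0x50592) (nat_lit 0) (p (nat_lit 0x40512) (nat_lit 0) (p (nat_lit 0x50312) (nat_lit 0) (p (nat_lit 0x38292) (nat_lit 0) (p (nat_lit 0x28212) (nat_lit 0) (p (nat_lit 0x38112) (nat_lit 0) (p (nat_lit 0x20092) (nat_lit 0) (p (nat_lit 0x10012) (nat_lit 0) pn)))))))))))))))))))))))))))))) :=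
  Cl.node (nat_lit 0x119) (nat_lit 2) (by decide +kernel) (ClAll.succ (ClAll.succ ClAll.zero s917) s918)

def n330 : Cl (O (nat_lit 6)) (R (nat_lit 143633))
    (p (nat_lit 0x1fc014) (nat_lit 0) (p (nat_lit 0x1fc00c) (nat_lit 0) (p (nat_lit 0xb0004) (nat_lit 1) (p (nat_lit 0x380c2) (nat_lit 1) (p (nat_lit 0x444aa) (nat_lit 7) (p (nat_lit 0x111) (nat_lit 1) (p (nat_lit 0xd1) (nat_lit 1) (p (nat_lit 0xc1) (nat_lit 0) (p (nat_lit 0x119) (nat_lit 1) (p (nat_lit 0xc9) (nat_lit 0) (p (nat_lit 0x89) (nat_lit 1) (p (nat_lit 0x41) (nat_lit 0) (p (nat_lit 0x10a898a08881a) (nat_lit 0) (p (nat_lit 0x8a090988079a) (nat_lit 0) (p (nat_lit 0x108088907871a) (nat_lit 0) (p (nat_lit 0x87880887069a) (nat_lit 0) (p (nat_lit 0x8000080000000088806860a) (nat_lit 0) (p (nat_lit 0x8000080000000068786058a) (nat_lit 0) (p (nat_lit 0x10687058502) (nat_lit 0) (p (nat_lit 0x8606850482) (nat_lit 0) (p (nat_lit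 0x160004) (nat_lit 0) (p (nat_lit 0x68612) (nat_lit 0) (p (nat_lit 0x50592) (nat_lit 0) (p (nat_lit 0x40512) (nat_lit 0) (p (nat_lit 0x50312) (nat_lit 0) (p (nat_lit 0x38292) (nat_lit 0) (p (nat_lit 0x28212) (nat_lit 0) (p (nat_lit 0x38112) (nat_lit 0) (p (nat_lit 0x20092) (nat_lit 0) (p (nat_lit 0x10012) (nat_lit 0) pn)))))))))))))))))))))))))))))) :=
  Cl.node (nat_lit 0x10000c) (nat_lit 2) (by decide +kernel) (ClAll.succ (ClAll.succ ClAll.zero s920) s921)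

def n331 : Cl (O (nat_lit 6)) (R (nat_lit 143633))
    (p (nat_lit 0xc1) (nat_lit 1) (p (nat_lit 0x41) (nat_lit 1) (p (nat_lit 0x101) (nat_lit 1) (p (nat_lit 0x380c2) (nat_lit 0) (p (nat_lit 0x44c2a) (nat_lit 0) (p (nat_lit 0x111) (nat_lit 0) (p (nat_lit 0x101) (nat_lit 0) (p (nat_lit 0xc1) (nat_lit 1) (p (nat_lit 0x119) (nat_lit 1) (p (nat_lit 0xc9) (nat_lit 0) (p (nat_lit 0x89) (nat_lit 1) (p (nat_lit 0x41) (nat_lit 0) (p (nat_lit 0x10a898a08881a) (nat_lit 0) (p (nat_lit 0x8a090988079a) (nat_lit 0) (p (nat_lit 0x108088907871a) (nat_lit 0) (p (nat_lit 0x87880887069a) (nat_lit 0) (p (nat_lit 0x8000080000000088806860a) (nat_lit 0) (p (nat_lit 0x8000080000000068786058a) (nat_lit 0) (p (nat_lit 0x10687058502) (nat_lit 0) (p (nat_lit 0x8606850482) (nat_lit 0) (p (nat_lit 0x160004) (nat_lit 0) (p (nat_lit 0x68612) (nat_lit 0) (p (nat_lit 0x50592) (nat_lit 0) (p (nat_lit 0x40512)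 (nat_lit 0) (p (nat_lit 0x50312) (nat_lit 0) (p (nat_lit 0x38292) (nat_lit 0) (p (nat_lit 0x28212) (nat_lit 0) (p (nat_lit 0x38112) (nat_lit 0) (p (nat_lit 0x20092) (nat_lit 0) (p (nat_lit 0x10012) (nat_lit 0) pn)))))))))))))))))))))))))))))) :=
  Cl.node (nat_lit 0x444aa) (nat_lit 12) (by decide +kernel) (ClAll.succ (ClAll.succ (ClAll.succ (ClAll.succ (ClAll.succ (ClAll.succ (ClAll.succ (ClAll.succ (ClAll.succ (ClAll.succ (ClAll.succ (ClAll.succ ClAll.zero s931) s932) s933) s934) s935) s936) s937) s938) s939) s940) s941) s942)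

def n332 : Cl (O (nat_lit 6)) (R (nat_lit 143633))
    (p (nat_lit 0x101) (nat_lit 1) (p (nat_lit 0x20000c) (nat_lit 0) (p (nat_lit 0xb0004) (nat_lit 0) (p (nat_lit 0x380c2) (nat_lit 0) (p (nat_lit 0x44c2a) (nat_lit 1) (p (nat_lit 0x111) (nat_lit 0) (p (nat_lit 0x101) (nat_lit 0) (p (nat_lit 0xc1) (nat_lit 1) (p (nat_lit 0x119) (nat_lit 1) (p (nat_lit 0xc9) (nat_lit 0) (p (nat_lit 0x89) (nat_lit 1) (p (nat_lit 0x41) (nat_lit 0) (p (nat_lit 0x10a898a08881a) (nat_lit 0) (p (nat_lit 0x8a090988079a) (nat_lit 0) (p (nat_lit 0x108088907871a) (nat_lit 0) (p (nat_lit 0x87880887069a) (nat_lit 0) (p (nat_lit 0x8000080000000088806860a) (nat_lit 0) (p (nat_lit 0x8000080000000068786058a) (nat_lit 0) (p (nat_lit 0x10687058502) (nat_lit 0) (p (nat_lit 0x8606850482) (nat_lit 0) (p (nat_lit 0x160004) (nat_lit 0) (p (nat_lit 0x68612) (nat_lit 0) (p (nat_lit 0x50592) (nat_lit 0) (p (nat_lit 0x40512)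 (nat_lit 0) (p (nat_lit 0x50312) (nat_lit 0) (p (nat_lit 0x38292) (nat_lit 0) (p (nat_lit 0x28212) (nat_lit 0) (p (nat_lit 0x38112) (nat_lit 0) (p (nat_lit 0x20092) (nat_lit 0) (p (nat_lit 0x10012) (nat_lit 0) pn)))))))))))))))))))))))))))))) :=
  Cl.node (nat_lit 0x81) (nat_lit 2) (by decide +kernel) (ClAll.succ (ClAll.succ ClAll.zero s945) n264)

def n333 : Cl (O (nat_lit 6)) (R (nat_lit 143633))
    (p (nat_lit 0x111) (nat_lit 0) (p (nat_lit 0x109) (nat_lit 0) (p (nat_lit 0xb0004) (nat_lit 0) (p (nat_lit 0x380c2) (nat_lit 0) (p (nat_lit 0x444aa) (nat_lit 7) (p (nat_lit 0x111) (nat_lit 1) (p (nat_lit 0x101) (nat_lit 0) (p (nat_lit 0xc1) (nat_lit 1) (p (nat_lit 0x119) (nat_lit 1) (p (nat_lit 0xc9) (nat_lit 0) (p (nat_lit 0x89) (nat_lit 1) (p (nat_lit 0x41) (nat_lit 0) (p (nat_lit 0x10a898a08881a) (nat_lit 0) (p (nat_lit 0x8a090988079a) (nat_lit 0) (p (nat_lit 0x108088907871a)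 (nat_lit 0) (p (nat_lit 0x87880887069a) (nat_lit 0) (p (nat_lit 0x8000080000000088806860a) (nat_lit 0) (p (nat_lit 0x8000080000000068786058a) (nat_lit 0) (p (nat_lit 0x10687058502) (nat_lit 0) (p (nat_lit 0x8606850482) (nat_lit 0) (p (nat_lit 0x160004) (nat_lit 0) (p (nat_lit 0x68612) (nat_lit 0) (p (nat_lit 0x50592) (nat_lit 0) (p (nat_lit 0x40512) (nat_lit 0) (p (nat_lit 0x50312) (nat_lit 0) (p (nat_lit 0x38292) (nat_lit 0) (p (nat_lit 0x28212) (nat_lit 0) (p (nat_lit 0x38112) (nat_lit 0) (p (nat_lit 0x20092) (nat_lit 0) (p (nat_lit 0x10012) (nat_lit 0) pn)))))))))))))))))))))))))))))) :=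
  Cl.node (nat_lit 0x101) (nat_lit 2) (by decide +kernel) (ClAll.succ (ClAll.succ ClAll.zero n265) s979)

def n334 : Cl (O (nat_lit 6)) (R (nat_lit 143633))
    (p (nat_lit 0x111) (nat_lit 0) (p (nat_lit 0x109) (nat_lit 0) (p (nat_lit 0xb0004) (nat_lit 0) (p (nat_lit 0x380c2) (nat_lit 1) (p (nat_lit 0x444aa) (nat_lit 7) (p (nat_lit 0x111) (nat_lit 1) (p (nat_lit 0x101) (nat_lit 0) (p (nat_lit 0xc1) (nat_lit 1) (p (nat_lit 0x119) (nat_lit 1) (p (nat_lit 0xc9) (nat_lit 0) (p (nat_lit 0x89) (nat_lit 1) (p (nat_lit 0x41) (nat_lit 0) (p (nat_lit 0x10a898a08881a) (nat_lit 0) (p (nat_lit 0x8a090988079a) (nat_lit 0) (p (nat_lit 0x108088907871a) (nat_lit 0) (p (nat_lit 0x87880887069a) (nat_lit 0) (p (nat_lit 0x8000080000000088806860a) (nat_lit 0) (p (nat_lit 0x8000080000000068786058a) (nat_lit 0) (p (nat_lit 0x10687058502) (nat_lit 0) (p (nat_lit 0x8606850482) (nat_lit 0) (p (nat_lit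 0x160004) (nat_lit 0) (p (nat_lit 0x68612) (nat_lit 0) (p (nat_lit 0x50592) (nat_lit 0) (p (nat_lit 0x40512) (nat_lit 0) (p (nat_lit 0x50312) (nat_lit 0) (p (nat_lit 0x38292) (nat_lit 0) (p (nat_lit 0x28212) (nat_lit 0) (p (nat_lit 0x38112) (nat_lit 0) (p (nat_lit 0x20092) (nat_lit 0) (p (nat_lit 0x10012) (nat_lit 0) pn)))))))))))))))))))))))))))))) :=
  Cl.node (nat_lit 0x101) (nat_lit 2) (by decide +kernel) (ClAll.succ (ClAll.succ ClAll.zero n266) s997)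

def n335 : Cl (O (nat_lit 6)) (R (nat_lit 143633))
    (p (nat_lit 0x200014) (nat_lit 0) (p (nat_lit 0xc9) (nat_lit 1) (p (nat_lit 0x380c2) (nat_lit 0) (p (nat_lit 0x4c42a) (nat_lit 2) (p (nat_lit 0x111) (nat_lit 0) (p (nat_lit 0x89) (nat_lit 0) (p (nat_lit 0x109) (nat_lit 1) (p (nat_lit 0x101) (nat_lit 0) (p (nat_lit 0x119) (nat_lit 0) (p (nat_lit 0xd1) (nat_lit 0) (p (nat_lit 0x81) (nat_lit 0) (p (nat_lit 0x41) (nat_lit 1) (p (nat_lit 0x10a898a08881a) (nat_lit 0) (p (nat_lit 0x8a090988079a) (nat_lit 0) (p (nat_lit 0x108088907871a) (nat_lit 0) (p (nat_lit 0x87880887069a) (nat_lit 0) (p (nat_lit 0x8000080000000088806860a) (nat_lit 0) (p (nat_lit 0x8000080000000068786058a) (nat_lit 0) (p (nat_lit 0x10687058502) (nat_lit 0) (p (nat_lit 0x8606850482) (nat_lit 0) (p (nat_lit 0x160004) (nat_lit 0) (p (nat_lit 0x68612) (nat_lit 0) (p (nat_lit 0x50592) (nat_lit 0) (p (nat_lit 0x40512)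 (nat_lit 0) (p (nat_lit 0x50312) (nat_lit 0) (p (nat_lit 0x38292) (nat_lit 0) (p (nat_lit 0x28212) (nat_lit 0) (p (nat_lit 0x38112) (nat_lit 0) (p (nat_lit 0x20092) (nat_lit 0) (p (nat_lit 0x10012) (nat_lit 0) pn)))))))))))))))))))))))))))))) :=
  Cl.node (nat_lit 0x3c4aa) (nat_lit 12) (by decide +kernel) (ClAll.succ (ClAll.succ (ClAll.succ (ClAll.succ (ClAll.succ (ClAll.succ (ClAll.succ (ClAll.succ (ClAll.succ (ClAll.succ (ClAll.succ (ClAll.succ ClAll.zero s1052) s1053) s1054) s1055) s1056) s1057) s1058) n267) s1061) s1062) n268) s1065)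

def n336 : Cl (O (nat_lit 6)) (R (nat_lit 143633))
    (p (nat_lit 0x100014) (nat_lit 0) (p (nat_lit 0x200014) (nat_lit 0) (p (nat_lit 0x380c2) (nat_lit 0) (p (nat_lit 0x3cc2a) (nat_lit 11) (p (nat_lit 0x111) (nat_lit 1) (p (nat_lit 0x89) (nat_lit 0) (p (nat_lit 0x109) (nat_lit 1) (p (nat_lit 0x101) (nat_lit 0) (p (nat_lit 0x119) (nat_lit 0) (p (nat_lit 0xd1) (nat_lit 0) (p (nat_lit 0x81) (nat_lit 0) (p (nat_lit 0x41) (nat_lit 1) (p (nat_lit 0x10a898a08881a) (nat_lit 0) (p (nat_lit 0x8a090988079a) (nat_lit 0) (p (nat_lit 0x108088907871a) (nat_lit 0) (p (nat_lit 0x87880887069a) (nat_lit 0) (p (nat_lit 0x8000080000000088806860a) (nat_lit 0) (p (nat_lit 0x8000080000000068786058a) (nat_lit 0) (p (nat_lit 0x10687058502) (nat_lit 0) (p (nat_lit 0x8606850482) (nat_lit 0) (p (nat_lit 0x160004) (nat_lit 0) (p (nat_lit 0x68612) (nat_lit 0) (p (nat_lit 0x50592) (nat_lit 0) (p (nat_lit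 0x40512) (nat_lit 0) (p (nat_lit 0x50312) (nat_lit 0) (p (nat_lit 0x38292) (nat_lit 0) (p (nat_lit 0x28212) (nat_lit 0) (p (nat_lit 0x38112) (nat_lit 0) (p (nat_lit 0x20092) (nat_lit 0) (p (nat_lit 0x10012) (nat_lit 0) pn)))))))))))))))))))))))))))))) :=
  Cl.node (nat_lit 0xb0004) (nat_lit 2) (by decide +kernel) (ClAll.succ (ClAll.succ ClAll.zero s1090) s1091)

def n337 : Cl (O (nat_lit 6)) (R (nat_lit 143633))
    (p (nat_lit 0xb0004) (nat_lit 0) (p (nat_lit 0x111) (nat_lit 1) (p (nat_lit 0x380c2) (nat_lit 0) (p (nat_lit 0x4c42a) (nat_lit 2) (p (nat_lit 0xc9) (nat_lit 0) (p (nat_lit 0x89) (nat_lit 1) (p (nat_lit 0x109) (nat_lit 1) (p (nat_lit 0x101) (nat_lit 0) (p (nat_lit 0x119) (nat_lit 0) (p (nat_lit 0xd1) (nat_lit 0) (p (nat_lit 0x81) (nat_lit 0) (p (nat_lit 0x41) (nat_lit 1) (p (nat_lit 0x10a898a08881a) (nat_lit 0) (p (nat_lit 0x8a090988079a) (nat_lit 0) (p (nat_lit 0x108088907871a)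 (nat_lit 0) (p (nat_lit 0x87880887069a) (nat_lit 0) (p (nat_lit 0x8000080000000088806860a) (nat_lit 0) (p (nat_lit 0x8000080000000068786058a) (nat_lit 0) (p (nat_lit 0x10687058502) (nat_lit 0) (p (nat_lit 0x8606850482) (nat_lit 0) (p (nat_lit 0x160004) (nat_lit 0) (p (nat_lit 0x68612) (nat_lit 0) (p (nat_lit 0x50592) (nat_lit 0) (p (nat_lit 0x40512) (nat_lit 0) (p (nat_lit 0x50312) (nat_lit 0) (p (nat_lit 0x38292) (nat_lit 0) (p (nat_lit 0x28212) (nat_lit 0) (p (nat_lit 0x38112) (nat_lit 0) (p (nat_lit 0x20092) (nat_lit 0) (p (nat_lit 0x10012) (nat_lit 0) pn)))))))))))))))))))))))))))))) :=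
  Cl.node (nat_lit 0xd1) (nat_lit 2) (by decide +kernel) (ClAll.succ (ClAll.succ ClAll.zero s1098) n269)

def n338 : Cl (O (nat_lit 6)) (R (nat_lit 143633))
    (p (nat_lit 0xd1) (nat_lit 1) (p (nat_lit 0x200014) (nat_lit 0) (p (nat_lit 0x380c2) (nat_lit 0) (p (nat_lit 0x4c42a) (nat_lit 2) (p (nat_lit 0xc9) (nat_lit 0) (p (nat_lit 0x89) (nat_lit 1) (p (nat_lit 0xc1) (nat_lit 0) (p (nat_lit 0x101) (nat_lit 1) (p (nat_lit 0x119) (nat_lit 0) (p (nat_lit 0xd1) (nat_lit 0) (p (nat_lit 0x81) (nat_lit 0) (p (nat_lit 0x41) (nat_lit 1) (p (nat_lit 0x10a898a08881a) (nat_lit 0) (p (nat_lit 0x8a090988079a) (nat_lit 0) (p (nat_lit 0x108088907871a) (nat_lit 0) (p (nat_lit 0x87880887069a) (nat_lit 0) (p (nat_lit 0x8000080000000088806860a) (nat_lit 0) (p (nat_lit 0x8000080000000068786058a) (nat_lit 0) (p (nat_lit 0x10687058502) (nat_lit 0) (p (nat_lit 0x8606850482) (nat_lit 0) (p (nat_lit 0x160004)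 (nat_lit 0) (p (nat_lit 0x68612) (nat_lit 0) (p (nat_lit 0x50592) (nat_lit 0) (p (nat_lit 0x40512) (nat_lit 0) (p (nat_lit 0x50312) (nat_lit 0) (p (nat_lit 0x38292) (nat_lit 0) (p (nat_lit 0x28212) (nat_lit 0) (p (nat_lit 0x38112) (nat_lit 0) (p (nat_lit 0x20092) (nat_lit 0) (p (nat_lit 0x10012) (nat_lit 0) pn)))))))))))))))))))))))))))))) :=
  Cl.node (nat_lit 0x3c4aa) (nat_lit 12) (by decide +kernel) (ClAll.succ (ClAll.succ (ClAll.succ (ClAll.succ (ClAll.succ (ClAll.succ (ClAll.succ (ClAll.succ (ClAll.succ (ClAll.succ (ClAll.succ (ClAll.succ ClAll.zero s1144) s1145) s1146) s1147) s1148) s1149) s1150) n270) s1154) s1155) s1156) s1157)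

def n339 : Cl (O (nat_lit 6)) (R (nat_lit 143633))
    (p (nat_lit 0x20000c) (nat_lit 0) (p (nat_lit 0xb0004) (nat_lit 0) (p (nat_lit 0x380c2) (nat_lit 0) (p (nat_lit 0x44c2a) (nat_lit 1) (p (nat_lit 0x109) (nat_lit 0) (p (nat_lit 0x89) (nat_lit 1) (p (nat_lit 0xc9) (nat_lit 1) (p (nat_lit 0xc1) (nat_lit 0) (p (nat_lit 0x119) (nat_lit 1) (p (nat_lit 0xd1) (nat_lit 0) (p (nat_lit 0x81) (nat_lit 0) (p (nat_lit 0x41) (nat_lit 1) (p (nat_lit 0x10a898a08881a) (nat_lit 0) (p (nat_lit 0x8a090988079a) (nat_lit 0) (p (nat_lit 0x108088907871a) (nat_lit 0) (p (nat_lit 0x87880887069a) (nat_lit 0) (p (nat_lit 0x8000080000000088806860a) (nat_lit 0) (p (nat_lit 0x8000080000000068786058a) (nat_lit 0) (p (nat_lit 0x10687058502) (nat_lit 0) (p (nat_lit 0x8606850482) (nat_lit 0) (p (nat_lit 0x160004) (nat_lit 0) (p (nat_lit 0x68612) (nat_lit 0) (p (nat_lit 0x50592) (nat_lit 0) (p (nat_lit 0x40512)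 (nat_lit 0) (p (nat_lit 0x50312) (nat_lit 0) (p (nat_lit 0x38292) (nat_lit 0) (p (nat_lit 0x28212) (nat_lit 0) (p (nat_lit 0x38112) (nat_lit 0) (p (nat_lit 0x20092) (nat_lit 0) (p (nat_lit 0x10012) (nat_lit 0) pn)))))))))))))))))))))))))))))) :=
  Cl.node (nat_lit 0x109) (nat_lit 2) (by decide +kernel) (ClAll.succ (ClAll.succ ClAll.zero s1223) s1224)

def n340 : Cl (O (nat_lit 6)) (R (nat_lit 143633))
    (p (nat_lit 0x20000c) (nat_lit 0) (p (nat_lit 0xb0004) (nat_lit 0) (p (nat_lit 0x380c2) (nat_lit 1) (p (nat_lit 0x3c4aa) (nat_lit 7) (p (nat_lit 0x109) (nat_lit 1) (p (nat_lit 0x89) (nat_lit 1) (p (nat_lit 0x101) (nat_lit 0) (p (nat_lit 0xc1) (nat_lit 1) (p (nat_lit 0x119) (nat_lit 1) (p (nat_lit 0xd1) (nat_lit 0) (p (nat_lit 0x81) (nat_lit 0) (p (nat_lit 0x41) (nat_lit 1) (p (nat_lit 0x10a898a08881a) (nat_lit 0) (p (nat_lit 0x8a090988079a) (nat_lit 0) (p (nat_lit 0x108088907871a)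 (nat_lit 0) (p (nat_lit 0x87880887069a) (nat_lit 0) (p (nat_lit 0x8000080000000088806860a) (nat_lit 0) (p (nat_lit 0x8000080000000068786058a) (nat_lit 0) (p (nat_lit 0x10687058502) (nat_lit 0) (p (nat_lit 0x8606850482) (nat_lit 0) (p (nat_lit 0x160004) (nat_lit 0) (p (nat_lit 0x68612) (nat_lit 0) (p (nat_lit 0x50592) (nat_lit 0) (p (nat_lit 0x40512) (nat_lit 0) (p (nat_lit 0x50312) (nat_lit 0) (p (nat_lit 0x38292) (nat_lit 0) (p (nat_lit 0x28212) (nat_lit 0) (p (nat_lit 0x38112) (nat_lit 0) (p (nat_lit 0x20092) (nat_lit 0) (p (nat_lit 0x10012) (nat_lit 0) pn)))))))))))))))))))))))))))))) :=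
  Cl.node (nat_lit 0x200014) (nat_lit 2) (by decide +kernel) (ClAll.succ (ClAll.succ ClAll.zero n271) s1290)

def n341 : Cl (O (nat_lit 6)) (R (nat_lit 143633))
    (p (nat_lit 0x100014) (nat_lit 0) (p (nat_lit 0x20000c) (nat_lit 0) (p (nat_lit 0x200014) (nat_lit 0) (p (nat_lit 0x380c2) (nat_lit 0) (p (nat_lit 0x3cc2a) (nat_lit 11) (p (nat_lit 0x89) (nat_lit 0) (p (nat_lit 0x101) (nat_lit 1) (p (nat_lit 0xc1) (nat_lit 1) (p (nat_lit 0x119) (nat_lit 1) (p (nat_lit 0xd1) (nat_lit 0) (p (nat_lit 0x81) (nat_lit 0) (p (nat_lit 0x41) (nat_lit 1) (p (nat_lit 0x10a898a08881a) (nat_lit 0) (p (nat_lit 0x8a090988079a) (nat_lit 0) (p (nat_lit 0x108088907871a) (nat_lit 0) (p (nat_lit 0x87880887069a) (nat_lit 0) (p (nat_lit 0x8000080000000088806860a) (nat_lit 0) (p (nat_lit 0x8000080000000068786058a) (nat_lit 0) (p (nat_lit 0x10687058502) (nat_lit 0) (p (nat_lit 0x8606850482) (nat_lit 0) (p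 (nat_lit 0x160004) (nat_lit 0) (p (nat_lit 0x68612) (nat_lit 0) (p (nat_lit 0x50592) (nat_lit 0) (p (nat_lit 0x40512) (nat_lit 0) (p (nat_lit 0x50312) (nat_lit 0) (p (nat_lit 0x38292) (nat_lit 0) (p (nat_lit 0x28212) (nat_lit 0) (p (nat_lit 0x38112) (nat_lit 0) (p (nat_lit 0x20092) (nat_lit 0) (p (nat_lit 0x10012) (nat_lit 0) pn)))))))))))))))))))))))))))))) :=
  Cl.node (nat_lit 0x10000c) (nat_lit 2) (by decide +kernel) (ClAll.succ (ClAll.succ ClAll.zero s1310) s1311)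

def n342 : Cl (O (nat_lit 6)) (R (nat_lit 143633))
    (p (nat_lit 0x200014) (nat_lit 0) (p (nat_lit 0x20000c) (nat_lit 0) (p (nat_lit 0xb0004) (nat_lit 0) (p (nat_lit 0x380c2) (nat_lit 0) (p (nat_lit 0x3c4aa) (nat_lit 7) (p (nat_lit 0x89) (nat_lit 1) (p (nat_lit 0x101) (nat_lit 1) (p (nat_lit 0xc1) (nat_lit 1) (p (nat_lit 0x119) (nat_lit 1) (p (nat_lit 0xd1) (nat_lit 0) (p (nat_lit 0x81) (nat_lit 0) (p (nat_lit 0x41) (nat_lit 1) (p (nat_lit 0x10a898a08881a) (nat_lit 0) (p (nat_lit 0x8a090988079a) (nat_lit 0) (p (nat_lit 0x108088907871a) (nat_lit 0) (p (nat_lit 0x87880887069a) (nat_lit 0) (p (nat_lit 0x8000080000000088806860a) (nat_lit 0) (p (nat_lit 0x8000080000000068786058a) (nat_lit 0) (p (nat_lit 0x10687058502) (nat_lit 0) (p (nat_lit 0x8606850482) (nat_lit 0) (p (nat_lit 0x160004) (nat_lit 0) (p (nat_lit 0x68612) (nat_lit 0) (p (nat_lit 0x50592) (nat_lit 0) (p (nat_lit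 0x40512) (nat_lit 0) (p (nat_lit 0x50312) (nat_lit 0) (p (nat_lit 0x38292) (nat_lit 0) (p (nat_lit 0x28212) (nat_lit 0) (p (nat_lit 0x38112) (nat_lit 0) (p (nat_lit 0x20092) (nat_lit 0) (p (nat_lit 0x10012) (nat_lit 0) pn)))))))))))))))))))))))))))))) :=
  Cl.node (nat_lit 0x10000c) (nat_lit 2) (by decide +kernel) (ClAll.succ (ClAll.succ ClAll.zero n272) s1336)

def n343 : Cl (O (nat_lit 6)) (R (nat_lit 143633))
    (p (nat_lit 0x1fc014) (nat_lit 0) (p (nat_lit 0x1fc00c) (nat_lit 0) (p (nat_lit 0xb0004) (nat_lit 1) (p (nat_lit 0x380c2) (nat_lit 0) (p (nat_lit 0x3c4aa) (nat_lit 7) (p (nat_lit 0x89) (nat_lit 1) (p (nat_lit 0x101) (nat_lit 1) (p (nat_lit 0xc1) (nat_lit 1) (p (nat_lit 0x119) (nat_lit 1) (p (nat_lit 0xd1) (nat_lit 0) (p (nat_lit 0x81) (nat_lit 0) (p (nat_lit 0x41) (nat_lit 1) (p (nat_lit 0x10a898a08881a) (nat_lit 0) (p (nat_lit 0x8a090988079a) (nat_lit 0) (p (nat_lit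 0x108088907871a) (nat_lit 0) (p (nat_lit 0x87880887069a) (nat_lit 0) (p (nat_lit 0x8000080000000088806860a) (nat_lit 0) (p (nat_lit 0x8000080000000068786058a) (nat_lit 0) (p (nat_lit 0x10687058502) (nat_lit 0) (p (nat_lit 0x8606850482) (nat_lit 0) (p (nat_lit 0x160004) (nat_lit 0) (p (nat_lit 0x68612) (nat_lit 0) (p (nat_lit 0x50592) (nat_lit 0) (p (nat_lit 0x40512) (nat_lit 0) (p (nat_lit 0x50312) (nat_lit 0) (p (nat_lit 0x38292) (nat_lit 0) (p (nat_lit 0x28212) (nat_lit 0) (p (nat_lit 0x38112) (nat_lit 0) (p (nat_lit 0x20092) (nat_lit 0) (p (nat_lit 0x10012) (nat_lit 0) pn)))))))))))))))))))))))))))))) :=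
  Cl.node (nat_lit 0x10000c) (nat_lit 2) (by decide +kernel) (ClAll.succ (ClAll.succ ClAll.zero n273) s1342)

def n344 : Cl (O (nat_lit 6)) (R (nat_lit 143633))
    (p (nat_lit 0x200014) (nat_lit 0) (p (nat_lit 0x20000c) (nat_lit 0) (p (nat_lit 0xb0004) (nat_lit 0) (p (nat_lit 0x380c2) (nat_lit 1) (p (nat_lit 0x3c4aa) (nat_lit 7) (p (nat_lit 0x89) (nat_lit 1) (p (nat_lit 0x101) (nat_lit 1) (p (nat_lit 0xc1) (nat_lit 1) (p (nat_lit 0x119) (nat_lit 1) (p (nat_lit 0xd1) (nat_lit 0) (p (nat_lit 0x81) (nat_lit 0) (p (nat_lit 0x41) (nat_lit 1) (p (nat_lit 0x10a898a08881a) (nat_lit 0) (p (nat_lit 0x8a090988079a) (nat_lit 0) (p (nat_lit 0x108088907871a) (nat_lit 0) (p (nat_lit 0x87880887069a) (nat_lit 0) (p (nat_lit 0x8000080000000088806860a) (nat_lit 0) (p (nat_lit 0x8000080000000068786058a) (nat_lit 0) (p (nat_lit 0x10687058502) (nat_lit 0) (p (nat_lit 0x8606850482) (nat_lit 0) (p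 (nat_lit 0x160004) (nat_lit 0) (p (nat_lit 0x68612) (nat_lit 0) (p (nat_lit 0x50592) (nat_lit 0) (p (nat_lit 0x40512) (nat_lit 0) (p (nat_lit 0x50312) (nat_lit 0) (p (nat_lit 0x38292) (nat_lit 0) (p (nat_lit 0x28212) (nat_lit 0) (p (nat_lit 0x38112) (nat_lit 0) (p (nat_lit 0x20092) (nat_lit 0) (p (nat_lit 0x10012) (nat_lit 0) pn)))))))))))))))))))))))))))))) :=
  Cl.node (nat_lit 0x10000c) (nat_lit 2) (by decide +kernel) (ClAll.succ (ClAll.succ ClAll.zero n274) s1347)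

def n345 : Cl (O (nat_lit 6)) (R (nat_lit 143633))
    (p (nat_lit 0x200014) (nat_lit 0) (p (nat_lit 0x380c2) (nat_lit 0) (p (nat_lit 0x4c42a) (nat_lit 2) (p (nat_lit 0x119) (nat_lit 0) (p (nat_lit 0xc9) (nat_lit 0) (p (nat_lit 0x89) (nat_lit 1) (p (nat_lit 0x109) (nat_lit 1) (p (nat_lit 0x101) (nat_lit 0) (p (nat_lit 0x111) (nat_lit 0) (p (nat_lit 0xd1) (nat_lit 1) (p (nat_lit 0x81) (nat_lit 0) (p (nat_lit 0x41) (nat_lit 1) (p (nat_lit 0x10a898a08881a) (nat_lit 0) (p (nat_lit 0x8a090988079a) (nat_lit 0) (p (nat_lit 0x108088907871a) (nat_lit 0) (p (nat_lit 0x87880887069a) (nat_lit 0) (p (nat_lit 0x8000080000000088806860a) (nat_lit 0) (p (nat_lit 0x8000080000000068786058a) (nat_lit 0) (p (nat_lit 0x10687058502) (nat_lit 0) (p (nat_lit 0x8606850482) (nat_lit 0) (p (nat_lit 0x160004) (nat_lit 0) (p (nat_lit 0x68612) (nat_lit 0) (p (nat_lit 0x50592) (nat_lit 0) (p (nat_lit 0x40512)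 (nat_lit 0) (p (nat_lit 0x50312) (nat_lit 0) (p (nat_lit 0x38292) (nat_lit 0) (p (nat_lit 0x28212) (nat_lit 0) (p (nat_lit 0x38112) (nat_lit 0) (p (nat_lit 0x20092) (nat_lit 0) (p (nat_lit 0x10012) (nat_lit 0) pn)))))))))))))))))))))))))))))) :=
  Cl.node (nat_lit 0x3c4aa) (nat_lit 12) (by decide +kernel) (ClAll.succ (ClAll.succ (ClAll.succ (ClAll.succ (ClAll.succ (ClAll.succ (ClAll.succ (ClAll.succ (ClAll.succ (ClAll.succ (ClAll.succ (ClAll.succ ClAll.zero s1373) s1374) s1375) s1376) s1377) s1378) s1379) s1380) s1381) s1382) s1383) s1384)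

def n346 : Cl (O (nat_lit 6)) (R (nat_lit 143633))
    (p (nat_lit 0x200014) (nat_lit 0) (p (nat_lit 0x380c2) (nat_lit 0) (p (nat_lit 0x4c42a) (nat_lit 2) (p (nat_lit 0x119) (nat_lit 1) (p (nat_lit 0xc9) (nat_lit 0) (p (nat_lit 0x89) (nat_lit 1) (p (nat_lit 0x109) (nat_lit 1) (p (nat_lit 0x101) (nat_lit 0) (p (nat_lit 0x111) (nat_lit 0) (p (nat_lit 0xd1) (nat_lit 1) (p (nat_lit 0x81) (nat_lit 0) (p (nat_lit 0x41) (nat_lit 1) (p (nat_lit 0x10a898a08881a) (nat_lit 0) (p (nat_lit 0x8a090988079a) (nat_lit 0) (p (nat_lit 0x108088907871a) (nat_lit 0) (p (nat_lit 0x87880887069a) (nat_lit 0) (p (nat_lit 0x8000080000000088806860a) (nat_lit 0) (p (nat_lit 0x8000080000000068786058a) (nat_lit 0) (p (nat_lit 0x10687058502) (nat_lit 0) (p (nat_lit 0x8606850482) (nat_lit 0) (p (nat_lit 0x160004) (nat_lit 0) (p (nat_lit 0x68612) (nat_lit 0) (p (nat_lit 0x50592) (nat_lit 0) (p (nat_lit 0x40512)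 (nat_lit 0) (p (nat_lit 0x50312) (nat_lit 0) (p (nat_lit 0x38292) (nat_lit 0) (p (nat_lit 0x28212) (nat_lit 0) (p (nat_lit 0x38112) (nat_lit 0) (p (nat_lit 0x20092) (nat_lit 0) (p (nat_lit 0x10012) (nat_lit 0) pn)))))))))))))))))))))))))))))) :=
  Cl.node (nat_lit 0x3cc2a) (nat_lit 12) (by decide +kernel) (ClAll.succ (ClAll.succ (ClAll.succ (ClAll.succ (ClAll.succ (ClAll.succ (ClAll.succ (ClAll.succ (ClAll.succ (ClAll.succ (ClAll.succ (ClAll.succ ClAll.zero s1397) s1398) s1399) s1400) s1401) s1402) s1403) s1404) s1405) s1406) s1407) s1408)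

def n347 : Cl (O (nat_lit 6)) (R (nat_lit 143633))
    (p (nat_lit 0x10000c) (nat_lit 0) (p (nat_lit 0x20000c) (nat_lit 0) (p (nat_lit 0x200014) (nat_lit 0) (p (nat_lit 0x380c2) (nat_lit 0) (p (nat_lit 0x3cc2a) (nat_lit 11) (p (nat_lit 0xc9) (nat_lit 0) (p (nat_lit 0x89) (nat_lit 1) (p (nat_lit 0x101) (nat_lit 1) (p (nat_lit 0x111) (nat_lit 0) (p (nat_lit 0xd1) (nat_lit 1) (p (nat_lit 0x81) (nat_lit 0) (p (nat_lit 0x41) (nat_lit 1) (p (nat_lit 0x10a898a08881a) (nat_lit 0) (p (nat_lit 0x8a090988079a) (nat_lit 0) (p (nat_lit 0x108088907871a) (nat_lit 0) (p (nat_lit 0x87880887069a) (nat_lit 0) (p (nat_lit 0x8000080000000088806860a) (nat_lit 0) (p (nat_lit 0x8000080000000068786058a) (nat_lit 0) (p (nat_lit 0x10687058502) (nat_lit 0) (p (nat_lit 0x8606850482) (nat_lit 0) (p (nat_lit 0x160004) (nat_lit 0) (p (nat_lit 0x68612) (nat_lit 0) (p (nat_lit 0x50592) (nat_lit 0) (p (nat_lit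 0x40512) (nat_lit 0) (p (nat_lit 0x50312) (nat_lit 0) (p (nat_lit 0x38292) (nat_lit 0) (p (nat_lit 0x28212) (nat_lit 0) (p (nat_lit 0x38112) (nat_lit 0) (p (nat_lit 0x20092) (nat_lit 0) (p (nat_lit 0x10012) (nat_lit 0) pn)))))))))))))))))))))))))))))) :=
  Cl.node (nat_lit 0x100014) (nat_lit 2) (by decide +kernel) (ClAll.succ (ClAll.succ ClAll.zero n275) s1448)

def n348 : Cl (O (nat_lit 6)) (R (nat_lit 143633))
    (p (nat_lit 0x20000c) (nat_lit 0) (p (nat_lit 0xb0004) (nat_lit 0) (p (nat_lit 0x380c2) (nat_lit 0) (p (nat_lit 0x3c4aa) (nat_lit 7) (p (nat_lit 0xd1) (nat_lit 1) (p (nat_lit 0x111) (nat_lit 1) (p (nat_lit 0x109) (nat_lit 0) (p (nat_lit 0x101) (nat_lit 0) (p (nat_lit 0x119) (nat_lit 0) (p (nat_lit 0xc1) (nat_lit 0) (p (nat_lit 0x81) (nat_lit 1) (p (nat_lit 0x41) (nat_lit 1) (p (nat_lit 0x10a898a08881a) (nat_lit 0) (p (nat_lit 0x8a090988079a) (nat_lit 0) (p (nat_lit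 0x108088907871a) (nat_lit 0) (p (nat_lit 0x87880887069a) (nat_lit 0) (p (nat_lit 0x8000080000000088806860a) (nat_lit 0) (p (nat_lit 0x8000080000000068786058a) (nat_lit 0) (p (nat_lit 0x10687058502) (nat_lit 0) (p (nat_lit 0x8606850482) (nat_lit 0) (p (nat_lit 0x160004) (nat_lit 0) (p (nat_lit 0x68612) (nat_lit 0) (p (nat_lit 0x50592) (nat_lit 0) (p (nat_lit 0x40512) (nat_lit 0) (p (nat_lit 0x50312) (nat_lit 0) (p (nat_lit 0x38292) (nat_lit 0) (p (nat_lit 0x28212) (nat_lit 0) (p (nat_lit 0x38112) (nat_lit 0) (p (nat_lit 0x20092) (nat_lit 0) (p (nat_lit 0x10012) (nat_lit 0) pn)))))))))))))))))))))))))))))) :=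
  Cl.node (nat_lit 0x200014) (nat_lit 2) (by decide +kernel) (ClAll.succ (ClAll.succ ClAll.zero n276) s1496)

def n349 : Cl (O (nat_lit 6)) (R (nat_lit 143633))
    (p (nat_lit 0x1fc00c) (nat_lit 0) (p (nat_lit 0xb0004) (nat_lit 1) (p (nat_lit 0x380c2) (nat_lit 0) (p (nat_lit 0x3c4aa) (nat_lit 7) (p (nat_lit 0xd1) (nat_lit 1) (p (nat_lit 0x111) (nat_lit 1) (p (nat_lit 0x109) (nat_lit 0) (p (nat_lit 0x101) (nat_lit 0) (p (nat_lit 0x119) (nat_lit 0) (p (nat_lit 0xc1) (nat_lit 0) (p (nat_lit 0x81) (nat_lit 1) (p (nat_lit 0x41) (nat_lit 1) (p (nat_lit 0x10a898a08881a) (nat_lit 0) (p (nat_lit 0x8a090988079a) (nat_lit 0) (p (nat_lit 0x108088907871a) (nat_lit 0) (p (nat_lit 0x87880887069a) (nat_lit 0) (p (nat_lit 0x8000080000000088806860a) (nat_lit 0) (p (nat_lit 0x8000080000000068786058a) (nat_lit 0) (p (nat_lit 0x10687058502) (nat_lit 0) (p (nat_lit 0x8606850482) (nat_lit 0) (p (nat_lit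 0x160004) (nat_lit 0) (p (nat_lit 0x68612) (nat_lit 0) (p (nat_lit 0x50592) (nat_lit 0) (p (nat_lit 0x40512) (nat_lit 0) (p (nat_lit 0x50312) (nat_lit 0) (p (nat_lit 0x38292) (nat_lit 0) (p (nat_lit 0x28212) (nat_lit 0) (p (nat_lit 0x38112) (nat_lit 0) (p (nat_lit 0x20092) (nat_lit 0) (p (nat_lit 0x10012) (nat_lit 0) pn)))))))))))))))))))))))))))))) :=
  Cl.node (nat_lit 0x1fc014) (nat_lit 2) (by decide +kernel) (ClAll.succ (ClAll.succ ClAll.zero n277) s1534)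

def n350 : Cl (O (nat_lit 6)) (R (nat_lit 143633))
    (p (nat_lit 0x20000c) (nat_lit 0) (p (nat_lit 0xb0004) (nat_lit 0) (p (nat_lit 0x380c2) (nat_lit 1) (p (nat_lit 0x3c4aa) (nat_lit 7) (p (nat_lit 0xd1) (nat_lit 1) (p (nat_lit 0x111) (nat_lit 1) (p (nat_lit 0x109) (nat_lit 0) (p (nat_lit 0x101) (nat_lit 0) (p (nat_lit 0x119) (nat_lit 0) (p (nat_lit 0xc1) (nat_lit 0) (p (nat_lit 0x81) (nat_lit 1) (p (nat_lit 0x41) (nat_lit 1) (p (nat_lit 0x10a898a08881a) (nat_lit 0) (p (nat_lit 0x8a090988079a) (nat_lit 0) (p (nat_lit 0x108088907871a) (nat_lit 0) (p (nat_lit 0x87880887069a) (nat_lit 0) (p (nat_lit 0x8000080000000088806860a) (nat_lit 0) (p (nat_lit 0x8000080000000068786058a) (nat_lit 0) (p (nat_lit 0x10687058502) (nat_lit 0) (p (nat_lit 0x8606850482) (nat_lit 0) (p (nat_lit 0x160004) (nat_lit 0) (p (nat_lit 0x68612) (nat_lit 0) (p (nat_lit 0x50592) (nat_lit 0) (p (nat_lit 0x40512)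 (nat_lit 0) (p (nat_lit 0x50312) (nat_lit 0) (p (nat_lit 0x38292) (nat_lit 0) (p (nat_lit 0x28212) (nat_lit 0) (p (nat_lit 0x38112) (nat_lit 0) (p (nat_lit 0x20092) (nat_lit 0) (p (nat_lit 0x10012) (nat_lit 0) pn)))))))))))))))))))))))))))))) :=
  Cl.node (nat_lit 0x200014) (nat_lit 2) (by decide +kernel) (ClAll.succ (ClAll.succ ClAll.zero n278) s1550)

def n351 : Cl (O (nat_lit 6)) (R (nat_lit 143633))
    (p (nat_lit 0x1fc00c) (nat_lit 0) (p (nat_lit 0xb0004) (nat_lit 1) (p (nat_lit 0x380c2) (nat_lit 1) (p (nat_lit 0x3c4aa) (nat_lit 7) (p (nat_lit 0xd1) (nat_lit 1) (p (nat_lit 0x111) (nat_lit 1) (p (nat_lit 0x109) (nat_lit 0) (p (nat_lit 0x101) (nat_lit 0) (p (nat_lit 0x119) (nat_lit 0) (p (nat_lit 0xc1) (nat_lit 0) (p (nat_lit 0x81) (nat_lit 1) (p (nat_lit 0x41) (nat_lit 1) (p (nat_lit 0x10a898a08881a) (nat_lit 0) (p (nat_lit 0x8a090988079a) (nat_lit 0) (p (nat_lit 0x108088907871a)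 (nat_lit 0) (p (nat_lit 0x87880887069a) (nat_lit 0) (p (nat_lit 0x8000080000000088806860a) (nat_lit 0) (p (nat_lit 0x8000080000000068786058a) (nat_lit 0) (p (nat_lit 0x10687058502) (nat_lit 0) (p (nat_lit 0x8606850482) (nat_lit 0) (p (nat_lit 0x160004) (nat_lit 0) (p (nat_lit 0x68612) (nat_lit 0) (p (nat_lit 0x50592) (nat_lit 0) (p (nat_lit 0x40512) (nat_lit 0) (p (nat_lit 0x50312) (nat_lit 0) (p (nat_lit 0x38292) (nat_lit 0) (p (nat_lit 0x28212) (nat_lit 0) (p (nat_lit 0x38112) (nat_lit 0) (p (nat_lit 0x20092) (nat_lit 0) (p (nat_lit 0x10012) (nat_lit 0) pn)))))))))))))))))))))))))))))) :=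
  Cl.node (nat_lit 0x1fc014) (nat_lit 2) (by decide +kernel) (ClAll.succ (ClAll.succ ClAll.zero n279) s1560)

def n352 : Cl (O (nat_lit 6)) (R (nat_lit 143633))
    (p (nat_lit 0x20000c) (nat_lit 0) (p (nat_lit 0xb0004) (nat_lit 0) (p (nat_lit 0x380c2) (nat_lit 0) (p (nat_lit 0x3c4aa) (nat_lit 7) (p (nat_lit 0xd1) (nat_lit 1) (p (nat_lit 0xc9) (nat_lit 0) (p (nat_lit 0x109) (nat_lit 1) (p (nat_lit 0x101) (nat_lit 0) (p (nat_lit 0x119) (nat_lit 0) (p (nat_lit 0xc1) (nat_lit 0) (p (nat_lit 0x81) (nat_lit 1) (p (nat_lit 0x41) (nat_lit 1) (p (nat_lit 0x10a898a08881a) (nat_lit 0) (p (nat_lit 0x8a090988079a) (nat_lit 0) (p (nat_lit 0x108088907871a) (nat_lit 0) (p (nat_lit 0x87880887069a) (nat_lit 0) (p (nat_lit 0x8000080000000088806860a) (nat_lit 0) (p (nat_lit 0x8000080000000068786058a) (nat_lit 0) (p (nat_lit 0x10687058502) (nat_lit 0) (p (nat_lit 0x8606850482) (nat_lit 0) (p (nat_lit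 0x160004) (nat_lit 0) (p (nat_lit 0x68612) (nat_lit 0) (p (nat_lit 0x50592) (nat_lit 0) (p (nat_lit 0x40512) (nat_lit 0) (p (nat_lit 0x50312) (nat_lit 0) (p (nat_lit 0x38292) (nat_lit 0) (p (nat_lit 0x28212) (nat_lit 0) (p (nat_lit 0x38112) (nat_lit 0) (p (nat_lit 0x20092) (nat_lit 0) (p (nat_lit 0x10012) (nat_lit 0) pn)))))))))))))))))))))))))))))) :=
  Cl.node (nat_lit 0x200014) (nat_lit 2) (by decide +kernel) (ClAll.succ (ClAll.succ ClAll.zero n280) s1587)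

def n353 : Cl (O (nat_lit 6)) (R (nat_lit 143633))
    (p (nat_lit 0x20000c) (nat_lit 0) (p (nat_lit 0xb0004) (nat_lit 0) (p (nat_lit 0x380c2) (nat_lit 1) (p (nat_lit 0x3c4aa) (nat_lit 7) (p (nat_lit 0xd1) (nat_lit 1) (p (nat_lit 0xc9) (nat_lit 0) (p (nat_lit 0x109) (nat_lit 1) (p (nat_lit 0x101) (nat_lit 0) (p (nat_lit 0x119) (nat_lit 0) (p (nat_lit 0xc1) (nat_lit 0) (p (nat_lit 0x81) (nat_lit 1) (p (nat_lit 0x41) (nat_lit 1) (p (nat_lit 0x10a898a08881a) (nat_lit 0) (p (nat_lit 0x8a090988079a) (nat_lit 0) (p (nat_lit 0x108088907871a) (nat_lit 0) (p (nat_lit 0x87880887069a) (nat_lit 0) (p (nat_lit 0x8000080000000088806860a) (nat_lit 0) (p (nat_lit 0x8000080000000068786058a) (nat_lit 0) (p (nat_lit 0x10687058502) (nat_lit 0) (p (nat_lit 0x8606850482) (nat_lit 0) (p (nat_lit 0x160004) (nat_lit 0) (p (nat_lit 0x68612) (nat_lit 0) (p (nat_lit 0x50592) (nat_lit 0) (p (nat_lit 0x40512)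 (nat_lit 0) (p (nat_lit 0x50312) (nat_lit 0) (p (nat_lit 0x38292) (nat_lit 0) (p (nat_lit 0x28212) (nat_lit 0) (p (nat_lit 0x38112) (nat_lit 0) (p (nat_lit 0x20092) (nat_lit 0) (p (nat_lit 0x10012) (nat_lit 0) pn)))))))))))))))))))))))))))))) :=
  Cl.node (nat_lit 0x200014) (nat_lit 2) (by decide +kernel) (ClAll.succ (ClAll.succ ClAll.zero n281) s1603)

def n354 : Cl (O (nat_lit 6)) (R (nat_lit 143633))
    (p (nat_lit 0x200014) (nat_lit 0) (p (nat_lit 0x20000c) (nat_lit 0) (p (nat_lit 0xb0004) (nat_lit 0) (p (nat_lit 0x380c2) (nat_lit 0) (p (nat_lit 0x3c4aa) (nat_lit 7) (p (nat_lit 0xd1) (nat_lit 1) (p (nat_lit 0xc9) (nat_lit 0) (p (nat_lit 0x101) (nat_lit 1) (p (nat_lit 0x119) (nat_lit 0) (p (nat_lit 0xc1) (nat_lit 0) (p (nat_lit 0x81) (nat_lit 1) (p (nat_lit 0x41) (nat_lit 1) (p (nat_lit 0x10a898a08881a) (nat_lit 0) (p (nat_lit 0x8a090988079a) (nat_lit 0) (p (nat_lit 0x108088907871a)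 (nat_lit 0) (p (nat_lit 0x87880887069a) (nat_lit 0) (p (nat_lit 0x8000080000000088806860a) (nat_lit 0) (p (nat_lit 0x8000080000000068786058a) (nat_lit 0) (p (nat_lit 0x10687058502) (nat_lit 0) (p (nat_lit 0x8606850482) (nat_lit 0) (p (nat_lit 0x160004) (nat_lit 0) (p (nat_lit 0x68612) (nat_lit 0) (p (nat_lit 0x50592) (nat_lit 0) (p (nat_lit 0x40512) (nat_lit 0) (p (nat_lit 0x50312) (nat_lit 0) (p (nat_lit 0x38292) (nat_lit 0) (p (nat_lit 0x28212) (nat_lit 0) (p (nat_lit 0x38112) (nat_lit 0) (p (nat_lit 0x20092) (nat_lit 0) (p (nat_lit 0x10012) (nat_lit 0) pn)))))))))))))))))))))))))))))) :=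
  Cl.node (nat_lit 0xc1) (nat_lit 2) (by decide +kernel) (ClAll.succ (ClAll.succ ClAll.zero n282) s1650)

def n355 : Cl (O (nat_lit 6)) (R (nat_lit 143633))
    (p (nat_lit 0x1fc014) (nat_lit 0) (p (nat_lit 0x1fc00c) (nat_lit 0) (p (nat_lit 0xb0004) (nat_lit 1) (p (nat_lit 0x380c2) (nat_lit 0) (p (nat_lit 0x3c4aa) (nat_lit 7) (p (nat_lit 0xd1) (nat_lit 1) (p (nat_lit 0xc9) (nat_lit 0) (p (nat_lit 0x101) (nat_lit 1) (p (nat_lit 0x119) (nat_lit 0) (p (nat_lit 0xc1) (nat_lit 0) (p (nat_lit 0x81) (nat_lit 1) (p (nat_lit 0x41) (nat_lit 1) (p (nat_lit 0x10a898a08881a) (nat_lit 0) (p (nat_lit 0x8a090988079a) (nat_lit 0) (p (nat_lit 0x108088907871a) (nat_lit 0) (p (nat_lit 0x87880887069a) (nat_lit 0) (p (nat_lit 0x8000080000000088806860a) (nat_lit 0) (p (nat_lit 0x8000080000000068786058a) (nat_lit 0) (p (nat_lit 0x10687058502) (nat_lit 0) (p (nat_lit 0x8606850482) (nat_lit 0) (p (nat_lit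 0x160004) (nat_lit 0) (p (nat_lit 0x68612) (nat_lit 0) (p (nat_lit 0x50592) (nat_lit 0) (p (nat_lit 0x40512) (nat_lit 0) (p (nat_lit 0x50312) (nat_lit 0) (p (nat_lit 0x38292) (nat_lit 0) (p (nat_lit 0x28212) (nat_lit 0) (p (nat_lit 0x38112) (nat_lit 0) (p (nat_lit 0x20092) (nat_lit 0) (p (nat_lit 0x10012) (nat_lit 0) pn)))))))))))))))))))))))))))))) :=
  Cl.node (nat_lit 0x10000c) (nat_lit 2) (by decide +kernel) (ClAll.succ (ClAll.succ ClAll.zero n283) s1660)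

def n356 : Cl (O (nat_lit 6)) (R (nat_lit 143633))
    (p (nat_lit 0xb0004) (nat_lit 0) (p (nat_lit 0x200014) (nat_lit 0) (p (nat_lit 0x20000c) (nat_lit 0) (p (nat_lit 0x380c2) (nat_lit 1) (p (nat_lit 0x3c4aa) (nat_lit 7) (p (nat_lit 0xd1) (nat_lit 1) (p (nat_lit 0xc9) (nat_lit 0) (p (nat_lit 0x101) (nat_lit 1) (p (nat_lit 0x119) (nat_lit 0) (p (nat_lit 0xc1) (nat_lit 0) (p (nat_lit 0x81) (nat_lit 1) (p (nat_lit 0x41) (nat_lit 1) (p (nat_lit 0x10a898a08881a) (nat_lit 0) (p (nat_lit 0x8a090988079a) (nat_lit 0) (p (nat_lit 0x108088907871a) (nat_lit 0) (p (nat_lit 0x87880887069a) (nat_lit 0) (p (nat_lit 0x8000080000000088806860a) (nat_lit 0) (p (nat_lit 0x8000080000000068786058a) (nat_lit 0) (p (nat_lit 0x10687058502) (nat_lit 0) (p (nat_lit 0x8606850482) (nat_lit 0) (p (nat_lit 0x160004) (nat_lit 0) (p (nat_lit 0x68612) (nat_lit 0) (p (nat_lit 0x50592) (nat_lit 0) (p (nat_lit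 0x40512) (nat_lit 0) (p (nat_lit 0x50312) (nat_lit 0) (p (nat_lit 0x38292) (nat_lit 0) (p (nat_lit 0x28212) (nat_lit 0) (p (nat_lit 0x38112) (nat_lit 0) (p (nat_lit 0x20092) (nat_lit 0) (p (nat_lit 0x10012) (nat_lit 0) pn)))))))))))))))))))))))))))))) :=
  Cl.node (nat_lit 0x100014) (nat_lit 2) (by decide +kernel) (ClAll.succ (ClAll.succ ClAll.zero n284) s1681)

def n357 : Cl (O (nat_lit 6)) (R (nat_lit 143633))
    (p (nat_lit 0x1fc014) (nat_lit 0) (p (nat_lit 0x1fc00c) (nat_lit 0) (p (nat_lit 0xb0004) (nat_lit 1) (p (nat_lit 0x380c2) (nat_lit 0) (p (nat_lit 0x3c4aa) (nat_lit 7) (p (nat_lit 0x111) (nat_lit 1) (p (nat_lit 0xd1) (nat_lit 1) (p (nat_lit 0xc9) (nat_lit 0) (p (nat_lit 0x119) (nat_lit 1) (p (nat_lit 0xc1) (nat_lit 0) (p (nat_lit 0x81) (nat_lit 1) (p (nat_lit 0x41) (nat_lit 1) (p (nat_lit 0x10a898a08881a) (nat_lit 0) (p (nat_lit 0x8a090988079a) (nat_lit 0) (p (nat_lit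 0x108088907871a) (nat_lit 0) (p (nat_lit 0x87880887069a) (nat_lit 0) (p (nat_lit 0x8000080000000088806860a) (nat_lit 0) (p (nat_lit 0x8000080000000068786058a) (nat_lit 0) (p (nat_lit 0x10687058502) (nat_lit 0) (p (nat_lit 0x8606850482) (nat_lit 0) (p (nat_lit 0x160004) (nat_lit 0) (p (nat_lit 0x68612) (nat_lit 0) (p (nat_lit 0x50592) (nat_lit 0) (p (nat_lit 0x40512) (nat_lit 0) (p (nat_lit 0x50312) (nat_lit 0) (p (nat_lit 0x38292) (nat_lit 0) (p (nat_lit 0x28212) (nat_lit 0) (p (nat_lit 0x38112) (nat_lit 0) (p (nat_lit 0x20092) (nat_lit 0) (p (nat_lit 0x10012) (nat_lit 0) pn)))))))))))))))))))))))))))))) :=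
  Cl.node (nat_lit 0x10000c) (nat_lit 2) (by decide +kernel) (ClAll.succ (ClAll.succ ClAll.zero n285) s1704)

def n358 : Cl (O (nat_lit 6)) (R (nat_lit 143633))
    (p (nat_lit 0x200014) (nat_lit 0) (p (nat_lit 0xb0004) (nat_lit 0) (p (nat_lit 0x20000c) (nat_lit 0) (p (nat_lit 0x380c2) (nat_lit 1) (p (nat_lit 0x3c4aa) (nat_lit 7) (p (nat_lit 0x111) (nat_lit 1) (p (nat_lit 0xd1) (nat_lit 1) (p (nat_lit 0xc9) (nat_lit 0) (p (nat_lit 0x119) (nat_lit 1) (p (nat_lit 0xc1) (nat_lit 0) (p (nat_lit 0x81) (nat_lit 1) (p (nat_lit 0x41) (nat_lit 1) (p (nat_lit 0x10a898a08881a) (nat_lit 0) (p (nat_lit 0x8a090988079a) (nat_lit 0) (p (nat_lit 0x108088907871a) (nat_lit 0) (p (nat_lit 0x87880887069a) (nat_lit 0) (p (nat_lit 0x8000080000000088806860a) (nat_lit 0) (p (nat_lit 0x8000080000000068786058a) (nat_lit 0) (p (nat_lit 0x10687058502) (nat_lit 0) (p (nat_lit 0x8606850482) (nat_lit 0) (p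 (nat_lit 0x160004) (nat_lit 0) (p (nat_lit 0x68612) (nat_lit 0) (p (nat_lit 0x50592) (nat_lit 0) (p (nat_lit 0x40512) (nat_lit 0) (p (nat_lit 0x50312) (nat_lit 0) (p (nat_lit 0x38292) (nat_lit 0) (p (nat_lit 0x28212) (nat_lit 0) (p (nat_lit 0x38112) (nat_lit 0) (p (nat_lit 0x20092) (nat_lit 0) (p (nat_lit 0x10012) (nat_lit 0) pn)))))))))))))))))))))))))))))) :=
  Cl.node (nat_lit 0x101) (nat_lit 2) (by decide +kernel) (ClAll.succ (ClAll.succ ClAll.zero n286) s1709)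

def n359 : Cl (O (nat_lit 6)) (R (nat_lit 143633))
    (p (nat_lit 0x200014) (nat_lit 0) (p (nat_lit 0x20000c) (nat_lit 0) (p (nat_lit 0xb0004) (nat_lit 0) (p (nat_lit 0x380c2) (nat_lit 0) (p (nat_lit 0x3c4aa) (nat_lit 7) (p (nat_lit 0x111) (nat_lit 1) (p (nat_lit 0x109) (nat_lit 0) (p (nat_lit 0xc9) (nat_lit 1) (p (nat_lit 0x119) (nat_lit 1) (p (nat_lit 0xc1) (nat_lit 0) (p (nat_lit 0x81) (nat_lit 1) (p (nat_lit 0x41) (nat_lit 1) (p (nat_lit 0x10a898a08881a) (nat_lit 0) (p (nat_lit 0x8a090988079a) (nat_lit 0) (p (nat_lit 0x108088907871a) (nat_lit 0) (p (nat_lit 0x87880887069a) (nat_lit 0) (p (nat_lit 0x8000080000000088806860a) (nat_lit 0) (p (nat_lit 0x8000080000000068786058a) (nat_lit 0) (p (nat_lit 0x10687058502) (nat_lit 0) (p (nat_lit 0x8606850482) (nat_lit 0) (p (nat_lit 0x160004) (nat_lit 0) (p (nat_lit 0x68612) (nat_lit 0) (p (nat_lit 0x50592) (nat_lit 0) (p (nat_lit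 0x40512) (nat_lit 0) (p (nat_lit 0x50312) (nat_lit 0) (p (nat_lit 0x38292) (nat_lit 0) (p (nat_lit 0x28212) (nat_lit 0) (p (nat_lit 0x38112) (nat_lit 0) (p (nat_lit 0x20092) (nat_lit 0) (p (nat_lit 0x10012) (nat_lit 0) pn)))))))))))))))))))))))))))))) :=
  Cl.node (nat_lit 0x10000c) (nat_lit 2) (by decide +kernel) (ClAll.succ (ClAll.succ ClAll.zero n287) s1741)

def n360 : Cl (O (nat_lit 6)) (R (nat_lit 143633))
    (p (nat_lit 0x200014) (nat_lit 0) (p (nat_lit 0x20000c) (nat_lit 0) (p (nat_lit 0xb0004) (nat_lit 0) (p (nat_lit 0x380c2) (nat_lit 1) (p (nat_lit 0x3c4aa) (nat_lit 7) (p (nat_lit 0x111) (nat_lit 1) (p (nat_lit 0x109) (nat_lit 0) (p (nat_lit 0xc9) (nat_lit 1) (p (nat_lit 0x119) (nat_lit 1) (p (nat_lit 0xc1) (nat_lit 0) (p (nat_lit 0x81) (nat_lit 1) (p (nat_lit 0x41) (nat_lit 1) (p (nat_lit 0x10a898a08881a) (nat_lit 0) (p (nat_lit 0x8a090988079a) (nat_lit 0) (p (nat_lit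 0x108088907871a) (nat_lit 0) (p (nat_lit 0x87880887069a) (nat_lit 0) (p (nat_lit 0x8000080000000088806860a) (nat_lit 0) (p (nat_lit 0x8000080000000068786058a) (nat_lit 0) (p (nat_lit 0x10687058502) (nat_lit 0) (p (nat_lit 0x8606850482) (nat_lit 0) (p (nat_lit 0x160004) (nat_lit 0) (p (nat_lit 0x68612) (nat_lit 0) (p (nat_lit 0x50592) (nat_lit 0) (p (nat_lit 0x40512) (nat_lit 0) (p (nat_lit 0x50312) (nat_lit 0) (p (nat_lit 0x38292) (nat_lit 0) (p (nat_lit 0x28212) (nat_lit 0) (p (nat_lit 0x38112) (nat_lit 0) (p (nat_lit 0x20092) (nat_lit 0) (p (nat_lit 0x10012) (nat_lit 0) pn)))))))))))))))))))))))))))))) :=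
  Cl.node (nat_lit 0x10000c) (nat_lit 2) (by decide +kernel) (ClAll.succ (ClAll.succ ClAll.zero n288) s1748)

def n361 : Cl (O (nat_lit 6)) (R (nat_lit 143633))
    (p (nat_lit 0x20000c) (nat_lit 0) (p (nat_lit 0x380c2) (nat_lit 0) (p (nat_lit 0x444aa) (nat_lit 7) (p (nat_lit 0x81) (nat_lit 1) (p (nat_lit 0xc9) (nat_lit 1) (p (nat_lit 0x109) (nat_lit 1) (p (nat_lit 0x101) (nat_lit 0) (p (nat_lit 0x119) (nat_lit 0) (p (nat_lit 0xd1) (nat_lit 0) (p (nat_lit 0x89) (nat_lit 0) (p (nat_lit 0x41) (nat_lit 0) (p (nat_lit 0x10a898a08881a) (nat_lit 0) (p (nat_lit 0x8a090988079a) (nat_lit 0) (p (nat_lit 0x108088907871a) (nat_lit 0) (p (nat_lit 0x87880887069a) (nat_lit 0) (p (nat_lit 0x8000080000000088806860a) (nat_lit 0) (p (nat_lit 0x8000080000000068786058a) (nat_lit 0) (p (nat_lit 0x10687058502) (nat_lit 0) (p (nat_lit 0x8606850482) (nat_lit 0) (p (nat_lit 0x160004) (nat_lit 0) (p (nat_lit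 0x68612) (nat_lit 0) (p (nat_lit 0x50592) (nat_lit 0) (p (nat_lit 0x40512) (nat_lit 0) (p (nat_lit 0x50312) (nat_lit 0) (p (nat_lit 0x38292) (nat_lit 0) (p (nat_lit 0x28212) (nat_lit 0) (p (nat_lit 0x38112) (nat_lit 0) (p (nat_lit 0x20092) (nat_lit 0) (p (nat_lit 0x10012) (nat_lit 0) pn))))))))))))))))))))))))))))) :=
  Cl.node (nat_lit 0x10000c) (nat_lit 2) (by decide +kernel) (ClAll.succ (ClAll.succ ClAll.zero n289) s14)

def n362 : Cl (O (nat_lit 6)) (R (nat_lit 143633))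
    (p (nat_lit 0xb0004) (nat_lit 0) (p (nat_lit 0x380c2) (nat_lit 1) (p (nat_lit 0x444aa) (nat_lit 7) (p (nat_lit 0x81) (nat_lit 1) (p (nat_lit 0xc9) (nat_lit 1) (p (nat_lit 0x109) (nat_lit 1) (p (nat_lit 0x101) (nat_lit 0) (p (nat_lit 0x119) (nat_lit 0) (p (nat_lit 0xd1) (nat_lit 0) (p (nat_lit 0x89) (nat_lit 0) (p (nat_lit 0x41) (nat_lit 0) (p (nat_lit 0x10a898a08881a) (nat_lit 0) (p (nat_lit 0x8a090988079a) (nat_lit 0) (p (nat_lit 0x108088907871a) (nat_lit 0) (p (nat_lit 0x87880887069a) (nat_lit 0) (p (nat_lit 0x8000080000000088806860a) (nat_lit 0) (p (nat_lit 0x8000080000000068786058a) (nat_lit 0) (p (nat_lit 0x10687058502) (nat_lit 0) (p (nat_lit 0x8606850482) (nat_lit 0) (p (nat_lit 0x160004) (nat_lit 0) (p (nat_lit 0x68612) (nat_lit 0) (p (nat_lit 0x50592) (nat_lit 0) (p (nat_lit 0x40512) (nat_lit 0) (p (nat_lit 0x50312) (nat_lit 0) (p (nat_lit 0x38292) (nat_lit 0) (p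 (nat_lit 0x28212) (nat_lit 0) (p (nat_lit 0x38112) (nat_lit 0) (p (nat_lit 0x20092) (nat_lit 0) (p (nat_lit 0x10012) (nat_lit 0) pn))))))))))))))))))))))))))))) :=
  Cl.node (nat_lit 0x81) (nat_lit 2) (by decide +kernel) (ClAll.succ (ClAll.succ ClAll.zero s16) n290)

def n363 : Cl (O (nat_lit 6)) (R (nat_lit 143633))
    (p (nat_lit 0xb0004) (nat_lit 1) (p (nat_lit 0x380c2) (nat_lit 1) (p (nat_lit 0x444aa) (nat_lit 7) (p (nat_lit 0x81) (nat_lit 1) (p (nat_lit 0xc9) (nat_lit 1) (p (nat_lit 0x109) (nat_lit 1) (p (nat_lit 0x101) (nat_lit 0) (p (nat_lit 0x119) (nat_lit 0) (p (nat_lit 0xd1) (nat_lit 0) (p (nat_lit 0x89) (nat_lit 0) (p (nat_lit 0x41) (nat_lit 0) (p (nat_lit 0x10a898a08881a) (nat_lit 0) (p (nat_lit 0x8a090988079a) (nat_lit 0) (p (nat_lit 0x108088907871a) (nat_lit 0) (p (nat_lit 0x87880887069a) (nat_lit 0) (p (nat_lit 0x8000080000000088806860a) (nat_lit 0) (p (nat_lit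 0x8000080000000068786058a) (nat_lit 0) (p (nat_lit 0x10687058502) (nat_lit 0) (p (nat_lit 0x8606850482) (nat_lit 0) (p (nat_lit 0x160004) (nat_lit 0) (p (nat_lit 0x68612) (nat_lit 0) (p (nat_lit 0x50592) (nat_lit 0) (p (nat_lit 0x40512) (nat_lit 0) (p (nat_lit 0x50312) (nat_lit 0) (p (nat_lit 0x38292) (nat_lit 0) (p (nat_lit 0x28212) (nat_lit 0) (p (nat_lit 0x38112) (nat_lit 0) (p (nat_lit 0x20092) (nat_lit 0) (p (nat_lit 0x10012) (nat_lit 0) pn))))))))))))))))))))))))))))) :=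
  Cl.node (nat_lit 0x1fc00c) (nat_lit 2) (by decide +kernel) (ClAll.succ (ClAll.succ ClAll.zero n291) s28)

def n364 : Cl (O (nat_lit 6)) (R (nat_lit 143633))
    (p (nat_lit 0xb0004) (nat_lit 0) (p (nat_lit 0x380c2) (nat_lit 0) (p (nat_lit 0x4c42a) (nat_lit 2) (p (nat_lit 0x111) (nat_lit 0) (p (nat_lit 0xc9) (nat_lit 0) (p (nat_lit 0x81) (nat_lit 0) (p (nat_lit 0x101) (nat_lit 1) (p (nat_lit 0x119) (nat_lit 0) (p (nat_lit 0xd1) (nat_lit 0) (p (nat_lit 0x89) (nat_lit 0) (p (nat_lit 0x41) (nat_lit 0) (p (nat_lit 0x10a898a08881a) (nat_lit 0) (p (nat_lit 0x8a090988079a) (nat_lit 0) (p (nat_lit 0x108088907871a) (nat_lit 0) (p (nat_lit 0x87880887069a) (nat_lit 0) (p (nat_lit 0x8000080000000088806860a) (nat_lit 0) (p (nat_lit 0x8000080000000068786058a) (nat_lit 0) (p (nat_lit 0x10687058502) (nat_lit 0) (p (nat_lit 0x8606850482) (nat_lit 0) (p (nat_lit 0x160004) (nat_lit 0) (p (nat_lit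 0x68612) (nat_lit 0) (p (nat_lit 0x50592) (nat_lit 0) (p (nat_lit 0x40512) (nat_lit 0) (p (nat_lit 0x50312) (nat_lit 0) (p (nat_lit 0x38292) (nat_lit 0) (p (nat_lit 0x28212) (nat_lit 0) (p (nat_lit 0x38112) (nat_lit 0) (p (nat_lit 0x20092) (nat_lit 0) (p (nat_lit 0x10012) (nat_lit 0) pn))))))))))))))))))))))))))))) :=
  Cl.node (nat_lit 0xc1) (nat_lit 2) (by decide +kernel) (ClAll.succ (ClAll.succ ClAll.zero s36) n292)

def n365 : Cl (O (nat_lit 6)) (R (nat_lit 143633))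
    (p (nat_lit 0xb0004) (nat_lit 1) (p (nat_lit 0x380c2) (nat_lit 0) (p (nat_lit 0x4c42a) (nat_lit 2) (p (nat_lit 0x111) (nat_lit 0) (p (nat_lit 0xc9) (nat_lit 0) (p (nat_lit 0x81) (nat_lit 0) (p (nat_lit 0x101) (nat_lit 1) (p (nat_lit 0x119) (nat_lit 0) (p (nat_lit 0xd1) (nat_lit 0) (p (nat_lit 0x89) (nat_lit 0) (p (nat_lit 0x41) (nat_lit 0) (p (nat_lit 0x10a898a08881a) (nat_lit 0) (p (nat_lit 0x8a090988079a) (nat_lit 0) (p (nat_lit 0x108088907871a) (nat_lit 0) (p (nat_lit 0x87880887069a) (nat_lit 0) (p (nat_lit 0x8000080000000088806860a) (nat_lit 0) (p (nat_lit 0x8000080000000068786058a) (nat_lit 0) (p (nat_lit 0x10687058502) (nat_lit 0) (p (nat_lit 0x8606850482) (nat_lit 0) (p (nat_lit 0x160004) (nat_lit 0) (p (nat_lit 0x68612) (nat_lit 0) (p (nat_lit 0x50592) (nat_lit 0) (p (nat_lit 0x40512) (nat_lit 0) (p (nat_lit 0x50312) (nat_lit 0) (p (nat_lit 0x38292) (nat_lit 0) (p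 (nat_lit 0x28212) (nat_lit 0) (p (nat_lit 0x38112) (nat_lit 0) (p (nat_lit 0x20092) (nat_lit 0) (p (nat_lit 0x10012) (nat_lit 0) pn))))))))))))))))))))))))))))) :=
  Cl.node (nat_lit 0x1fc00c) (nat_lit 2) (by decide +kernel) (ClAll.succ (ClAll.succ ClAll.zero n293) s71)

def n366 : Cl (O (nat_lit 6)) (R (nat_lit 143633))
    (p (nat_lit 0x200014) (nat_lit 0) (p (nat_lit 0x380c2) (nat_lit 0) (p (nat_lit 0x4c42a) (nat_lit 8) (p (nat_lit 0x111) (nat_lit 0) (p (nat_lit 0xc9) (nat_lit 0) (p (nat_lit 0x81) (nat_lit 0) (p (nat_lit 0x101) (nat_lit 1) (p (nat_lit 0x119) (nat_lit 0) (p (nat_lit 0xd1) (nat_lit 0) (p (nat_lit 0x89) (nat_lit 0) (p (nat_lit 0x41) (nat_lit 0) (p (nat_lit 0x10a898a08881a) (nat_lit 0) (p (nat_lit 0x8a090988079a) (nat_lit 0) (p (nat_lit 0x108088907871a) (nat_lit 0) (p (nat_lit 0x87880887069a) (nat_lit 0) (p (nat_lit 0x8000080000000088806860a) (nat_lit 0) (p (nat_lit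 0x8000080000000068786058a) (nat_lit 0) (p (nat_lit 0x10687058502) (nat_lit 0) (p (nat_lit 0x8606850482) (nat_lit 0) (p (nat_lit 0x160004) (nat_lit 0) (p (nat_lit 0x68612) (nat_lit 0) (p (nat_lit 0x50592) (nat_lit 0) (p (nat_lit 0x40512) (nat_lit 0) (p (nat_lit 0x50312) (nat_lit 0) (p (nat_lit 0x38292) (nat_lit 0) (p (nat_lit 0x28212) (nat_lit 0) (p (nat_lit 0x38112) (nat_lit 0) (p (nat_lit 0x20092) (nat_lit 0) (p (nat_lit 0x10012) (nat_lit 0) pn))))))))))))))))))))))))))))) :=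
  Cl.node (nat_lit 0xb0004) (nat_lit 2) (by decide +kernel) (ClAll.succ (ClAll.succ ClAll.zero s77) s78)

def n367 : Cl (O (nat_lit 6)) (R (nat_lit 143633))
    (p (nat_lit 0xb0004) (nat_lit 0) (p (nat_lit 0x380c2) (nat_lit 0) (p (nat_lit 0x444aa) (nat_lit 7) (p (nat_lit 0x111) (nat_lit 0) (p (nat_lit 0xc9) (nat_lit 1) (p (nat_lit 0x81) (nat_lit 0) (p (nat_lit 0x101) (nat_lit 1) (p (nat_lit 0x119) (nat_lit 0) (p (nat_lit 0xd1) (nat_lit 0) (p (nat_lit 0x89) (nat_lit 0) (p (nat_lit 0x41) (nat_lit 0) (p (nat_lit 0x10a898a08881a) (nat_lit 0) (p (nat_lit 0x8a090988079a) (nat_lit 0) (p (nat_lit 0x108088907871a) (nat_lit 0) (p (nat_lit 0x87880887069a) (nat_lit 0) (p (nat_lit 0x8000080000000088806860a) (nat_lit 0) (p (nat_lit 0x8000080000000068786058a) (nat_lit 0) (p (nat_lit 0x10687058502) (nat_lit 0) (p (nat_lit 0x8606850482) (nat_lit 0) (p (nat_lit 0x160004) (nat_lit 0) (p (nat_lit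 0x68612) (nat_lit 0) (p (nat_lit 0x50592) (nat_lit 0) (p (nat_lit 0x40512) (nat_lit 0) (p (nat_lit 0x50312) (nat_lit 0) (p (nat_lit 0x38292) (nat_lit 0) (p (nat_lit 0x28212) (nat_lit 0) (p (nat_lit 0x38112) (nat_lit 0) (p (nat_lit 0x20092) (nat_lit 0) (p (nat_lit 0x10012) (nat_lit 0) pn))))))))))))))))))))))))))))) :=
  Cl.node (nat_lit 0x89) (nat_lit 2) (by decide +kernel) (ClAll.succ (ClAll.succ ClAll.zero n294) s115)

def n368 : Cl (O (nat_lit 6)) (R (nat_lit 143633))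
    (p (nat_lit 0xb0004) (nat_lit 1) (p (nat_lit 0x380c2) (nat_lit 0) (p (nat_lit 0x444aa) (nat_lit 7) (p (nat_lit 0x111) (nat_lit 0) (p (nat_lit 0xc9) (nat_lit 1) (p (nat_lit 0x81) (nat_lit 0) (p (nat_lit 0x101) (nat_lit 1) (p (nat_lit 0x119) (nat_lit 0) (p (nat_lit 0xd1) (nat_lit 0) (p (nat_lit 0x89) (nat_lit 0) (p (nat_lit 0x41) (nat_lit 0) (p (nat_lit 0x10a898a08881a) (nat_lit 0) (p (nat_lit 0x8a090988079a) (nat_lit 0) (p (nat_lit 0x108088907871a) (nat_lit 0) (p (nat_lit 0x87880887069a) (nat_lit 0) (p (nat_lit 0x8000080000000088806860a) (nat_lit 0) (p (nat_lit 0x8000080000000068786058a) (nat_lit 0) (p (nat_lit 0x10687058502) (nat_lit 0) (p (nat_lit 0x8606850482) (nat_lit 0) (p (nat_lit 0x160004) (nat_lit 0) (p (nat_lit 0x68612) (nat_lit 0) (p (nat_lit 0x50592) (nat_lit 0) (p (nat_lit 0x40512) (nat_lit 0) (p (nat_lit 0x50312) (nat_lit 0) (p (nat_lit 0x38292) (nat_lit 0) (p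 (nat_lit 0x28212) (nat_lit 0) (p (nat_lit 0x38112) (nat_lit 0) (p (nat_lit 0x20092) (nat_lit 0) (p (nat_lit 0x10012) (nat_lit 0) pn))))))))))))))))))))))))))))) :=
  Cl.node (nat_lit 0x1fc00c) (nat_lit 2) (by decide +kernel) (ClAll.succ (ClAll.succ ClAll.zero n295) s119)

def n369 : Cl (O (nat_lit 6)) (R (nat_lit 143633))
    (p (nat_lit 0xb0004) (nat_lit 0) (p (nat_lit 0x380c2) (nat_lit 1) (p (nat_lit 0x444aa) (nat_lit 7) (p (nat_lit 0x111) (nat_lit 0) (p (nat_lit 0xc9) (nat_lit 1) (p (nat_lit 0x81) (nat_lit 0) (p (nat_lit 0x101) (nat_lit 1) (p (nat_lit 0x119) (nat_lit 0) (p (nat_lit 0xd1) (nat_lit 0) (p (nat_lit 0x89) (nat_lit 0) (p (nat_lit 0x41) (nat_lit 0) (p (nat_lit 0x10a898a08881a) (nat_lit 0) (p (nat_lit 0x8a090988079a) (nat_lit 0) (p (nat_lit 0x108088907871a) (nat_lit 0) (p (nat_lit 0x87880887069a) (nat_lit 0) (p (nat_lit 0x8000080000000088806860a) (nat_lit 0) (p (nat_lit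 0x8000080000000068786058a) (nat_lit 0) (p (nat_lit 0x10687058502) (nat_lit 0) (p (nat_lit 0x8606850482) (nat_lit 0) (p (nat_lit 0x160004) (nat_lit 0) (p (nat_lit 0x68612) (nat_lit 0) (p (nat_lit 0x50592) (nat_lit 0) (p (nat_lit 0x40512) (nat_lit 0) (p (nat_lit 0x50312) (nat_lit 0) (p (nat_lit 0x38292) (nat_lit 0) (p (nat_lit 0x28212) (nat_lit 0) (p (nat_lit 0x38112) (nat_lit 0) (p (nat_lit 0x20092) (nat_lit 0) (p (nat_lit 0x10012) (nat_lit 0) pn))))))))))))))))))))))))))))) :=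
  Cl.node (nat_lit 0x20000c) (nat_lit 2) (by decide +kernel) (ClAll.succ (ClAll.succ ClAll.zero n296) s138)

def n370 : Cl (O (nat_lit 6)) (R (nat_lit 143633))
    (p (nat_lit 0xb0004) (nat_lit 1) (p (nat_lit 0x380c2) (nat_lit 1) (p (nat_lit 0x444aa) (nat_lit 7) (p (nat_lit 0x111) (nat_lit 0) (p (nat_lit 0xc9) (nat_lit 1) (p (nat_lit 0x81) (nat_lit 0) (p (nat_lit 0x101) (nat_lit 1) (p (nat_lit 0x119) (nat_lit 0) (p (nat_lit 0xd1) (nat_lit 0) (p (nat_lit 0x89) (nat_lit 0) (p (nat_lit 0x41) (nat_lit 0) (p (nat_lit 0x10a898a08881a) (nat_lit 0) (p (nat_lit 0x8a090988079a) (nat_lit 0) (p (nat_lit 0x108088907871a) (nat_lit 0) (p (nat_lit 0x87880887069a) (nat_lit 0) (p (nat_lit 0x8000080000000088806860a) (nat_lit 0) (p (nat_lit 0x8000080000000068786058a) (nat_lit 0) (p (nat_lit 0x10687058502) (nat_lit 0) (p (nat_lit 0x8606850482) (nat_lit 0) (p (nat_lit 0x160004) (nat_lit 0) (p (nat_lit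 0x68612) (nat_lit 0) (p (nat_lit 0x50592) (nat_lit 0) (p (nat_lit 0x40512) (nat_lit 0) (p (nat_lit 0x50312) (nat_lit 0) (p (nat_lit 0x38292) (nat_lit 0) (p (nat_lit 0x28212) (nat_lit 0) (p (nat_lit 0x38112) (nat_lit 0) (p (nat_lit 0x20092) (nat_lit 0) (p (nat_lit 0x10012) (nat_lit 0) pn))))))))))))))))))))))))))))) :=
  Cl.node (nat_lit 0x1fc00c) (nat_lit 2) (by decide +kernel) (ClAll.succ (ClAll.succ ClAll.zero n297) s144)

def n371 : Cl (O (nat_lit 6)) (R (nat_lit 143633))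
    (p (nat_lit 0x200014) (nat_lit 0) (p (nat_lit 0x380c2) (nat_lit 0) (p (nat_lit 0x444aa) (nat_lit 8) (p (nat_lit 0x111) (nat_lit 0) (p (nat_lit 0xc9) (nat_lit 1) (p (nat_lit 0x81) (nat_lit 0) (p (nat_lit 0x101) (nat_lit 1) (p (nat_lit 0x119) (nat_lit 0) (p (nat_lit 0xd1) (nat_lit 0) (p (nat_lit 0x89) (nat_lit 0) (p (nat_lit 0x41) (nat_lit 0) (p (nat_lit 0x10a898a08881a) (nat_lit 0) (p (nat_lit 0x8a090988079a) (nat_lit 0) (p (nat_lit 0x108088907871a) (nat_lit 0) (p (nat_lit 0x87880887069a) (nat_lit 0) (p (nat_lit 0x8000080000000088806860a) (nat_lit 0) (p (nat_lit 0x8000080000000068786058a) (nat_lit 0) (p (nat_lit 0x10687058502) (nat_lit 0) (p (nat_lit 0x8606850482) (nat_lit 0) (p (nat_lit 0x160004) (nat_lit 0) (p (nat_lit 0x68612) (nat_lit 0) (p (nat_lit 0x50592) (nat_lit 0) (p (nat_lit 0x40512) (nat_lit 0) (p (nat_lit 0x50312) (nat_lit 0) (p (nat_lit 0x38292) (nat_lit 0) (p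 (nat_lit 0x28212) (nat_lit 0) (p (nat_lit 0x38112) (nat_lit 0) (p (nat_lit 0x20092) (nat_lit 0) (p (nat_lit 0x10012) (nat_lit 0) pn))))))))))))))))))))))))))))) :=
  Cl.node (nat_lit 0x20000c) (nat_lit 2) (by decide +kernel) (ClAll.succ (ClAll.succ ClAll.zero n298) s149)

def n372 : Cl (O (nat_lit 6)) (R (nat_lit 143633))
    (p (nat_lit 0x200014) (nat_lit 0) (p (nat_lit 0x380c2) (nat_lit 1) (p (nat_lit 0x444aa) (nat_lit 8) (p (nat_lit 0x111) (nat_lit 0) (p (nat_lit 0xc9) (nat_lit 1) (p (nat_lit 0x81) (nat_lit 0) (p (nat_lit 0x101) (nat_lit 1) (p (nat_lit 0x119) (nat_lit 0) (p (nat_lit 0xd1) (nat_lit 0) (p (nat_lit 0x89) (nat_lit 0) (p (nat_lit 0x41) (nat_lit 0) (p (nat_lit 0x10a898a08881a) (nat_lit 0) (p (nat_lit 0x8a090988079a) (nat_lit 0) (p (nat_lit 0x108088907871a) (nat_lit 0) (p (nat_lit 0x87880887069a) (nat_lit 0) (p (nat_lit 0x8000080000000088806860a) (nat_lit 0) (p (nat_lit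 0x8000080000000068786058a) (nat_lit 0) (p (nat_lit 0x10687058502) (nat_lit 0) (p (nat_lit 0x8606850482) (nat_lit 0) (p (nat_lit 0x160004) (nat_lit 0) (p (nat_lit 0x68612) (nat_lit 0) (p (nat_lit 0x50592) (nat_lit 0) (p (nat_lit 0x40512) (nat_lit 0) (p (nat_lit 0x50312) (nat_lit 0) (p (nat_lit 0x38292) (nat_lit 0) (p (nat_lit 0x28212) (nat_lit 0) (p (nat_lit 0x38112) (nat_lit 0) (p (nat_lit 0x20092) (nat_lit 0) (p (nat_lit 0x10012) (nat_lit 0) pn))))))))))))))))))))))))))))) :=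
  Cl.node (nat_lit 0x20000c) (nat_lit 2) (by decide +kernel) (ClAll.succ (ClAll.succ ClAll.zero n299) s155)

def n373 : Cl (O (nat_lit 6)) (R (nat_lit 143633))
    (p (nat_lit 0xb0004) (nat_lit 0) (p (nat_lit 0x380c2) (nat_lit 0) (p (nat_lit 0x4c42a) (nat_lit 2) (p (nat_lit 0xc9) (nat_lit 0) (p (nat_lit 0xc1) (nat_lit 0) (p (nat_lit 0x81) (nat_lit 1) (p (nat_lit 0x101) (nat_lit 1) (p (nat_lit 0x119) (nat_lit 0) (p (nat_lit 0xd1) (nat_lit 0) (p (nat_lit 0x89) (nat_lit 0) (p (nat_lit 0x41) (nat_lit 0) (p (nat_lit 0x10a898a08881a) (nat_lit 0) (p (nat_lit 0x8a090988079a) (nat_lit 0) (p (nat_lit 0x108088907871a) (nat_lit 0) (p (nat_lit 0x87880887069a) (nat_lit 0) (p (nat_lit 0x8000080000000088806860a) (nat_lit 0) (p (nat_lit 0x8000080000000068786058a) (nat_lit 0) (p (nat_lit 0x10687058502) (nat_lit 0) (p (nat_lit 0x8606850482) (nat_lit 0) (p (nat_lit 0x160004) (nat_lit 0) (p (nat_lit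 0x68612) (nat_lit 0) (p (nat_lit 0x50592) (nat_lit 0) (p (nat_lit 0x40512) (nat_lit 0) (p (nat_lit 0x50312) (nat_lit 0) (p (nat_lit 0x38292) (nat_lit 0) (p (nat_lit 0x28212) (nat_lit 0) (p (nat_lit 0x38112) (nat_lit 0) (p (nat_lit 0x20092) (nat_lit 0) (p (nat_lit 0x10012) (nat_lit 0) pn))))))))))))))))))))))))))))) :=
  Cl.node (nat_lit 0x111) (nat_lit 2) (by decide +kernel) (ClAll.succ (ClAll.succ ClAll.zero s163) n300)

def n374 : Cl (O (nat_lit 6)) (R (nat_lit 143633))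
    (p (nat_lit 0xb0004) (nat_lit 1) (p (nat_lit 0x380c2) (nat_lit 0) (p (nat_lit 0x4c42a) (nat_lit 2) (p (nat_lit 0xc9) (nat_lit 0) (p (nat_lit 0xc1) (nat_lit 0) (p (nat_lit 0x81) (nat_lit 1) (p (nat_lit 0x101) (nat_lit 1) (p (nat_lit 0x119) (nat_lit 0) (p (nat_lit 0xd1) (nat_lit 0) (p (nat_lit 0x89) (nat_lit 0) (p (nat_lit 0x41) (nat_lit 0) (p (nat_lit 0x10a898a08881a) (nat_lit 0) (p (nat_lit 0x8a090988079a) (nat_lit 0) (p (nat_lit 0x108088907871a) (nat_lit 0) (p (nat_lit 0x87880887069a) (nat_lit 0) (p (nat_lit 0x8000080000000088806860a) (nat_lit 0) (p (nat_lit 0x8000080000000068786058a) (nat_lit 0) (p (nat_lit 0x10687058502) (nat_lit 0) (p (nat_lit 0x8606850482) (nat_lit 0) (p (nat_lit 0x160004) (nat_lit 0) (p (nat_lit 0x68612) (nat_lit 0) (p (nat_lit 0x50592) (nat_lit 0) (p (nat_lit 0x40512) (nat_lit 0) (p (nat_lit 0x50312) (nat_lit 0) (p (nat_lit 0x38292) (nat_lit 0) (p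 (nat_lit 0x28212) (nat_lit 0) (p (nat_lit 0x38112) (nat_lit 0) (p (nat_lit 0x20092) (nat_lit 0) (p (nat_lit 0x10012) (nat_lit 0) pn))))))))))))))))))))))))))))) :=
  Cl.node (nat_lit 0x1fc00c) (nat_lit 2) (by decide +kernel) (ClAll.succ (ClAll.succ ClAll.zero n301) s195)

def n375 : Cl (O (nat_lit 6)) (R (nat_lit 143633))
    (p (nat_lit 0x200014) (nat_lit 0) (p (nat_lit 0x380c2) (nat_lit 0) (p (nat_lit 0x4c42a) (nat_lit 8) (p (nat_lit 0xc9) (nat_lit 0) (p (nat_lit 0xc1) (nat_lit 0) (p (nat_lit 0x81) (nat_lit 1) (p (nat_lit 0x101) (nat_lit 1) (p (nat_lit 0x119) (nat_lit 0) (p (nat_lit 0xd1) (nat_lit 0) (p (nat_lit 0x89) (nat_lit 0) (p (nat_lit 0x41) (nat_lit 0) (p (nat_lit 0x10a898a08881a) (nat_lit 0) (p (nat_lit 0x8a090988079a) (nat_lit 0) (p (nat_lit 0x108088907871a) (nat_lit 0) (p (nat_lit 0x87880887069a) (nat_lit 0) (p (nat_lit 0x8000080000000088806860a) (nat_lit 0) (p (nat_lit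 0x8000080000000068786058a) (nat_lit 0) (p (nat_lit 0x10687058502) (nat_lit 0) (p (nat_lit 0x8606850482) (nat_lit 0) (p (nat_lit 0x160004) (nat_lit 0) (p (nat_lit 0x68612) (nat_lit 0) (p (nat_lit 0x50592) (nat_lit 0) (p (nat_lit 0x40512) (nat_lit 0) (p (nat_lit 0x50312) (nat_lit 0) (p (nat_lit 0x38292) (nat_lit 0) (p (nat_lit 0x28212) (nat_lit 0) (p (nat_lit 0x38112) (nat_lit 0) (p (nat_lit 0x20092) (nat_lit 0) (p (nat_lit 0x10012) (nat_lit 0) pn))))))))))))))))))))))))))))) :=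
  Cl.node (nat_lit 0xb0004) (nat_lit 2) (by decide +kernel) (ClAll.succ (ClAll.succ ClAll.zero s201) s202)

def n376 : Cl (O (nat_lit 6)) (R (nat_lit 143633))
    (p (nat_lit 0xb0004) (nat_lit 0) (p (nat_lit 0x380c2) (nat_lit 0) (p (nat_lit 0x444aa) (nat_lit 7) (p (nat_lit 0xc9) (nat_lit 1) (p (nat_lit 0xc1) (nat_lit 0) (p (nat_lit 0x81) (nat_lit 1) (p (nat_lit 0x101) (nat_lit 1) (p (nat_lit 0x119) (nat_lit 0) (p (nat_lit 0xd1) (nat_lit 0) (p (nat_lit 0x89) (nat_lit 0) (p (nat_lit 0x41) (nat_lit 0) (p (nat_lit 0x10a898a08881a) (nat_lit 0) (p (nat_lit 0x8a090988079a) (nat_lit 0) (p (nat_lit 0x108088907871a) (nat_lit 0) (p (nat_lit 0x87880887069a) (nat_lit 0) (p (nat_lit 0x8000080000000088806860a) (nat_lit 0) (p (nat_lit 0x8000080000000068786058a) (nat_lit 0) (p (nat_lit 0x10687058502) (nat_lit 0) (p (nat_lit 0x8606850482) (nat_lit 0) (p (nat_lit 0x160004) (nat_lit 0) (p (nat_lit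 0x68612) (nat_lit 0) (p (nat_lit 0x50592) (nat_lit 0) (p (nat_lit 0x40512) (nat_lit 0) (p (nat_lit 0x50312) (nat_lit 0) (p (nat_lit 0x38292) (nat_lit 0) (p (nat_lit 0x28212) (nat_lit 0) (p (nat_lit 0x38112) (nat_lit 0) (p (nat_lit 0x20092) (nat_lit 0) (p (nat_lit 0x10012) (nat_lit 0) pn))))))))))))))))))))))))))))) :=
  Cl.node (nat_lit 0xc9) (nat_lit 2) (by decide +kernel) (ClAll.succ (ClAll.succ ClAll.zero n302) s229)

def n377 : Cl (O (nat_lit 6)) (R (nat_lit 143633))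
    (p (nat_lit 0xb0004) (nat_lit 0) (p (nat_lit 0x380c2) (nat_lit 1) (p (nat_lit 0x444aa) (nat_lit 7) (p (nat_lit 0xc9) (nat_lit 1) (p (nat_lit 0xc1) (nat_lit 0) (p (nat_lit 0x81) (nat_lit 1) (p (nat_lit 0x101) (nat_lit 1) (p (nat_lit 0x119) (nat_lit 0) (p (nat_lit 0xd1) (nat_lit 0) (p (nat_lit 0x89) (nat_lit 0) (p (nat_lit 0x41) (nat_lit 0) (p (nat_lit 0x10a898a08881a) (nat_lit 0) (p (nat_lit 0x8a090988079a) (nat_lit 0) (p (nat_lit 0x108088907871a) (nat_lit 0) (p (nat_lit 0x87880887069a) (nat_lit 0) (p (nat_lit 0x8000080000000088806860a) (nat_lit 0) (p (nat_lit 0x8000080000000068786058a) (nat_lit 0) (p (nat_lit 0x10687058502) (nat_lit 0) (p (nat_lit 0x8606850482) (nat_lit 0) (p (nat_lit 0x160004) (nat_lit 0) (p (nat_lit 0x68612) (nat_lit 0) (p (nat_lit 0x50592) (nat_lit 0) (p (nat_lit 0x40512) (nat_lit 0) (p (nat_lit 0x50312) (nat_lit 0) (p (nat_lit 0x38292) (nat_lit 0) (p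 (nat_lit 0x28212) (nat_lit 0) (p (nat_lit 0x38112) (nat_lit 0) (p (nat_lit 0x20092) (nat_lit 0) (p (nat_lit 0x10012) (nat_lit 0) pn))))))))))))))))))))))))))))) :=
  Cl.node (nat_lit 0xc9) (nat_lit 2) (by decide +kernel) (ClAll.succ (ClAll.succ ClAll.zero n303) s234)

def n378 : Cl (O (nat_lit 6)) (R (nat_lit 143633))
    (p (nat_lit 0x41) (nat_lit 0) (p (nat_lit 0x101) (nat_lit 1) (p (nat_lit 0x380c2) (nat_lit 0) (p (nat_lit 0x3cc2a) (nat_lit 10) (p (nat_lit 0x109) (nat_lit 1) (p (nat_lit 0xc9) (nat_lit 1) (p (nat_lit 0xc1) (nat_lit 0) (p (nat_lit 0x119) (nat_lit 1) (p (nat_lit 0xd1) (nat_lit 0) (p (nat_lit 0x89) (nat_lit 0) (p (nat_lit 0x41) (nat_lit 0) (p (nat_lit 0x10a898a08881a) (nat_lit 0) (p (nat_lit 0x8a090988079a) (nat_lit 0) (p (nat_lit 0x108088907871a) (nat_lit 0) (p (nat_lit 0x87880887069a) (nat_lit 0) (p (nat_lit 0x8000080000000088806860a) (nat_lit 0) (p (nat_lit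 0x8000080000000068786058a) (nat_lit 0) (p (nat_lit 0x10687058502) (nat_lit 0) (p (nat_lit 0x8606850482) (nat_lit 0) (p (nat_lit 0x160004) (nat_lit 0) (p (nat_lit 0x68612) (nat_lit 0) (p (nat_lit 0x50592) (nat_lit 0) (p (nat_lit 0x40512) (nat_lit 0) (p (nat_lit 0x50312) (nat_lit 0) (p (nat_lit 0x38292) (nat_lit 0) (p (nat_lit 0x28212) (nat_lit 0) (p (nat_lit 0x38112) (nat_lit 0) (p (nat_lit 0x20092) (nat_lit 0) (p (nat_lit 0x10012) (nat_lit 0) pn))))))))))))))))))))))))))))) :=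
  Cl.node (nat_lit 0xb0004) (nat_lit 2) (by decide +kernel) (ClAll.succ (ClAll.succ ClAll.zero s255) s256)

def n379 : Cl (O (nat_lit 6)) (R (nat_lit 143633))
    (p (nat_lit 0x200014) (nat_lit 0) (p (nat_lit 0x41) (nat_lit 0) (p (nat_lit 0x380c2) (nat_lit 1) (p (nat_lit 0x3cc2a) (nat_lit 10) (p (nat_lit 0x109) (nat_lit 1) (p (nat_lit 0xc9) (nat_lit 1) (p (nat_lit 0xc1) (nat_lit 0) (p (nat_lit 0x119) (nat_lit 1) (p (nat_lit 0xd1) (nat_lit 0) (p (nat_lit 0x89) (nat_lit 0) (p (nat_lit 0x41) (nat_lit 0) (p (nat_lit 0x10a898a08881a) (nat_lit 0) (p (nat_lit 0x8a090988079a) (nat_lit 0) (p (nat_lit 0x108088907871a) (nat_lit 0) (p (nat_lit 0x87880887069a) (nat_lit 0) (p (nat_lit 0x8000080000000088806860a) (nat_lit 0) (p (nat_lit 0x8000080000000068786058a) (nat_lit 0) (p (nat_lit 0x10687058502) (nat_lit 0) (p (nat_lit 0x8606850482) (nat_lit 0) (p (nat_lit 0x160004) (nat_lit 0) (p (nat_lit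 0x68612) (nat_lit 0) (p (nat_lit 0x50592) (nat_lit 0) (p (nat_lit 0x40512) (nat_lit 0) (p (nat_lit 0x50312) (nat_lit 0) (p (nat_lit 0x38292) (nat_lit 0) (p (nat_lit 0x28212) (nat_lit 0) (p (nat_lit 0x38112) (nat_lit 0) (p (nat_lit 0x20092) (nat_lit 0) (p (nat_lit 0x10012) (nat_lit 0) pn))))))))))))))))))))))))))))) :=
  Cl.node (nat_lit 0xb0004) (nat_lit 2) (by decide +kernel) (ClAll.succ (ClAll.succ ClAll.zero s258) s259)

def n380 : Cl (O (nat_lit 6)) (R (nat_lit 143633))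
    (p (nat_lit 0x81) (nat_lit 1) (p (nat_lit 0xb0004) (nat_lit 0) (p (nat_lit 0x380c2) (nat_lit 0) (p (nat_lit 0x3cc2a) (nat_lit 11) (p (nat_lit 0x109) (nat_lit 1) (p (nat_lit 0xc9) (nat_lit 1) (p (nat_lit 0xc1) (nat_lit 0) (p (nat_lit 0x119) (nat_lit 1) (p (nat_lit 0xd1) (nat_lit 0) (p (nat_lit 0x89) (nat_lit 0) (p (nat_lit 0x41) (nat_lit 0) (p (nat_lit 0x10a898a08881a) (nat_lit 0) (p (nat_lit 0x8a090988079a) (nat_lit 0) (p (nat_lit 0x108088907871a) (nat_lit 0) (p (nat_lit 0x87880887069a) (nat_lit 0) (p (nat_lit 0x8000080000000088806860a) (nat_lit 0) (p (nat_lit 0x8000080000000068786058a) (nat_lit 0) (p (nat_lit 0x10687058502) (nat_lit 0) (p (nat_lit 0x8606850482) (nat_lit 0) (p (nat_lit 0x160004) (nat_lit 0) (p (nat_lit 0x68612) (nat_lit 0) (p (nat_lit 0x50592) (nat_lit 0) (p (nat_lit 0x40512) (nat_lit 0) (p (nat_lit 0x50312) (nat_lit 0) (p (nat_lit 0x38292) (nat_lit 0) (p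 (nat_lit 0x28212) (nat_lit 0) (p (nat_lit 0x38112) (nat_lit 0) (p (nat_lit 0x20092) (nat_lit 0) (p (nat_lit 0x10012) (nat_lit 0) pn))))))))))))))))))))))))))))) :=
  Cl.node (nat_lit 0x444aa) (nat_lit 12) (by decide +kernel) (ClAll.succ (ClAll.succ (ClAll.succ (ClAll.succ (ClAll.succ (ClAll.succ (ClAll.succ (ClAll.succ (ClAll.succ (ClAll.succ (ClAll.succ (ClAll.succ ClAll.zero s263) s264) s265) s266) s267) s268) s269) s270) s271) s272) s273) s274)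

def n381 : Cl (O (nat_lit 6)) (R (nat_lit 143633))
    (p (nat_lit 0x101) (nat_lit 1) (p (nat_lit 0xb0004) (nat_lit 0) (p (nat_lit 0x380c2) (nat_lit 1) (p (nat_lit 0x3cc2a) (nat_lit 11) (p (nat_lit 0x109) (nat_lit 1) (p (nat_lit 0xc9) (nat_lit 1) (p (nat_lit 0xc1) (nat_lit 0) (p (nat_lit 0x119) (nat_lit 1) (p (nat_lit 0xd1) (nat_lit 0) (p (nat_lit 0x89) (nat_lit 0) (p (nat_lit 0x41) (nat_lit 0) (p (nat_lit 0x10a898a08881a) (nat_lit 0) (p (nat_lit 0x8a090988079a) (nat_lit 0) (p (nat_lit 0x108088907871a) (nat_lit 0) (p (nat_lit 0x87880887069a) (nat_lit 0) (p (nat_lit 0x8000080000000088806860a) (nat_lit 0) (p (nat_lit 0x8000080000000068786058a) (nat_lit 0) (p (nat_lit 0x10687058502) (nat_lit 0) (p (nat_lit 0x8606850482) (nat_lit 0) (p (nat_lit 0x160004) (nat_lit 0) (p (nat_lit 0x68612) (nat_lit 0) (p (nat_lit 0x50592) (nat_lit 0) (p (nat_lit 0x40512) (nat_lit 0) (p (nat_lit 0x50312)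 (nat_lit 0) (p (nat_lit 0x38292) (nat_lit 0) (p (nat_lit 0x28212) (nat_lit 0) (p (nat_lit 0x38112) (nat_lit 0) (p (nat_lit 0x20092) (nat_lit 0) (p (nat_lit 0x10012) (nat_lit 0) pn))))))))))))))))))))))))))))) :=
  Cl.node (nat_lit 0x81) (nat_lit 2) (by decide +kernel) (ClAll.succ (ClAll.succ ClAll.zero s277) n304)

def n382 : Cl (O (nat_lit 6)) (R (nat_lit 143633))
    (p (nat_lit 0xd1) (nat_lit 0) (p (nat_lit 0xb0004) (nat_lit 0) (p (nat_lit 0x380c2) (nat_lit 0) (p (nat_lit 0x3cc2a) (nat_lit 11) (p (nat_lit 0x109) (nat_lit 1) (p (nat_lit 0x81) (nat_lit 0) (p (nat_lit 0xc1) (nat_lit 1) (p (nat_lit 0x119) (nat_lit 1) (p (nat_lit 0xd1) (nat_lit 0) (p (nat_lit 0x89) (nat_lit 0) (p (nat_lit 0x41) (nat_lit 0) (p (nat_lit 0x10a898a08881a) (nat_lit 0) (p (nat_lit 0x8a090988079a) (nat_lit 0) (p (nat_lit 0x108088907871a) (nat_lit 0) (p (nat_lit 0x87880887069a) (nat_lit 0) (p (nat_lit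 0x8000080000000088806860a) (nat_lit 0) (p (nat_lit 0x8000080000000068786058a) (nat_lit 0) (p (nat_lit 0x10687058502) (nat_lit 0) (p (nat_lit 0x8606850482) (nat_lit 0) (p (nat_lit 0x160004) (nat_lit 0) (p (nat_lit 0x68612) (nat_lit 0) (p (nat_lit 0x50592) (nat_lit 0) (p (nat_lit 0x40512) (nat_lit 0) (p (nat_lit 0x50312) (nat_lit 0) (p (nat_lit 0x38292) (nat_lit 0) (p (nat_lit 0x28212) (nat_lit 0) (p (nat_lit 0x38112) (nat_lit 0) (p (nat_lit 0x20092) (nat_lit 0) (p (nat_lit 0x10012) (nat_lit 0) pn))))))))))))))))))))))))))))) :=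
  Cl.node (nat_lit 0x444aa) (nat_lit 12) (by decide +kernel) (ClAll.succ (ClAll.succ (ClAll.succ (ClAll.succ (ClAll.succ (ClAll.succ (ClAll.succ (ClAll.succ (ClAll.succ (ClAll.succ (ClAll.succ (ClAll.succ ClAll.zero s328) s329) s330) s331) s332) s333) s334) s335) s336) s337) s338) s339)

def n383 : Cl (O (nat_lit 6)) (R (nat_lit 143633))
    (p (nat_lit 0x101) (nat_lit 1) (p (nat_lit 0x380c2) (nat_lit 0) (p (nat_lit 0x44c2a) (nat_lit 0) (p (nat_lit 0x109) (nat_lit 0) (p (nat_lit 0x101) (nat_lit 0) (p (nat_lit 0x81) (nat_lit 1) (p (nat_lit 0xc1) (nat_lit 1) (p (nat_lit 0x119) (nat_lit 1) (p (nat_lit 0xd1) (nat_lit 0) (p (nat_lit 0x89) (nat_lit 0) (p (nat_lit 0x41) (nat_lit 0) (p (nat_lit 0x10a898a08881a) (nat_lit 0) (p (nat_lit 0x8a090988079a) (nat_lit 0) (p (nat_lit 0x108088907871a) (nat_lit 0) (p (nat_lit 0x87880887069a) (nat_lit 0) (p (nat_lit 0x8000080000000088806860a) (nat_lit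 0) (p (nat_lit 0x8000080000000068786058a) (nat_lit 0) (p (nat_lit 0x10687058502) (nat_lit 0) (p (nat_lit 0x8606850482) (nat_lit 0) (p (nat_lit 0x160004) (nat_lit 0) (p (nat_lit 0x68612) (nat_lit 0) (p (nat_lit 0x50592) (nat_lit 0) (p (nat_lit 0x40512) (nat_lit 0) (p (nat_lit 0x50312) (nat_lit 0) (p (nat_lit 0x38292) (nat_lit 0) (p (nat_lit 0x28212) (nat_lit 0) (p (nat_lit 0x38112) (nat_lit 0) (p (nat_lit 0x20092) (nat_lit 0) (p (nat_lit 0x10012) (nat_lit 0) pn))))))))))))))))))))))))))))) :=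
  Cl.node (nat_lit 0x444aa) (nat_lit 12) (by decide +kernel) (ClAll.succ (ClAll.succ (ClAll.succ (ClAll.succ (ClAll.succ (ClAll.succ (ClAll.succ (ClAll.succ (ClAll.succ (ClAll.succ (ClAll.succ (ClAll.succ ClAll.zero s346) s347) s348) s349) s350) s351) s352) s353) s354) s355) s356) s357)

def n384 : Cl (O (nat_lit 6)) (R (nat_lit 143633))
    (p (nat_lit 0x101) (nat_lit 1) (p (nat_lit 0x380c2) (nat_lit 1) (p (nat_lit 0x44c2a) (nat_lit 0) (p (nat_lit 0x109) (nat_lit 0) (p (nat_lit 0x101) (nat_lit 0) (p (nat_lit 0x81) (nat_lit 1) (p (nat_lit 0xc1) (nat_lit 1) (p (nat_lit 0x119) (nat_lit 1) (p (nat_lit 0xd1) (nat_lit 0) (p (nat_lit 0x89) (nat_lit 0) (p (nat_lit 0x41) (nat_lit 0) (p (nat_lit 0x10a898a08881a) (nat_lit 0) (p (nat_lit 0x8a090988079a) (nat_lit 0) (p (nat_lit 0x108088907871a) (nat_lit 0) (p (nat_lit 0x87880887069a) (nat_lit 0) (p (nat_lit 0x8000080000000088806860a) (nat_lit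 0) (p (nat_lit 0x8000080000000068786058a) (nat_lit 0) (p (nat_lit 0x10687058502) (nat_lit 0) (p (nat_lit 0x8606850482) (nat_lit 0) (p (nat_lit 0x160004) (nat_lit 0) (p (nat_lit 0x68612) (nat_lit 0) (p (nat_lit 0x50592) (nat_lit 0) (p (nat_lit 0x40512) (nat_lit 0) (p (nat_lit 0x50312) (nat_lit 0) (p (nat_lit 0x38292) (nat_lit 0) (p (nat_lit 0x28212) (nat_lit 0) (p (nat_lit 0x38112) (nat_lit 0) (p (nat_lit 0x20092) (nat_lit 0) (p (nat_lit 0x10012) (nat_lit 0) pn))))))))))))))))))))))))))))) :=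
  Cl.node (nat_lit 0x444aa) (nat_lit 12) (by decide +kernel) (ClAll.succ (ClAll.succ (ClAll.succ (ClAll.succ (ClAll.succ (ClAll.succ (ClAll.succ (ClAll.succ (ClAll.succ (ClAll.succ (ClAll.succ (ClAll.succ ClAll.zero s359) s360) s361) s362) s363) s364) s365) s366) s367) s368) s369) s370)

def n385 : Cl (O (nat_lit 6)) (R (nat_lit 143633))
    (p (nat_lit 0xb0004) (nat_lit 0) (p (nat_lit 0x380c2) (nat_lit 0) (p (nat_lit 0x44c2a) (nat_lit 1) (p (nat_lit 0x109) (nat_lit 0) (p (nat_lit 0x101) (nat_lit 0) (p (nat_lit 0x81) (nat_lit 1) (p (nat_lit 0xc1) (nat_lit 1) (p (nat_lit 0x119) (nat_lit 1) (p (nat_lit 0xd1) (nat_lit 0) (p (nat_lit 0x89) (nat_lit 0) (p (nat_lit 0x41) (nat_lit 0) (p (nat_lit 0x10a898a08881a) (nat_lit 0) (p (nat_lit 0x8a090988079a) (nat_lit 0) (p (nat_lit 0x108088907871a) (nat_lit 0) (p (nat_lit 0x87880887069a) (nat_lit 0) (p (nat_lit 0x8000080000000088806860a) (nat_lit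 0) (p (nat_lit 0x8000080000000068786058a) (nat_lit 0) (p (nat_lit 0x10687058502) (nat_lit 0) (p (nat_lit 0x8606850482) (nat_lit 0) (p (nat_lit 0x160004) (nat_lit 0) (p (nat_lit 0x68612) (nat_lit 0) (p (nat_lit 0x50592) (nat_lit 0) (p (nat_lit 0x40512) (nat_lit 0) (p (nat_lit 0x50312) (nat_lit 0) (p (nat_lit 0x38292) (nat_lit 0) (p (nat_lit 0x28212) (nat_lit 0) (p (nat_lit 0x38112) (nat_lit 0) (p (nat_lit 0x20092) (nat_lit 0) (p (nat_lit 0x10012) (nat_lit 0) pn))))))))))))))))))))))))))))) :=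
  Cl.node (nat_lit 0x101) (nat_lit 2) (by decide +kernel) (ClAll.succ (ClAll.succ ClAll.zero s371) s372)

def n386 : Cl (O (nat_lit 6)) (R (nat_lit 143633))
    (p (nat_lit 0xb0004) (nat_lit 0) (p (nat_lit 0x380c2) (nat_lit 0) (p (nat_lit 0x444aa) (nat_lit 7) (p (nat_lit 0x109) (nat_lit 1) (p (nat_lit 0x101) (nat_lit 0) (p (nat_lit 0x81) (nat_lit 1) (p (nat_lit 0xc1) (nat_lit 1) (p (nat_lit 0x119) (nat_lit 1) (p (nat_lit 0xd1) (nat_lit 0) (p (nat_lit 0x89) (nat_lit 0) (p (nat_lit 0x41) (nat_lit 0) (p (nat_lit 0x10a898a08881a) (nat_lit 0) (p (nat_lit 0x8a090988079a) (nat_lit 0) (p (nat_lit 0x108088907871a) (nat_lit 0) (p (nat_lit 0x87880887069a) (nat_lit 0) (p (nat_lit 0x8000080000000088806860a) (nat_lit 0) (p (nat_lit 0x8000080000000068786058a) (nat_lit 0) (p (nat_lit 0x10687058502) (nat_lit 0) (p (nat_lit 0x8606850482) (nat_lit 0) (p (nat_lit 0x160004) (nat_lit 0) (p (nat_lit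 0x68612) (nat_lit 0) (p (nat_lit 0x50592) (nat_lit 0) (p (nat_lit 0x40512) (nat_lit 0) (p (nat_lit 0x50312) (nat_lit 0) (p (nat_lit 0x38292) (nat_lit 0) (p (nat_lit 0x28212) (nat_lit 0) (p (nat_lit 0x38112) (nat_lit 0) (p (nat_lit 0x20092) (nat_lit 0) (p (nat_lit 0x10012) (nat_lit 0) pn))))))))))))))))))))))))))))) :=
  Cl.node (nat_lit 0x109) (nat_lit 2) (by decide +kernel) (ClAll.succ (ClAll.succ ClAll.zero n305) s404)

def n387 : Cl (O (nat_lit 6)) (R (nat_lit 143633))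
    (p (nat_lit 0xb0004) (nat_lit 0) (p (nat_lit 0x380c2) (nat_lit 1) (p (nat_lit 0x444aa) (nat_lit 7) (p (nat_lit 0x109) (nat_lit 1) (p (nat_lit 0x101) (nat_lit 0) (p (nat_lit 0x81) (nat_lit 1) (p (nat_lit 0xc1) (nat_lit 1) (p (nat_lit 0x119) (nat_lit 1) (p (nat_lit 0xd1) (nat_lit 0) (p (nat_lit 0x89) (nat_lit 0) (p (nat_lit 0x41) (nat_lit 0) (p (nat_lit 0x10a898a08881a) (nat_lit 0) (p (nat_lit 0x8a090988079a) (nat_lit 0) (p (nat_lit 0x108088907871a) (nat_lit 0) (p (nat_lit 0x87880887069a) (nat_lit 0) (p (nat_lit 0x8000080000000088806860a) (nat_lit 0) (p (nat_lit 0x8000080000000068786058a) (nat_lit 0) (p (nat_lit 0x10687058502) (nat_lit 0) (p (nat_lit 0x8606850482) (nat_lit 0) (p (nat_lit 0x160004) (nat_lit 0) (p (nat_lit 0x68612) (nat_lit 0) (p (nat_lit 0x50592) (nat_lit 0) (p (nat_lit 0x40512) (nat_lit 0) (p (nat_lit 0x50312) (nat_lit 0) (p (nat_lit 0x38292) (nat_lit 0) (p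 (nat_lit 0x28212) (nat_lit 0) (p (nat_lit 0x38112) (nat_lit 0) (p (nat_lit 0x20092) (nat_lit 0) (p (nat_lit 0x10012) (nat_lit 0) pn))))))))))))))))))))))))))))) :=
  Cl.node (nat_lit 0x109) (nat_lit 2) (by decide +kernel) (ClAll.succ (ClAll.succ ClAll.zero n306) s418)

def n388 : Cl (O (nat_lit 6)) (R (nat_lit 143633))
    (p (nat_lit 0xb0004) (nat_lit 1) (p (nat_lit 0x380c2) (nat_lit 1) (p (nat_lit 0x444aa) (nat_lit 7) (p (nat_lit 0x109) (nat_lit 1) (p (nat_lit 0x101) (nat_lit 0) (p (nat_lit 0x81) (nat_lit 1) (p (nat_lit 0xc1) (nat_lit 1) (p (nat_lit 0x119) (nat_lit 1) (p (nat_lit 0xd1) (nat_lit 0) (p (nat_lit 0x89) (nat_lit 0) (p (nat_lit 0x41) (nat_lit 0) (p (nat_lit 0x10a898a08881a) (nat_lit 0) (p (nat_lit 0x8a090988079a) (nat_lit 0) (p (nat_lit 0x108088907871a) (nat_lit 0) (p (nat_lit 0x87880887069a) (nat_lit 0) (p (nat_lit 0x8000080000000088806860a) (nat_lit 0) (p (nat_lit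 0x8000080000000068786058a) (nat_lit 0) (p (nat_lit 0x10687058502) (nat_lit 0) (p (nat_lit 0x8606850482) (nat_lit 0) (p (nat_lit 0x160004) (nat_lit 0) (p (nat_lit 0x68612) (nat_lit 0) (p (nat_lit 0x50592) (nat_lit 0) (p (nat_lit 0x40512) (nat_lit 0) (p (nat_lit 0x50312) (nat_lit 0) (p (nat_lit 0x38292) (nat_lit 0) (p (nat_lit 0x28212) (nat_lit 0) (p (nat_lit 0x38112) (nat_lit 0) (p (nat_lit 0x20092) (nat_lit 0) (p (nat_lit 0x10012) (nat_lit 0) pn))))))))))))))))))))))))))))) :=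
  Cl.node (nat_lit 0x1fc00c) (nat_lit 2) (by decide +kernel) (ClAll.succ (ClAll.succ ClAll.zero n307) s424)

def n389 : Cl (O (nat_lit 6)) (R (nat_lit 143633))
    (p (nat_lit 0x200014) (nat_lit 0) (p (nat_lit 0x380c2) (nat_lit 0) (p (nat_lit 0x444aa) (nat_lit 8) (p (nat_lit 0x109) (nat_lit 1) (p (nat_lit 0x101) (nat_lit 0) (p (nat_lit 0x81) (nat_lit 1) (p (nat_lit 0xc1) (nat_lit 1) (p (nat_lit 0x119) (nat_lit 1) (p (nat_lit 0xd1) (nat_lit 0) (p (nat_lit 0x89) (nat_lit 0) (p (nat_lit 0x41) (nat_lit 0) (p (nat_lit 0x10a898a08881a) (nat_lit 0) (p (nat_lit 0x8a090988079a) (nat_lit 0) (p (nat_lit 0x108088907871a) (nat_lit 0) (p (nat_lit 0x87880887069a) (nat_lit 0) (p (nat_lit 0x8000080000000088806860a) (nat_lit 0) (p (nat_lit 0x8000080000000068786058a) (nat_lit 0) (p (nat_lit 0x10687058502) (nat_lit 0) (p (nat_lit 0x8606850482) (nat_lit 0) (p (nat_lit 0x160004) (nat_lit 0) (p (nat_lit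 0x68612) (nat_lit 0) (p (nat_lit 0x50592) (nat_lit 0) (p (nat_lit 0x40512) (nat_lit 0) (p (nat_lit 0x50312) (nat_lit 0) (p (nat_lit 0x38292) (nat_lit 0) (p (nat_lit 0x28212) (nat_lit 0) (p (nat_lit 0x38112) (nat_lit 0) (p (nat_lit 0x20092) (nat_lit 0) (p (nat_lit 0x10012) (nat_lit 0) pn))))))))))))))))))))))))))))) :=
  Cl.node (nat_lit 0x20000c) (nat_lit 2) (by decide +kernel) (ClAll.succ (ClAll.succ ClAll.zero n308) s427)

def n390 : Cl (O (nat_lit 6)) (R (nat_lit 143633))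
    (p (nat_lit 0x4c42a) (nat_lit 2) (p (nat_lit 0x109) (nat_lit 0) (p (nat_lit 0x200014) (nat_lit 0) (p (nat_lit 0x20000c) (nat_lit 0) (p (nat_lit 0x119) (nat_lit 0) (p (nat_lit 0x81) (nat_lit 0) (p (nat_lit 0x101) (nat_lit 1) (p (nat_lit 0x111) (nat_lit 0) (p (nat_lit 0xd1) (nat_lit 1) (p (nat_lit 0x89) (nat_lit 0) (p (nat_lit 0x41) (nat_lit 0) (p (nat_lit 0x10a898a08881a) (nat_lit 0) (p (nat_lit 0x8a090988079a) (nat_lit 0) (p (nat_lit 0x108088907871a) (nat_lit 0) (p (nat_lit 0x87880887069a) (nat_lit 0) (p (nat_lit 0x8000080000000088806860a) (nat_lit 0) (p (nat_lit 0x8000080000000068786058a) (nat_lit 0) (p (nat_lit 0x10687058502) (nat_lit 0) (p (nat_lit 0x8606850482) (nat_lit 0) (p (nat_lit 0x160004) (nat_lit 0) (p (nat_lit 0x68612) (nat_lit 0) (p (nat_lit 0x50592) (nat_lit 0) (p (nat_lit 0x40512) (nat_lit 0) (p (nat_lit 0x50312) (nat_lit 0) (p (nat_lit 0x38292) (nat_lit 0)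 (p (nat_lit 0x28212) (nat_lit 0) (p (nat_lit 0x38112) (nat_lit 0) (p (nat_lit 0x20092) (nat_lit 0) (p (nat_lit 0x10012) (nat_lit 0) pn))))))))))))))))))))))))))))) :=
  Cl.node (nat_lit 0x380c2) (nat_lit 1) (by decide +kernel) (ClAll.succ ClAll.zero n309)

def n391 : Cl (O (nat_lit 6)) (R (nat_lit 143633))
    (p (nat_lit 0xc9) (nat_lit 0) (p (nat_lit 0x380c2) (nat_lit 0) (p (nat_lit 0x444aa) (nat_lit 7) (p (nat_lit 0x119) (nat_lit 0) (p (nat_lit 0xc1) (nat_lit 0) (p (nat_lit 0x81) (nat_lit 1) (p (nat_lit 0x101) (nat_lit 1) (p (nat_lit 0x111) (nat_lit 0) (p (nat_lit 0xd1) (nat_lit 1) (p (nat_lit 0x89) (nat_lit 0) (p (nat_lit 0x41) (nat_lit 0) (p (nat_lit 0x10a898a08881a) (nat_lit 0) (p (nat_lit 0x8a090988079a) (nat_lit 0) (p (nat_lit 0x108088907871a) (nat_lit 0) (p (nat_lit 0x87880887069a) (nat_lit 0) (p (nat_lit 0x8000080000000088806860a) (nat_lit 0) (p (nat_lit 0x8000080000000068786058a)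 (nat_lit 0) (p (nat_lit 0x10687058502) (nat_lit 0) (p (nat_lit 0x8606850482) (nat_lit 0) (p (nat_lit 0x160004) (nat_lit 0) (p (nat_lit 0x68612) (nat_lit 0) (p (nat_lit 0x50592) (nat_lit 0) (p (nat_lit 0x40512) (nat_lit 0) (p (nat_lit 0x50312) (nat_lit 0) (p (nat_lit 0x38292) (nat_lit 0) (p (nat_lit 0x28212) (nat_lit 0) (p (nat_lit 0x38112) (nat_lit 0) (p (nat_lit 0x20092) (nat_lit 0) (p (nat_lit 0x10012) (nat_lit 0) pn))))))))))))))))))))))))))))) :=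
  Cl.node (nat_lit 0x4c42a) (nat_lit 12) (by decide +kernel) (ClAll.succ (ClAll.succ (ClAll.succ (ClAll.succ (ClAll.succ (ClAll.succ (ClAll.succ (ClAll.succ (ClAll.succ (ClAll.succ (ClAll.succ (ClAll.succ ClAll.zero s545) s546) s547) s548) s549) s550) s551) s552) s553) s554) s555) s556)

def n392 : Cl (O (nat_lit 6)) (R (nat_lit 143633))
    (p (nat_lit 0xb0004) (nat_lit 0) (p (nat_lit 0x380c2) (nat_lit 1) (p (nat_lit 0x444aa) (nat_lit 7) (p (nat_lit 0x119) (nat_lit 0) (p (nat_lit 0xc1) (nat_lit 0) (p (nat_lit 0x81) (nat_lit 1) (p (nat_lit 0x101) (nat_lit 1) (p (nat_lit 0x111) (nat_lit 0) (p (nat_lit 0xd1) (nat_lit 1) (p (nat_lit 0x89) (nat_lit 0) (p (nat_lit 0x41) (nat_lit 0) (p (nat_lit 0x10a898a08881a) (nat_lit 0) (p (nat_lit 0x8a090988079a) (nat_lit 0) (p (nat_lit 0x108088907871a) (nat_lit 0) (p (nat_lit 0x87880887069a) (nat_lit 0) (p (nat_lit 0x8000080000000088806860a) (nat_lit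 0) (p (nat_lit 0x8000080000000068786058a) (nat_lit 0) (p (nat_lit 0x10687058502) (nat_lit 0) (p (nat_lit 0x8606850482) (nat_lit 0) (p (nat_lit 0x160004) (nat_lit 0) (p (nat_lit 0x68612) (nat_lit 0) (p (nat_lit 0x50592) (nat_lit 0) (p (nat_lit 0x40512) (nat_lit 0) (p (nat_lit 0x50312) (nat_lit 0) (p (nat_lit 0x38292) (nat_lit 0) (p (nat_lit 0x28212) (nat_lit 0) (p (nat_lit 0x38112) (nat_lit 0) (p (nat_lit 0x20092) (nat_lit 0) (p (nat_lit 0x10012) (nat_lit 0) pn))))))))))))))))))))))))))))) :=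
  Cl.node (nat_lit 0xc9) (nat_lit 2) (by decide +kernel) (ClAll.succ (ClAll.succ ClAll.zero n310) s583)

def n393 : Cl (O (nat_lit 6)) (R (nat_lit 143633))
    (p (nat_lit 0x20000c) (nat_lit 0) (p (nat_lit 0x380c2) (nat_lit 1) (p (nat_lit 0x444aa) (nat_lit 8) (p (nat_lit 0x119) (nat_lit 0) (p (nat_lit 0xc1) (nat_lit 0) (p (nat_lit 0x81) (nat_lit 1) (p (nat_lit 0x101) (nat_lit 1) (p (nat_lit 0x111) (nat_lit 0) (p (nat_lit 0xd1) (nat_lit 1) (p (nat_lit 0x89) (nat_lit 0) (p (nat_lit 0x41) (nat_lit 0) (p (nat_lit 0x10a898a08881a) (nat_lit 0) (p (nat_lit 0x8a090988079a) (nat_lit 0) (p (nat_lit 0x108088907871a) (nat_lit 0) (p (nat_lit 0x87880887069a) (nat_lit 0) (p (nat_lit 0x8000080000000088806860a) (nat_lit 0) (p (nat_lit 0x8000080000000068786058a) (nat_lit 0) (p (nat_lit 0x10687058502) (nat_lit 0) (p (nat_lit 0x8606850482) (nat_lit 0) (p (nat_lit 0x160004) (nat_lit 0) (p (nat_lit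 0x68612) (nat_lit 0) (p (nat_lit 0x50592) (nat_lit 0) (p (nat_lit 0x40512) (nat_lit 0) (p (nat_lit 0x50312) (nat_lit 0) (p (nat_lit 0x38292) (nat_lit 0) (p (nat_lit 0x28212) (nat_lit 0) (p (nat_lit 0x38112) (nat_lit 0) (p (nat_lit 0x20092) (nat_lit 0) (p (nat_lit 0x10012) (nat_lit 0) pn))))))))))))))))))))))))))))) :=
  Cl.node (nat_lit 0x200014) (nat_lit 2) (by decide +kernel) (ClAll.succ (ClAll.succ ClAll.zero n311) s591)

def n394 : Cl (O (nat_lit 6)) (R (nat_lit 143633))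
    (p (nat_lit 0x20000c) (nat_lit 0) (p (nat_lit 0x380c2) (nat_lit 0) (p (nat_lit 0x444aa) (nat_lit 7) (p (nat_lit 0xd1) (nat_lit 1) (p (nat_lit 0x111) (nat_lit 1) (p (nat_lit 0x109) (nat_lit 0) (p (nat_lit 0x101) (nat_lit 0) (p (nat_lit 0x119) (nat_lit 0) (p (nat_lit 0xc9) (nat_lit 0) (p (nat_lit 0x89) (nat_lit 1) (p (nat_lit 0x41) (nat_lit 0) (p (nat_lit 0x10a898a08881a) (nat_lit 0) (p (nat_lit 0x8a090988079a) (nat_lit 0) (p (nat_lit 0x108088907871a) (nat_lit 0) (p (nat_lit 0x87880887069a) (nat_lit 0) (p (nat_lit 0x8000080000000088806860a) (nat_lit 0) (p (nat_lit 0x8000080000000068786058a) (nat_lit 0) (p (nat_lit 0x10687058502) (nat_lit 0) (p (nat_lit 0x8606850482) (nat_lit 0) (p (nat_lit 0x160004) (nat_lit 0) (p (nat_lit 0x68612) (nat_lit 0) (p (nat_lit 0x50592) (nat_lit 0) (p (nat_lit 0x40512) (nat_lit 0) (p (nat_lit 0x50312) (nat_lit 0) (p (nat_lit 0x38292) (nat_lit 0)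 (p (nat_lit 0x28212) (nat_lit 0) (p (nat_lit 0x38112) (nat_lit 0) (p (nat_lit 0x20092) (nat_lit 0) (p (nat_lit 0x10012) (nat_lit 0) pn))))))))))))))))))))))))))))) :=
  Cl.node (nat_lit 0x10000c) (nat_lit 2) (by decide +kernel) (ClAll.succ (ClAll.succ ClAll.zero n312) s673)

def n395 : Cl (O (nat_lit 6)) (R (nat_lit 143633))
    (p (nat_lit 0xb0004) (nat_lit 0) (p (nat_lit 0x380c2) (nat_lit 1) (p (nat_lit 0x444aa) (nat_lit 7) (p (nat_lit 0xd1) (nat_lit 1) (p (nat_lit 0x111) (nat_lit 1) (p (nat_lit 0x109) (nat_lit 0) (p (nat_lit 0x101) (nat_lit 0) (p (nat_lit 0x119) (nat_lit 0) (p (nat_lit 0xc9) (nat_lit 0) (p (nat_lit 0x89) (nat_lit 1) (p (nat_lit 0x41) (nat_lit 0) (p (nat_lit 0x10a898a08881a) (nat_lit 0) (p (nat_lit 0x8a090988079a) (nat_lit 0) (p (nat_lit 0x108088907871a) (nat_lit 0) (p (nat_lit 0x87880887069a) (nat_lit 0) (p (nat_lit 0x8000080000000088806860a) (nat_lit 0) (p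 (nat_lit 0x8000080000000068786058a) (nat_lit 0) (p (nat_lit 0x10687058502) (nat_lit 0) (p (nat_lit 0x8606850482) (nat_lit 0) (p (nat_lit 0x160004) (nat_lit 0) (p (nat_lit 0x68612) (nat_lit 0) (p (nat_lit 0x50592) (nat_lit 0) (p (nat_lit 0x40512) (nat_lit 0) (p (nat_lit 0x50312) (nat_lit 0) (p (nat_lit 0x38292) (nat_lit 0) (p (nat_lit 0x28212) (nat_lit 0) (p (nat_lit 0x38112) (nat_lit 0) (p (nat_lit 0x20092) (nat_lit 0) (p (nat_lit 0x10012) (nat_lit 0) pn))))))))))))))))))))))))))))) :=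
  Cl.node (nat_lit 0x20000c) (nat_lit 2) (by decide +kernel) (ClAll.succ (ClAll.succ ClAll.zero n313) s683)

def n396 : Cl (O (nat_lit 6)) (R (nat_lit 143633))
    (p (nat_lit 0xb0004) (nat_lit 1) (p (nat_lit 0x380c2) (nat_lit 1) (p (nat_lit 0x444aa) (nat_lit 7) (p (nat_lit 0xd1) (nat_lit 1) (p (nat_lit 0x111) (nat_lit 1) (p (nat_lit 0x109) (nat_lit 0) (p (nat_lit 0x101) (nat_lit 0) (p (nat_lit 0x119) (nat_lit 0) (p (nat_lit 0xc9) (nat_lit 0) (p (nat_lit 0x89) (nat_lit 1) (p (nat_lit 0x41) (nat_lit 0) (p (nat_lit 0x10a898a08881a) (nat_lit 0) (p (nat_lit 0x8a090988079a) (nat_lit 0) (p (nat_lit 0x108088907871a) (nat_lit 0) (p (nat_lit 0x87880887069a) (nat_lit 0) (p (nat_lit 0x8000080000000088806860a) (nat_lit 0) (p (nat_lit 0x8000080000000068786058a) (nat_lit 0) (p (nat_lit 0x10687058502) (nat_lit 0) (p (nat_lit 0x8606850482) (nat_lit 0) (p (nat_lit 0x160004) (nat_lit 0) (p (nat_lit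 0x68612) (nat_lit 0) (p (nat_lit 0x50592) (nat_lit 0) (p (nat_lit 0x40512) (nat_lit 0) (p (nat_lit 0x50312) (nat_lit 0) (p (nat_lit 0x38292) (nat_lit 0) (p (nat_lit 0x28212) (nat_lit 0) (p (nat_lit 0x38112) (nat_lit 0) (p (nat_lit 0x20092) (nat_lit 0) (p (nat_lit 0x10012) (nat_lit 0) pn))))))))))))))))))))))))))))) :=
  Cl.node (nat_lit 0x1fc00c) (nat_lit 2) (by decide +kernel) (ClAll.succ (ClAll.succ ClAll.zero n314) s693)

def n397 : Cl (O (nat_lit 6)) (R (nat_lit 143633))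
    (p (nat_lit 0x44c2a) (nat_lit 0) (p (nat_lit 0x41) (nat_lit 0) (p (nat_lit 0x200014) (nat_lit 0) (p (nat_lit 0x20000c) (nat_lit 0) (p (nat_lit 0xd1) (nat_lit 0) (p (nat_lit 0x109) (nat_lit 1) (p (nat_lit 0x101) (nat_lit 0) (p (nat_lit 0x119) (nat_lit 0) (p (nat_lit 0xc9) (nat_lit 0) (p (nat_lit 0x89) (nat_lit 1) (p (nat_lit 0x41) (nat_lit 0) (p (nat_lit 0x10a898a08881a) (nat_lit 0) (p (nat_lit 0x8a090988079a) (nat_lit 0) (p (nat_lit 0x108088907871a) (nat_lit 0) (p (nat_lit 0x87880887069a) (nat_lit 0) (p (nat_lit 0x8000080000000088806860a) (nat_lit 0) (p (nat_lit 0x8000080000000068786058a) (nat_lit 0) (p (nat_lit 0x10687058502) (nat_lit 0) (p (nat_lit 0x8606850482) (nat_lit 0) (p (nat_lit 0x160004) (nat_lit 0) (p (nat_lit 0x68612) (nat_lit 0) (p (nat_lit 0x50592) (nat_lit 0) (p (nat_lit 0x40512) (nat_lit 0) (p (nat_lit 0x50312) (nat_lit 0) (p (nat_lit 0x38292) (nat_lit 0)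 (p (nat_lit 0x28212) (nat_lit 0) (p (nat_lit 0x38112) (nat_lit 0) (p (nat_lit 0x20092) (nat_lit 0) (p (nat_lit 0x10012) (nat_lit 0) pn))))))))))))))))))))))))))))) :=
  Cl.node (nat_lit 0x380c2) (nat_lit 2) (by decide +kernel) (ClAll.succ (ClAll.succ ClAll.zero n315) n316)

def n398 : Cl (O (nat_lit 6)) (R (nat_lit 143633))
    (p (nat_lit 0x44c2a) (nat_lit 1) (p (nat_lit 0x41) (nat_lit 0) (p (nat_lit 0x200014) (nat_lit 0) (p (nat_lit 0x20000c) (nat_lit 0) (p (nat_lit 0xd1) (nat_lit 0) (p (nat_lit 0x109) (nat_lit 1) (p (nat_lit 0x101) (nat_lit 0) (p (nat_lit 0x119) (nat_lit 0) (p (nat_lit 0xc9) (nat_lit 0) (p (nat_lit 0x89) (nat_lit 1) (p (nat_lit 0x41) (nat_lit 0) (p (nat_lit 0x10a898a08881a) (nat_lit 0) (p (nat_lit 0x8a090988079a) (nat_lit 0) (p (nat_lit 0x108088907871a) (nat_lit 0) (p (nat_lit 0x87880887069a) (nat_lit 0) (p (nat_lit 0x8000080000000088806860a) (nat_lit 0) (p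 (nat_lit 0x8000080000000068786058a) (nat_lit 0) (p (nat_lit 0x10687058502) (nat_lit 0) (p (nat_lit 0x8606850482) (nat_lit 0) (p (nat_lit 0x160004) (nat_lit 0) (p (nat_lit 0x68612) (nat_lit 0) (p (nat_lit 0x50592) (nat_lit 0) (p (nat_lit 0x40512) (nat_lit 0) (p (nat_lit 0x50312) (nat_lit 0) (p (nat_lit 0x38292) (nat_lit 0) (p (nat_lit 0x28212) (nat_lit 0) (p (nat_lit 0x38112) (nat_lit 0) (p (nat_lit 0x20092) (nat_lit 0) (p (nat_lit 0x10012) (nat_lit 0) pn))))))))))))))))))))))))))))) :=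
  Cl.node (nat_lit 0x380c2) (nat_lit 1) (by decide +kernel) (ClAll.succ ClAll.zero n317)

def n399 : Cl (O (nat_lit 6)) (R (nat_lit 143633))
    (p (nat_lit 0xc1) (nat_lit 0) (p (nat_lit 0xb0004) (nat_lit 0) (p (nat_lit 0x380c2) (nat_lit 0) (p (nat_lit 0x444aa) (nat_lit 7) (p (nat_lit 0xd1) (nat_lit 1) (p (nat_lit 0x109) (nat_lit 1) (p (nat_lit 0x101) (nat_lit 0) (p (nat_lit 0x119) (nat_lit 0) (p (nat_lit 0xc9) (nat_lit 0) (p (nat_lit 0x89) (nat_lit 1) (p (nat_lit 0x41) (nat_lit 0) (p (nat_lit 0x10a898a08881a) (nat_lit 0) (p (nat_lit 0x8a090988079a) (nat_lit 0) (p (nat_lit 0x108088907871a) (nat_lit 0) (p (nat_lit 0x87880887069a) (nat_lit 0) (p (nat_lit 0x8000080000000088806860a) (nat_lit 0) (p (nat_lit 0x8000080000000068786058a) (nat_lit 0) (p (nat_lit 0x10687058502) (nat_lit 0) (p (nat_lit 0x8606850482) (nat_lit 0) (p (nat_lit 0x160004) (nat_lit 0) (p (nat_lit 0x68612) (nat_lit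 0) (p (nat_lit 0x50592) (nat_lit 0) (p (nat_lit 0x40512) (nat_lit 0) (p (nat_lit 0x50312) (nat_lit 0) (p (nat_lit 0x38292) (nat_lit 0) (p (nat_lit 0x28212) (nat_lit 0) (p (nat_lit 0x38112) (nat_lit 0) (p (nat_lit 0x20092) (nat_lit 0) (p (nat_lit 0x10012) (nat_lit 0) pn))))))))))))))))))))))))))))) :=
  Cl.node (nat_lit 0x20000c) (nat_lit 2) (by decide +kernel) (ClAll.succ (ClAll.succ ClAll.zero n318) s743)

def n400 : Cl (O (nat_lit 6)) (R (nat_lit 143633))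
    (p (nat_lit 0x1fc00c) (nat_lit 0) (p (nat_lit 0xb0004) (nat_lit 1) (p (nat_lit 0x380c2) (nat_lit 0) (p (nat_lit 0x444aa) (nat_lit 7) (p (nat_lit 0xd1) (nat_lit 1) (p (nat_lit 0x109) (nat_lit 1) (p (nat_lit 0x101) (nat_lit 0) (p (nat_lit 0x119) (nat_lit 0) (p (nat_lit 0xc9) (nat_lit 0) (p (nat_lit 0x89) (nat_lit 1) (p (nat_lit 0x41) (nat_lit 0) (p (nat_lit 0x10a898a08881a) (nat_lit 0) (p (nat_lit 0x8a090988079a) (nat_lit 0) (p (nat_lit 0x108088907871a) (nat_lit 0) (p (nat_lit 0x87880887069a) (nat_lit 0) (p (nat_lit 0x8000080000000088806860a) (nat_lit 0) (p (nat_lit 0x8000080000000068786058a) (nat_lit 0) (p (nat_lit 0x10687058502) (nat_lit 0) (p (nat_lit 0x8606850482) (nat_lit 0) (p (nat_lit 0x160004) (nat_lit 0) (p (nat_lit 0x68612) (nat_lit 0) (p (nat_lit 0x50592) (nat_lit 0) (p (nat_lit 0x40512) (nat_lit 0) (p (nat_lit 0x50312) (nat_lit 0) (p (nat_lit 0x38292) (nat_lit 0)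 (p (nat_lit 0x28212) (nat_lit 0) (p (nat_lit 0x38112) (nat_lit 0) (p (nat_lit 0x20092) (nat_lit 0) (p (nat_lit 0x10012) (nat_lit 0) pn))))))))))))))))))))))))))))) :=
  Cl.node (nat_lit 0x1fc014) (nat_lit 2) (by decide +kernel) (ClAll.succ (ClAll.succ ClAll.zero n319) s762)

def n401 : Cl (O (nat_lit 6)) (R (nat_lit 143633))
    (p (nat_lit 0xc1) (nat_lit 0) (p (nat_lit 0xb0004) (nat_lit 0) (p (nat_lit 0x380c2) (nat_lit 1) (p (nat_lit 0x444aa) (nat_lit 7) (p (nat_lit 0xd1) (nat_lit 1) (p (nat_lit 0x109) (nat_lit 1) (p (nat_lit 0x101) (nat_lit 0) (p (nat_lit 0x119) (nat_lit 0) (p (nat_lit 0xc9) (nat_lit 0) (p (nat_lit 0x89) (nat_lit 1) (p (nat_lit 0x41) (nat_lit 0) (p (nat_lit 0x10a898a08881a) (nat_lit 0) (p (nat_lit 0x8a090988079a) (nat_lit 0) (p (nat_lit 0x108088907871a) (nat_lit 0) (p (nat_lit 0x87880887069a) (nat_lit 0) (p (nat_lit 0x8000080000000088806860a) (nat_lit 0) (p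 (nat_lit 0x8000080000000068786058a) (nat_lit 0) (p (nat_lit 0x10687058502) (nat_lit 0) (p (nat_lit 0x8606850482) (nat_lit 0) (p (nat_lit 0x160004) (nat_lit 0) (p (nat_lit 0x68612) (nat_lit 0) (p (nat_lit 0x50592) (nat_lit 0) (p (nat_lit 0x40512) (nat_lit 0) (p (nat_lit 0x50312) (nat_lit 0) (p (nat_lit 0x38292) (nat_lit 0) (p (nat_lit 0x28212) (nat_lit 0) (p (nat_lit 0x38112) (nat_lit 0) (p (nat_lit 0x20092) (nat_lit 0) (p (nat_lit 0x10012) (nat_lit 0) pn))))))))))))))))))))))))))))) :=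
  Cl.node (nat_lit 0xc9) (nat_lit 2) (by decide +kernel) (ClAll.succ (ClAll.succ ClAll.zero n320) n321)

def n402 : Cl (O (nat_lit 6)) (R (nat_lit 143633))
    (p (nat_lit 0x1fc00c) (nat_lit 0) (p (nat_lit 0xb0004) (nat_lit 1) (p (nat_lit 0x380c2) (nat_lit 1) (p (nat_lit 0x444aa) (nat_lit 7) (p (nat_lit 0xd1) (nat_lit 1) (p (nat_lit 0x109) (nat_lit 1) (p (nat_lit 0x101) (nat_lit 0) (p (nat_lit 0x119) (nat_lit 0) (p (nat_lit 0xc9) (nat_lit 0) (p (nat_lit 0x89) (nat_lit 1) (p (nat_lit 0x41) (nat_lit 0) (p (nat_lit 0x10a898a08881a) (nat_lit 0) (p (nat_lit 0x8a090988079a) (nat_lit 0) (p (nat_lit 0x108088907871a) (nat_lit 0) (p (nat_lit 0x87880887069a) (nat_lit 0) (p (nat_lit 0x8000080000000088806860a) (nat_lit 0) (p (nat_lit 0x8000080000000068786058a) (nat_lit 0) (p (nat_lit 0x10687058502) (nat_lit 0) (p (nat_lit 0x8606850482) (nat_lit 0) (p (nat_lit 0x160004) (nat_lit 0) (p (nat_lit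 0x68612) (nat_lit 0) (p (nat_lit 0x50592) (nat_lit 0) (p (nat_lit 0x40512) (nat_lit 0) (p (nat_lit 0x50312) (nat_lit 0) (p (nat_lit 0x38292) (nat_lit 0) (p (nat_lit 0x28212) (nat_lit 0) (p (nat_lit 0x38112) (nat_lit 0) (p (nat_lit 0x20092) (nat_lit 0) (p (nat_lit 0x10012) (nat_lit 0) pn))))))))))))))))))))))))))))) :=
  Cl.node (nat_lit 0x1fc014) (nat_lit 2) (by decide +kernel) (ClAll.succ (ClAll.succ ClAll.zero n322) s802)

def n403 : Cl (O (nat_lit 6)) (R (nat_lit 143633))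
    (p (nat_lit 0x44c2a) (nat_lit 0) (p (nat_lit 0x109) (nat_lit 1) (p (nat_lit 0x200014) (nat_lit 0) (p (nat_lit 0x20000c) (nat_lit 0) (p (nat_lit 0xd1) (nat_lit 0) (p (nat_lit 0xc1) (nat_lit 0) (p (nat_lit 0x101) (nat_lit 1) (p (nat_lit 0x119) (nat_lit 0) (p (nat_lit 0xc9) (nat_lit 0) (p (nat_lit 0x89) (nat_lit 1) (p (nat_lit 0x41) (nat_lit 0) (p (nat_lit 0x10a898a08881a) (nat_lit 0) (p (nat_lit 0x8a090988079a) (nat_lit 0) (p (nat_lit 0x108088907871a) (nat_lit 0) (p (nat_lit 0x87880887069a) (nat_lit 0) (p (nat_lit 0x8000080000000088806860a) (nat_lit 0) (p (nat_lit 0x8000080000000068786058a) (nat_lit 0) (p (nat_lit 0x10687058502) (nat_lit 0) (p (nat_lit 0x8606850482) (nat_lit 0) (p (nat_lit 0x160004) (nat_lit 0) (p (nat_lit 0x68612) (nat_lit 0) (p (nat_lit 0x50592) (nat_lit 0) (p (nat_lit 0x40512) (nat_lit 0) (p (nat_lit 0x50312) (nat_lit 0) (p (nat_lit 0x38292) (nat_lit 0)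 (p (nat_lit 0x28212) (nat_lit 0) (p (nat_lit 0x38112) (nat_lit 0) (p (nat_lit 0x20092) (nat_lit 0) (p (nat_lit 0x10012) (nat_lit 0) pn))))))))))))))))))))))))))))) :=
  Cl.node (nat_lit 0x380c2) (nat_lit 2) (by decide +kernel) (ClAll.succ (ClAll.succ ClAll.zero n323) n324)

def n404 : Cl (O (nat_lit 6)) (R (nat_lit 143633))
    (p (nat_lit 0x44c2a) (nat_lit 1) (p (nat_lit 0x109) (nat_lit 1) (p (nat_lit 0x200014) (nat_lit 0) (p (nat_lit 0x20000c) (nat_lit 0) (p (nat_lit 0xd1) (nat_lit 0) (p (nat_lit 0xc1) (nat_lit 0) (p (nat_lit 0x101) (nat_lit 1) (p (nat_lit 0x119) (nat_lit 0) (p (nat_lit 0xc9) (nat_lit 0) (p (nat_lit 0x89) (nat_lit 1) (p (nat_lit 0x41) (nat_lit 0) (p (nat_lit 0x10a898a08881a) (nat_lit 0) (p (nat_lit 0x8a090988079a) (nat_lit 0) (p (nat_lit 0x108088907871a) (nat_lit 0) (p (nat_lit 0x87880887069a) (nat_lit 0) (p (nat_lit 0x8000080000000088806860a) (nat_lit 0) (p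 (nat_lit 0x8000080000000068786058a) (nat_lit 0) (p (nat_lit 0x10687058502) (nat_lit 0) (p (nat_lit 0x8606850482) (nat_lit 0) (p (nat_lit 0x160004) (nat_lit 0) (p (nat_lit 0x68612) (nat_lit 0) (p (nat_lit 0x50592) (nat_lit 0) (p (nat_lit 0x40512) (nat_lit 0) (p (nat_lit 0x50312) (nat_lit 0) (p (nat_lit 0x38292) (nat_lit 0) (p (nat_lit 0x28212) (nat_lit 0) (p (nat_lit 0x38112) (nat_lit 0) (p (nat_lit 0x20092) (nat_lit 0) (p (nat_lit 0x10012) (nat_lit 0) pn))))))))))))))))))))))))))))) :=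
  Cl.node (nat_lit 0x380c2) (nat_lit 1) (by decide +kernel) (ClAll.succ ClAll.zero n325)

def n405 : Cl (O (nat_lit 6)) (R (nat_lit 143633))
    (p (nat_lit 0xc9) (nat_lit 0) (p (nat_lit 0xb0004) (nat_lit 0) (p (nat_lit 0x380c2) (nat_lit 0) (p (nat_lit 0x444aa) (nat_lit 7) (p (nat_lit 0xd1) (nat_lit 1) (p (nat_lit 0xc1) (nat_lit 0) (p (nat_lit 0x101) (nat_lit 1) (p (nat_lit 0x119) (nat_lit 0) (p (nat_lit 0xc9) (nat_lit 0) (p (nat_lit 0x89) (nat_lit 1) (p (nat_lit 0x41) (nat_lit 0) (p (nat_lit 0x10a898a08881a) (nat_lit 0) (p (nat_lit 0x8a090988079a) (nat_lit 0) (p (nat_lit 0x108088907871a) (nat_lit 0) (p (nat_lit 0x87880887069a) (nat_lit 0) (p (nat_lit 0x8000080000000088806860a) (nat_lit 0) (p (nat_lit 0x8000080000000068786058a) (nat_lit 0) (p (nat_lit 0x10687058502) (nat_lit 0) (p (nat_lit 0x8606850482) (nat_lit 0) (p (nat_lit 0x160004) (nat_lit 0) (p (nat_lit 0x68612) (nat_lit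 0) (p (nat_lit 0x50592) (nat_lit 0) (p (nat_lit 0x40512) (nat_lit 0) (p (nat_lit 0x50312) (nat_lit 0) (p (nat_lit 0x38292) (nat_lit 0) (p (nat_lit 0x28212) (nat_lit 0) (p (nat_lit 0x38112) (nat_lit 0) (p (nat_lit 0x20092) (nat_lit 0) (p (nat_lit 0x10012) (nat_lit 0) pn))))))))))))))))))))))))))))) :=
  Cl.node (nat_lit 0xd1) (nat_lit 2) (by decide +kernel) (ClAll.succ (ClAll.succ ClAll.zero n326) s878)

def n406 : Cl (O (nat_lit 6)) (R (nat_lit 143633))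
    (p (nat_lit 0xc9) (nat_lit 0) (p (nat_lit 0xb0004) (nat_lit 0) (p (nat_lit 0x380c2) (nat_lit 1) (p (nat_lit 0x444aa) (nat_lit 7) (p (nat_lit 0xd1) (nat_lit 1) (p (nat_lit 0xc1) (nat_lit 0) (p (nat_lit 0x101) (nat_lit 1) (p (nat_lit 0x119) (nat_lit 0) (p (nat_lit 0xc9) (nat_lit 0) (p (nat_lit 0x89) (nat_lit 1) (p (nat_lit 0x41) (nat_lit 0) (p (nat_lit 0x10a898a08881a) (nat_lit 0) (p (nat_lit 0x8a090988079a) (nat_lit 0) (p (nat_lit 0x108088907871a) (nat_lit 0) (p (nat_lit 0x87880887069a) (nat_lit 0) (p (nat_lit 0x8000080000000088806860a) (nat_lit 0) (p (nat_lit 0x8000080000000068786058a) (nat_lit 0) (p (nat_lit 0x10687058502) (nat_lit 0) (p (nat_lit 0x8606850482) (nat_lit 0) (p (nat_lit 0x160004) (nat_lit 0) (p (nat_lit 0x68612) (nat_lit 0) (p (nat_lit 0x50592) (nat_lit 0) (p (nat_lit 0x40512) (nat_lit 0) (p (nat_lit 0x50312) (nat_lit 0) (p (nat_lit 0x38292) (nat_lit 0) (p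 (nat_lit 0x28212) (nat_lit 0) (p (nat_lit 0x38112) (nat_lit 0) (p (nat_lit 0x20092) (nat_lit 0) (p (nat_lit 0x10012) (nat_lit 0) pn))))))))))))))))))))))))))))) :=
  Cl.node (nat_lit 0xd1) (nat_lit 2) (by decide +kernel) (ClAll.succ (ClAll.succ ClAll.zero n327) s894)

def n407 : Cl (O (nat_lit 6)) (R (nat_lit 143633))
    (p (nat_lit 0x109) (nat_lit 0) (p (nat_lit 0xb0004) (nat_lit 0) (p (nat_lit 0x380c2) (nat_lit 0) (p (nat_lit 0x444aa) (nat_lit 7) (p (nat_lit 0x111) (nat_lit 1) (p (nat_lit 0xd1) (nat_lit 1) (p (nat_lit 0xc1) (nat_lit 0) (p (nat_lit 0x119) (nat_lit 1) (p (nat_lit 0xc9) (nat_lit 0) (p (nat_lit 0x89) (nat_lit 1) (p (nat_lit 0x41) (nat_lit 0) (p (nat_lit 0x10a898a08881a) (nat_lit 0) (p (nat_lit 0x8a090988079a) (nat_lit 0) (p (nat_lit 0x108088907871a) (nat_lit 0) (p (nat_lit 0x87880887069a) (nat_lit 0) (p (nat_lit 0x8000080000000088806860a) (nat_lit 0) (p (nat_lit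 0x8000080000000068786058a) (nat_lit 0) (p (nat_lit 0x10687058502) (nat_lit 0) (p (nat_lit 0x8606850482) (nat_lit 0) (p (nat_lit 0x160004) (nat_lit 0) (p (nat_lit 0x68612) (nat_lit 0) (p (nat_lit 0x50592) (nat_lit 0) (p (nat_lit 0x40512) (nat_lit 0) (p (nat_lit 0x50312) (nat_lit 0) (p (nat_lit 0x38292) (nat_lit 0) (p (nat_lit 0x28212) (nat_lit 0) (p (nat_lit 0x38112) (nat_lit 0) (p (nat_lit 0x20092) (nat_lit 0) (p (nat_lit 0x10012) (nat_lit 0) pn))))))))))))))))))))))))))))) :=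
  Cl.node (nat_lit 0x111) (nat_lit 2) (by decide +kernel) (ClAll.succ (ClAll.succ ClAll.zero s911) s912)

def n408 : Cl (O (nat_lit 6)) (R (nat_lit 143633))
    (p (nat_lit 0x109) (nat_lit 0) (p (nat_lit 0xb0004) (nat_lit 0) (p (nat_lit 0x380c2) (nat_lit 1) (p (nat_lit 0x444aa) (nat_lit 7) (p (nat_lit 0x111) (nat_lit 1) (p (nat_lit 0xd1) (nat_lit 1) (p (nat_lit 0xc1) (nat_lit 0) (p (nat_lit 0x119) (nat_lit 1) (p (nat_lit 0xc9) (nat_lit 0) (p (nat_lit 0x89) (nat_lit 1) (p (nat_lit 0x41) (nat_lit 0) (p (nat_lit 0x10a898a08881a) (nat_lit 0) (p (nat_lit 0x8a090988079a) (nat_lit 0) (p (nat_lit 0x108088907871a) (nat_lit 0) (p (nat_lit 0x87880887069a) (nat_lit 0) (p (nat_lit 0x8000080000000088806860a) (nat_lit 0) (p (nat_lit 0x8000080000000068786058a) (nat_lit 0) (p (nat_lit 0x10687058502) (nat_lit 0) (p (nat_lit 0x8606850482) (nat_lit 0) (p (nat_lit 0x160004) (nat_lit 0) (p (nat_lit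 0x68612) (nat_lit 0) (p (nat_lit 0x50592) (nat_lit 0) (p (nat_lit 0x40512) (nat_lit 0) (p (nat_lit 0x50312) (nat_lit 0) (p (nat_lit 0x38292) (nat_lit 0) (p (nat_lit 0x28212) (nat_lit 0) (p (nat_lit 0x38112) (nat_lit 0) (p (nat_lit 0x20092) (nat_lit 0) (p (nat_lit 0x10012) (nat_lit 0) pn))))))))))))))))))))))))))))) :=
  Cl.node (nat_lit 0x111) (nat_lit 2) (by decide +kernel) (ClAll.succ (ClAll.succ ClAll.zero n328) n329)

def n409 : Cl (O (nat_lit 6)) (R (nat_lit 143633))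
    (p (nat_lit 0x1fc00c) (nat_lit 0) (p (nat_lit 0xb0004) (nat_lit 1) (p (nat_lit 0x380c2) (nat_lit 1) (p (nat_lit 0x444aa) (nat_lit 7) (p (nat_lit 0x111) (nat_lit 1) (p (nat_lit 0xd1) (nat_lit 1) (p (nat_lit 0xc1) (nat_lit 0) (p (nat_lit 0x119) (nat_lit 1) (p (nat_lit 0xc9) (nat_lit 0) (p (nat_lit 0x89) (nat_lit 1) (p (nat_lit 0x41) (nat_lit 0) (p (nat_lit 0x10a898a08881a) (nat_lit 0) (p (nat_lit 0x8a090988079a) (nat_lit 0) (p (nat_lit 0x108088907871a) (nat_lit 0) (p (nat_lit 0x87880887069a) (nat_lit 0) (p (nat_lit 0x8000080000000088806860a) (nat_lit 0) (p (nat_lit 0x8000080000000068786058a) (nat_lit 0) (p (nat_lit 0x10687058502) (nat_lit 0) (p (nat_lit 0x8606850482) (nat_lit 0) (p (nat_lit 0x160004) (nat_lit 0) (p (nat_lit 0x68612) (nat_lit 0) (p (nat_lit 0x50592) (nat_lit 0) (p (nat_lit 0x40512) (nat_lit 0) (p (nat_lit 0x50312) (nat_lit 0) (p (nat_lit 0x38292) (nat_lit 0)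 (p (nat_lit 0x28212) (nat_lit 0) (p (nat_lit 0x38112) (nat_lit 0) (p (nat_lit 0x20092) (nat_lit 0) (p (nat_lit 0x10012) (nat_lit 0) pn))))))))))))))))))))))))))))) :=
  Cl.node (nat_lit 0x1fc014) (nat_lit 2) (by decide +kernel) (ClAll.succ (ClAll.succ ClAll.zero n330) s922)

def n410 : Cl (O (nat_lit 6)) (R (nat_lit 143633))
    (p (nat_lit 0x41) (nat_lit 1) (p (nat_lit 0x101) (nat_lit 1) (p (nat_lit 0x380c2) (nat_lit 0) (p (nat_lit 0x44c2a) (nat_lit 0) (p (nat_lit 0x111) (nat_lit 0) (p (nat_lit 0x101) (nat_lit 0) (p (nat_lit 0xc1) (nat_lit 1) (p (nat_lit 0x119) (nat_lit 1) (p (nat_lit 0xc9) (nat_lit 0) (p (nat_lit 0x89) (nat_lit 1) (p (nat_lit 0x41) (nat_lit 0) (p (nat_lit 0x10a898a08881a) (nat_lit 0) (p (nat_lit 0x8a090988079a) (nat_lit 0) (p (nat_lit 0x108088907871a) (nat_lit 0) (p (nat_lit 0x87880887069a) (nat_lit 0) (p (nat_lit 0x8000080000000088806860a) (nat_lit 0) (p (nat_lit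 0x8000080000000068786058a) (nat_lit 0) (p (nat_lit 0x10687058502) (nat_lit 0) (p (nat_lit 0x8606850482) (nat_lit 0) (p (nat_lit 0x160004) (nat_lit 0) (p (nat_lit 0x68612) (nat_lit 0) (p (nat_lit 0x50592) (nat_lit 0) (p (nat_lit 0x40512) (nat_lit 0) (p (nat_lit 0x50312) (nat_lit 0) (p (nat_lit 0x38292) (nat_lit 0) (p (nat_lit 0x28212) (nat_lit 0) (p (nat_lit 0x38112) (nat_lit 0) (p (nat_lit 0x20092) (nat_lit 0) (p (nat_lit 0x10012) (nat_lit 0) pn))))))))))))))))))))))))))))) :=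
  Cl.node (nat_lit 0xc1) (nat_lit 2) (by decide +kernel) (ClAll.succ (ClAll.succ ClAll.zero s930) n331)

def n411 : Cl (O (nat_lit 6)) (R (nat_lit 143633))
    (p (nat_lit 0x20000c) (nat_lit 0) (p (nat_lit 0xb0004) (nat_lit 0) (p (nat_lit 0x380c2) (nat_lit 0) (p (nat_lit 0x44c2a) (nat_lit 1) (p (nat_lit 0x111) (nat_lit 0) (p (nat_lit 0x101) (nat_lit 0) (p (nat_lit 0xc1) (nat_lit 1) (p (nat_lit 0x119) (nat_lit 1) (p (nat_lit 0xc9) (nat_lit 0) (p (nat_lit 0x89) (nat_lit 1) (p (nat_lit 0x41) (nat_lit 0) (p (nat_lit 0x10a898a08881a) (nat_lit 0) (p (nat_lit 0x8a090988079a) (nat_lit 0) (p (nat_lit 0x108088907871a) (nat_lit 0) (p (nat_lit 0x87880887069a) (nat_lit 0) (p (nat_lit 0x8000080000000088806860a) (nat_lit 0) (p (nat_lit 0x8000080000000068786058a) (nat_lit 0) (p (nat_lit 0x10687058502) (nat_lit 0) (p (nat_lit 0x8606850482) (nat_lit 0) (p (nat_lit 0x160004) (nat_lit 0) (p (nat_lit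 0x68612) (nat_lit 0) (p (nat_lit 0x50592) (nat_lit 0) (p (nat_lit 0x40512) (nat_lit 0) (p (nat_lit 0x50312) (nat_lit 0) (p (nat_lit 0x38292) (nat_lit 0) (p (nat_lit 0x28212) (nat_lit 0) (p (nat_lit 0x38112) (nat_lit 0) (p (nat_lit 0x20092) (nat_lit 0) (p (nat_lit 0x10012) (nat_lit 0) pn))))))))))))))))))))))))))))) :=
  Cl.node (nat_lit 0x101) (nat_lit 2) (by decide +kernel) (ClAll.succ (ClAll.succ ClAll.zero s944) n332)

def n412 : Cl (O (nat_lit 6)) (R (nat_lit 143633))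
    (p (nat_lit 0x109) (nat_lit 0) (p (nat_lit 0xb0004) (nat_lit 0) (p (nat_lit 0x380c2) (nat_lit 0) (p (nat_lit 0x444aa) (nat_lit 7) (p (nat_lit 0x111) (nat_lit 1) (p (nat_lit 0x101) (nat_lit 0) (p (nat_lit 0xc1) (nat_lit 1) (p (nat_lit 0x119) (nat_lit 1) (p (nat_lit 0xc9) (nat_lit 0) (p (nat_lit 0x89) (nat_lit 1) (p (nat_lit 0x41) (nat_lit 0) (p (nat_lit 0x10a898a08881a) (nat_lit 0) (p (nat_lit 0x8a090988079a) (nat_lit 0) (p (nat_lit 0x108088907871a) (nat_lit 0) (p (nat_lit 0x87880887069a) (nat_lit 0) (p (nat_lit 0x8000080000000088806860a) (nat_lit 0) (p (nat_lit 0x8000080000000068786058a) (nat_lit 0) (p (nat_lit 0x10687058502) (nat_lit 0) (p (nat_lit 0x8606850482) (nat_lit 0) (p (nat_lit 0x160004) (nat_lit 0) (p (nat_lit 0x68612) (nat_lit 0) (p (nat_lit 0x50592) (nat_lit 0) (p (nat_lit 0x40512) (nat_lit 0) (p (nat_lit 0x50312) (nat_lit 0) (p (nat_lit 0x38292) (nat_lit 0) (p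 (nat_lit 0x28212) (nat_lit 0) (p (nat_lit 0x38112) (nat_lit 0) (p (nat_lit 0x20092) (nat_lit 0) (p (nat_lit 0x10012) (nat_lit 0) pn))))))))))))))))))))))))))))) :=
  Cl.node (nat_lit 0x111) (nat_lit 2) (by decide +kernel) (ClAll.succ (ClAll.succ ClAll.zero n333) s980)

def n413 : Cl (O (nat_lit 6)) (R (nat_lit 143633))
    (p (nat_lit 0x109) (nat_lit 0) (p (nat_lit 0xb0004) (nat_lit 0) (p (nat_lit 0x380c2) (nat_lit 1) (p (nat_lit 0x444aa) (nat_lit 7) (p (nat_lit 0x111) (nat_lit 1) (p (nat_lit 0x101) (nat_lit 0) (p (nat_lit 0xc1) (nat_lit 1) (p (nat_lit 0x119) (nat_lit 1) (p (nat_lit 0xc9) (nat_lit 0) (p (nat_lit 0x89) (nat_lit 1) (p (nat_lit 0x41) (nat_lit 0) (p (nat_lit 0x10a898a08881a) (nat_lit 0) (p (nat_lit 0x8a090988079a) (nat_lit 0) (p (nat_lit 0x108088907871a) (nat_lit 0) (p (nat_lit 0x87880887069a) (nat_lit 0) (p (nat_lit 0x8000080000000088806860a) (nat_lit 0) (p (nat_lit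 0x8000080000000068786058a) (nat_lit 0) (p (nat_lit 0x10687058502) (nat_lit 0) (p (nat_lit 0x8606850482) (nat_lit 0) (p (nat_lit 0x160004) (nat_lit 0) (p (nat_lit 0x68612) (nat_lit 0) (p (nat_lit 0x50592) (nat_lit 0) (p (nat_lit 0x40512) (nat_lit 0) (p (nat_lit 0x50312) (nat_lit 0) (p (nat_lit 0x38292) (nat_lit 0) (p (nat_lit 0x28212) (nat_lit 0) (p (nat_lit 0x38112) (nat_lit 0) (p (nat_lit 0x20092) (nat_lit 0) (p (nat_lit 0x10012) (nat_lit 0) pn))))))))))))))))))))))))))))) :=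
  Cl.node (nat_lit 0x111) (nat_lit 2) (by decide +kernel) (ClAll.succ (ClAll.succ ClAll.zero n334) s998)

def n414 : Cl (O (nat_lit 6)) (R (nat_lit 143633))
    (p (nat_lit 0xc9) (nat_lit 1) (p (nat_lit 0x380c2) (nat_lit 0) (p (nat_lit 0x4c42a) (nat_lit 2) (p (nat_lit 0x111) (nat_lit 0) (p (nat_lit 0x89) (nat_lit 0) (p (nat_lit 0x109) (nat_lit 1) (p (nat_lit 0x101) (nat_lit 0) (p (nat_lit 0x119) (nat_lit 0) (p (nat_lit 0xd1) (nat_lit 0) (p (nat_lit 0x81) (nat_lit 0) (p (nat_lit 0x41) (nat_lit 1) (p (nat_lit 0x10a898a08881a) (nat_lit 0) (p (nat_lit 0x8a090988079a) (nat_lit 0) (p (nat_lit 0x108088907871a) (nat_lit 0) (p (nat_lit 0x87880887069a) (nat_lit 0) (p (nat_lit 0x8000080000000088806860a) (nat_lit 0) (p (nat_lit 0x8000080000000068786058a) (nat_lit 0) (p (nat_lit 0x10687058502) (nat_lit 0) (p (nat_lit 0x8606850482) (nat_lit 0) (p (nat_lit 0x160004) (nat_lit 0) (p (nat_lit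 0x68612) (nat_lit 0) (p (nat_lit 0x50592) (nat_lit 0) (p (nat_lit 0x40512) (nat_lit 0) (p (nat_lit 0x50312) (nat_lit 0) (p (nat_lit 0x38292) (nat_lit 0) (p (nat_lit 0x28212) (nat_lit 0) (p (nat_lit 0x38112) (nat_lit 0) (p (nat_lit 0x20092) (nat_lit 0) (p (nat_lit 0x10012) (nat_lit 0) pn))))))))))))))))))))))))))))) :=
  Cl.node (nat_lit 0x200014) (nat_lit 2) (by decide +kernel) (ClAll.succ (ClAll.succ ClAll.zero n335) s1066)

def n415 : Cl (O (nat_lit 6)) (R (nat_lit 143633))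
    (p (nat_lit 0x200014) (nat_lit 0) (p (nat_lit 0x380c2) (nat_lit 0) (p (nat_lit 0x3cc2a) (nat_lit 11) (p (nat_lit 0x111) (nat_lit 1) (p (nat_lit 0x89) (nat_lit 0) (p (nat_lit 0x109) (nat_lit 1) (p (nat_lit 0x101) (nat_lit 0) (p (nat_lit 0x119) (nat_lit 0) (p (nat_lit 0xd1) (nat_lit 0) (p (nat_lit 0x81) (nat_lit 0) (p (nat_lit 0x41) (nat_lit 1) (p (nat_lit 0x10a898a08881a) (nat_lit 0) (p (nat_lit 0x8a090988079a) (nat_lit 0) (p (nat_lit 0x108088907871a) (nat_lit 0) (p (nat_lit 0x87880887069a) (nat_lit 0) (p (nat_lit 0x8000080000000088806860a) (nat_lit 0) (p (nat_lit 0x8000080000000068786058a) (nat_lit 0) (p (nat_lit 0x10687058502) (nat_lit 0) (p (nat_lit 0x8606850482) (nat_lit 0) (p (nat_lit 0x160004) (nat_lit 0) (p (nat_lit 0x68612) (nat_lit 0) (p (nat_lit 0x50592) (nat_lit 0) (p (nat_lit 0x40512) (nat_lit 0) (p (nat_lit 0x50312) (nat_lit 0) (p (nat_lit 0x38292) (nat_lit 0)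 (p (nat_lit 0x28212) (nat_lit 0) (p (nat_lit 0x38112) (nat_lit 0) (p (nat_lit 0x20092) (nat_lit 0) (p (nat_lit 0x10012) (nat_lit 0) pn))))))))))))))))))))))))))))) :=
  Cl.node (nat_lit 0x100014) (nat_lit 2) (by decide +kernel) (ClAll.succ (ClAll.succ ClAll.zero n336) s1092)

def n416 : Cl (O (nat_lit 6)) (R (nat_lit 143633))
    (p (nat_lit 0x111) (nat_lit 1) (p (nat_lit 0x380c2) (nat_lit 0) (p (nat_lit 0x4c42a) (nat_lit 2) (p (nat_lit 0xc9) (nat_lit 0) (p (nat_lit 0x89) (nat_lit 1) (p (nat_lit 0x109) (nat_lit 1) (p (nat_lit 0x101) (nat_lit 0) (p (nat_lit 0x119) (nat_lit 0) (p (nat_lit 0xd1) (nat_lit 0) (p (nat_lit 0x81) (nat_lit 0) (p (nat_lit 0x41) (nat_lit 1) (p (nat_lit 0x10a898a08881a) (nat_lit 0) (p (nat_lit 0x8a090988079a) (nat_lit 0) (p (nat_lit 0x108088907871a) (nat_lit 0) (p (nat_lit 0x87880887069a) (nat_lit 0) (p (nat_lit 0x8000080000000088806860a) (nat_lit 0) (p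 (nat_lit 0x8000080000000068786058a) (nat_lit 0) (p (nat_lit 0x10687058502) (nat_lit 0) (p (nat_lit 0x8606850482) (nat_lit 0) (p (nat_lit 0x160004) (nat_lit 0) (p (nat_lit 0x68612) (nat_lit 0) (p (nat_lit 0x50592) (nat_lit 0) (p (nat_lit 0x40512) (nat_lit 0) (p (nat_lit 0x50312) (nat_lit 0) (p (nat_lit 0x38292) (nat_lit 0) (p (nat_lit 0x28212) (nat_lit 0) (p (nat_lit 0x38112) (nat_lit 0) (p (nat_lit 0x20092) (nat_lit 0) (p (nat_lit 0x10012) (nat_lit 0) pn))))))))))))))))))))))))))))) :=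
  Cl.node (nat_lit 0xb0004) (nat_lit 2) (by decide +kernel) (ClAll.succ (ClAll.succ ClAll.zero n337) s1111)

def n417 : Cl (O (nat_lit 6)) (R (nat_lit 143633))
    (p (nat_lit 0x200014) (nat_lit 0) (p (nat_lit 0x380c2) (nat_lit 0) (p (nat_lit 0x4c42a) (nat_lit 8) (p (nat_lit 0xc9) (nat_lit 0) (p (nat_lit 0x89) (nat_lit 1) (p (nat_lit 0x109) (nat_lit 1) (p (nat_lit 0x101) (nat_lit 0) (p (nat_lit 0x119) (nat_lit 0) (p (nat_lit 0xd1) (nat_lit 0) (p (nat_lit 0x81) (nat_lit 0) (p (nat_lit 0x41) (nat_lit 1) (p (nat_lit 0x10a898a08881a) (nat_lit 0) (p (nat_lit 0x8a090988079a) (nat_lit 0) (p (nat_lit 0x108088907871a) (nat_lit 0) (p (nat_lit 0x87880887069a) (nat_lit 0) (p (nat_lit 0x8000080000000088806860a) (nat_lit 0) (p (nat_lit 0x8000080000000068786058a) (nat_lit 0) (p (nat_lit 0x10687058502) (nat_lit 0) (p (nat_lit 0x8606850482) (nat_lit 0) (p (nat_lit 0x160004) (nat_lit 0) (p (nat_lit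 0x68612) (nat_lit 0) (p (nat_lit 0x50592) (nat_lit 0) (p (nat_lit 0x40512) (nat_lit 0) (p (nat_lit 0x50312) (nat_lit 0) (p (nat_lit 0x38292) (nat_lit 0) (p (nat_lit 0x28212) (nat_lit 0) (p (nat_lit 0x38112) (nat_lit 0) (p (nat_lit 0x20092) (nat_lit 0) (p (nat_lit 0x10012) (nat_lit 0) pn))))))))))))))))))))))))))))) :=
  Cl.node (nat_lit 0xb0004) (nat_lit 2) (by decide +kernel) (ClAll.succ (ClAll.succ ClAll.zero s1117) s1118)

def n418 : Cl (O (nat_lit 6)) (R (nat_lit 143633))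
    (p (nat_lit 0x100014) (nat_lit 0) (p (nat_lit 0x200014) (nat_lit 0) (p (nat_lit 0x380c2) (nat_lit 0) (p (nat_lit 0x3cc2a) (nat_lit 11) (p (nat_lit 0x89) (nat_lit 0) (p (nat_lit 0xc1) (nat_lit 0) (p (nat_lit 0x101) (nat_lit 1) (p (nat_lit 0x119) (nat_lit 0) (p (nat_lit 0xd1) (nat_lit 0) (p (nat_lit 0x81) (nat_lit 0) (p (nat_lit 0x41) (nat_lit 1) (p (nat_lit 0x10a898a08881a) (nat_lit 0) (p (nat_lit 0x8a090988079a) (nat_lit 0) (p (nat_lit 0x108088907871a) (nat_lit 0) (p (nat_lit 0x87880887069a) (nat_lit 0) (p (nat_lit 0x8000080000000088806860a) (nat_lit 0) (p (nat_lit 0x8000080000000068786058a) (nat_lit 0) (p (nat_lit 0x10687058502) (nat_lit 0) (p (nat_lit 0x8606850482) (nat_lit 0) (p (nat_lit 0x160004) (nat_lit 0) (p (nat_lit 0x68612) (nat_lit 0) (p (nat_lit 0x50592) (nat_lit 0) (p (nat_lit 0x40512) (nat_lit 0) (p (nat_lit 0x50312) (nat_lit 0) (p (nat_lit 0x38292) (nat_lit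 0) (p (nat_lit 0x28212) (nat_lit 0) (p (nat_lit 0x38112) (nat_lit 0) (p (nat_lit 0x20092) (nat_lit 0) (p (nat_lit 0x10012) (nat_lit 0) pn))))))))))))))))))))))))))))) :=
  Cl.node (nat_lit 0xb0004) (nat_lit 2) (by decide +kernel) (ClAll.succ (ClAll.succ ClAll.zero s1136) s1137)

def n419 : Cl (O (nat_lit 6)) (R (nat_lit 143633))
    (p (nat_lit 0x200014) (nat_lit 0) (p (nat_lit 0x380c2) (nat_lit 0) (p (nat_lit 0x4c42a) (nat_lit 2) (p (nat_lit 0xc9) (nat_lit 0) (p (nat_lit 0x89) (nat_lit 1) (p (nat_lit 0xc1) (nat_lit 0) (p (nat_lit 0x101) (nat_lit 1) (p (nat_lit 0x119) (nat_lit 0) (p (nat_lit 0xd1) (nat_lit 0) (p (nat_lit 0x81) (nat_lit 0) (p (nat_lit 0x41) (nat_lit 1) (p (nat_lit 0x10a898a08881a) (nat_lit 0) (p (nat_lit 0x8a090988079a) (nat_lit 0) (p (nat_lit 0x108088907871a) (nat_lit 0) (p (nat_lit 0x87880887069a) (nat_lit 0) (p (nat_lit 0x8000080000000088806860a) (nat_lit 0)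 (p (nat_lit 0x8000080000000068786058a) (nat_lit 0) (p (nat_lit 0x10687058502) (nat_lit 0) (p (nat_lit 0x8606850482) (nat_lit 0) (p (nat_lit 0x160004) (nat_lit 0) (p (nat_lit 0x68612) (nat_lit 0) (p (nat_lit 0x50592) (nat_lit 0) (p (nat_lit 0x40512) (nat_lit 0) (p (nat_lit 0x50312) (nat_lit 0) (p (nat_lit 0x38292) (nat_lit 0) (p (nat_lit 0x28212) (nat_lit 0) (p (nat_lit 0x38112) (nat_lit 0) (p (nat_lit 0x20092) (nat_lit 0) (p (nat_lit 0x10012) (nat_lit 0) pn))))))))))))))))))))))))))))) :=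
  Cl.node (nat_lit 0xd1) (nat_lit 2) (by decide +kernel) (ClAll.succ (ClAll.succ ClAll.zero s1143) n338)

def n420 : Cl (O (nat_lit 6)) (R (nat_lit 143633))
    (p (nat_lit 0x200014) (nat_lit 0) (p (nat_lit 0x380c2) (nat_lit 0) (p (nat_lit 0x4c42a) (nat_lit 2) (p (nat_lit 0xc9) (nat_lit 1) (p (nat_lit 0x89) (nat_lit 1) (p (nat_lit 0xc1) (nat_lit 0) (p (nat_lit 0x101) (nat_lit 1) (p (nat_lit 0x119) (nat_lit 0) (p (nat_lit 0xd1) (nat_lit 0) (p (nat_lit 0x81) (nat_lit 0) (p (nat_lit 0x41) (nat_lit 1) (p (nat_lit 0x10a898a08881a) (nat_lit 0) (p (nat_lit 0x8a090988079a) (nat_lit 0) (p (nat_lit 0x108088907871a) (nat_lit 0) (p (nat_lit 0x87880887069a) (nat_lit 0) (p (nat_lit 0x8000080000000088806860a) (nat_lit 0) (p (nat_lit 0x8000080000000068786058a) (nat_lit 0) (p (nat_lit 0x10687058502) (nat_lit 0) (p (nat_lit 0x8606850482) (nat_lit 0) (p (nat_lit 0x160004) (nat_lit 0) (p (nat_lit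 0x68612) (nat_lit 0) (p (nat_lit 0x50592) (nat_lit 0) (p (nat_lit 0x40512) (nat_lit 0) (p (nat_lit 0x50312) (nat_lit 0) (p (nat_lit 0x38292) (nat_lit 0) (p (nat_lit 0x28212) (nat_lit 0) (p (nat_lit 0x38112) (nat_lit 0) (p (nat_lit 0x20092) (nat_lit 0) (p (nat_lit 0x10012) (nat_lit 0) pn))))))))))))))))))))))))))))) :=
  Cl.node (nat_lit 0x3c4aa) (nat_lit 12) (by decide +kernel) (ClAll.succ (ClAll.succ (ClAll.succ (ClAll.succ (ClAll.succ (ClAll.succ (ClAll.succ (ClAll.succ (ClAll.succ (ClAll.succ (ClAll.succ (ClAll.succ ClAll.zero s1171) s1172) s1173) s1174) s1175) s1176) s1177) s1178) s1179) s1180) s1181) s1182)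

def n421 : Cl (O (nat_lit 6)) (R (nat_lit 143633))
    (p (nat_lit 0xb0004) (nat_lit 0) (p (nat_lit 0x380c2) (nat_lit 0) (p (nat_lit 0x44c2a) (nat_lit 1) (p (nat_lit 0x109) (nat_lit 0) (p (nat_lit 0x89) (nat_lit 1) (p (nat_lit 0xc9) (nat_lit 1) (p (nat_lit 0xc1) (nat_lit 0) (p (nat_lit 0x119) (nat_lit 1) (p (nat_lit 0xd1) (nat_lit 0) (p (nat_lit 0x81) (nat_lit 0) (p (nat_lit 0x41) (nat_lit 1) (p (nat_lit 0x10a898a08881a) (nat_lit 0) (p (nat_lit 0x8a090988079a) (nat_lit 0) (p (nat_lit 0x108088907871a) (nat_lit 0) (p (nat_lit 0x87880887069a) (nat_lit 0) (p (nat_lit 0x8000080000000088806860a) (nat_lit 0) (p (nat_lit 0x8000080000000068786058a) (nat_lit 0) (p (nat_lit 0x10687058502) (nat_lit 0) (p (nat_lit 0x8606850482) (nat_lit 0) (p (nat_lit 0x160004) (nat_lit 0) (p (nat_lit 0x68612) (nat_lit 0) (p (nat_lit 0x50592) (nat_lit 0) (p (nat_lit 0x40512) (nat_lit 0) (p (nat_lit 0x50312)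 (nat_lit 0) (p (nat_lit 0x38292) (nat_lit 0) (p (nat_lit 0x28212) (nat_lit 0) (p (nat_lit 0x38112) (nat_lit 0) (p (nat_lit 0x20092) (nat_lit 0) (p (nat_lit 0x10012) (nat_lit 0) pn))))))))))))))))))))))))))))) :=
  Cl.node (nat_lit 0x20000c) (nat_lit 2) (by decide +kernel) (ClAll.succ (ClAll.succ ClAll.zero n339) s1225)

def n422 : Cl (O (nat_lit 6)) (R (nat_lit 143633))
    (p (nat_lit 0xb0004) (nat_lit 0) (p (nat_lit 0x380c2) (nat_lit 1) (p (nat_lit 0x3c4aa) (nat_lit 7) (p (nat_lit 0x109) (nat_lit 1) (p (nat_lit 0x89) (nat_lit 1) (p (nat_lit 0x101) (nat_lit 0) (p (nat_lit 0xc1) (nat_lit 1) (p (nat_lit 0x119) (nat_lit 1) (p (nat_lit 0xd1) (nat_lit 0) (p (nat_lit 0x81) (nat_lit 0) (p (nat_lit 0x41) (nat_lit 1) (p (nat_lit 0x10a898a08881a) (nat_lit 0) (p (nat_lit 0x8a090988079a) (nat_lit 0) (p (nat_lit 0x108088907871a) (nat_lit 0) (p (nat_lit 0x87880887069a) (nat_lit 0) (p (nat_lit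 0x8000080000000088806860a) (nat_lit 0) (p (nat_lit 0x8000080000000068786058a) (nat_lit 0) (p (nat_lit 0x10687058502) (nat_lit 0) (p (nat_lit 0x8606850482) (nat_lit 0) (p (nat_lit 0x160004) (nat_lit 0) (p (nat_lit 0x68612) (nat_lit 0) (p (nat_lit 0x50592) (nat_lit 0) (p (nat_lit 0x40512) (nat_lit 0) (p (nat_lit 0x50312) (nat_lit 0) (p (nat_lit 0x38292) (nat_lit 0) (p (nat_lit 0x28212) (nat_lit 0) (p (nat_lit 0x38112) (nat_lit 0) (p (nat_lit 0x20092) (nat_lit 0) (p (nat_lit 0x10012) (nat_lit 0) pn))))))))))))))))))))))))))))) :=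
  Cl.node (nat_lit 0x20000c) (nat_lit 2) (by decide +kernel) (ClAll.succ (ClAll.succ ClAll.zero n340) s1291)

def n423 : Cl (O (nat_lit 6)) (R (nat_lit 143633))
    (p (nat_lit 0x20000c) (nat_lit 0) (p (nat_lit 0x200014) (nat_lit 0) (p (nat_lit 0x380c2) (nat_lit 0) (p (nat_lit 0x3cc2a) (nat_lit 11) (p (nat_lit 0x89) (nat_lit 0) (p (nat_lit 0x101) (nat_lit 1) (p (nat_lit 0xc1) (nat_lit 1) (p (nat_lit 0x119) (nat_lit 1) (p (nat_lit 0xd1) (nat_lit 0) (p (nat_lit 0x81) (nat_lit 0) (p (nat_lit 0x41) (nat_lit 1) (p (nat_lit 0x10a898a08881a) (nat_lit 0) (p (nat_lit 0x8a090988079a) (nat_lit 0) (p (nat_lit 0x108088907871a) (nat_lit 0) (p (nat_lit 0x87880887069a) (nat_lit 0) (p (nat_lit 0x8000080000000088806860a) (nat_lit 0) (p (nat_lit 0x8000080000000068786058a) (nat_lit 0) (p (nat_lit 0x10687058502) (nat_lit 0) (p (nat_lit 0x8606850482) (nat_lit 0) (p (nat_lit 0x160004) (nat_lit 0) (p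 (nat_lit 0x68612) (nat_lit 0) (p (nat_lit 0x50592) (nat_lit 0) (p (nat_lit 0x40512) (nat_lit 0) (p (nat_lit 0x50312) (nat_lit 0) (p (nat_lit 0x38292) (nat_lit 0) (p (nat_lit 0x28212) (nat_lit 0) (p (nat_lit 0x38112) (nat_lit 0) (p (nat_lit 0x20092) (nat_lit 0) (p (nat_lit 0x10012) (nat_lit 0) pn))))))))))))))))))))))))))))) :=
  Cl.node (nat_lit 0x100014) (nat_lit 2) (by decide +kernel) (ClAll.succ (ClAll.succ ClAll.zero n341) s1312)

def n424 : Cl (O (nat_lit 6)) (R (nat_lit 143633))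
    (p (nat_lit 0x20000c) (nat_lit 0) (p (nat_lit 0xb0004) (nat_lit 0) (p (nat_lit 0x380c2) (nat_lit 0) (p (nat_lit 0x3c4aa) (nat_lit 7) (p (nat_lit 0x89) (nat_lit 1) (p (nat_lit 0x101) (nat_lit 1) (p (nat_lit 0xc1) (nat_lit 1) (p (nat_lit 0x119) (nat_lit 1) (p (nat_lit 0xd1) (nat_lit 0) (p (nat_lit 0x81) (nat_lit 0) (p (nat_lit 0x41) (nat_lit 1) (p (nat_lit 0x10a898a08881a) (nat_lit 0) (p (nat_lit 0x8a090988079a) (nat_lit 0) (p (nat_lit 0x108088907871a) (nat_lit 0) (p (nat_lit 0x87880887069a) (nat_lit 0) (p (nat_lit 0x8000080000000088806860a) (nat_lit 0) (p (nat_lit 0x8000080000000068786058a) (nat_lit 0) (p (nat_lit 0x10687058502) (nat_lit 0) (p (nat_lit 0x8606850482) (nat_lit 0) (p (nat_lit 0x160004) (nat_lit 0) (p (nat_lit 0x68612) (nat_lit 0) (p (nat_lit 0x50592) (nat_lit 0) (p (nat_lit 0x40512) (nat_lit 0) (p (nat_lit 0x50312) (nat_lit 0) (p (nat_lit 0x38292) (nat_lit 0)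 (p (nat_lit 0x28212) (nat_lit 0) (p (nat_lit 0x38112) (nat_lit 0) (p (nat_lit 0x20092) (nat_lit 0) (p (nat_lit 0x10012) (nat_lit 0) pn))))))))))))))))))))))))))))) :=
  Cl.node (nat_lit 0x200014) (nat_lit 2) (by decide +kernel) (ClAll.succ (ClAll.succ ClAll.zero n342) s1337)

def n425 : Cl (O (nat_lit 6)) (R (nat_lit 143633))
    (p (nat_lit 0x1fc00c) (nat_lit 0) (p (nat_lit 0xb0004) (nat_lit 1) (p (nat_lit 0x380c2) (nat_lit 0) (p (nat_lit 0x3c4aa) (nat_lit 7) (p (nat_lit 0x89) (nat_lit 1) (p (nat_lit 0x101) (nat_lit 1) (p (nat_lit 0xc1) (nat_lit 1) (p (nat_lit 0x119) (nat_lit 1) (p (nat_lit 0xd1) (nat_lit 0) (p (nat_lit 0x81) (nat_lit 0) (p (nat_lit 0x41) (nat_lit 1) (p (nat_lit 0x10a898a08881a) (nat_lit 0) (p (nat_lit 0x8a090988079a) (nat_lit 0) (p (nat_lit 0x108088907871a) (nat_lit 0) (p (nat_lit 0x87880887069a) (nat_lit 0) (p (nat_lit 0x8000080000000088806860a) (nat_lit 0)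 (p (nat_lit 0x8000080000000068786058a) (nat_lit 0) (p (nat_lit 0x10687058502) (nat_lit 0) (p (nat_lit 0x8606850482) (nat_lit 0) (p (nat_lit 0x160004) (nat_lit 0) (p (nat_lit 0x68612) (nat_lit 0) (p (nat_lit 0x50592) (nat_lit 0) (p (nat_lit 0x40512) (nat_lit 0) (p (nat_lit 0x50312) (nat_lit 0) (p (nat_lit 0x38292) (nat_lit 0) (p (nat_lit 0x28212) (nat_lit 0) (p (nat_lit 0x38112) (nat_lit 0) (p (nat_lit 0x20092) (nat_lit 0) (p (nat_lit 0x10012) (nat_lit 0) pn))))))))))))))))))))))))))))) :=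
  Cl.node (nat_lit 0x1fc014) (nat_lit 2) (by decide +kernel) (ClAll.succ (ClAll.succ ClAll.zero n343) s1343)

def n426 : Cl (O (nat_lit 6)) (R (nat_lit 143633))
    (p (nat_lit 0x20000c) (nat_lit 0) (p (nat_lit 0xb0004) (nat_lit 0) (p (nat_lit 0x380c2) (nat_lit 1) (p (nat_lit 0x3c4aa) (nat_lit 7) (p (nat_lit 0x89) (nat_lit 1) (p (nat_lit 0x101) (nat_lit 1) (p (nat_lit 0xc1) (nat_lit 1) (p (nat_lit 0x119) (nat_lit 1) (p (nat_lit 0xd1) (nat_lit 0) (p (nat_lit 0x81) (nat_lit 0) (p (nat_lit 0x41) (nat_lit 1) (p (nat_lit 0x10a898a08881a) (nat_lit 0) (p (nat_lit 0x8a090988079a) (nat_lit 0) (p (nat_lit 0x108088907871a) (nat_lit 0) (p (nat_lit 0x87880887069a) (nat_lit 0) (p (nat_lit 0x8000080000000088806860a) (nat_lit 0) (p (nat_lit 0x8000080000000068786058a) (nat_lit 0) (p (nat_lit 0x10687058502) (nat_lit 0) (p (nat_lit 0x8606850482) (nat_lit 0) (p (nat_lit 0x160004) (nat_lit 0) (p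 (nat_lit 0x68612) (nat_lit 0) (p (nat_lit 0x50592) (nat_lit 0) (p (nat_lit 0x40512) (nat_lit 0) (p (nat_lit 0x50312) (nat_lit 0) (p (nat_lit 0x38292) (nat_lit 0) (p (nat_lit 0x28212) (nat_lit 0) (p (nat_lit 0x38112) (nat_lit 0) (p (nat_lit 0x20092) (nat_lit 0) (p (nat_lit 0x10012) (nat_lit 0) pn))))))))))))))))))))))))))))) :=
  Cl.node (nat_lit 0x200014) (nat_lit 2) (by decide +kernel) (ClAll.succ (ClAll.succ ClAll.zero n344) s1348)

def n427 : Cl (O (nat_lit 6)) (R (nat_lit 143633))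
    (p (nat_lit 0x200014) (nat_lit 0) (p (nat_lit 0x380c2) (nat_lit 0) (p (nat_lit 0x4c42a) (nat_lit 2) (p (nat_lit 0x119) (nat_lit 1) (p (nat_lit 0x89) (nat_lit 0) (p (nat_lit 0x109) (nat_lit 1) (p (nat_lit 0x101) (nat_lit 0) (p (nat_lit 0x111) (nat_lit 0) (p (nat_lit 0xd1) (nat_lit 1) (p (nat_lit 0x81) (nat_lit 0) (p (nat_lit 0x41) (nat_lit 1) (p (nat_lit 0x10a898a08881a) (nat_lit 0) (p (nat_lit 0x8a090988079a) (nat_lit 0) (p (nat_lit 0x108088907871a) (nat_lit 0) (p (nat_lit 0x87880887069a) (nat_lit 0) (p (nat_lit 0x8000080000000088806860a) (nat_lit 0) (p (nat_lit 0x8000080000000068786058a) (nat_lit 0) (p (nat_lit 0x10687058502) (nat_lit 0) (p (nat_lit 0x8606850482) (nat_lit 0) (p (nat_lit 0x160004) (nat_lit 0) (p (nat_lit 0x68612) (nat_lit 0) (p (nat_lit 0x50592) (nat_lit 0) (p (nat_lit 0x40512) (nat_lit 0) (p (nat_lit 0x50312) (nat_lit 0) (p (nat_lit 0x38292) (nat_lit 0)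 (p (nat_lit 0x28212) (nat_lit 0) (p (nat_lit 0x38112) (nat_lit 0) (p (nat_lit 0x20092) (nat_lit 0) (p (nat_lit 0x10012) (nat_lit 0) pn))))))))))))))))))))))))))))) :=
  Cl.node (nat_lit 0xb0004) (nat_lit 2) (by decide +kernel) (ClAll.succ (ClAll.succ ClAll.zero s1359) s1360)

def n428 : Cl (O (nat_lit 6)) (R (nat_lit 143633))
    (p (nat_lit 0x380c2) (nat_lit 0) (p (nat_lit 0x4c42a) (nat_lit 2) (p (nat_lit 0x119) (nat_lit 0) (p (nat_lit 0xc9) (nat_lit 0) (p (nat_lit 0x89) (nat_lit 1) (p (nat_lit 0x109) (nat_lit 1) (p (nat_lit 0x101) (nat_lit 0) (p (nat_lit 0x111) (nat_lit 0) (p (nat_lit 0xd1) (nat_lit 1) (p (nat_lit 0x81) (nat_lit 0) (p (nat_lit 0x41) (nat_lit 1) (p (nat_lit 0x10a898a08881a) (nat_lit 0) (p (nat_lit 0x8a090988079a) (nat_lit 0) (p (nat_lit 0x108088907871a) (nat_lit 0) (p (nat_lit 0x87880887069a) (nat_lit 0) (p (nat_lit 0x8000080000000088806860a) (nat_lit 0) (p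 (nat_lit 0x8000080000000068786058a) (nat_lit 0) (p (nat_lit 0x10687058502) (nat_lit 0) (p (nat_lit 0x8606850482) (nat_lit 0) (p (nat_lit 0x160004) (nat_lit 0) (p (nat_lit 0x68612) (nat_lit 0) (p (nat_lit 0x50592) (nat_lit 0) (p (nat_lit 0x40512) (nat_lit 0) (p (nat_lit 0x50312) (nat_lit 0) (p (nat_lit 0x38292) (nat_lit 0) (p (nat_lit 0x28212) (nat_lit 0) (p (nat_lit 0x38112) (nat_lit 0) (p (nat_lit 0x20092) (nat_lit 0) (p (nat_lit 0x10012) (nat_lit 0) pn))))))))))))))))))))))))))))) :=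
  Cl.node (nat_lit 0x200014) (nat_lit 2) (by decide +kernel) (ClAll.succ (ClAll.succ ClAll.zero n345) s1385)

def n429 : Cl (O (nat_lit 6)) (R (nat_lit 143633))
    (p (nat_lit 0x380c2) (nat_lit 0) (p (nat_lit 0x4c42a) (nat_lit 2) (p (nat_lit 0x119) (nat_lit 1) (p (nat_lit 0xc9) (nat_lit 0) (p (nat_lit 0x89) (nat_lit 1) (p (nat_lit 0x109) (nat_lit 1) (p (nat_lit 0x101) (nat_lit 0) (p (nat_lit 0x111) (nat_lit 0) (p (nat_lit 0xd1) (nat_lit 1) (p (nat_lit 0x81) (nat_lit 0) (p (nat_lit 0x41) (nat_lit 1) (p (nat_lit 0x10a898a08881a) (nat_lit 0) (p (nat_lit 0x8a090988079a) (nat_lit 0) (p (nat_lit 0x108088907871a) (nat_lit 0) (p (nat_lit 0x87880887069a) (nat_lit 0) (p (nat_lit 0x8000080000000088806860a) (nat_lit 0) (p (nat_lit 0x8000080000000068786058a) (nat_lit 0) (p (nat_lit 0x10687058502) (nat_lit 0) (p (nat_lit 0x8606850482) (nat_lit 0) (p (nat_lit 0x160004) (nat_lit 0) (p (nat_lit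 0x68612) (nat_lit 0) (p (nat_lit 0x50592) (nat_lit 0) (p (nat_lit 0x40512) (nat_lit 0) (p (nat_lit 0x50312) (nat_lit 0) (p (nat_lit 0x38292) (nat_lit 0) (p (nat_lit 0x28212) (nat_lit 0) (p (nat_lit 0x38112) (nat_lit 0) (p (nat_lit 0x20092) (nat_lit 0) (p (nat_lit 0x10012) (nat_lit 0) pn))))))))))))))))))))))))))))) :=
  Cl.node (nat_lit 0x200014) (nat_lit 2) (by decide +kernel) (ClAll.succ (ClAll.succ ClAll.zero n346) s1409)

def n430 : Cl (O (nat_lit 6)) (R (nat_lit 143633))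
    (p (nat_lit 0x380c2) (nat_lit 0) (p (nat_lit 0x4c42a) (nat_lit 8) (p (nat_lit 0x119) (nat_lit 1) (p (nat_lit 0xc9) (nat_lit 0) (p (nat_lit 0x89) (nat_lit 1) (p (nat_lit 0x109) (nat_lit 1) (p (nat_lit 0x101) (nat_lit 0) (p (nat_lit 0x111) (nat_lit 0) (p (nat_lit 0xd1) (nat_lit 1) (p (nat_lit 0x81) (nat_lit 0) (p (nat_lit 0x41) (nat_lit 1) (p (nat_lit 0x10a898a08881a) (nat_lit 0) (p (nat_lit 0x8a090988079a) (nat_lit 0) (p (nat_lit 0x108088907871a) (nat_lit 0) (p (nat_lit 0x87880887069a) (nat_lit 0) (p (nat_lit 0x8000080000000088806860a) (nat_lit 0) (p (nat_lit 0x8000080000000068786058a) (nat_lit 0) (p (nat_lit 0x10687058502) (nat_lit 0) (p (nat_lit 0x8606850482) (nat_lit 0) (p (nat_lit 0x160004) (nat_lit 0) (p (nat_lit 0x68612) (nat_lit 0) (p (nat_lit 0x50592) (nat_lit 0) (p (nat_lit 0x40512) (nat_lit 0) (p (nat_lit 0x50312) (nat_lit 0) (p (nat_lit 0x38292) (nat_lit 0) (p (nat_lit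 0x28212) (nat_lit 0) (p (nat_lit 0x38112) (nat_lit 0) (p (nat_lit 0x20092) (nat_lit 0) (p (nat_lit 0x10012) (nat_lit 0) pn))))))))))))))))))))))))))))) :=
  Cl.node (nat_lit 0xb0004) (nat_lit 2) (by decide +kernel) (ClAll.succ (ClAll.succ ClAll.zero s1415) s1416)

def n431 : Cl (O (nat_lit 6)) (R (nat_lit 143633))
    (p (nat_lit 0x20000c) (nat_lit 0) (p (nat_lit 0x200014) (nat_lit 0) (p (nat_lit 0x380c2) (nat_lit 0) (p (nat_lit 0x3cc2a) (nat_lit 11) (p (nat_lit 0xc9) (nat_lit 0) (p (nat_lit 0x89) (nat_lit 1) (p (nat_lit 0x101) (nat_lit 1) (p (nat_lit 0x111) (nat_lit 0) (p (nat_lit 0xd1) (nat_lit 1) (p (nat_lit 0x81) (nat_lit 0) (p (nat_lit 0x41) (nat_lit 1) (p (nat_lit 0x10a898a08881a) (nat_lit 0) (p (nat_lit 0x8a090988079a) (nat_lit 0) (p (nat_lit 0x108088907871a) (nat_lit 0) (p (nat_lit 0x87880887069a) (nat_lit 0) (p (nat_lit 0x8000080000000088806860a) (nat_lit 0) (p (nat_lit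 0x8000080000000068786058a) (nat_lit 0) (p (nat_lit 0x10687058502) (nat_lit 0) (p (nat_lit 0x8606850482) (nat_lit 0) (p (nat_lit 0x160004) (nat_lit 0) (p (nat_lit 0x68612) (nat_lit 0) (p (nat_lit 0x50592) (nat_lit 0) (p (nat_lit 0x40512) (nat_lit 0) (p (nat_lit 0x50312) (nat_lit 0) (p (nat_lit 0x38292) (nat_lit 0) (p (nat_lit 0x28212) (nat_lit 0) (p (nat_lit 0x38112) (nat_lit 0) (p (nat_lit 0x20092) (nat_lit 0) (p (nat_lit 0x10012) (nat_lit 0) pn))))))))))))))))))))))))))))) :=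
  Cl.node (nat_lit 0x10000c) (nat_lit 2) (by decide +kernel) (ClAll.succ (ClAll.succ ClAll.zero n347) s1449)

def n432 : Cl (O (nat_lit 6)) (R (nat_lit 143633))
    (p (nat_lit 0xb0004) (nat_lit 0) (p (nat_lit 0x380c2) (nat_lit 0) (p (nat_lit 0x3c4aa) (nat_lit 7) (p (nat_lit 0xd1) (nat_lit 1) (p (nat_lit 0x111) (nat_lit 1) (p (nat_lit 0x109) (nat_lit 0) (p (nat_lit 0x101) (nat_lit 0) (p (nat_lit 0x119) (nat_lit 0) (p (nat_lit 0xc1) (nat_lit 0) (p (nat_lit 0x81) (nat_lit 1) (p (nat_lit 0x41) (nat_lit 1) (p (nat_lit 0x10a898a08881a) (nat_lit 0) (p (nat_lit 0x8a090988079a) (nat_lit 0) (p (nat_lit 0x108088907871a) (nat_lit 0) (p (nat_lit 0x87880887069a) (nat_lit 0) (p (nat_lit 0x8000080000000088806860a) (nat_lit 0) (p (nat_lit 0x8000080000000068786058a) (nat_lit 0) (p (nat_lit 0x10687058502) (nat_lit 0) (p (nat_lit 0x8606850482) (nat_lit 0) (p (nat_lit 0x160004) (nat_lit 0) (p (nat_lit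 0x68612) (nat_lit 0) (p (nat_lit 0x50592) (nat_lit 0) (p (nat_lit 0x40512) (nat_lit 0) (p (nat_lit 0x50312) (nat_lit 0) (p (nat_lit 0x38292) (nat_lit 0) (p (nat_lit 0x28212) (nat_lit 0) (p (nat_lit 0x38112) (nat_lit 0) (p (nat_lit 0x20092) (nat_lit 0) (p (nat_lit 0x10012) (nat_lit 0) pn))))))))))))))))))))))))))))) :=
  Cl.node (nat_lit 0x20000c) (nat_lit 2) (by decide +kernel) (ClAll.succ (ClAll.succ ClAll.zero n348) s1497)

def n433 : Cl (O (nat_lit 6)) (R (nat_lit 143633))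
    (p (nat_lit 0xb0004) (nat_lit 1) (p (nat_lit 0x380c2) (nat_lit 0) (p (nat_lit 0x3c4aa) (nat_lit 7) (p (nat_lit 0xd1) (nat_lit 1) (p (nat_lit 0x111) (nat_lit 1) (p (nat_lit 0x109) (nat_lit 0) (p (nat_lit 0x101) (nat_lit 0) (p (nat_lit 0x119) (nat_lit 0) (p (nat_lit 0xc1) (nat_lit 0) (p (nat_lit 0x81) (nat_lit 1) (p (nat_lit 0x41) (nat_lit 1) (p (nat_lit 0x10a898a08881a) (nat_lit 0) (p (nat_lit 0x8a090988079a) (nat_lit 0) (p (nat_lit 0x108088907871a) (nat_lit 0) (p (nat_lit 0x87880887069a) (nat_lit 0) (p (nat_lit 0x8000080000000088806860a) (nat_lit 0) (p (nat_lit 0x8000080000000068786058a) (nat_lit 0) (p (nat_lit 0x10687058502) (nat_lit 0) (p (nat_lit 0x8606850482) (nat_lit 0) (p (nat_lit 0x160004) (nat_lit 0) (p (nat_lit 0x68612) (nat_lit 0) (p (nat_lit 0x50592) (nat_lit 0) (p (nat_lit 0x40512) (nat_lit 0) (p (nat_lit 0x50312) (nat_lit 0) (p (nat_lit 0x38292) (nat_lit 0) (p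 (nat_lit 0x28212) (nat_lit 0) (p (nat_lit 0x38112) (nat_lit 0) (p (nat_lit 0x20092) (nat_lit 0) (p (nat_lit 0x10012) (nat_lit 0) pn))))))))))))))))))))))))))))) :=
  Cl.node (nat_lit 0x1fc00c) (nat_lit 2) (by decide +kernel) (ClAll.succ (ClAll.succ ClAll.zero n349) s1535)

def n434 : Cl (O (nat_lit 6)) (R (nat_lit 143633))
    (p (nat_lit 0xb0004) (nat_lit 0) (p (nat_lit 0x380c2) (nat_lit 1) (p (nat_lit 0x3c4aa) (nat_lit 7) (p (nat_lit 0xd1) (nat_lit 1) (p (nat_lit 0x111) (nat_lit 1) (p (nat_lit 0x109) (nat_lit 0) (p (nat_lit 0x101) (nat_lit 0) (p (nat_lit 0x119) (nat_lit 0) (p (nat_lit 0xc1) (nat_lit 0) (p (nat_lit 0x81) (nat_lit 1) (p (nat_lit 0x41) (nat_lit 1) (p (nat_lit 0x10a898a08881a) (nat_lit 0) (p (nat_lit 0x8a090988079a) (nat_lit 0) (p (nat_lit 0x108088907871a) (nat_lit 0) (p (nat_lit 0x87880887069a) (nat_lit 0) (p (nat_lit 0x8000080000000088806860a) (nat_lit 0) (p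 (nat_lit 0x8000080000000068786058a) (nat_lit 0) (p (nat_lit 0x10687058502) (nat_lit 0) (p (nat_lit 0x8606850482) (nat_lit 0) (p (nat_lit 0x160004) (nat_lit 0) (p (nat_lit 0x68612) (nat_lit 0) (p (nat_lit 0x50592) (nat_lit 0) (p (nat_lit 0x40512) (nat_lit 0) (p (nat_lit 0x50312) (nat_lit 0) (p (nat_lit 0x38292) (nat_lit 0) (p (nat_lit 0x28212) (nat_lit 0) (p (nat_lit 0x38112) (nat_lit 0) (p (nat_lit 0x20092) (nat_lit 0) (p (nat_lit 0x10012) (nat_lit 0) pn))))))))))))))))))))))))))))) :=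
  Cl.node (nat_lit 0x20000c) (nat_lit 2) (by decide +kernel) (ClAll.succ (ClAll.succ ClAll.zero n350) s1551)

def n435 : Cl (O (nat_lit 6)) (R (nat_lit 143633))
    (p (nat_lit 0xb0004) (nat_lit 1) (p (nat_lit 0x380c2) (nat_lit 1) (p (nat_lit 0x3c4aa) (nat_lit 7) (p (nat_lit 0xd1) (nat_lit 1) (p (nat_lit 0x111) (nat_lit 1) (p (nat_lit 0x109) (nat_lit 0) (p (nat_lit 0x101) (nat_lit 0) (p (nat_lit 0x119) (nat_lit 0) (p (nat_lit 0xc1) (nat_lit 0) (p (nat_lit 0x81) (nat_lit 1) (p (nat_lit 0x41) (nat_lit 1) (p (nat_lit 0x10a898a08881a) (nat_lit 0) (p (nat_lit 0x8a090988079a) (nat_lit 0) (p (nat_lit 0x108088907871a) (nat_lit 0) (p (nat_lit 0x87880887069a) (nat_lit 0) (p (nat_lit 0x8000080000000088806860a) (nat_lit 0) (p (nat_lit 0x8000080000000068786058a) (nat_lit 0) (p (nat_lit 0x10687058502) (nat_lit 0) (p (nat_lit 0x8606850482) (nat_lit 0) (p (nat_lit 0x160004) (nat_lit 0) (p (nat_lit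 0x68612) (nat_lit 0) (p (nat_lit 0x50592) (nat_lit 0) (p (nat_lit 0x40512) (nat_lit 0) (p (nat_lit 0x50312) (nat_lit 0) (p (nat_lit 0x38292) (nat_lit 0) (p (nat_lit 0x28212) (nat_lit 0) (p (nat_lit 0x38112) (nat_lit 0) (p (nat_lit 0x20092) (nat_lit 0) (p (nat_lit 0x10012) (nat_lit 0) pn))))))))))))))))))))))))))))) :=
  Cl.node (nat_lit 0x1fc00c) (nat_lit 2) (by decide +kernel) (ClAll.succ (ClAll.succ ClAll.zero n351) s1561)

def n436 : Cl (O (nat_lit 6)) (R (nat_lit 143633))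
    (p (nat_lit 0xb0004) (nat_lit 0) (p (nat_lit 0x380c2) (nat_lit 0) (p (nat_lit 0x3c4aa) (nat_lit 7) (p (nat_lit 0xd1) (nat_lit 1) (p (nat_lit 0xc9) (nat_lit 0) (p (nat_lit 0x109) (nat_lit 1) (p (nat_lit 0x101) (nat_lit 0) (p (nat_lit 0x119) (nat_lit 0) (p (nat_lit 0xc1) (nat_lit 0) (p (nat_lit 0x81) (nat_lit 1) (p (nat_lit 0x41) (nat_lit 1) (p (nat_lit 0x10a898a08881a) (nat_lit 0) (p (nat_lit 0x8a090988079a) (nat_lit 0) (p (nat_lit 0x108088907871a) (nat_lit 0) (p (nat_lit 0x87880887069a) (nat_lit 0) (p (nat_lit 0x8000080000000088806860a) (nat_lit 0) (p (nat_lit 0x8000080000000068786058a) (nat_lit 0) (p (nat_lit 0x10687058502) (nat_lit 0) (p (nat_lit 0x8606850482) (nat_lit 0) (p (nat_lit 0x160004) (nat_lit 0) (p (nat_lit 0x68612) (nat_lit 0) (p (nat_lit 0x50592) (nat_lit 0) (p (nat_lit 0x40512) (nat_lit 0) (p (nat_lit 0x50312) (nat_lit 0) (p (nat_lit 0x38292) (nat_lit 0) (p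 (nat_lit 0x28212) (nat_lit 0) (p (nat_lit 0x38112) (nat_lit 0) (p (nat_lit 0x20092) (nat_lit 0) (p (nat_lit 0x10012) (nat_lit 0) pn))))))))))))))))))))))))))))) :=
  Cl.node (nat_lit 0x20000c) (nat_lit 2) (by decide +kernel) (ClAll.succ (ClAll.succ ClAll.zero n352) s1588)

def n437 : Cl (O (nat_lit 6)) (R (nat_lit 143633))
    (p (nat_lit 0xb0004) (nat_lit 0) (p (nat_lit 0x380c2) (nat_lit 1) (p (nat_lit 0x3c4aa) (nat_lit 7) (p (nat_lit 0xd1) (nat_lit 1) (p (nat_lit 0xc9) (nat_lit 0) (p (nat_lit 0x109) (nat_lit 1) (p (nat_lit 0x101) (nat_lit 0) (p (nat_lit 0x119) (nat_lit 0) (p (nat_lit 0xc1) (nat_lit 0) (p (nat_lit 0x81) (nat_lit 1) (p (nat_lit 0x41) (nat_lit 1) (p (nat_lit 0x10a898a08881a) (nat_lit 0) (p (nat_lit 0x8a090988079a) (nat_lit 0) (p (nat_lit 0x108088907871a) (nat_lit 0) (p (nat_lit 0x87880887069a) (nat_lit 0) (p (nat_lit 0x8000080000000088806860a) (nat_lit 0) (p (nat_lit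 0x8000080000000068786058a) (nat_lit 0) (p (nat_lit 0x10687058502) (nat_lit 0) (p (nat_lit 0x8606850482) (nat_lit 0) (p (nat_lit 0x160004) (nat_lit 0) (p (nat_lit 0x68612) (nat_lit 0) (p (nat_lit 0x50592) (nat_lit 0) (p (nat_lit 0x40512) (nat_lit 0) (p (nat_lit 0x50312) (nat_lit 0) (p (nat_lit 0x38292) (nat_lit 0) (p (nat_lit 0x28212) (nat_lit 0) (p (nat_lit 0x38112) (nat_lit 0) (p (nat_lit 0x20092) (nat_lit 0) (p (nat_lit 0x10012) (nat_lit 0) pn))))))))))))))))))))))))))))) :=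
  Cl.node (nat_lit 0x20000c) (nat_lit 2) (by decide +kernel) (ClAll.succ (ClAll.succ ClAll.zero n353) s1604)

def n438 : Cl (O (nat_lit 6)) (R (nat_lit 143633))
    (p (nat_lit 0x10000c) (nat_lit 0) (p (nat_lit 0x20000c) (nat_lit 0) (p (nat_lit 0x380c2) (nat_lit 0) (p (nat_lit 0x44c2a) (nat_lit 1) (p (nat_lit 0xd1) (nat_lit 0) (p (nat_lit 0xc9) (nat_lit 0) (p (nat_lit 0x101) (nat_lit 1) (p (nat_lit 0x119) (nat_lit 0) (p (nat_lit 0xc1) (nat_lit 0) (p (nat_lit 0x81) (nat_lit 1) (p (nat_lit 0x41) (nat_lit 1) (p (nat_lit 0x10a898a08881a) (nat_lit 0) (p (nat_lit 0x8a090988079a) (nat_lit 0) (p (nat_lit 0x108088907871a) (nat_lit 0) (p (nat_lit 0x87880887069a) (nat_lit 0) (p (nat_lit 0x8000080000000088806860a) (nat_lit 0) (p (nat_lit 0x8000080000000068786058a) (nat_lit 0) (p (nat_lit 0x10687058502) (nat_lit 0) (p (nat_lit 0x8606850482) (nat_lit 0) (p (nat_lit 0x160004) (nat_lit 0) (p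 (nat_lit 0x68612) (nat_lit 0) (p (nat_lit 0x50592) (nat_lit 0) (p (nat_lit 0x40512) (nat_lit 0) (p (nat_lit 0x50312) (nat_lit 0) (p (nat_lit 0x38292) (nat_lit 0) (p (nat_lit 0x28212) (nat_lit 0) (p (nat_lit 0x38112) (nat_lit 0) (p (nat_lit 0x20092) (nat_lit 0) (p (nat_lit 0x10012) (nat_lit 0) pn))))))))))))))))))))))))))))) :=
  Cl.node (nat_lit 0xb0004) (nat_lit 2) (by decide +kernel) (ClAll.succ (ClAll.succ ClAll.zero s1615) s1616)

def n439 : Cl (O (nat_lit 6)) (R (nat_lit 143633))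
    (p (nat_lit 0x20000c) (nat_lit 0) (p (nat_lit 0xb0004) (nat_lit 0) (p (nat_lit 0x380c2) (nat_lit 0) (p (nat_lit 0x3c4aa) (nat_lit 7) (p (nat_lit 0xd1) (nat_lit 1) (p (nat_lit 0xc9) (nat_lit 0) (p (nat_lit 0x101) (nat_lit 1) (p (nat_lit 0x119) (nat_lit 0) (p (nat_lit 0xc1) (nat_lit 0) (p (nat_lit 0x81) (nat_lit 1) (p (nat_lit 0x41) (nat_lit 1) (p (nat_lit 0x10a898a08881a) (nat_lit 0) (p (nat_lit 0x8a090988079a) (nat_lit 0) (p (nat_lit 0x108088907871a) (nat_lit 0) (p (nat_lit 0x87880887069a) (nat_lit 0) (p (nat_lit 0x8000080000000088806860a) (nat_lit 0) (p (nat_lit 0x8000080000000068786058a) (nat_lit 0) (p (nat_lit 0x10687058502) (nat_lit 0) (p (nat_lit 0x8606850482) (nat_lit 0) (p (nat_lit 0x160004) (nat_lit 0) (p (nat_lit 0x68612) (nat_lit 0) (p (nat_lit 0x50592) (nat_lit 0) (p (nat_lit 0x40512) (nat_lit 0) (p (nat_lit 0x50312) (nat_lit 0) (p (nat_lit 0x38292) (nat_lit 0)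 (p (nat_lit 0x28212) (nat_lit 0) (p (nat_lit 0x38112) (nat_lit 0) (p (nat_lit 0x20092) (nat_lit 0) (p (nat_lit 0x10012) (nat_lit 0) pn))))))))))))))))))))))))))))) :=
  Cl.node (nat_lit 0x200014) (nat_lit 2) (by decide +kernel) (ClAll.succ (ClAll.succ ClAll.zero n354) s1651)

def n440 : Cl (O (nat_lit 6)) (R (nat_lit 143633))
    (p (nat_lit 0x1fc00c) (nat_lit 0) (p (nat_lit 0xb0004) (nat_lit 1) (p (nat_lit 0x380c2) (nat_lit 0) (p (nat_lit 0x3c4aa) (nat_lit 7) (p (nat_lit 0xd1) (nat_lit 1) (p (nat_lit 0xc9) (nat_lit 0) (p (nat_lit 0x101) (nat_lit 1) (p (nat_lit 0x119) (nat_lit 0) (p (nat_lit 0xc1) (nat_lit 0) (p (nat_lit 0x81) (nat_lit 1) (p (nat_lit 0x41) (nat_lit 1) (p (nat_lit 0x10a898a08881a) (nat_lit 0) (p (nat_lit 0x8a090988079a) (nat_lit 0) (p (nat_lit 0x108088907871a) (nat_lit 0) (p (nat_lit 0x87880887069a) (nat_lit 0) (p (nat_lit 0x8000080000000088806860a) (nat_lit 0)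 (p (nat_lit 0x8000080000000068786058a) (nat_lit 0) (p (nat_lit 0x10687058502) (nat_lit 0) (p (nat_lit 0x8606850482) (nat_lit 0) (p (nat_lit 0x160004) (nat_lit 0) (p (nat_lit 0x68612) (nat_lit 0) (p (nat_lit 0x50592) (nat_lit 0) (p (nat_lit 0x40512) (nat_lit 0) (p (nat_lit 0x50312) (nat_lit 0) (p (nat_lit 0x38292) (nat_lit 0) (p (nat_lit 0x28212) (nat_lit 0) (p (nat_lit 0x38112) (nat_lit 0) (p (nat_lit 0x20092) (nat_lit 0) (p (nat_lit 0x10012) (nat_lit 0) pn))))))))))))))))))))))))))))) :=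
  Cl.node (nat_lit 0x1fc014) (nat_lit 2) (by decide +kernel) (ClAll.succ (ClAll.succ ClAll.zero n355) s1661)

def n441 : Cl (O (nat_lit 6)) (R (nat_lit 143633))
    (p (nat_lit 0x200014) (nat_lit 0) (p (nat_lit 0x20000c) (nat_lit 0) (p (nat_lit 0x380c2) (nat_lit 1) (p (nat_lit 0x3c4aa) (nat_lit 7) (p (nat_lit 0xd1) (nat_lit 1) (p (nat_lit 0xc9) (nat_lit 0) (p (nat_lit 0x101) (nat_lit 1) (p (nat_lit 0x119) (nat_lit 0) (p (nat_lit 0xc1) (nat_lit 0) (p (nat_lit 0x81) (nat_lit 1) (p (nat_lit 0x41) (nat_lit 1) (p (nat_lit 0x10a898a08881a) (nat_lit 0) (p (nat_lit 0x8a090988079a) (nat_lit 0) (p (nat_lit 0x108088907871a) (nat_lit 0) (p (nat_lit 0x87880887069a) (nat_lit 0) (p (nat_lit 0x8000080000000088806860a) (nat_lit 0) (p (nat_lit 0x8000080000000068786058a) (nat_lit 0) (p (nat_lit 0x10687058502) (nat_lit 0) (p (nat_lit 0x8606850482) (nat_lit 0) (p (nat_lit 0x160004) (nat_lit 0) (p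 (nat_lit 0x68612) (nat_lit 0) (p (nat_lit 0x50592) (nat_lit 0) (p (nat_lit 0x40512) (nat_lit 0) (p (nat_lit 0x50312) (nat_lit 0) (p (nat_lit 0x38292) (nat_lit 0) (p (nat_lit 0x28212) (nat_lit 0) (p (nat_lit 0x38112) (nat_lit 0) (p (nat_lit 0x20092) (nat_lit 0) (p (nat_lit 0x10012) (nat_lit 0) pn))))))))))))))))))))))))))))) :=
  Cl.node (nat_lit 0xb0004) (nat_lit 2) (by decide +kernel) (ClAll.succ (ClAll.succ ClAll.zero n356) s1682)

def n442 : Cl (O (nat_lit 6)) (R (nat_lit 143633))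
    (p (nat_lit 0x1fc00c) (nat_lit 0) (p (nat_lit 0xb0004) (nat_lit 1) (p (nat_lit 0x380c2) (nat_lit 0) (p (nat_lit 0x3c4aa) (nat_lit 7) (p (nat_lit 0x111) (nat_lit 1) (p (nat_lit 0xd1) (nat_lit 1) (p (nat_lit 0xc9) (nat_lit 0) (p (nat_lit 0x119) (nat_lit 1) (p (nat_lit 0xc1) (nat_lit 0) (p (nat_lit 0x81) (nat_lit 1) (p (nat_lit 0x41) (nat_lit 1) (p (nat_lit 0x10a898a08881a) (nat_lit 0) (p (nat_lit 0x8a090988079a) (nat_lit 0) (p (nat_lit 0x108088907871a) (nat_lit 0) (p (nat_lit 0x87880887069a) (nat_lit 0) (p (nat_lit 0x8000080000000088806860a) (nat_lit 0) (p (nat_lit 0x8000080000000068786058a) (nat_lit 0) (p (nat_lit 0x10687058502) (nat_lit 0) (p (nat_lit 0x8606850482) (nat_lit 0) (p (nat_lit 0x160004) (nat_lit 0) (p (nat_lit 0x68612) (nat_lit 0) (p (nat_lit 0x50592) (nat_lit 0) (p (nat_lit 0x40512) (nat_lit 0) (p (nat_lit 0x50312) (nat_lit 0) (p (nat_lit 0x38292) (nat_lit 0)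 (p (nat_lit 0x28212) (nat_lit 0) (p (nat_lit 0x38112) (nat_lit 0) (p (nat_lit 0x20092) (nat_lit 0) (p (nat_lit 0x10012) (nat_lit 0) pn))))))))))))))))))))))))))))) :=
  Cl.node (nat_lit 0x1fc014) (nat_lit 2) (by decide +kernel) (ClAll.succ (ClAll.succ ClAll.zero n357) s1705)

def n443 : Cl (O (nat_lit 6)) (R (nat_lit 143633))
    (p (nat_lit 0xb0004) (nat_lit 0) (p (nat_lit 0x20000c) (nat_lit 0) (p (nat_lit 0x380c2) (nat_lit 1) (p (nat_lit 0x3c4aa) (nat_lit 7) (p (nat_lit 0x111) (nat_lit 1) (p (nat_lit 0xd1) (nat_lit 1) (p (nat_lit 0xc9) (nat_lit 0) (p (nat_lit 0x119) (nat_lit 1) (p (nat_lit 0xc1) (nat_lit 0) (p (nat_lit 0x81) (nat_lit 1) (p (nat_lit 0x41) (nat_lit 1) (p (nat_lit 0x10a898a08881a) (nat_lit 0) (p (nat_lit 0x8a090988079a) (nat_lit 0) (p (nat_lit 0x108088907871a) (nat_lit 0) (p (nat_lit 0x87880887069a) (nat_lit 0) (p (nat_lit 0x8000080000000088806860a) (nat_lit 0)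 (p (nat_lit 0x8000080000000068786058a) (nat_lit 0) (p (nat_lit 0x10687058502) (nat_lit 0) (p (nat_lit 0x8606850482) (nat_lit 0) (p (nat_lit 0x160004) (nat_lit 0) (p (nat_lit 0x68612) (nat_lit 0) (p (nat_lit 0x50592) (nat_lit 0) (p (nat_lit 0x40512) (nat_lit 0) (p (nat_lit 0x50312) (nat_lit 0) (p (nat_lit 0x38292) (nat_lit 0) (p (nat_lit 0x28212) (nat_lit 0) (p (nat_lit 0x38112) (nat_lit 0) (p (nat_lit 0x20092) (nat_lit 0) (p (nat_lit 0x10012) (nat_lit 0) pn))))))))))))))))))))))))))))) :=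
  Cl.node (nat_lit 0x200014) (nat_lit 2) (by decide +kernel) (ClAll.succ (ClAll.succ ClAll.zero n358) s1710)

def n444 : Cl (O (nat_lit 6)) (R (nat_lit 143633))
    (p (nat_lit 0x20000c) (nat_lit 0) (p (nat_lit 0xb0004) (nat_lit 0) (p (nat_lit 0x380c2) (nat_lit 0) (p (nat_lit 0x3c4aa) (nat_lit 7) (p (nat_lit 0x111) (nat_lit 1) (p (nat_lit 0x109) (nat_lit 0) (p (nat_lit 0xc9) (nat_lit 1) (p (nat_lit 0x119) (nat_lit 1) (p (nat_lit 0xc1) (nat_lit 0) (p (nat_lit 0x81) (nat_lit 1) (p (nat_lit 0x41) (nat_lit 1) (p (nat_lit 0x10a898a08881a) (nat_lit 0) (p (nat_lit 0x8a090988079a) (nat_lit 0) (p (nat_lit 0x108088907871a) (nat_lit 0) (p (nat_lit 0x87880887069a) (nat_lit 0) (p (nat_lit 0x8000080000000088806860a) (nat_lit 0) (p (nat_lit 0x8000080000000068786058a) (nat_lit 0) (p (nat_lit 0x10687058502) (nat_lit 0) (p (nat_lit 0x8606850482) (nat_lit 0) (p (nat_lit 0x160004) (nat_lit 0) (p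 (nat_lit 0x68612) (nat_lit 0) (p (nat_lit 0x50592) (nat_lit 0) (p (nat_lit 0x40512) (nat_lit 0) (p (nat_lit 0x50312) (nat_lit 0) (p (nat_lit 0x38292) (nat_lit 0) (p (nat_lit 0x28212) (nat_lit 0) (p (nat_lit 0x38112) (nat_lit 0) (p (nat_lit 0x20092) (nat_lit 0) (p (nat_lit 0x10012) (nat_lit 0) pn))))))))))))))))))))))))))))) :=
  Cl.node (nat_lit 0x200014) (nat_lit 2) (by decide +kernel) (ClAll.succ (ClAll.succ ClAll.zero n359) s1742)

def n445 : Cl (O (nat_lit 6)) (R (nat_lit 143633))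
    (p (nat_lit 0x20000c) (nat_lit 0) (p (nat_lit 0xb0004) (nat_lit 0) (p (nat_lit 0x380c2) (nat_lit 1) (p (nat_lit 0x3c4aa) (nat_lit 7) (p (nat_lit 0x111) (nat_lit 1) (p (nat_lit 0x109) (nat_lit 0) (p (nat_lit 0xc9) (nat_lit 1) (p (nat_lit 0x119) (nat_lit 1) (p (nat_lit 0xc1) (nat_lit 0) (p (nat_lit 0x81) (nat_lit 1) (p (nat_lit 0x41) (nat_lit 1) (p (nat_lit 0x10a898a08881a) (nat_lit 0) (p (nat_lit 0x8a090988079a) (nat_lit 0) (p (nat_lit 0x108088907871a) (nat_lit 0) (p (nat_lit 0x87880887069a) (nat_lit 0) (p (nat_lit 0x8000080000000088806860a) (nat_lit 0) (p (nat_lit 0x8000080000000068786058a) (nat_lit 0) (p (nat_lit 0x10687058502) (nat_lit 0) (p (nat_lit 0x8606850482) (nat_lit 0) (p (nat_lit 0x160004) (nat_lit 0) (p (nat_lit 0x68612) (nat_lit 0) (p (nat_lit 0x50592) (nat_lit 0) (p (nat_lit 0x40512) (nat_lit 0) (p (nat_lit 0x50312) (nat_lit 0) (p (nat_lit 0x38292) (nat_lit 0)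 (p (nat_lit 0x28212) (nat_lit 0) (p (nat_lit 0x38112) (nat_lit 0) (p (nat_lit 0x20092) (nat_lit 0) (p (nat_lit 0x10012) (nat_lit 0) pn))))))))))))))))))))))))))))) :=
  Cl.node (nat_lit 0x200014) (nat_lit 2) (by decide +kernel) (ClAll.succ (ClAll.succ ClAll.zero n360) s1749)

def n446 : Cl (O (nat_lit 6)) (R (nat_lit 143633))
    (p (nat_lit 0x380c2) (nat_lit 0) (p (nat_lit 0x444aa) (nat_lit 7) (p (nat_lit 0x81) (nat_lit 1) (p (nat_lit 0xc9) (nat_lit 1) (p (nat_lit 0x109) (nat_lit 1) (p (nat_lit 0x101) (nat_lit 0) (p (nat_lit 0x119) (nat_lit 0) (p (nat_lit 0xd1) (nat_lit 0) (p (nat_lit 0x89) (nat_lit 0) (p (nat_lit 0x41) (nat_lit 0) (p (nat_lit 0x10a898a08881a) (nat_lit 0) (p (nat_lit 0x8a090988079a) (nat_lit 0) (p (nat_lit 0x108088907871a) (nat_lit 0) (p (nat_lit 0x87880887069a) (nat_lit 0) (p (nat_lit 0x8000080000000088806860a) (nat_lit 0) (p (nat_lit 0x8000080000000068786058a)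 (nat_lit 0) (p (nat_lit 0x10687058502) (nat_lit 0) (p (nat_lit 0x8606850482) (nat_lit 0) (p (nat_lit 0x160004) (nat_lit 0) (p (nat_lit 0x68612) (nat_lit 0) (p (nat_lit 0x50592) (nat_lit 0) (p (nat_lit 0x40512) (nat_lit 0) (p (nat_lit 0x50312) (nat_lit 0) (p (nat_lit 0x38292) (nat_lit 0) (p (nat_lit 0x28212) (nat_lit 0) (p (nat_lit 0x38112) (nat_lit 0) (p (nat_lit 0x20092) (nat_lit 0) (p (nat_lit 0x10012) (nat_lit 0) pn)))))))))))))))))))))))))))) :=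
  Cl.node (nat_lit 0x20000c) (nat_lit 2) (by decide +kernel) (ClAll.succ (ClAll.succ ClAll.zero n361) s15)

def n447 : Cl (O (nat_lit 6)) (R (nat_lit 143633))
    (p (nat_lit 0x380c2) (nat_lit 1) (p (nat_lit 0x444aa) (nat_lit 7) (p (nat_lit 0x81) (nat_lit 1) (p (nat_lit 0xc9) (nat_lit 1) (p (nat_lit 0x109) (nat_lit 1) (p (nat_lit 0x101) (nat_lit 0) (p (nat_lit 0x119) (nat_lit 0) (p (nat_lit 0xd1) (nat_lit 0) (p (nat_lit 0x89) (nat_lit 0) (p (nat_lit 0x41) (nat_lit 0) (p (nat_lit 0x10a898a08881a) (nat_lit 0) (p (nat_lit 0x8a090988079a) (nat_lit 0) (p (nat_lit 0x108088907871a) (nat_lit 0) (p (nat_lit 0x87880887069a) (nat_lit 0) (p (nat_lit 0x8000080000000088806860a) (nat_lit 0) (p (nat_lit 0x8000080000000068786058a) (nat_lit 0) (p (nat_lit 0x10687058502) (nat_lit 0) (p (nat_lit 0x8606850482) (nat_lit 0) (p (nat_lit 0x160004) (nat_lit 0) (p (nat_lit 0x68612) (nat_lit 0) (p (nat_lit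 0x50592) (nat_lit 0) (p (nat_lit 0x40512) (nat_lit 0) (p (nat_lit 0x50312) (nat_lit 0) (p (nat_lit 0x38292) (nat_lit 0) (p (nat_lit 0x28212) (nat_lit 0) (p (nat_lit 0x38112) (nat_lit 0) (p (nat_lit 0x20092) (nat_lit 0) (p (nat_lit 0x10012) (nat_lit 0) pn)))))))))))))))))))))))))))) :=
  Cl.node (nat_lit 0xb0004) (nat_lit 2) (by decide +kernel) (ClAll.succ (ClAll.succ ClAll.zero n362) n363)

def n448 : Cl (O (nat_lit 6)) (R (nat_lit 143633))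
    (p (nat_lit 0x380c2) (nat_lit 0) (p (nat_lit 0x4c42a) (nat_lit 2) (p (nat_lit 0x111) (nat_lit 0) (p (nat_lit 0xc9) (nat_lit 0) (p (nat_lit 0x81) (nat_lit 0) (p (nat_lit 0x101) (nat_lit 1) (p (nat_lit 0x119) (nat_lit 0) (p (nat_lit 0xd1) (nat_lit 0) (p (nat_lit 0x89) (nat_lit 0) (p (nat_lit 0x41) (nat_lit 0) (p (nat_lit 0x10a898a08881a) (nat_lit 0) (p (nat_lit 0x8a090988079a) (nat_lit 0) (p (nat_lit 0x108088907871a) (nat_lit 0) (p (nat_lit 0x87880887069a) (nat_lit 0) (p (nat_lit 0x8000080000000088806860a) (nat_lit 0) (p (nat_lit 0x8000080000000068786058a) (nat_lit 0) (p (nat_lit 0x10687058502) (nat_lit 0) (p (nat_lit 0x8606850482) (nat_lit 0) (p (nat_lit 0x160004) (nat_lit 0) (p (nat_lit 0x68612) (nat_lit 0) (p (nat_lit 0x50592) (nat_lit 0) (p (nat_lit 0x40512) (nat_lit 0) (p (nat_lit 0x50312) (nat_lit 0) (p (nat_lit 0x38292) (nat_lit 0) (p (nat_lit 0x28212) (nat_lit 0) (p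 (nat_lit 0x38112) (nat_lit 0) (p (nat_lit 0x20092) (nat_lit 0) (p (nat_lit 0x10012) (nat_lit 0) pn)))))))))))))))))))))))))))) :=
  Cl.node (nat_lit 0xb0004) (nat_lit 2) (by decide +kernel) (ClAll.succ (ClAll.succ ClAll.zero n364) n365)

def n449 : Cl (O (nat_lit 6)) (R (nat_lit 143633))
    (p (nat_lit 0x380c2) (nat_lit 0) (p (nat_lit 0x4c42a) (nat_lit 8) (p (nat_lit 0x111) (nat_lit 0) (p (nat_lit 0xc9) (nat_lit 0) (p (nat_lit 0x81) (nat_lit 0) (p (nat_lit 0x101) (nat_lit 1) (p (nat_lit 0x119) (nat_lit 0) (p (nat_lit 0xd1) (nat_lit 0) (p (nat_lit 0x89) (nat_lit 0) (p (nat_lit 0x41) (nat_lit 0) (p (nat_lit 0x10a898a08881a) (nat_lit 0) (p (nat_lit 0x8a090988079a) (nat_lit 0) (p (nat_lit 0x108088907871a) (nat_lit 0) (p (nat_lit 0x87880887069a) (nat_lit 0) (p (nat_lit 0x8000080000000088806860a) (nat_lit 0) (p (nat_lit 0x8000080000000068786058a) (nat_lit 0) (p (nat_lit 0x10687058502)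 (nat_lit 0) (p (nat_lit 0x8606850482) (nat_lit 0) (p (nat_lit 0x160004) (nat_lit 0) (p (nat_lit 0x68612) (nat_lit 0) (p (nat_lit 0x50592) (nat_lit 0) (p (nat_lit 0x40512) (nat_lit 0) (p (nat_lit 0x50312) (nat_lit 0) (p (nat_lit 0x38292) (nat_lit 0) (p (nat_lit 0x28212) (nat_lit 0) (p (nat_lit 0x38112) (nat_lit 0) (p (nat_lit 0x20092) (nat_lit 0) (p (nat_lit 0x10012) (nat_lit 0) pn)))))))))))))))))))))))))))) :=
  Cl.node (nat_lit 0x200014) (nat_lit 2) (by decide +kernel) (ClAll.succ (ClAll.succ ClAll.zero n366) s79)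

def n450 : Cl (O (nat_lit 6)) (R (nat_lit 143633))
    (p (nat_lit 0x380c2) (nat_lit 0) (p (nat_lit 0x444aa) (nat_lit 7) (p (nat_lit 0x111) (nat_lit 0) (p (nat_lit 0xc9) (nat_lit 1) (p (nat_lit 0x81) (nat_lit 0) (p (nat_lit 0x101) (nat_lit 1) (p (nat_lit 0x119) (nat_lit 0) (p (nat_lit 0xd1) (nat_lit 0) (p (nat_lit 0x89) (nat_lit 0) (p (nat_lit 0x41) (nat_lit 0) (p (nat_lit 0x10a898a08881a) (nat_lit 0) (p (nat_lit 0x8a090988079a) (nat_lit 0) (p (nat_lit 0x108088907871a) (nat_lit 0) (p (nat_lit 0x87880887069a) (nat_lit 0) (p (nat_lit 0x8000080000000088806860a) (nat_lit 0) (p (nat_lit 0x8000080000000068786058a) (nat_lit 0) (p (nat_lit 0x10687058502) (nat_lit 0) (p (nat_lit 0x8606850482) (nat_lit 0) (p (nat_lit 0x160004) (nat_lit 0) (p (nat_lit 0x68612) (nat_lit 0) (p (nat_lit 0x50592) (nat_lit 0) (p (nat_lit 0x40512) (nat_lit 0) (p (nat_lit 0x50312) (nat_lit 0) (p (nat_lit 0x38292)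 (nat_lit 0) (p (nat_lit 0x28212) (nat_lit 0) (p (nat_lit 0x38112) (nat_lit 0) (p (nat_lit 0x20092) (nat_lit 0) (p (nat_lit 0x10012) (nat_lit 0) pn)))))))))))))))))))))))))))) :=
  Cl.node (nat_lit 0xb0004) (nat_lit 2) (by decide +kernel) (ClAll.succ (ClAll.succ ClAll.zero n367) n368)

def n451 : Cl (O (nat_lit 6)) (R (nat_lit 143633))
    (p (nat_lit 0x380c2) (nat_lit 1) (p (nat_lit 0x444aa) (nat_lit 7) (p (nat_lit 0x111) (nat_lit 0) (p (nat_lit 0xc9) (nat_lit 1) (p (nat_lit 0x81) (nat_lit 0) (p (nat_lit 0x101) (nat_lit 1) (p (nat_lit 0x119) (nat_lit 0) (p (nat_lit 0xd1) (nat_lit 0) (p (nat_lit 0x89) (nat_lit 0) (p (nat_lit 0x41) (nat_lit 0) (p (nat_lit 0x10a898a08881a) (nat_lit 0) (p (nat_lit 0x8a090988079a) (nat_lit 0) (p (nat_lit 0x108088907871a) (nat_lit 0) (p (nat_lit 0x87880887069a) (nat_lit 0) (p (nat_lit 0x8000080000000088806860a) (nat_lit 0) (p (nat_lit 0x8000080000000068786058a)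 (nat_lit 0) (p (nat_lit 0x10687058502) (nat_lit 0) (p (nat_lit 0x8606850482) (nat_lit 0) (p (nat_lit 0x160004) (nat_lit 0) (p (nat_lit 0x68612) (nat_lit 0) (p (nat_lit 0x50592) (nat_lit 0) (p (nat_lit 0x40512) (nat_lit 0) (p (nat_lit 0x50312) (nat_lit 0) (p (nat_lit 0x38292) (nat_lit 0) (p (nat_lit 0x28212) (nat_lit 0) (p (nat_lit 0x38112) (nat_lit 0) (p (nat_lit 0x20092) (nat_lit 0) (p (nat_lit 0x10012) (nat_lit 0) pn)))))))))))))))))))))))))))) :=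
  Cl.node (nat_lit 0xb0004) (nat_lit 2) (by decide +kernel) (ClAll.succ (ClAll.succ ClAll.zero n369) n370)

def n452 : Cl (O (nat_lit 6)) (R (nat_lit 143633))
    (p (nat_lit 0x380c2) (nat_lit 0) (p (nat_lit 0x444aa) (nat_lit 8) (p (nat_lit 0x111) (nat_lit 0) (p (nat_lit 0xc9) (nat_lit 1) (p (nat_lit 0x81) (nat_lit 0) (p (nat_lit 0x101) (nat_lit 1) (p (nat_lit 0x119) (nat_lit 0) (p (nat_lit 0xd1) (nat_lit 0) (p (nat_lit 0x89) (nat_lit 0) (p (nat_lit 0x41) (nat_lit 0) (p (nat_lit 0x10a898a08881a) (nat_lit 0) (p (nat_lit 0x8a090988079a) (nat_lit 0) (p (nat_lit 0x108088907871a) (nat_lit 0) (p (nat_lit 0x87880887069a) (nat_lit 0) (p (nat_lit 0x8000080000000088806860a) (nat_lit 0) (p (nat_lit 0x8000080000000068786058a) (nat_lit 0) (p (nat_lit 0x10687058502) (nat_lit 0) (p (nat_lit 0x8606850482) (nat_lit 0) (p (nat_lit 0x160004) (nat_lit 0) (p (nat_lit 0x68612) (nat_lit 0) (p (nat_lit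 0x50592) (nat_lit 0) (p (nat_lit 0x40512) (nat_lit 0) (p (nat_lit 0x50312) (nat_lit 0) (p (nat_lit 0x38292) (nat_lit 0) (p (nat_lit 0x28212) (nat_lit 0) (p (nat_lit 0x38112) (nat_lit 0) (p (nat_lit 0x20092) (nat_lit 0) (p (nat_lit 0x10012) (nat_lit 0) pn)))))))))))))))))))))))))))) :=
  Cl.node (nat_lit 0x200014) (nat_lit 2) (by decide +kernel) (ClAll.succ (ClAll.succ ClAll.zero n371) s150)

def n453 : Cl (O (nat_lit 6)) (R (nat_lit 143633))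
    (p (nat_lit 0x380c2) (nat_lit 1) (p (nat_lit 0x444aa) (nat_lit 8) (p (nat_lit 0x111) (nat_lit 0) (p (nat_lit 0xc9) (nat_lit 1) (p (nat_lit 0x81) (nat_lit 0) (p (nat_lit 0x101) (nat_lit 1) (p (nat_lit 0x119) (nat_lit 0) (p (nat_lit 0xd1) (nat_lit 0) (p (nat_lit 0x89) (nat_lit 0) (p (nat_lit 0x41) (nat_lit 0) (p (nat_lit 0x10a898a08881a) (nat_lit 0) (p (nat_lit 0x8a090988079a) (nat_lit 0) (p (nat_lit 0x108088907871a) (nat_lit 0) (p (nat_lit 0x87880887069a) (nat_lit 0) (p (nat_lit 0x8000080000000088806860a) (nat_lit 0) (p (nat_lit 0x8000080000000068786058a) (nat_lit 0) (p (nat_lit 0x10687058502) (nat_lit 0) (p (nat_lit 0x8606850482) (nat_lit 0) (p (nat_lit 0x160004) (nat_lit 0) (p (nat_lit 0x68612) (nat_lit 0) (p (nat_lit 0x50592) (nat_lit 0) (p (nat_lit 0x40512) (nat_lit 0) (p (nat_lit 0x50312) (nat_lit 0) (p (nat_lit 0x38292) (nat_lit 0) (p (nat_lit 0x28212) (nat_lit 0) (p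 (nat_lit 0x38112) (nat_lit 0) (p (nat_lit 0x20092) (nat_lit 0) (p (nat_lit 0x10012) (nat_lit 0) pn)))))))))))))))))))))))))))) :=
  Cl.node (nat_lit 0x200014) (nat_lit 2) (by decide +kernel) (ClAll.succ (ClAll.succ ClAll.zero n372) s156)

def n454 : Cl (O (nat_lit 6)) (R (nat_lit 143633))
    (p (nat_lit 0x380c2) (nat_lit 0) (p (nat_lit 0x4c42a) (nat_lit 2) (p (nat_lit 0xc9) (nat_lit 0) (p (nat_lit 0xc1) (nat_lit 0) (p (nat_lit 0x81) (nat_lit 1) (p (nat_lit 0x101) (nat_lit 1) (p (nat_lit 0x119) (nat_lit 0) (p (nat_lit 0xd1) (nat_lit 0) (p (nat_lit 0x89) (nat_lit 0) (p (nat_lit 0x41) (nat_lit 0) (p (nat_lit 0x10a898a08881a) (nat_lit 0) (p (nat_lit 0x8a090988079a) (nat_lit 0) (p (nat_lit 0x108088907871a) (nat_lit 0) (p (nat_lit 0x87880887069a) (nat_lit 0) (p (nat_lit 0x8000080000000088806860a) (nat_lit 0) (p (nat_lit 0x8000080000000068786058a) (nat_lit 0) (p (nat_lit 0x10687058502)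 (nat_lit 0) (p (nat_lit 0x8606850482) (nat_lit 0) (p (nat_lit 0x160004) (nat_lit 0) (p (nat_lit 0x68612) (nat_lit 0) (p (nat_lit 0x50592) (nat_lit 0) (p (nat_lit 0x40512) (nat_lit 0) (p (nat_lit 0x50312) (nat_lit 0) (p (nat_lit 0x38292) (nat_lit 0) (p (nat_lit 0x28212) (nat_lit 0) (p (nat_lit 0x38112) (nat_lit 0) (p (nat_lit 0x20092) (nat_lit 0) (p (nat_lit 0x10012) (nat_lit 0) pn)))))))))))))))))))))))))))) :=
  Cl.node (nat_lit 0xb0004) (nat_lit 2) (by decide +kernel) (ClAll.succ (ClAll.succ ClAll.zero n373) n374)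

def n455 : Cl (O (nat_lit 6)) (R (nat_lit 143633))
    (p (nat_lit 0x380c2) (nat_lit 0) (p (nat_lit 0x4c42a) (nat_lit 8) (p (nat_lit 0xc9) (nat_lit 0) (p (nat_lit 0xc1) (nat_lit 0) (p (nat_lit 0x81) (nat_lit 1) (p (nat_lit 0x101) (nat_lit 1) (p (nat_lit 0x119) (nat_lit 0) (p (nat_lit 0xd1) (nat_lit 0) (p (nat_lit 0x89) (nat_lit 0) (p (nat_lit 0x41) (nat_lit 0) (p (nat_lit 0x10a898a08881a) (nat_lit 0) (p (nat_lit 0x8a090988079a) (nat_lit 0) (p (nat_lit 0x108088907871a) (nat_lit 0) (p (nat_lit 0x87880887069a) (nat_lit 0) (p (nat_lit 0x8000080000000088806860a) (nat_lit 0) (p (nat_lit 0x8000080000000068786058a) (nat_lit 0) (p (nat_lit 0x10687058502) (nat_lit 0) (p (nat_lit 0x8606850482) (nat_lit 0) (p (nat_lit 0x160004) (nat_lit 0) (p (nat_lit 0x68612) (nat_lit 0) (p (nat_lit 0x50592) (nat_lit 0) (p (nat_lit 0x40512) (nat_lit 0) (p (nat_lit 0x50312) (nat_lit 0) (p (nat_lit 0x38292)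 (nat_lit 0) (p (nat_lit 0x28212) (nat_lit 0) (p (nat_lit 0x38112) (nat_lit 0) (p (nat_lit 0x20092) (nat_lit 0) (p (nat_lit 0x10012) (nat_lit 0) pn)))))))))))))))))))))))))))) :=
  Cl.node (nat_lit 0x200014) (nat_lit 2) (by decide +kernel) (ClAll.succ (ClAll.succ ClAll.zero n375) s203)

def n456 : Cl (O (nat_lit 6)) (R (nat_lit 143633))
    (p (nat_lit 0x380c2) (nat_lit 1) (p (nat_lit 0x4c42a) (nat_lit 8) (p (nat_lit 0xc9) (nat_lit 0) (p (nat_lit 0xc1) (nat_lit 0) (p (nat_lit 0x81) (nat_lit 1) (p (nat_lit 0x101) (nat_lit 1) (p (nat_lit 0x119) (nat_lit 0) (p (nat_lit 0xd1) (nat_lit 0) (p (nat_lit 0x89) (nat_lit 0) (p (nat_lit 0x41) (nat_lit 0) (p (nat_lit 0x10a898a08881a) (nat_lit 0) (p (nat_lit 0x8a090988079a) (nat_lit 0) (p (nat_lit 0x108088907871a) (nat_lit 0) (p (nat_lit 0x87880887069a) (nat_lit 0) (p (nat_lit 0x8000080000000088806860a) (nat_lit 0) (p (nat_lit 0x8000080000000068786058a)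 (nat_lit 0) (p (nat_lit 0x10687058502) (nat_lit 0) (p (nat_lit 0x8606850482) (nat_lit 0) (p (nat_lit 0x160004) (nat_lit 0) (p (nat_lit 0x68612) (nat_lit 0) (p (nat_lit 0x50592) (nat_lit 0) (p (nat_lit 0x40512) (nat_lit 0) (p (nat_lit 0x50312) (nat_lit 0) (p (nat_lit 0x38292) (nat_lit 0) (p (nat_lit 0x28212) (nat_lit 0) (p (nat_lit 0x38112) (nat_lit 0) (p (nat_lit 0x20092) (nat_lit 0) (p (nat_lit 0x10012) (nat_lit 0) pn)))))))))))))))))))))))))))) :=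
  Cl.node (nat_lit 0x20000c) (nat_lit 2) (by decide +kernel) (ClAll.succ (ClAll.succ ClAll.zero s204) s205)

def n457 : Cl (O (nat_lit 6)) (R (nat_lit 143633))
    (p (nat_lit 0x380c2) (nat_lit 0) (p (nat_lit 0x444aa) (nat_lit 7) (p (nat_lit 0xc9) (nat_lit 1) (p (nat_lit 0xc1) (nat_lit 0) (p (nat_lit 0x81) (nat_lit 1) (p (nat_lit 0x101) (nat_lit 1) (p (nat_lit 0x119) (nat_lit 0) (p (nat_lit 0xd1) (nat_lit 0) (p (nat_lit 0x89) (nat_lit 0) (p (nat_lit 0x41) (nat_lit 0) (p (nat_lit 0x10a898a08881a) (nat_lit 0) (p (nat_lit 0x8a090988079a) (nat_lit 0) (p (nat_lit 0x108088907871a) (nat_lit 0) (p (nat_lit 0x87880887069a) (nat_lit 0) (p (nat_lit 0x8000080000000088806860a) (nat_lit 0) (p (nat_lit 0x8000080000000068786058a) (nat_lit 0) (p (nat_lit 0x10687058502) (nat_lit 0) (p (nat_lit 0x8606850482) (nat_lit 0) (p (nat_lit 0x160004) (nat_lit 0) (p (nat_lit 0x68612) (nat_lit 0) (p (nat_lit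 0x50592) (nat_lit 0) (p (nat_lit 0x40512) (nat_lit 0) (p (nat_lit 0x50312) (nat_lit 0) (p (nat_lit 0x38292) (nat_lit 0) (p (nat_lit 0x28212) (nat_lit 0) (p (nat_lit 0x38112) (nat_lit 0) (p (nat_lit 0x20092) (nat_lit 0) (p (nat_lit 0x10012) (nat_lit 0) pn)))))))))))))))))))))))))))) :=
  Cl.node (nat_lit 0xb0004) (nat_lit 2) (by decide +kernel) (ClAll.succ (ClAll.succ ClAll.zero n376) s230)

def n458 : Cl (O (nat_lit 6)) (R (nat_lit 143633))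
    (p (nat_lit 0x380c2) (nat_lit 1) (p (nat_lit 0x444aa) (nat_lit 7) (p (nat_lit 0xc9) (nat_lit 1) (p (nat_lit 0xc1) (nat_lit 0) (p (nat_lit 0x81) (nat_lit 1) (p (nat_lit 0x101) (nat_lit 1) (p (nat_lit 0x119) (nat_lit 0) (p (nat_lit 0xd1) (nat_lit 0) (p (nat_lit 0x89) (nat_lit 0) (p (nat_lit 0x41) (nat_lit 0) (p (nat_lit 0x10a898a08881a) (nat_lit 0) (p (nat_lit 0x8a090988079a) (nat_lit 0) (p (nat_lit 0x108088907871a) (nat_lit 0) (p (nat_lit 0x87880887069a) (nat_lit 0) (p (nat_lit 0x8000080000000088806860a) (nat_lit 0) (p (nat_lit 0x8000080000000068786058a) (nat_lit 0) (p (nat_lit 0x10687058502) (nat_lit 0) (p (nat_lit 0x8606850482) (nat_lit 0) (p (nat_lit 0x160004) (nat_lit 0) (p (nat_lit 0x68612) (nat_lit 0) (p (nat_lit 0x50592) (nat_lit 0) (p (nat_lit 0x40512) (nat_lit 0) (p (nat_lit 0x50312) (nat_lit 0) (p (nat_lit 0x38292) (nat_lit 0) (p (nat_lit 0x28212) (nat_lit 0) (p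 (nat_lit 0x38112) (nat_lit 0) (p (nat_lit 0x20092) (nat_lit 0) (p (nat_lit 0x10012) (nat_lit 0) pn)))))))))))))))))))))))))))) :=
  Cl.node (nat_lit 0xb0004) (nat_lit 2) (by decide +kernel) (ClAll.succ (ClAll.succ ClAll.zero n377) s235)

def n459 : Cl (O (nat_lit 6)) (R (nat_lit 143633))
    (p (nat_lit 0x101) (nat_lit 1) (p (nat_lit 0x380c2) (nat_lit 0) (p (nat_lit 0x3cc2a) (nat_lit 10) (p (nat_lit 0x109) (nat_lit 1) (p (nat_lit 0xc9) (nat_lit 1) (p (nat_lit 0xc1) (nat_lit 0) (p (nat_lit 0x119) (nat_lit 1) (p (nat_lit 0xd1) (nat_lit 0) (p (nat_lit 0x89) (nat_lit 0) (p (nat_lit 0x41) (nat_lit 0) (p (nat_lit 0x10a898a08881a) (nat_lit 0) (p (nat_lit 0x8a090988079a) (nat_lit 0) (p (nat_lit 0x108088907871a) (nat_lit 0) (p (nat_lit 0x87880887069a) (nat_lit 0) (p (nat_lit 0x8000080000000088806860a) (nat_lit 0) (p (nat_lit 0x8000080000000068786058a) (nat_lit 0) (p (nat_lit 0x10687058502)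 (nat_lit 0) (p (nat_lit 0x8606850482) (nat_lit 0) (p (nat_lit 0x160004) (nat_lit 0) (p (nat_lit 0x68612) (nat_lit 0) (p (nat_lit 0x50592) (nat_lit 0) (p (nat_lit 0x40512) (nat_lit 0) (p (nat_lit 0x50312) (nat_lit 0) (p (nat_lit 0x38292) (nat_lit 0) (p (nat_lit 0x28212) (nat_lit 0) (p (nat_lit 0x38112) (nat_lit 0) (p (nat_lit 0x20092) (nat_lit 0) (p (nat_lit 0x10012) (nat_lit 0) pn)))))))))))))))))))))))))))) :=
  Cl.node (nat_lit 0x41) (nat_lit 2) (by decide +kernel) (ClAll.succ (ClAll.succ ClAll.zero n378) s257)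

def n460 : Cl (O (nat_lit 6)) (R (nat_lit 143633))
    (p (nat_lit 0x41) (nat_lit 0) (p (nat_lit 0x380c2) (nat_lit 1) (p (nat_lit 0x3cc2a) (nat_lit 10) (p (nat_lit 0x109) (nat_lit 1) (p (nat_lit 0xc9) (nat_lit 1) (p (nat_lit 0xc1) (nat_lit 0) (p (nat_lit 0x119) (nat_lit 1) (p (nat_lit 0xd1) (nat_lit 0) (p (nat_lit 0x89) (nat_lit 0) (p (nat_lit 0x41) (nat_lit 0) (p (nat_lit 0x10a898a08881a) (nat_lit 0) (p (nat_lit 0x8a090988079a) (nat_lit 0) (p (nat_lit 0x108088907871a) (nat_lit 0) (p (nat_lit 0x87880887069a) (nat_lit 0) (p (nat_lit 0x8000080000000088806860a) (nat_lit 0) (p (nat_lit 0x8000080000000068786058a) (nat_lit 0) (p (nat_lit 0x10687058502) (nat_lit 0) (p (nat_lit 0x8606850482) (nat_lit 0) (p (nat_lit 0x160004) (nat_lit 0) (p (nat_lit 0x68612) (nat_lit 0) (p (nat_lit 0x50592) (nat_lit 0) (p (nat_lit 0x40512) (nat_lit 0) (p (nat_lit 0x50312) (nat_lit 0) (p (nat_lit 0x38292)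 (nat_lit 0) (p (nat_lit 0x28212) (nat_lit 0) (p (nat_lit 0x38112) (nat_lit 0) (p (nat_lit 0x20092) (nat_lit 0) (p (nat_lit 0x10012) (nat_lit 0) pn)))))))))))))))))))))))))))) :=
  Cl.node (nat_lit 0x200014) (nat_lit 2) (by decide +kernel) (ClAll.succ (ClAll.succ ClAll.zero n379) s260)

def n461 : Cl (O (nat_lit 6)) (R (nat_lit 143633))
    (p (nat_lit 0xb0004) (nat_lit 0) (p (nat_lit 0x380c2) (nat_lit 0) (p (nat_lit 0x3cc2a) (nat_lit 11) (p (nat_lit 0x109) (nat_lit 1) (p (nat_lit 0xc9) (nat_lit 1) (p (nat_lit 0xc1) (nat_lit 0) (p (nat_lit 0x119) (nat_lit 1) (p (nat_lit 0xd1) (nat_lit 0) (p (nat_lit 0x89) (nat_lit 0) (p (nat_lit 0x41) (nat_lit 0) (p (nat_lit 0x10a898a08881a) (nat_lit 0) (p (nat_lit 0x8a090988079a) (nat_lit 0) (p (nat_lit 0x108088907871a) (nat_lit 0) (p (nat_lit 0x87880887069a) (nat_lit 0) (p (nat_lit 0x8000080000000088806860a) (nat_lit 0) (p (nat_lit 0x8000080000000068786058a)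 (nat_lit 0) (p (nat_lit 0x10687058502) (nat_lit 0) (p (nat_lit 0x8606850482) (nat_lit 0) (p (nat_lit 0x160004) (nat_lit 0) (p (nat_lit 0x68612) (nat_lit 0) (p (nat_lit 0x50592) (nat_lit 0) (p (nat_lit 0x40512) (nat_lit 0) (p (nat_lit 0x50312) (nat_lit 0) (p (nat_lit 0x38292) (nat_lit 0) (p (nat_lit 0x28212) (nat_lit 0) (p (nat_lit 0x38112) (nat_lit 0) (p (nat_lit 0x20092) (nat_lit 0) (p (nat_lit 0x10012) (nat_lit 0) pn)))))))))))))))))))))))))))) :=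
  Cl.node (nat_lit 0x81) (nat_lit 2) (by decide +kernel) (ClAll.succ (ClAll.succ ClAll.zero s262) n380)

def n462 : Cl (O (nat_lit 6)) (R (nat_lit 143633))
    (p (nat_lit 0xb0004) (nat_lit 0) (p (nat_lit 0x380c2) (nat_lit 1) (p (nat_lit 0x3cc2a) (nat_lit 11) (p (nat_lit 0x109) (nat_lit 1) (p (nat_lit 0xc9) (nat_lit 1) (p (nat_lit 0xc1) (nat_lit 0) (p (nat_lit 0x119) (nat_lit 1) (p (nat_lit 0xd1) (nat_lit 0) (p (nat_lit 0x89) (nat_lit 0) (p (nat_lit 0x41) (nat_lit 0) (p (nat_lit 0x10a898a08881a) (nat_lit 0) (p (nat_lit 0x8a090988079a) (nat_lit 0) (p (nat_lit 0x108088907871a) (nat_lit 0) (p (nat_lit 0x87880887069a) (nat_lit 0) (p (nat_lit 0x8000080000000088806860a) (nat_lit 0) (p (nat_lit 0x8000080000000068786058a) (nat_lit 0) (p (nat_lit 0x10687058502) (nat_lit 0) (p (nat_lit 0x8606850482) (nat_lit 0) (p (nat_lit 0x160004) (nat_lit 0) (p (nat_lit 0x68612) (nat_lit 0) (p (nat_lit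 0x50592) (nat_lit 0) (p (nat_lit 0x40512) (nat_lit 0) (p (nat_lit 0x50312) (nat_lit 0) (p (nat_lit 0x38292) (nat_lit 0) (p (nat_lit 0x28212) (nat_lit 0) (p (nat_lit 0x38112) (nat_lit 0) (p (nat_lit 0x20092) (nat_lit 0) (p (nat_lit 0x10012) (nat_lit 0) pn)))))))))))))))))))))))))))) :=
  Cl.node (nat_lit 0x101) (nat_lit 2) (by decide +kernel) (ClAll.succ (ClAll.succ ClAll.zero s276) n381)

def n463 : Cl (O (nat_lit 6)) (R (nat_lit 143633))
    (p (nat_lit 0xc9) (nat_lit 0) (p (nat_lit 0x380c2) (nat_lit 1) (p (nat_lit 0x3cc2a) (nat_lit 10) (p (nat_lit 0x109) (nat_lit 1) (p (nat_lit 0x81) (nat_lit 0) (p (nat_lit 0xc1) (nat_lit 1) (p (nat_lit 0x119) (nat_lit 1) (p (nat_lit 0xd1) (nat_lit 0) (p (nat_lit 0x89) (nat_lit 0) (p (nat_lit 0x41) (nat_lit 0) (p (nat_lit 0x10a898a08881a) (nat_lit 0) (p (nat_lit 0x8a090988079a) (nat_lit 0) (p (nat_lit 0x108088907871a) (nat_lit 0) (p (nat_lit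 0x87880887069a) (nat_lit 0) (p (nat_lit 0x8000080000000088806860a) (nat_lit 0) (p (nat_lit 0x8000080000000068786058a) (nat_lit 0) (p (nat_lit 0x10687058502) (nat_lit 0) (p (nat_lit 0x8606850482) (nat_lit 0) (p (nat_lit 0x160004) (nat_lit 0) (p (nat_lit 0x68612) (nat_lit 0) (p (nat_lit 0x50592) (nat_lit 0) (p (nat_lit 0x40512) (nat_lit 0) (p (nat_lit 0x50312) (nat_lit 0) (p (nat_lit 0x38292) (nat_lit 0) (p (nat_lit 0x28212) (nat_lit 0) (p (nat_lit 0x38112) (nat_lit 0) (p (nat_lit 0x20092) (nat_lit 0) (p (nat_lit 0x10012) (nat_lit 0) pn)))))))))))))))))))))))))))) :=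
  Cl.node (nat_lit 0x44c2a) (nat_lit 12) (by decide +kernel) (ClAll.succ (ClAll.succ (ClAll.succ (ClAll.succ (ClAll.succ (ClAll.succ (ClAll.succ (ClAll.succ (ClAll.succ (ClAll.succ (ClAll.succ (ClAll.succ ClAll.zero s315) s316) s317) s318) s319) s320) s321) s322) s323) s324) s325) s326)

def n464 : Cl (O (nat_lit 6)) (R (nat_lit 143633))
    (p (nat_lit 0xb0004) (nat_lit 0) (p (nat_lit 0x380c2) (nat_lit 0) (p (nat_lit 0x3cc2a) (nat_lit 11) (p (nat_lit 0x109) (nat_lit 1) (p (nat_lit 0x81) (nat_lit 0) (p (nat_lit 0xc1) (nat_lit 1) (p (nat_lit 0x119) (nat_lit 1) (p (nat_lit 0xd1) (nat_lit 0) (p (nat_lit 0x89) (nat_lit 0) (p (nat_lit 0x41) (nat_lit 0) (p (nat_lit 0x10a898a08881a) (nat_lit 0) (p (nat_lit 0x8a090988079a) (nat_lit 0) (p (nat_lit 0x108088907871a) (nat_lit 0) (p (nat_lit 0x87880887069a) (nat_lit 0) (p (nat_lit 0x8000080000000088806860a) (nat_lit 0) (p (nat_lit 0x8000080000000068786058a)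 (nat_lit 0) (p (nat_lit 0x10687058502) (nat_lit 0) (p (nat_lit 0x8606850482) (nat_lit 0) (p (nat_lit 0x160004) (nat_lit 0) (p (nat_lit 0x68612) (nat_lit 0) (p (nat_lit 0x50592) (nat_lit 0) (p (nat_lit 0x40512) (nat_lit 0) (p (nat_lit 0x50312) (nat_lit 0) (p (nat_lit 0x38292) (nat_lit 0) (p (nat_lit 0x28212) (nat_lit 0) (p (nat_lit 0x38112) (nat_lit 0) (p (nat_lit 0x20092) (nat_lit 0) (p (nat_lit 0x10012) (nat_lit 0) pn)))))))))))))))))))))))))))) :=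
  Cl.node (nat_lit 0xd1) (nat_lit 2) (by decide +kernel) (ClAll.succ (ClAll.succ ClAll.zero n382) s340)

def n465 : Cl (O (nat_lit 6)) (R (nat_lit 143633))
    (p (nat_lit 0xd1) (nat_lit 0) (p (nat_lit 0x380c2) (nat_lit 1) (p (nat_lit 0x3cc2a) (nat_lit 11) (p (nat_lit 0x109) (nat_lit 1) (p (nat_lit 0x81) (nat_lit 0) (p (nat_lit 0xc1) (nat_lit 1) (p (nat_lit 0x119) (nat_lit 1) (p (nat_lit 0xd1) (nat_lit 0) (p (nat_lit 0x89) (nat_lit 0) (p (nat_lit 0x41) (nat_lit 0) (p (nat_lit 0x10a898a08881a) (nat_lit 0) (p (nat_lit 0x8a090988079a) (nat_lit 0) (p (nat_lit 0x108088907871a) (nat_lit 0) (p (nat_lit 0x87880887069a) (nat_lit 0) (p (nat_lit 0x8000080000000088806860a) (nat_lit 0) (p (nat_lit 0x8000080000000068786058a) (nat_lit 0) (p (nat_lit 0x10687058502) (nat_lit 0) (p (nat_lit 0x8606850482) (nat_lit 0) (p (nat_lit 0x160004) (nat_lit 0) (p (nat_lit 0x68612) (nat_lit 0) (p (nat_lit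 0x50592) (nat_lit 0) (p (nat_lit 0x40512) (nat_lit 0) (p (nat_lit 0x50312) (nat_lit 0) (p (nat_lit 0x38292) (nat_lit 0) (p (nat_lit 0x28212) (nat_lit 0) (p (nat_lit 0x38112) (nat_lit 0) (p (nat_lit 0x20092) (nat_lit 0) (p (nat_lit 0x10012) (nat_lit 0) pn)))))))))))))))))))))))))))) :=
  Cl.node (nat_lit 0xb0004) (nat_lit 2) (by decide +kernel) (ClAll.succ (ClAll.succ ClAll.zero s342) s343)

def n466 : Cl (O (nat_lit 6)) (R (nat_lit 143633))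
    (p (nat_lit 0x380c2) (nat_lit 0) (p (nat_lit 0x44c2a) (nat_lit 0) (p (nat_lit 0x109) (nat_lit 0) (p (nat_lit 0x101) (nat_lit 0) (p (nat_lit 0x81) (nat_lit 1) (p (nat_lit 0xc1) (nat_lit 1) (p (nat_lit 0x119) (nat_lit 1) (p (nat_lit 0xd1) (nat_lit 0) (p (nat_lit 0x89) (nat_lit 0) (p (nat_lit 0x41) (nat_lit 0) (p (nat_lit 0x10a898a08881a) (nat_lit 0) (p (nat_lit 0x8a090988079a) (nat_lit 0) (p (nat_lit 0x108088907871a) (nat_lit 0) (p (nat_lit 0x87880887069a) (nat_lit 0) (p (nat_lit 0x8000080000000088806860a) (nat_lit 0) (p (nat_lit 0x8000080000000068786058a) (nat_lit 0) (p (nat_lit 0x10687058502) (nat_lit 0) (p (nat_lit 0x8606850482) (nat_lit 0) (p (nat_lit 0x160004) (nat_lit 0) (p (nat_lit 0x68612) (nat_lit 0) (p (nat_lit 0x50592) (nat_lit 0) (p (nat_lit 0x40512) (nat_lit 0) (p (nat_lit 0x50312) (nat_lit 0) (p (nat_lit 0x38292) (nat_lit 0) (p (nat_lit 0x28212) (nat_lit 0) (p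 (nat_lit 0x38112) (nat_lit 0) (p (nat_lit 0x20092) (nat_lit 0) (p (nat_lit 0x10012) (nat_lit 0) pn)))))))))))))))))))))))))))) :=
  Cl.node (nat_lit 0x101) (nat_lit 2) (by decide +kernel) (ClAll.succ (ClAll.succ ClAll.zero s345) n383)

def n467 : Cl (O (nat_lit 6)) (R (nat_lit 143633))
    (p (nat_lit 0x380c2) (nat_lit 1) (p (nat_lit 0x44c2a) (nat_lit 0) (p (nat_lit 0x109) (nat_lit 0) (p (nat_lit 0x101) (nat_lit 0) (p (nat_lit 0x81) (nat_lit 1) (p (nat_lit 0xc1) (nat_lit 1) (p (nat_lit 0x119) (nat_lit 1) (p (nat_lit 0xd1) (nat_lit 0) (p (nat_lit 0x89) (nat_lit 0) (p (nat_lit 0x41) (nat_lit 0) (p (nat_lit 0x10a898a08881a) (nat_lit 0) (p (nat_lit 0x8a090988079a) (nat_lit 0) (p (nat_lit 0x108088907871a) (nat_lit 0) (p (nat_lit 0x87880887069a) (nat_lit 0) (p (nat_lit 0x8000080000000088806860a) (nat_lit 0) (p (nat_lit 0x8000080000000068786058a) (nat_lit 0) (p (nat_lit 0x10687058502)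 (nat_lit 0) (p (nat_lit 0x8606850482) (nat_lit 0) (p (nat_lit 0x160004) (nat_lit 0) (p (nat_lit 0x68612) (nat_lit 0) (p (nat_lit 0x50592) (nat_lit 0) (p (nat_lit 0x40512) (nat_lit 0) (p (nat_lit 0x50312) (nat_lit 0) (p (nat_lit 0x38292) (nat_lit 0) (p (nat_lit 0x28212) (nat_lit 0) (p (nat_lit 0x38112) (nat_lit 0) (p (nat_lit 0x20092) (nat_lit 0) (p (nat_lit 0x10012) (nat_lit 0) pn)))))))))))))))))))))))))))) :=
  Cl.node (nat_lit 0x101) (nat_lit 2) (by decide +kernel) (ClAll.succ (ClAll.succ ClAll.zero s358) n384)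

def n468 : Cl (O (nat_lit 6)) (R (nat_lit 143633))
    (p (nat_lit 0x380c2) (nat_lit 0) (p (nat_lit 0x44c2a) (nat_lit 1) (p (nat_lit 0x109) (nat_lit 0) (p (nat_lit 0x101) (nat_lit 0) (p (nat_lit 0x81) (nat_lit 1) (p (nat_lit 0xc1) (nat_lit 1) (p (nat_lit 0x119) (nat_lit 1) (p (nat_lit 0xd1) (nat_lit 0) (p (nat_lit 0x89) (nat_lit 0) (p (nat_lit 0x41) (nat_lit 0) (p (nat_lit 0x10a898a08881a) (nat_lit 0) (p (nat_lit 0x8a090988079a) (nat_lit 0) (p (nat_lit 0x108088907871a) (nat_lit 0) (p (nat_lit 0x87880887069a) (nat_lit 0) (p (nat_lit 0x8000080000000088806860a) (nat_lit 0) (p (nat_lit 0x8000080000000068786058a) (nat_lit 0) (p (nat_lit 0x10687058502) (nat_lit 0) (p (nat_lit 0x8606850482) (nat_lit 0) (p (nat_lit 0x160004) (nat_lit 0) (p (nat_lit 0x68612) (nat_lit 0) (p (nat_lit 0x50592) (nat_lit 0) (p (nat_lit 0x40512) (nat_lit 0) (p (nat_lit 0x50312) (nat_lit 0) (p (nat_lit 0x38292)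 (nat_lit 0) (p (nat_lit 0x28212) (nat_lit 0) (p (nat_lit 0x38112) (nat_lit 0) (p (nat_lit 0x20092) (nat_lit 0) (p (nat_lit 0x10012) (nat_lit 0) pn)))))))))))))))))))))))))))) :=
  Cl.node (nat_lit 0xb0004) (nat_lit 2) (by decide +kernel) (ClAll.succ (ClAll.succ ClAll.zero n385) s373)

def n469 : Cl (O (nat_lit 6)) (R (nat_lit 143633))
    (p (nat_lit 0x380c2) (nat_lit 0) (p (nat_lit 0x444aa) (nat_lit 7) (p (nat_lit 0x109) (nat_lit 1) (p (nat_lit 0x101) (nat_lit 0) (p (nat_lit 0x81) (nat_lit 1) (p (nat_lit 0xc1) (nat_lit 1) (p (nat_lit 0x119) (nat_lit 1) (p (nat_lit 0xd1) (nat_lit 0) (p (nat_lit 0x89) (nat_lit 0) (p (nat_lit 0x41) (nat_lit 0) (p (nat_lit 0x10a898a08881a) (nat_lit 0) (p (nat_lit 0x8a090988079a) (nat_lit 0) (p (nat_lit 0x108088907871a) (nat_lit 0) (p (nat_lit 0x87880887069a) (nat_lit 0) (p (nat_lit 0x8000080000000088806860a) (nat_lit 0) (p (nat_lit 0x8000080000000068786058a)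 (nat_lit 0) (p (nat_lit 0x10687058502) (nat_lit 0) (p (nat_lit 0x8606850482) (nat_lit 0) (p (nat_lit 0x160004) (nat_lit 0) (p (nat_lit 0x68612) (nat_lit 0) (p (nat_lit 0x50592) (nat_lit 0) (p (nat_lit 0x40512) (nat_lit 0) (p (nat_lit 0x50312) (nat_lit 0) (p (nat_lit 0x38292) (nat_lit 0) (p (nat_lit 0x28212) (nat_lit 0) (p (nat_lit 0x38112) (nat_lit 0) (p (nat_lit 0x20092) (nat_lit 0) (p (nat_lit 0x10012) (nat_lit 0) pn)))))))))))))))))))))))))))) :=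
  Cl.node (nat_lit 0xb0004) (nat_lit 2) (by decide +kernel) (ClAll.succ (ClAll.succ ClAll.zero n386) s405)

def n470 : Cl (O (nat_lit 6)) (R (nat_lit 143633))
    (p (nat_lit 0x380c2) (nat_lit 1) (p (nat_lit 0x444aa) (nat_lit 7) (p (nat_lit 0x109) (nat_lit 1) (p (nat_lit 0x101) (nat_lit 0) (p (nat_lit 0x81) (nat_lit 1) (p (nat_lit 0xc1) (nat_lit 1) (p (nat_lit 0x119) (nat_lit 1) (p (nat_lit 0xd1) (nat_lit 0) (p (nat_lit 0x89) (nat_lit 0) (p (nat_lit 0x41) (nat_lit 0) (p (nat_lit 0x10a898a08881a) (nat_lit 0) (p (nat_lit 0x8a090988079a) (nat_lit 0) (p (nat_lit 0x108088907871a) (nat_lit 0) (p (nat_lit 0x87880887069a) (nat_lit 0) (p (nat_lit 0x8000080000000088806860a) (nat_lit 0) (p (nat_lit 0x8000080000000068786058a) (nat_lit 0) (p (nat_lit 0x10687058502) (nat_lit 0) (p (nat_lit 0x8606850482) (nat_lit 0) (p (nat_lit 0x160004) (nat_lit 0) (p (nat_lit 0x68612) (nat_lit 0) (p (nat_lit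 0x50592) (nat_lit 0) (p (nat_lit 0x40512) (nat_lit 0) (p (nat_lit 0x50312) (nat_lit 0) (p (nat_lit 0x38292) (nat_lit 0) (p (nat_lit 0x28212) (nat_lit 0) (p (nat_lit 0x38112) (nat_lit 0) (p (nat_lit 0x20092) (nat_lit 0) (p (nat_lit 0x10012) (nat_lit 0) pn)))))))))))))))))))))))))))) :=
  Cl.node (nat_lit 0xb0004) (nat_lit 2) (by decide +kernel) (ClAll.succ (ClAll.succ ClAll.zero n387) n388)

def n471 : Cl (O (nat_lit 6)) (R (nat_lit 143633))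
    (p (nat_lit 0x380c2) (nat_lit 0) (p (nat_lit 0x444aa) (nat_lit 8) (p (nat_lit 0x109) (nat_lit 1) (p (nat_lit 0x101) (nat_lit 0) (p (nat_lit 0x81) (nat_lit 1) (p (nat_lit 0xc1) (nat_lit 1) (p (nat_lit 0x119) (nat_lit 1) (p (nat_lit 0xd1) (nat_lit 0) (p (nat_lit 0x89) (nat_lit 0) (p (nat_lit 0x41) (nat_lit 0) (p (nat_lit 0x10a898a08881a) (nat_lit 0) (p (nat_lit 0x8a090988079a) (nat_lit 0) (p (nat_lit 0x108088907871a) (nat_lit 0) (p (nat_lit 0x87880887069a) (nat_lit 0) (p (nat_lit 0x8000080000000088806860a) (nat_lit 0) (p (nat_lit 0x8000080000000068786058a) (nat_lit 0) (p (nat_lit 0x10687058502) (nat_lit 0) (p (nat_lit 0x8606850482) (nat_lit 0) (p (nat_lit 0x160004) (nat_lit 0) (p (nat_lit 0x68612) (nat_lit 0) (p (nat_lit 0x50592) (nat_lit 0) (p (nat_lit 0x40512) (nat_lit 0) (p (nat_lit 0x50312) (nat_lit 0) (p (nat_lit 0x38292) (nat_lit 0) (p (nat_lit 0x28212) (nat_lit 0) (p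 (nat_lit 0x38112) (nat_lit 0) (p (nat_lit 0x20092) (nat_lit 0) (p (nat_lit 0x10012) (nat_lit 0) pn)))))))))))))))))))))))))))) :=
  Cl.node (nat_lit 0x200014) (nat_lit 2) (by decide +kernel) (ClAll.succ (ClAll.succ ClAll.zero n389) s428)

def n472 : Cl (O (nat_lit 6)) (R (nat_lit 143633))
    (p (nat_lit 0x41) (nat_lit 0) (p (nat_lit 0x200014) (nat_lit 0) (p (nat_lit 0x20000c) (nat_lit 0) (p (nat_lit 0xc1) (nat_lit 1) (p (nat_lit 0x109) (nat_lit 1) (p (nat_lit 0x101) (nat_lit 0) (p (nat_lit 0x111) (nat_lit 0) (p (nat_lit 0xd1) (nat_lit 1) (p (nat_lit 0x89) (nat_lit 0) (p (nat_lit 0x41) (nat_lit 0) (p (nat_lit 0x10a898a08881a) (nat_lit 0) (p (nat_lit 0x8a090988079a) (nat_lit 0) (p (nat_lit 0x108088907871a) (nat_lit 0) (p (nat_lit 0x87880887069a) (nat_lit 0) (p (nat_lit 0x8000080000000088806860a) (nat_lit 0) (p (nat_lit 0x8000080000000068786058a) (nat_lit 0) (p (nat_lit 0x10687058502)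 (nat_lit 0) (p (nat_lit 0x8606850482) (nat_lit 0) (p (nat_lit 0x160004) (nat_lit 0) (p (nat_lit 0x68612) (nat_lit 0) (p (nat_lit 0x50592) (nat_lit 0) (p (nat_lit 0x40512) (nat_lit 0) (p (nat_lit 0x50312) (nat_lit 0) (p (nat_lit 0x38292) (nat_lit 0) (p (nat_lit 0x28212) (nat_lit 0) (p (nat_lit 0x38112) (nat_lit 0) (p (nat_lit 0x20092) (nat_lit 0) (p (nat_lit 0x10012) (nat_lit 0) pn)))))))))))))))))))))))))))) :=
  Cl.node (nat_lit 0x3cc2a) (nat_lit 12) (by decide +kernel) (ClAll.succ (ClAll.succ (ClAll.succ (ClAll.succ (ClAll.succ (ClAll.succ (ClAll.succ (ClAll.succ (ClAll.succ (ClAll.succ (ClAll.succ (ClAll.succ ClAll.zero s450) s451) s452) s453) s454) s455) s456) s457) s458) s459) s460) s461)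

def n473 : Cl (O (nat_lit 6)) (R (nat_lit 143633))
    (p (nat_lit 0x41) (nat_lit 1) (p (nat_lit 0x200014) (nat_lit 0) (p (nat_lit 0x20000c) (nat_lit 0) (p (nat_lit 0xc1) (nat_lit 1) (p (nat_lit 0x109) (nat_lit 1) (p (nat_lit 0x101) (nat_lit 0) (p (nat_lit 0x111) (nat_lit 0) (p (nat_lit 0xd1) (nat_lit 1) (p (nat_lit 0x89) (nat_lit 0) (p (nat_lit 0x41) (nat_lit 0) (p (nat_lit 0x10a898a08881a) (nat_lit 0) (p (nat_lit 0x8a090988079a) (nat_lit 0) (p (nat_lit 0x108088907871a) (nat_lit 0) (p (nat_lit 0x87880887069a) (nat_lit 0) (p (nat_lit 0x8000080000000088806860a) (nat_lit 0) (p (nat_lit 0x8000080000000068786058a) (nat_lit 0) (p (nat_lit 0x10687058502) (nat_lit 0) (p (nat_lit 0x8606850482) (nat_lit 0) (p (nat_lit 0x160004) (nat_lit 0) (p (nat_lit 0x68612) (nat_lit 0) (p (nat_lit 0x50592) (nat_lit 0) (p (nat_lit 0x40512) (nat_lit 0) (p (nat_lit 0x50312) (nat_lit 0) (p (nat_lit 0x38292)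 (nat_lit 0) (p (nat_lit 0x28212) (nat_lit 0) (p (nat_lit 0x38112) (nat_lit 0) (p (nat_lit 0x20092) (nat_lit 0) (p (nat_lit 0x10012) (nat_lit 0) pn)))))))))))))))))))))))))))) :=
  Cl.node (nat_lit 0x4c42a) (nat_lit 12) (by decide +kernel) (ClAll.succ (ClAll.succ (ClAll.succ (ClAll.succ (ClAll.succ (ClAll.succ (ClAll.succ (ClAll.succ (ClAll.succ (ClAll.succ (ClAll.succ (ClAll.succ ClAll.zero s462) s463) s464) s465) s466) s467) s468) s469) s470) s471) s472) s473)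

def n474 : Cl (O (nat_lit 6)) (R (nat_lit 143633))
    (p (nat_lit 0x109) (nat_lit 0) (p (nat_lit 0x200014) (nat_lit 0) (p (nat_lit 0x20000c) (nat_lit 0) (p (nat_lit 0x119) (nat_lit 0) (p (nat_lit 0x81) (nat_lit 0) (p (nat_lit 0x101) (nat_lit 1) (p (nat_lit 0x111) (nat_lit 0) (p (nat_lit 0xd1) (nat_lit 1) (p (nat_lit 0x89) (nat_lit 0) (p (nat_lit 0x41) (nat_lit 0) (p (nat_lit 0x10a898a08881a) (nat_lit 0) (p (nat_lit 0x8a090988079a) (nat_lit 0) (p (nat_lit 0x108088907871a) (nat_lit 0) (p (nat_lit 0x87880887069a) (nat_lit 0) (p (nat_lit 0x8000080000000088806860a) (nat_lit 0) (p (nat_lit 0x8000080000000068786058a) (nat_lit 0) (p (nat_lit 0x10687058502) (nat_lit 0) (p (nat_lit 0x8606850482) (nat_lit 0) (p (nat_lit 0x160004) (nat_lit 0) (p (nat_lit 0x68612) (nat_lit 0) (p (nat_lit 0x50592) (nat_lit 0) (p (nat_lit 0x40512) (nat_lit 0) (p (nat_lit 0x50312) (nat_lit 0) (p (nat_lit 0x38292)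 (nat_lit 0) (p (nat_lit 0x28212) (nat_lit 0) (p (nat_lit 0x38112) (nat_lit 0) (p (nat_lit 0x20092) (nat_lit 0) (p (nat_lit 0x10012) (nat_lit 0) pn)))))))))))))))))))))))))))) :=
  Cl.node (nat_lit 0x4c42a) (nat_lit 12) (by decide +kernel) (ClAll.succ (ClAll.succ (ClAll.succ (ClAll.succ (ClAll.succ (ClAll.succ (ClAll.succ (ClAll.succ (ClAll.succ (ClAll.succ (ClAll.succ (ClAll.succ ClAll.zero s478) s479) n390) s500) s501) s502) s503) s504) s505) s506) s507) s508)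

def n475 : Cl (O (nat_lit 6)) (R (nat_lit 143633))
    (p (nat_lit 0x109) (nat_lit 1) (p (nat_lit 0x200014) (nat_lit 0) (p (nat_lit 0x20000c) (nat_lit 0) (p (nat_lit 0x119) (nat_lit 0) (p (nat_lit 0x81) (nat_lit 0) (p (nat_lit 0x101) (nat_lit 1) (p (nat_lit 0x111) (nat_lit 0) (p (nat_lit 0xd1) (nat_lit 1) (p (nat_lit 0x89) (nat_lit 0) (p (nat_lit 0x41) (nat_lit 0) (p (nat_lit 0x10a898a08881a) (nat_lit 0) (p (nat_lit 0x8a090988079a) (nat_lit 0) (p (nat_lit 0x108088907871a) (nat_lit 0) (p (nat_lit 0x87880887069a) (nat_lit 0) (p (nat_lit 0x8000080000000088806860a) (nat_lit 0) (p (nat_lit 0x8000080000000068786058a) (nat_lit 0) (p (nat_lit 0x10687058502) (nat_lit 0) (p (nat_lit 0x8606850482) (nat_lit 0) (p (nat_lit 0x160004) (nat_lit 0) (p (nat_lit 0x68612) (nat_lit 0) (p (nat_lit 0x50592) (nat_lit 0) (p (nat_lit 0x40512) (nat_lit 0) (p (nat_lit 0x50312) (nat_lit 0) (p (nat_lit 0x38292)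 (nat_lit 0) (p (nat_lit 0x28212) (nat_lit 0) (p (nat_lit 0x38112) (nat_lit 0) (p (nat_lit 0x20092) (nat_lit 0) (p (nat_lit 0x10012) (nat_lit 0) pn)))))))))))))))))))))))))))) :=
  Cl.node (nat_lit 0x3cc2a) (nat_lit 12) (by decide +kernel) (ClAll.succ (ClAll.succ (ClAll.succ (ClAll.succ (ClAll.succ (ClAll.succ (ClAll.succ (ClAll.succ (ClAll.succ (ClAll.succ (ClAll.succ (ClAll.succ ClAll.zero s509) s510) s511) s512) s513) s514) s515) s516) s517) s518) s519) s520)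

def n476 : Cl (O (nat_lit 6)) (R (nat_lit 143633))
    (p (nat_lit 0x200014) (nat_lit 0) (p (nat_lit 0xb0004) (nat_lit 0) (p (nat_lit 0x20000c) (nat_lit 1) (p (nat_lit 0x119) (nat_lit 0) (p (nat_lit 0x81) (nat_lit 0) (p (nat_lit 0x101) (nat_lit 1) (p (nat_lit 0x111) (nat_lit 0) (p (nat_lit 0xd1) (nat_lit 1) (p (nat_lit 0x89) (nat_lit 0) (p (nat_lit 0x41) (nat_lit 0) (p (nat_lit 0x10a898a08881a) (nat_lit 0) (p (nat_lit 0x8a090988079a) (nat_lit 0) (p (nat_lit 0x108088907871a) (nat_lit 0) (p (nat_lit 0x87880887069a) (nat_lit 0) (p (nat_lit 0x8000080000000088806860a) (nat_lit 0) (p (nat_lit 0x8000080000000068786058a) (nat_lit 0) (p (nat_lit 0x10687058502) (nat_lit 0) (p (nat_lit 0x8606850482) (nat_lit 0) (p (nat_lit 0x160004) (nat_lit 0) (p (nat_lit 0x68612) (nat_lit 0) (p (nat_lit 0x50592) (nat_lit 0) (p (nat_lit 0x40512) (nat_lit 0) (p (nat_lit 0x50312) (nat_lit 0) (p (nat_lit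 0x38292) (nat_lit 0) (p (nat_lit 0x28212) (nat_lit 0) (p (nat_lit 0x38112) (nat_lit 0) (p (nat_lit 0x20092) (nat_lit 0) (p (nat_lit 0x10012) (nat_lit 0) pn)))))))))))))))))))))))))))) :=
  Cl.node (nat_lit 0x109) (nat_lit 2) (by decide +kernel) (ClAll.succ (ClAll.succ ClAll.zero s522) s523)

def n477 : Cl (O (nat_lit 6)) (R (nat_lit 143633))
    (p (nat_lit 0x380c2) (nat_lit 0) (p (nat_lit 0x444aa) (nat_lit 7) (p (nat_lit 0x119) (nat_lit 0) (p (nat_lit 0xc1) (nat_lit 0) (p (nat_lit 0x81) (nat_lit 1) (p (nat_lit 0x101) (nat_lit 1) (p (nat_lit 0x111) (nat_lit 0) (p (nat_lit 0xd1) (nat_lit 1) (p (nat_lit 0x89) (nat_lit 0) (p (nat_lit 0x41) (nat_lit 0) (p (nat_lit 0x10a898a08881a) (nat_lit 0) (p (nat_lit 0x8a090988079a) (nat_lit 0) (p (nat_lit 0x108088907871a) (nat_lit 0) (p (nat_lit 0x87880887069a) (nat_lit 0) (p (nat_lit 0x8000080000000088806860a) (nat_lit 0) (p (nat_lit 0x8000080000000068786058a)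 (nat_lit 0) (p (nat_lit 0x10687058502) (nat_lit 0) (p (nat_lit 0x8606850482) (nat_lit 0) (p (nat_lit 0x160004) (nat_lit 0) (p (nat_lit 0x68612) (nat_lit 0) (p (nat_lit 0x50592) (nat_lit 0) (p (nat_lit 0x40512) (nat_lit 0) (p (nat_lit 0x50312) (nat_lit 0) (p (nat_lit 0x38292) (nat_lit 0) (p (nat_lit 0x28212) (nat_lit 0) (p (nat_lit 0x38112) (nat_lit 0) (p (nat_lit 0x20092) (nat_lit 0) (p (nat_lit 0x10012) (nat_lit 0) pn)))))))))))))))))))))))))))) :=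
  Cl.node (nat_lit 0xc9) (nat_lit 2) (by decide +kernel) (ClAll.succ (ClAll.succ ClAll.zero n391) s557)

def n478 : Cl (O (nat_lit 6)) (R (nat_lit 143633))
    (p (nat_lit 0x380c2) (nat_lit 1) (p (nat_lit 0x444aa) (nat_lit 7) (p (nat_lit 0x119) (nat_lit 0) (p (nat_lit 0xc1) (nat_lit 0) (p (nat_lit 0x81) (nat_lit 1) (p (nat_lit 0x101) (nat_lit 1) (p (nat_lit 0x111) (nat_lit 0) (p (nat_lit 0xd1) (nat_lit 1) (p (nat_lit 0x89) (nat_lit 0) (p (nat_lit 0x41) (nat_lit 0) (p (nat_lit 0x10a898a08881a) (nat_lit 0) (p (nat_lit 0x8a090988079a) (nat_lit 0) (p (nat_lit 0x108088907871a) (nat_lit 0) (p (nat_lit 0x87880887069a) (nat_lit 0) (p (nat_lit 0x8000080000000088806860a) (nat_lit 0) (p (nat_lit 0x8000080000000068786058a) (nat_lit 0) (p (nat_lit 0x10687058502) (nat_lit 0) (p (nat_lit 0x8606850482) (nat_lit 0) (p (nat_lit 0x160004) (nat_lit 0) (p (nat_lit 0x68612) (nat_lit 0) (p (nat_lit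 0x50592) (nat_lit 0) (p (nat_lit 0x40512) (nat_lit 0) (p (nat_lit 0x50312) (nat_lit 0) (p (nat_lit 0x38292) (nat_lit 0) (p (nat_lit 0x28212) (nat_lit 0) (p (nat_lit 0x38112) (nat_lit 0) (p (nat_lit 0x20092) (nat_lit 0) (p (nat_lit 0x10012) (nat_lit 0) pn)))))))))))))))))))))))))))) :=
  Cl.node (nat_lit 0xb0004) (nat_lit 2) (by decide +kernel) (ClAll.succ (ClAll.succ ClAll.zero n392) s584)

def n479 : Cl (O (nat_lit 6)) (R (nat_lit 143633))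
    (p (nat_lit 0x380c2) (nat_lit 1) (p (nat_lit 0x444aa) (nat_lit 8) (p (nat_lit 0x119) (nat_lit 0) (p (nat_lit 0xc1) (nat_lit 0) (p (nat_lit 0x81) (nat_lit 1) (p (nat_lit 0x101) (nat_lit 1) (p (nat_lit 0x111) (nat_lit 0) (p (nat_lit 0xd1) (nat_lit 1) (p (nat_lit 0x89) (nat_lit 0) (p (nat_lit 0x41) (nat_lit 0) (p (nat_lit 0x10a898a08881a) (nat_lit 0) (p (nat_lit 0x8a090988079a) (nat_lit 0) (p (nat_lit 0x108088907871a) (nat_lit 0) (p (nat_lit 0x87880887069a) (nat_lit 0) (p (nat_lit 0x8000080000000088806860a) (nat_lit 0) (p (nat_lit 0x8000080000000068786058a) (nat_lit 0) (p (nat_lit 0x10687058502) (nat_lit 0) (p (nat_lit 0x8606850482) (nat_lit 0) (p (nat_lit 0x160004) (nat_lit 0) (p (nat_lit 0x68612) (nat_lit 0) (p (nat_lit 0x50592) (nat_lit 0) (p (nat_lit 0x40512) (nat_lit 0) (p (nat_lit 0x50312) (nat_lit 0) (p (nat_lit 0x38292) (nat_lit 0) (p (nat_lit 0x28212) (nat_lit 0) (p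 (nat_lit 0x38112) (nat_lit 0) (p (nat_lit 0x20092) (nat_lit 0) (p (nat_lit 0x10012) (nat_lit 0) pn)))))))))))))))))))))))))))) :=
  Cl.node (nat_lit 0x20000c) (nat_lit 2) (by decide +kernel) (ClAll.succ (ClAll.succ ClAll.zero n393) s592)

def n480 : Cl (O (nat_lit 6)) (R (nat_lit 143633))
    (p (nat_lit 0x380c2) (nat_lit 0) (p (nat_lit 0x444aa) (nat_lit 7) (p (nat_lit 0xd1) (nat_lit 1) (p (nat_lit 0x111) (nat_lit 1) (p (nat_lit 0x109) (nat_lit 0) (p (nat_lit 0x101) (nat_lit 0) (p (nat_lit 0x119) (nat_lit 0) (p (nat_lit 0xc9) (nat_lit 0) (p (nat_lit 0x89) (nat_lit 1) (p (nat_lit 0x41) (nat_lit 0) (p (nat_lit 0x10a898a08881a) (nat_lit 0) (p (nat_lit 0x8a090988079a) (nat_lit 0) (p (nat_lit 0x108088907871a) (nat_lit 0) (p (nat_lit 0x87880887069a) (nat_lit 0) (p (nat_lit 0x8000080000000088806860a) (nat_lit 0) (p (nat_lit 0x8000080000000068786058a) (nat_lit 0) (p (nat_lit 0x10687058502)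 (nat_lit 0) (p (nat_lit 0x8606850482) (nat_lit 0) (p (nat_lit 0x160004) (nat_lit 0) (p (nat_lit 0x68612) (nat_lit 0) (p (nat_lit 0x50592) (nat_lit 0) (p (nat_lit 0x40512) (nat_lit 0) (p (nat_lit 0x50312) (nat_lit 0) (p (nat_lit 0x38292) (nat_lit 0) (p (nat_lit 0x28212) (nat_lit 0) (p (nat_lit 0x38112) (nat_lit 0) (p (nat_lit 0x20092) (nat_lit 0) (p (nat_lit 0x10012) (nat_lit 0) pn)))))))))))))))))))))))))))) :=
  Cl.node (nat_lit 0x20000c) (nat_lit 2) (by decide +kernel) (ClAll.succ (ClAll.succ ClAll.zero n394) s674)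

def n481 : Cl (O (nat_lit 6)) (R (nat_lit 143633))
    (p (nat_lit 0x380c2) (nat_lit 1) (p (nat_lit 0x444aa) (nat_lit 7) (p (nat_lit 0xd1) (nat_lit 1) (p (nat_lit 0x111) (nat_lit 1) (p (nat_lit 0x109) (nat_lit 0) (p (nat_lit 0x101) (nat_lit 0) (p (nat_lit 0x119) (nat_lit 0) (p (nat_lit 0xc9) (nat_lit 0) (p (nat_lit 0x89) (nat_lit 1) (p (nat_lit 0x41) (nat_lit 0) (p (nat_lit 0x10a898a08881a) (nat_lit 0) (p (nat_lit 0x8a090988079a) (nat_lit 0) (p (nat_lit 0x108088907871a) (nat_lit 0) (p (nat_lit 0x87880887069a) (nat_lit 0) (p (nat_lit 0x8000080000000088806860a) (nat_lit 0) (p (nat_lit 0x8000080000000068786058a) (nat_lit 0) (p (nat_lit 0x10687058502) (nat_lit 0) (p (nat_lit 0x8606850482) (nat_lit 0) (p (nat_lit 0x160004) (nat_lit 0) (p (nat_lit 0x68612) (nat_lit 0) (p (nat_lit 0x50592) (nat_lit 0) (p (nat_lit 0x40512) (nat_lit 0) (p (nat_lit 0x50312) (nat_lit 0) (p (nat_lit 0x38292)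 (nat_lit 0) (p (nat_lit 0x28212) (nat_lit 0) (p (nat_lit 0x38112) (nat_lit 0) (p (nat_lit 0x20092) (nat_lit 0) (p (nat_lit 0x10012) (nat_lit 0) pn)))))))))))))))))))))))))))) :=
  Cl.node (nat_lit 0xb0004) (nat_lit 2) (by decide +kernel) (ClAll.succ (ClAll.succ ClAll.zero n395) n396)

def n482 : Cl (O (nat_lit 6)) (R (nat_lit 143633))
    (p (nat_lit 0x41) (nat_lit 0) (p (nat_lit 0x200014) (nat_lit 0) (p (nat_lit 0x20000c) (nat_lit 0) (p (nat_lit 0xd1) (nat_lit 0) (p (nat_lit 0x109) (nat_lit 1) (p (nat_lit 0x101) (nat_lit 0) (p (nat_lit 0x119) (nat_lit 0) (p (nat_lit 0xc9) (nat_lit 0) (p (nat_lit 0x89) (nat_lit 1) (p (nat_lit 0x41) (nat_lit 0) (p (nat_lit 0x10a898a08881a) (nat_lit 0) (p (nat_lit 0x8a090988079a) (nat_lit 0) (p (nat_lit 0x108088907871a) (nat_lit 0) (p (nat_lit 0x87880887069a) (nat_lit 0) (p (nat_lit 0x8000080000000088806860a) (nat_lit 0) (p (nat_lit 0x8000080000000068786058a)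 (nat_lit 0) (p (nat_lit 0x10687058502) (nat_lit 0) (p (nat_lit 0x8606850482) (nat_lit 0) (p (nat_lit 0x160004) (nat_lit 0) (p (nat_lit 0x68612) (nat_lit 0) (p (nat_lit 0x50592) (nat_lit 0) (p (nat_lit 0x40512) (nat_lit 0) (p (nat_lit 0x50312) (nat_lit 0) (p (nat_lit 0x38292) (nat_lit 0) (p (nat_lit 0x28212) (nat_lit 0) (p (nat_lit 0x38112) (nat_lit 0) (p (nat_lit 0x20092) (nat_lit 0) (p (nat_lit 0x10012) (nat_lit 0) pn)))))))))))))))))))))))))))) :=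
  Cl.node (nat_lit 0x44c2a) (nat_lit 12) (by decide +kernel) (ClAll.succ (ClAll.succ (ClAll.succ (ClAll.succ (ClAll.succ (ClAll.succ (ClAll.succ (ClAll.succ (ClAll.succ (ClAll.succ (ClAll.succ (ClAll.succ ClAll.zero n397) n398) s705) s706) s707) s708) s709) s710) s711) s712) s713) s714)

def n483 : Cl (O (nat_lit 6)) (R (nat_lit 143633))
    (p (nat_lit 0xb0004) (nat_lit 0) (p (nat_lit 0x380c2) (nat_lit 0) (p (nat_lit 0x444aa) (nat_lit 7) (p (nat_lit 0xd1) (nat_lit 1) (p (nat_lit 0x109) (nat_lit 1) (p (nat_lit 0x101) (nat_lit 0) (p (nat_lit 0x119) (nat_lit 0) (p (nat_lit 0xc9) (nat_lit 0) (p (nat_lit 0x89) (nat_lit 1) (p (nat_lit 0x41) (nat_lit 0) (p (nat_lit 0x10a898a08881a) (nat_lit 0) (p (nat_lit 0x8a090988079a) (nat_lit 0) (p (nat_lit 0x108088907871a) (nat_lit 0) (p (nat_lit 0x87880887069a) (nat_lit 0) (p (nat_lit 0x8000080000000088806860a) (nat_lit 0) (p (nat_lit 0x8000080000000068786058a)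 (nat_lit 0) (p (nat_lit 0x10687058502) (nat_lit 0) (p (nat_lit 0x8606850482) (nat_lit 0) (p (nat_lit 0x160004) (nat_lit 0) (p (nat_lit 0x68612) (nat_lit 0) (p (nat_lit 0x50592) (nat_lit 0) (p (nat_lit 0x40512) (nat_lit 0) (p (nat_lit 0x50312) (nat_lit 0) (p (nat_lit 0x38292) (nat_lit 0) (p (nat_lit 0x28212) (nat_lit 0) (p (nat_lit 0x38112) (nat_lit 0) (p (nat_lit 0x20092) (nat_lit 0) (p (nat_lit 0x10012) (nat_lit 0) pn)))))))))))))))))))))))))))) :=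
  Cl.node (nat_lit 0xc1) (nat_lit 2) (by decide +kernel) (ClAll.succ (ClAll.succ ClAll.zero n399) s744)

def n484 : Cl (O (nat_lit 6)) (R (nat_lit 143633))
    (p (nat_lit 0xb0004) (nat_lit 1) (p (nat_lit 0x380c2) (nat_lit 0) (p (nat_lit 0x444aa) (nat_lit 7) (p (nat_lit 0xd1) (nat_lit 1) (p (nat_lit 0x109) (nat_lit 1) (p (nat_lit 0x101) (nat_lit 0) (p (nat_lit 0x119) (nat_lit 0) (p (nat_lit 0xc9) (nat_lit 0) (p (nat_lit 0x89) (nat_lit 1) (p (nat_lit 0x41) (nat_lit 0) (p (nat_lit 0x10a898a08881a) (nat_lit 0) (p (nat_lit 0x8a090988079a) (nat_lit 0) (p (nat_lit 0x108088907871a) (nat_lit 0) (p (nat_lit 0x87880887069a) (nat_lit 0) (p (nat_lit 0x8000080000000088806860a) (nat_lit 0) (p (nat_lit 0x8000080000000068786058a) (nat_lit 0) (p (nat_lit 0x10687058502) (nat_lit 0) (p (nat_lit 0x8606850482) (nat_lit 0) (p (nat_lit 0x160004) (nat_lit 0) (p (nat_lit 0x68612) (nat_lit 0) (p (nat_lit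 0x50592) (nat_lit 0) (p (nat_lit 0x40512) (nat_lit 0) (p (nat_lit 0x50312) (nat_lit 0) (p (nat_lit 0x38292) (nat_lit 0) (p (nat_lit 0x28212) (nat_lit 0) (p (nat_lit 0x38112) (nat_lit 0) (p (nat_lit 0x20092) (nat_lit 0) (p (nat_lit 0x10012) (nat_lit 0) pn)))))))))))))))))))))))))))) :=
  Cl.node (nat_lit 0x1fc00c) (nat_lit 2) (by decide +kernel) (ClAll.succ (ClAll.succ ClAll.zero n400) s763)

def n485 : Cl (O (nat_lit 6)) (R (nat_lit 143633))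
    (p (nat_lit 0xb0004) (nat_lit 0) (p (nat_lit 0x380c2) (nat_lit 1) (p (nat_lit 0x444aa) (nat_lit 7) (p (nat_lit 0xd1) (nat_lit 1) (p (nat_lit 0x109) (nat_lit 1) (p (nat_lit 0x101) (nat_lit 0) (p (nat_lit 0x119) (nat_lit 0) (p (nat_lit 0xc9) (nat_lit 0) (p (nat_lit 0x89) (nat_lit 1) (p (nat_lit 0x41) (nat_lit 0) (p (nat_lit 0x10a898a08881a) (nat_lit 0) (p (nat_lit 0x8a090988079a) (nat_lit 0) (p (nat_lit 0x108088907871a) (nat_lit 0) (p (nat_lit 0x87880887069a) (nat_lit 0) (p (nat_lit 0x8000080000000088806860a) (nat_lit 0) (p (nat_lit 0x8000080000000068786058a) (nat_lit 0) (p (nat_lit 0x10687058502) (nat_lit 0) (p (nat_lit 0x8606850482) (nat_lit 0) (p (nat_lit 0x160004) (nat_lit 0) (p (nat_lit 0x68612) (nat_lit 0) (p (nat_lit 0x50592) (nat_lit 0) (p (nat_lit 0x40512) (nat_lit 0) (p (nat_lit 0x50312) (nat_lit 0) (p (nat_lit 0x38292) (nat_lit 0) (p (nat_lit 0x28212) (nat_lit 0)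 (p (nat_lit 0x38112) (nat_lit 0) (p (nat_lit 0x20092) (nat_lit 0) (p (nat_lit 0x10012) (nat_lit 0) pn)))))))))))))))))))))))))))) :=
  Cl.node (nat_lit 0xc1) (nat_lit 2) (by decide +kernel) (ClAll.succ (ClAll.succ ClAll.zero n401) s797)

def n486 : Cl (O (nat_lit 6)) (R (nat_lit 143633))
    (p (nat_lit 0xb0004) (nat_lit 1) (p (nat_lit 0x380c2) (nat_lit 1) (p (nat_lit 0x444aa) (nat_lit 7) (p (nat_lit 0xd1) (nat_lit 1) (p (nat_lit 0x109) (nat_lit 1) (p (nat_lit 0x101) (nat_lit 0) (p (nat_lit 0x119) (nat_lit 0) (p (nat_lit 0xc9) (nat_lit 0) (p (nat_lit 0x89) (nat_lit 1) (p (nat_lit 0x41) (nat_lit 0) (p (nat_lit 0x10a898a08881a) (nat_lit 0) (p (nat_lit 0x8a090988079a) (nat_lit 0) (p (nat_lit 0x108088907871a) (nat_lit 0) (p (nat_lit 0x87880887069a) (nat_lit 0) (p (nat_lit 0x8000080000000088806860a) (nat_lit 0) (p (nat_lit 0x8000080000000068786058a) (nat_lit 0) (p (nat_lit 0x10687058502)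 (nat_lit 0) (p (nat_lit 0x8606850482) (nat_lit 0) (p (nat_lit 0x160004) (nat_lit 0) (p (nat_lit 0x68612) (nat_lit 0) (p (nat_lit 0x50592) (nat_lit 0) (p (nat_lit 0x40512) (nat_lit 0) (p (nat_lit 0x50312) (nat_lit 0) (p (nat_lit 0x38292) (nat_lit 0) (p (nat_lit 0x28212) (nat_lit 0) (p (nat_lit 0x38112) (nat_lit 0) (p (nat_lit 0x20092) (nat_lit 0) (p (nat_lit 0x10012) (nat_lit 0) pn)))))))))))))))))))))))))))) :=
  Cl.node (nat_lit 0x1fc00c) (nat_lit 2) (by decide +kernel) (ClAll.succ (ClAll.succ ClAll.zero n402) s803)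

def n487 : Cl (O (nat_lit 6)) (R (nat_lit 143633))
    (p (nat_lit 0x109) (nat_lit 0) (p (nat_lit 0x200014) (nat_lit 0) (p (nat_lit 0x20000c) (nat_lit 0) (p (nat_lit 0xd1) (nat_lit 0) (p (nat_lit 0xc1) (nat_lit 0) (p (nat_lit 0x101) (nat_lit 1) (p (nat_lit 0x119) (nat_lit 0) (p (nat_lit 0xc9) (nat_lit 0) (p (nat_lit 0x89) (nat_lit 1) (p (nat_lit 0x41) (nat_lit 0) (p (nat_lit 0x10a898a08881a) (nat_lit 0) (p (nat_lit 0x8a090988079a) (nat_lit 0) (p (nat_lit 0x108088907871a) (nat_lit 0) (p (nat_lit 0x87880887069a) (nat_lit 0) (p (nat_lit 0x8000080000000088806860a) (nat_lit 0) (p (nat_lit 0x8000080000000068786058a) (nat_lit 0) (p (nat_lit 0x10687058502) (nat_lit 0) (p (nat_lit 0x8606850482) (nat_lit 0) (p (nat_lit 0x160004) (nat_lit 0) (p (nat_lit 0x68612) (nat_lit 0) (p (nat_lit 0x50592) (nat_lit 0) (p (nat_lit 0x40512) (nat_lit 0) (p (nat_lit 0x50312) (nat_lit 0) (p (nat_lit 0x38292)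 (nat_lit 0) (p (nat_lit 0x28212) (nat_lit 0) (p (nat_lit 0x38112) (nat_lit 0) (p (nat_lit 0x20092) (nat_lit 0) (p (nat_lit 0x10012) (nat_lit 0) pn)))))))))))))))))))))))))))) :=
  Cl.node (nat_lit 0x4c42a) (nat_lit 12) (by decide +kernel) (ClAll.succ (ClAll.succ (ClAll.succ (ClAll.succ (ClAll.succ (ClAll.succ (ClAll.succ (ClAll.succ (ClAll.succ (ClAll.succ (ClAll.succ (ClAll.succ ClAll.zero s808) s809) s810) s811) s812) s813) s814) s815) s816) s817) s818) s819)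

def n488 : Cl (O (nat_lit 6)) (R (nat_lit 143633))
    (p (nat_lit 0x109) (nat_lit 1) (p (nat_lit 0x200014) (nat_lit 0) (p (nat_lit 0x20000c) (nat_lit 0) (p (nat_lit 0xd1) (nat_lit 0) (p (nat_lit 0xc1) (nat_lit 0) (p (nat_lit 0x101) (nat_lit 1) (p (nat_lit 0x119) (nat_lit 0) (p (nat_lit 0xc9) (nat_lit 0) (p (nat_lit 0x89) (nat_lit 1) (p (nat_lit 0x41) (nat_lit 0) (p (nat_lit 0x10a898a08881a) (nat_lit 0) (p (nat_lit 0x8a090988079a) (nat_lit 0) (p (nat_lit 0x108088907871a) (nat_lit 0) (p (nat_lit 0x87880887069a) (nat_lit 0) (p (nat_lit 0x8000080000000088806860a) (nat_lit 0) (p (nat_lit 0x8000080000000068786058a) (nat_lit 0) (p (nat_lit 0x10687058502) (nat_lit 0) (p (nat_lit 0x8606850482) (nat_lit 0) (p (nat_lit 0x160004) (nat_lit 0) (p (nat_lit 0x68612) (nat_lit 0) (p (nat_lit 0x50592) (nat_lit 0) (p (nat_lit 0x40512) (nat_lit 0) (p (nat_lit 0x50312) (nat_lit 0) (p (nat_lit 0x38292)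 (nat_lit 0) (p (nat_lit 0x28212) (nat_lit 0) (p (nat_lit 0x38112) (nat_lit 0) (p (nat_lit 0x20092) (nat_lit 0) (p (nat_lit 0x10012) (nat_lit 0) pn)))))))))))))))))))))))))))) :=
  Cl.node (nat_lit 0x44c2a) (nat_lit 12) (by decide +kernel) (ClAll.succ (ClAll.succ (ClAll.succ (ClAll.succ (ClAll.succ (ClAll.succ (ClAll.succ (ClAll.succ (ClAll.succ (ClAll.succ (ClAll.succ (ClAll.succ ClAll.zero n403) n404) s846) s847) s848) s849) s850) s851) s852) s853) s854) s855)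

def n489 : Cl (O (nat_lit 6)) (R (nat_lit 143633))
    (p (nat_lit 0xb0004) (nat_lit 0) (p (nat_lit 0x380c2) (nat_lit 0) (p (nat_lit 0x444aa) (nat_lit 7) (p (nat_lit 0xd1) (nat_lit 1) (p (nat_lit 0xc1) (nat_lit 0) (p (nat_lit 0x101) (nat_lit 1) (p (nat_lit 0x119) (nat_lit 0) (p (nat_lit 0xc9) (nat_lit 0) (p (nat_lit 0x89) (nat_lit 1) (p (nat_lit 0x41) (nat_lit 0) (p (nat_lit 0x10a898a08881a) (nat_lit 0) (p (nat_lit 0x8a090988079a) (nat_lit 0) (p (nat_lit 0x108088907871a) (nat_lit 0) (p (nat_lit 0x87880887069a) (nat_lit 0) (p (nat_lit 0x8000080000000088806860a) (nat_lit 0) (p (nat_lit 0x8000080000000068786058a) (nat_lit 0) (p (nat_lit 0x10687058502) (nat_lit 0) (p (nat_lit 0x8606850482) (nat_lit 0) (p (nat_lit 0x160004) (nat_lit 0) (p (nat_lit 0x68612) (nat_lit 0) (p (nat_lit 0x50592) (nat_lit 0) (p (nat_lit 0x40512) (nat_lit 0) (p (nat_lit 0x50312) (nat_lit 0) (p (nat_lit 0x38292)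 (nat_lit 0) (p (nat_lit 0x28212) (nat_lit 0) (p (nat_lit 0x38112) (nat_lit 0) (p (nat_lit 0x20092) (nat_lit 0) (p (nat_lit 0x10012) (nat_lit 0) pn)))))))))))))))))))))))))))) :=
  Cl.node (nat_lit 0xc9) (nat_lit 2) (by decide +kernel) (ClAll.succ (ClAll.succ ClAll.zero n405) s879)

def n490 : Cl (O (nat_lit 6)) (R (nat_lit 143633))
    (p (nat_lit 0xb0004) (nat_lit 0) (p (nat_lit 0x380c2) (nat_lit 1) (p (nat_lit 0x444aa) (nat_lit 7) (p (nat_lit 0xd1) (nat_lit 1) (p (nat_lit 0xc1) (nat_lit 0) (p (nat_lit 0x101) (nat_lit 1) (p (nat_lit 0x119) (nat_lit 0) (p (nat_lit 0xc9) (nat_lit 0) (p (nat_lit 0x89) (nat_lit 1) (p (nat_lit 0x41) (nat_lit 0) (p (nat_lit 0x10a898a08881a) (nat_lit 0) (p (nat_lit 0x8a090988079a) (nat_lit 0) (p (nat_lit 0x108088907871a) (nat_lit 0) (p (nat_lit 0x87880887069a) (nat_lit 0) (p (nat_lit 0x8000080000000088806860a) (nat_lit 0) (p (nat_lit 0x8000080000000068786058a)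 (nat_lit 0) (p (nat_lit 0x10687058502) (nat_lit 0) (p (nat_lit 0x8606850482) (nat_lit 0) (p (nat_lit 0x160004) (nat_lit 0) (p (nat_lit 0x68612) (nat_lit 0) (p (nat_lit 0x50592) (nat_lit 0) (p (nat_lit 0x40512) (nat_lit 0) (p (nat_lit 0x50312) (nat_lit 0) (p (nat_lit 0x38292) (nat_lit 0) (p (nat_lit 0x28212) (nat_lit 0) (p (nat_lit 0x38112) (nat_lit 0) (p (nat_lit 0x20092) (nat_lit 0) (p (nat_lit 0x10012) (nat_lit 0) pn)))))))))))))))))))))))))))) :=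
  Cl.node (nat_lit 0xc9) (nat_lit 2) (by decide +kernel) (ClAll.succ (ClAll.succ ClAll.zero n406) s895)

def n491 : Cl (O (nat_lit 6)) (R (nat_lit 143633))
    (p (nat_lit 0xb0004) (nat_lit 0) (p (nat_lit 0x380c2) (nat_lit 0) (p (nat_lit 0x444aa) (nat_lit 7) (p (nat_lit 0x111) (nat_lit 1) (p (nat_lit 0xd1) (nat_lit 1) (p (nat_lit 0xc1) (nat_lit 0) (p (nat_lit 0x119) (nat_lit 1) (p (nat_lit 0xc9) (nat_lit 0) (p (nat_lit 0x89) (nat_lit 1) (p (nat_lit 0x41) (nat_lit 0) (p (nat_lit 0x10a898a08881a) (nat_lit 0) (p (nat_lit 0x8a090988079a) (nat_lit 0) (p (nat_lit 0x108088907871a) (nat_lit 0) (p (nat_lit 0x87880887069a) (nat_lit 0) (p (nat_lit 0x8000080000000088806860a) (nat_lit 0) (p (nat_lit 0x8000080000000068786058a) (nat_lit 0) (p (nat_lit 0x10687058502) (nat_lit 0) (p (nat_lit 0x8606850482) (nat_lit 0) (p (nat_lit 0x160004) (nat_lit 0) (p (nat_lit 0x68612) (nat_lit 0) (p (nat_lit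 0x50592) (nat_lit 0) (p (nat_lit 0x40512) (nat_lit 0) (p (nat_lit 0x50312) (nat_lit 0) (p (nat_lit 0x38292) (nat_lit 0) (p (nat_lit 0x28212) (nat_lit 0) (p (nat_lit 0x38112) (nat_lit 0) (p (nat_lit 0x20092) (nat_lit 0) (p (nat_lit 0x10012) (nat_lit 0) pn)))))))))))))))))))))))))))) :=
  Cl.node (nat_lit 0x109) (nat_lit 2) (by decide +kernel) (ClAll.succ (ClAll.succ ClAll.zero n407) s913)

def n492 : Cl (O (nat_lit 6)) (R (nat_lit 143633))
    (p (nat_lit 0xb0004) (nat_lit 0) (p (nat_lit 0x380c2) (nat_lit 1) (p (nat_lit 0x444aa) (nat_lit 7) (p (nat_lit 0x111) (nat_lit 1) (p (nat_lit 0xd1) (nat_lit 1) (p (nat_lit 0xc1) (nat_lit 0) (p (nat_lit 0x119) (nat_lit 1) (p (nat_lit 0xc9) (nat_lit 0) (p (nat_lit 0x89) (nat_lit 1) (p (nat_lit 0x41) (nat_lit 0) (p (nat_lit 0x10a898a08881a) (nat_lit 0) (p (nat_lit 0x8a090988079a) (nat_lit 0) (p (nat_lit 0x108088907871a) (nat_lit 0) (p (nat_lit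 0x87880887069a) (nat_lit 0) (p (nat_lit 0x8000080000000088806860a) (nat_lit 0) (p (nat_lit 0x8000080000000068786058a) (nat_lit 0) (p (nat_lit 0x10687058502) (nat_lit 0) (p (nat_lit 0x8606850482) (nat_lit 0) (p (nat_lit 0x160004) (nat_lit 0) (p (nat_lit 0x68612) (nat_lit 0) (p (nat_lit 0x50592) (nat_lit 0) (p (nat_lit 0x40512) (nat_lit 0) (p (nat_lit 0x50312) (nat_lit 0) (p (nat_lit 0x38292) (nat_lit 0) (p (nat_lit 0x28212) (nat_lit 0) (p (nat_lit 0x38112) (nat_lit 0) (p (nat_lit 0x20092) (nat_lit 0) (p (nat_lit 0x10012) (nat_lit 0) pn)))))))))))))))))))))))))))) :=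
  Cl.node (nat_lit 0x109) (nat_lit 2) (by decide +kernel) (ClAll.succ (ClAll.succ ClAll.zero n408) s919)

def n493 : Cl (O (nat_lit 6)) (R (nat_lit 143633))
    (p (nat_lit 0xb0004) (nat_lit 1) (p (nat_lit 0x380c2) (nat_lit 1) (p (nat_lit 0x444aa) (nat_lit 7) (p (nat_lit 0x111) (nat_lit 1) (p (nat_lit 0xd1) (nat_lit 1) (p (nat_lit 0xc1) (nat_lit 0) (p (nat_lit 0x119) (nat_lit 1) (p (nat_lit 0xc9) (nat_lit 0) (p (nat_lit 0x89) (nat_lit 1) (p (nat_lit 0x41) (nat_lit 0) (p (nat_lit 0x10a898a08881a) (nat_lit 0) (p (nat_lit 0x8a090988079a) (nat_lit 0) (p (nat_lit 0x108088907871a) (nat_lit 0) (p (nat_lit 0x87880887069a) (nat_lit 0) (p (nat_lit 0x8000080000000088806860a) (nat_lit 0) (p (nat_lit 0x8000080000000068786058a) (nat_lit 0) (p (nat_lit 0x10687058502) (nat_lit 0) (p (nat_lit 0x8606850482) (nat_lit 0) (p (nat_lit 0x160004) (nat_lit 0) (p (nat_lit 0x68612) (nat_lit 0) (p (nat_lit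 0x50592) (nat_lit 0) (p (nat_lit 0x40512) (nat_lit 0) (p (nat_lit 0x50312) (nat_lit 0) (p (nat_lit 0x38292) (nat_lit 0) (p (nat_lit 0x28212) (nat_lit 0) (p (nat_lit 0x38112) (nat_lit 0) (p (nat_lit 0x20092) (nat_lit 0) (p (nat_lit 0x10012) (nat_lit 0) pn)))))))))))))))))))))))))))) :=
  Cl.node (nat_lit 0x1fc00c) (nat_lit 2) (by decide +kernel) (ClAll.succ (ClAll.succ ClAll.zero n409) s923)

def n494 : Cl (O (nat_lit 6)) (R (nat_lit 143633))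
    (p (nat_lit 0x101) (nat_lit 1) (p (nat_lit 0x380c2) (nat_lit 0) (p (nat_lit 0x44c2a) (nat_lit 0) (p (nat_lit 0x111) (nat_lit 0) (p (nat_lit 0x101) (nat_lit 0) (p (nat_lit 0xc1) (nat_lit 1) (p (nat_lit 0x119) (nat_lit 1) (p (nat_lit 0xc9) (nat_lit 0) (p (nat_lit 0x89) (nat_lit 1) (p (nat_lit 0x41) (nat_lit 0) (p (nat_lit 0x10a898a08881a) (nat_lit 0) (p (nat_lit 0x8a090988079a) (nat_lit 0) (p (nat_lit 0x108088907871a) (nat_lit 0) (p (nat_lit 0x87880887069a) (nat_lit 0) (p (nat_lit 0x8000080000000088806860a) (nat_lit 0) (p (nat_lit 0x8000080000000068786058a) (nat_lit 0) (p (nat_lit 0x10687058502) (nat_lit 0) (p (nat_lit 0x8606850482) (nat_lit 0) (p (nat_lit 0x160004) (nat_lit 0) (p (nat_lit 0x68612) (nat_lit 0) (p (nat_lit 0x50592) (nat_lit 0) (p (nat_lit 0x40512) (nat_lit 0) (p (nat_lit 0x50312) (nat_lit 0) (p (nat_lit 0x38292) (nat_lit 0) (p (nat_lit 0x28212) (nat_lit 0) (p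 (nat_lit 0x38112) (nat_lit 0) (p (nat_lit 0x20092) (nat_lit 0) (p (nat_lit 0x10012) (nat_lit 0) pn)))))))))))))))))))))))))))) :=
  Cl.node (nat_lit 0x41) (nat_lit 2) (by decide +kernel) (ClAll.succ (ClAll.succ ClAll.zero s929) n410)

def n495 : Cl (O (nat_lit 6)) (R (nat_lit 143633))
    (p (nat_lit 0xb0004) (nat_lit 0) (p (nat_lit 0x380c2) (nat_lit 0) (p (nat_lit 0x44c2a) (nat_lit 1) (p (nat_lit 0x111) (nat_lit 0) (p (nat_lit 0x101) (nat_lit 0) (p (nat_lit 0xc1) (nat_lit 1) (p (nat_lit 0x119) (nat_lit 1) (p (nat_lit 0xc9) (nat_lit 0) (p (nat_lit 0x89) (nat_lit 1) (p (nat_lit 0x41) (nat_lit 0) (p (nat_lit 0x10a898a08881a) (nat_lit 0) (p (nat_lit 0x8a090988079a) (nat_lit 0) (p (nat_lit 0x108088907871a) (nat_lit 0) (p (nat_lit 0x87880887069a) (nat_lit 0) (p (nat_lit 0x8000080000000088806860a) (nat_lit 0) (p (nat_lit 0x8000080000000068786058a) (nat_lit 0) (p (nat_lit 0x10687058502)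 (nat_lit 0) (p (nat_lit 0x8606850482) (nat_lit 0) (p (nat_lit 0x160004) (nat_lit 0) (p (nat_lit 0x68612) (nat_lit 0) (p (nat_lit 0x50592) (nat_lit 0) (p (nat_lit 0x40512) (nat_lit 0) (p (nat_lit 0x50312) (nat_lit 0) (p (nat_lit 0x38292) (nat_lit 0) (p (nat_lit 0x28212) (nat_lit 0) (p (nat_lit 0x38112) (nat_lit 0) (p (nat_lit 0x20092) (nat_lit 0) (p (nat_lit 0x10012) (nat_lit 0) pn)))))))))))))))))))))))))))) :=
  Cl.node (nat_lit 0x20000c) (nat_lit 2) (by decide +kernel) (ClAll.succ (ClAll.succ ClAll.zero n411) s948)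

def n496 : Cl (O (nat_lit 6)) (R (nat_lit 143633))
    (p (nat_lit 0xb0004) (nat_lit 0) (p (nat_lit 0x380c2) (nat_lit 0) (p (nat_lit 0x444aa) (nat_lit 7) (p (nat_lit 0x111) (nat_lit 1) (p (nat_lit 0x101) (nat_lit 0) (p (nat_lit 0xc1) (nat_lit 1) (p (nat_lit 0x119) (nat_lit 1) (p (nat_lit 0xc9) (nat_lit 0) (p (nat_lit 0x89) (nat_lit 1) (p (nat_lit 0x41) (nat_lit 0) (p (nat_lit 0x10a898a08881a) (nat_lit 0) (p (nat_lit 0x8a090988079a) (nat_lit 0) (p (nat_lit 0x108088907871a) (nat_lit 0) (p (nat_lit 0x87880887069a) (nat_lit 0) (p (nat_lit 0x8000080000000088806860a) (nat_lit 0) (p (nat_lit 0x8000080000000068786058a) (nat_lit 0) (p (nat_lit 0x10687058502) (nat_lit 0) (p (nat_lit 0x8606850482) (nat_lit 0) (p (nat_lit 0x160004) (nat_lit 0) (p (nat_lit 0x68612) (nat_lit 0) (p (nat_lit 0x50592) (nat_lit 0) (p (nat_lit 0x40512) (nat_lit 0) (p (nat_lit 0x50312) (nat_lit 0) (p (nat_lit 0x38292)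 (nat_lit 0) (p (nat_lit 0x28212) (nat_lit 0) (p (nat_lit 0x38112) (nat_lit 0) (p (nat_lit 0x20092) (nat_lit 0) (p (nat_lit 0x10012) (nat_lit 0) pn)))))))))))))))))))))))))))) :=
  Cl.node (nat_lit 0x109) (nat_lit 2) (by decide +kernel) (ClAll.succ (ClAll.succ ClAll.zero n412) s981)

def n497 : Cl (O (nat_lit 6)) (R (nat_lit 143633))
    (p (nat_lit 0xb0004) (nat_lit 0) (p (nat_lit 0x380c2) (nat_lit 1) (p (nat_lit 0x444aa) (nat_lit 7) (p (nat_lit 0x111) (nat_lit 1) (p (nat_lit 0x101) (nat_lit 0) (p (nat_lit 0xc1) (nat_lit 1) (p (nat_lit 0x119) (nat_lit 1) (p (nat_lit 0xc9) (nat_lit 0) (p (nat_lit 0x89) (nat_lit 1) (p (nat_lit 0x41) (nat_lit 0) (p (nat_lit 0x10a898a08881a) (nat_lit 0) (p (nat_lit 0x8a090988079a) (nat_lit 0) (p (nat_lit 0x108088907871a) (nat_lit 0) (p (nat_lit 0x87880887069a) (nat_lit 0) (p (nat_lit 0x8000080000000088806860a) (nat_lit 0) (p (nat_lit 0x8000080000000068786058a)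 (nat_lit 0) (p (nat_lit 0x10687058502) (nat_lit 0) (p (nat_lit 0x8606850482) (nat_lit 0) (p (nat_lit 0x160004) (nat_lit 0) (p (nat_lit 0x68612) (nat_lit 0) (p (nat_lit 0x50592) (nat_lit 0) (p (nat_lit 0x40512) (nat_lit 0) (p (nat_lit 0x50312) (nat_lit 0) (p (nat_lit 0x38292) (nat_lit 0) (p (nat_lit 0x28212) (nat_lit 0) (p (nat_lit 0x38112) (nat_lit 0) (p (nat_lit 0x20092) (nat_lit 0) (p (nat_lit 0x10012) (nat_lit 0) pn)))))))))))))))))))))))))))) :=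
  Cl.node (nat_lit 0x109) (nat_lit 2) (by decide +kernel) (ClAll.succ (ClAll.succ ClAll.zero n413) s999)

def n498 : Cl (O (nat_lit 6)) (R (nat_lit 143633))
    (p (nat_lit 0x380c2) (nat_lit 0) (p (nat_lit 0x4c42a) (nat_lit 2) (p (nat_lit 0x111) (nat_lit 0) (p (nat_lit 0x89) (nat_lit 0) (p (nat_lit 0x109) (nat_lit 1) (p (nat_lit 0x101) (nat_lit 0) (p (nat_lit 0x119) (nat_lit 0) (p (nat_lit 0xd1) (nat_lit 0) (p (nat_lit 0x81) (nat_lit 0) (p (nat_lit 0x41) (nat_lit 1) (p (nat_lit 0x10a898a08881a) (nat_lit 0) (p (nat_lit 0x8a090988079a) (nat_lit 0) (p (nat_lit 0x108088907871a) (nat_lit 0) (p (nat_lit 0x87880887069a) (nat_lit 0) (p (nat_lit 0x8000080000000088806860a) (nat_lit 0) (p (nat_lit 0x8000080000000068786058a) (nat_lit 0) (p (nat_lit 0x10687058502) (nat_lit 0) (p (nat_lit 0x8606850482) (nat_lit 0) (p (nat_lit 0x160004) (nat_lit 0) (p (nat_lit 0x68612) (nat_lit 0) (p (nat_lit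 0x50592) (nat_lit 0) (p (nat_lit 0x40512) (nat_lit 0) (p (nat_lit 0x50312) (nat_lit 0) (p (nat_lit 0x38292) (nat_lit 0) (p (nat_lit 0x28212) (nat_lit 0) (p (nat_lit 0x38112) (nat_lit 0) (p (nat_lit 0x20092) (nat_lit 0) (p (nat_lit 0x10012) (nat_lit 0) pn)))))))))))))))))))))))))))) :=
  Cl.node (nat_lit 0xc9) (nat_lit 2) (by decide +kernel) (ClAll.succ (ClAll.succ ClAll.zero s1051) n414)

def n499 : Cl (O (nat_lit 6)) (R (nat_lit 143633))
    (p (nat_lit 0x380c2) (nat_lit 1) (p (nat_lit 0x3cc2a) (nat_lit 10) (p (nat_lit 0x111) (nat_lit 1) (p (nat_lit 0x89) (nat_lit 0) (p (nat_lit 0x109) (nat_lit 1) (p (nat_lit 0x101) (nat_lit 0) (p (nat_lit 0x119) (nat_lit 0) (p (nat_lit 0xd1) (nat_lit 0) (p (nat_lit 0x81) (nat_lit 0) (p (nat_lit 0x41) (nat_lit 1) (p (nat_lit 0x10a898a08881a) (nat_lit 0) (p (nat_lit 0x8a090988079a) (nat_lit 0) (p (nat_lit 0x108088907871a) (nat_lit 0) (p (nat_lit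 0x87880887069a) (nat_lit 0) (p (nat_lit 0x8000080000000088806860a) (nat_lit 0) (p (nat_lit 0x8000080000000068786058a) (nat_lit 0) (p (nat_lit 0x10687058502) (nat_lit 0) (p (nat_lit 0x8606850482) (nat_lit 0) (p (nat_lit 0x160004) (nat_lit 0) (p (nat_lit 0x68612) (nat_lit 0) (p (nat_lit 0x50592) (nat_lit 0) (p (nat_lit 0x40512) (nat_lit 0) (p (nat_lit 0x50312) (nat_lit 0) (p (nat_lit 0x38292) (nat_lit 0) (p (nat_lit 0x28212) (nat_lit 0) (p (nat_lit 0x38112) (nat_lit 0) (p (nat_lit 0x20092) (nat_lit 0) (p (nat_lit 0x10012) (nat_lit 0) pn)))))))))))))))))))))))))))) :=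
  Cl.node (nat_lit 0xb0004) (nat_lit 2) (by decide +kernel) (ClAll.succ (ClAll.succ ClAll.zero s1088) s1089)

def n500 : Cl (O (nat_lit 6)) (R (nat_lit 143633))
    (p (nat_lit 0x380c2) (nat_lit 0) (p (nat_lit 0x3cc2a) (nat_lit 11) (p (nat_lit 0x111) (nat_lit 1) (p (nat_lit 0x89) (nat_lit 0) (p (nat_lit 0x109) (nat_lit 1) (p (nat_lit 0x101) (nat_lit 0) (p (nat_lit 0x119) (nat_lit 0) (p (nat_lit 0xd1) (nat_lit 0) (p (nat_lit 0x81) (nat_lit 0) (p (nat_lit 0x41) (nat_lit 1) (p (nat_lit 0x10a898a08881a) (nat_lit 0) (p (nat_lit 0x8a090988079a) (nat_lit 0) (p (nat_lit 0x108088907871a) (nat_lit 0) (p (nat_lit 0x87880887069a) (nat_lit 0) (p (nat_lit 0x8000080000000088806860a) (nat_lit 0) (p (nat_lit 0x8000080000000068786058a) (nat_lit 0) (p (nat_lit 0x10687058502) (nat_lit 0) (p (nat_lit 0x8606850482) (nat_lit 0) (p (nat_lit 0x160004) (nat_lit 0) (p (nat_lit 0x68612) (nat_lit 0) (p (nat_lit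 0x50592) (nat_lit 0) (p (nat_lit 0x40512) (nat_lit 0) (p (nat_lit 0x50312) (nat_lit 0) (p (nat_lit 0x38292) (nat_lit 0) (p (nat_lit 0x28212) (nat_lit 0) (p (nat_lit 0x38112) (nat_lit 0) (p (nat_lit 0x20092) (nat_lit 0) (p (nat_lit 0x10012) (nat_lit 0) pn)))))))))))))))))))))))))))) :=
  Cl.node (nat_lit 0x200014) (nat_lit 2) (by decide +kernel) (ClAll.succ (ClAll.succ ClAll.zero n415) s1093)

def n501 : Cl (O (nat_lit 6)) (R (nat_lit 143633))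
    (p (nat_lit 0x380c2) (nat_lit 0) (p (nat_lit 0x4c42a) (nat_lit 2) (p (nat_lit 0xc9) (nat_lit 0) (p (nat_lit 0x89) (nat_lit 1) (p (nat_lit 0x109) (nat_lit 1) (p (nat_lit 0x101) (nat_lit 0) (p (nat_lit 0x119) (nat_lit 0) (p (nat_lit 0xd1) (nat_lit 0) (p (nat_lit 0x81) (nat_lit 0) (p (nat_lit 0x41) (nat_lit 1) (p (nat_lit 0x10a898a08881a) (nat_lit 0) (p (nat_lit 0x8a090988079a) (nat_lit 0) (p (nat_lit 0x108088907871a) (nat_lit 0) (p (nat_lit 0x87880887069a) (nat_lit 0) (p (nat_lit 0x8000080000000088806860a) (nat_lit 0) (p (nat_lit 0x8000080000000068786058a) (nat_lit 0) (p (nat_lit 0x10687058502) (nat_lit 0) (p (nat_lit 0x8606850482) (nat_lit 0) (p (nat_lit 0x160004) (nat_lit 0) (p (nat_lit 0x68612) (nat_lit 0) (p (nat_lit 0x50592) (nat_lit 0) (p (nat_lit 0x40512) (nat_lit 0) (p (nat_lit 0x50312) (nat_lit 0) (p (nat_lit 0x38292) (nat_lit 0) (p (nat_lit 0x28212) (nat_lit 0) (p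 (nat_lit 0x38112) (nat_lit 0) (p (nat_lit 0x20092) (nat_lit 0) (p (nat_lit 0x10012) (nat_lit 0) pn)))))))))))))))))))))))))))) :=
  Cl.node (nat_lit 0x111) (nat_lit 2) (by decide +kernel) (ClAll.succ (ClAll.succ ClAll.zero s1097) n416)

def n502 : Cl (O (nat_lit 6)) (R (nat_lit 143633))
    (p (nat_lit 0x380c2) (nat_lit 0) (p (nat_lit 0x4c42a) (nat_lit 8) (p (nat_lit 0xc9) (nat_lit 0) (p (nat_lit 0x89) (nat_lit 1) (p (nat_lit 0x109) (nat_lit 1) (p (nat_lit 0x101) (nat_lit 0) (p (nat_lit 0x119) (nat_lit 0) (p (nat_lit 0xd1) (nat_lit 0) (p (nat_lit 0x81) (nat_lit 0) (p (nat_lit 0x41) (nat_lit 1) (p (nat_lit 0x10a898a08881a) (nat_lit 0) (p (nat_lit 0x8a090988079a) (nat_lit 0) (p (nat_lit 0x108088907871a) (nat_lit 0) (p (nat_lit 0x87880887069a) (nat_lit 0) (p (nat_lit 0x8000080000000088806860a) (nat_lit 0) (p (nat_lit 0x8000080000000068786058a) (nat_lit 0) (p (nat_lit 0x10687058502)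 (nat_lit 0) (p (nat_lit 0x8606850482) (nat_lit 0) (p (nat_lit 0x160004) (nat_lit 0) (p (nat_lit 0x68612) (nat_lit 0) (p (nat_lit 0x50592) (nat_lit 0) (p (nat_lit 0x40512) (nat_lit 0) (p (nat_lit 0x50312) (nat_lit 0) (p (nat_lit 0x38292) (nat_lit 0) (p (nat_lit 0x28212) (nat_lit 0) (p (nat_lit 0x38112) (nat_lit 0) (p (nat_lit 0x20092) (nat_lit 0) (p (nat_lit 0x10012) (nat_lit 0) pn)))))))))))))))))))))))))))) :=
  Cl.node (nat_lit 0x200014) (nat_lit 2) (by decide +kernel) (ClAll.succ (ClAll.succ ClAll.zero n417) s1119)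

def n503 : Cl (O (nat_lit 6)) (R (nat_lit 143633))
    (p (nat_lit 0x200014) (nat_lit 0) (p (nat_lit 0x380c2) (nat_lit 0) (p (nat_lit 0x3cc2a) (nat_lit 11) (p (nat_lit 0x89) (nat_lit 0) (p (nat_lit 0xc1) (nat_lit 0) (p (nat_lit 0x101) (nat_lit 1) (p (nat_lit 0x119) (nat_lit 0) (p (nat_lit 0xd1) (nat_lit 0) (p (nat_lit 0x81) (nat_lit 0) (p (nat_lit 0x41) (nat_lit 1) (p (nat_lit 0x10a898a08881a) (nat_lit 0) (p (nat_lit 0x8a090988079a) (nat_lit 0) (p (nat_lit 0x108088907871a) (nat_lit 0) (p (nat_lit 0x87880887069a) (nat_lit 0) (p (nat_lit 0x8000080000000088806860a) (nat_lit 0) (p (nat_lit 0x8000080000000068786058a) (nat_lit 0) (p (nat_lit 0x10687058502) (nat_lit 0) (p (nat_lit 0x8606850482) (nat_lit 0) (p (nat_lit 0x160004) (nat_lit 0) (p (nat_lit 0x68612) (nat_lit 0) (p (nat_lit 0x50592) (nat_lit 0) (p (nat_lit 0x40512) (nat_lit 0) (p (nat_lit 0x50312) (nat_lit 0) (p (nat_lit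 0x38292) (nat_lit 0) (p (nat_lit 0x28212) (nat_lit 0) (p (nat_lit 0x38112) (nat_lit 0) (p (nat_lit 0x20092) (nat_lit 0) (p (nat_lit 0x10012) (nat_lit 0) pn)))))))))))))))))))))))))))) :=
  Cl.node (nat_lit 0x100014) (nat_lit 2) (by decide +kernel) (ClAll.succ (ClAll.succ ClAll.zero n418) s1138)

def n504 : Cl (O (nat_lit 6)) (R (nat_lit 143633))
    (p (nat_lit 0x380c2) (nat_lit 0) (p (nat_lit 0x4c42a) (nat_lit 2) (p (nat_lit 0xc9) (nat_lit 0) (p (nat_lit 0x89) (nat_lit 1) (p (nat_lit 0xc1) (nat_lit 0) (p (nat_lit 0x101) (nat_lit 1) (p (nat_lit 0x119) (nat_lit 0) (p (nat_lit 0xd1) (nat_lit 0) (p (nat_lit 0x81) (nat_lit 0) (p (nat_lit 0x41) (nat_lit 1) (p (nat_lit 0x10a898a08881a) (nat_lit 0) (p (nat_lit 0x8a090988079a) (nat_lit 0) (p (nat_lit 0x108088907871a) (nat_lit 0) (p (nat_lit 0x87880887069a) (nat_lit 0) (p (nat_lit 0x8000080000000088806860a) (nat_lit 0) (p (nat_lit 0x8000080000000068786058a)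 (nat_lit 0) (p (nat_lit 0x10687058502) (nat_lit 0) (p (nat_lit 0x8606850482) (nat_lit 0) (p (nat_lit 0x160004) (nat_lit 0) (p (nat_lit 0x68612) (nat_lit 0) (p (nat_lit 0x50592) (nat_lit 0) (p (nat_lit 0x40512) (nat_lit 0) (p (nat_lit 0x50312) (nat_lit 0) (p (nat_lit 0x38292) (nat_lit 0) (p (nat_lit 0x28212) (nat_lit 0) (p (nat_lit 0x38112) (nat_lit 0) (p (nat_lit 0x20092) (nat_lit 0) (p (nat_lit 0x10012) (nat_lit 0) pn)))))))))))))))))))))))))))) :=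
  Cl.node (nat_lit 0x200014) (nat_lit 2) (by decide +kernel) (ClAll.succ (ClAll.succ ClAll.zero n419) s1158)

def n505 : Cl (O (nat_lit 6)) (R (nat_lit 143633))
    (p (nat_lit 0x380c2) (nat_lit 0) (p (nat_lit 0x4c42a) (nat_lit 2) (p (nat_lit 0xc9) (nat_lit 1) (p (nat_lit 0x89) (nat_lit 1) (p (nat_lit 0xc1) (nat_lit 0) (p (nat_lit 0x101) (nat_lit 1) (p (nat_lit 0x119) (nat_lit 0) (p (nat_lit 0xd1) (nat_lit 0) (p (nat_lit 0x81) (nat_lit 0) (p (nat_lit 0x41) (nat_lit 1) (p (nat_lit 0x10a898a08881a) (nat_lit 0) (p (nat_lit 0x8a090988079a) (nat_lit 0) (p (nat_lit 0x108088907871a) (nat_lit 0) (p (nat_lit 0x87880887069a) (nat_lit 0) (p (nat_lit 0x8000080000000088806860a) (nat_lit 0) (p (nat_lit 0x8000080000000068786058a) (nat_lit 0) (p (nat_lit 0x10687058502) (nat_lit 0) (p (nat_lit 0x8606850482) (nat_lit 0) (p (nat_lit 0x160004) (nat_lit 0) (p (nat_lit 0x68612) (nat_lit 0) (p (nat_lit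 0x50592) (nat_lit 0) (p (nat_lit 0x40512) (nat_lit 0) (p (nat_lit 0x50312) (nat_lit 0) (p (nat_lit 0x38292) (nat_lit 0) (p (nat_lit 0x28212) (nat_lit 0) (p (nat_lit 0x38112) (nat_lit 0) (p (nat_lit 0x20092) (nat_lit 0) (p (nat_lit 0x10012) (nat_lit 0) pn)))))))))))))))))))))))))))) :=
  Cl.node (nat_lit 0x200014) (nat_lit 2) (by decide +kernel) (ClAll.succ (ClAll.succ ClAll.zero n420) s1183)

def n506 : Cl (O (nat_lit 6)) (R (nat_lit 143633))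
    (p (nat_lit 0x380c2) (nat_lit 0) (p (nat_lit 0x44c2a) (nat_lit 1) (p (nat_lit 0x109) (nat_lit 0) (p (nat_lit 0x89) (nat_lit 1) (p (nat_lit 0xc9) (nat_lit 1) (p (nat_lit 0xc1) (nat_lit 0) (p (nat_lit 0x119) (nat_lit 1) (p (nat_lit 0xd1) (nat_lit 0) (p (nat_lit 0x81) (nat_lit 0) (p (nat_lit 0x41) (nat_lit 1) (p (nat_lit 0x10a898a08881a) (nat_lit 0) (p (nat_lit 0x8a090988079a) (nat_lit 0) (p (nat_lit 0x108088907871a) (nat_lit 0) (p (nat_lit 0x87880887069a) (nat_lit 0) (p (nat_lit 0x8000080000000088806860a) (nat_lit 0) (p (nat_lit 0x8000080000000068786058a) (nat_lit 0) (p (nat_lit 0x10687058502) (nat_lit 0) (p (nat_lit 0x8606850482) (nat_lit 0) (p (nat_lit 0x160004) (nat_lit 0) (p (nat_lit 0x68612) (nat_lit 0) (p (nat_lit 0x50592) (nat_lit 0) (p (nat_lit 0x40512) (nat_lit 0) (p (nat_lit 0x50312) (nat_lit 0) (p (nat_lit 0x38292) (nat_lit 0) (p (nat_lit 0x28212) (nat_lit 0) (p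 (nat_lit 0x38112) (nat_lit 0) (p (nat_lit 0x20092) (nat_lit 0) (p (nat_lit 0x10012) (nat_lit 0) pn)))))))))))))))))))))))))))) :=
  Cl.node (nat_lit 0xb0004) (nat_lit 2) (by decide +kernel) (ClAll.succ (ClAll.succ ClAll.zero n421) s1226)

def n507 : Cl (O (nat_lit 6)) (R (nat_lit 143633))
    (p (nat_lit 0x380c2) (nat_lit 0) (p (nat_lit 0x3c4aa) (nat_lit 10) (p (nat_lit 0x109) (nat_lit 1) (p (nat_lit 0x89) (nat_lit 1) (p (nat_lit 0xc9) (nat_lit 1) (p (nat_lit 0xc1) (nat_lit 0) (p (nat_lit 0x119) (nat_lit 1) (p (nat_lit 0xd1) (nat_lit 0) (p (nat_lit 0x81) (nat_lit 0) (p (nat_lit 0x41) (nat_lit 1) (p (nat_lit 0x10a898a08881a) (nat_lit 0) (p (nat_lit 0x8a090988079a) (nat_lit 0) (p (nat_lit 0x108088907871a) (nat_lit 0) (p (nat_lit 0x87880887069a) (nat_lit 0) (p (nat_lit 0x8000080000000088806860a) (nat_lit 0) (p (nat_lit 0x8000080000000068786058a) (nat_lit 0) (p (nat_lit 0x10687058502)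 (nat_lit 0) (p (nat_lit 0x8606850482) (nat_lit 0) (p (nat_lit 0x160004) (nat_lit 0) (p (nat_lit 0x68612) (nat_lit 0) (p (nat_lit 0x50592) (nat_lit 0) (p (nat_lit 0x40512) (nat_lit 0) (p (nat_lit 0x50312) (nat_lit 0) (p (nat_lit 0x38292) (nat_lit 0) (p (nat_lit 0x28212) (nat_lit 0) (p (nat_lit 0x38112) (nat_lit 0) (p (nat_lit 0x20092) (nat_lit 0) (p (nat_lit 0x10012) (nat_lit 0) pn)))))))))))))))))))))))))))) :=
  Cl.node (nat_lit 0xb0004) (nat_lit 2) (by decide +kernel) (ClAll.succ (ClAll.succ ClAll.zero s1247) s1248)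

def n508 : Cl (O (nat_lit 6)) (R (nat_lit 143633))
    (p (nat_lit 0x380c2) (nat_lit 0) (p (nat_lit 0x44c2a) (nat_lit 1) (p (nat_lit 0x109) (nat_lit 0) (p (nat_lit 0x89) (nat_lit 1) (p (nat_lit 0x101) (nat_lit 0) (p (nat_lit 0xc1) (nat_lit 1) (p (nat_lit 0x119) (nat_lit 1) (p (nat_lit 0xd1) (nat_lit 0) (p (nat_lit 0x81) (nat_lit 0) (p (nat_lit 0x41) (nat_lit 1) (p (nat_lit 0x10a898a08881a) (nat_lit 0) (p (nat_lit 0x8a090988079a) (nat_lit 0) (p (nat_lit 0x108088907871a) (nat_lit 0) (p (nat_lit 0x87880887069a) (nat_lit 0) (p (nat_lit 0x8000080000000088806860a) (nat_lit 0) (p (nat_lit 0x8000080000000068786058a) (nat_lit 0) (p (nat_lit 0x10687058502) (nat_lit 0) (p (nat_lit 0x8606850482) (nat_lit 0) (p (nat_lit 0x160004) (nat_lit 0) (p (nat_lit 0x68612) (nat_lit 0) (p (nat_lit 0x50592) (nat_lit 0) (p (nat_lit 0x40512) (nat_lit 0) (p (nat_lit 0x50312) (nat_lit 0) (p (nat_lit 0x38292)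 (nat_lit 0) (p (nat_lit 0x28212) (nat_lit 0) (p (nat_lit 0x38112) (nat_lit 0) (p (nat_lit 0x20092) (nat_lit 0) (p (nat_lit 0x10012) (nat_lit 0) pn)))))))))))))))))))))))))))) :=
  Cl.node (nat_lit 0xb0004) (nat_lit 2) (by decide +kernel) (ClAll.succ (ClAll.succ ClAll.zero s1265) s1266)

def n509 : Cl (O (nat_lit 6)) (R (nat_lit 143633))
    (p (nat_lit 0x380c2) (nat_lit 0) (p (nat_lit 0x3c4aa) (nat_lit 7) (p (nat_lit 0x109) (nat_lit 1) (p (nat_lit 0x89) (nat_lit 1) (p (nat_lit 0x101) (nat_lit 0) (p (nat_lit 0xc1) (nat_lit 1) (p (nat_lit 0x119) (nat_lit 1) (p (nat_lit 0xd1) (nat_lit 0) (p (nat_lit 0x81) (nat_lit 0) (p (nat_lit 0x41) (nat_lit 1) (p (nat_lit 0x10a898a08881a) (nat_lit 0) (p (nat_lit 0x8a090988079a) (nat_lit 0) (p (nat_lit 0x108088907871a) (nat_lit 0) (p (nat_lit 0x87880887069a) (nat_lit 0) (p (nat_lit 0x8000080000000088806860a) (nat_lit 0) (p (nat_lit 0x8000080000000068786058a)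 (nat_lit 0) (p (nat_lit 0x10687058502) (nat_lit 0) (p (nat_lit 0x8606850482) (nat_lit 0) (p (nat_lit 0x160004) (nat_lit 0) (p (nat_lit 0x68612) (nat_lit 0) (p (nat_lit 0x50592) (nat_lit 0) (p (nat_lit 0x40512) (nat_lit 0) (p (nat_lit 0x50312) (nat_lit 0) (p (nat_lit 0x38292) (nat_lit 0) (p (nat_lit 0x28212) (nat_lit 0) (p (nat_lit 0x38112) (nat_lit 0) (p (nat_lit 0x20092) (nat_lit 0) (p (nat_lit 0x10012) (nat_lit 0) pn)))))))))))))))))))))))))))) :=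
  Cl.node (nat_lit 0xb0004) (nat_lit 2) (by decide +kernel) (ClAll.succ (ClAll.succ ClAll.zero s1284) s1285)

def n510 : Cl (O (nat_lit 6)) (R (nat_lit 143633))
    (p (nat_lit 0x380c2) (nat_lit 1) (p (nat_lit 0x3c4aa) (nat_lit 7) (p (nat_lit 0x109) (nat_lit 1) (p (nat_lit 0x89) (nat_lit 1) (p (nat_lit 0x101) (nat_lit 0) (p (nat_lit 0xc1) (nat_lit 1) (p (nat_lit 0x119) (nat_lit 1) (p (nat_lit 0xd1) (nat_lit 0) (p (nat_lit 0x81) (nat_lit 0) (p (nat_lit 0x41) (nat_lit 1) (p (nat_lit 0x10a898a08881a) (nat_lit 0) (p (nat_lit 0x8a090988079a) (nat_lit 0) (p (nat_lit 0x108088907871a) (nat_lit 0) (p (nat_lit 0x87880887069a) (nat_lit 0) (p (nat_lit 0x8000080000000088806860a) (nat_lit 0) (p (nat_lit 0x8000080000000068786058a) (nat_lit 0) (p (nat_lit 0x10687058502) (nat_lit 0) (p (nat_lit 0x8606850482) (nat_lit 0) (p (nat_lit 0x160004) (nat_lit 0) (p (nat_lit 0x68612) (nat_lit 0) (p (nat_lit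 0x50592) (nat_lit 0) (p (nat_lit 0x40512) (nat_lit 0) (p (nat_lit 0x50312) (nat_lit 0) (p (nat_lit 0x38292) (nat_lit 0) (p (nat_lit 0x28212) (nat_lit 0) (p (nat_lit 0x38112) (nat_lit 0) (p (nat_lit 0x20092) (nat_lit 0) (p (nat_lit 0x10012) (nat_lit 0) pn)))))))))))))))))))))))))))) :=
  Cl.node (nat_lit 0xb0004) (nat_lit 2) (by decide +kernel) (ClAll.succ (ClAll.succ ClAll.zero n422) s1292)

def n511 : Cl (O (nat_lit 6)) (R (nat_lit 143633))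
    (p (nat_lit 0x380c2) (nat_lit 0) (p (nat_lit 0x3c4aa) (nat_lit 10) (p (nat_lit 0x109) (nat_lit 1) (p (nat_lit 0x89) (nat_lit 1) (p (nat_lit 0x101) (nat_lit 0) (p (nat_lit 0xc1) (nat_lit 1) (p (nat_lit 0x119) (nat_lit 1) (p (nat_lit 0xd1) (nat_lit 0) (p (nat_lit 0x81) (nat_lit 0) (p (nat_lit 0x41) (nat_lit 1) (p (nat_lit 0x10a898a08881a) (nat_lit 0) (p (nat_lit 0x8a090988079a) (nat_lit 0) (p (nat_lit 0x108088907871a) (nat_lit 0) (p (nat_lit 0x87880887069a) (nat_lit 0) (p (nat_lit 0x8000080000000088806860a) (nat_lit 0) (p (nat_lit 0x8000080000000068786058a) (nat_lit 0) (p (nat_lit 0x10687058502) (nat_lit 0) (p (nat_lit 0x8606850482) (nat_lit 0) (p (nat_lit 0x160004) (nat_lit 0) (p (nat_lit 0x68612) (nat_lit 0) (p (nat_lit 0x50592) (nat_lit 0) (p (nat_lit 0x40512) (nat_lit 0) (p (nat_lit 0x50312) (nat_lit 0) (p (nat_lit 0x38292) (nat_lit 0) (p (nat_lit 0x28212) (nat_lit 0) (p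 (nat_lit 0x38112) (nat_lit 0) (p (nat_lit 0x20092) (nat_lit 0) (p (nat_lit 0x10012) (nat_lit 0) pn)))))))))))))))))))))))))))) :=
  Cl.node (nat_lit 0xb0004) (nat_lit 2) (by decide +kernel) (ClAll.succ (ClAll.succ ClAll.zero s1295) s1296)

def n512 : Cl (O (nat_lit 6)) (R (nat_lit 143633))
    (p (nat_lit 0x200014) (nat_lit 0) (p (nat_lit 0x380c2) (nat_lit 0) (p (nat_lit 0x3cc2a) (nat_lit 11) (p (nat_lit 0x89) (nat_lit 0) (p (nat_lit 0x101) (nat_lit 1) (p (nat_lit 0xc1) (nat_lit 1) (p (nat_lit 0x119) (nat_lit 1) (p (nat_lit 0xd1) (nat_lit 0) (p (nat_lit 0x81) (nat_lit 0) (p (nat_lit 0x41) (nat_lit 1) (p (nat_lit 0x10a898a08881a) (nat_lit 0) (p (nat_lit 0x8a090988079a) (nat_lit 0) (p (nat_lit 0x108088907871a) (nat_lit 0) (p (nat_lit 0x87880887069a) (nat_lit 0) (p (nat_lit 0x8000080000000088806860a) (nat_lit 0) (p (nat_lit 0x8000080000000068786058a) (nat_lit 0) (p (nat_lit 0x10687058502)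 (nat_lit 0) (p (nat_lit 0x8606850482) (nat_lit 0) (p (nat_lit 0x160004) (nat_lit 0) (p (nat_lit 0x68612) (nat_lit 0) (p (nat_lit 0x50592) (nat_lit 0) (p (nat_lit 0x40512) (nat_lit 0) (p (nat_lit 0x50312) (nat_lit 0) (p (nat_lit 0x38292) (nat_lit 0) (p (nat_lit 0x28212) (nat_lit 0) (p (nat_lit 0x38112) (nat_lit 0) (p (nat_lit 0x20092) (nat_lit 0) (p (nat_lit 0x10012) (nat_lit 0) pn)))))))))))))))))))))))))))) :=
  Cl.node (nat_lit 0x20000c) (nat_lit 2) (by decide +kernel) (ClAll.succ (ClAll.succ ClAll.zero n423) s1313)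

def n513 : Cl (O (nat_lit 6)) (R (nat_lit 143633))
    (p (nat_lit 0xb0004) (nat_lit 0) (p (nat_lit 0x380c2) (nat_lit 0) (p (nat_lit 0x3c4aa) (nat_lit 7) (p (nat_lit 0x89) (nat_lit 1) (p (nat_lit 0x101) (nat_lit 1) (p (nat_lit 0xc1) (nat_lit 1) (p (nat_lit 0x119) (nat_lit 1) (p (nat_lit 0xd1) (nat_lit 0) (p (nat_lit 0x81) (nat_lit 0) (p (nat_lit 0x41) (nat_lit 1) (p (nat_lit 0x10a898a08881a) (nat_lit 0) (p (nat_lit 0x8a090988079a) (nat_lit 0) (p (nat_lit 0x108088907871a) (nat_lit 0) (p (nat_lit 0x87880887069a) (nat_lit 0) (p (nat_lit 0x8000080000000088806860a) (nat_lit 0) (p (nat_lit 0x8000080000000068786058a) (nat_lit 0) (p (nat_lit 0x10687058502) (nat_lit 0) (p (nat_lit 0x8606850482) (nat_lit 0) (p (nat_lit 0x160004) (nat_lit 0) (p (nat_lit 0x68612) (nat_lit 0) (p (nat_lit 0x50592) (nat_lit 0) (p (nat_lit 0x40512) (nat_lit 0) (p (nat_lit 0x50312) (nat_lit 0) (p (nat_lit 0x38292)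 (nat_lit 0) (p (nat_lit 0x28212) (nat_lit 0) (p (nat_lit 0x38112) (nat_lit 0) (p (nat_lit 0x20092) (nat_lit 0) (p (nat_lit 0x10012) (nat_lit 0) pn)))))))))))))))))))))))))))) :=
  Cl.node (nat_lit 0x20000c) (nat_lit 2) (by decide +kernel) (ClAll.succ (ClAll.succ ClAll.zero n424) s1338)

def n514 : Cl (O (nat_lit 6)) (R (nat_lit 143633))
    (p (nat_lit 0xb0004) (nat_lit 1) (p (nat_lit 0x380c2) (nat_lit 0) (p (nat_lit 0x3c4aa) (nat_lit 7) (p (nat_lit 0x89) (nat_lit 1) (p (nat_lit 0x101) (nat_lit 1) (p (nat_lit 0xc1) (nat_lit 1) (p (nat_lit 0x119) (nat_lit 1) (p (nat_lit 0xd1) (nat_lit 0) (p (nat_lit 0x81) (nat_lit 0) (p (nat_lit 0x41) (nat_lit 1) (p (nat_lit 0x10a898a08881a) (nat_lit 0) (p (nat_lit 0x8a090988079a) (nat_lit 0) (p (nat_lit 0x108088907871a) (nat_lit 0) (p (nat_lit 0x87880887069a) (nat_lit 0) (p (nat_lit 0x8000080000000088806860a) (nat_lit 0) (p (nat_lit 0x8000080000000068786058a)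 (nat_lit 0) (p (nat_lit 0x10687058502) (nat_lit 0) (p (nat_lit 0x8606850482) (nat_lit 0) (p (nat_lit 0x160004) (nat_lit 0) (p (nat_lit 0x68612) (nat_lit 0) (p (nat_lit 0x50592) (nat_lit 0) (p (nat_lit 0x40512) (nat_lit 0) (p (nat_lit 0x50312) (nat_lit 0) (p (nat_lit 0x38292) (nat_lit 0) (p (nat_lit 0x28212) (nat_lit 0) (p (nat_lit 0x38112) (nat_lit 0) (p (nat_lit 0x20092) (nat_lit 0) (p (nat_lit 0x10012) (nat_lit 0) pn)))))))))))))))))))))))))))) :=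
  Cl.node (nat_lit 0x1fc00c) (nat_lit 2) (by decide +kernel) (ClAll.succ (ClAll.succ ClAll.zero n425) s1344)

def n515 : Cl (O (nat_lit 6)) (R (nat_lit 143633))
    (p (nat_lit 0xb0004) (nat_lit 0) (p (nat_lit 0x380c2) (nat_lit 1) (p (nat_lit 0x3c4aa) (nat_lit 7) (p (nat_lit 0x89) (nat_lit 1) (p (nat_lit 0x101) (nat_lit 1) (p (nat_lit 0xc1) (nat_lit 1) (p (nat_lit 0x119) (nat_lit 1) (p (nat_lit 0xd1) (nat_lit 0) (p (nat_lit 0x81) (nat_lit 0) (p (nat_lit 0x41) (nat_lit 1) (p (nat_lit 0x10a898a08881a) (nat_lit 0) (p (nat_lit 0x8a090988079a) (nat_lit 0) (p (nat_lit 0x108088907871a) (nat_lit 0) (p (nat_lit 0x87880887069a) (nat_lit 0) (p (nat_lit 0x8000080000000088806860a) (nat_lit 0) (p (nat_lit 0x8000080000000068786058a) (nat_lit 0) (p (nat_lit 0x10687058502) (nat_lit 0) (p (nat_lit 0x8606850482) (nat_lit 0) (p (nat_lit 0x160004) (nat_lit 0) (p (nat_lit 0x68612) (nat_lit 0) (p (nat_lit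 0x50592) (nat_lit 0) (p (nat_lit 0x40512) (nat_lit 0) (p (nat_lit 0x50312) (nat_lit 0) (p (nat_lit 0x38292) (nat_lit 0) (p (nat_lit 0x28212) (nat_lit 0) (p (nat_lit 0x38112) (nat_lit 0) (p (nat_lit 0x20092) (nat_lit 0) (p (nat_lit 0x10012) (nat_lit 0) pn)))))))))))))))))))))))))))) :=
  Cl.node (nat_lit 0x20000c) (nat_lit 2) (by decide +kernel) (ClAll.succ (ClAll.succ ClAll.zero n426) s1349)

def n516 : Cl (O (nat_lit 6)) (R (nat_lit 143633))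
    (p (nat_lit 0x380c2) (nat_lit 0) (p (nat_lit 0x4c42a) (nat_lit 2) (p (nat_lit 0x119) (nat_lit 1) (p (nat_lit 0x89) (nat_lit 0) (p (nat_lit 0x109) (nat_lit 1) (p (nat_lit 0x101) (nat_lit 0) (p (nat_lit 0x111) (nat_lit 0) (p (nat_lit 0xd1) (nat_lit 1) (p (nat_lit 0x81) (nat_lit 0) (p (nat_lit 0x41) (nat_lit 1) (p (nat_lit 0x10a898a08881a) (nat_lit 0) (p (nat_lit 0x8a090988079a) (nat_lit 0) (p (nat_lit 0x108088907871a) (nat_lit 0) (p (nat_lit 0x87880887069a) (nat_lit 0) (p (nat_lit 0x8000080000000088806860a) (nat_lit 0) (p (nat_lit 0x8000080000000068786058a) (nat_lit 0) (p (nat_lit 0x10687058502) (nat_lit 0) (p (nat_lit 0x8606850482) (nat_lit 0) (p (nat_lit 0x160004) (nat_lit 0) (p (nat_lit 0x68612) (nat_lit 0) (p (nat_lit 0x50592) (nat_lit 0) (p (nat_lit 0x40512) (nat_lit 0) (p (nat_lit 0x50312) (nat_lit 0) (p (nat_lit 0x38292) (nat_lit 0) (p (nat_lit 0x28212) (nat_lit 0) (p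 (nat_lit 0x38112) (nat_lit 0) (p (nat_lit 0x20092) (nat_lit 0) (p (nat_lit 0x10012) (nat_lit 0) pn)))))))))))))))))))))))))))) :=
  Cl.node (nat_lit 0x200014) (nat_lit 2) (by decide +kernel) (ClAll.succ (ClAll.succ ClAll.zero n427) s1361)

def n517 : Cl (O (nat_lit 6)) (R (nat_lit 143633))
    (p (nat_lit 0x4c42a) (nat_lit 2) (p (nat_lit 0x119) (nat_lit 0) (p (nat_lit 0xc9) (nat_lit 0) (p (nat_lit 0x89) (nat_lit 1) (p (nat_lit 0x109) (nat_lit 1) (p (nat_lit 0x101) (nat_lit 0) (p (nat_lit 0x111) (nat_lit 0) (p (nat_lit 0xd1) (nat_lit 1) (p (nat_lit 0x81) (nat_lit 0) (p (nat_lit 0x41) (nat_lit 1) (p (nat_lit 0x10a898a08881a) (nat_lit 0) (p (nat_lit 0x8a090988079a) (nat_lit 0) (p (nat_lit 0x108088907871a) (nat_lit 0) (p (nat_lit 0x87880887069a) (nat_lit 0) (p (nat_lit 0x8000080000000088806860a) (nat_lit 0) (p (nat_lit 0x8000080000000068786058a) (nat_lit 0) (p (nat_lit 0x10687058502)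 (nat_lit 0) (p (nat_lit 0x8606850482) (nat_lit 0) (p (nat_lit 0x160004) (nat_lit 0) (p (nat_lit 0x68612) (nat_lit 0) (p (nat_lit 0x50592) (nat_lit 0) (p (nat_lit 0x40512) (nat_lit 0) (p (nat_lit 0x50312) (nat_lit 0) (p (nat_lit 0x38292) (nat_lit 0) (p (nat_lit 0x28212) (nat_lit 0) (p (nat_lit 0x38112) (nat_lit 0) (p (nat_lit 0x20092) (nat_lit 0) (p (nat_lit 0x10012) (nat_lit 0) pn)))))))))))))))))))))))))))) :=
  Cl.node (nat_lit 0x380c2) (nat_lit 1) (by decide +kernel) (ClAll.succ ClAll.zero n428)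

def n518 : Cl (O (nat_lit 6)) (R (nat_lit 143633))
    (p (nat_lit 0x4c42a) (nat_lit 2) (p (nat_lit 0x119) (nat_lit 1) (p (nat_lit 0xc9) (nat_lit 0) (p (nat_lit 0x89) (nat_lit 1) (p (nat_lit 0x109) (nat_lit 1) (p (nat_lit 0x101) (nat_lit 0) (p (nat_lit 0x111) (nat_lit 0) (p (nat_lit 0xd1) (nat_lit 1) (p (nat_lit 0x81) (nat_lit 0) (p (nat_lit 0x41) (nat_lit 1) (p (nat_lit 0x10a898a08881a) (nat_lit 0) (p (nat_lit 0x8a090988079a) (nat_lit 0) (p (nat_lit 0x108088907871a) (nat_lit 0) (p (nat_lit 0x87880887069a) (nat_lit 0) (p (nat_lit 0x8000080000000088806860a) (nat_lit 0) (p (nat_lit 0x8000080000000068786058a) (nat_lit 0) (p (nat_lit 0x10687058502) (nat_lit 0) (p (nat_lit 0x8606850482) (nat_lit 0) (p (nat_lit 0x160004) (nat_lit 0) (p (nat_lit 0x68612) (nat_lit 0) (p (nat_lit 0x50592) (nat_lit 0) (p (nat_lit 0x40512) (nat_lit 0) (p (nat_lit 0x50312) (nat_lit 0) (p (nat_lit 0x38292)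 (nat_lit 0) (p (nat_lit 0x28212) (nat_lit 0) (p (nat_lit 0x38112) (nat_lit 0) (p (nat_lit 0x20092) (nat_lit 0) (p (nat_lit 0x10012) (nat_lit 0) pn)))))))))))))))))))))))))))) :=
  Cl.node (nat_lit 0x380c2) (nat_lit 1) (by decide +kernel) (ClAll.succ ClAll.zero n429)

def n519 : Cl (O (nat_lit 6)) (R (nat_lit 143633))
    (p (nat_lit 0x4c42a) (nat_lit 8) (p (nat_lit 0x119) (nat_lit 1) (p (nat_lit 0xc9) (nat_lit 0) (p (nat_lit 0x89) (nat_lit 1) (p (nat_lit 0x109) (nat_lit 1) (p (nat_lit 0x101) (nat_lit 0) (p (nat_lit 0x111) (nat_lit 0) (p (nat_lit 0xd1) (nat_lit 1) (p (nat_lit 0x81) (nat_lit 0) (p (nat_lit 0x41) (nat_lit 1) (p (nat_lit 0x10a898a08881a) (nat_lit 0) (p (nat_lit 0x8a090988079a) (nat_lit 0) (p (nat_lit 0x108088907871a) (nat_lit 0) (p (nat_lit 0x87880887069a) (nat_lit 0) (p (nat_lit 0x8000080000000088806860a) (nat_lit 0) (p (nat_lit 0x8000080000000068786058a) (nat_lit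 0) (p (nat_lit 0x10687058502) (nat_lit 0) (p (nat_lit 0x8606850482) (nat_lit 0) (p (nat_lit 0x160004) (nat_lit 0) (p (nat_lit 0x68612) (nat_lit 0) (p (nat_lit 0x50592) (nat_lit 0) (p (nat_lit 0x40512) (nat_lit 0) (p (nat_lit 0x50312) (nat_lit 0) (p (nat_lit 0x38292) (nat_lit 0) (p (nat_lit 0x28212) (nat_lit 0) (p (nat_lit 0x38112) (nat_lit 0) (p (nat_lit 0x20092) (nat_lit 0) (p (nat_lit 0x10012) (nat_lit 0) pn)))))))))))))))))))))))))))) :=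
  Cl.node (nat_lit 0x380c2) (nat_lit 2) (by decide +kernel) (ClAll.succ (ClAll.succ ClAll.zero n430) s1417)

def n520 : Cl (O (nat_lit 6)) (R (nat_lit 143633))
    (p (nat_lit 0x200014) (nat_lit 0) (p (nat_lit 0x380c2) (nat_lit 0) (p (nat_lit 0x3cc2a) (nat_lit 11) (p (nat_lit 0xc9) (nat_lit 0) (p (nat_lit 0x89) (nat_lit 1) (p (nat_lit 0x101) (nat_lit 1) (p (nat_lit 0x111) (nat_lit 0) (p (nat_lit 0xd1) (nat_lit 1) (p (nat_lit 0x81) (nat_lit 0) (p (nat_lit 0x41) (nat_lit 1) (p (nat_lit 0x10a898a08881a) (nat_lit 0) (p (nat_lit 0x8a090988079a) (nat_lit 0) (p (nat_lit 0x108088907871a) (nat_lit 0) (p (nat_lit 0x87880887069a) (nat_lit 0) (p (nat_lit 0x8000080000000088806860a) (nat_lit 0) (p (nat_lit 0x8000080000000068786058a) (nat_lit 0) (p (nat_lit 0x10687058502) (nat_lit 0) (p (nat_lit 0x8606850482) (nat_lit 0) (p (nat_lit 0x160004) (nat_lit 0) (p (nat_lit 0x68612) (nat_lit 0) (p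 (nat_lit 0x50592) (nat_lit 0) (p (nat_lit 0x40512) (nat_lit 0) (p (nat_lit 0x50312) (nat_lit 0) (p (nat_lit 0x38292) (nat_lit 0) (p (nat_lit 0x28212) (nat_lit 0) (p (nat_lit 0x38112) (nat_lit 0) (p (nat_lit 0x20092) (nat_lit 0) (p (nat_lit 0x10012) (nat_lit 0) pn)))))))))))))))))))))))))))) :=
  Cl.node (nat_lit 0x20000c) (nat_lit 2) (by decide +kernel) (ClAll.succ (ClAll.succ ClAll.zero n431) s1450)

def n521 : Cl (O (nat_lit 6)) (R (nat_lit 143633))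
    (p (nat_lit 0x380c2) (nat_lit 0) (p (nat_lit 0x3c4aa) (nat_lit 7) (p (nat_lit 0xd1) (nat_lit 1) (p (nat_lit 0x111) (nat_lit 1) (p (nat_lit 0x109) (nat_lit 0) (p (nat_lit 0x101) (nat_lit 0) (p (nat_lit 0x119) (nat_lit 0) (p (nat_lit 0xc1) (nat_lit 0) (p (nat_lit 0x81) (nat_lit 1) (p (nat_lit 0x41) (nat_lit 1) (p (nat_lit 0x10a898a08881a) (nat_lit 0) (p (nat_lit 0x8a090988079a) (nat_lit 0) (p (nat_lit 0x108088907871a) (nat_lit 0) (p (nat_lit 0x87880887069a) (nat_lit 0) (p (nat_lit 0x8000080000000088806860a) (nat_lit 0) (p (nat_lit 0x8000080000000068786058a) (nat_lit 0) (p (nat_lit 0x10687058502) (nat_lit 0) (p (nat_lit 0x8606850482) (nat_lit 0) (p (nat_lit 0x160004) (nat_lit 0) (p (nat_lit 0x68612) (nat_lit 0) (p (nat_lit 0x50592) (nat_lit 0) (p (nat_lit 0x40512) (nat_lit 0) (p (nat_lit 0x50312) (nat_lit 0) (p (nat_lit 0x38292) (nat_lit 0) (p (nat_lit 0x28212) (nat_lit 0) (p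 (nat_lit 0x38112) (nat_lit 0) (p (nat_lit 0x20092) (nat_lit 0) (p (nat_lit 0x10012) (nat_lit 0) pn)))))))))))))))))))))))))))) :=
  Cl.node (nat_lit 0xb0004) (nat_lit 2) (by decide +kernel) (ClAll.succ (ClAll.succ ClAll.zero n432) n433)

def n522 : Cl (O (nat_lit 6)) (R (nat_lit 143633))
    (p (nat_lit 0x380c2) (nat_lit 1) (p (nat_lit 0x3c4aa) (nat_lit 7) (p (nat_lit 0xd1) (nat_lit 1) (p (nat_lit 0x111) (nat_lit 1) (p (nat_lit 0x109) (nat_lit 0) (p (nat_lit 0x101) (nat_lit 0) (p (nat_lit 0x119) (nat_lit 0) (p (nat_lit 0xc1) (nat_lit 0) (p (nat_lit 0x81) (nat_lit 1) (p (nat_lit 0x41) (nat_lit 1) (p (nat_lit 0x10a898a08881a) (nat_lit 0) (p (nat_lit 0x8a090988079a) (nat_lit 0) (p (nat_lit 0x108088907871a) (nat_lit 0) (p (nat_lit 0x87880887069a) (nat_lit 0) (p (nat_lit 0x8000080000000088806860a) (nat_lit 0) (p (nat_lit 0x8000080000000068786058a) (nat_lit 0) (p (nat_lit 0x10687058502)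 (nat_lit 0) (p (nat_lit 0x8606850482) (nat_lit 0) (p (nat_lit 0x160004) (nat_lit 0) (p (nat_lit 0x68612) (nat_lit 0) (p (nat_lit 0x50592) (nat_lit 0) (p (nat_lit 0x40512) (nat_lit 0) (p (nat_lit 0x50312) (nat_lit 0) (p (nat_lit 0x38292) (nat_lit 0) (p (nat_lit 0x28212) (nat_lit 0) (p (nat_lit 0x38112) (nat_lit 0) (p (nat_lit 0x20092) (nat_lit 0) (p (nat_lit 0x10012) (nat_lit 0) pn)))))))))))))))))))))))))))) :=
  Cl.node (nat_lit 0xb0004) (nat_lit 2) (by decide +kernel) (ClAll.succ (ClAll.succ ClAll.zero n434) n435)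

def n523 : Cl (O (nat_lit 6)) (R (nat_lit 143633))
    (p (nat_lit 0x380c2) (nat_lit 0) (p (nat_lit 0x3c4aa) (nat_lit 7) (p (nat_lit 0xd1) (nat_lit 1) (p (nat_lit 0xc9) (nat_lit 0) (p (nat_lit 0x109) (nat_lit 1) (p (nat_lit 0x101) (nat_lit 0) (p (nat_lit 0x119) (nat_lit 0) (p (nat_lit 0xc1) (nat_lit 0) (p (nat_lit 0x81) (nat_lit 1) (p (nat_lit 0x41) (nat_lit 1) (p (nat_lit 0x10a898a08881a) (nat_lit 0) (p (nat_lit 0x8a090988079a) (nat_lit 0) (p (nat_lit 0x108088907871a) (nat_lit 0) (p (nat_lit 0x87880887069a) (nat_lit 0) (p (nat_lit 0x8000080000000088806860a) (nat_lit 0) (p (nat_lit 0x8000080000000068786058a) (nat_lit 0) (p (nat_lit 0x10687058502) (nat_lit 0) (p (nat_lit 0x8606850482) (nat_lit 0) (p (nat_lit 0x160004) (nat_lit 0) (p (nat_lit 0x68612) (nat_lit 0) (p (nat_lit 0x50592) (nat_lit 0) (p (nat_lit 0x40512) (nat_lit 0) (p (nat_lit 0x50312) (nat_lit 0) (p (nat_lit 0x38292)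 (nat_lit 0) (p (nat_lit 0x28212) (nat_lit 0) (p (nat_lit 0x38112) (nat_lit 0) (p (nat_lit 0x20092) (nat_lit 0) (p (nat_lit 0x10012) (nat_lit 0) pn)))))))))))))))))))))))))))) :=
  Cl.node (nat_lit 0xb0004) (nat_lit 2) (by decide +kernel) (ClAll.succ (ClAll.succ ClAll.zero n436) s1589)

def n524 : Cl (O (nat_lit 6)) (R (nat_lit 143633))
    (p (nat_lit 0x380c2) (nat_lit 1) (p (nat_lit 0x3c4aa) (nat_lit 7) (p (nat_lit 0xd1) (nat_lit 1) (p (nat_lit 0xc9) (nat_lit 0) (p (nat_lit 0x109) (nat_lit 1) (p (nat_lit 0x101) (nat_lit 0) (p (nat_lit 0x119) (nat_lit 0) (p (nat_lit 0xc1) (nat_lit 0) (p (nat_lit 0x81) (nat_lit 1) (p (nat_lit 0x41) (nat_lit 1) (p (nat_lit 0x10a898a08881a) (nat_lit 0) (p (nat_lit 0x8a090988079a) (nat_lit 0) (p (nat_lit 0x108088907871a) (nat_lit 0) (p (nat_lit 0x87880887069a) (nat_lit 0) (p (nat_lit 0x8000080000000088806860a) (nat_lit 0) (p (nat_lit 0x8000080000000068786058a)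 (nat_lit 0) (p (nat_lit 0x10687058502) (nat_lit 0) (p (nat_lit 0x8606850482) (nat_lit 0) (p (nat_lit 0x160004) (nat_lit 0) (p (nat_lit 0x68612) (nat_lit 0) (p (nat_lit 0x50592) (nat_lit 0) (p (nat_lit 0x40512) (nat_lit 0) (p (nat_lit 0x50312) (nat_lit 0) (p (nat_lit 0x38292) (nat_lit 0) (p (nat_lit 0x28212) (nat_lit 0) (p (nat_lit 0x38112) (nat_lit 0) (p (nat_lit 0x20092) (nat_lit 0) (p (nat_lit 0x10012) (nat_lit 0) pn)))))))))))))))))))))))))))) :=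
  Cl.node (nat_lit 0xb0004) (nat_lit 2) (by decide +kernel) (ClAll.succ (ClAll.succ ClAll.zero n437) s1605)

def n525 : Cl (O (nat_lit 6)) (R (nat_lit 143633))
    (p (nat_lit 0x20000c) (nat_lit 0) (p (nat_lit 0x380c2) (nat_lit 0) (p (nat_lit 0x44c2a) (nat_lit 1) (p (nat_lit 0xd1) (nat_lit 0) (p (nat_lit 0xc9) (nat_lit 0) (p (nat_lit 0x101) (nat_lit 1) (p (nat_lit 0x119) (nat_lit 0) (p (nat_lit 0xc1) (nat_lit 0) (p (nat_lit 0x81) (nat_lit 1) (p (nat_lit 0x41) (nat_lit 1) (p (nat_lit 0x10a898a08881a) (nat_lit 0) (p (nat_lit 0x8a090988079a) (nat_lit 0) (p (nat_lit 0x108088907871a) (nat_lit 0) (p (nat_lit 0x87880887069a) (nat_lit 0) (p (nat_lit 0x8000080000000088806860a) (nat_lit 0) (p (nat_lit 0x8000080000000068786058a) (nat_lit 0) (p (nat_lit 0x10687058502) (nat_lit 0) (p (nat_lit 0x8606850482) (nat_lit 0) (p (nat_lit 0x160004) (nat_lit 0) (p (nat_lit 0x68612) (nat_lit 0) (p (nat_lit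 0x50592) (nat_lit 0) (p (nat_lit 0x40512) (nat_lit 0) (p (nat_lit 0x50312) (nat_lit 0) (p (nat_lit 0x38292) (nat_lit 0) (p (nat_lit 0x28212) (nat_lit 0) (p (nat_lit 0x38112) (nat_lit 0) (p (nat_lit 0x20092) (nat_lit 0) (p (nat_lit 0x10012) (nat_lit 0) pn)))))))))))))))))))))))))))) :=
  Cl.node (nat_lit 0x10000c) (nat_lit 2) (by decide +kernel) (ClAll.succ (ClAll.succ ClAll.zero n438) s1617)

def n526 : Cl (O (nat_lit 6)) (R (nat_lit 143633))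
    (p (nat_lit 0xb0004) (nat_lit 0) (p (nat_lit 0x380c2) (nat_lit 0) (p (nat_lit 0x3c4aa) (nat_lit 7) (p (nat_lit 0xd1) (nat_lit 1) (p (nat_lit 0xc9) (nat_lit 0) (p (nat_lit 0x101) (nat_lit 1) (p (nat_lit 0x119) (nat_lit 0) (p (nat_lit 0xc1) (nat_lit 0) (p (nat_lit 0x81) (nat_lit 1) (p (nat_lit 0x41) (nat_lit 1) (p (nat_lit 0x10a898a08881a) (nat_lit 0) (p (nat_lit 0x8a090988079a) (nat_lit 0) (p (nat_lit 0x108088907871a) (nat_lit 0) (p (nat_lit 0x87880887069a) (nat_lit 0) (p (nat_lit 0x8000080000000088806860a) (nat_lit 0) (p (nat_lit 0x8000080000000068786058a) (nat_lit 0) (p (nat_lit 0x10687058502) (nat_lit 0) (p (nat_lit 0x8606850482) (nat_lit 0) (p (nat_lit 0x160004) (nat_lit 0) (p (nat_lit 0x68612) (nat_lit 0) (p (nat_lit 0x50592) (nat_lit 0) (p (nat_lit 0x40512) (nat_lit 0) (p (nat_lit 0x50312) (nat_lit 0) (p (nat_lit 0x38292) (nat_lit 0) (p (nat_lit 0x28212) (nat_lit 0)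 (p (nat_lit 0x38112) (nat_lit 0) (p (nat_lit 0x20092) (nat_lit 0) (p (nat_lit 0x10012) (nat_lit 0) pn)))))))))))))))))))))))))))) :=
  Cl.node (nat_lit 0x20000c) (nat_lit 2) (by decide +kernel) (ClAll.succ (ClAll.succ ClAll.zero n439) s1652)

def n527 : Cl (O (nat_lit 6)) (R (nat_lit 143633))
    (p (nat_lit 0xb0004) (nat_lit 1) (p (nat_lit 0x380c2) (nat_lit 0) (p (nat_lit 0x3c4aa) (nat_lit 7) (p (nat_lit 0xd1) (nat_lit 1) (p (nat_lit 0xc9) (nat_lit 0) (p (nat_lit 0x101) (nat_lit 1) (p (nat_lit 0x119) (nat_lit 0) (p (nat_lit 0xc1) (nat_lit 0) (p (nat_lit 0x81) (nat_lit 1) (p (nat_lit 0x41) (nat_lit 1) (p (nat_lit 0x10a898a08881a) (nat_lit 0) (p (nat_lit 0x8a090988079a) (nat_lit 0) (p (nat_lit 0x108088907871a) (nat_lit 0) (p (nat_lit 0x87880887069a) (nat_lit 0) (p (nat_lit 0x8000080000000088806860a) (nat_lit 0) (p (nat_lit 0x8000080000000068786058a) (nat_lit 0) (p (nat_lit 0x10687058502)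 (nat_lit 0) (p (nat_lit 0x8606850482) (nat_lit 0) (p (nat_lit 0x160004) (nat_lit 0) (p (nat_lit 0x68612) (nat_lit 0) (p (nat_lit 0x50592) (nat_lit 0) (p (nat_lit 0x40512) (nat_lit 0) (p (nat_lit 0x50312) (nat_lit 0) (p (nat_lit 0x38292) (nat_lit 0) (p (nat_lit 0x28212) (nat_lit 0) (p (nat_lit 0x38112) (nat_lit 0) (p (nat_lit 0x20092) (nat_lit 0) (p (nat_lit 0x10012) (nat_lit 0) pn)))))))))))))))))))))))))))) :=
  Cl.node (nat_lit 0x1fc00c) (nat_lit 2) (by decide +kernel) (ClAll.succ (ClAll.succ ClAll.zero n440) s1662)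

def n528 : Cl (O (nat_lit 6)) (R (nat_lit 143633))
    (p (nat_lit 0x20000c) (nat_lit 0) (p (nat_lit 0x380c2) (nat_lit 1) (p (nat_lit 0x3c4aa) (nat_lit 7) (p (nat_lit 0xd1) (nat_lit 1) (p (nat_lit 0xc9) (nat_lit 0) (p (nat_lit 0x101) (nat_lit 1) (p (nat_lit 0x119) (nat_lit 0) (p (nat_lit 0xc1) (nat_lit 0) (p (nat_lit 0x81) (nat_lit 1) (p (nat_lit 0x41) (nat_lit 1) (p (nat_lit 0x10a898a08881a) (nat_lit 0) (p (nat_lit 0x8a090988079a) (nat_lit 0) (p (nat_lit 0x108088907871a) (nat_lit 0) (p (nat_lit 0x87880887069a) (nat_lit 0) (p (nat_lit 0x8000080000000088806860a) (nat_lit 0) (p (nat_lit 0x8000080000000068786058a) (nat_lit 0) (p (nat_lit 0x10687058502) (nat_lit 0) (p (nat_lit 0x8606850482) (nat_lit 0) (p (nat_lit 0x160004) (nat_lit 0) (p (nat_lit 0x68612) (nat_lit 0) (p (nat_lit 0x50592) (nat_lit 0) (p (nat_lit 0x40512) (nat_lit 0) (p (nat_lit 0x50312) (nat_lit 0) (p (nat_lit 0x38292)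 (nat_lit 0) (p (nat_lit 0x28212) (nat_lit 0) (p (nat_lit 0x38112) (nat_lit 0) (p (nat_lit 0x20092) (nat_lit 0) (p (nat_lit 0x10012) (nat_lit 0) pn)))))))))))))))))))))))))))) :=
  Cl.node (nat_lit 0x200014) (nat_lit 2) (by decide +kernel) (ClAll.succ (ClAll.succ ClAll.zero n441) s1683)

def n529 : Cl (O (nat_lit 6)) (R (nat_lit 143633))
    (p (nat_lit 0xb0004) (nat_lit 1) (p (nat_lit 0x380c2) (nat_lit 0) (p (nat_lit 0x3c4aa) (nat_lit 7) (p (nat_lit 0x111) (nat_lit 1) (p (nat_lit 0xd1) (nat_lit 1) (p (nat_lit 0xc9) (nat_lit 0) (p (nat_lit 0x119) (nat_lit 1) (p (nat_lit 0xc1) (nat_lit 0) (p (nat_lit 0x81) (nat_lit 1) (p (nat_lit 0x41) (nat_lit 1) (p (nat_lit 0x10a898a08881a) (nat_lit 0) (p (nat_lit 0x8a090988079a) (nat_lit 0) (p (nat_lit 0x108088907871a) (nat_lit 0) (p (nat_lit 0x87880887069a) (nat_lit 0) (p (nat_lit 0x8000080000000088806860a) (nat_lit 0) (p (nat_lit 0x8000080000000068786058a)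 (nat_lit 0) (p (nat_lit 0x10687058502) (nat_lit 0) (p (nat_lit 0x8606850482) (nat_lit 0) (p (nat_lit 0x160004) (nat_lit 0) (p (nat_lit 0x68612) (nat_lit 0) (p (nat_lit 0x50592) (nat_lit 0) (p (nat_lit 0x40512) (nat_lit 0) (p (nat_lit 0x50312) (nat_lit 0) (p (nat_lit 0x38292) (nat_lit 0) (p (nat_lit 0x28212) (nat_lit 0) (p (nat_lit 0x38112) (nat_lit 0) (p (nat_lit 0x20092) (nat_lit 0) (p (nat_lit 0x10012) (nat_lit 0) pn)))))))))))))))))))))))))))) :=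
  Cl.node (nat_lit 0x1fc00c) (nat_lit 2) (by decide +kernel) (ClAll.succ (ClAll.succ ClAll.zero n442) s1706)

def n530 : Cl (O (nat_lit 6)) (R (nat_lit 143633))
    (p (nat_lit 0x20000c) (nat_lit 0) (p (nat_lit 0x380c2) (nat_lit 1) (p (nat_lit 0x3c4aa) (nat_lit 7) (p (nat_lit 0x111) (nat_lit 1) (p (nat_lit 0xd1) (nat_lit 1) (p (nat_lit 0xc9) (nat_lit 0) (p (nat_lit 0x119) (nat_lit 1) (p (nat_lit 0xc1) (nat_lit 0) (p (nat_lit 0x81) (nat_lit 1) (p (nat_lit 0x41) (nat_lit 1) (p (nat_lit 0x10a898a08881a) (nat_lit 0) (p (nat_lit 0x8a090988079a) (nat_lit 0) (p (nat_lit 0x108088907871a) (nat_lit 0) (p (nat_lit 0x87880887069a) (nat_lit 0) (p (nat_lit 0x8000080000000088806860a) (nat_lit 0) (p (nat_lit 0x8000080000000068786058a) (nat_lit 0) (p (nat_lit 0x10687058502) (nat_lit 0) (p (nat_lit 0x8606850482) (nat_lit 0) (p (nat_lit 0x160004) (nat_lit 0) (p (nat_lit 0x68612) (nat_lit 0) (p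 (nat_lit 0x50592) (nat_lit 0) (p (nat_lit 0x40512) (nat_lit 0) (p (nat_lit 0x50312) (nat_lit 0) (p (nat_lit 0x38292) (nat_lit 0) (p (nat_lit 0x28212) (nat_lit 0) (p (nat_lit 0x38112) (nat_lit 0) (p (nat_lit 0x20092) (nat_lit 0) (p (nat_lit 0x10012) (nat_lit 0) pn)))))))))))))))))))))))))))) :=
  Cl.node (nat_lit 0xb0004) (nat_lit 2) (by decide +kernel) (ClAll.succ (ClAll.succ ClAll.zero n443) s1711)

def n531 : Cl (O (nat_lit 6)) (R (nat_lit 143633))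
    (p (nat_lit 0xb0004) (nat_lit 0) (p (nat_lit 0x380c2) (nat_lit 0) (p (nat_lit 0x3c4aa) (nat_lit 7) (p (nat_lit 0x111) (nat_lit 1) (p (nat_lit 0x109) (nat_lit 0) (p (nat_lit 0xc9) (nat_lit 1) (p (nat_lit 0x119) (nat_lit 1) (p (nat_lit 0xc1) (nat_lit 0) (p (nat_lit 0x81) (nat_lit 1) (p (nat_lit 0x41) (nat_lit 1) (p (nat_lit 0x10a898a08881a) (nat_lit 0) (p (nat_lit 0x8a090988079a) (nat_lit 0) (p (nat_lit 0x108088907871a) (nat_lit 0) (p (nat_lit 0x87880887069a) (nat_lit 0) (p (nat_lit 0x8000080000000088806860a) (nat_lit 0) (p (nat_lit 0x8000080000000068786058a) (nat_lit 0) (p (nat_lit 0x10687058502) (nat_lit 0) (p (nat_lit 0x8606850482) (nat_lit 0) (p (nat_lit 0x160004) (nat_lit 0) (p (nat_lit 0x68612) (nat_lit 0) (p (nat_lit 0x50592) (nat_lit 0) (p (nat_lit 0x40512) (nat_lit 0) (p (nat_lit 0x50312) (nat_lit 0) (p (nat_lit 0x38292) (nat_lit 0) (p (nat_lit 0x28212) (nat_lit 0)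 (p (nat_lit 0x38112) (nat_lit 0) (p (nat_lit 0x20092) (nat_lit 0) (p (nat_lit 0x10012) (nat_lit 0) pn)))))))))))))))))))))))))))) :=
  Cl.node (nat_lit 0x20000c) (nat_lit 2) (by decide +kernel) (ClAll.succ (ClAll.succ ClAll.zero n444) s1743)

def n532 : Cl (O (nat_lit 6)) (R (nat_lit 143633))
    (p (nat_lit 0xb0004) (nat_lit 0) (p (nat_lit 0x380c2) (nat_lit 1) (p (nat_lit 0x3c4aa) (nat_lit 7) (p (nat_lit 0x111) (nat_lit 1) (p (nat_lit 0x109) (nat_lit 0) (p (nat_lit 0xc9) (nat_lit 1) (p (nat_lit 0x119) (nat_lit 1) (p (nat_lit 0xc1) (nat_lit 0) (p (nat_lit 0x81) (nat_lit 1) (p (nat_lit 0x41) (nat_lit 1) (p (nat_lit 0x10a898a08881a) (nat_lit 0) (p (nat_lit 0x8a090988079a) (nat_lit 0) (p (nat_lit 0x108088907871a) (nat_lit 0) (p (nat_lit 0x87880887069a) (nat_lit 0) (p (nat_lit 0x8000080000000088806860a) (nat_lit 0) (p (nat_lit 0x8000080000000068786058a) (nat_lit 0) (p (nat_lit 0x10687058502)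 (nat_lit 0) (p (nat_lit 0x8606850482) (nat_lit 0) (p (nat_lit 0x160004) (nat_lit 0) (p (nat_lit 0x68612) (nat_lit 0) (p (nat_lit 0x50592) (nat_lit 0) (p (nat_lit 0x40512) (nat_lit 0) (p (nat_lit 0x50312) (nat_lit 0) (p (nat_lit 0x38292) (nat_lit 0) (p (nat_lit 0x28212) (nat_lit 0) (p (nat_lit 0x38112) (nat_lit 0) (p (nat_lit 0x20092) (nat_lit 0) (p (nat_lit 0x10012) (nat_lit 0) pn)))))))))))))))))))))))))))) :=
  Cl.node (nat_lit 0x20000c) (nat_lit 2) (by decide +kernel) (ClAll.succ (ClAll.succ ClAll.zero n445) s1750)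

def n533 : Cl (O (nat_lit 6)) (R (nat_lit 143633))
    (p (nat_lit 0xd1) (nat_lit 0) (p (nat_lit 0x200014) (nat_lit 0) (p (nat_lit 0x380c2) (nat_lit 0) (p (nat_lit 0x3c4aa) (nat_lit 10) (p (nat_lit 0x109) (nat_lit 1) (p (nat_lit 0xc9) (nat_lit 1) (p (nat_lit 0x119) (nat_lit 1) (p (nat_lit 0xc1) (nat_lit 0) (p (nat_lit 0x81) (nat_lit 1) (p (nat_lit 0x41) (nat_lit 1) (p (nat_lit 0x10a898a08881a) (nat_lit 0) (p (nat_lit 0x8a090988079a) (nat_lit 0) (p (nat_lit 0x108088907871a) (nat_lit 0) (p (nat_lit 0x87880887069a) (nat_lit 0) (p (nat_lit 0x8000080000000088806860a) (nat_lit 0) (p (nat_lit 0x8000080000000068786058a) (nat_lit 0) (p (nat_lit 0x10687058502) (nat_lit 0) (p (nat_lit 0x8606850482) (nat_lit 0) (p (nat_lit 0x160004) (nat_lit 0) (p (nat_lit 0x68612) (nat_lit 0) (p (nat_lit 0x50592) (nat_lit 0) (p (nat_lit 0x40512) (nat_lit 0) (p (nat_lit 0x50312) (nat_lit 0) (p (nat_lit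 0x38292) (nat_lit 0) (p (nat_lit 0x28212) (nat_lit 0) (p (nat_lit 0x38112) (nat_lit 0) (p (nat_lit 0x20092) (nat_lit 0) (p (nat_lit 0x10012) (nat_lit 0) pn)))))))))))))))))))))))))))) :=
  Cl.node (nat_lit 0xb0004) (nat_lit 2) (by decide +kernel) (ClAll.succ (ClAll.succ ClAll.zero s1766) s1767)

def n534 : Cl (O (nat_lit 6)) (R (nat_lit 143633))
    (p (nat_lit 0x444aa) (nat_lit 7) (p (nat_lit 0x81) (nat_lit 1) (p (nat_lit 0xc9) (nat_lit 1) (p (nat_lit 0x109) (nat_lit 1) (p (nat_lit 0x101) (nat_lit 0) (p (nat_lit 0x119) (nat_lit 0) (p (nat_lit 0xd1) (nat_lit 0) (p (nat_lit 0x89) (nat_lit 0) (p (nat_lit 0x41) (nat_lit 0) (p (nat_lit 0x10a898a08881a) (nat_lit 0) (p (nat_lit 0x8a090988079a) (nat_lit 0) (p (nat_lit 0x108088907871a) (nat_lit 0) (p (nat_lit 0x87880887069a) (nat_lit 0) (p (nat_lit 0x8000080000000088806860a) (nat_lit 0) (p (nat_lit 0x8000080000000068786058a) (nat_lit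 0) (p (nat_lit 0x10687058502) (nat_lit 0) (p (nat_lit 0x8606850482) (nat_lit 0) (p (nat_lit 0x160004) (nat_lit 0) (p (nat_lit 0x68612) (nat_lit 0) (p (nat_lit 0x50592) (nat_lit 0) (p (nat_lit 0x40512) (nat_lit 0) (p (nat_lit 0x50312) (nat_lit 0) (p (nat_lit 0x38292) (nat_lit 0) (p (nat_lit 0x28212) (nat_lit 0) (p (nat_lit 0x38112) (nat_lit 0) (p (nat_lit 0x20092) (nat_lit 0) (p (nat_lit 0x10012) (nat_lit 0) pn))))))))))))))))))))))))))) :=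
  Cl.node (nat_lit 0x380c2) (nat_lit 2) (by decide +kernel) (ClAll.succ (ClAll.succ ClAll.zero n446) n447)

def n535 : Cl (O (nat_lit 6)) (R (nat_lit 143633))
    (p (nat_lit 0x444aa) (nat_lit 8) (p (nat_lit 0x81) (nat_lit 1) (p (nat_lit 0xc9) (nat_lit 1) (p (nat_lit 0x109) (nat_lit 1) (p (nat_lit 0x101) (nat_lit 0) (p (nat_lit 0x119) (nat_lit 0) (p (nat_lit 0xd1) (nat_lit 0) (p (nat_lit 0x89) (nat_lit 0) (p (nat_lit 0x41) (nat_lit 0) (p (nat_lit 0x10a898a08881a) (nat_lit 0) (p (nat_lit 0x8a090988079a) (nat_lit 0) (p (nat_lit 0x108088907871a) (nat_lit 0) (p (nat_lit 0x87880887069a) (nat_lit 0) (p (nat_lit 0x8000080000000088806860a) (nat_lit 0) (p (nat_lit 0x8000080000000068786058a) (nat_lit 0) (p (nat_lit 0x10687058502) (nat_lit 0) (p (nat_lit 0x8606850482) (nat_lit 0) (p (nat_lit 0x160004) (nat_lit 0) (p (nat_lit 0x68612) (nat_lit 0) (p (nat_lit 0x50592) (nat_lit 0) (p (nat_lit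 0x40512) (nat_lit 0) (p (nat_lit 0x50312) (nat_lit 0) (p (nat_lit 0x38292) (nat_lit 0) (p (nat_lit 0x28212) (nat_lit 0) (p (nat_lit 0x38112) (nat_lit 0) (p (nat_lit 0x20092) (nat_lit 0) (p (nat_lit 0x10012) (nat_lit 0) pn))))))))))))))))))))))))))) :=
  Cl.node (nat_lit 0x380c2) (nat_lit 2) (by decide +kernel) (ClAll.succ (ClAll.succ ClAll.zero s29) s30)

def n536 : Cl (O (nat_lit 6)) (R (nat_lit 143633))
    (p (nat_lit 0x4c42a) (nat_lit 2) (p (nat_lit 0x111) (nat_lit 0) (p (nat_lit 0xc9) (nat_lit 0) (p (nat_lit 0x81) (nat_lit 0) (p (nat_lit 0x101) (nat_lit 1) (p (nat_lit 0x119) (nat_lit 0) (p (nat_lit 0xd1) (nat_lit 0) (p (nat_lit 0x89) (nat_lit 0) (p (nat_lit 0x41) (nat_lit 0) (p (nat_lit 0x10a898a08881a) (nat_lit 0) (p (nat_lit 0x8a090988079a) (nat_lit 0) (p (nat_lit 0x108088907871a) (nat_lit 0) (p (nat_lit 0x87880887069a) (nat_lit 0) (p (nat_lit 0x8000080000000088806860a)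 (nat_lit 0) (p (nat_lit 0x8000080000000068786058a) (nat_lit 0) (p (nat_lit 0x10687058502) (nat_lit 0) (p (nat_lit 0x8606850482) (nat_lit 0) (p (nat_lit 0x160004) (nat_lit 0) (p (nat_lit 0x68612) (nat_lit 0) (p (nat_lit 0x50592) (nat_lit 0) (p (nat_lit 0x40512) (nat_lit 0) (p (nat_lit 0x50312) (nat_lit 0) (p (nat_lit 0x38292) (nat_lit 0) (p (nat_lit 0x28212) (nat_lit 0) (p (nat_lit 0x38112) (nat_lit 0) (p (nat_lit 0x20092) (nat_lit 0) (p (nat_lit 0x10012) (nat_lit 0) pn))))))))))))))))))))))))))) :=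
  Cl.node (nat_lit 0x380c2) (nat_lit 1) (by decide +kernel) (ClAll.succ ClAll.zero n448)

def n537 : Cl (O (nat_lit 6)) (R (nat_lit 143633))
    (p (nat_lit 0x4c42a) (nat_lit 8) (p (nat_lit 0x111) (nat_lit 0) (p (nat_lit 0xc9) (nat_lit 0) (p (nat_lit 0x81) (nat_lit 0) (p (nat_lit 0x101) (nat_lit 1) (p (nat_lit 0x119) (nat_lit 0) (p (nat_lit 0xd1) (nat_lit 0) (p (nat_lit 0x89) (nat_lit 0) (p (nat_lit 0x41) (nat_lit 0) (p (nat_lit 0x10a898a08881a) (nat_lit 0) (p (nat_lit 0x8a090988079a) (nat_lit 0) (p (nat_lit 0x108088907871a) (nat_lit 0) (p (nat_lit 0x87880887069a) (nat_lit 0) (p (nat_lit 0x8000080000000088806860a) (nat_lit 0) (p (nat_lit 0x8000080000000068786058a) (nat_lit 0) (p (nat_lit 0x10687058502) (nat_lit 0) (p (nat_lit 0x8606850482) (nat_lit 0) (p (nat_lit 0x160004) (nat_lit 0) (p (nat_lit 0x68612) (nat_lit 0) (p (nat_lit 0x50592) (nat_lit 0) (p (nat_lit 0x40512) (nat_lit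 0) (p (nat_lit 0x50312) (nat_lit 0) (p (nat_lit 0x38292) (nat_lit 0) (p (nat_lit 0x28212) (nat_lit 0) (p (nat_lit 0x38112) (nat_lit 0) (p (nat_lit 0x20092) (nat_lit 0) (p (nat_lit 0x10012) (nat_lit 0) pn))))))))))))))))))))))))))) :=
  Cl.node (nat_lit 0x380c2) (nat_lit 2) (by decide +kernel) (ClAll.succ (ClAll.succ ClAll.zero n449) s80)

def n538 : Cl (O (nat_lit 6)) (R (nat_lit 143633))
    (p (nat_lit 0x444aa) (nat_lit 7) (p (nat_lit 0x111) (nat_lit 0) (p (nat_lit 0xc9) (nat_lit 1) (p (nat_lit 0x81) (nat_lit 0) (p (nat_lit 0x101) (nat_lit 1) (p (nat_lit 0x119) (nat_lit 0) (p (nat_lit 0xd1) (nat_lit 0) (p (nat_lit 0x89) (nat_lit 0) (p (nat_lit 0x41) (nat_lit 0) (p (nat_lit 0x10a898a08881a) (nat_lit 0) (p (nat_lit 0x8a090988079a) (nat_lit 0) (p (nat_lit 0x108088907871a) (nat_lit 0) (p (nat_lit 0x87880887069a) (nat_lit 0) (p (nat_lit 0x8000080000000088806860a) (nat_lit 0) (p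 (nat_lit 0x8000080000000068786058a) (nat_lit 0) (p (nat_lit 0x10687058502) (nat_lit 0) (p (nat_lit 0x8606850482) (nat_lit 0) (p (nat_lit 0x160004) (nat_lit 0) (p (nat_lit 0x68612) (nat_lit 0) (p (nat_lit 0x50592) (nat_lit 0) (p (nat_lit 0x40512) (nat_lit 0) (p (nat_lit 0x50312) (nat_lit 0) (p (nat_lit 0x38292) (nat_lit 0) (p (nat_lit 0x28212) (nat_lit 0) (p (nat_lit 0x38112) (nat_lit 0) (p (nat_lit 0x20092) (nat_lit 0) (p (nat_lit 0x10012) (nat_lit 0) pn))))))))))))))))))))))))))) :=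
  Cl.node (nat_lit 0x380c2) (nat_lit 2) (by decide +kernel) (ClAll.succ (ClAll.succ ClAll.zero n450) n451)

def n539 : Cl (O (nat_lit 6)) (R (nat_lit 143633))
    (p (nat_lit 0x444aa) (nat_lit 8) (p (nat_lit 0x111) (nat_lit 0) (p (nat_lit 0xc9) (nat_lit 1) (p (nat_lit 0x81) (nat_lit 0) (p (nat_lit 0x101) (nat_lit 1) (p (nat_lit 0x119) (nat_lit 0) (p (nat_lit 0xd1) (nat_lit 0) (p (nat_lit 0x89) (nat_lit 0) (p (nat_lit 0x41) (nat_lit 0) (p (nat_lit 0x10a898a08881a) (nat_lit 0) (p (nat_lit 0x8a090988079a) (nat_lit 0) (p (nat_lit 0x108088907871a) (nat_lit 0) (p (nat_lit 0x87880887069a) (nat_lit 0) (p (nat_lit 0x8000080000000088806860a) (nat_lit 0) (p (nat_lit 0x8000080000000068786058a) (nat_lit 0) (p (nat_lit 0x10687058502) (nat_lit 0) (p (nat_lit 0x8606850482) (nat_lit 0) (p (nat_lit 0x160004) (nat_lit 0) (p (nat_lit 0x68612) (nat_lit 0) (p (nat_lit 0x50592) (nat_lit 0) (p (nat_lit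 0x40512) (nat_lit 0) (p (nat_lit 0x50312) (nat_lit 0) (p (nat_lit 0x38292) (nat_lit 0) (p (nat_lit 0x28212) (nat_lit 0) (p (nat_lit 0x38112) (nat_lit 0) (p (nat_lit 0x20092) (nat_lit 0) (p (nat_lit 0x10012) (nat_lit 0) pn))))))))))))))))))))))))))) :=
  Cl.node (nat_lit 0x380c2) (nat_lit 2) (by decide +kernel) (ClAll.succ (ClAll.succ ClAll.zero n452) n453)

def n540 : Cl (O (nat_lit 6)) (R (nat_lit 143633))
    (p (nat_lit 0x4c42a) (nat_lit 2) (p (nat_lit 0xc9) (nat_lit 0) (p (nat_lit 0xc1) (nat_lit 0) (p (nat_lit 0x81) (nat_lit 1) (p (nat_lit 0x101) (nat_lit 1) (p (nat_lit 0x119) (nat_lit 0) (p (nat_lit 0xd1) (nat_lit 0) (p (nat_lit 0x89) (nat_lit 0) (p (nat_lit 0x41) (nat_lit 0) (p (nat_lit 0x10a898a08881a) (nat_lit 0) (p (nat_lit 0x8a090988079a) (nat_lit 0) (p (nat_lit 0x108088907871a) (nat_lit 0) (p (nat_lit 0x87880887069a) (nat_lit 0) (p (nat_lit 0x8000080000000088806860a)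 (nat_lit 0) (p (nat_lit 0x8000080000000068786058a) (nat_lit 0) (p (nat_lit 0x10687058502) (nat_lit 0) (p (nat_lit 0x8606850482) (nat_lit 0) (p (nat_lit 0x160004) (nat_lit 0) (p (nat_lit 0x68612) (nat_lit 0) (p (nat_lit 0x50592) (nat_lit 0) (p (nat_lit 0x40512) (nat_lit 0) (p (nat_lit 0x50312) (nat_lit 0) (p (nat_lit 0x38292) (nat_lit 0) (p (nat_lit 0x28212) (nat_lit 0) (p (nat_lit 0x38112) (nat_lit 0) (p (nat_lit 0x20092) (nat_lit 0) (p (nat_lit 0x10012) (nat_lit 0) pn))))))))))))))))))))))))))) :=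
  Cl.node (nat_lit 0x380c2) (nat_lit 1) (by decide +kernel) (ClAll.succ ClAll.zero n454)

def n541 : Cl (O (nat_lit 6)) (R (nat_lit 143633))
    (p (nat_lit 0x4c42a) (nat_lit 8) (p (nat_lit 0xc9) (nat_lit 0) (p (nat_lit 0xc1) (nat_lit 0) (p (nat_lit 0x81) (nat_lit 1) (p (nat_lit 0x101) (nat_lit 1) (p (nat_lit 0x119) (nat_lit 0) (p (nat_lit 0xd1) (nat_lit 0) (p (nat_lit 0x89) (nat_lit 0) (p (nat_lit 0x41) (nat_lit 0) (p (nat_lit 0x10a898a08881a) (nat_lit 0) (p (nat_lit 0x8a090988079a) (nat_lit 0) (p (nat_lit 0x108088907871a) (nat_lit 0) (p (nat_lit 0x87880887069a) (nat_lit 0) (p (nat_lit 0x8000080000000088806860a) (nat_lit 0) (p (nat_lit 0x8000080000000068786058a) (nat_lit 0) (p (nat_lit 0x10687058502) (nat_lit 0) (p (nat_lit 0x8606850482) (nat_lit 0) (p (nat_lit 0x160004) (nat_lit 0) (p (nat_lit 0x68612) (nat_lit 0) (p (nat_lit 0x50592) (nat_lit 0) (p (nat_lit 0x40512) (nat_lit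 0) (p (nat_lit 0x50312) (nat_lit 0) (p (nat_lit 0x38292) (nat_lit 0) (p (nat_lit 0x28212) (nat_lit 0) (p (nat_lit 0x38112) (nat_lit 0) (p (nat_lit 0x20092) (nat_lit 0) (p (nat_lit 0x10012) (nat_lit 0) pn))))))))))))))))))))))))))) :=
  Cl.node (nat_lit 0x380c2) (nat_lit 2) (by decide +kernel) (ClAll.succ (ClAll.succ ClAll.zero n455) n456)

def n542 : Cl (O (nat_lit 6)) (R (nat_lit 143633))
    (p (nat_lit 0x444aa) (nat_lit 7) (p (nat_lit 0xc9) (nat_lit 1) (p (nat_lit 0xc1) (nat_lit 0) (p (nat_lit 0x81) (nat_lit 1) (p (nat_lit 0x101) (nat_lit 1) (p (nat_lit 0x119) (nat_lit 0) (p (nat_lit 0xd1) (nat_lit 0) (p (nat_lit 0x89) (nat_lit 0) (p (nat_lit 0x41) (nat_lit 0) (p (nat_lit 0x10a898a08881a) (nat_lit 0) (p (nat_lit 0x8a090988079a) (nat_lit 0) (p (nat_lit 0x108088907871a) (nat_lit 0) (p (nat_lit 0x87880887069a) (nat_lit 0) (p (nat_lit 0x8000080000000088806860a) (nat_lit 0) (p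 (nat_lit 0x8000080000000068786058a) (nat_lit 0) (p (nat_lit 0x10687058502) (nat_lit 0) (p (nat_lit 0x8606850482) (nat_lit 0) (p (nat_lit 0x160004) (nat_lit 0) (p (nat_lit 0x68612) (nat_lit 0) (p (nat_lit 0x50592) (nat_lit 0) (p (nat_lit 0x40512) (nat_lit 0) (p (nat_lit 0x50312) (nat_lit 0) (p (nat_lit 0x38292) (nat_lit 0) (p (nat_lit 0x28212) (nat_lit 0) (p (nat_lit 0x38112) (nat_lit 0) (p (nat_lit 0x20092) (nat_lit 0) (p (nat_lit 0x10012) (nat_lit 0) pn))))))))))))))))))))))))))) :=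
  Cl.node (nat_lit 0x380c2) (nat_lit 2) (by decide +kernel) (ClAll.succ (ClAll.succ ClAll.zero n457) n458)

def n543 : Cl (O (nat_lit 6)) (R (nat_lit 143633))
    (p (nat_lit 0x444aa) (nat_lit 8) (p (nat_lit 0xc9) (nat_lit 1) (p (nat_lit 0xc1) (nat_lit 0) (p (nat_lit 0x81) (nat_lit 1) (p (nat_lit 0x101) (nat_lit 1) (p (nat_lit 0x119) (nat_lit 0) (p (nat_lit 0xd1) (nat_lit 0) (p (nat_lit 0x89) (nat_lit 0) (p (nat_lit 0x41) (nat_lit 0) (p (nat_lit 0x10a898a08881a) (nat_lit 0) (p (nat_lit 0x8a090988079a) (nat_lit 0) (p (nat_lit 0x108088907871a) (nat_lit 0) (p (nat_lit 0x87880887069a) (nat_lit 0) (p (nat_lit 0x8000080000000088806860a) (nat_lit 0) (p (nat_lit 0x8000080000000068786058a) (nat_lit 0) (p (nat_lit 0x10687058502) (nat_lit 0) (p (nat_lit 0x8606850482) (nat_lit 0) (p (nat_lit 0x160004) (nat_lit 0) (p (nat_lit 0x68612) (nat_lit 0) (p (nat_lit 0x50592) (nat_lit 0) (p (nat_lit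 0x40512) (nat_lit 0) (p (nat_lit 0x50312) (nat_lit 0) (p (nat_lit 0x38292) (nat_lit 0) (p (nat_lit 0x28212) (nat_lit 0) (p (nat_lit 0x38112) (nat_lit 0) (p (nat_lit 0x20092) (nat_lit 0) (p (nat_lit 0x10012) (nat_lit 0) pn))))))))))))))))))))))))))) :=
  Cl.node (nat_lit 0x380c2) (nat_lit 2) (by decide +kernel) (ClAll.succ (ClAll.succ ClAll.zero s236) s237)

def n544 : Cl (O (nat_lit 6)) (R (nat_lit 143633))
    (p (nat_lit 0x380c2) (nat_lit 0) (p (nat_lit 0x3cc2a) (nat_lit 10) (p (nat_lit 0x109) (nat_lit 1) (p (nat_lit 0xc9) (nat_lit 1) (p (nat_lit 0xc1) (nat_lit 0) (p (nat_lit 0x119) (nat_lit 1) (p (nat_lit 0xd1) (nat_lit 0) (p (nat_lit 0x89) (nat_lit 0) (p (nat_lit 0x41) (nat_lit 0) (p (nat_lit 0x10a898a08881a) (nat_lit 0) (p (nat_lit 0x8a090988079a) (nat_lit 0) (p (nat_lit 0x108088907871a) (nat_lit 0) (p (nat_lit 0x87880887069a) (nat_lit 0) (p (nat_lit 0x8000080000000088806860a)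 (nat_lit 0) (p (nat_lit 0x8000080000000068786058a) (nat_lit 0) (p (nat_lit 0x10687058502) (nat_lit 0) (p (nat_lit 0x8606850482) (nat_lit 0) (p (nat_lit 0x160004) (nat_lit 0) (p (nat_lit 0x68612) (nat_lit 0) (p (nat_lit 0x50592) (nat_lit 0) (p (nat_lit 0x40512) (nat_lit 0) (p (nat_lit 0x50312) (nat_lit 0) (p (nat_lit 0x38292) (nat_lit 0) (p (nat_lit 0x28212) (nat_lit 0) (p (nat_lit 0x38112) (nat_lit 0) (p (nat_lit 0x20092) (nat_lit 0) (p (nat_lit 0x10012) (nat_lit 0) pn))))))))))))))))))))))))))) :=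
  Cl.node (nat_lit 0x101) (nat_lit 2) (by decide +kernel) (ClAll.succ (ClAll.succ ClAll.zero s254) n459)

def n545 : Cl (O (nat_lit 6)) (R (nat_lit 143633))
    (p (nat_lit 0x380c2) (nat_lit 1) (p (nat_lit 0x3cc2a) (nat_lit 10) (p (nat_lit 0x109) (nat_lit 1) (p (nat_lit 0xc9) (nat_lit 1) (p (nat_lit 0xc1) (nat_lit 0) (p (nat_lit 0x119) (nat_lit 1) (p (nat_lit 0xd1) (nat_lit 0) (p (nat_lit 0x89) (nat_lit 0) (p (nat_lit 0x41) (nat_lit 0) (p (nat_lit 0x10a898a08881a) (nat_lit 0) (p (nat_lit 0x8a090988079a) (nat_lit 0) (p (nat_lit 0x108088907871a) (nat_lit 0) (p (nat_lit 0x87880887069a) (nat_lit 0) (p (nat_lit 0x8000080000000088806860a) (nat_lit 0) (p (nat_lit 0x8000080000000068786058a) (nat_lit 0) (p (nat_lit 0x10687058502) (nat_lit 0) (p (nat_lit 0x8606850482) (nat_lit 0) (p (nat_lit 0x160004) (nat_lit 0) (p (nat_lit 0x68612) (nat_lit 0) (p (nat_lit 0x50592) (nat_lit 0) (p (nat_lit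 0x40512) (nat_lit 0) (p (nat_lit 0x50312) (nat_lit 0) (p (nat_lit 0x38292) (nat_lit 0) (p (nat_lit 0x28212) (nat_lit 0) (p (nat_lit 0x38112) (nat_lit 0) (p (nat_lit 0x20092) (nat_lit 0) (p (nat_lit 0x10012) (nat_lit 0) pn))))))))))))))))))))))))))) :=
  Cl.node (nat_lit 0x41) (nat_lit 2) (by decide +kernel) (ClAll.succ (ClAll.succ ClAll.zero n460) s261)

def n546 : Cl (O (nat_lit 6)) (R (nat_lit 143633))
    (p (nat_lit 0x380c2) (nat_lit 0) (p (nat_lit 0x3cc2a) (nat_lit 11) (p (nat_lit 0x109) (nat_lit 1) (p (nat_lit 0xc9) (nat_lit 1) (p (nat_lit 0xc1) (nat_lit 0) (p (nat_lit 0x119) (nat_lit 1) (p (nat_lit 0xd1) (nat_lit 0) (p (nat_lit 0x89) (nat_lit 0) (p (nat_lit 0x41) (nat_lit 0) (p (nat_lit 0x10a898a08881a) (nat_lit 0) (p (nat_lit 0x8a090988079a) (nat_lit 0) (p (nat_lit 0x108088907871a) (nat_lit 0) (p (nat_lit 0x87880887069a) (nat_lit 0) (p (nat_lit 0x8000080000000088806860a)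 (nat_lit 0) (p (nat_lit 0x8000080000000068786058a) (nat_lit 0) (p (nat_lit 0x10687058502) (nat_lit 0) (p (nat_lit 0x8606850482) (nat_lit 0) (p (nat_lit 0x160004) (nat_lit 0) (p (nat_lit 0x68612) (nat_lit 0) (p (nat_lit 0x50592) (nat_lit 0) (p (nat_lit 0x40512) (nat_lit 0) (p (nat_lit 0x50312) (nat_lit 0) (p (nat_lit 0x38292) (nat_lit 0) (p (nat_lit 0x28212) (nat_lit 0) (p (nat_lit 0x38112) (nat_lit 0) (p (nat_lit 0x20092) (nat_lit 0) (p (nat_lit 0x10012) (nat_lit 0) pn))))))))))))))))))))))))))) :=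
  Cl.node (nat_lit 0xb0004) (nat_lit 2) (by decide +kernel) (ClAll.succ (ClAll.succ ClAll.zero n461) s275)

def n547 : Cl (O (nat_lit 6)) (R (nat_lit 143633))
    (p (nat_lit 0x380c2) (nat_lit 1) (p (nat_lit 0x3cc2a) (nat_lit 11) (p (nat_lit 0x109) (nat_lit 1) (p (nat_lit 0xc9) (nat_lit 1) (p (nat_lit 0xc1) (nat_lit 0) (p (nat_lit 0x119) (nat_lit 1) (p (nat_lit 0xd1) (nat_lit 0) (p (nat_lit 0x89) (nat_lit 0) (p (nat_lit 0x41) (nat_lit 0) (p (nat_lit 0x10a898a08881a) (nat_lit 0) (p (nat_lit 0x8a090988079a) (nat_lit 0) (p (nat_lit 0x108088907871a) (nat_lit 0) (p (nat_lit 0x87880887069a) (nat_lit 0) (p (nat_lit 0x8000080000000088806860a) (nat_lit 0) (p (nat_lit 0x8000080000000068786058a) (nat_lit 0) (p (nat_lit 0x10687058502) (nat_lit 0) (p (nat_lit 0x8606850482) (nat_lit 0) (p (nat_lit 0x160004) (nat_lit 0) (p (nat_lit 0x68612) (nat_lit 0) (p (nat_lit 0x50592) (nat_lit 0) (p (nat_lit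 0x40512) (nat_lit 0) (p (nat_lit 0x50312) (nat_lit 0) (p (nat_lit 0x38292) (nat_lit 0) (p (nat_lit 0x28212) (nat_lit 0) (p (nat_lit 0x38112) (nat_lit 0) (p (nat_lit 0x20092) (nat_lit 0) (p (nat_lit 0x10012) (nat_lit 0) pn))))))))))))))))))))))))))) :=
  Cl.node (nat_lit 0xb0004) (nat_lit 2) (by decide +kernel) (ClAll.succ (ClAll.succ ClAll.zero n462) s291)

def n548 : Cl (O (nat_lit 6)) (R (nat_lit 143633))
    (p (nat_lit 0x380c2) (nat_lit 1) (p (nat_lit 0x3cc2a) (nat_lit 10) (p (nat_lit 0x109) (nat_lit 1) (p (nat_lit 0x81) (nat_lit 0) (p (nat_lit 0xc1) (nat_lit 1) (p (nat_lit 0x119) (nat_lit 1) (p (nat_lit 0xd1) (nat_lit 0) (p (nat_lit 0x89) (nat_lit 0) (p (nat_lit 0x41) (nat_lit 0) (p (nat_lit 0x10a898a08881a) (nat_lit 0) (p (nat_lit 0x8a090988079a) (nat_lit 0) (p (nat_lit 0x108088907871a) (nat_lit 0) (p (nat_lit 0x87880887069a) (nat_lit 0) (p (nat_lit 0x8000080000000088806860a)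 (nat_lit 0) (p (nat_lit 0x8000080000000068786058a) (nat_lit 0) (p (nat_lit 0x10687058502) (nat_lit 0) (p (nat_lit 0x8606850482) (nat_lit 0) (p (nat_lit 0x160004) (nat_lit 0) (p (nat_lit 0x68612) (nat_lit 0) (p (nat_lit 0x50592) (nat_lit 0) (p (nat_lit 0x40512) (nat_lit 0) (p (nat_lit 0x50312) (nat_lit 0) (p (nat_lit 0x38292) (nat_lit 0) (p (nat_lit 0x28212) (nat_lit 0) (p (nat_lit 0x38112) (nat_lit 0) (p (nat_lit 0x20092) (nat_lit 0) (p (nat_lit 0x10012) (nat_lit 0) pn))))))))))))))))))))))))))) :=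
  Cl.node (nat_lit 0xc9) (nat_lit 2) (by decide +kernel) (ClAll.succ (ClAll.succ ClAll.zero n463) s327)

def n549 : Cl (O (nat_lit 6)) (R (nat_lit 143633))
    (p (nat_lit 0x380c2) (nat_lit 0) (p (nat_lit 0x3cc2a) (nat_lit 11) (p (nat_lit 0x109) (nat_lit 1) (p (nat_lit 0x81) (nat_lit 0) (p (nat_lit 0xc1) (nat_lit 1) (p (nat_lit 0x119) (nat_lit 1) (p (nat_lit 0xd1) (nat_lit 0) (p (nat_lit 0x89) (nat_lit 0) (p (nat_lit 0x41) (nat_lit 0) (p (nat_lit 0x10a898a08881a) (nat_lit 0) (p (nat_lit 0x8a090988079a) (nat_lit 0) (p (nat_lit 0x108088907871a) (nat_lit 0) (p (nat_lit 0x87880887069a) (nat_lit 0) (p (nat_lit 0x8000080000000088806860a) (nat_lit 0) (p (nat_lit 0x8000080000000068786058a) (nat_lit 0) (p (nat_lit 0x10687058502) (nat_lit 0) (p (nat_lit 0x8606850482) (nat_lit 0) (p (nat_lit 0x160004) (nat_lit 0) (p (nat_lit 0x68612) (nat_lit 0) (p (nat_lit 0x50592) (nat_lit 0) (p (nat_lit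 0x40512) (nat_lit 0) (p (nat_lit 0x50312) (nat_lit 0) (p (nat_lit 0x38292) (nat_lit 0) (p (nat_lit 0x28212) (nat_lit 0) (p (nat_lit 0x38112) (nat_lit 0) (p (nat_lit 0x20092) (nat_lit 0) (p (nat_lit 0x10012) (nat_lit 0) pn))))))))))))))))))))))))))) :=
  Cl.node (nat_lit 0xb0004) (nat_lit 2) (by decide +kernel) (ClAll.succ (ClAll.succ ClAll.zero n464) s341)

def n550 : Cl (O (nat_lit 6)) (R (nat_lit 143633))
    (p (nat_lit 0x380c2) (nat_lit 1) (p (nat_lit 0x3cc2a) (nat_lit 11) (p (nat_lit 0x109) (nat_lit 1) (p (nat_lit 0x81) (nat_lit 0) (p (nat_lit 0xc1) (nat_lit 1) (p (nat_lit 0x119) (nat_lit 1) (p (nat_lit 0xd1) (nat_lit 0) (p (nat_lit 0x89) (nat_lit 0) (p (nat_lit 0x41) (nat_lit 0) (p (nat_lit 0x10a898a08881a) (nat_lit 0) (p (nat_lit 0x8a090988079a) (nat_lit 0) (p (nat_lit 0x108088907871a) (nat_lit 0) (p (nat_lit 0x87880887069a) (nat_lit 0) (p (nat_lit 0x8000080000000088806860a)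 (nat_lit 0) (p (nat_lit 0x8000080000000068786058a) (nat_lit 0) (p (nat_lit 0x10687058502) (nat_lit 0) (p (nat_lit 0x8606850482) (nat_lit 0) (p (nat_lit 0x160004) (nat_lit 0) (p (nat_lit 0x68612) (nat_lit 0) (p (nat_lit 0x50592) (nat_lit 0) (p (nat_lit 0x40512) (nat_lit 0) (p (nat_lit 0x50312) (nat_lit 0) (p (nat_lit 0x38292) (nat_lit 0) (p (nat_lit 0x28212) (nat_lit 0) (p (nat_lit 0x38112) (nat_lit 0) (p (nat_lit 0x20092) (nat_lit 0) (p (nat_lit 0x10012) (nat_lit 0) pn))))))))))))))))))))))))))) :=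
  Cl.node (nat_lit 0xd1) (nat_lit 2) (by decide +kernel) (ClAll.succ (ClAll.succ ClAll.zero n465) s344)

def n551 : Cl (O (nat_lit 6)) (R (nat_lit 143633))
    (p (nat_lit 0x44c2a) (nat_lit 0) (p (nat_lit 0x109) (nat_lit 0) (p (nat_lit 0x101) (nat_lit 0) (p (nat_lit 0x81) (nat_lit 1) (p (nat_lit 0xc1) (nat_lit 1) (p (nat_lit 0x119) (nat_lit 1) (p (nat_lit 0xd1) (nat_lit 0) (p (nat_lit 0x89) (nat_lit 0) (p (nat_lit 0x41) (nat_lit 0) (p (nat_lit 0x10a898a08881a) (nat_lit 0) (p (nat_lit 0x8a090988079a) (nat_lit 0) (p (nat_lit 0x108088907871a) (nat_lit 0) (p (nat_lit 0x87880887069a) (nat_lit 0) (p (nat_lit 0x8000080000000088806860a) (nat_lit 0) (p (nat_lit 0x8000080000000068786058a) (nat_lit 0) (p (nat_lit 0x10687058502) (nat_lit 0) (p (nat_lit 0x8606850482) (nat_lit 0) (p (nat_lit 0x160004) (nat_lit 0) (p (nat_lit 0x68612) (nat_lit 0) (p (nat_lit 0x50592) (nat_lit 0) (p (nat_lit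 0x40512) (nat_lit 0) (p (nat_lit 0x50312) (nat_lit 0) (p (nat_lit 0x38292) (nat_lit 0) (p (nat_lit 0x28212) (nat_lit 0) (p (nat_lit 0x38112) (nat_lit 0) (p (nat_lit 0x20092) (nat_lit 0) (p (nat_lit 0x10012) (nat_lit 0) pn))))))))))))))))))))))))))) :=
  Cl.node (nat_lit 0x380c2) (nat_lit 2) (by decide +kernel) (ClAll.succ (ClAll.succ ClAll.zero n466) n467)

def n552 : Cl (O (nat_lit 6)) (R (nat_lit 143633))
    (p (nat_lit 0x44c2a) (nat_lit 1) (p (nat_lit 0x109) (nat_lit 0) (p (nat_lit 0x101) (nat_lit 0) (p (nat_lit 0x81) (nat_lit 1) (p (nat_lit 0xc1) (nat_lit 1) (p (nat_lit 0x119) (nat_lit 1) (p (nat_lit 0xd1) (nat_lit 0) (p (nat_lit 0x89) (nat_lit 0) (p (nat_lit 0x41) (nat_lit 0) (p (nat_lit 0x10a898a08881a) (nat_lit 0) (p (nat_lit 0x8a090988079a) (nat_lit 0) (p (nat_lit 0x108088907871a) (nat_lit 0) (p (nat_lit 0x87880887069a) (nat_lit 0) (p (nat_lit 0x8000080000000088806860a)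 (nat_lit 0) (p (nat_lit 0x8000080000000068786058a) (nat_lit 0) (p (nat_lit 0x10687058502) (nat_lit 0) (p (nat_lit 0x8606850482) (nat_lit 0) (p (nat_lit 0x160004) (nat_lit 0) (p (nat_lit 0x68612) (nat_lit 0) (p (nat_lit 0x50592) (nat_lit 0) (p (nat_lit 0x40512) (nat_lit 0) (p (nat_lit 0x50312) (nat_lit 0) (p (nat_lit 0x38292) (nat_lit 0) (p (nat_lit 0x28212) (nat_lit 0) (p (nat_lit 0x38112) (nat_lit 0) (p (nat_lit 0x20092) (nat_lit 0) (p (nat_lit 0x10012) (nat_lit 0) pn))))))))))))))))))))))))))) :=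
  Cl.node (nat_lit 0x380c2) (nat_lit 1) (by decide +kernel) (ClAll.succ ClAll.zero n468)

def n553 : Cl (O (nat_lit 6)) (R (nat_lit 143633))
    (p (nat_lit 0x444aa) (nat_lit 7) (p (nat_lit 0x109) (nat_lit 1) (p (nat_lit 0x101) (nat_lit 0) (p (nat_lit 0x81) (nat_lit 1) (p (nat_lit 0xc1) (nat_lit 1) (p (nat_lit 0x119) (nat_lit 1) (p (nat_lit 0xd1) (nat_lit 0) (p (nat_lit 0x89) (nat_lit 0) (p (nat_lit 0x41) (nat_lit 0) (p (nat_lit 0x10a898a08881a) (nat_lit 0) (p (nat_lit 0x8a090988079a) (nat_lit 0) (p (nat_lit 0x108088907871a) (nat_lit 0) (p (nat_lit 0x87880887069a) (nat_lit 0) (p (nat_lit 0x8000080000000088806860a) (nat_lit 0) (p (nat_lit 0x8000080000000068786058a) (nat_lit 0) (p (nat_lit 0x10687058502) (nat_lit 0) (p (nat_lit 0x8606850482) (nat_lit 0) (p (nat_lit 0x160004) (nat_lit 0) (p (nat_lit 0x68612) (nat_lit 0) (p (nat_lit 0x50592) (nat_lit 0) (p (nat_lit 0x40512) (nat_lit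 0) (p (nat_lit 0x50312) (nat_lit 0) (p (nat_lit 0x38292) (nat_lit 0) (p (nat_lit 0x28212) (nat_lit 0) (p (nat_lit 0x38112) (nat_lit 0) (p (nat_lit 0x20092) (nat_lit 0) (p (nat_lit 0x10012) (nat_lit 0) pn))))))))))))))))))))))))))) :=
  Cl.node (nat_lit 0x380c2) (nat_lit 2) (by decide +kernel) (ClAll.succ (ClAll.succ ClAll.zero n469) n470)

def n554 : Cl (O (nat_lit 6)) (R (nat_lit 143633))
    (p (nat_lit 0x444aa) (nat_lit 8) (p (nat_lit 0x109) (nat_lit 1) (p (nat_lit 0x101) (nat_lit 0) (p (nat_lit 0x81) (nat_lit 1) (p (nat_lit 0xc1) (nat_lit 1) (p (nat_lit 0x119) (nat_lit 1) (p (nat_lit 0xd1) (nat_lit 0) (p (nat_lit 0x89) (nat_lit 0) (p (nat_lit 0x41) (nat_lit 0) (p (nat_lit 0x10a898a08881a) (nat_lit 0) (p (nat_lit 0x8a090988079a) (nat_lit 0) (p (nat_lit 0x108088907871a) (nat_lit 0) (p (nat_lit 0x87880887069a) (nat_lit 0) (p (nat_lit 0x8000080000000088806860a) (nat_lit 0) (p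 (nat_lit 0x8000080000000068786058a) (nat_lit 0) (p (nat_lit 0x10687058502) (nat_lit 0) (p (nat_lit 0x8606850482) (nat_lit 0) (p (nat_lit 0x160004) (nat_lit 0) (p (nat_lit 0x68612) (nat_lit 0) (p (nat_lit 0x50592) (nat_lit 0) (p (nat_lit 0x40512) (nat_lit 0) (p (nat_lit 0x50312) (nat_lit 0) (p (nat_lit 0x38292) (nat_lit 0) (p (nat_lit 0x28212) (nat_lit 0) (p (nat_lit 0x38112) (nat_lit 0) (p (nat_lit 0x20092) (nat_lit 0) (p (nat_lit 0x10012) (nat_lit 0) pn))))))))))))))))))))))))))) :=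
  Cl.node (nat_lit 0x380c2) (nat_lit 2) (by decide +kernel) (ClAll.succ (ClAll.succ ClAll.zero n471) s429)

def n555 : Cl (O (nat_lit 6)) (R (nat_lit 143633))
    (p (nat_lit 0x380c2) (nat_lit 0) (p (nat_lit 0x444aa) (nat_lit 8) (p (nat_lit 0x101) (nat_lit 1) (p (nat_lit 0x81) (nat_lit 1) (p (nat_lit 0xc1) (nat_lit 1) (p (nat_lit 0x119) (nat_lit 1) (p (nat_lit 0xd1) (nat_lit 0) (p (nat_lit 0x89) (nat_lit 0) (p (nat_lit 0x41) (nat_lit 0) (p (nat_lit 0x10a898a08881a) (nat_lit 0) (p (nat_lit 0x8a090988079a) (nat_lit 0) (p (nat_lit 0x108088907871a) (nat_lit 0) (p (nat_lit 0x87880887069a) (nat_lit 0) (p (nat_lit 0x8000080000000088806860a) (nat_lit 0) (p (nat_lit 0x8000080000000068786058a) (nat_lit 0) (p (nat_lit 0x10687058502) (nat_lit 0) (p (nat_lit 0x8606850482) (nat_lit 0) (p (nat_lit 0x160004) (nat_lit 0) (p (nat_lit 0x68612) (nat_lit 0) (p (nat_lit 0x50592) (nat_lit 0) (p (nat_lit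 0x40512) (nat_lit 0) (p (nat_lit 0x50312) (nat_lit 0) (p (nat_lit 0x38292) (nat_lit 0) (p (nat_lit 0x28212) (nat_lit 0) (p (nat_lit 0x38112) (nat_lit 0) (p (nat_lit 0x20092) (nat_lit 0) (p (nat_lit 0x10012) (nat_lit 0) pn))))))))))))))))))))))))))) :=
  Cl.node (nat_lit 0xb0004) (nat_lit 2) (by decide +kernel) (ClAll.succ (ClAll.succ ClAll.zero s441) s442)

def n556 : Cl (O (nat_lit 6)) (R (nat_lit 143633))
    (p (nat_lit 0x380c2) (nat_lit 1) (p (nat_lit 0x444aa) (nat_lit 8) (p (nat_lit 0x101) (nat_lit 1) (p (nat_lit 0x81) (nat_lit 1) (p (nat_lit 0xc1) (nat_lit 1) (p (nat_lit 0x119) (nat_lit 1) (p (nat_lit 0xd1) (nat_lit 0) (p (nat_lit 0x89) (nat_lit 0) (p (nat_lit 0x41) (nat_lit 0) (p (nat_lit 0x10a898a08881a) (nat_lit 0) (p (nat_lit 0x8a090988079a) (nat_lit 0) (p (nat_lit 0x108088907871a) (nat_lit 0) (p (nat_lit 0x87880887069a) (nat_lit 0) (p (nat_lit 0x8000080000000088806860a)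 (nat_lit 0) (p (nat_lit 0x8000080000000068786058a) (nat_lit 0) (p (nat_lit 0x10687058502) (nat_lit 0) (p (nat_lit 0x8606850482) (nat_lit 0) (p (nat_lit 0x160004) (nat_lit 0) (p (nat_lit 0x68612) (nat_lit 0) (p (nat_lit 0x50592) (nat_lit 0) (p (nat_lit 0x40512) (nat_lit 0) (p (nat_lit 0x50312) (nat_lit 0) (p (nat_lit 0x38292) (nat_lit 0) (p (nat_lit 0x28212) (nat_lit 0) (p (nat_lit 0x38112) (nat_lit 0) (p (nat_lit 0x20092) (nat_lit 0) (p (nat_lit 0x10012) (nat_lit 0) pn))))))))))))))))))))))))))) :=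
  Cl.node (nat_lit 0xb0004) (nat_lit 2) (by decide +kernel) (ClAll.succ (ClAll.succ ClAll.zero s443) s444)

def n557 : Cl (O (nat_lit 6)) (R (nat_lit 143633))
    (p (nat_lit 0x200014) (nat_lit 0) (p (nat_lit 0x20000c) (nat_lit 0) (p (nat_lit 0xc1) (nat_lit 1) (p (nat_lit 0x109) (nat_lit 1) (p (nat_lit 0x101) (nat_lit 0) (p (nat_lit 0x111) (nat_lit 0) (p (nat_lit 0xd1) (nat_lit 1) (p (nat_lit 0x89) (nat_lit 0) (p (nat_lit 0x41) (nat_lit 0) (p (nat_lit 0x10a898a08881a) (nat_lit 0) (p (nat_lit 0x8a090988079a) (nat_lit 0) (p (nat_lit 0x108088907871a) (nat_lit 0) (p (nat_lit 0x87880887069a) (nat_lit 0) (p (nat_lit 0x8000080000000088806860a) (nat_lit 0) (p (nat_lit 0x8000080000000068786058a) (nat_lit 0) (p (nat_lit 0x10687058502) (nat_lit 0) (p (nat_lit 0x8606850482) (nat_lit 0) (p (nat_lit 0x160004) (nat_lit 0) (p (nat_lit 0x68612) (nat_lit 0) (p (nat_lit 0x50592) (nat_lit 0) (p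 (nat_lit 0x40512) (nat_lit 0) (p (nat_lit 0x50312) (nat_lit 0) (p (nat_lit 0x38292) (nat_lit 0) (p (nat_lit 0x28212) (nat_lit 0) (p (nat_lit 0x38112) (nat_lit 0) (p (nat_lit 0x20092) (nat_lit 0) (p (nat_lit 0x10012) (nat_lit 0) pn))))))))))))))))))))))))))) :=
  Cl.node (nat_lit 0x41) (nat_lit 2) (by decide +kernel) (ClAll.succ (ClAll.succ ClAll.zero n472) n473)

def n558 : Cl (O (nat_lit 6)) (R (nat_lit 143633))
    (p (nat_lit 0xb0004) (nat_lit 0) (p (nat_lit 0x20000c) (nat_lit 1) (p (nat_lit 0xc1) (nat_lit 1) (p (nat_lit 0x109) (nat_lit 1) (p (nat_lit 0x101) (nat_lit 0) (p (nat_lit 0x111) (nat_lit 0) (p (nat_lit 0xd1) (nat_lit 1) (p (nat_lit 0x89) (nat_lit 0) (p (nat_lit 0x41) (nat_lit 0) (p (nat_lit 0x10a898a08881a) (nat_lit 0) (p (nat_lit 0x8a090988079a) (nat_lit 0) (p (nat_lit 0x108088907871a) (nat_lit 0) (p (nat_lit 0x87880887069a) (nat_lit 0) (p (nat_lit 0x8000080000000088806860a)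 (nat_lit 0) (p (nat_lit 0x8000080000000068786058a) (nat_lit 0) (p (nat_lit 0x10687058502) (nat_lit 0) (p (nat_lit 0x8606850482) (nat_lit 0) (p (nat_lit 0x160004) (nat_lit 0) (p (nat_lit 0x68612) (nat_lit 0) (p (nat_lit 0x50592) (nat_lit 0) (p (nat_lit 0x40512) (nat_lit 0) (p (nat_lit 0x50312) (nat_lit 0) (p (nat_lit 0x38292) (nat_lit 0) (p (nat_lit 0x28212) (nat_lit 0) (p (nat_lit 0x38112) (nat_lit 0) (p (nat_lit 0x20092) (nat_lit 0) (p (nat_lit 0x10012) (nat_lit 0) pn))))))))))))))))))))))))))) :=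
  Cl.node (nat_lit 0x200014) (nat_lit 2) (by decide +kernel) (ClAll.succ (ClAll.succ ClAll.zero s475) s476)

def n559 : Cl (O (nat_lit 6)) (R (nat_lit 143633))
    (p (nat_lit 0x200014) (nat_lit 0) (p (nat_lit 0x20000c) (nat_lit 0) (p (nat_lit 0x119) (nat_lit 0) (p (nat_lit 0x81) (nat_lit 0) (p (nat_lit 0x101) (nat_lit 1) (p (nat_lit 0x111) (nat_lit 0) (p (nat_lit 0xd1) (nat_lit 1) (p (nat_lit 0x89) (nat_lit 0) (p (nat_lit 0x41) (nat_lit 0) (p (nat_lit 0x10a898a08881a) (nat_lit 0) (p (nat_lit 0x8a090988079a) (nat_lit 0) (p (nat_lit 0x108088907871a) (nat_lit 0) (p (nat_lit 0x87880887069a) (nat_lit 0) (p (nat_lit 0x8000080000000088806860a) (nat_lit 0) (p (nat_lit 0x8000080000000068786058a) (nat_lit 0) (p (nat_lit 0x10687058502) (nat_lit 0) (p (nat_lit 0x8606850482) (nat_lit 0) (p (nat_lit 0x160004) (nat_lit 0) (p (nat_lit 0x68612) (nat_lit 0) (p (nat_lit 0x50592) (nat_lit 0) (p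 (nat_lit 0x40512) (nat_lit 0) (p (nat_lit 0x50312) (nat_lit 0) (p (nat_lit 0x38292) (nat_lit 0) (p (nat_lit 0x28212) (nat_lit 0) (p (nat_lit 0x38112) (nat_lit 0) (p (nat_lit 0x20092) (nat_lit 0) (p (nat_lit 0x10012) (nat_lit 0) pn))))))))))))))))))))))))))) :=
  Cl.node (nat_lit 0x109) (nat_lit 2) (by decide +kernel) (ClAll.succ (ClAll.succ ClAll.zero n474) n475)

def n560 : Cl (O (nat_lit 6)) (R (nat_lit 143633))
    (p (nat_lit 0xb0004) (nat_lit 0) (p (nat_lit 0x20000c) (nat_lit 1) (p (nat_lit 0x119) (nat_lit 0) (p (nat_lit 0x81) (nat_lit 0) (p (nat_lit 0x101) (nat_lit 1) (p (nat_lit 0x111) (nat_lit 0) (p (nat_lit 0xd1) (nat_lit 1) (p (nat_lit 0x89) (nat_lit 0) (p (nat_lit 0x41) (nat_lit 0) (p (nat_lit 0x10a898a08881a) (nat_lit 0) (p (nat_lit 0x8a090988079a) (nat_lit 0) (p (nat_lit 0x108088907871a) (nat_lit 0) (p (nat_lit 0x87880887069a) (nat_lit 0) (p (nat_lit 0x8000080000000088806860a)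 (nat_lit 0) (p (nat_lit 0x8000080000000068786058a) (nat_lit 0) (p (nat_lit 0x10687058502) (nat_lit 0) (p (nat_lit 0x8606850482) (nat_lit 0) (p (nat_lit 0x160004) (nat_lit 0) (p (nat_lit 0x68612) (nat_lit 0) (p (nat_lit 0x50592) (nat_lit 0) (p (nat_lit 0x40512) (nat_lit 0) (p (nat_lit 0x50312) (nat_lit 0) (p (nat_lit 0x38292) (nat_lit 0) (p (nat_lit 0x28212) (nat_lit 0) (p (nat_lit 0x38112) (nat_lit 0) (p (nat_lit 0x20092) (nat_lit 0) (p (nat_lit 0x10012) (nat_lit 0) pn))))))))))))))))))))))))))) :=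
  Cl.node (nat_lit 0x200014) (nat_lit 2) (by decide +kernel) (ClAll.succ (ClAll.succ ClAll.zero n476) s524)

def n561 : Cl (O (nat_lit 6)) (R (nat_lit 143633))
    (p (nat_lit 0x444aa) (nat_lit 7) (p (nat_lit 0x119) (nat_lit 0) (p (nat_lit 0xc1) (nat_lit 0) (p (nat_lit 0x81) (nat_lit 1) (p (nat_lit 0x101) (nat_lit 1) (p (nat_lit 0x111) (nat_lit 0) (p (nat_lit 0xd1) (nat_lit 1) (p (nat_lit 0x89) (nat_lit 0) (p (nat_lit 0x41) (nat_lit 0) (p (nat_lit 0x10a898a08881a) (nat_lit 0) (p (nat_lit 0x8a090988079a) (nat_lit 0) (p (nat_lit 0x108088907871a) (nat_lit 0) (p (nat_lit 0x87880887069a) (nat_lit 0) (p (nat_lit 0x8000080000000088806860a) (nat_lit 0) (p (nat_lit 0x8000080000000068786058a) (nat_lit 0) (p (nat_lit 0x10687058502) (nat_lit 0) (p (nat_lit 0x8606850482) (nat_lit 0) (p (nat_lit 0x160004) (nat_lit 0) (p (nat_lit 0x68612) (nat_lit 0) (p (nat_lit 0x50592) (nat_lit 0) (p (nat_lit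 0x40512) (nat_lit 0) (p (nat_lit 0x50312) (nat_lit 0) (p (nat_lit 0x38292) (nat_lit 0) (p (nat_lit 0x28212) (nat_lit 0) (p (nat_lit 0x38112) (nat_lit 0) (p (nat_lit 0x20092) (nat_lit 0) (p (nat_lit 0x10012) (nat_lit 0) pn))))))))))))))))))))))))))) :=
  Cl.node (nat_lit 0x380c2) (nat_lit 2) (by decide +kernel) (ClAll.succ (ClAll.succ ClAll.zero n477) n478)

def n562 : Cl (O (nat_lit 6)) (R (nat_lit 143633))
    (p (nat_lit 0x444aa) (nat_lit 8) (p (nat_lit 0x119) (nat_lit 0) (p (nat_lit 0xc1) (nat_lit 0) (p (nat_lit 0x81) (nat_lit 1) (p (nat_lit 0x101) (nat_lit 1) (p (nat_lit 0x111) (nat_lit 0) (p (nat_lit 0xd1) (nat_lit 1) (p (nat_lit 0x89) (nat_lit 0) (p (nat_lit 0x41) (nat_lit 0) (p (nat_lit 0x10a898a08881a) (nat_lit 0) (p (nat_lit 0x8a090988079a) (nat_lit 0) (p (nat_lit 0x108088907871a) (nat_lit 0) (p (nat_lit 0x87880887069a) (nat_lit 0) (p (nat_lit 0x8000080000000088806860a)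 (nat_lit 0) (p (nat_lit 0x8000080000000068786058a) (nat_lit 0) (p (nat_lit 0x10687058502) (nat_lit 0) (p (nat_lit 0x8606850482) (nat_lit 0) (p (nat_lit 0x160004) (nat_lit 0) (p (nat_lit 0x68612) (nat_lit 0) (p (nat_lit 0x50592) (nat_lit 0) (p (nat_lit 0x40512) (nat_lit 0) (p (nat_lit 0x50312) (nat_lit 0) (p (nat_lit 0x38292) (nat_lit 0) (p (nat_lit 0x28212) (nat_lit 0) (p (nat_lit 0x38112) (nat_lit 0) (p (nat_lit 0x20092) (nat_lit 0) (p (nat_lit 0x10012) (nat_lit 0) pn))))))))))))))))))))))))))) :=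
  Cl.node (nat_lit 0x380c2) (nat_lit 2) (by decide +kernel) (ClAll.succ (ClAll.succ ClAll.zero s585) n479)

def n563 : Cl (O (nat_lit 6)) (R (nat_lit 143633))
    (p (nat_lit 0x444aa) (nat_lit 7) (p (nat_lit 0xd1) (nat_lit 1) (p (nat_lit 0x111) (nat_lit 1) (p (nat_lit 0x109) (nat_lit 0) (p (nat_lit 0x101) (nat_lit 0) (p (nat_lit 0x119) (nat_lit 0) (p (nat_lit 0xc9) (nat_lit 0) (p (nat_lit 0x89) (nat_lit 1) (p (nat_lit 0x41) (nat_lit 0) (p (nat_lit 0x10a898a08881a) (nat_lit 0) (p (nat_lit 0x8a090988079a) (nat_lit 0) (p (nat_lit 0x108088907871a) (nat_lit 0) (p (nat_lit 0x87880887069a) (nat_lit 0) (p (nat_lit 0x8000080000000088806860a) (nat_lit 0) (p (nat_lit 0x8000080000000068786058a) (nat_lit 0) (p (nat_lit 0x10687058502) (nat_lit 0) (p (nat_lit 0x8606850482) (nat_lit 0) (p (nat_lit 0x160004) (nat_lit 0) (p (nat_lit 0x68612) (nat_lit 0) (p (nat_lit 0x50592) (nat_lit 0) (p (nat_lit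 0x40512) (nat_lit 0) (p (nat_lit 0x50312) (nat_lit 0) (p (nat_lit 0x38292) (nat_lit 0) (p (nat_lit 0x28212) (nat_lit 0) (p (nat_lit 0x38112) (nat_lit 0) (p (nat_lit 0x20092) (nat_lit 0) (p (nat_lit 0x10012) (nat_lit 0) pn))))))))))))))))))))))))))) :=
  Cl.node (nat_lit 0x380c2) (nat_lit 2) (by decide +kernel) (ClAll.succ (ClAll.succ ClAll.zero n480) n481)

def n564 : Cl (O (nat_lit 6)) (R (nat_lit 143633))
    (p (nat_lit 0x200014) (nat_lit 0) (p (nat_lit 0x20000c) (nat_lit 0) (p (nat_lit 0xd1) (nat_lit 0) (p (nat_lit 0x109) (nat_lit 1) (p (nat_lit 0x101) (nat_lit 0) (p (nat_lit 0x119) (nat_lit 0) (p (nat_lit 0xc9) (nat_lit 0) (p (nat_lit 0x89) (nat_lit 1) (p (nat_lit 0x41) (nat_lit 0) (p (nat_lit 0x10a898a08881a) (nat_lit 0) (p (nat_lit 0x8a090988079a) (nat_lit 0) (p (nat_lit 0x108088907871a) (nat_lit 0) (p (nat_lit 0x87880887069a) (nat_lit 0) (p (nat_lit 0x8000080000000088806860a)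 (nat_lit 0) (p (nat_lit 0x8000080000000068786058a) (nat_lit 0) (p (nat_lit 0x10687058502) (nat_lit 0) (p (nat_lit 0x8606850482) (nat_lit 0) (p (nat_lit 0x160004) (nat_lit 0) (p (nat_lit 0x68612) (nat_lit 0) (p (nat_lit 0x50592) (nat_lit 0) (p (nat_lit 0x40512) (nat_lit 0) (p (nat_lit 0x50312) (nat_lit 0) (p (nat_lit 0x38292) (nat_lit 0) (p (nat_lit 0x28212) (nat_lit 0) (p (nat_lit 0x38112) (nat_lit 0) (p (nat_lit 0x20092) (nat_lit 0) (p (nat_lit 0x10012) (nat_lit 0) pn))))))))))))))))))))))))))) :=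
  Cl.node (nat_lit 0x41) (nat_lit 2) (by decide +kernel) (ClAll.succ (ClAll.succ ClAll.zero n482) s715)

def n565 : Cl (O (nat_lit 6)) (R (nat_lit 143633))
    (p (nat_lit 0xb0004) (nat_lit 0) (p (nat_lit 0x20000c) (nat_lit 1) (p (nat_lit 0xd1) (nat_lit 0) (p (nat_lit 0x109) (nat_lit 1) (p (nat_lit 0x101) (nat_lit 0) (p (nat_lit 0x119) (nat_lit 0) (p (nat_lit 0xc9) (nat_lit 0) (p (nat_lit 0x89) (nat_lit 1) (p (nat_lit 0x41) (nat_lit 0) (p (nat_lit 0x10a898a08881a) (nat_lit 0) (p (nat_lit 0x8a090988079a) (nat_lit 0) (p (nat_lit 0x108088907871a) (nat_lit 0) (p (nat_lit 0x87880887069a) (nat_lit 0) (p (nat_lit 0x8000080000000088806860a) (nat_lit 0) (p (nat_lit 0x8000080000000068786058a) (nat_lit 0) (p (nat_lit 0x10687058502) (nat_lit 0) (p (nat_lit 0x8606850482) (nat_lit 0) (p (nat_lit 0x160004) (nat_lit 0) (p (nat_lit 0x68612) (nat_lit 0) (p (nat_lit 0x50592) (nat_lit 0) (p (nat_lit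 0x40512) (nat_lit 0) (p (nat_lit 0x50312) (nat_lit 0) (p (nat_lit 0x38292) (nat_lit 0) (p (nat_lit 0x28212) (nat_lit 0) (p (nat_lit 0x38112) (nat_lit 0) (p (nat_lit 0x20092) (nat_lit 0) (p (nat_lit 0x10012) (nat_lit 0) pn))))))))))))))))))))))))))) :=
  Cl.node (nat_lit 0x200014) (nat_lit 2) (by decide +kernel) (ClAll.succ (ClAll.succ ClAll.zero s717) s718)

def n566 : Cl (O (nat_lit 6)) (R (nat_lit 143633))
    (p (nat_lit 0x380c2) (nat_lit 0) (p (nat_lit 0x444aa) (nat_lit 7) (p (nat_lit 0xd1) (nat_lit 1) (p (nat_lit 0x109) (nat_lit 1) (p (nat_lit 0x101) (nat_lit 0) (p (nat_lit 0x119) (nat_lit 0) (p (nat_lit 0xc9) (nat_lit 0) (p (nat_lit 0x89) (nat_lit 1) (p (nat_lit 0x41) (nat_lit 0) (p (nat_lit 0x10a898a08881a) (nat_lit 0) (p (nat_lit 0x8a090988079a) (nat_lit 0) (p (nat_lit 0x108088907871a) (nat_lit 0) (p (nat_lit 0x87880887069a) (nat_lit 0) (p (nat_lit 0x8000080000000088806860a)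 (nat_lit 0) (p (nat_lit 0x8000080000000068786058a) (nat_lit 0) (p (nat_lit 0x10687058502) (nat_lit 0) (p (nat_lit 0x8606850482) (nat_lit 0) (p (nat_lit 0x160004) (nat_lit 0) (p (nat_lit 0x68612) (nat_lit 0) (p (nat_lit 0x50592) (nat_lit 0) (p (nat_lit 0x40512) (nat_lit 0) (p (nat_lit 0x50312) (nat_lit 0) (p (nat_lit 0x38292) (nat_lit 0) (p (nat_lit 0x28212) (nat_lit 0) (p (nat_lit 0x38112) (nat_lit 0) (p (nat_lit 0x20092) (nat_lit 0) (p (nat_lit 0x10012) (nat_lit 0) pn))))))))))))))))))))))))))) :=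
  Cl.node (nat_lit 0xb0004) (nat_lit 2) (by decide +kernel) (ClAll.succ (ClAll.succ ClAll.zero n483) n484)

def n567 : Cl (O (nat_lit 6)) (R (nat_lit 143633))
    (p (nat_lit 0x380c2) (nat_lit 1) (p (nat_lit 0x444aa) (nat_lit 7) (p (nat_lit 0xd1) (nat_lit 1) (p (nat_lit 0x109) (nat_lit 1) (p (nat_lit 0x101) (nat_lit 0) (p (nat_lit 0x119) (nat_lit 0) (p (nat_lit 0xc9) (nat_lit 0) (p (nat_lit 0x89) (nat_lit 1) (p (nat_lit 0x41) (nat_lit 0) (p (nat_lit 0x10a898a08881a) (nat_lit 0) (p (nat_lit 0x8a090988079a) (nat_lit 0) (p (nat_lit 0x108088907871a) (nat_lit 0) (p (nat_lit 0x87880887069a) (nat_lit 0) (p (nat_lit 0x8000080000000088806860a) (nat_lit 0) (p (nat_lit 0x8000080000000068786058a) (nat_lit 0) (p (nat_lit 0x10687058502) (nat_lit 0) (p (nat_lit 0x8606850482) (nat_lit 0) (p (nat_lit 0x160004) (nat_lit 0) (p (nat_lit 0x68612) (nat_lit 0) (p (nat_lit 0x50592) (nat_lit 0) (p (nat_lit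 0x40512) (nat_lit 0) (p (nat_lit 0x50312) (nat_lit 0) (p (nat_lit 0x38292) (nat_lit 0) (p (nat_lit 0x28212) (nat_lit 0) (p (nat_lit 0x38112) (nat_lit 0) (p (nat_lit 0x20092) (nat_lit 0) (p (nat_lit 0x10012) (nat_lit 0) pn))))))))))))))))))))))))))) :=
  Cl.node (nat_lit 0xb0004) (nat_lit 2) (by decide +kernel) (ClAll.succ (ClAll.succ ClAll.zero n485) n486)

def n568 : Cl (O (nat_lit 6)) (R (nat_lit 143633))
    (p (nat_lit 0x200014) (nat_lit 0) (p (nat_lit 0x20000c) (nat_lit 0) (p (nat_lit 0xd1) (nat_lit 0) (p (nat_lit 0xc1) (nat_lit 0) (p (nat_lit 0x101) (nat_lit 1) (p (nat_lit 0x119) (nat_lit 0) (p (nat_lit 0xc9) (nat_lit 0) (p (nat_lit 0x89) (nat_lit 1) (p (nat_lit 0x41) (nat_lit 0) (p (nat_lit 0x10a898a08881a) (nat_lit 0) (p (nat_lit 0x8a090988079a) (nat_lit 0) (p (nat_lit 0x108088907871a) (nat_lit 0) (p (nat_lit 0x87880887069a) (nat_lit 0) (p (nat_lit 0x8000080000000088806860a)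 (nat_lit 0) (p (nat_lit 0x8000080000000068786058a) (nat_lit 0) (p (nat_lit 0x10687058502) (nat_lit 0) (p (nat_lit 0x8606850482) (nat_lit 0) (p (nat_lit 0x160004) (nat_lit 0) (p (nat_lit 0x68612) (nat_lit 0) (p (nat_lit 0x50592) (nat_lit 0) (p (nat_lit 0x40512) (nat_lit 0) (p (nat_lit 0x50312) (nat_lit 0) (p (nat_lit 0x38292) (nat_lit 0) (p (nat_lit 0x28212) (nat_lit 0) (p (nat_lit 0x38112) (nat_lit 0) (p (nat_lit 0x20092) (nat_lit 0) (p (nat_lit 0x10012) (nat_lit 0) pn))))))))))))))))))))))))))) :=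
  Cl.node (nat_lit 0x109) (nat_lit 2) (by decide +kernel) (ClAll.succ (ClAll.succ ClAll.zero n487) n488)

def n569 : Cl (O (nat_lit 6)) (R (nat_lit 143633))
    (p (nat_lit 0x380c2) (nat_lit 0) (p (nat_lit 0x444aa) (nat_lit 7) (p (nat_lit 0xd1) (nat_lit 1) (p (nat_lit 0xc1) (nat_lit 0) (p (nat_lit 0x101) (nat_lit 1) (p (nat_lit 0x119) (nat_lit 0) (p (nat_lit 0xc9) (nat_lit 0) (p (nat_lit 0x89) (nat_lit 1) (p (nat_lit 0x41) (nat_lit 0) (p (nat_lit 0x10a898a08881a) (nat_lit 0) (p (nat_lit 0x8a090988079a) (nat_lit 0) (p (nat_lit 0x108088907871a) (nat_lit 0) (p (nat_lit 0x87880887069a) (nat_lit 0) (p (nat_lit 0x8000080000000088806860a) (nat_lit 0) (p (nat_lit 0x8000080000000068786058a) (nat_lit 0) (p (nat_lit 0x10687058502) (nat_lit 0) (p (nat_lit 0x8606850482) (nat_lit 0) (p (nat_lit 0x160004) (nat_lit 0) (p (nat_lit 0x68612) (nat_lit 0) (p (nat_lit 0x50592) (nat_lit 0) (p (nat_lit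 0x40512) (nat_lit 0) (p (nat_lit 0x50312) (nat_lit 0) (p (nat_lit 0x38292) (nat_lit 0) (p (nat_lit 0x28212) (nat_lit 0) (p (nat_lit 0x38112) (nat_lit 0) (p (nat_lit 0x20092) (nat_lit 0) (p (nat_lit 0x10012) (nat_lit 0) pn))))))))))))))))))))))))))) :=
  Cl.node (nat_lit 0xb0004) (nat_lit 2) (by decide +kernel) (ClAll.succ (ClAll.succ ClAll.zero n489) s880)

def n570 : Cl (O (nat_lit 6)) (R (nat_lit 143633))
    (p (nat_lit 0x380c2) (nat_lit 1) (p (nat_lit 0x444aa) (nat_lit 7) (p (nat_lit 0xd1) (nat_lit 1) (p (nat_lit 0xc1) (nat_lit 0) (p (nat_lit 0x101) (nat_lit 1) (p (nat_lit 0x119) (nat_lit 0) (p (nat_lit 0xc9) (nat_lit 0) (p (nat_lit 0x89) (nat_lit 1) (p (nat_lit 0x41) (nat_lit 0) (p (nat_lit 0x10a898a08881a) (nat_lit 0) (p (nat_lit 0x8a090988079a) (nat_lit 0) (p (nat_lit 0x108088907871a) (nat_lit 0) (p (nat_lit 0x87880887069a) (nat_lit 0) (p (nat_lit 0x8000080000000088806860a)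 (nat_lit 0) (p (nat_lit 0x8000080000000068786058a) (nat_lit 0) (p (nat_lit 0x10687058502) (nat_lit 0) (p (nat_lit 0x8606850482) (nat_lit 0) (p (nat_lit 0x160004) (nat_lit 0) (p (nat_lit 0x68612) (nat_lit 0) (p (nat_lit 0x50592) (nat_lit 0) (p (nat_lit 0x40512) (nat_lit 0) (p (nat_lit 0x50312) (nat_lit 0) (p (nat_lit 0x38292) (nat_lit 0) (p (nat_lit 0x28212) (nat_lit 0) (p (nat_lit 0x38112) (nat_lit 0) (p (nat_lit 0x20092) (nat_lit 0) (p (nat_lit 0x10012) (nat_lit 0) pn))))))))))))))))))))))))))) :=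
  Cl.node (nat_lit 0xb0004) (nat_lit 2) (by decide +kernel) (ClAll.succ (ClAll.succ ClAll.zero n490) s896)

def n571 : Cl (O (nat_lit 6)) (R (nat_lit 143633))
    (p (nat_lit 0x380c2) (nat_lit 0) (p (nat_lit 0x444aa) (nat_lit 7) (p (nat_lit 0x111) (nat_lit 1) (p (nat_lit 0xd1) (nat_lit 1) (p (nat_lit 0xc1) (nat_lit 0) (p (nat_lit 0x119) (nat_lit 1) (p (nat_lit 0xc9) (nat_lit 0) (p (nat_lit 0x89) (nat_lit 1) (p (nat_lit 0x41) (nat_lit 0) (p (nat_lit 0x10a898a08881a) (nat_lit 0) (p (nat_lit 0x8a090988079a) (nat_lit 0) (p (nat_lit 0x108088907871a) (nat_lit 0) (p (nat_lit 0x87880887069a) (nat_lit 0) (p (nat_lit 0x8000080000000088806860a) (nat_lit 0) (p (nat_lit 0x8000080000000068786058a) (nat_lit 0) (p (nat_lit 0x10687058502) (nat_lit 0) (p (nat_lit 0x8606850482) (nat_lit 0) (p (nat_lit 0x160004) (nat_lit 0) (p (nat_lit 0x68612) (nat_lit 0) (p (nat_lit 0x50592) (nat_lit 0) (p (nat_lit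 0x40512) (nat_lit 0) (p (nat_lit 0x50312) (nat_lit 0) (p (nat_lit 0x38292) (nat_lit 0) (p (nat_lit 0x28212) (nat_lit 0) (p (nat_lit 0x38112) (nat_lit 0) (p (nat_lit 0x20092) (nat_lit 0) (p (nat_lit 0x10012) (nat_lit 0) pn))))))))))))))))))))))))))) :=
  Cl.node (nat_lit 0xb0004) (nat_lit 2) (by decide +kernel) (ClAll.succ (ClAll.succ ClAll.zero n491) s914)

def n572 : Cl (O (nat_lit 6)) (R (nat_lit 143633))
    (p (nat_lit 0x380c2) (nat_lit 1) (p (nat_lit 0x444aa) (nat_lit 7) (p (nat_lit 0x111) (nat_lit 1) (p (nat_lit 0xd1) (nat_lit 1) (p (nat_lit 0xc1) (nat_lit 0) (p (nat_lit 0x119) (nat_lit 1) (p (nat_lit 0xc9) (nat_lit 0) (p (nat_lit 0x89) (nat_lit 1) (p (nat_lit 0x41) (nat_lit 0) (p (nat_lit 0x10a898a08881a) (nat_lit 0) (p (nat_lit 0x8a090988079a) (nat_lit 0) (p (nat_lit 0x108088907871a) (nat_lit 0) (p (nat_lit 0x87880887069a) (nat_lit 0) (p (nat_lit 0x8000080000000088806860a)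 (nat_lit 0) (p (nat_lit 0x8000080000000068786058a) (nat_lit 0) (p (nat_lit 0x10687058502) (nat_lit 0) (p (nat_lit 0x8606850482) (nat_lit 0) (p (nat_lit 0x160004) (nat_lit 0) (p (nat_lit 0x68612) (nat_lit 0) (p (nat_lit 0x50592) (nat_lit 0) (p (nat_lit 0x40512) (nat_lit 0) (p (nat_lit 0x50312) (nat_lit 0) (p (nat_lit 0x38292) (nat_lit 0) (p (nat_lit 0x28212) (nat_lit 0) (p (nat_lit 0x38112) (nat_lit 0) (p (nat_lit 0x20092) (nat_lit 0) (p (nat_lit 0x10012) (nat_lit 0) pn))))))))))))))))))))))))))) :=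
  Cl.node (nat_lit 0xb0004) (nat_lit 2) (by decide +kernel) (ClAll.succ (ClAll.succ ClAll.zero n492) n493)

def n573 : Cl (O (nat_lit 6)) (R (nat_lit 143633))
    (p (nat_lit 0x380c2) (nat_lit 0) (p (nat_lit 0x44c2a) (nat_lit 0) (p (nat_lit 0x111) (nat_lit 0) (p (nat_lit 0x101) (nat_lit 0) (p (nat_lit 0xc1) (nat_lit 1) (p (nat_lit 0x119) (nat_lit 1) (p (nat_lit 0xc9) (nat_lit 0) (p (nat_lit 0x89) (nat_lit 1) (p (nat_lit 0x41) (nat_lit 0) (p (nat_lit 0x10a898a08881a) (nat_lit 0) (p (nat_lit 0x8a090988079a) (nat_lit 0) (p (nat_lit 0x108088907871a) (nat_lit 0) (p (nat_lit 0x87880887069a) (nat_lit 0) (p (nat_lit 0x8000080000000088806860a) (nat_lit 0) (p (nat_lit 0x8000080000000068786058a) (nat_lit 0) (p (nat_lit 0x10687058502) (nat_lit 0) (p (nat_lit 0x8606850482) (nat_lit 0) (p (nat_lit 0x160004) (nat_lit 0) (p (nat_lit 0x68612) (nat_lit 0) (p (nat_lit 0x50592) (nat_lit 0) (p (nat_lit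 0x40512) (nat_lit 0) (p (nat_lit 0x50312) (nat_lit 0) (p (nat_lit 0x38292) (nat_lit 0) (p (nat_lit 0x28212) (nat_lit 0) (p (nat_lit 0x38112) (nat_lit 0) (p (nat_lit 0x20092) (nat_lit 0) (p (nat_lit 0x10012) (nat_lit 0) pn))))))))))))))))))))))))))) :=
  Cl.node (nat_lit 0x101) (nat_lit 2) (by decide +kernel) (ClAll.succ (ClAll.succ ClAll.zero s928) n494)

def n574 : Cl (O (nat_lit 6)) (R (nat_lit 143633))
    (p (nat_lit 0x380c2) (nat_lit 0) (p (nat_lit 0x44c2a) (nat_lit 1) (p (nat_lit 0x111) (nat_lit 0) (p (nat_lit 0x101) (nat_lit 0) (p (nat_lit 0xc1) (nat_lit 1) (p (nat_lit 0x119) (nat_lit 1) (p (nat_lit 0xc9) (nat_lit 0) (p (nat_lit 0x89) (nat_lit 1) (p (nat_lit 0x41) (nat_lit 0) (p (nat_lit 0x10a898a08881a) (nat_lit 0) (p (nat_lit 0x8a090988079a) (nat_lit 0) (p (nat_lit 0x108088907871a) (nat_lit 0) (p (nat_lit 0x87880887069a) (nat_lit 0) (p (nat_lit 0x8000080000000088806860a)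 (nat_lit 0) (p (nat_lit 0x8000080000000068786058a) (nat_lit 0) (p (nat_lit 0x10687058502) (nat_lit 0) (p (nat_lit 0x8606850482) (nat_lit 0) (p (nat_lit 0x160004) (nat_lit 0) (p (nat_lit 0x68612) (nat_lit 0) (p (nat_lit 0x50592) (nat_lit 0) (p (nat_lit 0x40512) (nat_lit 0) (p (nat_lit 0x50312) (nat_lit 0) (p (nat_lit 0x38292) (nat_lit 0) (p (nat_lit 0x28212) (nat_lit 0) (p (nat_lit 0x38112) (nat_lit 0) (p (nat_lit 0x20092) (nat_lit 0) (p (nat_lit 0x10012) (nat_lit 0) pn))))))))))))))))))))))))))) :=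
  Cl.node (nat_lit 0xb0004) (nat_lit 2) (by decide +kernel) (ClAll.succ (ClAll.succ ClAll.zero n495) s949)

def n575 : Cl (O (nat_lit 6)) (R (nat_lit 143633))
    (p (nat_lit 0x380c2) (nat_lit 0) (p (nat_lit 0x444aa) (nat_lit 7) (p (nat_lit 0x111) (nat_lit 1) (p (nat_lit 0x101) (nat_lit 0) (p (nat_lit 0xc1) (nat_lit 1) (p (nat_lit 0x119) (nat_lit 1) (p (nat_lit 0xc9) (nat_lit 0) (p (nat_lit 0x89) (nat_lit 1) (p (nat_lit 0x41) (nat_lit 0) (p (nat_lit 0x10a898a08881a) (nat_lit 0) (p (nat_lit 0x8a090988079a) (nat_lit 0) (p (nat_lit 0x108088907871a) (nat_lit 0) (p (nat_lit 0x87880887069a) (nat_lit 0) (p (nat_lit 0x8000080000000088806860a) (nat_lit 0) (p (nat_lit 0x8000080000000068786058a) (nat_lit 0) (p (nat_lit 0x10687058502) (nat_lit 0) (p (nat_lit 0x8606850482) (nat_lit 0) (p (nat_lit 0x160004) (nat_lit 0) (p (nat_lit 0x68612) (nat_lit 0) (p (nat_lit 0x50592) (nat_lit 0) (p (nat_lit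 0x40512) (nat_lit 0) (p (nat_lit 0x50312) (nat_lit 0) (p (nat_lit 0x38292) (nat_lit 0) (p (nat_lit 0x28212) (nat_lit 0) (p (nat_lit 0x38112) (nat_lit 0) (p (nat_lit 0x20092) (nat_lit 0) (p (nat_lit 0x10012) (nat_lit 0) pn))))))))))))))))))))))))))) :=
  Cl.node (nat_lit 0xb0004) (nat_lit 2) (by decide +kernel) (ClAll.succ (ClAll.succ ClAll.zero n496) s982)

def n576 : Cl (O (nat_lit 6)) (R (nat_lit 143633))
    (p (nat_lit 0x380c2) (nat_lit 1) (p (nat_lit 0x444aa) (nat_lit 7) (p (nat_lit 0x111) (nat_lit 1) (p (nat_lit 0x101) (nat_lit 0) (p (nat_lit 0xc1) (nat_lit 1) (p (nat_lit 0x119) (nat_lit 1) (p (nat_lit 0xc9) (nat_lit 0) (p (nat_lit 0x89) (nat_lit 1) (p (nat_lit 0x41) (nat_lit 0) (p (nat_lit 0x10a898a08881a) (nat_lit 0) (p (nat_lit 0x8a090988079a) (nat_lit 0) (p (nat_lit 0x108088907871a) (nat_lit 0) (p (nat_lit 0x87880887069a) (nat_lit 0) (p (nat_lit 0x8000080000000088806860a)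 (nat_lit 0) (p (nat_lit 0x8000080000000068786058a) (nat_lit 0) (p (nat_lit 0x10687058502) (nat_lit 0) (p (nat_lit 0x8606850482) (nat_lit 0) (p (nat_lit 0x160004) (nat_lit 0) (p (nat_lit 0x68612) (nat_lit 0) (p (nat_lit 0x50592) (nat_lit 0) (p (nat_lit 0x40512) (nat_lit 0) (p (nat_lit 0x50312) (nat_lit 0) (p (nat_lit 0x38292) (nat_lit 0) (p (nat_lit 0x28212) (nat_lit 0) (p (nat_lit 0x38112) (nat_lit 0) (p (nat_lit 0x20092) (nat_lit 0) (p (nat_lit 0x10012) (nat_lit 0) pn))))))))))))))))))))))))))) :=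
  Cl.node (nat_lit 0xb0004) (nat_lit 2) (by decide +kernel) (ClAll.succ (ClAll.succ ClAll.zero n497) s1000)

def n577 : Cl (O (nat_lit 6)) (R (nat_lit 143633))
    (p (nat_lit 0x4c42a) (nat_lit 2) (p (nat_lit 0x111) (nat_lit 0) (p (nat_lit 0x89) (nat_lit 0) (p (nat_lit 0x109) (nat_lit 1) (p (nat_lit 0x101) (nat_lit 0) (p (nat_lit 0x119) (nat_lit 0) (p (nat_lit 0xd1) (nat_lit 0) (p (nat_lit 0x81) (nat_lit 0) (p (nat_lit 0x41) (nat_lit 1) (p (nat_lit 0x10a898a08881a) (nat_lit 0) (p (nat_lit 0x8a090988079a) (nat_lit 0) (p (nat_lit 0x108088907871a) (nat_lit 0) (p (nat_lit 0x87880887069a) (nat_lit 0) (p (nat_lit 0x8000080000000088806860a) (nat_lit 0) (p (nat_lit 0x8000080000000068786058a) (nat_lit 0) (p (nat_lit 0x10687058502) (nat_lit 0) (p (nat_lit 0x8606850482) (nat_lit 0) (p (nat_lit 0x160004) (nat_lit 0) (p (nat_lit 0x68612) (nat_lit 0) (p (nat_lit 0x50592) (nat_lit 0) (p (nat_lit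 0x40512) (nat_lit 0) (p (nat_lit 0x50312) (nat_lit 0) (p (nat_lit 0x38292) (nat_lit 0) (p (nat_lit 0x28212) (nat_lit 0) (p (nat_lit 0x38112) (nat_lit 0) (p (nat_lit 0x20092) (nat_lit 0) (p (nat_lit 0x10012) (nat_lit 0) pn))))))))))))))))))))))))))) :=
  Cl.node (nat_lit 0x380c2) (nat_lit 1) (by decide +kernel) (ClAll.succ ClAll.zero n498)

def n578 : Cl (O (nat_lit 6)) (R (nat_lit 143633))
    (p (nat_lit 0x4c42a) (nat_lit 8) (p (nat_lit 0x111) (nat_lit 0) (p (nat_lit 0x89) (nat_lit 0) (p (nat_lit 0x109) (nat_lit 1) (p (nat_lit 0x101) (nat_lit 0) (p (nat_lit 0x119) (nat_lit 0) (p (nat_lit 0xd1) (nat_lit 0) (p (nat_lit 0x81) (nat_lit 0) (p (nat_lit 0x41) (nat_lit 1) (p (nat_lit 0x10a898a08881a) (nat_lit 0) (p (nat_lit 0x8a090988079a) (nat_lit 0) (p (nat_lit 0x108088907871a) (nat_lit 0) (p (nat_lit 0x87880887069a) (nat_lit 0) (p (nat_lit 0x8000080000000088806860a) (nat_lit 0) (p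 (nat_lit 0x8000080000000068786058a) (nat_lit 0) (p (nat_lit 0x10687058502) (nat_lit 0) (p (nat_lit 0x8606850482) (nat_lit 0) (p (nat_lit 0x160004) (nat_lit 0) (p (nat_lit 0x68612) (nat_lit 0) (p (nat_lit 0x50592) (nat_lit 0) (p (nat_lit 0x40512) (nat_lit 0) (p (nat_lit 0x50312) (nat_lit 0) (p (nat_lit 0x38292) (nat_lit 0) (p (nat_lit 0x28212) (nat_lit 0) (p (nat_lit 0x38112) (nat_lit 0) (p (nat_lit 0x20092) (nat_lit 0) (p (nat_lit 0x10012) (nat_lit 0) pn))))))))))))))))))))))))))) :=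
  Cl.node (nat_lit 0x380c2) (nat_lit 2) (by decide +kernel) (ClAll.succ (ClAll.succ ClAll.zero s1072) s1073)

def n579 : Cl (O (nat_lit 6)) (R (nat_lit 143633))
    (p (nat_lit 0x3cc2a) (nat_lit 10) (p (nat_lit 0x111) (nat_lit 1) (p (nat_lit 0x89) (nat_lit 0) (p (nat_lit 0x109) (nat_lit 1) (p (nat_lit 0x101) (nat_lit 0) (p (nat_lit 0x119) (nat_lit 0) (p (nat_lit 0xd1) (nat_lit 0) (p (nat_lit 0x81) (nat_lit 0) (p (nat_lit 0x41) (nat_lit 1) (p (nat_lit 0x10a898a08881a) (nat_lit 0) (p (nat_lit 0x8a090988079a) (nat_lit 0) (p (nat_lit 0x108088907871a) (nat_lit 0) (p (nat_lit 0x87880887069a) (nat_lit 0) (p (nat_lit 0x8000080000000088806860a) (nat_lit 0) (p (nat_lit 0x8000080000000068786058a) (nat_lit 0) (p (nat_lit 0x10687058502) (nat_lit 0) (p (nat_lit 0x8606850482) (nat_lit 0) (p (nat_lit 0x160004) (nat_lit 0) (p (nat_lit 0x68612) (nat_lit 0) (p (nat_lit 0x50592) (nat_lit 0) (p (nat_lit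 0x40512) (nat_lit 0) (p (nat_lit 0x50312) (nat_lit 0) (p (nat_lit 0x38292) (nat_lit 0) (p (nat_lit 0x28212) (nat_lit 0) (p (nat_lit 0x38112) (nat_lit 0) (p (nat_lit 0x20092) (nat_lit 0) (p (nat_lit 0x10012) (nat_lit 0) pn))))))))))))))))))))))))))) :=
  Cl.node (nat_lit 0x380c2) (nat_lit 2) (by decide +kernel) (ClAll.succ (ClAll.succ ClAll.zero s1087) n499)

def n580 : Cl (O (nat_lit 6)) (R (nat_lit 143633))
    (p (nat_lit 0x3cc2a) (nat_lit 11) (p (nat_lit 0x111) (nat_lit 1) (p (nat_lit 0x89) (nat_lit 0) (p (nat_lit 0x109) (nat_lit 1) (p (nat_lit 0x101) (nat_lit 0) (p (nat_lit 0x119) (nat_lit 0) (p (nat_lit 0xd1) (nat_lit 0) (p (nat_lit 0x81) (nat_lit 0) (p (nat_lit 0x41) (nat_lit 1) (p (nat_lit 0x10a898a08881a) (nat_lit 0) (p (nat_lit 0x8a090988079a) (nat_lit 0) (p (nat_lit 0x108088907871a) (nat_lit 0) (p (nat_lit 0x87880887069a) (nat_lit 0) (p (nat_lit 0x8000080000000088806860a)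 (nat_lit 0) (p (nat_lit 0x8000080000000068786058a) (nat_lit 0) (p (nat_lit 0x10687058502) (nat_lit 0) (p (nat_lit 0x8606850482) (nat_lit 0) (p (nat_lit 0x160004) (nat_lit 0) (p (nat_lit 0x68612) (nat_lit 0) (p (nat_lit 0x50592) (nat_lit 0) (p (nat_lit 0x40512) (nat_lit 0) (p (nat_lit 0x50312) (nat_lit 0) (p (nat_lit 0x38292) (nat_lit 0) (p (nat_lit 0x28212) (nat_lit 0) (p (nat_lit 0x38112) (nat_lit 0) (p (nat_lit 0x20092) (nat_lit 0) (p (nat_lit 0x10012) (nat_lit 0) pn))))))))))))))))))))))))))) :=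
  Cl.node (nat_lit 0x380c2) (nat_lit 2) (by decide +kernel) (ClAll.succ (ClAll.succ ClAll.zero n500) s1094)

def n581 : Cl (O (nat_lit 6)) (R (nat_lit 143633))
    (p (nat_lit 0x4c42a) (nat_lit 2) (p (nat_lit 0xc9) (nat_lit 0) (p (nat_lit 0x89) (nat_lit 1) (p (nat_lit 0x109) (nat_lit 1) (p (nat_lit 0x101) (nat_lit 0) (p (nat_lit 0x119) (nat_lit 0) (p (nat_lit 0xd1) (nat_lit 0) (p (nat_lit 0x81) (nat_lit 0) (p (nat_lit 0x41) (nat_lit 1) (p (nat_lit 0x10a898a08881a) (nat_lit 0) (p (nat_lit 0x8a090988079a) (nat_lit 0) (p (nat_lit 0x108088907871a) (nat_lit 0) (p (nat_lit 0x87880887069a) (nat_lit 0) (p (nat_lit 0x8000080000000088806860a) (nat_lit 0) (p (nat_lit 0x8000080000000068786058a) (nat_lit 0) (p (nat_lit 0x10687058502) (nat_lit 0) (p (nat_lit 0x8606850482) (nat_lit 0) (p (nat_lit 0x160004) (nat_lit 0) (p (nat_lit 0x68612) (nat_lit 0) (p (nat_lit 0x50592) (nat_lit 0) (p (nat_lit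 0x40512) (nat_lit 0) (p (nat_lit 0x50312) (nat_lit 0) (p (nat_lit 0x38292) (nat_lit 0) (p (nat_lit 0x28212) (nat_lit 0) (p (nat_lit 0x38112) (nat_lit 0) (p (nat_lit 0x20092) (nat_lit 0) (p (nat_lit 0x10012) (nat_lit 0) pn))))))))))))))))))))))))))) :=
  Cl.node (nat_lit 0x380c2) (nat_lit 1) (by decide +kernel) (ClAll.succ ClAll.zero n501)

def n582 : Cl (O (nat_lit 6)) (R (nat_lit 143633))
    (p (nat_lit 0x4c42a) (nat_lit 8) (p (nat_lit 0xc9) (nat_lit 0) (p (nat_lit 0x89) (nat_lit 1) (p (nat_lit 0x109) (nat_lit 1) (p (nat_lit 0x101) (nat_lit 0) (p (nat_lit 0x119) (nat_lit 0) (p (nat_lit 0xd1) (nat_lit 0) (p (nat_lit 0x81) (nat_lit 0) (p (nat_lit 0x41) (nat_lit 1) (p (nat_lit 0x10a898a08881a) (nat_lit 0) (p (nat_lit 0x8a090988079a) (nat_lit 0) (p (nat_lit 0x108088907871a) (nat_lit 0) (p (nat_lit 0x87880887069a) (nat_lit 0) (p (nat_lit 0x8000080000000088806860a) (nat_lit 0) (p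 (nat_lit 0x8000080000000068786058a) (nat_lit 0) (p (nat_lit 0x10687058502) (nat_lit 0) (p (nat_lit 0x8606850482) (nat_lit 0) (p (nat_lit 0x160004) (nat_lit 0) (p (nat_lit 0x68612) (nat_lit 0) (p (nat_lit 0x50592) (nat_lit 0) (p (nat_lit 0x40512) (nat_lit 0) (p (nat_lit 0x50312) (nat_lit 0) (p (nat_lit 0x38292) (nat_lit 0) (p (nat_lit 0x28212) (nat_lit 0) (p (nat_lit 0x38112) (nat_lit 0) (p (nat_lit 0x20092) (nat_lit 0) (p (nat_lit 0x10012) (nat_lit 0) pn))))))))))))))))))))))))))) :=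
  Cl.node (nat_lit 0x380c2) (nat_lit 2) (by decide +kernel) (ClAll.succ (ClAll.succ ClAll.zero n502) s1120)

def n583 : Cl (O (nat_lit 6)) (R (nat_lit 143633))
    (p (nat_lit 0x380c2) (nat_lit 0) (p (nat_lit 0x3cc2a) (nat_lit 11) (p (nat_lit 0x89) (nat_lit 0) (p (nat_lit 0xc1) (nat_lit 0) (p (nat_lit 0x101) (nat_lit 1) (p (nat_lit 0x119) (nat_lit 0) (p (nat_lit 0xd1) (nat_lit 0) (p (nat_lit 0x81) (nat_lit 0) (p (nat_lit 0x41) (nat_lit 1) (p (nat_lit 0x10a898a08881a) (nat_lit 0) (p (nat_lit 0x8a090988079a) (nat_lit 0) (p (nat_lit 0x108088907871a) (nat_lit 0) (p (nat_lit 0x87880887069a) (nat_lit 0) (p (nat_lit 0x8000080000000088806860a) (nat_lit 0) (p (nat_lit 0x8000080000000068786058a) (nat_lit 0) (p (nat_lit 0x10687058502) (nat_lit 0) (p (nat_lit 0x8606850482) (nat_lit 0) (p (nat_lit 0x160004) (nat_lit 0) (p (nat_lit 0x68612) (nat_lit 0) (p (nat_lit 0x50592) (nat_lit 0) (p (nat_lit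 0x40512) (nat_lit 0) (p (nat_lit 0x50312) (nat_lit 0) (p (nat_lit 0x38292) (nat_lit 0) (p (nat_lit 0x28212) (nat_lit 0) (p (nat_lit 0x38112) (nat_lit 0) (p (nat_lit 0x20092) (nat_lit 0) (p (nat_lit 0x10012) (nat_lit 0) pn))))))))))))))))))))))))))) :=
  Cl.node (nat_lit 0x200014) (nat_lit 2) (by decide +kernel) (ClAll.succ (ClAll.succ ClAll.zero n503) s1139)

def n584 : Cl (O (nat_lit 6)) (R (nat_lit 143633))
    (p (nat_lit 0x4c42a) (nat_lit 2) (p (nat_lit 0xc9) (nat_lit 0) (p (nat_lit 0x89) (nat_lit 1) (p (nat_lit 0xc1) (nat_lit 0) (p (nat_lit 0x101) (nat_lit 1) (p (nat_lit 0x119) (nat_lit 0) (p (nat_lit 0xd1) (nat_lit 0) (p (nat_lit 0x81) (nat_lit 0) (p (nat_lit 0x41) (nat_lit 1) (p (nat_lit 0x10a898a08881a) (nat_lit 0) (p (nat_lit 0x8a090988079a) (nat_lit 0) (p (nat_lit 0x108088907871a) (nat_lit 0) (p (nat_lit 0x87880887069a) (nat_lit 0) (p (nat_lit 0x8000080000000088806860a)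 (nat_lit 0) (p (nat_lit 0x8000080000000068786058a) (nat_lit 0) (p (nat_lit 0x10687058502) (nat_lit 0) (p (nat_lit 0x8606850482) (nat_lit 0) (p (nat_lit 0x160004) (nat_lit 0) (p (nat_lit 0x68612) (nat_lit 0) (p (nat_lit 0x50592) (nat_lit 0) (p (nat_lit 0x40512) (nat_lit 0) (p (nat_lit 0x50312) (nat_lit 0) (p (nat_lit 0x38292) (nat_lit 0) (p (nat_lit 0x28212) (nat_lit 0) (p (nat_lit 0x38112) (nat_lit 0) (p (nat_lit 0x20092) (nat_lit 0) (p (nat_lit 0x10012) (nat_lit 0) pn))))))))))))))))))))))))))) :=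
  Cl.node (nat_lit 0x380c2) (nat_lit 1) (by decide +kernel) (ClAll.succ ClAll.zero n504)

def n585 : Cl (O (nat_lit 6)) (R (nat_lit 143633))
    (p (nat_lit 0x4c42a) (nat_lit 8) (p (nat_lit 0xc9) (nat_lit 0) (p (nat_lit 0x89) (nat_lit 1) (p (nat_lit 0xc1) (nat_lit 0) (p (nat_lit 0x101) (nat_lit 1) (p (nat_lit 0x119) (nat_lit 0) (p (nat_lit 0xd1) (nat_lit 0) (p (nat_lit 0x81) (nat_lit 0) (p (nat_lit 0x41) (nat_lit 1) (p (nat_lit 0x10a898a08881a) (nat_lit 0) (p (nat_lit 0x8a090988079a) (nat_lit 0) (p (nat_lit 0x108088907871a) (nat_lit 0) (p (nat_lit 0x87880887069a) (nat_lit 0) (p (nat_lit 0x8000080000000088806860a) (nat_lit 0) (p (nat_lit 0x8000080000000068786058a) (nat_lit 0) (p (nat_lit 0x10687058502) (nat_lit 0) (p (nat_lit 0x8606850482) (nat_lit 0) (p (nat_lit 0x160004) (nat_lit 0) (p (nat_lit 0x68612) (nat_lit 0) (p (nat_lit 0x50592) (nat_lit 0) (p (nat_lit 0x40512) (nat_lit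 0) (p (nat_lit 0x50312) (nat_lit 0) (p (nat_lit 0x38292) (nat_lit 0) (p (nat_lit 0x28212) (nat_lit 0) (p (nat_lit 0x38112) (nat_lit 0) (p (nat_lit 0x20092) (nat_lit 0) (p (nat_lit 0x10012) (nat_lit 0) pn))))))))))))))))))))))))))) :=
  Cl.node (nat_lit 0x380c2) (nat_lit 2) (by decide +kernel) (ClAll.succ (ClAll.succ ClAll.zero s1164) s1165)

def n586 : Cl (O (nat_lit 6)) (R (nat_lit 143633))
    (p (nat_lit 0x4c42a) (nat_lit 2) (p (nat_lit 0xc9) (nat_lit 1) (p (nat_lit 0x89) (nat_lit 1) (p (nat_lit 0xc1) (nat_lit 0) (p (nat_lit 0x101) (nat_lit 1) (p (nat_lit 0x119) (nat_lit 0) (p (nat_lit 0xd1) (nat_lit 0) (p (nat_lit 0x81) (nat_lit 0) (p (nat_lit 0x41) (nat_lit 1) (p (nat_lit 0x10a898a08881a) (nat_lit 0) (p (nat_lit 0x8a090988079a) (nat_lit 0) (p (nat_lit 0x108088907871a) (nat_lit 0) (p (nat_lit 0x87880887069a) (nat_lit 0) (p (nat_lit 0x8000080000000088806860a) (nat_lit 0) (p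 (nat_lit 0x8000080000000068786058a) (nat_lit 0) (p (nat_lit 0x10687058502) (nat_lit 0) (p (nat_lit 0x8606850482) (nat_lit 0) (p (nat_lit 0x160004) (nat_lit 0) (p (nat_lit 0x68612) (nat_lit 0) (p (nat_lit 0x50592) (nat_lit 0) (p (nat_lit 0x40512) (nat_lit 0) (p (nat_lit 0x50312) (nat_lit 0) (p (nat_lit 0x38292) (nat_lit 0) (p (nat_lit 0x28212) (nat_lit 0) (p (nat_lit 0x38112) (nat_lit 0) (p (nat_lit 0x20092) (nat_lit 0) (p (nat_lit 0x10012) (nat_lit 0) pn))))))))))))))))))))))))))) :=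
  Cl.node (nat_lit 0x380c2) (nat_lit 1) (by decide +kernel) (ClAll.succ ClAll.zero n505)

def n587 : Cl (O (nat_lit 6)) (R (nat_lit 143633))
    (p (nat_lit 0x380c2) (nat_lit 0) (p (nat_lit 0x3c4aa) (nat_lit 7) (p (nat_lit 0x89) (nat_lit 1) (p (nat_lit 0xc1) (nat_lit 1) (p (nat_lit 0x101) (nat_lit 1) (p (nat_lit 0x119) (nat_lit 0) (p (nat_lit 0xd1) (nat_lit 0) (p (nat_lit 0x81) (nat_lit 0) (p (nat_lit 0x41) (nat_lit 1) (p (nat_lit 0x10a898a08881a) (nat_lit 0) (p (nat_lit 0x8a090988079a) (nat_lit 0) (p (nat_lit 0x108088907871a) (nat_lit 0) (p (nat_lit 0x87880887069a) (nat_lit 0) (p (nat_lit 0x8000080000000088806860a) (nat_lit 0) (p (nat_lit 0x8000080000000068786058a) (nat_lit 0) (p (nat_lit 0x10687058502) (nat_lit 0) (p (nat_lit 0x8606850482) (nat_lit 0) (p (nat_lit 0x160004) (nat_lit 0) (p (nat_lit 0x68612) (nat_lit 0) (p (nat_lit 0x50592) (nat_lit 0) (p (nat_lit 0x40512) (nat_lit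 0) (p (nat_lit 0x50312) (nat_lit 0) (p (nat_lit 0x38292) (nat_lit 0) (p (nat_lit 0x28212) (nat_lit 0) (p (nat_lit 0x38112) (nat_lit 0) (p (nat_lit 0x20092) (nat_lit 0) (p (nat_lit 0x10012) (nat_lit 0) pn))))))))))))))))))))))))))) :=
  Cl.node (nat_lit 0xb0004) (nat_lit 2) (by decide +kernel) (ClAll.succ (ClAll.succ ClAll.zero s1212) s1213)

def n588 : Cl (O (nat_lit 6)) (R (nat_lit 143633))
    (p (nat_lit 0x44c2a) (nat_lit 0) (p (nat_lit 0x109) (nat_lit 0) (p (nat_lit 0x89) (nat_lit 1) (p (nat_lit 0xc9) (nat_lit 1) (p (nat_lit 0xc1) (nat_lit 0) (p (nat_lit 0x119) (nat_lit 1) (p (nat_lit 0xd1) (nat_lit 0) (p (nat_lit 0x81) (nat_lit 0) (p (nat_lit 0x41) (nat_lit 1) (p (nat_lit 0x10a898a08881a) (nat_lit 0) (p (nat_lit 0x8a090988079a) (nat_lit 0) (p (nat_lit 0x108088907871a) (nat_lit 0) (p (nat_lit 0x87880887069a) (nat_lit 0) (p (nat_lit 0x8000080000000088806860a) (nat_lit 0) (p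 (nat_lit 0x8000080000000068786058a) (nat_lit 0) (p (nat_lit 0x10687058502) (nat_lit 0) (p (nat_lit 0x8606850482) (nat_lit 0) (p (nat_lit 0x160004) (nat_lit 0) (p (nat_lit 0x68612) (nat_lit 0) (p (nat_lit 0x50592) (nat_lit 0) (p (nat_lit 0x40512) (nat_lit 0) (p (nat_lit 0x50312) (nat_lit 0) (p (nat_lit 0x38292) (nat_lit 0) (p (nat_lit 0x28212) (nat_lit 0) (p (nat_lit 0x38112) (nat_lit 0) (p (nat_lit 0x20092) (nat_lit 0) (p (nat_lit 0x10012) (nat_lit 0) pn))))))))))))))))))))))))))) :=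
  Cl.node (nat_lit 0x380c2) (nat_lit 2) (by decide +kernel) (ClAll.succ (ClAll.succ ClAll.zero s1221) s1222)

def n589 : Cl (O (nat_lit 6)) (R (nat_lit 143633))
    (p (nat_lit 0x44c2a) (nat_lit 1) (p (nat_lit 0x109) (nat_lit 0) (p (nat_lit 0x89) (nat_lit 1) (p (nat_lit 0xc9) (nat_lit 1) (p (nat_lit 0xc1) (nat_lit 0) (p (nat_lit 0x119) (nat_lit 1) (p (nat_lit 0xd1) (nat_lit 0) (p (nat_lit 0x81) (nat_lit 0) (p (nat_lit 0x41) (nat_lit 1) (p (nat_lit 0x10a898a08881a) (nat_lit 0) (p (nat_lit 0x8a090988079a) (nat_lit 0) (p (nat_lit 0x108088907871a) (nat_lit 0) (p (nat_lit 0x87880887069a) (nat_lit 0) (p (nat_lit 0x8000080000000088806860a) (nat_lit 0) (p (nat_lit 0x8000080000000068786058a) (nat_lit 0) (p (nat_lit 0x10687058502) (nat_lit 0) (p (nat_lit 0x8606850482) (nat_lit 0) (p (nat_lit 0x160004) (nat_lit 0) (p (nat_lit 0x68612) (nat_lit 0) (p (nat_lit 0x50592) (nat_lit 0) (p (nat_lit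 0x40512) (nat_lit 0) (p (nat_lit 0x50312) (nat_lit 0) (p (nat_lit 0x38292) (nat_lit 0) (p (nat_lit 0x28212) (nat_lit 0) (p (nat_lit 0x38112) (nat_lit 0) (p (nat_lit 0x20092) (nat_lit 0) (p (nat_lit 0x10012) (nat_lit 0) pn))))))))))))))))))))))))))) :=
  Cl.node (nat_lit 0x380c2) (nat_lit 1) (by decide +kernel) (ClAll.succ ClAll.zero n506)

def n590 : Cl (O (nat_lit 6)) (R (nat_lit 143633))
    (p (nat_lit 0x3c4aa) (nat_lit 10) (p (nat_lit 0x109) (nat_lit 1) (p (nat_lit 0x89) (nat_lit 1) (p (nat_lit 0xc9) (nat_lit 1) (p (nat_lit 0xc1) (nat_lit 0) (p (nat_lit 0x119) (nat_lit 1) (p (nat_lit 0xd1) (nat_lit 0) (p (nat_lit 0x81) (nat_lit 0) (p (nat_lit 0x41) (nat_lit 1) (p (nat_lit 0x10a898a08881a) (nat_lit 0) (p (nat_lit 0x8a090988079a) (nat_lit 0) (p (nat_lit 0x108088907871a) (nat_lit 0) (p (nat_lit 0x87880887069a) (nat_lit 0) (p (nat_lit 0x8000080000000088806860a) (nat_lit 0) (p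 (nat_lit 0x8000080000000068786058a) (nat_lit 0) (p (nat_lit 0x10687058502) (nat_lit 0) (p (nat_lit 0x8606850482) (nat_lit 0) (p (nat_lit 0x160004) (nat_lit 0) (p (nat_lit 0x68612) (nat_lit 0) (p (nat_lit 0x50592) (nat_lit 0) (p (nat_lit 0x40512) (nat_lit 0) (p (nat_lit 0x50312) (nat_lit 0) (p (nat_lit 0x38292) (nat_lit 0) (p (nat_lit 0x28212) (nat_lit 0) (p (nat_lit 0x38112) (nat_lit 0) (p (nat_lit 0x20092) (nat_lit 0) (p (nat_lit 0x10012) (nat_lit 0) pn))))))))))))))))))))))))))) :=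
  Cl.node (nat_lit 0x380c2) (nat_lit 2) (by decide +kernel) (ClAll.succ (ClAll.succ ClAll.zero n507) s1249)

def n591 : Cl (O (nat_lit 6)) (R (nat_lit 143633))
    (p (nat_lit 0x44c2a) (nat_lit 0) (p (nat_lit 0x109) (nat_lit 0) (p (nat_lit 0x89) (nat_lit 1) (p (nat_lit 0x101) (nat_lit 0) (p (nat_lit 0xc1) (nat_lit 1) (p (nat_lit 0x119) (nat_lit 1) (p (nat_lit 0xd1) (nat_lit 0) (p (nat_lit 0x81) (nat_lit 0) (p (nat_lit 0x41) (nat_lit 1) (p (nat_lit 0x10a898a08881a) (nat_lit 0) (p (nat_lit 0x8a090988079a) (nat_lit 0) (p (nat_lit 0x108088907871a) (nat_lit 0) (p (nat_lit 0x87880887069a) (nat_lit 0) (p (nat_lit 0x8000080000000088806860a) (nat_lit 0) (p (nat_lit 0x8000080000000068786058a) (nat_lit 0) (p (nat_lit 0x10687058502) (nat_lit 0) (p (nat_lit 0x8606850482) (nat_lit 0) (p (nat_lit 0x160004) (nat_lit 0) (p (nat_lit 0x68612) (nat_lit 0) (p (nat_lit 0x50592) (nat_lit 0) (p (nat_lit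 0x40512) (nat_lit 0) (p (nat_lit 0x50312) (nat_lit 0) (p (nat_lit 0x38292) (nat_lit 0) (p (nat_lit 0x28212) (nat_lit 0) (p (nat_lit 0x38112) (nat_lit 0) (p (nat_lit 0x20092) (nat_lit 0) (p (nat_lit 0x10012) (nat_lit 0) pn))))))))))))))))))))))))))) :=
  Cl.node (nat_lit 0x380c2) (nat_lit 2) (by decide +kernel) (ClAll.succ (ClAll.succ ClAll.zero s1263) s1264)

def n592 : Cl (O (nat_lit 6)) (R (nat_lit 143633))
    (p (nat_lit 0x44c2a) (nat_lit 1) (p (nat_lit 0x109) (nat_lit 0) (p (nat_lit 0x89) (nat_lit 1) (p (nat_lit 0x101) (nat_lit 0) (p (nat_lit 0xc1) (nat_lit 1) (p (nat_lit 0x119) (nat_lit 1) (p (nat_lit 0xd1) (nat_lit 0) (p (nat_lit 0x81) (nat_lit 0) (p (nat_lit 0x41) (nat_lit 1) (p (nat_lit 0x10a898a08881a) (nat_lit 0) (p (nat_lit 0x8a090988079a) (nat_lit 0) (p (nat_lit 0x108088907871a) (nat_lit 0) (p (nat_lit 0x87880887069a) (nat_lit 0) (p (nat_lit 0x8000080000000088806860a)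 (nat_lit 0) (p (nat_lit 0x8000080000000068786058a) (nat_lit 0) (p (nat_lit 0x10687058502) (nat_lit 0) (p (nat_lit 0x8606850482) (nat_lit 0) (p (nat_lit 0x160004) (nat_lit 0) (p (nat_lit 0x68612) (nat_lit 0) (p (nat_lit 0x50592) (nat_lit 0) (p (nat_lit 0x40512) (nat_lit 0) (p (nat_lit 0x50312) (nat_lit 0) (p (nat_lit 0x38292) (nat_lit 0) (p (nat_lit 0x28212) (nat_lit 0) (p (nat_lit 0x38112) (nat_lit 0) (p (nat_lit 0x20092) (nat_lit 0) (p (nat_lit 0x10012) (nat_lit 0) pn))))))))))))))))))))))))))) :=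
  Cl.node (nat_lit 0x380c2) (nat_lit 1) (by decide +kernel) (ClAll.succ ClAll.zero n508)

def n593 : Cl (O (nat_lit 6)) (R (nat_lit 143633))
    (p (nat_lit 0x3c4aa) (nat_lit 7) (p (nat_lit 0x109) (nat_lit 1) (p (nat_lit 0x89) (nat_lit 1) (p (nat_lit 0x101) (nat_lit 0) (p (nat_lit 0xc1) (nat_lit 1) (p (nat_lit 0x119) (nat_lit 1) (p (nat_lit 0xd1) (nat_lit 0) (p (nat_lit 0x81) (nat_lit 0) (p (nat_lit 0x41) (nat_lit 1) (p (nat_lit 0x10a898a08881a) (nat_lit 0) (p (nat_lit 0x8a090988079a) (nat_lit 0) (p (nat_lit 0x108088907871a) (nat_lit 0) (p (nat_lit 0x87880887069a) (nat_lit 0) (p (nat_lit 0x8000080000000088806860a) (nat_lit 0) (p (nat_lit 0x8000080000000068786058a) (nat_lit 0) (p (nat_lit 0x10687058502) (nat_lit 0) (p (nat_lit 0x8606850482) (nat_lit 0) (p (nat_lit 0x160004) (nat_lit 0) (p (nat_lit 0x68612) (nat_lit 0) (p (nat_lit 0x50592) (nat_lit 0) (p (nat_lit 0x40512) (nat_lit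 0) (p (nat_lit 0x50312) (nat_lit 0) (p (nat_lit 0x38292) (nat_lit 0) (p (nat_lit 0x28212) (nat_lit 0) (p (nat_lit 0x38112) (nat_lit 0) (p (nat_lit 0x20092) (nat_lit 0) (p (nat_lit 0x10012) (nat_lit 0) pn))))))))))))))))))))))))))) :=
  Cl.node (nat_lit 0x380c2) (nat_lit 2) (by decide +kernel) (ClAll.succ (ClAll.succ ClAll.zero n509) n510)

def n594 : Cl (O (nat_lit 6)) (R (nat_lit 143633))
    (p (nat_lit 0x3c4aa) (nat_lit 10) (p (nat_lit 0x109) (nat_lit 1) (p (nat_lit 0x89) (nat_lit 1) (p (nat_lit 0x101) (nat_lit 0) (p (nat_lit 0xc1) (nat_lit 1) (p (nat_lit 0x119) (nat_lit 1) (p (nat_lit 0xd1) (nat_lit 0) (p (nat_lit 0x81) (nat_lit 0) (p (nat_lit 0x41) (nat_lit 1) (p (nat_lit 0x10a898a08881a) (nat_lit 0) (p (nat_lit 0x8a090988079a) (nat_lit 0) (p (nat_lit 0x108088907871a) (nat_lit 0) (p (nat_lit 0x87880887069a) (nat_lit 0) (p (nat_lit 0x8000080000000088806860a) (nat_lit 0) (p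 (nat_lit 0x8000080000000068786058a) (nat_lit 0) (p (nat_lit 0x10687058502) (nat_lit 0) (p (nat_lit 0x8606850482) (nat_lit 0) (p (nat_lit 0x160004) (nat_lit 0) (p (nat_lit 0x68612) (nat_lit 0) (p (nat_lit 0x50592) (nat_lit 0) (p (nat_lit 0x40512) (nat_lit 0) (p (nat_lit 0x50312) (nat_lit 0) (p (nat_lit 0x38292) (nat_lit 0) (p (nat_lit 0x28212) (nat_lit 0) (p (nat_lit 0x38112) (nat_lit 0) (p (nat_lit 0x20092) (nat_lit 0) (p (nat_lit 0x10012) (nat_lit 0) pn))))))))))))))))))))))))))) :=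
  Cl.node (nat_lit 0x380c2) (nat_lit 2) (by decide +kernel) (ClAll.succ (ClAll.succ ClAll.zero n511) s1297)

def n595 : Cl (O (nat_lit 6)) (R (nat_lit 143633))
    (p (nat_lit 0x380c2) (nat_lit 0) (p (nat_lit 0x3cc2a) (nat_lit 11) (p (nat_lit 0x89) (nat_lit 0) (p (nat_lit 0x101) (nat_lit 1) (p (nat_lit 0xc1) (nat_lit 1) (p (nat_lit 0x119) (nat_lit 1) (p (nat_lit 0xd1) (nat_lit 0) (p (nat_lit 0x81) (nat_lit 0) (p (nat_lit 0x41) (nat_lit 1) (p (nat_lit 0x10a898a08881a) (nat_lit 0) (p (nat_lit 0x8a090988079a) (nat_lit 0) (p (nat_lit 0x108088907871a) (nat_lit 0) (p (nat_lit 0x87880887069a) (nat_lit 0) (p (nat_lit 0x8000080000000088806860a) (nat_lit 0) (p (nat_lit 0x8000080000000068786058a) (nat_lit 0) (p (nat_lit 0x10687058502) (nat_lit 0) (p (nat_lit 0x8606850482) (nat_lit 0) (p (nat_lit 0x160004) (nat_lit 0) (p (nat_lit 0x68612) (nat_lit 0) (p (nat_lit 0x50592) (nat_lit 0) (p (nat_lit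 0x40512) (nat_lit 0) (p (nat_lit 0x50312) (nat_lit 0) (p (nat_lit 0x38292) (nat_lit 0) (p (nat_lit 0x28212) (nat_lit 0) (p (nat_lit 0x38112) (nat_lit 0) (p (nat_lit 0x20092) (nat_lit 0) (p (nat_lit 0x10012) (nat_lit 0) pn))))))))))))))))))))))))))) :=
  Cl.node (nat_lit 0x200014) (nat_lit 2) (by decide +kernel) (ClAll.succ (ClAll.succ ClAll.zero n512) s1314)

def n596 : Cl (O (nat_lit 6)) (R (nat_lit 143633))
    (p (nat_lit 0x380c2) (nat_lit 0) (p (nat_lit 0x3c4aa) (nat_lit 7) (p (nat_lit 0x89) (nat_lit 1) (p (nat_lit 0x101) (nat_lit 1) (p (nat_lit 0xc1) (nat_lit 1) (p (nat_lit 0x119) (nat_lit 1) (p (nat_lit 0xd1) (nat_lit 0) (p (nat_lit 0x81) (nat_lit 0) (p (nat_lit 0x41) (nat_lit 1) (p (nat_lit 0x10a898a08881a) (nat_lit 0) (p (nat_lit 0x8a090988079a) (nat_lit 0) (p (nat_lit 0x108088907871a) (nat_lit 0) (p (nat_lit 0x87880887069a) (nat_lit 0) (p (nat_lit 0x8000080000000088806860a)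 (nat_lit 0) (p (nat_lit 0x8000080000000068786058a) (nat_lit 0) (p (nat_lit 0x10687058502) (nat_lit 0) (p (nat_lit 0x8606850482) (nat_lit 0) (p (nat_lit 0x160004) (nat_lit 0) (p (nat_lit 0x68612) (nat_lit 0) (p (nat_lit 0x50592) (nat_lit 0) (p (nat_lit 0x40512) (nat_lit 0) (p (nat_lit 0x50312) (nat_lit 0) (p (nat_lit 0x38292) (nat_lit 0) (p (nat_lit 0x28212) (nat_lit 0) (p (nat_lit 0x38112) (nat_lit 0) (p (nat_lit 0x20092) (nat_lit 0) (p (nat_lit 0x10012) (nat_lit 0) pn))))))))))))))))))))))))))) :=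
  Cl.node (nat_lit 0xb0004) (nat_lit 2) (by decide +kernel) (ClAll.succ (ClAll.succ ClAll.zero n513) n514)

def n597 : Cl (O (nat_lit 6)) (R (nat_lit 143633))
    (p (nat_lit 0x380c2) (nat_lit 1) (p (nat_lit 0x3c4aa) (nat_lit 7) (p (nat_lit 0x89) (nat_lit 1) (p (nat_lit 0x101) (nat_lit 1) (p (nat_lit 0xc1) (nat_lit 1) (p (nat_lit 0x119) (nat_lit 1) (p (nat_lit 0xd1) (nat_lit 0) (p (nat_lit 0x81) (nat_lit 0) (p (nat_lit 0x41) (nat_lit 1) (p (nat_lit 0x10a898a08881a) (nat_lit 0) (p (nat_lit 0x8a090988079a) (nat_lit 0) (p (nat_lit 0x108088907871a) (nat_lit 0) (p (nat_lit 0x87880887069a) (nat_lit 0) (p (nat_lit 0x8000080000000088806860a) (nat_lit 0) (p (nat_lit 0x8000080000000068786058a) (nat_lit 0) (p (nat_lit 0x10687058502) (nat_lit 0) (p (nat_lit 0x8606850482) (nat_lit 0) (p (nat_lit 0x160004) (nat_lit 0) (p (nat_lit 0x68612) (nat_lit 0) (p (nat_lit 0x50592) (nat_lit 0) (p (nat_lit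 0x40512) (nat_lit 0) (p (nat_lit 0x50312) (nat_lit 0) (p (nat_lit 0x38292) (nat_lit 0) (p (nat_lit 0x28212) (nat_lit 0) (p (nat_lit 0x38112) (nat_lit 0) (p (nat_lit 0x20092) (nat_lit 0) (p (nat_lit 0x10012) (nat_lit 0) pn))))))))))))))))))))))))))) :=
  Cl.node (nat_lit 0xb0004) (nat_lit 2) (by decide +kernel) (ClAll.succ (ClAll.succ ClAll.zero n515) s1350)

def n598 : Cl (O (nat_lit 6)) (R (nat_lit 143633))
    (p (nat_lit 0x4c42a) (nat_lit 2) (p (nat_lit 0x119) (nat_lit 1) (p (nat_lit 0x89) (nat_lit 0) (p (nat_lit 0x109) (nat_lit 1) (p (nat_lit 0x101) (nat_lit 0) (p (nat_lit 0x111) (nat_lit 0) (p (nat_lit 0xd1) (nat_lit 1) (p (nat_lit 0x81) (nat_lit 0) (p (nat_lit 0x41) (nat_lit 1) (p (nat_lit 0x10a898a08881a) (nat_lit 0) (p (nat_lit 0x8a090988079a) (nat_lit 0) (p (nat_lit 0x108088907871a) (nat_lit 0) (p (nat_lit 0x87880887069a) (nat_lit 0) (p (nat_lit 0x8000080000000088806860a)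 (nat_lit 0) (p (nat_lit 0x8000080000000068786058a) (nat_lit 0) (p (nat_lit 0x10687058502) (nat_lit 0) (p (nat_lit 0x8606850482) (nat_lit 0) (p (nat_lit 0x160004) (nat_lit 0) (p (nat_lit 0x68612) (nat_lit 0) (p (nat_lit 0x50592) (nat_lit 0) (p (nat_lit 0x40512) (nat_lit 0) (p (nat_lit 0x50312) (nat_lit 0) (p (nat_lit 0x38292) (nat_lit 0) (p (nat_lit 0x28212) (nat_lit 0) (p (nat_lit 0x38112) (nat_lit 0) (p (nat_lit 0x20092) (nat_lit 0) (p (nat_lit 0x10012) (nat_lit 0) pn))))))))))))))))))))))))))) :=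
  Cl.node (nat_lit 0x380c2) (nat_lit 1) (by decide +kernel) (ClAll.succ ClAll.zero n516)

def n599 : Cl (O (nat_lit 6)) (R (nat_lit 143633))
    (p (nat_lit 0x119) (nat_lit 0) (p (nat_lit 0xc9) (nat_lit 0) (p (nat_lit 0x89) (nat_lit 1) (p (nat_lit 0x109) (nat_lit 1) (p (nat_lit 0x101) (nat_lit 0) (p (nat_lit 0x111) (nat_lit 0) (p (nat_lit 0xd1) (nat_lit 1) (p (nat_lit 0x81) (nat_lit 0) (p (nat_lit 0x41) (nat_lit 1) (p (nat_lit 0x10a898a08881a) (nat_lit 0) (p (nat_lit 0x8a090988079a) (nat_lit 0) (p (nat_lit 0x108088907871a) (nat_lit 0) (p (nat_lit 0x87880887069a) (nat_lit 0) (p (nat_lit 0x8000080000000088806860a) (nat_lit 0) (p (nat_lit 0x8000080000000068786058a) (nat_lit 0) (p (nat_lit 0x10687058502) (nat_lit 0) (p (nat_lit 0x8606850482) (nat_lit 0) (p (nat_lit 0x160004) (nat_lit 0) (p (nat_lit 0x68612) (nat_lit 0) (p (nat_lit 0x50592) (nat_lit 0) (p (nat_lit 0x40512) (nat_lit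 0) (p (nat_lit 0x50312) (nat_lit 0) (p (nat_lit 0x38292) (nat_lit 0) (p (nat_lit 0x28212) (nat_lit 0) (p (nat_lit 0x38112) (nat_lit 0) (p (nat_lit 0x20092) (nat_lit 0) (p (nat_lit 0x10012) (nat_lit 0) pn))))))))))))))))))))))))))) :=
  Cl.node (nat_lit 0x4c42a) (nat_lit 12) (by decide +kernel) (ClAll.succ (ClAll.succ (ClAll.succ (ClAll.succ (ClAll.succ (ClAll.succ (ClAll.succ (ClAll.succ (ClAll.succ (ClAll.succ (ClAll.succ (ClAll.succ ClAll.zero s1371) s1372) n517) s1386) s1387) s1388) s1389) s1390) s1391) s1392) s1393) s1394)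

def n600 : Cl (O (nat_lit 6)) (R (nat_lit 143633))
    (p (nat_lit 0x119) (nat_lit 1) (p (nat_lit 0xc9) (nat_lit 0) (p (nat_lit 0x89) (nat_lit 1) (p (nat_lit 0x109) (nat_lit 1) (p (nat_lit 0x101) (nat_lit 0) (p (nat_lit 0x111) (nat_lit 0) (p (nat_lit 0xd1) (nat_lit 1) (p (nat_lit 0x81) (nat_lit 0) (p (nat_lit 0x41) (nat_lit 1) (p (nat_lit 0x10a898a08881a) (nat_lit 0) (p (nat_lit 0x8a090988079a) (nat_lit 0) (p (nat_lit 0x108088907871a) (nat_lit 0) (p (nat_lit 0x87880887069a) (nat_lit 0) (p (nat_lit 0x8000080000000088806860a) (nat_lit 0) (p (nat_lit 0x8000080000000068786058a) (nat_lit 0) (p (nat_lit 0x10687058502) (nat_lit 0) (p (nat_lit 0x8606850482) (nat_lit 0) (p (nat_lit 0x160004) (nat_lit 0) (p (nat_lit 0x68612) (nat_lit 0) (p (nat_lit 0x50592) (nat_lit 0) (p (nat_lit 0x40512) (nat_lit 0) (p (nat_lit 0x50312) (nat_lit 0) (p (nat_lit 0x38292) (nat_lit 0) (p (nat_lit 0x28212)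 (nat_lit 0) (p (nat_lit 0x38112) (nat_lit 0) (p (nat_lit 0x20092) (nat_lit 0) (p (nat_lit 0x10012) (nat_lit 0) pn))))))))))))))))))))))))))) :=
  Cl.node (nat_lit 0x4c42a) (nat_lit 12) (by decide +kernel) (ClAll.succ (ClAll.succ (ClAll.succ (ClAll.succ (ClAll.succ (ClAll.succ (ClAll.succ (ClAll.succ (ClAll.succ (ClAll.succ (ClAll.succ (ClAll.succ ClAll.zero s1395) s1396) n518) s1410) s1411) s1412) s1413) s1414) n519) s1418) s1419) s1420)

def n601 : Cl (O (nat_lit 6)) (R (nat_lit 143633))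
    (p (nat_lit 0x380c2) (nat_lit 0) (p (nat_lit 0x3cc2a) (nat_lit 11) (p (nat_lit 0xc9) (nat_lit 0) (p (nat_lit 0x89) (nat_lit 1) (p (nat_lit 0x101) (nat_lit 1) (p (nat_lit 0x111) (nat_lit 0) (p (nat_lit 0xd1) (nat_lit 1) (p (nat_lit 0x81) (nat_lit 0) (p (nat_lit 0x41) (nat_lit 1) (p (nat_lit 0x10a898a08881a) (nat_lit 0) (p (nat_lit 0x8a090988079a) (nat_lit 0) (p (nat_lit 0x108088907871a) (nat_lit 0) (p (nat_lit 0x87880887069a) (nat_lit 0) (p (nat_lit 0x8000080000000088806860a) (nat_lit 0) (p (nat_lit 0x8000080000000068786058a) (nat_lit 0) (p (nat_lit 0x10687058502) (nat_lit 0) (p (nat_lit 0x8606850482) (nat_lit 0) (p (nat_lit 0x160004) (nat_lit 0) (p (nat_lit 0x68612) (nat_lit 0) (p (nat_lit 0x50592) (nat_lit 0) (p (nat_lit 0x40512) (nat_lit 0) (p (nat_lit 0x50312) (nat_lit 0) (p (nat_lit 0x38292) (nat_lit 0) (p (nat_lit 0x28212) (nat_lit 0) (p (nat_lit 0x38112) (nat_lit 0)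 (p (nat_lit 0x20092) (nat_lit 0) (p (nat_lit 0x10012) (nat_lit 0) pn))))))))))))))))))))))))))) :=
  Cl.node (nat_lit 0x200014) (nat_lit 2) (by decide +kernel) (ClAll.succ (ClAll.succ ClAll.zero n520) s1451)

def n602 : Cl (O (nat_lit 6)) (R (nat_lit 143633))
    (p (nat_lit 0x3c4aa) (nat_lit 7) (p (nat_lit 0xd1) (nat_lit 1) (p (nat_lit 0x111) (nat_lit 1) (p (nat_lit 0x109) (nat_lit 0) (p (nat_lit 0x101) (nat_lit 0) (p (nat_lit 0x119) (nat_lit 0) (p (nat_lit 0xc1) (nat_lit 0) (p (nat_lit 0x81) (nat_lit 1) (p (nat_lit 0x41) (nat_lit 1) (p (nat_lit 0x10a898a08881a) (nat_lit 0) (p (nat_lit 0x8a090988079a) (nat_lit 0) (p (nat_lit 0x108088907871a) (nat_lit 0) (p (nat_lit 0x87880887069a) (nat_lit 0) (p (nat_lit 0x8000080000000088806860a) (nat_lit 0) (p (nat_lit 0x8000080000000068786058a) (nat_lit 0) (p (nat_lit 0x10687058502) (nat_lit 0) (p (nat_lit 0x8606850482) (nat_lit 0) (p (nat_lit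 0x160004) (nat_lit 0) (p (nat_lit 0x68612) (nat_lit 0) (p (nat_lit 0x50592) (nat_lit 0) (p (nat_lit 0x40512) (nat_lit 0) (p (nat_lit 0x50312) (nat_lit 0) (p (nat_lit 0x38292) (nat_lit 0) (p (nat_lit 0x28212) (nat_lit 0) (p (nat_lit 0x38112) (nat_lit 0) (p (nat_lit 0x20092) (nat_lit 0) (p (nat_lit 0x10012) (nat_lit 0) pn))))))))))))))))))))))))))) :=
  Cl.node (nat_lit 0x380c2) (nat_lit 2) (by decide +kernel) (ClAll.succ (ClAll.succ ClAll.zero n521) n522)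

def n603 : Cl (O (nat_lit 6)) (R (nat_lit 143633))
    (p (nat_lit 0x3c4aa) (nat_lit 7) (p (nat_lit 0xd1) (nat_lit 1) (p (nat_lit 0xc9) (nat_lit 0) (p (nat_lit 0x109) (nat_lit 1) (p (nat_lit 0x101) (nat_lit 0) (p (nat_lit 0x119) (nat_lit 0) (p (nat_lit 0xc1) (nat_lit 0) (p (nat_lit 0x81) (nat_lit 1) (p (nat_lit 0x41) (nat_lit 1) (p (nat_lit 0x10a898a08881a) (nat_lit 0) (p (nat_lit 0x8a090988079a) (nat_lit 0) (p (nat_lit 0x108088907871a) (nat_lit 0) (p (nat_lit 0x87880887069a) (nat_lit 0) (p (nat_lit 0x8000080000000088806860a) (nat_lit 0) (p (nat_lit 0x8000080000000068786058a) (nat_lit 0) (p (nat_lit 0x10687058502) (nat_lit 0) (p (nat_lit 0x8606850482) (nat_lit 0) (p (nat_lit 0x160004) (nat_lit 0) (p (nat_lit 0x68612) (nat_lit 0) (p (nat_lit 0x50592) (nat_lit 0) (p (nat_lit 0x40512) (nat_lit 0) (p (nat_lit 0x50312) (nat_lit 0) (p (nat_lit 0x38292) (nat_lit 0) (p (nat_lit 0x28212)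 (nat_lit 0) (p (nat_lit 0x38112) (nat_lit 0) (p (nat_lit 0x20092) (nat_lit 0) (p (nat_lit 0x10012) (nat_lit 0) pn))))))))))))))))))))))))))) :=
  Cl.node (nat_lit 0x380c2) (nat_lit 2) (by decide +kernel) (ClAll.succ (ClAll.succ ClAll.zero n523) n524)

def n604 : Cl (O (nat_lit 6)) (R (nat_lit 143633))
    (p (nat_lit 0x380c2) (nat_lit 0) (p (nat_lit 0x44c2a) (nat_lit 0) (p (nat_lit 0xd1) (nat_lit 0) (p (nat_lit 0xc9) (nat_lit 0) (p (nat_lit 0x101) (nat_lit 1) (p (nat_lit 0x119) (nat_lit 0) (p (nat_lit 0xc1) (nat_lit 0) (p (nat_lit 0x81) (nat_lit 1) (p (nat_lit 0x41) (nat_lit 1) (p (nat_lit 0x10a898a08881a) (nat_lit 0) (p (nat_lit 0x8a090988079a) (nat_lit 0) (p (nat_lit 0x108088907871a) (nat_lit 0) (p (nat_lit 0x87880887069a) (nat_lit 0) (p (nat_lit 0x8000080000000088806860a) (nat_lit 0) (p (nat_lit 0x8000080000000068786058a) (nat_lit 0) (p (nat_lit 0x10687058502) (nat_lit 0)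 (p (nat_lit 0x8606850482) (nat_lit 0) (p (nat_lit 0x160004) (nat_lit 0) (p (nat_lit 0x68612) (nat_lit 0) (p (nat_lit 0x50592) (nat_lit 0) (p (nat_lit 0x40512) (nat_lit 0) (p (nat_lit 0x50312) (nat_lit 0) (p (nat_lit 0x38292) (nat_lit 0) (p (nat_lit 0x28212) (nat_lit 0) (p (nat_lit 0x38112) (nat_lit 0) (p (nat_lit 0x20092) (nat_lit 0) (p (nat_lit 0x10012) (nat_lit 0) pn))))))))))))))))))))))))))) :=
  Cl.node (nat_lit 0xc9) (nat_lit 2) (by decide +kernel) (ClAll.succ (ClAll.succ ClAll.zero s1611) s1612)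

def n605 : Cl (O (nat_lit 6)) (R (nat_lit 143633))
    (p (nat_lit 0x380c2) (nat_lit 1) (p (nat_lit 0x44c2a) (nat_lit 0) (p (nat_lit 0xd1) (nat_lit 0) (p (nat_lit 0xc9) (nat_lit 0) (p (nat_lit 0x101) (nat_lit 1) (p (nat_lit 0x119) (nat_lit 0) (p (nat_lit 0xc1) (nat_lit 0) (p (nat_lit 0x81) (nat_lit 1) (p (nat_lit 0x41) (nat_lit 1) (p (nat_lit 0x10a898a08881a) (nat_lit 0) (p (nat_lit 0x8a090988079a) (nat_lit 0) (p (nat_lit 0x108088907871a) (nat_lit 0) (p (nat_lit 0x87880887069a) (nat_lit 0) (p (nat_lit 0x8000080000000088806860a) (nat_lit 0) (p (nat_lit 0x8000080000000068786058a) (nat_lit 0) (p (nat_lit 0x10687058502) (nat_lit 0) (p (nat_lit 0x8606850482) (nat_lit 0) (p (nat_lit 0x160004) (nat_lit 0) (p (nat_lit 0x68612) (nat_lit 0) (p (nat_lit 0x50592) (nat_lit 0) (p (nat_lit 0x40512) (nat_lit 0) (p (nat_lit 0x50312) (nat_lit 0) (p (nat_lit 0x38292) (nat_lit 0) (p (nat_lit 0x28212)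 (nat_lit 0) (p (nat_lit 0x38112) (nat_lit 0) (p (nat_lit 0x20092) (nat_lit 0) (p (nat_lit 0x10012) (nat_lit 0) pn))))))))))))))))))))))))))) :=
  Cl.node (nat_lit 0xc9) (nat_lit 2) (by decide +kernel) (ClAll.succ (ClAll.succ ClAll.zero s1613) s1614)

def n606 : Cl (O (nat_lit 6)) (R (nat_lit 143633))
    (p (nat_lit 0x380c2) (nat_lit 0) (p (nat_lit 0x44c2a) (nat_lit 1) (p (nat_lit 0xd1) (nat_lit 0) (p (nat_lit 0xc9) (nat_lit 0) (p (nat_lit 0x101) (nat_lit 1) (p (nat_lit 0x119) (nat_lit 0) (p (nat_lit 0xc1) (nat_lit 0) (p (nat_lit 0x81) (nat_lit 1) (p (nat_lit 0x41) (nat_lit 1) (p (nat_lit 0x10a898a08881a) (nat_lit 0) (p (nat_lit 0x8a090988079a) (nat_lit 0) (p (nat_lit 0x108088907871a) (nat_lit 0) (p (nat_lit 0x87880887069a) (nat_lit 0) (p (nat_lit 0x8000080000000088806860a) (nat_lit 0) (p (nat_lit 0x8000080000000068786058a) (nat_lit 0) (p (nat_lit 0x10687058502) (nat_lit 0) (p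 (nat_lit 0x8606850482) (nat_lit 0) (p (nat_lit 0x160004) (nat_lit 0) (p (nat_lit 0x68612) (nat_lit 0) (p (nat_lit 0x50592) (nat_lit 0) (p (nat_lit 0x40512) (nat_lit 0) (p (nat_lit 0x50312) (nat_lit 0) (p (nat_lit 0x38292) (nat_lit 0) (p (nat_lit 0x28212) (nat_lit 0) (p (nat_lit 0x38112) (nat_lit 0) (p (nat_lit 0x20092) (nat_lit 0) (p (nat_lit 0x10012) (nat_lit 0) pn))))))))))))))))))))))))))) :=
  Cl.node (nat_lit 0x20000c) (nat_lit 2) (by decide +kernel) (ClAll.succ (ClAll.succ ClAll.zero n525) s1618)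

def n607 : Cl (O (nat_lit 6)) (R (nat_lit 143633))
    (p (nat_lit 0x380c2) (nat_lit 0) (p (nat_lit 0x3c4aa) (nat_lit 7) (p (nat_lit 0xd1) (nat_lit 1) (p (nat_lit 0xc9) (nat_lit 0) (p (nat_lit 0x101) (nat_lit 1) (p (nat_lit 0x119) (nat_lit 0) (p (nat_lit 0xc1) (nat_lit 0) (p (nat_lit 0x81) (nat_lit 1) (p (nat_lit 0x41) (nat_lit 1) (p (nat_lit 0x10a898a08881a) (nat_lit 0) (p (nat_lit 0x8a090988079a) (nat_lit 0) (p (nat_lit 0x108088907871a) (nat_lit 0) (p (nat_lit 0x87880887069a) (nat_lit 0) (p (nat_lit 0x8000080000000088806860a) (nat_lit 0) (p (nat_lit 0x8000080000000068786058a) (nat_lit 0) (p (nat_lit 0x10687058502) (nat_lit 0) (p (nat_lit 0x8606850482) (nat_lit 0) (p (nat_lit 0x160004) (nat_lit 0) (p (nat_lit 0x68612) (nat_lit 0) (p (nat_lit 0x50592) (nat_lit 0) (p (nat_lit 0x40512) (nat_lit 0) (p (nat_lit 0x50312) (nat_lit 0) (p (nat_lit 0x38292) (nat_lit 0) (p (nat_lit 0x28212)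 (nat_lit 0) (p (nat_lit 0x38112) (nat_lit 0) (p (nat_lit 0x20092) (nat_lit 0) (p (nat_lit 0x10012) (nat_lit 0) pn))))))))))))))))))))))))))) :=
  Cl.node (nat_lit 0xb0004) (nat_lit 2) (by decide +kernel) (ClAll.succ (ClAll.succ ClAll.zero n526) n527)

def n608 : Cl (O (nat_lit 6)) (R (nat_lit 143633))
    (p (nat_lit 0x380c2) (nat_lit 1) (p (nat_lit 0x3c4aa) (nat_lit 7) (p (nat_lit 0xd1) (nat_lit 1) (p (nat_lit 0xc9) (nat_lit 0) (p (nat_lit 0x101) (nat_lit 1) (p (nat_lit 0x119) (nat_lit 0) (p (nat_lit 0xc1) (nat_lit 0) (p (nat_lit 0x81) (nat_lit 1) (p (nat_lit 0x41) (nat_lit 1) (p (nat_lit 0x10a898a08881a) (nat_lit 0) (p (nat_lit 0x8a090988079a) (nat_lit 0) (p (nat_lit 0x108088907871a) (nat_lit 0) (p (nat_lit 0x87880887069a) (nat_lit 0) (p (nat_lit 0x8000080000000088806860a) (nat_lit 0) (p (nat_lit 0x8000080000000068786058a) (nat_lit 0) (p (nat_lit 0x10687058502) (nat_lit 0)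 (p (nat_lit 0x8606850482) (nat_lit 0) (p (nat_lit 0x160004) (nat_lit 0) (p (nat_lit 0x68612) (nat_lit 0) (p (nat_lit 0x50592) (nat_lit 0) (p (nat_lit 0x40512) (nat_lit 0) (p (nat_lit 0x50312) (nat_lit 0) (p (nat_lit 0x38292) (nat_lit 0) (p (nat_lit 0x28212) (nat_lit 0) (p (nat_lit 0x38112) (nat_lit 0) (p (nat_lit 0x20092) (nat_lit 0) (p (nat_lit 0x10012) (nat_lit 0) pn))))))))))))))))))))))))))) :=
  Cl.node (nat_lit 0x20000c) (nat_lit 2) (by decide +kernel) (ClAll.succ (ClAll.succ ClAll.zero n528) s1684)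

def n609 : Cl (O (nat_lit 6)) (R (nat_lit 143633))
    (p (nat_lit 0x380c2) (nat_lit 0) (p (nat_lit 0x3c4aa) (nat_lit 7) (p (nat_lit 0x111) (nat_lit 1) (p (nat_lit 0xd1) (nat_lit 1) (p (nat_lit 0xc9) (nat_lit 0) (p (nat_lit 0x119) (nat_lit 1) (p (nat_lit 0xc1) (nat_lit 0) (p (nat_lit 0x81) (nat_lit 1) (p (nat_lit 0x41) (nat_lit 1) (p (nat_lit 0x10a898a08881a) (nat_lit 0) (p (nat_lit 0x8a090988079a) (nat_lit 0) (p (nat_lit 0x108088907871a) (nat_lit 0) (p (nat_lit 0x87880887069a) (nat_lit 0) (p (nat_lit 0x8000080000000088806860a) (nat_lit 0) (p (nat_lit 0x8000080000000068786058a) (nat_lit 0) (p (nat_lit 0x10687058502) (nat_lit 0) (p (nat_lit 0x8606850482) (nat_lit 0) (p (nat_lit 0x160004) (nat_lit 0) (p (nat_lit 0x68612) (nat_lit 0) (p (nat_lit 0x50592) (nat_lit 0) (p (nat_lit 0x40512) (nat_lit 0) (p (nat_lit 0x50312) (nat_lit 0) (p (nat_lit 0x38292) (nat_lit 0) (p (nat_lit 0x28212)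 (nat_lit 0) (p (nat_lit 0x38112) (nat_lit 0) (p (nat_lit 0x20092) (nat_lit 0) (p (nat_lit 0x10012) (nat_lit 0) pn))))))))))))))))))))))))))) :=
  Cl.node (nat_lit 0xb0004) (nat_lit 2) (by decide +kernel) (ClAll.succ (ClAll.succ ClAll.zero s1699) n529)

def n610 : Cl (O (nat_lit 6)) (R (nat_lit 143633))
    (p (nat_lit 0x380c2) (nat_lit 1) (p (nat_lit 0x3c4aa) (nat_lit 7) (p (nat_lit 0x111) (nat_lit 1) (p (nat_lit 0xd1) (nat_lit 1) (p (nat_lit 0xc9) (nat_lit 0) (p (nat_lit 0x119) (nat_lit 1) (p (nat_lit 0xc1) (nat_lit 0) (p (nat_lit 0x81) (nat_lit 1) (p (nat_lit 0x41) (nat_lit 1) (p (nat_lit 0x10a898a08881a) (nat_lit 0) (p (nat_lit 0x8a090988079a) (nat_lit 0) (p (nat_lit 0x108088907871a) (nat_lit 0) (p (nat_lit 0x87880887069a) (nat_lit 0) (p (nat_lit 0x8000080000000088806860a) (nat_lit 0) (p (nat_lit 0x8000080000000068786058a) (nat_lit 0) (p (nat_lit 0x10687058502) (nat_lit 0)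 (p (nat_lit 0x8606850482) (nat_lit 0) (p (nat_lit 0x160004) (nat_lit 0) (p (nat_lit 0x68612) (nat_lit 0) (p (nat_lit 0x50592) (nat_lit 0) (p (nat_lit 0x40512) (nat_lit 0) (p (nat_lit 0x50312) (nat_lit 0) (p (nat_lit 0x38292) (nat_lit 0) (p (nat_lit 0x28212) (nat_lit 0) (p (nat_lit 0x38112) (nat_lit 0) (p (nat_lit 0x20092) (nat_lit 0) (p (nat_lit 0x10012) (nat_lit 0) pn))))))))))))))))))))))))))) :=
  Cl.node (nat_lit 0x20000c) (nat_lit 2) (by decide +kernel) (ClAll.succ (ClAll.succ ClAll.zero n530) s1712)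

def n611 : Cl (O (nat_lit 6)) (R (nat_lit 143633))
    (p (nat_lit 0x380c2) (nat_lit 0) (p (nat_lit 0x44c2a) (nat_lit 1) (p (nat_lit 0x111) (nat_lit 0) (p (nat_lit 0x109) (nat_lit 0) (p (nat_lit 0xc9) (nat_lit 1) (p (nat_lit 0x119) (nat_lit 1) (p (nat_lit 0xc1) (nat_lit 0) (p (nat_lit 0x81) (nat_lit 1) (p (nat_lit 0x41) (nat_lit 1) (p (nat_lit 0x10a898a08881a) (nat_lit 0) (p (nat_lit 0x8a090988079a) (nat_lit 0) (p (nat_lit 0x108088907871a) (nat_lit 0) (p (nat_lit 0x87880887069a) (nat_lit 0) (p (nat_lit 0x8000080000000088806860a) (nat_lit 0) (p (nat_lit 0x8000080000000068786058a) (nat_lit 0) (p (nat_lit 0x10687058502) (nat_lit 0) (p (nat_lit 0x8606850482) (nat_lit 0) (p (nat_lit 0x160004) (nat_lit 0) (p (nat_lit 0x68612) (nat_lit 0) (p (nat_lit 0x50592) (nat_lit 0) (p (nat_lit 0x40512) (nat_lit 0) (p (nat_lit 0x50312) (nat_lit 0) (p (nat_lit 0x38292) (nat_lit 0) (p (nat_lit 0x28212)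 (nat_lit 0) (p (nat_lit 0x38112) (nat_lit 0) (p (nat_lit 0x20092) (nat_lit 0) (p (nat_lit 0x10012) (nat_lit 0) pn))))))))))))))))))))))))))) :=
  Cl.node (nat_lit 0xb0004) (nat_lit 2) (by decide +kernel) (ClAll.succ (ClAll.succ ClAll.zero s1718) s1719)

def n612 : Cl (O (nat_lit 6)) (R (nat_lit 143633))
    (p (nat_lit 0x380c2) (nat_lit 0) (p (nat_lit 0x3c4aa) (nat_lit 7) (p (nat_lit 0x111) (nat_lit 1) (p (nat_lit 0x109) (nat_lit 0) (p (nat_lit 0xc9) (nat_lit 1) (p (nat_lit 0x119) (nat_lit 1) (p (nat_lit 0xc1) (nat_lit 0) (p (nat_lit 0x81) (nat_lit 1) (p (nat_lit 0x41) (nat_lit 1) (p (nat_lit 0x10a898a08881a) (nat_lit 0) (p (nat_lit 0x8a090988079a) (nat_lit 0) (p (nat_lit 0x108088907871a) (nat_lit 0) (p (nat_lit 0x87880887069a) (nat_lit 0) (p (nat_lit 0x8000080000000088806860a) (nat_lit 0) (p (nat_lit 0x8000080000000068786058a) (nat_lit 0) (p (nat_lit 0x10687058502) (nat_lit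 0) (p (nat_lit 0x8606850482) (nat_lit 0) (p (nat_lit 0x160004) (nat_lit 0) (p (nat_lit 0x68612) (nat_lit 0) (p (nat_lit 0x50592) (nat_lit 0) (p (nat_lit 0x40512) (nat_lit 0) (p (nat_lit 0x50312) (nat_lit 0) (p (nat_lit 0x38292) (nat_lit 0) (p (nat_lit 0x28212) (nat_lit 0) (p (nat_lit 0x38112) (nat_lit 0) (p (nat_lit 0x20092) (nat_lit 0) (p (nat_lit 0x10012) (nat_lit 0) pn))))))))))))))))))))))))))) :=
  Cl.node (nat_lit 0xb0004) (nat_lit 2) (by decide +kernel) (ClAll.succ (ClAll.succ ClAll.zero n531) s1744)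

def n613 : Cl (O (nat_lit 6)) (R (nat_lit 143633))
    (p (nat_lit 0x380c2) (nat_lit 1) (p (nat_lit 0x3c4aa) (nat_lit 7) (p (nat_lit 0x111) (nat_lit 1) (p (nat_lit 0x109) (nat_lit 0) (p (nat_lit 0xc9) (nat_lit 1) (p (nat_lit 0x119) (nat_lit 1) (p (nat_lit 0xc1) (nat_lit 0) (p (nat_lit 0x81) (nat_lit 1) (p (nat_lit 0x41) (nat_lit 1) (p (nat_lit 0x10a898a08881a) (nat_lit 0) (p (nat_lit 0x8a090988079a) (nat_lit 0) (p (nat_lit 0x108088907871a) (nat_lit 0) (p (nat_lit 0x87880887069a) (nat_lit 0) (p (nat_lit 0x8000080000000088806860a) (nat_lit 0) (p (nat_lit 0x8000080000000068786058a) (nat_lit 0) (p (nat_lit 0x10687058502) (nat_lit 0) (p (nat_lit 0x8606850482) (nat_lit 0) (p (nat_lit 0x160004) (nat_lit 0) (p (nat_lit 0x68612) (nat_lit 0) (p (nat_lit 0x50592) (nat_lit 0) (p (nat_lit 0x40512) (nat_lit 0) (p (nat_lit 0x50312) (nat_lit 0) (p (nat_lit 0x38292) (nat_lit 0) (p (nat_lit 0x28212)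 (nat_lit 0) (p (nat_lit 0x38112) (nat_lit 0) (p (nat_lit 0x20092) (nat_lit 0) (p (nat_lit 0x10012) (nat_lit 0) pn))))))))))))))))))))))))))) :=
  Cl.node (nat_lit 0xb0004) (nat_lit 2) (by decide +kernel) (ClAll.succ (ClAll.succ ClAll.zero n532) s1751)

def n614 : Cl (O (nat_lit 6)) (R (nat_lit 143633))
    (p (nat_lit 0x200014) (nat_lit 0) (p (nat_lit 0x380c2) (nat_lit 0) (p (nat_lit 0x3c4aa) (nat_lit 10) (p (nat_lit 0x109) (nat_lit 1) (p (nat_lit 0xc9) (nat_lit 1) (p (nat_lit 0x119) (nat_lit 1) (p (nat_lit 0xc1) (nat_lit 0) (p (nat_lit 0x81) (nat_lit 1) (p (nat_lit 0x41) (nat_lit 1) (p (nat_lit 0x10a898a08881a) (nat_lit 0) (p (nat_lit 0x8a090988079a) (nat_lit 0) (p (nat_lit 0x108088907871a) (nat_lit 0) (p (nat_lit 0x87880887069a) (nat_lit 0) (p (nat_lit 0x8000080000000088806860a) (nat_lit 0) (p (nat_lit 0x8000080000000068786058a) (nat_lit 0) (p (nat_lit 0x10687058502) (nat_lit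 0) (p (nat_lit 0x8606850482) (nat_lit 0) (p (nat_lit 0x160004) (nat_lit 0) (p (nat_lit 0x68612) (nat_lit 0) (p (nat_lit 0x50592) (nat_lit 0) (p (nat_lit 0x40512) (nat_lit 0) (p (nat_lit 0x50312) (nat_lit 0) (p (nat_lit 0x38292) (nat_lit 0) (p (nat_lit 0x28212) (nat_lit 0) (p (nat_lit 0x38112) (nat_lit 0) (p (nat_lit 0x20092) (nat_lit 0) (p (nat_lit 0x10012) (nat_lit 0) pn))))))))))))))))))))))))))) :=
  Cl.node (nat_lit 0xd1) (nat_lit 2) (by decide +kernel) (ClAll.succ (ClAll.succ ClAll.zero n533) s1768)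

def n615 : Cl (O (nat_lit 6)) (R (nat_lit 143633))
    (p (nat_lit 0x81) (nat_lit 1) (p (nat_lit 0xc9) (nat_lit 1) (p (nat_lit 0x109) (nat_lit 1) (p (nat_lit 0x101) (nat_lit 0) (p (nat_lit 0x119) (nat_lit 0) (p (nat_lit 0xd1) (nat_lit 0) (p (nat_lit 0x89) (nat_lit 0) (p (nat_lit 0x41) (nat_lit 0) (p (nat_lit 0x10a898a08881a) (nat_lit 0) (p (nat_lit 0x8a090988079a) (nat_lit 0) (p (nat_lit 0x108088907871a) (nat_lit 0) (p (nat_lit 0x87880887069a) (nat_lit 0) (p (nat_lit 0x8000080000000088806860a) (nat_lit 0) (p (nat_lit 0x8000080000000068786058a) (nat_lit 0) (p (nat_lit 0x10687058502) (nat_lit 0) (p (nat_lit 0x8606850482) (nat_lit 0) (p (nat_lit 0x160004) (nat_lit 0) (p (nat_lit 0x68612) (nat_lit 0) (p (nat_lit 0x50592) (nat_lit 0) (p (nat_lit 0x40512) (nat_lit 0) (p (nat_lit 0x50312) (nat_lit 0) (p (nat_lit 0x38292) (nat_lit 0) (p (nat_lit 0x28212) (nat_lit 0) (p (nat_lit 0x38112)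 (nat_lit 0) (p (nat_lit 0x20092) (nat_lit 0) (p (nat_lit 0x10012) (nat_lit 0) pn)))))))))))))))))))))))))) :=
  Cl.node (nat_lit 0x444aa) (nat_lit 12) (by decide +kernel) (ClAll.succ (ClAll.succ (ClAll.succ (ClAll.succ (ClAll.succ (ClAll.succ (ClAll.succ (ClAll.succ (ClAll.succ (ClAll.succ (ClAll.succ (ClAll.succ ClAll.zero s3) s4) s5) s6) s7) s8) s9) n534) n535) s31) s32) s33)

def n616 : Cl (O (nat_lit 6)) (R (nat_lit 143633))
    (p (nat_lit 0x111) (nat_lit 0) (p (nat_lit 0xc9) (nat_lit 0) (p (nat_lit 0x81) (nat_lit 0) (p (nat_lit 0x101) (nat_lit 1) (p (nat_lit 0x119) (nat_lit 0) (p (nat_lit 0xd1) (nat_lit 0) (p (nat_lit 0x89) (nat_lit 0) (p (nat_lit 0x41) (nat_lit 0) (p (nat_lit 0x10a898a08881a) (nat_lit 0) (p (nat_lit 0x8a090988079a) (nat_lit 0) (p (nat_lit 0x108088907871a) (nat_lit 0) (p (nat_lit 0x87880887069a) (nat_lit 0) (p (nat_lit 0x8000080000000088806860a) (nat_lit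 0) (p (nat_lit 0x8000080000000068786058a) (nat_lit 0) (p (nat_lit 0x10687058502) (nat_lit 0) (p (nat_lit 0x8606850482) (nat_lit 0) (p (nat_lit 0x160004) (nat_lit 0) (p (nat_lit 0x68612) (nat_lit 0) (p (nat_lit 0x50592) (nat_lit 0) (p (nat_lit 0x40512) (nat_lit 0) (p (nat_lit 0x50312) (nat_lit 0) (p (nat_lit 0x38292) (nat_lit 0) (p (nat_lit 0x28212) (nat_lit 0) (p (nat_lit 0x38112) (nat_lit 0) (p (nat_lit 0x20092) (nat_lit 0) (p (nat_lit 0x10012) (nat_lit 0) pn)))))))))))))))))))))))))) :=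
  Cl.node (nat_lit 0x4c42a) (nat_lit 12) (by decide +kernel) (ClAll.succ (ClAll.succ (ClAll.succ (ClAll.succ (ClAll.succ (ClAll.succ (ClAll.succ (ClAll.succ (ClAll.succ (ClAll.succ (ClAll.succ (ClAll.succ ClAll.zero s34) s35) n536) s72) s73) s74) s75) s76) n537) s81) s82) s83)

def n617 : Cl (O (nat_lit 6)) (R (nat_lit 143633))
    (p (nat_lit 0x111) (nat_lit 1) (p (nat_lit 0xc9) (nat_lit 0) (p (nat_lit 0x81) (nat_lit 0) (p (nat_lit 0x101) (nat_lit 1) (p (nat_lit 0x119) (nat_lit 0) (p (nat_lit 0xd1) (nat_lit 0) (p (nat_lit 0x89) (nat_lit 0) (p (nat_lit 0x41) (nat_lit 0) (p (nat_lit 0x10a898a08881a) (nat_lit 0) (p (nat_lit 0x8a090988079a) (nat_lit 0) (p (nat_lit 0x108088907871a) (nat_lit 0) (p (nat_lit 0x87880887069a) (nat_lit 0) (p (nat_lit 0x8000080000000088806860a) (nat_lit 0) (p (nat_lit 0x8000080000000068786058a) (nat_lit 0) (p (nat_lit 0x10687058502) (nat_lit 0) (p (nat_lit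 0x8606850482) (nat_lit 0) (p (nat_lit 0x160004) (nat_lit 0) (p (nat_lit 0x68612) (nat_lit 0) (p (nat_lit 0x50592) (nat_lit 0) (p (nat_lit 0x40512) (nat_lit 0) (p (nat_lit 0x50312) (nat_lit 0) (p (nat_lit 0x38292) (nat_lit 0) (p (nat_lit 0x28212) (nat_lit 0) (p (nat_lit 0x38112) (nat_lit 0) (p (nat_lit 0x20092) (nat_lit 0) (p (nat_lit 0x10012) (nat_lit 0) pn)))))))))))))))))))))))))) :=
  Cl.node (nat_lit 0x44c2a) (nat_lit 12) (by decide +kernel) (ClAll.succ (ClAll.succ (ClAll.succ (ClAll.succ (ClAll.succ (ClAll.succ (ClAll.succ (ClAll.succ (ClAll.succ (ClAll.succ (ClAll.succ (ClAll.succ ClAll.zero s84) s85) s86) s87) s88) s89) s90) s91) s92) s93) s94) s95)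

def n618 : Cl (O (nat_lit 6)) (R (nat_lit 143633))
    (p (nat_lit 0x111) (nat_lit 0) (p (nat_lit 0xc9) (nat_lit 1) (p (nat_lit 0x81) (nat_lit 0) (p (nat_lit 0x101) (nat_lit 1) (p (nat_lit 0x119) (nat_lit 0) (p (nat_lit 0xd1) (nat_lit 0) (p (nat_lit 0x89) (nat_lit 0) (p (nat_lit 0x41) (nat_lit 0) (p (nat_lit 0x10a898a08881a) (nat_lit 0) (p (nat_lit 0x8a090988079a) (nat_lit 0) (p (nat_lit 0x108088907871a) (nat_lit 0) (p (nat_lit 0x87880887069a) (nat_lit 0) (p (nat_lit 0x8000080000000088806860a) (nat_lit 0) (p (nat_lit 0x8000080000000068786058a) (nat_lit 0) (p (nat_lit 0x10687058502) (nat_lit 0) (p (nat_lit 0x8606850482) (nat_lit 0) (p (nat_lit 0x160004) (nat_lit 0) (p (nat_lit 0x68612) (nat_lit 0) (p (nat_lit 0x50592) (nat_lit 0) (p (nat_lit 0x40512) (nat_lit 0) (p (nat_lit 0x50312) (nat_lit 0) (p (nat_lit 0x38292) (nat_lit 0) (p (nat_lit 0x28212) (nat_lit 0) (p (nat_lit 0x38112)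 (nat_lit 0) (p (nat_lit 0x20092) (nat_lit 0) (p (nat_lit 0x10012) (nat_lit 0) pn)))))))))))))))))))))))))) :=
  Cl.node (nat_lit 0x444aa) (nat_lit 12) (by decide +kernel) (ClAll.succ (ClAll.succ (ClAll.succ (ClAll.succ (ClAll.succ (ClAll.succ (ClAll.succ (ClAll.succ (ClAll.succ (ClAll.succ (ClAll.succ (ClAll.succ ClAll.zero s96) s97) s98) s99) s100) s101) s102) n538) n539) s157) s158) s159)

def n619 : Cl (O (nat_lit 6)) (R (nat_lit 143633))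
    (p (nat_lit 0xc9) (nat_lit 0) (p (nat_lit 0xc1) (nat_lit 0) (p (nat_lit 0x81) (nat_lit 1) (p (nat_lit 0x101) (nat_lit 1) (p (nat_lit 0x119) (nat_lit 0) (p (nat_lit 0xd1) (nat_lit 0) (p (nat_lit 0x89) (nat_lit 0) (p (nat_lit 0x41) (nat_lit 0) (p (nat_lit 0x10a898a08881a) (nat_lit 0) (p (nat_lit 0x8a090988079a) (nat_lit 0) (p (nat_lit 0x108088907871a) (nat_lit 0) (p (nat_lit 0x87880887069a) (nat_lit 0) (p (nat_lit 0x8000080000000088806860a) (nat_lit 0) (p (nat_lit 0x8000080000000068786058a) (nat_lit 0) (p (nat_lit 0x10687058502) (nat_lit 0) (p (nat_lit 0x8606850482) (nat_lit 0) (p (nat_lit 0x160004) (nat_lit 0) (p (nat_lit 0x68612) (nat_lit 0) (p (nat_lit 0x50592) (nat_lit 0) (p (nat_lit 0x40512) (nat_lit 0) (p (nat_lit 0x50312) (nat_lit 0) (p (nat_lit 0x38292) (nat_lit 0) (p (nat_lit 0x28212) (nat_lit 0) (p (nat_lit 0x38112) (nat_lit 0) (p (nat_lit 0x20092) (nat_lit 0) (p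 (nat_lit 0x10012) (nat_lit 0) pn)))))))))))))))))))))))))) :=
  Cl.node (nat_lit 0x4c42a) (nat_lit 12) (by decide +kernel) (ClAll.succ (ClAll.succ (ClAll.succ (ClAll.succ (ClAll.succ (ClAll.succ (ClAll.succ (ClAll.succ (ClAll.succ (ClAll.succ (ClAll.succ (ClAll.succ ClAll.zero s161) s162) n540) s196) s197) s198) s199) s200) n541) s206) s207) s208)

def n620 : Cl (O (nat_lit 6)) (R (nat_lit 143633))
    (p (nat_lit 0xc9) (nat_lit 1) (p (nat_lit 0xc1) (nat_lit 0) (p (nat_lit 0x81) (nat_lit 1) (p (nat_lit 0x101) (nat_lit 1) (p (nat_lit 0x119) (nat_lit 0) (p (nat_lit 0xd1) (nat_lit 0) (p (nat_lit 0x89) (nat_lit 0) (p (nat_lit 0x41) (nat_lit 0) (p (nat_lit 0x10a898a08881a) (nat_lit 0) (p (nat_lit 0x8a090988079a) (nat_lit 0) (p (nat_lit 0x108088907871a) (nat_lit 0) (p (nat_lit 0x87880887069a) (nat_lit 0) (p (nat_lit 0x8000080000000088806860a) (nat_lit 0) (p (nat_lit 0x8000080000000068786058a)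 (nat_lit 0) (p (nat_lit 0x10687058502) (nat_lit 0) (p (nat_lit 0x8606850482) (nat_lit 0) (p (nat_lit 0x160004) (nat_lit 0) (p (nat_lit 0x68612) (nat_lit 0) (p (nat_lit 0x50592) (nat_lit 0) (p (nat_lit 0x40512) (nat_lit 0) (p (nat_lit 0x50312) (nat_lit 0) (p (nat_lit 0x38292) (nat_lit 0) (p (nat_lit 0x28212) (nat_lit 0) (p (nat_lit 0x38112) (nat_lit 0) (p (nat_lit 0x20092) (nat_lit 0) (p (nat_lit 0x10012) (nat_lit 0) pn)))))))))))))))))))))))))) :=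
  Cl.node (nat_lit 0x444aa) (nat_lit 12) (by decide +kernel) (ClAll.succ (ClAll.succ (ClAll.succ (ClAll.succ (ClAll.succ (ClAll.succ (ClAll.succ (ClAll.succ (ClAll.succ (ClAll.succ (ClAll.succ (ClAll.succ ClAll.zero s209) s210) s211) s212) s213) s214) s215) n542) n543) s238) s239) s240)

def n621 : Cl (O (nat_lit 6)) (R (nat_lit 143633))
    (p (nat_lit 0x3cc2a) (nat_lit 10) (p (nat_lit 0x109) (nat_lit 1) (p (nat_lit 0xc9) (nat_lit 1) (p (nat_lit 0xc1) (nat_lit 0) (p (nat_lit 0x119) (nat_lit 1) (p (nat_lit 0xd1) (nat_lit 0) (p (nat_lit 0x89) (nat_lit 0) (p (nat_lit 0x41) (nat_lit 0) (p (nat_lit 0x10a898a08881a) (nat_lit 0) (p (nat_lit 0x8a090988079a) (nat_lit 0) (p (nat_lit 0x108088907871a) (nat_lit 0) (p (nat_lit 0x87880887069a) (nat_lit 0) (p (nat_lit 0x8000080000000088806860a) (nat_lit 0) (p (nat_lit 0x8000080000000068786058a) (nat_lit 0) (p (nat_lit 0x10687058502) (nat_lit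 0) (p (nat_lit 0x8606850482) (nat_lit 0) (p (nat_lit 0x160004) (nat_lit 0) (p (nat_lit 0x68612) (nat_lit 0) (p (nat_lit 0x50592) (nat_lit 0) (p (nat_lit 0x40512) (nat_lit 0) (p (nat_lit 0x50312) (nat_lit 0) (p (nat_lit 0x38292) (nat_lit 0) (p (nat_lit 0x28212) (nat_lit 0) (p (nat_lit 0x38112) (nat_lit 0) (p (nat_lit 0x20092) (nat_lit 0) (p (nat_lit 0x10012) (nat_lit 0) pn)))))))))))))))))))))))))) :=
  Cl.node (nat_lit 0x380c2) (nat_lit 2) (by decide +kernel) (ClAll.succ (ClAll.succ ClAll.zero n544) n545)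

def n622 : Cl (O (nat_lit 6)) (R (nat_lit 143633))
    (p (nat_lit 0x3cc2a) (nat_lit 11) (p (nat_lit 0x109) (nat_lit 1) (p (nat_lit 0xc9) (nat_lit 1) (p (nat_lit 0xc1) (nat_lit 0) (p (nat_lit 0x119) (nat_lit 1) (p (nat_lit 0xd1) (nat_lit 0) (p (nat_lit 0x89) (nat_lit 0) (p (nat_lit 0x41) (nat_lit 0) (p (nat_lit 0x10a898a08881a) (nat_lit 0) (p (nat_lit 0x8a090988079a) (nat_lit 0) (p (nat_lit 0x108088907871a) (nat_lit 0) (p (nat_lit 0x87880887069a) (nat_lit 0) (p (nat_lit 0x8000080000000088806860a) (nat_lit 0) (p (nat_lit 0x8000080000000068786058a) (nat_lit 0) (p (nat_lit 0x10687058502) (nat_lit 0) (p (nat_lit 0x8606850482) (nat_lit 0) (p (nat_lit 0x160004) (nat_lit 0) (p (nat_lit 0x68612) (nat_lit 0) (p (nat_lit 0x50592) (nat_lit 0) (p (nat_lit 0x40512) (nat_lit 0) (p (nat_lit 0x50312) (nat_lit 0) (p (nat_lit 0x38292) (nat_lit 0) (p (nat_lit 0x28212) (nat_lit 0) (p (nat_lit 0x38112)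 (nat_lit 0) (p (nat_lit 0x20092) (nat_lit 0) (p (nat_lit 0x10012) (nat_lit 0) pn)))))))))))))))))))))))))) :=
  Cl.node (nat_lit 0x380c2) (nat_lit 2) (by decide +kernel) (ClAll.succ (ClAll.succ ClAll.zero n546) n547)

def n623 : Cl (O (nat_lit 6)) (R (nat_lit 143633))
    (p (nat_lit 0x3cc2a) (nat_lit 10) (p (nat_lit 0x109) (nat_lit 1) (p (nat_lit 0x81) (nat_lit 0) (p (nat_lit 0xc1) (nat_lit 1) (p (nat_lit 0x119) (nat_lit 1) (p (nat_lit 0xd1) (nat_lit 0) (p (nat_lit 0x89) (nat_lit 0) (p (nat_lit 0x41) (nat_lit 0) (p (nat_lit 0x10a898a08881a) (nat_lit 0) (p (nat_lit 0x8a090988079a) (nat_lit 0) (p (nat_lit 0x108088907871a) (nat_lit 0) (p (nat_lit 0x87880887069a) (nat_lit 0) (p (nat_lit 0x8000080000000088806860a) (nat_lit 0) (p (nat_lit 0x8000080000000068786058a) (nat_lit 0) (p (nat_lit 0x10687058502) (nat_lit 0) (p (nat_lit 0x8606850482) (nat_lit 0) (p (nat_lit 0x160004) (nat_lit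 0) (p (nat_lit 0x68612) (nat_lit 0) (p (nat_lit 0x50592) (nat_lit 0) (p (nat_lit 0x40512) (nat_lit 0) (p (nat_lit 0x50312) (nat_lit 0) (p (nat_lit 0x38292) (nat_lit 0) (p (nat_lit 0x28212) (nat_lit 0) (p (nat_lit 0x38112) (nat_lit 0) (p (nat_lit 0x20092) (nat_lit 0) (p (nat_lit 0x10012) (nat_lit 0) pn)))))))))))))))))))))))))) :=
  Cl.node (nat_lit 0x380c2) (nat_lit 2) (by decide +kernel) (ClAll.succ (ClAll.succ ClAll.zero s314) n548)

def n624 : Cl (O (nat_lit 6)) (R (nat_lit 143633))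
    (p (nat_lit 0x3cc2a) (nat_lit 11) (p (nat_lit 0x109) (nat_lit 1) (p (nat_lit 0x81) (nat_lit 0) (p (nat_lit 0xc1) (nat_lit 1) (p (nat_lit 0x119) (nat_lit 1) (p (nat_lit 0xd1) (nat_lit 0) (p (nat_lit 0x89) (nat_lit 0) (p (nat_lit 0x41) (nat_lit 0) (p (nat_lit 0x10a898a08881a) (nat_lit 0) (p (nat_lit 0x8a090988079a) (nat_lit 0) (p (nat_lit 0x108088907871a) (nat_lit 0) (p (nat_lit 0x87880887069a) (nat_lit 0) (p (nat_lit 0x8000080000000088806860a) (nat_lit 0) (p (nat_lit 0x8000080000000068786058a) (nat_lit 0) (p (nat_lit 0x10687058502) (nat_lit 0) (p (nat_lit 0x8606850482) (nat_lit 0) (p (nat_lit 0x160004) (nat_lit 0) (p (nat_lit 0x68612) (nat_lit 0) (p (nat_lit 0x50592) (nat_lit 0) (p (nat_lit 0x40512) (nat_lit 0) (p (nat_lit 0x50312) (nat_lit 0) (p (nat_lit 0x38292) (nat_lit 0) (p (nat_lit 0x28212) (nat_lit 0) (p (nat_lit 0x38112) (nat_lit 0) (p (nat_lit 0x20092) (nat_lit 0)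 (p (nat_lit 0x10012) (nat_lit 0) pn)))))))))))))))))))))))))) :=
  Cl.node (nat_lit 0x380c2) (nat_lit 2) (by decide +kernel) (ClAll.succ (ClAll.succ ClAll.zero n549) n550)

def n625 : Cl (O (nat_lit 6)) (R (nat_lit 143633))
    (p (nat_lit 0x109) (nat_lit 0) (p (nat_lit 0x101) (nat_lit 0) (p (nat_lit 0x81) (nat_lit 1) (p (nat_lit 0xc1) (nat_lit 1) (p (nat_lit 0x119) (nat_lit 1) (p (nat_lit 0xd1) (nat_lit 0) (p (nat_lit 0x89) (nat_lit 0) (p (nat_lit 0x41) (nat_lit 0) (p (nat_lit 0x10a898a08881a) (nat_lit 0) (p (nat_lit 0x8a090988079a) (nat_lit 0) (p (nat_lit 0x108088907871a) (nat_lit 0) (p (nat_lit 0x87880887069a) (nat_lit 0) (p (nat_lit 0x8000080000000088806860a) (nat_lit 0) (p (nat_lit 0x8000080000000068786058a) (nat_lit 0) (p (nat_lit 0x10687058502) (nat_lit 0) (p (nat_lit 0x8606850482) (nat_lit 0) (p (nat_lit 0x160004) (nat_lit 0) (p (nat_lit 0x68612) (nat_lit 0) (p (nat_lit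 0x50592) (nat_lit 0) (p (nat_lit 0x40512) (nat_lit 0) (p (nat_lit 0x50312) (nat_lit 0) (p (nat_lit 0x38292) (nat_lit 0) (p (nat_lit 0x28212) (nat_lit 0) (p (nat_lit 0x38112) (nat_lit 0) (p (nat_lit 0x20092) (nat_lit 0) (p (nat_lit 0x10012) (nat_lit 0) pn)))))))))))))))))))))))))) :=
  Cl.node (nat_lit 0x44c2a) (nat_lit 12) (by decide +kernel) (ClAll.succ (ClAll.succ (ClAll.succ (ClAll.succ (ClAll.succ (ClAll.succ (ClAll.succ (ClAll.succ (ClAll.succ (ClAll.succ (ClAll.succ (ClAll.succ ClAll.zero n551) n552) s374) s375) s376) s377) s378) s379) s380) s381) s382) s383)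

def n626 : Cl (O (nat_lit 6)) (R (nat_lit 143633))
    (p (nat_lit 0x109) (nat_lit 1) (p (nat_lit 0x101) (nat_lit 0) (p (nat_lit 0x81) (nat_lit 1) (p (nat_lit 0xc1) (nat_lit 1) (p (nat_lit 0x119) (nat_lit 1) (p (nat_lit 0xd1) (nat_lit 0) (p (nat_lit 0x89) (nat_lit 0) (p (nat_lit 0x41) (nat_lit 0) (p (nat_lit 0x10a898a08881a) (nat_lit 0) (p (nat_lit 0x8a090988079a) (nat_lit 0) (p (nat_lit 0x108088907871a) (nat_lit 0) (p (nat_lit 0x87880887069a) (nat_lit 0) (p (nat_lit 0x8000080000000088806860a) (nat_lit 0) (p (nat_lit 0x8000080000000068786058a) (nat_lit 0) (p (nat_lit 0x10687058502) (nat_lit 0) (p (nat_lit 0x8606850482) (nat_lit 0) (p (nat_lit 0x160004) (nat_lit 0) (p (nat_lit 0x68612) (nat_lit 0) (p (nat_lit 0x50592) (nat_lit 0) (p (nat_lit 0x40512) (nat_lit 0) (p (nat_lit 0x50312) (nat_lit 0) (p (nat_lit 0x38292) (nat_lit 0) (p (nat_lit 0x28212) (nat_lit 0) (p (nat_lit 0x38112)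 (nat_lit 0) (p (nat_lit 0x20092) (nat_lit 0) (p (nat_lit 0x10012) (nat_lit 0) pn)))))))))))))))))))))))))) :=
  Cl.node (nat_lit 0x444aa) (nat_lit 12) (by decide +kernel) (ClAll.succ (ClAll.succ (ClAll.succ (ClAll.succ (ClAll.succ (ClAll.succ (ClAll.succ (ClAll.succ (ClAll.succ (ClAll.succ (ClAll.succ (ClAll.succ ClAll.zero s384) s385) s386) s387) s388) s389) s390) n553) n554) s430) s431) s432)

def n627 : Cl (O (nat_lit 6)) (R (nat_lit 143633))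
    (p (nat_lit 0x444aa) (nat_lit 8) (p (nat_lit 0x101) (nat_lit 1) (p (nat_lit 0x81) (nat_lit 1) (p (nat_lit 0xc1) (nat_lit 1) (p (nat_lit 0x119) (nat_lit 1) (p (nat_lit 0xd1) (nat_lit 0) (p (nat_lit 0x89) (nat_lit 0) (p (nat_lit 0x41) (nat_lit 0) (p (nat_lit 0x10a898a08881a) (nat_lit 0) (p (nat_lit 0x8a090988079a) (nat_lit 0) (p (nat_lit 0x108088907871a) (nat_lit 0) (p (nat_lit 0x87880887069a) (nat_lit 0) (p (nat_lit 0x8000080000000088806860a) (nat_lit 0) (p (nat_lit 0x8000080000000068786058a) (nat_lit 0) (p (nat_lit 0x10687058502) (nat_lit 0) (p (nat_lit 0x8606850482) (nat_lit 0) (p (nat_lit 0x160004) (nat_lit 0) (p (nat_lit 0x68612) (nat_lit 0) (p (nat_lit 0x50592) (nat_lit 0) (p (nat_lit 0x40512) (nat_lit 0) (p (nat_lit 0x50312) (nat_lit 0) (p (nat_lit 0x38292) (nat_lit 0) (p (nat_lit 0x28212) (nat_lit 0) (p (nat_lit 0x38112) (nat_lit 0) (p (nat_lit 0x20092) (nat_lit 0)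 (p (nat_lit 0x10012) (nat_lit 0) pn)))))))))))))))))))))))))) :=
  Cl.node (nat_lit 0x380c2) (nat_lit 2) (by decide +kernel) (ClAll.succ (ClAll.succ ClAll.zero n555) n556)

def n628 : Cl (O (nat_lit 6)) (R (nat_lit 143633))
    (p (nat_lit 0x20000c) (nat_lit 0) (p (nat_lit 0xc1) (nat_lit 1) (p (nat_lit 0x109) (nat_lit 1) (p (nat_lit 0x101) (nat_lit 0) (p (nat_lit 0x111) (nat_lit 0) (p (nat_lit 0xd1) (nat_lit 1) (p (nat_lit 0x89) (nat_lit 0) (p (nat_lit 0x41) (nat_lit 0) (p (nat_lit 0x10a898a08881a) (nat_lit 0) (p (nat_lit 0x8a090988079a) (nat_lit 0) (p (nat_lit 0x108088907871a) (nat_lit 0) (p (nat_lit 0x87880887069a) (nat_lit 0) (p (nat_lit 0x8000080000000088806860a) (nat_lit 0) (p (nat_lit 0x8000080000000068786058a) (nat_lit 0) (p (nat_lit 0x10687058502) (nat_lit 0) (p (nat_lit 0x8606850482) (nat_lit 0) (p (nat_lit 0x160004) (nat_lit 0) (p (nat_lit 0x68612) (nat_lit 0) (p (nat_lit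 0x50592) (nat_lit 0) (p (nat_lit 0x40512) (nat_lit 0) (p (nat_lit 0x50312) (nat_lit 0) (p (nat_lit 0x38292) (nat_lit 0) (p (nat_lit 0x28212) (nat_lit 0) (p (nat_lit 0x38112) (nat_lit 0) (p (nat_lit 0x20092) (nat_lit 0) (p (nat_lit 0x10012) (nat_lit 0) pn)))))))))))))))))))))))))) :=
  Cl.node (nat_lit 0x200014) (nat_lit 2) (by decide +kernel) (ClAll.succ (ClAll.succ ClAll.zero n557) s474)

def n629 : Cl (O (nat_lit 6)) (R (nat_lit 143633))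
    (p (nat_lit 0x20000c) (nat_lit 1) (p (nat_lit 0xc1) (nat_lit 1) (p (nat_lit 0x109) (nat_lit 1) (p (nat_lit 0x101) (nat_lit 0) (p (nat_lit 0x111) (nat_lit 0) (p (nat_lit 0xd1) (nat_lit 1) (p (nat_lit 0x89) (nat_lit 0) (p (nat_lit 0x41) (nat_lit 0) (p (nat_lit 0x10a898a08881a) (nat_lit 0) (p (nat_lit 0x8a090988079a) (nat_lit 0) (p (nat_lit 0x108088907871a) (nat_lit 0) (p (nat_lit 0x87880887069a) (nat_lit 0) (p (nat_lit 0x8000080000000088806860a) (nat_lit 0) (p (nat_lit 0x8000080000000068786058a) (nat_lit 0) (p (nat_lit 0x10687058502) (nat_lit 0) (p (nat_lit 0x8606850482) (nat_lit 0) (p (nat_lit 0x160004) (nat_lit 0) (p (nat_lit 0x68612) (nat_lit 0) (p (nat_lit 0x50592) (nat_lit 0) (p (nat_lit 0x40512) (nat_lit 0) (p (nat_lit 0x50312) (nat_lit 0) (p (nat_lit 0x38292) (nat_lit 0) (p (nat_lit 0x28212) (nat_lit 0) (p (nat_lit 0x38112) (nat_lit 0) (p (nat_lit 0x20092) (nat_lit 0)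 (p (nat_lit 0x10012) (nat_lit 0) pn)))))))))))))))))))))))))) :=
  Cl.node (nat_lit 0xb0004) (nat_lit 2) (by decide +kernel) (ClAll.succ (ClAll.succ ClAll.zero n558) s477)

def n630 : Cl (O (nat_lit 6)) (R (nat_lit 143633))
    (p (nat_lit 0x20000c) (nat_lit 0) (p (nat_lit 0x119) (nat_lit 0) (p (nat_lit 0x81) (nat_lit 0) (p (nat_lit 0x101) (nat_lit 1) (p (nat_lit 0x111) (nat_lit 0) (p (nat_lit 0xd1) (nat_lit 1) (p (nat_lit 0x89) (nat_lit 0) (p (nat_lit 0x41) (nat_lit 0) (p (nat_lit 0x10a898a08881a) (nat_lit 0) (p (nat_lit 0x8a090988079a) (nat_lit 0) (p (nat_lit 0x108088907871a) (nat_lit 0) (p (nat_lit 0x87880887069a) (nat_lit 0) (p (nat_lit 0x8000080000000088806860a) (nat_lit 0) (p (nat_lit 0x8000080000000068786058a) (nat_lit 0) (p (nat_lit 0x10687058502) (nat_lit 0) (p (nat_lit 0x8606850482) (nat_lit 0) (p (nat_lit 0x160004) (nat_lit 0) (p (nat_lit 0x68612) (nat_lit 0) (p (nat_lit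 0x50592) (nat_lit 0) (p (nat_lit 0x40512) (nat_lit 0) (p (nat_lit 0x50312) (nat_lit 0) (p (nat_lit 0x38292) (nat_lit 0) (p (nat_lit 0x28212) (nat_lit 0) (p (nat_lit 0x38112) (nat_lit 0) (p (nat_lit 0x20092) (nat_lit 0) (p (nat_lit 0x10012) (nat_lit 0) pn)))))))))))))))))))))))))) :=
  Cl.node (nat_lit 0x200014) (nat_lit 2) (by decide +kernel) (ClAll.succ (ClAll.succ ClAll.zero n559) s521)

def n631 : Cl (O (nat_lit 6)) (R (nat_lit 143633))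
    (p (nat_lit 0x20000c) (nat_lit 1) (p (nat_lit 0x119) (nat_lit 0) (p (nat_lit 0x81) (nat_lit 0) (p (nat_lit 0x101) (nat_lit 1) (p (nat_lit 0x111) (nat_lit 0) (p (nat_lit 0xd1) (nat_lit 1) (p (nat_lit 0x89) (nat_lit 0) (p (nat_lit 0x41) (nat_lit 0) (p (nat_lit 0x10a898a08881a) (nat_lit 0) (p (nat_lit 0x8a090988079a) (nat_lit 0) (p (nat_lit 0x108088907871a) (nat_lit 0) (p (nat_lit 0x87880887069a) (nat_lit 0) (p (nat_lit 0x8000080000000088806860a) (nat_lit 0) (p (nat_lit 0x8000080000000068786058a) (nat_lit 0) (p (nat_lit 0x10687058502) (nat_lit 0) (p (nat_lit 0x8606850482) (nat_lit 0) (p (nat_lit 0x160004) (nat_lit 0) (p (nat_lit 0x68612) (nat_lit 0) (p (nat_lit 0x50592) (nat_lit 0) (p (nat_lit 0x40512) (nat_lit 0) (p (nat_lit 0x50312) (nat_lit 0) (p (nat_lit 0x38292) (nat_lit 0) (p (nat_lit 0x28212) (nat_lit 0) (p (nat_lit 0x38112) (nat_lit 0) (p (nat_lit 0x20092) (nat_lit 0)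 (p (nat_lit 0x10012) (nat_lit 0) pn)))))))))))))))))))))))))) :=
  Cl.node (nat_lit 0xb0004) (nat_lit 2) (by decide +kernel) (ClAll.succ (ClAll.succ ClAll.zero n560) s525)

def n632 : Cl (O (nat_lit 6)) (R (nat_lit 143633))
    (p (nat_lit 0x119) (nat_lit 0) (p (nat_lit 0xc1) (nat_lit 0) (p (nat_lit 0x81) (nat_lit 1) (p (nat_lit 0x101) (nat_lit 1) (p (nat_lit 0x111) (nat_lit 0) (p (nat_lit 0xd1) (nat_lit 1) (p (nat_lit 0x89) (nat_lit 0) (p (nat_lit 0x41) (nat_lit 0) (p (nat_lit 0x10a898a08881a) (nat_lit 0) (p (nat_lit 0x8a090988079a) (nat_lit 0) (p (nat_lit 0x108088907871a) (nat_lit 0) (p (nat_lit 0x87880887069a) (nat_lit 0) (p (nat_lit 0x8000080000000088806860a) (nat_lit 0) (p (nat_lit 0x8000080000000068786058a) (nat_lit 0) (p (nat_lit 0x10687058502) (nat_lit 0) (p (nat_lit 0x8606850482) (nat_lit 0) (p (nat_lit 0x160004) (nat_lit 0) (p (nat_lit 0x68612) (nat_lit 0) (p (nat_lit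 0x50592) (nat_lit 0) (p (nat_lit 0x40512) (nat_lit 0) (p (nat_lit 0x50312) (nat_lit 0) (p (nat_lit 0x38292) (nat_lit 0) (p (nat_lit 0x28212) (nat_lit 0) (p (nat_lit 0x38112) (nat_lit 0) (p (nat_lit 0x20092) (nat_lit 0) (p (nat_lit 0x10012) (nat_lit 0) pn)))))))))))))))))))))))))) :=
  Cl.node (nat_lit 0x444aa) (nat_lit 12) (by decide +kernel) (ClAll.succ (ClAll.succ (ClAll.succ (ClAll.succ (ClAll.succ (ClAll.succ (ClAll.succ (ClAll.succ (ClAll.succ (ClAll.succ (ClAll.succ (ClAll.succ ClAll.zero s538) s539) s540) s541) s542) s543) s544) n561) n562) s593) s594) s595)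

def n633 : Cl (O (nat_lit 6)) (R (nat_lit 143633))
    (p (nat_lit 0x119) (nat_lit 1) (p (nat_lit 0xc1) (nat_lit 0) (p (nat_lit 0x81) (nat_lit 1) (p (nat_lit 0x101) (nat_lit 1) (p (nat_lit 0x111) (nat_lit 0) (p (nat_lit 0xd1) (nat_lit 1) (p (nat_lit 0x89) (nat_lit 0) (p (nat_lit 0x41) (nat_lit 0) (p (nat_lit 0x10a898a08881a) (nat_lit 0) (p (nat_lit 0x8a090988079a) (nat_lit 0) (p (nat_lit 0x108088907871a) (nat_lit 0) (p (nat_lit 0x87880887069a) (nat_lit 0) (p (nat_lit 0x8000080000000088806860a) (nat_lit 0) (p (nat_lit 0x8000080000000068786058a) (nat_lit 0) (p (nat_lit 0x10687058502) (nat_lit 0) (p (nat_lit 0x8606850482) (nat_lit 0) (p (nat_lit 0x160004) (nat_lit 0) (p (nat_lit 0x68612) (nat_lit 0) (p (nat_lit 0x50592) (nat_lit 0) (p (nat_lit 0x40512) (nat_lit 0) (p (nat_lit 0x50312) (nat_lit 0) (p (nat_lit 0x38292) (nat_lit 0) (p (nat_lit 0x28212) (nat_lit 0) (p (nat_lit 0x38112)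 (nat_lit 0) (p (nat_lit 0x20092) (nat_lit 0) (p (nat_lit 0x10012) (nat_lit 0) pn)))))))))))))))))))))))))) :=
  Cl.node (nat_lit 0x3cc2a) (nat_lit 12) (by decide +kernel) (ClAll.succ (ClAll.succ (ClAll.succ (ClAll.succ (ClAll.succ (ClAll.succ (ClAll.succ (ClAll.succ (ClAll.succ (ClAll.succ (ClAll.succ (ClAll.succ ClAll.zero s596) s597) s598) s599) s600) s601) s602) s603) s604) s605) s606) s607)

def n634 : Cl (O (nat_lit 6)) (R (nat_lit 143633))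
    (p (nat_lit 0xd1) (nat_lit 1) (p (nat_lit 0x111) (nat_lit 1) (p (nat_lit 0x109) (nat_lit 0) (p (nat_lit 0x101) (nat_lit 0) (p (nat_lit 0x119) (nat_lit 0) (p (nat_lit 0xc9) (nat_lit 0) (p (nat_lit 0x89) (nat_lit 1) (p (nat_lit 0x41) (nat_lit 0) (p (nat_lit 0x10a898a08881a) (nat_lit 0) (p (nat_lit 0x8a090988079a) (nat_lit 0) (p (nat_lit 0x108088907871a) (nat_lit 0) (p (nat_lit 0x87880887069a) (nat_lit 0) (p (nat_lit 0x8000080000000088806860a) (nat_lit 0) (p (nat_lit 0x8000080000000068786058a) (nat_lit 0) (p (nat_lit 0x10687058502) (nat_lit 0) (p (nat_lit 0x8606850482) (nat_lit 0) (p (nat_lit 0x160004) (nat_lit 0) (p (nat_lit 0x68612) (nat_lit 0) (p (nat_lit 0x50592) (nat_lit 0) (p (nat_lit 0x40512) (nat_lit 0) (p (nat_lit 0x50312) (nat_lit 0) (p (nat_lit 0x38292) (nat_lit 0) (p (nat_lit 0x28212) (nat_lit 0) (p (nat_lit 0x38112) (nat_lit 0) (p (nat_lit 0x20092) (nat_lit 0) (p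 (nat_lit 0x10012) (nat_lit 0) pn)))))))))))))))))))))))))) :=
  Cl.node (nat_lit 0x444aa) (nat_lit 12) (by decide +kernel) (ClAll.succ (ClAll.succ (ClAll.succ (ClAll.succ (ClAll.succ (ClAll.succ (ClAll.succ (ClAll.succ (ClAll.succ (ClAll.succ (ClAll.succ (ClAll.succ ClAll.zero s637) s638) s639) s640) s641) s642) s643) n563) s694) s695) s696) s697)

def n635 : Cl (O (nat_lit 6)) (R (nat_lit 143633))
    (p (nat_lit 0x20000c) (nat_lit 0) (p (nat_lit 0xd1) (nat_lit 0) (p (nat_lit 0x109) (nat_lit 1) (p (nat_lit 0x101) (nat_lit 0) (p (nat_lit 0x119) (nat_lit 0) (p (nat_lit 0xc9) (nat_lit 0) (p (nat_lit 0x89) (nat_lit 1) (p (nat_lit 0x41) (nat_lit 0) (p (nat_lit 0x10a898a08881a) (nat_lit 0) (p (nat_lit 0x8a090988079a) (nat_lit 0) (p (nat_lit 0x108088907871a) (nat_lit 0) (p (nat_lit 0x87880887069a) (nat_lit 0) (p (nat_lit 0x8000080000000088806860a) (nat_lit 0) (p (nat_lit 0x8000080000000068786058a)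 (nat_lit 0) (p (nat_lit 0x10687058502) (nat_lit 0) (p (nat_lit 0x8606850482) (nat_lit 0) (p (nat_lit 0x160004) (nat_lit 0) (p (nat_lit 0x68612) (nat_lit 0) (p (nat_lit 0x50592) (nat_lit 0) (p (nat_lit 0x40512) (nat_lit 0) (p (nat_lit 0x50312) (nat_lit 0) (p (nat_lit 0x38292) (nat_lit 0) (p (nat_lit 0x28212) (nat_lit 0) (p (nat_lit 0x38112) (nat_lit 0) (p (nat_lit 0x20092) (nat_lit 0) (p (nat_lit 0x10012) (nat_lit 0) pn)))))))))))))))))))))))))) :=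
  Cl.node (nat_lit 0x200014) (nat_lit 2) (by decide +kernel) (ClAll.succ (ClAll.succ ClAll.zero n564) s716)

def n636 : Cl (O (nat_lit 6)) (R (nat_lit 143633))
    (p (nat_lit 0x20000c) (nat_lit 1) (p (nat_lit 0xd1) (nat_lit 0) (p (nat_lit 0x109) (nat_lit 1) (p (nat_lit 0x101) (nat_lit 0) (p (nat_lit 0x119) (nat_lit 0) (p (nat_lit 0xc9) (nat_lit 0) (p (nat_lit 0x89) (nat_lit 1) (p (nat_lit 0x41) (nat_lit 0) (p (nat_lit 0x10a898a08881a) (nat_lit 0) (p (nat_lit 0x8a090988079a) (nat_lit 0) (p (nat_lit 0x108088907871a) (nat_lit 0) (p (nat_lit 0x87880887069a) (nat_lit 0) (p (nat_lit 0x8000080000000088806860a) (nat_lit 0) (p (nat_lit 0x8000080000000068786058a) (nat_lit 0) (p (nat_lit 0x10687058502) (nat_lit 0) (p (nat_lit 0x8606850482) (nat_lit 0) (p (nat_lit 0x160004) (nat_lit 0) (p (nat_lit 0x68612) (nat_lit 0) (p (nat_lit 0x50592) (nat_lit 0) (p (nat_lit 0x40512) (nat_lit 0) (p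 (nat_lit 0x50312) (nat_lit 0) (p (nat_lit 0x38292) (nat_lit 0) (p (nat_lit 0x28212) (nat_lit 0) (p (nat_lit 0x38112) (nat_lit 0) (p (nat_lit 0x20092) (nat_lit 0) (p (nat_lit 0x10012) (nat_lit 0) pn)))))))))))))))))))))))))) :=
  Cl.node (nat_lit 0xb0004) (nat_lit 2) (by decide +kernel) (ClAll.succ (ClAll.succ ClAll.zero n565) s719)

def n637 : Cl (O (nat_lit 6)) (R (nat_lit 143633))
    (p (nat_lit 0x444aa) (nat_lit 7) (p (nat_lit 0xd1) (nat_lit 1) (p (nat_lit 0x109) (nat_lit 1) (p (nat_lit 0x101) (nat_lit 0) (p (nat_lit 0x119) (nat_lit 0) (p (nat_lit 0xc9) (nat_lit 0) (p (nat_lit 0x89) (nat_lit 1) (p (nat_lit 0x41) (nat_lit 0) (p (nat_lit 0x10a898a08881a) (nat_lit 0) (p (nat_lit 0x8a090988079a) (nat_lit 0) (p (nat_lit 0x108088907871a) (nat_lit 0) (p (nat_lit 0x87880887069a) (nat_lit 0) (p (nat_lit 0x8000080000000088806860a) (nat_lit 0) (p (nat_lit 0x8000080000000068786058a)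 (nat_lit 0) (p (nat_lit 0x10687058502) (nat_lit 0) (p (nat_lit 0x8606850482) (nat_lit 0) (p (nat_lit 0x160004) (nat_lit 0) (p (nat_lit 0x68612) (nat_lit 0) (p (nat_lit 0x50592) (nat_lit 0) (p (nat_lit 0x40512) (nat_lit 0) (p (nat_lit 0x50312) (nat_lit 0) (p (nat_lit 0x38292) (nat_lit 0) (p (nat_lit 0x28212) (nat_lit 0) (p (nat_lit 0x38112) (nat_lit 0) (p (nat_lit 0x20092) (nat_lit 0) (p (nat_lit 0x10012) (nat_lit 0) pn)))))))))))))))))))))))))) :=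
  Cl.node (nat_lit 0x380c2) (nat_lit 2) (by decide +kernel) (ClAll.succ (ClAll.succ ClAll.zero n566) n567)

def n638 : Cl (O (nat_lit 6)) (R (nat_lit 143633))
    (p (nat_lit 0x20000c) (nat_lit 0) (p (nat_lit 0xd1) (nat_lit 0) (p (nat_lit 0xc1) (nat_lit 0) (p (nat_lit 0x101) (nat_lit 1) (p (nat_lit 0x119) (nat_lit 0) (p (nat_lit 0xc9) (nat_lit 0) (p (nat_lit 0x89) (nat_lit 1) (p (nat_lit 0x41) (nat_lit 0) (p (nat_lit 0x10a898a08881a) (nat_lit 0) (p (nat_lit 0x8a090988079a) (nat_lit 0) (p (nat_lit 0x108088907871a) (nat_lit 0) (p (nat_lit 0x87880887069a) (nat_lit 0) (p (nat_lit 0x8000080000000088806860a) (nat_lit 0) (p (nat_lit 0x8000080000000068786058a) (nat_lit 0) (p (nat_lit 0x10687058502) (nat_lit 0) (p (nat_lit 0x8606850482) (nat_lit 0) (p (nat_lit 0x160004) (nat_lit 0) (p (nat_lit 0x68612) (nat_lit 0) (p (nat_lit 0x50592) (nat_lit 0) (p (nat_lit 0x40512) (nat_lit 0) (p (nat_lit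 0x50312) (nat_lit 0) (p (nat_lit 0x38292) (nat_lit 0) (p (nat_lit 0x28212) (nat_lit 0) (p (nat_lit 0x38112) (nat_lit 0) (p (nat_lit 0x20092) (nat_lit 0) (p (nat_lit 0x10012) (nat_lit 0) pn)))))))))))))))))))))))))) :=
  Cl.node (nat_lit 0x200014) (nat_lit 2) (by decide +kernel) (ClAll.succ (ClAll.succ ClAll.zero n568) s856)

def n639 : Cl (O (nat_lit 6)) (R (nat_lit 143633))
    (p (nat_lit 0x444aa) (nat_lit 7) (p (nat_lit 0xd1) (nat_lit 1) (p (nat_lit 0xc1) (nat_lit 0) (p (nat_lit 0x101) (nat_lit 1) (p (nat_lit 0x119) (nat_lit 0) (p (nat_lit 0xc9) (nat_lit 0) (p (nat_lit 0x89) (nat_lit 1) (p (nat_lit 0x41) (nat_lit 0) (p (nat_lit 0x10a898a08881a) (nat_lit 0) (p (nat_lit 0x8a090988079a) (nat_lit 0) (p (nat_lit 0x108088907871a) (nat_lit 0) (p (nat_lit 0x87880887069a) (nat_lit 0) (p (nat_lit 0x8000080000000088806860a) (nat_lit 0) (p (nat_lit 0x8000080000000068786058a) (nat_lit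 0) (p (nat_lit 0x10687058502) (nat_lit 0) (p (nat_lit 0x8606850482) (nat_lit 0) (p (nat_lit 0x160004) (nat_lit 0) (p (nat_lit 0x68612) (nat_lit 0) (p (nat_lit 0x50592) (nat_lit 0) (p (nat_lit 0x40512) (nat_lit 0) (p (nat_lit 0x50312) (nat_lit 0) (p (nat_lit 0x38292) (nat_lit 0) (p (nat_lit 0x28212) (nat_lit 0) (p (nat_lit 0x38112) (nat_lit 0) (p (nat_lit 0x20092) (nat_lit 0) (p (nat_lit 0x10012) (nat_lit 0) pn)))))))))))))))))))))))))) :=
  Cl.node (nat_lit 0x380c2) (nat_lit 2) (by decide +kernel) (ClAll.succ (ClAll.succ ClAll.zero n569) n570)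

def n640 : Cl (O (nat_lit 6)) (R (nat_lit 143633))
    (p (nat_lit 0x444aa) (nat_lit 7) (p (nat_lit 0x111) (nat_lit 1) (p (nat_lit 0xd1) (nat_lit 1) (p (nat_lit 0xc1) (nat_lit 0) (p (nat_lit 0x119) (nat_lit 1) (p (nat_lit 0xc9) (nat_lit 0) (p (nat_lit 0x89) (nat_lit 1) (p (nat_lit 0x41) (nat_lit 0) (p (nat_lit 0x10a898a08881a) (nat_lit 0) (p (nat_lit 0x8a090988079a) (nat_lit 0) (p (nat_lit 0x108088907871a) (nat_lit 0) (p (nat_lit 0x87880887069a) (nat_lit 0) (p (nat_lit 0x8000080000000088806860a) (nat_lit 0) (p (nat_lit 0x8000080000000068786058a) (nat_lit 0) (p (nat_lit 0x10687058502) (nat_lit 0) (p (nat_lit 0x8606850482) (nat_lit 0) (p (nat_lit 0x160004) (nat_lit 0) (p (nat_lit 0x68612) (nat_lit 0) (p (nat_lit 0x50592) (nat_lit 0) (p (nat_lit 0x40512) (nat_lit 0) (p (nat_lit 0x50312) (nat_lit 0) (p (nat_lit 0x38292) (nat_lit 0) (p (nat_lit 0x28212) (nat_lit 0) (p (nat_lit 0x38112)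 (nat_lit 0) (p (nat_lit 0x20092) (nat_lit 0) (p (nat_lit 0x10012) (nat_lit 0) pn)))))))))))))))))))))))))) :=
  Cl.node (nat_lit 0x380c2) (nat_lit 2) (by decide +kernel) (ClAll.succ (ClAll.succ ClAll.zero n571) n572)

def n641 : Cl (O (nat_lit 6)) (R (nat_lit 143633))
    (p (nat_lit 0x44c2a) (nat_lit 0) (p (nat_lit 0x111) (nat_lit 0) (p (nat_lit 0x101) (nat_lit 0) (p (nat_lit 0xc1) (nat_lit 1) (p (nat_lit 0x119) (nat_lit 1) (p (nat_lit 0xc9) (nat_lit 0) (p (nat_lit 0x89) (nat_lit 1) (p (nat_lit 0x41) (nat_lit 0) (p (nat_lit 0x10a898a08881a) (nat_lit 0) (p (nat_lit 0x8a090988079a) (nat_lit 0) (p (nat_lit 0x108088907871a) (nat_lit 0) (p (nat_lit 0x87880887069a) (nat_lit 0) (p (nat_lit 0x8000080000000088806860a) (nat_lit 0) (p (nat_lit 0x8000080000000068786058a) (nat_lit 0) (p (nat_lit 0x10687058502) (nat_lit 0) (p (nat_lit 0x8606850482) (nat_lit 0) (p (nat_lit 0x160004) (nat_lit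 0) (p (nat_lit 0x68612) (nat_lit 0) (p (nat_lit 0x50592) (nat_lit 0) (p (nat_lit 0x40512) (nat_lit 0) (p (nat_lit 0x50312) (nat_lit 0) (p (nat_lit 0x38292) (nat_lit 0) (p (nat_lit 0x28212) (nat_lit 0) (p (nat_lit 0x38112) (nat_lit 0) (p (nat_lit 0x20092) (nat_lit 0) (p (nat_lit 0x10012) (nat_lit 0) pn)))))))))))))))))))))))))) :=
  Cl.node (nat_lit 0x380c2) (nat_lit 2) (by decide +kernel) (ClAll.succ (ClAll.succ ClAll.zero n573) s943)

def n642 : Cl (O (nat_lit 6)) (R (nat_lit 143633))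
    (p (nat_lit 0x44c2a) (nat_lit 1) (p (nat_lit 0x111) (nat_lit 0) (p (nat_lit 0x101) (nat_lit 0) (p (nat_lit 0xc1) (nat_lit 1) (p (nat_lit 0x119) (nat_lit 1) (p (nat_lit 0xc9) (nat_lit 0) (p (nat_lit 0x89) (nat_lit 1) (p (nat_lit 0x41) (nat_lit 0) (p (nat_lit 0x10a898a08881a) (nat_lit 0) (p (nat_lit 0x8a090988079a) (nat_lit 0) (p (nat_lit 0x108088907871a) (nat_lit 0) (p (nat_lit 0x87880887069a) (nat_lit 0) (p (nat_lit 0x8000080000000088806860a) (nat_lit 0) (p (nat_lit 0x8000080000000068786058a) (nat_lit 0) (p (nat_lit 0x10687058502) (nat_lit 0) (p (nat_lit 0x8606850482) (nat_lit 0) (p (nat_lit 0x160004) (nat_lit 0) (p (nat_lit 0x68612) (nat_lit 0) (p (nat_lit 0x50592) (nat_lit 0) (p (nat_lit 0x40512) (nat_lit 0) (p (nat_lit 0x50312) (nat_lit 0) (p (nat_lit 0x38292) (nat_lit 0) (p (nat_lit 0x28212) (nat_lit 0) (p (nat_lit 0x38112) (nat_lit 0) (p (nat_lit 0x20092) (nat_lit 0)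 (p (nat_lit 0x10012) (nat_lit 0) pn)))))))))))))))))))))))))) :=
  Cl.node (nat_lit 0x380c2) (nat_lit 1) (by decide +kernel) (ClAll.succ ClAll.zero n574)

def n643 : Cl (O (nat_lit 6)) (R (nat_lit 143633))
    (p (nat_lit 0x444aa) (nat_lit 7) (p (nat_lit 0x111) (nat_lit 1) (p (nat_lit 0x101) (nat_lit 0) (p (nat_lit 0xc1) (nat_lit 1) (p (nat_lit 0x119) (nat_lit 1) (p (nat_lit 0xc9) (nat_lit 0) (p (nat_lit 0x89) (nat_lit 1) (p (nat_lit 0x41) (nat_lit 0) (p (nat_lit 0x10a898a08881a) (nat_lit 0) (p (nat_lit 0x8a090988079a) (nat_lit 0) (p (nat_lit 0x108088907871a) (nat_lit 0) (p (nat_lit 0x87880887069a) (nat_lit 0) (p (nat_lit 0x8000080000000088806860a) (nat_lit 0) (p (nat_lit 0x8000080000000068786058a) (nat_lit 0) (p (nat_lit 0x10687058502) (nat_lit 0) (p (nat_lit 0x8606850482) (nat_lit 0) (p (nat_lit 0x160004) (nat_lit 0) (p (nat_lit 0x68612) (nat_lit 0) (p (nat_lit 0x50592) (nat_lit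 0) (p (nat_lit 0x40512) (nat_lit 0) (p (nat_lit 0x50312) (nat_lit 0) (p (nat_lit 0x38292) (nat_lit 0) (p (nat_lit 0x28212) (nat_lit 0) (p (nat_lit 0x38112) (nat_lit 0) (p (nat_lit 0x20092) (nat_lit 0) (p (nat_lit 0x10012) (nat_lit 0) pn)))))))))))))))))))))))))) :=
  Cl.node (nat_lit 0x380c2) (nat_lit 2) (by decide +kernel) (ClAll.succ (ClAll.succ ClAll.zero n575) n576)

def n644 : Cl (O (nat_lit 6)) (R (nat_lit 143633))
    (p (nat_lit 0x444aa) (nat_lit 8) (p (nat_lit 0x111) (nat_lit 1) (p (nat_lit 0x101) (nat_lit 0) (p (nat_lit 0xc1) (nat_lit 1) (p (nat_lit 0x119) (nat_lit 1) (p (nat_lit 0xc9) (nat_lit 0) (p (nat_lit 0x89) (nat_lit 1) (p (nat_lit 0x41) (nat_lit 0) (p (nat_lit 0x10a898a08881a) (nat_lit 0) (p (nat_lit 0x8a090988079a) (nat_lit 0) (p (nat_lit 0x108088907871a) (nat_lit 0) (p (nat_lit 0x87880887069a) (nat_lit 0) (p (nat_lit 0x8000080000000088806860a) (nat_lit 0)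 (p (nat_lit 0x8000080000000068786058a) (nat_lit 0) (p (nat_lit 0x10687058502) (nat_lit 0) (p (nat_lit 0x8606850482) (nat_lit 0) (p (nat_lit 0x160004) (nat_lit 0) (p (nat_lit 0x68612) (nat_lit 0) (p (nat_lit 0x50592) (nat_lit 0) (p (nat_lit 0x40512) (nat_lit 0) (p (nat_lit 0x50312) (nat_lit 0) (p (nat_lit 0x38292) (nat_lit 0) (p (nat_lit 0x28212) (nat_lit 0) (p (nat_lit 0x38112) (nat_lit 0) (p (nat_lit 0x20092) (nat_lit 0) (p (nat_lit 0x10012) (nat_lit 0) pn)))))))))))))))))))))))))) :=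
  Cl.node (nat_lit 0x380c2) (nat_lit 2) (by decide +kernel) (ClAll.succ (ClAll.succ ClAll.zero s1001) s1002)

def n645 : Cl (O (nat_lit 6)) (R (nat_lit 143633))
    (p (nat_lit 0x444aa) (nat_lit 7) (p (nat_lit 0x119) (nat_lit 1) (p (nat_lit 0x111) (nat_lit 0) (p (nat_lit 0x101) (nat_lit 0) (p (nat_lit 0x109) (nat_lit 0) (p (nat_lit 0xc9) (nat_lit 1) (p (nat_lit 0x89) (nat_lit 1) (p (nat_lit 0x41) (nat_lit 0) (p (nat_lit 0x10a898a08881a) (nat_lit 0) (p (nat_lit 0x8a090988079a) (nat_lit 0) (p (nat_lit 0x108088907871a) (nat_lit 0) (p (nat_lit 0x87880887069a) (nat_lit 0) (p (nat_lit 0x8000080000000088806860a) (nat_lit 0) (p (nat_lit 0x8000080000000068786058a) (nat_lit 0) (p (nat_lit 0x10687058502) (nat_lit 0) (p (nat_lit 0x8606850482) (nat_lit 0) (p (nat_lit 0x160004) (nat_lit 0) (p (nat_lit 0x68612) (nat_lit 0) (p (nat_lit 0x50592) (nat_lit 0) (p (nat_lit 0x40512) (nat_lit 0) (p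 (nat_lit 0x50312) (nat_lit 0) (p (nat_lit 0x38292) (nat_lit 0) (p (nat_lit 0x28212) (nat_lit 0) (p (nat_lit 0x38112) (nat_lit 0) (p (nat_lit 0x20092) (nat_lit 0) (p (nat_lit 0x10012) (nat_lit 0) pn)))))))))))))))))))))))))) :=
  Cl.node (nat_lit 0x380c2) (nat_lit 2) (by decide +kernel) (ClAll.succ (ClAll.succ ClAll.zero s1027) s1028)

def n646 : Cl (O (nat_lit 6)) (R (nat_lit 143633))
    (p (nat_lit 0x111) (nat_lit 0) (p (nat_lit 0x89) (nat_lit 0) (p (nat_lit 0x109) (nat_lit 1) (p (nat_lit 0x101) (nat_lit 0) (p (nat_lit 0x119) (nat_lit 0) (p (nat_lit 0xd1) (nat_lit 0) (p (nat_lit 0x81) (nat_lit 0) (p (nat_lit 0x41) (nat_lit 1) (p (nat_lit 0x10a898a08881a) (nat_lit 0) (p (nat_lit 0x8a090988079a) (nat_lit 0) (p (nat_lit 0x108088907871a) (nat_lit 0) (p (nat_lit 0x87880887069a) (nat_lit 0) (p (nat_lit 0x8000080000000088806860a) (nat_lit 0) (p (nat_lit 0x8000080000000068786058a)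 (nat_lit 0) (p (nat_lit 0x10687058502) (nat_lit 0) (p (nat_lit 0x8606850482) (nat_lit 0) (p (nat_lit 0x160004) (nat_lit 0) (p (nat_lit 0x68612) (nat_lit 0) (p (nat_lit 0x50592) (nat_lit 0) (p (nat_lit 0x40512) (nat_lit 0) (p (nat_lit 0x50312) (nat_lit 0) (p (nat_lit 0x38292) (nat_lit 0) (p (nat_lit 0x28212) (nat_lit 0) (p (nat_lit 0x38112) (nat_lit 0) (p (nat_lit 0x20092) (nat_lit 0) (p (nat_lit 0x10012) (nat_lit 0) pn)))))))))))))))))))))))))) :=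
  Cl.node (nat_lit 0x4c42a) (nat_lit 12) (by decide +kernel) (ClAll.succ (ClAll.succ (ClAll.succ (ClAll.succ (ClAll.succ (ClAll.succ (ClAll.succ (ClAll.succ (ClAll.succ (ClAll.succ (ClAll.succ (ClAll.succ ClAll.zero s1049) s1050) n577) s1067) s1068) s1069) s1070) s1071) n578) s1074) s1075) s1076)

def n647 : Cl (O (nat_lit 6)) (R (nat_lit 143633))
    (p (nat_lit 0x111) (nat_lit 1) (p (nat_lit 0x89) (nat_lit 0) (p (nat_lit 0x109) (nat_lit 1) (p (nat_lit 0x101) (nat_lit 0) (p (nat_lit 0x119) (nat_lit 0) (p (nat_lit 0xd1) (nat_lit 0) (p (nat_lit 0x81) (nat_lit 0) (p (nat_lit 0x41) (nat_lit 1) (p (nat_lit 0x10a898a08881a) (nat_lit 0) (p (nat_lit 0x8a090988079a) (nat_lit 0) (p (nat_lit 0x108088907871a) (nat_lit 0) (p (nat_lit 0x87880887069a) (nat_lit 0) (p (nat_lit 0x8000080000000088806860a) (nat_lit 0) (p (nat_lit 0x8000080000000068786058a) (nat_lit 0) (p (nat_lit 0x10687058502)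 (nat_lit 0) (p (nat_lit 0x8606850482) (nat_lit 0) (p (nat_lit 0x160004) (nat_lit 0) (p (nat_lit 0x68612) (nat_lit 0) (p (nat_lit 0x50592) (nat_lit 0) (p (nat_lit 0x40512) (nat_lit 0) (p (nat_lit 0x50312) (nat_lit 0) (p (nat_lit 0x38292) (nat_lit 0) (p (nat_lit 0x28212) (nat_lit 0) (p (nat_lit 0x38112) (nat_lit 0) (p (nat_lit 0x20092) (nat_lit 0) (p (nat_lit 0x10012) (nat_lit 0) pn)))))))))))))))))))))))))) :=
  Cl.node (nat_lit 0x3cc2a) (nat_lit 12) (by decide +kernel) (ClAll.succ (ClAll.succ (ClAll.succ (ClAll.succ (ClAll.succ (ClAll.succ (ClAll.succ (ClAll.succ (ClAll.succ (ClAll.succ (ClAll.succ (ClAll.succ ClAll.zero s1077) s1078) s1079) s1080) s1081) s1082) s1083) s1084) s1085) s1086) n579) n580)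

def n648 : Cl (O (nat_lit 6)) (R (nat_lit 143633))
    (p (nat_lit 0xc9) (nat_lit 0) (p (nat_lit 0x89) (nat_lit 1) (p (nat_lit 0x109) (nat_lit 1) (p (nat_lit 0x101) (nat_lit 0) (p (nat_lit 0x119) (nat_lit 0) (p (nat_lit 0xd1) (nat_lit 0) (p (nat_lit 0x81) (nat_lit 0) (p (nat_lit 0x41) (nat_lit 1) (p (nat_lit 0x10a898a08881a) (nat_lit 0) (p (nat_lit 0x8a090988079a) (nat_lit 0) (p (nat_lit 0x108088907871a) (nat_lit 0) (p (nat_lit 0x87880887069a) (nat_lit 0) (p (nat_lit 0x8000080000000088806860a) (nat_lit 0) (p (nat_lit 0x8000080000000068786058a) (nat_lit 0) (p (nat_lit 0x10687058502) (nat_lit 0) (p (nat_lit 0x8606850482) (nat_lit 0) (p (nat_lit 0x160004) (nat_lit 0) (p (nat_lit 0x68612) (nat_lit 0) (p (nat_lit 0x50592) (nat_lit 0) (p (nat_lit 0x40512) (nat_lit 0) (p (nat_lit 0x50312) (nat_lit 0) (p (nat_lit 0x38292) (nat_lit 0) (p (nat_lit 0x28212) (nat_lit 0) (p (nat_lit 0x38112)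 (nat_lit 0) (p (nat_lit 0x20092) (nat_lit 0) (p (nat_lit 0x10012) (nat_lit 0) pn)))))))))))))))))))))))))) :=
  Cl.node (nat_lit 0x4c42a) (nat_lit 12) (by decide +kernel) (ClAll.succ (ClAll.succ (ClAll.succ (ClAll.succ (ClAll.succ (ClAll.succ (ClAll.succ (ClAll.succ (ClAll.succ (ClAll.succ (ClAll.succ (ClAll.succ ClAll.zero s1095) s1096) n581) s1112) s1113) s1114) s1115) s1116) n582) s1121) s1122) s1123)

def n649 : Cl (O (nat_lit 6)) (R (nat_lit 143633))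
    (p (nat_lit 0x3cc2a) (nat_lit 11) (p (nat_lit 0x89) (nat_lit 0) (p (nat_lit 0xc1) (nat_lit 0) (p (nat_lit 0x101) (nat_lit 1) (p (nat_lit 0x119) (nat_lit 0) (p (nat_lit 0xd1) (nat_lit 0) (p (nat_lit 0x81) (nat_lit 0) (p (nat_lit 0x41) (nat_lit 1) (p (nat_lit 0x10a898a08881a) (nat_lit 0) (p (nat_lit 0x8a090988079a) (nat_lit 0) (p (nat_lit 0x108088907871a) (nat_lit 0) (p (nat_lit 0x87880887069a) (nat_lit 0) (p (nat_lit 0x8000080000000088806860a) (nat_lit 0) (p (nat_lit 0x8000080000000068786058a) (nat_lit 0) (p (nat_lit 0x10687058502) (nat_lit 0) (p (nat_lit 0x8606850482) (nat_lit 0) (p (nat_lit 0x160004) (nat_lit 0) (p (nat_lit 0x68612) (nat_lit 0) (p (nat_lit 0x50592) (nat_lit 0) (p (nat_lit 0x40512) (nat_lit 0) (p (nat_lit 0x50312) (nat_lit 0) (p (nat_lit 0x38292) (nat_lit 0) (p (nat_lit 0x28212) (nat_lit 0) (p (nat_lit 0x38112) (nat_lit 0) (p (nat_lit 0x20092) (nat_lit 0)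 (p (nat_lit 0x10012) (nat_lit 0) pn)))))))))))))))))))))))))) :=
  Cl.node (nat_lit 0x380c2) (nat_lit 2) (by decide +kernel) (ClAll.succ (ClAll.succ ClAll.zero n583) s1140)

def n650 : Cl (O (nat_lit 6)) (R (nat_lit 143633))
    (p (nat_lit 0xc9) (nat_lit 0) (p (nat_lit 0x89) (nat_lit 1) (p (nat_lit 0xc1) (nat_lit 0) (p (nat_lit 0x101) (nat_lit 1) (p (nat_lit 0x119) (nat_lit 0) (p (nat_lit 0xd1) (nat_lit 0) (p (nat_lit 0x81) (nat_lit 0) (p (nat_lit 0x41) (nat_lit 1) (p (nat_lit 0x10a898a08881a) (nat_lit 0) (p (nat_lit 0x8a090988079a) (nat_lit 0) (p (nat_lit 0x108088907871a) (nat_lit 0) (p (nat_lit 0x87880887069a) (nat_lit 0) (p (nat_lit 0x8000080000000088806860a) (nat_lit 0) (p (nat_lit 0x8000080000000068786058a) (nat_lit 0) (p (nat_lit 0x10687058502) (nat_lit 0) (p (nat_lit 0x8606850482) (nat_lit 0) (p (nat_lit 0x160004) (nat_lit 0) (p (nat_lit 0x68612) (nat_lit 0) (p (nat_lit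 0x50592) (nat_lit 0) (p (nat_lit 0x40512) (nat_lit 0) (p (nat_lit 0x50312) (nat_lit 0) (p (nat_lit 0x38292) (nat_lit 0) (p (nat_lit 0x28212) (nat_lit 0) (p (nat_lit 0x38112) (nat_lit 0) (p (nat_lit 0x20092) (nat_lit 0) (p (nat_lit 0x10012) (nat_lit 0) pn)))))))))))))))))))))))))) :=
  Cl.node (nat_lit 0x4c42a) (nat_lit 12) (by decide +kernel) (ClAll.succ (ClAll.succ (ClAll.succ (ClAll.succ (ClAll.succ (ClAll.succ (ClAll.succ (ClAll.succ (ClAll.succ (ClAll.succ (ClAll.succ (ClAll.succ ClAll.zero s1141) s1142) n584) s1159) s1160) s1161) s1162) s1163) n585) s1166) s1167) s1168)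

def n651 : Cl (O (nat_lit 6)) (R (nat_lit 143633))
    (p (nat_lit 0xc9) (nat_lit 1) (p (nat_lit 0x89) (nat_lit 1) (p (nat_lit 0xc1) (nat_lit 0) (p (nat_lit 0x101) (nat_lit 1) (p (nat_lit 0x119) (nat_lit 0) (p (nat_lit 0xd1) (nat_lit 0) (p (nat_lit 0x81) (nat_lit 0) (p (nat_lit 0x41) (nat_lit 1) (p (nat_lit 0x10a898a08881a) (nat_lit 0) (p (nat_lit 0x8a090988079a) (nat_lit 0) (p (nat_lit 0x108088907871a) (nat_lit 0) (p (nat_lit 0x87880887069a) (nat_lit 0) (p (nat_lit 0x8000080000000088806860a) (nat_lit 0) (p (nat_lit 0x8000080000000068786058a) (nat_lit 0) (p (nat_lit 0x10687058502) (nat_lit 0) (p (nat_lit 0x8606850482) (nat_lit 0) (p (nat_lit 0x160004) (nat_lit 0) (p (nat_lit 0x68612) (nat_lit 0) (p (nat_lit 0x50592) (nat_lit 0) (p (nat_lit 0x40512) (nat_lit 0) (p (nat_lit 0x50312) (nat_lit 0) (p (nat_lit 0x38292) (nat_lit 0) (p (nat_lit 0x28212) (nat_lit 0) (p (nat_lit 0x38112)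 (nat_lit 0) (p (nat_lit 0x20092) (nat_lit 0) (p (nat_lit 0x10012) (nat_lit 0) pn)))))))))))))))))))))))))) :=
  Cl.node (nat_lit 0x4c42a) (nat_lit 12) (by decide +kernel) (ClAll.succ (ClAll.succ (ClAll.succ (ClAll.succ (ClAll.succ (ClAll.succ (ClAll.succ (ClAll.succ (ClAll.succ (ClAll.succ (ClAll.succ (ClAll.succ ClAll.zero s1169) s1170) n586) s1184) s1185) s1186) s1187) s1188) s1189) s1190) s1191) s1192)

def n652 : Cl (O (nat_lit 6)) (R (nat_lit 143633))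
    (p (nat_lit 0x3c4aa) (nat_lit 7) (p (nat_lit 0x89) (nat_lit 1) (p (nat_lit 0xc1) (nat_lit 1) (p (nat_lit 0x101) (nat_lit 1) (p (nat_lit 0x119) (nat_lit 0) (p (nat_lit 0xd1) (nat_lit 0) (p (nat_lit 0x81) (nat_lit 0) (p (nat_lit 0x41) (nat_lit 1) (p (nat_lit 0x10a898a08881a) (nat_lit 0) (p (nat_lit 0x8a090988079a) (nat_lit 0) (p (nat_lit 0x108088907871a) (nat_lit 0) (p (nat_lit 0x87880887069a) (nat_lit 0) (p (nat_lit 0x8000080000000088806860a) (nat_lit 0) (p (nat_lit 0x8000080000000068786058a) (nat_lit 0) (p (nat_lit 0x10687058502) (nat_lit 0) (p (nat_lit 0x8606850482) (nat_lit 0) (p (nat_lit 0x160004) (nat_lit 0) (p (nat_lit 0x68612) (nat_lit 0) (p (nat_lit 0x50592) (nat_lit 0) (p (nat_lit 0x40512) (nat_lit 0) (p (nat_lit 0x50312) (nat_lit 0) (p (nat_lit 0x38292) (nat_lit 0) (p (nat_lit 0x28212) (nat_lit 0) (p (nat_lit 0x38112) (nat_lit 0) (p (nat_lit 0x20092) (nat_lit 0)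 (p (nat_lit 0x10012) (nat_lit 0) pn)))))))))))))))))))))))))) :=
  Cl.node (nat_lit 0x380c2) (nat_lit 2) (by decide +kernel) (ClAll.succ (ClAll.succ ClAll.zero n587) s1214)

def n653 : Cl (O (nat_lit 6)) (R (nat_lit 143633))
    (p (nat_lit 0x109) (nat_lit 0) (p (nat_lit 0x89) (nat_lit 1) (p (nat_lit 0xc9) (nat_lit 1) (p (nat_lit 0xc1) (nat_lit 0) (p (nat_lit 0x119) (nat_lit 1) (p (nat_lit 0xd1) (nat_lit 0) (p (nat_lit 0x81) (nat_lit 0) (p (nat_lit 0x41) (nat_lit 1) (p (nat_lit 0x10a898a08881a) (nat_lit 0) (p (nat_lit 0x8a090988079a) (nat_lit 0) (p (nat_lit 0x108088907871a) (nat_lit 0) (p (nat_lit 0x87880887069a) (nat_lit 0) (p (nat_lit 0x8000080000000088806860a) (nat_lit 0) (p (nat_lit 0x8000080000000068786058a) (nat_lit 0) (p (nat_lit 0x10687058502) (nat_lit 0) (p (nat_lit 0x8606850482) (nat_lit 0) (p (nat_lit 0x160004) (nat_lit 0) (p (nat_lit 0x68612) (nat_lit 0) (p (nat_lit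 0x50592) (nat_lit 0) (p (nat_lit 0x40512) (nat_lit 0) (p (nat_lit 0x50312) (nat_lit 0) (p (nat_lit 0x38292) (nat_lit 0) (p (nat_lit 0x28212) (nat_lit 0) (p (nat_lit 0x38112) (nat_lit 0) (p (nat_lit 0x20092) (nat_lit 0) (p (nat_lit 0x10012) (nat_lit 0) pn)))))))))))))))))))))))))) :=
  Cl.node (nat_lit 0x44c2a) (nat_lit 12) (by decide +kernel) (ClAll.succ (ClAll.succ (ClAll.succ (ClAll.succ (ClAll.succ (ClAll.succ (ClAll.succ (ClAll.succ (ClAll.succ (ClAll.succ (ClAll.succ (ClAll.succ ClAll.zero n588) n589) s1227) s1228) s1229) s1230) s1231) s1232) s1233) s1234) s1235) s1236)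

def n654 : Cl (O (nat_lit 6)) (R (nat_lit 143633))
    (p (nat_lit 0x109) (nat_lit 1) (p (nat_lit 0x89) (nat_lit 1) (p (nat_lit 0xc9) (nat_lit 1) (p (nat_lit 0xc1) (nat_lit 0) (p (nat_lit 0x119) (nat_lit 1) (p (nat_lit 0xd1) (nat_lit 0) (p (nat_lit 0x81) (nat_lit 0) (p (nat_lit 0x41) (nat_lit 1) (p (nat_lit 0x10a898a08881a) (nat_lit 0) (p (nat_lit 0x8a090988079a) (nat_lit 0) (p (nat_lit 0x108088907871a) (nat_lit 0) (p (nat_lit 0x87880887069a) (nat_lit 0) (p (nat_lit 0x8000080000000088806860a) (nat_lit 0) (p (nat_lit 0x8000080000000068786058a) (nat_lit 0) (p (nat_lit 0x10687058502) (nat_lit 0) (p (nat_lit 0x8606850482) (nat_lit 0) (p (nat_lit 0x160004) (nat_lit 0) (p (nat_lit 0x68612) (nat_lit 0) (p (nat_lit 0x50592) (nat_lit 0) (p (nat_lit 0x40512) (nat_lit 0) (p (nat_lit 0x50312) (nat_lit 0) (p (nat_lit 0x38292) (nat_lit 0) (p (nat_lit 0x28212) (nat_lit 0) (p (nat_lit 0x38112)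 (nat_lit 0) (p (nat_lit 0x20092) (nat_lit 0) (p (nat_lit 0x10012) (nat_lit 0) pn)))))))))))))))))))))))))) :=
  Cl.node (nat_lit 0x3c4aa) (nat_lit 12) (by decide +kernel) (ClAll.succ (ClAll.succ (ClAll.succ (ClAll.succ (ClAll.succ (ClAll.succ (ClAll.succ (ClAll.succ (ClAll.succ (ClAll.succ (ClAll.succ (ClAll.succ ClAll.zero s1237) s1238) s1239) s1240) s1241) s1242) s1243) s1244) s1245) s1246) n590) s1250)

def n655 : Cl (O (nat_lit 6)) (R (nat_lit 143633))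
    (p (nat_lit 0x109) (nat_lit 0) (p (nat_lit 0x89) (nat_lit 1) (p (nat_lit 0x101) (nat_lit 0) (p (nat_lit 0xc1) (nat_lit 1) (p (nat_lit 0x119) (nat_lit 1) (p (nat_lit 0xd1) (nat_lit 0) (p (nat_lit 0x81) (nat_lit 0) (p (nat_lit 0x41) (nat_lit 1) (p (nat_lit 0x10a898a08881a) (nat_lit 0) (p (nat_lit 0x8a090988079a) (nat_lit 0) (p (nat_lit 0x108088907871a) (nat_lit 0) (p (nat_lit 0x87880887069a) (nat_lit 0) (p (nat_lit 0x8000080000000088806860a) (nat_lit 0) (p (nat_lit 0x8000080000000068786058a) (nat_lit 0) (p (nat_lit 0x10687058502) (nat_lit 0) (p (nat_lit 0x8606850482) (nat_lit 0) (p (nat_lit 0x160004) (nat_lit 0) (p (nat_lit 0x68612) (nat_lit 0) (p (nat_lit 0x50592) (nat_lit 0) (p (nat_lit 0x40512) (nat_lit 0) (p (nat_lit 0x50312) (nat_lit 0) (p (nat_lit 0x38292) (nat_lit 0) (p (nat_lit 0x28212) (nat_lit 0) (p (nat_lit 0x38112) (nat_lit 0) (p (nat_lit 0x20092) (nat_lit 0) (p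 (nat_lit 0x10012) (nat_lit 0) pn)))))))))))))))))))))))))) :=
  Cl.node (nat_lit 0x44c2a) (nat_lit 12) (by decide +kernel) (ClAll.succ (ClAll.succ (ClAll.succ (ClAll.succ (ClAll.succ (ClAll.succ (ClAll.succ (ClAll.succ (ClAll.succ (ClAll.succ (ClAll.succ (ClAll.succ ClAll.zero n591) n592) s1267) s1268) s1269) s1270) s1271) s1272) s1273) s1274) s1275) s1276)

def n656 : Cl (O (nat_lit 6)) (R (nat_lit 143633))
    (p (nat_lit 0x109) (nat_lit 1) (p (nat_lit 0x89) (nat_lit 1) (p (nat_lit 0x101) (nat_lit 0) (p (nat_lit 0xc1) (nat_lit 1) (p (nat_lit 0x119) (nat_lit 1) (p (nat_lit 0xd1) (nat_lit 0) (p (nat_lit 0x81) (nat_lit 0) (p (nat_lit 0x41) (nat_lit 1) (p (nat_lit 0x10a898a08881a) (nat_lit 0) (p (nat_lit 0x8a090988079a) (nat_lit 0) (p (nat_lit 0x108088907871a) (nat_lit 0) (p (nat_lit 0x87880887069a) (nat_lit 0) (p (nat_lit 0x8000080000000088806860a) (nat_lit 0) (p (nat_lit 0x8000080000000068786058a)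 (nat_lit 0) (p (nat_lit 0x10687058502) (nat_lit 0) (p (nat_lit 0x8606850482) (nat_lit 0) (p (nat_lit 0x160004) (nat_lit 0) (p (nat_lit 0x68612) (nat_lit 0) (p (nat_lit 0x50592) (nat_lit 0) (p (nat_lit 0x40512) (nat_lit 0) (p (nat_lit 0x50312) (nat_lit 0) (p (nat_lit 0x38292) (nat_lit 0) (p (nat_lit 0x28212) (nat_lit 0) (p (nat_lit 0x38112) (nat_lit 0) (p (nat_lit 0x20092) (nat_lit 0) (p (nat_lit 0x10012) (nat_lit 0) pn)))))))))))))))))))))))))) :=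
  Cl.node (nat_lit 0x3c4aa) (nat_lit 12) (by decide +kernel) (ClAll.succ (ClAll.succ (ClAll.succ (ClAll.succ (ClAll.succ (ClAll.succ (ClAll.succ (ClAll.succ (ClAll.succ (ClAll.succ (ClAll.succ (ClAll.succ ClAll.zero s1277) s1278) s1279) s1280) s1281) s1282) s1283) n593) s1293) s1294) n594) s1298)

def n657 : Cl (O (nat_lit 6)) (R (nat_lit 143633))
    (p (nat_lit 0x3cc2a) (nat_lit 11) (p (nat_lit 0x89) (nat_lit 0) (p (nat_lit 0x101) (nat_lit 1) (p (nat_lit 0xc1) (nat_lit 1) (p (nat_lit 0x119) (nat_lit 1) (p (nat_lit 0xd1) (nat_lit 0) (p (nat_lit 0x81) (nat_lit 0) (p (nat_lit 0x41) (nat_lit 1) (p (nat_lit 0x10a898a08881a) (nat_lit 0) (p (nat_lit 0x8a090988079a) (nat_lit 0) (p (nat_lit 0x108088907871a) (nat_lit 0) (p (nat_lit 0x87880887069a) (nat_lit 0) (p (nat_lit 0x8000080000000088806860a) (nat_lit 0) (p (nat_lit 0x8000080000000068786058a) (nat_lit 0) (p (nat_lit 0x10687058502)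 (nat_lit 0) (p (nat_lit 0x8606850482) (nat_lit 0) (p (nat_lit 0x160004) (nat_lit 0) (p (nat_lit 0x68612) (nat_lit 0) (p (nat_lit 0x50592) (nat_lit 0) (p (nat_lit 0x40512) (nat_lit 0) (p (nat_lit 0x50312) (nat_lit 0) (p (nat_lit 0x38292) (nat_lit 0) (p (nat_lit 0x28212) (nat_lit 0) (p (nat_lit 0x38112) (nat_lit 0) (p (nat_lit 0x20092) (nat_lit 0) (p (nat_lit 0x10012) (nat_lit 0) pn)))))))))))))))))))))))))) :=
  Cl.node (nat_lit 0x380c2) (nat_lit 2) (by decide +kernel) (ClAll.succ (ClAll.succ ClAll.zero n595) s1315)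

def n658 : Cl (O (nat_lit 6)) (R (nat_lit 143633))
    (p (nat_lit 0x3c4aa) (nat_lit 7) (p (nat_lit 0x89) (nat_lit 1) (p (nat_lit 0x101) (nat_lit 1) (p (nat_lit 0xc1) (nat_lit 1) (p (nat_lit 0x119) (nat_lit 1) (p (nat_lit 0xd1) (nat_lit 0) (p (nat_lit 0x81) (nat_lit 0) (p (nat_lit 0x41) (nat_lit 1) (p (nat_lit 0x10a898a08881a) (nat_lit 0) (p (nat_lit 0x8a090988079a) (nat_lit 0) (p (nat_lit 0x108088907871a) (nat_lit 0) (p (nat_lit 0x87880887069a) (nat_lit 0) (p (nat_lit 0x8000080000000088806860a) (nat_lit 0) (p (nat_lit 0x8000080000000068786058a) (nat_lit 0) (p (nat_lit 0x10687058502) (nat_lit 0) (p (nat_lit 0x8606850482) (nat_lit 0) (p (nat_lit 0x160004) (nat_lit 0) (p (nat_lit 0x68612) (nat_lit 0) (p (nat_lit 0x50592) (nat_lit 0) (p (nat_lit 0x40512) (nat_lit 0) (p (nat_lit 0x50312) (nat_lit 0) (p (nat_lit 0x38292) (nat_lit 0) (p (nat_lit 0x28212) (nat_lit 0) (p (nat_lit 0x38112)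 (nat_lit 0) (p (nat_lit 0x20092) (nat_lit 0) (p (nat_lit 0x10012) (nat_lit 0) pn)))))))))))))))))))))))))) :=
  Cl.node (nat_lit 0x380c2) (nat_lit 2) (by decide +kernel) (ClAll.succ (ClAll.succ ClAll.zero n596) n597)

def n659 : Cl (O (nat_lit 6)) (R (nat_lit 143633))
    (p (nat_lit 0x119) (nat_lit 1) (p (nat_lit 0x89) (nat_lit 0) (p (nat_lit 0x109) (nat_lit 1) (p (nat_lit 0x101) (nat_lit 0) (p (nat_lit 0x111) (nat_lit 0) (p (nat_lit 0xd1) (nat_lit 1) (p (nat_lit 0x81) (nat_lit 0) (p (nat_lit 0x41) (nat_lit 1) (p (nat_lit 0x10a898a08881a) (nat_lit 0) (p (nat_lit 0x8a090988079a) (nat_lit 0) (p (nat_lit 0x108088907871a) (nat_lit 0) (p (nat_lit 0x87880887069a) (nat_lit 0) (p (nat_lit 0x8000080000000088806860a) (nat_lit 0) (p (nat_lit 0x8000080000000068786058a) (nat_lit 0) (p (nat_lit 0x10687058502) (nat_lit 0) (p (nat_lit 0x8606850482) (nat_lit 0) (p (nat_lit 0x160004) (nat_lit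 0) (p (nat_lit 0x68612) (nat_lit 0) (p (nat_lit 0x50592) (nat_lit 0) (p (nat_lit 0x40512) (nat_lit 0) (p (nat_lit 0x50312) (nat_lit 0) (p (nat_lit 0x38292) (nat_lit 0) (p (nat_lit 0x28212) (nat_lit 0) (p (nat_lit 0x38112) (nat_lit 0) (p (nat_lit 0x20092) (nat_lit 0) (p (nat_lit 0x10012) (nat_lit 0) pn)))))))))))))))))))))))))) :=
  Cl.node (nat_lit 0x4c42a) (nat_lit 12) (by decide +kernel) (ClAll.succ (ClAll.succ (ClAll.succ (ClAll.succ (ClAll.succ (ClAll.succ (ClAll.succ (ClAll.succ (ClAll.succ (ClAll.succ (ClAll.succ (ClAll.succ ClAll.zero s1357) s1358) n598) s1362) s1363) s1364) s1365) s1366) s1367) s1368) s1369) s1370)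

def n660 : Cl (O (nat_lit 6)) (R (nat_lit 143633))
    (p (nat_lit 0xc9) (nat_lit 0) (p (nat_lit 0x89) (nat_lit 1) (p (nat_lit 0x109) (nat_lit 1) (p (nat_lit 0x101) (nat_lit 0) (p (nat_lit 0x111) (nat_lit 0) (p (nat_lit 0xd1) (nat_lit 1) (p (nat_lit 0x81) (nat_lit 0) (p (nat_lit 0x41) (nat_lit 1) (p (nat_lit 0x10a898a08881a) (nat_lit 0) (p (nat_lit 0x8a090988079a) (nat_lit 0) (p (nat_lit 0x108088907871a) (nat_lit 0) (p (nat_lit 0x87880887069a) (nat_lit 0) (p (nat_lit 0x8000080000000088806860a) (nat_lit 0) (p (nat_lit 0x8000080000000068786058a) (nat_lit 0) (p (nat_lit 0x10687058502) (nat_lit 0) (p (nat_lit 0x8606850482) (nat_lit 0) (p (nat_lit 0x160004) (nat_lit 0) (p (nat_lit 0x68612) (nat_lit 0) (p (nat_lit 0x50592) (nat_lit 0) (p (nat_lit 0x40512) (nat_lit 0) (p (nat_lit 0x50312) (nat_lit 0) (p (nat_lit 0x38292) (nat_lit 0) (p (nat_lit 0x28212) (nat_lit 0) (p (nat_lit 0x38112)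 (nat_lit 0) (p (nat_lit 0x20092) (nat_lit 0) (p (nat_lit 0x10012) (nat_lit 0) pn)))))))))))))))))))))))))) :=
  Cl.node (nat_lit 0x119) (nat_lit 2) (by decide +kernel) (ClAll.succ (ClAll.succ ClAll.zero n599) n600)

def n661 : Cl (O (nat_lit 6)) (R (nat_lit 143633))
    (p (nat_lit 0x380c2) (nat_lit 0) (p (nat_lit 0x3cc2a) (nat_lit 1) (p (nat_lit 0x89) (nat_lit 0) (p (nat_lit 0x101) (nat_lit 1) (p (nat_lit 0x111) (nat_lit 0) (p (nat_lit 0xd1) (nat_lit 1) (p (nat_lit 0x81) (nat_lit 0) (p (nat_lit 0x41) (nat_lit 1) (p (nat_lit 0x10a898a08881a) (nat_lit 0) (p (nat_lit 0x8a090988079a) (nat_lit 0) (p (nat_lit 0x108088907871a) (nat_lit 0) (p (nat_lit 0x87880887069a) (nat_lit 0) (p (nat_lit 0x8000080000000088806860a) (nat_lit 0) (p (nat_lit 0x8000080000000068786058a) (nat_lit 0) (p (nat_lit 0x10687058502) (nat_lit 0) (p (nat_lit 0x8606850482) (nat_lit 0) (p (nat_lit 0x160004) (nat_lit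 0) (p (nat_lit 0x68612) (nat_lit 0) (p (nat_lit 0x50592) (nat_lit 0) (p (nat_lit 0x40512) (nat_lit 0) (p (nat_lit 0x50312) (nat_lit 0) (p (nat_lit 0x38292) (nat_lit 0) (p (nat_lit 0x28212) (nat_lit 0) (p (nat_lit 0x38112) (nat_lit 0) (p (nat_lit 0x20092) (nat_lit 0) (p (nat_lit 0x10012) (nat_lit 0) pn)))))))))))))))))))))))))) :=
  Cl.node (nat_lit 0x81) (nat_lit 2) (by decide +kernel) (ClAll.succ (ClAll.succ ClAll.zero s1423) s1424)

def n662 : Cl (O (nat_lit 6)) (R (nat_lit 143633))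
    (p (nat_lit 0x3cc2a) (nat_lit 11) (p (nat_lit 0xc9) (nat_lit 0) (p (nat_lit 0x89) (nat_lit 1) (p (nat_lit 0x101) (nat_lit 1) (p (nat_lit 0x111) (nat_lit 0) (p (nat_lit 0xd1) (nat_lit 1) (p (nat_lit 0x81) (nat_lit 0) (p (nat_lit 0x41) (nat_lit 1) (p (nat_lit 0x10a898a08881a) (nat_lit 0) (p (nat_lit 0x8a090988079a) (nat_lit 0) (p (nat_lit 0x108088907871a) (nat_lit 0) (p (nat_lit 0x87880887069a) (nat_lit 0) (p (nat_lit 0x8000080000000088806860a) (nat_lit 0) (p (nat_lit 0x8000080000000068786058a) (nat_lit 0) (p (nat_lit 0x10687058502) (nat_lit 0) (p (nat_lit 0x8606850482) (nat_lit 0) (p (nat_lit 0x160004) (nat_lit 0) (p (nat_lit 0x68612) (nat_lit 0) (p (nat_lit 0x50592) (nat_lit 0) (p (nat_lit 0x40512) (nat_lit 0) (p (nat_lit 0x50312) (nat_lit 0) (p (nat_lit 0x38292) (nat_lit 0) (p (nat_lit 0x28212) (nat_lit 0) (p (nat_lit 0x38112) (nat_lit 0) (p (nat_lit 0x20092) (nat_lit 0)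 (p (nat_lit 0x10012) (nat_lit 0) pn)))))))))))))))))))))))))) :=
  Cl.node (nat_lit 0x380c2) (nat_lit 2) (by decide +kernel) (ClAll.succ (ClAll.succ ClAll.zero n601) s1452)

def n663 : Cl (O (nat_lit 6)) (R (nat_lit 143633))
    (p (nat_lit 0xd1) (nat_lit 1) (p (nat_lit 0x111) (nat_lit 1) (p (nat_lit 0x109) (nat_lit 0) (p (nat_lit 0x101) (nat_lit 0) (p (nat_lit 0x119) (nat_lit 0) (p (nat_lit 0xc1) (nat_lit 0) (p (nat_lit 0x81) (nat_lit 1) (p (nat_lit 0x41) (nat_lit 1) (p (nat_lit 0x10a898a08881a) (nat_lit 0) (p (nat_lit 0x8a090988079a) (nat_lit 0) (p (nat_lit 0x108088907871a) (nat_lit 0) (p (nat_lit 0x87880887069a) (nat_lit 0) (p (nat_lit 0x8000080000000088806860a) (nat_lit 0) (p (nat_lit 0x8000080000000068786058a) (nat_lit 0) (p (nat_lit 0x10687058502) (nat_lit 0) (p (nat_lit 0x8606850482) (nat_lit 0) (p (nat_lit 0x160004) (nat_lit 0) (p (nat_lit 0x68612) (nat_lit 0) (p (nat_lit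 0x50592) (nat_lit 0) (p (nat_lit 0x40512) (nat_lit 0) (p (nat_lit 0x50312) (nat_lit 0) (p (nat_lit 0x38292) (nat_lit 0) (p (nat_lit 0x28212) (nat_lit 0) (p (nat_lit 0x38112) (nat_lit 0) (p (nat_lit 0x20092) (nat_lit 0) (p (nat_lit 0x10012) (nat_lit 0) pn)))))))))))))))))))))))))) :=
  Cl.node (nat_lit 0x3c4aa) (nat_lit 12) (by decide +kernel) (ClAll.succ (ClAll.succ (ClAll.succ (ClAll.succ (ClAll.succ (ClAll.succ (ClAll.succ (ClAll.succ (ClAll.succ (ClAll.succ (ClAll.succ (ClAll.succ ClAll.zero s1482) s1483) s1484) s1485) s1486) s1487) s1488) n602) s1562) s1563) s1564) s1565)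

def n664 : Cl (O (nat_lit 6)) (R (nat_lit 143633))
    (p (nat_lit 0xd1) (nat_lit 1) (p (nat_lit 0xc9) (nat_lit 0) (p (nat_lit 0x109) (nat_lit 1) (p (nat_lit 0x101) (nat_lit 0) (p (nat_lit 0x119) (nat_lit 0) (p (nat_lit 0xc1) (nat_lit 0) (p (nat_lit 0x81) (nat_lit 1) (p (nat_lit 0x41) (nat_lit 1) (p (nat_lit 0x10a898a08881a) (nat_lit 0) (p (nat_lit 0x8a090988079a) (nat_lit 0) (p (nat_lit 0x108088907871a) (nat_lit 0) (p (nat_lit 0x87880887069a) (nat_lit 0) (p (nat_lit 0x8000080000000088806860a) (nat_lit 0) (p (nat_lit 0x8000080000000068786058a) (nat_lit 0) (p (nat_lit 0x10687058502) (nat_lit 0) (p (nat_lit 0x8606850482) (nat_lit 0) (p (nat_lit 0x160004) (nat_lit 0) (p (nat_lit 0x68612) (nat_lit 0) (p (nat_lit 0x50592) (nat_lit 0) (p (nat_lit 0x40512) (nat_lit 0) (p (nat_lit 0x50312) (nat_lit 0) (p (nat_lit 0x38292) (nat_lit 0) (p (nat_lit 0x28212) (nat_lit 0) (p (nat_lit 0x38112)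 (nat_lit 0) (p (nat_lit 0x20092) (nat_lit 0) (p (nat_lit 0x10012) (nat_lit 0) pn)))))))))))))))))))))))))) :=
  Cl.node (nat_lit 0x3c4aa) (nat_lit 12) (by decide +kernel) (ClAll.succ (ClAll.succ (ClAll.succ (ClAll.succ (ClAll.succ (ClAll.succ (ClAll.succ (ClAll.succ (ClAll.succ (ClAll.succ (ClAll.succ (ClAll.succ ClAll.zero s1567) s1568) s1569) s1570) s1571) s1572) s1573) n603) s1606) s1607) s1608) s1609)

def n665 : Cl (O (nat_lit 6)) (R (nat_lit 143633))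
    (p (nat_lit 0x44c2a) (nat_lit 0) (p (nat_lit 0xd1) (nat_lit 0) (p (nat_lit 0xc9) (nat_lit 0) (p (nat_lit 0x101) (nat_lit 1) (p (nat_lit 0x119) (nat_lit 0) (p (nat_lit 0xc1) (nat_lit 0) (p (nat_lit 0x81) (nat_lit 1) (p (nat_lit 0x41) (nat_lit 1) (p (nat_lit 0x10a898a08881a) (nat_lit 0) (p (nat_lit 0x8a090988079a) (nat_lit 0) (p (nat_lit 0x108088907871a) (nat_lit 0) (p (nat_lit 0x87880887069a) (nat_lit 0) (p (nat_lit 0x8000080000000088806860a) (nat_lit 0) (p (nat_lit 0x8000080000000068786058a) (nat_lit 0) (p (nat_lit 0x10687058502) (nat_lit 0) (p (nat_lit 0x8606850482) (nat_lit 0) (p (nat_lit 0x160004) (nat_lit 0) (p (nat_lit 0x68612) (nat_lit 0) (p (nat_lit 0x50592) (nat_lit 0) (p (nat_lit 0x40512) (nat_lit 0) (p (nat_lit 0x50312) (nat_lit 0) (p (nat_lit 0x38292) (nat_lit 0) (p (nat_lit 0x28212) (nat_lit 0) (p (nat_lit 0x38112) (nat_lit 0) (p (nat_lit 0x20092) (nat_lit 0)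 (p (nat_lit 0x10012) (nat_lit 0) pn)))))))))))))))))))))))))) :=
  Cl.node (nat_lit 0x380c2) (nat_lit 2) (by decide +kernel) (ClAll.succ (ClAll.succ ClAll.zero n604) n605)

def n666 : Cl (O (nat_lit 6)) (R (nat_lit 143633))
    (p (nat_lit 0x44c2a) (nat_lit 1) (p (nat_lit 0xd1) (nat_lit 0) (p (nat_lit 0xc9) (nat_lit 0) (p (nat_lit 0x101) (nat_lit 1) (p (nat_lit 0x119) (nat_lit 0) (p (nat_lit 0xc1) (nat_lit 0) (p (nat_lit 0x81) (nat_lit 1) (p (nat_lit 0x41) (nat_lit 1) (p (nat_lit 0x10a898a08881a) (nat_lit 0) (p (nat_lit 0x8a090988079a) (nat_lit 0) (p (nat_lit 0x108088907871a) (nat_lit 0) (p (nat_lit 0x87880887069a) (nat_lit 0) (p (nat_lit 0x8000080000000088806860a) (nat_lit 0) (p (nat_lit 0x8000080000000068786058a) (nat_lit 0) (p (nat_lit 0x10687058502) (nat_lit 0) (p (nat_lit 0x8606850482) (nat_lit 0) (p (nat_lit 0x160004) (nat_lit 0) (p (nat_lit 0x68612) (nat_lit 0) (p (nat_lit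 0x50592) (nat_lit 0) (p (nat_lit 0x40512) (nat_lit 0) (p (nat_lit 0x50312) (nat_lit 0) (p (nat_lit 0x38292) (nat_lit 0) (p (nat_lit 0x28212) (nat_lit 0) (p (nat_lit 0x38112) (nat_lit 0) (p (nat_lit 0x20092) (nat_lit 0) (p (nat_lit 0x10012) (nat_lit 0) pn)))))))))))))))))))))))))) :=
  Cl.node (nat_lit 0x380c2) (nat_lit 1) (by decide +kernel) (ClAll.succ ClAll.zero n606)

def n667 : Cl (O (nat_lit 6)) (R (nat_lit 143633))
    (p (nat_lit 0x3c4aa) (nat_lit 7) (p (nat_lit 0xd1) (nat_lit 1) (p (nat_lit 0xc9) (nat_lit 0) (p (nat_lit 0x101) (nat_lit 1) (p (nat_lit 0x119) (nat_lit 0) (p (nat_lit 0xc1) (nat_lit 0) (p (nat_lit 0x81) (nat_lit 1) (p (nat_lit 0x41) (nat_lit 1) (p (nat_lit 0x10a898a08881a) (nat_lit 0) (p (nat_lit 0x8a090988079a) (nat_lit 0) (p (nat_lit 0x108088907871a) (nat_lit 0) (p (nat_lit 0x87880887069a) (nat_lit 0) (p (nat_lit 0x8000080000000088806860a) (nat_lit 0) (p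 (nat_lit 0x8000080000000068786058a) (nat_lit 0) (p (nat_lit 0x10687058502) (nat_lit 0) (p (nat_lit 0x8606850482) (nat_lit 0) (p (nat_lit 0x160004) (nat_lit 0) (p (nat_lit 0x68612) (nat_lit 0) (p (nat_lit 0x50592) (nat_lit 0) (p (nat_lit 0x40512) (nat_lit 0) (p (nat_lit 0x50312) (nat_lit 0) (p (nat_lit 0x38292) (nat_lit 0) (p (nat_lit 0x28212) (nat_lit 0) (p (nat_lit 0x38112) (nat_lit 0) (p (nat_lit 0x20092) (nat_lit 0) (p (nat_lit 0x10012) (nat_lit 0) pn)))))))))))))))))))))))))) :=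
  Cl.node (nat_lit 0x380c2) (nat_lit 2) (by decide +kernel) (ClAll.succ (ClAll.succ ClAll.zero n607) n608)

def n668 : Cl (O (nat_lit 6)) (R (nat_lit 143633))
    (p (nat_lit 0x3c4aa) (nat_lit 7) (p (nat_lit 0x111) (nat_lit 1) (p (nat_lit 0xd1) (nat_lit 1) (p (nat_lit 0xc9) (nat_lit 0) (p (nat_lit 0x119) (nat_lit 1) (p (nat_lit 0xc1) (nat_lit 0) (p (nat_lit 0x81) (nat_lit 1) (p (nat_lit 0x41) (nat_lit 1) (p (nat_lit 0x10a898a08881a) (nat_lit 0) (p (nat_lit 0x8a090988079a) (nat_lit 0) (p (nat_lit 0x108088907871a) (nat_lit 0) (p (nat_lit 0x87880887069a) (nat_lit 0) (p (nat_lit 0x8000080000000088806860a) (nat_lit 0) (p (nat_lit 0x8000080000000068786058a) (nat_lit 0) (p (nat_lit 0x10687058502) (nat_lit 0) (p (nat_lit 0x8606850482) (nat_lit 0) (p (nat_lit 0x160004) (nat_lit 0) (p (nat_lit 0x68612) (nat_lit 0) (p (nat_lit 0x50592) (nat_lit 0) (p (nat_lit 0x40512) (nat_lit 0) (p (nat_lit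 0x50312) (nat_lit 0) (p (nat_lit 0x38292) (nat_lit 0) (p (nat_lit 0x28212) (nat_lit 0) (p (nat_lit 0x38112) (nat_lit 0) (p (nat_lit 0x20092) (nat_lit 0) (p (nat_lit 0x10012) (nat_lit 0) pn)))))))))))))))))))))))))) :=
  Cl.node (nat_lit 0x380c2) (nat_lit 2) (by decide +kernel) (ClAll.succ (ClAll.succ ClAll.zero n609) n610)

def n669 : Cl (O (nat_lit 6)) (R (nat_lit 143633))
    (p (nat_lit 0x44c2a) (nat_lit 1) (p (nat_lit 0x111) (nat_lit 0) (p (nat_lit 0x109) (nat_lit 0) (p (nat_lit 0xc9) (nat_lit 1) (p (nat_lit 0x119) (nat_lit 1) (p (nat_lit 0xc1) (nat_lit 0) (p (nat_lit 0x81) (nat_lit 1) (p (nat_lit 0x41) (nat_lit 1) (p (nat_lit 0x10a898a08881a) (nat_lit 0) (p (nat_lit 0x8a090988079a) (nat_lit 0) (p (nat_lit 0x108088907871a) (nat_lit 0) (p (nat_lit 0x87880887069a) (nat_lit 0) (p (nat_lit 0x8000080000000088806860a) (nat_lit 0) (p (nat_lit 0x8000080000000068786058a) (nat_lit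 0) (p (nat_lit 0x10687058502) (nat_lit 0) (p (nat_lit 0x8606850482) (nat_lit 0) (p (nat_lit 0x160004) (nat_lit 0) (p (nat_lit 0x68612) (nat_lit 0) (p (nat_lit 0x50592) (nat_lit 0) (p (nat_lit 0x40512) (nat_lit 0) (p (nat_lit 0x50312) (nat_lit 0) (p (nat_lit 0x38292) (nat_lit 0) (p (nat_lit 0x28212) (nat_lit 0) (p (nat_lit 0x38112) (nat_lit 0) (p (nat_lit 0x20092) (nat_lit 0) (p (nat_lit 0x10012) (nat_lit 0) pn)))))))))))))))))))))))))) :=
  Cl.node (nat_lit 0x380c2) (nat_lit 1) (by decide +kernel) (ClAll.succ ClAll.zero n611)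

def n670 : Cl (O (nat_lit 6)) (R (nat_lit 143633))
    (p (nat_lit 0x3c4aa) (nat_lit 7) (p (nat_lit 0x111) (nat_lit 1) (p (nat_lit 0x109) (nat_lit 0) (p (nat_lit 0xc9) (nat_lit 1) (p (nat_lit 0x119) (nat_lit 1) (p (nat_lit 0xc1) (nat_lit 0) (p (nat_lit 0x81) (nat_lit 1) (p (nat_lit 0x41) (nat_lit 1) (p (nat_lit 0x10a898a08881a) (nat_lit 0) (p (nat_lit 0x8a090988079a) (nat_lit 0) (p (nat_lit 0x108088907871a) (nat_lit 0) (p (nat_lit 0x87880887069a) (nat_lit 0) (p (nat_lit 0x8000080000000088806860a) (nat_lit 0) (p (nat_lit 0x8000080000000068786058a) (nat_lit 0) (p (nat_lit 0x10687058502) (nat_lit 0) (p (nat_lit 0x8606850482) (nat_lit 0) (p (nat_lit 0x160004) (nat_lit 0) (p (nat_lit 0x68612) (nat_lit 0) (p (nat_lit 0x50592) (nat_lit 0) (p (nat_lit 0x40512) (nat_lit 0) (p (nat_lit 0x50312) (nat_lit 0) (p (nat_lit 0x38292) (nat_lit 0) (p (nat_lit 0x28212) (nat_lit 0) (p (nat_lit 0x38112)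 (nat_lit 0) (p (nat_lit 0x20092) (nat_lit 0) (p (nat_lit 0x10012) (nat_lit 0) pn)))))))))))))))))))))))))) :=
  Cl.node (nat_lit 0x380c2) (nat_lit 2) (by decide +kernel) (ClAll.succ (ClAll.succ ClAll.zero n612) n613)

def n671 : Cl (O (nat_lit 6)) (R (nat_lit 143633))
    (p (nat_lit 0x380c2) (nat_lit 0) (p (nat_lit 0x3c4aa) (nat_lit 10) (p (nat_lit 0x109) (nat_lit 1) (p (nat_lit 0xc9) (nat_lit 1) (p (nat_lit 0x119) (nat_lit 1) (p (nat_lit 0xc1) (nat_lit 0) (p (nat_lit 0x81) (nat_lit 1) (p (nat_lit 0x41) (nat_lit 1) (p (nat_lit 0x10a898a08881a) (nat_lit 0) (p (nat_lit 0x8a090988079a) (nat_lit 0) (p (nat_lit 0x108088907871a) (nat_lit 0) (p (nat_lit 0x87880887069a) (nat_lit 0) (p (nat_lit 0x8000080000000088806860a) (nat_lit 0) (p (nat_lit 0x8000080000000068786058a) (nat_lit 0) (p (nat_lit 0x10687058502) (nat_lit 0) (p (nat_lit 0x8606850482) (nat_lit 0) (p (nat_lit 0x160004) (nat_lit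 0) (p (nat_lit 0x68612) (nat_lit 0) (p (nat_lit 0x50592) (nat_lit 0) (p (nat_lit 0x40512) (nat_lit 0) (p (nat_lit 0x50312) (nat_lit 0) (p (nat_lit 0x38292) (nat_lit 0) (p (nat_lit 0x28212) (nat_lit 0) (p (nat_lit 0x38112) (nat_lit 0) (p (nat_lit 0x20092) (nat_lit 0) (p (nat_lit 0x10012) (nat_lit 0) pn)))))))))))))))))))))))))) :=
  Cl.node (nat_lit 0x200014) (nat_lit 2) (by decide +kernel) (ClAll.succ (ClAll.succ ClAll.zero n614) s1769)

def n672 : Cl (O (nat_lit 6)) (R (nat_lit 143633))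
    (p (nat_lit 0x3c4aa) (nat_lit 7) (p (nat_lit 0x119) (nat_lit 1) (p (nat_lit 0x111) (nat_lit 0) (p (nat_lit 0x109) (nat_lit 0) (p (nat_lit 0x101) (nat_lit 0) (p (nat_lit 0xc1) (nat_lit 1) (p (nat_lit 0x81) (nat_lit 1) (p (nat_lit 0x41) (nat_lit 1) (p (nat_lit 0x10a898a08881a) (nat_lit 0) (p (nat_lit 0x8a090988079a) (nat_lit 0) (p (nat_lit 0x108088907871a) (nat_lit 0) (p (nat_lit 0x87880887069a) (nat_lit 0) (p (nat_lit 0x8000080000000088806860a) (nat_lit 0) (p (nat_lit 0x8000080000000068786058a) (nat_lit 0) (p (nat_lit 0x10687058502) (nat_lit 0) (p (nat_lit 0x8606850482) (nat_lit 0) (p (nat_lit 0x160004) (nat_lit 0) (p (nat_lit 0x68612) (nat_lit 0) (p (nat_lit 0x50592) (nat_lit 0) (p (nat_lit 0x40512) (nat_lit 0) (p (nat_lit 0x50312) (nat_lit 0) (p (nat_lit 0x38292) (nat_lit 0) (p (nat_lit 0x28212) (nat_lit 0) (p (nat_lit 0x38112) (nat_lit 0) (p (nat_lit 0x20092) (nat_lit 0)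 (p (nat_lit 0x10012) (nat_lit 0) pn)))))))))))))))))))))))))) :=
  Cl.node (nat_lit 0x380c2) (nat_lit 2) (by decide +kernel) (ClAll.succ (ClAll.succ ClAll.zero s1780) s1781)

def n673 : Cl (O (nat_lit 6)) (R (nat_lit 143633))
    (p (nat_lit 0xc9) (nat_lit 1) (p (nat_lit 0x109) (nat_lit 1) (p (nat_lit 0x101) (nat_lit 0) (p (nat_lit 0x119) (nat_lit 0) (p (nat_lit 0xd1) (nat_lit 0) (p (nat_lit 0x89) (nat_lit 0) (p (nat_lit 0x41) (nat_lit 0) (p (nat_lit 0x10a898a08881a) (nat_lit 0) (p (nat_lit 0x8a090988079a) (nat_lit 0) (p (nat_lit 0x108088907871a) (nat_lit 0) (p (nat_lit 0x87880887069a) (nat_lit 0) (p (nat_lit 0x8000080000000088806860a) (nat_lit 0) (p (nat_lit 0x8000080000000068786058a) (nat_lit 0) (p (nat_lit 0x10687058502) (nat_lit 0) (p (nat_lit 0x8606850482) (nat_lit 0) (p (nat_lit 0x160004) (nat_lit 0) (p (nat_lit 0x68612) (nat_lit 0) (p (nat_lit 0x50592) (nat_lit 0) (p (nat_lit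 0x40512) (nat_lit 0) (p (nat_lit 0x50312) (nat_lit 0) (p (nat_lit 0x38292) (nat_lit 0) (p (nat_lit 0x28212) (nat_lit 0) (p (nat_lit 0x38112) (nat_lit 0) (p (nat_lit 0x20092) (nat_lit 0) (p (nat_lit 0x10012) (nat_lit 0) pn))))))))))))))))))))))))) :=
  Cl.node (nat_lit 0x81) (nat_lit 2) (by decide +kernel) (ClAll.succ (ClAll.succ ClAll.zero s2) n615)

def n674 : Cl (O (nat_lit 6)) (R (nat_lit 143633))
    (p (nat_lit 0xc9) (nat_lit 0) (p (nat_lit 0x81) (nat_lit 0) (p (nat_lit 0x101) (nat_lit 1) (p (nat_lit 0x119) (nat_lit 0) (p (nat_lit 0xd1) (nat_lit 0) (p (nat_lit 0x89) (nat_lit 0) (p (nat_lit 0x41) (nat_lit 0) (p (nat_lit 0x10a898a08881a) (nat_lit 0) (p (nat_lit 0x8a090988079a) (nat_lit 0) (p (nat_lit 0x108088907871a) (nat_lit 0) (p (nat_lit 0x87880887069a) (nat_lit 0) (p (nat_lit 0x8000080000000088806860a) (nat_lit 0) (p (nat_lit 0x8000080000000068786058a) (nat_lit 0) (p (nat_lit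 0x10687058502) (nat_lit 0) (p (nat_lit 0x8606850482) (nat_lit 0) (p (nat_lit 0x160004) (nat_lit 0) (p (nat_lit 0x68612) (nat_lit 0) (p (nat_lit 0x50592) (nat_lit 0) (p (nat_lit 0x40512) (nat_lit 0) (p (nat_lit 0x50312) (nat_lit 0) (p (nat_lit 0x38292) (nat_lit 0) (p (nat_lit 0x28212) (nat_lit 0) (p (nat_lit 0x38112) (nat_lit 0) (p (nat_lit 0x20092) (nat_lit 0) (p (nat_lit 0x10012) (nat_lit 0) pn))))))))))))))))))))))))) :=
  Cl.node (nat_lit 0x111) (nat_lit 2) (by decide +kernel) (ClAll.succ (ClAll.succ ClAll.zero n616) n617)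

def n675 : Cl (O (nat_lit 6)) (R (nat_lit 143633))
    (p (nat_lit 0xc9) (nat_lit 1) (p (nat_lit 0x81) (nat_lit 0) (p (nat_lit 0x101) (nat_lit 1) (p (nat_lit 0x119) (nat_lit 0) (p (nat_lit 0xd1) (nat_lit 0) (p (nat_lit 0x89) (nat_lit 0) (p (nat_lit 0x41) (nat_lit 0) (p (nat_lit 0x10a898a08881a) (nat_lit 0) (p (nat_lit 0x8a090988079a) (nat_lit 0) (p (nat_lit 0x108088907871a) (nat_lit 0) (p (nat_lit 0x87880887069a) (nat_lit 0) (p (nat_lit 0x8000080000000088806860a) (nat_lit 0) (p (nat_lit 0x8000080000000068786058a) (nat_lit 0) (p (nat_lit 0x10687058502) (nat_lit 0) (p (nat_lit 0x8606850482) (nat_lit 0) (p (nat_lit 0x160004) (nat_lit 0) (p (nat_lit 0x68612) (nat_lit 0) (p (nat_lit 0x50592) (nat_lit 0) (p (nat_lit 0x40512) (nat_lit 0) (p (nat_lit 0x50312) (nat_lit 0) (p (nat_lit 0x38292) (nat_lit 0) (p (nat_lit 0x28212) (nat_lit 0) (p (nat_lit 0x38112) (nat_lit 0) (p (nat_lit 0x20092)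 (nat_lit 0) (p (nat_lit 0x10012) (nat_lit 0) pn))))))))))))))))))))))))) :=
  Cl.node (nat_lit 0x111) (nat_lit 2) (by decide +kernel) (ClAll.succ (ClAll.succ ClAll.zero n618) s160)

def n676 : Cl (O (nat_lit 6)) (R (nat_lit 143633))
    (p (nat_lit 0xc1) (nat_lit 0) (p (nat_lit 0x81) (nat_lit 1) (p (nat_lit 0x101) (nat_lit 1) (p (nat_lit 0x119) (nat_lit 0) (p (nat_lit 0xd1) (nat_lit 0) (p (nat_lit 0x89) (nat_lit 0) (p (nat_lit 0x41) (nat_lit 0) (p (nat_lit 0x10a898a08881a) (nat_lit 0) (p (nat_lit 0x8a090988079a) (nat_lit 0) (p (nat_lit 0x108088907871a) (nat_lit 0) (p (nat_lit 0x87880887069a) (nat_lit 0) (p (nat_lit 0x8000080000000088806860a) (nat_lit 0) (p (nat_lit 0x8000080000000068786058a) (nat_lit 0) (p (nat_lit 0x10687058502) (nat_lit 0) (p (nat_lit 0x8606850482) (nat_lit 0) (p (nat_lit 0x160004) (nat_lit 0) (p (nat_lit 0x68612) (nat_lit 0) (p (nat_lit 0x50592) (nat_lit 0)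 (p (nat_lit 0x40512) (nat_lit 0) (p (nat_lit 0x50312) (nat_lit 0) (p (nat_lit 0x38292) (nat_lit 0) (p (nat_lit 0x28212) (nat_lit 0) (p (nat_lit 0x38112) (nat_lit 0) (p (nat_lit 0x20092) (nat_lit 0) (p (nat_lit 0x10012) (nat_lit 0) pn))))))))))))))))))))))))) :=
  Cl.node (nat_lit 0xc9) (nat_lit 2) (by decide +kernel) (ClAll.succ (ClAll.succ ClAll.zero n619) n620)

def n677 : Cl (O (nat_lit 6)) (R (nat_lit 143633))
    (p (nat_lit 0x109) (nat_lit 1) (p (nat_lit 0xc9) (nat_lit 1) (p (nat_lit 0xc1) (nat_lit 0) (p (nat_lit 0x119) (nat_lit 1) (p (nat_lit 0xd1) (nat_lit 0) (p (nat_lit 0x89) (nat_lit 0) (p (nat_lit 0x41) (nat_lit 0) (p (nat_lit 0x10a898a08881a) (nat_lit 0) (p (nat_lit 0x8a090988079a) (nat_lit 0) (p (nat_lit 0x108088907871a) (nat_lit 0) (p (nat_lit 0x87880887069a) (nat_lit 0) (p (nat_lit 0x8000080000000088806860a) (nat_lit 0) (p (nat_lit 0x8000080000000068786058a) (nat_lit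 0) (p (nat_lit 0x10687058502) (nat_lit 0) (p (nat_lit 0x8606850482) (nat_lit 0) (p (nat_lit 0x160004) (nat_lit 0) (p (nat_lit 0x68612) (nat_lit 0) (p (nat_lit 0x50592) (nat_lit 0) (p (nat_lit 0x40512) (nat_lit 0) (p (nat_lit 0x50312) (nat_lit 0) (p (nat_lit 0x38292) (nat_lit 0) (p (nat_lit 0x28212) (nat_lit 0) (p (nat_lit 0x38112) (nat_lit 0) (p (nat_lit 0x20092) (nat_lit 0) (p (nat_lit 0x10012) (nat_lit 0) pn))))))))))))))))))))))))) :=
  Cl.node (nat_lit 0x3cc2a) (nat_lit 12) (by decide +kernel) (ClAll.succ (ClAll.succ (ClAll.succ (ClAll.succ (ClAll.succ (ClAll.succ (ClAll.succ (ClAll.succ (ClAll.succ (ClAll.succ (ClAll.succ (ClAll.succ ClAll.zero s244) s245) s246) s247) s248) s249) s250) s251) s252) s253) n621) n622)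

def n678 : Cl (O (nat_lit 6)) (R (nat_lit 143633))
    (p (nat_lit 0x109) (nat_lit 0) (p (nat_lit 0x81) (nat_lit 0) (p (nat_lit 0xc1) (nat_lit 1) (p (nat_lit 0x119) (nat_lit 1) (p (nat_lit 0xd1) (nat_lit 0) (p (nat_lit 0x89) (nat_lit 0) (p (nat_lit 0x41) (nat_lit 0) (p (nat_lit 0x10a898a08881a) (nat_lit 0) (p (nat_lit 0x8a090988079a) (nat_lit 0) (p (nat_lit 0x108088907871a) (nat_lit 0) (p (nat_lit 0x87880887069a) (nat_lit 0) (p (nat_lit 0x8000080000000088806860a) (nat_lit 0) (p (nat_lit 0x8000080000000068786058a) (nat_lit 0) (p (nat_lit 0x10687058502) (nat_lit 0) (p (nat_lit 0x8606850482) (nat_lit 0) (p (nat_lit 0x160004) (nat_lit 0) (p (nat_lit 0x68612) (nat_lit 0) (p (nat_lit 0x50592) (nat_lit 0) (p (nat_lit 0x40512) (nat_lit 0) (p (nat_lit 0x50312) (nat_lit 0) (p (nat_lit 0x38292) (nat_lit 0) (p (nat_lit 0x28212) (nat_lit 0) (p (nat_lit 0x38112) (nat_lit 0) (p (nat_lit 0x20092)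 (nat_lit 0) (p (nat_lit 0x10012) (nat_lit 0) pn))))))))))))))))))))))))) :=
  Cl.node (nat_lit 0x44c2a) (nat_lit 12) (by decide +kernel) (ClAll.succ (ClAll.succ (ClAll.succ (ClAll.succ (ClAll.succ (ClAll.succ (ClAll.succ (ClAll.succ (ClAll.succ (ClAll.succ (ClAll.succ (ClAll.succ ClAll.zero s292) s293) s294) s295) s296) s297) s298) s299) s300) s301) s302) s303)

def n679 : Cl (O (nat_lit 6)) (R (nat_lit 143633))
    (p (nat_lit 0x109) (nat_lit 1) (p (nat_lit 0x81) (nat_lit 0) (p (nat_lit 0xc1) (nat_lit 1) (p (nat_lit 0x119) (nat_lit 1) (p (nat_lit 0xd1) (nat_lit 0) (p (nat_lit 0x89) (nat_lit 0) (p (nat_lit 0x41) (nat_lit 0) (p (nat_lit 0x10a898a08881a) (nat_lit 0) (p (nat_lit 0x8a090988079a) (nat_lit 0) (p (nat_lit 0x108088907871a) (nat_lit 0) (p (nat_lit 0x87880887069a) (nat_lit 0) (p (nat_lit 0x8000080000000088806860a) (nat_lit 0) (p (nat_lit 0x8000080000000068786058a) (nat_lit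 0) (p (nat_lit 0x10687058502) (nat_lit 0) (p (nat_lit 0x8606850482) (nat_lit 0) (p (nat_lit 0x160004) (nat_lit 0) (p (nat_lit 0x68612) (nat_lit 0) (p (nat_lit 0x50592) (nat_lit 0) (p (nat_lit 0x40512) (nat_lit 0) (p (nat_lit 0x50312) (nat_lit 0) (p (nat_lit 0x38292) (nat_lit 0) (p (nat_lit 0x28212) (nat_lit 0) (p (nat_lit 0x38112) (nat_lit 0) (p (nat_lit 0x20092) (nat_lit 0) (p (nat_lit 0x10012) (nat_lit 0) pn))))))))))))))))))))))))) :=
  Cl.node (nat_lit 0x3cc2a) (nat_lit 12) (by decide +kernel) (ClAll.succ (ClAll.succ (ClAll.succ (ClAll.succ (ClAll.succ (ClAll.succ (ClAll.succ (ClAll.succ (ClAll.succ (ClAll.succ (ClAll.succ (ClAll.succ ClAll.zero s304) s305) s306) s307) s308) s309) s310) s311) s312) s313) n623) n624)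

def n680 : Cl (O (nat_lit 6)) (R (nat_lit 143633))
    (p (nat_lit 0x101) (nat_lit 0) (p (nat_lit 0x81) (nat_lit 1) (p (nat_lit 0xc1) (nat_lit 1) (p (nat_lit 0x119) (nat_lit 1) (p (nat_lit 0xd1) (nat_lit 0) (p (nat_lit 0x89) (nat_lit 0) (p (nat_lit 0x41) (nat_lit 0) (p (nat_lit 0x10a898a08881a) (nat_lit 0) (p (nat_lit 0x8a090988079a) (nat_lit 0) (p (nat_lit 0x108088907871a) (nat_lit 0) (p (nat_lit 0x87880887069a) (nat_lit 0) (p (nat_lit 0x8000080000000088806860a) (nat_lit 0) (p (nat_lit 0x8000080000000068786058a) (nat_lit 0) (p (nat_lit 0x10687058502) (nat_lit 0) (p (nat_lit 0x8606850482) (nat_lit 0) (p (nat_lit 0x160004) (nat_lit 0) (p (nat_lit 0x68612) (nat_lit 0) (p (nat_lit 0x50592) (nat_lit 0) (p (nat_lit 0x40512) (nat_lit 0) (p (nat_lit 0x50312) (nat_lit 0) (p (nat_lit 0x38292) (nat_lit 0) (p (nat_lit 0x28212) (nat_lit 0) (p (nat_lit 0x38112) (nat_lit 0) (p (nat_lit 0x20092)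 (nat_lit 0) (p (nat_lit 0x10012) (nat_lit 0) pn))))))))))))))))))))))))) :=
  Cl.node (nat_lit 0x109) (nat_lit 2) (by decide +kernel) (ClAll.succ (ClAll.succ ClAll.zero n625) n626)

def n681 : Cl (O (nat_lit 6)) (R (nat_lit 143633))
    (p (nat_lit 0x101) (nat_lit 1) (p (nat_lit 0x81) (nat_lit 1) (p (nat_lit 0xc1) (nat_lit 1) (p (nat_lit 0x119) (nat_lit 1) (p (nat_lit 0xd1) (nat_lit 0) (p (nat_lit 0x89) (nat_lit 0) (p (nat_lit 0x41) (nat_lit 0) (p (nat_lit 0x10a898a08881a) (nat_lit 0) (p (nat_lit 0x8a090988079a) (nat_lit 0) (p (nat_lit 0x108088907871a) (nat_lit 0) (p (nat_lit 0x87880887069a) (nat_lit 0) (p (nat_lit 0x8000080000000088806860a) (nat_lit 0) (p (nat_lit 0x8000080000000068786058a) (nat_lit 0) (p (nat_lit 0x10687058502) (nat_lit 0) (p (nat_lit 0x8606850482) (nat_lit 0) (p (nat_lit 0x160004) (nat_lit 0) (p (nat_lit 0x68612) (nat_lit 0) (p (nat_lit 0x50592) (nat_lit 0)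 (p (nat_lit 0x40512) (nat_lit 0) (p (nat_lit 0x50312) (nat_lit 0) (p (nat_lit 0x38292) (nat_lit 0) (p (nat_lit 0x28212) (nat_lit 0) (p (nat_lit 0x38112) (nat_lit 0) (p (nat_lit 0x20092) (nat_lit 0) (p (nat_lit 0x10012) (nat_lit 0) pn))))))))))))))))))))))))) :=
  Cl.node (nat_lit 0x444aa) (nat_lit 12) (by decide +kernel) (ClAll.succ (ClAll.succ (ClAll.succ (ClAll.succ (ClAll.succ (ClAll.succ (ClAll.succ (ClAll.succ (ClAll.succ (ClAll.succ (ClAll.succ (ClAll.succ ClAll.zero s433) s434) s435) s436) s437) s438) s439) s440) n627) s445) s446) s447)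

def n682 : Cl (O (nat_lit 6)) (R (nat_lit 143633))
    (p (nat_lit 0xc1) (nat_lit 1) (p (nat_lit 0x109) (nat_lit 1) (p (nat_lit 0x101) (nat_lit 0) (p (nat_lit 0x111) (nat_lit 0) (p (nat_lit 0xd1) (nat_lit 1) (p (nat_lit 0x89) (nat_lit 0) (p (nat_lit 0x41) (nat_lit 0) (p (nat_lit 0x10a898a08881a) (nat_lit 0) (p (nat_lit 0x8a090988079a) (nat_lit 0) (p (nat_lit 0x108088907871a) (nat_lit 0) (p (nat_lit 0x87880887069a) (nat_lit 0) (p (nat_lit 0x8000080000000088806860a) (nat_lit 0) (p (nat_lit 0x8000080000000068786058a) (nat_lit 0) (p (nat_lit 0x10687058502) (nat_lit 0) (p (nat_lit 0x8606850482) (nat_lit 0) (p (nat_lit 0x160004) (nat_lit 0) (p (nat_lit 0x68612) (nat_lit 0) (p (nat_lit 0x50592) (nat_lit 0) (p (nat_lit 0x40512) (nat_lit 0) (p (nat_lit 0x50312) (nat_lit 0) (p (nat_lit 0x38292) (nat_lit 0) (p (nat_lit 0x28212) (nat_lit 0) (p (nat_lit 0x38112) (nat_lit 0) (p (nat_lit 0x20092)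 (nat_lit 0) (p (nat_lit 0x10012) (nat_lit 0) pn))))))))))))))))))))))))) :=
  Cl.node (nat_lit 0x20000c) (nat_lit 2) (by decide +kernel) (ClAll.succ (ClAll.succ ClAll.zero n628) n629)

def n683 : Cl (O (nat_lit 6)) (R (nat_lit 143633))
    (p (nat_lit 0x119) (nat_lit 0) (p (nat_lit 0x81) (nat_lit 0) (p (nat_lit 0x101) (nat_lit 1) (p (nat_lit 0x111) (nat_lit 0) (p (nat_lit 0xd1) (nat_lit 1) (p (nat_lit 0x89) (nat_lit 0) (p (nat_lit 0x41) (nat_lit 0) (p (nat_lit 0x10a898a08881a) (nat_lit 0) (p (nat_lit 0x8a090988079a) (nat_lit 0) (p (nat_lit 0x108088907871a) (nat_lit 0) (p (nat_lit 0x87880887069a) (nat_lit 0) (p (nat_lit 0x8000080000000088806860a) (nat_lit 0) (p (nat_lit 0x8000080000000068786058a) (nat_lit 0) (p (nat_lit 0x10687058502) (nat_lit 0) (p (nat_lit 0x8606850482) (nat_lit 0) (p (nat_lit 0x160004) (nat_lit 0) (p (nat_lit 0x68612) (nat_lit 0) (p (nat_lit 0x50592) (nat_lit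 0) (p (nat_lit 0x40512) (nat_lit 0) (p (nat_lit 0x50312) (nat_lit 0) (p (nat_lit 0x38292) (nat_lit 0) (p (nat_lit 0x28212) (nat_lit 0) (p (nat_lit 0x38112) (nat_lit 0) (p (nat_lit 0x20092) (nat_lit 0) (p (nat_lit 0x10012) (nat_lit 0) pn))))))))))))))))))))))))) :=
  Cl.node (nat_lit 0x20000c) (nat_lit 2) (by decide +kernel) (ClAll.succ (ClAll.succ ClAll.zero n630) n631)

def n684 : Cl (O (nat_lit 6)) (R (nat_lit 143633))
    (p (nat_lit 0x119) (nat_lit 1) (p (nat_lit 0x81) (nat_lit 0) (p (nat_lit 0x101) (nat_lit 1) (p (nat_lit 0x111) (nat_lit 0) (p (nat_lit 0xd1) (nat_lit 1) (p (nat_lit 0x89) (nat_lit 0) (p (nat_lit 0x41) (nat_lit 0) (p (nat_lit 0x10a898a08881a) (nat_lit 0) (p (nat_lit 0x8a090988079a) (nat_lit 0) (p (nat_lit 0x108088907871a) (nat_lit 0) (p (nat_lit 0x87880887069a) (nat_lit 0) (p (nat_lit 0x8000080000000088806860a) (nat_lit 0) (p (nat_lit 0x8000080000000068786058a)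 (nat_lit 0) (p (nat_lit 0x10687058502) (nat_lit 0) (p (nat_lit 0x8606850482) (nat_lit 0) (p (nat_lit 0x160004) (nat_lit 0) (p (nat_lit 0x68612) (nat_lit 0) (p (nat_lit 0x50592) (nat_lit 0) (p (nat_lit 0x40512) (nat_lit 0) (p (nat_lit 0x50312) (nat_lit 0) (p (nat_lit 0x38292) (nat_lit 0) (p (nat_lit 0x28212) (nat_lit 0) (p (nat_lit 0x38112) (nat_lit 0) (p (nat_lit 0x20092) (nat_lit 0) (p (nat_lit 0x10012) (nat_lit 0) pn))))))))))))))))))))))))) :=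
  Cl.node (nat_lit 0x3cc2a) (nat_lit 12) (by decide +kernel) (ClAll.succ (ClAll.succ (ClAll.succ (ClAll.succ (ClAll.succ (ClAll.succ (ClAll.succ (ClAll.succ (ClAll.succ (ClAll.succ (ClAll.succ (ClAll.succ ClAll.zero s526) s527) s528) s529) s530) s531) s532) s533) s534) s535) s536) s537)

def n685 : Cl (O (nat_lit 6)) (R (nat_lit 143633))
    (p (nat_lit 0xc1) (nat_lit 0) (p (nat_lit 0x81) (nat_lit 1) (p (nat_lit 0x101) (nat_lit 1) (p (nat_lit 0x111) (nat_lit 0) (p (nat_lit 0xd1) (nat_lit 1) (p (nat_lit 0x89) (nat_lit 0) (p (nat_lit 0x41) (nat_lit 0) (p (nat_lit 0x10a898a08881a) (nat_lit 0) (p (nat_lit 0x8a090988079a) (nat_lit 0) (p (nat_lit 0x108088907871a) (nat_lit 0) (p (nat_lit 0x87880887069a) (nat_lit 0) (p (nat_lit 0x8000080000000088806860a) (nat_lit 0) (p (nat_lit 0x8000080000000068786058a) (nat_lit 0) (p (nat_lit 0x10687058502) (nat_lit 0) (p (nat_lit 0x8606850482) (nat_lit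 0) (p (nat_lit 0x160004) (nat_lit 0) (p (nat_lit 0x68612) (nat_lit 0) (p (nat_lit 0x50592) (nat_lit 0) (p (nat_lit 0x40512) (nat_lit 0) (p (nat_lit 0x50312) (nat_lit 0) (p (nat_lit 0x38292) (nat_lit 0) (p (nat_lit 0x28212) (nat_lit 0) (p (nat_lit 0x38112) (nat_lit 0) (p (nat_lit 0x20092) (nat_lit 0) (p (nat_lit 0x10012) (nat_lit 0) pn))))))))))))))))))))))))) :=
  Cl.node (nat_lit 0x119) (nat_lit 2) (by decide +kernel) (ClAll.succ (ClAll.succ ClAll.zero n632) n633)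

def n686 : Cl (O (nat_lit 6)) (R (nat_lit 143633))
    (p (nat_lit 0x101) (nat_lit 0) (p (nat_lit 0xc1) (nat_lit 1) (p (nat_lit 0x81) (nat_lit 1) (p (nat_lit 0x111) (nat_lit 1) (p (nat_lit 0xd1) (nat_lit 1) (p (nat_lit 0x89) (nat_lit 0) (p (nat_lit 0x41) (nat_lit 0) (p (nat_lit 0x10a898a08881a) (nat_lit 0) (p (nat_lit 0x8a090988079a) (nat_lit 0) (p (nat_lit 0x108088907871a) (nat_lit 0) (p (nat_lit 0x87880887069a) (nat_lit 0) (p (nat_lit 0x8000080000000088806860a) (nat_lit 0) (p (nat_lit 0x8000080000000068786058a) (nat_lit 0) (p (nat_lit 0x10687058502) (nat_lit 0) (p (nat_lit 0x8606850482) (nat_lit 0) (p (nat_lit 0x160004) (nat_lit 0) (p (nat_lit 0x68612) (nat_lit 0) (p (nat_lit 0x50592) (nat_lit 0) (p (nat_lit 0x40512) (nat_lit 0) (p (nat_lit 0x50312) (nat_lit 0) (p (nat_lit 0x38292) (nat_lit 0) (p (nat_lit 0x28212) (nat_lit 0) (p (nat_lit 0x38112) (nat_lit 0) (p (nat_lit 0x20092)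 (nat_lit 0) (p (nat_lit 0x10012) (nat_lit 0) pn))))))))))))))))))))))))) :=
  Cl.node (nat_lit 0x3cc2a) (nat_lit 12) (by decide +kernel) (ClAll.succ (ClAll.succ (ClAll.succ (ClAll.succ (ClAll.succ (ClAll.succ (ClAll.succ (ClAll.succ (ClAll.succ (ClAll.succ (ClAll.succ (ClAll.succ ClAll.zero s611) s612) s613) s614) s615) s616) s617) s618) s619) s620) s621) s622)

def n687 : Cl (O (nat_lit 6)) (R (nat_lit 143633))
    (p (nat_lit 0x101) (nat_lit 1) (p (nat_lit 0xc1) (nat_lit 1) (p (nat_lit 0x81) (nat_lit 1) (p (nat_lit 0x111) (nat_lit 1) (p (nat_lit 0xd1) (nat_lit 1) (p (nat_lit 0x89) (nat_lit 0) (p (nat_lit 0x41) (nat_lit 0) (p (nat_lit 0x10a898a08881a) (nat_lit 0) (p (nat_lit 0x8a090988079a) (nat_lit 0) (p (nat_lit 0x108088907871a) (nat_lit 0) (p (nat_lit 0x87880887069a) (nat_lit 0) (p (nat_lit 0x8000080000000088806860a) (nat_lit 0) (p (nat_lit 0x8000080000000068786058a) (nat_lit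 0) (p (nat_lit 0x10687058502) (nat_lit 0) (p (nat_lit 0x8606850482) (nat_lit 0) (p (nat_lit 0x160004) (nat_lit 0) (p (nat_lit 0x68612) (nat_lit 0) (p (nat_lit 0x50592) (nat_lit 0) (p (nat_lit 0x40512) (nat_lit 0) (p (nat_lit 0x50312) (nat_lit 0) (p (nat_lit 0x38292) (nat_lit 0) (p (nat_lit 0x28212) (nat_lit 0) (p (nat_lit 0x38112) (nat_lit 0) (p (nat_lit 0x20092) (nat_lit 0) (p (nat_lit 0x10012) (nat_lit 0) pn))))))))))))))))))))))))) :=
  Cl.node (nat_lit 0x444aa) (nat_lit 12) (by decide +kernel) (ClAll.succ (ClAll.succ (ClAll.succ (ClAll.succ (ClAll.succ (ClAll.succ (ClAll.succ (ClAll.succ (ClAll.succ (ClAll.succ (ClAll.succ (ClAll.succ ClAll.zero s623) s624) s625) s626) s627) s628) s629) s630) s631) s632) s633) s634)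

def n688 : Cl (O (nat_lit 6)) (R (nat_lit 143633))
    (p (nat_lit 0x111) (nat_lit 1) (p (nat_lit 0x109) (nat_lit 0) (p (nat_lit 0x101) (nat_lit 0) (p (nat_lit 0x119) (nat_lit 0) (p (nat_lit 0xc9) (nat_lit 0) (p (nat_lit 0x89) (nat_lit 1) (p (nat_lit 0x41) (nat_lit 0) (p (nat_lit 0x10a898a08881a) (nat_lit 0) (p (nat_lit 0x8a090988079a) (nat_lit 0) (p (nat_lit 0x108088907871a) (nat_lit 0) (p (nat_lit 0x87880887069a) (nat_lit 0) (p (nat_lit 0x8000080000000088806860a) (nat_lit 0) (p (nat_lit 0x8000080000000068786058a) (nat_lit 0) (p (nat_lit 0x10687058502) (nat_lit 0) (p (nat_lit 0x8606850482) (nat_lit 0) (p (nat_lit 0x160004) (nat_lit 0) (p (nat_lit 0x68612) (nat_lit 0) (p (nat_lit 0x50592) (nat_lit 0) (p (nat_lit 0x40512) (nat_lit 0) (p (nat_lit 0x50312) (nat_lit 0) (p (nat_lit 0x38292) (nat_lit 0) (p (nat_lit 0x28212) (nat_lit 0) (p (nat_lit 0x38112) (nat_lit 0) (p (nat_lit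 0x20092) (nat_lit 0) (p (nat_lit 0x10012) (nat_lit 0) pn))))))))))))))))))))))))) :=
  Cl.node (nat_lit 0xd1) (nat_lit 2) (by decide +kernel) (ClAll.succ (ClAll.succ ClAll.zero s636) n634)

def n689 : Cl (O (nat_lit 6)) (R (nat_lit 143633))
    (p (nat_lit 0xd1) (nat_lit 0) (p (nat_lit 0x109) (nat_lit 1) (p (nat_lit 0x101) (nat_lit 0) (p (nat_lit 0x119) (nat_lit 0) (p (nat_lit 0xc9) (nat_lit 0) (p (nat_lit 0x89) (nat_lit 1) (p (nat_lit 0x41) (nat_lit 0) (p (nat_lit 0x10a898a08881a) (nat_lit 0) (p (nat_lit 0x8a090988079a) (nat_lit 0) (p (nat_lit 0x108088907871a) (nat_lit 0) (p (nat_lit 0x87880887069a) (nat_lit 0) (p (nat_lit 0x8000080000000088806860a) (nat_lit 0) (p (nat_lit 0x8000080000000068786058a) (nat_lit 0) (p (nat_lit 0x10687058502) (nat_lit 0) (p (nat_lit 0x8606850482) (nat_lit 0) (p (nat_lit 0x160004) (nat_lit 0) (p (nat_lit 0x68612) (nat_lit 0) (p (nat_lit 0x50592) (nat_lit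 0) (p (nat_lit 0x40512) (nat_lit 0) (p (nat_lit 0x50312) (nat_lit 0) (p (nat_lit 0x38292) (nat_lit 0) (p (nat_lit 0x28212) (nat_lit 0) (p (nat_lit 0x38112) (nat_lit 0) (p (nat_lit 0x20092) (nat_lit 0) (p (nat_lit 0x10012) (nat_lit 0) pn))))))))))))))))))))))))) :=
  Cl.node (nat_lit 0x20000c) (nat_lit 2) (by decide +kernel) (ClAll.succ (ClAll.succ ClAll.zero n635) n636)

def n690 : Cl (O (nat_lit 6)) (R (nat_lit 143633))
    (p (nat_lit 0xd1) (nat_lit 1) (p (nat_lit 0x109) (nat_lit 1) (p (nat_lit 0x101) (nat_lit 0) (p (nat_lit 0x119) (nat_lit 0) (p (nat_lit 0xc9) (nat_lit 0) (p (nat_lit 0x89) (nat_lit 1) (p (nat_lit 0x41) (nat_lit 0) (p (nat_lit 0x10a898a08881a) (nat_lit 0) (p (nat_lit 0x8a090988079a) (nat_lit 0) (p (nat_lit 0x108088907871a) (nat_lit 0) (p (nat_lit 0x87880887069a) (nat_lit 0) (p (nat_lit 0x8000080000000088806860a) (nat_lit 0) (p (nat_lit 0x8000080000000068786058a)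 (nat_lit 0) (p (nat_lit 0x10687058502) (nat_lit 0) (p (nat_lit 0x8606850482) (nat_lit 0) (p (nat_lit 0x160004) (nat_lit 0) (p (nat_lit 0x68612) (nat_lit 0) (p (nat_lit 0x50592) (nat_lit 0) (p (nat_lit 0x40512) (nat_lit 0) (p (nat_lit 0x50312) (nat_lit 0) (p (nat_lit 0x38292) (nat_lit 0) (p (nat_lit 0x28212) (nat_lit 0) (p (nat_lit 0x38112) (nat_lit 0) (p (nat_lit 0x20092) (nat_lit 0) (p (nat_lit 0x10012) (nat_lit 0) pn))))))))))))))))))))))))) :=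
  Cl.node (nat_lit 0x444aa) (nat_lit 12) (by decide +kernel) (ClAll.succ (ClAll.succ (ClAll.succ (ClAll.succ (ClAll.succ (ClAll.succ (ClAll.succ (ClAll.succ (ClAll.succ (ClAll.succ (ClAll.succ (ClAll.succ ClAll.zero s720) s721) s722) s723) s724) s725) s726) n637) s804) s805) s806) s807)

def n691 : Cl (O (nat_lit 6)) (R (nat_lit 143633))
    (p (nat_lit 0xd1) (nat_lit 0) (p (nat_lit 0xc1) (nat_lit 0) (p (nat_lit 0x101) (nat_lit 1) (p (nat_lit 0x119) (nat_lit 0) (p (nat_lit 0xc9) (nat_lit 0) (p (nat_lit 0x89) (nat_lit 1) (p (nat_lit 0x41) (nat_lit 0) (p (nat_lit 0x10a898a08881a) (nat_lit 0) (p (nat_lit 0x8a090988079a) (nat_lit 0) (p (nat_lit 0x108088907871a) (nat_lit 0) (p (nat_lit 0x87880887069a) (nat_lit 0) (p (nat_lit 0x8000080000000088806860a) (nat_lit 0) (p (nat_lit 0x8000080000000068786058a) (nat_lit 0) (p (nat_lit 0x10687058502) (nat_lit 0) (p (nat_lit 0x8606850482) (nat_lit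 0) (p (nat_lit 0x160004) (nat_lit 0) (p (nat_lit 0x68612) (nat_lit 0) (p (nat_lit 0x50592) (nat_lit 0) (p (nat_lit 0x40512) (nat_lit 0) (p (nat_lit 0x50312) (nat_lit 0) (p (nat_lit 0x38292) (nat_lit 0) (p (nat_lit 0x28212) (nat_lit 0) (p (nat_lit 0x38112) (nat_lit 0) (p (nat_lit 0x20092) (nat_lit 0) (p (nat_lit 0x10012) (nat_lit 0) pn))))))))))))))))))))))))) :=
  Cl.node (nat_lit 0x20000c) (nat_lit 2) (by decide +kernel) (ClAll.succ (ClAll.succ ClAll.zero n638) s857)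

def n692 : Cl (O (nat_lit 6)) (R (nat_lit 143633))
    (p (nat_lit 0xd1) (nat_lit 1) (p (nat_lit 0xc1) (nat_lit 0) (p (nat_lit 0x101) (nat_lit 1) (p (nat_lit 0x119) (nat_lit 0) (p (nat_lit 0xc9) (nat_lit 0) (p (nat_lit 0x89) (nat_lit 1) (p (nat_lit 0x41) (nat_lit 0) (p (nat_lit 0x10a898a08881a) (nat_lit 0) (p (nat_lit 0x8a090988079a) (nat_lit 0) (p (nat_lit 0x108088907871a) (nat_lit 0) (p (nat_lit 0x87880887069a) (nat_lit 0) (p (nat_lit 0x8000080000000088806860a) (nat_lit 0) (p (nat_lit 0x8000080000000068786058a) (nat_lit 0) (p (nat_lit 0x10687058502) (nat_lit 0) (p (nat_lit 0x8606850482) (nat_lit 0) (p (nat_lit 0x160004) (nat_lit 0) (p (nat_lit 0x68612) (nat_lit 0) (p (nat_lit 0x50592) (nat_lit 0) (p (nat_lit 0x40512) (nat_lit 0) (p (nat_lit 0x50312) (nat_lit 0) (p (nat_lit 0x38292) (nat_lit 0) (p (nat_lit 0x28212) (nat_lit 0) (p (nat_lit 0x38112) (nat_lit 0) (p (nat_lit 0x20092)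 (nat_lit 0) (p (nat_lit 0x10012) (nat_lit 0) pn))))))))))))))))))))))))) :=
  Cl.node (nat_lit 0x444aa) (nat_lit 12) (by decide +kernel) (ClAll.succ (ClAll.succ (ClAll.succ (ClAll.succ (ClAll.succ (ClAll.succ (ClAll.succ (ClAll.succ (ClAll.succ (ClAll.succ (ClAll.succ (ClAll.succ ClAll.zero s858) s859) s860) s861) s862) s863) s864) n639) s897) s898) s899) s900)

def n693 : Cl (O (nat_lit 6)) (R (nat_lit 143633))
    (p (nat_lit 0x111) (nat_lit 1) (p (nat_lit 0xd1) (nat_lit 1) (p (nat_lit 0xc1) (nat_lit 0) (p (nat_lit 0x119) (nat_lit 1) (p (nat_lit 0xc9) (nat_lit 0) (p (nat_lit 0x89) (nat_lit 1) (p (nat_lit 0x41) (nat_lit 0) (p (nat_lit 0x10a898a08881a) (nat_lit 0) (p (nat_lit 0x8a090988079a) (nat_lit 0) (p (nat_lit 0x108088907871a) (nat_lit 0) (p (nat_lit 0x87880887069a) (nat_lit 0) (p (nat_lit 0x8000080000000088806860a) (nat_lit 0) (p (nat_lit 0x8000080000000068786058a) (nat_lit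 0) (p (nat_lit 0x10687058502) (nat_lit 0) (p (nat_lit 0x8606850482) (nat_lit 0) (p (nat_lit 0x160004) (nat_lit 0) (p (nat_lit 0x68612) (nat_lit 0) (p (nat_lit 0x50592) (nat_lit 0) (p (nat_lit 0x40512) (nat_lit 0) (p (nat_lit 0x50312) (nat_lit 0) (p (nat_lit 0x38292) (nat_lit 0) (p (nat_lit 0x28212) (nat_lit 0) (p (nat_lit 0x38112) (nat_lit 0) (p (nat_lit 0x20092) (nat_lit 0) (p (nat_lit 0x10012) (nat_lit 0) pn))))))))))))))))))))))))) :=
  Cl.node (nat_lit 0x444aa) (nat_lit 12) (by decide +kernel) (ClAll.succ (ClAll.succ (ClAll.succ (ClAll.succ (ClAll.succ (ClAll.succ (ClAll.succ (ClAll.succ (ClAll.succ (ClAll.succ (ClAll.succ (ClAll.succ ClAll.zero s904) s905) s906) s907) s908) s909) s910) n640) s924) s925) s926) s927)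

def n694 : Cl (O (nat_lit 6)) (R (nat_lit 143633))
    (p (nat_lit 0x111) (nat_lit 0) (p (nat_lit 0x101) (nat_lit 0) (p (nat_lit 0xc1) (nat_lit 1) (p (nat_lit 0x119) (nat_lit 1) (p (nat_lit 0xc9) (nat_lit 0) (p (nat_lit 0x89) (nat_lit 1) (p (nat_lit 0x41) (nat_lit 0) (p (nat_lit 0x10a898a08881a) (nat_lit 0) (p (nat_lit 0x8a090988079a) (nat_lit 0) (p (nat_lit 0x108088907871a) (nat_lit 0) (p (nat_lit 0x87880887069a) (nat_lit 0) (p (nat_lit 0x8000080000000088806860a) (nat_lit 0) (p (nat_lit 0x8000080000000068786058a) (nat_lit 0) (p (nat_lit 0x10687058502) (nat_lit 0) (p (nat_lit 0x8606850482) (nat_lit 0) (p (nat_lit 0x160004) (nat_lit 0) (p (nat_lit 0x68612) (nat_lit 0) (p (nat_lit 0x50592) (nat_lit 0) (p (nat_lit 0x40512) (nat_lit 0) (p (nat_lit 0x50312) (nat_lit 0) (p (nat_lit 0x38292) (nat_lit 0) (p (nat_lit 0x28212) (nat_lit 0) (p (nat_lit 0x38112) (nat_lit 0) (p (nat_lit 0x20092)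 (nat_lit 0) (p (nat_lit 0x10012) (nat_lit 0) pn))))))))))))))))))))))))) :=
  Cl.node (nat_lit 0x44c2a) (nat_lit 12) (by decide +kernel) (ClAll.succ (ClAll.succ (ClAll.succ (ClAll.succ (ClAll.succ (ClAll.succ (ClAll.succ (ClAll.succ (ClAll.succ (ClAll.succ (ClAll.succ (ClAll.succ ClAll.zero n641) n642) s950) s951) s952) s953) s954) s955) s956) s957) s958) s959)

def n695 : Cl (O (nat_lit 6)) (R (nat_lit 143633))
    (p (nat_lit 0x111) (nat_lit 1) (p (nat_lit 0x101) (nat_lit 0) (p (nat_lit 0xc1) (nat_lit 1) (p (nat_lit 0x119) (nat_lit 1) (p (nat_lit 0xc9) (nat_lit 0) (p (nat_lit 0x89) (nat_lit 1) (p (nat_lit 0x41) (nat_lit 0) (p (nat_lit 0x10a898a08881a) (nat_lit 0) (p (nat_lit 0x8a090988079a) (nat_lit 0) (p (nat_lit 0x108088907871a) (nat_lit 0) (p (nat_lit 0x87880887069a) (nat_lit 0) (p (nat_lit 0x8000080000000088806860a) (nat_lit 0) (p (nat_lit 0x8000080000000068786058a) (nat_lit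 0) (p (nat_lit 0x10687058502) (nat_lit 0) (p (nat_lit 0x8606850482) (nat_lit 0) (p (nat_lit 0x160004) (nat_lit 0) (p (nat_lit 0x68612) (nat_lit 0) (p (nat_lit 0x50592) (nat_lit 0) (p (nat_lit 0x40512) (nat_lit 0) (p (nat_lit 0x50312) (nat_lit 0) (p (nat_lit 0x38292) (nat_lit 0) (p (nat_lit 0x28212) (nat_lit 0) (p (nat_lit 0x38112) (nat_lit 0) (p (nat_lit 0x20092) (nat_lit 0) (p (nat_lit 0x10012) (nat_lit 0) pn))))))))))))))))))))))))) :=
  Cl.node (nat_lit 0x444aa) (nat_lit 12) (by decide +kernel) (ClAll.succ (ClAll.succ (ClAll.succ (ClAll.succ (ClAll.succ (ClAll.succ (ClAll.succ (ClAll.succ (ClAll.succ (ClAll.succ (ClAll.succ (ClAll.succ ClAll.zero s960) s961) s962) s963) s964) s965) s966) n643) n644) s1003) s1004) s1005)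

def n696 : Cl (O (nat_lit 6)) (R (nat_lit 143633))
    (p (nat_lit 0x444aa) (nat_lit 8) (p (nat_lit 0x101) (nat_lit 1) (p (nat_lit 0xc1) (nat_lit 1) (p (nat_lit 0x119) (nat_lit 1) (p (nat_lit 0xc9) (nat_lit 0) (p (nat_lit 0x89) (nat_lit 1) (p (nat_lit 0x41) (nat_lit 0) (p (nat_lit 0x10a898a08881a) (nat_lit 0) (p (nat_lit 0x8a090988079a) (nat_lit 0) (p (nat_lit 0x108088907871a) (nat_lit 0) (p (nat_lit 0x87880887069a) (nat_lit 0) (p (nat_lit 0x8000080000000088806860a) (nat_lit 0) (p (nat_lit 0x8000080000000068786058a) (nat_lit 0) (p (nat_lit 0x10687058502) (nat_lit 0) (p (nat_lit 0x8606850482) (nat_lit 0) (p (nat_lit 0x160004) (nat_lit 0) (p (nat_lit 0x68612) (nat_lit 0) (p (nat_lit 0x50592) (nat_lit 0) (p (nat_lit 0x40512) (nat_lit 0) (p (nat_lit 0x50312) (nat_lit 0) (p (nat_lit 0x38292) (nat_lit 0) (p (nat_lit 0x28212) (nat_lit 0) (p (nat_lit 0x38112) (nat_lit 0) (p (nat_lit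 0x20092) (nat_lit 0) (p (nat_lit 0x10012) (nat_lit 0) pn))))))))))))))))))))))))) :=
  Cl.node (nat_lit 0x380c2) (nat_lit 2) (by decide +kernel) (ClAll.succ (ClAll.succ ClAll.zero s1014) s1015)

def n697 : Cl (O (nat_lit 6)) (R (nat_lit 143633))
    (p (nat_lit 0x119) (nat_lit 1) (p (nat_lit 0x111) (nat_lit 0) (p (nat_lit 0x101) (nat_lit 0) (p (nat_lit 0x109) (nat_lit 0) (p (nat_lit 0xc9) (nat_lit 1) (p (nat_lit 0x89) (nat_lit 1) (p (nat_lit 0x41) (nat_lit 0) (p (nat_lit 0x10a898a08881a) (nat_lit 0) (p (nat_lit 0x8a090988079a) (nat_lit 0) (p (nat_lit 0x108088907871a) (nat_lit 0) (p (nat_lit 0x87880887069a) (nat_lit 0) (p (nat_lit 0x8000080000000088806860a) (nat_lit 0) (p (nat_lit 0x8000080000000068786058a) (nat_lit 0) (p (nat_lit 0x10687058502) (nat_lit 0) (p (nat_lit 0x8606850482) (nat_lit 0) (p (nat_lit 0x160004) (nat_lit 0) (p (nat_lit 0x68612) (nat_lit 0) (p (nat_lit 0x50592)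 (nat_lit 0) (p (nat_lit 0x40512) (nat_lit 0) (p (nat_lit 0x50312) (nat_lit 0) (p (nat_lit 0x38292) (nat_lit 0) (p (nat_lit 0x28212) (nat_lit 0) (p (nat_lit 0x38112) (nat_lit 0) (p (nat_lit 0x20092) (nat_lit 0) (p (nat_lit 0x10012) (nat_lit 0) pn))))))))))))))))))))))))) :=
  Cl.node (nat_lit 0x444aa) (nat_lit 12) (by decide +kernel) (ClAll.succ (ClAll.succ (ClAll.succ (ClAll.succ (ClAll.succ (ClAll.succ (ClAll.succ (ClAll.succ (ClAll.succ (ClAll.succ (ClAll.succ (ClAll.succ ClAll.zero s1020) s1021) s1022) s1023) s1024) s1025) s1026) n645) s1029) s1030) s1031) s1032)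

def n698 : Cl (O (nat_lit 6)) (R (nat_lit 143633))
    (p (nat_lit 0x444aa) (nat_lit 7) (p (nat_lit 0x111) (nat_lit 1) (p (nat_lit 0x101) (nat_lit 0) (p (nat_lit 0x109) (nat_lit 0) (p (nat_lit 0xc9) (nat_lit 1) (p (nat_lit 0x89) (nat_lit 1) (p (nat_lit 0x41) (nat_lit 0) (p (nat_lit 0x10a898a08881a) (nat_lit 0) (p (nat_lit 0x8a090988079a) (nat_lit 0) (p (nat_lit 0x108088907871a) (nat_lit 0) (p (nat_lit 0x87880887069a) (nat_lit 0) (p (nat_lit 0x8000080000000088806860a) (nat_lit 0) (p (nat_lit 0x8000080000000068786058a) (nat_lit 0) (p (nat_lit 0x10687058502) (nat_lit 0) (p (nat_lit 0x8606850482) (nat_lit 0) (p (nat_lit 0x160004) (nat_lit 0) (p (nat_lit 0x68612) (nat_lit 0) (p (nat_lit 0x50592) (nat_lit 0) (p (nat_lit 0x40512) (nat_lit 0) (p (nat_lit 0x50312) (nat_lit 0) (p (nat_lit 0x38292) (nat_lit 0) (p (nat_lit 0x28212) (nat_lit 0) (p (nat_lit 0x38112) (nat_lit 0) (p (nat_lit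 0x20092) (nat_lit 0) (p (nat_lit 0x10012) (nat_lit 0) pn))))))))))))))))))))))))) :=
  Cl.node (nat_lit 0x380c2) (nat_lit 2) (by decide +kernel) (ClAll.succ (ClAll.succ ClAll.zero s1040) s1041)

def n699 : Cl (O (nat_lit 6)) (R (nat_lit 143633))
    (p (nat_lit 0x89) (nat_lit 0) (p (nat_lit 0x109) (nat_lit 1) (p (nat_lit 0x101) (nat_lit 0) (p (nat_lit 0x119) (nat_lit 0) (p (nat_lit 0xd1) (nat_lit 0) (p (nat_lit 0x81) (nat_lit 0) (p (nat_lit 0x41) (nat_lit 1) (p (nat_lit 0x10a898a08881a) (nat_lit 0) (p (nat_lit 0x8a090988079a) (nat_lit 0) (p (nat_lit 0x108088907871a) (nat_lit 0) (p (nat_lit 0x87880887069a) (nat_lit 0) (p (nat_lit 0x8000080000000088806860a) (nat_lit 0) (p (nat_lit 0x8000080000000068786058a) (nat_lit 0) (p (nat_lit 0x10687058502) (nat_lit 0) (p (nat_lit 0x8606850482) (nat_lit 0) (p (nat_lit 0x160004) (nat_lit 0) (p (nat_lit 0x68612) (nat_lit 0) (p (nat_lit 0x50592)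 (nat_lit 0) (p (nat_lit 0x40512) (nat_lit 0) (p (nat_lit 0x50312) (nat_lit 0) (p (nat_lit 0x38292) (nat_lit 0) (p (nat_lit 0x28212) (nat_lit 0) (p (nat_lit 0x38112) (nat_lit 0) (p (nat_lit 0x20092) (nat_lit 0) (p (nat_lit 0x10012) (nat_lit 0) pn))))))))))))))))))))))))) :=
  Cl.node (nat_lit 0x111) (nat_lit 2) (by decide +kernel) (ClAll.succ (ClAll.succ ClAll.zero n646) n647)

def n700 : Cl (O (nat_lit 6)) (R (nat_lit 143633))
    (p (nat_lit 0x89) (nat_lit 1) (p (nat_lit 0x109) (nat_lit 1) (p (nat_lit 0x101) (nat_lit 0) (p (nat_lit 0x119) (nat_lit 0) (p (nat_lit 0xd1) (nat_lit 0) (p (nat_lit 0x81) (nat_lit 0) (p (nat_lit 0x41) (nat_lit 1) (p (nat_lit 0x10a898a08881a) (nat_lit 0) (p (nat_lit 0x8a090988079a) (nat_lit 0) (p (nat_lit 0x108088907871a) (nat_lit 0) (p (nat_lit 0x87880887069a) (nat_lit 0) (p (nat_lit 0x8000080000000088806860a) (nat_lit 0) (p (nat_lit 0x8000080000000068786058a)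 (nat_lit 0) (p (nat_lit 0x10687058502) (nat_lit 0) (p (nat_lit 0x8606850482) (nat_lit 0) (p (nat_lit 0x160004) (nat_lit 0) (p (nat_lit 0x68612) (nat_lit 0) (p (nat_lit 0x50592) (nat_lit 0) (p (nat_lit 0x40512) (nat_lit 0) (p (nat_lit 0x50312) (nat_lit 0) (p (nat_lit 0x38292) (nat_lit 0) (p (nat_lit 0x28212) (nat_lit 0) (p (nat_lit 0x38112) (nat_lit 0) (p (nat_lit 0x20092) (nat_lit 0) (p (nat_lit 0x10012) (nat_lit 0) pn))))))))))))))))))))))))) :=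
  Cl.node (nat_lit 0xc9) (nat_lit 2) (by decide +kernel) (ClAll.succ (ClAll.succ ClAll.zero n648) s1124)

def n701 : Cl (O (nat_lit 6)) (R (nat_lit 143633))
    (p (nat_lit 0x89) (nat_lit 0) (p (nat_lit 0xc1) (nat_lit 0) (p (nat_lit 0x101) (nat_lit 1) (p (nat_lit 0x119) (nat_lit 0) (p (nat_lit 0xd1) (nat_lit 0) (p (nat_lit 0x81) (nat_lit 0) (p (nat_lit 0x41) (nat_lit 1) (p (nat_lit 0x10a898a08881a) (nat_lit 0) (p (nat_lit 0x8a090988079a) (nat_lit 0) (p (nat_lit 0x108088907871a) (nat_lit 0) (p (nat_lit 0x87880887069a) (nat_lit 0) (p (nat_lit 0x8000080000000088806860a) (nat_lit 0) (p (nat_lit 0x8000080000000068786058a) (nat_lit 0) (p (nat_lit 0x10687058502) (nat_lit 0) (p (nat_lit 0x8606850482) (nat_lit 0) (p (nat_lit 0x160004) (nat_lit 0) (p (nat_lit 0x68612) (nat_lit 0) (p (nat_lit 0x50592) (nat_lit 0) (p (nat_lit 0x40512) (nat_lit 0) (p (nat_lit 0x50312) (nat_lit 0) (p (nat_lit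 0x38292) (nat_lit 0) (p (nat_lit 0x28212) (nat_lit 0) (p (nat_lit 0x38112) (nat_lit 0) (p (nat_lit 0x20092) (nat_lit 0) (p (nat_lit 0x10012) (nat_lit 0) pn))))))))))))))))))))))))) :=
  Cl.node (nat_lit 0x3cc2a) (nat_lit 12) (by decide +kernel) (ClAll.succ (ClAll.succ (ClAll.succ (ClAll.succ (ClAll.succ (ClAll.succ (ClAll.succ (ClAll.succ (ClAll.succ (ClAll.succ (ClAll.succ (ClAll.succ ClAll.zero s1125) s1126) s1127) s1128) s1129) s1130) s1131) s1132) s1133) s1134) s1135) n649)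

def n702 : Cl (O (nat_lit 6)) (R (nat_lit 143633))
    (p (nat_lit 0x89) (nat_lit 1) (p (nat_lit 0xc1) (nat_lit 0) (p (nat_lit 0x101) (nat_lit 1) (p (nat_lit 0x119) (nat_lit 0) (p (nat_lit 0xd1) (nat_lit 0) (p (nat_lit 0x81) (nat_lit 0) (p (nat_lit 0x41) (nat_lit 1) (p (nat_lit 0x10a898a08881a) (nat_lit 0) (p (nat_lit 0x8a090988079a) (nat_lit 0) (p (nat_lit 0x108088907871a) (nat_lit 0) (p (nat_lit 0x87880887069a) (nat_lit 0) (p (nat_lit 0x8000080000000088806860a) (nat_lit 0) (p (nat_lit 0x8000080000000068786058a) (nat_lit 0) (p (nat_lit 0x10687058502) (nat_lit 0) (p (nat_lit 0x8606850482) (nat_lit 0) (p (nat_lit 0x160004) (nat_lit 0) (p (nat_lit 0x68612) (nat_lit 0) (p (nat_lit 0x50592) (nat_lit 0) (p (nat_lit 0x40512) (nat_lit 0) (p (nat_lit 0x50312) (nat_lit 0) (p (nat_lit 0x38292) (nat_lit 0) (p (nat_lit 0x28212) (nat_lit 0) (p (nat_lit 0x38112) (nat_lit 0) (p (nat_lit 0x20092)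 (nat_lit 0) (p (nat_lit 0x10012) (nat_lit 0) pn))))))))))))))))))))))))) :=
  Cl.node (nat_lit 0xc9) (nat_lit 2) (by decide +kernel) (ClAll.succ (ClAll.succ ClAll.zero n650) n651)

def n703 : Cl (O (nat_lit 6)) (R (nat_lit 143633))
    (p (nat_lit 0x89) (nat_lit 0) (p (nat_lit 0xc1) (nat_lit 1) (p (nat_lit 0x101) (nat_lit 1) (p (nat_lit 0x119) (nat_lit 0) (p (nat_lit 0xd1) (nat_lit 0) (p (nat_lit 0x81) (nat_lit 0) (p (nat_lit 0x41) (nat_lit 1) (p (nat_lit 0x10a898a08881a) (nat_lit 0) (p (nat_lit 0x8a090988079a) (nat_lit 0) (p (nat_lit 0x108088907871a) (nat_lit 0) (p (nat_lit 0x87880887069a) (nat_lit 0) (p (nat_lit 0x8000080000000088806860a) (nat_lit 0) (p (nat_lit 0x8000080000000068786058a) (nat_lit 0) (p (nat_lit 0x10687058502) (nat_lit 0) (p (nat_lit 0x8606850482) (nat_lit 0) (p (nat_lit 0x160004) (nat_lit 0) (p (nat_lit 0x68612) (nat_lit 0) (p (nat_lit 0x50592) (nat_lit 0)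 (p (nat_lit 0x40512) (nat_lit 0) (p (nat_lit 0x50312) (nat_lit 0) (p (nat_lit 0x38292) (nat_lit 0) (p (nat_lit 0x28212) (nat_lit 0) (p (nat_lit 0x38112) (nat_lit 0) (p (nat_lit 0x20092) (nat_lit 0) (p (nat_lit 0x10012) (nat_lit 0) pn))))))))))))))))))))))))) :=
  Cl.node (nat_lit 0x3cc2a) (nat_lit 12) (by decide +kernel) (ClAll.succ (ClAll.succ (ClAll.succ (ClAll.succ (ClAll.succ (ClAll.succ (ClAll.succ (ClAll.succ (ClAll.succ (ClAll.succ (ClAll.succ (ClAll.succ ClAll.zero s1193) s1194) s1195) s1196) s1197) s1198) s1199) s1200) s1201) s1202) s1203) s1204)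

def n704 : Cl (O (nat_lit 6)) (R (nat_lit 143633))
    (p (nat_lit 0x89) (nat_lit 1) (p (nat_lit 0xc1) (nat_lit 1) (p (nat_lit 0x101) (nat_lit 1) (p (nat_lit 0x119) (nat_lit 0) (p (nat_lit 0xd1) (nat_lit 0) (p (nat_lit 0x81) (nat_lit 0) (p (nat_lit 0x41) (nat_lit 1) (p (nat_lit 0x10a898a08881a) (nat_lit 0) (p (nat_lit 0x8a090988079a) (nat_lit 0) (p (nat_lit 0x108088907871a) (nat_lit 0) (p (nat_lit 0x87880887069a) (nat_lit 0) (p (nat_lit 0x8000080000000088806860a) (nat_lit 0) (p (nat_lit 0x8000080000000068786058a) (nat_lit 0) (p (nat_lit 0x10687058502) (nat_lit 0) (p (nat_lit 0x8606850482) (nat_lit 0) (p (nat_lit 0x160004) (nat_lit 0) (p (nat_lit 0x68612) (nat_lit 0) (p (nat_lit 0x50592) (nat_lit 0) (p (nat_lit 0x40512) (nat_lit 0) (p (nat_lit 0x50312) (nat_lit 0) (p (nat_lit 0x38292) (nat_lit 0) (p (nat_lit 0x28212) (nat_lit 0) (p (nat_lit 0x38112) (nat_lit 0) (p (nat_lit 0x20092)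 (nat_lit 0) (p (nat_lit 0x10012) (nat_lit 0) pn))))))))))))))))))))))))) :=
  Cl.node (nat_lit 0x3c4aa) (nat_lit 12) (by decide +kernel) (ClAll.succ (ClAll.succ (ClAll.succ (ClAll.succ (ClAll.succ (ClAll.succ (ClAll.succ (ClAll.succ (ClAll.succ (ClAll.succ (ClAll.succ (ClAll.succ ClAll.zero s1205) s1206) s1207) s1208) s1209) s1210) s1211) n652) s1215) s1216) s1217) s1218)

def n705 : Cl (O (nat_lit 6)) (R (nat_lit 143633))
    (p (nat_lit 0x89) (nat_lit 1) (p (nat_lit 0xc9) (nat_lit 1) (p (nat_lit 0xc1) (nat_lit 0) (p (nat_lit 0x119) (nat_lit 1) (p (nat_lit 0xd1) (nat_lit 0) (p (nat_lit 0x81) (nat_lit 0) (p (nat_lit 0x41) (nat_lit 1) (p (nat_lit 0x10a898a08881a) (nat_lit 0) (p (nat_lit 0x8a090988079a) (nat_lit 0) (p (nat_lit 0x108088907871a) (nat_lit 0) (p (nat_lit 0x87880887069a) (nat_lit 0) (p (nat_lit 0x8000080000000088806860a) (nat_lit 0) (p (nat_lit 0x8000080000000068786058a)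 (nat_lit 0) (p (nat_lit 0x10687058502) (nat_lit 0) (p (nat_lit 0x8606850482) (nat_lit 0) (p (nat_lit 0x160004) (nat_lit 0) (p (nat_lit 0x68612) (nat_lit 0) (p (nat_lit 0x50592) (nat_lit 0) (p (nat_lit 0x40512) (nat_lit 0) (p (nat_lit 0x50312) (nat_lit 0) (p (nat_lit 0x38292) (nat_lit 0) (p (nat_lit 0x28212) (nat_lit 0) (p (nat_lit 0x38112) (nat_lit 0) (p (nat_lit 0x20092) (nat_lit 0) (p (nat_lit 0x10012) (nat_lit 0) pn))))))))))))))))))))))))) :=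
  Cl.node (nat_lit 0x109) (nat_lit 2) (by decide +kernel) (ClAll.succ (ClAll.succ ClAll.zero n653) n654)

def n706 : Cl (O (nat_lit 6)) (R (nat_lit 143633))
    (p (nat_lit 0x89) (nat_lit 0) (p (nat_lit 0x101) (nat_lit 0) (p (nat_lit 0xc1) (nat_lit 1) (p (nat_lit 0x119) (nat_lit 1) (p (nat_lit 0xd1) (nat_lit 0) (p (nat_lit 0x81) (nat_lit 0) (p (nat_lit 0x41) (nat_lit 1) (p (nat_lit 0x10a898a08881a) (nat_lit 0) (p (nat_lit 0x8a090988079a) (nat_lit 0) (p (nat_lit 0x108088907871a) (nat_lit 0) (p (nat_lit 0x87880887069a) (nat_lit 0) (p (nat_lit 0x8000080000000088806860a) (nat_lit 0) (p (nat_lit 0x8000080000000068786058a) (nat_lit 0) (p (nat_lit 0x10687058502) (nat_lit 0) (p (nat_lit 0x8606850482) (nat_lit 0) (p (nat_lit 0x160004) (nat_lit 0) (p (nat_lit 0x68612) (nat_lit 0) (p (nat_lit 0x50592) (nat_lit 0) (p (nat_lit 0x40512) (nat_lit 0) (p (nat_lit 0x50312) (nat_lit 0) (p (nat_lit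 0x38292) (nat_lit 0) (p (nat_lit 0x28212) (nat_lit 0) (p (nat_lit 0x38112) (nat_lit 0) (p (nat_lit 0x20092) (nat_lit 0) (p (nat_lit 0x10012) (nat_lit 0) pn))))))))))))))))))))))))) :=
  Cl.node (nat_lit 0x44c2a) (nat_lit 12) (by decide +kernel) (ClAll.succ (ClAll.succ (ClAll.succ (ClAll.succ (ClAll.succ (ClAll.succ (ClAll.succ (ClAll.succ (ClAll.succ (ClAll.succ (ClAll.succ (ClAll.succ ClAll.zero s1251) s1252) s1253) s1254) s1255) s1256) s1257) s1258) s1259) s1260) s1261) s1262)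

def n707 : Cl (O (nat_lit 6)) (R (nat_lit 143633))
    (p (nat_lit 0x89) (nat_lit 1) (p (nat_lit 0x101) (nat_lit 0) (p (nat_lit 0xc1) (nat_lit 1) (p (nat_lit 0x119) (nat_lit 1) (p (nat_lit 0xd1) (nat_lit 0) (p (nat_lit 0x81) (nat_lit 0) (p (nat_lit 0x41) (nat_lit 1) (p (nat_lit 0x10a898a08881a) (nat_lit 0) (p (nat_lit 0x8a090988079a) (nat_lit 0) (p (nat_lit 0x108088907871a) (nat_lit 0) (p (nat_lit 0x87880887069a) (nat_lit 0) (p (nat_lit 0x8000080000000088806860a) (nat_lit 0) (p (nat_lit 0x8000080000000068786058a) (nat_lit 0) (p (nat_lit 0x10687058502) (nat_lit 0) (p (nat_lit 0x8606850482) (nat_lit 0) (p (nat_lit 0x160004) (nat_lit 0) (p (nat_lit 0x68612) (nat_lit 0) (p (nat_lit 0x50592) (nat_lit 0) (p (nat_lit 0x40512) (nat_lit 0) (p (nat_lit 0x50312) (nat_lit 0) (p (nat_lit 0x38292) (nat_lit 0) (p (nat_lit 0x28212) (nat_lit 0) (p (nat_lit 0x38112) (nat_lit 0) (p (nat_lit 0x20092)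 (nat_lit 0) (p (nat_lit 0x10012) (nat_lit 0) pn))))))))))))))))))))))))) :=
  Cl.node (nat_lit 0x109) (nat_lit 2) (by decide +kernel) (ClAll.succ (ClAll.succ ClAll.zero n655) n656)

def n708 : Cl (O (nat_lit 6)) (R (nat_lit 143633))
    (p (nat_lit 0x89) (nat_lit 0) (p (nat_lit 0x101) (nat_lit 1) (p (nat_lit 0xc1) (nat_lit 1) (p (nat_lit 0x119) (nat_lit 1) (p (nat_lit 0xd1) (nat_lit 0) (p (nat_lit 0x81) (nat_lit 0) (p (nat_lit 0x41) (nat_lit 1) (p (nat_lit 0x10a898a08881a) (nat_lit 0) (p (nat_lit 0x8a090988079a) (nat_lit 0) (p (nat_lit 0x108088907871a) (nat_lit 0) (p (nat_lit 0x87880887069a) (nat_lit 0) (p (nat_lit 0x8000080000000088806860a) (nat_lit 0) (p (nat_lit 0x8000080000000068786058a) (nat_lit 0) (p (nat_lit 0x10687058502) (nat_lit 0) (p (nat_lit 0x8606850482) (nat_lit 0) (p (nat_lit 0x160004) (nat_lit 0) (p (nat_lit 0x68612) (nat_lit 0) (p (nat_lit 0x50592) (nat_lit 0)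 (p (nat_lit 0x40512) (nat_lit 0) (p (nat_lit 0x50312) (nat_lit 0) (p (nat_lit 0x38292) (nat_lit 0) (p (nat_lit 0x28212) (nat_lit 0) (p (nat_lit 0x38112) (nat_lit 0) (p (nat_lit 0x20092) (nat_lit 0) (p (nat_lit 0x10012) (nat_lit 0) pn))))))))))))))))))))))))) :=
  Cl.node (nat_lit 0x3cc2a) (nat_lit 12) (by decide +kernel) (ClAll.succ (ClAll.succ (ClAll.succ (ClAll.succ (ClAll.succ (ClAll.succ (ClAll.succ (ClAll.succ (ClAll.succ (ClAll.succ (ClAll.succ (ClAll.succ ClAll.zero s1299) s1300) s1301) s1302) s1303) s1304) s1305) s1306) s1307) s1308) s1309) n657)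

def n709 : Cl (O (nat_lit 6)) (R (nat_lit 143633))
    (p (nat_lit 0x89) (nat_lit 1) (p (nat_lit 0x101) (nat_lit 1) (p (nat_lit 0xc1) (nat_lit 1) (p (nat_lit 0x119) (nat_lit 1) (p (nat_lit 0xd1) (nat_lit 0) (p (nat_lit 0x81) (nat_lit 0) (p (nat_lit 0x41) (nat_lit 1) (p (nat_lit 0x10a898a08881a) (nat_lit 0) (p (nat_lit 0x8a090988079a) (nat_lit 0) (p (nat_lit 0x108088907871a) (nat_lit 0) (p (nat_lit 0x87880887069a) (nat_lit 0) (p (nat_lit 0x8000080000000088806860a) (nat_lit 0) (p (nat_lit 0x8000080000000068786058a) (nat_lit 0) (p (nat_lit 0x10687058502) (nat_lit 0) (p (nat_lit 0x8606850482) (nat_lit 0) (p (nat_lit 0x160004) (nat_lit 0) (p (nat_lit 0x68612) (nat_lit 0) (p (nat_lit 0x50592) (nat_lit 0) (p (nat_lit 0x40512) (nat_lit 0) (p (nat_lit 0x50312) (nat_lit 0) (p (nat_lit 0x38292) (nat_lit 0) (p (nat_lit 0x28212) (nat_lit 0) (p (nat_lit 0x38112) (nat_lit 0) (p (nat_lit 0x20092)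 (nat_lit 0) (p (nat_lit 0x10012) (nat_lit 0) pn))))))))))))))))))))))))) :=
  Cl.node (nat_lit 0x3c4aa) (nat_lit 12) (by decide +kernel) (ClAll.succ (ClAll.succ (ClAll.succ (ClAll.succ (ClAll.succ (ClAll.succ (ClAll.succ (ClAll.succ (ClAll.succ (ClAll.succ (ClAll.succ (ClAll.succ ClAll.zero s1316) s1317) s1318) s1319) s1320) s1321) s1322) n658) s1351) s1352) s1353) s1354)

def n710 : Cl (O (nat_lit 6)) (R (nat_lit 143633))
    (p (nat_lit 0x89) (nat_lit 0) (p (nat_lit 0x109) (nat_lit 1) (p (nat_lit 0x101) (nat_lit 0) (p (nat_lit 0x111) (nat_lit 0) (p (nat_lit 0xd1) (nat_lit 1) (p (nat_lit 0x81) (nat_lit 0) (p (nat_lit 0x41) (nat_lit 1) (p (nat_lit 0x10a898a08881a) (nat_lit 0) (p (nat_lit 0x8a090988079a) (nat_lit 0) (p (nat_lit 0x108088907871a) (nat_lit 0) (p (nat_lit 0x87880887069a) (nat_lit 0) (p (nat_lit 0x8000080000000088806860a) (nat_lit 0) (p (nat_lit 0x8000080000000068786058a)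 (nat_lit 0) (p (nat_lit 0x10687058502) (nat_lit 0) (p (nat_lit 0x8606850482) (nat_lit 0) (p (nat_lit 0x160004) (nat_lit 0) (p (nat_lit 0x68612) (nat_lit 0) (p (nat_lit 0x50592) (nat_lit 0) (p (nat_lit 0x40512) (nat_lit 0) (p (nat_lit 0x50312) (nat_lit 0) (p (nat_lit 0x38292) (nat_lit 0) (p (nat_lit 0x28212) (nat_lit 0) (p (nat_lit 0x38112) (nat_lit 0) (p (nat_lit 0x20092) (nat_lit 0) (p (nat_lit 0x10012) (nat_lit 0) pn))))))))))))))))))))))))) :=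
  Cl.node (nat_lit 0x119) (nat_lit 2) (by decide +kernel) (ClAll.succ (ClAll.succ ClAll.zero s1356) n659)

def n711 : Cl (O (nat_lit 6)) (R (nat_lit 143633))
    (p (nat_lit 0x89) (nat_lit 1) (p (nat_lit 0x109) (nat_lit 1) (p (nat_lit 0x101) (nat_lit 0) (p (nat_lit 0x111) (nat_lit 0) (p (nat_lit 0xd1) (nat_lit 1) (p (nat_lit 0x81) (nat_lit 0) (p (nat_lit 0x41) (nat_lit 1) (p (nat_lit 0x10a898a08881a) (nat_lit 0) (p (nat_lit 0x8a090988079a) (nat_lit 0) (p (nat_lit 0x108088907871a) (nat_lit 0) (p (nat_lit 0x87880887069a) (nat_lit 0) (p (nat_lit 0x8000080000000088806860a) (nat_lit 0) (p (nat_lit 0x8000080000000068786058a) (nat_lit 0) (p (nat_lit 0x10687058502) (nat_lit 0) (p (nat_lit 0x8606850482) (nat_lit 0) (p (nat_lit 0x160004) (nat_lit 0) (p (nat_lit 0x68612) (nat_lit 0) (p (nat_lit 0x50592) (nat_lit 0) (p (nat_lit 0x40512) (nat_lit 0) (p (nat_lit 0x50312) (nat_lit 0) (p (nat_lit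 0x38292) (nat_lit 0) (p (nat_lit 0x28212) (nat_lit 0) (p (nat_lit 0x38112) (nat_lit 0) (p (nat_lit 0x20092) (nat_lit 0) (p (nat_lit 0x10012) (nat_lit 0) pn))))))))))))))))))))))))) :=
  Cl.node (nat_lit 0xc9) (nat_lit 2) (by decide +kernel) (ClAll.succ (ClAll.succ ClAll.zero n660) s1421)

def n712 : Cl (O (nat_lit 6)) (R (nat_lit 143633))
    (p (nat_lit 0x3cc2a) (nat_lit 1) (p (nat_lit 0x89) (nat_lit 0) (p (nat_lit 0x101) (nat_lit 1) (p (nat_lit 0x111) (nat_lit 0) (p (nat_lit 0xd1) (nat_lit 1) (p (nat_lit 0x81) (nat_lit 0) (p (nat_lit 0x41) (nat_lit 1) (p (nat_lit 0x10a898a08881a) (nat_lit 0) (p (nat_lit 0x8a090988079a) (nat_lit 0) (p (nat_lit 0x108088907871a) (nat_lit 0) (p (nat_lit 0x87880887069a) (nat_lit 0) (p (nat_lit 0x8000080000000088806860a) (nat_lit 0) (p (nat_lit 0x8000080000000068786058a) (nat_lit 0) (p (nat_lit 0x10687058502) (nat_lit 0) (p (nat_lit 0x8606850482)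 (nat_lit 0) (p (nat_lit 0x160004) (nat_lit 0) (p (nat_lit 0x68612) (nat_lit 0) (p (nat_lit 0x50592) (nat_lit 0) (p (nat_lit 0x40512) (nat_lit 0) (p (nat_lit 0x50312) (nat_lit 0) (p (nat_lit 0x38292) (nat_lit 0) (p (nat_lit 0x28212) (nat_lit 0) (p (nat_lit 0x38112) (nat_lit 0) (p (nat_lit 0x20092) (nat_lit 0) (p (nat_lit 0x10012) (nat_lit 0) pn))))))))))))))))))))))))) :=
  Cl.node (nat_lit 0x380c2) (nat_lit 1) (by decide +kernel) (ClAll.succ ClAll.zero n661)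

def n713 : Cl (O (nat_lit 6)) (R (nat_lit 143633))
    (p (nat_lit 0xc9) (nat_lit 0) (p (nat_lit 0x89) (nat_lit 1) (p (nat_lit 0x101) (nat_lit 1) (p (nat_lit 0x111) (nat_lit 0) (p (nat_lit 0xd1) (nat_lit 1) (p (nat_lit 0x81) (nat_lit 0) (p (nat_lit 0x41) (nat_lit 1) (p (nat_lit 0x10a898a08881a) (nat_lit 0) (p (nat_lit 0x8a090988079a) (nat_lit 0) (p (nat_lit 0x108088907871a) (nat_lit 0) (p (nat_lit 0x87880887069a) (nat_lit 0) (p (nat_lit 0x8000080000000088806860a) (nat_lit 0) (p (nat_lit 0x8000080000000068786058a) (nat_lit 0) (p (nat_lit 0x10687058502) (nat_lit 0) (p (nat_lit 0x8606850482) (nat_lit 0) (p (nat_lit 0x160004) (nat_lit 0) (p (nat_lit 0x68612) (nat_lit 0) (p (nat_lit 0x50592) (nat_lit 0) (p (nat_lit 0x40512) (nat_lit 0) (p (nat_lit 0x50312) (nat_lit 0) (p (nat_lit 0x38292) (nat_lit 0) (p (nat_lit 0x28212) (nat_lit 0) (p (nat_lit 0x38112) (nat_lit 0) (p (nat_lit 0x20092)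 (nat_lit 0) (p (nat_lit 0x10012) (nat_lit 0) pn))))))))))))))))))))))))) :=
  Cl.node (nat_lit 0x3cc2a) (nat_lit 12) (by decide +kernel) (ClAll.succ (ClAll.succ (ClAll.succ (ClAll.succ (ClAll.succ (ClAll.succ (ClAll.succ (ClAll.succ (ClAll.succ (ClAll.succ (ClAll.succ (ClAll.succ ClAll.zero s1435) s1436) s1437) s1438) s1439) s1440) s1441) s1442) s1443) s1444) s1445) n662)

def n714 : Cl (O (nat_lit 6)) (R (nat_lit 143633))
    (p (nat_lit 0xc9) (nat_lit 1) (p (nat_lit 0x89) (nat_lit 1) (p (nat_lit 0x101) (nat_lit 1) (p (nat_lit 0x111) (nat_lit 0) (p (nat_lit 0xd1) (nat_lit 1) (p (nat_lit 0x81) (nat_lit 0) (p (nat_lit 0x41) (nat_lit 1) (p (nat_lit 0x10a898a08881a) (nat_lit 0) (p (nat_lit 0x8a090988079a) (nat_lit 0) (p (nat_lit 0x108088907871a) (nat_lit 0) (p (nat_lit 0x87880887069a) (nat_lit 0) (p (nat_lit 0x8000080000000088806860a) (nat_lit 0) (p (nat_lit 0x8000080000000068786058a)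 (nat_lit 0) (p (nat_lit 0x10687058502) (nat_lit 0) (p (nat_lit 0x8606850482) (nat_lit 0) (p (nat_lit 0x160004) (nat_lit 0) (p (nat_lit 0x68612) (nat_lit 0) (p (nat_lit 0x50592) (nat_lit 0) (p (nat_lit 0x40512) (nat_lit 0) (p (nat_lit 0x50312) (nat_lit 0) (p (nat_lit 0x38292) (nat_lit 0) (p (nat_lit 0x28212) (nat_lit 0) (p (nat_lit 0x38112) (nat_lit 0) (p (nat_lit 0x20092) (nat_lit 0) (p (nat_lit 0x10012) (nat_lit 0) pn))))))))))))))))))))))))) :=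
  Cl.node (nat_lit 0x3c4aa) (nat_lit 12) (by decide +kernel) (ClAll.succ (ClAll.succ (ClAll.succ (ClAll.succ (ClAll.succ (ClAll.succ (ClAll.succ (ClAll.succ (ClAll.succ (ClAll.succ (ClAll.succ (ClAll.succ ClAll.zero s1453) s1454) s1455) s1456) s1457) s1458) s1459) s1460) s1461) s1462) s1463) s1464)

def n715 : Cl (O (nat_lit 6)) (R (nat_lit 143633))
    (p (nat_lit 0x109) (nat_lit 0) (p (nat_lit 0xc9) (nat_lit 1) (p (nat_lit 0x89) (nat_lit 1) (p (nat_lit 0x111) (nat_lit 1) (p (nat_lit 0xd1) (nat_lit 1) (p (nat_lit 0x81) (nat_lit 0) (p (nat_lit 0x41) (nat_lit 1) (p (nat_lit 0x10a898a08881a) (nat_lit 0) (p (nat_lit 0x8a090988079a) (nat_lit 0) (p (nat_lit 0x108088907871a) (nat_lit 0) (p (nat_lit 0x87880887069a) (nat_lit 0) (p (nat_lit 0x8000080000000088806860a) (nat_lit 0) (p (nat_lit 0x8000080000000068786058a) (nat_lit 0) (p (nat_lit 0x10687058502) (nat_lit 0) (p (nat_lit 0x8606850482)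 (nat_lit 0) (p (nat_lit 0x160004) (nat_lit 0) (p (nat_lit 0x68612) (nat_lit 0) (p (nat_lit 0x50592) (nat_lit 0) (p (nat_lit 0x40512) (nat_lit 0) (p (nat_lit 0x50312) (nat_lit 0) (p (nat_lit 0x38292) (nat_lit 0) (p (nat_lit 0x28212) (nat_lit 0) (p (nat_lit 0x38112) (nat_lit 0) (p (nat_lit 0x20092) (nat_lit 0) (p (nat_lit 0x10012) (nat_lit 0) pn))))))))))))))))))))))))) :=
  Cl.node (nat_lit 0x3cc2a) (nat_lit 12) (by decide +kernel) (ClAll.succ (ClAll.succ (ClAll.succ (ClAll.succ (ClAll.succ (ClAll.succ (ClAll.succ (ClAll.succ (ClAll.succ (ClAll.succ (ClAll.succ (ClAll.succ ClAll.zero s1467) s1468) s1469) s1470) s1471) s1472) s1473) s1474) s1475) s1476) s1477) s1478)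

def n716 : Cl (O (nat_lit 6)) (R (nat_lit 143633))
    (p (nat_lit 0x111) (nat_lit 1) (p (nat_lit 0x109) (nat_lit 0) (p (nat_lit 0x101) (nat_lit 0) (p (nat_lit 0x119) (nat_lit 0) (p (nat_lit 0xc1) (nat_lit 0) (p (nat_lit 0x81) (nat_lit 1) (p (nat_lit 0x41) (nat_lit 1) (p (nat_lit 0x10a898a08881a) (nat_lit 0) (p (nat_lit 0x8a090988079a) (nat_lit 0) (p (nat_lit 0x108088907871a) (nat_lit 0) (p (nat_lit 0x87880887069a) (nat_lit 0) (p (nat_lit 0x8000080000000088806860a) (nat_lit 0) (p (nat_lit 0x8000080000000068786058a) (nat_lit 0) (p (nat_lit 0x10687058502) (nat_lit 0) (p (nat_lit 0x8606850482) (nat_lit 0) (p (nat_lit 0x160004) (nat_lit 0) (p (nat_lit 0x68612) (nat_lit 0) (p (nat_lit 0x50592) (nat_lit 0) (p (nat_lit 0x40512) (nat_lit 0) (p (nat_lit 0x50312) (nat_lit 0) (p (nat_lit 0x38292) (nat_lit 0) (p (nat_lit 0x28212) (nat_lit 0) (p (nat_lit 0x38112) (nat_lit 0) (p (nat_lit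 0x20092) (nat_lit 0) (p (nat_lit 0x10012) (nat_lit 0) pn))))))))))))))))))))))))) :=
  Cl.node (nat_lit 0xd1) (nat_lit 2) (by decide +kernel) (ClAll.succ (ClAll.succ ClAll.zero s1481) n663)

def n717 : Cl (O (nat_lit 6)) (R (nat_lit 143633))
    (p (nat_lit 0xc9) (nat_lit 0) (p (nat_lit 0x109) (nat_lit 1) (p (nat_lit 0x101) (nat_lit 0) (p (nat_lit 0x119) (nat_lit 0) (p (nat_lit 0xc1) (nat_lit 0) (p (nat_lit 0x81) (nat_lit 1) (p (nat_lit 0x41) (nat_lit 1) (p (nat_lit 0x10a898a08881a) (nat_lit 0) (p (nat_lit 0x8a090988079a) (nat_lit 0) (p (nat_lit 0x108088907871a) (nat_lit 0) (p (nat_lit 0x87880887069a) (nat_lit 0) (p (nat_lit 0x8000080000000088806860a) (nat_lit 0) (p (nat_lit 0x8000080000000068786058a) (nat_lit 0) (p (nat_lit 0x10687058502) (nat_lit 0) (p (nat_lit 0x8606850482) (nat_lit 0) (p (nat_lit 0x160004) (nat_lit 0) (p (nat_lit 0x68612) (nat_lit 0) (p (nat_lit 0x50592)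 (nat_lit 0) (p (nat_lit 0x40512) (nat_lit 0) (p (nat_lit 0x50312) (nat_lit 0) (p (nat_lit 0x38292) (nat_lit 0) (p (nat_lit 0x28212) (nat_lit 0) (p (nat_lit 0x38112) (nat_lit 0) (p (nat_lit 0x20092) (nat_lit 0) (p (nat_lit 0x10012) (nat_lit 0) pn))))))))))))))))))))))))) :=
  Cl.node (nat_lit 0xd1) (nat_lit 2) (by decide +kernel) (ClAll.succ (ClAll.succ ClAll.zero s1566) n664)

def n718 : Cl (O (nat_lit 6)) (R (nat_lit 143633))
    (p (nat_lit 0xd1) (nat_lit 0) (p (nat_lit 0xc9) (nat_lit 0) (p (nat_lit 0x101) (nat_lit 1) (p (nat_lit 0x119) (nat_lit 0) (p (nat_lit 0xc1) (nat_lit 0) (p (nat_lit 0x81) (nat_lit 1) (p (nat_lit 0x41) (nat_lit 1) (p (nat_lit 0x10a898a08881a) (nat_lit 0) (p (nat_lit 0x8a090988079a) (nat_lit 0) (p (nat_lit 0x108088907871a) (nat_lit 0) (p (nat_lit 0x87880887069a) (nat_lit 0) (p (nat_lit 0x8000080000000088806860a) (nat_lit 0) (p (nat_lit 0x8000080000000068786058a)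 (nat_lit 0) (p (nat_lit 0x10687058502) (nat_lit 0) (p (nat_lit 0x8606850482) (nat_lit 0) (p (nat_lit 0x160004) (nat_lit 0) (p (nat_lit 0x68612) (nat_lit 0) (p (nat_lit 0x50592) (nat_lit 0) (p (nat_lit 0x40512) (nat_lit 0) (p (nat_lit 0x50312) (nat_lit 0) (p (nat_lit 0x38292) (nat_lit 0) (p (nat_lit 0x28212) (nat_lit 0) (p (nat_lit 0x38112) (nat_lit 0) (p (nat_lit 0x20092) (nat_lit 0) (p (nat_lit 0x10012) (nat_lit 0) pn))))))))))))))))))))))))) :=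
  Cl.node (nat_lit 0x44c2a) (nat_lit 12) (by decide +kernel) (ClAll.succ (ClAll.succ (ClAll.succ (ClAll.succ (ClAll.succ (ClAll.succ (ClAll.succ (ClAll.succ (ClAll.succ (ClAll.succ (ClAll.succ (ClAll.succ ClAll.zero n665) n666) s1619) s1620) s1621) s1622) s1623) s1624) s1625) s1626) s1627) s1628)

def n719 : Cl (O (nat_lit 6)) (R (nat_lit 143633))
    (p (nat_lit 0xd1) (nat_lit 1) (p (nat_lit 0xc9) (nat_lit 0) (p (nat_lit 0x101) (nat_lit 1) (p (nat_lit 0x119) (nat_lit 0) (p (nat_lit 0xc1) (nat_lit 0) (p (nat_lit 0x81) (nat_lit 1) (p (nat_lit 0x41) (nat_lit 1) (p (nat_lit 0x10a898a08881a) (nat_lit 0) (p (nat_lit 0x8a090988079a) (nat_lit 0) (p (nat_lit 0x108088907871a) (nat_lit 0) (p (nat_lit 0x87880887069a) (nat_lit 0) (p (nat_lit 0x8000080000000088806860a) (nat_lit 0) (p (nat_lit 0x8000080000000068786058a) (nat_lit 0) (p (nat_lit 0x10687058502) (nat_lit 0) (p (nat_lit 0x8606850482)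 (nat_lit 0) (p (nat_lit 0x160004) (nat_lit 0) (p (nat_lit 0x68612) (nat_lit 0) (p (nat_lit 0x50592) (nat_lit 0) (p (nat_lit 0x40512) (nat_lit 0) (p (nat_lit 0x50312) (nat_lit 0) (p (nat_lit 0x38292) (nat_lit 0) (p (nat_lit 0x28212) (nat_lit 0) (p (nat_lit 0x38112) (nat_lit 0) (p (nat_lit 0x20092) (nat_lit 0) (p (nat_lit 0x10012) (nat_lit 0) pn))))))))))))))))))))))))) :=
  Cl.node (nat_lit 0x3c4aa) (nat_lit 12) (by decide +kernel) (ClAll.succ (ClAll.succ (ClAll.succ (ClAll.succ (ClAll.succ (ClAll.succ (ClAll.succ (ClAll.succ (ClAll.succ (ClAll.succ (ClAll.succ (ClAll.succ ClAll.zero s1629) s1630) s1631) s1632) s1633) s1634) s1635) n667) s1685) s1686) s1687) s1688)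

def n720 : Cl (O (nat_lit 6)) (R (nat_lit 143633))
    (p (nat_lit 0x111) (nat_lit 1) (p (nat_lit 0xd1) (nat_lit 1) (p (nat_lit 0xc9) (nat_lit 0) (p (nat_lit 0x119) (nat_lit 1) (p (nat_lit 0xc1) (nat_lit 0) (p (nat_lit 0x81) (nat_lit 1) (p (nat_lit 0x41) (nat_lit 1) (p (nat_lit 0x10a898a08881a) (nat_lit 0) (p (nat_lit 0x8a090988079a) (nat_lit 0) (p (nat_lit 0x108088907871a) (nat_lit 0) (p (nat_lit 0x87880887069a) (nat_lit 0) (p (nat_lit 0x8000080000000088806860a) (nat_lit 0) (p (nat_lit 0x8000080000000068786058a) (nat_lit 0) (p (nat_lit 0x10687058502) (nat_lit 0) (p (nat_lit 0x8606850482) (nat_lit 0) (p (nat_lit 0x160004) (nat_lit 0) (p (nat_lit 0x68612) (nat_lit 0) (p (nat_lit 0x50592) (nat_lit 0) (p (nat_lit 0x40512) (nat_lit 0) (p (nat_lit 0x50312) (nat_lit 0) (p (nat_lit 0x38292) (nat_lit 0) (p (nat_lit 0x28212) (nat_lit 0) (p (nat_lit 0x38112) (nat_lit 0) (p (nat_lit 0x20092)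 (nat_lit 0) (p (nat_lit 0x10012) (nat_lit 0) pn))))))))))))))))))))))))) :=
  Cl.node (nat_lit 0x3c4aa) (nat_lit 12) (by decide +kernel) (ClAll.succ (ClAll.succ (ClAll.succ (ClAll.succ (ClAll.succ (ClAll.succ (ClAll.succ (ClAll.succ (ClAll.succ (ClAll.succ (ClAll.succ (ClAll.succ ClAll.zero s1692) s1693) s1694) s1695) s1696) s1697) s1698) n668) s1713) s1714) s1715) s1716)

def n721 : Cl (O (nat_lit 6)) (R (nat_lit 143633))
    (p (nat_lit 0x111) (nat_lit 0) (p (nat_lit 0x109) (nat_lit 0) (p (nat_lit 0xc9) (nat_lit 1) (p (nat_lit 0x119) (nat_lit 1) (p (nat_lit 0xc1) (nat_lit 0) (p (nat_lit 0x81) (nat_lit 1) (p (nat_lit 0x41) (nat_lit 1) (p (nat_lit 0x10a898a08881a) (nat_lit 0) (p (nat_lit 0x8a090988079a) (nat_lit 0) (p (nat_lit 0x108088907871a) (nat_lit 0) (p (nat_lit 0x87880887069a) (nat_lit 0) (p (nat_lit 0x8000080000000088806860a) (nat_lit 0) (p (nat_lit 0x8000080000000068786058a)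 (nat_lit 0) (p (nat_lit 0x10687058502) (nat_lit 0) (p (nat_lit 0x8606850482) (nat_lit 0) (p (nat_lit 0x160004) (nat_lit 0) (p (nat_lit 0x68612) (nat_lit 0) (p (nat_lit 0x50592) (nat_lit 0) (p (nat_lit 0x40512) (nat_lit 0) (p (nat_lit 0x50312) (nat_lit 0) (p (nat_lit 0x38292) (nat_lit 0) (p (nat_lit 0x28212) (nat_lit 0) (p (nat_lit 0x38112) (nat_lit 0) (p (nat_lit 0x20092) (nat_lit 0) (p (nat_lit 0x10012) (nat_lit 0) pn))))))))))))))))))))))))) :=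
  Cl.node (nat_lit 0x44c2a) (nat_lit 12) (by decide +kernel) (ClAll.succ (ClAll.succ (ClAll.succ (ClAll.succ (ClAll.succ (ClAll.succ (ClAll.succ (ClAll.succ (ClAll.succ (ClAll.succ (ClAll.succ (ClAll.succ ClAll.zero s1717) n669) s1720) s1721) s1722) s1723) s1724) s1725) s1726) s1727) s1728) s1729)

def n722 : Cl (O (nat_lit 6)) (R (nat_lit 143633))
    (p (nat_lit 0x111) (nat_lit 1) (p (nat_lit 0x109) (nat_lit 0) (p (nat_lit 0xc9) (nat_lit 1) (p (nat_lit 0x119) (nat_lit 1) (p (nat_lit 0xc1) (nat_lit 0) (p (nat_lit 0x81) (nat_lit 1) (p (nat_lit 0x41) (nat_lit 1) (p (nat_lit 0x10a898a08881a) (nat_lit 0) (p (nat_lit 0x8a090988079a) (nat_lit 0) (p (nat_lit 0x108088907871a) (nat_lit 0) (p (nat_lit 0x87880887069a) (nat_lit 0) (p (nat_lit 0x8000080000000088806860a) (nat_lit 0) (p (nat_lit 0x8000080000000068786058a) (nat_lit 0) (p (nat_lit 0x10687058502) (nat_lit 0) (p (nat_lit 0x8606850482)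 (nat_lit 0) (p (nat_lit 0x160004) (nat_lit 0) (p (nat_lit 0x68612) (nat_lit 0) (p (nat_lit 0x50592) (nat_lit 0) (p (nat_lit 0x40512) (nat_lit 0) (p (nat_lit 0x50312) (nat_lit 0) (p (nat_lit 0x38292) (nat_lit 0) (p (nat_lit 0x28212) (nat_lit 0) (p (nat_lit 0x38112) (nat_lit 0) (p (nat_lit 0x20092) (nat_lit 0) (p (nat_lit 0x10012) (nat_lit 0) pn))))))))))))))))))))))))) :=
  Cl.node (nat_lit 0x3c4aa) (nat_lit 12) (by decide +kernel) (ClAll.succ (ClAll.succ (ClAll.succ (ClAll.succ (ClAll.succ (ClAll.succ (ClAll.succ (ClAll.succ (ClAll.succ (ClAll.succ (ClAll.succ (ClAll.succ ClAll.zero s1730) s1731) s1732) s1733) s1734) s1735) s1736) n670) s1752) s1753) s1754) s1755)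

def n723 : Cl (O (nat_lit 6)) (R (nat_lit 143633))
    (p (nat_lit 0x3c4aa) (nat_lit 10) (p (nat_lit 0x109) (nat_lit 1) (p (nat_lit 0xc9) (nat_lit 1) (p (nat_lit 0x119) (nat_lit 1) (p (nat_lit 0xc1) (nat_lit 0) (p (nat_lit 0x81) (nat_lit 1) (p (nat_lit 0x41) (nat_lit 1) (p (nat_lit 0x10a898a08881a) (nat_lit 0) (p (nat_lit 0x8a090988079a) (nat_lit 0) (p (nat_lit 0x108088907871a) (nat_lit 0) (p (nat_lit 0x87880887069a) (nat_lit 0) (p (nat_lit 0x8000080000000088806860a) (nat_lit 0) (p (nat_lit 0x8000080000000068786058a) (nat_lit 0) (p (nat_lit 0x10687058502) (nat_lit 0) (p (nat_lit 0x8606850482) (nat_lit 0) (p (nat_lit 0x160004) (nat_lit 0) (p (nat_lit 0x68612) (nat_lit 0) (p (nat_lit 0x50592) (nat_lit 0) (p (nat_lit 0x40512) (nat_lit 0) (p (nat_lit 0x50312) (nat_lit 0) (p (nat_lit 0x38292) (nat_lit 0) (p (nat_lit 0x28212) (nat_lit 0) (p (nat_lit 0x38112) (nat_lit 0) (p (nat_lit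 0x20092) (nat_lit 0) (p (nat_lit 0x10012) (nat_lit 0) pn))))))))))))))))))))))))) :=
  Cl.node (nat_lit 0x380c2) (nat_lit 2) (by decide +kernel) (ClAll.succ (ClAll.succ ClAll.zero n671) s1770)

def n724 : Cl (O (nat_lit 6)) (R (nat_lit 143633))
    (p (nat_lit 0x119) (nat_lit 1) (p (nat_lit 0x111) (nat_lit 0) (p (nat_lit 0x109) (nat_lit 0) (p (nat_lit 0x101) (nat_lit 0) (p (nat_lit 0xc1) (nat_lit 1) (p (nat_lit 0x81) (nat_lit 1) (p (nat_lit 0x41) (nat_lit 1) (p (nat_lit 0x10a898a08881a) (nat_lit 0) (p (nat_lit 0x8a090988079a) (nat_lit 0) (p (nat_lit 0x108088907871a) (nat_lit 0) (p (nat_lit 0x87880887069a) (nat_lit 0) (p (nat_lit 0x8000080000000088806860a) (nat_lit 0) (p (nat_lit 0x8000080000000068786058a) (nat_lit 0) (p (nat_lit 0x10687058502) (nat_lit 0) (p (nat_lit 0x8606850482) (nat_lit 0) (p (nat_lit 0x160004) (nat_lit 0) (p (nat_lit 0x68612) (nat_lit 0) (p (nat_lit 0x50592)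 (nat_lit 0) (p (nat_lit 0x40512) (nat_lit 0) (p (nat_lit 0x50312) (nat_lit 0) (p (nat_lit 0x38292) (nat_lit 0) (p (nat_lit 0x28212) (nat_lit 0) (p (nat_lit 0x38112) (nat_lit 0) (p (nat_lit 0x20092) (nat_lit 0) (p (nat_lit 0x10012) (nat_lit 0) pn))))))))))))))))))))))))) :=
  Cl.node (nat_lit 0x3c4aa) (nat_lit 12) (by decide +kernel) (ClAll.succ (ClAll.succ (ClAll.succ (ClAll.succ (ClAll.succ (ClAll.succ (ClAll.succ (ClAll.succ (ClAll.succ (ClAll.succ (ClAll.succ (ClAll.succ ClAll.zero s1773) s1774) s1775) s1776) s1777) s1778) s1779) n672) s1782) s1783) s1784) s1785)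

def n725 : Cl (O (nat_lit 6)) (R (nat_lit 143633))
    (p (nat_lit 0x109) (nat_lit 1) (p (nat_lit 0x101) (nat_lit 0) (p (nat_lit 0x119) (nat_lit 0) (p (nat_lit 0xd1) (nat_lit 0) (p (nat_lit 0x89) (nat_lit 0) (p (nat_lit 0x41) (nat_lit 0) (p (nat_lit 0x10a898a08881a) (nat_lit 0) (p (nat_lit 0x8a090988079a) (nat_lit 0) (p (nat_lit 0x108088907871a) (nat_lit 0) (p (nat_lit 0x87880887069a) (nat_lit 0) (p (nat_lit 0x8000080000000088806860a) (nat_lit 0) (p (nat_lit 0x8000080000000068786058a) (nat_lit 0) (p (nat_lit 0x10687058502) (nat_lit 0) (p (nat_lit 0x8606850482) (nat_lit 0) (p (nat_lit 0x160004) (nat_lit 0) (p (nat_lit 0x68612) (nat_lit 0) (p (nat_lit 0x50592) (nat_lit 0) (p (nat_lit 0x40512) (nat_lit 0) (p (nat_lit 0x50312) (nat_lit 0) (p (nat_lit 0x38292) (nat_lit 0) (p (nat_lit 0x28212) (nat_lit 0) (p (nat_lit 0x38112) (nat_lit 0) (p (nat_lit 0x20092) (nat_lit 0) (p (nat_lit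 0x10012) (nat_lit 0) pn)))))))))))))))))))))))) :=
  Cl.node (nat_lit 0xc9) (nat_lit 2) (by decide +kernel) (ClAll.succ (ClAll.succ ClAll.zero s1) n673)

def n726 : Cl (O (nat_lit 6)) (R (nat_lit 143633))
    (p (nat_lit 0x81) (nat_lit 0) (p (nat_lit 0x101) (nat_lit 1) (p (nat_lit 0x119) (nat_lit 0) (p (nat_lit 0xd1) (nat_lit 0) (p (nat_lit 0x89) (nat_lit 0) (p (nat_lit 0x41) (nat_lit 0) (p (nat_lit 0x10a898a08881a) (nat_lit 0) (p (nat_lit 0x8a090988079a) (nat_lit 0) (p (nat_lit 0x108088907871a) (nat_lit 0) (p (nat_lit 0x87880887069a) (nat_lit 0) (p (nat_lit 0x8000080000000088806860a) (nat_lit 0) (p (nat_lit 0x8000080000000068786058a) (nat_lit 0) (p (nat_lit 0x10687058502) (nat_lit 0) (p (nat_lit 0x8606850482) (nat_lit 0) (p (nat_lit 0x160004) (nat_lit 0) (p (nat_lit 0x68612) (nat_lit 0) (p (nat_lit 0x50592) (nat_lit 0) (p (nat_lit 0x40512) (nat_lit 0) (p (nat_lit 0x50312) (nat_lit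 0) (p (nat_lit 0x38292) (nat_lit 0) (p (nat_lit 0x28212) (nat_lit 0) (p (nat_lit 0x38112) (nat_lit 0) (p (nat_lit 0x20092) (nat_lit 0) (p (nat_lit 0x10012) (nat_lit 0) pn)))))))))))))))))))))))) :=
  Cl.node (nat_lit 0xc9) (nat_lit 2) (by decide +kernel) (ClAll.succ (ClAll.succ ClAll.zero n674) n675)

def n727 : Cl (O (nat_lit 6)) (R (nat_lit 143633))
    (p (nat_lit 0x81) (nat_lit 1) (p (nat_lit 0x101) (nat_lit 1) (p (nat_lit 0x119) (nat_lit 0) (p (nat_lit 0xd1) (nat_lit 0) (p (nat_lit 0x89) (nat_lit 0) (p (nat_lit 0x41) (nat_lit 0) (p (nat_lit 0x10a898a08881a) (nat_lit 0) (p (nat_lit 0x8a090988079a) (nat_lit 0) (p (nat_lit 0x108088907871a) (nat_lit 0) (p (nat_lit 0x87880887069a) (nat_lit 0) (p (nat_lit 0x8000080000000088806860a) (nat_lit 0) (p (nat_lit 0x8000080000000068786058a) (nat_lit 0) (p (nat_lit 0x10687058502) (nat_lit 0) (p (nat_lit 0x8606850482) (nat_lit 0) (p (nat_lit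 0x160004) (nat_lit 0) (p (nat_lit 0x68612) (nat_lit 0) (p (nat_lit 0x50592) (nat_lit 0) (p (nat_lit 0x40512) (nat_lit 0) (p (nat_lit 0x50312) (nat_lit 0) (p (nat_lit 0x38292) (nat_lit 0) (p (nat_lit 0x28212) (nat_lit 0) (p (nat_lit 0x38112) (nat_lit 0) (p (nat_lit 0x20092) (nat_lit 0) (p (nat_lit 0x10012) (nat_lit 0) pn)))))))))))))))))))))))) :=
  Cl.node (nat_lit 0xc1) (nat_lit 2) (by decide +kernel) (ClAll.succ (ClAll.succ ClAll.zero n676) s241)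

def n728 : Cl (O (nat_lit 6)) (R (nat_lit 143633))
    (p (nat_lit 0xc9) (nat_lit 1) (p (nat_lit 0xc1) (nat_lit 0) (p (nat_lit 0x119) (nat_lit 1) (p (nat_lit 0xd1) (nat_lit 0) (p (nat_lit 0x89) (nat_lit 0) (p (nat_lit 0x41) (nat_lit 0) (p (nat_lit 0x10a898a08881a) (nat_lit 0) (p (nat_lit 0x8a090988079a) (nat_lit 0) (p (nat_lit 0x108088907871a) (nat_lit 0) (p (nat_lit 0x87880887069a) (nat_lit 0) (p (nat_lit 0x8000080000000088806860a) (nat_lit 0) (p (nat_lit 0x8000080000000068786058a) (nat_lit 0) (p (nat_lit 0x10687058502) (nat_lit 0) (p (nat_lit 0x8606850482) (nat_lit 0) (p (nat_lit 0x160004) (nat_lit 0) (p (nat_lit 0x68612) (nat_lit 0) (p (nat_lit 0x50592) (nat_lit 0) (p (nat_lit 0x40512) (nat_lit 0) (p (nat_lit 0x50312) (nat_lit 0) (p (nat_lit 0x38292) (nat_lit 0) (p (nat_lit 0x28212) (nat_lit 0) (p (nat_lit 0x38112) (nat_lit 0) (p (nat_lit 0x20092) (nat_lit 0) (p (nat_lit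 0x10012) (nat_lit 0) pn)))))))))))))))))))))))) :=
  Cl.node (nat_lit 0x109) (nat_lit 2) (by decide +kernel) (ClAll.succ (ClAll.succ ClAll.zero s243) n677)

def n729 : Cl (O (nat_lit 6)) (R (nat_lit 143633))
    (p (nat_lit 0x81) (nat_lit 0) (p (nat_lit 0xc1) (nat_lit 1) (p (nat_lit 0x119) (nat_lit 1) (p (nat_lit 0xd1) (nat_lit 0) (p (nat_lit 0x89) (nat_lit 0) (p (nat_lit 0x41) (nat_lit 0) (p (nat_lit 0x10a898a08881a) (nat_lit 0) (p (nat_lit 0x8a090988079a) (nat_lit 0) (p (nat_lit 0x108088907871a) (nat_lit 0) (p (nat_lit 0x87880887069a) (nat_lit 0) (p (nat_lit 0x8000080000000088806860a) (nat_lit 0) (p (nat_lit 0x8000080000000068786058a) (nat_lit 0) (p (nat_lit 0x10687058502) (nat_lit 0) (p (nat_lit 0x8606850482) (nat_lit 0) (p (nat_lit 0x160004) (nat_lit 0) (p (nat_lit 0x68612) (nat_lit 0) (p (nat_lit 0x50592) (nat_lit 0) (p (nat_lit 0x40512) (nat_lit 0) (p (nat_lit 0x50312)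 (nat_lit 0) (p (nat_lit 0x38292) (nat_lit 0) (p (nat_lit 0x28212) (nat_lit 0) (p (nat_lit 0x38112) (nat_lit 0) (p (nat_lit 0x20092) (nat_lit 0) (p (nat_lit 0x10012) (nat_lit 0) pn)))))))))))))))))))))))) :=
  Cl.node (nat_lit 0x109) (nat_lit 2) (by decide +kernel) (ClAll.succ (ClAll.succ ClAll.zero n678) n679)

def n730 : Cl (O (nat_lit 6)) (R (nat_lit 143633))
    (p (nat_lit 0x81) (nat_lit 1) (p (nat_lit 0xc1) (nat_lit 1) (p (nat_lit 0x119) (nat_lit 1) (p (nat_lit 0xd1) (nat_lit 0) (p (nat_lit 0x89) (nat_lit 0) (p (nat_lit 0x41) (nat_lit 0) (p (nat_lit 0x10a898a08881a) (nat_lit 0) (p (nat_lit 0x8a090988079a) (nat_lit 0) (p (nat_lit 0x108088907871a) (nat_lit 0) (p (nat_lit 0x87880887069a) (nat_lit 0) (p (nat_lit 0x8000080000000088806860a) (nat_lit 0) (p (nat_lit 0x8000080000000068786058a) (nat_lit 0) (p (nat_lit 0x10687058502) (nat_lit 0) (p (nat_lit 0x8606850482) (nat_lit 0)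 (p (nat_lit 0x160004) (nat_lit 0) (p (nat_lit 0x68612) (nat_lit 0) (p (nat_lit 0x50592) (nat_lit 0) (p (nat_lit 0x40512) (nat_lit 0) (p (nat_lit 0x50312) (nat_lit 0) (p (nat_lit 0x38292) (nat_lit 0) (p (nat_lit 0x28212) (nat_lit 0) (p (nat_lit 0x38112) (nat_lit 0) (p (nat_lit 0x20092) (nat_lit 0) (p (nat_lit 0x10012) (nat_lit 0) pn)))))))))))))))))))))))) :=
  Cl.node (nat_lit 0x101) (nat_lit 2) (by decide +kernel) (ClAll.succ (ClAll.succ ClAll.zero n680) n681)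

def n731 : Cl (O (nat_lit 6)) (R (nat_lit 143633))
    (p (nat_lit 0x109) (nat_lit 1) (p (nat_lit 0x101) (nat_lit 0) (p (nat_lit 0x111) (nat_lit 0) (p (nat_lit 0xd1) (nat_lit 1) (p (nat_lit 0x89) (nat_lit 0) (p (nat_lit 0x41) (nat_lit 0) (p (nat_lit 0x10a898a08881a) (nat_lit 0) (p (nat_lit 0x8a090988079a) (nat_lit 0) (p (nat_lit 0x108088907871a) (nat_lit 0) (p (nat_lit 0x87880887069a) (nat_lit 0) (p (nat_lit 0x8000080000000088806860a) (nat_lit 0) (p (nat_lit 0x8000080000000068786058a) (nat_lit 0) (p (nat_lit 0x10687058502) (nat_lit 0) (p (nat_lit 0x8606850482) (nat_lit 0) (p (nat_lit 0x160004) (nat_lit 0) (p (nat_lit 0x68612) (nat_lit 0) (p (nat_lit 0x50592) (nat_lit 0) (p (nat_lit 0x40512) (nat_lit 0) (p (nat_lit 0x50312) (nat_lit 0) (p (nat_lit 0x38292) (nat_lit 0) (p (nat_lit 0x28212) (nat_lit 0) (p (nat_lit 0x38112) (nat_lit 0) (p (nat_lit 0x20092) (nat_lit 0) (p (nat_lit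 0x10012) (nat_lit 0) pn)))))))))))))))))))))))) :=
  Cl.node (nat_lit 0xc1) (nat_lit 2) (by decide +kernel) (ClAll.succ (ClAll.succ ClAll.zero s449) n682)

def n732 : Cl (O (nat_lit 6)) (R (nat_lit 143633))
    (p (nat_lit 0x81) (nat_lit 0) (p (nat_lit 0x101) (nat_lit 1) (p (nat_lit 0x111) (nat_lit 0) (p (nat_lit 0xd1) (nat_lit 1) (p (nat_lit 0x89) (nat_lit 0) (p (nat_lit 0x41) (nat_lit 0) (p (nat_lit 0x10a898a08881a) (nat_lit 0) (p (nat_lit 0x8a090988079a) (nat_lit 0) (p (nat_lit 0x108088907871a) (nat_lit 0) (p (nat_lit 0x87880887069a) (nat_lit 0) (p (nat_lit 0x8000080000000088806860a) (nat_lit 0) (p (nat_lit 0x8000080000000068786058a) (nat_lit 0) (p (nat_lit 0x10687058502) (nat_lit 0) (p (nat_lit 0x8606850482) (nat_lit 0) (p (nat_lit 0x160004) (nat_lit 0) (p (nat_lit 0x68612) (nat_lit 0) (p (nat_lit 0x50592) (nat_lit 0) (p (nat_lit 0x40512) (nat_lit 0) (p (nat_lit 0x50312)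 (nat_lit 0) (p (nat_lit 0x38292) (nat_lit 0) (p (nat_lit 0x28212) (nat_lit 0) (p (nat_lit 0x38112) (nat_lit 0) (p (nat_lit 0x20092) (nat_lit 0) (p (nat_lit 0x10012) (nat_lit 0) pn)))))))))))))))))))))))) :=
  Cl.node (nat_lit 0x119) (nat_lit 2) (by decide +kernel) (ClAll.succ (ClAll.succ ClAll.zero n683) n684)

def n733 : Cl (O (nat_lit 6)) (R (nat_lit 143633))
    (p (nat_lit 0x81) (nat_lit 1) (p (nat_lit 0x101) (nat_lit 1) (p (nat_lit 0x111) (nat_lit 0) (p (nat_lit 0xd1) (nat_lit 1) (p (nat_lit 0x89) (nat_lit 0) (p (nat_lit 0x41) (nat_lit 0) (p (nat_lit 0x10a898a08881a) (nat_lit 0) (p (nat_lit 0x8a090988079a) (nat_lit 0) (p (nat_lit 0x108088907871a) (nat_lit 0) (p (nat_lit 0x87880887069a) (nat_lit 0) (p (nat_lit 0x8000080000000088806860a) (nat_lit 0) (p (nat_lit 0x8000080000000068786058a) (nat_lit 0) (p (nat_lit 0x10687058502) (nat_lit 0) (p (nat_lit 0x8606850482) (nat_lit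 0) (p (nat_lit 0x160004) (nat_lit 0) (p (nat_lit 0x68612) (nat_lit 0) (p (nat_lit 0x50592) (nat_lit 0) (p (nat_lit 0x40512) (nat_lit 0) (p (nat_lit 0x50312) (nat_lit 0) (p (nat_lit 0x38292) (nat_lit 0) (p (nat_lit 0x28212) (nat_lit 0) (p (nat_lit 0x38112) (nat_lit 0) (p (nat_lit 0x20092) (nat_lit 0) (p (nat_lit 0x10012) (nat_lit 0) pn)))))))))))))))))))))))) :=
  Cl.node (nat_lit 0xc1) (nat_lit 2) (by decide +kernel) (ClAll.succ (ClAll.succ ClAll.zero n685) s608)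

def n734 : Cl (O (nat_lit 6)) (R (nat_lit 143633))
    (p (nat_lit 0xc1) (nat_lit 1) (p (nat_lit 0x81) (nat_lit 1) (p (nat_lit 0x111) (nat_lit 1) (p (nat_lit 0xd1) (nat_lit 1) (p (nat_lit 0x89) (nat_lit 0) (p (nat_lit 0x41) (nat_lit 0) (p (nat_lit 0x10a898a08881a) (nat_lit 0) (p (nat_lit 0x8a090988079a) (nat_lit 0) (p (nat_lit 0x108088907871a) (nat_lit 0) (p (nat_lit 0x87880887069a) (nat_lit 0) (p (nat_lit 0x8000080000000088806860a) (nat_lit 0) (p (nat_lit 0x8000080000000068786058a) (nat_lit 0) (p (nat_lit 0x10687058502) (nat_lit 0) (p (nat_lit 0x8606850482) (nat_lit 0) (p (nat_lit 0x160004) (nat_lit 0) (p (nat_lit 0x68612) (nat_lit 0) (p (nat_lit 0x50592) (nat_lit 0) (p (nat_lit 0x40512) (nat_lit 0) (p (nat_lit 0x50312) (nat_lit 0) (p (nat_lit 0x38292) (nat_lit 0) (p (nat_lit 0x28212) (nat_lit 0) (p (nat_lit 0x38112) (nat_lit 0) (p (nat_lit 0x20092) (nat_lit 0) (p (nat_lit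 0x10012) (nat_lit 0) pn)))))))))))))))))))))))) :=
  Cl.node (nat_lit 0x101) (nat_lit 2) (by decide +kernel) (ClAll.succ (ClAll.succ ClAll.zero n686) n687)

def n735 : Cl (O (nat_lit 6)) (R (nat_lit 143633))
    (p (nat_lit 0x109) (nat_lit 0) (p (nat_lit 0x101) (nat_lit 0) (p (nat_lit 0x119) (nat_lit 0) (p (nat_lit 0xc9) (nat_lit 0) (p (nat_lit 0x89) (nat_lit 1) (p (nat_lit 0x41) (nat_lit 0) (p (nat_lit 0x10a898a08881a) (nat_lit 0) (p (nat_lit 0x8a090988079a) (nat_lit 0) (p (nat_lit 0x108088907871a) (nat_lit 0) (p (nat_lit 0x87880887069a) (nat_lit 0) (p (nat_lit 0x8000080000000088806860a) (nat_lit 0) (p (nat_lit 0x8000080000000068786058a) (nat_lit 0) (p (nat_lit 0x10687058502) (nat_lit 0) (p (nat_lit 0x8606850482) (nat_lit 0) (p (nat_lit 0x160004) (nat_lit 0) (p (nat_lit 0x68612) (nat_lit 0) (p (nat_lit 0x50592) (nat_lit 0) (p (nat_lit 0x40512) (nat_lit 0) (p (nat_lit 0x50312)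 (nat_lit 0) (p (nat_lit 0x38292) (nat_lit 0) (p (nat_lit 0x28212) (nat_lit 0) (p (nat_lit 0x38112) (nat_lit 0) (p (nat_lit 0x20092) (nat_lit 0) (p (nat_lit 0x10012) (nat_lit 0) pn)))))))))))))))))))))))) :=
  Cl.node (nat_lit 0x111) (nat_lit 2) (by decide +kernel) (ClAll.succ (ClAll.succ ClAll.zero s635) n688)

def n736 : Cl (O (nat_lit 6)) (R (nat_lit 143633))
    (p (nat_lit 0x109) (nat_lit 1) (p (nat_lit 0x101) (nat_lit 0) (p (nat_lit 0x119) (nat_lit 0) (p (nat_lit 0xc9) (nat_lit 0) (p (nat_lit 0x89) (nat_lit 1) (p (nat_lit 0x41) (nat_lit 0) (p (nat_lit 0x10a898a08881a) (nat_lit 0) (p (nat_lit 0x8a090988079a) (nat_lit 0) (p (nat_lit 0x108088907871a) (nat_lit 0) (p (nat_lit 0x87880887069a) (nat_lit 0) (p (nat_lit 0x8000080000000088806860a) (nat_lit 0) (p (nat_lit 0x8000080000000068786058a) (nat_lit 0) (p (nat_lit 0x10687058502) (nat_lit 0) (p (nat_lit 0x8606850482) (nat_lit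 0) (p (nat_lit 0x160004) (nat_lit 0) (p (nat_lit 0x68612) (nat_lit 0) (p (nat_lit 0x50592) (nat_lit 0) (p (nat_lit 0x40512) (nat_lit 0) (p (nat_lit 0x50312) (nat_lit 0) (p (nat_lit 0x38292) (nat_lit 0) (p (nat_lit 0x28212) (nat_lit 0) (p (nat_lit 0x38112) (nat_lit 0) (p (nat_lit 0x20092) (nat_lit 0) (p (nat_lit 0x10012) (nat_lit 0) pn)))))))))))))))))))))))) :=
  Cl.node (nat_lit 0xd1) (nat_lit 2) (by decide +kernel) (ClAll.succ (ClAll.succ ClAll.zero n689) n690)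

def n737 : Cl (O (nat_lit 6)) (R (nat_lit 143633))
    (p (nat_lit 0xc1) (nat_lit 0) (p (nat_lit 0x101) (nat_lit 1) (p (nat_lit 0x119) (nat_lit 0) (p (nat_lit 0xc9) (nat_lit 0) (p (nat_lit 0x89) (nat_lit 1) (p (nat_lit 0x41) (nat_lit 0) (p (nat_lit 0x10a898a08881a) (nat_lit 0) (p (nat_lit 0x8a090988079a) (nat_lit 0) (p (nat_lit 0x108088907871a) (nat_lit 0) (p (nat_lit 0x87880887069a) (nat_lit 0) (p (nat_lit 0x8000080000000088806860a) (nat_lit 0) (p (nat_lit 0x8000080000000068786058a) (nat_lit 0) (p (nat_lit 0x10687058502) (nat_lit 0) (p (nat_lit 0x8606850482) (nat_lit 0) (p (nat_lit 0x160004) (nat_lit 0) (p (nat_lit 0x68612) (nat_lit 0) (p (nat_lit 0x50592) (nat_lit 0) (p (nat_lit 0x40512) (nat_lit 0) (p (nat_lit 0x50312) (nat_lit 0) (p (nat_lit 0x38292) (nat_lit 0) (p (nat_lit 0x28212) (nat_lit 0) (p (nat_lit 0x38112) (nat_lit 0) (p (nat_lit 0x20092) (nat_lit 0) (p (nat_lit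 0x10012) (nat_lit 0) pn)))))))))))))))))))))))) :=
  Cl.node (nat_lit 0xd1) (nat_lit 2) (by decide +kernel) (ClAll.succ (ClAll.succ ClAll.zero n691) n692)

def n738 : Cl (O (nat_lit 6)) (R (nat_lit 143633))
    (p (nat_lit 0xd1) (nat_lit 1) (p (nat_lit 0xc1) (nat_lit 0) (p (nat_lit 0x119) (nat_lit 1) (p (nat_lit 0xc9) (nat_lit 0) (p (nat_lit 0x89) (nat_lit 1) (p (nat_lit 0x41) (nat_lit 0) (p (nat_lit 0x10a898a08881a) (nat_lit 0) (p (nat_lit 0x8a090988079a) (nat_lit 0) (p (nat_lit 0x108088907871a) (nat_lit 0) (p (nat_lit 0x87880887069a) (nat_lit 0) (p (nat_lit 0x8000080000000088806860a) (nat_lit 0) (p (nat_lit 0x8000080000000068786058a) (nat_lit 0) (p (nat_lit 0x10687058502) (nat_lit 0) (p (nat_lit 0x8606850482) (nat_lit 0) (p (nat_lit 0x160004) (nat_lit 0) (p (nat_lit 0x68612) (nat_lit 0) (p (nat_lit 0x50592) (nat_lit 0) (p (nat_lit 0x40512) (nat_lit 0) (p (nat_lit 0x50312) (nat_lit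 0) (p (nat_lit 0x38292) (nat_lit 0) (p (nat_lit 0x28212) (nat_lit 0) (p (nat_lit 0x38112) (nat_lit 0) (p (nat_lit 0x20092) (nat_lit 0) (p (nat_lit 0x10012) (nat_lit 0) pn)))))))))))))))))))))))) :=
  Cl.node (nat_lit 0x111) (nat_lit 2) (by decide +kernel) (ClAll.succ (ClAll.succ ClAll.zero s903) n693)

def n739 : Cl (O (nat_lit 6)) (R (nat_lit 143633))
    (p (nat_lit 0x101) (nat_lit 0) (p (nat_lit 0xc1) (nat_lit 1) (p (nat_lit 0x119) (nat_lit 1) (p (nat_lit 0xc9) (nat_lit 0) (p (nat_lit 0x89) (nat_lit 1) (p (nat_lit 0x41) (nat_lit 0) (p (nat_lit 0x10a898a08881a) (nat_lit 0) (p (nat_lit 0x8a090988079a) (nat_lit 0) (p (nat_lit 0x108088907871a) (nat_lit 0) (p (nat_lit 0x87880887069a) (nat_lit 0) (p (nat_lit 0x8000080000000088806860a) (nat_lit 0) (p (nat_lit 0x8000080000000068786058a) (nat_lit 0) (p (nat_lit 0x10687058502) (nat_lit 0) (p (nat_lit 0x8606850482) (nat_lit 0) (p (nat_lit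 0x160004) (nat_lit 0) (p (nat_lit 0x68612) (nat_lit 0) (p (nat_lit 0x50592) (nat_lit 0) (p (nat_lit 0x40512) (nat_lit 0) (p (nat_lit 0x50312) (nat_lit 0) (p (nat_lit 0x38292) (nat_lit 0) (p (nat_lit 0x28212) (nat_lit 0) (p (nat_lit 0x38112) (nat_lit 0) (p (nat_lit 0x20092) (nat_lit 0) (p (nat_lit 0x10012) (nat_lit 0) pn)))))))))))))))))))))))) :=
  Cl.node (nat_lit 0x111) (nat_lit 2) (by decide +kernel) (ClAll.succ (ClAll.succ ClAll.zero n694) n695)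

def n740 : Cl (O (nat_lit 6)) (R (nat_lit 143633))
    (p (nat_lit 0x101) (nat_lit 1) (p (nat_lit 0xc1) (nat_lit 1) (p (nat_lit 0x119) (nat_lit 1) (p (nat_lit 0xc9) (nat_lit 0) (p (nat_lit 0x89) (nat_lit 1) (p (nat_lit 0x41) (nat_lit 0) (p (nat_lit 0x10a898a08881a) (nat_lit 0) (p (nat_lit 0x8a090988079a) (nat_lit 0) (p (nat_lit 0x108088907871a) (nat_lit 0) (p (nat_lit 0x87880887069a) (nat_lit 0) (p (nat_lit 0x8000080000000088806860a) (nat_lit 0) (p (nat_lit 0x8000080000000068786058a) (nat_lit 0) (p (nat_lit 0x10687058502) (nat_lit 0) (p (nat_lit 0x8606850482) (nat_lit 0) (p (nat_lit 0x160004) (nat_lit 0) (p (nat_lit 0x68612) (nat_lit 0) (p (nat_lit 0x50592) (nat_lit 0) (p (nat_lit 0x40512) (nat_lit 0) (p (nat_lit 0x50312) (nat_lit 0) (p (nat_lit 0x38292) (nat_lit 0) (p (nat_lit 0x28212) (nat_lit 0) (p (nat_lit 0x38112) (nat_lit 0) (p (nat_lit 0x20092) (nat_lit 0) (p (nat_lit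 0x10012) (nat_lit 0) pn)))))))))))))))))))))))) :=
  Cl.node (nat_lit 0x444aa) (nat_lit 12) (by decide +kernel) (ClAll.succ (ClAll.succ (ClAll.succ (ClAll.succ (ClAll.succ (ClAll.succ (ClAll.succ (ClAll.succ (ClAll.succ (ClAll.succ (ClAll.succ (ClAll.succ ClAll.zero s1006) s1007) s1008) s1009) s1010) s1011) s1012) s1013) n696) s1016) s1017) s1018)

def n741 : Cl (O (nat_lit 6)) (R (nat_lit 143633))
    (p (nat_lit 0x111) (nat_lit 0) (p (nat_lit 0x101) (nat_lit 0) (p (nat_lit 0x109) (nat_lit 0) (p (nat_lit 0xc9) (nat_lit 1) (p (nat_lit 0x89) (nat_lit 1) (p (nat_lit 0x41) (nat_lit 0) (p (nat_lit 0x10a898a08881a) (nat_lit 0) (p (nat_lit 0x8a090988079a) (nat_lit 0) (p (nat_lit 0x108088907871a) (nat_lit 0) (p (nat_lit 0x87880887069a) (nat_lit 0) (p (nat_lit 0x8000080000000088806860a) (nat_lit 0) (p (nat_lit 0x8000080000000068786058a) (nat_lit 0) (p (nat_lit 0x10687058502) (nat_lit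 0) (p (nat_lit 0x8606850482) (nat_lit 0) (p (nat_lit 0x160004) (nat_lit 0) (p (nat_lit 0x68612) (nat_lit 0) (p (nat_lit 0x50592) (nat_lit 0) (p (nat_lit 0x40512) (nat_lit 0) (p (nat_lit 0x50312) (nat_lit 0) (p (nat_lit 0x38292) (nat_lit 0) (p (nat_lit 0x28212) (nat_lit 0) (p (nat_lit 0x38112) (nat_lit 0) (p (nat_lit 0x20092) (nat_lit 0) (p (nat_lit 0x10012) (nat_lit 0) pn)))))))))))))))))))))))) :=
  Cl.node (nat_lit 0x119) (nat_lit 2) (by decide +kernel) (ClAll.succ (ClAll.succ ClAll.zero s1019) n697)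

def n742 : Cl (O (nat_lit 6)) (R (nat_lit 143633))
    (p (nat_lit 0x111) (nat_lit 1) (p (nat_lit 0x101) (nat_lit 0) (p (nat_lit 0x109) (nat_lit 0) (p (nat_lit 0xc9) (nat_lit 1) (p (nat_lit 0x89) (nat_lit 1) (p (nat_lit 0x41) (nat_lit 0) (p (nat_lit 0x10a898a08881a) (nat_lit 0) (p (nat_lit 0x8a090988079a) (nat_lit 0) (p (nat_lit 0x108088907871a) (nat_lit 0) (p (nat_lit 0x87880887069a) (nat_lit 0) (p (nat_lit 0x8000080000000088806860a) (nat_lit 0) (p (nat_lit 0x8000080000000068786058a) (nat_lit 0) (p (nat_lit 0x10687058502) (nat_lit 0) (p (nat_lit 0x8606850482) (nat_lit 0) (p (nat_lit 0x160004) (nat_lit 0) (p (nat_lit 0x68612) (nat_lit 0) (p (nat_lit 0x50592) (nat_lit 0) (p (nat_lit 0x40512) (nat_lit 0) (p (nat_lit 0x50312) (nat_lit 0) (p (nat_lit 0x38292) (nat_lit 0) (p (nat_lit 0x28212) (nat_lit 0) (p (nat_lit 0x38112) (nat_lit 0) (p (nat_lit 0x20092) (nat_lit 0) (p (nat_lit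 0x10012) (nat_lit 0) pn)))))))))))))))))))))))) :=
  Cl.node (nat_lit 0x444aa) (nat_lit 12) (by decide +kernel) (ClAll.succ (ClAll.succ (ClAll.succ (ClAll.succ (ClAll.succ (ClAll.succ (ClAll.succ (ClAll.succ (ClAll.succ (ClAll.succ (ClAll.succ (ClAll.succ ClAll.zero s1033) s1034) s1035) s1036) s1037) s1038) s1039) n698) s1042) s1043) s1044) s1045)

def n743 : Cl (O (nat_lit 6)) (R (nat_lit 143633))
    (p (nat_lit 0x109) (nat_lit 1) (p (nat_lit 0x101) (nat_lit 0) (p (nat_lit 0x119) (nat_lit 0) (p (nat_lit 0xd1) (nat_lit 0) (p (nat_lit 0x81) (nat_lit 0) (p (nat_lit 0x41) (nat_lit 1) (p (nat_lit 0x10a898a08881a) (nat_lit 0) (p (nat_lit 0x8a090988079a) (nat_lit 0) (p (nat_lit 0x108088907871a) (nat_lit 0) (p (nat_lit 0x87880887069a) (nat_lit 0) (p (nat_lit 0x8000080000000088806860a) (nat_lit 0) (p (nat_lit 0x8000080000000068786058a) (nat_lit 0) (p (nat_lit 0x10687058502) (nat_lit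 0) (p (nat_lit 0x8606850482) (nat_lit 0) (p (nat_lit 0x160004) (nat_lit 0) (p (nat_lit 0x68612) (nat_lit 0) (p (nat_lit 0x50592) (nat_lit 0) (p (nat_lit 0x40512) (nat_lit 0) (p (nat_lit 0x50312) (nat_lit 0) (p (nat_lit 0x38292) (nat_lit 0) (p (nat_lit 0x28212) (nat_lit 0) (p (nat_lit 0x38112) (nat_lit 0) (p (nat_lit 0x20092) (nat_lit 0) (p (nat_lit 0x10012) (nat_lit 0) pn)))))))))))))))))))))))) :=
  Cl.node (nat_lit 0x89) (nat_lit 2) (by decide +kernel) (ClAll.succ (ClAll.succ ClAll.zero n699) n700)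

def n744 : Cl (O (nat_lit 6)) (R (nat_lit 143633))
    (p (nat_lit 0xc1) (nat_lit 0) (p (nat_lit 0x101) (nat_lit 1) (p (nat_lit 0x119) (nat_lit 0) (p (nat_lit 0xd1) (nat_lit 0) (p (nat_lit 0x81) (nat_lit 0) (p (nat_lit 0x41) (nat_lit 1) (p (nat_lit 0x10a898a08881a) (nat_lit 0) (p (nat_lit 0x8a090988079a) (nat_lit 0) (p (nat_lit 0x108088907871a) (nat_lit 0) (p (nat_lit 0x87880887069a) (nat_lit 0) (p (nat_lit 0x8000080000000088806860a) (nat_lit 0) (p (nat_lit 0x8000080000000068786058a) (nat_lit 0) (p (nat_lit 0x10687058502) (nat_lit 0) (p (nat_lit 0x8606850482) (nat_lit 0) (p (nat_lit 0x160004) (nat_lit 0) (p (nat_lit 0x68612) (nat_lit 0) (p (nat_lit 0x50592) (nat_lit 0) (p (nat_lit 0x40512) (nat_lit 0) (p (nat_lit 0x50312) (nat_lit 0) (p (nat_lit 0x38292) (nat_lit 0) (p (nat_lit 0x28212) (nat_lit 0) (p (nat_lit 0x38112) (nat_lit 0) (p (nat_lit 0x20092) (nat_lit 0) (p (nat_lit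 0x10012) (nat_lit 0) pn)))))))))))))))))))))))) :=
  Cl.node (nat_lit 0x89) (nat_lit 2) (by decide +kernel) (ClAll.succ (ClAll.succ ClAll.zero n701) n702)

def n745 : Cl (O (nat_lit 6)) (R (nat_lit 143633))
    (p (nat_lit 0xc1) (nat_lit 1) (p (nat_lit 0x101) (nat_lit 1) (p (nat_lit 0x119) (nat_lit 0) (p (nat_lit 0xd1) (nat_lit 0) (p (nat_lit 0x81) (nat_lit 0) (p (nat_lit 0x41) (nat_lit 1) (p (nat_lit 0x10a898a08881a) (nat_lit 0) (p (nat_lit 0x8a090988079a) (nat_lit 0) (p (nat_lit 0x108088907871a) (nat_lit 0) (p (nat_lit 0x87880887069a) (nat_lit 0) (p (nat_lit 0x8000080000000088806860a) (nat_lit 0) (p (nat_lit 0x8000080000000068786058a) (nat_lit 0) (p (nat_lit 0x10687058502) (nat_lit 0) (p (nat_lit 0x8606850482) (nat_lit 0) (p (nat_lit 0x160004) (nat_lit 0) (p (nat_lit 0x68612) (nat_lit 0) (p (nat_lit 0x50592) (nat_lit 0) (p (nat_lit 0x40512) (nat_lit 0) (p (nat_lit 0x50312)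 (nat_lit 0) (p (nat_lit 0x38292) (nat_lit 0) (p (nat_lit 0x28212) (nat_lit 0) (p (nat_lit 0x38112) (nat_lit 0) (p (nat_lit 0x20092) (nat_lit 0) (p (nat_lit 0x10012) (nat_lit 0) pn)))))))))))))))))))))))) :=
  Cl.node (nat_lit 0x89) (nat_lit 2) (by decide +kernel) (ClAll.succ (ClAll.succ ClAll.zero n703) n704)

def n746 : Cl (O (nat_lit 6)) (R (nat_lit 143633))
    (p (nat_lit 0xc9) (nat_lit 1) (p (nat_lit 0xc1) (nat_lit 0) (p (nat_lit 0x119) (nat_lit 1) (p (nat_lit 0xd1) (nat_lit 0) (p (nat_lit 0x81) (nat_lit 0) (p (nat_lit 0x41) (nat_lit 1) (p (nat_lit 0x10a898a08881a) (nat_lit 0) (p (nat_lit 0x8a090988079a) (nat_lit 0) (p (nat_lit 0x108088907871a) (nat_lit 0) (p (nat_lit 0x87880887069a) (nat_lit 0) (p (nat_lit 0x8000080000000088806860a) (nat_lit 0) (p (nat_lit 0x8000080000000068786058a) (nat_lit 0) (p (nat_lit 0x10687058502) (nat_lit 0) (p (nat_lit 0x8606850482) (nat_lit 0)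 (p (nat_lit 0x160004) (nat_lit 0) (p (nat_lit 0x68612) (nat_lit 0) (p (nat_lit 0x50592) (nat_lit 0) (p (nat_lit 0x40512) (nat_lit 0) (p (nat_lit 0x50312) (nat_lit 0) (p (nat_lit 0x38292) (nat_lit 0) (p (nat_lit 0x28212) (nat_lit 0) (p (nat_lit 0x38112) (nat_lit 0) (p (nat_lit 0x20092) (nat_lit 0) (p (nat_lit 0x10012) (nat_lit 0) pn)))))))))))))))))))))))) :=
  Cl.node (nat_lit 0x89) (nat_lit 2) (by decide +kernel) (ClAll.succ (ClAll.succ ClAll.zero s1220) n705)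

def n747 : Cl (O (nat_lit 6)) (R (nat_lit 143633))
    (p (nat_lit 0x101) (nat_lit 0) (p (nat_lit 0xc1) (nat_lit 1) (p (nat_lit 0x119) (nat_lit 1) (p (nat_lit 0xd1) (nat_lit 0) (p (nat_lit 0x81) (nat_lit 0) (p (nat_lit 0x41) (nat_lit 1) (p (nat_lit 0x10a898a08881a) (nat_lit 0) (p (nat_lit 0x8a090988079a) (nat_lit 0) (p (nat_lit 0x108088907871a) (nat_lit 0) (p (nat_lit 0x87880887069a) (nat_lit 0) (p (nat_lit 0x8000080000000088806860a) (nat_lit 0) (p (nat_lit 0x8000080000000068786058a) (nat_lit 0) (p (nat_lit 0x10687058502) (nat_lit 0) (p (nat_lit 0x8606850482) (nat_lit 0) (p (nat_lit 0x160004) (nat_lit 0) (p (nat_lit 0x68612) (nat_lit 0) (p (nat_lit 0x50592) (nat_lit 0) (p (nat_lit 0x40512) (nat_lit 0) (p (nat_lit 0x50312) (nat_lit 0) (p (nat_lit 0x38292) (nat_lit 0) (p (nat_lit 0x28212) (nat_lit 0) (p (nat_lit 0x38112) (nat_lit 0) (p (nat_lit 0x20092) (nat_lit 0) (p (nat_lit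 0x10012) (nat_lit 0) pn)))))))))))))))))))))))) :=
  Cl.node (nat_lit 0x89) (nat_lit 2) (by decide +kernel) (ClAll.succ (ClAll.succ ClAll.zero n706) n707)

def n748 : Cl (O (nat_lit 6)) (R (nat_lit 143633))
    (p (nat_lit 0x101) (nat_lit 1) (p (nat_lit 0xc1) (nat_lit 1) (p (nat_lit 0x119) (nat_lit 1) (p (nat_lit 0xd1) (nat_lit 0) (p (nat_lit 0x81) (nat_lit 0) (p (nat_lit 0x41) (nat_lit 1) (p (nat_lit 0x10a898a08881a) (nat_lit 0) (p (nat_lit 0x8a090988079a) (nat_lit 0) (p (nat_lit 0x108088907871a) (nat_lit 0) (p (nat_lit 0x87880887069a) (nat_lit 0) (p (nat_lit 0x8000080000000088806860a) (nat_lit 0) (p (nat_lit 0x8000080000000068786058a) (nat_lit 0) (p (nat_lit 0x10687058502) (nat_lit 0) (p (nat_lit 0x8606850482) (nat_lit 0) (p (nat_lit 0x160004) (nat_lit 0) (p (nat_lit 0x68612) (nat_lit 0) (p (nat_lit 0x50592) (nat_lit 0) (p (nat_lit 0x40512) (nat_lit 0) (p (nat_lit 0x50312)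 (nat_lit 0) (p (nat_lit 0x38292) (nat_lit 0) (p (nat_lit 0x28212) (nat_lit 0) (p (nat_lit 0x38112) (nat_lit 0) (p (nat_lit 0x20092) (nat_lit 0) (p (nat_lit 0x10012) (nat_lit 0) pn)))))))))))))))))))))))) :=
  Cl.node (nat_lit 0x89) (nat_lit 2) (by decide +kernel) (ClAll.succ (ClAll.succ ClAll.zero n708) n709)

def n749 : Cl (O (nat_lit 6)) (R (nat_lit 143633))
    (p (nat_lit 0x109) (nat_lit 1) (p (nat_lit 0x101) (nat_lit 0) (p (nat_lit 0x111) (nat_lit 0) (p (nat_lit 0xd1) (nat_lit 1) (p (nat_lit 0x81) (nat_lit 0) (p (nat_lit 0x41) (nat_lit 1) (p (nat_lit 0x10a898a08881a) (nat_lit 0) (p (nat_lit 0x8a090988079a) (nat_lit 0) (p (nat_lit 0x108088907871a) (nat_lit 0) (p (nat_lit 0x87880887069a) (nat_lit 0) (p (nat_lit 0x8000080000000088806860a) (nat_lit 0) (p (nat_lit 0x8000080000000068786058a) (nat_lit 0) (p (nat_lit 0x10687058502) (nat_lit 0) (p (nat_lit 0x8606850482) (nat_lit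 0) (p (nat_lit 0x160004) (nat_lit 0) (p (nat_lit 0x68612) (nat_lit 0) (p (nat_lit 0x50592) (nat_lit 0) (p (nat_lit 0x40512) (nat_lit 0) (p (nat_lit 0x50312) (nat_lit 0) (p (nat_lit 0x38292) (nat_lit 0) (p (nat_lit 0x28212) (nat_lit 0) (p (nat_lit 0x38112) (nat_lit 0) (p (nat_lit 0x20092) (nat_lit 0) (p (nat_lit 0x10012) (nat_lit 0) pn)))))))))))))))))))))))) :=
  Cl.node (nat_lit 0x89) (nat_lit 2) (by decide +kernel) (ClAll.succ (ClAll.succ ClAll.zero n710) n711)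

def n750 : Cl (O (nat_lit 6)) (R (nat_lit 143633))
    (p (nat_lit 0x89) (nat_lit 0) (p (nat_lit 0x101) (nat_lit 1) (p (nat_lit 0x111) (nat_lit 0) (p (nat_lit 0xd1) (nat_lit 1) (p (nat_lit 0x81) (nat_lit 0) (p (nat_lit 0x41) (nat_lit 1) (p (nat_lit 0x10a898a08881a) (nat_lit 0) (p (nat_lit 0x8a090988079a) (nat_lit 0) (p (nat_lit 0x108088907871a) (nat_lit 0) (p (nat_lit 0x87880887069a) (nat_lit 0) (p (nat_lit 0x8000080000000088806860a) (nat_lit 0) (p (nat_lit 0x8000080000000068786058a) (nat_lit 0) (p (nat_lit 0x10687058502) (nat_lit 0) (p (nat_lit 0x8606850482) (nat_lit 0) (p (nat_lit 0x160004) (nat_lit 0) (p (nat_lit 0x68612) (nat_lit 0) (p (nat_lit 0x50592) (nat_lit 0) (p (nat_lit 0x40512) (nat_lit 0) (p (nat_lit 0x50312) (nat_lit 0) (p (nat_lit 0x38292) (nat_lit 0) (p (nat_lit 0x28212) (nat_lit 0) (p (nat_lit 0x38112) (nat_lit 0) (p (nat_lit 0x20092) (nat_lit 0) (p (nat_lit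 0x10012) (nat_lit 0) pn)))))))))))))))))))))))) :=
  Cl.node (nat_lit 0x3cc2a) (nat_lit 12) (by decide +kernel) (ClAll.succ (ClAll.succ (ClAll.succ (ClAll.succ (ClAll.succ (ClAll.succ (ClAll.succ (ClAll.succ (ClAll.succ (ClAll.succ (ClAll.succ (ClAll.succ ClAll.zero s1422) n712) s1425) s1426) s1427) s1428) s1429) s1430) s1431) s1432) s1433) s1434)

def n751 : Cl (O (nat_lit 6)) (R (nat_lit 143633))
    (p (nat_lit 0x89) (nat_lit 1) (p (nat_lit 0x101) (nat_lit 1) (p (nat_lit 0x111) (nat_lit 0) (p (nat_lit 0xd1) (nat_lit 1) (p (nat_lit 0x81) (nat_lit 0) (p (nat_lit 0x41) (nat_lit 1) (p (nat_lit 0x10a898a08881a) (nat_lit 0) (p (nat_lit 0x8a090988079a) (nat_lit 0) (p (nat_lit 0x108088907871a) (nat_lit 0) (p (nat_lit 0x87880887069a) (nat_lit 0) (p (nat_lit 0x8000080000000088806860a) (nat_lit 0) (p (nat_lit 0x8000080000000068786058a) (nat_lit 0) (p (nat_lit 0x10687058502) (nat_lit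 0) (p (nat_lit 0x8606850482) (nat_lit 0) (p (nat_lit 0x160004) (nat_lit 0) (p (nat_lit 0x68612) (nat_lit 0) (p (nat_lit 0x50592) (nat_lit 0) (p (nat_lit 0x40512) (nat_lit 0) (p (nat_lit 0x50312) (nat_lit 0) (p (nat_lit 0x38292) (nat_lit 0) (p (nat_lit 0x28212) (nat_lit 0) (p (nat_lit 0x38112) (nat_lit 0) (p (nat_lit 0x20092) (nat_lit 0) (p (nat_lit 0x10012) (nat_lit 0) pn)))))))))))))))))))))))) :=
  Cl.node (nat_lit 0xc9) (nat_lit 2) (by decide +kernel) (ClAll.succ (ClAll.succ ClAll.zero n713) n714)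

def n752 : Cl (O (nat_lit 6)) (R (nat_lit 143633))
    (p (nat_lit 0xc9) (nat_lit 1) (p (nat_lit 0x89) (nat_lit 1) (p (nat_lit 0x111) (nat_lit 1) (p (nat_lit 0xd1) (nat_lit 1) (p (nat_lit 0x81) (nat_lit 0) (p (nat_lit 0x41) (nat_lit 1) (p (nat_lit 0x10a898a08881a) (nat_lit 0) (p (nat_lit 0x8a090988079a) (nat_lit 0) (p (nat_lit 0x108088907871a) (nat_lit 0) (p (nat_lit 0x87880887069a) (nat_lit 0) (p (nat_lit 0x8000080000000088806860a) (nat_lit 0) (p (nat_lit 0x8000080000000068786058a) (nat_lit 0) (p (nat_lit 0x10687058502) (nat_lit 0) (p (nat_lit 0x8606850482) (nat_lit 0) (p (nat_lit 0x160004) (nat_lit 0) (p (nat_lit 0x68612) (nat_lit 0) (p (nat_lit 0x50592) (nat_lit 0) (p (nat_lit 0x40512) (nat_lit 0) (p (nat_lit 0x50312) (nat_lit 0) (p (nat_lit 0x38292) (nat_lit 0) (p (nat_lit 0x28212) (nat_lit 0) (p (nat_lit 0x38112) (nat_lit 0) (p (nat_lit 0x20092) (nat_lit 0) (p (nat_lit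 0x10012) (nat_lit 0) pn)))))))))))))))))))))))) :=
  Cl.node (nat_lit 0x109) (nat_lit 2) (by decide +kernel) (ClAll.succ (ClAll.succ ClAll.zero n715) s1479)

def n753 : Cl (O (nat_lit 6)) (R (nat_lit 143633))
    (p (nat_lit 0x109) (nat_lit 0) (p (nat_lit 0x101) (nat_lit 0) (p (nat_lit 0x119) (nat_lit 0) (p (nat_lit 0xc1) (nat_lit 0) (p (nat_lit 0x81) (nat_lit 1) (p (nat_lit 0x41) (nat_lit 1) (p (nat_lit 0x10a898a08881a) (nat_lit 0) (p (nat_lit 0x8a090988079a) (nat_lit 0) (p (nat_lit 0x108088907871a) (nat_lit 0) (p (nat_lit 0x87880887069a) (nat_lit 0) (p (nat_lit 0x8000080000000088806860a) (nat_lit 0) (p (nat_lit 0x8000080000000068786058a) (nat_lit 0) (p (nat_lit 0x10687058502) (nat_lit 0) (p (nat_lit 0x8606850482) (nat_lit 0) (p (nat_lit 0x160004) (nat_lit 0) (p (nat_lit 0x68612) (nat_lit 0) (p (nat_lit 0x50592) (nat_lit 0) (p (nat_lit 0x40512) (nat_lit 0) (p (nat_lit 0x50312)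 (nat_lit 0) (p (nat_lit 0x38292) (nat_lit 0) (p (nat_lit 0x28212) (nat_lit 0) (p (nat_lit 0x38112) (nat_lit 0) (p (nat_lit 0x20092) (nat_lit 0) (p (nat_lit 0x10012) (nat_lit 0) pn)))))))))))))))))))))))) :=
  Cl.node (nat_lit 0x111) (nat_lit 2) (by decide +kernel) (ClAll.succ (ClAll.succ ClAll.zero s1480) n716)

def n754 : Cl (O (nat_lit 6)) (R (nat_lit 143633))
    (p (nat_lit 0x109) (nat_lit 1) (p (nat_lit 0x101) (nat_lit 0) (p (nat_lit 0x119) (nat_lit 0) (p (nat_lit 0xc1) (nat_lit 0) (p (nat_lit 0x81) (nat_lit 1) (p (nat_lit 0x41) (nat_lit 1) (p (nat_lit 0x10a898a08881a) (nat_lit 0) (p (nat_lit 0x8a090988079a) (nat_lit 0) (p (nat_lit 0x108088907871a) (nat_lit 0) (p (nat_lit 0x87880887069a) (nat_lit 0) (p (nat_lit 0x8000080000000088806860a) (nat_lit 0) (p (nat_lit 0x8000080000000068786058a) (nat_lit 0) (p (nat_lit 0x10687058502) (nat_lit 0) (p (nat_lit 0x8606850482) (nat_lit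 0) (p (nat_lit 0x160004) (nat_lit 0) (p (nat_lit 0x68612) (nat_lit 0) (p (nat_lit 0x50592) (nat_lit 0) (p (nat_lit 0x40512) (nat_lit 0) (p (nat_lit 0x50312) (nat_lit 0) (p (nat_lit 0x38292) (nat_lit 0) (p (nat_lit 0x28212) (nat_lit 0) (p (nat_lit 0x38112) (nat_lit 0) (p (nat_lit 0x20092) (nat_lit 0) (p (nat_lit 0x10012) (nat_lit 0) pn)))))))))))))))))))))))) :=
  Cl.node (nat_lit 0xc9) (nat_lit 2) (by decide +kernel) (ClAll.succ (ClAll.succ ClAll.zero n717) s1610)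

def n755 : Cl (O (nat_lit 6)) (R (nat_lit 143633))
    (p (nat_lit 0xc9) (nat_lit 0) (p (nat_lit 0x101) (nat_lit 1) (p (nat_lit 0x119) (nat_lit 0) (p (nat_lit 0xc1) (nat_lit 0) (p (nat_lit 0x81) (nat_lit 1) (p (nat_lit 0x41) (nat_lit 1) (p (nat_lit 0x10a898a08881a) (nat_lit 0) (p (nat_lit 0x8a090988079a) (nat_lit 0) (p (nat_lit 0x108088907871a) (nat_lit 0) (p (nat_lit 0x87880887069a) (nat_lit 0) (p (nat_lit 0x8000080000000088806860a) (nat_lit 0) (p (nat_lit 0x8000080000000068786058a) (nat_lit 0) (p (nat_lit 0x10687058502) (nat_lit 0) (p (nat_lit 0x8606850482) (nat_lit 0) (p (nat_lit 0x160004) (nat_lit 0) (p (nat_lit 0x68612) (nat_lit 0) (p (nat_lit 0x50592) (nat_lit 0) (p (nat_lit 0x40512) (nat_lit 0) (p (nat_lit 0x50312) (nat_lit 0) (p (nat_lit 0x38292) (nat_lit 0) (p (nat_lit 0x28212) (nat_lit 0) (p (nat_lit 0x38112) (nat_lit 0) (p (nat_lit 0x20092) (nat_lit 0) (p (nat_lit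 0x10012) (nat_lit 0) pn)))))))))))))))))))))))) :=
  Cl.node (nat_lit 0xd1) (nat_lit 2) (by decide +kernel) (ClAll.succ (ClAll.succ ClAll.zero n718) n719)

def n756 : Cl (O (nat_lit 6)) (R (nat_lit 143633))
    (p (nat_lit 0xd1) (nat_lit 1) (p (nat_lit 0xc9) (nat_lit 0) (p (nat_lit 0x119) (nat_lit 1) (p (nat_lit 0xc1) (nat_lit 0) (p (nat_lit 0x81) (nat_lit 1) (p (nat_lit 0x41) (nat_lit 1) (p (nat_lit 0x10a898a08881a) (nat_lit 0) (p (nat_lit 0x8a090988079a) (nat_lit 0) (p (nat_lit 0x108088907871a) (nat_lit 0) (p (nat_lit 0x87880887069a) (nat_lit 0) (p (nat_lit 0x8000080000000088806860a) (nat_lit 0) (p (nat_lit 0x8000080000000068786058a) (nat_lit 0) (p (nat_lit 0x10687058502) (nat_lit 0) (p (nat_lit 0x8606850482) (nat_lit 0) (p (nat_lit 0x160004) (nat_lit 0) (p (nat_lit 0x68612) (nat_lit 0) (p (nat_lit 0x50592) (nat_lit 0) (p (nat_lit 0x40512) (nat_lit 0) (p (nat_lit 0x50312) (nat_lit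 0) (p (nat_lit 0x38292) (nat_lit 0) (p (nat_lit 0x28212) (nat_lit 0) (p (nat_lit 0x38112) (nat_lit 0) (p (nat_lit 0x20092) (nat_lit 0) (p (nat_lit 0x10012) (nat_lit 0) pn)))))))))))))))))))))))) :=
  Cl.node (nat_lit 0x111) (nat_lit 2) (by decide +kernel) (ClAll.succ (ClAll.succ ClAll.zero s1691) n720)

def n757 : Cl (O (nat_lit 6)) (R (nat_lit 143633))
    (p (nat_lit 0x109) (nat_lit 0) (p (nat_lit 0xc9) (nat_lit 1) (p (nat_lit 0x119) (nat_lit 1) (p (nat_lit 0xc1) (nat_lit 0) (p (nat_lit 0x81) (nat_lit 1) (p (nat_lit 0x41) (nat_lit 1) (p (nat_lit 0x10a898a08881a) (nat_lit 0) (p (nat_lit 0x8a090988079a) (nat_lit 0) (p (nat_lit 0x108088907871a) (nat_lit 0) (p (nat_lit 0x87880887069a) (nat_lit 0) (p (nat_lit 0x8000080000000088806860a) (nat_lit 0) (p (nat_lit 0x8000080000000068786058a) (nat_lit 0) (p (nat_lit 0x10687058502) (nat_lit 0) (p (nat_lit 0x8606850482) (nat_lit 0) (p (nat_lit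 0x160004) (nat_lit 0) (p (nat_lit 0x68612) (nat_lit 0) (p (nat_lit 0x50592) (nat_lit 0) (p (nat_lit 0x40512) (nat_lit 0) (p (nat_lit 0x50312) (nat_lit 0) (p (nat_lit 0x38292) (nat_lit 0) (p (nat_lit 0x28212) (nat_lit 0) (p (nat_lit 0x38112) (nat_lit 0) (p (nat_lit 0x20092) (nat_lit 0) (p (nat_lit 0x10012) (nat_lit 0) pn)))))))))))))))))))))))) :=
  Cl.node (nat_lit 0x111) (nat_lit 2) (by decide +kernel) (ClAll.succ (ClAll.succ ClAll.zero n721) n722)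

def n758 : Cl (O (nat_lit 6)) (R (nat_lit 143633))
    (p (nat_lit 0x109) (nat_lit 1) (p (nat_lit 0xc9) (nat_lit 1) (p (nat_lit 0x119) (nat_lit 1) (p (nat_lit 0xc1) (nat_lit 0) (p (nat_lit 0x81) (nat_lit 1) (p (nat_lit 0x41) (nat_lit 1) (p (nat_lit 0x10a898a08881a) (nat_lit 0) (p (nat_lit 0x8a090988079a) (nat_lit 0) (p (nat_lit 0x108088907871a) (nat_lit 0) (p (nat_lit 0x87880887069a) (nat_lit 0) (p (nat_lit 0x8000080000000088806860a) (nat_lit 0) (p (nat_lit 0x8000080000000068786058a) (nat_lit 0) (p (nat_lit 0x10687058502) (nat_lit 0) (p (nat_lit 0x8606850482) (nat_lit 0) (p (nat_lit 0x160004) (nat_lit 0) (p (nat_lit 0x68612) (nat_lit 0) (p (nat_lit 0x50592) (nat_lit 0) (p (nat_lit 0x40512) (nat_lit 0) (p (nat_lit 0x50312) (nat_lit 0) (p (nat_lit 0x38292) (nat_lit 0) (p (nat_lit 0x28212) (nat_lit 0) (p (nat_lit 0x38112) (nat_lit 0) (p (nat_lit 0x20092) (nat_lit 0) (p (nat_lit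 0x10012) (nat_lit 0) pn)))))))))))))))))))))))) :=
  Cl.node (nat_lit 0x3c4aa) (nat_lit 12) (by decide +kernel) (ClAll.succ (ClAll.succ (ClAll.succ (ClAll.succ (ClAll.succ (ClAll.succ (ClAll.succ (ClAll.succ (ClAll.succ (ClAll.succ (ClAll.succ (ClAll.succ ClAll.zero s1756) s1757) s1758) s1759) s1760) s1761) s1762) s1763) s1764) s1765) n723) s1771)

def n759 : Cl (O (nat_lit 6)) (R (nat_lit 143633))
    (p (nat_lit 0x111) (nat_lit 0) (p (nat_lit 0x109) (nat_lit 0) (p (nat_lit 0x101) (nat_lit 0) (p (nat_lit 0xc1) (nat_lit 1) (p (nat_lit 0x81) (nat_lit 1) (p (nat_lit 0x41) (nat_lit 1) (p (nat_lit 0x10a898a08881a) (nat_lit 0) (p (nat_lit 0x8a090988079a) (nat_lit 0) (p (nat_lit 0x108088907871a) (nat_lit 0) (p (nat_lit 0x87880887069a) (nat_lit 0) (p (nat_lit 0x8000080000000088806860a) (nat_lit 0) (p (nat_lit 0x8000080000000068786058a) (nat_lit 0) (p (nat_lit 0x10687058502) (nat_lit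 0) (p (nat_lit 0x8606850482) (nat_lit 0) (p (nat_lit 0x160004) (nat_lit 0) (p (nat_lit 0x68612) (nat_lit 0) (p (nat_lit 0x50592) (nat_lit 0) (p (nat_lit 0x40512) (nat_lit 0) (p (nat_lit 0x50312) (nat_lit 0) (p (nat_lit 0x38292) (nat_lit 0) (p (nat_lit 0x28212) (nat_lit 0) (p (nat_lit 0x38112) (nat_lit 0) (p (nat_lit 0x20092) (nat_lit 0) (p (nat_lit 0x10012) (nat_lit 0) pn)))))))))))))))))))))))) :=
  Cl.node (nat_lit 0x119) (nat_lit 2) (by decide +kernel) (ClAll.succ (ClAll.succ ClAll.zero s1772) n724)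

def n760 : Cl (O (nat_lit 6)) (R (nat_lit 143633))
    (p (nat_lit 0x101) (nat_lit 0) (p (nat_lit 0x119) (nat_lit 0) (p (nat_lit 0xd1) (nat_lit 0) (p (nat_lit 0x89) (nat_lit 0) (p (nat_lit 0x41) (nat_lit 0) (p (nat_lit 0x10a898a08881a) (nat_lit 0) (p (nat_lit 0x8a090988079a) (nat_lit 0) (p (nat_lit 0x108088907871a) (nat_lit 0) (p (nat_lit 0x87880887069a) (nat_lit 0) (p (nat_lit 0x8000080000000088806860a) (nat_lit 0) (p (nat_lit 0x8000080000000068786058a) (nat_lit 0) (p (nat_lit 0x10687058502) (nat_lit 0) (p (nat_lit 0x8606850482) (nat_lit 0) (p (nat_lit 0x160004) (nat_lit 0) (p (nat_lit 0x68612) (nat_lit 0) (p (nat_lit 0x50592) (nat_lit 0) (p (nat_lit 0x40512) (nat_lit 0) (p (nat_lit 0x50312) (nat_lit 0) (p (nat_lit 0x38292) (nat_lit 0) (p (nat_lit 0x28212) (nat_lit 0) (p (nat_lit 0x38112) (nat_lit 0) (p (nat_lit 0x20092) (nat_lit 0) (p (nat_lit 0x10012) (nat_lit 0) pn)))))))))))))))))))))))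 :=
  Cl.node (nat_lit 0x109) (nat_lit 2) (by decide +kernel) (ClAll.succ (ClAll.succ ClAll.zero s0) n725)

def n761 : Cl (O (nat_lit 6)) (R (nat_lit 143633))
    (p (nat_lit 0x101) (nat_lit 1) (p (nat_lit 0x119) (nat_lit 0) (p (nat_lit 0xd1) (nat_lit 0) (p (nat_lit 0x89) (nat_lit 0) (p (nat_lit 0x41) (nat_lit 0) (p (nat_lit 0x10a898a08881a) (nat_lit 0) (p (nat_lit 0x8a090988079a) (nat_lit 0) (p (nat_lit 0x108088907871a) (nat_lit 0) (p (nat_lit 0x87880887069a) (nat_lit 0) (p (nat_lit 0x8000080000000088806860a) (nat_lit 0) (p (nat_lit 0x8000080000000068786058a) (nat_lit 0) (p (nat_lit 0x10687058502) (nat_lit 0) (p (nat_lit 0x8606850482) (nat_lit 0) (p (nat_lit 0x160004) (nat_lit 0) (p (nat_lit 0x68612) (nat_lit 0) (p (nat_lit 0x50592) (nat_lit 0) (p (nat_lit 0x40512) (nat_lit 0) (p (nat_lit 0x50312) (nat_lit 0) (p (nat_lit 0x38292) (nat_lit 0) (p (nat_lit 0x28212) (nat_lit 0) (p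 (nat_lit 0x38112) (nat_lit 0) (p (nat_lit 0x20092) (nat_lit 0) (p (nat_lit 0x10012) (nat_lit 0) pn))))))))))))))))))))))) :=
  Cl.node (nat_lit 0x81) (nat_lit 2) (by decide +kernel) (ClAll.succ (ClAll.succ ClAll.zero n726) n727)

def n762 : Cl (O (nat_lit 6)) (R (nat_lit 143633))
    (p (nat_lit 0xc1) (nat_lit 0) (p (nat_lit 0x119) (nat_lit 1) (p (nat_lit 0xd1) (nat_lit 0) (p (nat_lit 0x89) (nat_lit 0) (p (nat_lit 0x41) (nat_lit 0) (p (nat_lit 0x10a898a08881a) (nat_lit 0) (p (nat_lit 0x8a090988079a) (nat_lit 0) (p (nat_lit 0x108088907871a) (nat_lit 0) (p (nat_lit 0x87880887069a) (nat_lit 0) (p (nat_lit 0x8000080000000088806860a) (nat_lit 0) (p (nat_lit 0x8000080000000068786058a) (nat_lit 0) (p (nat_lit 0x10687058502) (nat_lit 0) (p (nat_lit 0x8606850482) (nat_lit 0) (p (nat_lit 0x160004) (nat_lit 0) (p (nat_lit 0x68612) (nat_lit 0) (p (nat_lit 0x50592) (nat_lit 0) (p (nat_lit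 0x40512) (nat_lit 0) (p (nat_lit 0x50312) (nat_lit 0) (p (nat_lit 0x38292) (nat_lit 0) (p (nat_lit 0x28212) (nat_lit 0) (p (nat_lit 0x38112) (nat_lit 0) (p (nat_lit 0x20092) (nat_lit 0) (p (nat_lit 0x10012) (nat_lit 0) pn))))))))))))))))))))))) :=
  Cl.node (nat_lit 0xc9) (nat_lit 2) (by decide +kernel) (ClAll.succ (ClAll.succ ClAll.zero s242) n728)

def n763 : Cl (O (nat_lit 6)) (R (nat_lit 143633))
    (p (nat_lit 0xc1) (nat_lit 1) (p (nat_lit 0x119) (nat_lit 1) (p (nat_lit 0xd1) (nat_lit 0) (p (nat_lit 0x89) (nat_lit 0) (p (nat_lit 0x41) (nat_lit 0) (p (nat_lit 0x10a898a08881a) (nat_lit 0) (p (nat_lit 0x8a090988079a) (nat_lit 0) (p (nat_lit 0x108088907871a) (nat_lit 0) (p (nat_lit 0x87880887069a) (nat_lit 0) (p (nat_lit 0x8000080000000088806860a) (nat_lit 0) (p (nat_lit 0x8000080000000068786058a) (nat_lit 0) (p (nat_lit 0x10687058502) (nat_lit 0) (p (nat_lit 0x8606850482)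 (nat_lit 0) (p (nat_lit 0x160004) (nat_lit 0) (p (nat_lit 0x68612) (nat_lit 0) (p (nat_lit 0x50592) (nat_lit 0) (p (nat_lit 0x40512) (nat_lit 0) (p (nat_lit 0x50312) (nat_lit 0) (p (nat_lit 0x38292) (nat_lit 0) (p (nat_lit 0x28212) (nat_lit 0) (p (nat_lit 0x38112) (nat_lit 0) (p (nat_lit 0x20092) (nat_lit 0) (p (nat_lit 0x10012) (nat_lit 0) pn))))))))))))))))))))))) :=
  Cl.node (nat_lit 0x81) (nat_lit 2) (by decide +kernel) (ClAll.succ (ClAll.succ ClAll.zero n729) n730)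

def n764 : Cl (O (nat_lit 6)) (R (nat_lit 143633))
    (p (nat_lit 0x101) (nat_lit 0) (p (nat_lit 0x111) (nat_lit 0) (p (nat_lit 0xd1) (nat_lit 1) (p (nat_lit 0x89) (nat_lit 0) (p (nat_lit 0x41) (nat_lit 0) (p (nat_lit 0x10a898a08881a) (nat_lit 0) (p (nat_lit 0x8a090988079a) (nat_lit 0) (p (nat_lit 0x108088907871a) (nat_lit 0) (p (nat_lit 0x87880887069a) (nat_lit 0) (p (nat_lit 0x8000080000000088806860a) (nat_lit 0) (p (nat_lit 0x8000080000000068786058a) (nat_lit 0) (p (nat_lit 0x10687058502) (nat_lit 0) (p (nat_lit 0x8606850482) (nat_lit 0) (p (nat_lit 0x160004) (nat_lit 0) (p (nat_lit 0x68612) (nat_lit 0) (p (nat_lit 0x50592) (nat_lit 0) (p (nat_lit 0x40512) (nat_lit 0) (p (nat_lit 0x50312) (nat_lit 0) (p (nat_lit 0x38292) (nat_lit 0) (p (nat_lit 0x28212) (nat_lit 0) (p (nat_lit 0x38112) (nat_lit 0) (p (nat_lit 0x20092) (nat_lit 0) (p (nat_lit 0x10012) (nat_lit 0) pn)))))))))))))))))))))))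 :=
  Cl.node (nat_lit 0x109) (nat_lit 2) (by decide +kernel) (ClAll.succ (ClAll.succ ClAll.zero s448) n731)

def n765 : Cl (O (nat_lit 6)) (R (nat_lit 143633))
    (p (nat_lit 0x101) (nat_lit 1) (p (nat_lit 0x111) (nat_lit 0) (p (nat_lit 0xd1) (nat_lit 1) (p (nat_lit 0x89) (nat_lit 0) (p (nat_lit 0x41) (nat_lit 0) (p (nat_lit 0x10a898a08881a) (nat_lit 0) (p (nat_lit 0x8a090988079a) (nat_lit 0) (p (nat_lit 0x108088907871a) (nat_lit 0) (p (nat_lit 0x87880887069a) (nat_lit 0) (p (nat_lit 0x8000080000000088806860a) (nat_lit 0) (p (nat_lit 0x8000080000000068786058a) (nat_lit 0) (p (nat_lit 0x10687058502) (nat_lit 0) (p (nat_lit 0x8606850482) (nat_lit 0) (p (nat_lit 0x160004) (nat_lit 0) (p (nat_lit 0x68612) (nat_lit 0) (p (nat_lit 0x50592) (nat_lit 0) (p (nat_lit 0x40512) (nat_lit 0) (p (nat_lit 0x50312) (nat_lit 0) (p (nat_lit 0x38292) (nat_lit 0) (p (nat_lit 0x28212) (nat_lit 0)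 (p (nat_lit 0x38112) (nat_lit 0) (p (nat_lit 0x20092) (nat_lit 0) (p (nat_lit 0x10012) (nat_lit 0) pn))))))))))))))))))))))) :=
  Cl.node (nat_lit 0x81) (nat_lit 2) (by decide +kernel) (ClAll.succ (ClAll.succ ClAll.zero n732) n733)

def n766 : Cl (O (nat_lit 6)) (R (nat_lit 143633))
    (p (nat_lit 0x81) (nat_lit 1) (p (nat_lit 0x111) (nat_lit 1) (p (nat_lit 0xd1) (nat_lit 1) (p (nat_lit 0x89) (nat_lit 0) (p (nat_lit 0x41) (nat_lit 0) (p (nat_lit 0x10a898a08881a) (nat_lit 0) (p (nat_lit 0x8a090988079a) (nat_lit 0) (p (nat_lit 0x108088907871a) (nat_lit 0) (p (nat_lit 0x87880887069a) (nat_lit 0) (p (nat_lit 0x8000080000000088806860a) (nat_lit 0) (p (nat_lit 0x8000080000000068786058a) (nat_lit 0) (p (nat_lit 0x10687058502) (nat_lit 0) (p (nat_lit 0x8606850482) (nat_lit 0) (p (nat_lit 0x160004) (nat_lit 0) (p (nat_lit 0x68612) (nat_lit 0) (p (nat_lit 0x50592) (nat_lit 0) (p (nat_lit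 0x40512) (nat_lit 0) (p (nat_lit 0x50312) (nat_lit 0) (p (nat_lit 0x38292) (nat_lit 0) (p (nat_lit 0x28212) (nat_lit 0) (p (nat_lit 0x38112) (nat_lit 0) (p (nat_lit 0x20092) (nat_lit 0) (p (nat_lit 0x10012) (nat_lit 0) pn))))))))))))))))))))))) :=
  Cl.node (nat_lit 0xc1) (nat_lit 2) (by decide +kernel) (ClAll.succ (ClAll.succ ClAll.zero s610) n734)

def n767 : Cl (O (nat_lit 6)) (R (nat_lit 143633))
    (p (nat_lit 0x101) (nat_lit 0) (p (nat_lit 0x119) (nat_lit 0) (p (nat_lit 0xc9) (nat_lit 0) (p (nat_lit 0x89) (nat_lit 1) (p (nat_lit 0x41) (nat_lit 0) (p (nat_lit 0x10a898a08881a) (nat_lit 0) (p (nat_lit 0x8a090988079a) (nat_lit 0) (p (nat_lit 0x108088907871a) (nat_lit 0) (p (nat_lit 0x87880887069a) (nat_lit 0) (p (nat_lit 0x8000080000000088806860a) (nat_lit 0) (p (nat_lit 0x8000080000000068786058a) (nat_lit 0) (p (nat_lit 0x10687058502) (nat_lit 0) (p (nat_lit 0x8606850482)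 (nat_lit 0) (p (nat_lit 0x160004) (nat_lit 0) (p (nat_lit 0x68612) (nat_lit 0) (p (nat_lit 0x50592) (nat_lit 0) (p (nat_lit 0x40512) (nat_lit 0) (p (nat_lit 0x50312) (nat_lit 0) (p (nat_lit 0x38292) (nat_lit 0) (p (nat_lit 0x28212) (nat_lit 0) (p (nat_lit 0x38112) (nat_lit 0) (p (nat_lit 0x20092) (nat_lit 0) (p (nat_lit 0x10012) (nat_lit 0) pn))))))))))))))))))))))) :=
  Cl.node (nat_lit 0x109) (nat_lit 2) (by decide +kernel) (ClAll.succ (ClAll.succ ClAll.zero n735) n736)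

def n768 : Cl (O (nat_lit 6)) (R (nat_lit 143633))
    (p (nat_lit 0x101) (nat_lit 1) (p (nat_lit 0x119) (nat_lit 0) (p (nat_lit 0xc9) (nat_lit 0) (p (nat_lit 0x89) (nat_lit 1) (p (nat_lit 0x41) (nat_lit 0) (p (nat_lit 0x10a898a08881a) (nat_lit 0) (p (nat_lit 0x8a090988079a) (nat_lit 0) (p (nat_lit 0x108088907871a) (nat_lit 0) (p (nat_lit 0x87880887069a) (nat_lit 0) (p (nat_lit 0x8000080000000088806860a) (nat_lit 0) (p (nat_lit 0x8000080000000068786058a) (nat_lit 0) (p (nat_lit 0x10687058502) (nat_lit 0) (p (nat_lit 0x8606850482) (nat_lit 0) (p (nat_lit 0x160004) (nat_lit 0) (p (nat_lit 0x68612) (nat_lit 0) (p (nat_lit 0x50592) (nat_lit 0) (p (nat_lit 0x40512) (nat_lit 0) (p (nat_lit 0x50312) (nat_lit 0) (p (nat_lit 0x38292) (nat_lit 0) (p (nat_lit 0x28212) (nat_lit 0) (p (nat_lit 0x38112) (nat_lit 0) (p (nat_lit 0x20092) (nat_lit 0) (p (nat_lit 0x10012) (nat_lit 0) pn)))))))))))))))))))))))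 :=
  Cl.node (nat_lit 0xc1) (nat_lit 2) (by decide +kernel) (ClAll.succ (ClAll.succ ClAll.zero n737) s901)

def n769 : Cl (O (nat_lit 6)) (R (nat_lit 143633))
    (p (nat_lit 0xc1) (nat_lit 0) (p (nat_lit 0x119) (nat_lit 1) (p (nat_lit 0xc9) (nat_lit 0) (p (nat_lit 0x89) (nat_lit 1) (p (nat_lit 0x41) (nat_lit 0) (p (nat_lit 0x10a898a08881a) (nat_lit 0) (p (nat_lit 0x8a090988079a) (nat_lit 0) (p (nat_lit 0x108088907871a) (nat_lit 0) (p (nat_lit 0x87880887069a) (nat_lit 0) (p (nat_lit 0x8000080000000088806860a) (nat_lit 0) (p (nat_lit 0x8000080000000068786058a) (nat_lit 0) (p (nat_lit 0x10687058502) (nat_lit 0) (p (nat_lit 0x8606850482) (nat_lit 0) (p (nat_lit 0x160004) (nat_lit 0) (p (nat_lit 0x68612) (nat_lit 0) (p (nat_lit 0x50592) (nat_lit 0) (p (nat_lit 0x40512) (nat_lit 0) (p (nat_lit 0x50312) (nat_lit 0) (p (nat_lit 0x38292) (nat_lit 0) (p (nat_lit 0x28212) (nat_lit 0) (p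 (nat_lit 0x38112) (nat_lit 0) (p (nat_lit 0x20092) (nat_lit 0) (p (nat_lit 0x10012) (nat_lit 0) pn))))))))))))))))))))))) :=
  Cl.node (nat_lit 0xd1) (nat_lit 2) (by decide +kernel) (ClAll.succ (ClAll.succ ClAll.zero s902) n738)

def n770 : Cl (O (nat_lit 6)) (R (nat_lit 143633))
    (p (nat_lit 0xc1) (nat_lit 1) (p (nat_lit 0x119) (nat_lit 1) (p (nat_lit 0xc9) (nat_lit 0) (p (nat_lit 0x89) (nat_lit 1) (p (nat_lit 0x41) (nat_lit 0) (p (nat_lit 0x10a898a08881a) (nat_lit 0) (p (nat_lit 0x8a090988079a) (nat_lit 0) (p (nat_lit 0x108088907871a) (nat_lit 0) (p (nat_lit 0x87880887069a) (nat_lit 0) (p (nat_lit 0x8000080000000088806860a) (nat_lit 0) (p (nat_lit 0x8000080000000068786058a) (nat_lit 0) (p (nat_lit 0x10687058502) (nat_lit 0) (p (nat_lit 0x8606850482) (nat_lit 0) (p (nat_lit 0x160004) (nat_lit 0) (p (nat_lit 0x68612) (nat_lit 0) (p (nat_lit 0x50592) (nat_lit 0) (p (nat_lit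 0x40512) (nat_lit 0) (p (nat_lit 0x50312) (nat_lit 0) (p (nat_lit 0x38292) (nat_lit 0) (p (nat_lit 0x28212) (nat_lit 0) (p (nat_lit 0x38112) (nat_lit 0) (p (nat_lit 0x20092) (nat_lit 0) (p (nat_lit 0x10012) (nat_lit 0) pn))))))))))))))))))))))) :=
  Cl.node (nat_lit 0x101) (nat_lit 2) (by decide +kernel) (ClAll.succ (ClAll.succ ClAll.zero n739) n740)

def n771 : Cl (O (nat_lit 6)) (R (nat_lit 143633))
    (p (nat_lit 0x101) (nat_lit 0) (p (nat_lit 0x109) (nat_lit 0) (p (nat_lit 0xc9) (nat_lit 1) (p (nat_lit 0x89) (nat_lit 1) (p (nat_lit 0x41) (nat_lit 0) (p (nat_lit 0x10a898a08881a) (nat_lit 0) (p (nat_lit 0x8a090988079a) (nat_lit 0) (p (nat_lit 0x108088907871a) (nat_lit 0) (p (nat_lit 0x87880887069a) (nat_lit 0) (p (nat_lit 0x8000080000000088806860a) (nat_lit 0) (p (nat_lit 0x8000080000000068786058a) (nat_lit 0) (p (nat_lit 0x10687058502) (nat_lit 0) (p (nat_lit 0x8606850482)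 (nat_lit 0) (p (nat_lit 0x160004) (nat_lit 0) (p (nat_lit 0x68612) (nat_lit 0) (p (nat_lit 0x50592) (nat_lit 0) (p (nat_lit 0x40512) (nat_lit 0) (p (nat_lit 0x50312) (nat_lit 0) (p (nat_lit 0x38292) (nat_lit 0) (p (nat_lit 0x28212) (nat_lit 0) (p (nat_lit 0x38112) (nat_lit 0) (p (nat_lit 0x20092) (nat_lit 0) (p (nat_lit 0x10012) (nat_lit 0) pn))))))))))))))))))))))) :=
  Cl.node (nat_lit 0x111) (nat_lit 2) (by decide +kernel) (ClAll.succ (ClAll.succ ClAll.zero n741) n742)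

def n772 : Cl (O (nat_lit 6)) (R (nat_lit 143633))
    (p (nat_lit 0x101) (nat_lit 0) (p (nat_lit 0x119) (nat_lit 0) (p (nat_lit 0xd1) (nat_lit 0) (p (nat_lit 0x81) (nat_lit 0) (p (nat_lit 0x41) (nat_lit 1) (p (nat_lit 0x10a898a08881a) (nat_lit 0) (p (nat_lit 0x8a090988079a) (nat_lit 0) (p (nat_lit 0x108088907871a) (nat_lit 0) (p (nat_lit 0x87880887069a) (nat_lit 0) (p (nat_lit 0x8000080000000088806860a) (nat_lit 0) (p (nat_lit 0x8000080000000068786058a) (nat_lit 0) (p (nat_lit 0x10687058502) (nat_lit 0) (p (nat_lit 0x8606850482) (nat_lit 0) (p (nat_lit 0x160004) (nat_lit 0) (p (nat_lit 0x68612) (nat_lit 0) (p (nat_lit 0x50592) (nat_lit 0) (p (nat_lit 0x40512) (nat_lit 0) (p (nat_lit 0x50312) (nat_lit 0) (p (nat_lit 0x38292) (nat_lit 0) (p (nat_lit 0x28212) (nat_lit 0) (p (nat_lit 0x38112) (nat_lit 0) (p (nat_lit 0x20092) (nat_lit 0) (p (nat_lit 0x10012) (nat_lit 0) pn)))))))))))))))))))))))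 :=
  Cl.node (nat_lit 0x109) (nat_lit 2) (by decide +kernel) (ClAll.succ (ClAll.succ ClAll.zero s1048) n743)

def n773 : Cl (O (nat_lit 6)) (R (nat_lit 143633))
    (p (nat_lit 0x101) (nat_lit 1) (p (nat_lit 0x119) (nat_lit 0) (p (nat_lit 0xd1) (nat_lit 0) (p (nat_lit 0x81) (nat_lit 0) (p (nat_lit 0x41) (nat_lit 1) (p (nat_lit 0x10a898a08881a) (nat_lit 0) (p (nat_lit 0x8a090988079a) (nat_lit 0) (p (nat_lit 0x108088907871a) (nat_lit 0) (p (nat_lit 0x87880887069a) (nat_lit 0) (p (nat_lit 0x8000080000000088806860a) (nat_lit 0) (p (nat_lit 0x8000080000000068786058a) (nat_lit 0) (p (nat_lit 0x10687058502) (nat_lit 0) (p (nat_lit 0x8606850482) (nat_lit 0) (p (nat_lit 0x160004) (nat_lit 0) (p (nat_lit 0x68612) (nat_lit 0) (p (nat_lit 0x50592) (nat_lit 0) (p (nat_lit 0x40512) (nat_lit 0) (p (nat_lit 0x50312) (nat_lit 0) (p (nat_lit 0x38292) (nat_lit 0) (p (nat_lit 0x28212) (nat_lit 0)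 (p (nat_lit 0x38112) (nat_lit 0) (p (nat_lit 0x20092) (nat_lit 0) (p (nat_lit 0x10012) (nat_lit 0) pn))))))))))))))))))))))) :=
  Cl.node (nat_lit 0xc1) (nat_lit 2) (by decide +kernel) (ClAll.succ (ClAll.succ ClAll.zero n744) n745)

def n774 : Cl (O (nat_lit 6)) (R (nat_lit 143633))
    (p (nat_lit 0xc1) (nat_lit 0) (p (nat_lit 0x119) (nat_lit 1) (p (nat_lit 0xd1) (nat_lit 0) (p (nat_lit 0x81) (nat_lit 0) (p (nat_lit 0x41) (nat_lit 1) (p (nat_lit 0x10a898a08881a) (nat_lit 0) (p (nat_lit 0x8a090988079a) (nat_lit 0) (p (nat_lit 0x108088907871a) (nat_lit 0) (p (nat_lit 0x87880887069a) (nat_lit 0) (p (nat_lit 0x8000080000000088806860a) (nat_lit 0) (p (nat_lit 0x8000080000000068786058a) (nat_lit 0) (p (nat_lit 0x10687058502) (nat_lit 0) (p (nat_lit 0x8606850482) (nat_lit 0) (p (nat_lit 0x160004) (nat_lit 0) (p (nat_lit 0x68612) (nat_lit 0) (p (nat_lit 0x50592) (nat_lit 0) (p (nat_lit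 0x40512) (nat_lit 0) (p (nat_lit 0x50312) (nat_lit 0) (p (nat_lit 0x38292) (nat_lit 0) (p (nat_lit 0x28212) (nat_lit 0) (p (nat_lit 0x38112) (nat_lit 0) (p (nat_lit 0x20092) (nat_lit 0) (p (nat_lit 0x10012) (nat_lit 0) pn))))))))))))))))))))))) :=
  Cl.node (nat_lit 0xc9) (nat_lit 2) (by decide +kernel) (ClAll.succ (ClAll.succ ClAll.zero s1219) n746)

def n775 : Cl (O (nat_lit 6)) (R (nat_lit 143633))
    (p (nat_lit 0xc1) (nat_lit 1) (p (nat_lit 0x119) (nat_lit 1) (p (nat_lit 0xd1) (nat_lit 0) (p (nat_lit 0x81) (nat_lit 0) (p (nat_lit 0x41) (nat_lit 1) (p (nat_lit 0x10a898a08881a) (nat_lit 0) (p (nat_lit 0x8a090988079a) (nat_lit 0) (p (nat_lit 0x108088907871a) (nat_lit 0) (p (nat_lit 0x87880887069a) (nat_lit 0) (p (nat_lit 0x8000080000000088806860a) (nat_lit 0) (p (nat_lit 0x8000080000000068786058a) (nat_lit 0) (p (nat_lit 0x10687058502) (nat_lit 0) (p (nat_lit 0x8606850482)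 (nat_lit 0) (p (nat_lit 0x160004) (nat_lit 0) (p (nat_lit 0x68612) (nat_lit 0) (p (nat_lit 0x50592) (nat_lit 0) (p (nat_lit 0x40512) (nat_lit 0) (p (nat_lit 0x50312) (nat_lit 0) (p (nat_lit 0x38292) (nat_lit 0) (p (nat_lit 0x28212) (nat_lit 0) (p (nat_lit 0x38112) (nat_lit 0) (p (nat_lit 0x20092) (nat_lit 0) (p (nat_lit 0x10012) (nat_lit 0) pn))))))))))))))))))))))) :=
  Cl.node (nat_lit 0x101) (nat_lit 2) (by decide +kernel) (ClAll.succ (ClAll.succ ClAll.zero n747) n748)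

def n776 : Cl (O (nat_lit 6)) (R (nat_lit 143633))
    (p (nat_lit 0x101) (nat_lit 0) (p (nat_lit 0x111) (nat_lit 0) (p (nat_lit 0xd1) (nat_lit 1) (p (nat_lit 0x81) (nat_lit 0) (p (nat_lit 0x41) (nat_lit 1) (p (nat_lit 0x10a898a08881a) (nat_lit 0) (p (nat_lit 0x8a090988079a) (nat_lit 0) (p (nat_lit 0x108088907871a) (nat_lit 0) (p (nat_lit 0x87880887069a) (nat_lit 0) (p (nat_lit 0x8000080000000088806860a) (nat_lit 0) (p (nat_lit 0x8000080000000068786058a) (nat_lit 0) (p (nat_lit 0x10687058502) (nat_lit 0) (p (nat_lit 0x8606850482) (nat_lit 0) (p (nat_lit 0x160004) (nat_lit 0) (p (nat_lit 0x68612) (nat_lit 0) (p (nat_lit 0x50592) (nat_lit 0) (p (nat_lit 0x40512) (nat_lit 0) (p (nat_lit 0x50312) (nat_lit 0) (p (nat_lit 0x38292) (nat_lit 0) (p (nat_lit 0x28212) (nat_lit 0) (p (nat_lit 0x38112) (nat_lit 0) (p (nat_lit 0x20092) (nat_lit 0) (p (nat_lit 0x10012) (nat_lit 0) pn)))))))))))))))))))))))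 :=
  Cl.node (nat_lit 0x109) (nat_lit 2) (by decide +kernel) (ClAll.succ (ClAll.succ ClAll.zero s1355) n749)

def n777 : Cl (O (nat_lit 6)) (R (nat_lit 143633))
    (p (nat_lit 0x101) (nat_lit 1) (p (nat_lit 0x111) (nat_lit 0) (p (nat_lit 0xd1) (nat_lit 1) (p (nat_lit 0x81) (nat_lit 0) (p (nat_lit 0x41) (nat_lit 1) (p (nat_lit 0x10a898a08881a) (nat_lit 0) (p (nat_lit 0x8a090988079a) (nat_lit 0) (p (nat_lit 0x108088907871a) (nat_lit 0) (p (nat_lit 0x87880887069a) (nat_lit 0) (p (nat_lit 0x8000080000000088806860a) (nat_lit 0) (p (nat_lit 0x8000080000000068786058a) (nat_lit 0) (p (nat_lit 0x10687058502) (nat_lit 0) (p (nat_lit 0x8606850482) (nat_lit 0) (p (nat_lit 0x160004) (nat_lit 0) (p (nat_lit 0x68612) (nat_lit 0) (p (nat_lit 0x50592) (nat_lit 0) (p (nat_lit 0x40512) (nat_lit 0) (p (nat_lit 0x50312) (nat_lit 0) (p (nat_lit 0x38292) (nat_lit 0) (p (nat_lit 0x28212) (nat_lit 0)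 (p (nat_lit 0x38112) (nat_lit 0) (p (nat_lit 0x20092) (nat_lit 0) (p (nat_lit 0x10012) (nat_lit 0) pn))))))))))))))))))))))) :=
  Cl.node (nat_lit 0x89) (nat_lit 2) (by decide +kernel) (ClAll.succ (ClAll.succ ClAll.zero n750) n751)

def n778 : Cl (O (nat_lit 6)) (R (nat_lit 143633))
    (p (nat_lit 0x89) (nat_lit 1) (p (nat_lit 0x111) (nat_lit 1) (p (nat_lit 0xd1) (nat_lit 1) (p (nat_lit 0x81) (nat_lit 0) (p (nat_lit 0x41) (nat_lit 1) (p (nat_lit 0x10a898a08881a) (nat_lit 0) (p (nat_lit 0x8a090988079a) (nat_lit 0) (p (nat_lit 0x108088907871a) (nat_lit 0) (p (nat_lit 0x87880887069a) (nat_lit 0) (p (nat_lit 0x8000080000000088806860a) (nat_lit 0) (p (nat_lit 0x8000080000000068786058a) (nat_lit 0) (p (nat_lit 0x10687058502) (nat_lit 0) (p (nat_lit 0x8606850482) (nat_lit 0) (p (nat_lit 0x160004) (nat_lit 0) (p (nat_lit 0x68612) (nat_lit 0) (p (nat_lit 0x50592) (nat_lit 0) (p (nat_lit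 0x40512) (nat_lit 0) (p (nat_lit 0x50312) (nat_lit 0) (p (nat_lit 0x38292) (nat_lit 0) (p (nat_lit 0x28212) (nat_lit 0) (p (nat_lit 0x38112) (nat_lit 0) (p (nat_lit 0x20092) (nat_lit 0) (p (nat_lit 0x10012) (nat_lit 0) pn))))))))))))))))))))))) :=
  Cl.node (nat_lit 0xc9) (nat_lit 2) (by decide +kernel) (ClAll.succ (ClAll.succ ClAll.zero s1466) n752)

def n779 : Cl (O (nat_lit 6)) (R (nat_lit 143633))
    (p (nat_lit 0x101) (nat_lit 0) (p (nat_lit 0x119) (nat_lit 0) (p (nat_lit 0xc1) (nat_lit 0) (p (nat_lit 0x81) (nat_lit 1) (p (nat_lit 0x41) (nat_lit 1) (p (nat_lit 0x10a898a08881a) (nat_lit 0) (p (nat_lit 0x8a090988079a) (nat_lit 0) (p (nat_lit 0x108088907871a) (nat_lit 0) (p (nat_lit 0x87880887069a) (nat_lit 0) (p (nat_lit 0x8000080000000088806860a) (nat_lit 0) (p (nat_lit 0x8000080000000068786058a) (nat_lit 0) (p (nat_lit 0x10687058502) (nat_lit 0) (p (nat_lit 0x8606850482)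 (nat_lit 0) (p (nat_lit 0x160004) (nat_lit 0) (p (nat_lit 0x68612) (nat_lit 0) (p (nat_lit 0x50592) (nat_lit 0) (p (nat_lit 0x40512) (nat_lit 0) (p (nat_lit 0x50312) (nat_lit 0) (p (nat_lit 0x38292) (nat_lit 0) (p (nat_lit 0x28212) (nat_lit 0) (p (nat_lit 0x38112) (nat_lit 0) (p (nat_lit 0x20092) (nat_lit 0) (p (nat_lit 0x10012) (nat_lit 0) pn))))))))))))))))))))))) :=
  Cl.node (nat_lit 0x109) (nat_lit 2) (by decide +kernel) (ClAll.succ (ClAll.succ ClAll.zero n753) n754)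

def n780 : Cl (O (nat_lit 6)) (R (nat_lit 143633))
    (p (nat_lit 0x101) (nat_lit 1) (p (nat_lit 0x119) (nat_lit 0) (p (nat_lit 0xc1) (nat_lit 0) (p (nat_lit 0x81) (nat_lit 1) (p (nat_lit 0x41) (nat_lit 1) (p (nat_lit 0x10a898a08881a) (nat_lit 0) (p (nat_lit 0x8a090988079a) (nat_lit 0) (p (nat_lit 0x108088907871a) (nat_lit 0) (p (nat_lit 0x87880887069a) (nat_lit 0) (p (nat_lit 0x8000080000000088806860a) (nat_lit 0) (p (nat_lit 0x8000080000000068786058a) (nat_lit 0) (p (nat_lit 0x10687058502) (nat_lit 0) (p (nat_lit 0x8606850482) (nat_lit 0) (p (nat_lit 0x160004) (nat_lit 0) (p (nat_lit 0x68612) (nat_lit 0) (p (nat_lit 0x50592) (nat_lit 0) (p (nat_lit 0x40512) (nat_lit 0) (p (nat_lit 0x50312) (nat_lit 0) (p (nat_lit 0x38292) (nat_lit 0) (p (nat_lit 0x28212) (nat_lit 0) (p (nat_lit 0x38112) (nat_lit 0) (p (nat_lit 0x20092) (nat_lit 0) (p (nat_lit 0x10012) (nat_lit 0) pn)))))))))))))))))))))))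 :=
  Cl.node (nat_lit 0xc9) (nat_lit 2) (by decide +kernel) (ClAll.succ (ClAll.succ ClAll.zero n755) s1689)

def n781 : Cl (O (nat_lit 6)) (R (nat_lit 143633))
    (p (nat_lit 0xc9) (nat_lit 0) (p (nat_lit 0x119) (nat_lit 1) (p (nat_lit 0xc1) (nat_lit 0) (p (nat_lit 0x81) (nat_lit 1) (p (nat_lit 0x41) (nat_lit 1) (p (nat_lit 0x10a898a08881a) (nat_lit 0) (p (nat_lit 0x8a090988079a) (nat_lit 0) (p (nat_lit 0x108088907871a) (nat_lit 0) (p (nat_lit 0x87880887069a) (nat_lit 0) (p (nat_lit 0x8000080000000088806860a) (nat_lit 0) (p (nat_lit 0x8000080000000068786058a) (nat_lit 0) (p (nat_lit 0x10687058502) (nat_lit 0) (p (nat_lit 0x8606850482) (nat_lit 0) (p (nat_lit 0x160004) (nat_lit 0) (p (nat_lit 0x68612) (nat_lit 0) (p (nat_lit 0x50592) (nat_lit 0) (p (nat_lit 0x40512) (nat_lit 0) (p (nat_lit 0x50312) (nat_lit 0) (p (nat_lit 0x38292) (nat_lit 0) (p (nat_lit 0x28212) (nat_lit 0)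 (p (nat_lit 0x38112) (nat_lit 0) (p (nat_lit 0x20092) (nat_lit 0) (p (nat_lit 0x10012) (nat_lit 0) pn))))))))))))))))))))))) :=
  Cl.node (nat_lit 0xd1) (nat_lit 2) (by decide +kernel) (ClAll.succ (ClAll.succ ClAll.zero s1690) n756)

def n782 : Cl (O (nat_lit 6)) (R (nat_lit 143633))
    (p (nat_lit 0xc9) (nat_lit 1) (p (nat_lit 0x119) (nat_lit 1) (p (nat_lit 0xc1) (nat_lit 0) (p (nat_lit 0x81) (nat_lit 1) (p (nat_lit 0x41) (nat_lit 1) (p (nat_lit 0x10a898a08881a) (nat_lit 0) (p (nat_lit 0x8a090988079a) (nat_lit 0) (p (nat_lit 0x108088907871a) (nat_lit 0) (p (nat_lit 0x87880887069a) (nat_lit 0) (p (nat_lit 0x8000080000000088806860a) (nat_lit 0) (p (nat_lit 0x8000080000000068786058a) (nat_lit 0) (p (nat_lit 0x10687058502) (nat_lit 0) (p (nat_lit 0x8606850482) (nat_lit 0) (p (nat_lit 0x160004) (nat_lit 0) (p (nat_lit 0x68612) (nat_lit 0) (p (nat_lit 0x50592) (nat_lit 0) (p (nat_lit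 0x40512) (nat_lit 0) (p (nat_lit 0x50312) (nat_lit 0) (p (nat_lit 0x38292) (nat_lit 0) (p (nat_lit 0x28212) (nat_lit 0) (p (nat_lit 0x38112) (nat_lit 0) (p (nat_lit 0x20092) (nat_lit 0) (p (nat_lit 0x10012) (nat_lit 0) pn))))))))))))))))))))))) :=
  Cl.node (nat_lit 0x109) (nat_lit 2) (by decide +kernel) (ClAll.succ (ClAll.succ ClAll.zero n757) n758)

def n783 : Cl (O (nat_lit 6)) (R (nat_lit 143633))
    (p (nat_lit 0x109) (nat_lit 0) (p (nat_lit 0x101) (nat_lit 0) (p (nat_lit 0xc1) (nat_lit 1) (p (nat_lit 0x81) (nat_lit 1) (p (nat_lit 0x41) (nat_lit 1) (p (nat_lit 0x10a898a08881a) (nat_lit 0) (p (nat_lit 0x8a090988079a) (nat_lit 0) (p (nat_lit 0x108088907871a) (nat_lit 0) (p (nat_lit 0x87880887069a) (nat_lit 0) (p (nat_lit 0x8000080000000088806860a) (nat_lit 0) (p (nat_lit 0x8000080000000068786058a) (nat_lit 0) (p (nat_lit 0x10687058502) (nat_lit 0) (p (nat_lit 0x8606850482)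 (nat_lit 0) (p (nat_lit 0x160004) (nat_lit 0) (p (nat_lit 0x68612) (nat_lit 0) (p (nat_lit 0x50592) (nat_lit 0) (p (nat_lit 0x40512) (nat_lit 0) (p (nat_lit 0x50312) (nat_lit 0) (p (nat_lit 0x38292) (nat_lit 0) (p (nat_lit 0x28212) (nat_lit 0) (p (nat_lit 0x38112) (nat_lit 0) (p (nat_lit 0x20092) (nat_lit 0) (p (nat_lit 0x10012) (nat_lit 0) pn))))))))))))))))))))))) :=
  Cl.node (nat_lit 0x111) (nat_lit 2) (by decide +kernel) (ClAll.succ (ClAll.succ ClAll.zero n759) s1786)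

def n784 : Cl (O (nat_lit 6)) (R (nat_lit 143633))
    (p (nat_lit 0x119) (nat_lit 0) (p (nat_lit 0xd1) (nat_lit 0) (p (nat_lit 0x89) (nat_lit 0) (p (nat_lit 0x41) (nat_lit 0) (p (nat_lit 0x10a898a08881a) (nat_lit 0) (p (nat_lit 0x8a090988079a) (nat_lit 0) (p (nat_lit 0x108088907871a) (nat_lit 0) (p (nat_lit 0x87880887069a) (nat_lit 0) (p (nat_lit 0x8000080000000088806860a) (nat_lit 0) (p (nat_lit 0x8000080000000068786058a) (nat_lit 0) (p (nat_lit 0x10687058502) (nat_lit 0) (p (nat_lit 0x8606850482) (nat_lit 0) (p (nat_lit 0x160004) (nat_lit 0) (p (nat_lit 0x68612) (nat_lit 0) (p (nat_lit 0x50592) (nat_lit 0) (p (nat_lit 0x40512) (nat_lit 0) (p (nat_lit 0x50312) (nat_lit 0) (p (nat_lit 0x38292) (nat_lit 0) (p (nat_lit 0x28212) (nat_lit 0) (p (nat_lit 0x38112) (nat_lit 0) (p (nat_lit 0x20092) (nat_lit 0) (p (nat_lit 0x10012) (nat_lit 0) pn)))))))))))))))))))))) :=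
  Cl.node (nat_lit 0x101) (nat_lit 2) (by decide +kernel) (ClAll.succ (ClAll.succ ClAll.zero n760) n761)

def n785 : Cl (O (nat_lit 6)) (R (nat_lit 143633))
    (p (nat_lit 0x119) (nat_lit 1) (p (nat_lit 0xd1) (nat_lit 0) (p (nat_lit 0x89) (nat_lit 0) (p (nat_lit 0x41) (nat_lit 0) (p (nat_lit 0x10a898a08881a) (nat_lit 0) (p (nat_lit 0x8a090988079a) (nat_lit 0) (p (nat_lit 0x108088907871a) (nat_lit 0) (p (nat_lit 0x87880887069a) (nat_lit 0) (p (nat_lit 0x8000080000000088806860a) (nat_lit 0) (p (nat_lit 0x8000080000000068786058a) (nat_lit 0) (p (nat_lit 0x10687058502) (nat_lit 0) (p (nat_lit 0x8606850482) (nat_lit 0) (p (nat_lit 0x160004) (nat_lit 0) (p (nat_lit 0x68612) (nat_lit 0) (p (nat_lit 0x50592) (nat_lit 0) (p (nat_lit 0x40512) (nat_lit 0) (p (nat_lit 0x50312) (nat_lit 0) (p (nat_lit 0x38292) (nat_lit 0) (p (nat_lit 0x28212) (nat_lit 0) (p (nat_lit 0x38112) (nat_lit 0)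 (p (nat_lit 0x20092) (nat_lit 0) (p (nat_lit 0x10012) (nat_lit 0) pn)))))))))))))))))))))) :=
  Cl.node (nat_lit 0xc1) (nat_lit 2) (by decide +kernel) (ClAll.succ (ClAll.succ ClAll.zero n762) n763)

def n786 : Cl (O (nat_lit 6)) (R (nat_lit 143633))
    (p (nat_lit 0x111) (nat_lit 0) (p (nat_lit 0xd1) (nat_lit 1) (p (nat_lit 0x89) (nat_lit 0) (p (nat_lit 0x41) (nat_lit 0) (p (nat_lit 0x10a898a08881a) (nat_lit 0) (p (nat_lit 0x8a090988079a) (nat_lit 0) (p (nat_lit 0x108088907871a) (nat_lit 0) (p (nat_lit 0x87880887069a) (nat_lit 0) (p (nat_lit 0x8000080000000088806860a) (nat_lit 0) (p (nat_lit 0x8000080000000068786058a) (nat_lit 0) (p (nat_lit 0x10687058502) (nat_lit 0) (p (nat_lit 0x8606850482) (nat_lit 0) (p (nat_lit 0x160004) (nat_lit 0) (p (nat_lit 0x68612) (nat_lit 0) (p (nat_lit 0x50592) (nat_lit 0) (p (nat_lit 0x40512) (nat_lit 0) (p (nat_lit 0x50312) (nat_lit 0) (p (nat_lit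 0x38292) (nat_lit 0) (p (nat_lit 0x28212) (nat_lit 0) (p (nat_lit 0x38112) (nat_lit 0) (p (nat_lit 0x20092) (nat_lit 0) (p (nat_lit 0x10012) (nat_lit 0) pn)))))))))))))))))))))) :=
  Cl.node (nat_lit 0x101) (nat_lit 2) (by decide +kernel) (ClAll.succ (ClAll.succ ClAll.zero n764) n765)

def n787 : Cl (O (nat_lit 6)) (R (nat_lit 143633))
    (p (nat_lit 0x111) (nat_lit 1) (p (nat_lit 0xd1) (nat_lit 1) (p (nat_lit 0x89) (nat_lit 0) (p (nat_lit 0x41) (nat_lit 0) (p (nat_lit 0x10a898a08881a) (nat_lit 0) (p (nat_lit 0x8a090988079a) (nat_lit 0) (p (nat_lit 0x108088907871a) (nat_lit 0) (p (nat_lit 0x87880887069a) (nat_lit 0) (p (nat_lit 0x8000080000000088806860a) (nat_lit 0) (p (nat_lit 0x8000080000000068786058a) (nat_lit 0) (p (nat_lit 0x10687058502) (nat_lit 0) (p (nat_lit 0x8606850482) (nat_lit 0) (p (nat_lit 0x160004) (nat_lit 0) (p (nat_lit 0x68612) (nat_lit 0) (p (nat_lit 0x50592)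 (nat_lit 0) (p (nat_lit 0x40512) (nat_lit 0) (p (nat_lit 0x50312) (nat_lit 0) (p (nat_lit 0x38292) (nat_lit 0) (p (nat_lit 0x28212) (nat_lit 0) (p (nat_lit 0x38112) (nat_lit 0) (p (nat_lit 0x20092) (nat_lit 0) (p (nat_lit 0x10012) (nat_lit 0) pn)))))))))))))))))))))) :=
  Cl.node (nat_lit 0x81) (nat_lit 2) (by decide +kernel) (ClAll.succ (ClAll.succ ClAll.zero s609) n766)

def n788 : Cl (O (nat_lit 6)) (R (nat_lit 143633))
    (p (nat_lit 0x119) (nat_lit 0) (p (nat_lit 0xc9) (nat_lit 0) (p (nat_lit 0x89) (nat_lit 1) (p (nat_lit 0x41) (nat_lit 0) (p (nat_lit 0x10a898a08881a) (nat_lit 0) (p (nat_lit 0x8a090988079a) (nat_lit 0) (p (nat_lit 0x108088907871a) (nat_lit 0) (p (nat_lit 0x87880887069a) (nat_lit 0) (p (nat_lit 0x8000080000000088806860a) (nat_lit 0) (p (nat_lit 0x8000080000000068786058a) (nat_lit 0) (p (nat_lit 0x10687058502) (nat_lit 0) (p (nat_lit 0x8606850482) (nat_lit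 0) (p (nat_lit 0x160004) (nat_lit 0) (p (nat_lit 0x68612) (nat_lit 0) (p (nat_lit 0x50592) (nat_lit 0) (p (nat_lit 0x40512) (nat_lit 0) (p (nat_lit 0x50312) (nat_lit 0) (p (nat_lit 0x38292) (nat_lit 0) (p (nat_lit 0x28212) (nat_lit 0) (p (nat_lit 0x38112) (nat_lit 0) (p (nat_lit 0x20092) (nat_lit 0) (p (nat_lit 0x10012) (nat_lit 0) pn)))))))))))))))))))))) :=
  Cl.node (nat_lit 0x101) (nat_lit 2) (by decide +kernel) (ClAll.succ (ClAll.succ ClAll.zero n767) n768)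

def n789 : Cl (O (nat_lit 6)) (R (nat_lit 143633))
    (p (nat_lit 0x119) (nat_lit 1) (p (nat_lit 0xc9) (nat_lit 0) (p (nat_lit 0x89) (nat_lit 1) (p (nat_lit 0x41) (nat_lit 0) (p (nat_lit 0x10a898a08881a) (nat_lit 0) (p (nat_lit 0x8a090988079a) (nat_lit 0) (p (nat_lit 0x108088907871a) (nat_lit 0) (p (nat_lit 0x87880887069a) (nat_lit 0) (p (nat_lit 0x8000080000000088806860a) (nat_lit 0) (p (nat_lit 0x8000080000000068786058a) (nat_lit 0) (p (nat_lit 0x10687058502) (nat_lit 0) (p (nat_lit 0x8606850482) (nat_lit 0) (p (nat_lit 0x160004) (nat_lit 0) (p (nat_lit 0x68612) (nat_lit 0) (p (nat_lit 0x50592) (nat_lit 0) (p (nat_lit 0x40512) (nat_lit 0) (p (nat_lit 0x50312) (nat_lit 0) (p (nat_lit 0x38292) (nat_lit 0) (p (nat_lit 0x28212) (nat_lit 0) (p (nat_lit 0x38112) (nat_lit 0) (p (nat_lit 0x20092) (nat_lit 0) (p (nat_lit 0x10012) (nat_lit 0) pn)))))))))))))))))))))) :=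
  Cl.node (nat_lit 0xc1) (nat_lit 2) (by decide +kernel) (ClAll.succ (ClAll.succ ClAll.zero n769) n770)

def n790 : Cl (O (nat_lit 6)) (R (nat_lit 143633))
    (p (nat_lit 0x109) (nat_lit 0) (p (nat_lit 0xc9) (nat_lit 1) (p (nat_lit 0x89) (nat_lit 1) (p (nat_lit 0x41) (nat_lit 0) (p (nat_lit 0x10a898a08881a) (nat_lit 0) (p (nat_lit 0x8a090988079a) (nat_lit 0) (p (nat_lit 0x108088907871a) (nat_lit 0) (p (nat_lit 0x87880887069a) (nat_lit 0) (p (nat_lit 0x8000080000000088806860a) (nat_lit 0) (p (nat_lit 0x8000080000000068786058a) (nat_lit 0) (p (nat_lit 0x10687058502) (nat_lit 0) (p (nat_lit 0x8606850482) (nat_lit 0) (p (nat_lit 0x160004) (nat_lit 0) (p (nat_lit 0x68612) (nat_lit 0) (p (nat_lit 0x50592) (nat_lit 0) (p (nat_lit 0x40512) (nat_lit 0) (p (nat_lit 0x50312) (nat_lit 0) (p (nat_lit 0x38292) (nat_lit 0) (p (nat_lit 0x28212) (nat_lit 0) (p (nat_lit 0x38112) (nat_lit 0) (p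 (nat_lit 0x20092) (nat_lit 0) (p (nat_lit 0x10012) (nat_lit 0) pn)))))))))))))))))))))) :=
  Cl.node (nat_lit 0x101) (nat_lit 2) (by decide +kernel) (ClAll.succ (ClAll.succ ClAll.zero n771) s1046)

def n791 : Cl (O (nat_lit 6)) (R (nat_lit 143633))
    (p (nat_lit 0x119) (nat_lit 0) (p (nat_lit 0xd1) (nat_lit 0) (p (nat_lit 0x81) (nat_lit 0) (p (nat_lit 0x41) (nat_lit 1) (p (nat_lit 0x10a898a08881a) (nat_lit 0) (p (nat_lit 0x8a090988079a) (nat_lit 0) (p (nat_lit 0x108088907871a) (nat_lit 0) (p (nat_lit 0x87880887069a) (nat_lit 0) (p (nat_lit 0x8000080000000088806860a) (nat_lit 0) (p (nat_lit 0x8000080000000068786058a) (nat_lit 0) (p (nat_lit 0x10687058502) (nat_lit 0) (p (nat_lit 0x8606850482) (nat_lit 0) (p (nat_lit 0x160004) (nat_lit 0) (p (nat_lit 0x68612) (nat_lit 0) (p (nat_lit 0x50592) (nat_lit 0) (p (nat_lit 0x40512) (nat_lit 0) (p (nat_lit 0x50312) (nat_lit 0) (p (nat_lit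 0x38292) (nat_lit 0) (p (nat_lit 0x28212) (nat_lit 0) (p (nat_lit 0x38112) (nat_lit 0) (p (nat_lit 0x20092) (nat_lit 0) (p (nat_lit 0x10012) (nat_lit 0) pn)))))))))))))))))))))) :=
  Cl.node (nat_lit 0x101) (nat_lit 2) (by decide +kernel) (ClAll.succ (ClAll.succ ClAll.zero n772) n773)

def n792 : Cl (O (nat_lit 6)) (R (nat_lit 143633))
    (p (nat_lit 0x119) (nat_lit 1) (p (nat_lit 0xd1) (nat_lit 0) (p (nat_lit 0x81) (nat_lit 0) (p (nat_lit 0x41) (nat_lit 1) (p (nat_lit 0x10a898a08881a) (nat_lit 0) (p (nat_lit 0x8a090988079a) (nat_lit 0) (p (nat_lit 0x108088907871a) (nat_lit 0) (p (nat_lit 0x87880887069a) (nat_lit 0) (p (nat_lit 0x8000080000000088806860a) (nat_lit 0) (p (nat_lit 0x8000080000000068786058a) (nat_lit 0) (p (nat_lit 0x10687058502) (nat_lit 0) (p (nat_lit 0x8606850482) (nat_lit 0) (p (nat_lit 0x160004) (nat_lit 0) (p (nat_lit 0x68612) (nat_lit 0) (p (nat_lit 0x50592)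 (nat_lit 0) (p (nat_lit 0x40512) (nat_lit 0) (p (nat_lit 0x50312) (nat_lit 0) (p (nat_lit 0x38292) (nat_lit 0) (p (nat_lit 0x28212) (nat_lit 0) (p (nat_lit 0x38112) (nat_lit 0) (p (nat_lit 0x20092) (nat_lit 0) (p (nat_lit 0x10012) (nat_lit 0) pn)))))))))))))))))))))) :=
  Cl.node (nat_lit 0xc1) (nat_lit 2) (by decide +kernel) (ClAll.succ (ClAll.succ ClAll.zero n774) n775)

def n793 : Cl (O (nat_lit 6)) (R (nat_lit 143633))
    (p (nat_lit 0x111) (nat_lit 0) (p (nat_lit 0xd1) (nat_lit 1) (p (nat_lit 0x81) (nat_lit 0) (p (nat_lit 0x41) (nat_lit 1) (p (nat_lit 0x10a898a08881a) (nat_lit 0) (p (nat_lit 0x8a090988079a) (nat_lit 0) (p (nat_lit 0x108088907871a) (nat_lit 0) (p (nat_lit 0x87880887069a) (nat_lit 0) (p (nat_lit 0x8000080000000088806860a) (nat_lit 0) (p (nat_lit 0x8000080000000068786058a) (nat_lit 0) (p (nat_lit 0x10687058502) (nat_lit 0) (p (nat_lit 0x8606850482) (nat_lit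 0) (p (nat_lit 0x160004) (nat_lit 0) (p (nat_lit 0x68612) (nat_lit 0) (p (nat_lit 0x50592) (nat_lit 0) (p (nat_lit 0x40512) (nat_lit 0) (p (nat_lit 0x50312) (nat_lit 0) (p (nat_lit 0x38292) (nat_lit 0) (p (nat_lit 0x28212) (nat_lit 0) (p (nat_lit 0x38112) (nat_lit 0) (p (nat_lit 0x20092) (nat_lit 0) (p (nat_lit 0x10012) (nat_lit 0) pn)))))))))))))))))))))) :=
  Cl.node (nat_lit 0x101) (nat_lit 2) (by decide +kernel) (ClAll.succ (ClAll.succ ClAll.zero n776) n777)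

def n794 : Cl (O (nat_lit 6)) (R (nat_lit 143633))
    (p (nat_lit 0x111) (nat_lit 1) (p (nat_lit 0xd1) (nat_lit 1) (p (nat_lit 0x81) (nat_lit 0) (p (nat_lit 0x41) (nat_lit 1) (p (nat_lit 0x10a898a08881a) (nat_lit 0) (p (nat_lit 0x8a090988079a) (nat_lit 0) (p (nat_lit 0x108088907871a) (nat_lit 0) (p (nat_lit 0x87880887069a) (nat_lit 0) (p (nat_lit 0x8000080000000088806860a) (nat_lit 0) (p (nat_lit 0x8000080000000068786058a) (nat_lit 0) (p (nat_lit 0x10687058502) (nat_lit 0) (p (nat_lit 0x8606850482) (nat_lit 0) (p (nat_lit 0x160004) (nat_lit 0) (p (nat_lit 0x68612) (nat_lit 0) (p (nat_lit 0x50592) (nat_lit 0) (p (nat_lit 0x40512) (nat_lit 0) (p (nat_lit 0x50312) (nat_lit 0) (p (nat_lit 0x38292) (nat_lit 0) (p (nat_lit 0x28212) (nat_lit 0) (p (nat_lit 0x38112) (nat_lit 0) (p (nat_lit 0x20092) (nat_lit 0) (p (nat_lit 0x10012) (nat_lit 0) pn)))))))))))))))))))))) :=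
  Cl.node (nat_lit 0x89) (nat_lit 2) (by decide +kernel) (ClAll.succ (ClAll.succ ClAll.zero s1465) n778)

def n795 : Cl (O (nat_lit 6)) (R (nat_lit 143633))
    (p (nat_lit 0x119) (nat_lit 0) (p (nat_lit 0xc1) (nat_lit 0) (p (nat_lit 0x81) (nat_lit 1) (p (nat_lit 0x41) (nat_lit 1) (p (nat_lit 0x10a898a08881a) (nat_lit 0) (p (nat_lit 0x8a090988079a) (nat_lit 0) (p (nat_lit 0x108088907871a) (nat_lit 0) (p (nat_lit 0x87880887069a) (nat_lit 0) (p (nat_lit 0x8000080000000088806860a) (nat_lit 0) (p (nat_lit 0x8000080000000068786058a) (nat_lit 0) (p (nat_lit 0x10687058502) (nat_lit 0) (p (nat_lit 0x8606850482) (nat_lit 0) (p (nat_lit 0x160004) (nat_lit 0) (p (nat_lit 0x68612) (nat_lit 0) (p (nat_lit 0x50592) (nat_lit 0) (p (nat_lit 0x40512) (nat_lit 0) (p (nat_lit 0x50312) (nat_lit 0) (p (nat_lit 0x38292) (nat_lit 0) (p (nat_lit 0x28212) (nat_lit 0) (p (nat_lit 0x38112) (nat_lit 0)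 (p (nat_lit 0x20092) (nat_lit 0) (p (nat_lit 0x10012) (nat_lit 0) pn)))))))))))))))))))))) :=
  Cl.node (nat_lit 0x101) (nat_lit 2) (by decide +kernel) (ClAll.succ (ClAll.succ ClAll.zero n779) n780)

def n796 : Cl (O (nat_lit 6)) (R (nat_lit 143633))
    (p (nat_lit 0x119) (nat_lit 1) (p (nat_lit 0xc1) (nat_lit 0) (p (nat_lit 0x81) (nat_lit 1) (p (nat_lit 0x41) (nat_lit 1) (p (nat_lit 0x10a898a08881a) (nat_lit 0) (p (nat_lit 0x8a090988079a) (nat_lit 0) (p (nat_lit 0x108088907871a) (nat_lit 0) (p (nat_lit 0x87880887069a) (nat_lit 0) (p (nat_lit 0x8000080000000088806860a) (nat_lit 0) (p (nat_lit 0x8000080000000068786058a) (nat_lit 0) (p (nat_lit 0x10687058502) (nat_lit 0) (p (nat_lit 0x8606850482) (nat_lit 0) (p (nat_lit 0x160004) (nat_lit 0) (p (nat_lit 0x68612) (nat_lit 0) (p (nat_lit 0x50592) (nat_lit 0) (p (nat_lit 0x40512) (nat_lit 0) (p (nat_lit 0x50312) (nat_lit 0) (p (nat_lit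 0x38292) (nat_lit 0) (p (nat_lit 0x28212) (nat_lit 0) (p (nat_lit 0x38112) (nat_lit 0) (p (nat_lit 0x20092) (nat_lit 0) (p (nat_lit 0x10012) (nat_lit 0) pn)))))))))))))))))))))) :=
  Cl.node (nat_lit 0xc9) (nat_lit 2) (by decide +kernel) (ClAll.succ (ClAll.succ ClAll.zero n781) n782)

def n797 : Cl (O (nat_lit 6)) (R (nat_lit 143633))
    (p (nat_lit 0x101) (nat_lit 0) (p (nat_lit 0xc1) (nat_lit 1) (p (nat_lit 0x81) (nat_lit 1) (p (nat_lit 0x41) (nat_lit 1) (p (nat_lit 0x10a898a08881a) (nat_lit 0) (p (nat_lit 0x8a090988079a) (nat_lit 0) (p (nat_lit 0x108088907871a) (nat_lit 0) (p (nat_lit 0x87880887069a) (nat_lit 0) (p (nat_lit 0x8000080000000088806860a) (nat_lit 0) (p (nat_lit 0x8000080000000068786058a) (nat_lit 0) (p (nat_lit 0x10687058502) (nat_lit 0) (p (nat_lit 0x8606850482) (nat_lit 0) (p (nat_lit 0x160004) (nat_lit 0) (p (nat_lit 0x68612) (nat_lit 0) (p (nat_lit 0x50592)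 (nat_lit 0) (p (nat_lit 0x40512) (nat_lit 0) (p (nat_lit 0x50312) (nat_lit 0) (p (nat_lit 0x38292) (nat_lit 0) (p (nat_lit 0x28212) (nat_lit 0) (p (nat_lit 0x38112) (nat_lit 0) (p (nat_lit 0x20092) (nat_lit 0) (p (nat_lit 0x10012) (nat_lit 0) pn)))))))))))))))))))))) :=
  Cl.node (nat_lit 0x109) (nat_lit 2) (by decide +kernel) (ClAll.succ (ClAll.succ ClAll.zero n783) s1787)

def n798 : Cl (O (nat_lit 6)) (R (nat_lit 143633))
    (p (nat_lit 0xd1) (nat_lit 0) (p (nat_lit 0x89) (nat_lit 0) (p (nat_lit 0x41) (nat_lit 0) (p (nat_lit 0x10a898a08881a) (nat_lit 0) (p (nat_lit 0x8a090988079a) (nat_lit 0) (p (nat_lit 0x108088907871a) (nat_lit 0) (p (nat_lit 0x87880887069a) (nat_lit 0) (p (nat_lit 0x8000080000000088806860a) (nat_lit 0) (p (nat_lit 0x8000080000000068786058a) (nat_lit 0) (p (nat_lit 0x10687058502) (nat_lit 0) (p (nat_lit 0x8606850482) (nat_lit 0) (p (nat_lit 0x160004) (nat_lit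 0) (p (nat_lit 0x68612) (nat_lit 0) (p (nat_lit 0x50592) (nat_lit 0) (p (nat_lit 0x40512) (nat_lit 0) (p (nat_lit 0x50312) (nat_lit 0) (p (nat_lit 0x38292) (nat_lit 0) (p (nat_lit 0x28212) (nat_lit 0) (p (nat_lit 0x38112) (nat_lit 0) (p (nat_lit 0x20092) (nat_lit 0) (p (nat_lit 0x10012) (nat_lit 0) pn))))))))))))))))))))) :=
  Cl.node (nat_lit 0x119) (nat_lit 2) (by decide +kernel) (ClAll.succ (ClAll.succ ClAll.zero n784) n785)

def n799 : Cl (O (nat_lit 6)) (R (nat_lit 143633))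
    (p (nat_lit 0xd1) (nat_lit 1) (p (nat_lit 0x89) (nat_lit 0) (p (nat_lit 0x41) (nat_lit 0) (p (nat_lit 0x10a898a08881a) (nat_lit 0) (p (nat_lit 0x8a090988079a) (nat_lit 0) (p (nat_lit 0x108088907871a) (nat_lit 0) (p (nat_lit 0x87880887069a) (nat_lit 0) (p (nat_lit 0x8000080000000088806860a) (nat_lit 0) (p (nat_lit 0x8000080000000068786058a) (nat_lit 0) (p (nat_lit 0x10687058502) (nat_lit 0) (p (nat_lit 0x8606850482) (nat_lit 0) (p (nat_lit 0x160004) (nat_lit 0) (p (nat_lit 0x68612) (nat_lit 0) (p (nat_lit 0x50592) (nat_lit 0) (p (nat_lit 0x40512) (nat_lit 0) (p (nat_lit 0x50312) (nat_lit 0) (p (nat_lit 0x38292) (nat_lit 0) (p (nat_lit 0x28212) (nat_lit 0) (p (nat_lit 0x38112) (nat_lit 0) (p (nat_lit 0x20092) (nat_lit 0) (p (nat_lit 0x10012) (nat_lit 0) pn))))))))))))))))))))) :=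
  Cl.node (nat_lit 0x111) (nat_lit 2) (by decide +kernel) (ClAll.succ (ClAll.succ ClAll.zero n786) n787)

def n800 : Cl (O (nat_lit 6)) (R (nat_lit 143633))
    (p (nat_lit 0xc9) (nat_lit 0) (p (nat_lit 0x89) (nat_lit 1) (p (nat_lit 0x41) (nat_lit 0) (p (nat_lit 0x10a898a08881a) (nat_lit 0) (p (nat_lit 0x8a090988079a) (nat_lit 0) (p (nat_lit 0x108088907871a) (nat_lit 0) (p (nat_lit 0x87880887069a) (nat_lit 0) (p (nat_lit 0x8000080000000088806860a) (nat_lit 0) (p (nat_lit 0x8000080000000068786058a) (nat_lit 0) (p (nat_lit 0x10687058502) (nat_lit 0) (p (nat_lit 0x8606850482) (nat_lit 0) (p (nat_lit 0x160004) (nat_lit 0) (p (nat_lit 0x68612) (nat_lit 0) (p (nat_lit 0x50592) (nat_lit 0) (p (nat_lit 0x40512) (nat_lit 0) (p (nat_lit 0x50312) (nat_lit 0) (p (nat_lit 0x38292) (nat_lit 0) (p (nat_lit 0x28212) (nat_lit 0) (p (nat_lit 0x38112) (nat_lit 0) (p (nat_lit 0x20092) (nat_lit 0)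 (p (nat_lit 0x10012) (nat_lit 0) pn))))))))))))))))))))) :=
  Cl.node (nat_lit 0x119) (nat_lit 2) (by decide +kernel) (ClAll.succ (ClAll.succ ClAll.zero n788) n789)

def n801 : Cl (O (nat_lit 6)) (R (nat_lit 143633))
    (p (nat_lit 0xc9) (nat_lit 1) (p (nat_lit 0x89) (nat_lit 1) (p (nat_lit 0x41) (nat_lit 0) (p (nat_lit 0x10a898a08881a) (nat_lit 0) (p (nat_lit 0x8a090988079a) (nat_lit 0) (p (nat_lit 0x108088907871a) (nat_lit 0) (p (nat_lit 0x87880887069a) (nat_lit 0) (p (nat_lit 0x8000080000000088806860a) (nat_lit 0) (p (nat_lit 0x8000080000000068786058a) (nat_lit 0) (p (nat_lit 0x10687058502) (nat_lit 0) (p (nat_lit 0x8606850482) (nat_lit 0) (p (nat_lit 0x160004) (nat_lit 0) (p (nat_lit 0x68612) (nat_lit 0) (p (nat_lit 0x50592) (nat_lit 0) (p (nat_lit 0x40512) (nat_lit 0) (p (nat_lit 0x50312) (nat_lit 0) (p (nat_lit 0x38292) (nat_lit 0) (p (nat_lit 0x28212) (nat_lit 0) (p (nat_lit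 0x38112) (nat_lit 0) (p (nat_lit 0x20092) (nat_lit 0) (p (nat_lit 0x10012) (nat_lit 0) pn))))))))))))))))))))) :=
  Cl.node (nat_lit 0x109) (nat_lit 2) (by decide +kernel) (ClAll.succ (ClAll.succ ClAll.zero n790) s1047)

def n802 : Cl (O (nat_lit 6)) (R (nat_lit 143633))
    (p (nat_lit 0xd1) (nat_lit 0) (p (nat_lit 0x81) (nat_lit 0) (p (nat_lit 0x41) (nat_lit 1) (p (nat_lit 0x10a898a08881a) (nat_lit 0) (p (nat_lit 0x8a090988079a) (nat_lit 0) (p (nat_lit 0x108088907871a) (nat_lit 0) (p (nat_lit 0x87880887069a) (nat_lit 0) (p (nat_lit 0x8000080000000088806860a) (nat_lit 0) (p (nat_lit 0x8000080000000068786058a) (nat_lit 0) (p (nat_lit 0x10687058502) (nat_lit 0) (p (nat_lit 0x8606850482) (nat_lit 0) (p (nat_lit 0x160004) (nat_lit 0) (p (nat_lit 0x68612) (nat_lit 0) (p (nat_lit 0x50592) (nat_lit 0) (p (nat_lit 0x40512) (nat_lit 0) (p (nat_lit 0x50312) (nat_lit 0) (p (nat_lit 0x38292)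 (nat_lit 0) (p (nat_lit 0x28212) (nat_lit 0) (p (nat_lit 0x38112) (nat_lit 0) (p (nat_lit 0x20092) (nat_lit 0) (p (nat_lit 0x10012) (nat_lit 0) pn))))))))))))))))))))) :=
  Cl.node (nat_lit 0x119) (nat_lit 2) (by decide +kernel) (ClAll.succ (ClAll.succ ClAll.zero n791) n792)

def n803 : Cl (O (nat_lit 6)) (R (nat_lit 143633))
    (p (nat_lit 0xd1) (nat_lit 1) (p (nat_lit 0x81) (nat_lit 0) (p (nat_lit 0x41) (nat_lit 1) (p (nat_lit 0x10a898a08881a) (nat_lit 0) (p (nat_lit 0x8a090988079a) (nat_lit 0) (p (nat_lit 0x108088907871a) (nat_lit 0) (p (nat_lit 0x87880887069a) (nat_lit 0) (p (nat_lit 0x8000080000000088806860a) (nat_lit 0) (p (nat_lit 0x8000080000000068786058a) (nat_lit 0) (p (nat_lit 0x10687058502) (nat_lit 0) (p (nat_lit 0x8606850482) (nat_lit 0) (p (nat_lit 0x160004) (nat_lit 0) (p (nat_lit 0x68612) (nat_lit 0) (p (nat_lit 0x50592) (nat_lit 0) (p (nat_lit 0x40512) (nat_lit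 0) (p (nat_lit 0x50312) (nat_lit 0) (p (nat_lit 0x38292) (nat_lit 0) (p (nat_lit 0x28212) (nat_lit 0) (p (nat_lit 0x38112) (nat_lit 0) (p (nat_lit 0x20092) (nat_lit 0) (p (nat_lit 0x10012) (nat_lit 0) pn))))))))))))))))))))) :=
  Cl.node (nat_lit 0x111) (nat_lit 2) (by decide +kernel) (ClAll.succ (ClAll.succ ClAll.zero n793) n794)

def n804 : Cl (O (nat_lit 6)) (R (nat_lit 143633))
    (p (nat_lit 0xc1) (nat_lit 0) (p (nat_lit 0x81) (nat_lit 1) (p (nat_lit 0x41) (nat_lit 1) (p (nat_lit 0x10a898a08881a) (nat_lit 0) (p (nat_lit 0x8a090988079a) (nat_lit 0) (p (nat_lit 0x108088907871a) (nat_lit 0) (p (nat_lit 0x87880887069a) (nat_lit 0) (p (nat_lit 0x8000080000000088806860a) (nat_lit 0) (p (nat_lit 0x8000080000000068786058a) (nat_lit 0) (p (nat_lit 0x10687058502) (nat_lit 0) (p (nat_lit 0x8606850482) (nat_lit 0) (p (nat_lit 0x160004) (nat_lit 0) (p (nat_lit 0x68612) (nat_lit 0) (p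 (nat_lit 0x50592) (nat_lit 0) (p (nat_lit 0x40512) (nat_lit 0) (p (nat_lit 0x50312) (nat_lit 0) (p (nat_lit 0x38292) (nat_lit 0) (p (nat_lit 0x28212) (nat_lit 0) (p (nat_lit 0x38112) (nat_lit 0) (p (nat_lit 0x20092) (nat_lit 0) (p (nat_lit 0x10012) (nat_lit 0) pn))))))))))))))))))))) :=
  Cl.node (nat_lit 0x119) (nat_lit 2) (by decide +kernel) (ClAll.succ (ClAll.succ ClAll.zero n795) n796)

def n805 : Cl (O (nat_lit 6)) (R (nat_lit 143633))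
    (p (nat_lit 0xc1) (nat_lit 1) (p (nat_lit 0x81) (nat_lit 1) (p (nat_lit 0x41) (nat_lit 1) (p (nat_lit 0x10a898a08881a) (nat_lit 0) (p (nat_lit 0x8a090988079a) (nat_lit 0) (p (nat_lit 0x108088907871a) (nat_lit 0) (p (nat_lit 0x87880887069a) (nat_lit 0) (p (nat_lit 0x8000080000000088806860a) (nat_lit 0) (p (nat_lit 0x8000080000000068786058a) (nat_lit 0) (p (nat_lit 0x10687058502) (nat_lit 0) (p (nat_lit 0x8606850482) (nat_lit 0) (p (nat_lit 0x160004) (nat_lit 0) (p (nat_lit 0x68612) (nat_lit 0) (p (nat_lit 0x50592) (nat_lit 0) (p (nat_lit 0x40512) (nat_lit 0) (p (nat_lit 0x50312) (nat_lit 0) (p (nat_lit 0x38292) (nat_lit 0) (p (nat_lit 0x28212) (nat_lit 0) (p (nat_lit 0x38112) (nat_lit 0) (p (nat_lit 0x20092) (nat_lit 0) (p (nat_lit 0x10012) (nat_lit 0) pn))))))))))))))))))))) :=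
  Cl.node (nat_lit 0x101) (nat_lit 2) (by decide +kernel) (ClAll.succ (ClAll.succ ClAll.zero n797) s1788)

def n806 : Cl (O (nat_lit 6)) (R (nat_lit 143633))
    (p (nat_lit 0x89) (nat_lit 0) (p (nat_lit 0x41) (nat_lit 0) (p (nat_lit 0x10a898a08881a) (nat_lit 0) (p (nat_lit 0x8a090988079a) (nat_lit 0) (p (nat_lit 0x108088907871a) (nat_lit 0) (p (nat_lit 0x87880887069a) (nat_lit 0) (p (nat_lit 0x8000080000000088806860a) (nat_lit 0) (p (nat_lit 0x8000080000000068786058a) (nat_lit 0) (p (nat_lit 0x10687058502) (nat_lit 0) (p (nat_lit 0x8606850482) (nat_lit 0) (p (nat_lit 0x160004) (nat_lit 0) (p (nat_lit 0x68612) (nat_lit 0) (p (nat_lit 0x50592) (nat_lit 0) (p (nat_lit 0x40512) (nat_lit 0) (p (nat_lit 0x50312) (nat_lit 0) (p (nat_lit 0x38292) (nat_lit 0) (p (nat_lit 0x28212) (nat_lit 0) (p (nat_lit 0x38112) (nat_lit 0) (p (nat_lit 0x20092) (nat_lit 0) (p (nat_lit 0x10012) (nat_lit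 0) pn)))))))))))))))))))) :=
  Cl.node (nat_lit 0xd1) (nat_lit 2) (by decide +kernel) (ClAll.succ (ClAll.succ ClAll.zero n798) n799)

def n807 : Cl (O (nat_lit 6)) (R (nat_lit 143633))
    (p (nat_lit 0x89) (nat_lit 1) (p (nat_lit 0x41) (nat_lit 0) (p (nat_lit 0x10a898a08881a) (nat_lit 0) (p (nat_lit 0x8a090988079a) (nat_lit 0) (p (nat_lit 0x108088907871a) (nat_lit 0) (p (nat_lit 0x87880887069a) (nat_lit 0) (p (nat_lit 0x8000080000000088806860a) (nat_lit 0) (p (nat_lit 0x8000080000000068786058a) (nat_lit 0) (p (nat_lit 0x10687058502) (nat_lit 0) (p (nat_lit 0x8606850482) (nat_lit 0) (p (nat_lit 0x160004) (nat_lit 0) (p (nat_lit 0x68612) (nat_lit 0) (p (nat_lit 0x50592) (nat_lit 0) (p (nat_lit 0x40512) (nat_lit 0) (p (nat_lit 0x50312) (nat_lit 0) (p (nat_lit 0x38292) (nat_lit 0) (p (nat_lit 0x28212) (nat_lit 0) (p (nat_lit 0x38112) (nat_lit 0) (p (nat_lit 0x20092) (nat_lit 0)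 (p (nat_lit 0x10012) (nat_lit 0) pn)))))))))))))))))))) :=
  Cl.node (nat_lit 0xc9) (nat_lit 2) (by decide +kernel) (ClAll.succ (ClAll.succ ClAll.zero n800) n801)

def n808 : Cl (O (nat_lit 6)) (R (nat_lit 143633))
    (p (nat_lit 0x81) (nat_lit 0) (p (nat_lit 0x41) (nat_lit 1) (p (nat_lit 0x10a898a08881a) (nat_lit 0) (p (nat_lit 0x8a090988079a) (nat_lit 0) (p (nat_lit 0x108088907871a) (nat_lit 0) (p (nat_lit 0x87880887069a) (nat_lit 0) (p (nat_lit 0x8000080000000088806860a) (nat_lit 0) (p (nat_lit 0x8000080000000068786058a) (nat_lit 0) (p (nat_lit 0x10687058502) (nat_lit 0) (p (nat_lit 0x8606850482) (nat_lit 0) (p (nat_lit 0x160004) (nat_lit 0) (p (nat_lit 0x68612) (nat_lit 0) (p (nat_lit 0x50592) (nat_lit 0) (p (nat_lit 0x40512) (nat_lit 0) (p (nat_lit 0x50312) (nat_lit 0) (p (nat_lit 0x38292) (nat_lit 0) (p (nat_lit 0x28212) (nat_lit 0) (p (nat_lit 0x38112) (nat_lit 0) (p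 (nat_lit 0x20092) (nat_lit 0) (p (nat_lit 0x10012) (nat_lit 0) pn)))))))))))))))))))) :=
  Cl.node (nat_lit 0xd1) (nat_lit 2) (by decide +kernel) (ClAll.succ (ClAll.succ ClAll.zero n802) n803)

def n809 : Cl (O (nat_lit 6)) (R (nat_lit 143633))
    (p (nat_lit 0x81) (nat_lit 1) (p (nat_lit 0x41) (nat_lit 1) (p (nat_lit 0x10a898a08881a) (nat_lit 0) (p (nat_lit 0x8a090988079a) (nat_lit 0) (p (nat_lit 0x108088907871a) (nat_lit 0) (p (nat_lit 0x87880887069a) (nat_lit 0) (p (nat_lit 0x8000080000000088806860a) (nat_lit 0) (p (nat_lit 0x8000080000000068786058a) (nat_lit 0) (p (nat_lit 0x10687058502) (nat_lit 0) (p (nat_lit 0x8606850482) (nat_lit 0) (p (nat_lit 0x160004) (nat_lit 0) (p (nat_lit 0x68612) (nat_lit 0) (p (nat_lit 0x50592) (nat_lit 0) (p (nat_lit 0x40512) (nat_lit 0) (p (nat_lit 0x50312) (nat_lit 0) (p (nat_lit 0x38292) (nat_lit 0) (p (nat_lit 0x28212) (nat_lit 0) (p (nat_lit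 0x38112) (nat_lit 0) (p (nat_lit 0x20092) (nat_lit 0) (p (nat_lit 0x10012) (nat_lit 0) pn)))))))))))))))))))) :=
  Cl.node (nat_lit 0xc1) (nat_lit 2) (by decide +kernel) (ClAll.succ (ClAll.succ ClAll.zero n804) n805)

def n810 : Cl (O (nat_lit 6)) (R (nat_lit 143633))
    (p (nat_lit 0x41) (nat_lit 0) (p (nat_lit 0x10a898a08881a) (nat_lit 0) (p (nat_lit 0x8a090988079a) (nat_lit 0) (p (nat_lit 0x108088907871a) (nat_lit 0) (p (nat_lit 0x87880887069a) (nat_lit 0) (p (nat_lit 0x8000080000000088806860a) (nat_lit 0) (p (nat_lit 0x8000080000000068786058a) (nat_lit 0) (p (nat_lit 0x10687058502) (nat_lit 0) (p (nat_lit 0x8606850482) (nat_lit 0) (p (nat_lit 0x160004) (nat_lit 0) (p (nat_lit 0x68612) (nat_lit 0) (p (nat_lit 0x50592) (nat_lit 0) (p (nat_lit 0x40512) (nat_lit 0) (p (nat_lit 0x50312) (nat_lit 0) (p (nat_lit 0x38292) (nat_lit 0) (p (nat_lit 0x28212) (nat_lit 0) (p (nat_lit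 0x38112) (nat_lit 0) (p (nat_lit 0x20092) (nat_lit 0) (p (nat_lit 0x10012) (nat_lit 0) pn))))))))))))))))))) :=
  Cl.node (nat_lit 0x89) (nat_lit 2) (by decide +kernel) (ClAll.succ (ClAll.succ ClAll.zero n806) n807)

def n811 : Cl (O (nat_lit 6)) (R (nat_lit 143633))
    (p (nat_lit 0x41) (nat_lit 1) (p (nat_lit 0x10a898a08881a) (nat_lit 0) (p (nat_lit 0x8a090988079a) (nat_lit 0) (p (nat_lit 0x108088907871a) (nat_lit 0) (p (nat_lit 0x87880887069a) (nat_lit 0) (p (nat_lit 0x8000080000000088806860a) (nat_lit 0) (p (nat_lit 0x8000080000000068786058a) (nat_lit 0) (p (nat_lit 0x10687058502) (nat_lit 0) (p (nat_lit 0x8606850482) (nat_lit 0) (p (nat_lit 0x160004) (nat_lit 0) (p (nat_lit 0x68612) (nat_lit 0) (p (nat_lit 0x50592) (nat_lit 0) (p (nat_lit 0x40512) (nat_lit 0) (p (nat_lit 0x50312) (nat_lit 0) (p (nat_lit 0x38292) (nat_lit 0) (p (nat_lit 0x28212) (nat_lit 0) (p (nat_lit 0x38112)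 (nat_lit 0) (p (nat_lit 0x20092) (nat_lit 0) (p (nat_lit 0x10012) (nat_lit 0) pn))))))))))))))))))) :=
  Cl.node (nat_lit 0x81) (nat_lit 2) (by decide +kernel) (ClAll.succ (ClAll.succ ClAll.zero n808) n809)

def n812 : Cl (O (nat_lit 6)) (R (nat_lit 143633))
    (p (nat_lit 0x10a898a08881a) (nat_lit 0) (p (nat_lit 0x8a090988079a) (nat_lit 0) (p (nat_lit 0x108088907871a) (nat_lit 0) (p (nat_lit 0x87880887069a) (nat_lit 0) (p (nat_lit 0x8000080000000088806860a) (nat_lit 0) (p (nat_lit 0x8000080000000068786058a) (nat_lit 0) (p (nat_lit 0x10687058502) (nat_lit 0) (p (nat_lit 0x8606850482) (nat_lit 0) (p (nat_lit 0x160004) (nat_lit 0) (p (nat_lit 0x68612) (nat_lit 0) (p (nat_lit 0x50592) (nat_lit 0) (p (nat_lit 0x40512) (nat_lit 0) (p (nat_lit 0x50312) (nat_lit 0) (p (nat_lit 0x38292) (nat_lit 0) (p (nat_lit 0x28212) (nat_lit 0) (p (nat_lit 0x38112) (nat_lit 0) (p (nat_lit 0x20092)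 (nat_lit 0) (p (nat_lit 0x10012) (nat_lit 0) pn)))))))))))))))))) :=
  Cl.node (nat_lit 0x41) (nat_lit 2) (by decide +kernel) (ClAll.succ (ClAll.succ ClAll.zero n810) n811)

def n813 : Cl (O (nat_lit 6)) (R (nat_lit 143633))
    (p (nat_lit 0x8a090988079a) (nat_lit 0) (p (nat_lit 0x108088907871a) (nat_lit 0) (p (nat_lit 0x87880887069a) (nat_lit 0) (p (nat_lit 0x8000080000000088806860a) (nat_lit 0) (p (nat_lit 0x8000080000000068786058a) (nat_lit 0) (p (nat_lit 0x10687058502) (nat_lit 0) (p (nat_lit 0x8606850482) (nat_lit 0) (p (nat_lit 0x160004) (nat_lit 0) (p (nat_lit 0x68612) (nat_lit 0) (p (nat_lit 0x50592) (nat_lit 0) (p (nat_lit 0x40512) (nat_lit 0) (p (nat_lit 0x50312) (nat_lit 0) (p (nat_lit 0x38292) (nat_lit 0) (p (nat_lit 0x28212) (nat_lit 0) (p (nat_lit 0x38112) (nat_lit 0) (p (nat_lit 0x20092) (nat_lit 0) (p (nat_lit 0x10012) (nat_lit 0) pn))))))))))))))))) :=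
  Cl.node (nat_lit 0x10a898a08881a) (nat_lit 1) (by decide +kernel) (ClAll.succ ClAll.zero n812)

def n814 : Cl (O (nat_lit 6)) (R (nat_lit 143633))
    (p (nat_lit 0x108088907871a) (nat_lit 0) (p (nat_lit 0x87880887069a) (nat_lit 0) (p (nat_lit 0x8000080000000088806860a) (nat_lit 0) (p (nat_lit 0x8000080000000068786058a) (nat_lit 0) (p (nat_lit 0x10687058502) (nat_lit 0) (p (nat_lit 0x8606850482) (nat_lit 0) (p (nat_lit 0x160004) (nat_lit 0) (p (nat_lit 0x68612) (nat_lit 0) (p (nat_lit 0x50592) (nat_lit 0) (p (nat_lit 0x40512) (nat_lit 0) (p (nat_lit 0x50312) (nat_lit 0) (p (nat_lit 0x38292) (nat_lit 0) (p (nat_lit 0x28212) (nat_lit 0) (p (nat_lit 0x38112) (nat_lit 0) (p (nat_lit 0x20092) (nat_lit 0) (p (nat_lit 0x10012) (nat_lit 0) pn)))))))))))))))) :=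
  Cl.node (nat_lit 0x8a090988079a) (nat_lit 1) (by decide +kernel) (ClAll.succ ClAll.zero n813)

def n815 : Cl (O (nat_lit 6)) (R (nat_lit 143633))
    (p (nat_lit 0x87880887069a) (nat_lit 0) (p (nat_lit 0x8000080000000088806860a) (nat_lit 0) (p (nat_lit 0x8000080000000068786058a) (nat_lit 0) (p (nat_lit 0x10687058502) (nat_lit 0) (p (nat_lit 0x8606850482) (nat_lit 0) (p (nat_lit 0x160004) (nat_lit 0) (p (nat_lit 0x68612) (nat_lit 0) (p (nat_lit 0x50592) (nat_lit 0) (p (nat_lit 0x40512) (nat_lit 0) (p (nat_lit 0x50312) (nat_lit 0) (p (nat_lit 0x38292) (nat_lit 0) (p (nat_lit 0x28212) (nat_lit 0) (p (nat_lit 0x38112) (nat_lit 0) (p (nat_lit 0x20092) (nat_lit 0) (p (nat_lit 0x10012) (nat_lit 0) pn))))))))))))))) :=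
  Cl.node (nat_lit 0x108088907871a) (nat_lit 1) (by decide +kernel) (ClAll.succ ClAll.zero n814)

def n816 : Cl (O (nat_lit 6)) (R (nat_lit 143633))
    (p (nat_lit 0x8000080000000088806860a) (nat_lit 0) (p (nat_lit 0x8000080000000068786058a) (nat_lit 0) (p (nat_lit 0x10687058502) (nat_lit 0) (p (nat_lit 0x8606850482) (nat_lit 0) (p (nat_lit 0x160004) (nat_lit 0) (p (nat_lit 0x68612) (nat_lit 0) (p (nat_lit 0x50592) (nat_lit 0) (p (nat_lit 0x40512) (nat_lit 0) (p (nat_lit 0x50312) (nat_lit 0) (p (nat_lit 0x38292) (nat_lit 0) (p (nat_lit 0x28212) (nat_lit 0) (p (nat_lit 0x38112) (nat_lit 0) (p (nat_lit 0x20092) (nat_lit 0) (p (nat_lit 0x10012) (nat_lit 0) pn)))))))))))))) :=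
  Cl.node (nat_lit 0x87880887069a) (nat_lit 1) (by decide +kernel) (ClAll.succ ClAll.zero n815)

def n817 : Cl (O (nat_lit 6)) (R (nat_lit 143633))
    (p (nat_lit 0x8000080000000068786058a) (nat_lit 0) (p (nat_lit 0x10687058502) (nat_lit 0) (p (nat_lit 0x8606850482) (nat_lit 0) (p (nat_lit 0x160004) (nat_lit 0) (p (nat_lit 0x68612) (nat_lit 0) (p (nat_lit 0x50592) (nat_lit 0) (p (nat_lit 0x40512) (nat_lit 0) (p (nat_lit 0x50312) (nat_lit 0) (p (nat_lit 0x38292) (nat_lit 0) (p (nat_lit 0x28212) (nat_lit 0) (p (nat_lit 0x38112) (nat_lit 0) (p (nat_lit 0x20092) (nat_lit 0) (p (nat_lit 0x10012) (nat_lit 0) pn))))))))))))) :=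
  Cl.node (nat_lit 0x8000080000000088806860a) (nat_lit 1) (by decide +kernel) (ClAll.succ ClAll.zero n816)

def n818 : Cl (O (nat_lit 6)) (R (nat_lit 143633))
    (p (nat_lit 0x10687058502) (nat_lit 0) (p (nat_lit 0x8606850482) (nat_lit 0) (p (nat_lit 0x160004) (nat_lit 0) (p (nat_lit 0x68612) (nat_lit 0) (p (nat_lit 0x50592) (nat_lit 0) (p (nat_lit 0x40512) (nat_lit 0) (p (nat_lit 0x50312) (nat_lit 0) (p (nat_lit 0x38292) (nat_lit 0) (p (nat_lit 0x28212) (nat_lit 0) (p (nat_lit 0x38112) (nat_lit 0) (p (nat_lit 0x20092) (nat_lit 0) (p (nat_lit 0x10012) (nat_lit 0) pn)))))))))))) :=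
  Cl.node (nat_lit 0x8000080000000068786058a) (nat_lit 1) (by decide +kernel) (ClAll.succ ClAll.zero n817)

def n819 : Cl (O (nat_lit 6)) (R (nat_lit 143633))
    (p (nat_lit 0x8606850482) (nat_lit 0) (p (nat_lit 0x160004) (nat_lit 0) (p (nat_lit 0x68612) (nat_lit 0) (p (nat_lit 0x50592) (nat_lit 0) (p (nat_lit 0x40512) (nat_lit 0) (p (nat_lit 0x50312) (nat_lit 0) (p (nat_lit 0x38292) (nat_lit 0) (p (nat_lit 0x28212) (nat_lit 0) (p (nat_lit 0x38112) (nat_lit 0) (p (nat_lit 0x20092) (nat_lit 0) (p (nat_lit 0x10012) (nat_lit 0) pn))))))))))) :=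
  Cl.node (nat_lit 0x10687058502) (nat_lit 1) (by decide +kernel) (ClAll.succ ClAll.zero n818)

def n820 : Cl (O (nat_lit 6)) (R (nat_lit 143633))
    (p (nat_lit 0x160004) (nat_lit 0) (p (nat_lit 0x68612) (nat_lit 0) (p (nat_lit 0x50592) (nat_lit 0) (p (nat_lit 0x40512) (nat_lit 0) (p (nat_lit 0x50312) (nat_lit 0) (p (nat_lit 0x38292) (nat_lit 0) (p (nat_lit 0x28212) (nat_lit 0) (p (nat_lit 0x38112) (nat_lit 0) (p (nat_lit 0x20092) (nat_lit 0) (p (nat_lit 0x10012) (nat_lit 0) pn)))))))))) :=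
  Cl.node (nat_lit 0x8606850482) (nat_lit 1) (by decide +kernel) (ClAll.succ ClAll.zero n819)

def n821 : Cl (O (nat_lit 6)) (R (nat_lit 143633))
    (p (nat_lit 0x68612) (nat_lit 0) (p (nat_lit 0x50592) (nat_lit 0) (p (nat_lit 0x40512) (nat_lit 0) (p (nat_lit 0x50312) (nat_lit 0) (p (nat_lit 0x38292) (nat_lit 0) (p (nat_lit 0x28212) (nat_lit 0) (p (nat_lit 0x38112) (nat_lit 0) (p (nat_lit 0x20092) (nat_lit 0) (p (nat_lit 0x10012) (nat_lit 0) pn))))))))) :=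
  Cl.node (nat_lit 0x160004) (nat_lit 2) (by decide +kernel) (ClAll.succ (ClAll.succ ClAll.zero n820) s1789)

def n822 : Cl (O (nat_lit 6)) (R (nat_lit 143633))
    (p (nat_lit 0x50592) (nat_lit 0) (p (nat_lit 0x40512) (nat_lit 0) (p (nat_lit 0x50312) (nat_lit 0) (p (nat_lit 0x38292) (nat_lit 0) (p (nat_lit 0x28212) (nat_lit 0) (p (nat_lit 0x38112) (nat_lit 0) (p (nat_lit 0x20092) (nat_lit 0) (p (nat_lit 0x10012) (nat_lit 0) pn)))))))) :=
  Cl.node (nat_lit 0x68612) (nat_lit 1) (by decide +kernel) (ClAll.succ ClAll.zero n821)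

def n823 : Cl (O (nat_lit 6)) (R (nat_lit 143633))
    (p (nat_lit 0x40512) (nat_lit 0) (p (nat_lit 0x50312) (nat_lit 0) (p (nat_lit 0x38292) (nat_lit 0) (p (nat_lit 0x28212) (nat_lit 0) (p (nat_lit 0x38112) (nat_lit 0) (p (nat_lit 0x20092) (nat_lit 0) (p (nat_lit 0x10012) (nat_lit 0) pn))))))) :=
  Cl.node (nat_lit 0x50592) (nat_lit 1) (by decide +kernel) (ClAll.succ ClAll.zero n822)

def n824 : Cl (O (nat_lit 6)) (R (nat_lit 143633))
    (p (nat_lit 0x50312) (nat_lit 0) (p (nat_lit 0x38292) (nat_lit 0) (p (nat_lit 0x28212) (nat_lit 0) (p (nat_lit 0x38112) (nat_lit 0) (p (nat_lit 0x20092) (nat_lit 0) (p (nat_lit 0x10012) (nat_lit 0) pn)))))) :=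
  Cl.node (nat_lit 0x40512) (nat_lit 1) (by decide +kernel) (ClAll.succ ClAll.zero n823)

def n825 : Cl (O (nat_lit 6)) (R (nat_lit 143633))
    (p (nat_lit 0x38292) (nat_lit 0) (p (nat_lit 0x28212) (nat_lit 0) (p (nat_lit 0x38112) (nat_lit 0) (p (nat_lit 0x20092) (nat_lit 0) (p (nat_lit 0x10012) (nat_lit 0) pn))))) :=
  Cl.node (nat_lit 0x50312) (nat_lit 1) (by decide +kernel) (ClAll.succ ClAll.zero n824)

def n826 : Cl (O (nat_lit 6)) (R (nat_lit 143633))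
    (p (nat_lit 0x28212) (nat_lit 0) (p (nat_lit 0x38112) (nat_lit 0) (p (nat_lit 0x20092) (nat_lit 0) (p (nat_lit 0x10012) (nat_lit 0) pn)))) :=
  Cl.node (nat_lit 0x38292) (nat_lit 1) (by decide +kernel) (ClAll.succ ClAll.zero n825)

def n827 : Cl (O (nat_lit 6)) (R (nat_lit 143633))
    (p (nat_lit 0x38112) (nat_lit 0) (p (nat_lit 0x20092) (nat_lit 0) (p (nat_lit 0x10012) (nat_lit 0) pn))) :=
  Cl.node (nat_lit 0x28212) (nat_lit 1) (by decide +kernel) (ClAll.succ ClAll.zero n826)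

def n828 : Cl (O (nat_lit 6)) (R (nat_lit 143633))
    (p (nat_lit 0x20092) (nat_lit 0) (p (nat_lit 0x10012) (nat_lit 0) pn)) :=
  Cl.node (nat_lit 0x38112) (nat_lit 1) (by decide +kernel) (ClAll.succ ClAll.zero n827)

def n829 : Cl (O (nat_lit 6)) (R (nat_lit 143633))
    (p (nat_lit 0x10012) (nat_lit 0) pn) :=
  Cl.node (nat_lit 0x20092) (nat_lit 1) (by decide +kernel) (ClAll.succ ClAll.zero n828)

def n830 : Cl (O (nat_lit 6)) (R (nat_lit 143633))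
    pn :=
  Cl.node (nat_lit 0x10012) (nat_lit 1) (by decide +kernel) (ClAll.succ ClAll.zero n829)

theorem top : Cl (O (nat_lit 6)) (R (nat_lit 143633)) pn := n830

end Pool.Agent.Gen.F5.X12DC3Dm6
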